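import Mathlib
import Pool.Agent.Lib.MP_89bcae_ag.DefsB7

section

/-!
# Simple collisions of integral polynomials
-/

open Polynomial

open scoped Classical

set_option linter.unusedSimpArgs false
set_option linter.unusedVariables false
set_option linter.unusedSectionVars false

namespace Pool.Agent.Lib.MP_89bcae_ag

/-- A simple collision modulo the prime `p` of polynomials with integral coefficients. -/
def IsCollisionZ8 (p : ℕ) (g D : ℤ[X]) : Prop :=
  ∃ (a : ℤ) (h : (ZMod p)[X]),
    D.map (Int.castRingHom (ZMod p)) = (X - C (a : ZMod p)) ^ 2 * h ∧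
    (((X - C (a : ZMod p)) * h).comp (g.map (Int.castRingHom (ZMod p)))).Separable ∧
    ¬ ((p : ℤ) ^ 2 ∣ D.eval a)

theorem isCollision7_of_int8 {p : ℕ} (hp : p.Prime) (R : Type*) [CommRing R] [IsDomain R]
    [IsLocalRing R] [Algebra ℤ R] [hP : (Ideal.span {(p : ℤ)}).IsPrime]
    [IsLocalization.AtPrime R (Ideal.span {(p : ℤ)})] {g D : ℤ[X]} (h : IsCollisionZ8 p g D) :
    IsCollision7 (g.map (algebraMap ℤ R)) (D.map (algebraMap ℤ R)) := by
  obtain ⟨a, h, hD, hsep, ha⟩ := h
  have hmax : IsLocalRing.maximalIdeal R = Ideal.span {(algebraMap ℤ R p)} := by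
    rw [← IsLocalization.AtPrime.map_eq_maximalIdeal (Ideal.span {(p : ℤ)}) R, Ideal.map_span,
      Set.image_singleton]
  have hp0 : ((p : ℕ) : IsLocalRing.ResidueField R) = 0 := by
    have h1 : IsLocalRing.residue R (algebraMap ℤ R p) = 0 := by
      rw [IsLocalRing.residue_eq_zero_iff, hmax]
      exact Ideal.mem_span_singleton_self _
    simpa using h1
  have : CharP (IsLocalRing.ResidueField R) p := (CharP.charP_iff_prime_eq_zero hp).mpr hp0
  let φ : ZMod p →+* IsLocalRing.ResidueField R := ZMod.castHom (dvd_refl p) _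
  have hφ : (IsLocalRing.residue R).comp (algebraMap ℤ R) = φ.comp (Int.castRingHom (ZMod p)) :=
    RingHom.ext_int _ _
  have hφa : IsLocalRing.residue R (algebraMap ℤ R a) = φ (a : ZMod p) := RingHom.congr_fun hφ a
  refine ⟨algebraMap ℤ R a, h.map φ, ?_, ?_, ?_⟩
  · rw [Polynomial.map_map, hφ, ← Polynomial.map_map, hD, hφa]
    simp
  · rw [Polynomial.map_map, hφ, ← Polynomial.map_map, hφa]
    have h1 := hsep.map (f := φ)
    rw [Polynomial.map_comp, Polynomial.map_mul, Polynomial.map_sub, map_X, map_C] at h1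
    exact h1
  · rw [hmax, Ideal.span_singleton_pow, Ideal.mem_span_singleton, eval_map,
      eval₂_at_apply]
    rintro ⟨q, hq⟩
    obtain ⟨⟨x, s⟩, hxs⟩ := IsLocalization.surj (Ideal.span {(p : ℤ)}).primeCompl q
    have hinj : Function.Injective (algebraMap ℤ R) :=
      IsLocalization.injective R (Ideal.primeCompl_le_nonZeroDivisors (Ideal.span {(p : ℤ)}))
    have h1 : D.eval a * s = (p : ℤ) ^ 2 * x := by
      apply hinj
      have h2 : algebraMap ℤ R (D.eval a) = algebraMap ℤ R p ^ 2 * q := by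
        rw [← hq]
      rw [map_mul, map_mul, map_pow, h2, ← hxs]
      ring
    have h3 : IsCoprime ((p : ℤ) ^ 2) (s : ℤ) := by
      apply IsCoprime.pow_left
      rw [Prime.coprime_iff_not_dvd (Nat.prime_iff_prime_int.mp hp)]
      intro h4
      exact s.2 (Ideal.mem_span_singleton.mpr h4)
    exact ha (h3.dvd_of_dvd_mul_right ⟨x, h1⟩)

end Pool.Agent.Lib.MP_89bcae_ag

end

section

/-!
# The number of the polynomials with a simple collision modulo `p ^ 2`
-/

open Polynomial

open scoped Classical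

set_option linter.unusedSimpArgs false
set_option linter.unusedVariables false
set_option linter.unusedSectionVars false

namespace Pool.Agent.Lib.MP_89bcae_ag

/-- The polynomial with the given coefficients. -/
noncomputable def polyOf8 {R : Type*} [CommRing R] {n : ℕ} (v : Fin (n + 1) → R) : R[X] :=
  ∑ i : Fin (n + 1), C (v i) * X ^ (i : ℕ)

/-- The reduction modulo `p` of a vector modulo `p ^ 2`. -/
def red8 (p : ℕ) {n : ℕ} (v : Fin (n + 1) → ZMod (p ^ 2)) : Fin (n + 1) → ZMod p :=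
  fun i => ZMod.castHom (dvd_pow_self p two_ne_zero) (ZMod p) (v i)

/-- The residue classes modulo `p ^ 2` of the polynomials with a simple collision. -/
def TypeC8 (p : ℕ) (g : ℤ[X]) (n : ℕ) (v : Fin (n + 1) → ZMod (p ^ 2)) : Prop :=
  ∃ (a : ℤ) (h : (ZMod p)[X]), polyOf8 (red8 p v) = (X - C (a : ZMod p)) ^ 2 * h ∧
    (((X - C (a : ZMod p)) * h).comp (g.map (Int.castRingHom (ZMod p)))).Separable ∧
    ∑ i : Fin (n + 1), v i * (a : ZMod (p ^ 2)) ^ (i : ℕ) ≠ 0 ∧ red8 p v (Fin.last n) ≠ 0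

theorem polyOf_coeff8 {R : Type*} [CommRing R] {n : ℕ} {D : R[X]} (hD : D.natDegree ≤ n) :
    polyOf8 (fun i : Fin (n + 1) => D.coeff i) = D := by
  unfold polyOf8
  rw [Fin.sum_univ_eq_sum_range (fun i => C (D.coeff i) * X ^ i)]
  exact (as_sum_range_C_mul_X_pow' _ (Nat.lt_succ_of_le hD)).symm

theorem isCollisionZ8_of_typeC8 {p : ℕ} {g : ℤ[X]} {n : ℕ} {D : ℤ[X]} (hD : D.natDegree ≤ n)
    (h : TypeC8 p g n (fun i => (D.coeff i : ZMod (p ^ 2)))) :
    IsCollisionZ8 p g D ∧ ¬ (p : ℤ) ∣ D.coeff n := by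
  obtain ⟨a, h, h1, h2, h3, h4⟩ := h
  have hred : red8 p (fun i : Fin (n + 1) => (D.coeff i : ZMod (p ^ 2))) =
      fun i : Fin (n + 1) => (D.map (Int.castRingHom (ZMod p))).coeff i := by
    funext i
    unfold red8
    rw [map_intCast, coeff_map]
    rfl
  refine ⟨⟨a, h, ?_, h2, ?_⟩, ?_⟩
  · rw [← h1, hred, polyOf_coeff8 (natDegree_map_le.trans hD)]
  · intro hdvd
    apply h3
    have h5 : ((D.eval a : ℤ) : ZMod (p ^ 2)) = 0 := by
      rw [ZMod.intCast_zmod_eq_zero_iff_dvd]
      exact_mod_cast hdvd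
    rw [← h5, eval_eq_sum_range' (Nat.lt_succ_of_le hD)]
    rw [← Fin.sum_univ_eq_sum_range (fun i => D.coeff i * a ^ i)]
    push_cast
    rfl
  · intro hdvd
    apply h4
    rw [hred]
    show (D.map (Int.castRingHom (ZMod p))).coeff (Fin.last n : ℕ) = 0
    rw [Fin.val_last, coeff_map]
    exact (ZMod.intCast_zmod_eq_zero_iff_dvd _ _).mpr hdvd

section Crit

variable {K : Type*} [Field K]

/-- A monic cubic takes at most two critical values. -/
theorem card_crit8 (h3 : (3 : K) ≠ 0) {g : K[X]} (hg : g.Monic) (hdeg : g.natDegree = 3)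
    (S : Finset K) (hS : ∀ e ∈ S, ¬ (g - C e).Separable) : S.card ≤ 2 := by
  let L := AlgebraicClosure K
  have hder : derivative g ≠ 0 := by
    intro h0
    have h1 : (derivative g).coeff 2 = 0 := by rw [h0, coeff_zero]
    rw [coeff_derivative] at h1
    have h4 : g.coeff 3 = 1 := by rw [← hdeg]; exact hg
    have h5 : g.coeff (2 + 1) = 1 := h4
    rw [h5, one_mul] at h1
    apply h3
    rw [← h1]
    norm_num
  have hex : ∀ e ∈ S, ∃ θ ∈ ((derivative g).aroots L).toFinset, aeval θ g = algebraMap K L e := by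
    intro e he
    have h1 := hS e he
    rw [Polynomial.Separable, Polynomial.isCoprime_iff_aeval_ne_zero_of_isAlgClosed K L] at h1
    push Not at h1
    obtain ⟨θ, h4, h5⟩ := h1
    rw [derivative_sub, derivative_C, sub_zero] at h5
    rw [map_sub, aeval_C, sub_eq_zero] at h4
    exact ⟨θ, by rw [Multiset.mem_toFinset, mem_aroots]; exact ⟨hder, h5⟩, h4⟩
  choose! f hf1 hf2 using hex
  have h6 : S.card ≤ ((derivative g).aroots L).toFinset.card := by
    apply Finset.card_le_card_of_injOn f hf1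
    intro x hx y hy hxy
    apply (algebraMap K L).injective
    rw [← hf2 x hx, ← hf2 y hy, hxy]
  refine h6.trans ((Multiset.toFinset_card_le _).trans ?_)
  refine (card_roots' _).trans ?_
  rw [natDegree_map]
  have := natDegree_derivative_le g
  omega

end Crit

section Count

variable {p : ℕ} [Fact p.Prime]

/-- The polynomial with the leading coefficient `c`, the simple roots `S \ {a}` and the double root
`a`. -/
noncomputable def polC8 (c : ZMod p) (S : Finset (ZMod p)) (a : ZMod p) : (ZMod p)[X] :=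
  C c * ((X - C a) * ∏ e ∈ S, (X - C e))

theorem natDegree_polC8 {c : ZMod p} (hc : c ≠ 0) (S : Finset (ZMod p)) (a : ZMod p) :
    (polC8 c S a).natDegree = S.card + 1 ∧ (polC8 c S a).leadingCoeff = c := by
  have h1 : (∏ e ∈ S, (X - C e : (ZMod p)[X])).Monic := monic_prod_X_sub_C _ _
  have h2 : ((X - C a) * ∏ e ∈ S, (X - C e : (ZMod p)[X])).Monic := (monic_X_sub_C a).mul h1
  unfold polC8
  constructor
  · rw [natDegree_C_mul hc, (monic_X_sub_C a).natDegree_mul h1, natDegree_X_sub_C,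
      natDegree_prod_of_monic _ _ (fun e _ => monic_X_sub_C e)]
    simp
    ring
  · rw [leadingCoeff_mul, leadingCoeff_C, h2.leadingCoeff, mul_one]

theorem roots_polC8 {c : ZMod p} (hc : c ≠ 0) (S : Finset (ZMod p)) {a : ZMod p} (ha : a ∈ S) :
    (polC8 c S a).roots.toFinset = S := by
  have h1 : (∏ e ∈ S, (X - C e : (ZMod p)[X])).Monic := monic_prod_X_sub_C _ _
  have h2 : ((X - C a) * ∏ e ∈ S, (X - C e : (ZMod p)[X])).Monic := (monic_X_sub_C a).mul h1
  unfold polC8
  rw [roots_C_mul _ hc, roots_mul h2.ne_zero, roots_X_sub_C, roots_prod_X_sub_C]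
  ext x
  simp
  intro h
  rw [h]; exact ha

theorem polC8_eq {c : ZMod p} {S : Finset (ZMod p)} {a : ZMod p} (ha : a ∈ S) :
    polC8 c S a = (X - C a) ^ 2 * (C c * ∏ e ∈ S.erase a, (X - C e)) := by
  unfold polC8
  rw [← Finset.mul_prod_erase S _ ha]
  ring

theorem separable_polC8 {c : ZMod p} (hc : c ≠ 0) {S : Finset (ZMod p)} {a : ZMod p} (ha : a ∈ S)
    {g : (ZMod p)[X]} (hS : ∀ e ∈ S, (g - C e).Separable) :
    (((X - C a) * (C c * ∏ e ∈ S.erase a, (X - C e))).comp g).Separable := by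
  have h1 : ((X - C a) * (C c * ∏ e ∈ S.erase a, (X - C e))).comp g =
      C c * ∏ e ∈ S, (g - C e) := by
    rw [mul_left_comm, Finset.mul_prod_erase S (fun e => (X - C e : (ZMod p)[X])) ha, mul_comp,
      C_comp, prod_comp]
    congr 1
    exact Finset.prod_congr rfl fun e _ => by rw [sub_comp, X_comp, C_comp]
  rw [h1]
  have h2 : (∏ e ∈ S, (g - C e)).Separable := by
    apply separable_prod'
    · intro x hx y hy hxy
      refine ⟨C ((y - x)⁻¹), -C ((y - x)⁻¹), ?_⟩
      have h3 : C ((y - x)⁻¹) * C (y - x) = (1 : (ZMod p)[X]) := by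
        rw [← C_mul, inv_mul_cancel₀ (sub_ne_zero.mpr (Ne.symm hxy)), C_1]
      rw [C_sub] at h3
      linear_combination h3
    · exact hS
  have h3 : (C c : (ZMod p)[X]).Separable := separable_C c |>.mpr (isUnit_iff_ne_zero.mpr hc)
  refine h3.mul h2 ⟨C c⁻¹, 0, ?_⟩
  rw [zero_mul, add_zero, ← C_mul, inv_mul_cancel₀ hc, C_1]

/-- The number of the lifts of a set of vectors modulo `p`. -/
theorem card_lift8 (k : ℕ) (B : Finset (Fin (k + 1) → ZMod p)) :
    B.card * p ^ (k + 1) ≤
      (Finset.univ.filter fun v : Fin (k + 1) → ZMod (p ^ 2) => red8 p v ∈ B).card := by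
  have hp : p.Prime := Fact.out
  have hp0 : 0 < p := hp.pos
  have : NeZero p := ⟨hp0.ne'⟩
  have h1 : (B ×ˢ (Finset.univ : Finset (Fin (k + 1) → Fin p))).card = B.card * p ^ (k + 1) := by
    rw [Finset.card_product, Finset.card_univ, Fintype.card_fun, Fintype.card_fin,
      Fintype.card_fin]
  rw [← h1]
  have hlt : ∀ (b : ZMod p) (w : Fin p), b.val + p * (w : ℕ) < p ^ 2 := by
    intro b w
    have h2 := ZMod.val_lt b
    have h3 := w.2
    have h4 : p * ((w : ℕ) + 1) ≤ p * p := Nat.mul_le_mul_left p h3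
    rw [sq]
    nlinarith
  apply Finset.card_le_card_of_injOn
    (fun q i => (((q.1 i).val + p * (q.2 i : ℕ) : ℕ) : ZMod (p ^ 2)))
  · rintro ⟨b, w⟩ hq
    rw [Finset.mem_coe, Finset.mem_product] at hq
    rw [Finset.mem_coe, Finset.mem_filter]
    refine ⟨Finset.mem_univ _, ?_⟩
    have h2 : red8 p (fun i => (((b i).val + p * (w i : ℕ) : ℕ) : ZMod (p ^ 2))) = b := by
      funext i
      unfold red8
      rw [map_natCast]
      push_cast
      rw [ZMod.natCast_self, zero_mul, add_zero, ZMod.natCast_zmod_val]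
    show red8 p (fun i => (((b i).val + p * (w i : ℕ) : ℕ) : ZMod (p ^ 2))) ∈ B
    rw [h2]
    exact hq.1
  · rintro ⟨b, w⟩ _ ⟨b', w'⟩ _ h
    have h2 : ∀ i, (b i).val + p * (w i : ℕ) = (b' i).val + p * (w' i : ℕ) := by
      intro i
      have h3 := congrFun h i
      change (((b i).val + p * (w i : ℕ) : ℕ) : ZMod (p ^ 2)) =
        (((b' i).val + p * (w' i : ℕ) : ℕ) : ZMod (p ^ 2)) at h3
      rw [ZMod.natCast_eq_natCast_iff] at h3
      exact Nat.ModEq.eq_of_lt_of_lt h3 (hlt _ _) (hlt _ _)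
    have h3 : b = b' := by
      funext i
      apply ZMod.val_injective
      have h4 := congrArg (· % p) (h2 i)
      simp only [Nat.add_mul_mod_self_left, Nat.mod_eq_of_lt (ZMod.val_lt _)] at h4
      exact h4
    subst h3
    have h4 : w = w' := by
      funext i
      apply Fin.ext
      have h5 := h2 i
      exact Nat.eq_of_mul_eq_mul_left hp0 (by omega)
    rw [h4]

/-- A root chosen in a nonempty set. -/
noncomputable def pick8 (S : Finset (ZMod p)) : ZMod p := if h : S.Nonempty then h.choose else 0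

theorem pick_mem8 {S : Finset (ZMod p)} (h : S.Nonempty) : pick8 S ∈ S := by
  unfold pick8
  rw [dif_pos h]
  exact h.choose_spec

/-- The number of the polynomials modulo `p` with one double root. -/
theorem card_polC8 (m : ℕ) (hm : 1 ≤ m) (A : Finset (ZMod p)) :
    (((Finset.univ.filter fun c : ZMod p => c ≠ 0) ×ˢ A.powersetCard m).image
      (fun q => fun i : Fin (m + 2) => (polC8 q.1 q.2 (pick8 q.2)).coeff i)).card =
      (p - 1) * A.card.choose m := by
  have hp : p.Prime := Fact.out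
  have : NeZero p := ⟨hp.ne_zero⟩
  rw [Finset.card_image_of_injOn, Finset.card_product, Finset.card_powersetCard]
  · congr 1
    rw [Finset.filter_ne', Finset.card_erase_of_mem (Finset.mem_univ _), Finset.card_univ,
      ZMod.card]
  · rintro ⟨c, S⟩ hq ⟨c', S'⟩ hq' h
    rw [Finset.mem_coe, Finset.mem_product, Finset.mem_filter, Finset.mem_powersetCard] at hq hq'
    have hc : c ≠ 0 := hq.1.2
    have hc' : c' ≠ 0 := hq'.1.2
    have hS : S.card = m := hq.2.2
    have hS' : S'.card = m := hq'.2.2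
    have hne : S.Nonempty := Finset.card_pos.mp (by omega)
    have hne' : S'.Nonempty := Finset.card_pos.mp (by omega)
    obtain ⟨h1, h2⟩ := natDegree_polC8 hc S (pick8 S)
    obtain ⟨h1', h2'⟩ := natDegree_polC8 hc' S' (pick8 S')
    have h3 : polC8 c S (pick8 S) = polC8 c' S' (pick8 S') := by
      rw [← polyOf_coeff8 (n := m + 1) (D := polC8 c S (pick8 S)) (by omega),
        ← polyOf_coeff8 (n := m + 1) (D := polC8 c' S' (pick8 S')) (by omega)]
      exact congrArg polyOf8 h
    have h4 : c = c' := by rw [← h2, h3, h2']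
    have h5 : S = S' := by
      rw [← roots_polC8 hc S (pick_mem8 hne), h3, roots_polC8 hc' S' (pick_mem8 hne')]
    rw [h4, h5]

theorem count_typeC_aux8 (m : ℕ) (hm : 1 ≤ m) (h3 : 3 < p) {g : ℤ[X]} (hg : g.Monic)
    (hdeg : g.natDegree = 3) :
    (p - 1) * (p - 2).choose m * p ^ (m + 2) ≤
      2 * {v : Fin (m + 2) → ZMod (p ^ 2) | TypeC8 p g (m + 1) v}.ncard := by
  have hp : p.Prime := Fact.out
  have : NeZero p := ⟨hp.ne_zero⟩
  have : NeZero (p ^ 2) := ⟨pow_ne_zero 2 hp.ne_zero⟩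
  set g' := g.map (Int.castRingHom (ZMod p)) with hg'
  have hgm : g'.Monic := hg.map _
  have hgd : g'.natDegree = 3 := by rw [hg', hg.natDegree_map, hdeg]
  have h30 : (3 : ZMod p) ≠ 0 := by
    intro h
    have h4 : ((3 : ℕ) : ZMod p) = 0 := by exact_mod_cast h
    rw [ZMod.natCast_eq_zero_iff] at h4
    exact absurd (Nat.le_of_dvd (by norm_num) h4) (by omega)
  obtain ⟨A, hAdef⟩ : ∃ A : Finset (ZMod p),
      A = Finset.univ.filter fun e => (g' - C e).Separable := ⟨_, rfl⟩
  have hA : p - 2 ≤ A.card := by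
    have h1 := card_crit8 h30 hgm hgd (Finset.univ.filter fun e => ¬ (g' - C e).Separable)
      (fun e he => (Finset.mem_filter.mp he).2)
    have h2 := Finset.card_filter_add_card_filter_not (s := (Finset.univ : Finset (ZMod p)))
      (fun e => (g' - C e).Separable)
    rw [Finset.card_univ, ZMod.card, ← hAdef] at h2
    omega
  set B := ((Finset.univ.filter fun c : ZMod p => c ≠ 0) ×ˢ A.powersetCard m).image
      (fun q => fun i : Fin (m + 2) => (polC8 q.1 q.2 (pick8 q.2)).coeff i) with hB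
  have hBc : (p - 1) * (p - 2).choose m ≤ B.card := by
    rw [hB, card_polC8 m hm A]
    exact Nat.mul_le_mul_left _ (Nat.choose_le_choose m hA)
  obtain ⟨Q, hQ⟩ : ∃ Q : Finset (Fin (m + 2) → ZMod (p ^ 2)),
      Q = Finset.univ.filter fun v => red8 p v ∈ B := ⟨_, rfl⟩
  have hlift : B.card * p ^ (m + 2) ≤ Q.card := by
    rw [hQ]
    convert card_lift8 (p := p) (m + 1) B
  refine (Nat.mul_le_mul_right _ hBc).trans (hlift.trans ?_)
  -- the translation
  let T : Finset (Fin (m + 2) → ZMod (p ^ 2)) := Finset.univ.filter fun v => TypeC8 p g (m + 1) v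
  have hT : {v : Fin (m + 2) → ZMod (p ^ 2) | TypeC8 p g (m + 1) v}.ncard = T.card := by
    rw [← Set.ncard_coe_finset]
    congr 1
    ext v
    simp [T]
  rw [hT]
  have hsplit : (Q.filter (fun v => TypeC8 p g (m + 1) v)).card +
      (Q.filter (fun v => ¬ TypeC8 p g (m + 1) v)).card = Q.card := by
    convert Finset.card_filter_add_card_filter_not (s := Q) (fun v => TypeC8 p g (m + 1) v)
  have hA1 : (Q.filter (fun v => TypeC8 p g (m + 1) v)).card ≤ T.card := by
    apply Finset.card_le_card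
    intro v hv
    rw [Finset.mem_filter] at hv
    exact Finset.mem_filter.mpr ⟨Finset.mem_univ _, hv.2⟩
  have hA2 : (Q.filter (fun v => ¬ TypeC8 p g (m + 1) v)).card ≤ T.card := by
    apply Finset.card_le_card_of_injOn
      (fun v => v + Pi.single (0 : Fin (m + 2)) (p : ZMod (p ^ 2)))
    · intro v hv
      rw [Finset.mem_coe, Finset.mem_filter, hQ, Finset.mem_filter] at hv
      obtain ⟨⟨-, hvB⟩, hvT⟩ := hv
      rw [hB, Finset.mem_image] at hvB
      obtain ⟨⟨c, S⟩, hq, hv⟩ := hvB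
      rw [Finset.mem_product, Finset.mem_filter, Finset.mem_powersetCard] at hq
      have hc : c ≠ 0 := hq.1.2
      have hS : S.card = m := hq.2.2
      have hne : S.Nonempty := Finset.card_pos.mp (by omega)
      have hpm := pick_mem8 hne
      have hSA : ∀ e ∈ S, (g' - C e).Separable := fun e he =>
        by
          have h8 := hq.2.1 he
          rw [hAdef, Finset.mem_filter] at h8
          exact h8.2
      obtain ⟨h1, h2⟩ := natDegree_polC8 hc S (pick8 S)
      have hred : ∀ v' : Fin (m + 2) → ZMod (p ^ 2), red8 p v' = red8 p v →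
          ∑ i : Fin (m + 2), v' i * (((pick8 S).val : ℤ) : ZMod (p ^ 2)) ^ (i : ℕ) ≠ 0 →
          TypeC8 p g (m + 1) v' := by
        intro v' hv' hne'
        have hpick : ((((pick8 S).val : ℤ)) : ZMod p) = pick8 S := by
          push_cast
          exact ZMod.natCast_zmod_val _
        refine ⟨((pick8 S).val : ℤ), C c * ∏ e ∈ S.erase (pick8 S), (X - C e), ?_, ?_, hne', ?_⟩
        · rw [hpick, hv', ← hv, ← polC8_eq hpm]
          exact polyOf_coeff8 (show (polC8 c S (pick8 S)).natDegree ≤ m + 1 by omega)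
        · rw [hpick]
          exact separable_polC8 hc hpm hSA
        · rw [hv', ← hv]
          show (polC8 c S (pick8 S)).coeff (Fin.last (m + 1) : ℕ) ≠ 0
          rw [Fin.val_last]
          have h5 : m + 1 = (polC8 c S (pick8 S)).natDegree := by omega
          rw [h5, coeff_natDegree, h2]
          exact hc
      have h0 : ∑ i : Fin (m + 2), v i * (((pick8 S).val : ℤ) : ZMod (p ^ 2)) ^ (i : ℕ) = 0 := by
        by_contra h0
        exact hvT (hred v rfl h0)
      rw [Finset.mem_coe, Finset.mem_filter]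
      refine ⟨Finset.mem_univ _, hred _ ?_ ?_⟩
      · funext i
        show ZMod.castHom (dvd_pow_self p two_ne_zero) (ZMod p)
          ((v + Pi.single (0 : Fin (m + 2)) (p : ZMod (p ^ 2)) : Fin (m + 2) → ZMod (p ^ 2)) i) =
            ZMod.castHom (dvd_pow_self p two_ne_zero) (ZMod p) (v i)
        rw [Pi.add_apply, map_add]
        by_cases hi : i = 0
        · rw [hi, Pi.single_eq_same, map_natCast, ZMod.natCast_self, add_zero]
        · rw [Pi.single_eq_of_ne hi, map_zero, add_zero]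
      · have h6 : ∑ i : Fin (m + 2),
            (v + Pi.single (0 : Fin (m + 2)) (p : ZMod (p ^ 2)) : Fin (m + 2) → ZMod (p ^ 2)) i *
            (((pick8 S).val : ℤ) : ZMod (p ^ 2)) ^ (i : ℕ) = p := by
          simp only [Pi.add_apply, add_mul]
          rw [Finset.sum_add_distrib, h0, zero_add, Finset.sum_eq_single 0]
          · rw [Pi.single_eq_same, Fin.val_zero, pow_zero, mul_one]
          · intro i _ hi
            rw [Pi.single_eq_of_ne hi, zero_mul]
          · intro h; exact absurd (Finset.mem_univ _) h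
        rw [h6]
        intro h7
        rw [ZMod.natCast_eq_zero_iff] at h7
        have h8 := Nat.le_of_dvd hp.pos h7
        have h9 := hp.two_le
        nlinarith
    · intro v _ v' _ h
      exact add_right_cancel h
  omega

end Count

/-- **The number of the residue classes with a simple collision.** -/
theorem count_typeC8 (n : ℕ) (hn : 2 ≤ n) : ∃ c : ℝ, 0 < c ∧ ∃ P0 : ℕ, ∀ p : ℕ, p.Prime →
    P0 ≤ p → ∀ g : ℤ[X], g.Monic → g.natDegree = 3 →
      c / p * ((p : ℝ) ^ 2) ^ (n + 1) ≤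
        ({v : Fin (n + 1) → ZMod (p ^ 2) | TypeC8 p g n v}.ncard : ℝ) := by
  obtain ⟨m, rfl⟩ : ∃ m, n = m + 1 := ⟨n - 1, by omega⟩
  have hm : 1 ≤ m := by omega
  refine ⟨1 / (2 ^ (m + 2) * m.factorial), by positivity, 2 * m + 5, fun p hp hP g hg hdeg => ?_⟩
  have : Fact p.Prime := ⟨hp⟩
  have h1 := count_typeC_aux8 (p := p) m hm (by omega) hg hdeg
  have h2 : ((p - 2 + 1 - m : ℕ) : ℝ) ^ m ≤ m.factorial * (p - 2).choose m := by
    exact_mod_cast Nat.pow_sub_le_descFactorial (p - 2) m |>.trans_eq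
      (Nat.descFactorial_eq_factorial_mul_choose _ _)
  have hp0 : (0 : ℝ) < p := by exact_mod_cast hp.pos
  have h3 : (p : ℝ) / 2 ≤ ((p - 2 + 1 - m : ℕ) : ℝ) := by
    have h4 : p ≤ 2 * (p - 2 + 1 - m) := by omega
    have h5 : (p : ℝ) ≤ 2 * ((p - 2 + 1 - m : ℕ) : ℝ) := by exact_mod_cast h4
    linarith
  have h4 : (p : ℝ) / 2 ≤ ((p - 1 : ℕ) : ℝ) := by
    have h4 : p ≤ 2 * (p - 1) := by omega
    have h5 : (p : ℝ) ≤ 2 * ((p - 1 : ℕ) : ℝ) := by exact_mod_cast h4
    linarith
  have h5 : ((p : ℝ) / 2) ^ m ≤ m.factorial * (p - 2).choose m :=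
    (pow_le_pow_left₀ (by positivity) h3 m).trans h2
  have h6 : (((p - 1 : ℕ) : ℝ) * ((p - 2).choose m : ℝ)) * (p : ℝ) ^ (m + 2) ≤
      2 * ({v : Fin (m + 2) → ZMod (p ^ 2) | TypeC8 p g (m + 1) v}.ncard : ℝ) := by
    exact_mod_cast h1
  have hf : (0 : ℝ) < m.factorial := by exact_mod_cast m.factorial_pos
  have h7 : (p : ℝ) ^ (m + 1) / (2 ^ (m + 1) * m.factorial) ≤
      ((p - 1 : ℕ) : ℝ) * ((p - 2).choose m : ℝ) := by
    rw [div_le_iff₀ (by positivity)]
    have h8 : ((p : ℝ) / 2) * ((p : ℝ) / 2) ^ m ≤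
        ((p - 1 : ℕ) : ℝ) * (m.factorial * (p - 2).choose m) :=
      mul_le_mul h4 h5 (by positivity) (by positivity)
    have h9 : ((p : ℝ) / 2) * ((p : ℝ) / 2) ^ m = (p : ℝ) ^ (m + 1) / 2 ^ (m + 1) := by
      rw [← pow_succ', div_pow]
    rw [h9, div_le_iff₀ (by positivity)] at h8
    linarith
  have h8 : (p : ℝ) ^ (m + 1) / (2 ^ (m + 1) * m.factorial) * (p : ℝ) ^ (m + 2) ≤
      2 * ({v : Fin (m + 2) → ZMod (p ^ 2) | TypeC8 p g (m + 1) v}.ncard : ℝ) :=
    (mul_le_mul_of_nonneg_right h7 (by positivity)).trans h6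
  have h9 : 1 / (2 ^ (m + 2) * (m.factorial : ℝ)) / p * ((p : ℝ) ^ 2) ^ (m + 1 + 1) =
      (p : ℝ) ^ (m + 1) / (2 ^ (m + 1) * m.factorial) * (p : ℝ) ^ (m + 2) / 2 := by
    field_simp
    ring
  rw [h9]
  linarith

end Pool.Agent.Lib.MP_89bcae_ag

end
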