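import Mathlib
import Pool.Agent.Lib.MP_89bcae_ag.Q.K001

section

/-!
# Orders at a discrete valuation of a subfield
-/

open Polynomial WithZero

open scoped Classical

namespace Pool.Agent.Lib.MP_89bcae_ag

section Order

variable {k F : Type*} [Field k] [Field F] [Algebra k F] {K : IntermediateField k F}
  (w : Valuation K ℤᵐ⁰)

/-- Minus the additive order at `w` of the element `x` of `F`, for `x` in `K`. -/
noncomputable def ordF7 (x : F) : ℤ := if h : x ∈ K then WithZero.log (w ⟨x, h⟩) else 0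

theorem ordF7_of_mem {x : F} (h : x ∈ K) : ordF7 w x = WithZero.log (w ⟨x, h⟩) := dif_pos h

theorem ordF7_mul {x y : F} (hx : x ∈ K) (hy : y ∈ K) (hx0 : x ≠ 0) (hy0 : y ≠ 0) :
    ordF7 w (x * y) = ordF7 w x + ordF7 w y := by
  rw [ordF7_of_mem w hx, ordF7_of_mem w hy, ordF7_of_mem w (K.mul_mem hx hy)]
  have h1 : w ⟨x, hx⟩ ≠ 0 := (Valuation.ne_zero_iff w).2 fun h => hx0 (congrArg Subtype.val h)
  have h2 : w ⟨y, hy⟩ ≠ 0 := (Valuation.ne_zero_iff w).2 fun h => hy0 (congrArg Subtype.val h)
  rw [← WithZero.log_mul h1 h2, ← map_mul]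
  rfl

theorem ordF7_one : ordF7 w (1 : F) = 0 := by
  rw [ordF7_of_mem w K.one_mem]
  have : (⟨1, K.one_mem⟩ : K) = 1 := rfl
  rw [this, map_one, WithZero.log_one]

theorem ordF7_neg (x : F) : ordF7 w (-x) = ordF7 w x := by
  by_cases hx : x ∈ K
  · rw [ordF7_of_mem w hx, ordF7_of_mem w (K.neg_mem hx)]
    have : (⟨-x, K.neg_mem hx⟩ : K) = -⟨x, hx⟩ := rfl
    rw [this, Valuation.map_neg]
  · rw [ordF7, ordF7, dif_neg hx, dif_neg fun h => hx (by simpa using K.neg_mem h)]

theorem ordF7_sub_comm (x y : F) : ordF7 w (x - y) = ordF7 w (y - x) := by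
  rw [← ordF7_neg w (x - y), neg_sub]

theorem ordF7_prod {ι : Type*} (s : Finset ι) (f : ι → F) (hf : ∀ i ∈ s, f i ∈ K)
    (hf0 : ∀ i ∈ s, f i ≠ 0) : ordF7 w (∏ i ∈ s, f i) = ∑ i ∈ s, ordF7 w (f i) := by
  induction s using Finset.induction_on with
  | empty => simp [ordF7_one]
  | insert i s hi ih =>
    rw [Finset.prod_insert hi, Finset.sum_insert hi,
      ordF7_mul w (hf i (Finset.mem_insert_self i s))
        (K.prod_mem fun j hj => hf j (Finset.mem_insert_of_mem hj))
        (hf0 i (Finset.mem_insert_self i s))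
        (Finset.prod_ne_zero_iff.2 fun j hj => hf0 j (Finset.mem_insert_of_mem hj)),
      ih (fun j hj => hf j (Finset.mem_insert_of_mem hj))
        (fun j hj => hf0 j (Finset.mem_insert_of_mem hj))]

end Order

/-- If non-positive integers have sum `-1`, one of them is `-1` and the others vanish. -/
theorem exists_of_sum_eq_neg_one7 {ι : Type*} (s : Finset ι) (f : ι → ℤ) (hf : ∀ i ∈ s, f i ≤ 0)
    (h : ∑ i ∈ s, f i = -1) : ∃ i ∈ s, f i = -1 ∧ ∀ j ∈ s, j ≠ i → f j = 0 := by
  have h1 : ∃ i ∈ s, f i < 0 := by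
    by_contra! hcon
    have : 0 ≤ ∑ i ∈ s, f i := Finset.sum_nonneg hcon
    omega
  obtain ⟨i, hi, hi0⟩ := h1
  have h2 : ∀ j ∈ s.erase i, f j ≤ 0 := fun j hj => hf j (Finset.mem_of_mem_erase hj)
  have h3 := Finset.add_sum_erase s f hi
  have h4 := Finset.sum_nonpos h2
  refine ⟨i, hi, by omega, fun j hj hji => ?_⟩
  exact (Finset.sum_eq_zero_iff_of_nonpos h2).1 (by omega) j (Finset.mem_erase.2 ⟨hji, hj⟩)

end Pool.Agent.Lib.MP_89bcae_ag

end

section

/-!
# The ramification index is at most the order of the inertia group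
-/

open Algebra MulAction

open scoped Pointwise

namespace Pool.Agent.Lib.MP_89bcae_ag

attribute [local instance] Ideal.Quotient.field in
/-- In a finite Galois extension the ramification index is at most the order of the inertia
group. -/
theorem ramificationIdx_le_card_inertia7 {R S G : Type*} [CommRing R] [CommRing S] [Algebra R S]
    [Group G] [MulSemiringAction G S] [IsGaloisGroup G R S] [Finite G] [IsDomain R] [IsDomain S]
    [Module.Finite R S] [Module.Flat R S] (p : Ideal R) (P : Ideal S) [P.LiesOver p] [p.IsMaximal]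
    [P.IsMaximal] : P.ramificationIdx R ≤ Nat.card (P.inertia G) := by
  have hdeg : P.inertiaDeg R = Module.finrank (R ⧸ p) (S ⧸ P) :=
    Ideal.inertiaDeg_eq_of_isMaximal p P
  have hpos : 0 < P.inertiaDeg R := P.inertiaDeg_pos R
  have hfin : FiniteDimensional (R ⧸ p) (S ⧸ P) := by
    apply Module.finite_of_finrank_pos
    rw [← hdeg]
    exact hpos
  have h1 : ((P.inertia G).subgroupOf (stabilizer G P)).index ≤ P.inertiaDeg R := by
    have h2 : (P.inertia (stabilizer G P)).index = _ := Nat.card_congr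
      (Ideal.Quotient.stabilizerQuotientInertiaEquiv G p P).toEquiv
    rw [AddSubgroup.subgroupOf_inertia, h2, hdeg, Nat.card_eq_fintype_card]
    exact AlgEquiv.card_le
  have h3 : Nat.card (stabilizer G P) = Nat.card (P.inertia G) *
      ((P.inertia G).subgroupOf (stabilizer G P)).index := by
    rw [← ((P.inertia G).subgroupOf (stabilizer G P)).card_mul_index,
      Nat.card_congr (Subgroup.subgroupOfEquivOfLe (Ideal.inertia_le_stabilizer (M := G) P)).toEquiv]
  have h4 : (p.primesOver S).ncard * Nat.card (stabilizer G P) = Nat.card G := by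
    rw [← IsInvariant.orbit_eq_primesOver R S G p P]
    simpa using Nat.card_congr (MulAction.orbitProdStabilizerEquivGroup G P)
  have h5 := Ideal.ncard_primesOver_mul_ramificationIdxIn_mul_inertiaDegIn p S G
  rw [Ideal.ramificationIdxIn_eq_ramificationIdx p P G, Ideal.inertiaDegIn_eq_inertiaDeg p P G] at h5
  have h6 : (p.primesOver S).ncard ≠ 0 := by
    intro h
    rw [h, zero_mul] at h4
    exact Nat.card_pos.ne h4
  have h7 : P.ramificationIdx R * P.inertiaDeg R = Nat.card (stabilizer G P) :=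
    Nat.eq_of_mul_eq_mul_left (Nat.pos_of_ne_zero h6) (h5.trans h4.symm)
  rw [h3] at h7
  have h8 : P.ramificationIdx R * P.inertiaDeg R ≤ Nat.card (P.inertia G) * P.inertiaDeg R := by
    rw [h7]
    exact Nat.mul_le_mul_left _ h1
  exact Nat.le_of_mul_le_mul_right h8 hpos

end Pool.Agent.Lib.MP_89bcae_ag

end

section

/-!
# A place of a Galois extension with its inertia group
-/

open Polynomial IsDedekindDomain WithZero

open scoped Classical Pointwise

namespace Pool.Agent.Lib.MP_89bcae_ag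

set_option linter.style.haveILetI false
set_option linter.unusedSectionVars false

lemma finite_quotient7 {R A : Type*} [CommRing R] [CommRing A] [Algebra R A] [Module.Finite R A]
    (p : Ideal R) (P : Ideal A) [P.LiesOver p] [Finite (R ⧸ p)] : Finite (A ⧸ P) := by
  haveI : Module.Finite (R ⧸ p) (A ⧸ P) := inferInstance
  exact Module.finite_of_finite (R ⧸ p)

lemma ramificationIdx_dvd_log7 {A B K L : Type*} [CommRing A] [IsDedekindDomain A] [CommRing B]
    [IsDedekindDomain B] [Algebra A B] [Module.IsTorsionFree A B] [Field K] [Algebra A K]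
    [IsFractionRing A K] [Field L]
    [Algebra B L] [IsFractionRing B L] [Algebra K L] [Algebra A L] [IsScalarTower A K L]
    [IsScalarTower A B L] (v : HeightOneSpectrum A) (w : HeightOneSpectrum B)
    [w.asIdeal.LiesOver v.asIdeal] (x : K) {c : ℕ} (hc : v.asIdeal.ramificationIdx' w.asIdeal = c) :
    (c : ℤ) ∣ log (w.valuation L (algebraMap K L x)) := by
  have h3 := HeightOneSpectrum.valuation_liesOver L v w x
  rw [← h3, log_pow, hc]
  exact ⟨_, nsmul_eq_mul _ _⟩

/-- A place of a finite Galois extension, its ramification index and its inertia group. -/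
theorem exists_place7 (R k K : Type*) [CommRing R] [IsDomain R] [IsDiscreteValuationRing R]
    [Finite (IsLocalRing.ResidueField R)] [Field k]
    [Algebra R k] [IsFractionRing R k] [Field K] [Algebra k K] [Algebra R K] [IsScalarTower R k K]
    [FiniteDimensional k K] [IsGalois k K] :
    ∃ (W : Valuation K ℤᵐ⁰) (e : ℕ) (I : Subgroup (K ≃ₐ[k] K)), 0 < e ∧
      (∀ r : R, W (algebraMap R K r) =
        (IsDiscreteValuationRing.maximalIdeal R).intValuation r ^ e) ∧
      (∀ σ ∈ I, ∀ x : K, W x ≤ 1 → W (σ x - x) < 1) ∧ e ≤ Nat.card I ∧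
      ∀ y : K, y ≠ 0 → (∀ σ ∈ I, σ y = y) → (Nat.card I : ℤ) ∣ log (W y) := by
  -- the integral closure
  set B := integralClosure R K with hB
  haveI : IsDedekindDomain B := integralClosure.isDedekindDomain R k K
  haveI : Module.Finite R B := IsIntegralClosure.finite R k K B
  haveI : IsFractionRing B K := integralClosure.isFractionRing_of_finite_extension k K
  haveI : SMulCommClass (K ≃ₐ[k] K) R K := ⟨fun σ r x => by
    rw [AlgEquiv.smul_def, AlgEquiv.smul_def, Algebra.smul_def, Algebra.smul_def, map_mul,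
      IsScalarTower.algebraMap_apply R k K, AlgEquiv.commutes]⟩
  haveI : IsGaloisGroup (K ≃ₐ[k] K) R B := IsGaloisGroup.of_isFractionRing _ _ _ k K
  have hinjK : Function.Injective (algebraMap R K) := by
    rw [IsScalarTower.algebraMap_eq R k K]
    exact (algebraMap k K).injective.comp (IsFractionRing.injective R k)
  have hinjB : Function.Injective (algebraMap B K) := Subtype.val_injective
  haveI : FaithfulSMul R B := by
    rw [faithfulSMul_iff_algebraMap_injective]
    intro x y hxy
    exact hinjK (congrArg (algebraMap B K) hxy)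
  haveI : Module.IsTorsionFree R B := inferInstance
  haveI : Module.Flat R B := inferInstance
  let v : HeightOneSpectrum R := IsDiscreteValuationRing.maximalIdeal R
  have hvmax : v.asIdeal.IsMaximal := v.isMaximal
  obtain ⟨P, hPmax, hPv⟩ := Ideal.exists_maximal_ideal_liesOver_of_isIntegral (S := B) v.asIdeal
  have hP0 : P ≠ ⊥ := Ideal.ne_bot_of_liesOver_of_ne_bot v.ne_bot P
  let w : HeightOneSpectrum B := ⟨P, hPmax.isPrime, hP0⟩
  have hwv : w.asIdeal.LiesOver v.asIdeal := hPv
  set e := v.asIdeal.ramificationIdx' w.asIdeal with hedef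
  -- the ramification index
  have he : e ≤ Nat.card (P.inertia (K ≃ₐ[k] K)) := by
    rw [hedef, Ideal.ramificationIdx'_eq_ramificationIdx v.asIdeal w.asIdeal v.ne_bot]
    exact ramificationIdx_le_card_inertia7 v.asIdeal P
  have he0 : e ≠ 0 := Ideal.IsDedekindDomain.ramificationIdx'_ne_zero_of_liesOver w.asIdeal v.ne_bot
  set W := w.valuation K with hW
  have hWk : ∀ r : R, w.valuation K (algebraMap R K r) = v.intValuation r ^ e := by
    intro r
    have h1 := HeightOneSpectrum.valuation_liesOver K v w (algebraMap R k r)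
    rw [← IsScalarTower.algebraMap_apply] at h1
    rw [← h1]
    congr 1
    exact HeightOneSpectrum.valuation_of_algebraMap (K := k) v r
  set I := P.inertia (K ≃ₐ[k] K) with hI
  refine ⟨W, e, I, Nat.pos_of_ne_zero he0, hWk, ?_, he, ?_⟩
  · -- the inertia group
    intro σ hσ x hx
    obtain ⟨n, ⟨d, hd⟩, hnd⟩ := HeightOneSpectrum.exists_primeCompl_mul_eq_of_integer w x hx
    have hd' : W (algebraMap B K d) = 1 := HeightOneSpectrum.valuation_eq_one_iff_notMem w |>.mpr hd
    have hσB : ∀ b : B, algebraMap B K (σ • b) = σ (algebraMap B K b) := fun b => rfl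
    have hlt : ∀ b : B, W (σ (algebraMap B K b) - algebraMap B K b) < 1 := by
      intro b
      rw [← hσB, ← map_sub]
      exact (w.valuation_lt_one_iff_mem _).mpr (hσ b)
    have hσd : W (σ (algebraMap B K d)) = 1 := by
      have h1 : σ (algebraMap B K d) =
          algebraMap B K d + (σ (algebraMap B K d) - algebraMap B K d) := by ring
      rw [h1, Valuation.map_add_eq_of_lt_left _ (by rw [hd']; exact hlt d), hd']
    have h1 : (σ x - x) * (σ (algebraMap B K d) * algebraMap B K d) =
        (σ (algebraMap B K n) - algebraMap B K n) * algebraMap B K d -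
          algebraMap B K n * (σ (algebraMap B K d) - algebraMap B K d) := by
      have h2 : σ x * σ (algebraMap B K d) = σ (algebraMap B K n) := by
        rw [← map_mul]
        exact congrArg σ hnd
      have h3 : x * algebraMap B K d = algebraMap B K n := hnd
      linear_combination (algebraMap B K d) * h2 - σ (algebraMap B K d) * h3
    have h2 := congrArg W h1
    rw [map_mul, map_mul, hσd, hd', mul_one, mul_one] at h2
    rw [h2]
    refine lt_of_le_of_lt (W.map_sub _ _) (max_lt ?_ ?_)
    · rw [map_mul, hd', mul_one]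
      exact hlt n
    · rw [map_mul]
      exact lt_of_le_of_lt (mul_le_of_le_one_left' (w.valuation_le_one n)) (hlt d)
  · -- the fixed field
    intro y hy0 hy
    let E := FixedPoints.intermediateField (F := k) (E := K) I
    have hyE : y ∈ E := fun σ => hy σ σ.2
    haveI : IsGaloisGroup I E K := IsGaloisGroup.subgroup (K ≃ₐ[k] K) k K I
    set A' := integralClosure R E with hA'
    haveI : IsDedekindDomain A' := integralClosure.isDedekindDomain R k E
    haveI : Module.Finite R A' := IsIntegralClosure.finite R k E A'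
    haveI : IsFractionRing A' E := integralClosure.isFractionRing_of_finite_extension k E
    haveI hsRE : IsScalarTower R E K := IsScalarTower.of_algebraMap_eq fun r => by
      rw [IsScalarTower.algebraMap_apply R k K, IsScalarTower.algebraMap_apply R k E]
      rfl
    letI algAB : Algebra A' B := RingHom.toAlgebra
      { toFun := fun a => ⟨algebraMap E K a, a.2.map (IsScalarTower.toAlgHom R E K)⟩
        map_one' := rfl
        map_mul' := fun _ _ => rfl
        map_zero' := rfl
        map_add' := fun _ _ => rfl }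
    haveI st1 : IsScalarTower A' B K := IsScalarTower.of_algebraMap_eq fun _ => rfl
    haveI st2 : IsScalarTower R A' B := IsScalarTower.of_algebraMap_eq fun r => by
      apply Subtype.ext
      change algebraMap R K r = algebraMap E K (algebraMap R E r)
      rw [← IsScalarTower.algebraMap_apply]
    haveI : Module.Finite A' B := Module.Finite.of_restrictScalars_finite R A' B
    haveI : Algebra.IsIntegral A' B := inferInstance
    haveI : IsGaloisGroup I A' B := IsGaloisGroup.of_isFractionRing I A' B E K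
    haveI : FaithfulSMul A' B := by
      rw [faithfulSMul_iff_algebraMap_injective]
      intro x z hxz
      apply Subtype.ext
      have h5 : algebraMap E K (x : E) = algebraMap E K (z : E) := congrArg (algebraMap B K) hxz
      exact (algebraMap E K).injective h5
    haveI : FaithfulSMul R A' := by
      rw [faithfulSMul_iff_algebraMap_injective]
      intro x z hxz
      apply hinjK
      have h5 := congrArg (fun a : A' => algebraMap E K (a : E)) hxz
      change algebraMap E K (algebraMap R E x) = algebraMap E K (algebraMap R E z) at h5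
      rwa [← IsScalarTower.algebraMap_apply, ← IsScalarTower.algebraMap_apply] at h5
    haveI : Module.IsTorsionFree A' B := inferInstance
    haveI : Module.Flat A' B := inferInstance
    set P' := P.under A' with hP'
    haveI hPP' : P.LiesOver P' := ⟨rfl⟩
    haveI hP'max : P'.IsMaximal := Ideal.IsMaximal.under A' P
    haveI hP'v : P'.LiesOver v.asIdeal := by
      refine ⟨?_⟩
      rw [hP', Ideal.under_under]
      exact hPv.over
    have hP'0 : P' ≠ ⊥ := Ideal.ne_bot_of_liesOver_of_ne_bot v.ne_bot P'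
    let v' : HeightOneSpectrum A' := ⟨P', hP'max.isPrime, hP'0⟩
    have hwv' : w.asIdeal.LiesOver v'.asIdeal := hPP'
    haveI : Finite (R ⧸ v.asIdeal) := inferInstanceAs (Finite (IsLocalRing.ResidueField R))
    haveI : Finite (A' ⧸ P') := finite_quotient7 v.asIdeal P'
    have h1 := Ideal.card_inertia_eq_ramificationIdxIn (G := I) P' P
    rw [Ideal.ramificationIdxIn_eq_ramificationIdx P' P I,
      ← Ideal.ramificationIdx'_eq_ramificationIdx P' P hP'0] at h1
    have h2 : Nat.card (P.inertia I) = Nat.card I := by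
      apply Nat.card_congr
      refine (Equiv.subtypeUnivEquiv ?_)
      intro σ
      exact σ.2
    exact ramificationIdx_dvd_log7 (K := E) (L := K) v' w (⟨y, hyE⟩ : E) (h1.symm.trans h2)

end Pool.Agent.Lib.MP_89bcae_ag

end

section

/-!
# The extension generated by the `ℓ`-th roots of unity is unramified outside of `ℓ`
-/

open Polynomial WithZero IsDedekindDomain

open scoped Classical Pointwise

set_option linter.unusedSimpArgs false
set_option linter.unusedVariables false
set_option linter.unusedSectionVars false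
set_option linter.style.haveILetI false

namespace Pool.Agent.Lib.MP_89bcae_ag

universe u

/-- An unramified discrete valuation ring in the field generated by the roots of unity. -/
theorem exists_unramified8 {R₀ k : Type*} {K : Type u} [CommRing R₀] [IsDomain R₀]
    [IsDiscreteValuationRing R₀] [Field k]
    [Algebra R₀ k] [IsFractionRing R₀ k] [Field K] [Algebra k K] [Algebra R₀ K]
    [IsScalarTower R₀ k K] [FiniteDimensional k K] [IsGalois k K] {ℓ : ℕ}
    (hℓ : (ℓ : IsLocalRing.ResidueField R₀) ≠ 0) {ζ : K} (hζ : IsPrimitiveRoot ζ ℓ)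
    (hgen : ∀ σ : K ≃ₐ[k] K, σ ζ = ζ → σ = 1) :
    ∃ (R : Type u) (_ : CommRing R) (_ : IsDomain R) (_ : IsDiscreteValuationRing R)
      (_ : Algebra R₀ R) (_ : Algebra R K) (_ : IsScalarTower R₀ R K) (_ : IsFractionRing R K),
      ∀ (r : R₀) (n : ℕ), algebraMap R₀ R r ∈ IsLocalRing.maximalIdeal R ^ n ↔
        r ∈ IsLocalRing.maximalIdeal R₀ ^ n := by
  have hℓ0 : ℓ ≠ 0 := by
    rintro rfl
    exact hℓ Nat.cast_zero
  have : NeZero ℓ := ⟨hℓ0⟩
  -- the integral closure
  let B := integralClosure R₀ K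
  haveI : IsDedekindDomain B := integralClosure.isDedekindDomain R₀ k K
  haveI : Module.Finite R₀ B := IsIntegralClosure.finite R₀ k K B
  haveI : IsFractionRing B K := integralClosure.isFractionRing_of_finite_extension k K
  haveI : SMulCommClass (K ≃ₐ[k] K) R₀ K := ⟨fun σ r x => by
    rw [AlgEquiv.smul_def, AlgEquiv.smul_def, Algebra.smul_def, Algebra.smul_def, map_mul,
      IsScalarTower.algebraMap_apply R₀ k K, AlgEquiv.commutes]⟩
  haveI : IsGaloisGroup (K ≃ₐ[k] K) R₀ B := IsGaloisGroup.of_isFractionRing _ _ _ k K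
  have hinjK : Function.Injective (algebraMap R₀ K) := by
    rw [IsScalarTower.algebraMap_eq R₀ k K]
    exact (algebraMap k K).injective.comp (IsFractionRing.injective R₀ k)
  have hinjB : Function.Injective (algebraMap B K) := Subtype.val_injective
  haveI : FaithfulSMul R₀ B := by
    rw [faithfulSMul_iff_algebraMap_injective]
    intro x y hxy
    exact hinjK (congrArg (algebraMap B K) hxy)
  haveI : Module.IsTorsionFree R₀ B := inferInstance
  haveI : Module.Flat R₀ B := inferInstance
  let v : HeightOneSpectrum R₀ := IsDiscreteValuationRing.maximalIdeal R₀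
  have hvmax : v.asIdeal.IsMaximal := v.isMaximal
  obtain ⟨P, hPmax, hPv⟩ := Ideal.exists_maximal_ideal_liesOver_of_isIntegral (S := B) v.asIdeal
  have hP0 : P ≠ ⊥ := Ideal.ne_bot_of_liesOver_of_ne_bot v.ne_bot P
  let w : HeightOneSpectrum B := ⟨P, hPmax.isPrime, hP0⟩
  have hwv : w.asIdeal.LiesOver v.asIdeal := hPv
  have hmP : ∀ r : R₀, algebraMap R₀ B r ∈ P ↔ r ∈ IsLocalRing.maximalIdeal R₀ := by
    intro r
    have h1 : r ∈ Ideal.comap (algebraMap R₀ B) P ↔ r ∈ v.asIdeal := by
      rw [← Ideal.under_def, ← hPv.over]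
    exact h1
  -- the inertia group is trivial
  letI : Field (B ⧸ P) := Ideal.Quotient.field P
  have hζi : IsIntegral R₀ ζ := by
    refine ⟨X ^ ℓ - 1, monic_X_pow_sub_C 1 hℓ0, ?_⟩
    rw [eval₂_sub, eval₂_pow, eval₂_X, hζ.pow_eq_one, eval₂_one, sub_self]
  let ζB : B := ⟨ζ, hζi⟩
  have hζB : ζB ^ ℓ = 1 := Subtype.ext hζ.pow_eq_one
  have hℓP : Ideal.Quotient.mk P (ℓ : B) ≠ 0 := by
    rw [Ne, Ideal.Quotient.eq_zero_iff_mem]
    intro h1
    apply hℓ
    have h2 : algebraMap R₀ B (ℓ : R₀) ∈ P := by rwa [map_natCast]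
    rw [hmP] at h2
    have h3 := (IsLocalRing.residue_eq_zero_iff (ℓ : R₀)).mpr h2
    rwa [map_natCast] at h3
  have hζP : ∀ x y : B, x ^ ℓ = 1 → y ^ ℓ = 1 → x - y ∈ P → x = y := by
    intro x y hx hy hxy
    by_contra hne
    -- `x` and `y` are distinct roots of `X ^ ℓ - 1`
    have h1 : ((X ^ ℓ - C (1 : B)).map (Ideal.Quotient.mk P)).Separable := by
      rw [Polynomial.map_sub, Polynomial.map_pow, map_X, map_C, map_one]
      apply separable_X_pow_sub_C _ _ one_ne_zero
      rw [map_natCast] at hℓP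
      exact hℓP
    have hroot : ∀ z : B, z ^ ℓ = 1 → (X ^ ℓ - C (1 : B)).IsRoot z := fun z hz => by
      rw [IsRoot.def, eval_sub, eval_pow, eval_X, eval_C, hz, sub_self]
    obtain ⟨H, hH⟩ := dvd_iff_isRoot.mpr (hroot x hx)
    have h2 := hroot y hy
    rw [hH, IsRoot.def, eval_mul, eval_sub, eval_X, eval_C] at h2
    have h3 : H.IsRoot y := (mul_eq_zero.mp h2).resolve_left fun h => hne (sub_eq_zero.mp h).symm
    obtain ⟨H', hH'⟩ := dvd_iff_isRoot.mpr h3
    have hxy' : Ideal.Quotient.mk P x = Ideal.Quotient.mk P y := by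
      rw [← sub_eq_zero, ← map_sub, Ideal.Quotient.eq_zero_iff_mem]
      exact hxy
    rw [hH, hH', Polynomial.map_mul, Polynomial.map_mul, Polynomial.map_sub, Polynomial.map_sub,
      map_X, map_C, map_C, hxy', ← mul_assoc] at h1
    have h4 : (X - C (Ideal.Quotient.mk P y)) * (X - C (Ideal.Quotient.mk P y)) ∣
        (X - C (Ideal.Quotient.mk P y)) * (X - C (Ideal.Quotient.mk P y)) *
          H'.map (Ideal.Quotient.mk P) := Dvd.intro _ rfl
    exact not_isUnit_X_sub_C _ (h1.squarefree _ h4)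
  have hinertia : ∀ σ ∈ P.inertia (K ≃ₐ[k] K), σ = 1 := by
    intro σ hσ
    apply hgen
    have h1 : σ • ζB - ζB ∈ P := hσ ζB
    have h2 : (σ • ζB) ^ ℓ = 1 := by
      rw [← smul_pow', hζB, smul_one]
    exact congrArg Subtype.val (hζP _ _ h2 hζB h1)
  have he : v.asIdeal.ramificationIdx' w.asIdeal ≤ 1 := by
    have h1 : v.asIdeal.ramificationIdx' w.asIdeal ≤ Nat.card (P.inertia (K ≃ₐ[k] K)) := by
      rw [Ideal.ramificationIdx'_eq_ramificationIdx v.asIdeal w.asIdeal v.ne_bot]
      exact ramificationIdx_le_card_inertia7 v.asIdeal P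
    refine h1.trans ?_
    have : Subsingleton (P.inertia (K ≃ₐ[k] K)) :=
      ⟨fun σ τ => Subtype.ext ((hinertia σ σ.2).trans (hinertia τ τ.2).symm)⟩
    exact Finite.card_le_one_iff_subsingleton.mpr this
  set e := v.asIdeal.ramificationIdx' w.asIdeal with hedef
  have hWk : ∀ r : R₀, w.intValuation (algebraMap R₀ B r) = v.intValuation r ^ e := by
    intro r
    have h1 := HeightOneSpectrum.valuation_liesOver K v w (algebraMap R₀ k r)
    rw [← IsScalarTower.algebraMap_apply] at h1
    have h2 : w.intValuation (algebraMap R₀ B r) = w.valuation K (algebraMap R₀ K r) := by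
      rw [← w.valuation_of_algebraMap (K := K)]
      rfl
    rw [h2, ← h1]
    congr 1
    exact HeightOneSpectrum.valuation_of_algebraMap (K := k) v r
  have he1 : e = 1 := by
    rcases Nat.eq_zero_or_pos e with h0 | h0
    · exfalso
      obtain ⟨ϖ, hϖ⟩ := v.intValuation_exists_uniformizer
      have h1 : ϖ ∈ IsLocalRing.maximalIdeal R₀ := by
        have h2 : v.intValuation ϖ ≤ exp (-((1 : ℕ) : ℤ)) := by rw [hϖ]; simp
        have h3 := (v.intValuation_le_pow_iff_mem ϖ 1).mp h2
        rw [pow_one] at h3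
        exact h3
      have h2 : w.intValuation (algebraMap R₀ B ϖ) < 1 :=
        (w.intValuation_lt_one_iff_mem _).mpr ((hmP ϖ).mpr h1)
      rw [hWk, h0, pow_zero] at h2
      exact lt_irrefl _ h2
    · omega
  have hWk1 : ∀ r : R₀, w.intValuation (algebraMap R₀ B r) = v.intValuation r := fun r => by
    rw [hWk, he1, pow_one]
  -- the localisation
  haveI hPp : P.IsPrime := hPmax.isPrime
  let R := Localization.AtPrime P
  have hle : P.primeCompl ≤ nonZeroDivisors B := Ideal.primeCompl_le_nonZeroDivisors _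
  let φ : R →+* K := IsLocalization.lift (M := P.primeCompl) (g := algebraMap B K) (by
      intro y
      rw [isUnit_iff_ne_zero]
      exact (map_ne_zero_iff _ hinjB).mpr (nonZeroDivisors.ne_zero (hle y.2)))
  letI : Algebra R K := φ.toAlgebra
  have hst : IsScalarTower B R K := IsScalarTower.of_algebraMap_eq fun r =>
    (IsLocalization.lift_eq _ r).symm
  haveI : IsScalarTower R₀ B R := inferInstance
  have hst2 : IsScalarTower R₀ R K := IsScalarTower.of_algebraMap_eq fun r => by
    rw [IsScalarTower.algebraMap_apply R₀ B R, ← IsScalarTower.algebraMap_apply B R K]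
    rfl
  have hDVR : IsDiscreteValuationRing R :=
    IsLocalization.AtPrime.isDiscreteValuationRing_of_dedekind_domain B hP0 _
  have hfr : IsFractionRing R K :=
    IsFractionRing.isFractionRing_of_isDomain_of_isLocalization P.primeCompl R K
  have hmax : IsLocalRing.maximalIdeal R = P.map (algebraMap B R) :=
    (IsLocalization.AtPrime.map_eq_maximalIdeal P R).symm
  have hpow : ∀ (b : B) (n : ℕ), algebraMap B R b ∈ IsLocalRing.maximalIdeal R ^ n ↔ b ∈ P ^ n := by
    intro b n
    rw [hmax, ← Ideal.map_pow]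
    constructor
    · intro h1
      obtain ⟨⟨⟨a, ha⟩, s⟩, hs⟩ := (IsLocalization.mem_map_algebraMap_iff P.primeCompl R).mp h1
      have hinjR : Function.Injective (algebraMap B R) := IsLocalization.injective R hle
      have h2 : b * s = a := by
        apply hinjR
        rw [map_mul]
        exact hs
      have h3 : w.intValuation a ≤ exp (-(n : ℤ)) := (w.intValuation_le_pow_iff_mem a n).mpr ha
      have h4 : w.intValuation (s : B) = 1 := by
        rw [w.intValuation_eq_one_iff_mem_primeCompl]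
        exact s.2
      rw [← h2, map_mul, h4, mul_one] at h3
      exact (w.intValuation_le_pow_iff_mem b n).mp h3
    · exact fun h1 => Ideal.mem_map_of_mem _ h1
  refine ⟨R, inferInstance, inferInstance, hDVR, inferInstance, inferInstance, hst2, hfr,
    fun r n => ?_⟩
  rw [IsScalarTower.algebraMap_apply R₀ B R, hpow]
  have h2 := w.intValuation_le_pow_iff_mem (algebraMap R₀ B r) n
  have h3 := v.intValuation_le_pow_iff_mem r n
  rw [hWk1, h3] at h2
  exact h2.symm

/-- Simple collisions are preserved by unramified extensions. -/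
theorem isCollision_unramified8 {R₀ R : Type*} [CommRing R₀] [IsLocalRing R₀] [CommRing R]
    [IsLocalRing R] [Algebra R₀ R]
    (h : ∀ (r : R₀) (n : ℕ), algebraMap R₀ R r ∈ IsLocalRing.maximalIdeal R ^ n ↔
        r ∈ IsLocalRing.maximalIdeal R₀ ^ n) {g D : R₀[X]} (hcol : IsCollision7 g D) :
    IsCollision7 (g.map (algebraMap R₀ R)) (D.map (algebraMap R₀ R)) := by
  have h1 : ∀ r : R₀, r ∈ IsLocalRing.maximalIdeal R₀ →
      ((IsLocalRing.residue R).comp (algebraMap R₀ R)) r = 0 := by
    intro r hr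
    have h2 := (h r 1).mpr (by rwa [pow_one])
    rw [pow_one] at h2
    exact (IsLocalRing.residue_eq_zero_iff _).mpr h2
  let ψ : IsLocalRing.ResidueField R₀ →+* IsLocalRing.ResidueField R :=
    Ideal.Quotient.lift (IsLocalRing.maximalIdeal R₀) _ h1
  have hψ : ψ.comp (IsLocalRing.residue R₀) = (IsLocalRing.residue R).comp (algebraMap R₀ R) :=
    RingHom.ext fun r => rfl
  have hmap : ∀ p : R₀[X], (p.map (algebraMap R₀ R)).map (IsLocalRing.residue R) =
      (p.map (IsLocalRing.residue R₀)).map ψ := fun p => by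
    rw [Polynomial.map_map, Polynomial.map_map, hψ]
  obtain ⟨a, u, hu1, hu2, hu3⟩ := hcol
  have ha : IsLocalRing.residue R (algebraMap R₀ R a) = ψ (IsLocalRing.residue R₀ a) := rfl
  refine ⟨algebraMap R₀ R a, u.map ψ, ?_, ?_, ?_⟩
  · rw [hmap, hu1, ha, Polynomial.map_mul, Polynomial.map_pow, Polynomial.map_sub, map_X, map_C]
  · have h3 := hu2.map (f := ψ)
    rw [Polynomial.map_comp, Polynomial.map_mul, Polynomial.map_sub, map_X, map_C] at h3
    rw [hmap, ha]
    exact h3
  · rw [eval_map, eval₂_at_apply, h]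
    exact hu3

end Pool.Agent.Lib.MP_89bcae_ag

end

section

/-!
# Discrete valuation rings over a prime number in the field of the `ℓ`-th roots of unity
-/

open Polynomial

open scoped Classical

set_option linter.unusedSimpArgs false
set_option linter.unusedVariables false
set_option linter.unusedSectionVars false
set_option linter.style.haveILetI false

namespace Pool.Agent.Lib.MP_89bcae_ag

/-- The localisation of the integers at a prime number. -/
theorem exists_dvrZ8 {p : ℕ} (hp : p.Prime) :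
    ∃ (R : Type) (_ : CommRing R) (_ : IsDomain R) (_ : IsDiscreteValuationRing R)
      (_ : Algebra R ℚ) (_ : IsFractionRing R ℚ),
      ∀ (z : ℤ) (n : ℕ), (z : R) ∈ IsLocalRing.maximalIdeal R ^ n ↔ (p : ℤ) ^ n ∣ z := by
  have hpZ : Prime (p : ℤ) := Nat.prime_iff_prime_int.mp hp
  have hP : (Ideal.span {(p : ℤ)}).IsPrime :=
    (Ideal.span_singleton_prime hpZ.ne_zero).mpr hpZ
  have hP0 : Ideal.span {(p : ℤ)} ≠ ⊥ := by
    rw [Ne, Ideal.span_singleton_eq_bot]
    exact hpZ.ne_zero
  let R := Localization.AtPrime (Ideal.span {(p : ℤ)})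
  have hDVR : IsDiscreteValuationRing R :=
    IsLocalization.AtPrime.isDiscreteValuationRing_of_dedekind_domain ℤ hP0 _
  letI hA : Algebra R ℚ :=
    IsLocalization.localizationAlgebraOfSubmonoidLe _ ℚ
      (Ideal.span {(p : ℤ)}).primeCompl (nonZeroDivisors ℤ)
      (Ideal.span {(p : ℤ)}).primeCompl_le_nonZeroDivisors
  have hst := IsLocalization.localization_isScalarTower_of_submonoid_le
    R ℚ
    (Ideal.span {(p : ℤ)}).primeCompl (nonZeroDivisors ℤ)
    (Ideal.span {(p : ℤ)}).primeCompl_le_nonZeroDivisors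
  have hfr : IsFractionRing R ℚ :=
    @IsFractionRing.isFractionRing_of_isDomain_of_isLocalization ℤ _
      (Ideal.span {(p : ℤ)}).primeCompl _ R ℚ _ _ _ _ _
      hst _ _
  have hmax : IsLocalRing.maximalIdeal R = Ideal.span {(algebraMap ℤ R p)} := by
    rw [← IsLocalization.AtPrime.map_eq_maximalIdeal (Ideal.span {(p : ℤ)}) R, Ideal.map_span,
      Set.image_singleton]
  refine ⟨R, inferInstance, inferInstance, hDVR, inferInstance, hfr, fun z n => ?_⟩
  have hz : (z : R) = algebraMap ℤ R z := by simp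
  rw [hz, hmax, Ideal.span_singleton_pow, Ideal.mem_span_singleton]
  constructor
  · rintro ⟨q, hq⟩
    obtain ⟨⟨x, s⟩, hxs⟩ := IsLocalization.surj (Ideal.span {(p : ℤ)}).primeCompl q
    have hinj : Function.Injective (algebraMap ℤ R) :=
      IsLocalization.injective R (Ideal.primeCompl_le_nonZeroDivisors (Ideal.span {(p : ℤ)}))
    have h1 : z * s = (p : ℤ) ^ n * x := by
      apply hinj
      rw [map_mul, map_mul, map_pow, hq, ← hxs]
      ring
    have h3 : IsCoprime ((p : ℤ) ^ n) (s : ℤ) := by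
      apply IsCoprime.pow_left
      rw [Prime.coprime_iff_not_dvd (Nat.prime_iff_prime_int.mp hp)]
      intro h4
      exact s.2 (Ideal.mem_span_singleton.mpr h4)
    exact h3.dvd_of_dvd_mul_right ⟨x, h1⟩
  · rintro ⟨q, hq⟩
    exact ⟨algebraMap ℤ R q, by rw [hq, map_mul, map_pow]⟩

/-- Discrete valuation rings in the field of the `ℓ`-th roots of unity. -/
theorem exists_dvrK8 {ℓ p : ℕ} (hℓ : ℓ.Prime) (hp : p.Prime) (hpℓ : p ≠ ℓ) (K : Type) [Field K]
    [Algebra ℚ K] [FiniteDimensional ℚ K] [IsGalois ℚ K] {ζ : K} (hζ : IsPrimitiveRoot ζ ℓ)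
    (hgen : ∀ σ : K ≃ₐ[ℚ] K, σ ζ = ζ → σ = 1) :
    ∃ (R : Type) (_ : CommRing R) (_ : IsDomain R) (_ : IsDiscreteValuationRing R)
      (_ : Algebra R K) (_ : IsFractionRing R K),
      ∀ (z : ℤ) (n : ℕ), (z : R) ∈ IsLocalRing.maximalIdeal R ^ n ↔ (p : ℤ) ^ n ∣ z := by
  obtain ⟨R₀, i1, i2, i3, i4, i5, h⟩ := exists_dvrZ8 hp
  letI : Algebra R₀ K := ((algebraMap ℚ K).comp (algebraMap R₀ ℚ)).toAlgebra
  haveI : IsScalarTower R₀ ℚ K := IsScalarTower.of_algebraMap_eq fun r => rfl
  have hℓ0 : (ℓ : IsLocalRing.ResidueField R₀) ≠ 0 := by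
    intro h0
    have h1 : IsLocalRing.residue R₀ ((ℓ : ℤ) : R₀) = 0 := by
      rw [Int.cast_natCast, map_natCast]
      exact h0
    rw [IsLocalRing.residue_eq_zero_iff] at h1
    have h2 := (h ℓ 1).mp (by rwa [pow_one])
    rw [pow_one, Int.natCast_dvd_natCast] at h2
    exact hpℓ ((Nat.prime_dvd_prime_iff_eq hp hℓ).mp h2)
  obtain ⟨R, j1, j2, j3, j4, j5, j6, j7, h'⟩ := exists_unramified8 (R₀ := R₀) (k := ℚ) (K := K) hℓ0
    hζ hgen
  refine ⟨R, j1, j2, j3, j5, j7, fun z n => ?_⟩
  have h1 : (z : R) = algebraMap R₀ R (z : R₀) := by rw [map_intCast]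
  rw [h1, h', h]

/-- Simple collisions over a discrete valuation ring over `p`. -/
theorem isCollision7_of_Z8 {p : ℕ} (hp : p.Prime) {R : Type*} [CommRing R] [IsDomain R]
    [IsLocalRing R]
    (h : ∀ (z : ℤ) (n : ℕ), (z : R) ∈ IsLocalRing.maximalIdeal R ^ n ↔ (p : ℤ) ^ n ∣ z)
    {g D : ℤ[X]} (hcol : IsCollisionZ8 p g D) :
    IsCollision7 (g.map (Int.castRingHom R)) (D.map (Int.castRingHom R)) := by
  obtain ⟨a, u, hD, hsep, ha⟩ := hcol
  have hp0 : ((p : ℕ) : IsLocalRing.ResidueField R) = 0 := by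
    have h1 : IsLocalRing.residue R ((p : ℤ) : R) = 0 := by
      rw [IsLocalRing.residue_eq_zero_iff]
      have h2 := (h p 1).mpr (by rw [pow_one])
      rwa [pow_one] at h2
    simpa using h1
  have : CharP (IsLocalRing.ResidueField R) p := (CharP.charP_iff_prime_eq_zero hp).mpr hp0
  let φ : ZMod p →+* IsLocalRing.ResidueField R := ZMod.castHom (dvd_refl p) _
  have hφ : (IsLocalRing.residue R).comp (Int.castRingHom R) = φ.comp (Int.castRingHom (ZMod p)) :=
    RingHom.ext_int _ _
  have hφa : IsLocalRing.residue R (Int.castRingHom R a) = φ (a : ZMod p) := RingHom.congr_fun hφ a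
  refine ⟨Int.castRingHom R a, u.map φ, ?_, ?_, ?_⟩
  · rw [Polynomial.map_map, hφ, ← Polynomial.map_map, hD, hφa]
    simp
  · rw [Polynomial.map_map, hφ, ← Polynomial.map_map, hφa]
    have h1 := hsep.map (f := φ)
    rw [Polynomial.map_comp, Polynomial.map_mul, Polynomial.map_sub, map_X, map_C] at h1
    exact h1
  · rw [eval_map, eval₂_at_apply]
    show ((D.eval a : ℤ) : R) ∉ _
    rw [h]
    exact ha

/-- Polynomials over a discrete valuation ring over `p`: separable reduction. -/
theorem residue_map8 {p : ℕ} (hp : p.Prime) {R : Type*} [CommRing R] [IsDomain R]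
    [IsLocalRing R]
    (h : ∀ (z : ℤ) (n : ℕ), (z : R) ∈ IsLocalRing.maximalIdeal R ^ n ↔ (p : ℤ) ^ n ∣ z) :
    ∃ φ : ZMod p →+* IsLocalRing.ResidueField R, ∀ f : ℤ[X],
      (f.map (Int.castRingHom R)).map (IsLocalRing.residue R) =
        (f.map (Int.castRingHom (ZMod p))).map φ := by
  have hp0 : ((p : ℕ) : IsLocalRing.ResidueField R) = 0 := by
    have h1 : IsLocalRing.residue R ((p : ℤ) : R) = 0 := by
      rw [IsLocalRing.residue_eq_zero_iff]
      have h2 := (h p 1).mpr (by rw [pow_one])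
      rwa [pow_one] at h2
    simpa using h1
  have : CharP (IsLocalRing.ResidueField R) p := (CharP.charP_iff_prime_eq_zero hp).mpr hp0
  refine ⟨ZMod.castHom (dvd_refl p) _, fun f => ?_⟩
  rw [Polynomial.map_map, Polynomial.map_map]
  congr 1
  exact RingHom.ext_int _ _

end Pool.Agent.Lib.MP_89bcae_ag

end

section

/-!
# Reduction of the roots of `D(g(x))` and of the Rédei maps modulo a place where `D(g(x))` splits
-/

open Polynomial

open scoped Classical

namespace Pool.Agent.Lib.MP_89bcae_ag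

set_option linter.unusedSectionVars false
set_option linter.style.haveILetI false

section Sep

variable {κ : Type*} [Field κ]

/-- A polynomial with as many roots as its degree is separable. -/
lemma separable_of_card7 {f : κ[X]} (h0 : f ≠ 0) (h : f.roots.toFinset.card = f.natDegree) :
    f.Separable := by
  have h1 : f.roots.card = f.natDegree :=
    le_antisymm (card_roots' f) (h ▸ Multiset.toFinset_card_le _)
  have h2 : f.roots.Nodup := by
    rw [← Multiset.toFinset_card_eq_card_iff_nodup, h, h1]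
  have h3 : f.Splits := splits_iff_card_roots.mpr h1
  exact (nodup_roots_iff_of_splits h0 h3).mp h2

/-- If `D ∘ g` is separable, so is `D`. -/
lemma separable_left7 {g D : κ[X]} (hg : g.natDegree ≠ 0) (h : (D.comp g).Separable) :
    D.Separable := by
  rw [Polynomial.Separable, isCoprime_iff_aeval_ne_zero_of_isAlgClosed (k := κ)
    (AlgebraicClosure κ)]
  intro a
  by_contra hcon
  push Not at hcon
  obtain ⟨h1, h2⟩ := hcon
  have hdeg : (g.map (algebraMap κ (AlgebraicClosure κ)) - C a).degree ≠ 0 := by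
    intro h3
    have h4 := natDegree_eq_zero_iff_degree_le_zero.mpr h3.le
    rw [natDegree_sub_C, natDegree_map] at h4
    exact hg h4
  obtain ⟨b, hb⟩ := IsAlgClosed.exists_root _ hdeg
  have hb2 : aeval b g = a := by
    rw [IsRoot.def, eval_sub, eval_C, sub_eq_zero, eval_map_algebraMap] at hb
    exact hb
  obtain ⟨u, v, huv⟩ := h
  have h3 := congrArg (aeval b) huv
  rw [derivative_comp, map_add, map_mul, map_mul, map_mul, aeval_comp, aeval_comp, hb2, h1, h2] at h3
  simp at h3

end Sep

variable {R K F κ Fκ : Type*} [CommRing R] [IsDomain R] [IsIntegrallyClosed R] [Field K]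
  [Algebra R K] [IsFractionRing R K] [Field F] [Algebra K F] [Algebra R F] [IsScalarTower R K F]
  [IsAlgClosed F] [Algebra.IsAlgebraic K F]
  [Field κ] [Fintype κ] [Field Fκ] [Algebra κ Fκ] [Algebra.IsAlgebraic κ Fκ] [IsAlgClosed Fκ]

/-- `z` is the reduction of `x`. -/
def Red7 (ρ : integralClosure R F →+* Fκ) (x : F) (z : κ) : Prop :=
  ∃ hx : IsIntegral R x, ρ ⟨x, hx⟩ = algebraMap κ Fκ z

section Red

variable {ρ : integralClosure R F →+* Fκ}

lemma Red7.unique {x : F} {z z' : κ} (h : Red7 ρ x z) (h' : Red7 ρ x z') : z = z' := by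
  obtain ⟨hx, h⟩ := h
  obtain ⟨hx', h'⟩ := h'
  exact (algebraMap κ Fκ).injective (h.symm.trans h')

lemma Red7.mul {x y : F} {z w : κ} (h : Red7 ρ x z) (h' : Red7 ρ y w) :
    Red7 ρ (x * y) (z * w) := by
  obtain ⟨hx, h⟩ := h
  obtain ⟨hy, h'⟩ := h'
  refine ⟨hx.mul hy, ?_⟩
  rw [map_mul, ← h, ← h', ← map_mul]
  rfl

lemma Red7.sub {x y : F} {z w : κ} (h : Red7 ρ x z) (h' : Red7 ρ y w) :
    Red7 ρ (x - y) (z - w) := by
  obtain ⟨hx, h⟩ := h
  obtain ⟨hy, h'⟩ := h'
  refine ⟨hx.sub hy, ?_⟩
  rw [map_sub, ← h, ← h', ← map_sub]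
  rfl

lemma Red7.neg {x : F} {z : κ} (h : Red7 ρ x z) : Red7 ρ (-x) (-z) := by
  obtain ⟨hx, h⟩ := h
  refine ⟨hx.neg, ?_⟩
  rw [map_neg, ← h, ← map_neg]
  rfl

lemma Red7.one : Red7 ρ (1 : F) (1 : κ) := by
  refine ⟨isIntegral_one, ?_⟩
  rw [map_one]
  exact map_one ρ

lemma Red7.prod {ι : Type*} {S : Finset ι} {x : ι → F} {z : ι → κ}
    (h : ∀ i ∈ S, Red7 ρ (x i) (z i)) : Red7 ρ (∏ i ∈ S, x i) (∏ i ∈ S, z i) := by
  classical
  induction S using Finset.induction_on with
  | empty => simpa using Red7.one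
  | insert i S hi ih =>
    rw [Finset.prod_insert hi, Finset.prod_insert hi]
    exact (h i (Finset.mem_insert_self _ _)).mul
      (ih fun j hj => h j (Finset.mem_insert_of_mem hj))

lemma Red7.eval {π : R →+* κ}
    (hρ : ∀ r, ρ (algebraMap R (integralClosure R F) r) = algebraMap κ Fκ (π r)) {x : F} {z : κ}
    (h : Red7 ρ x z) (p : R[X]) :
    Red7 ρ ((p.map (algebraMap R F)).eval x) ((p.map π).eval z) := by
  obtain ⟨hx, h⟩ := h
  have h1 : ((aeval (⟨x, hx⟩ : integralClosure R F) p : integralClosure R F) : F) =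
      (p.map (algebraMap R F)).eval x := by
    rw [eval_map_algebraMap, ← Subalgebra.coe_val, ← aeval_algHom_apply]
    rfl
  have h3 : IsIntegral R ((p.map (algebraMap R F)).eval x) := by
    rw [← h1]
    exact (aeval (⟨x, hx⟩ : integralClosure R F) p).2
  refine ⟨h3, ?_⟩
  have h4 : (⟨(p.map (algebraMap R F)).eval x, h3⟩ : integralClosure R F) =
      aeval (⟨x, hx⟩ : integralClosure R F) p := Subtype.ext h1.symm
  rw [h4, aeval_def, hom_eval₂]
  have h5 : ρ.comp (algebraMap R (integralClosure R F)) = (algebraMap κ Fκ).comp π :=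
    RingHom.ext hρ
  rw [h5, h, ← hom_eval₂, eval_map]

/-- The reduction is injective on the roots of a polynomial with separable reduction. -/
lemma red_inj7 {π : R →+* κ}
    (hρ : ∀ r, ρ (algebraMap R (integralClosure R F) r) = algebraMap κ Fκ (π r)) {f : R[X]}
    (hs : (f.map π).Separable) {x y : F} (hx : IsIntegral R x) (hy : IsIntegral R y)
    (hfx : (f.map (algebraMap R F)).eval x = 0) (hfy : (f.map (algebraMap R F)).eval y = 0)
    (h : ρ ⟨x, hx⟩ = ρ ⟨y, hy⟩) : x = y := by
  by_contra hne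
  have hev : ∀ (z : F) (hz : IsIntegral R z), (f.map (algebraMap R F)).eval z = 0 →
      (f.map (algebraMap R (integralClosure R F))).eval (⟨z, hz⟩ : integralClosure R F) = 0 := by
    intro z hz h0
    rw [eval_map_algebraMap]
    apply Subtype.ext
    have h2 : ((aeval (⟨z, hz⟩ : integralClosure R F) f : integralClosure R F) : F) = aeval z f := by
      rw [← Subalgebra.coe_val, ← aeval_algHom_apply]
      rfl
    rw [h2, ← eval_map_algebraMap, h0]
    rfl
  obtain ⟨q, hq⟩ := dvd_iff_isRoot.mpr (hev x hx hfx)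
  have h1 := hev y hy hfy
  rw [hq, eval_mul, eval_sub, eval_X, eval_C] at h1
  have h2 : (⟨y, hy⟩ : integralClosure R F) - ⟨x, hx⟩ ≠ 0 := by
    intro h0
    exact hne (congrArg Subtype.val (sub_eq_zero.mp h0)).symm
  have h3 : q.IsRoot ⟨y, hy⟩ := (mul_eq_zero.mp h1).resolve_left h2
  obtain ⟨q', hq'⟩ := dvd_iff_isRoot.mpr h3
  have h4 : (f.map π).map (algebraMap κ Fκ) =
      (X - C (ρ ⟨x, hx⟩)) * ((X - C (ρ ⟨x, hx⟩)) * q'.map ρ) := by
    have h5 := congrArg (Polynomial.map ρ) hq
    rw [hq', Polynomial.map_map, Polynomial.map_mul, Polynomial.map_mul, Polynomial.map_sub,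
      Polynomial.map_sub, map_X, map_C, map_C] at h5
    have h6 : ρ.comp (algebraMap R (integralClosure R F)) = (algebraMap κ Fκ).comp π :=
      RingHom.ext hρ
    rw [Polynomial.map_map, ← h6, h5, h]
  have h5 := (separable_map (algebraMap κ Fκ)).mpr hs
  rw [h4] at h5
  have h6 : (X - C (ρ ⟨x, hx⟩)) * (X - C (ρ ⟨x, hx⟩)) ∣
      (X - C (ρ ⟨x, hx⟩)) * ((X - C (ρ ⟨x, hx⟩)) * q'.map ρ) := by
    rw [← mul_assoc]
    exact Dvd.intro _ rfl
  exact not_isUnit_X_sub_C _ (h5.squarefree _ h6)

end Red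

end Pool.Agent.Lib.MP_89bcae_ag

end

section

/-!
# Cycles on a fibre of `g` at a place where the leading coefficient has a simple zero
-/

open Polynomial WithZero

open scoped Classical Pointwise

set_option linter.unusedSimpArgs false
set_option linter.unusedVariables false
set_option linter.unusedSectionVars false
set_option linter.style.haveILetI false

namespace Pool.Agent.Lib.MP_89bcae_ag

section Aux

variable {K κ : Type*} [Field K] [Field κ] {v : Valuation K ℤᵐ⁰} {q : v.integer →+* κ}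

/-- Distinct roots of a polynomial with separable reduction have distinct reductions. -/
lemma inj_red8 {O κ : Type*} [CommRing O] [IsDomain O] [Field κ] (q : O →+* κ) {G : O[X]}
    (hs : (G.map q).Separable) {x y : O} (hx : G.eval x = 0) (hy : G.eval y = 0)
    (hxy : q x = q y) : x = y := by
  by_contra hne
  obtain ⟨H, hH⟩ := dvd_iff_isRoot.mpr hx
  rw [hH, eval_mul, eval_sub, eval_X, eval_C] at hy
  have h1 : H.IsRoot y := (mul_eq_zero.mp hy).resolve_left fun h => hne (sub_eq_zero.mp h).symm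
  obtain ⟨H', hH'⟩ := dvd_iff_isRoot.mpr h1
  have h2 : G.map q = (X - C (q x)) * ((X - C (q x)) * H'.map q) := by
    conv_lhs => rw [hH, hH']
    rw [Polynomial.map_mul, Polynomial.map_mul, Polynomial.map_sub, Polynomial.map_sub, map_X,
      map_C, map_C, hxy]
  rw [h2] at hs
  have h3 : (X - C (q x)) * (X - C (q x)) ∣ (X - C (q x)) * ((X - C (q x)) * H'.map q) := by
    rw [← mul_assoc]
    exact Dvd.intro _ rfl
  exact not_isUnit_X_sub_C _ (hs.squarefree _ h3)

/-- The factorisation of a polynomial over the valuation ring whose leading coefficient is not a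
unit: there is exactly one root which is not integral. -/
theorem exists_pole8 (hq : ∀ x : v.integer, q x = 0 ↔ v x < 1) {D : v.integer[X]} {A : Finset K}
    {a : K} (hD : D.map v.integer.subtype = C a * ∏ α ∈ A, (X - C α)) {n : ℕ} (hn : A.card = n + 1)
    (hdeg : (D.map q).natDegree = n) (hlc : q (D.coeff n) ≠ 0) :
    ∃ α₀ ∈ A, 1 < v α₀ ∧ v (a * α₀) = 1 ∧ ∀ α ∈ A, α ≠ α₀ → v α ≤ 1 := by
  have hq1 : ∀ x : v.integer, q x ≠ 0 ↔ v x = 1 := fun x => by
    rw [Ne, hq, not_lt]
    exact ⟨fun h => le_antisymm x.2 h, fun h => h.ge⟩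
  obtain ⟨A', hA'⟩ : ∃ A', A' = A.filter fun α => v α ≤ 1 := ⟨_, rfl⟩
  obtain ⟨J, hJ⟩ : ∃ J, J = A.filter fun α => ¬ v α ≤ 1 := ⟨_, rfl⟩
  obtain ⟨β, hβ⟩ : ∃ β : K → v.integer, ∀ x (hx : v x ≤ 1), β x = ⟨x, hx⟩ :=
    ⟨fun x => if hx : v x ≤ 1 then ⟨x, hx⟩ else 0, fun x hx => dif_pos hx⟩
  have hβs : ∀ x, v x ≤ 1 → v.integer.subtype (β x) = x := fun x hx => by rw [hβ x hx]; rfl
  have hJ1 : ∀ α ∈ J, 1 < v α ∧ α ≠ 0 ∧ v α⁻¹ < 1 := by
    intro α hα
    rw [hJ, Finset.mem_filter, not_le] at hα
    have h1 : α ≠ 0 := by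
      rintro rfl
      rw [map_zero] at hα
      exact absurd hα.2 (not_lt.mpr zero_le_one)
    refine ⟨hα.2, h1, ?_⟩
    rw [map_inv₀]
    exact inv_lt_one_of_one_lt₀ hα.2
  obtain ⟨Q, hQ⟩ : ∃ Q : v.integer[X],
    Q = (∏ α ∈ A', (X - C (β α))) * ∏ α ∈ J, (1 - C (β α⁻¹) * X) := ⟨_, rfl⟩
  obtain ⟨c, hc⟩ : ∃ c : K, c = a * ∏ α ∈ J, (-α) := ⟨_, rfl⟩
  have hDQ : D.map v.integer.subtype = C c * Q.map v.integer.subtype := by
    have h1 : ∏ α ∈ A, (X - C α : K[X]) = (∏ α ∈ A', (X - C α)) * ∏ α ∈ J, (X - C α) := by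
      rw [hA', hJ, Finset.prod_filter_mul_prod_filter_not]
    have h2 : Q.map v.integer.subtype = (∏ α ∈ A', (X - C α)) * ∏ α ∈ J, (1 - C α⁻¹ * X) := by
      rw [hQ, Polynomial.map_mul, Polynomial.map_prod, Polynomial.map_prod]
      congr 1
      · refine Finset.prod_congr rfl fun α hα => ?_
        rw [hA', Finset.mem_filter] at hα
        rw [Polynomial.map_sub, map_X, map_C, hβs α hα.2]
      · refine Finset.prod_congr rfl fun α hα => ?_
        rw [Polynomial.map_sub, Polynomial.map_one, Polynomial.map_mul, map_X, map_C,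
          hβs _ (hJ1 α hα).2.2.le]
    have h3 : ∏ α ∈ J, (X - C α : K[X]) = C (∏ α ∈ J, (-α)) * ∏ α ∈ J, (1 - C α⁻¹ * X) := by
      rw [map_prod, ← Finset.prod_mul_distrib]
      refine Finset.prod_congr rfl fun α hα => ?_
      have h4 : C α * C α⁻¹ = (1 : K[X]) := by
        rw [← C_mul, mul_inv_cancel₀ (hJ1 α hα).2.1, C_1]
      rw [C_neg]
      linear_combination (-X) * h4
    rw [hD, h1, h2, h3, hc, C_mul]
    ring
  have hQq : Q.map q = ∏ α ∈ A', (X - C (q (β α))) := by
    rw [hQ, Polynomial.map_mul, Polynomial.map_prod, Polynomial.map_prod]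
    have h1 : ∏ α ∈ J, (1 - C (β α⁻¹) * X : v.integer[X]).map q = 1 := by
      refine Finset.prod_eq_one fun α hα => ?_
      have h2 : q (β α⁻¹) = 0 := by
        rw [hq, hβ _ (hJ1 α hα).2.2.le]
        exact (hJ1 α hα).2.2
      rw [Polynomial.map_sub, Polynomial.map_one, Polynomial.map_mul, map_X, map_C, h2, C_0,
        zero_mul, sub_zero]
    rw [h1, mul_one]
    refine Finset.prod_congr rfl fun α _ => ?_
    rw [Polynomial.map_sub, map_X, map_C]
  have hQmon : (Q.map q).Monic := by
    rw [hQq]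
    exact monic_prod_X_sub_C _ _
  have hQdeg : (Q.map q).natDegree = A'.card := by
    rw [hQq, natDegree_prod_of_monic _ _ fun α _ => monic_X_sub_C _]
    simp
  have hcoef : ∀ i, ((D.coeff i : v.integer) : K) = c * ((Q.coeff i : v.integer) : K) := by
    intro i
    have h1 := congrArg (fun p => coeff p i) hDQ
    simp only [coeff_map, coeff_C_mul] at h1
    exact h1
  have hc1 : v c ≤ 1 := by
    have h1 : v ((Q.coeff A'.card : v.integer) : K) = 1 := by
      rw [← hq1]
      have h2 : (Q.map q).coeff A'.card = 1 := by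
        rw [← hQdeg]
        exact hQmon
      rw [coeff_map] at h2
      rw [h2]
      exact one_ne_zero
    have h3 := congrArg v (hcoef A'.card)
    rw [map_mul, h1, mul_one] at h3
    rw [← h3]
    exact (D.coeff A'.card).2
  have hc2 : 1 ≤ v c := by
    have h1 : v ((D.coeff n : v.integer) : K) = 1 := (hq1 _).mp hlc
    have h3 := congrArg v (hcoef n)
    rw [map_mul, h1] at h3
    rw [h3]
    exact mul_le_of_le_one_right' (Q.coeff n).2
  have hc3 : v c = 1 := le_antisymm hc1 hc2
  have hDO : D = C (⟨c, hc1⟩ : v.integer) * Q := by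
    apply Polynomial.map_injective v.integer.subtype Subtype.val_injective
    rw [hDQ, Polynomial.map_mul, map_C]
    rfl
  have hcq : q ⟨c, hc1⟩ ≠ 0 := (hq1 _).mpr hc3
  have hcard : A'.card = n := by
    rw [← hdeg, hDO, Polynomial.map_mul, map_C, natDegree_C_mul hcq, hQdeg]
  have hJcard : J.card = 1 := by
    have h1 : A'.card + J.card = A.card := by
      rw [hA', hJ]
      exact Finset.card_filter_add_card_filter_not _
    omega
  obtain ⟨α₀, hα₀⟩ := Finset.card_eq_one.mp hJcard
  have hm : α₀ ∈ J := by rw [hα₀]; exact Finset.mem_singleton_self _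
  refine ⟨α₀, ?_, (hJ1 α₀ hm).1, ?_, fun α hα hne => ?_⟩
  · rw [hJ, Finset.mem_filter] at hm
    exact hm.1
  · rw [hc, hα₀, Finset.prod_singleton, mul_neg, Valuation.map_neg] at hc3
    exact hc3
  · by_contra hcon
    have h1 : α ∈ J := by
      rw [hJ, Finset.mem_filter]
      exact ⟨hα, hcon⟩
    rw [hα₀, Finset.mem_singleton] at h1
    exact hne h1

/-- The value of a polynomial over the valuation ring at an element outside of it. -/
lemma val_eval8 (h : v.integer[X]) {d : ℕ} (hd : h.natDegree ≤ d)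
    (hc : v ((h.coeff d : v.integer) : K) = 1) {x : K} (hx : 1 < v x) :
    v ((h.map v.integer.subtype).eval x) = v x ^ d := by
  have hx0 : v x ≠ 0 := (zero_lt_one.trans hx).ne'
  rw [eval_map, eval₂_eq_sum_range' v.integer.subtype (Nat.lt_succ_of_le hd), Finset.sum_range_succ]
  have h1 : v (v.integer.subtype (h.coeff d) * x ^ d) = v x ^ d := by
    rw [map_mul, map_pow]
    have h2 : v (v.integer.subtype (h.coeff d)) = 1 := hc
    rw [h2, one_mul]
  have h3 : v (∑ i ∈ Finset.range d, v.integer.subtype (h.coeff i) * x ^ i) <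
      v (v.integer.subtype (h.coeff d) * x ^ d) := by
    rw [h1]
    apply Valuation.map_sum_lt v (pow_ne_zero d hx0)
    intro i hi
    rw [Finset.mem_range] at hi
    rw [map_mul, map_pow]
    have h4 : v (v.integer.subtype (h.coeff i)) ≤ 1 := (h.coeff i).2
    calc v (v.integer.subtype (h.coeff i)) * v x ^ i ≤ v x ^ i := mul_le_of_le_one_left' h4
      _ < v x ^ d := pow_lt_pow_right₀ hx hi
  rw [add_comm, Valuation.map_add_eq_of_lt_left _ h3, h1]

/-- The differences of the elements of the fibre over the pole. -/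
lemma val_sub8 {g : v.integer[X]} (hg : g.Monic) {m : ℕ} (hm : g.natDegree = m)
    (hm1 : v (m : K) = 1) {α₀ : K} (hα₀ : 1 < v α₀) {T : Finset K}
    (hT : g.map v.integer.subtype - C α₀ = ∏ b ∈ T, (X - C b)) {x : K} (hx : x ∈ T) {y : K}
    (hy : y ∈ T) (hxy : x ≠ y) : v (x - y) = v x := by
  have hm0 : m ≠ 0 := by
    rintro rfl
    rw [Nat.cast_zero, map_zero] at hm1
    exact zero_ne_one hm1
  have hTcard : T.card = m := by
    have h1 := congrArg natDegree hT
    rw [natDegree_sub_C, hg.natDegree_map, hm, natDegree_prod_of_monic _ _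
      fun α _ => monic_X_sub_C _] at h1
    simpa using h1.symm
  have hTeval : ∀ z ∈ T, (g.map v.integer.subtype).eval z = α₀ := by
    intro z hz
    have h1 := congrArg (eval z) hT
    rw [eval_sub, eval_C, eval_prod, Finset.prod_eq_zero hz (by simp), sub_eq_zero] at h1
    exact h1
  have hint : ∀ z : K, v z ≤ 1 → v ((g.map v.integer.subtype).eval z) ≤ 1 := by
    intro z hz
    have h1 : (g.map v.integer.subtype).eval z = v.integer.subtype (g.eval ⟨z, hz⟩) := by
      rw [eval_map, ← eval₂_at_apply]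
      rfl
    rw [h1]
    exact (g.eval ⟨z, hz⟩).2
  have hTv : ∀ z ∈ T, 1 < v z := by
    intro z hz
    by_contra hcon
    rw [not_lt] at hcon
    have h1 := hint z hcon
    rw [hTeval z hz] at h1
    exact absurd hα₀ (not_lt.mpr h1)
  have hTpow : ∀ z ∈ T, v z ^ m = v α₀ := by
    intro z hz
    rw [← hTeval z hz]
    refine (val_eval8 g hm.le ?_ (hTv z hz)).symm
    have h1 : g.coeff m = 1 := by rw [← hm]; exact hg
    rw [h1]
    exact map_one v
  have hTeq : ∀ z ∈ T, v z = v x := by
    intro z hz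
    exact (pow_left_inj₀ zero_le zero_le hm0).mp ((hTpow z hz).trans (hTpow x hx).symm)
  have hx0 : v x ≠ 0 := (zero_lt_one.trans (hTv x hx)).ne'
  -- the derivative
  have hder : (derivative (g.map v.integer.subtype)).eval x = ∏ z ∈ T.erase x, (x - z) := by
    have h1 := congrArg derivative hT
    rw [derivative_sub, derivative_C, sub_zero, ← Finset.mul_prod_erase T _ hx, derivative_mul,
      derivative_sub, derivative_X, derivative_C, sub_zero, one_mul] at h1
    rw [h1, eval_add, eval_mul, eval_sub, eval_X, eval_C, sub_self, zero_mul, add_zero, eval_prod]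
    simp
  have hval : v (∏ z ∈ T.erase x, (x - z)) = v x ^ (m - 1) := by
    rw [← hder, derivative_map]
    refine val_eval8 (derivative g) ?_ ?_ (hTv x hx)
    · have h1 := natDegree_derivative_le g
      omega
    · rw [coeff_derivative]
      have h1 : g.coeff (m - 1 + 1) = 1 := by
        rw [Nat.sub_add_cancel (Nat.pos_of_ne_zero hm0), ← hm]
        exact hg
      have h2 : ((m - 1 : ℕ) : v.integer) + 1 = (m : v.integer) := by
        rw [← Nat.cast_succ]
        congr 1
        omega
      rw [h1, one_mul, h2]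
      exact hm1
  have hle : ∀ z ∈ T.erase x, v ((x - z) / x) ≤ 1 := by
    intro z hz
    rw [Finset.mem_erase] at hz
    rw [map_div₀]
    apply div_le_one_of_le₀
    · refine (v.map_sub x z).trans (max_le le_rfl (hTeq z hz.2).le)
    · exact zero_le
  have hprod : ∏ z ∈ T.erase x, v ((x - z) / x) = 1 := by
    have h1 : ∏ z ∈ T.erase x, v ((x - z) / x) = v (∏ z ∈ T.erase x, (x - z)) / v x ^ (m - 1) := by
      rw [map_prod]
      simp only [map_div₀]
      rw [Finset.prod_div_distrib, Finset.prod_const, Finset.card_erase_of_mem hx, hTcard]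
    rw [h1, hval, div_self (pow_ne_zero _ hx0)]
  have hall := (Finset.prod_eq_one_iff_of_le_one' hle).mp hprod y
    (Finset.mem_erase.mpr ⟨hxy.symm, hy⟩)
  rw [map_div₀, div_eq_one_iff_eq hx0] at hall
  exact hall

/-- **The inertia group is transitive on the fibre over the pole.** -/
theorem exists_cycle_aux8 {k : Type*} [Field k] [Algebra k K]
    (hq : ∀ x : v.integer, q x = 0 ↔ v x < 1) (I : Subgroup (K ≃ₐ[k] K)) [Finite I]
    (hI1 : ∀ σ ∈ I, ∀ x, v (σ x) = v x) (hI2 : ∀ σ ∈ I, ∀ x, v x ≤ 1 → v (σ x - x) < 1)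
    {e : ℕ} (he0 : 0 < e) (he : e ≤ Nat.card I) {g D : v.integer[X]} (hg : g.Monic)
    (hgm : v (g.natDegree : K) = 1) {S A : Finset K} {a : K} (ha : v a = exp (-(e : ℤ)))
    (hD : D.map v.integer.subtype = C a * ∏ α ∈ A, (X - C α)) {n : ℕ} (hn : A.card = n + 1)
    (hdeg : (D.map q).natDegree = n) (hlc : q (D.coeff n) ≠ 0)
    (hgS : ∀ α ∈ A, g.map v.integer.subtype - C α =
      ∏ b ∈ S.filter (fun b => (g.map v.integer.subtype).eval b = α), (X - C b))
    (hsep : ((D.comp g).map q).Separable)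
    (hgσ : ∀ σ ∈ I, ∀ x, (g.map v.integer.subtype).eval (σ x) =
      σ ((g.map v.integer.subtype).eval x))
    (hDσ : ∀ σ ∈ I, ∀ x, (D.map v.integer.subtype).eval (σ x) =
      σ ((D.map v.integer.subtype).eval x))
    (hgen : ∀ σ ∈ I, (∀ b ∈ S, σ b = b) → σ = 1)
    (hSA : ∀ b ∈ S, (g.map v.integer.subtype).eval b ∈ A) :
    ∃ α₀ ∈ A, ∀ x ∈ S, ∀ y ∈ S, (g.map v.integer.subtype).eval x = α₀ →
      (g.map v.integer.subtype).eval y = α₀ → ∃ σ ∈ I, σ x = y ∧
        ∀ b ∈ S, (g.map v.integer.subtype).eval b ≠ α₀ → σ b = b := by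
  obtain ⟨α₀, hα₀A, hα₀1, haα₀, hα₀u⟩ := exists_pole8 hq hD hn hdeg hlc
  obtain ⟨m, hm⟩ : ∃ m, g.natDegree = m := ⟨_, rfl⟩
  rw [hm] at hgm
  have hm0 : m ≠ 0 := by
    rintro rfl
    rw [Nat.cast_zero, map_zero] at hgm
    exact zero_ne_one hgm
  set gK := g.map v.integer.subtype with hgK
  obtain ⟨T, hT⟩ : ∃ T, T = S.filter fun b => gK.eval b = α₀ := ⟨_, rfl⟩
  have hTmem : ∀ b, b ∈ T ↔ gK.eval b = α₀ := by
    intro b
    rw [hT, Finset.mem_filter]
    constructor
    · exact fun h => h.2
    · intro h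
      refine ⟨?_, h⟩
      have h1 := congrArg (eval b) (hgS α₀ hα₀A)
      rw [eval_sub, eval_C, h, sub_self, eval_prod, eq_comm, Finset.prod_eq_zero_iff] at h1
      obtain ⟨b', hb', h2⟩ := h1
      rw [eval_sub, eval_X, eval_C, sub_eq_zero] at h2
      rw [h2]
      exact (Finset.mem_filter.mp hb').1
  have hTprod : gK - C α₀ = ∏ b ∈ T, (X - C b) := by rw [hT]; exact hgS α₀ hα₀A
  have hTcard : T.card = m := by
    have h1 := congrArg natDegree hTprod
    rw [natDegree_sub_C, hg.natDegree_map, hm, natDegree_prod_of_monic _ _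
      fun α _ => monic_X_sub_C _] at h1
    simpa using h1.symm
  have hTsub := fun {x : K} (hx : x ∈ T) {y : K} (hy : y ∈ T) (hxy : x ≠ y) =>
    val_sub8 hg hm hgm hα₀1 hTprod hx hy hxy
  have hev : ∀ (p : v.integer[X]) (z : K) (hz : v z ≤ 1),
      (p.map v.integer.subtype).eval z = ((p.eval ⟨z, hz⟩ : v.integer) : K) := by
    intro p z hz
    have h1 : (p.map v.integer.subtype).eval z = v.integer.subtype (p.eval ⟨z, hz⟩) := by
      rw [eval_map, ← eval₂_at_apply]
      rfl
    exact h1
  have hTv : ∀ z ∈ T, 1 < v z := by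
    intro z hz
    by_contra hcon
    rw [not_lt] at hcon
    have h1 := (g.eval ⟨z, hcon⟩).2
    have h2 : v (gK.eval z) ≤ 1 := by
      rw [hev g z hcon]
      exact h1
    rw [(hTmem z).mp hz] at h2
    exact absurd hα₀1 (not_lt.mpr h2)
  have hgcoeff : v ((g.coeff m : v.integer) : K) = 1 := by
    have h1 : g.coeff m = 1 := by rw [← hm]; exact hg
    rw [h1]
    exact map_one v
  have hTpow : ∀ z ∈ T, v z ^ m = v α₀ := by
    intro z hz
    rw [← (hTmem z).mp hz]
    exact (val_eval8 g hm.le hgcoeff (hTv z hz)).symm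
  -- the roots in the other fibres
  have hother : ∀ b ∈ S, gK.eval b ≠ α₀ → v b ≤ 1 := by
    intro b hb hne
    by_contra hcon
    rw [not_le] at hcon
    have h1 : v (gK.eval b) = v b ^ m := val_eval8 g hm.le hgcoeff hcon
    have h2 := hα₀u _ (hSA b hb) hne
    rw [h1] at h2
    exact absurd (one_lt_pow₀ hcon hm0) (not_lt.mpr h2)
  have hAev : ∀ α ∈ A, (D.map v.integer.subtype).eval α = 0 := by
    intro α hα
    rw [hD, eval_mul, eval_prod, Finset.prod_eq_zero hα (by simp), mul_zero]
  have hA0 : a ≠ 0 := by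
    intro h0
    rw [h0, map_zero] at ha
    exact exp_ne_zero ha.symm
  have hAmem : ∀ α, (D.map v.integer.subtype).eval α = 0 → α ∈ A := by
    intro α hα
    rw [hD, eval_mul, eval_C, eval_prod, mul_eq_zero, Finset.prod_eq_zero_iff] at hα
    rcases hα with hα | ⟨α', h1, h2⟩
    · exact absurd hα hA0
    · rw [eval_sub, eval_X, eval_C, sub_eq_zero] at h2
      rw [h2]
      exact h1
  have hσA : ∀ σ ∈ I, ∀ α ∈ A, σ α ∈ A := by
    intro σ hσ α hα
    apply hAmem
    rw [hDσ σ hσ, hAev α hα, map_zero]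
  have hσα₀ : ∀ σ ∈ I, σ α₀ = α₀ := by
    intro σ hσ
    by_contra hne
    have h1 := hα₀u _ (hσA σ hσ α₀ hα₀A) hne
    rw [hI1 σ hσ] at h1
    exact absurd hα₀1 (not_lt.mpr h1)
  have hσT : ∀ σ ∈ I, ∀ x ∈ T, σ x ∈ T := by
    intro σ hσ x hx
    rw [hTmem, hgσ σ hσ, (hTmem x).mp hx, hσα₀ σ hσ]
  have hfix : ∀ σ ∈ I, ∀ b ∈ S, gK.eval b ≠ α₀ → σ b = b := by
    intro σ hσ b hb hne
    have h1 := hother b hb hne
    have h2 : v (σ b) ≤ 1 := by rw [hI1 σ hσ]; exact h1
    have hroot : ∀ (z : K) (hz : v z ≤ 1), gK.eval z ∈ A →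
        (D.comp g).eval (⟨z, hz⟩ : v.integer) = 0 := by
      intro z hz hzA
      have h3 := hev (D.comp g) z hz
      rw [Polynomial.map_comp, eval_comp, hAev _ hzA] at h3
      exact Subtype.ext h3.symm
    have h4 : gK.eval (σ b) ∈ A := by
      rw [hgσ σ hσ]
      exact hσA σ hσ _ (hSA b hb)
    have h5 := inj_red8 q hsep (hroot (σ b) h2 h4) (hroot b h1 (hSA b hb)) (by
      rw [← sub_eq_zero, ← map_sub, hq]
      exact hI2 σ hσ b h1)
    exact congrArg Subtype.val h5
  have hone : ∀ σ ∈ I, ∀ x ∈ T, σ x = x → σ = 1 := by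
    intro σ hσ x hx hσx
    apply hgen σ hσ
    intro b hb
    by_cases hbα : gK.eval b = α₀
    · have hbT : b ∈ T := (hTmem b).mpr hbα
      by_contra hne
      have hx0 : x ≠ 0 := by
        rintro rfl
        have h1 := hTv 0 hx
        rw [map_zero] at h1
        exact absurd h1 (not_lt.mpr zero_le_one)
      have hvx0 : v x ≠ 0 := (Valuation.ne_zero_iff v).mpr hx0
      have hvb : v b = v x :=
        (pow_left_inj₀ zero_le zero_le hm0).mp ((hTpow b hbT).trans (hTpow x hx).symm)
      have h1 : v (b / x) ≤ 1 := by rw [map_div₀, hvb, div_self hvx0]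
      have h2 := hI2 σ hσ (b / x) h1
      rw [map_div₀, hσx, ← sub_div, map_div₀, div_lt_one₀ (zero_lt_iff.mpr hvx0)] at h2
      have h3 := hTsub (hσT σ hσ b hbT) hbT hne
      have h4 : v (σ b) = v x := (hI1 σ hσ b).trans hvb
      rw [h3, h4] at h2
      exact lt_irrefl _ h2
    · exact hfix σ hσ b hb hbα
  -- the count
  obtain ⟨x₀, hx₀⟩ : T.Nonempty := by
    rw [← Finset.card_pos, hTcard]
    exact Nat.pos_of_ne_zero hm0
  have hme : m ≤ e := by
    have h1 := hTpow x₀ hx₀
    rw [map_mul, ha] at haα₀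
    have h2 : v α₀ = exp (e : ℤ) := by
      have h3 : exp (-(e : ℤ)) * exp (e : ℤ) = 1 := by
        rw [← exp_add, neg_add_cancel, exp_zero]
      rw [← h3] at haα₀
      exact mul_left_cancel₀ exp_ne_zero haα₀
    rw [h2] at h1
    have hv0 : v x₀ ≠ 0 := (zero_lt_one.trans (hTv x₀ hx₀)).ne'
    rw [← exp_log hv0, ← exp_nsmul, exp_inj] at h1
    have h4 : (m : ℤ) ∣ e := ⟨log (v x₀), by rw [← h1, nsmul_eq_mul]⟩
    exact Nat.le_of_dvd he0 (Int.natCast_dvd_natCast.mp h4)
  have hbij : ∀ (x : K) (hx : x ∈ T), Function.Bijective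
      (fun σ : I => (⟨(σ : K ≃ₐ[k] K) x, hσT σ σ.2 x hx⟩ : T)) := by
    intro x hx
    have hinj : Function.Injective
        (fun σ : I => (⟨(σ : K ≃ₐ[k] K) x, hσT σ σ.2 x hx⟩ : T)) := by
      intro σ τ hστ
      have h3 : (σ : K ≃ₐ[k] K) x = (τ : K ≃ₐ[k] K) x := congrArg Subtype.val hστ
      have h4 : (τ⁻¹ * σ : I) = 1 := by
        apply Subtype.ext
        apply hone _ (τ⁻¹ * σ).2 x hx
        change (τ : K ≃ₐ[k] K).symm ((σ : K ≃ₐ[k] K) x) = x
        rw [h3, AlgEquiv.symm_apply_apply]
      exact (inv_mul_eq_one.mp h4).symm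
    refine (Nat.bijective_iff_injective_and_card _).mpr ⟨hinj, ?_⟩
    have h5 := Nat.card_le_card_of_injective _ hinj
    rw [Nat.card_eq_fintype_card (α := T), Fintype.card_coe, hTcard] at h5 ⊢
    omega
  refine ⟨α₀, hα₀A, fun x hx y hy hxα hyα => ?_⟩
  obtain ⟨σ, hσ⟩ := (hbij x ((hTmem x).mpr hxα)).2 ⟨y, (hTmem y).mpr hyα⟩
  exact ⟨σ, σ.2, congrArg Subtype.val hσ, hfix σ σ.2⟩

end Aux

/-- The residue field of a valuation ring. -/
lemma exists_residue8 {K : Type*} [Field K] (v : Valuation K ℤᵐ⁰) :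
    ∃ q : v.integer →+* IsLocalRing.ResidueField v.valuationSubring,
      ∀ x : v.integer, q x = 0 ↔ v x < 1 := by
  let e : v.integer →+* v.valuationSubring :=
    { toFun := fun x => ⟨x, x.2⟩
      map_one' := rfl
      map_mul' := fun _ _ => rfl
      map_zero' := rfl
      map_add' := fun _ _ => rfl }
  refine ⟨(IsLocalRing.residue v.valuationSubring).comp e, fun x => ?_⟩
  rw [RingHom.comp_apply, IsLocalRing.residue_eq_zero_iff,
    ValuationSubring.valuation_lt_one_iff]
  exact (Valuation.isEquiv_iff_val_lt_one.mp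
    (Valuation.isEquiv_valuation_valuationSubring v)).symm

section Main

variable {R k K : Type*} [CommRing R] [IsDomain R] [IsDiscreteValuationRing R] [Field k]
    [Algebra R k] [IsFractionRing R k] [Field K] [Algebra k K] [Algebra R K] [IsScalarTower R k K]
    [FiniteDimensional k K] [IsGalois k K]

/-- **Cycles on a fibre.** -/
theorem exists_cycle8 {g D : R[X]} (hg : g.Monic)
    (hgm : (g.natDegree : IsLocalRing.ResidueField R) ≠ 0) {n : ℕ} (hn : D.natDegree = n + 1)
    (hlc1 : D.leadingCoeff ∈ IsLocalRing.maximalIdeal R)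
    (hlc2 : D.leadingCoeff ∉ IsLocalRing.maximalIdeal R ^ 2)
    (hlc3 : D.coeff n ∉ IsLocalRing.maximalIdeal R)
    (hsep : ((D.map (IsLocalRing.residue R)).comp (g.map (IsLocalRing.residue R))).Separable)
    (S A : Finset K) (hDA : D.map (algebraMap R K) =
      C (algebraMap R K D.leadingCoeff) * ∏ α ∈ A, (X - C α))
    (hgS : ∀ α ∈ A, g.map (algebraMap R K) - C α =
      ∏ b ∈ S.filter (fun b => (g.map (algebraMap R K)).eval b = α), (X - C b))
    (hSA : ∀ b ∈ S, (g.map (algebraMap R K)).eval b ∈ A)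
    (hgen : ∀ σ : K ≃ₐ[k] K, (∀ b ∈ S, σ b = b) → σ = 1) :
    ∃ α₀ ∈ A, ∀ x ∈ S, ∀ y ∈ S, (g.map (algebraMap R K)).eval x = α₀ →
      (g.map (algebraMap R K)).eval y = α₀ → ∃ σ : K ≃ₐ[k] K, σ x = y ∧
        ∀ b ∈ S, (g.map (algebraMap R K)).eval b ≠ α₀ → σ b = b := by
  -- the integral closure
  set B := integralClosure R K with hB
  haveI : IsDedekindDomain B := integralClosure.isDedekindDomain R k K
  haveI : Module.Finite R B := IsIntegralClosure.finite R k K B
  haveI : IsFractionRing B K := integralClosure.isFractionRing_of_finite_extension k K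
  haveI : SMulCommClass (K ≃ₐ[k] K) R K := ⟨fun σ r x => by
    rw [AlgEquiv.smul_def, AlgEquiv.smul_def, Algebra.smul_def, Algebra.smul_def, map_mul,
      IsScalarTower.algebraMap_apply R k K, AlgEquiv.commutes]⟩
  haveI : IsGaloisGroup (K ≃ₐ[k] K) R B := IsGaloisGroup.of_isFractionRing _ _ _ k K
  have hinjK : Function.Injective (algebraMap R K) := by
    rw [IsScalarTower.algebraMap_eq R k K]
    exact (algebraMap k K).injective.comp (IsFractionRing.injective R k)
  have hinjB : Function.Injective (algebraMap B K) := Subtype.val_injective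
  haveI : FaithfulSMul R B := by
    rw [faithfulSMul_iff_algebraMap_injective]
    intro x y hxy
    exact hinjK (congrArg (algebraMap B K) hxy)
  haveI : Module.IsTorsionFree R B := inferInstance
  haveI : Module.Flat R B := inferInstance
  let v : IsDedekindDomain.HeightOneSpectrum R := IsDiscreteValuationRing.maximalIdeal R
  have hvmax : v.asIdeal.IsMaximal := v.isMaximal
  obtain ⟨P, hPmax, hPv⟩ := Ideal.exists_maximal_ideal_liesOver_of_isIntegral (S := B) v.asIdeal
  have hP0 : P ≠ ⊥ := Ideal.ne_bot_of_liesOver_of_ne_bot v.ne_bot P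
  let w : IsDedekindDomain.HeightOneSpectrum B := ⟨P, hPmax.isPrime, hP0⟩
  have hwv : w.asIdeal.LiesOver v.asIdeal := hPv
  -- the ramification index
  have he : v.asIdeal.ramificationIdx' w.asIdeal ≤ Nat.card (P.inertia (K ≃ₐ[k] K)) := by
    rw [Ideal.ramificationIdx'_eq_ramificationIdx v.asIdeal w.asIdeal v.ne_bot]
    exact ramificationIdx_le_card_inertia7 v.asIdeal P
  set e := v.asIdeal.ramificationIdx' w.asIdeal with hedef
  set W := w.valuation K with hW
  have hWk : ∀ r : R, W (algebraMap R K r) = v.intValuation r ^ e := by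
    intro r
    have h1 := IsDedekindDomain.HeightOneSpectrum.valuation_liesOver K v w (algebraMap R k r)
    rw [← IsScalarTower.algebraMap_apply] at h1
    rw [hW, ← h1]
    congr 1
    exact IsDedekindDomain.HeightOneSpectrum.valuation_of_algebraMap (K := k) v r
  have hvm : ∀ (r : R) (n : ℕ), v.intValuation r ≤ exp (-(n : ℤ)) ↔
      r ∈ IsLocalRing.maximalIdeal R ^ n := fun r n => v.intValuation_le_pow_iff_mem r n
  have hlc0 : D.leadingCoeff ≠ 0 := by
    intro h0
    rw [h0] at hlc2
    exact hlc2 (Ideal.zero_mem _)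
  have hvD : v.intValuation D.leadingCoeff = exp (-1 : ℤ) := by
    have h1 := (hvm D.leadingCoeff 1).mpr (by rw [pow_one]; exact hlc1)
    have h3 : ¬ v.intValuation D.leadingCoeff ≤ exp (-((2 : ℕ) : ℤ)) := fun h4 =>
      hlc2 ((hvm D.leadingCoeff 2).mp h4)
    have h5 : v.intValuation D.leadingCoeff ≠ 0 := v.intValuation_ne_zero _ hlc0
    have h6 := exp_log h5
    rw [← h6] at h1 h3 ⊢
    rw [exp_le_exp] at h1 h3
    rw [exp_inj]
    push_cast at h1 h3
    omega
  have ha : W (algebraMap R K D.leadingCoeff) = exp (-(e : ℤ)) := by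
    rw [hWk, hvD, ← exp_nsmul]
    simp
  -- integrality
  have hWB : ∀ x : B, W x ≤ 1 := fun x => w.valuation_le_one x
  have hWP : ∀ x : B, W x < 1 ↔ x ∈ P := fun x => w.valuation_lt_one_iff_mem x
  have hWR : ∀ r : R, W (algebraMap R K r) ≤ 1 := fun r => hWB (algebraMap R B r)
  have hWm : ∀ r : R, r ∈ IsLocalRing.maximalIdeal R → W (algebraMap R K r) < 1 := by
    intro r hr
    refine (hWP (algebraMap R B r)).mpr ?_
    have h1 : r ∈ Ideal.comap (algebraMap R B) P := by
      rw [← Ideal.under_def, ← hPv.over]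
      exact hr
    exact h1
  have he0 : 0 < e := by
    rcases Nat.eq_zero_or_pos e with h0 | h0
    · have h1 := hWm _ hlc1
      rw [ha, h0] at h1
      exact absurd h1 (by simp)
    · exact h0
  obtain ⟨q, hq⟩ := exists_residue8 W
  let ι : R →+* W.integer := (algebraMap R K).codRestrict W.integer hWR
  have hι : W.integer.subtype.comp ι = algebraMap R K := RingHom.ext fun r => rfl
  have hιmap : ∀ p : R[X], (p.map ι).map W.integer.subtype = p.map (algebraMap R K) := fun p => by
    rw [Polynomial.map_map, hι]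
  have hker : ∀ r : R, r ∈ IsLocalRing.maximalIdeal R → q.comp ι r = 0 := by
    intro r hr
    exact (hq (ι r)).mpr (hWm r hr)
  let ψ : IsLocalRing.ResidueField R →+* IsLocalRing.ResidueField W.valuationSubring :=
    Ideal.Quotient.lift (IsLocalRing.maximalIdeal R) (q.comp ι) hker
  have hψ : ψ.comp (IsLocalRing.residue R) = q.comp ι := RingHom.ext fun r => rfl
  have hψmap : ∀ p : R[X], (p.map ι).map q = (p.map (IsLocalRing.residue R)).map ψ := fun p => by
    rw [Polynomial.map_map, Polynomial.map_map, hψ]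
  -- the action of the inertia group
  have hstab : ∀ σ ∈ P.inertia (K ≃ₐ[k] K), σ • P = P := fun σ hσ =>
    Ideal.inertia_le_stabilizer (M := (K ≃ₐ[k] K)) P hσ
  have hint1 : ∀ σ ∈ P.inertia (K ≃ₐ[k] K), ∀ b : B, w.intValuation (σ • b) ≤ w.intValuation b := by
    intro σ hσ b
    by_cases hb : b = 0
    · rw [hb, smul_zero]
    · have h1 : w.intValuation b ≠ 0 := w.intValuation_ne_zero b hb
      obtain ⟨N, hN⟩ : ∃ N : ℕ, w.intValuation b = exp (-(N : ℤ)) :=
        ⟨_, w.intValuation_if_neg hb⟩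
      rw [hN]
      refine (w.intValuation_le_pow_iff_mem (σ • b) N).mpr ?_
      have h2 : b ∈ w.asIdeal ^ N := (w.intValuation_le_pow_iff_mem b N).mp hN.le
      have h3 : w.asIdeal ^ N = σ • (w.asIdeal ^ N) := by
        rw [smul_pow']
        exact congrArg (· ^ N) (hstab σ hσ).symm
      rw [h3]
      exact Ideal.smul_mem_pointwise_smul σ b _ h2
  have hint2 : ∀ σ ∈ P.inertia (K ≃ₐ[k] K), ∀ b : B, w.intValuation (σ • b) = w.intValuation b := by
    intro σ hσ b
    refine le_antisymm (hint1 σ hσ b) ?_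
    have h1 := hint1 σ⁻¹ (inv_mem hσ) (σ • b)
    rwa [inv_smul_smul] at h1
  have hWσB : ∀ σ ∈ P.inertia (K ≃ₐ[k] K), ∀ b : B, W (σ (b : K)) = W (b : K) := by
    intro σ hσ b
    have h1 : w.valuation K (algebraMap B K (σ • b)) = w.valuation K (algebraMap B K b) := by
      rw [w.valuation_of_algebraMap, w.valuation_of_algebraMap, hint2 σ hσ b]
    exact h1
  have hI1 : ∀ σ ∈ P.inertia (K ≃ₐ[k] K), ∀ x, W (σ x) = W x := by
    intro σ hσ x
    obtain ⟨a, b, hb, rfl⟩ := IsFractionRing.div_surjective (A := B) x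
    rw [map_div₀, map_div₀, map_div₀]
    have h1 := hWσB σ hσ a
    have h2 := hWσB σ hσ b
    have h3 : algebraMap B K a = (a : K) := rfl
    have h4 : algebraMap B K b = (b : K) := rfl
    rw [h3, h4, h1, h2]
  have hI2 : ∀ σ ∈ P.inertia (K ≃ₐ[k] K), ∀ x, W x ≤ 1 → W (σ x - x) < 1 := by
    intro σ hσ x hx
    obtain ⟨a, ⟨d, hd⟩, hxd⟩ := w.exists_primeCompl_mul_eq_of_integer x hx
    have hd1 : W (d : K) = 1 := by
      refine le_antisymm (hWB d) ?_
      rw [← not_lt, hWP]
      exact hd
    have hσd1 : W (σ (d : K)) = 1 := by rw [hI1 σ hσ]; exact hd1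
    have hxd' : x * (d : K) = (a : K) := hxd
    have h1 : (σ x - x) * (σ (d : K) * (d : K)) =
        ((((σ • a - a) * d - a * (σ • d - d) : B)) : K) := by
      have h2 : σ x * σ (d : K) = σ (a : K) := by rw [← map_mul, hxd']
      have h3 : ((((σ • a - a) * d - a * (σ • d - d) : B)) : K) =
        (σ (a : K) - (a : K)) * (d : K) - (a : K) * (σ (d : K) - (d : K)) := rfl
      rw [h3]
      linear_combination (d : K) * h2 - σ (d : K) * hxd'
    have h4 : W ((((σ • a - a) * d - a * (σ • d - d) : B)) : K) < 1 := by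
      rw [hWP]
      refine sub_mem (Ideal.mul_mem_right _ _ (hσ a)) (Ideal.mul_mem_left _ _ (hσ d))
    rw [← h1, map_mul, map_mul, hσd1, hd1, mul_one, mul_one] at h4
    exact h4
  have hσev : ∀ (σ : K ≃ₐ[k] K) (p : R[X]) (x : K), (p.map (algebraMap R K)).eval (σ x) =
      σ ((p.map (algebraMap R K)).eval x) := by
    intro σ p x
    have h1 : (σ : K →+* K).comp (algebraMap R K) = algebraMap R K := by
      ext r
      change σ (algebraMap R K r) = algebraMap R K r
      rw [IsScalarTower.algebraMap_apply R k K]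
      exact σ.commutes _
    have h3 := Polynomial.hom_eval₂ p (algebraMap R K) (σ : K →+* K) x
    rw [h1] at h3
    rw [eval_map, eval_map]
    exact h3.symm
  -- the numerical conditions
  have hgm' : W (((g.map ι).natDegree : ℕ) : K) = 1 := by
    rw [hg.natDegree_map]
    refine le_antisymm (by simpa using hWR (g.natDegree : R)) ?_
    rw [← not_lt]
    intro h1
    apply hgm
    have h2 : q (ι (g.natDegree : R)) = 0 := by
      rw [hq]
      have h3 : ((ι (g.natDegree : R) : W.integer) : K) = (g.natDegree : K) := by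
        have h4 : ((ι (g.natDegree : R) : W.integer) : K) = algebraMap R K (g.natDegree : R) := rfl
        rw [h4, map_natCast]
      rw [h3]
      exact h1
    have h5 : ψ (IsLocalRing.residue R (g.natDegree : R)) = 0 := h2
    rw [map_eq_zero, map_natCast] at h5
    exact h5
  have hcoefn : (D.map (IsLocalRing.residue R)).coeff n ≠ 0 := by
    rw [coeff_map, Ne, IsLocalRing.residue_eq_zero_iff]
    exact hlc3
  have hdegn : (D.map (IsLocalRing.residue R)).natDegree = n := by
    apply natDegree_eq_of_le_of_coeff_ne_zero _ hcoefn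
    rw [natDegree_le_iff_coeff_eq_zero]
    intro N hN
    rcases Nat.lt_or_ge (n + 1) N with h1 | h1
    · rw [coeff_map, coeff_eq_zero_of_natDegree_lt (by omega), map_zero]
    · have h2 : N = n + 1 := by omega
      rw [h2, coeff_map, IsLocalRing.residue_eq_zero_iff, ← hn]
      exact hlc1
  have hAcard : A.card = n + 1 := by
    have h1 := congrArg natDegree hDA
    rw [natDegree_map_eq_of_injective hinjK, hn, natDegree_C_mul
      ((map_ne_zero_iff _ hinjK).mpr hlc0), natDegree_prod_of_monic _ _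
      fun α _ => monic_X_sub_C _] at h1
    simpa using h1.symm
  have hfin : Finite (P.inertia (K ≃ₐ[k] K)) := inferInstance
  obtain ⟨α₀, hα₀, h⟩ := exists_cycle_aux8 (q := q) (k := k) hq (P.inertia (K ≃ₐ[k] K)) hI1 hI2 he0
    he (g := g.map ι) (D := D.map ι) (hg.map _) hgm' (S := S) (A := A) ha
    (by rw [hιmap]; exact hDA) hAcard
    (by rw [hψmap, natDegree_map]; exact hdegn)
    (by
      rw [coeff_map]
      have h2 : q (ι (D.coeff n)) = ψ (IsLocalRing.residue R (D.coeff n)) := rfl
      rw [h2, Ne, map_eq_zero, IsLocalRing.residue_eq_zero_iff]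
      exact hlc3)
    (by rw [hιmap]; exact hgS)
    (by
      rw [← Polynomial.map_comp, hψmap, Polynomial.map_comp]
      exact hsep.map)
    (fun σ _ x => by rw [hιmap]; exact hσev σ g x)
    (fun σ _ x => by rw [hιmap]; exact hσev σ D x)
    (fun σ _ hσ => hgen σ hσ)
    (by rw [hιmap]; exact hSA)
  rw [hιmap] at h
  refine ⟨α₀, hα₀, fun x hx y hy hxα hyα => ?_⟩
  obtain ⟨σ, -, h1, h2⟩ := h x hx y hy hxα hyα
  exact ⟨σ, h1, h2⟩

end Main

end Pool.Agent.Lib.MP_89bcae_ag

end

section

/-!
# The valuation attached to a simple collision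
-/

open Polynomial IsDedekindDomain WithZero

open scoped Classical Pointwise

namespace Pool.Agent.Lib.MP_89bcae_ag

set_option linter.style.haveILetI false
set_option linter.unusedSectionVars false

section Red

/-- Reduction of a product of linear factors. -/
lemma map_prod_red7 {B K : Type*} [CommRing B] [Field K] [Algebra B K]
    (hinj : Function.Injective (algebraMap B K)) {p : B[X]} {c : B}
    {T : Finset K} {β : K → B} (hβ : ∀ b ∈ T, algebraMap B K (β b) = b)
    (h : p.map (algebraMap B K) = C (algebraMap B K c) * ∏ b ∈ T, (X - C b)) :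
    p = C c * ∏ b ∈ T, (X - C (β b)) := by
  apply Polynomial.map_injective _ hinj
  rw [h, Polynomial.map_mul, map_C, Polynomial.map_prod]
  congr 1
  refine Finset.prod_congr rfl fun b hb => ?_
  rw [Polynomial.map_sub, map_X, map_C, hβ b hb]

lemma map_prod_red7' {B ι κ : Type*} [CommRing B] [Field κ] (q : B →+* κ) {c : B} {T : Finset ι}
    {β : ι → B} :
    (C c * ∏ b ∈ T, (X - C (β b))).map q = C (q c) * ∏ b ∈ T, (X - C (q (β b))) := by
  rw [Polynomial.map_mul, map_C, Polynomial.map_prod]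
  congr 1
  refine Finset.prod_congr rfl fun b hb => ?_
  rw [Polynomial.map_sub, map_X, map_C]

variable {κ ι : Type*} [Field κ]

/-- The multiplicity of a root of a product of linear factors. -/
lemma rootMultiplicity_prod7 {c : κ} (hc : c ≠ 0) (T : Finset ι) (r : ι → κ) (γ : κ) :
    (C c * ∏ b ∈ T, (X - C (r b))).rootMultiplicity γ = (T.filter fun b => r b = γ).card := by
  have h1 : (∏ b ∈ T, (X - C (r b))) ≠ 0 :=
    Finset.prod_ne_zero_iff.mpr fun b _ => X_sub_C_ne_zero _
  rw [rootMultiplicity_mul (mul_ne_zero (C_ne_zero.mpr hc) h1), rootMultiplicity_C, zero_add]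
  clear h1
  induction T using Finset.induction_on with
  | empty => simp
  | insert b T hb ih =>
    rw [Finset.prod_insert hb, rootMultiplicity_mul, ih, rootMultiplicity_X_sub_C,
      Finset.filter_insert]
    · split_ifs with h1 h2 h2
      · rw [Finset.card_insert_of_notMem (fun h => hb (Finset.mem_of_mem_filter _ h)), add_comm]
      · exact absurd h1.symm h2
      · exact absurd h2.symm h1
      · rw [zero_add]
    · exact mul_ne_zero (X_sub_C_ne_zero _)
        (Finset.prod_ne_zero_iff.mpr fun b _ => X_sub_C_ne_zero _)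

/-- The reductions of the roots of `D` at a simple collision. -/
lemma res_roots7 {u a : κ} (hu : u ≠ 0) {A : Finset ι} {r : ι → κ} {h₁ : κ[X]}
    (hsep : h₁.Separable) (ha : h₁.eval a = 0)
    (h : C u * ∏ α ∈ A, (X - C (r α)) = (X - C a) * h₁) :
    (∀ α ∈ A, ∀ α' ∈ A, α ≠ α' → r α = r α' → r α = a) ∧
    (A.filter fun α => r α = a).card = 2 ∧ ∀ α ∈ A, h₁.eval (r α) = 0 := by
  have h10 : h₁ ≠ 0 := hsep.ne_zero
  have key : ∀ γ, (A.filter fun α => r α = γ).card =
      (if γ = a then 1 else 0) + h₁.rootMultiplicity γ := by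
    intro γ
    rw [← rootMultiplicity_prod7 hu A r γ, h,
      rootMultiplicity_mul (mul_ne_zero (X_sub_C_ne_zero _) h10), rootMultiplicity_X_sub_C]
  have hle : ∀ γ, h₁.rootMultiplicity γ ≤ 1 := fun γ =>
    rootMultiplicity_le_one_of_separable hsep γ
  have hpos : 0 < h₁.rootMultiplicity a := (rootMultiplicity_pos h10).mpr ha
  refine ⟨fun α hα α' hα' hne hr => ?_, ?_, fun α hα => ?_⟩
  · by_contra hna
    have h1 := key (r α)
    rw [if_neg hna, zero_add] at h1
    have h2 : 1 < (A.filter fun β => r β = r α).card := by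
      rw [Finset.one_lt_card]
      exact ⟨α, Finset.mem_filter.mpr ⟨hα, rfl⟩, α', Finset.mem_filter.mpr ⟨hα', hr.symm⟩, hne⟩
    have h3 := hle (r α)
    omega
  · have h1 := key a
    rw [if_pos rfl] at h1
    have h3 := hle a
    omega
  · by_cases h1 : r α = a
    · rw [h1]; exact ha
    · have h2 := congrArg (eval (r α)) h
      rw [eval_mul, eval_mul, eval_prod, Finset.prod_eq_zero hα (by simp), mul_zero, eval_sub,
        eval_X, eval_C, eq_comm, mul_eq_zero, sub_eq_zero] at h2
      exact h2.resolve_left h1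

/-- The reductions of the roots of `g - α` at a simple collision. -/
lemma res_fibre7 {g h₁ : κ[X]} {γ : κ} (hsep : (h₁.comp g).Separable) (hγ : h₁.eval γ = 0)
    {T : Finset ι} {r : ι → κ} (h : g - C γ = ∏ b ∈ T, (X - C (r b))) :
    ∀ b ∈ T, ∀ c ∈ T, b ≠ c → r b ≠ r c := by
  intro b hb c hc hbc hr
  have h1 : (g - C γ) ∣ h₁.comp g := by
    obtain ⟨w, hw⟩ := dvd_iff_isRoot.mpr hγ
    refine ⟨w.comp g, ?_⟩
    rw [hw, mul_comp, sub_comp, X_comp, C_comp]
  have h2 : (g - C γ).Separable := hsep.of_dvd h1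
  have h3 : (X - C (r b)) * (X - C (r b)) ∣ g - C γ := by
    rw [h, ← Finset.mul_prod_erase T _ hb]
    apply mul_dvd_mul_left
    have h4 : c ∈ T.erase b := Finset.mem_erase.mpr ⟨hbc.symm, hc⟩
    rw [hr]
    exact Finset.dvd_prod_of_mem (fun i => X - C (r i)) h4
  have h4 := h2.squarefree _ h3
  exact not_isUnit_X_sub_C _ h4

end Red

end Pool.Agent.Lib.MP_89bcae_ag

end

section

/-!
# The valuation attached to a simple collision
-/

open Polynomial IsDedekindDomain WithZero

open scoped Classical Pointwise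

namespace Pool.Agent.Lib.MP_89bcae_ag

set_option linter.style.haveILetI false
set_option linter.unusedSectionVars false

/-- A root of a polynomial with invertible leading coefficient is integral. -/
lemma integral_root7 {R F : Type*} [CommRing R] [IsDomain R] [Field F] [Algebra R F] {f : R[X]}
    (hu : IsUnit f.leadingCoeff) {x : F} (hx : aeval x f = 0) : IsIntegral R x := by
  obtain ⟨u, hu⟩ := hu
  refine ⟨C (↑u⁻¹ : R) * f, ?_, ?_⟩
  · rw [Monic, leadingCoeff_mul, leadingCoeff_C, ← hu]
    exact u.inv_mul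
  · rw [eval₂_mul]
    change _ * aeval x f = 0
    rw [hx, mul_zero]

lemma deriv_eval7 {K : Type*} [Field K] (α₁ α₂ : K) (p : K[X]) (x : K) :
    (derivative ((X - C α₁) * (X - C α₂) * p)).eval x =
      ((x - α₁) + (x - α₂)) * p.eval x + (x - α₁) * (x - α₂) * (derivative p).eval x := by
  simp only [derivative_mul, derivative_sub, derivative_X, derivative_C, eval_add, eval_mul,
    eval_sub, eval_X, eval_C, eval_one, eval_zero]
  ring

/-- The valuation attached to a simple collision. -/
theorem exists_val7 {R k K : Type*} [CommRing R] [IsDomain R] [IsDiscreteValuationRing R] [Field k]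
    [Algebra R k] [IsFractionRing R k] [Field K] [Algebra k K] [Algebra R K] [IsScalarTower R k K]
    [FiniteDimensional k K] [IsGalois k K] (h2 : IsUnit (2 : R)) {g D : R[X]}
    (hgdeg : g.natDegree ≠ 0) (hg : g.Monic) (hlc : IsUnit D.leadingCoeff) (S A : Finset K)
    (hDA : D.map (algebraMap R K) =
      C (algebraMap R K D.leadingCoeff) * ∏ α ∈ A, (X - C α))
    (hgS : ∀ α ∈ A, g.map (algebraMap R K) - C α =
      ∏ b ∈ S.filter (fun b => (g.map (algebraMap R K)).eval b = α), (X - C b))
    (hSA : ∀ b ∈ S, (g.map (algebraMap R K)).eval b ∈ A)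
    (hgen : ∀ σ : K ≃ₐ[k] K, (∀ b ∈ S, σ b = b) → σ = 1) (hcol : IsCollision7 g D) :
    ∃ w : Valuation K ℤᵐ⁰, w (algebraMap R K D.leadingCoeff) = 1 ∧ (∀ b ∈ S, w b ≤ 1) ∧
      (∀ b ∈ S, ∀ c ∈ S, b ≠ c → (g.map (algebraMap R K)).eval b =
        (g.map (algebraMap R K)).eval c → w (b - c) = 1) ∧
      ∃ α₁ ∈ A, ∃ α₂ ∈ A, α₁ ≠ α₂ ∧ w (α₁ - α₂) = exp (-1 : ℤ) ∧
        ∀ α ∈ A, ∀ α' ∈ A, α ≠ α' → ¬ (α = α₁ ∧ α' = α₂) → ¬ (α = α₂ ∧ α' = α₁) →
          w (α - α') = 1 := by
  obtain ⟨a, h, hDred, hsepc, hDa⟩ := hcol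
  -- the integral closure
  set B := integralClosure R K with hB
  haveI : IsDedekindDomain B := integralClosure.isDedekindDomain R k K
  haveI : Module.Finite R B := IsIntegralClosure.finite R k K B
  haveI : IsFractionRing B K := integralClosure.isFractionRing_of_finite_extension k K
  haveI : SMulCommClass (K ≃ₐ[k] K) R K := ⟨fun σ r x => by
    rw [AlgEquiv.smul_def, AlgEquiv.smul_def, Algebra.smul_def, Algebra.smul_def, map_mul,
      IsScalarTower.algebraMap_apply R k K, AlgEquiv.commutes]⟩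
  haveI : IsGaloisGroup (K ≃ₐ[k] K) R B := IsGaloisGroup.of_isFractionRing _ _ _ k K
  have hinjK : Function.Injective (algebraMap R K) := by
    rw [IsScalarTower.algebraMap_eq R k K]
    exact (algebraMap k K).injective.comp (IsFractionRing.injective R k)
  have hinjB : Function.Injective (algebraMap B K) := Subtype.val_injective
  haveI : FaithfulSMul R B := by
    rw [faithfulSMul_iff_algebraMap_injective]
    intro x y hxy
    exact hinjK (congrArg (algebraMap B K) hxy)
  haveI : Module.IsTorsionFree R B := inferInstance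
  haveI : Module.Flat R B := inferInstance
  let v : HeightOneSpectrum R := IsDiscreteValuationRing.maximalIdeal R
  have hvmax : v.asIdeal.IsMaximal := v.isMaximal
  obtain ⟨P, hPmax, hPv⟩ := Ideal.exists_maximal_ideal_liesOver_of_isIntegral (S := B) v.asIdeal
  have hP0 : P ≠ ⊥ := Ideal.ne_bot_of_liesOver_of_ne_bot v.ne_bot P
  let w : HeightOneSpectrum B := ⟨P, hPmax.isPrime, hP0⟩
  have hwv : w.asIdeal.LiesOver v.asIdeal := hPv
  -- the ramification index
  have he : v.asIdeal.ramificationIdx' w.asIdeal ≤ Nat.card (P.inertia (K ≃ₐ[k] K)) := by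
    rw [Ideal.ramificationIdx'_eq_ramificationIdx v.asIdeal w.asIdeal v.ne_bot]
    exact ramificationIdx_le_card_inertia7 v.asIdeal P
  -- the residue field
  letI : Field (B ⧸ P) := Ideal.Quotient.field P
  set q : B →+* B ⧸ P := Ideal.Quotient.mk P with hq
  have hq0 : ∀ x : B, q x = 0 ↔ x ∈ P := fun x => Ideal.Quotient.eq_zero_iff_mem
  have hmP : ∀ r : R, r ∈ IsLocalRing.maximalIdeal R → q (algebraMap R B r) = 0 := by
    intro r hr
    rw [hq0]
    have h1 : r ∈ Ideal.comap (algebraMap R B) P := by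
      rw [← Ideal.under_def, ← hPv.over]
      exact hr
    exact h1
  let ψ : IsLocalRing.ResidueField R →+* B ⧸ P :=
    Ideal.Quotient.lift (IsLocalRing.maximalIdeal R) (q.comp (algebraMap R B)) hmP
  have hψ : ∀ r : R, ψ (IsLocalRing.residue R r) = q (algebraMap R B r) := fun r => rfl
  have hψc : ψ.comp (IsLocalRing.residue R) = q.comp (algebraMap R B) := RingHom.ext hψ
  have hu2 : q (2 : B) ≠ 0 := by
    have h1 := (h2.map (algebraMap R B)).map q
    rw [map_ofNat] at h1
    exact h1.ne_zero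
  have hulc : q (algebraMap R B D.leadingCoeff) ≠ 0 := ((hlc.map (algebraMap R B)).map q).ne_zero
  -- integrality of the roots
  have hAroot : ∀ α ∈ A, aeval α D = 0 := by
    intro α hα
    rw [← eval_map_algebraMap, hDA, eval_mul, eval_prod, Finset.prod_eq_zero hα (by simp), mul_zero]
  have hAint : ∀ α ∈ A, IsIntegral R α := fun α hα => integral_root7 hlc (hAroot α hα)
  have hSint : ∀ b ∈ S, IsIntegral R b := by
    intro b hb
    have h1 := hAroot _ (hSA b hb)
    refine integral_root7 (f := D.comp g) ?_ (x := b) ?_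
    · rw [leadingCoeff_comp hgdeg, hg.leadingCoeff, one_pow, mul_one]
      exact hlc
    · rw [aeval_comp, ← eval_map_algebraMap g b]
      exact h1
  have hval : ∀ x : K, IsIntegral R x → w.valuation K x ≤ 1 := fun x hx =>
    w.valuation_le_one (⟨x, hx⟩ : B)
  have hval1 : ∀ (x : K) (hx : IsIntegral R x), w.valuation K x < 1 ↔ q ⟨x, hx⟩ = 0 := fun x hx => by
    rw [hq0]
    exact w.valuation_lt_one_iff_mem (⟨x, hx⟩ : B)
  have hval2 : ∀ (x : K) (hx : IsIntegral R x), w.valuation K x = 1 ↔ q ⟨x, hx⟩ ≠ 0 := fun x hx => by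
    rw [Ne, ← hval1 x hx, not_lt]
    exact ⟨fun h => h.ge, fun h => le_antisymm (hval x hx) h⟩
  -- the reductions of the roots
  let β : K → B := fun x => if hx : IsIntegral R x then ⟨x, hx⟩ else 0
  have hβ : ∀ x, IsIntegral R x → algebraMap B K (β x) = x := by
    intro x hx
    have h1 : β x = ⟨x, hx⟩ := dif_pos hx
    rw [h1]
    rfl
  have hβv1 : ∀ x, IsIntegral R x → (w.valuation K x < 1 ↔ q (β x) = 0) := by
    intro x hx
    have h1 : β x = ⟨x, hx⟩ := dif_pos hx
    rw [h1]
    exact hval1 x hx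
  have hβv2 : ∀ x, IsIntegral R x → (w.valuation K x = 1 ↔ q (β x) ≠ 0) := by
    intro x hx
    have h1 : β x = ⟨x, hx⟩ := dif_pos hx
    rw [h1]
    exact hval2 x hx
  have hβsub : ∀ x y, IsIntegral R x → IsIntegral R y → β (x - y) = β x - β y := by
    intro x y hx hy
    apply hinjB
    rw [map_sub, hβ _ (hx.sub hy), hβ x hx, hβ y hy]
  have hDB : D.map (algebraMap R B) = C (algebraMap R B D.leadingCoeff) *
      ∏ α ∈ A, (X - C (β α)) := by
    apply map_prod_red7 hinjB (fun α hα => hβ α (hAint α hα))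
    rw [Polynomial.map_map]
    exact hDA
  have hgB : ∀ α ∈ A, g.map (algebraMap R B) - C (β α) =
      ∏ b ∈ S.filter (fun b => (g.map (algebraMap R K)).eval b = α), (X - C (β b)) := by
    intro α hα
    have h1 := map_prod_red7 (p := g.map (algebraMap R B) - C (β α)) (c := 1)
      (T := S.filter (fun b => (g.map (algebraMap R K)).eval b = α)) hinjB
      (fun b hb => hβ b (hSint b (Finset.mem_filter.mp hb).1)) (by
        rw [Polynomial.map_sub, Polynomial.map_map, map_C, hβ α (hAint α hα), map_one, C_1, one_mul]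
        exact hgS α hα)
    rw [C_1, one_mul] at h1
    exact h1
  -- the reductions
  set ā := ψ (IsLocalRing.residue R a) with hā
  set h₁ : (B ⧸ P)[X] := ((X - C (IsLocalRing.residue R a)) * h).map ψ with hh₁
  set gκ : (B ⧸ P)[X] := (g.map (IsLocalRing.residue R)).map ψ with hgκ
  have hgκ' : gκ = (g.map (algebraMap R B)).map q := by
    rw [hgκ, Polynomial.map_map, Polynomial.map_map, hψc]
  have hsep2 : (h₁.comp gκ).Separable := by
    have h1 := hsepc.map (f := ψ)
    rw [Polynomial.map_comp] at h1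
    exact h1
  have hgκdeg : gκ.natDegree ≠ 0 := by
    rw [hgκ, natDegree_map, hg.natDegree_map]
    exact hgdeg
  have hsep1 : h₁.Separable := separable_left7 hgκdeg hsep2
  have hh₁a : h₁.eval ā = 0 := by
    rw [hh₁, Polynomial.map_mul, Polynomial.map_sub, map_X, map_C, eval_mul, eval_sub, eval_X,
      eval_C, sub_self, zero_mul]
  have hDκ : C (q (algebraMap R B D.leadingCoeff)) * ∏ α ∈ A, (X - C (q (β α))) =
      (X - C ā) * h₁ := by
    have h1 := congrArg (Polynomial.map q) hDB
    rw [map_prod_red7', Polynomial.map_map, ← hψc, ← Polynomial.map_map, hDred] at h1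
    rw [← h1, hh₁, Polynomial.map_mul, Polynomial.map_mul, Polynomial.map_pow, Polynomial.map_sub,
      map_X, map_C]
    ring
  obtain ⟨hA1, hA2, hA3⟩ := res_roots7 hulc hsep1 hh₁a hDκ
  have hfib : ∀ b ∈ S, ∀ c ∈ S, b ≠ c → (g.map (algebraMap R K)).eval b =
        (g.map (algebraMap R K)).eval c → q (β b) ≠ q (β c) := by
    intro b hb c hc hbc hgbc
    have h1 := congrArg (Polynomial.map q) (hgB _ (hSA b hb))
    rw [Polynomial.map_sub, map_C, ← hgκ', Polynomial.map_prod] at h1
    simp only [Polynomial.map_sub, map_X, map_C] at h1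
    exact res_fibre7 hsep2 (hA3 _ (hSA b hb)) h1 b (Finset.mem_filter.mpr ⟨hb, rfl⟩) c
      (Finset.mem_filter.mpr ⟨hc, hgbc.symm⟩) hbc
  obtain ⟨α₁, α₂, h12, hfil⟩ := Finset.card_eq_two.mp hA2
  have hm1 : α₁ ∈ A ∧ q (β α₁) = ā := by
    have h3 : α₁ ∈ A.filter fun α => q (β α) = ā := by rw [hfil]; simp
    exact Finset.mem_filter.mp h3
  have hm2 : α₂ ∈ A ∧ q (β α₂) = ā := by
    have h3 : α₂ ∈ A.filter fun α => q (β α) = ā := by rw [hfil]; simp
    exact Finset.mem_filter.mp h3
  have hmem12 : ∀ α ∈ A, q (β α) = ā → α = α₁ ∨ α = α₂ := by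
    intro α hα h1
    have h3 : α ∈ A.filter fun α => q (β α) = ā := Finset.mem_filter.mpr ⟨hα, h1⟩
    rw [hfil] at h3
    simpa using h3
  -- the inertia group
  have hAmem : ∀ α : K, (D.map (algebraMap R K)).eval α = 0 → α ∈ A := by
    intro α hα
    rw [hDA, eval_mul, eval_C, eval_prod, mul_eq_zero] at hα
    rcases hα with hα | hα
    · exact absurd (hinjK (hα.trans (map_zero _).symm)) hlc.ne_zero
    · obtain ⟨α', h1, h3⟩ := Finset.prod_eq_zero_iff.mp hα
      rw [eval_sub, eval_X, eval_C, sub_eq_zero] at h3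
      rw [h3]
      exact h1
  have hSmem : ∀ b : K, (g.map (algebraMap R K)).eval b ∈ A → b ∈ S := by
    intro b hb
    have h1 := congrArg (eval b) (hgS _ hb)
    rw [eval_sub, eval_C, sub_self, eval_prod, eq_comm] at h1
    obtain ⟨b', h3, h4⟩ := Finset.prod_eq_zero_iff.mp h1
    rw [eval_sub, eval_X, eval_C, sub_eq_zero] at h4
    rw [h4]
    exact (Finset.mem_filter.mp h3).1
  have hσev : ∀ (σ : K ≃ₐ[k] K) (p : R[X]) (x : K), (p.map (algebraMap R K)).eval (σ x) =
      σ ((p.map (algebraMap R K)).eval x) := by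
    intro σ p x
    have h1 : (σ : K →+* K).comp (algebraMap R K) = algebraMap R K := by
      ext r
      change σ (algebraMap R K r) = algebraMap R K r
      rw [IsScalarTower.algebraMap_apply R k K]
      exact σ.commutes _
    have h3 := Polynomial.hom_eval₂ p (algebraMap R K) (σ : K →+* K) x
    rw [h1] at h3
    rw [eval_map, eval_map]
    exact h3.symm
  have hσA : ∀ (σ : K ≃ₐ[k] K), ∀ α ∈ A, σ α ∈ A := by
    intro σ α hα
    apply hAmem
    rw [hσev, hDA, eval_mul, eval_prod, Finset.prod_eq_zero hα (by simp), mul_zero, map_zero]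
  have hσS : ∀ (σ : K ≃ₐ[k] K), ∀ b ∈ S, σ b ∈ S := by
    intro σ b hb
    apply hSmem
    rw [hσev]
    exact hσA σ _ (hSA b hb)
  have hσint : ∀ (σ : K ≃ₐ[k] K) (x : K), IsIntegral R x → IsIntegral R (σ x) := by
    intro σ x hx
    exact hx.map (σ.restrictScalars R)
  have hine : ∀ σ ∈ P.inertia (K ≃ₐ[k] K), ∀ x : K, IsIntegral R x → q (β (σ x)) = q (β x) := by
    intro σ hσ x hx
    have h1 : σ • (β x) - β x ∈ P := hσ (β x)
    have h3 : σ • (β x) = β (σ x) := by
      apply hinjB
      rw [hβ _ (hσint σ x hx)]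
      change σ ((β x : B) : K) = σ x
      congr 1
      exact hβ x hx
    rw [h3, ← hq0, map_sub, sub_eq_zero] at h1
    exact h1
  have hine1 : ∀ σ ∈ P.inertia (K ≃ₐ[k] K), σ α₁ = α₁ → σ = 1 := by
    intro σ hσ h1
    apply hgen
    intro b hb
    by_contra hne
    have h3 := hine σ hσ b (hSint b hb)
    by_cases h4 : (g.map (algebraMap R K)).eval (σ b) = (g.map (algebraMap R K)).eval b
    · exact hfib _ (hσS σ b hb) b hb hne h4 h3
    · rw [hσev] at h4
      have hα := hSA b hb
      have h5 := hine σ hσ _ (hAint _ hα)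
      have h6 := hA1 _ (hσA σ _ hα) _ hα h4 h5
      have h7 := hmem12 _ (hσA σ _ hα) h6
      have h8 := hmem12 _ hα (h5 ▸ h6)
      rcases h8 with h8 | h8
      · rw [h8] at h4
        exact h4 h1
      · rw [h8] at h4 h7
        rcases h7 with h7 | h7
        · exact h12 (σ.injective (h1.trans h7.symm))
        · exact h4 h7
  have hcard : Nat.card (P.inertia (K ≃ₐ[k] K)) ≤ 2 := by
    have h1 : Function.Injective (fun σ : P.inertia (K ≃ₐ[k] K) =>
        (⟨(σ : K ≃ₐ[k] K) α₁, by
          have h3 := hine σ σ.2 α₁ (hAint _ hm1.1)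
          have h4 := hmem12 _ (hσA σ _ hm1.1) (h3.trans hm1.2)
          simpa using h4⟩ : ({α₁, α₂} : Finset K))) := by
      intro σ τ hστ
      have h3 : (σ : K ≃ₐ[k] K) α₁ = (τ : K ≃ₐ[k] K) α₁ := congrArg Subtype.val hστ
      have h4 : (τ⁻¹ * σ : P.inertia (K ≃ₐ[k] K)) = 1 := by
        apply Subtype.ext
        apply hine1 _ (τ⁻¹ * σ).2
        change (τ : K ≃ₐ[k] K).symm ((σ : K ≃ₐ[k] K) α₁) = α₁
        rw [h3, AlgEquiv.symm_apply_apply]
      exact (inv_mul_eq_one.mp h4).symm
    have h3 := Nat.card_le_card_of_injective _ h1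
    rw [Nat.card_eq_fintype_card (α := ({α₁, α₂} : Finset K)), Fintype.card_coe] at h3
    exact h3.trans Finset.card_le_two
  set e := v.asIdeal.ramificationIdx' w.asIdeal with hedef
  have he2 : e ≤ 2 := he.trans hcard
  -- the valuations of `D(a)` and `D'(a)`
  have hWk : ∀ r : R, w.valuation K (algebraMap R K r) = v.intValuation r ^ e := by
    intro r
    have h1 := HeightOneSpectrum.valuation_liesOver K v w (algebraMap R k r)
    rw [← IsScalarTower.algebraMap_apply] at h1
    rw [← h1]
    congr 1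
    exact HeightOneSpectrum.valuation_of_algebraMap (K := k) v r
  have hDa1 : D.eval a ∈ IsLocalRing.maximalIdeal R := by
    rw [← IsLocalRing.residue_eq_zero_iff, ← eval₂_at_apply, ← eval_map, hDred]
    simp
  have hDa2 : (derivative D).eval a ∈ IsLocalRing.maximalIdeal R := by
    rw [← IsLocalRing.residue_eq_zero_iff, ← eval₂_at_apply, ← eval_map, ← derivative_map, hDred,
      derivative_mul, derivative_X_sub_C_sq]
    simp
  have hvm : ∀ (r : R) (n : ℕ), v.intValuation r ≤ exp (-(n : ℤ)) ↔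
      r ∈ IsLocalRing.maximalIdeal R ^ n := fun r n => v.intValuation_le_pow_iff_mem r n
  have hD0 : D.eval a ≠ 0 := by
    intro h0
    rw [h0] at hDa
    exact hDa (Ideal.zero_mem _)
  have hvD : v.intValuation (D.eval a) = exp (-1 : ℤ) := by
    have h1 := (hvm (D.eval a) 1).mpr (by rw [pow_one]; exact hDa1)
    have h3 : ¬ v.intValuation (D.eval a) ≤ exp (-((2 : ℕ) : ℤ)) := fun h4 =>
      hDa ((hvm (D.eval a) 2).mp h4)
    have h5 : v.intValuation (D.eval a) ≠ 0 := v.intValuation_ne_zero _ hD0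
    have h6 := exp_log h5
    rw [← h6] at h1 h3 ⊢
    rw [exp_le_exp] at h1 h3
    rw [exp_inj]
    push_cast at h1 h3
    omega
  have hvD' : v.intValuation ((derivative D).eval a) ≤ exp (-1 : ℤ) := by
    have h1 := (hvm ((derivative D).eval a) 1).mpr (by rw [pow_one]; exact hDa2)
    simpa using h1
  -- the factorisation of `D`
  set W := w.valuation K with hW
  have haint : IsIntegral R (algebraMap R K a) := isIntegral_algebraMap
  have hβa : β (algebraMap R K a) = algebraMap R B a := by
    apply hinjB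
    rw [hβ _ haint]
    rfl
  set A' := (A.erase α₁).erase α₂ with hA'
  have hA'A : ∀ α ∈ A', α ∈ A ∧ α ≠ α₁ ∧ α ≠ α₂ := by
    intro α hα
    rw [hA', Finset.mem_erase, Finset.mem_erase] at hα
    exact ⟨hα.2.2, hα.2.1, hα.1⟩
  have hsplit : ∀ f : K → K[X], ∏ α ∈ A, f α = f α₁ * (f α₂ * ∏ α ∈ A', f α) := by
    intro f
    rw [hA', Finset.mul_prod_erase (A.erase α₁) f (Finset.mem_erase.mpr ⟨h12.symm, hm2.1⟩),
      Finset.mul_prod_erase A f hm1.1]
  set D₁ : K[X] := C (algebraMap R K D.leadingCoeff) * ∏ α ∈ A', (X - C α) with hD₁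
  have hDD₁ : D.map (algebraMap R K) = (X - C α₁) * (X - C α₂) * D₁ := by
    rw [hDA, hsplit, hD₁]
    ring
  have hWint : ∀ x : K, IsIntegral R x → W x ≤ 1 := hval
  have hWlc : W (algebraMap R K D.leadingCoeff) = 1 := by
    have h1 := hWint _ (isIntegral_algebraMap (x := D.leadingCoeff) (R := R) (A := K))
    obtain ⟨u, hu⟩ := hlc
    have h3 := hWint _ (isIntegral_algebraMap (x := (↑u⁻¹ : R)) (R := R) (A := K))
    rw [← hu] at h1 ⊢
    have h4 : W (algebraMap R K u) * W (algebraMap R K ↑u⁻¹) = 1 := by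
      rw [← map_mul, ← map_mul, Units.mul_inv, map_one, map_one]
    refine le_antisymm h1 ?_
    rw [← h4]
    exact mul_le_of_le_one_right' h3
  have hWD₁ : W (D₁.eval (algebraMap R K a)) = 1 := by
    rw [hD₁, eval_mul, eval_C, map_mul, hWlc, one_mul, eval_prod, map_prod]
    refine Finset.prod_eq_one fun α hα => ?_
    obtain ⟨h1, h3, h4⟩ := hA'A α hα
    rw [eval_sub, eval_X, eval_C, hβv2 _ (haint.sub (hAint α h1)), hβsub _ _ haint (hAint α h1),
      map_sub, hβa, ← hψ, ← hā, sub_ne_zero]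
    intro h5
    rcases hmem12 α h1 h5.symm with h6 | h6
    · exact h3 h6
    · exact h4 h6
  have hWD₁' : W ((derivative D₁).eval (algebraMap R K a)) ≤ 1 := by
    have h1 : D₁ = (C (algebraMap R B D.leadingCoeff) * ∏ α ∈ A', (X - C (β α))).map
        (algebraMap B K) := by
      rw [hD₁, Polynomial.map_mul, map_C, Polynomial.map_prod]
      congr 1
      refine Finset.prod_congr rfl fun α hα => ?_
      rw [Polynomial.map_sub, map_X, map_C, hβ α (hAint α (hA'A α hα).1)]
    have h3 : algebraMap R K a = algebraMap B K (algebraMap R B a) := rfl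
    rw [h1, derivative_map, h3, eval_map, eval₂_at_apply]
    exact w.valuation_le_one _
  set y₁ := algebraMap R K a - α₁ with hy₁
  set y₂ := algebraMap R K a - α₂ with hy₂
  have hWy₁ : W y₁ < 1 := by
    rw [hy₁, hβv1 _ (haint.sub (hAint α₁ hm1.1)), hβsub _ _ haint (hAint α₁ hm1.1), map_sub, hβa,
      ← hψ, hm1.2, hā, sub_self]
  have hWy₂ : W y₂ < 1 := by
    rw [hy₂, hβv1 _ (haint.sub (hAint α₂ hm2.1)), hβsub _ _ haint (hAint α₂ hm2.1), map_sub, hβa,
      ← hψ, hm2.2, hā, sub_self]
  have hprod : W y₁ * W y₂ = exp (-(e : ℤ)) := by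
    have h1 : algebraMap R K (D.eval a) = y₁ * y₂ * D₁.eval (algebraMap R K a) := by
      rw [← eval₂_at_apply, ← eval_map, hDD₁, eval_mul, eval_mul, eval_sub, eval_sub, eval_X,
        eval_C, eval_C]
    have h3 := congrArg W h1
    rw [hWk, hvD, map_mul, map_mul, hWD₁, mul_one] at h3
    rw [← h3, ← exp_nsmul]
    simp
  have hy₁0 : W y₁ ≠ 0 := by
    intro h0
    rw [h0, zero_mul] at hprod
    exact exp_ne_zero hprod.symm
  have hy₂0 : W y₂ ≠ 0 := by
    intro h0
    rw [h0, mul_zero] at hprod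
    exact exp_ne_zero hprod.symm
  have hl : (W y₁ = exp (-1 : ℤ)) ∧ e = 2 := by
    have h1 := exp_log hy₁0
    have h3 := exp_log hy₂0
    rw [← h1] at hWy₁ hprod ⊢
    rw [← h3] at hWy₂ hprod
    rw [← exp_add, exp_inj] at hprod
    rw [← exp_zero, exp_lt_exp] at hWy₁ hWy₂
    rw [exp_inj]
    omega
  have hsum : W (y₁ + y₂) ≤ exp (-2 : ℤ) := by
    have h1 : algebraMap R K ((derivative D).eval a) = (y₁ + y₂) * D₁.eval (algebraMap R K a) +
        y₁ * y₂ * (derivative D₁).eval (algebraMap R K a) := by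
      rw [← eval₂_at_apply, ← eval_map, ← derivative_map, hDD₁]
      exact deriv_eval7 α₁ α₂ D₁ _
    have h3 : (y₁ + y₂) * D₁.eval (algebraMap R K a) =
        algebraMap R K ((derivative D).eval a) -
          y₁ * y₂ * (derivative D₁).eval (algebraMap R K a) := by
      rw [h1]; ring
    have h4 := congrArg W h3
    rw [map_mul, hWD₁, mul_one] at h4
    rw [h4]
    refine (W.map_sub _ _).trans (max_le ?_ ?_)
    · rw [hWk, hl.2]
      calc v.intValuation ((derivative D).eval a) ^ 2 ≤ exp (-1 : ℤ) ^ 2 :=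
            pow_le_pow_left' hvD' 2
        _ = exp (-2 : ℤ) := by rw [← exp_nsmul]; rfl
    · rw [map_mul, map_mul, hprod, hl.2]
      exact (mul_le_of_le_one_right' hWD₁').trans le_rfl
  have hdiff : W (α₁ - α₂) = exp (-1 : ℤ) := by
    have h1 : α₁ - α₂ = (y₁ + y₂) - 2 * y₁ := by rw [hy₁, hy₂]; ring
    have hW2 : W (2 : K) = 1 := by
      have h3 := hβv2 (2 : K) (by
        have := isIntegral_algebraMap (x := (2 : R)) (R := R) (A := K)
        rwa [map_ofNat] at this)
      rw [h3]
      have h4 : β 2 = 2 := by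
        apply hinjB
        rw [hβ, map_ofNat]
        have := isIntegral_algebraMap (x := (2 : R)) (R := R) (A := K)
        rwa [map_ofNat] at this
      rw [h4]
      exact hu2
    have h3 : W (2 * y₁) = exp (-1 : ℤ) := by rw [map_mul, hW2, one_mul, hl.1]
    have h4 : W (y₁ + y₂) < W (2 * y₁) := by
      rw [h3]
      refine lt_of_le_of_lt hsum ?_
      rw [exp_lt_exp]
      norm_num
    rw [h1, Valuation.map_sub_eq_of_lt_right _ h4, h3]
  refine ⟨W, hWlc, fun b hb => hWint b (hSint b hb), ?_, α₁, hm1.1, α₂, hm2.1, h12, hdiff, ?_⟩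
  · intro b hb c hc hbc hgbc
    rw [hβv2 _ ((hSint b hb).sub (hSint c hc)), hβsub _ _ (hSint b hb) (hSint c hc), map_sub,
      sub_ne_zero]
    exact hfib b hb c hc hbc hgbc
  · intro α hα α' hα' hne h1 h3
    rw [hβv2 _ ((hAint α hα).sub (hAint α' hα')), hβsub _ _ (hAint α hα) (hAint α' hα'), map_sub,
      sub_ne_zero]
    intro h4
    have h5 := hA1 α hα α' hα' hne h4
    have h6 := hmem12 α hα h5
    have h7 := hmem12 α' hα' (h4 ▸ h5)
    rcases h6 with h6 | h6
    · rcases h7 with h7 | h7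
      · exact hne (h6.trans h7.symm)
      · exact h1 ⟨h6, h7⟩
    · rcases h7 with h7 | h7
      · exact h3 ⟨h6, h7⟩
      · exact hne (h6.trans h7.symm)

end Pool.Agent.Lib.MP_89bcae_ag

end

section

/-!
# The matching attached to a simple collision
-/

open Polynomial WithZero

open scoped Classical

namespace Pool.Agent.Lib.MP_89bcae_ag

set_option linter.style.haveILetI false
set_option linter.unusedSectionVars false

/-- A separable polynomial over an algebraically closed field. -/
lemma eq_prod_roots7 {F : Type*} [Field F] [IsAlgClosed F] {p : F[X]} (hp : p.Separable) :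
    p = C p.leadingCoeff * ∏ b ∈ p.roots.toFinset, (X - C b) := by
  have h1 := (IsAlgClosed.splits p).eq_prod_roots
  have h2 : p.roots.Nodup := nodup_roots hp
  conv_lhs => rw [h1]
  congr 1
  rw [Finset.prod_eq_multiset_prod, Multiset.toFinset_val, Multiset.dedup_eq_self.mpr h2]

/-- The splitting field of a separable polynomial. -/
lemma galois7 {k F : Type*} [Field k] [Field F] [Algebra k F] [IsAlgClosed F] {f : k[X]}
    (hsep : f.Separable) :
    FiniteDimensional k (IntermediateField.adjoin k (f.rootSet F)) ∧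
      IsGalois k (IntermediateField.adjoin k (f.rootSet F)) := by
  have h1 : IsSplittingField k (IntermediateField.adjoin k (f.rootSet F)) f :=
    IntermediateField.adjoin_rootSet_isSplittingField (IsAlgClosed.splits _)
  exact ⟨IsSplittingField.finiteDimensional _ f, IsGalois.of_separable_splitting_field (p := f) hsep⟩

lemma prod_subtype7 {F M : Type*} [CommMonoid M] (p : F → Prop) (S : Finset F)
    (hS : ∀ b ∈ S, p b) (P : Subtype p → Prop) (Q : F → Prop) (hPQ : ∀ b : Subtype p, P b ↔ Q b)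
    (f : F → M) : ∏ b ∈ (S.subtype p).filter P, f b = ∏ b ∈ S.filter Q, f b := by
  have h1 : S.filter Q = ((S.subtype p).filter P).map (Function.Embedding.subtype p) := by
    ext b
    rw [Finset.mem_filter, Finset.mem_map]
    constructor
    · rintro ⟨hb, hQ⟩
      exact ⟨⟨b, hS b hb⟩, Finset.mem_filter.mpr ⟨Finset.mem_subtype.mpr hb, (hPQ _).mpr hQ⟩, rfl⟩
    · rintro ⟨c, hc, rfl⟩
      rw [Finset.mem_filter, Finset.mem_subtype] at hc
      exact ⟨hc.1, (hPQ _).mp hc.2⟩
  rw [h1, Finset.prod_map]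
  rfl

section Ord

variable {R k F : Type*} [CommRing R] [IsDomain R] [IsDiscreteValuationRing R] [Field k]
  [Algebra R k] [IsFractionRing R k] [Field F] [Algebra k F] [Algebra R F] [IsScalarTower R k F]

/-- The orders of the differences of the roots at a simple collision. -/
theorem exists_ord7 (h2 : IsUnit (2 : R)) {g D : R[X]}
    (hgdeg : g.natDegree ≠ 0) (hg : g.Monic) (hlc : IsUnit D.leadingCoeff) (S A : Finset F)
    (hDA : D.map (algebraMap R F) =
      C (algebraMap R F D.leadingCoeff) * ∏ α ∈ A, (X - C α))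
    (hgS : ∀ α ∈ A, g.map (algebraMap R F) - C α =
      ∏ b ∈ S.filter (fun b => (g.map (algebraMap R F)).eval b = α), (X - C b))
    (hSA : ∀ b ∈ S, (g.map (algebraMap R F)).eval b ∈ A)
    (hAS : ∀ α ∈ A, ∃ b ∈ S, (g.map (algebraMap R F)).eval b = α)
    (K : IntermediateField k F) (hK : K = IntermediateField.adjoin k (S : Set F))
    [FiniteDimensional k K] [IsGalois k K] (hcol : IsCollision7 g D) :
    ∃ w : Valuation K ℤᵐ⁰, ordF7 w (algebraMap R F D.leadingCoeff) = 0 ∧
      (∀ b ∈ S, ∀ c ∈ S, ordF7 w (b - c) ≤ 0) ∧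
      (∀ b ∈ S, ∀ c ∈ S, b ≠ c → (g.map (algebraMap R F)).eval b =
        (g.map (algebraMap R F)).eval c → ordF7 w (b - c) = 0) ∧
      ∃ α₁ ∈ A, ∃ α₂ ∈ A, α₁ ≠ α₂ ∧ ordF7 w (α₁ - α₂) = -1 ∧
        ∀ α ∈ A, ∀ α' ∈ A, α ≠ α' → ¬ (α = α₁ ∧ α' = α₂) → ¬ (α = α₂ ∧ α' = α₁) →
          ordF7 w (α - α') = 0 := by
  have hSK : ∀ b ∈ S, b ∈ K := by
    intro b hb
    rw [hK]
    exact IntermediateField.subset_adjoin _ _ hb
  have hRK : ∀ r : R, algebraMap R F r ∈ K := by
    intro r
    rw [IsScalarTower.algebraMap_apply R k F]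
    exact K.algebraMap_mem _
  have hgK : ∀ b ∈ K, (g.map (algebraMap R F)).eval b ∈ K := by
    intro b hb
    rw [eval_map, eval₂_eq_sum_range]
    exact K.sum_mem fun i _ => K.mul_mem (hRK _) (pow_mem hb i)
  have hAK : ∀ α ∈ A, α ∈ K := by
    intro α hα
    obtain ⟨b, hb, rfl⟩ := hAS α hα
    exact hgK b (hSK b hb)
  have hcomp : (algebraMap K F).comp (algebraMap R K) = algebraMap R F := RingHom.ext fun r => rfl
  have hinj : Function.Injective (Polynomial.map (algebraMap K F)) :=
    Polynomial.map_injective _ (algebraMap K F).injective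
  have hev : ∀ b : K, (((g.map (algebraMap R K)).eval b : K) : F) =
      (g.map (algebraMap R F)).eval (b : F) := by
    intro b
    rw [← hcomp, ← Polynomial.map_map, eval_map (algebraMap K F)]
    exact (eval₂_at_apply (algebraMap K F) b).symm
  obtain ⟨w, hw1, hw2, hw3, α₁, hα₁, α₂, hα₂, h12, hw4, hw5⟩ := exists_val7 (R := R) (k := k)
    (K := K) h2 hgdeg hg hlc (S.subtype (· ∈ K)) (A.subtype (· ∈ K)) (by
      apply hinj
      rw [Polynomial.map_map, hcomp, hDA, Polynomial.map_mul, map_C, Polynomial.map_prod]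
      congr 1
      have h1 := prod_subtype7 (· ∈ K) A hAK (fun _ => True) (fun _ => True) (fun _ => Iff.rfl)
        (fun b => (X - C b : F[X]))
      rw [Finset.filter_true, Finset.filter_true] at h1
      rw [← h1]
      refine Finset.prod_congr rfl fun b _ => ?_
      rw [Polynomial.map_sub, map_X, map_C]
      rfl) (by
      intro α hα
      apply hinj
      rw [Polynomial.map_sub, Polynomial.map_map, hcomp, map_C, Polynomial.map_prod]
      rw [Finset.mem_subtype] at hα
      have h1 := prod_subtype7 (· ∈ K) S hSK (fun b => (g.map (algebraMap R K)).eval b = α)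
        (fun b => (g.map (algebraMap R F)).eval b = (α : F))
        (fun b => by rw [← hev, Subtype.coe_inj]) (fun b => (X - C b : F[X]))
      refine (hgS α hα).trans (h1.symm.trans ?_)
      refine Finset.prod_congr rfl fun b _ => ?_
      rw [Polynomial.map_sub, map_X, map_C]
      rfl) (by
      intro b hb
      rw [Finset.mem_subtype] at hb ⊢
      rw [hev]
      exact hSA b hb) (by
      intro σ hσ
      subst hK
      ext x
      have h1 : (σ : _ ≃ₐ[k] _).toAlgHom = AlgHom.id k _ := by
        apply IntermediateField.algHom_ext_of_eq_adjoin _ rfl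
        intro y hy
        exact hσ ⟨y, IntermediateField.subset_adjoin _ _ hy⟩ (Finset.mem_subtype.mpr hy)
      exact congrArg Subtype.val (congrArg (fun f => f x) h1)) hcol
  rw [Finset.mem_subtype] at hα₁ hα₂
  refine ⟨w, ?_, fun b hb c hc => ?_, fun b hb c hc hbc hgbc => ?_, α₁, hα₁, α₂, hα₂,
    fun h => h12 (Subtype.ext h), ?_, fun α hα α' hα' hne h1 h3 => ?_⟩
  · rw [ordF7_of_mem w (hRK _)]
    have h1 : (⟨algebraMap R F D.leadingCoeff, hRK _⟩ : K) = algebraMap R K D.leadingCoeff := rfl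
    rw [h1, hw1, log_one]
  · have hbK := hSK b hb
    have hcK := hSK c hc
    rw [ordF7_of_mem w (K.sub_mem hbK hcK)]
    have h1 : (⟨b - c, K.sub_mem hbK hcK⟩ : K) = ⟨b, hbK⟩ - ⟨c, hcK⟩ := rfl
    rw [h1]
    have h3 : w (⟨b, hbK⟩ - ⟨c, hcK⟩) ≤ 1 := (w.map_sub _ _).trans
      (max_le (hw2 _ (Finset.mem_subtype.mpr hb)) (hw2 _ (Finset.mem_subtype.mpr hc)))
    by_cases h0 : w (⟨b, hbK⟩ - ⟨c, hcK⟩) = 0
    · rw [h0, log_zero]
    · rw [log_le_iff_le_exp h0, exp_zero]
      exact h3
  · have hbK := hSK b hb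
    have hcK := hSK c hc
    rw [ordF7_of_mem w (K.sub_mem hbK hcK)]
    have h1 : (⟨b - c, K.sub_mem hbK hcK⟩ : K) = ⟨b, hbK⟩ - ⟨c, hcK⟩ := rfl
    rw [h1, hw3 ⟨b, hbK⟩ (Finset.mem_subtype.mpr hb) ⟨c, hcK⟩ (Finset.mem_subtype.mpr hc)
      (fun h => hbc (congrArg Subtype.val h)) (Subtype.ext (by rw [hev, hev]; exact hgbc)), log_one]
  · rw [ordF7_of_mem w (K.sub_mem α₁.2 α₂.2)]
    have h1 : (⟨(α₁ : F) - α₂, K.sub_mem α₁.2 α₂.2⟩ : K) = α₁ - α₂ := rfl
    rw [h1, hw4, log_exp]
  · have hbK := hAK α hα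
    have hcK := hAK α' hα'
    rw [ordF7_of_mem w (K.sub_mem hbK hcK)]
    have h4 : (⟨α - α', K.sub_mem hbK hcK⟩ : K) = ⟨α, hbK⟩ - ⟨α', hcK⟩ := rfl
    rw [h4, hw5 ⟨α, hbK⟩ (Finset.mem_subtype.mpr hα) ⟨α', hcK⟩ (Finset.mem_subtype.mpr hα')
      (fun h => hne (congrArg Subtype.val h))
      (fun h => h1 ⟨congrArg Subtype.val h.1, congrArg Subtype.val h.2⟩)
      (fun h => h3 ⟨congrArg Subtype.val h.1, congrArg Subtype.val h.2⟩), log_one]

end Ord

end Pool.Agent.Lib.MP_89bcae_ag

end

section

/-!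
# Integral polynomials with one large root
-/

open Polynomial IsDedekindDomain WithZero

open scoped Classical Pointwise

namespace Pool.Agent.Lib.MP_89bcae_ag

set_option linter.style.haveILetI false
set_option linter.unusedSectionVars false

section Gauss

variable {K : Type*} [Field K] (W : Valuation K ℤᵐ⁰)

/-- The product of the large roots and the leading coefficient. -/
theorem gauss_roots7 {D : K[X]} {c : K} {A : Finset K} (hD : D = C c * ∏ α ∈ A, (X - C α))
    (hint : ∀ i, W (D.coeff i) ≤ 1) {n : ℕ} (hn : W (D.coeff n) = 1) :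
    W (c * ∏ α ∈ A.filter (fun α => 1 < W α), α) = 1 := by
  let O := W.valuationSubring
  have hO : ∀ x : K, x ∈ O ↔ W x ≤ 1 := fun x => Iff.rfl
  have hinv : ∀ α, 1 < W α → α⁻¹ ∈ O := by
    intro α hα
    rw [hO, map_inv₀]
    exact inv_le_one_of_one_le₀ hα.le
  let Eα : K → O[X] := fun α => if hα : 1 < W α then C ⟨α⁻¹, hinv α hα⟩ * X - 1 else
    X - C ⟨α, not_lt.mp hα⟩
  set E : O[X] := ∏ α ∈ A, Eα α with hE
  have hEα : ∀ α, C (if 1 < W α then α else 1) * (Eα α).map (algebraMap O K) = X - C α := by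
    intro α
    by_cases hα : 1 < W α
    · have h1 : Eα α = C ⟨α⁻¹, hinv α hα⟩ * X - 1 := dif_pos hα
      have hα0 : α ≠ 0 := by
        rintro rfl
        rw [map_zero] at hα
        exact absurd hα (not_lt.mpr zero_le_one)
      rw [h1, if_pos hα, Polynomial.map_sub, Polynomial.map_mul, map_C, map_X, Polynomial.map_one,
        mul_sub, ← mul_assoc, ← C_mul]
      have h2 : α * algebraMap O K ⟨α⁻¹, hinv α hα⟩ = 1 := mul_inv_cancel₀ hα0
      rw [h2, C_1, one_mul, mul_one]
    · have h1 : Eα α = X - C ⟨α, not_lt.mp hα⟩ := dif_neg hα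
      rw [h1, if_neg hα, C_1, one_mul, Polynomial.map_sub, map_X, map_C]
      rfl
  have hDE : D = C (c * ∏ α ∈ A.filter (fun α => 1 < W α), α) * E.map (algebraMap O K) := by
    rw [hD, C_mul, mul_assoc, hE, Polynomial.map_prod, map_prod, Finset.prod_filter]
    congr 1
    rw [← Finset.prod_mul_distrib]
    refine Finset.prod_congr rfl fun α _ => ?_
    rw [← hEα α]
    split_ifs <;> simp
  have hres : E.map (IsLocalRing.residue O) ≠ 0 := by
    rw [hE, Polynomial.map_prod, Finset.prod_ne_zero_iff]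
    intro α _
    by_cases hα : 1 < W α
    · have h1 : Eα α = C ⟨α⁻¹, hinv α hα⟩ * X - 1 := dif_pos hα
      rw [h1]
      intro h2
      have h3 := congrArg (fun p => p.coeff 0) h2
      simp at h3
    · have h1 : Eα α = X - C ⟨α, not_lt.mp hα⟩ := dif_neg hα
      rw [h1, Polynomial.map_sub, map_X, map_C]
      exact X_sub_C_ne_zero _
  obtain ⟨i, hi⟩ : ∃ i, (E.map (IsLocalRing.residue O)).coeff i ≠ 0 := by
    by_contra hcon
    push Not at hcon
    exact hres (Polynomial.ext fun i => by rw [hcon i, coeff_zero])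
  have hunit : IsUnit (E.coeff i) := by
    rw [coeff_map] at hi
    exact (IsLocalRing.residue_ne_zero_iff_isUnit _).mp hi
  have hEi : W (algebraMap O K (E.coeff i)) = 1 := by
    obtain ⟨u, hu⟩ := hunit
    have h1 : W (algebraMap O K (u : O)) ≤ 1 := (u : O).2
    have h2 : W (algebraMap O K (↑u⁻¹ : O)) ≤ 1 := (↑u⁻¹ : O).2
    have h3 : W (algebraMap O K (u : O)) * W (algebraMap O K (↑u⁻¹ : O)) = 1 := by
      rw [← map_mul, ← map_mul, Units.mul_inv, map_one, map_one]
    rw [← hu]
    refine le_antisymm h1 ?_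
    rw [← h3]
    exact mul_le_of_le_one_right' h2
  have h1 := hint i
  rw [hDE, coeff_C_mul, coeff_map, map_mul, hEi, mul_one] at h1
  have h2 := hn
  rw [hDE, coeff_C_mul, coeff_map, map_mul] at h2
  exact le_antisymm h1 (h2.symm.le.trans (mul_le_of_le_one_right' ((hO _).mp (E.coeff n).2)))

variable {R : Type*} [CommRing R] [Algebra R K]

/-- The value of an integral polynomial at an integral element is integral. -/
lemma eval_le_one7 (hWR : ∀ r : R, W (algebraMap R K r) ≤ 1) (p : R[X]) {x : K} (hx : W x ≤ 1) :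
    W ((p.map (algebraMap R K)).eval x) ≤ 1 := by
  rw [eval_map, eval₂_eq_sum_range]
  apply W.map_sum_le
  intro i _
  rw [map_mul, map_pow]
  exact mul_le_one' (hWR _) (pow_le_one' hx i)

/-- The value of a monic integral polynomial at a large element. -/
lemma eval_large7 (hWR : ∀ r : R, W (algebraMap R K r) ≤ 1) {p : R[X]} (hp : p.Monic) {x : K}
    (hx : 1 < W x) : W ((p.map (algebraMap R K)).eval x) = W x ^ p.natDegree := by
  have hlead : W ((algebraMap R K (p.coeff p.natDegree)) * x ^ p.natDegree) =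
      W x ^ p.natDegree := by
    rw [coeff_natDegree, hp.leadingCoeff, map_one, one_mul, map_pow]
  rw [eval_map, eval₂_eq_sum_range, Finset.sum_range_succ]
  rw [Valuation.map_add_eq_of_lt_right, hlead]
  rw [hlead]
  have hx0 : W x ≠ 0 := (zero_lt_one.trans hx).ne'
  apply W.map_sum_lt (pow_ne_zero _ hx0)
  intro i hi
  rw [Finset.mem_range] at hi
  rw [map_mul, map_pow]
  calc W (algebraMap R K (p.coeff i)) * W x ^ i ≤ W x ^ i := mul_le_of_le_one_left' (hWR _)
    _ < W x ^ p.natDegree := pow_lt_pow_right₀ hx hi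

end Gauss

end Pool.Agent.Lib.MP_89bcae_ag

end

section

/-!
# The inertia group at a place where one root of `D` is large
-/

open Polynomial IsDedekindDomain WithZero

open scoped Classical Pointwise

namespace Pool.Agent.Lib.MP_89bcae_ag

set_option linter.style.haveILetI false
set_option linter.unusedSectionVars false

/-- Two integral roots with the same reduction of a polynomial with separable reduction. -/
lemma root_unique7 {R K : Type*} [CommRing R] [IsLocalRing R] [Field K] [Algebra R K]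
    (W : Valuation K ℤᵐ⁰) (hWR : ∀ r : R, W (algebraMap R K r) ≤ 1)
    (hWm : ∀ r ∈ IsLocalRing.maximalIdeal R, W (algebraMap R K r) < 1) {f : R[X]}
    (hs : (f.map (IsLocalRing.residue R)).Separable) {b b' : K} (hb : W b ≤ 1) (hb' : W b' ≤ 1)
    (hf : (f.map (algebraMap R K)).eval b = 0) (hf' : (f.map (algebraMap R K)).eval b' = 0)
    (h : W (b' - b) < 1) : b' = b := by
  by_contra hne
  let O := W.valuationSubring
  let φ : R →+* O := (algebraMap R K).codRestrict O hWR
  have hinjO : Function.Injective (algebraMap O K) := Subtype.val_injective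
  have hφ : (algebraMap O K).comp φ = algebraMap R K := RingHom.ext fun r => rfl
  have hres : ∀ x : O, IsLocalRing.residue O x = 0 ↔ W (x : K) < 1 := by
    intro x
    rw [IsLocalRing.residue_eq_zero_iff, IsLocalRing.mem_maximalIdeal, mem_nonunits_iff]
    constructor
    · intro hx
      refine lt_of_le_of_ne x.2 fun h1 => hx ?_
      have hx0 : (x : K) ≠ 0 := by
        rintro h2
        rw [h2, map_zero] at h1
        exact zero_ne_one h1
      have hxi : (x : K)⁻¹ ∈ O := by
        change W (x : K)⁻¹ ≤ 1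
        rw [map_inv₀, h1, inv_one]
      exact IsUnit.of_mul_eq_one (⟨(x : K)⁻¹, hxi⟩ : O) (Subtype.ext (mul_inv_cancel₀ hx0))
    · rintro hx ⟨u, rfl⟩
      have h1 : W ((u : O) : K) * W ((↑u⁻¹ : O) : K) = 1 := by
        rw [← map_mul, ← Subring.coe_mul, Units.mul_inv]
        exact map_one W
      have h2 : W ((u : O) : K) * W ((↑u⁻¹ : O) : K) < 1 :=
        lt_of_le_of_lt (mul_le_of_le_one_right' (↑u⁻¹ : O).2) hx
      exact absurd h1 h2.ne
  have hψ0 : ∀ r ∈ IsLocalRing.maximalIdeal R, (IsLocalRing.residue O).comp φ r = 0 := by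
    intro r hr
    rw [RingHom.comp_apply, hres]
    exact hWm r hr
  let ψ : IsLocalRing.ResidueField R →+* IsLocalRing.ResidueField O :=
    Ideal.Quotient.lift (IsLocalRing.maximalIdeal R) ((IsLocalRing.residue O).comp φ) hψ0
  have hψ : ψ.comp (IsLocalRing.residue R) = (IsLocalRing.residue O).comp φ := RingHom.ext fun r => rfl
  have hev : ∀ (z : K) (hz : z ∈ O), (f.map (algebraMap R K)).eval z = 0 →
      (f.map φ).eval (⟨z, hz⟩ : O) = 0 := by
    intro z hz h0
    apply hinjO
    rw [map_zero, ← eval₂_at_apply, ← eval_map, Polynomial.map_map, hφ]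
    exact h0
  obtain ⟨q, hq⟩ := dvd_iff_isRoot.mpr (hev b hb hf)
  have h1 := hev b' hb' hf'
  rw [hq, eval_mul, eval_sub, eval_X, eval_C] at h1
  have h2 : (⟨b', hb'⟩ : O) - ⟨b, hb⟩ ≠ 0 := by
    intro h0
    exact hne (congrArg Subtype.val (sub_eq_zero.mp h0))
  have h3 : q.IsRoot ⟨b', hb'⟩ := (mul_eq_zero.mp h1).resolve_left h2
  obtain ⟨q', hq'⟩ := dvd_iff_isRoot.mpr h3
  have hbb : IsLocalRing.residue O ⟨b', hb'⟩ = IsLocalRing.residue O ⟨b, hb⟩ := by
    rw [← sub_eq_zero, ← map_sub, hres]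
    exact h
  have h4 : (f.map (IsLocalRing.residue R)).map ψ =
      (X - C (IsLocalRing.residue O ⟨b, hb⟩)) *
        ((X - C (IsLocalRing.residue O ⟨b, hb⟩)) * q'.map (IsLocalRing.residue O)) := by
    have h5 := congrArg (Polynomial.map (IsLocalRing.residue O)) hq
    rw [hq', Polynomial.map_map, Polynomial.map_mul, Polynomial.map_mul, Polynomial.map_sub,
      Polynomial.map_sub, map_X, map_C, map_C, hbb] at h5
    rw [Polynomial.map_map, hψ, h5]
  have h5 := (separable_map ψ).mpr hs
  rw [h4] at h5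
  have h6 : (X - C (IsLocalRing.residue O ⟨b, hb⟩)) * (X - C (IsLocalRing.residue O ⟨b, hb⟩)) ∣
      (X - C (IsLocalRing.residue O ⟨b, hb⟩)) *
        ((X - C (IsLocalRing.residue O ⟨b, hb⟩)) * q'.map (IsLocalRing.residue O)) := by
    rw [← mul_assoc]
    exact Dvd.intro _ rfl
  exact not_isUnit_X_sub_C _ (h5.squarefree _ h6)

/-- The inertia group at a place where one root of `D` is large. -/
theorem exists_inertia7 {R k K : Type*} [CommRing R] [IsDomain R] [IsDiscreteValuationRing R]
    [Finite (IsLocalRing.ResidueField R)] [Field k]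
    [Algebra R k] [IsFractionRing R k] [Field K] [Algebra k K] [Algebra R K] [IsScalarTower R k K]
    [FiniteDimensional k K] [IsGalois k K] {g D : R[X]}
    (hgdeg : g.natDegree ≠ 0) (hg : g.Monic) {n : ℕ} (hn : D.natDegree = n + 1)
    (h1 : D.coeff (n + 1) ∈ IsLocalRing.maximalIdeal R)
    (h2 : D.coeff (n + 1) ∉ IsLocalRing.maximalIdeal R ^ 2)
    (h3 : D.coeff n ∉ IsLocalRing.maximalIdeal R)
    (hsepκ : ((D.map (IsLocalRing.residue R)).comp (g.map (IsLocalRing.residue R))).Separable)
    (S A : Finset K)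
    (hDA : D.map (algebraMap R K) =
      C (algebraMap R K D.leadingCoeff) * ∏ α ∈ A, (X - C α))
    (hgS : ∀ α ∈ A, g.map (algebraMap R K) - C α =
      ∏ b ∈ S.filter (fun b => (g.map (algebraMap R K)).eval b = α), (X - C b))
    (hSA : ∀ b ∈ S, (g.map (algebraMap R K)).eval b ∈ A) :
    ∃ α ∈ A, ∀ x ∈ S, ∀ y ∈ S, (g.map (algebraMap R K)).eval x = α →
      (g.map (algebraMap R K)).eval y = α → ∃ σ : K ≃ₐ[k] K, σ x = y ∧
        ∀ b ∈ S, (g.map (algebraMap R K)).eval b ≠ α → σ b = b := by
  obtain ⟨W, e, I, he0, hWk, hI, heI, hfix⟩ := exists_place7 R k K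
  set v : HeightOneSpectrum R := IsDiscreteValuationRing.maximalIdeal R with hv
  have hinjK : Function.Injective (algebraMap R K) := by
    rw [IsScalarTower.algebraMap_eq R k K]
    exact (algebraMap k K).injective.comp (IsFractionRing.injective R k)
  have hWR : ∀ r : R, W (algebraMap R K r) ≤ 1 := fun r => by
    rw [hWk]
    exact pow_le_one' (v.intValuation_le_one r) e
  have hWm : ∀ r ∈ IsLocalRing.maximalIdeal R, W (algebraMap R K r) < 1 := fun r hr => by
    rw [hWk]
    exact pow_lt_one₀ bot_le ((v.intValuation_lt_one_iff_mem r).mpr hr) he0.ne'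
  -- the coefficients of `D`
  have hvm : ∀ (r : R) (n : ℕ), v.intValuation r ≤ exp (-(n : ℤ)) ↔
      r ∈ IsLocalRing.maximalIdeal R ^ n := fun r n => v.intValuation_le_pow_iff_mem r n
  have hlc0 : D.coeff (n + 1) ≠ 0 := by
    intro h0
    rw [h0] at h2
    exact h2 (Ideal.zero_mem _)
  have hvlc : v.intValuation (D.coeff (n + 1)) = exp (-1 : ℤ) := by
    have h4 := (hvm (D.coeff (n + 1)) 1).mpr (by rw [pow_one]; exact h1)
    have h5 : ¬ v.intValuation (D.coeff (n + 1)) ≤ exp (-((2 : ℕ) : ℤ)) := fun h4 =>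
      h2 ((hvm (D.coeff (n + 1)) 2).mp h4)
    have h6 : v.intValuation (D.coeff (n + 1)) ≠ 0 := v.intValuation_ne_zero _ hlc0
    have h7 := exp_log h6
    rw [← h7] at h4 h5 ⊢
    rw [exp_le_exp] at h4 h5
    rw [exp_inj]
    push_cast at h4 h5
    omega
  have hWlc : W (algebraMap R K D.leadingCoeff) = exp (-(e : ℤ)) := by
    rw [leadingCoeff, hn, hWk, hvlc, ← exp_nsmul]
    simp
  have hWn : W (algebraMap R K (D.coeff n)) = 1 := by
    rw [hWk]
    have h4 : v.intValuation (D.coeff n) = 1 := by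
      refine le_antisymm (v.intValuation_le_one _) (not_lt.mp fun h5 => h3 ?_)
      exact (v.intValuation_lt_one_iff_mem _).mp h5
    rw [h4, one_pow]
  -- the large roots
  have hroot : ∀ α ∈ A, (D.map (algebraMap R K)).eval α = 0 := by
    intro α hα
    rw [hDA, eval_mul, eval_prod, Finset.prod_eq_zero hα (by simp), mul_zero]
  have hlarge : ∀ α ∈ A, 1 < W α → W α = exp (e : ℤ) := by
    intro α hα hα1
    have hα0 : W α ≠ 0 := (zero_lt_one.trans hα1).ne'
    have h4 := hroot α hα
    rw [eval_map, eval₂_eq_sum_range, hn, Finset.sum_range_succ, Finset.sum_range_succ] at h4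
    have h5 : W (algebraMap R K (D.coeff n) * α ^ n) = W α ^ n := by
      rw [map_mul, hWn, one_mul, map_pow]
    have h6 : W (∑ i ∈ Finset.range n, algebraMap R K (D.coeff i) * α ^ i) < W α ^ n := by
      apply W.map_sum_lt (pow_ne_zero _ hα0)
      intro i hi
      rw [Finset.mem_range] at hi
      rw [map_mul, map_pow]
      calc W (algebraMap R K (D.coeff i)) * W α ^ i ≤ W α ^ i := mul_le_of_le_one_left' (hWR _)
        _ < W α ^ n := pow_lt_pow_right₀ hα1 hi
    have h7 : W (∑ i ∈ Finset.range n, algebraMap R K (D.coeff i) * α ^ i +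
        algebraMap R K (D.coeff n) * α ^ n) = W α ^ n := by
      rw [Valuation.map_add_eq_of_lt_right _ (by rw [h5]; exact h6), h5]
    have h8 : W (algebraMap R K (D.coeff (n + 1)) * α ^ (n + 1)) = W α ^ n := by
      rw [← h7, ← W.map_neg (_ + _)]
      congr 1
      linear_combination h4
    rw [map_mul, map_pow, pow_succ, ← hn, coeff_natDegree, hWlc] at h8
    have h9 : exp (-(e : ℤ)) * W α = 1 := by
      have h10 : W α ^ n * (exp (-(e : ℤ)) * W α) = W α ^ n * 1 := by
        rw [mul_one]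
        conv_rhs => rw [← h8]
        rw [mul_left_comm]
      exact mul_left_cancel₀ (pow_ne_zero _ hα0) h10
    have h10 := exp_log hα0
    rw [← h10, ← exp_add, ← exp_zero, exp_inj] at h9
    rw [← h10, exp_inj]
    omega
  have hcard : (A.filter fun α => 1 < W α).card = 1 := by
    have h4 := gauss_roots7 W hDA (fun i => by rw [coeff_map]; exact hWR _) (n := n)
      (by rw [coeff_map]; exact hWn)
    rw [map_mul, map_prod, hWlc, Finset.prod_congr rfl (fun α hα =>
      hlarge α (Finset.mem_filter.mp hα).1 (Finset.mem_filter.mp hα).2), Finset.prod_const] at h4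
    have h4' : ∀ N : ℕ, exp (-(e : ℤ)) * exp (e : ℤ) ^ N = 1 → ((N : ℤ) - 1) * e = 0 := by
      intro N hN
      rw [← exp_nsmul, ← exp_add, ← exp_zero, exp_inj, nsmul_eq_mul] at hN
      linear_combination hN
    have h5 := h4' _ h4
    have he' : (e : ℤ) ≠ 0 := by exact_mod_cast he0.ne'
    rcases mul_eq_zero.mp h5 with h6 | h6
    · have h7 : (((A.filter fun α => 1 < W α).card : ℤ)) = 1 := by linear_combination h6
      exact_mod_cast h7
    · exact absurd h6 he'
  obtain ⟨α₀, hα₀⟩ := Finset.card_eq_one.mp hcard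
  have hα₀A : α₀ ∈ A ∧ 1 < W α₀ := by
    have h4 : α₀ ∈ A.filter fun α => 1 < W α := by rw [hα₀]; exact Finset.mem_singleton_self _
    exact Finset.mem_filter.mp h4
  have hsmall : ∀ α ∈ A, α ≠ α₀ → W α ≤ 1 := by
    intro α hα hne
    by_contra hlt
    have h4 : α ∈ A.filter fun α => 1 < W α := Finset.mem_filter.mpr ⟨hα, not_le.mp hlt⟩
    rw [hα₀, Finset.mem_singleton] at h4
    exact hne h4
  set G := g.map (algebraMap R K) with hG
  have hSlarge : ∀ x : K, G.eval x = α₀ → 1 < W x := by
    intro x hx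
    by_contra hlt
    have h4 := eval_le_one7 W hWR g (not_lt.mp hlt)
    rw [← hG, hx] at h4
    exact absurd hα₀A.2 (not_lt.mpr h4)
  have hSpow : ∀ x : K, G.eval x = α₀ → (g.natDegree : ℤ) * log (W x) = e := by
    intro x hx
    have h4 := eval_large7 W hWR hg (hSlarge x hx)
    rw [← hG, hx, hlarge _ hα₀A.1 hα₀A.2] at h4
    have h5 := congrArg log h4
    rw [log_exp, log_pow, nsmul_eq_mul] at h5
    exact h5.symm
  have hSsmall : ∀ b ∈ S, G.eval b ≠ α₀ → W b ≤ 1 := by
    intro b hb hne
    by_contra hlt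
    have h4 := eval_large7 W hWR hg (not_le.mp hlt)
    rw [← hG] at h4
    have h5 := hsmall _ (hSA b hb) hne
    rw [h4] at h5
    exact absurd h5 (not_le.mpr (one_lt_pow₀ (not_le.mp hlt) hgdeg))
  -- the Galois group
  have hσev : ∀ (σ : K ≃ₐ[k] K) (p : R[X]) (x : K), (p.map (algebraMap R K)).eval (σ x) =
      σ ((p.map (algebraMap R K)).eval x) := by
    intro σ p x
    have h1 : (σ : K →+* K).comp (algebraMap R K) = algebraMap R K := by
      ext r
      change σ (algebraMap R K r) = algebraMap R K r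
      rw [IsScalarTower.algebraMap_apply R k K]
      exact σ.commutes _
    have h3 := Polynomial.hom_eval₂ p (algebraMap R K) (σ : K →+* K) x
    rw [h1] at h3
    rw [eval_map, eval_map]
    exact h3.symm
  have hlc0K : algebraMap R K D.leadingCoeff ≠ 0 := by
    intro h0
    rw [h0, map_zero] at hWlc
    exact exp_ne_zero hWlc.symm
  have hAmem : ∀ α : K, (D.map (algebraMap R K)).eval α = 0 → α ∈ A := by
    intro α hα
    rw [hDA, eval_mul, eval_C, eval_prod, mul_eq_zero] at hα
    rcases hα with hα | hα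
    · exact absurd hα hlc0K
    · obtain ⟨α', h1, h3⟩ := Finset.prod_eq_zero_iff.mp hα
      rw [eval_sub, eval_X, eval_C, sub_eq_zero] at h3
      rw [h3]
      exact h1
  have hSmem : ∀ b : K, G.eval b ∈ A → b ∈ S := by
    intro b hb
    have h1 := congrArg (eval b) (hgS _ hb)
    rw [eval_sub, eval_C, sub_self, eval_prod, eq_comm] at h1
    obtain ⟨b', h3, h4⟩ := Finset.prod_eq_zero_iff.mp h1
    rw [eval_sub, eval_X, eval_C, sub_eq_zero] at h4
    rw [h4]
    exact (Finset.mem_filter.mp h3).1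
  have hσA : ∀ (σ : K ≃ₐ[k] K), ∀ α ∈ A, σ α ∈ A := by
    intro σ α hα
    apply hAmem
    rw [hσev, hroot α hα, map_zero]
  have hσS : ∀ (σ : K ≃ₐ[k] K), ∀ b ∈ S, σ b ∈ S := by
    intro σ b hb
    apply hSmem
    rw [hσev]
    exact hσA σ _ (hSA b hb)
  -- the inertia group
  have hIle : ∀ σ ∈ I, ∀ x : K, W x ≤ 1 → W (σ x) ≤ 1 := by
    intro σ hσ x hx
    have h4 : σ x = (σ x - x) + x := by ring
    rw [h4]
    exact (W.map_add _ _).trans (max_le (hI σ hσ x hx).le hx)
  have hIα : ∀ σ ∈ I, σ α₀ = α₀ := by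
    intro σ hσ
    by_contra hne
    have h4 := hsmall _ (hσA σ _ hα₀A.1) hne
    have h5 := hIle σ⁻¹ (I.inv_mem hσ) _ h4
    have h6 : σ⁻¹ (σ α₀) = α₀ := σ.symm_apply_apply α₀
    rw [h6] at h5
    exact absurd hα₀A.2 (not_lt.mpr h5)
  have hIS : ∀ σ ∈ I, ∀ b ∈ S, G.eval b ≠ α₀ → σ b = b := by
    intro σ hσ b hb hne
    have hcomp : (D.comp g).map (algebraMap R K) = (D.map (algebraMap R K)).comp G :=
      Polynomial.map_comp _ _ _
    have hev0 : ∀ b ∈ S, ((D.comp g).map (algebraMap R K)).eval b = 0 := by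
      intro b hb
      rw [hcomp, eval_comp]
      exact hroot _ (hSA b hb)
    have hW := hSsmall b hb hne
    exact root_unique7 W hWR hWm (f := D.comp g) (by rw [Polynomial.map_comp]; exact hsepκ) hW
      (hIle σ hσ b hW) (hev0 b hb) (hev0 _ (hσS σ b hb)) (hI σ hσ b hW)
  -- the orbits
  refine ⟨α₀, hα₀A.1, fun x hx y hy hgx hgy => ?_⟩
  haveI : Finite (K ≃ₐ[k] K) := inferInstance
  haveI : Fintype I := Fintype.ofFinite I
  set T : Finset K := Finset.univ.image fun σ : I => (σ : K ≃ₐ[k] K) x with hT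
  have hTmem : ∀ z, z ∈ T ↔ ∃ σ ∈ I, σ x = z := by
    intro z
    rw [hT, Finset.mem_image]
    constructor
    · rintro ⟨σ, -, h4⟩
      exact ⟨σ, σ.2, h4⟩
    · rintro ⟨σ, hσ, h4⟩
      exact ⟨⟨σ, hσ⟩, Finset.mem_univ _, h4⟩
  have hTg : ∀ z ∈ T, G.eval z = α₀ := by
    intro z hz
    obtain ⟨σ, hσ, rfl⟩ := (hTmem z).mp hz
    rw [hG, hσev, ← hG, hgx, hIα σ hσ]
  have hTne : x ∈ T := (hTmem x).mpr ⟨1, I.one_mem, rfl⟩
  have hm0 : (0 : ℤ) < g.natDegree := by exact_mod_cast Nat.pos_of_ne_zero hgdeg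
  have he0' : (0 : ℤ) < e := by exact_mod_cast he0
  have hz0 : ∀ z ∈ T, z ≠ 0 := by
    rintro z hz rfl
    have h4 := hSlarge 0 (hTg 0 hz)
    rw [map_zero] at h4
    exact absurd h4 (not_lt.mpr zero_le_one)
  have hprod0 : ∏ z ∈ T, z ≠ 0 := Finset.prod_ne_zero_iff.mpr hz0
  have hfixT : ∀ σ ∈ I, σ (∏ z ∈ T, z) = ∏ z ∈ T, z := by
    intro σ hσ
    rw [map_prod]
    apply Finset.prod_bij (fun z _ => σ z)
    · intro z hz
      obtain ⟨τ, hτ, rfl⟩ := (hTmem z).mp hz
      exact (hTmem _).mpr ⟨σ * τ, I.mul_mem hσ hτ, rfl⟩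
    · intro z _ z' _ h4
      exact σ.injective h4
    · intro z hz
      obtain ⟨τ, hτ, rfl⟩ := (hTmem z).mp hz
      refine ⟨(σ⁻¹ * τ) x, (hTmem _).mpr ⟨σ⁻¹ * τ, I.mul_mem (I.inv_mem hσ) hτ, rfl⟩, ?_⟩
      exact σ.apply_symm_apply (τ x)
    · intro z _
      rfl
  have hdvd := hfix _ hprod0 hfixT
  have hlogsum : (g.natDegree : ℤ) * log (W (∏ z ∈ T, z)) = T.card * e := by
    have h4 : log (W (∏ z ∈ T, z)) = ∑ z ∈ T, log (W z) := by
      clear hdvd hfixT hprod0
      have h5 : ∀ T' : Finset K, (∀ z ∈ T', z ≠ 0) →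
          log (W (∏ z ∈ T', z)) = ∑ z ∈ T', log (W z) := by
        intro T'
        induction T' using Finset.induction_on with
        | empty => simp
        | insert z T' hz ih =>
          intro h6
          rw [Finset.prod_insert hz, Finset.sum_insert hz, map_mul, log_mul, ih]
          · exact fun z' hz' => h6 z' (Finset.mem_insert_of_mem hz')
          · exact (Valuation.ne_zero_iff _).mpr (h6 z (Finset.mem_insert_self _ _))
          · exact (Valuation.ne_zero_iff _).mpr (Finset.prod_ne_zero_iff.mpr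
              fun z' hz' => h6 z' (Finset.mem_insert_of_mem hz'))
      exact h5 T hz0
    rw [h4, Finset.mul_sum, Finset.sum_congr rfl (fun z hz => hSpow z (hTg z hz)),
      Finset.sum_const, nsmul_eq_mul]
  have hge : (e : ℤ) ≤ log (W (∏ z ∈ T, z)) := by
    have hpos : 0 < log (W (∏ z ∈ T, z)) := by
      have h4 : (0 : ℤ) < T.card := by exact_mod_cast Finset.card_pos.mpr ⟨x, hTne⟩
      have h5 : 0 < (g.natDegree : ℤ) * log (W (∏ z ∈ T, z)) := by
        rw [hlogsum]
        exact mul_pos h4 he0'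
      exact (mul_pos_iff_of_pos_left hm0).mp h5
    have h4 := Int.le_of_dvd hpos hdvd
    have h5 : (e : ℤ) ≤ Nat.card I := by exact_mod_cast heI
    exact h5.trans h4
  have hTcard : g.natDegree ≤ T.card := by
    have h4 : (g.natDegree : ℤ) * e ≤ T.card * e := by
      rw [← hlogsum]
      exact mul_le_mul_of_nonneg_left hge hm0.le
    have h5 := le_of_mul_le_mul_right h4 he0'
    exact_mod_cast h5
  have hfibcard : (S.filter (fun b => G.eval b = α₀)).card = g.natDegree := by
    have h4 := congrArg natDegree (hgS α₀ hα₀A.1)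
    rw [natDegree_sub_C, hG, hg.natDegree_map, natDegree_prod_of_monic _ _
      (fun b _ => monic_X_sub_C b)] at h4
    simp only [natDegree_X_sub_C, Finset.sum_const, smul_eq_mul, mul_one] at h4
    exact h4.symm
  have hTeq : T = S.filter (fun b => G.eval b = α₀) := by
    apply Finset.eq_of_subset_of_card_le
    · intro z hz
      rw [Finset.mem_filter]
      refine ⟨hSmem z ?_, hTg z hz⟩
      rw [hTg z hz]
      exact hα₀A.1
    · rw [hfibcard]
      exact hTcard
  have hyT : y ∈ T := by
    rw [hTeq]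
    exact Finset.mem_filter.mpr ⟨hy, hgy⟩
  obtain ⟨σ, hσ, hσx⟩ := (hTmem y).mp hyT
  exact ⟨σ, hσx, fun b hb hne => hIS σ hσ b hb hne⟩

end Pool.Agent.Lib.MP_89bcae_ag

end

section

/-!
# Transitivity on pairs from a place where exactly one root of `D` has a pole
-/

open Polynomial IsDedekindDomain WithZero

open scoped Classical

namespace Pool.Agent.Lib.MP_89bcae_ag

set_option linter.style.haveILetI false
set_option linter.unusedSectionVars false

universe u

/-- Transitivity on the pairs of roots of `D` and automorphisms moving only one fibre imply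
transitivity on the pairs of roots of `D(g)` in different fibres. -/
theorem isPairTransitive_of_fibre7 {k F : Type*} [Field k] [Field F] [Algebra k F] {g D : k[X]}
    (hX : IsPairTransitive7 k F X D) (α₀ : F) (hα₀ : aeval α₀ D = 0)
    (h : ∀ x y : F, aeval x g = α₀ → aeval y g = α₀ → ∃ σ : F ≃ₐ[k] F, σ x = y ∧
      ∀ b : F, aeval b (D.comp g) = 0 → aeval b g ≠ α₀ → σ b = b) :
    IsPairTransitive7 k F g D := by
  have hX' : ∀ α β α' β' : F, aeval α D = 0 → aeval β D = 0 → aeval α' D = 0 → aeval β' D = 0 →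
      α ≠ β → α' ≠ β' → ∃ σ : F ≃ₐ[k] F, σ α = α' ∧ σ β = β' := by
    intro α β α' β' h1 h2 h3 h4 h5 h6
    apply hX α β α' β' <;> simpa
  have hσev : ∀ (σ : F ≃ₐ[k] F) (p : k[X]) (x : F), aeval (σ x) p = σ (aeval x p) := fun σ p x =>
    Polynomial.aeval_algHom_apply σ x p
  have hcomp : ∀ b : F, aeval b (D.comp g) = aeval (aeval b g) D := fun b => aeval_comp b
  -- all the fibres
  have hall : ∀ α β : F, aeval α D = 0 → aeval β D = 0 → α ≠ β → ∀ x y : F, aeval x g = α →
      aeval y g = α → ∃ σ : F ≃ₐ[k] F, σ x = y ∧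
        ∀ b : F, aeval b (D.comp g) = 0 → aeval b g ≠ α → σ b = b := by
    intro α β hα hβ hαβ x y hx hy
    obtain ⟨β₀, hβ₀, hne⟩ : ∃ β₀ : F, aeval β₀ D = 0 ∧ α₀ ≠ β₀ := by
      by_cases hc : α₀ = α
      · exact ⟨β, hβ, by rw [hc]; exact hαβ⟩
      · exact ⟨α, hα, hc⟩
    obtain ⟨τ, hτ, -⟩ := hX' α₀ β₀ α β hα₀ hβ₀ hα hβ hne hαβ
    have hτ' : τ.symm α = α₀ := by rw [← hτ, AlgEquiv.symm_apply_apply]
    obtain ⟨σ, hσ, hfix⟩ := h (τ.symm x) (τ.symm y) (by rw [hσev, hx, hτ'])
      (by rw [hσev, hy, hτ'])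
    refine ⟨(τ.symm.trans σ).trans τ, ?_, fun b hb hne' => ?_⟩
    · change τ (σ (τ.symm x)) = y
      rw [hσ, AlgEquiv.apply_symm_apply]
    · change τ (σ (τ.symm b)) = b
      rw [hfix (τ.symm b) (by rw [hσev, hb, map_zero]) ?_, AlgEquiv.apply_symm_apply]
      intro h1
      rw [hσev] at h1
      apply hne'
      rw [← hτ, ← h1, AlgEquiv.apply_symm_apply]
  intro b c b' c' hb hc hb' hc' hbc hbc'
  rw [hcomp] at hb hc hb' hc'
  obtain ⟨τ, hτb, hτc⟩ := hX' _ _ _ _ hb hc hb' hc' hbc hbc'
  obtain ⟨σ, hσ, hσfix⟩ := hall _ _ hb' hc' hbc' (τ b) b' (by rw [hσev, hτb]) rfl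
  obtain ⟨ρ, hρ, hρfix⟩ := hall _ _ hc' hb' (Ne.symm hbc') (τ c) c' (by rw [hσev, hτc]) rfl
  refine ⟨(τ.trans σ).trans ρ, ?_, ?_⟩
  · change ρ (σ (τ b)) = b'
    rw [hσ, hρfix b' (by rw [hcomp]; exact hb') hbc']
  · change ρ (σ (τ c)) = c'
    rw [hσfix (τ c) (by rw [hcomp, hσev, hτc]; exact hc') (by rw [hσev, hτc]; exact hbc'.symm), hρ]

/-- Transitivity on pairs from automorphisms, of the splitting field, moving only one fibre. -/
theorem isPairTransitive_of_galois7 (R k : Type*) (F : Type u) [CommRing R] [IsDomain R] [Field k]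
    [Algebra R k] [IsFractionRing R k] [Field F] [Algebra k F] [IsAlgClosure k F] {g D : R[X]}
    (hgdeg : g.natDegree ≠ 0) (hg : g.Monic)
    (H : ∀ (K : Type u) [Field K] [Algebra k K] [Algebra R K] [IsScalarTower R k K]
      [FiniteDimensional k K] [IsGalois k K] (S A : Finset K), D.map (algebraMap R K) =
        C (algebraMap R K D.leadingCoeff) * ∏ α ∈ A, (X - C α) →
      (∀ α ∈ A, g.map (algebraMap R K) - C α =
        ∏ b ∈ S.filter (fun b => (g.map (algebraMap R K)).eval b = α), (X - C b)) →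
      (∀ b ∈ S, (g.map (algebraMap R K)).eval b ∈ A) →
      (∀ σ : K ≃ₐ[k] K, (∀ b ∈ S, σ b = b) → σ = 1) →
      ∃ α₀ ∈ A, ∀ x ∈ S, ∀ y ∈ S, (g.map (algebraMap R K)).eval x = α₀ →
        (g.map (algebraMap R K)).eval y = α₀ → ∃ σ : K ≃ₐ[k] K, σ x = y ∧
          ∀ b ∈ S, (g.map (algebraMap R K)).eval b ≠ α₀ → σ b = b)
    (hsep : ((D.comp g).map (algebraMap R k)).Separable)
    (hX : IsPairTransitive7 k F X (D.map (algebraMap R k))) :
    IsPairTransitive7 k F (g.map (algebraMap R k)) (D.map (algebraMap R k)) := by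
  have hF : IsAlgClosed F := IsAlgClosure.isAlgClosed k
  have hkF : Algebra.IsAlgebraic k F := IsAlgClosure.isAlgebraic
  letI : Algebra R F := ((algebraMap k F).comp (algebraMap R k)).toAlgebra
  haveI : IsScalarTower R k F := IsScalarTower.of_algebraMap_eq fun _ => rfl
  have hinjk : Function.Injective (algebraMap R k) := IsFractionRing.injective R k
  have hinjF : Function.Injective (algebraMap R F) := (algebraMap k F).injective.comp hinjk
  have hmapF : ∀ p : R[X], (p.map (algebraMap R k)).map (algebraMap k F) =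
      p.map (algebraMap R F) := fun p => by rw [Polynomial.map_map]; rfl
  have hlcF' : (D.map (algebraMap R F)).leadingCoeff = algebraMap R F D.leadingCoeff :=
    leadingCoeff_map_of_injective hinjF D
  have hcompF : (D.map (algebraMap R F)).comp (g.map (algebraMap R F)) =
      ((D.comp g).map (algebraMap R k)).map (algebraMap k F) := by
    rw [hmapF, Polynomial.map_comp]
  have hsepF : ((D.map (algebraMap R F)).comp (g.map (algebraMap R F))).Separable := by
    rw [hcompF]; exact hsep.map
  have hgF : (g.map (algebraMap R F)).natDegree ≠ 0 := by rwa [hg.natDegree_map]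
  have hsepD : (D.map (algebraMap R F)).Separable := separable_left7 hgF hsepF
  set gF := g.map (algebraMap R F) with hgFdef
  set DF := D.map (algebraMap R F) with hDFdef
  set S : Finset F := (DF.comp gF).roots.toFinset with hS
  set A : Finset F := DF.roots.toFinset with hA
  have hmemS : ∀ b, b ∈ S ↔ DF.eval (gF.eval b) = 0 := by
    intro b
    rw [hS, Multiset.mem_toFinset, mem_roots hsepF.ne_zero, IsRoot.def, eval_comp]
  have hmemA : ∀ α, α ∈ A ↔ DF.eval α = 0 := by
    intro α
    rw [hA, Multiset.mem_toFinset, mem_roots hsepD.ne_zero, IsRoot.def]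
  have hSA : ∀ b ∈ S, gF.eval b ∈ A := fun b hb => (hmemA _).mpr ((hmemS b).mp hb)
  have hDA : DF = C (algebraMap R F D.leadingCoeff) * ∏ α ∈ A, (X - C α) := by
    rw [← hlcF']
    exact eq_prod_roots7 hsepD
  have hgS : ∀ α ∈ A, gF - C α = ∏ b ∈ S.filter (fun b => gF.eval b = α), (X - C b) := by
    intro α hα
    have h1 : (gF - C α) ∣ DF.comp gF := by
      obtain ⟨w, hw⟩ := dvd_iff_isRoot.mpr ((hmemA α).mp hα)
      refine ⟨w.comp gF, ?_⟩
      rw [hw, mul_comp, sub_comp, X_comp, C_comp]
    have h3 := eq_prod_roots7 (hsepF.of_dvd h1)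
    have h4 : (gF - C α).Monic := by
      have h5 : (C α).degree < gF.degree := by
        rw [degree_eq_natDegree (p := gF) (fun h => hgF (by rw [h, natDegree_zero]))]
        exact (degree_C_le).trans_lt (by exact_mod_cast Nat.pos_of_ne_zero hgF)
      exact (hg.map _).sub_of_left h5
    rw [h4.leadingCoeff, C_1, one_mul] at h3
    rw [h3]
    congr 1
    ext b
    rw [Finset.mem_filter, Multiset.mem_toFinset, mem_roots h4.ne_zero, IsRoot.def, eval_sub,
      eval_C, sub_eq_zero, hmemS]
    constructor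
    · exact fun h => ⟨by rw [h]; exact (hmemA α).mp hα, h⟩
    · exact fun h => h.2
  have hAS : ∀ α ∈ A, ∃ b ∈ S, gF.eval b = α := by
    intro α hα
    have h1 : (gF - C α).degree ≠ 0 := by
      intro h4
      have h3 : (gF - C α).natDegree = gF.natDegree := natDegree_sub_C
      rw [natDegree_eq_of_degree_eq_some h4] at h3
      exact hgF h3.symm
    obtain ⟨b, hb⟩ := IsAlgClosed.exists_root _ h1
    rw [IsRoot.def, eval_sub, eval_C, sub_eq_zero] at hb
    exact ⟨b, (hmemS b).mpr (by rw [hb]; exact (hmemA α).mp hα), hb⟩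
  have hSroot : (S : Set F) = ((D.comp g).map (algebraMap R k)).rootSet F := by
    rw [rootSet, hS, hcompF, aroots]
  obtain ⟨hfin, hgal⟩ := galois7 (F := F) hsep
  obtain ⟨K, hK⟩ : ∃ K, K = IntermediateField.adjoin k (S : Set F) := ⟨_, rfl⟩
  haveI : FiniteDimensional k K := by rw [hK, hSroot]; exact hfin
  haveI : IsGalois k K := by rw [hK, hSroot]; exact hgal
  have hSK : ∀ b ∈ S, b ∈ K := by
    intro b hb
    rw [hK]
    exact IntermediateField.subset_adjoin _ _ hb
  have hRK : ∀ r : R, algebraMap R F r ∈ K := by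
    intro r
    rw [IsScalarTower.algebraMap_apply R k F]
    exact K.algebraMap_mem _
  have hgK : ∀ b ∈ K, gF.eval b ∈ K := by
    intro b hb
    rw [hgFdef, eval_map, eval₂_eq_sum_range]
    exact K.sum_mem fun i _ => K.mul_mem (hRK _) (pow_mem hb i)
  have hAK : ∀ α ∈ A, α ∈ K := by
    intro α hα
    obtain ⟨b, hb, rfl⟩ := hAS α hα
    exact hgK b (hSK b hb)
  have hcomp : (algebraMap K F).comp (algebraMap R K) = algebraMap R F := RingHom.ext fun r => rfl
  have hinj : Function.Injective (Polynomial.map (algebraMap K F)) :=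
    Polynomial.map_injective _ (algebraMap K F).injective
  have hev : ∀ b : K, (((g.map (algebraMap R K)).eval b : K) : F) = gF.eval (b : F) := by
    intro b
    rw [hgFdef, ← hcomp, ← Polynomial.map_map, eval_map (algebraMap K F)]
    exact (eval₂_at_apply (algebraMap K F) b).symm
  obtain ⟨α₀, hα₀, hI⟩ := H K (S.subtype (· ∈ K)) (A.subtype (· ∈ K)) (by
      apply hinj
      rw [Polynomial.map_map, hcomp, ← hDFdef, hDA, Polynomial.map_mul, map_C, Polynomial.map_prod]
      congr 1
      have h1 := prod_subtype7 (· ∈ K) A hAK (fun _ => True) (fun _ => True) (fun _ => Iff.rfl)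
        (fun b => (X - C b : F[X]))
      rw [Finset.filter_true, Finset.filter_true] at h1
      rw [← h1]
      refine Finset.prod_congr rfl fun b _ => ?_
      rw [Polynomial.map_sub, map_X, map_C]
      rfl) (by
      intro α hα
      apply hinj
      rw [Polynomial.map_sub, Polynomial.map_map, hcomp, map_C, Polynomial.map_prod]
      rw [Finset.mem_subtype] at hα
      have h1 := prod_subtype7 (· ∈ K) S hSK (fun b => (g.map (algebraMap R K)).eval b = α)
        (fun b => gF.eval b = (α : F))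
        (fun b => by rw [← hev, Subtype.coe_inj]) (fun b => (X - C b : F[X]))
      refine (hgS α hα).trans (h1.symm.trans ?_)
      refine Finset.prod_congr rfl fun b _ => ?_
      rw [Polynomial.map_sub, map_X, map_C]
      rfl) (by
      intro b hb
      rw [Finset.mem_subtype] at hb ⊢
      rw [hev]
      exact hSA b hb) (by
      intro σ hσ
      subst hK
      ext x
      have h1 : (σ : _ ≃ₐ[k] _).toAlgHom = AlgHom.id k _ := by
        apply IntermediateField.algHom_ext_of_eq_adjoin _ rfl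
        intro y hy
        exact hσ ⟨y, IntermediateField.subset_adjoin _ _ hy⟩ (Finset.mem_subtype.mpr hy)
      exact congrArg Subtype.val (congrArg (fun f => f x) h1))
  rw [Finset.mem_subtype] at hα₀
  have heva : ∀ b : F, aeval b (g.map (algebraMap R k)) = gF.eval b := by
    intro b
    rw [← eval_map_algebraMap, hmapF]
  have hevD : ∀ b : F, aeval b (D.map (algebraMap R k)) = DF.eval b := by
    intro b
    rw [← eval_map_algebraMap, hmapF]
  refine isPairTransitive_of_fibre7 hX (α₀ : F) (by rw [hevD]; exact (hmemA _).mp hα₀) ?_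
  intro x y hx hy
  rw [heva] at hx hy
  have hxS : x ∈ S := (hmemS x).mpr (by rw [hx]; exact (hmemA _).mp hα₀)
  have hyS : y ∈ S := (hmemS y).mpr (by rw [hy]; exact (hmemA _).mp hα₀)
  obtain ⟨σ, hσ, hfix⟩ := hI ⟨x, hSK x hxS⟩ (Finset.mem_subtype.mpr hxS) ⟨y, hSK y hyS⟩
    (Finset.mem_subtype.mpr hyS) (Subtype.ext (by rw [hev]; exact hx))
    (Subtype.ext (by rw [hev]; exact hy))
  obtain ⟨τ, hτ⟩ := AlgEquiv.restrictNormalHom_surjective (F := k) (K₁ := K) F σ
  have hτK : ∀ z : K, τ z = (σ z : K) := by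
    intro z
    rw [← hτ]
    exact (AlgEquiv.restrictNormal_commutes τ K z).symm
  refine ⟨τ, ?_, fun b hb hne => ?_⟩
  · have h4 := hτK ⟨x, hSK x hxS⟩
    rw [hσ] at h4
    exact h4
  · rw [aeval_comp, heva, hevD] at hb
    have hbS : b ∈ S := (hmemS b).mpr hb
    have h4 := hτK ⟨b, hSK b hbS⟩
    rw [hfix ⟨b, hSK b hbS⟩ (Finset.mem_subtype.mpr hbS) ?_] at h4
    · exact h4
    · intro h5
      apply hne
      rw [heva, ← hev ⟨b, hSK b hbS⟩, h5]

/-- **Transitivity on pairs from transitivity on the pairs of roots of `D` and a place where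
exactly one root of `D` has a pole, of order one** (finite residue field). -/
theorem isPairTransitive_of_eis7 (R k F : Type*) [CommRing R] [IsDomain R]
    [IsDiscreteValuationRing R] [Finite (IsLocalRing.ResidueField R)] [Field k] [Algebra R k]
    [IsFractionRing R k] [Field F] [Algebra k F] [IsAlgClosure k F] {g D : R[X]}
    (hgdeg : g.natDegree ≠ 0) (hg : g.Monic) {n : ℕ} (hn : D.natDegree = n + 1)
    (h1 : D.coeff (n + 1) ∈ IsLocalRing.maximalIdeal R)
    (h2 : D.coeff (n + 1) ∉ IsLocalRing.maximalIdeal R ^ 2)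
    (h3 : D.coeff n ∉ IsLocalRing.maximalIdeal R)
    (hsepκ : ((D.map (IsLocalRing.residue R)).comp (g.map (IsLocalRing.residue R))).Separable)
    (hsep : ((D.comp g).map (algebraMap R k)).Separable)
    (hX : IsPairTransitive7 k F X (D.map (algebraMap R k))) :
    IsPairTransitive7 k F (g.map (algebraMap R k)) (D.map (algebraMap R k)) := by
  refine isPairTransitive_of_galois7 R k F hgdeg hg ?_ hsep hX
  intro K _ _ _ _ _ _ S A hDA hgS hSA _
  exact exists_inertia7 (k := k) hgdeg hg hn h1 h2 h3 hsepκ S A hDA hgS hSA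

/-- **Transitivity on pairs from transitivity on the pairs of roots of `D` and a place where
exactly one root of `D` has a pole, of order one** (arbitrary residue field). -/
theorem isPairTransitive_of_cycle7 (R k F : Type*) [CommRing R] [IsDomain R]
    [IsDiscreteValuationRing R] [Field k] [Algebra R k]
    [IsFractionRing R k] [Field F] [Algebra k F] [IsAlgClosure k F] {g D : R[X]} (hg : g.Monic)
    (hgm : (g.natDegree : IsLocalRing.ResidueField R) ≠ 0) {n : ℕ} (hn : D.natDegree = n + 1)
    (h1 : D.leadingCoeff ∈ IsLocalRing.maximalIdeal R)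
    (h2 : D.leadingCoeff ∉ IsLocalRing.maximalIdeal R ^ 2)
    (h3 : D.coeff n ∉ IsLocalRing.maximalIdeal R)
    (hsepκ : ((D.map (IsLocalRing.residue R)).comp (g.map (IsLocalRing.residue R))).Separable)
    (hsep : ((D.comp g).map (algebraMap R k)).Separable)
    (hX : IsPairTransitive7 k F X (D.map (algebraMap R k))) :
    IsPairTransitive7 k F (g.map (algebraMap R k)) (D.map (algebraMap R k)) := by
  have hgdeg : g.natDegree ≠ 0 := by
    intro h
    rw [h, Nat.cast_zero] at hgm
    exact hgm rfl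
  refine isPairTransitive_of_galois7 R k F hgdeg hg ?_ hsep hX
  intro K _ _ _ _ _ _ S A hDA hgS hSA hgen
  exact exists_cycle8 (k := k) hg hgm hn h1 h2 h3 hsepκ S A hDA hgS hSA hgen

end Pool.Agent.Lib.MP_89bcae_ag

end
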