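import Mathlib
import Pool.Agent.Lib.MP_89bcae_ag.Q.K002

section

/-!
# Simply transitive groups on a fibre of `g` at a place where the leading coefficient has a simple zero
-/

open Polynomial WithZero

open scoped Classical Pointwise

set_option linter.unusedSimpArgs false
set_option linter.unusedVariables false
set_option linter.unusedSectionVars false
set_option linter.style.haveILetI false

namespace Pool.Agent.Lib.MP_89bcae_ag

section Aux

variable {K κ : Type*} [Field K] [Field κ] {v : Valuation K ℤᵐ⁰} {q : v.integer →+* κ}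

/-- The inertia group is simply transitive on the fibre over the pole. -/
theorem exists_cycle_auxT {k : Type*} [Field k] [Algebra k K]
    (hq : ∀ x : v.integer, q x = 0 ↔ v x < 1) (I : Subgroup (K ≃ₐ[k] K)) [Finite I]
    (hI1 : ∀ σ ∈ I, ∀ x, v (σ x) = v x) (hI2 : ∀ σ ∈ I, ∀ x, v x ≤ 1 → v (σ x - x) < 1)
    {e : ℕ} (he0 : 0 < e) (he : e ≤ Nat.card I) {g D : v.integer[X]} (hg : g.Monic)
    (hgm : v (g.natDegree : K) = 1) {S A : Finset K} {a : K} (ha : v a = exp (-(e : ℤ)))
    (hD : D.map v.integer.subtype = C a * ∏ α ∈ A, (X - C α)) {n : ℕ} (hn : A.card = n + 1)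
    (hdeg : (D.map q).natDegree = n) (hlc : q (D.coeff n) ≠ 0)
    (hgS : ∀ α ∈ A, g.map v.integer.subtype - C α =
      ∏ b ∈ S.filter (fun b => (g.map v.integer.subtype).eval b = α), (X - C b))
    (hsep : ((D.comp g).map q).Separable)
    (hgσ : ∀ σ ∈ I, ∀ x, (g.map v.integer.subtype).eval (σ x) =
      σ ((g.map v.integer.subtype).eval x))
    (hDσ : ∀ σ ∈ I, ∀ x, (D.map v.integer.subtype).eval (σ x) =
      σ ((D.map v.integer.subtype).eval x))
    (hgen : ∀ σ ∈ I, (∀ b ∈ S, σ b = b) → σ = 1)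
    (hSA : ∀ b ∈ S, (g.map v.integer.subtype).eval b ∈ A) :
    ∃ α₀ ∈ A, (∀ x ∈ S, ∀ y ∈ S, (g.map v.integer.subtype).eval x = α₀ →
      (g.map v.integer.subtype).eval y = α₀ → ∃ σ ∈ I, σ x = y ∧ ∀ τ ∈ I, τ x = y → τ = σ) ∧
        ∀ σ ∈ I, ∀ b ∈ S, (g.map v.integer.subtype).eval b ≠ α₀ → σ b = b := by
  obtain ⟨α₀, hα₀A, hα₀1, haα₀, hα₀u⟩ := exists_pole8 hq hD hn hdeg hlc
  obtain ⟨m, hm⟩ : ∃ m, g.natDegree = m := ⟨_, rfl⟩
  rw [hm] at hgm
  have hm0 : m ≠ 0 := by
    rintro rfl
    rw [Nat.cast_zero, map_zero] at hgm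
    exact zero_ne_one hgm
  set gK := g.map v.integer.subtype with hgK
  obtain ⟨T, hT⟩ : ∃ T, T = S.filter fun b => gK.eval b = α₀ := ⟨_, rfl⟩
  have hTmem : ∀ b, b ∈ T ↔ gK.eval b = α₀ := by
    intro b
    rw [hT, Finset.mem_filter]
    constructor
    · exact fun h => h.2
    · intro h
      refine ⟨?_, h⟩
      have h1 := congrArg (eval b) (hgS α₀ hα₀A)
      rw [eval_sub, eval_C, h, sub_self, eval_prod, eq_comm, Finset.prod_eq_zero_iff] at h1
      obtain ⟨b', hb', h2⟩ := h1
      rw [eval_sub, eval_X, eval_C, sub_eq_zero] at h2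
      rw [h2]
      exact (Finset.mem_filter.mp hb').1
  have hTprod : gK - C α₀ = ∏ b ∈ T, (X - C b) := by rw [hT]; exact hgS α₀ hα₀A
  have hTcard : T.card = m := by
    have h1 := congrArg natDegree hTprod
    rw [natDegree_sub_C, hg.natDegree_map, hm, natDegree_prod_of_monic _ _
      fun α _ => monic_X_sub_C _] at h1
    simpa using h1.symm
  have hTsub := fun {x : K} (hx : x ∈ T) {y : K} (hy : y ∈ T) (hxy : x ≠ y) =>
    val_sub8 hg hm hgm hα₀1 hTprod hx hy hxy
  have hev : ∀ (p : v.integer[X]) (z : K) (hz : v z ≤ 1),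
      (p.map v.integer.subtype).eval z = ((p.eval ⟨z, hz⟩ : v.integer) : K) := by
    intro p z hz
    have h1 : (p.map v.integer.subtype).eval z = v.integer.subtype (p.eval ⟨z, hz⟩) := by
      rw [eval_map, ← eval₂_at_apply]
      rfl
    exact h1
  have hTv : ∀ z ∈ T, 1 < v z := by
    intro z hz
    by_contra hcon
    rw [not_lt] at hcon
    have h1 := (g.eval ⟨z, hcon⟩).2
    have h2 : v (gK.eval z) ≤ 1 := by
      rw [hev g z hcon]
      exact h1
    rw [(hTmem z).mp hz] at h2
    exact absurd hα₀1 (not_lt.mpr h2)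
  have hgcoeff : v ((g.coeff m : v.integer) : K) = 1 := by
    have h1 : g.coeff m = 1 := by rw [← hm]; exact hg
    rw [h1]
    exact map_one v
  have hTpow : ∀ z ∈ T, v z ^ m = v α₀ := by
    intro z hz
    rw [← (hTmem z).mp hz]
    exact (val_eval8 g hm.le hgcoeff (hTv z hz)).symm
  -- the roots in the other fibres
  have hother : ∀ b ∈ S, gK.eval b ≠ α₀ → v b ≤ 1 := by
    intro b hb hne
    by_contra hcon
    rw [not_le] at hcon
    have h1 : v (gK.eval b) = v b ^ m := val_eval8 g hm.le hgcoeff hcon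
    have h2 := hα₀u _ (hSA b hb) hne
    rw [h1] at h2
    exact absurd (one_lt_pow₀ hcon hm0) (not_lt.mpr h2)
  have hAev : ∀ α ∈ A, (D.map v.integer.subtype).eval α = 0 := by
    intro α hα
    rw [hD, eval_mul, eval_prod, Finset.prod_eq_zero hα (by simp), mul_zero]
  have hA0 : a ≠ 0 := by
    intro h0
    rw [h0, map_zero] at ha
    exact exp_ne_zero ha.symm
  have hAmem : ∀ α, (D.map v.integer.subtype).eval α = 0 → α ∈ A := by
    intro α hα
    rw [hD, eval_mul, eval_C, eval_prod, mul_eq_zero, Finset.prod_eq_zero_iff] at hα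
    rcases hα with hα | ⟨α', h1, h2⟩
    · exact absurd hα hA0
    · rw [eval_sub, eval_X, eval_C, sub_eq_zero] at h2
      rw [h2]
      exact h1
  have hσA : ∀ σ ∈ I, ∀ α ∈ A, σ α ∈ A := by
    intro σ hσ α hα
    apply hAmem
    rw [hDσ σ hσ, hAev α hα, map_zero]
  have hσα₀ : ∀ σ ∈ I, σ α₀ = α₀ := by
    intro σ hσ
    by_contra hne
    have h1 := hα₀u _ (hσA σ hσ α₀ hα₀A) hne
    rw [hI1 σ hσ] at h1
    exact absurd hα₀1 (not_lt.mpr h1)
  have hσT : ∀ σ ∈ I, ∀ x ∈ T, σ x ∈ T := by
    intro σ hσ x hx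
    rw [hTmem, hgσ σ hσ, (hTmem x).mp hx, hσα₀ σ hσ]
  have hfix : ∀ σ ∈ I, ∀ b ∈ S, gK.eval b ≠ α₀ → σ b = b := by
    intro σ hσ b hb hne
    have h1 := hother b hb hne
    have h2 : v (σ b) ≤ 1 := by rw [hI1 σ hσ]; exact h1
    have hroot : ∀ (z : K) (hz : v z ≤ 1), gK.eval z ∈ A →
        (D.comp g).eval (⟨z, hz⟩ : v.integer) = 0 := by
      intro z hz hzA
      have h3 := hev (D.comp g) z hz
      rw [Polynomial.map_comp, eval_comp, hAev _ hzA] at h3
      exact Subtype.ext h3.symm
    have h4 : gK.eval (σ b) ∈ A := by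
      rw [hgσ σ hσ]
      exact hσA σ hσ _ (hSA b hb)
    have h5 := inj_red8 q hsep (hroot (σ b) h2 h4) (hroot b h1 (hSA b hb)) (by
      rw [← sub_eq_zero, ← map_sub, hq]
      exact hI2 σ hσ b h1)
    exact congrArg Subtype.val h5
  have hone : ∀ σ ∈ I, ∀ x ∈ T, σ x = x → σ = 1 := by
    intro σ hσ x hx hσx
    apply hgen σ hσ
    intro b hb
    by_cases hbα : gK.eval b = α₀
    · have hbT : b ∈ T := (hTmem b).mpr hbα
      by_contra hne
      have hx0 : x ≠ 0 := by
        rintro rfl
        have h1 := hTv 0 hx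
        rw [map_zero] at h1
        exact absurd h1 (not_lt.mpr zero_le_one)
      have hvx0 : v x ≠ 0 := (Valuation.ne_zero_iff v).mpr hx0
      have hvb : v b = v x :=
        (pow_left_inj₀ zero_le zero_le hm0).mp ((hTpow b hbT).trans (hTpow x hx).symm)
      have h1 : v (b / x) ≤ 1 := by rw [map_div₀, hvb, div_self hvx0]
      have h2 := hI2 σ hσ (b / x) h1
      rw [map_div₀, hσx, ← sub_div, map_div₀, div_lt_one₀ (zero_lt_iff.mpr hvx0)] at h2
      have h3 := hTsub (hσT σ hσ b hbT) hbT hne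
      have h4 : v (σ b) = v x := (hI1 σ hσ b).trans hvb
      rw [h3, h4] at h2
      exact lt_irrefl _ h2
    · exact hfix σ hσ b hb hbα
  -- the count
  obtain ⟨x₀, hx₀⟩ : T.Nonempty := by
    rw [← Finset.card_pos, hTcard]
    exact Nat.pos_of_ne_zero hm0
  have hme : m ≤ e := by
    have h1 := hTpow x₀ hx₀
    rw [map_mul, ha] at haα₀
    have h2 : v α₀ = exp (e : ℤ) := by
      have h3 : exp (-(e : ℤ)) * exp (e : ℤ) = 1 := by
        rw [← exp_add, neg_add_cancel, exp_zero]
      rw [← h3] at haα₀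
      exact mul_left_cancel₀ exp_ne_zero haα₀
    rw [h2] at h1
    have hv0 : v x₀ ≠ 0 := (zero_lt_one.trans (hTv x₀ hx₀)).ne'
    rw [← exp_log hv0, ← exp_nsmul, exp_inj] at h1
    have h4 : (m : ℤ) ∣ e := ⟨log (v x₀), by rw [← h1, nsmul_eq_mul]⟩
    exact Nat.le_of_dvd he0 (Int.natCast_dvd_natCast.mp h4)
  have hbij : ∀ (x : K) (hx : x ∈ T), Function.Bijective
      (fun σ : I => (⟨(σ : K ≃ₐ[k] K) x, hσT σ σ.2 x hx⟩ : T)) := by
    intro x hx
    have hinj : Function.Injective
        (fun σ : I => (⟨(σ : K ≃ₐ[k] K) x, hσT σ σ.2 x hx⟩ : T)) := by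
      intro σ τ hστ
      have h3 : (σ : K ≃ₐ[k] K) x = (τ : K ≃ₐ[k] K) x := congrArg Subtype.val hστ
      have h4 : (τ⁻¹ * σ : I) = 1 := by
        apply Subtype.ext
        apply hone _ (τ⁻¹ * σ).2 x hx
        change (τ : K ≃ₐ[k] K).symm ((σ : K ≃ₐ[k] K) x) = x
        rw [h3, AlgEquiv.symm_apply_apply]
      exact (inv_mul_eq_one.mp h4).symm
    refine (Nat.bijective_iff_injective_and_card _).mpr ⟨hinj, ?_⟩
    have h5 := Nat.card_le_card_of_injective _ hinj
    rw [Nat.card_eq_fintype_card (α := T), Fintype.card_coe, hTcard] at h5 ⊢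
    omega
  refine ⟨α₀, hα₀A, fun x hx y hy hxα hyα => ?_, fun σ hσ b hb hb' => hfix σ hσ b hb hb'⟩
  obtain ⟨σ, hσ⟩ := (hbij x ((hTmem x).mpr hxα)).2 ⟨y, (hTmem y).mpr hyα⟩
  refine ⟨σ, σ.2, congrArg Subtype.val hσ, fun τ hτ hτy => ?_⟩
  have h1 := (hbij x ((hTmem x).mpr hxα)).1 (a₁ := ⟨τ, hτ⟩) (a₂ := σ)
    (Subtype.ext (hτy.trans (congrArg Subtype.val hσ).symm))
  exact congrArg Subtype.val h1

end Aux

section Main

variable {R k K : Type*} [CommRing R] [IsDomain R] [IsDiscreteValuationRing R] [Field k]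
    [Algebra R k] [IsFractionRing R k] [Field K] [Algebra k K] [Algebra R K] [IsScalarTower R k K]
    [FiniteDimensional k K] [IsGalois k K]

/-- A simply transitive group on a fibre. -/
theorem exists_cycleT {g D : R[X]} (hg : g.Monic)
    (hgm : (g.natDegree : IsLocalRing.ResidueField R) ≠ 0) {n : ℕ} (hn : D.natDegree = n + 1)
    (hlc1 : D.leadingCoeff ∈ IsLocalRing.maximalIdeal R)
    (hlc2 : D.leadingCoeff ∉ IsLocalRing.maximalIdeal R ^ 2)
    (hlc3 : D.coeff n ∉ IsLocalRing.maximalIdeal R)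
    (hsep : ((D.map (IsLocalRing.residue R)).comp (g.map (IsLocalRing.residue R))).Separable)
    (S A : Finset K) (hDA : D.map (algebraMap R K) =
      C (algebraMap R K D.leadingCoeff) * ∏ α ∈ A, (X - C α))
    (hgS : ∀ α ∈ A, g.map (algebraMap R K) - C α =
      ∏ b ∈ S.filter (fun b => (g.map (algebraMap R K)).eval b = α), (X - C b))
    (hSA : ∀ b ∈ S, (g.map (algebraMap R K)).eval b ∈ A)
    (hgen : ∀ σ : K ≃ₐ[k] K, (∀ b ∈ S, σ b = b) → σ = 1) :
    ∃ α₀ ∈ A, ∃ J : Finset (K ≃ₐ[k] K), (∀ x ∈ S, ∀ y ∈ S,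
      (g.map (algebraMap R K)).eval x = α₀ → (g.map (algebraMap R K)).eval y = α₀ →
        ∃ σ ∈ J, σ x = y ∧ ∀ τ ∈ J, τ x = y → τ = σ) ∧
        ∀ σ ∈ J, ∀ b ∈ S, (g.map (algebraMap R K)).eval b ≠ α₀ → σ b = b := by
  -- the integral closure
  set B := integralClosure R K with hB
  haveI : IsDedekindDomain B := integralClosure.isDedekindDomain R k K
  haveI : Module.Finite R B := IsIntegralClosure.finite R k K B
  haveI : IsFractionRing B K := integralClosure.isFractionRing_of_finite_extension k K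
  haveI : SMulCommClass (K ≃ₐ[k] K) R K := ⟨fun σ r x => by
    rw [AlgEquiv.smul_def, AlgEquiv.smul_def, Algebra.smul_def, Algebra.smul_def, map_mul,
      IsScalarTower.algebraMap_apply R k K, AlgEquiv.commutes]⟩
  haveI : IsGaloisGroup (K ≃ₐ[k] K) R B := IsGaloisGroup.of_isFractionRing _ _ _ k K
  have hinjK : Function.Injective (algebraMap R K) := by
    rw [IsScalarTower.algebraMap_eq R k K]
    exact (algebraMap k K).injective.comp (IsFractionRing.injective R k)
  have hinjB : Function.Injective (algebraMap B K) := Subtype.val_injective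
  haveI : FaithfulSMul R B := by
    rw [faithfulSMul_iff_algebraMap_injective]
    intro x y hxy
    exact hinjK (congrArg (algebraMap B K) hxy)
  haveI : Module.IsTorsionFree R B := inferInstance
  haveI : Module.Flat R B := inferInstance
  let v : IsDedekindDomain.HeightOneSpectrum R := IsDiscreteValuationRing.maximalIdeal R
  have hvmax : v.asIdeal.IsMaximal := v.isMaximal
  obtain ⟨P, hPmax, hPv⟩ := Ideal.exists_maximal_ideal_liesOver_of_isIntegral (S := B) v.asIdeal
  have hP0 : P ≠ ⊥ := Ideal.ne_bot_of_liesOver_of_ne_bot v.ne_bot P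
  let w : IsDedekindDomain.HeightOneSpectrum B := ⟨P, hPmax.isPrime, hP0⟩
  have hwv : w.asIdeal.LiesOver v.asIdeal := hPv
  -- the ramification index
  have he : v.asIdeal.ramificationIdx' w.asIdeal ≤ Nat.card (P.inertia (K ≃ₐ[k] K)) := by
    rw [Ideal.ramificationIdx'_eq_ramificationIdx v.asIdeal w.asIdeal v.ne_bot]
    exact ramificationIdx_le_card_inertia7 v.asIdeal P
  set e := v.asIdeal.ramificationIdx' w.asIdeal with hedef
  set W := w.valuation K with hW
  have hWk : ∀ r : R, W (algebraMap R K r) = v.intValuation r ^ e := by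
    intro r
    have h1 := IsDedekindDomain.HeightOneSpectrum.valuation_liesOver K v w (algebraMap R k r)
    rw [← IsScalarTower.algebraMap_apply] at h1
    rw [hW, ← h1]
    congr 1
    exact IsDedekindDomain.HeightOneSpectrum.valuation_of_algebraMap (K := k) v r
  have hvm : ∀ (r : R) (n : ℕ), v.intValuation r ≤ exp (-(n : ℤ)) ↔
      r ∈ IsLocalRing.maximalIdeal R ^ n := fun r n => v.intValuation_le_pow_iff_mem r n
  have hlc0 : D.leadingCoeff ≠ 0 := by
    intro h0
    rw [h0] at hlc2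
    exact hlc2 (Ideal.zero_mem _)
  have hvD : v.intValuation D.leadingCoeff = exp (-1 : ℤ) := by
    have h1 := (hvm D.leadingCoeff 1).mpr (by rw [pow_one]; exact hlc1)
    have h3 : ¬ v.intValuation D.leadingCoeff ≤ exp (-((2 : ℕ) : ℤ)) := fun h4 =>
      hlc2 ((hvm D.leadingCoeff 2).mp h4)
    have h5 : v.intValuation D.leadingCoeff ≠ 0 := v.intValuation_ne_zero _ hlc0
    have h6 := exp_log h5
    rw [← h6] at h1 h3 ⊢
    rw [exp_le_exp] at h1 h3
    rw [exp_inj]
    push_cast at h1 h3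
    omega
  have ha : W (algebraMap R K D.leadingCoeff) = exp (-(e : ℤ)) := by
    rw [hWk, hvD, ← exp_nsmul]
    simp
  -- integrality
  have hWB : ∀ x : B, W x ≤ 1 := fun x => w.valuation_le_one x
  have hWP : ∀ x : B, W x < 1 ↔ x ∈ P := fun x => w.valuation_lt_one_iff_mem x
  have hWR : ∀ r : R, W (algebraMap R K r) ≤ 1 := fun r => hWB (algebraMap R B r)
  have hWm : ∀ r : R, r ∈ IsLocalRing.maximalIdeal R → W (algebraMap R K r) < 1 := by
    intro r hr
    refine (hWP (algebraMap R B r)).mpr ?_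
    have h1 : r ∈ Ideal.comap (algebraMap R B) P := by
      rw [← Ideal.under_def, ← hPv.over]
      exact hr
    exact h1
  have he0 : 0 < e := by
    rcases Nat.eq_zero_or_pos e with h0 | h0
    · have h1 := hWm _ hlc1
      rw [ha, h0] at h1
      exact absurd h1 (by simp)
    · exact h0
  obtain ⟨q, hq⟩ := exists_residue8 W
  let ι : R →+* W.integer := (algebraMap R K).codRestrict W.integer hWR
  have hι : W.integer.subtype.comp ι = algebraMap R K := RingHom.ext fun r => rfl
  have hιmap : ∀ p : R[X], (p.map ι).map W.integer.subtype = p.map (algebraMap R K) := fun p => by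
    rw [Polynomial.map_map, hι]
  have hker : ∀ r : R, r ∈ IsLocalRing.maximalIdeal R → q.comp ι r = 0 := by
    intro r hr
    exact (hq (ι r)).mpr (hWm r hr)
  let ψ : IsLocalRing.ResidueField R →+* IsLocalRing.ResidueField W.valuationSubring :=
    Ideal.Quotient.lift (IsLocalRing.maximalIdeal R) (q.comp ι) hker
  have hψ : ψ.comp (IsLocalRing.residue R) = q.comp ι := RingHom.ext fun r => rfl
  have hψmap : ∀ p : R[X], (p.map ι).map q = (p.map (IsLocalRing.residue R)).map ψ := fun p => by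
    rw [Polynomial.map_map, Polynomial.map_map, hψ]
  -- the action of the inertia group
  have hstab : ∀ σ ∈ P.inertia (K ≃ₐ[k] K), σ • P = P := fun σ hσ =>
    Ideal.inertia_le_stabilizer (M := (K ≃ₐ[k] K)) P hσ
  have hint1 : ∀ σ ∈ P.inertia (K ≃ₐ[k] K), ∀ b : B, w.intValuation (σ • b) ≤ w.intValuation b := by
    intro σ hσ b
    by_cases hb : b = 0
    · rw [hb, smul_zero]
    · have h1 : w.intValuation b ≠ 0 := w.intValuation_ne_zero b hb
      obtain ⟨N, hN⟩ : ∃ N : ℕ, w.intValuation b = exp (-(N : ℤ)) :=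
        ⟨_, w.intValuation_if_neg hb⟩
      rw [hN]
      refine (w.intValuation_le_pow_iff_mem (σ • b) N).mpr ?_
      have h2 : b ∈ w.asIdeal ^ N := (w.intValuation_le_pow_iff_mem b N).mp hN.le
      have h3 : w.asIdeal ^ N = σ • (w.asIdeal ^ N) := by
        rw [smul_pow']
        exact congrArg (· ^ N) (hstab σ hσ).symm
      rw [h3]
      exact Ideal.smul_mem_pointwise_smul σ b _ h2
  have hint2 : ∀ σ ∈ P.inertia (K ≃ₐ[k] K), ∀ b : B, w.intValuation (σ • b) = w.intValuation b := by
    intro σ hσ b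
    refine le_antisymm (hint1 σ hσ b) ?_
    have h1 := hint1 σ⁻¹ (inv_mem hσ) (σ • b)
    rwa [inv_smul_smul] at h1
  have hWσB : ∀ σ ∈ P.inertia (K ≃ₐ[k] K), ∀ b : B, W (σ (b : K)) = W (b : K) := by
    intro σ hσ b
    have h1 : w.valuation K (algebraMap B K (σ • b)) = w.valuation K (algebraMap B K b) := by
      rw [w.valuation_of_algebraMap, w.valuation_of_algebraMap, hint2 σ hσ b]
    exact h1
  have hI1 : ∀ σ ∈ P.inertia (K ≃ₐ[k] K), ∀ x, W (σ x) = W x := by
    intro σ hσ x
    obtain ⟨a, b, hb, rfl⟩ := IsFractionRing.div_surjective (A := B) x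
    rw [map_div₀, map_div₀, map_div₀]
    have h1 := hWσB σ hσ a
    have h2 := hWσB σ hσ b
    have h3 : algebraMap B K a = (a : K) := rfl
    have h4 : algebraMap B K b = (b : K) := rfl
    rw [h3, h4, h1, h2]
  have hI2 : ∀ σ ∈ P.inertia (K ≃ₐ[k] K), ∀ x, W x ≤ 1 → W (σ x - x) < 1 := by
    intro σ hσ x hx
    obtain ⟨a, ⟨d, hd⟩, hxd⟩ := w.exists_primeCompl_mul_eq_of_integer x hx
    have hd1 : W (d : K) = 1 := by
      refine le_antisymm (hWB d) ?_
      rw [← not_lt, hWP]
      exact hd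
    have hσd1 : W (σ (d : K)) = 1 := by rw [hI1 σ hσ]; exact hd1
    have hxd' : x * (d : K) = (a : K) := hxd
    have h1 : (σ x - x) * (σ (d : K) * (d : K)) =
        ((((σ • a - a) * d - a * (σ • d - d) : B)) : K) := by
      have h2 : σ x * σ (d : K) = σ (a : K) := by rw [← map_mul, hxd']
      have h3 : ((((σ • a - a) * d - a * (σ • d - d) : B)) : K) =
        (σ (a : K) - (a : K)) * (d : K) - (a : K) * (σ (d : K) - (d : K)) := rfl
      rw [h3]
      linear_combination (d : K) * h2 - σ (d : K) * hxd'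
    have h4 : W ((((σ • a - a) * d - a * (σ • d - d) : B)) : K) < 1 := by
      rw [hWP]
      refine sub_mem (Ideal.mul_mem_right _ _ (hσ a)) (Ideal.mul_mem_left _ _ (hσ d))
    rw [← h1, map_mul, map_mul, hσd1, hd1, mul_one, mul_one] at h4
    exact h4
  have hσev : ∀ (σ : K ≃ₐ[k] K) (p : R[X]) (x : K), (p.map (algebraMap R K)).eval (σ x) =
      σ ((p.map (algebraMap R K)).eval x) := by
    intro σ p x
    have h1 : (σ : K →+* K).comp (algebraMap R K) = algebraMap R K := by
      ext r
      change σ (algebraMap R K r) = algebraMap R K r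
      rw [IsScalarTower.algebraMap_apply R k K]
      exact σ.commutes _
    have h3 := Polynomial.hom_eval₂ p (algebraMap R K) (σ : K →+* K) x
    rw [h1] at h3
    rw [eval_map, eval_map]
    exact h3.symm
  -- the numerical conditions
  have hgm' : W (((g.map ι).natDegree : ℕ) : K) = 1 := by
    rw [hg.natDegree_map]
    refine le_antisymm (by simpa using hWR (g.natDegree : R)) ?_
    rw [← not_lt]
    intro h1
    apply hgm
    have h2 : q (ι (g.natDegree : R)) = 0 := by
      rw [hq]
      have h3 : ((ι (g.natDegree : R) : W.integer) : K) = (g.natDegree : K) := by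
        have h4 : ((ι (g.natDegree : R) : W.integer) : K) = algebraMap R K (g.natDegree : R) := rfl
        rw [h4, map_natCast]
      rw [h3]
      exact h1
    have h5 : ψ (IsLocalRing.residue R (g.natDegree : R)) = 0 := h2
    rw [map_eq_zero, map_natCast] at h5
    exact h5
  have hcoefn : (D.map (IsLocalRing.residue R)).coeff n ≠ 0 := by
    rw [coeff_map, Ne, IsLocalRing.residue_eq_zero_iff]
    exact hlc3
  have hdegn : (D.map (IsLocalRing.residue R)).natDegree = n := by
    apply natDegree_eq_of_le_of_coeff_ne_zero _ hcoefn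
    rw [natDegree_le_iff_coeff_eq_zero]
    intro N hN
    rcases Nat.lt_or_ge (n + 1) N with h1 | h1
    · rw [coeff_map, coeff_eq_zero_of_natDegree_lt (by omega), map_zero]
    · have h2 : N = n + 1 := by omega
      rw [h2, coeff_map, IsLocalRing.residue_eq_zero_iff, ← hn]
      exact hlc1
  have hAcard : A.card = n + 1 := by
    have h1 := congrArg natDegree hDA
    rw [natDegree_map_eq_of_injective hinjK, hn, natDegree_C_mul
      ((map_ne_zero_iff _ hinjK).mpr hlc0), natDegree_prod_of_monic _ _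
      fun α _ => monic_X_sub_C _] at h1
    simpa using h1.symm
  have hfin : Finite (P.inertia (K ≃ₐ[k] K)) := inferInstance
  obtain ⟨α₀, hα₀, h⟩ := exists_cycle_auxT (q := q) (k := k) hq (P.inertia (K ≃ₐ[k] K)) hI1 hI2 he0
    he (g := g.map ι) (D := D.map ι) (hg.map _) hgm' (S := S) (A := A) ha
    (by rw [hιmap]; exact hDA) hAcard
    (by rw [hψmap, natDegree_map]; exact hdegn)
    (by
      rw [coeff_map]
      have h2 : q (ι (D.coeff n)) = ψ (IsLocalRing.residue R (D.coeff n)) := rfl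
      rw [h2, Ne, map_eq_zero, IsLocalRing.residue_eq_zero_iff]
      exact hlc3)
    (by rw [hιmap]; exact hgS)
    (by
      rw [← Polynomial.map_comp, hψmap, Polynomial.map_comp]
      exact hsep.map)
    (fun σ _ x => by rw [hιmap]; exact hσev σ g x)
    (fun σ _ x => by rw [hιmap]; exact hσev σ D x)
    (fun σ _ hσ => hgen σ hσ)
    (by rw [hιmap]; exact hSA)
  rw [hιmap] at h
  refine ⟨α₀, hα₀, (Set.toFinite ((P.inertia (K ≃ₐ[k] K) : Subgroup (K ≃ₐ[k] K)) :
    Set (K ≃ₐ[k] K))).toFinset, fun x hx y hy hxα hyα => ?_, fun σ hσ b hb hb' => ?_⟩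
  · obtain ⟨σ, hσ, h1, h2⟩ := h.1 x hx y hy hxα hyα
    refine ⟨σ, (Set.Finite.mem_toFinset _).mpr hσ, h1, fun τ hτ hτy => ?_⟩
    exact h2 τ ((Set.Finite.mem_toFinset _).mp hτ) hτy
  · exact h.2 σ ((Set.Finite.mem_toFinset _).mp hσ) b hb hb'

end Main

end Pool.Agent.Lib.MP_89bcae_ag

end

section

/-!
# The transposition attached to a simple collision
-/

open Polynomial IsDedekindDomain WithZero

open scoped Classical Pointwise

namespace Pool.Agent.Lib.MP_89bcae_ag

set_option linter.style.haveILetI false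
set_option linter.unusedSectionVars false

/-- The automorphism of the splitting field attached to a simple collision: it exchanges the two
colliding roots of `D` and fixes the others. -/
theorem exists_swap7 {R k K : Type*} [CommRing R] [IsDomain R] [IsDiscreteValuationRing R] [Field k]
    [Algebra R k] [IsFractionRing R k] [Field K] [Algebra k K] [Algebra R K] [IsScalarTower R k K]
    [FiniteDimensional k K] [IsGalois k K] (h2 : IsUnit (2 : R)) {g D : R[X]}
    (hgdeg : g.natDegree ≠ 0) (hg : g.Monic) (hlc : IsUnit D.leadingCoeff) (S A : Finset K)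
    (hDA : D.map (algebraMap R K) =
      C (algebraMap R K D.leadingCoeff) * ∏ α ∈ A, (X - C α))
    (hgS : ∀ α ∈ A, g.map (algebraMap R K) - C α =
      ∏ b ∈ S.filter (fun b => (g.map (algebraMap R K)).eval b = α), (X - C b))
    (hSA : ∀ b ∈ S, (g.map (algebraMap R K)).eval b ∈ A)
    (hgen : ∀ σ : K ≃ₐ[k] K, (∀ b ∈ S, σ b = b) → σ = 1) (hcol : IsCollision7 g D) :
    ∃ (σ : K ≃ₐ[k] K) (α₁ α₂ : K), α₁ ∈ A ∧ α₂ ∈ A ∧ α₁ ≠ α₂ ∧ σ α₁ = α₂ ∧ σ α₂ = α₁ ∧
      ∀ α ∈ A, α ≠ α₁ → α ≠ α₂ → σ α = α := by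
  obtain ⟨a, h, hDred, hsepc, hDa⟩ := hcol
  -- the integral closure
  set B := integralClosure R K with hB
  haveI : IsDedekindDomain B := integralClosure.isDedekindDomain R k K
  haveI : Module.Finite R B := IsIntegralClosure.finite R k K B
  haveI : IsFractionRing B K := integralClosure.isFractionRing_of_finite_extension k K
  haveI : SMulCommClass (K ≃ₐ[k] K) R K := ⟨fun σ r x => by
    rw [AlgEquiv.smul_def, AlgEquiv.smul_def, Algebra.smul_def, Algebra.smul_def, map_mul,
      IsScalarTower.algebraMap_apply R k K, AlgEquiv.commutes]⟩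
  haveI : IsGaloisGroup (K ≃ₐ[k] K) R B := IsGaloisGroup.of_isFractionRing _ _ _ k K
  have hinjK : Function.Injective (algebraMap R K) := by
    rw [IsScalarTower.algebraMap_eq R k K]
    exact (algebraMap k K).injective.comp (IsFractionRing.injective R k)
  have hinjB : Function.Injective (algebraMap B K) := Subtype.val_injective
  haveI : FaithfulSMul R B := by
    rw [faithfulSMul_iff_algebraMap_injective]
    intro x y hxy
    exact hinjK (congrArg (algebraMap B K) hxy)
  haveI : Module.IsTorsionFree R B := inferInstance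
  haveI : Module.Flat R B := inferInstance
  let v : HeightOneSpectrum R := IsDiscreteValuationRing.maximalIdeal R
  have hvmax : v.asIdeal.IsMaximal := v.isMaximal
  obtain ⟨P, hPmax, hPv⟩ := Ideal.exists_maximal_ideal_liesOver_of_isIntegral (S := B) v.asIdeal
  have hP0 : P ≠ ⊥ := Ideal.ne_bot_of_liesOver_of_ne_bot v.ne_bot P
  let w : HeightOneSpectrum B := ⟨P, hPmax.isPrime, hP0⟩
  have hwv : w.asIdeal.LiesOver v.asIdeal := hPv
  -- the ramification index
  have he : v.asIdeal.ramificationIdx' w.asIdeal ≤ Nat.card (P.inertia (K ≃ₐ[k] K)) := by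
    rw [Ideal.ramificationIdx'_eq_ramificationIdx v.asIdeal w.asIdeal v.ne_bot]
    exact ramificationIdx_le_card_inertia7 v.asIdeal P
  -- the residue field
  letI : Field (B ⧸ P) := Ideal.Quotient.field P
  set q : B →+* B ⧸ P := Ideal.Quotient.mk P with hq
  have hq0 : ∀ x : B, q x = 0 ↔ x ∈ P := fun x => Ideal.Quotient.eq_zero_iff_mem
  have hmP : ∀ r : R, r ∈ IsLocalRing.maximalIdeal R → q (algebraMap R B r) = 0 := by
    intro r hr
    rw [hq0]
    have h1 : r ∈ Ideal.comap (algebraMap R B) P := by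
      rw [← Ideal.under_def, ← hPv.over]
      exact hr
    exact h1
  let ψ : IsLocalRing.ResidueField R →+* B ⧸ P :=
    Ideal.Quotient.lift (IsLocalRing.maximalIdeal R) (q.comp (algebraMap R B)) hmP
  have hψ : ∀ r : R, ψ (IsLocalRing.residue R r) = q (algebraMap R B r) := fun r => rfl
  have hψc : ψ.comp (IsLocalRing.residue R) = q.comp (algebraMap R B) := RingHom.ext hψ
  have hu2 : q (2 : B) ≠ 0 := by
    have h1 := (h2.map (algebraMap R B)).map q
    rw [map_ofNat] at h1
    exact h1.ne_zero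
  have hulc : q (algebraMap R B D.leadingCoeff) ≠ 0 := ((hlc.map (algebraMap R B)).map q).ne_zero
  -- integrality of the roots
  have hAroot : ∀ α ∈ A, aeval α D = 0 := by
    intro α hα
    rw [← eval_map_algebraMap, hDA, eval_mul, eval_prod, Finset.prod_eq_zero hα (by simp), mul_zero]
  have hAint : ∀ α ∈ A, IsIntegral R α := fun α hα => integral_root7 hlc (hAroot α hα)
  have hSint : ∀ b ∈ S, IsIntegral R b := by
    intro b hb
    have h1 := hAroot _ (hSA b hb)
    refine integral_root7 (f := D.comp g) ?_ (x := b) ?_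
    · rw [leadingCoeff_comp hgdeg, hg.leadingCoeff, one_pow, mul_one]
      exact hlc
    · rw [aeval_comp, ← eval_map_algebraMap g b]
      exact h1
  have hval : ∀ x : K, IsIntegral R x → w.valuation K x ≤ 1 := fun x hx =>
    w.valuation_le_one (⟨x, hx⟩ : B)
  have hval1 : ∀ (x : K) (hx : IsIntegral R x), w.valuation K x < 1 ↔ q ⟨x, hx⟩ = 0 := fun x hx => by
    rw [hq0]
    exact w.valuation_lt_one_iff_mem (⟨x, hx⟩ : B)
  have hval2 : ∀ (x : K) (hx : IsIntegral R x), w.valuation K x = 1 ↔ q ⟨x, hx⟩ ≠ 0 := fun x hx => by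
    rw [Ne, ← hval1 x hx, not_lt]
    exact ⟨fun h => h.ge, fun h => le_antisymm (hval x hx) h⟩
  -- the reductions of the roots
  let β : K → B := fun x => if hx : IsIntegral R x then ⟨x, hx⟩ else 0
  have hβ : ∀ x, IsIntegral R x → algebraMap B K (β x) = x := by
    intro x hx
    have h1 : β x = ⟨x, hx⟩ := dif_pos hx
    rw [h1]
    rfl
  have hβv1 : ∀ x, IsIntegral R x → (w.valuation K x < 1 ↔ q (β x) = 0) := by
    intro x hx
    have h1 : β x = ⟨x, hx⟩ := dif_pos hx
    rw [h1]
    exact hval1 x hx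
  have hβv2 : ∀ x, IsIntegral R x → (w.valuation K x = 1 ↔ q (β x) ≠ 0) := by
    intro x hx
    have h1 : β x = ⟨x, hx⟩ := dif_pos hx
    rw [h1]
    exact hval2 x hx
  have hβsub : ∀ x y, IsIntegral R x → IsIntegral R y → β (x - y) = β x - β y := by
    intro x y hx hy
    apply hinjB
    rw [map_sub, hβ _ (hx.sub hy), hβ x hx, hβ y hy]
  have hDB : D.map (algebraMap R B) = C (algebraMap R B D.leadingCoeff) *
      ∏ α ∈ A, (X - C (β α)) := by
    apply map_prod_red7 hinjB (fun α hα => hβ α (hAint α hα))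
    rw [Polynomial.map_map]
    exact hDA
  have hgB : ∀ α ∈ A, g.map (algebraMap R B) - C (β α) =
      ∏ b ∈ S.filter (fun b => (g.map (algebraMap R K)).eval b = α), (X - C (β b)) := by
    intro α hα
    have h1 := map_prod_red7 (p := g.map (algebraMap R B) - C (β α)) (c := 1)
      (T := S.filter (fun b => (g.map (algebraMap R K)).eval b = α)) hinjB
      (fun b hb => hβ b (hSint b (Finset.mem_filter.mp hb).1)) (by
        rw [Polynomial.map_sub, Polynomial.map_map, map_C, hβ α (hAint α hα), map_one, C_1, one_mul]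
        exact hgS α hα)
    rw [C_1, one_mul] at h1
    exact h1
  -- the reductions
  set ā := ψ (IsLocalRing.residue R a) with hā
  set h₁ : (B ⧸ P)[X] := ((X - C (IsLocalRing.residue R a)) * h).map ψ with hh₁
  set gκ : (B ⧸ P)[X] := (g.map (IsLocalRing.residue R)).map ψ with hgκ
  have hgκ' : gκ = (g.map (algebraMap R B)).map q := by
    rw [hgκ, Polynomial.map_map, Polynomial.map_map, hψc]
  have hsep2 : (h₁.comp gκ).Separable := by
    have h1 := hsepc.map (f := ψ)
    rw [Polynomial.map_comp] at h1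
    exact h1
  have hgκdeg : gκ.natDegree ≠ 0 := by
    rw [hgκ, natDegree_map, hg.natDegree_map]
    exact hgdeg
  have hsep1 : h₁.Separable := separable_left7 hgκdeg hsep2
  have hh₁a : h₁.eval ā = 0 := by
    rw [hh₁, Polynomial.map_mul, Polynomial.map_sub, map_X, map_C, eval_mul, eval_sub, eval_X,
      eval_C, sub_self, zero_mul]
  have hDκ : C (q (algebraMap R B D.leadingCoeff)) * ∏ α ∈ A, (X - C (q (β α))) =
      (X - C ā) * h₁ := by
    have h1 := congrArg (Polynomial.map q) hDB
    rw [map_prod_red7', Polynomial.map_map, ← hψc, ← Polynomial.map_map, hDred] at h1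
    rw [← h1, hh₁, Polynomial.map_mul, Polynomial.map_mul, Polynomial.map_pow, Polynomial.map_sub,
      map_X, map_C]
    ring
  obtain ⟨hA1, hA2, hA3⟩ := res_roots7 hulc hsep1 hh₁a hDκ
  have hfib : ∀ b ∈ S, ∀ c ∈ S, b ≠ c → (g.map (algebraMap R K)).eval b =
        (g.map (algebraMap R K)).eval c → q (β b) ≠ q (β c) := by
    intro b hb c hc hbc hgbc
    have h1 := congrArg (Polynomial.map q) (hgB _ (hSA b hb))
    rw [Polynomial.map_sub, map_C, ← hgκ', Polynomial.map_prod] at h1
    simp only [Polynomial.map_sub, map_X, map_C] at h1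
    exact res_fibre7 hsep2 (hA3 _ (hSA b hb)) h1 b (Finset.mem_filter.mpr ⟨hb, rfl⟩) c
      (Finset.mem_filter.mpr ⟨hc, hgbc.symm⟩) hbc
  obtain ⟨α₁, α₂, h12, hfil⟩ := Finset.card_eq_two.mp hA2
  have hm1 : α₁ ∈ A ∧ q (β α₁) = ā := by
    have h3 : α₁ ∈ A.filter fun α => q (β α) = ā := by rw [hfil]; simp
    exact Finset.mem_filter.mp h3
  have hm2 : α₂ ∈ A ∧ q (β α₂) = ā := by
    have h3 : α₂ ∈ A.filter fun α => q (β α) = ā := by rw [hfil]; simp
    exact Finset.mem_filter.mp h3
  have hmem12 : ∀ α ∈ A, q (β α) = ā → α = α₁ ∨ α = α₂ := by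
    intro α hα h1
    have h3 : α ∈ A.filter fun α => q (β α) = ā := Finset.mem_filter.mpr ⟨hα, h1⟩
    rw [hfil] at h3
    simpa using h3
  -- the inertia group
  have hAmem : ∀ α : K, (D.map (algebraMap R K)).eval α = 0 → α ∈ A := by
    intro α hα
    rw [hDA, eval_mul, eval_C, eval_prod, mul_eq_zero] at hα
    rcases hα with hα | hα
    · exact absurd (hinjK (hα.trans (map_zero _).symm)) hlc.ne_zero
    · obtain ⟨α', h1, h3⟩ := Finset.prod_eq_zero_iff.mp hα
      rw [eval_sub, eval_X, eval_C, sub_eq_zero] at h3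
      rw [h3]
      exact h1
  have hSmem : ∀ b : K, (g.map (algebraMap R K)).eval b ∈ A → b ∈ S := by
    intro b hb
    have h1 := congrArg (eval b) (hgS _ hb)
    rw [eval_sub, eval_C, sub_self, eval_prod, eq_comm] at h1
    obtain ⟨b', h3, h4⟩ := Finset.prod_eq_zero_iff.mp h1
    rw [eval_sub, eval_X, eval_C, sub_eq_zero] at h4
    rw [h4]
    exact (Finset.mem_filter.mp h3).1
  have hσev : ∀ (σ : K ≃ₐ[k] K) (p : R[X]) (x : K), (p.map (algebraMap R K)).eval (σ x) =
      σ ((p.map (algebraMap R K)).eval x) := by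
    intro σ p x
    have h1 : (σ : K →+* K).comp (algebraMap R K) = algebraMap R K := by
      ext r
      change σ (algebraMap R K r) = algebraMap R K r
      rw [IsScalarTower.algebraMap_apply R k K]
      exact σ.commutes _
    have h3 := Polynomial.hom_eval₂ p (algebraMap R K) (σ : K →+* K) x
    rw [h1] at h3
    rw [eval_map, eval_map]
    exact h3.symm
  have hσA : ∀ (σ : K ≃ₐ[k] K), ∀ α ∈ A, σ α ∈ A := by
    intro σ α hα
    apply hAmem
    rw [hσev, hDA, eval_mul, eval_prod, Finset.prod_eq_zero hα (by simp), mul_zero, map_zero]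
  have hσS : ∀ (σ : K ≃ₐ[k] K), ∀ b ∈ S, σ b ∈ S := by
    intro σ b hb
    apply hSmem
    rw [hσev]
    exact hσA σ _ (hSA b hb)
  have hσint : ∀ (σ : K ≃ₐ[k] K) (x : K), IsIntegral R x → IsIntegral R (σ x) := by
    intro σ x hx
    exact hx.map (σ.restrictScalars R)
  have hine : ∀ σ ∈ P.inertia (K ≃ₐ[k] K), ∀ x : K, IsIntegral R x → q (β (σ x)) = q (β x) := by
    intro σ hσ x hx
    have h1 : σ • (β x) - β x ∈ P := hσ (β x)
    have h3 : σ • (β x) = β (σ x) := by
      apply hinjB
      rw [hβ _ (hσint σ x hx)]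
      change σ ((β x : B) : K) = σ x
      congr 1
      exact hβ x hx
    rw [h3, ← hq0, map_sub, sub_eq_zero] at h1
    exact h1
  have hine1 : ∀ σ ∈ P.inertia (K ≃ₐ[k] K), σ α₁ = α₁ → σ = 1 := by
    intro σ hσ h1
    apply hgen
    intro b hb
    by_contra hne
    have h3 := hine σ hσ b (hSint b hb)
    by_cases h4 : (g.map (algebraMap R K)).eval (σ b) = (g.map (algebraMap R K)).eval b
    · exact hfib _ (hσS σ b hb) b hb hne h4 h3
    · rw [hσev] at h4
      have hα := hSA b hb
      have h5 := hine σ hσ _ (hAint _ hα)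
      have h6 := hA1 _ (hσA σ _ hα) _ hα h4 h5
      have h7 := hmem12 _ (hσA σ _ hα) h6
      have h8 := hmem12 _ hα (h5 ▸ h6)
      rcases h8 with h8 | h8
      · rw [h8] at h4
        exact h4 h1
      · rw [h8] at h4 h7
        rcases h7 with h7 | h7
        · exact h12 (σ.injective (h1.trans h7.symm))
        · exact h4 h7
  have hcard : Nat.card (P.inertia (K ≃ₐ[k] K)) ≤ 2 := by
    have h1 : Function.Injective (fun σ : P.inertia (K ≃ₐ[k] K) =>
        (⟨(σ : K ≃ₐ[k] K) α₁, by
          have h3 := hine σ σ.2 α₁ (hAint _ hm1.1)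
          have h4 := hmem12 _ (hσA σ _ hm1.1) (h3.trans hm1.2)
          simpa using h4⟩ : ({α₁, α₂} : Finset K))) := by
      intro σ τ hστ
      have h3 : (σ : K ≃ₐ[k] K) α₁ = (τ : K ≃ₐ[k] K) α₁ := congrArg Subtype.val hστ
      have h4 : (τ⁻¹ * σ : P.inertia (K ≃ₐ[k] K)) = 1 := by
        apply Subtype.ext
        apply hine1 _ (τ⁻¹ * σ).2
        change (τ : K ≃ₐ[k] K).symm ((σ : K ≃ₐ[k] K) α₁) = α₁
        rw [h3, AlgEquiv.symm_apply_apply]
      exact (inv_mul_eq_one.mp h4).symm
    have h3 := Nat.card_le_card_of_injective _ h1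
    rw [Nat.card_eq_fintype_card (α := ({α₁, α₂} : Finset K)), Fintype.card_coe] at h3
    exact h3.trans Finset.card_le_two
  set e := v.asIdeal.ramificationIdx' w.asIdeal with hedef
  have he2 : e ≤ 2 := he.trans hcard
  -- the valuations of `D(a)` and `D'(a)`
  have hWk : ∀ r : R, w.valuation K (algebraMap R K r) = v.intValuation r ^ e := by
    intro r
    have h1 := HeightOneSpectrum.valuation_liesOver K v w (algebraMap R k r)
    rw [← IsScalarTower.algebraMap_apply] at h1
    rw [← h1]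
    congr 1
    exact HeightOneSpectrum.valuation_of_algebraMap (K := k) v r
  have hDa1 : D.eval a ∈ IsLocalRing.maximalIdeal R := by
    rw [← IsLocalRing.residue_eq_zero_iff, ← eval₂_at_apply, ← eval_map, hDred]
    simp
  have hDa2 : (derivative D).eval a ∈ IsLocalRing.maximalIdeal R := by
    rw [← IsLocalRing.residue_eq_zero_iff, ← eval₂_at_apply, ← eval_map, ← derivative_map, hDred,
      derivative_mul, derivative_X_sub_C_sq]
    simp
  have hvm : ∀ (r : R) (n : ℕ), v.intValuation r ≤ exp (-(n : ℤ)) ↔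
      r ∈ IsLocalRing.maximalIdeal R ^ n := fun r n => v.intValuation_le_pow_iff_mem r n
  have hD0 : D.eval a ≠ 0 := by
    intro h0
    rw [h0] at hDa
    exact hDa (Ideal.zero_mem _)
  have hvD : v.intValuation (D.eval a) = exp (-1 : ℤ) := by
    have h1 := (hvm (D.eval a) 1).mpr (by rw [pow_one]; exact hDa1)
    have h3 : ¬ v.intValuation (D.eval a) ≤ exp (-((2 : ℕ) : ℤ)) := fun h4 =>
      hDa ((hvm (D.eval a) 2).mp h4)
    have h5 : v.intValuation (D.eval a) ≠ 0 := v.intValuation_ne_zero _ hD0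
    have h6 := exp_log h5
    rw [← h6] at h1 h3 ⊢
    rw [exp_le_exp] at h1 h3
    rw [exp_inj]
    push_cast at h1 h3
    omega
  have hvD' : v.intValuation ((derivative D).eval a) ≤ exp (-1 : ℤ) := by
    have h1 := (hvm ((derivative D).eval a) 1).mpr (by rw [pow_one]; exact hDa2)
    simpa using h1
  -- the factorisation of `D`
  set W := w.valuation K with hW
  have haint : IsIntegral R (algebraMap R K a) := isIntegral_algebraMap
  have hβa : β (algebraMap R K a) = algebraMap R B a := by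
    apply hinjB
    rw [hβ _ haint]
    rfl
  set A' := (A.erase α₁).erase α₂ with hA'
  have hA'A : ∀ α ∈ A', α ∈ A ∧ α ≠ α₁ ∧ α ≠ α₂ := by
    intro α hα
    rw [hA', Finset.mem_erase, Finset.mem_erase] at hα
    exact ⟨hα.2.2, hα.2.1, hα.1⟩
  have hsplit : ∀ f : K → K[X], ∏ α ∈ A, f α = f α₁ * (f α₂ * ∏ α ∈ A', f α) := by
    intro f
    rw [hA', Finset.mul_prod_erase (A.erase α₁) f (Finset.mem_erase.mpr ⟨h12.symm, hm2.1⟩),
      Finset.mul_prod_erase A f hm1.1]
  set D₁ : K[X] := C (algebraMap R K D.leadingCoeff) * ∏ α ∈ A', (X - C α) with hD₁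
  have hDD₁ : D.map (algebraMap R K) = (X - C α₁) * (X - C α₂) * D₁ := by
    rw [hDA, hsplit, hD₁]
    ring
  have hWint : ∀ x : K, IsIntegral R x → W x ≤ 1 := hval
  have hWlc : W (algebraMap R K D.leadingCoeff) = 1 := by
    have h1 := hWint _ (isIntegral_algebraMap (x := D.leadingCoeff) (R := R) (A := K))
    obtain ⟨u, hu⟩ := hlc
    have h3 := hWint _ (isIntegral_algebraMap (x := (↑u⁻¹ : R)) (R := R) (A := K))
    rw [← hu] at h1 ⊢
    have h4 : W (algebraMap R K u) * W (algebraMap R K ↑u⁻¹) = 1 := by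
      rw [← map_mul, ← map_mul, Units.mul_inv, map_one, map_one]
    refine le_antisymm h1 ?_
    rw [← h4]
    exact mul_le_of_le_one_right' h3
  have hWD₁ : W (D₁.eval (algebraMap R K a)) = 1 := by
    rw [hD₁, eval_mul, eval_C, map_mul, hWlc, one_mul, eval_prod, map_prod]
    refine Finset.prod_eq_one fun α hα => ?_
    obtain ⟨h1, h3, h4⟩ := hA'A α hα
    rw [eval_sub, eval_X, eval_C, hβv2 _ (haint.sub (hAint α h1)), hβsub _ _ haint (hAint α h1),
      map_sub, hβa, ← hψ, ← hā, sub_ne_zero]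
    intro h5
    rcases hmem12 α h1 h5.symm with h6 | h6
    · exact h3 h6
    · exact h4 h6
  have hWD₁' : W ((derivative D₁).eval (algebraMap R K a)) ≤ 1 := by
    have h1 : D₁ = (C (algebraMap R B D.leadingCoeff) * ∏ α ∈ A', (X - C (β α))).map
        (algebraMap B K) := by
      rw [hD₁, Polynomial.map_mul, map_C, Polynomial.map_prod]
      congr 1
      refine Finset.prod_congr rfl fun α hα => ?_
      rw [Polynomial.map_sub, map_X, map_C, hβ α (hAint α (hA'A α hα).1)]
    have h3 : algebraMap R K a = algebraMap B K (algebraMap R B a) := rfl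
    rw [h1, derivative_map, h3, eval_map, eval₂_at_apply]
    exact w.valuation_le_one _
  set y₁ := algebraMap R K a - α₁ with hy₁
  set y₂ := algebraMap R K a - α₂ with hy₂
  have hWy₁ : W y₁ < 1 := by
    rw [hy₁, hβv1 _ (haint.sub (hAint α₁ hm1.1)), hβsub _ _ haint (hAint α₁ hm1.1), map_sub, hβa,
      ← hψ, hm1.2, hā, sub_self]
  have hWy₂ : W y₂ < 1 := by
    rw [hy₂, hβv1 _ (haint.sub (hAint α₂ hm2.1)), hβsub _ _ haint (hAint α₂ hm2.1), map_sub, hβa,
      ← hψ, hm2.2, hā, sub_self]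
  have hprod : W y₁ * W y₂ = exp (-(e : ℤ)) := by
    have h1 : algebraMap R K (D.eval a) = y₁ * y₂ * D₁.eval (algebraMap R K a) := by
      rw [← eval₂_at_apply, ← eval_map, hDD₁, eval_mul, eval_mul, eval_sub, eval_sub, eval_X,
        eval_C, eval_C]
    have h3 := congrArg W h1
    rw [hWk, hvD, map_mul, map_mul, hWD₁, mul_one] at h3
    rw [← h3, ← exp_nsmul]
    simp
  have hy₁0 : W y₁ ≠ 0 := by
    intro h0
    rw [h0, zero_mul] at hprod
    exact exp_ne_zero hprod.symm
  have hy₂0 : W y₂ ≠ 0 := by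
    intro h0
    rw [h0, mul_zero] at hprod
    exact exp_ne_zero hprod.symm
  have hl : (W y₁ = exp (-1 : ℤ)) ∧ e = 2 := by
    have h1 := exp_log hy₁0
    have h3 := exp_log hy₂0
    rw [← h1] at hWy₁ hprod ⊢
    rw [← h3] at hWy₂ hprod
    rw [← exp_add, exp_inj] at hprod
    rw [← exp_zero, exp_lt_exp] at hWy₁ hWy₂
    rw [exp_inj]
    omega
  have hcard2 : 1 < Nat.card (P.inertia (K ≃ₐ[k] K)) := by
    have h1 := hl.2
    omega
  have hnt : Nontrivial (P.inertia (K ≃ₐ[k] K)) := by
    haveI : Finite (P.inertia (K ≃ₐ[k] K)) := Nat.finite_of_card_ne_zero (by omega)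
    exact (Finite.one_lt_card_iff_nontrivial).mp hcard2
  obtain ⟨σ, hσ1⟩ := exists_ne (1 : P.inertia (K ≃ₐ[k] K))
  have hσne : (σ : K ≃ₐ[k] K) α₁ ≠ α₁ := fun h => hσ1 (Subtype.ext (hine1 _ σ.2 h))
  have hres : ∀ α ∈ A, q (β ((σ : K ≃ₐ[k] K) α)) = q (β α) := fun α hα =>
    hine _ σ.2 α (hAint α hα)
  have hs1 : (σ : K ≃ₐ[k] K) α₁ = α₂ :=
    (hmem12 _ (hσA _ _ hm1.1) ((hres _ hm1.1).trans hm1.2)).resolve_left hσne
  have hs2 : (σ : K ≃ₐ[k] K) α₂ = α₁ := by
    refine (hmem12 _ (hσA _ _ hm2.1) ((hres _ hm2.1).trans hm2.2)).resolve_right fun h => ?_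
    exact h12 ((σ : K ≃ₐ[k] K).injective (hs1.trans h.symm))
  refine ⟨σ, α₁, α₂, hm1.1, hm2.1, h12, hs1, hs2, fun α hα h1 h3 => ?_⟩
  by_contra hne
  have h4 := hA1 _ (hσA (σ : K ≃ₐ[k] K) α hα) _ hα hne (hres α hα)
  rcases hmem12 _ hα ((hres α hα) ▸ h4) with h5 | h5
  · exact h1 h5
  · exact h3 h5

end Pool.Agent.Lib.MP_89bcae_ag

end

section

/-!
# The transposition attached to a simple collision, on an algebraic closure, and transitivity on
pairs over a normal extension
-/

open Polynomial IsDedekindDomain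

open scoped Classical

namespace Pool.Agent.Lib.MP_89bcae_ag

set_option linter.style.haveILetI false
set_option linter.unusedSectionVars false
set_option linter.unusedVariables false

universe u

/-- An automorphism of the algebraic closure which exchanges two roots of `D` and fixes the
others. -/
def HasSwap7 (k F : Type*) [Field k] [Field F] [Algebra k F] (D : k[X]) : Prop :=
  ∃ (σ : F ≃ₐ[k] F) (α₁ α₂ : F), aeval α₁ D = 0 ∧ aeval α₂ D = 0 ∧ α₁ ≠ α₂ ∧ σ α₁ = α₂ ∧
    σ α₂ = α₁ ∧ ∀ α : F, aeval α D = 0 → α ≠ α₁ → α ≠ α₂ → σ α = α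

/-- A simple collision gives a transposition. -/
theorem hasSwap_of_collision7 (R k : Type*) (F : Type u) [CommRing R] [IsDomain R]
    [IsDiscreteValuationRing R] [Field k]
    [Algebra R k] [IsFractionRing R k] [Field F] [Algebra k F] [IsAlgClosure k F]
    (h2 : IsUnit (2 : R)) {g D : R[X]}
    (hgdeg : g.natDegree ≠ 0) (hg : g.Monic) (hlc : IsUnit D.leadingCoeff)
    (hcol : IsCollision7 g D) (hsep : ((D.comp g).map (algebraMap R k)).Separable) :
    HasSwap7 k F (D.map (algebraMap R k)) := by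
  have hF : IsAlgClosed F := IsAlgClosure.isAlgClosed k
  have hkF : Algebra.IsAlgebraic k F := IsAlgClosure.isAlgebraic
  letI : Algebra R F := ((algebraMap k F).comp (algebraMap R k)).toAlgebra
  haveI : IsScalarTower R k F := IsScalarTower.of_algebraMap_eq fun _ => rfl
  have hinjk : Function.Injective (algebraMap R k) := IsFractionRing.injective R k
  have hinjF : Function.Injective (algebraMap R F) := (algebraMap k F).injective.comp hinjk
  have hmapF : ∀ p : R[X], (p.map (algebraMap R k)).map (algebraMap k F) =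
      p.map (algebraMap R F) := fun p => by rw [Polynomial.map_map]; rfl
  have hlcF' : (D.map (algebraMap R F)).leadingCoeff = algebraMap R F D.leadingCoeff :=
    leadingCoeff_map_of_injective hinjF D
  have hcompF : (D.map (algebraMap R F)).comp (g.map (algebraMap R F)) =
      ((D.comp g).map (algebraMap R k)).map (algebraMap k F) := by
    rw [hmapF, Polynomial.map_comp]
  have hsepF : ((D.map (algebraMap R F)).comp (g.map (algebraMap R F))).Separable := by
    rw [hcompF]; exact hsep.map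
  have hgF : (g.map (algebraMap R F)).natDegree ≠ 0 := by rwa [hg.natDegree_map]
  have hsepD : (D.map (algebraMap R F)).Separable := separable_left7 hgF hsepF
  set gF := g.map (algebraMap R F) with hgFdef
  set DF := D.map (algebraMap R F) with hDFdef
  set S : Finset F := (DF.comp gF).roots.toFinset with hS
  set A : Finset F := DF.roots.toFinset with hA
  have hmemS : ∀ b, b ∈ S ↔ DF.eval (gF.eval b) = 0 := by
    intro b
    rw [hS, Multiset.mem_toFinset, mem_roots hsepF.ne_zero, IsRoot.def, eval_comp]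
  have hmemA : ∀ α, α ∈ A ↔ DF.eval α = 0 := by
    intro α
    rw [hA, Multiset.mem_toFinset, mem_roots hsepD.ne_zero, IsRoot.def]
  have hSA : ∀ b ∈ S, gF.eval b ∈ A := fun b hb => (hmemA _).mpr ((hmemS b).mp hb)
  have hDA : DF = C (algebraMap R F D.leadingCoeff) * ∏ α ∈ A, (X - C α) := by
    rw [← hlcF']
    exact eq_prod_roots7 hsepD
  have hgS : ∀ α ∈ A, gF - C α = ∏ b ∈ S.filter (fun b => gF.eval b = α), (X - C b) := by
    intro α hα
    have h1 : (gF - C α) ∣ DF.comp gF := by
      obtain ⟨w, hw⟩ := dvd_iff_isRoot.mpr ((hmemA α).mp hα)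
      refine ⟨w.comp gF, ?_⟩
      rw [hw, mul_comp, sub_comp, X_comp, C_comp]
    have h3 := eq_prod_roots7 (hsepF.of_dvd h1)
    have h4 : (gF - C α).Monic := by
      have h5 : (C α).degree < gF.degree := by
        rw [degree_eq_natDegree (p := gF) (fun h => hgF (by rw [h, natDegree_zero]))]
        exact (degree_C_le).trans_lt (by exact_mod_cast Nat.pos_of_ne_zero hgF)
      exact (hg.map _).sub_of_left h5
    rw [h4.leadingCoeff, C_1, one_mul] at h3
    rw [h3]
    congr 1
    ext b
    rw [Finset.mem_filter, Multiset.mem_toFinset, mem_roots h4.ne_zero, IsRoot.def, eval_sub,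
      eval_C, sub_eq_zero, hmemS]
    constructor
    · exact fun h => ⟨by rw [h]; exact (hmemA α).mp hα, h⟩
    · exact fun h => h.2
  have hAS : ∀ α ∈ A, ∃ b ∈ S, gF.eval b = α := by
    intro α hα
    have h1 : (gF - C α).degree ≠ 0 := by
      intro h4
      have h3 : (gF - C α).natDegree = gF.natDegree := natDegree_sub_C
      rw [natDegree_eq_of_degree_eq_some h4] at h3
      exact hgF h3.symm
    obtain ⟨b, hb⟩ := IsAlgClosed.exists_root _ h1
    rw [IsRoot.def, eval_sub, eval_C, sub_eq_zero] at hb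
    exact ⟨b, (hmemS b).mpr (by rw [hb]; exact (hmemA α).mp hα), hb⟩
  have hSroot : (S : Set F) = ((D.comp g).map (algebraMap R k)).rootSet F := by
    rw [rootSet, hS, hcompF, aroots]
  obtain ⟨hfin, hgal⟩ := galois7 (F := F) hsep
  obtain ⟨K, hK⟩ : ∃ K, K = IntermediateField.adjoin k (S : Set F) := ⟨_, rfl⟩
  haveI : FiniteDimensional k K := by rw [hK, hSroot]; exact hfin
  haveI : IsGalois k K := by rw [hK, hSroot]; exact hgal
  have hSK : ∀ b ∈ S, b ∈ K := by
    intro b hb
    rw [hK]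
    exact IntermediateField.subset_adjoin _ _ hb
  have hRK : ∀ r : R, algebraMap R F r ∈ K := by
    intro r
    rw [IsScalarTower.algebraMap_apply R k F]
    exact K.algebraMap_mem _
  have hgK : ∀ b ∈ K, gF.eval b ∈ K := by
    intro b hb
    rw [hgFdef, eval_map, eval₂_eq_sum_range]
    exact K.sum_mem fun i _ => K.mul_mem (hRK _) (pow_mem hb i)
  have hAK : ∀ α ∈ A, α ∈ K := by
    intro α hα
    obtain ⟨b, hb, rfl⟩ := hAS α hα
    exact hgK b (hSK b hb)
  have hcomp : (algebraMap K F).comp (algebraMap R K) = algebraMap R F := RingHom.ext fun r => rfl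
  have hinj : Function.Injective (Polynomial.map (algebraMap K F)) :=
    Polynomial.map_injective _ (algebraMap K F).injective
  have hev : ∀ b : K, (((g.map (algebraMap R K)).eval b : K) : F) = gF.eval (b : F) := by
    intro b
    rw [hgFdef, ← hcomp, ← Polynomial.map_map, eval_map (algebraMap K F)]
    exact (eval₂_at_apply (algebraMap K F) b).symm
  obtain ⟨σ, α₁, α₂, hα₁, hα₂, h12, hs1, hs2, hfix⟩ := exists_swap7 (k := k) (K := K) h2 hgdeg hg hlc
    (S.subtype (· ∈ K)) (A.subtype (· ∈ K)) (by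
      apply hinj
      rw [Polynomial.map_map, hcomp, ← hDFdef, hDA, Polynomial.map_mul, map_C, Polynomial.map_prod]
      congr 1
      have h1 := prod_subtype7 (· ∈ K) A hAK (fun _ => True) (fun _ => True) (fun _ => Iff.rfl)
        (fun b => (X - C b : F[X]))
      rw [Finset.filter_true, Finset.filter_true] at h1
      rw [← h1]
      refine Finset.prod_congr rfl fun b _ => ?_
      rw [Polynomial.map_sub, map_X, map_C]
      rfl) (by
      intro α hα
      apply hinj
      rw [Polynomial.map_sub, Polynomial.map_map, hcomp, map_C, Polynomial.map_prod]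
      rw [Finset.mem_subtype] at hα
      have h1 := prod_subtype7 (· ∈ K) S hSK (fun b => (g.map (algebraMap R K)).eval b = α)
        (fun b => gF.eval b = (α : F))
        (fun b => by rw [← hev, Subtype.coe_inj]) (fun b => (X - C b : F[X]))
      refine (hgS α hα).trans (h1.symm.trans ?_)
      refine Finset.prod_congr rfl fun b _ => ?_
      rw [Polynomial.map_sub, map_X, map_C]
      rfl) (by
      intro b hb
      rw [Finset.mem_subtype] at hb ⊢
      rw [hev]
      exact hSA b hb) (by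
      intro σ hσ
      subst hK
      ext x
      have h1 : (σ : _ ≃ₐ[k] _).toAlgHom = AlgHom.id k _ := by
        apply IntermediateField.algHom_ext_of_eq_adjoin _ rfl
        intro y hy
        exact hσ ⟨y, IntermediateField.subset_adjoin _ _ hy⟩ (Finset.mem_subtype.mpr hy)
      exact congrArg Subtype.val (congrArg (fun f => f x) h1)) hcol
  rw [Finset.mem_subtype] at hα₁ hα₂
  have hevD : ∀ b : F, aeval b (D.map (algebraMap R k)) = DF.eval b := by
    intro b
    rw [← eval_map_algebraMap, hmapF]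
  obtain ⟨τ, hτ⟩ := AlgEquiv.restrictNormalHom_surjective (F := k) (K₁ := K) F σ
  have hτK : ∀ z : K, τ z = (σ z : K) := by
    intro z
    rw [← hτ]
    exact (AlgEquiv.restrictNormal_commutes τ K z).symm
  refine ⟨τ, α₁, α₂, by rw [hevD]; exact (hmemA _).mp hα₁, by rw [hevD]; exact (hmemA _).mp hα₂,
    fun h => h12 (Subtype.ext h), by rw [hτK, hs1], by rw [hτK, hs2], fun α hα h1 h3 => ?_⟩
  rw [hevD] at hα
  have hαA : α ∈ A := (hmemA _).mpr hα
  have h4 := hτK ⟨α, hAK α hαA⟩
  rw [hfix ⟨α, hAK α hαA⟩ (Finset.mem_subtype.mpr hαA) (fun h => h1 (congrArg Subtype.val h))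
    (fun h => h3 (congrArg Subtype.val h))] at h4
  exact h4

/-- **Transitivity on pairs over a normal extension** `K/k`, from the same over `k` and one
transposition over `K`. -/
theorem isPairTransitive_of_swap7 {k K F : Type*} [Field k] [Field K] [Field F] [Algebra k K]
    [Algebra K F] [Algebra k F] [IsScalarTower k K F] [Normal k K] {D : k[X]}
    (hX : IsPairTransitive7 k F X D) (hs : HasSwap7 K F (D.map (algebraMap k K))) :
    IsPairTransitive7 K F X (D.map (algebraMap k K)) := by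
  obtain ⟨σ, α₁, α₂, h1, h2, h12, hs1, hs2, hfix⟩ := hs
  have hae : ∀ α : F, aeval α (D.map (algebraMap k K)) = aeval α D := fun α =>
    aeval_map_algebraMap K α D
  rw [hae] at h1 h2
  have hX' : ∀ α β α' β' : F, aeval α D = 0 → aeval β D = 0 → aeval α' D = 0 → aeval β' D = 0 →
      α ≠ β → α' ≠ β' → ∃ σ : F ≃ₐ[k] F, σ α = α' ∧ σ β = β' := by
    intro α β α' β' h1 h2 h3 h4 h5 h6
    apply hX α β α' β' <;> simpa
  -- all the transpositions
  have hT : ∀ a b : F, aeval a D = 0 → aeval b D = 0 → a ≠ b → ∃ ρ : F ≃ₐ[K] F, ρ a = b ∧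
      ρ b = a ∧ ∀ c : F, aeval c D = 0 → c ≠ a → c ≠ b → ρ c = c := by
    intro a b ha hb hab
    obtain ⟨τ, hτ1, hτ2⟩ := hX' α₁ α₂ a b h1 h2 ha hb h12 hab
    have hτ1' : τ.symm a = α₁ := by rw [← hτ1, AlgEquiv.symm_apply_apply]
    have hτ2' : τ.symm b = α₂ := by rw [← hτ2, AlgEquiv.symm_apply_apply]
    have hcomm : ∀ x : K, τ (σ (τ.symm (algebraMap K F x))) = algebraMap K F x := by
      intro x
      have h3 : τ.symm (algebraMap K F x) = algebraMap K F (τ.symm.restrictNormal K x) :=
        (AlgEquiv.restrictNormal_commutes τ.symm K x).symm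
      rw [h3, σ.commutes, ← h3, AlgEquiv.apply_symm_apply]
    let ρ₀ : F ≃+* F := ((τ.symm : F ≃+* F).trans (σ : F ≃+* F)).trans (τ : F ≃+* F)
    let ρ : F ≃ₐ[K] F := AlgEquiv.ofRingEquiv (f := ρ₀) hcomm
    have hρ : ∀ x : F, ρ x = τ (σ (τ.symm x)) := fun x => rfl
    refine ⟨ρ, by rw [hρ, hτ1', hs1, hτ2], by rw [hρ, hτ2', hs2, hτ1], fun c hc hca hcb => ?_⟩
    rw [hρ, hfix (τ.symm c) ?_ ?_ ?_, AlgEquiv.apply_symm_apply]
    · rw [hae]
      have h3 : aeval (τ.symm c) D = τ.symm (aeval c D) :=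
        Polynomial.aeval_algHom_apply τ.symm c D
      rw [h3, hc, map_zero]
    · intro h
      apply hca
      rw [← hτ1, ← h, AlgEquiv.apply_symm_apply]
    · intro h
      apply hcb
      rw [← hτ2, ← h, AlgEquiv.apply_symm_apply]
  have hroot : ∀ (ρ : F ≃ₐ[K] F) (c : F), aeval c D = 0 → aeval (ρ c) D = 0 := by
    intro ρ c hc
    rw [← hae] at hc ⊢
    have h3 : aeval (ρ c) (D.map (algebraMap k K)) = ρ (aeval c (D.map (algebraMap k K))) :=
      Polynomial.aeval_algHom_apply ρ c _
    rw [h3, hc, map_zero]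
  intro b c b' c' hb hc hb' hc' hbc hbc'
  rw [comp_X, hae] at hb hc hb' hc'
  rw [aeval_X, aeval_X] at hbc hbc'
  -- first move `b` to `b'`
  obtain ⟨ρ₁, hρ₁⟩ : ∃ ρ₁ : F ≃ₐ[K] F, ρ₁ b = b' := by
    by_cases h : b = b'
    · exact ⟨AlgEquiv.refl, h⟩
    · obtain ⟨ρ, h3, -⟩ := hT b b' hb hb' h
      exact ⟨ρ, h3⟩
  have hc1 := hroot ρ₁ c hc
  have hne : ρ₁ c ≠ b' := by
    rw [← hρ₁]
    exact fun h => hbc (ρ₁.injective h).symm
  by_cases h : ρ₁ c = c'
  · exact ⟨ρ₁, hρ₁, h⟩
  · obtain ⟨ρ₂, h3, -, h4⟩ := hT (ρ₁ c) c' hc1 hc' h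
    refine ⟨ρ₁.trans ρ₂, ?_, h3⟩
    change ρ₂ (ρ₁ b) = b'
    rw [hρ₁]
    exact h4 b' hb' hne.symm hbc'

end Pool.Agent.Lib.MP_89bcae_ag

end

section

/-!
Simply transitive finite sets of automorphisms on the fibre over any root of `D`.
-/

open Polynomial WithZero

open scoped Classical Pointwise

set_option linter.unusedSimpArgs false
set_option linter.unusedVariables false
set_option linter.unusedSectionVars false
set_option linter.style.haveILetI false

namespace Pool.Agent.Lib.MP_89bcae_ag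

theorem exists_simply_transitive (R k F : Type*) [CommRing R] [IsDomain R]
    [IsDiscreteValuationRing R] [Field k] [Algebra R k]
    [IsFractionRing R k] [Field F] [Algebra k F] [IsAlgClosure k F] {g D : R[X]} (hg : g.Monic)
    (hgm : (g.natDegree : IsLocalRing.ResidueField R) ≠ 0) {n : ℕ} (hn : D.natDegree = n + 1)
    (h1 : D.leadingCoeff ∈ IsLocalRing.maximalIdeal R)
    (h2 : D.leadingCoeff ∉ IsLocalRing.maximalIdeal R ^ 2)
    (h3 : D.coeff n ∉ IsLocalRing.maximalIdeal R)
    (hsepκ : ((D.map (IsLocalRing.residue R)).comp (g.map (IsLocalRing.residue R))).Separable)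
    (hsep : ((D.comp g).map (algebraMap R k)).Separable)
    (hX : IsPairTransitive7 k F X (D.map (algebraMap R k))) (α : F)
    (hα : aeval α (D.map (algebraMap R k)) = 0) :
    ∃ J : Finset (F ≃ₐ[k] F),
      (∀ x y : F, aeval x (g.map (algebraMap R k)) = α → aeval y (g.map (algebraMap R k)) = α →
        ∃ σ ∈ J, σ x = y ∧ ∀ τ ∈ J, τ x = y → τ = σ) ∧
      ∀ σ ∈ J, ∀ b : F,
        aeval b ((D.map (algebraMap R k)).comp (g.map (algebraMap R k))) = 0 →
          aeval b (g.map (algebraMap R k)) ≠ α → σ b = b := by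
  have hgdeg : g.natDegree ≠ 0 := by
    intro h
    rw [h, Nat.cast_zero] at hgm
    exact hgm rfl
  have hF : IsAlgClosed F := IsAlgClosure.isAlgClosed k
  have hkF : Algebra.IsAlgebraic k F := IsAlgClosure.isAlgebraic
  letI : Algebra R F := ((algebraMap k F).comp (algebraMap R k)).toAlgebra
  haveI : IsScalarTower R k F := IsScalarTower.of_algebraMap_eq fun _ => rfl
  have hinjk : Function.Injective (algebraMap R k) := IsFractionRing.injective R k
  have hinjF : Function.Injective (algebraMap R F) := (algebraMap k F).injective.comp hinjk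
  have hmapF : ∀ p : R[X], (p.map (algebraMap R k)).map (algebraMap k F) =
      p.map (algebraMap R F) := fun p => by rw [Polynomial.map_map]; rfl
  have hlcF' : (D.map (algebraMap R F)).leadingCoeff = algebraMap R F D.leadingCoeff :=
    leadingCoeff_map_of_injective hinjF D
  have hcompF : (D.map (algebraMap R F)).comp (g.map (algebraMap R F)) =
      ((D.comp g).map (algebraMap R k)).map (algebraMap k F) := by
    rw [hmapF, Polynomial.map_comp]
  have hsepF : ((D.map (algebraMap R F)).comp (g.map (algebraMap R F))).Separable := by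
    rw [hcompF]; exact hsep.map
  have hgF : (g.map (algebraMap R F)).natDegree ≠ 0 := by rwa [hg.natDegree_map]
  have hsepD : (D.map (algebraMap R F)).Separable := separable_left7 hgF hsepF
  set gF := g.map (algebraMap R F) with hgFdef
  set DF := D.map (algebraMap R F) with hDFdef
  set S : Finset F := (DF.comp gF).roots.toFinset with hS
  set A : Finset F := DF.roots.toFinset with hA
  have hmemS : ∀ b, b ∈ S ↔ DF.eval (gF.eval b) = 0 := by
    intro b
    rw [hS, Multiset.mem_toFinset, mem_roots hsepF.ne_zero, IsRoot.def, eval_comp]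
  have hmemA : ∀ α, α ∈ A ↔ DF.eval α = 0 := by
    intro α
    rw [hA, Multiset.mem_toFinset, mem_roots hsepD.ne_zero, IsRoot.def]
  have hSA : ∀ b ∈ S, gF.eval b ∈ A := fun b hb => (hmemA _).mpr ((hmemS b).mp hb)
  have hDA : DF = C (algebraMap R F D.leadingCoeff) * ∏ α ∈ A, (X - C α) := by
    rw [← hlcF']
    exact eq_prod_roots7 hsepD
  have hgS : ∀ α ∈ A, gF - C α = ∏ b ∈ S.filter (fun b => gF.eval b = α), (X - C b) := by
    intro α hα
    have h1 : (gF - C α) ∣ DF.comp gF := by
      obtain ⟨w, hw⟩ := dvd_iff_isRoot.mpr ((hmemA α).mp hα)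
      refine ⟨w.comp gF, ?_⟩
      rw [hw, mul_comp, sub_comp, X_comp, C_comp]
    have h3 := eq_prod_roots7 (hsepF.of_dvd h1)
    have h4 : (gF - C α).Monic := by
      have h5 : (C α).degree < gF.degree := by
        rw [degree_eq_natDegree (p := gF) (fun h => hgF (by rw [h, natDegree_zero]))]
        exact (degree_C_le).trans_lt (by exact_mod_cast Nat.pos_of_ne_zero hgF)
      exact (hg.map _).sub_of_left h5
    rw [h4.leadingCoeff, C_1, one_mul] at h3
    rw [h3]
    congr 1
    ext b
    rw [Finset.mem_filter, Multiset.mem_toFinset, mem_roots h4.ne_zero, IsRoot.def, eval_sub,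
      eval_C, sub_eq_zero, hmemS]
    constructor
    · exact fun h => ⟨by rw [h]; exact (hmemA α).mp hα, h⟩
    · exact fun h => h.2
  have hAS : ∀ α ∈ A, ∃ b ∈ S, gF.eval b = α := by
    intro α hα
    have h1 : (gF - C α).degree ≠ 0 := by
      intro h4
      have h3 : (gF - C α).natDegree = gF.natDegree := natDegree_sub_C
      rw [natDegree_eq_of_degree_eq_some h4] at h3
      exact hgF h3.symm
    obtain ⟨b, hb⟩ := IsAlgClosed.exists_root _ h1
    rw [IsRoot.def, eval_sub, eval_C, sub_eq_zero] at hb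
    exact ⟨b, (hmemS b).mpr (by rw [hb]; exact (hmemA α).mp hα), hb⟩
  have hSroot : (S : Set F) = ((D.comp g).map (algebraMap R k)).rootSet F := by
    rw [rootSet, hS, hcompF, aroots]
  obtain ⟨hfin, hgal⟩ := galois7 (F := F) hsep
  obtain ⟨K, hK⟩ : ∃ K, K = IntermediateField.adjoin k (S : Set F) := ⟨_, rfl⟩
  haveI : FiniteDimensional k K := by rw [hK, hSroot]; exact hfin
  haveI : IsGalois k K := by rw [hK, hSroot]; exact hgal
  have hSK : ∀ b ∈ S, b ∈ K := by
    intro b hb
    rw [hK]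
    exact IntermediateField.subset_adjoin _ _ hb
  have hRK : ∀ r : R, algebraMap R F r ∈ K := by
    intro r
    rw [IsScalarTower.algebraMap_apply R k F]
    exact K.algebraMap_mem _
  have hgK : ∀ b ∈ K, gF.eval b ∈ K := by
    intro b hb
    rw [hgFdef, eval_map, eval₂_eq_sum_range]
    exact K.sum_mem fun i _ => K.mul_mem (hRK _) (pow_mem hb i)
  have hAK : ∀ α ∈ A, α ∈ K := by
    intro α hα
    obtain ⟨b, hb, rfl⟩ := hAS α hα
    exact hgK b (hSK b hb)
  have hcomp : (algebraMap K F).comp (algebraMap R K) = algebraMap R F := RingHom.ext fun r => rfl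
  have hinj : Function.Injective (Polynomial.map (algebraMap K F)) :=
    Polynomial.map_injective _ (algebraMap K F).injective
  have hev : ∀ b : K, (((g.map (algebraMap R K)).eval b : K) : F) = gF.eval (b : F) := by
    intro b
    rw [hgFdef, ← hcomp, ← Polynomial.map_map, eval_map (algebraMap K F)]
    exact (eval₂_at_apply (algebraMap K F) b).symm
  obtain ⟨α₀, hα₀, J, hJ1, hJ2⟩ := exists_cycleT (k := k) (K := K) hg hgm hn h1 h2 h3 hsepκ
    (S.subtype (· ∈ K)) (A.subtype (· ∈ K)) (by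
      apply hinj
      rw [Polynomial.map_map, hcomp, ← hDFdef, hDA, Polynomial.map_mul, map_C, Polynomial.map_prod]
      congr 1
      have h1 := prod_subtype7 (· ∈ K) A hAK (fun _ => True) (fun _ => True) (fun _ => Iff.rfl)
        (fun b => (X - C b : F[X]))
      rw [Finset.filter_true, Finset.filter_true] at h1
      rw [← h1]
      refine Finset.prod_congr rfl fun b _ => ?_
      rw [Polynomial.map_sub, map_X, map_C]
      rfl) (by
      intro α hα
      apply hinj
      rw [Polynomial.map_sub, Polynomial.map_map, hcomp, map_C, Polynomial.map_prod]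
      rw [Finset.mem_subtype] at hα
      have h1 := prod_subtype7 (· ∈ K) S hSK (fun b => (g.map (algebraMap R K)).eval b = α)
        (fun b => gF.eval b = (α : F))
        (fun b => by rw [← hev, Subtype.coe_inj]) (fun b => (X - C b : F[X]))
      refine (hgS α hα).trans (h1.symm.trans ?_)
      refine Finset.prod_congr rfl fun b _ => ?_
      rw [Polynomial.map_sub, map_X, map_C]
      rfl) (by
      intro b hb
      rw [Finset.mem_subtype] at hb ⊢
      rw [hev]
      exact hSA b hb) (by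
      intro σ hσ
      subst hK
      ext x
      have h1 : (σ : _ ≃ₐ[k] _).toAlgHom = AlgHom.id k _ := by
        apply IntermediateField.algHom_ext_of_eq_adjoin _ rfl
        intro y hy
        exact hσ ⟨y, IntermediateField.subset_adjoin _ _ hy⟩ (Finset.mem_subtype.mpr hy)
      exact congrArg Subtype.val (congrArg (fun f => f x) h1))
  rw [Finset.mem_subtype] at hα₀
  have heva : ∀ b : F, aeval b (g.map (algebraMap R k)) = gF.eval b := by
    intro b
    rw [← eval_map_algebraMap, hmapF]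
  have hevD : ∀ b : F, aeval b (D.map (algebraMap R k)) = DF.eval b := by
    intro b
    rw [← eval_map_algebraMap, hmapF]
  -- the lifts
  choose lft hlft using fun σ : K ≃ₐ[k] K =>
    AlgEquiv.restrictNormalHom_surjective (F := k) (K₁ := K) F σ
  have hτK : ∀ (σ : K ≃ₐ[k] K) (z : K), lft σ z = (σ z : K) := by
    intro σ z
    have h := (AlgEquiv.restrictNormal_commutes (lft σ) K z).symm
    have h' : (lft σ).restrictNormal K = σ := hlft σ
    rw [h'] at h
    exact h
  have hcmp : (D.map (algebraMap R k)).comp (g.map (algebraMap R k)) =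
      (D.comp g).map (algebraMap R k) := (Polynomial.map_comp _ _ _).symm
  -- the statement for `α₀`
  have key1 : ∀ x y : F, aeval x (g.map (algebraMap R k)) = (α₀ : F) →
      aeval y (g.map (algebraMap R k)) = (α₀ : F) →
        ∃ σ ∈ J.image lft, σ x = y ∧ ∀ τ ∈ J.image lft, τ x = y → τ = σ := by
    intro x y hx hy
    rw [heva] at hx hy
    have hxS : x ∈ S := (hmemS x).mpr (by rw [hx]; exact (hmemA _).mp hα₀)
    have hyS : y ∈ S := (hmemS y).mpr (by rw [hy]; exact (hmemA _).mp hα₀)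
    obtain ⟨σ, hσJ, hσ, huni⟩ := hJ1 ⟨x, hSK x hxS⟩ (Finset.mem_subtype.mpr hxS) ⟨y, hSK y hyS⟩
      (Finset.mem_subtype.mpr hyS) (Subtype.ext (by rw [hev]; exact hx))
      (Subtype.ext (by rw [hev]; exact hy))
    refine ⟨lft σ, Finset.mem_image_of_mem _ hσJ, ?_, ?_⟩
    · have h4 := hτK σ ⟨x, hSK x hxS⟩
      rw [hσ] at h4
      exact h4
    · intro τ hτ hτx
      obtain ⟨σ', hσ'J, rfl⟩ := Finset.mem_image.mp hτ
      have h4 := hτK σ' ⟨x, hSK x hxS⟩
      have h5 : σ' ⟨x, hSK x hxS⟩ = ⟨y, hSK y hyS⟩ := by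
        apply Subtype.ext
        rw [← h4]
        exact hτx
      rw [huni σ' hσ'J h5]
  have key2 : ∀ σ ∈ J.image lft, ∀ b : F,
      aeval b ((D.map (algebraMap R k)).comp (g.map (algebraMap R k))) = 0 →
        aeval b (g.map (algebraMap R k)) ≠ (α₀ : F) → σ b = b := by
    intro τ hτ b hb hne
    obtain ⟨σ, hσJ, rfl⟩ := Finset.mem_image.mp hτ
    rw [aeval_comp, heva, hevD] at hb
    have hbS : b ∈ S := (hmemS b).mpr hb
    have h4 := hτK σ ⟨b, hSK b hbS⟩
    rw [hJ2 σ hσJ ⟨b, hSK b hbS⟩ (Finset.mem_subtype.mpr hbS) ?_] at h4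
    · exact h4
    · intro h5
      apply hne
      rw [heva, ← hev ⟨b, hSK b hbS⟩, h5]
  -- the general fibre
  have hρ : ∃ ρ : F ≃ₐ[k] F, ρ (α₀ : F) = α := by
    by_cases hc : (α₀ : F) = α
    · exact ⟨AlgEquiv.refl, hc⟩
    · have hα₀r : aeval (α₀ : F) (D.map (algebraMap R k)) = 0 := by
        rw [hevD]; exact (hmemA _).mp hα₀
      obtain ⟨ρ, h, -⟩ := hX (α₀ : F) α α (α₀ : F) (by simpa using hα₀r) (by simpa using hα)
        (by simpa using hα) (by simpa using hα₀r) (by simpa using hc)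
        (by simpa using Ne.symm hc)
      exact ⟨ρ, h⟩
  obtain ⟨ρ, hρ⟩ := hρ
  have hσev : ∀ (σ : F ≃ₐ[k] F) (p : k[X]) (x : F), aeval (σ x) p = σ (aeval x p) := fun σ p x =>
    Polynomial.aeval_algHom_apply σ x p
  have hρ' : ρ.symm α = (α₀ : F) := by rw [← hρ, AlgEquiv.symm_apply_apply]
  refine ⟨(J.image lft).image fun σ => (ρ.symm.trans σ).trans ρ, ?_, ?_⟩
  · intro x y hx hy
    obtain ⟨σ, hσJ, hσ, huni⟩ := key1 (ρ.symm x) (ρ.symm y) (by rw [hσev, hx, hρ'])
      (by rw [hσev, hy, hρ'])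
    refine ⟨(ρ.symm.trans σ).trans ρ, Finset.mem_image_of_mem _ hσJ, ?_, ?_⟩
    · change ρ (σ (ρ.symm x)) = y
      rw [hσ, AlgEquiv.apply_symm_apply]
    · intro τ hτ hτx
      obtain ⟨σ', hσ'J, rfl⟩ := Finset.mem_image.mp hτ
      have h5 : ρ (σ' (ρ.symm x)) = y := hτx
      rw [huni σ' hσ'J (by rw [← h5, AlgEquiv.symm_apply_apply])]
  · intro τ hτ b hb hne
    obtain ⟨σ, hσJ, rfl⟩ := Finset.mem_image.mp hτ
    change ρ (σ (ρ.symm b)) = b
    rw [key2 σ hσJ (ρ.symm b) (by rw [hσev, hb, map_zero]) ?_, AlgEquiv.apply_symm_apply]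
    intro h6
    rw [hσev] at h6
    apply hne
    rw [← hρ, ← h6, AlgEquiv.apply_symm_apply]

end Pool.Agent.Lib.MP_89bcae_ag

end
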