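import Mathlib

section

/-!
# Integral vectors which avoid a positive proportion of the residue classes modulo infinitely many
primes have density zero
-/

open Filter Topology

open scoped Classical

namespace Pool.Agent.Lib.MP_89bcae_ag

set_option linter.style.haveILetI false

/-- The number of integers in a residue class in an interval. -/
lemma card_class7 {N : ℕ} (hN : 0 < N) (H : ℕ) (v : ZMod N) :
    (((Finset.Icc (-(H : ℤ)) H).filter fun x : ℤ => (x : ZMod N) = v).card : ℝ) ≤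
      (2 * H + 1) / N + 1 := by
  haveI : NeZero N := ⟨hN.ne'⟩
  have h1 : (Finset.Icc (-(H : ℤ)) H).filter (fun x : ℤ => (x : ZMod N) = v) =
      (Finset.Ico (-(H : ℤ)) (H + 1)).filter (fun x : ℤ => x ≡ (v.val : ℤ) [ZMOD (N : ℤ)]) := by
    ext x
    rw [Finset.mem_filter, Finset.mem_filter, Finset.mem_Icc, Finset.mem_Ico,
      ← ZMod.intCast_eq_intCast_iff, Int.lt_add_one_iff]
    simp
  rw [h1]
  have h2 := Int.Ico_filter_modEq_card (-(H : ℤ)) (H + 1) (r := (N : ℤ)) (by exact_mod_cast hN)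
    (v.val : ℤ)
  have h3 : (((Finset.Ico (-(H : ℤ)) (H + 1)).filter
      (fun x : ℤ => x ≡ (v.val : ℤ) [ZMOD (N : ℤ)])).card : ℤ) ≤ ⌊((2 * H + 1 : ℚ) / N + 1)⌋ := by
    rw [h2]
    apply max_le
    · rw [Int.le_floor]
      push_cast
      have h4 := Int.ceil_lt_add_one (((H : ℚ) + 1 - v.val) / N)
      have h5 := Int.le_ceil ((-(H : ℚ) - v.val) / N)
      have h6 : (2 * (H : ℚ) + 1) / N = ((H : ℚ) + 1 - v.val) / N - (-(H : ℚ) - v.val) / N := by
        ring
      rw [h6]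
      linarith
    · apply Int.floor_nonneg.mpr
      positivity
  have h4 : ((((Finset.Ico (-(H : ℤ)) (H + 1)).filter
      (fun x : ℤ => x ≡ (v.val : ℤ) [ZMOD (N : ℤ)])).card : ℤ) : ℚ) ≤ (2 * H + 1 : ℚ) / N + 1 :=
    (Int.cast_le.mpr h3).trans (Int.floor_le _)
  have h5 : ((((((Finset.Ico (-(H : ℤ)) (H + 1)).filter
      (fun x : ℤ => x ≡ (v.val : ℤ) [ZMOD (N : ℤ)])).card : ℤ) : ℚ)) : ℝ) ≤
      (((2 * H + 1 : ℚ) / N + 1 : ℚ) : ℝ) := by exact_mod_cast h4
  push_cast at h5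
  exact h5

/-- The number of integral vectors in a box whose reduction lies in a given set. -/
lemma card_box7 {N : ℕ} (hN : 0 < N) (m H : ℕ) (A : Finset (Fin m → ZMod N)) :
    (({a : Fin m → ℤ | (∀ i, |a i| ≤ H) ∧ (fun i => (a i : ZMod N)) ∈ A}.ncard : ℝ)) ≤
      A.card * ((2 * H + 1) / N + 1) ^ m := by
  have h1 : {a : Fin m → ℤ | (∀ i, |a i| ≤ H) ∧ (fun i => (a i : ZMod N)) ∈ A} ⊆
      (A.biUnion fun v => Fintype.piFinset fun i =>
        (Finset.Icc (-(H : ℤ)) H).filter fun x : ℤ => (x : ZMod N) = v i : Finset (Fin m → ℤ)) := by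
    rintro a ⟨h2, h3⟩
    rw [Finset.coe_biUnion, Set.mem_iUnion₂]
    refine ⟨_, h3, ?_⟩
    rw [Finset.mem_coe, Fintype.mem_piFinset]
    intro i
    rw [Finset.mem_filter, Finset.mem_Icc]
    exact ⟨abs_le.mp (h2 i), rfl⟩
  have h2 := Set.ncard_le_ncard h1 (Finset.finite_toSet _)
  rw [Set.ncard_coe_finset] at h2
  have h3 : ((A.biUnion fun v => Fintype.piFinset fun i =>
        (Finset.Icc (-(H : ℤ)) H).filter fun x : ℤ => (x : ZMod N) = v i).card : ℝ) ≤
      ∑ v ∈ A, ((Fintype.piFinset fun i =>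
        (Finset.Icc (-(H : ℤ)) H).filter fun x : ℤ => (x : ZMod N) = v i).card : ℝ) := by
    exact_mod_cast Finset.card_biUnion_le
  refine (by exact_mod_cast h2 : _ ≤ _).trans (h3.trans ?_)
  rw [← nsmul_eq_mul]
  apply Finset.sum_le_card_nsmul
  intro v _
  rw [Fintype.card_piFinset]
  push_cast
  calc ∏ i, (((Finset.Icc (-(H : ℤ)) H).filter fun x : ℤ => (x : ZMod N) = v i).card : ℝ)
      ≤ ∏ _i : Fin m, ((2 * (H : ℝ) + 1) / N + 1) :=
        Finset.prod_le_prod (fun _ _ => by positivity) (fun i _ => card_class7 hN H (v i))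
    _ = _ := by rw [Finset.prod_const, Finset.card_univ, Fintype.card_fin]

/-- The number of the residue classes which avoid given sets modulo several primes. -/
lemma card_avoid7 (m : ℕ) (D : ∀ p : ℕ, Set (Fin m → ZMod p)) (c : ℝ) (S : Finset ℕ)
    (hprime : ∀ p ∈ S, p.Prime) (hc : c ≤ 1)
    (hD : ∀ p ∈ S, c * (p : ℝ) ^ m ≤ (D p).ncard) {N : ℕ} (hN : N = ∏ p ∈ S, p) :
    ∃ (A : Finset (Fin m → ZMod N)),
      (A.card : ℝ) ≤ (1 - c) ^ S.card * (N : ℝ) ^ m ∧
      ∀ a : Fin m → ℤ, (∀ p ∈ S, (fun i => (a i : ZMod p)) ∉ D p) →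
        (fun i => (a i : ZMod N)) ∈ A := by
  haveI : ∀ p : S, NeZero (p : ℕ) := fun p => ⟨(hprime p p.2).ne_zero⟩
  haveI : NeZero N := ⟨by
    rw [hN]
    exact Finset.prod_ne_zero_iff.mpr fun p hp => (hprime p hp).ne_zero⟩
  have hdvd : ∀ p : S, (p : ℕ) ∣ N := fun p => by
    rw [hN]
    exact Finset.dvd_prod_of_mem _ p.2
  let ψ : (Fin m → ZMod N) → ∀ p : S, (Fin m → ZMod p) :=
    fun v p i => ZMod.castHom (hdvd p) (ZMod p) (v i)
  have hψ : Function.Injective ψ := by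
    intro v w h
    funext i
    have h1 : ∀ p : S, ZMod.castHom (hdvd p) (ZMod p) (v i - w i) = 0 := by
      intro p
      rw [map_sub, sub_eq_zero]
      exact congrFun (congrFun h p) i
    have h2 : ∀ p ∈ S, p ∣ (v i - w i).val := by
      intro p hp
      have h3 := h1 ⟨p, hp⟩
      rw [ZMod.castHom_apply, ZMod.cast_eq_val, ZMod.natCast_eq_zero_iff] at h3
      exact h3
    have h3 : N ∣ (v i - w i).val := by
      have h5 := Finset.prod_primes_dvd _ (fun p hp => (hprime p hp).prime) h2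
      rwa [← hN] at h5
    have h4 : (v i - w i).val = 0 := Nat.eq_zero_of_dvd_of_lt h3 (ZMod.val_lt _)
    rw [ZMod.val_eq_zero] at h4
    exact sub_eq_zero.mp h4
  refine ⟨Finset.univ.filter fun v => ∀ p : S, ψ v p ∉ D p, ?_, ?_⟩
  · have h1 : ((Finset.univ.filter fun v => ∀ p : S, ψ v p ∉ D p).card : ℝ) ≤
        ((Fintype.piFinset fun p : S => Finset.univ.filter fun w : Fin m → ZMod p => w ∉ D p).card : ℝ) := by
      rw [Nat.cast_le, ← Finset.card_image_of_injective _ hψ]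
      apply Finset.card_le_card
      intro x hx
      obtain ⟨v, hv, rfl⟩ := Finset.mem_image.mp hx
      rw [Finset.mem_filter] at hv
      rw [Fintype.mem_piFinset]
      intro p
      rw [Finset.mem_filter]
      exact ⟨Finset.mem_univ _, hv.2 p⟩
    refine h1.trans ?_
    rw [Fintype.card_piFinset]
    push_cast
    have h2 : ∀ p : S, ((Finset.univ.filter fun w : Fin m → ZMod p => w ∉ D p).card : ℝ) ≤
        (1 - c) * ((p : ℕ) : ℝ) ^ m := by
      intro p
      have h3 := hD p p.2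
      have h4 : (D p).ncard = (Finset.univ.filter fun w : Fin m → ZMod p => w ∈ D p).card := by
        rw [← Set.ncard_coe_finset]
        congr 1
        ext w
        simp
      have h5 := Finset.card_filter_add_card_filter_not (s := (Finset.univ : Finset (Fin m → ZMod p)))
        (fun w => w ∈ D p)
      rw [Finset.card_univ, Fintype.card_fun, ZMod.card, Fintype.card_fin] at h5
      have h6 : (((Finset.univ.filter fun w : Fin m → ZMod p => w ∈ D p).card : ℝ)) +
          ((Finset.univ.filter fun w : Fin m → ZMod p => w ∉ D p).card : ℝ) =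
          ((p : ℕ) : ℝ) ^ m := by exact_mod_cast h5
      rw [h4] at h3
      linarith
    calc ∏ p : S, ((Finset.univ.filter fun w : Fin m → ZMod p => w ∉ D p).card : ℝ)
        ≤ ∏ p : S, ((1 - c) * ((p : ℕ) : ℝ) ^ m) :=
          Finset.prod_le_prod (fun _ _ => by positivity) (fun p _ => h2 p)
      _ = (1 - c) ^ S.card * ∏ p : S, ((p : ℕ) : ℝ) ^ m := by
          rw [Finset.prod_mul_distrib, Finset.prod_const, Finset.card_univ, Fintype.card_coe]
      _ = _ := by
          congr 1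
          rw [hN, Finset.prod_pow, Finset.prod_coe_sort S (fun p => (p : ℝ))]
          push_cast
          rfl
  · intro a ha
    rw [Finset.mem_filter]
    refine ⟨Finset.mem_univ _, fun p => ?_⟩
    have h1 : ψ (fun i => (a i : ZMod N)) p = fun i => (a i : ZMod p) := by
      funext i
      exact map_intCast _ _
    rw [h1]
    exact ha p p.2

/-- **Density zero.** -/
theorem density_crt7 (m : ℕ) (D : ∀ p : ℕ, Set (Fin m → ZMod p)) (c : ℝ) (hc : 0 < c)
    (P : Set ℕ) (hP : P.Infinite) (hprime : ∀ p ∈ P, p.Prime)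
    (hD : ∀ p ∈ P, c * (p : ℝ) ^ m ≤ (D p).ncard) (Good : (Fin m → ℤ) → Prop)
    (hGood : ∀ a, ∀ p ∈ P, (fun i => (a i : ZMod p)) ∈ D p → Good a) :
    Tendsto (fun H : ℕ => ({a : Fin m → ℤ | (∀ i, |a i| ≤ H) ∧ ¬ Good a}.ncard : ℝ) /
      (2 * H + 1) ^ m) atTop (𝓝 0) := by
  have hc1 : c ≤ 1 := by
    obtain ⟨p, hp⟩ := hP.nonempty
    haveI : NeZero p := ⟨(hprime p hp).ne_zero⟩
    have h1 := hD p hp
    have h2 : ((D p).ncard : ℝ) ≤ (p : ℝ) ^ m := by
      have h3 : (D p).ncard ≤ (Set.univ : Set (Fin m → ZMod p)).ncard :=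
        Set.ncard_le_ncard (Set.subset_univ _)
      rw [Set.ncard_univ, Nat.card_eq_fintype_card, Fintype.card_fun, ZMod.card,
        Fintype.card_fin] at h3
      exact_mod_cast h3
    have h4 : (0 : ℝ) < (p : ℝ) ^ m := by
      have : (0 : ℝ) < p := by exact_mod_cast (hprime p hp).pos
      positivity
    nlinarith
  rw [Metric.tendsto_atTop]
  intro ε hε
  obtain ⟨t, ht⟩ := exists_pow_lt_of_lt_one hε (show (1 - c) < 1 by linarith)
  obtain ⟨S, hSP, hSc⟩ := hP.exists_subset_card_eq t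
  obtain ⟨N, hN⟩ : ∃ N, N = ∏ p ∈ S, p := ⟨_, rfl⟩
  obtain ⟨A, hA1, hA2⟩ := card_avoid7 m D c S (fun p hp => hprime p (hSP hp)) hc1
    (fun p hp => hD p (hSP hp)) hN
  have hN0 : 0 < N := by
    rw [hN]
    exact Finset.prod_pos fun p hp => (hprime p (hSP hp)).pos
  have hNR : (0 : ℝ) < N := by exact_mod_cast hN0
  have hlim : Tendsto (fun H : ℕ => (1 - c) ^ t * (1 + N / (2 * (H : ℝ) + 1)) ^ m) atTop
      (𝓝 ((1 - c) ^ t * (1 + 0) ^ m)) := by
    apply Tendsto.const_mul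
    apply Tendsto.pow
    apply Tendsto.const_add
    apply Tendsto.div_atTop tendsto_const_nhds
    exact tendsto_atTop_add_const_right _ _
      (Tendsto.const_mul_atTop (by norm_num) tendsto_natCast_atTop_atTop)
  rw [add_zero, one_pow, mul_one] at hlim
  obtain ⟨H0, hH0⟩ := (hlim.eventually_lt_const ht).exists_forall_of_atTop
  refine ⟨H0, fun H hH => ?_⟩
  have hpos : (0 : ℝ) < (2 * (H : ℝ) + 1) ^ m := by positivity
  rw [Real.dist_eq, sub_zero, abs_of_nonneg (by positivity), div_lt_iff₀ hpos]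
  have h1 : {a : Fin m → ℤ | (∀ i, |a i| ≤ H) ∧ ¬ Good a} ⊆
      {a : Fin m → ℤ | (∀ i, |a i| ≤ H) ∧ (fun i => (a i : ZMod N)) ∈ A} := by
    rintro a ⟨h2, h3⟩
    refine ⟨h2, hA2 a fun p hp hap => h3 (hGood a p (hSP hp) hap)⟩
  have hfin : {a : Fin m → ℤ | (∀ i, |a i| ≤ H) ∧ (fun i => (a i : ZMod N)) ∈ A}.Finite := by
    apply Set.Finite.subset (Finset.finite_toSet
      (Fintype.piFinset fun _ : Fin m => Finset.Icc (-(H : ℤ)) H))
    rintro a ⟨h2, -⟩
    rw [Finset.mem_coe, Fintype.mem_piFinset]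
    intro i
    rw [Finset.mem_Icc]
    exact abs_le.mp (h2 i)
  have h2 : (({a : Fin m → ℤ | (∀ i, |a i| ≤ H) ∧ ¬ Good a}.ncard : ℝ)) ≤
      A.card * ((2 * H + 1) / N + 1) ^ m :=
    (by exact_mod_cast Set.ncard_le_ncard h1 hfin : _ ≤ _).trans (card_box7 hN0 m H A)
  refine lt_of_le_of_lt h2 ?_
  have h3 : (A.card : ℝ) * ((2 * H + 1) / N + 1) ^ m ≤
      ((1 - c) ^ t * (1 + N / (2 * (H : ℝ) + 1)) ^ m) * (2 * (H : ℝ) + 1) ^ m := by
    have h4 : (0 : ℝ) ≤ ((2 * H + 1) / N + 1) ^ m := by positivity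
    refine (mul_le_mul_of_nonneg_right hA1 h4).trans ?_
    rw [hSc, mul_assoc, mul_assoc, ← mul_pow, ← mul_pow]
    have h5 : (N : ℝ) * ((2 * H + 1) / N + 1) = (1 + N / (2 * (H : ℝ) + 1)) * (2 * H + 1) := by
      field_simp
    rw [h5]
  exact lt_of_le_of_lt h3 (mul_lt_mul_of_pos_right (hH0 H hH) hpos)

end Pool.Agent.Lib.MP_89bcae_ag

end

section

/-!
# Integral vectors which avoid residue classes whose proportions have a divergent sum have density zero
-/

open Filter Topology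

open scoped Classical

namespace Pool.Agent.Lib.MP_89bcae_ag

set_option linter.style.haveILetI false

/-- The number of the residue classes which avoid given sets modulo several coprime integers. -/
lemma card_avoidB7 (m : ℕ) (M : ℕ → ℕ) (D : ∀ p : ℕ, Set (Fin m → ZMod (M p))) (δ : ℕ → ℝ)
    (S : Finset ℕ) (hM0 : ∀ p ∈ S, 0 < M p)
    (hcop : ∀ p ∈ S, ∀ q ∈ S, p ≠ q → Nat.Coprime (M p) (M q))
    (hD : ∀ p ∈ S, δ p * (M p : ℝ) ^ m ≤ (D p).ncard) {N : ℕ}
    (hN : N = ∏ p ∈ S, M p) :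
    ∃ (A : Finset (Fin m → ZMod N)),
      (A.card : ℝ) ≤ (∏ p ∈ S, (1 - δ p)) * (N : ℝ) ^ m ∧
      ∀ a : Fin m → ℤ, (∀ p ∈ S, (fun i => (a i : ZMod (M p))) ∉ D p) →
        (fun i => (a i : ZMod N)) ∈ A := by
  haveI : ∀ p : S, NeZero (M p) := fun p => ⟨(hM0 p p.2).ne'⟩
  haveI : NeZero N := ⟨by
    rw [hN]
    exact Finset.prod_ne_zero_iff.mpr fun p hp => (hM0 p hp).ne'⟩
  have hdvd : ∀ p : S, M p ∣ N := fun p => by
    rw [hN]
    exact Finset.dvd_prod_of_mem _ p.2
  let ψ : (Fin m → ZMod N) → ∀ p : S, (Fin m → ZMod (M p)) :=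
    fun v p i => ZMod.castHom (hdvd p) (ZMod (M p)) (v i)
  have hψ : Function.Injective ψ := by
    intro v w h
    funext i
    have h1 : ∀ p : S, ZMod.castHom (hdvd p) (ZMod (M p)) (v i - w i) = 0 := by
      intro p
      rw [map_sub, sub_eq_zero]
      exact congrFun (congrFun h p) i
    have h2 : ∀ p ∈ S, M p ∣ (v i - w i).val := by
      intro p hp
      have h3 := h1 ⟨p, hp⟩
      rw [ZMod.castHom_apply, ZMod.cast_eq_val, ZMod.natCast_eq_zero_iff] at h3
      exact h3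
    have h3 : N ∣ (v i - w i).val := by
      have h5 : ∏ p ∈ S, M p ∣ (v i - w i).val := by
        apply Finset.prod_dvd_of_isRelPrime _ h2
        intro p hp q hq hpq
        exact Nat.coprime_iff_isRelPrime.mp (hcop p hp q hq hpq)
      rwa [← hN] at h5
    have h4 : (v i - w i).val = 0 := Nat.eq_zero_of_dvd_of_lt h3 (ZMod.val_lt _)
    rw [ZMod.val_eq_zero] at h4
    exact sub_eq_zero.mp h4
  refine ⟨Finset.univ.filter fun v => ∀ p : S, ψ v p ∉ D p, ?_, ?_⟩
  · have h1 : ((Finset.univ.filter fun v => ∀ p : S, ψ v p ∉ D p).card : ℝ) ≤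
        ((Fintype.piFinset fun p : S =>
          Finset.univ.filter fun w : Fin m → ZMod (M p) => w ∉ D p).card : ℝ) := by
      rw [Nat.cast_le, ← Finset.card_image_of_injective _ hψ]
      apply Finset.card_le_card
      intro x hx
      obtain ⟨v, hv, rfl⟩ := Finset.mem_image.mp hx
      rw [Finset.mem_filter] at hv
      rw [Fintype.mem_piFinset]
      intro p
      rw [Finset.mem_filter]
      exact ⟨Finset.mem_univ _, hv.2 p⟩
    refine h1.trans ?_
    rw [Fintype.card_piFinset]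
    push_cast
    have h2 : ∀ p : S, ((Finset.univ.filter fun w : Fin m → ZMod (M p) => w ∉ D p).card : ℝ) ≤
        (1 - δ p) * (M p : ℝ) ^ m := by
      intro p
      have h3 := hD p p.2
      have h4 : (D p).ncard = (Finset.univ.filter fun w : Fin m → ZMod (M p) => w ∈ D p).card := by
        rw [← Set.ncard_coe_finset]
        congr 1
        ext w
        simp
      have h5 := Finset.card_filter_add_card_filter_not
        (s := (Finset.univ : Finset (Fin m → ZMod (M p)))) (fun w => w ∈ D p)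
      rw [Finset.card_univ, Fintype.card_fun, ZMod.card, Fintype.card_fin] at h5
      have h6 : (((Finset.univ.filter fun w : Fin m → ZMod (M p) => w ∈ D p).card : ℝ)) +
          ((Finset.univ.filter fun w : Fin m → ZMod (M p) => w ∉ D p).card : ℝ) =
          (M p : ℝ) ^ m := by exact_mod_cast h5
      rw [h4] at h3
      linarith
    calc ∏ p : S, ((Finset.univ.filter fun w : Fin m → ZMod (M p) => w ∉ D p).card : ℝ)
        ≤ ∏ p : S, ((1 - δ p) * (M p : ℝ) ^ m) :=
          Finset.prod_le_prod (fun _ _ => by positivity) (fun p _ => h2 p)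
      _ = _ := by
          rw [Finset.prod_mul_distrib, Finset.prod_coe_sort S (fun p => (1 - δ p)), hN,
            Finset.prod_pow, Finset.prod_coe_sort S (fun p => (M p : ℝ))]
          push_cast
          rfl
  · intro a ha
    rw [Finset.mem_filter]
    refine ⟨Finset.mem_univ _, fun p => ?_⟩
    have h1 : ψ (fun i => (a i : ZMod N)) p = fun i => (a i : ZMod (M p)) := by
      funext i
      exact map_intCast _ _
    rw [h1]
    exact ha p p.2

/-- **Density zero**, for residue classes modulo coprime integers whose proportions have a divergent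
sum. -/
theorem density_crtB7 (m : ℕ) (M : ℕ → ℕ) (D : ∀ p : ℕ, Set (Fin m → ZMod (M p))) (δ : ℕ → ℝ)
    (P : Set ℕ) (hM0 : ∀ p ∈ P, 0 < M p)
    (hcop : ∀ p ∈ P, ∀ q ∈ P, p ≠ q → Nat.Coprime (M p) (M q))
    (hδ : ∀ T : ℝ, ∃ S : Finset ℕ, (∀ p ∈ S, p ∈ P) ∧ T ≤ ∑ p ∈ S, δ p)
    (hD : ∀ p ∈ P, δ p * (M p : ℝ) ^ m ≤ (D p).ncard) (Good : (Fin m → ℤ) → Prop)
    (hGood : ∀ a, ∀ p ∈ P, (fun i => (a i : ZMod (M p))) ∈ D p → Good a) :
    Tendsto (fun H : ℕ => ({a : Fin m → ℤ | (∀ i, |a i| ≤ H) ∧ ¬ Good a}.ncard : ℝ) /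
      (2 * H + 1) ^ m) atTop (𝓝 0) := by
  have hδ1 : ∀ p ∈ P, δ p ≤ 1 := by
    intro p hp
    haveI : NeZero (M p) := ⟨(hM0 p hp).ne'⟩
    have h1 := hD p hp
    have h2 : ((D p).ncard : ℝ) ≤ (M p : ℝ) ^ m := by
      have h3 : (D p).ncard ≤ (Set.univ : Set (Fin m → ZMod (M p))).ncard :=
        Set.ncard_le_ncard (Set.subset_univ _)
      rw [Set.ncard_univ, Nat.card_eq_fintype_card, Fintype.card_fun, ZMod.card,
        Fintype.card_fin] at h3
      exact_mod_cast h3
    have h4 : (0 : ℝ) < (M p : ℝ) ^ m := by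
      have : (0 : ℝ) < M p := by exact_mod_cast hM0 p hp
      positivity
    nlinarith
  rw [Metric.tendsto_atTop]
  intro ε hε
  obtain ⟨S, hSP, hST⟩ := hδ (- Real.log (ε / 2))
  obtain ⟨N, hN⟩ : ∃ N, N = ∏ p ∈ S, M p := ⟨_, rfl⟩
  obtain ⟨A, hA1, hA2⟩ := card_avoidB7 m M D δ S (fun p hp => hM0 p (hSP p hp))
    (fun p hp q hq => hcop p (hSP p hp) q (hSP q hq)) (fun p hp => hD p (hSP p hp)) hN
  set t := ∏ p ∈ S, (1 - δ p) with htdef
  have ht : t < ε := by
    have h1 : t ≤ ∏ p ∈ S, Real.exp (- δ p) := by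
      refine Finset.prod_le_prod (fun p hp => by linarith [hδ1 p (hSP p hp)]) fun p _ => ?_
      linarith [Real.add_one_le_exp (- δ p)]
    rw [← Real.exp_sum, Finset.sum_neg_distrib] at h1
    have h2 : Real.exp (- ∑ p ∈ S, δ p) ≤ ε / 2 := by
      rw [← Real.le_log_iff_exp_le (by positivity)]
      linarith
    linarith
  have hN0 : 0 < N := by
    rw [hN]
    exact Finset.prod_pos fun p hp => hM0 p (hSP p hp)
  have hNR : (0 : ℝ) < N := by exact_mod_cast hN0
  have hlim : Tendsto (fun H : ℕ => t * (1 + N / (2 * (H : ℝ) + 1)) ^ m) atTop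
      (𝓝 (t * (1 + 0) ^ m)) := by
    apply Tendsto.const_mul
    apply Tendsto.pow
    apply Tendsto.const_add
    apply Tendsto.div_atTop tendsto_const_nhds
    exact tendsto_atTop_add_const_right _ _
      (Tendsto.const_mul_atTop (by norm_num) tendsto_natCast_atTop_atTop)
  rw [add_zero, one_pow, mul_one] at hlim
  obtain ⟨H0, hH0⟩ := (hlim.eventually_lt_const ht).exists_forall_of_atTop
  refine ⟨H0, fun H hH => ?_⟩
  have hpos : (0 : ℝ) < (2 * (H : ℝ) + 1) ^ m := by positivity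
  rw [Real.dist_eq, sub_zero, abs_of_nonneg (by positivity), div_lt_iff₀ hpos]
  have h1 : {a : Fin m → ℤ | (∀ i, |a i| ≤ H) ∧ ¬ Good a} ⊆
      {a : Fin m → ℤ | (∀ i, |a i| ≤ H) ∧ (fun i => (a i : ZMod N)) ∈ A} := by
    rintro a ⟨h2, h3⟩
    refine ⟨h2, hA2 a fun p hp hap => h3 (hGood a p (hSP p hp) hap)⟩
  have hfin : {a : Fin m → ℤ | (∀ i, |a i| ≤ H) ∧ (fun i => (a i : ZMod N)) ∈ A}.Finite := by
    apply Set.Finite.subset (Finset.finite_toSet
      (Fintype.piFinset fun _ : Fin m => Finset.Icc (-(H : ℤ)) H))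
    rintro a ⟨h2, -⟩
    rw [Finset.mem_coe, Fintype.mem_piFinset]
    intro i
    rw [Finset.mem_Icc]
    exact abs_le.mp (h2 i)
  have h2 : (({a : Fin m → ℤ | (∀ i, |a i| ≤ H) ∧ ¬ Good a}.ncard : ℝ)) ≤
      A.card * ((2 * H + 1) / N + 1) ^ m :=
    (by exact_mod_cast Set.ncard_le_ncard h1 hfin : _ ≤ _).trans (card_box7 hN0 m H A)
  refine lt_of_le_of_lt h2 ?_
  have h3 : (A.card : ℝ) * ((2 * H + 1) / N + 1) ^ m ≤
      (t * (1 + N / (2 * (H : ℝ) + 1)) ^ m) * (2 * (H : ℝ) + 1) ^ m := by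
    have h4 : (0 : ℝ) ≤ ((2 * H + 1) / N + 1) ^ m := by positivity
    refine (mul_le_mul_of_nonneg_right hA1 h4).trans ?_
    rw [mul_assoc, mul_assoc, ← mul_pow, ← mul_pow]
    have h5 : (N : ℝ) * ((2 * H + 1) / N + 1) = (1 + N / (2 * (H : ℝ) + 1)) * (2 * H + 1) := by
      field_simp
    rw [h5]
  exact lt_of_le_of_lt h3 (mul_lt_mul_of_pos_right (hH0 H hH) hpos)

/-- The sums of `c / p` over finite sets of large primes are unbounded. -/
theorem sum_primes_unbounded7 {c : ℝ} (hc : 0 < c) (P₀ : ℕ) (T : ℝ) :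
    ∃ S : Finset ℕ, (∀ p ∈ S, p.Prime ∧ P₀ ≤ p) ∧ T ≤ ∑ p ∈ S, c / p := by
  by_contra hcon
  push Not at hcon
  apply not_summable_one_div_on_primes
  apply summable_of_sum_le (c := T / c + ∑ p ∈ Finset.range P₀, (1 : ℝ) / p)
  · intro n
    exact Set.indicator_nonneg (fun _ _ => by positivity) n
  · intro s
    have h1 := hcon (s.filter fun p => p.Prime ∧ P₀ ≤ p) fun p hp => (Finset.mem_filter.mp hp).2
    have h2 : ∑ x ∈ s, Set.indicator {p : ℕ | p.Prime} (fun n : ℕ => (1 : ℝ) / n) x ≤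
        ∑ x ∈ s.filter (fun p => p.Prime ∧ P₀ ≤ p), (1 : ℝ) / x +
          ∑ p ∈ Finset.range P₀, (1 : ℝ) / p := by
      have h3 : ∑ x ∈ s, Set.indicator {p : ℕ | p.Prime} (fun n : ℕ => (1 : ℝ) / n) x =
          ∑ x ∈ s.filter (fun p => p.Prime), (1 : ℝ) / x := by
        rw [Finset.sum_filter]
        refine Finset.sum_congr rfl fun x _ => ?_
        rw [Set.indicator_apply]
        rfl
      rw [h3]
      have h4 : s.filter (fun p => p.Prime) ⊆
          s.filter (fun p => p.Prime ∧ P₀ ≤ p) ∪ Finset.range P₀ := by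
        intro p hp
        rw [Finset.mem_filter] at hp
        rw [Finset.mem_union, Finset.mem_filter, Finset.mem_range]
        rcases le_or_gt P₀ p with h | h
        · exact Or.inl ⟨hp.1, hp.2, h⟩
        · exact Or.inr h
      refine (Finset.sum_le_sum_of_subset_of_nonneg h4 fun _ _ _ => by positivity).trans ?_
      have h5 := Finset.sum_union_inter (s₁ := s.filter (fun p => p.Prime ∧ P₀ ≤ p))
        (s₂ := Finset.range P₀) (f := fun x : ℕ => (1 : ℝ) / x)
      have h6 : (0 : ℝ) ≤ ∑ x ∈ s.filter (fun p => p.Prime ∧ P₀ ≤ p) ∩ Finset.range P₀,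
        (1 : ℝ) / x := Finset.sum_nonneg fun _ _ => by positivity
      linarith
    have h7 : ∑ x ∈ s.filter (fun p => p.Prime ∧ P₀ ≤ p), (1 : ℝ) / x ≤ T / c := by
      rw [le_div_iff₀ hc, Finset.sum_mul]
      refine le_trans (le_of_eq ?_) h1.le
      refine Finset.sum_congr rfl fun x _ => ?_
      ring
    linarith

end Pool.Agent.Lib.MP_89bcae_ag

end
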