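import Mathlib
import Pool.Agent.Lib.MP_89bcae_ag.Q.K006

section

/-!
# The polynomials `H_i` and their special roots
-/

namespace Pool.Agent.Lib.MP_89bcae_ag.Frob14

open Polynomial Finset

variable (k F : Type*) [Field k] [Fintype k] [Field F] [Algebra k F]

/-- the elements with `x ^ (q ^ i) = x`, `q = |k|` -/
noncomputable def fixS (i : ℕ) : Finset F := by
  classical
  exact (X ^ (Fintype.card k ^ i) - X : F[X]).roots.toFinset

variable {k F}

theorem one_lt_q_pow {i : ℕ} (hi : 0 < i) : 1 < Fintype.card k ^ i :=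
  Nat.one_lt_pow (by omega) Fintype.one_lt_card

omit [Algebra k F] in
theorem mem_fixS {i : ℕ} (hi : 0 < i) {x : F} : x ∈ fixS k F i ↔ x ^ (Fintype.card k ^ i) = x := by
  classical
  rw [fixS, Multiset.mem_toFinset, mem_roots (FiniteField.X_pow_card_sub_X_ne_zero F
    (one_lt_q_pow hi)), IsRoot.def, eval_sub, eval_pow, eval_X, sub_eq_zero]

theorem card_fixS [IsAlgClosed F] {i : ℕ} (hi : 0 < i) :
    (fixS k F i).card = Fintype.card k ^ i := by
  classical
  have hsep : (X ^ (Fintype.card k ^ i) - X : F[X]).Separable := by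
    obtain ⟨p, hp⟩ := CharP.exists k
    have : Fact p.Prime := ⟨CharP.char_is_prime k p⟩
    have : CharP F p := charP_of_injective_algebraMap (algebraMap k F).injective p
    apply galois_poly_separable p
    obtain ⟨n, hn, hq⟩ := FiniteField.card k p
    rw [hq]
    exact dvd_pow (dvd_pow_self p n.2.ne') hi.ne'
  rw [fixS, Multiset.toFinset_card_of_nodup (nodup_roots hsep),
    ← (IsAlgClosed.splits _).natDegree_eq_card_roots,
    FiniteField.X_pow_card_sub_X_natDegree_eq F (one_lt_q_pow hi)]

omit [Field k] [Algebra k F] in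
theorem frob_iterate (i : ℕ) (x : F) :
    (fun y : F => y ^ Fintype.card k)^[i] x = x ^ (Fintype.card k ^ i) := by
  rw [pow_iterate]

/-- the Frobenius map is injective -/
theorem frob_injective : Function.Injective (fun y : F => y ^ Fintype.card k) := by
  intro a b h
  apply (FiniteField.frobeniusAlgHom k F : F →+* F).injective
  simpa using h

theorem mem_range_of_pow_eq {x : F} (hx : x ^ Fintype.card k = x) :
    x ∈ (algebraMap k F).range := by
  classical
  -- the image of `k` has `q` elements, all roots of `X ^ q - X`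
  have h0 : (X ^ (Fintype.card k) - X : F[X]) ≠ 0 :=
    FiniteField.X_pow_card_sub_X_ne_zero F Fintype.one_lt_card
  have hsub : (univ.image (algebraMap k F)) ⊆ (X ^ (Fintype.card k) - X : F[X]).roots.toFinset := by
    intro y hy
    rw [mem_image] at hy
    obtain ⟨c, _, rfl⟩ := hy
    rw [Multiset.mem_toFinset, mem_roots h0, IsRoot.def, eval_sub, eval_pow, eval_X, ← map_pow,
      FiniteField.pow_card, sub_self]
  have hcard : (X ^ (Fintype.card k) - X : F[X]).roots.toFinset.card ≤
      (univ.image (algebraMap k F)).card := by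
    rw [card_image_of_injective _ (algebraMap k F).injective, card_univ]
    refine (Multiset.toFinset_card_le _).trans ((card_roots' _).trans ?_)
    rw [FiniteField.X_pow_card_sub_X_natDegree_eq F Fintype.one_lt_card]
  have heq := eq_of_subset_of_card_le hsub hcard
  have : x ∈ (X ^ (Fintype.card k) - X : F[X]).roots.toFinset := by
    rw [Multiset.mem_toFinset, mem_roots h0, IsRoot.def, eval_sub, eval_pow, eval_X, hx, sub_self]
  rw [← heq, mem_image] at this
  obtain ⟨c, _, rfl⟩ := this
  exact ⟨c, rfl⟩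

theorem aeval_pow_q (g : k[X]) (x : F) (i : ℕ) :
    aeval (x ^ (Fintype.card k ^ i)) g = (aeval x g) ^ (Fintype.card k ^ i) := by
  induction i with
  | zero => simp
  | succ i ih =>
    rw [pow_succ, pow_mul, pow_mul, ← ih]
    have := FiniteField.frobeniusAlgHom k F
    have h1 := (aeval_algHom_apply (FiniteField.frobeniusAlgHom k F)
      (x ^ (Fintype.card k ^ i)) g)
    simpa using h1

/-- the polynomial `∏ (X - g(c)) (X - c)` over the `c` with `c ^ (q ^ i) = c` -/
noncomputable def HF (F : Type*) [Field F] [Algebra k F] (g : k[X]) (i : ℕ) : F[X] :=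
  ∏ c ∈ fixS k F i, ((X - C (aeval c g)) * (X - C c))

theorem HF_map_frob (g : k[X]) {i : ℕ} (hi : 0 < i) :
    (HF F g i).map (FiniteField.frobeniusAlgHom k F : F →+* F) = HF F g i := by
  classical
  unfold HF
  rw [Polynomial.map_prod]
  refine prod_bij (fun c _ => c ^ Fintype.card k) ?_ ?_ ?_ ?_
  · intro c hc
    rw [mem_fixS hi] at hc ⊢
    rw [← pow_mul, mul_comm, pow_mul, hc]
  · intro c _ c' _ h
    exact frob_injective (k := k) h
  · -- surjective: injective self map of a finite set
    intro c hc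
    have hinj : Set.InjOn (fun y : F => y ^ Fintype.card k) (fixS k F i : Set F) :=
      (frob_injective (k := k)).injOn
    have hmaps : Set.MapsTo (fun y : F => y ^ Fintype.card k) (fixS k F i : Set F) (fixS k F i) := by
      intro y hy
      rw [mem_coe, mem_fixS hi] at hy ⊢
      simp only
      rw [← pow_mul, mul_comm, pow_mul, hy]
    obtain ⟨y, hy, hyc⟩ := (Finset.surjOn_of_injOn_of_card_le _ hmaps hinj le_rfl) hc
    exact ⟨y, hy, hyc⟩
  · intro c _
    have h1 := aeval_pow_q (F := F) g c 1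
    rw [pow_one] at h1
    rw [Polynomial.map_mul, Polynomial.map_sub, Polynomial.map_sub, map_X, map_C, map_C, h1]
    simp

theorem HF_monic (g : k[X]) (i : ℕ) : (HF F g i).Monic := by
  apply monic_prod_of_monic
  intro c _
  exact (monic_X_sub_C _).mul (monic_X_sub_C _)

theorem HF_natDegree [IsAlgClosed F] (g : k[X]) {i : ℕ} (hi : 0 < i) :
    (HF F g i).natDegree = 2 * Fintype.card k ^ i := by
  unfold HF
  rw [natDegree_prod_of_monic _ _ fun c _ => (monic_X_sub_C _).mul (monic_X_sub_C _)]
  rw [sum_congr rfl (g := fun _ => 2) fun c _ => by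
    rw [(monic_X_sub_C _).natDegree_mul (monic_X_sub_C _), natDegree_X_sub_C, natDegree_X_sub_C]]
  rw [sum_const, card_fixS hi, smul_eq_mul, mul_comm]

/-- descent to `k` -/
theorem exists_H (F : Type*) [Field F] [Algebra k F] (g : k[X]) {i : ℕ} (hi : 0 < i) :
    ∃ h : k[X], h.map (algebraMap k F) = HF F g i := by
  have : HF F g i ∈ lifts (algebraMap k F) := by
    rw [lifts_iff_coeff_lifts]
    intro n
    have h1 := congrArg (fun P : F[X] => P.coeff n) (HF_map_frob (F := F) g hi)
    simp only [coeff_map] at h1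
    have h2 : (HF F g i).coeff n ^ Fintype.card k = (HF F g i).coeff n := by
      simpa using h1
    exact mem_range_of_pow_eq h2
  exact (mem_lifts _).1 this

/-- `H_i` over `k` -/
noncomputable def H (F : Type*) [Field F] [Algebra k F] (g : k[X]) (i : ℕ) : k[X] :=
  if hi : 0 < i then (exists_H F g hi).choose else 1

theorem H_map (g : k[X]) {i : ℕ} (hi : 0 < i) :
    (H F g i).map (algebraMap k F) = HF F g i := by
  rw [H, dif_pos hi]
  exact (exists_H F g hi).choose_spec

theorem H_monic (g : k[X]) {i : ℕ} (hi : 0 < i) : (H F g i).Monic := by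
  apply monic_of_injective (algebraMap k F).injective
  rw [H_map g hi]
  exact HF_monic g i

theorem H_natDegree [IsAlgClosed F] (g : k[X]) {i : ℕ} (hi : 0 < i) :
    (H F g i).natDegree = 2 * Fintype.card k ^ i := by
  rw [← natDegree_map (algebraMap k F), H_map g hi, HF_natDegree g hi]

/-- values of `H_i` -/
theorem aeval_H (g : k[X]) {i : ℕ} (hi : 0 < i) (α : F) :
    aeval α (H F g i) = ∏ c ∈ fixS k F i, ((α - aeval c g) * (α - c)) := by
  rw [← eval_map_algebraMap, H_map g hi, HF, eval_prod]
  simp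

/-- roots of `H_j` lie in the field with `q ^ j` elements -/
theorem HF_root {g : k[X]} {j : ℕ} (hj : 0 < j) {v : F} (hv : (HF F g j).IsRoot v) :
    v ^ (Fintype.card k ^ j) = v := by
  rw [IsRoot.def, HF, eval_prod, prod_eq_zero_iff] at hv
  obtain ⟨c, hc, h⟩ := hv
  rw [mem_fixS hj] at hc
  rw [eval_mul, mul_eq_zero] at h
  rcases h with h | h
  · simp only [eval_sub, eval_X, eval_C, sub_eq_zero] at h
    rw [h, ← aeval_pow_q, hc]
  · simp only [eval_sub, eval_X, eval_C, sub_eq_zero] at h
    rw [h, hc]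

theorem HF_rootMultiplicity {g : k[X]} {i : ℕ} (hi : 0 < i) {v : F}
    (hv : v ^ (Fintype.card k ^ i) = v)
    (hmiss : ∀ x : F, x ^ (Fintype.card k ^ i) = x → aeval x g ≠ v) :
    (HF F g i).rootMultiplicity v = 1 := by
  classical
  have hvS : v ∈ fixS k F i := (mem_fixS hi).2 hv
  have h0 := (HF_monic (F := F) g i).ne_zero
  have e : HF F g i = (X - C v) * ((X - C (aeval v g)) *
      ∏ c ∈ (fixS k F i).erase v, ((X - C (aeval c g)) * (X - C c))) := by
    rw [HF, ← mul_prod_erase _ _ hvS]
    ring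
  rw [e] at h0 ⊢
  rw [rootMultiplicity_mul h0, rootMultiplicity_X_sub_C_self]
  rw [rootMultiplicity_eq_zero, add_zero]
  rw [IsRoot.def, eval_mul, eval_prod]
  apply mul_ne_zero
  · simp only [eval_sub, eval_X, eval_C]
    exact sub_ne_zero.2 (hmiss v hv).symm
  · apply prod_ne_zero_iff.2
    intro c hc
    rw [mem_erase, mem_fixS hi] at hc
    rw [eval_mul]
    apply mul_ne_zero
    · simp only [eval_sub, eval_X, eval_C]
      exact sub_ne_zero.2 (hmiss c hc.2).symm
    · simp only [eval_sub, eval_X, eval_C]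
      exact sub_ne_zero.2 (Ne.symm hc.1)

end Pool.Agent.Lib.MP_89bcae_ag.Frob14

end

section

/-!
# Counting the exceptional elements
-/

namespace Pool.Agent.Lib.MP_89bcae_ag.Frob14

open Polynomial Finset

open scoped Classical

section fix

variable (k F : Type*) [Field k] [Fintype k] [Field F] [Algebra k F]

/-- the subfield with `q ^ i` elements -/
def fixI (i : ℕ) : IntermediateField k F where
  toSubalgebra := AlgHom.equalizer (FiniteField.frobeniusAlgHom k F ^ i) (AlgHom.id k F)
  inv_mem' := by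
    intro x hx
    change (FiniteField.frobeniusAlgHom k F ^ i) x⁻¹ = x⁻¹
    rw [map_inv₀]
    congr 1

variable {k F}

theorem frobPow_apply (i : ℕ) (x : F) :
    (FiniteField.frobeniusAlgHom k F ^ i) x = x ^ (Fintype.card k ^ i) := by
  induction i generalizing x with
  | zero => simp
  | succ i ih =>
    rw [pow_succ, AlgHom.mul_apply, ih]
    simp only [FiniteField.frobeniusAlgHom_apply]
    rw [← pow_mul, pow_succ, mul_comm]

theorem mem_fixI {i : ℕ} {x : F} : x ∈ fixI k F i ↔ x ^ (Fintype.card k ^ i) = x := by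
  rw [← frobPow_apply]
  rfl

theorem coe_fixI {i : ℕ} (hi : 0 < i) : ((fixI k F i : IntermediateField k F) : Set F) =
    (fixS k F i : Set F) := by
  ext x
  rw [SetLike.mem_coe, mem_fixI, mem_coe, mem_fixS hi]

theorem finite_fixI {i : ℕ} (hi : 0 < i) : Finite (fixI k F i) := by
  have : ((fixI k F i : IntermediateField k F) : Set F).Finite := by
    rw [coe_fixI hi]; exact finite_toSet _
  exact this.to_subtype

theorem natCard_fixI [IsAlgClosed F] {i : ℕ} (hi : 0 < i) :
    Nat.card (fixI k F i) = Fintype.card k ^ i := by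
  have h1 : Nat.card (fixI k F i) = ((fixI k F i : IntermediateField k F) : Set F).ncard := rfl
  rw [h1, coe_fixI hi, Set.ncard_coe_finset, card_fixS hi]

omit [Fintype k] in
theorem eq_cubic {g : k[X]} (hg : g.Monic) (hdeg : g.natDegree = 3) :
    g = X ^ 3 + C (g.coeff 2) * X ^ 2 + C (g.coeff 1) * X + C (g.coeff 0) := by
  conv_lhs => rw [g.as_sum_range_C_mul_X_pow, hdeg]
  simp only [sum_range_succ, range_zero, sum_empty, zero_add, pow_zero, mul_one, pow_one]
  have : g.coeff 3 = 1 := by rw [← hdeg]; exact hg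
  rw [this, C_1, one_mul]
  ring

theorem missed_card [IsAlgClosed F] (h2 : (2 : k) ≠ 0) {g : k[X]} (hg : g.Monic)
    (hdeg : g.natDegree = 3) (hcol : ∃ x y : k, x ≠ y ∧ g.eval x = g.eval y) {i : ℕ} (hi : 0 < i) :
    Fintype.card k ^ i ≤
      3 * {v ∈ fixS k F i | ∀ x : F, x ^ (Fintype.card k ^ i) = x → aeval x g ≠ v}.card + 5 := by
  have := finite_fixI (k := k) (F := F) hi
  let _ : Fintype (fixI k F i) := Fintype.ofFinite _
  obtain ⟨x, y, hxy, hcol⟩ := hcol
  let K := fixI k F i
  have hev : ∀ z : K, z ^ 3 + algebraMap k K (g.coeff 2) * z ^ 2 + algebraMap k K (g.coeff 1) * z +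
      algebraMap k K (g.coeff 0) = aeval z g := by
    intro z
    conv_rhs => rw [eq_cubic hg hdeg]
    simp
  have h2' : (2 : K) ≠ 0 := by
    have := (map_ne_zero (algebraMap k K)).2 h2
    rwa [map_ofNat] at this
  have h1 := Count14.missed h2' (algebraMap k K (g.coeff 2)) (algebraMap k K (g.coeff 1))
    (algebraMap k K (g.coeff 0)) (x₀ := algebraMap k K x) (y₀ := algebraMap k K y)
    (fun h => hxy ((algebraMap k K).injective h)) (by
      rw [hev, hev, aeval_algebraMap_apply, aeval_algebraMap_apply, coe_aeval_eq_eval,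
        coe_aeval_eq_eval, hcol])
  rw [← Nat.card_eq_fintype_card, natCard_fixI hi] at h1
  refine h1.trans ?_
  gcongr ?_ + _
  apply Nat.mul_le_mul_left
  apply card_le_card_of_injOn (fun z : K => (z : F))
  · intro v hv
    simp only [coe_filter, mem_univ, true_and, Set.mem_ofPred_eq] at hv
    simp only [coe_filter, Set.mem_ofPred_eq]
    refine ⟨(mem_fixS hi).2 (mem_fixI.1 v.2), ?_⟩
    intro x hx h
    apply hv ⟨x, mem_fixI.2 hx⟩
    rw [hev]
    apply Subtype.ext
    rw [← h]
    exact (aeval_algebraMap_apply F (⟨x, mem_fixI.2 hx⟩ : K) g).symm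
  · intro a _ b _ h
    exact Subtype.ext h

theorem two_mul_sum_pow_le {q : ℕ} (hq : 3 ≤ q) (m : ℕ) :
    2 * ∑ d ∈ Icc 1 m, q ^ d ≤ 3 * q ^ m := by
  induction m with
  | zero => simp
  | succ m ih =>
    have e : Icc 1 (m + 1) = insert (m + 1) (Icc 1 m) := by
      ext a
      simp only [mem_insert, mem_Icc]
      omega
    rw [e, sum_insert (by simp), pow_succ]
    nlinarith [pow_pos (show 0 < q by omega) m]

theorem small_card [IsAlgClosed F] (i : ℕ) (hi : 0 < i) :
    {v ∈ fixS k F i | ∃ j, 0 < j ∧ j < i ∧ v ^ (Fintype.card k ^ j) = v}.card ≤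
      ∑ d ∈ Icc 1 (i / 2), Fintype.card k ^ d := by
  have hsub : {v ∈ fixS k F i | ∃ j, 0 < j ∧ j < i ∧ v ^ (Fintype.card k ^ j) = v} ⊆
      (Icc 1 (i / 2)).biUnion fun d => fixS k F d := by
    intro v hv
    rw [mem_filter, mem_fixS hi] at hv
    obtain ⟨hvi, j, hj0, hji, hvj⟩ := hv
    set f : F → F := fun y => y ^ Fintype.card k with hf
    have hpi : Function.IsPeriodicPt f i v := by
      rw [Function.IsPeriodicPt, Function.IsFixedPt, hf, frob_iterate]; exact hvi
    have hpj : Function.IsPeriodicPt f j v := by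
      rw [Function.IsPeriodicPt, Function.IsFixedPt, hf, frob_iterate]; exact hvj
    have hdi := hpi.minimalPeriod_dvd
    have hdj := Nat.le_of_dvd hj0 hpj.minimalPeriod_dvd
    have hd0 := hpi.minimalPeriod_pos hi
    rw [mem_biUnion]
    refine ⟨Function.minimalPeriod f v, ?_, ?_⟩
    · rw [mem_Icc]
      refine ⟨hd0, ?_⟩
      obtain ⟨m, hm⟩ := hdi
      have hm2 : 2 ≤ m := by
        by_contra h
        have h' : m ≤ 1 := by omega
        have : Function.minimalPeriod f v * m ≤ Function.minimalPeriod f v * 1 :=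
          Nat.mul_le_mul_left _ h'
        omega
      rw [Nat.le_div_iff_mul_le (by norm_num)]
      conv_rhs => rw [hm]
      exact Nat.mul_le_mul_left _ hm2
    · rw [mem_fixS hd0]
      have := Function.isPeriodicPt_minimalPeriod f v
      rw [Function.IsPeriodicPt, Function.IsFixedPt, hf, frob_iterate] at this
      exact this
  refine (card_le_card hsub).trans (card_biUnion_le.trans (le_of_eq ?_))
  refine sum_congr rfl fun d hd => ?_
  rw [mem_Icc] at hd
  exact card_fixS (by omega)

/-- the elements of exact degree `i` that are not values of `g` on the field with `q ^ i`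
elements -/
theorem good_count [IsAlgClosed F] (h2 : (2 : k) ≠ 0) {g : k[X]} (hg : g.Monic)
    (hdeg : g.natDegree = 3) (hcol : ∃ x y : k, x ≠ y ∧ g.eval x = g.eval y) {i : ℕ} (hi : 0 < i) :
    2 * Fintype.card k ^ i ≤
      6 * {v ∈ fixS k F i | (∀ x : F, x ^ (Fintype.card k ^ i) = x → aeval x g ≠ v) ∧
        ∀ j, 0 < j → j < i → v ^ (Fintype.card k ^ j) ≠ v}.card +
      9 * Fintype.card k ^ (i / 2) + 10 := by
  have hq : 3 ≤ Fintype.card k := by
    by_contra h
    have h1 : Fintype.card k = 2 := by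
      have := Fintype.one_lt_card (α := k)
      omega
    have h3 : (Fintype.card k : k) = 0 := FiniteField.cast_card_eq_zero k
    rw [h1] at h3
    exact h2 (by exact_mod_cast h3)
  have h1 := missed_card (F := F) h2 hg hdeg hcol hi
  have h3 := small_card (k := k) (F := F) i hi
  have h4 := two_mul_sum_pow_le hq (i / 2)
  have h5 : {v ∈ fixS k F i | ∀ x : F, x ^ (Fintype.card k ^ i) = x → aeval x g ≠ v}.card ≤
      {v ∈ fixS k F i | (∀ x : F, x ^ (Fintype.card k ^ i) = x → aeval x g ≠ v) ∧
        ∀ j, 0 < j → j < i → v ^ (Fintype.card k ^ j) ≠ v}.card +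
      {v ∈ fixS k F i | ∃ j, 0 < j ∧ j < i ∧ v ^ (Fintype.card k ^ j) = v}.card := by
    refine (card_le_card ?_).trans (card_union_le _ _)
    intro v hv
    rw [mem_filter] at hv
    rw [mem_union, mem_filter, mem_filter]
    by_cases h : ∃ j, 0 < j ∧ j < i ∧ v ^ (Fintype.card k ^ j) = v
    · exact Or.inr ⟨hv.1, h⟩
    · push Not at h
      exact Or.inl ⟨hv.1, hv.2, h⟩
  omega

theorem exists_special [IsAlgClosed F] (h2 : (2 : k) ≠ 0) {g : k[X]} (hg : g.Monic)
    (hdeg : g.natDegree = 3) (hcol : ∃ x y : k, x ≠ y ∧ g.eval x = g.eval y) {i : ℕ} (hi : 3 ≤ i) :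
    ∃ v : F, v ^ (Fintype.card k ^ i) = v ∧
      (∀ x : F, x ^ (Fintype.card k ^ i) = x → aeval x g ≠ v) ∧
      ∀ j, 0 < j → j < i → v ^ (Fintype.card k ^ j) ≠ v := by
  have hq : 3 ≤ Fintype.card k := by
    by_contra h
    have h1 : Fintype.card k = 2 := by
      have := Fintype.one_lt_card (α := k)
      omega
    have h3 : (Fintype.card k : k) = 0 := FiniteField.cast_card_eq_zero k
    rw [h1] at h3
    exact h2 (by exact_mod_cast h3)
  have h1 := good_count (F := F) h2 hg hdeg hcol (i := i) (by omega)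
  have h3 : 9 * Fintype.card k ^ (i / 2) ≤ Fintype.card k ^ i := by
    calc 9 * Fintype.card k ^ (i / 2) ≤ Fintype.card k ^ 2 * Fintype.card k ^ (i / 2) := by
          apply Nat.mul_le_mul_right
          calc 9 = 3 ^ 2 := by norm_num
            _ ≤ _ := Nat.pow_le_pow_left hq 2
      _ = Fintype.card k ^ (2 + i / 2) := by rw [pow_add]
      _ ≤ _ := Nat.pow_le_pow_right (by omega) (by omega)
  have h4 : 27 ≤ Fintype.card k ^ i := by
    calc 27 = 3 ^ 3 := by norm_num
      _ ≤ Fintype.card k ^ 3 := Nat.pow_le_pow_left hq 3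
      _ ≤ _ := Nat.pow_le_pow_right (by omega) hi
  have h5 : 0 < {v ∈ fixS k F i | (∀ x : F, x ^ (Fintype.card k ^ i) = x → aeval x g ≠ v) ∧
        ∀ j, 0 < j → j < i → v ^ (Fintype.card k ^ j) ≠ v}.card := by omega
  obtain ⟨v, hv⟩ := card_pos.1 h5
  rw [mem_filter, mem_fixS (by omega)] at hv
  exact ⟨v, hv.1, hv.2.1, hv.2.2⟩

end fix

end Pool.Agent.Lib.MP_89bcae_ag.Frob14

end
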