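import Mathlib

/-!
# Lifting the Frobenius automorphism of a finite residue field
-/

open Polynomial

namespace Pool.Agent.Lib.MP_89bcae_ag

set_option linter.unusedSectionVars false
set_option linter.style.haveILetI false

section Red

variable {R F κ Fκ : Type*} [CommRing R] [IsDomain R] [Field F] [Algebra R F] [FaithfulSMul R F]
  [Field κ] [Field Fκ] [Algebra κ Fκ] [IsAlgClosed Fκ]

/-- Extension of the reduction to the integral closure. -/
lemma exists_red14 (π : R →+* κ) (hπ : Function.Surjective π) :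
    ∃ ρ : integralClosure R F →+* Fκ,
      ∀ r, ρ (algebraMap R (integralClosure R F) r) = algebraMap κ Fκ (π r) := by
  set O := integralClosure R F with hO
  have hmax : (RingHom.ker π).IsMaximal := RingHom.ker_isMaximal_of_surjective π hπ
  have hinj : Function.Injective (algebraMap R O) := FaithfulSMul.algebraMap_injective R O
  obtain ⟨Q, hQ, hQ'⟩ := Ideal.exists_ideal_over_maximal_of_isIntegral (S := O) (RingHom.ker π) (by
    rw [(RingHom.injective_iff_ker_eq_bot _).mp hinj]
    exact bot_le)
  letI := Ideal.Quotient.field Q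
  -- the map from `κ`
  let e : κ →+* O ⧸ Q := (RingHom.liftOfRightInverse π _ (Function.rightInverse_surjInv hπ))
    ⟨(Ideal.Quotient.mk Q).comp (algebraMap R O), by
      intro x hx
      rw [RingHom.mem_ker, RingHom.comp_apply, Ideal.Quotient.eq_zero_iff_mem, ← Ideal.mem_comap, hQ']
      exact hx⟩
  have he : ∀ r, e (π r) = Ideal.Quotient.mk Q (algebraMap R O r) := fun r =>
    RingHom.liftOfRightInverse_comp_apply π _ _ _ r
  letI : Algebra κ (O ⧸ Q) := e.toAlgebra
  have halg : Algebra.IsAlgebraic κ (O ⧸ Q) := by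
    refine ⟨fun x => ?_⟩
    obtain ⟨x, rfl⟩ := Ideal.Quotient.mk_surjective x
    have hx : IsIntegral R x := Algebra.IsIntegral.isIntegral x
    obtain ⟨p, hp, hpx⟩ := hx
    apply IsIntegral.isAlgebraic
    refine ⟨p.map π, hp.map π, ?_⟩
    rw [eval₂_map]
    have h1 : (algebraMap κ (O ⧸ Q)).comp π = (Ideal.Quotient.mk Q).comp (algebraMap R O) :=
      RingHom.ext he
    rw [h1, ← hom_eval₂, hpx, map_zero]
  let f : (O ⧸ Q) →ₐ[κ] Fκ := IsAlgClosed.lift
  refine ⟨(f : (O ⧸ Q) →+* Fκ).comp (Ideal.Quotient.mk Q), fun r => ?_⟩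
  rw [RingHom.comp_apply, ← he]
  exact f.commutes (π r)

end Red

section Frob

variable {R K F κ Fκ : Type*} [CommRing R] [IsDomain R] [IsIntegrallyClosed R] [Field K]
  [Algebra R K] [IsFractionRing R K] [Field F] [Algebra K F] [Algebra R F] [IsScalarTower R K F]
  [Field κ] [Field Fκ] [Algebra κ Fκ]

attribute [local instance] Ideal.Quotient.field in
/-- The Frobenius element of a finite Galois extension. -/
lemma exists_sigma14 [Finite κ] (π : R →+* κ) (hπ : Function.Surjective π)
    (ρ : integralClosure R F →+* Fκ)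
    (hρ : ∀ r, ρ (algebraMap R (integralClosure R F) r) = algebraMap κ Fκ (π r))
    (M : IntermediateField K F) [FiniteDimensional K M] [IsGalois K M] :
    ∃ σ : M ≃ₐ[K] M, ∀ (x : M) (hx : IsIntegral R (x : F)),
      ∃ hx' : IsIntegral R ((σ x : M) : F), ρ ⟨(σ x : M), hx'⟩ = ρ ⟨x, hx⟩ ^ Nat.card κ := by
  have hRM : IsScalarTower R M F := IsScalarTower.of_algebraMap_eq fun r => by
    rw [IsScalarTower.algebraMap_apply R K F, IsScalarTower.algebraMap_apply R K M]
    rfl
  set B := integralClosure R M with hB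
  have hBF : ∀ x : B, IsIntegral R (((x : M) : F)) := fun x =>
    (x.2 : IsIntegral R (x : M)).map (IsScalarTower.toAlgHom R M F)
  let ι : B →+* integralClosure R F :=
    { toFun := fun x => ⟨((x : M) : F), hBF x⟩
      map_one' := rfl
      map_mul' := fun _ _ => rfl
      map_zero' := rfl
      map_add' := fun _ _ => rfl }
  set Q : Ideal B := RingHom.ker (ρ.comp ι) with hQ
  have hQp : Q.IsPrime := RingHom.ker_isPrime _
  have hfr : IsFractionRing B M := integralClosure.isFractionRing_of_finite_extension K M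
  have hinv : Algebra.IsInvariant R B (B ≃ₐ[R] B) := Algebra.isInvariant_of_isGalois' R K M B
  have hfinG : Finite (B ≃ₐ[R] B) := Finite.of_equiv _ (galRestrict R K M B).toEquiv
  -- the prime below
  have hP : Q.under R = RingHom.ker π := by
    ext r
    rw [Ideal.under_def, Ideal.mem_comap, hQ, RingHom.mem_ker, RingHom.mem_ker, RingHom.comp_apply]
    have h1 : ι (algebraMap R B r) = algebraMap R (integralClosure R F) r := by
      apply Subtype.ext
      change ((algebraMap R M r : M) : F) = algebraMap R F r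
      exact (IsScalarTower.algebraMap_apply R M F r).symm
    rw [h1, hρ, FaithfulSMul.algebraMap_eq_zero_iff]
  have hPm : (Q.under R).IsMaximal := by
    rw [hP]
    exact RingHom.ker_isMaximal_of_surjective π hπ
  have hint : Algebra.IsIntegral R B := inferInstance
  have hQm : Q.IsMaximal := Ideal.isMaximal_of_isIntegral_of_isMaximal_comap Q hPm
  have hequiv : (R ⧸ Q.under R) ≃ κ := by
    rw [hP]
    exact (RingHom.quotientKerEquivOfSurjective hπ).toEquiv
  have hfin : Finite (R ⧸ Q.under R) := Finite.of_equiv _ hequiv.symm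
  have hsep : Algebra.IsSeparable (R ⧸ Q.under R) (B ⧸ Q) := by
    have h0 : Algebra.IsIntegral (R ⧸ Q.under R) (B ⧸ Q) := inferInstance
    have h1 : Algebra.IsAlgebraic (R ⧸ Q.under R) (B ⧸ Q) :=
      ⟨fun x => (h0.isIntegral x).isAlgebraic⟩
    exact Algebra.IsAlgebraic.isSeparable_of_perfectField
  have hmf : Module.Finite (R ⧸ Q.under R) (B ⧸ Q) :=
    Ideal.Quotient.finite_of_isInvariant (B ≃ₐ[R] B) (Q.under R) Q
  have hfinB : Finite (B ⧸ Q) := Module.finite_of_finite (R ⧸ Q.under R)
  obtain ⟨τ, hτ⟩ := IsArithFrobAt.exists_of_isInvariant R (B ≃ₐ[R] B) Q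
  refine ⟨(galRestrict R K M B).symm τ, fun x hx => ?_⟩
  have hxM : IsIntegral R x := by
    rwa [← isIntegral_algebraMap_iff (A := M) (B := F) (algebraMap M F).injective]
  set y : B := ⟨x, hxM⟩ with hy
  have h2 : (((galRestrict R K M B).symm τ) x : M) = (τ y : B) := by
    have h3 := algebraMap_galRestrict_apply R (B := B) ((galRestrict R K M B).symm τ) y
    rw [MulEquiv.apply_symm_apply] at h3
    exact h3.symm
  have hx' : IsIntegral R ((((galRestrict R K M B).symm τ) x : M) : F) := by
    rw [h2]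
    exact hBF _
  refine ⟨hx', ?_⟩
  have h4 := hτ y
  rw [hQ, RingHom.mem_ker, map_sub, map_pow, sub_eq_zero] at h4
  have h5 : ρ ⟨(((galRestrict R K M B).symm τ) x : M), hx'⟩ = (ρ.comp ι) (τ y) := by
    rw [RingHom.comp_apply]
    congr 1
    apply Subtype.ext
    exact congrArg (fun z : M => (z : F)) h2
  rw [h5]
  have h6 : Nat.card κ = Nat.card (R ⧸ Q.under R) := (Nat.card_congr hequiv).symm
  rw [h6]
  exact h4

/-- **Lifting Frobenius.** -/
theorem exists_frob_lift14 [Finite κ] [IsAlgClosed F] [Algebra.IsAlgebraic K F] (π : R →+* κ)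
    (hπ : Function.Surjective π) (ρ : integralClosure R F →+* Fκ)
    (hρ : ∀ r, ρ (algebraMap R (integralClosure R F) r) = algebraMap κ Fκ (π r))
    (S : Finset F) (hS : ∀ x ∈ S, IsSeparable K x) :
    ∃ (φ : F ≃ₐ[K] F) (M : Set F), (∀ x ∈ S, x ∈ M) ∧ ∀ x ∈ M, φ x ∈ M ∧
      ∀ hx : IsIntegral R x, ∃ hx' : IsIntegral R (φ x),
        ρ ⟨φ x, hx'⟩ = ρ ⟨x, hx⟩ ^ Nat.card κ := by
  classical
  have hcl : IsAlgClosure K F := ⟨inferInstance, inferInstance⟩
  have hnF : Normal K F := IsAlgClosure.normal K F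
  set M₀ : IntermediateField K F := IntermediateField.adjoin K (S : Set F) with hM₀
  have hfd : FiniteDimensional K M₀ :=
    IntermediateField.finiteDimensional_adjoin fun x _ => Algebra.IsIntegral.isIntegral x
  have hsep₀ : Algebra.IsSeparable K M₀ :=
    (IntermediateField.isSeparable_adjoin_iff_isSeparable (F := K) (E := F)).mpr hS
  set M : IntermediateField K F := IntermediateField.normalClosure K M₀ F with hM
  have hMn : Normal K M := normalClosure.normal K M₀ F
  have hMfd : FiniteDimensional K M := normalClosure.is_finiteDimensional K M₀ F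
  have hMs : Algebra.IsSeparable K M := by
    rw [← le_separableClosure_iff, hM, normalClosure_le_iff]
    intro f
    have : Algebra.IsSeparable K f.fieldRange :=
      AlgEquiv.Algebra.isSeparable (AlgEquiv.ofInjectiveField f)
    exact le_separableClosure K F _
  have hMG : IsGalois K M := ⟨⟩
  obtain ⟨σ, hσ⟩ := exists_sigma14 π hπ ρ hρ M
  refine ⟨σ.liftNormal F, (M : Set F), fun x hx => ?_, fun x hx => ?_⟩
  · exact (IntermediateField.le_normalClosure M₀) (IntermediateField.subset_adjoin K _ hx)
  · have h1 : (σ.liftNormal F) x = ((σ ⟨x, hx⟩ : M) : F) := σ.liftNormal_commutes F ⟨x, hx⟩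
    rw [h1]
    exact ⟨(σ ⟨x, hx⟩).2, fun hi => hσ ⟨x, hx⟩ hi⟩

end Frob

end Pool.Agent.Lib.MP_89bcae_ag
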