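import Mathlib
import Pool.Agent.Lib.MP_89bcae_ag.Defs8

section

/-!
# Invariant classes in the `ℓ`-adic Selmer group of the Jacobian of `D(t) y ^ ℓ = g(x) - t`

`k` is a field, `F` an algebraic closure of `k`, `L` the field of rational functions `F(t)` and `Ω`
an algebraic closure of `L`.
-/

open Polynomial IsDedekindDomain

open scoped Classical

namespace Pool.Agent.Lib.MP_89bcae_ag.Sup

universe u

/-- The coordinate ring `A[x, y] / (y ^ ℓ - f(x))` of the affine curve `y ^ ℓ = f(x)`. -/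
abbrev Coord (ℓ : ℕ) {A : Type u} [Field A] (f : A[X]) : Type u :=
  AdjoinRoot (X ^ ℓ - C f : A[X][X])

/-- The Picard group of the affine curve `y ^ ℓ = f(x)`, written additively. If `f` is separable of
degree prime to `ℓ` and `A` is an algebraically closed field in which `ℓ ≠ 0`, then the smooth
projective model of the curve has one point at infinity and this is its group of divisor classes of
degree zero, the group of points over `A` of the Jacobian variety. -/
abbrev Jac (ℓ : ℕ) {A : Type u} [Field A] (f : A[X]) : Type u :=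
  Additive (CommRing.Pic (Coord ℓ f))

/-- The homomorphism of coordinate rings induced by a homomorphism `σ` of fields which maps the
coefficients of `f` to those of `f'`. -/
noncomputable def coordMap (ℓ : ℕ) {A B : Type u} [Field A] [Field B] (σ : A →+* B) {f : A[X]}
    {f' : B[X]} (h : f.map σ = f') : Coord ℓ f →+* Coord ℓ f' :=
  AdjoinRoot.map (mapRingHom σ) _ _ (by
    rw [← h, Polynomial.map_sub, Polynomial.map_pow, Polynomial.map_X, Polynomial.map_C,
      coe_mapRingHom])

/-- The homomorphism of Jacobians induced by a homomorphism `σ` of fields which maps the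
coefficients of `f` to those of `f'`. -/
noncomputable def jacMap (ℓ : ℕ) {A B : Type u} [Field A] [Field B] (σ : A →+* B) {f : A[X]}
    {f' : B[X]} (h : f.map σ = f') : Jac ℓ f →+ Jac ℓ f' :=
  MonoidHom.toAdditive (CommRing.Pic.mapRingHom (coordMap ℓ σ h))

section

variable {L : Type u} [Field L]

/-- The points of the Jacobian of `y ^ ℓ = f(x)` over an extension `A` of the field `L` of the
coefficients of `f`. -/
abbrev JacOver (ℓ : ℕ) (f : L[X]) (A : Type u) [Field A] [Algebra L A] : Type u :=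
  Jac ℓ (f.map (algebraMap L A))

/-- The action of a homomorphism of extensions of `L` on the points of the Jacobian. -/
noncomputable def push (ℓ : ℕ) (f : L[X]) {A B : Type u} [Field A] [Field B] [Algebra L A]
    [Algebra L B] (σ : A →ₐ[L] B) : JacOver ℓ f A →+ JacOver ℓ f B :=
  jacMap ℓ (σ : A →+* B) (by rw [Polynomial.map_map, AlgHom.comp_algebraMap])

variable {Ω : Type u} [Field Ω] [Algebra L Ω]

/-- `c` is a continuous `1`-cocycle of `Aut(Ω/L)` with values in the `ℓ`-adic Tate module of the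
Jacobian of `y ^ ℓ = f(x)`; its component `c n` has values in the points of order dividing
`ℓ ^ n`. -/
structure IsTateCocycle (ℓ : ℕ) (f : L[X]) (c : ℕ → (Ω ≃ₐ[L] Ω) → JacOver ℓ f Ω) : Prop where
  zero : ∀ σ, c 0 σ = 0
  smul : ∀ n σ, ℓ • c (n + 1) σ = c n σ
  cocycle : ∀ n (σ τ : Ω ≃ₐ[L] Ω), c n (σ * τ) = c n σ + push ℓ f (σ : Ω →ₐ[L] Ω) (c n τ)
  locallyConstant : ∀ n, IsLocallyConstant (c n)

/-- The class of the cocycle `c` in `H¹(Lv, J)` is trivial, where `Lv` is a field containing `L`: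
for every algebraic closure `M` of `Lv` and every embedding `j` of `Ω` in `M` over `L`, there is a
point `Q` of `J(M)` with `j(c(g|_Ω)) = g(Q) - Q` for all `g` in `Aut(M/Lv)`. -/
def IsLocallyTrivial (ℓ : ℕ) (f : L[X]) (c : (Ω ≃ₐ[L] Ω) → JacOver ℓ f Ω)
    (Lv : Type u) [Field Lv] [Algebra L Lv] : Prop :=
  ∀ (M : Type u) [Field M] [Algebra Lv M] [IsAlgClosure Lv M] [Algebra L M] [IsScalarTower L Lv M]
    (j : Ω →ₐ[L] M), ∃ Q : JacOver ℓ f M, ∀ (g : M ≃ₐ[Lv] M) (g' : Ω ≃ₐ[L] Ω),
      (∀ x, j (g' x) = g (j x)) →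
        push ℓ f j (c g') = push ℓ f (g.restrictScalars L : M →ₐ[L] M) Q - Q

/-- The class of the cocycle `c` in `H¹(L, T_ℓ J)` is fixed, up to torsion, by the automorphism `γ`
of `Ω` (which fixes the coefficients of `f`): some positive multiple `m (γ c - c)` is at every level
a coboundary. Here `(γ c)(h) = γ (c (γ⁻¹ h γ))`. -/
def IsFixedBy (ℓ : ℕ) (f : L[X]) (c : ℕ → (Ω ≃ₐ[L] Ω) → JacOver ℓ f Ω) (γ : Ω ≃+* Ω)
    (hγ : (f.map (algebraMap L Ω)).map (γ : Ω →+* Ω) = f.map (algebraMap L Ω)) : Prop :=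
  ∃ m : ℕ, 0 < m ∧ ∀ n, ∃ A : JacOver ℓ f Ω, ℓ ^ n • A = 0 ∧
    ∀ g h : Ω ≃ₐ[L] Ω, (∀ x, γ (g x) = h (γ x)) →
      m • (jacMap ℓ (γ : Ω →+* Ω) hγ (c n g) - c n h) = push ℓ f (h : Ω →ₐ[L] Ω) A - A

/-- The class of the cocycle `c` vanishes: at every level `n`, it is the coboundary of a point of
order dividing `ℓ ^ n`. -/
def IsTrivial (ℓ : ℕ) (f : L[X]) (c : ℕ → (Ω ≃ₐ[L] Ω) → JacOver ℓ f Ω) : Prop :=
  ∀ n, ∃ A : JacOver ℓ f Ω, ℓ ^ n • A = 0 ∧ ∀ g : Ω ≃ₐ[L] Ω,
    c n g = push ℓ f (g : Ω →ₐ[L] Ω) A - A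

end

/-- The polynomial `D(t)⁻¹ (g(x) - t)` in `x` over the field `L = F(t)`. -/
noncomputable def curvePoly (k F L : Type u) [Field k] [Field F] [Algebra k F] [Field L]
    [Algebra F[X] L] (g D : k[X]) : L[X] :=
  C ((base k F L L D)⁻¹) * (g.map ((base k F L L).comp C) - C (base k F L L X))

/-- Let `k'` be an extension of `k` in `F`. Every class of the `ℓ`-adic Selmer group over `L = F(t)`
of the Jacobian of the curve `D(t) y ^ ℓ = g(x) - t` (a class in `H¹(L, T_ℓ J)` which is locally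
trivial at all finite places, at all levels) fixed, up to torsion, by the automorphisms of `Ω` over
`k'(t)` vanishes. -/
def NoTateClass (ℓ : ℕ) {k F : Type u} (L Ω : Type u) [Field k] [Field F] [Algebra k F] [Field L]
    [Algebra F[X] L] [IsFractionRing F[X] L] [Field Ω] [Algebra L Ω] (g D : k[X])
    (k' : IntermediateField k F) : Prop :=
  ∀ c : ℕ → (Ω ≃ₐ[L] Ω) → JacOver ℓ (curvePoly k F L g D) Ω,
    IsTateCocycle ℓ (curvePoly k F L g D) c →
    (∀ (v : HeightOneSpectrum F[X]) (n : ℕ),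
      IsLocallyTrivial ℓ (curvePoly k F L g D) (c n) (v.adicCompletion L)) →
    (∀ (γ : Ω ≃+* Ω) hγ, (∀ p : k'[X], γ (base k' F L Ω p) = base k' F L Ω p) →
      IsFixedBy ℓ (curvePoly k F L g D) c γ hγ) →
    IsTrivial ℓ (curvePoly k F L g D) c

/-- The roots in `F` of the polynomial `D(g(x))`. -/
def roots (k F : Type u) [Field k] [Field F] [Algebra k F] (g D : k[X]) : Set F :=
  {β | aeval (aeval β g) D = 0}

/-- The arithmetic condition on the differences of the roots of `D(g(x))`: let `K` be the field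
generated by the set `R` of these roots over `k`. There are no function `e : R → ℤ`, not divisible
by `ℓ`, with sum divisible by `ℓ` over each fibre of `g` in `R`, and `κ` in `K` such that
`κ ^ e(β) ∏ (β - β') ^ (e(β) - e(β'))`, where `β'` runs through the elements of `R` with
`g(β') ≠ g(β)`, is the `ℓ`-th power of an element of `K` for all `β` in `R`. -/
def IsIndependent (ℓ : ℕ) (k F : Type u) [Field k] [Field F] [Algebra k F] (g D : k[X]) : Prop :=
  ∀ (e : F → ℤ) (κ : F), κ ≠ 0 → κ ∈ IntermediateField.adjoin k (roots k F g D) →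
    (∀ β ∈ roots k F g D,
      (ℓ : ℤ) ∣ ∑ᶠ β' ∈ {β' : F | aeval β' g = aeval β g}, e β') →
    (∀ β ∈ roots k F g D, ∃ w ∈ IntermediateField.adjoin k (roots k F g D),
      w ^ ℓ = κ ^ e β *
        ∏ᶠ β' ∈ {β' ∈ roots k F g D | aeval β' g ≠ aeval β g}, (β - β') ^ (e β - e β')) →
    ∀ β ∈ roots k F g D, (ℓ : ℤ) ∣ e β

end Pool.Agent.Lib.MP_89bcae_ag.Sup

end

section

/-!
# The curve `y ^ ℓ = f(x)` over an algebraically closed field: basic definitions
-/

open Polynomial IsDedekindDomain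

open scoped Classical

namespace Pool.Agent.Lib.MP_89bcae_ag.Sup

universe u

/-- The hypotheses on the curve `y ^ ℓ = f(x)`. -/
class IsGood (ℓ : ℕ) {E : Type u} [Field E] (f : E[X]) : Prop where
  alg : IsAlgClosed E
  prime : ℓ.Prime
  ne_zero : (ℓ : E) ≠ 0
  separable : f.Separable
  coprime : f.natDegree.Coprime ℓ

section

variable (ℓ : ℕ) {E : Type u} [Field E] (f : E[X])

/-- The points of the affine curve `y ^ ℓ = f(x)`. -/
@[ext]
structure Pt where
  /-- the first coordinate -/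
  x : E
  /-- the second coordinate -/
  y : E
  eq : y ^ ℓ = f.eval x

/-- The ring of functions on the curve: the field of fractions of the coordinate ring. -/
abbrev Fn : Type u := FractionRing (Coord ℓ f)

end

section

variable {ℓ : ℕ} {E : Type u} [Field E] {f : E[X]}

/-- The function `p(x)` on the curve, for a polynomial `p`. -/
noncomputable def ofPoly : E[X] →+* Coord ℓ f := AdjoinRoot.of (X ^ ℓ - C f : E[X][X])

/-- The function `y` on the curve. -/
noncomputable def yy : Coord ℓ f := AdjoinRoot.root (X ^ ℓ - C f : E[X][X])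

lemma yy_pow : (yy : Coord ℓ f) ^ ℓ = ofPoly f := by
  have h := AdjoinRoot.eval₂_root (X ^ ℓ - C f : E[X][X])
  rw [eval₂_sub, eval₂_pow, eval₂_X, eval₂_C, sub_eq_zero] at h
  exact h

/-- The value of a function of the coordinate ring at a point. -/
noncomputable def evalPt (P : Pt ℓ f) : Coord ℓ f →+* E :=
  AdjoinRoot.lift (evalRingHom P.x) P.y (by
    rw [eval₂_sub, eval₂_pow, eval₂_X, eval₂_C, coe_evalRingHom, P.eq, sub_self])

@[simp] lemma evalPt_ofPoly (P : Pt ℓ f) (p : E[X]) : evalPt P (ofPoly p) = p.eval P.x := by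
  rw [evalPt, ofPoly, AdjoinRoot.lift_of, coe_evalRingHom]

@[simp] lemma evalPt_yy (P : Pt ℓ f) : evalPt P yy = P.y := by
  rw [evalPt, yy, AdjoinRoot.lift_root]

/-- The ideal of a point. -/
noncomputable def Pt.ideal (P : Pt ℓ f) : Ideal (Coord ℓ f) := RingHom.ker (evalPt P)

/-- The point `(x, ζ y)`. -/
def Pt.rot (ζ : E) (hζ : ζ ^ ℓ = 1) (P : Pt ℓ f) : Pt ℓ f :=
  ⟨P.x, ζ * P.y, by rw [mul_pow, hζ, one_mul, P.eq]⟩

/-- The image of a point under a homomorphism of fields. -/
def Pt.map {E' : Type u} [Field E'] {f' : E'[X]} (σ : E →+* E') (h : f.map σ = f')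
    (P : Pt ℓ f) : Pt ℓ f' :=
  ⟨σ P.x, σ P.y, by rw [← map_pow, P.eq, ← h, Polynomial.eval_map, Polynomial.eval₂_hom]⟩

/-- The automorphism `y ↦ ζ y` of the coordinate ring. -/
noncomputable def rotC (ζ : E) (hζ : ζ ^ ℓ = 1) : Coord ℓ f →+* Coord ℓ f :=
  AdjoinRoot.lift ofPoly (ofPoly (C ζ) * yy) (by
    rw [eval₂_sub, eval₂_pow, eval₂_X, eval₂_C, mul_pow, ← map_pow, ← C_pow, hζ, C_1, map_one,
      one_mul, yy_pow, sub_self])

@[simp] lemma rotC_ofPoly (ζ : E) (hζ : ζ ^ ℓ = 1) (p : E[X]) :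
    rotC ζ hζ (ofPoly p : Coord ℓ f) = ofPoly p := by
  unfold rotC
  exact AdjoinRoot.lift_of _

@[simp] lemma rotC_yy (ζ : E) (hζ : ζ ^ ℓ = 1) :
    rotC ζ hζ (yy : Coord ℓ f) = ofPoly (C ζ) * yy := by
  unfold rotC
  exact AdjoinRoot.lift_root _

end

end Pool.Agent.Lib.MP_89bcae_ag.Sup

end

section

/-!
ROW R01 (80-150 lines). The coordinate ring `E[x, y] / (y ^ ℓ - f(x))` is a domain, with the
`E[x]`-basis `1, y, ..., y ^ (ℓ - 1)`; uniqueness and existence of the expansion, the norm.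

PROOF. `E` is algebraically closed and `deg f` is prime to the prime `ℓ`, so `deg f ≠ 0`
(`Nat.Coprime 0 ℓ ↔ ℓ = 1`); let `θ` be a root of `f`, it is simple as `f` is separable. `Y ^ ℓ - f`
in `E[X][Y]` is Eisenstein at the prime ideal `(X - θ)` (`f ∈ (X - θ)`, `f ∉ (X - θ) ^ 2`), monic,
so irreducible (`Polynomial.IsEisensteinAt.irreducible`), hence prime since `E[X][Y]` is a UFD;
`AdjoinRoot.isDomain_of_prime`. The expansion: `AdjoinRoot.powerBasis'` (the polynomial is monic),
or `Polynomial.modByMonic` / `AdjoinRoot.modByMonicHom`.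
-/

open Polynomial IsDedekindDomain

open scoped Classical

namespace Pool.Agent.Lib.MP_89bcae_ag.Sup

universe u

variable {ℓ : ℕ} {E : Type u} [Field E] {f : E[X]}

lemma monic_eqn (hℓ : ℓ ≠ 0) : (X ^ ℓ - C f : E[X][X]).Monic :=
  Polynomial.monic_X_pow_sub_C f hℓ

lemma r01_natDegree : (X ^ ℓ - C f : E[X][X]).natDegree = ℓ :=
  Polynomial.natDegree_X_pow_sub_C

/-- Expansion of an element of the coordinate ring. -/
lemma exists_expand (hℓ : ℓ ≠ 0) (a : Coord ℓ f) :
    ∃ p : ℕ → E[X], a = ∑ i ∈ Finset.range ℓ, ofPoly (p i) * yy ^ i := by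
  obtain ⟨P, rfl⟩ := AdjoinRoot.mk_surjective a
  have hm := monic_eqn (f := f) hℓ
  have hne : (X ^ ℓ - C f : E[X][X]) ≠ 1 := by
    intro h
    have h1 := r01_natDegree (ℓ := ℓ) (f := f)
    rw [h, natDegree_one] at h1
    exact hℓ h1.symm
  have hlt : (P %ₘ (X ^ ℓ - C f : E[X][X])).natDegree < ℓ := by
    have h1 := natDegree_modByMonic_lt P hm hne
    rwa [r01_natDegree] at h1
  refine ⟨fun i => (P %ₘ (X ^ ℓ - C f : E[X][X])).coeff i, ?_⟩
  have h1 : AdjoinRoot.mk (X ^ ℓ - C f : E[X][X]) P =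
      AdjoinRoot.mk (X ^ ℓ - C f : E[X][X]) (P %ₘ (X ^ ℓ - C f : E[X][X])) := by
    rw [AdjoinRoot.mk_eq_mk]
    refine ⟨P /ₘ (X ^ ℓ - C f : E[X][X]), ?_⟩
    have h2 := modByMonic_add_div P (X ^ ℓ - C f : E[X][X])
    linear_combination -h2
  rw [h1]
  conv_lhs => rw [as_sum_range' _ ℓ hlt]
  rw [map_sum]
  refine Finset.sum_congr rfl (fun i _ => ?_)
  rw [← C_mul_X_pow_eq_monomial, map_mul, map_pow, AdjoinRoot.mk_C, AdjoinRoot.mk_X]
  rfl

/-- Uniqueness of the expansion. -/
lemma expand_unique (hℓ : ℓ ≠ 0) (p : ℕ → E[X])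
    (h : ∑ i ∈ Finset.range ℓ, (ofPoly (p i) : Coord ℓ f) * yy ^ i = 0) :
    ∀ i < ℓ, p i = 0 := by
  have hm := monic_eqn (f := f) hℓ
  have h1 : AdjoinRoot.mk (X ^ ℓ - C f : E[X][X]) (∑ i ∈ Finset.range ℓ, C (p i) * X ^ i) = 0 := by
    rw [map_sum, ← h]
    refine Finset.sum_congr rfl (fun i _ => ?_)
    rw [map_mul, map_pow, AdjoinRoot.mk_C, AdjoinRoot.mk_X]
    rfl
  rw [AdjoinRoot.mk_eq_zero] at h1
  have hQ : (∑ i ∈ Finset.range ℓ, C (p i) * X ^ i : E[X][X]) = 0 := by
    by_contra hne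
    refine hm.not_dvd_of_natDegree_lt hne ?_ h1
    rw [r01_natDegree]
    have h3 : (∑ i ∈ Finset.range ℓ, C (p i) * X ^ i : E[X][X]).natDegree ≤ ℓ - 1 := by
      refine natDegree_sum_le_of_forall_le _ _ (fun i hi => ?_)
      refine (natDegree_C_mul_X_pow_le (p i) i).trans ?_
      have h4 := Finset.mem_range.1 hi
      omega
    omega
  intro i hi
  have h3 : (∑ i ∈ Finset.range ℓ, C (p i) * X ^ i : E[X][X]).coeff i = p i := by
    rw [finsetSum_coeff, Finset.sum_eq_single i]
    · rw [coeff_C_mul_X_pow, if_pos rfl]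
    · intro j _ hj
      rw [coeff_C_mul_X_pow, if_neg (Ne.symm hj)]
    · intro h4
      exact absurd (Finset.mem_range.2 hi) h4
  rw [← h3, hQ, coeff_zero]

lemma ofPoly_injective (hℓ : ℓ ≠ 0) : Function.Injective (ofPoly : E[X] →+* Coord ℓ f) := by
  refine AdjoinRoot.of.injective_of_degree_ne_zero ?_
  rw [degree_X_pow_sub_C (Nat.pos_of_ne_zero hℓ)]
  exact_mod_cast hℓ

lemma IsGood.natDegree_ne_zero [hG : IsGood ℓ f] : f.natDegree ≠ 0 := by
  intro h
  have h1 := hG.coprime
  rw [h, Nat.coprime_zero_left] at h1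
  exact hG.prime.one_lt.ne' h1

lemma IsGood.exists_root [hG : IsGood ℓ f] : ∃ θ, f.eval θ = 0 := by
  have := hG.alg
  have hd : f.degree ≠ 0 := by
    intro h
    exact IsGood.natDegree_ne_zero (hG := hG) (natDegree_eq_of_degree_eq_some h)
  obtain ⟨θ, hθ⟩ := IsAlgClosed.exists_root f hd
  exact ⟨θ, hθ⟩

instance isDomain_coord [hG : IsGood ℓ f] : IsDomain (Coord ℓ f) := by
  have hℓ : ℓ ≠ 0 := hG.prime.ne_zero
  obtain ⟨θ, hθ⟩ := IsGood.exists_root (hG := hG)
  have hdvd : X - C θ ∣ f := dvd_iff_isRoot.2 hθ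
  have hm := monic_eqn (f := f) hℓ
  have hP : (Ideal.span {X - C θ} : Ideal E[X]).IsPrime :=
    (Ideal.span_singleton_prime (X_sub_C_ne_zero θ)).2 (prime_X_sub_C θ)
  have hE : (X ^ ℓ - C f : E[X][X]).IsEisensteinAt (Ideal.span {X - C θ}) := by
    refine ⟨?_, ?_, ?_⟩
    · rw [hm.leadingCoeff]
      exact (Ideal.ne_top_iff_one _).1 hP.ne_top
    · intro n hn
      rw [r01_natDegree] at hn
      rw [coeff_sub, coeff_X_pow, if_neg hn.ne, zero_sub, coeff_C]
      split_ifs
      · exact (Ideal.span {X - C θ}).neg_mem (Ideal.mem_span_singleton.2 hdvd)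
      · rw [neg_zero]
        exact (Ideal.span {X - C θ}).zero_mem
    · rw [coeff_sub, coeff_X_pow, if_neg (Ne.symm hℓ), zero_sub, coeff_C_zero,
        Ideal.span_singleton_pow, Ideal.mem_span_singleton, dvd_neg]
      intro h
      rw [pow_two] at h
      exact not_isUnit_X_sub_C θ (hG.separable.squarefree _ h)
  have hirr : Irreducible (X ^ ℓ - C f : E[X][X]) := by
    refine hE.irreducible hP hm.isPrimitive ?_
    rw [r01_natDegree]
    exact Nat.pos_of_ne_zero hℓ
  exact AdjoinRoot.isDomain_of_prime hirr.prime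

end Pool.Agent.Lib.MP_89bcae_ag.Sup

end

section

/-!
ROW R02 (150-300 lines). Points = maximal ideals, and the coordinate ring is a Dedekind domain.

PROOF. (1) `evalPt P` is surjective onto the field `E` (it maps `ofPoly (C c)` to `c`), so its
kernel is maximal; it is not zero: it contains `ofPoly (X - C P.x)`, which is not `0` by
`ofPoly_injective`.
(2) Let `I` be a nonzero prime ideal. `Coord ℓ f` is integral over `E[X]` (monic equation), so
`J = I.comap ofPoly` is a nonzero prime of the PID `E[X]` (a nonzero `a ∈ I` satisfies a monic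
equation of minimal degree with nonzero constant term in `J`; Mathlib:
`Ideal.comap_ne_bot_of_integral_mem`); as `E` is algebraically closed `J = (X - a)`. The residue
`b` of `y` modulo `I`: `Coord/I` is a domain, integral over `E[X]/J = E`, so equal to `E`; concretely
`y ^ ℓ - f(a) ∈ I` and `T ^ ℓ - f(a) = ∏ (T - bᵢ)` in `E[T]`, so by primality `y - b ∈ I` for some
`b` with `b ^ ℓ = f(a)`. So `I` contains `ofPoly (X - C a)` and `yy - ofPoly (C b)`, hence contains
the kernel of `evalPt P`, `P = (a, b)` (every element is congruent to its value modulo these two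
elements: use `exists_expand` or `AdjoinRoot.induction_on`), which is maximal.
(3) Dedekind: noetherian (quotient of `E[X][Y]`), dimension at most one by (2), integrally closed:
it is enough (`isDedekindDomain` from `IsDedekindDomainDvr`, `IsDedekindDomainDvr.isDedekindDomain`)
that the localization at each `P.ideal` is a discrete valuation ring, and for a noetherian local
domain which is not a field it is enough that the maximal ideal is principal
(`tfae_of_isNoetherianRing_of_isLocalRing_of_isDomain` / `IsDiscreteValuationRing.TFAE`).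
`P.ideal = (x - a, y - b)`. If `b ≠ 0`: `(y - b) (∑ y ^ i b ^ (ℓ-1-i)) = f(x) - f(a) ∈ (x - a)` and
the second factor takes the value `ℓ b ^ (ℓ - 1) ≠ 0` at `P`, so it is a unit in the localization:
the maximal ideal is generated by `x - a`. If `b = 0`: `f = (x - a) g` with `g(a) ≠ 0` (`f` is
separable), so `x - a = y ^ ℓ / g` in the localization and the maximal ideal is generated by `y`.
-/

open Polynomial IsDedekindDomain

open scoped Classical

namespace Pool.Agent.Lib.MP_89bcae_ag.Sup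

universe u

variable {ℓ : ℕ} {E : Type u} [Field E] {f : E[X]}

lemma Pt.ideal_isMaximal (P : Pt ℓ f) : P.ideal.IsMaximal := by
  refine RingHom.ker_isMaximal_of_surjective (evalPt P) ?_
  intro c
  exact ⟨ofPoly (C c), by rw [evalPt_ofPoly, eval_C]⟩

lemma R02_mem (P : Pt ℓ f) (a : Coord ℓ f) : a ∈ P.ideal ↔ evalPt P a = 0 := Iff.rfl

lemma R02_memx (P : Pt ℓ f) : ofPoly (X - C P.x) ∈ P.ideal := by
  rw [R02_mem, evalPt_ofPoly, eval_sub, eval_X, eval_C, sub_self]

lemma R02_memy (P : Pt ℓ f) : yy - ofPoly (C P.y) ∈ P.ideal := by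
  rw [R02_mem, map_sub, evalPt_yy, evalPt_ofPoly, eval_C, sub_self]

lemma R02_mod (P : Pt ℓ f) (a : Coord ℓ f) : a - ofPoly (C (evalPt P a)) ∈
    Ideal.span {(ofPoly (X - C P.x) : Coord ℓ f), yy - ofPoly (C P.y)} := by
  set J : Ideal (Coord ℓ f) :=
    Ideal.span {(ofPoly (X - C P.x) : Coord ℓ f), yy - ofPoly (C P.y)} with hJ
  have hx : (ofPoly (X - C P.x) : Coord ℓ f) ∈ J := Ideal.subset_span (by simp)
  have hy : (yy - ofPoly (C P.y) : Coord ℓ f) ∈ J := Ideal.subset_span (by simp)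
  have key : (Ideal.Quotient.mk J) = (((Ideal.Quotient.mk J).comp ofPoly).comp C).comp (evalPt P) := by
    apply AdjoinRoot.ringHom_ext
    · refine RingHom.ext fun p => ?_
      show Ideal.Quotient.mk J (ofPoly p) = Ideal.Quotient.mk J (ofPoly (C (evalPt P (ofPoly p))))
      rw [evalPt_ofPoly, Ideal.Quotient.eq, ← map_sub]
      obtain ⟨q, hq⟩ := X_sub_C_dvd_sub_C_eval (a := P.x) (p := p)
      rw [hq, map_mul]
      exact J.mul_mem_right _ hx
    · show Ideal.Quotient.mk J yy = Ideal.Quotient.mk J (ofPoly (C (evalPt P yy)))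
      rw [evalPt_yy, Ideal.Quotient.eq]
      exact hy
  have h1 := congrArg (fun g : Coord ℓ f →+* (Coord ℓ f ⧸ J) => g a) key
  have h2 : Ideal.Quotient.mk J a = Ideal.Quotient.mk J (ofPoly (C (evalPt P a))) := h1
  exact Ideal.Quotient.eq.1 h2

lemma Pt.ideal_eq_span (P : Pt ℓ f) :
    P.ideal = Ideal.span {ofPoly (X - C P.x), yy - ofPoly (C P.y)} := by
  apply le_antisymm
  · intro a ha
    have h1 := R02_mod P a
    rw [R02_mem] at ha
    rw [ha, C_0, map_zero, sub_zero] at h1
    exact h1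
  · rw [Ideal.span_le]
    intro a ha
    rcases ha with rfl | ha
    · exact R02_memx P
    · rw [Set.mem_singleton_iff.1 ha]
      exact R02_memy P

lemma Pt.ideal_ne_bot [hG : IsGood ℓ f] (P : Pt ℓ f) : P.ideal ≠ ⊥ := by
  intro h
  have h1 := R02_memx P
  rw [h, Ideal.mem_bot] at h1
  have h2 : (X - C P.x : E[X]) = 0 :=
    ofPoly_injective (f := f) hG.prime.ne_zero (by rw [h1, map_zero])
  exact X_sub_C_ne_zero _ h2

lemma Pt.ideal_injective : Function.Injective (Pt.ideal : Pt ℓ f → Ideal (Coord ℓ f)) := by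
  intro P Q h
  have h1 := R02_memx P
  have h2 := R02_memy P
  rw [h, R02_mem, evalPt_ofPoly, eval_sub, eval_X, eval_C, sub_eq_zero] at h1
  rw [h, R02_mem, map_sub, evalPt_yy, evalPt_ofPoly, eval_C, sub_eq_zero] at h2
  exact Pt.ext h1.symm h2.symm

/-- a value of a nonzero polynomial in a prime ideal: one of the linear factors is in the ideal -/
lemma R02_factor [IsAlgClosed E] {R : Type*} [CommRing R] (φ : E →+* R) {I : Ideal R}
    (hI : I.IsPrime) (r : R) : ∀ (n : ℕ) (q : E[X]), q.natDegree = n → q ≠ 0 → eval₂ φ r q ∈ I →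
      ∃ b, q.eval b = 0 ∧ r - φ b ∈ I := by
  intro n
  induction n with
  | zero =>
    intro q hn hq hmem
    exfalso
    rw [Polynomial.natDegree_eq_zero] at hn
    obtain ⟨c, rfl⟩ := hn
    have hc : c ≠ 0 := by
      rintro rfl
      exact hq C_0
    rw [eval₂_C] at hmem
    have hu : IsUnit (φ c) := (IsUnit.mk0 c hc).map φ
    exact hI.ne_top (Ideal.eq_top_of_isUnit_mem I hmem hu)
  | succ n ih =>
    intro q hn hq hmem
    obtain ⟨b, hb⟩ := IsAlgClosed.exists_root q (by
      rw [Polynomial.degree_eq_natDegree hq, hn]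
      exact_mod_cast Nat.succ_ne_zero n)
    obtain ⟨q', hq'⟩ := dvd_iff_isRoot.2 hb
    have hq'0 : q' ≠ 0 := by
      rintro rfl
      rw [mul_zero] at hq'
      exact hq hq'
    have hdeg : q'.natDegree = n := by
      have h1 := congrArg natDegree hq'
      rw [natDegree_mul (X_sub_C_ne_zero b) hq'0, natDegree_X_sub_C, hn] at h1
      omega
    rw [hq', eval₂_mul, eval₂_sub, eval₂_X, eval₂_C] at hmem
    rcases hI.mem_or_mem hmem with h1 | h1
    · exact ⟨b, hb, h1⟩
    · obtain ⟨b', hb', hmem'⟩ := ih q' hdeg hq'0 h1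
      refine ⟨b', ?_, hmem'⟩
      rw [hq', eval_mul, hb', mul_zero]

lemma exists_pt_of_prime [hG : IsGood ℓ f] (I : Ideal (Coord ℓ f)) (hI : I.IsPrime)
    (h0 : I ≠ ⊥) : ∃ P : Pt ℓ f, P.ideal = I := by
  have halg : IsAlgClosed E := hG.alg
  have hℓ : ℓ ≠ 0 := hG.prime.ne_zero
  -- a nonzero polynomial in `I`
  obtain ⟨q, hq0, hqI⟩ : ∃ q : E[X], q ≠ 0 ∧ ofPoly q ∈ I := by
    have hfin : Module.Finite E[X] (AdjoinRoot (X ^ ℓ - C f : E[X][X])) :=
      (monic_eqn (f := f) hℓ).finite_adjoinRoot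
    obtain ⟨a, haI, ha0⟩ := Submodule.exists_mem_ne_zero_of_ne_bot h0
    have hint : IsIntegral E[X] a := Algebra.IsIntegral.isIntegral a
    have h1 := Ideal.comap_ne_bot_of_integral_mem ha0 haI hint
    obtain ⟨q, hq, hq0⟩ := Submodule.exists_mem_ne_zero_of_ne_bot h1
    exact ⟨q, hq0, hq⟩
  have e1 : ∀ q : E[X], eval₂ ((ofPoly : E[X] →+* Coord ℓ f).comp C) (ofPoly X) q = ofPoly q := by
    intro q
    rw [← Polynomial.hom_eval₂, eval₂_C_X]
  obtain ⟨a, _, ha⟩ := R02_factor ((ofPoly : E[X] →+* Coord ℓ f).comp C) hI (ofPoly X) _ q rfl hq0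
    (by rw [e1]; exact hqI)
  have ha' : ofPoly (X - C a) ∈ I := by
    rw [map_sub]; exact ha
  obtain ⟨b, hb, hbI⟩ := R02_factor ((ofPoly : E[X] →+* Coord ℓ f).comp C) hI yy _
    (X ^ ℓ - C (f.eval a)) rfl (X_pow_sub_C_ne_zero hG.prime.pos _) (by
      rw [eval₂_sub, eval₂_pow, eval₂_X, eval₂_C, yy_pow]
      show ofPoly f - ofPoly (C (f.eval a)) ∈ I
      rw [← map_sub]
      obtain ⟨g, hg⟩ := X_sub_C_dvd_sub_C_eval (a := a) (p := f)
      rw [hg, map_mul]
      exact I.mul_mem_right _ ha')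
  rw [eval_sub, eval_pow, eval_X, eval_C, sub_eq_zero] at hb
  refine ⟨⟨a, b, hb⟩, ?_⟩
  refine (Pt.ideal_isMaximal _).eq_of_le hI.ne_top ?_
  rw [Pt.ideal_eq_span, Ideal.span_le]
  intro c hc
  rcases hc with rfl | hc
  · exact ha'
  · rw [Set.mem_singleton_iff.1 hc]
    exact hbI

lemma R02_dvd {R : Type*} [CommRing R] {I : Ideal R} [hI : I.IsPrime] {s u v w : R} (hs : s ∉ I)
    (h : s * u = v * w) : algebraMap R (Localization.AtPrime I) v ∣
      algebraMap R (Localization.AtPrime I) u := by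
  have hu : IsUnit (algebraMap R (Localization.AtPrime I) s) :=
    (IsLocalization.AtPrime.isUnit_to_map_iff (Localization.AtPrime I) I s).2 hs
  have h1 := congrArg (algebraMap R (Localization.AtPrime I)) h
  rw [map_mul, map_mul] at h1
  rw [← hu.dvd_mul_left]
  exact ⟨_, h1⟩

lemma R02_principal {R : Type*} [CommRing R] {I : Ideal R} [hI : I.IsPrime] {u v : R}
    (hspan : I = Ideal.span {u, v})
    (h : algebraMap R (Localization.AtPrime I) v ∣ algebraMap R (Localization.AtPrime I) u) :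
    (IsLocalRing.maximalIdeal (Localization.AtPrime I)).IsPrincipal := by
  refine ⟨⟨algebraMap R (Localization.AtPrime I) v, ?_⟩⟩
  rw [← IsLocalization.AtPrime.map_eq_maximalIdeal I (Localization.AtPrime I)]
  have e1 : I.map (algebraMap R (Localization.AtPrime I)) =
      (Ideal.span {u, v}).map (algebraMap R (Localization.AtPrime I)) :=
    congrArg (Ideal.map (algebraMap R (Localization.AtPrime I))) hspan
  rw [e1, Ideal.map_span, Set.image_pair]
  apply le_antisymm
  · rw [Ideal.span_le]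
    intro c hc
    rcases hc with rfl | hc
    · obtain ⟨d, hd⟩ := h
      rw [hd]
      exact Ideal.mul_mem_right _ _ (Ideal.subset_span (Set.mem_singleton _))
    · exact Ideal.subset_span hc
  · exact Ideal.span_mono (fun c hc => Or.inr hc)

lemma R02_localPrincipal [hG : IsGood ℓ f] (P : Pt ℓ f) (hI : P.ideal.IsPrime) :
    (IsLocalRing.maximalIdeal (Localization.AtPrime P.ideal)).IsPrincipal := by
  by_cases hy : P.y = 0
  · have hfa : f.eval P.x = 0 := by
      rw [← P.eq, hy, zero_pow hG.prime.ne_zero]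
    obtain ⟨g, hg⟩ := dvd_iff_isRoot.2 hfa
    have hga : g.eval P.x ≠ 0 := by
      intro h0
      have h1 := hG.separable.eval₂_derivative_ne_zero (RingHom.id E) (x := P.x)
        (by rw [eval₂_id]; exact hfa)
      apply h1
      have h2 := congrArg derivative hg
      rw [derivative_mul, derivative_sub, derivative_X, derivative_C, sub_zero, one_mul] at h2
      rw [eval₂_id, h2, eval_add, eval_mul, eval_sub, eval_X, eval_C, sub_self, zero_mul, add_zero,
        h0]
    refine R02_principal (Pt.ideal_eq_span P) (R02_dvd (s := ofPoly g) (w := yy ^ (ℓ - 1)) ?_ ?_)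
    · rw [R02_mem, evalPt_ofPoly]
      exact hga
    · rw [hy, C_0, map_zero, sub_zero, ← pow_succ', Nat.sub_add_cancel hG.prime.one_le, yy_pow,
        ← map_mul, mul_comm g, ← hg]
  · obtain ⟨g, hg⟩ := X_sub_C_dvd_sub_C_eval (a := P.x) (p := f)
    have hspan : P.ideal = Ideal.span {yy - ofPoly (C P.y), ofPoly (X - C P.x)} := by
      rw [Pt.ideal_eq_span, Set.pair_comm]
    refine R02_principal hspan (R02_dvd
      (s := ∑ i ∈ Finset.range ℓ, yy ^ i * (ofPoly (C P.y)) ^ (ℓ - 1 - i)) (w := ofPoly g) ?_ ?_)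
    · rw [R02_mem, map_sum]
      have e1 : ∀ i ∈ Finset.range ℓ, evalPt P (yy ^ i * (ofPoly (C P.y)) ^ (ℓ - 1 - i)) =
          P.y ^ (ℓ - 1) := by
        intro i hi
        rw [map_mul, map_pow, map_pow, evalPt_yy, evalPt_ofPoly, eval_C, ← pow_add]
        congr 1
        have := Finset.mem_range.1 hi
        omega
      rw [Finset.sum_congr rfl e1, Finset.sum_const, Finset.card_range, nsmul_eq_mul]
      exact mul_ne_zero hG.ne_zero (pow_ne_zero _ hy)
    · rw [geom_sum₂_mul, yy_pow, ← map_pow, ← map_sub, ← C_pow, P.eq, hg, map_mul]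

lemma R02_noeth : IsNoetherianRing (Coord ℓ f) :=
  isNoetherianRing_of_surjective _ _ (AdjoinRoot.mk (X ^ ℓ - C f : E[X][X]))
    AdjoinRoot.mk_surjective

instance isDedekindDomain_coord [hG : IsGood ℓ f] : IsDedekindDomain (Coord ℓ f) := by
  have hN : IsNoetherianRing (Coord ℓ f) := R02_noeth
  have hdvr : IsDedekindDomainDvr (Coord ℓ f) :=
    { toIsNoetherian := hN
      is_dvr_at_nonzero_prime := by
        intro I h0 hI
        obtain ⟨P, rfl⟩ := exists_pt_of_prime I hI h0
        have hN2 : IsNoetherianRing (Localization.AtPrime P.ideal) :=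
          IsLocalization.isNoetherianRing P.ideal.primeCompl _ hN
        have hD2 : IsDomain (Localization.AtPrime P.ideal) :=
          IsLocalization.isDomain_localization P.ideal.primeCompl_le_nonZeroDivisors
        exact ((IsDiscreteValuationRing.TFAE (Localization.AtPrime P.ideal)
          (IsLocalization.AtPrime.not_isField (Coord ℓ f) h0 _)).out 0 4).2
          (R02_localPrincipal P hI) }
  exact IsDedekindDomainDvr.isDedekindDomain (Coord ℓ f)

end Pool.Agent.Lib.MP_89bcae_ag.Sup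

end

section

/-!
ROW R03 (60-120 lines). Finiteness of the support of the divisor of a function; orders.

PROOF. `HeightOneSpectrum.Support` finiteness: for `h = a / b` with `a, b` in the coordinate ring
the valuation of `h` at `v` is different from `1` only if `v` divides `(a)` or `(b)`
(`Ideal.finite_factors`, `HeightOneSpectrum.valuation_lt_one_iff_dvd`,
`HeightOneSpectrum.Support.finite`), and `P ↦ P.hs` is injective.
-/

open Polynomial IsDedekindDomain

open scoped Classical

namespace Pool.Agent.Lib.MP_89bcae_ag.Sup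

universe u

variable {ℓ : ℕ} {E : Type u} [Field E] {f : E[X]} [hG : IsGood ℓ f]

/-- The point as a prime of the coordinate ring. -/
noncomputable def Pt.hs (P : Pt ℓ f) : HeightOneSpectrum (Coord ℓ f) where
  asIdeal := P.ideal
  isPrime := P.ideal_isMaximal.isPrime
  ne_bot := P.ideal_ne_bot

/-- The order of a nonzero function at a point. -/
noncomputable def ord (P : Pt ℓ f) (h : (Fn ℓ f)ˣ) : ℤ :=
  -(WithZero.log (P.hs.valuation (Fn ℓ f) (h : Fn ℓ f)))

lemma R03_hs_injective : Function.Injective (Pt.hs : Pt ℓ f → HeightOneSpectrum (Coord ℓ f)) := by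
  intro P Q h
  apply Pt.ideal_injective
  exact congrArg HeightOneSpectrum.asIdeal h

lemma R03_val_finite (h : (Fn ℓ f)ˣ) :
    {v : HeightOneSpectrum (Coord ℓ f) | v.valuation (Fn ℓ f) (h : Fn ℓ f) ≠ 1}.Finite := by
  have h1 := HeightOneSpectrum.Support.finite (Coord ℓ f) (h : Fn ℓ f)
  have h2 := HeightOneSpectrum.Support.finite (Coord ℓ f) (((h⁻¹ : (Fn ℓ f)ˣ)) : Fn ℓ f)
  refine (h1.union h2).subset ?_
  intro v hv
  rcases lt_or_gt_of_ne (show v.valuation (Fn ℓ f) (h : Fn ℓ f) ≠ 1 from hv) with h3 | h3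
  · right
    show 1 < v.valuation (Fn ℓ f) (((h⁻¹ : (Fn ℓ f)ˣ)) : Fn ℓ f)
    rw [Units.val_inv_eq_inv_val, map_inv₀]
    have h0 : v.valuation (Fn ℓ f) (h : Fn ℓ f) ≠ 0 :=
      (Valuation.ne_zero_iff _).mpr h.ne_zero
    exact (one_lt_inv₀ (zero_lt_iff.mpr h0)).mpr h3
  · left
    exact h3

lemma ord_finite (h : (Fn ℓ f)ˣ) : (Function.support fun P => ord P h).Finite := by
  have h1 := R03_val_finite h
  refine (h1.preimage (f := Pt.hs) (R03_hs_injective.injOn)).subset ?_
  intro P hP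
  show P.hs.valuation (Fn ℓ f) (h : Fn ℓ f) ≠ 1
  intro h2
  apply hP
  show ord P h = 0
  unfold ord
  rw [h2, WithZero.log_one, neg_zero]

/-- The divisor of a nonzero function on the affine curve. -/
noncomputable def div (h : (Fn ℓ f)ˣ) : Pt ℓ f →₀ ℤ :=
  Finsupp.ofSupportFinite (fun P => ord P h) (ord_finite h)

@[simp] lemma div_apply (h : (Fn ℓ f)ˣ) (P : Pt ℓ f) : div h P = ord P h := rfl

/-- The class of a point. -/
noncomputable def clPt (P : Pt ℓ f) : Jac ℓ f :=
  Additive.ofMul (ClassGroup.equivPic (Coord ℓ f) (ClassGroup.mk0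
    ⟨P.ideal, mem_nonZeroDivisors_of_ne_zero P.ideal_ne_bot⟩))

/-- The class of a divisor. -/
noncomputable def cl : (Pt ℓ f →₀ ℤ) →+ Jac ℓ f :=
  Finsupp.liftAddHom fun P => zmultiplesHom _ (clPt P)

end Pool.Agent.Lib.MP_89bcae_ag.Sup

end
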