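import Mathlib
import Pool.Agent.Lib.MP_89bcae_ag.DefsFam45
import Pool.Agent.Lib.MP_89bcae_ag.DefsGeom8
import Pool.Agent.Lib.MP_89bcae_ag.DefsSupTow7
import Pool.Agent.Lib.MP_89bcae_ag.Q.K001
import Pool.Agent.Lib.MP_89bcae_ag.Q.K007
import Pool.Agent.Lib.MP_89bcae_ag.Q.K008
import Pool.Agent.Lib.MP_89bcae_ag.Q.K009
import Pool.Agent.Lib.MP_89bcae_ag.Q.K010

section

/-!
# The 2-descent functions on `y² = x³ + a₂x² + a₄x + a₆`
-/

open Polynomial WeierstrassCurve

namespace Pool.Agent.Lib.MP_89bcae_ag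

set_option linter.unusedSectionVars false

variable {K : Type*} [Field K] [DecidableEq K]

/-- The curve has the form `y² = x³ + a₂x² + a₄x + a₆`. -/
structure Short (W : WeierstrassCurve K) : Prop where
  a₁ : W.a₁ = 0
  a₃ : W.a₃ = 0

/-- `e` is a root of the cubic `x³ + a₂x² + a₄x + a₆`. -/
def Rt (W : WeierstrassCurve K) (e : K) : Prop := e ^ 3 + W.a₂ * e ^ 2 + W.a₄ * e + W.a₆ = 0

/-- The function `ρ_e` with `ρ_e(P)² = x(2P) - e`; on `2`-torsion points it is a sign. -/
noncomputable def rho {W : WeierstrassCurve.Affine K} (e : K) : W.Point → K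
  | .zero => 1
  | .some x y _ => if y = 0 then (if x = e then 1 else -1) else
      ((x - e) ^ 2 - (3 * e ^ 2 + 2 * W.a₂ * e + W.a₄)) / (2 * y)

variable {W : WeierstrassCurve.Affine K}

@[simp] lemma rho_zero (e : K) : rho e (0 : W.Point) = 1 := rfl

lemma rho_some (e : K) {x y : K} (h : W.Nonsingular x y) :
    rho e (.some x y h) = if y = 0 then (if x = e then 1 else -1) else
      ((x - e) ^ 2 - (3 * e ^ 2 + 2 * W.a₂ * e + W.a₄)) / (2 * y) := rfl

lemma Short.equation (hW : Short W) {x y : K} (h : W.Equation x y) :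
    y ^ 2 = x ^ 3 + W.a₂ * x ^ 2 + W.a₄ * x + W.a₆ := by
  rw [Affine.equation_iff, hW.a₁, hW.a₃] at h
  linear_combination h

lemma Short.negY (hW : Short W) (x y : K) : W.negY x y = -y := by
  simp [Affine.negY, hW.a₁, hW.a₃]

lemma add_self_eq_zero_iff (hW : Short W) (h2 : (2 : K) ≠ 0) {x y : K} (h : W.Nonsingular x y) :
    (Affine.Point.some x y h + Affine.Point.some x y h = 0) ↔ y = 0 := by
  constructor
  · intro h0
    by_contra hy
    have hne : y ≠ W.negY x y := by
      rw [hW.negY]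
      intro h1
      have : 2 * y = 0 := by linear_combination h1
      rcases mul_eq_zero.mp this with h3 | h3
      · exact h2 h3
      · exact hy h3
    rw [Affine.Point.add_self_of_Y_ne hne] at h0
    exact Affine.Point.some_ne_zero _ h0
  · intro hy
    apply Affine.Point.add_self_of_Y_eq
    rw [hW.negY, hy, neg_zero]

lemma two_torsion_iff (hW : Short W) (h2 : (2 : K) ≠ 0) (P : W.Point) :
    2 • P = 0 ↔ P = 0 ∨ ∃ e h, Rt W e ∧ P = .some e 0 h := by
  rw [two_nsmul]
  rcases P with _ | ⟨x, y, h⟩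
  · simp [← Affine.Point.zero_def]
  · rw [add_self_eq_zero_iff hW h2]
    constructor
    · intro hy
      subst hy
      right
      refine ⟨x, h, ?_, rfl⟩
      have := hW.equation h.1
      rw [Rt]
      linear_combination -this
    · rintro (h0 | ⟨e, h', he, h0⟩)
      · exact absurd h0 (Affine.Point.some_ne_zero _)
      · simp only [Affine.Point.some.injEq] at h0
        exact h0.2

/-- `ρ_e(P)² = x(2P) - e`. -/
lemma rho_sq (hW : Short W) (h2 : (2 : K) ≠ 0) {e : K} (he : Rt W e) {x y : K}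
    (h : W.Nonsingular x y) (hy : y ≠ 0) :
    rho e (.some x y h) ^ 2 = W.addX x x (W.slope x x y y) - e := by
  have hne : y ≠ W.negY x y := by
    rw [hW.negY]
    intro h1
    have : 2 * y = 0 := by linear_combination h1
    rcases mul_eq_zero.mp this with h3 | h3
    · exact h2 h3
    · exact hy h3
  rw [rho_some, if_neg hy, Affine.addX, Affine.slope_of_Y_ne rfl hne, hW.negY, hW.a₁]
  have heq := hW.equation h.1
  unfold Rt at he
  have hyy : y - -y = 2 * y := by ring
  rw [hyy]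
  field_simp
  simp only [mul_zero, add_zero, sub_zero]
  linear_combination (4 * W.a₂ + 8 * x + 4 * e) * heq + (4 * W.a₂ + 8 * x + 4 * e) * he

/-- The relation between two distinct roots. -/
lemma Rt.pair {e e' : K} (he : Rt W e) (he' : Rt W e') (hne : e ≠ e') :
    e ^ 2 + e * e' + e' ^ 2 + W.a₂ * (e + e') + W.a₄ = 0 := by
  unfold Rt at he he'
  have h1 : (e - e') * (e ^ 2 + e * e' + e' ^ 2 + W.a₂ * (e + e') + W.a₄) = 0 := by
    linear_combination he - he'
  rcases mul_eq_zero.mp h1 with h | h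
  · exact absurd (sub_eq_zero.mp h) hne
  · exact h

lemma rho_add_aux (hW : Short W) (h2 : (2 : K) ≠ 0) {e e' : K} (he : Rt W e) (he' : Rt W e')
    {x y : K} (h : W.Nonsingular x y) (hT : W.Nonsingular e' 0) (hd : 3 * e' ^ 2 + 2 * W.a₂ * e' + W.a₄ ≠ 0)
    (hy : y ≠ 0) :
    rho e (.some x y h + .some e' 0 hT) = rho e (.some x y h) * rho e (.some e' 0 hT) := by
  have heq := hW.equation h.1
  have hx : x ≠ e' := by
    rintro rfl
    apply hy
    have : y ^ 2 = 0 := by rw [heq]; exact he'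
    exact pow_eq_zero_iff (two_ne_zero) |>.mp this
  have hx' : x - e' ≠ 0 := sub_ne_zero.mpr hx
  have hq : (x - e') * ((x ^ 2 + x * e' + e' ^ 2) + W.a₂ * (x + e') + W.a₄) = y ^ 2 := by
    unfold Rt at he'
    linear_combination -heq - he'
  rw [Affine.Point.add_of_X_ne hx]
  set X := W.addX x e' (W.slope x e' y 0) with hX
  set Y := W.addY x e' y (W.slope x e' y 0) with hY
  have hXe : X - e' = (3 * e' ^ 2 + 2 * W.a₂ * e' + W.a₄) / (x - e') := by
    rw [hX, Affine.addX, Affine.slope_of_X_ne hx, hW.a₁]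
    unfold Rt at he'
    field_simp
    linear_combination heq + he'
  have hYe : Y = - y * (3 * e' ^ 2 + 2 * W.a₂ * e' + W.a₄) / (x - e') ^ 2 := by
    have h3 : Y = -(y / (x - e') * (X - e')) := by
      rw [hY, Affine.addY, Affine.negAddY, hW.negY, Affine.slope_of_X_ne hx, ← Affine.slope_of_X_ne hx, ← hX,
        Affine.slope_of_X_ne hx]
      field_simp
      ring
    rw [h3, hXe]
    field_simp
  have hYne : Y ≠ 0 := by
    rw [hYe]
    apply div_ne_zero
    · exact mul_ne_zero (neg_ne_zero.mpr hy) hd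
    · exact pow_ne_zero _ hx'
  rw [rho_some, rho_some, rho_some, if_neg hYne, if_neg hy, if_pos rfl]
  have hXe' : X - e = (3 * e' ^ 2 + 2 * W.a₂ * e' + W.a₄) / (x - e') + (e' - e) := by
    rw [← hXe]; ring
  rw [← hX, ← hY, hXe', hYe]
  by_cases hee : e' = e
  · subst hee
    rw [if_pos rfl]
    generalize 3 * e' ^ 2 + 2 * W.a₂ * e' + W.a₄ = d at hd ⊢
    field_simp
    ring
  · rw [if_neg hee]
    have hpair := Rt.pair he he' (Ne.symm hee)
    obtain ⟨p, hp⟩ : ∃ p, p = e' - e := ⟨_, rfl⟩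
    obtain ⟨v, hv⟩ : ∃ v, v = 2 * e' + e + W.a₂ := ⟨_, rfl⟩
    have hd' : 3 * e' ^ 2 + 2 * W.a₂ * e' + W.a₄ = p * v := by
      rw [hp, hv]; linear_combination hpair
    have hd'' : 3 * e ^ 2 + 2 * W.a₂ * e + W.a₄ = - p * (v - p) := by
      rw [hp, hv]; linear_combination hpair
    rw [hd'] at hd ⊢
    rw [hd'', ← hp]
    obtain ⟨h6, h7⟩ := mul_ne_zero_iff.mp hd
    have hx3 : x - e = (x - e') + p := by rw [hp]; ring
    rw [hx3]
    generalize x - e' = u at hx' ⊢
    field_simp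
    ring


lemma Short.deriv_ne (hW : Short W) {e : K} (h : W.Nonsingular e 0) :
    3 * e ^ 2 + 2 * W.a₂ * e + W.a₄ ≠ 0 := by
  have h' := (W.nonsingular_iff e 0).mp h
  rw [hW.a₁, hW.a₃] at h'
  intro h0
  rcases h'.2 with h1 | h1
  · apply h1; linear_combination -h0
  · apply h1; ring

lemma Short.rt_of_nonsingular (hW : Short W) {e : K} (h : W.Nonsingular e 0) : Rt W e := by
  have := hW.equation h.1
  rw [Rt]; linear_combination -this

lemma Short.nonsingular_of_rt (hW : Short W) {e : K} (he : Rt W e)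
    (hd : 3 * e ^ 2 + 2 * W.a₂ * e + W.a₄ ≠ 0) : W.Nonsingular e 0 := by
  rw [W.nonsingular_iff e 0, Affine.equation_iff, hW.a₁, hW.a₃]
  refine ⟨?_, Or.inl ?_⟩
  · unfold Rt at he; linear_combination -he
  · intro h; apply hd; linear_combination -h

lemma add_two_torsion (hW : Short W) {e' e'' : K} (h' : W.Nonsingular e' 0)
    (h'' : W.Nonsingular e'' 0) (hne : e'' ≠ e') :
    ∃ h, (Affine.Point.some e'' 0 h'' + Affine.Point.some e' 0 h') =
      Affine.Point.some (-W.a₂ - e' - e'') 0 h := by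
  rw [Affine.Point.add_of_X_ne hne]
  have hs : W.slope e'' e' 0 0 = 0 := by
    rw [Affine.slope_of_X_ne hne]; simp
  have hX : W.addX e'' e' 0 = -W.a₂ - e' - e'' := by
    rw [Affine.addX]; ring
  have hY : W.addY e'' e' 0 0 = 0 := by
    rw [Affine.addY, Affine.negAddY, hW.negY]; ring
  refine ⟨?_, ?_⟩
  · have := Affine.nonsingular_add h'' h' (fun hxy => hne hxy.1)
    rwa [hs, hX, hY] at this
  · simp only [hs, hX, hY]

lemma rho_two_torsion (e : K) {e' : K} (h : W.Nonsingular e' 0) :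
    rho e (.some e' 0 h) = if e' = e then 1 else -1 := by
  rw [rho_some, if_pos rfl]

/-- `ρ_e(P + T) = ρ_e(P) ρ_e(T)` for `T ∈ W[2]`. -/
lemma rho_add (hW : Short W) (h2 : (2 : K) ≠ 0) {e : K} (he : Rt W e) (P T : W.Point)
    (hT : 2 • T = 0) : rho e (P + T) = rho e P * rho e T := by
  rcases (two_torsion_iff hW h2 T).mp hT with rfl | ⟨e', h', he', rfl⟩
  · simp
  rcases P with _ | ⟨x, y, h⟩
  · rw [← Affine.Point.zero_def]; simp
  by_cases hy : y = 0
  · subst hy
    have hx : Rt W x := hW.rt_of_nonsingular h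
    have hd' := hW.deriv_ne h'
    have hdx := hW.deriv_ne h
    by_cases hxe : x = e'
    · subst hxe
      have : (Affine.Point.some x 0 h + Affine.Point.some x 0 h' : W.Point) = 0 :=
        (add_self_eq_zero_iff hW h2 h).mpr rfl
      rw [this, rho_two_torsion, rho_zero]
      split_ifs <;> ring
    · obtain ⟨h3, h4⟩ := add_two_torsion hW h' h hxe
      rw [h4, rho_two_torsion, rho_two_torsion, rho_two_torsion]
      have hpair := Rt.pair hx he' hxe
      have hxe0 : x - e' ≠ 0 := sub_ne_zero.mpr hxe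
      by_cases h5 : e' = e
      · subst h5
        rw [if_pos rfl, if_neg hxe, if_neg]
        · ring
        intro h6
        apply hd'
        linear_combination hpair - (e' - x) * h6
      · by_cases h6 : x = e
        · subst h6
          rw [if_neg h5, if_pos rfl, if_neg]
          · ring
          intro h7
          apply hdx
          linear_combination hpair - (x - e') * h7
        · rw [if_neg h5, if_neg h6, if_pos]
          · ring
          have hpair' := Rt.pair he he' (Ne.symm h5)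
          have h7 : (e - x) * (e + x + e' + W.a₂) = 0 := by linear_combination hpair' - hpair
          rcases mul_eq_zero.mp h7 with h8 | h8
          · exact absurd (sub_eq_zero.mp h8).symm h6
          · linear_combination -h8
  · exact rho_add_aux hW h2 he he' h h' (hW.deriv_ne h') hy


lemma rho_two_torsion_sq (hW : Short W) (h2 : (2 : K) ≠ 0) (e : K) {T : W.Point} (hT : 2 • T = 0) :
    rho e T = 1 ∨ rho e T = -1 := by
  rcases (two_torsion_iff hW h2 T).mp hT with rfl | ⟨e', h', he', rfl⟩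
  · left; simp
  · rw [rho_two_torsion]
    split_ifs
    · left; rfl
    · right; rfl

lemma rho_two_torsion_mul_self (hW : Short W) (h2 : (2 : K) ≠ 0) (e : K) {T : W.Point}
    (hT : 2 • T = 0) : rho e T * rho e T = 1 := by
  rcases rho_two_torsion_sq hW h2 e hT with h | h <;> rw [h] <;> ring

/-- A cubic with three distinct roots has no other root. -/
lemma Rt.mem_of_three {e₁ e₂ e₃ e : K} (h₁ : Rt W e₁) (h₂ : Rt W e₂) (h₃ : Rt W e₃)
    (h₁₂ : e₁ ≠ e₂) (h₁₃ : e₁ ≠ e₃) (h₂₃ : e₂ ≠ e₃) (he : Rt W e) : e = e₁ ∨ e = e₂ ∨ e = e₃ := by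
  by_contra hcon
  push Not at hcon
  obtain ⟨n1, n2, n3⟩ := hcon
  have p12 := Rt.pair h₁ h₂ h₁₂
  have p13 := Rt.pair h₁ h₃ h₁₃
  have p1 := Rt.pair h₁ he (Ne.symm n1)
  have q3 : (e₂ - e₃) * (e₁ + e₂ + e₃ + W.a₂) = 0 := by linear_combination p12 - p13
  have q4 : (e₂ - e) * (e₁ + e₂ + e + W.a₂) = 0 := by linear_combination p12 - p1
  have q3' := (mul_eq_zero.mp q3).resolve_left (sub_ne_zero.mpr h₂₃)
  have q4' := (mul_eq_zero.mp q4).resolve_left (sub_ne_zero.mpr (Ne.symm n2))
  apply n3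
  linear_combination q4' - q3'

lemma prod_rho (hW : Short W) (h2 : (2 : K) ≠ 0) {e₁ e₂ e₃ : K} (h₁ : Rt W e₁) (h₂ : Rt W e₂)
    (h₃ : Rt W e₃) (h₁₂ : e₁ ≠ e₂) (h₁₃ : e₁ ≠ e₃) (h₂₃ : e₂ ≠ e₃) {T : W.Point} (hT : 2 • T = 0) :
    rho e₁ T * rho e₂ T * rho e₃ T = 1 := by
  rcases (two_torsion_iff hW h2 T).mp hT with rfl | ⟨e', h', he', rfl⟩
  · simp
  · rw [rho_two_torsion, rho_two_torsion, rho_two_torsion]
    rcases Rt.mem_of_three h₁ h₂ h₃ h₁₂ h₁₃ h₂₃ he' with rfl | rfl | rfl
    · rw [if_pos rfl, if_neg h₁₂, if_neg h₁₃]; ring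
    · rw [if_pos rfl, if_neg (Ne.symm h₁₂), if_neg h₂₃]; ring
    · rw [if_pos rfl, if_neg (Ne.symm h₁₃), if_neg (Ne.symm h₂₃)]; ring

lemma eq_zero_of_rho_eq_one (hW : Short W) (h2 : (2 : K) ≠ 0) {e₁ e₂ : K} (h₁₂ : e₁ ≠ e₂)
    {T : W.Point} (hT : 2 • T = 0) (r1 : rho e₁ T = 1) (r2 : rho e₂ T = 1) : T = 0 := by
  rcases (two_torsion_iff hW h2 T).mp hT with rfl | ⟨e', h', he', rfl⟩
  · rfl
  · exfalso
    rw [rho_two_torsion] at r1 r2
    have hm : (-1 : K) ≠ 1 := by
      intro h; apply h2; linear_combination -h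
    by_cases h1 : e' = e₁
    · by_cases h2' : e' = e₂
      · exact h₁₂ (h1 ▸ h2')
      · rw [if_neg h2'] at r2; exact hm r2
    · rw [if_neg h1] at r1; exact hm r1

/-- Existence of a 2-torsion point with prescribed signs. -/
lemma exists_two_torsion (hW : Short W) (h2 : (2 : K) ≠ 0) {e₁ e₂ e₃ : K} (h₁ : Rt W e₁)
    (h₂ : Rt W e₂) (h₃ : Rt W e₃) (h₁₂ : e₁ ≠ e₂) (h₁₃ : e₁ ≠ e₃) (h₂₃ : e₂ ≠ e₃)
    (s₁ s₂ s₃ : K) (hs₁ : s₁ = 1 ∨ s₁ = -1) (hs₂ : s₂ = 1 ∨ s₂ = -1) (hs₃ : s₃ = 1 ∨ s₃ = -1)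
    (hs : s₁ * s₂ * s₃ = 1) :
    ∃ T : W.Point, 2 • T = 0 ∧ rho e₁ T = s₁ ∧ rho e₂ T = s₂ ∧ rho e₃ T = s₃ := by
  have hm : (-1 : K) ≠ 1 := by
    intro h; apply h2; linear_combination -h
  have p12 := Rt.pair h₁ h₂ h₁₂
  have p13 := Rt.pair h₁ h₃ h₁₃
  have p23 := Rt.pair h₂ h₃ h₂₃
  have q3 : (e₂ - e₃) * (e₁ + e₂ + e₃ + W.a₂) = 0 := by linear_combination p12 - p13
  have q := (mul_eq_zero.mp q3).resolve_left (sub_ne_zero.mpr h₂₃)
  have n12 := sub_ne_zero.mpr h₁₂
  have n13 := sub_ne_zero.mpr h₁₃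
  have n23 := sub_ne_zero.mpr h₂₃
  have n32 : e₃ - e₂ ≠ 0 := sub_ne_zero.mpr (Ne.symm h₂₃)
  have n21 : e₂ - e₁ ≠ 0 := sub_ne_zero.mpr (Ne.symm h₁₂)
  have n31 : e₃ - e₁ ≠ 0 := sub_ne_zero.mpr (Ne.symm h₁₃)
  have d1 : 3 * e₁ ^ 2 + 2 * W.a₂ * e₁ + W.a₄ ≠ 0 := by
    have : 3 * e₁ ^ 2 + 2 * W.a₂ * e₁ + W.a₄ = (e₁ - e₂) * (e₁ - e₃) := by
      linear_combination p12 + (e₁ - e₂) * q
    rw [this]; exact mul_ne_zero n12 n13
  have d2 : 3 * e₂ ^ 2 + 2 * W.a₂ * e₂ + W.a₄ ≠ 0 := by
    have : 3 * e₂ ^ 2 + 2 * W.a₂ * e₂ + W.a₄ = (e₂ - e₁) * (e₂ - e₃) := by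
      linear_combination p12 + (e₂ - e₁) * q
    rw [this]; exact mul_ne_zero n21 n23
  have d3 : 3 * e₃ ^ 2 + 2 * W.a₂ * e₃ + W.a₄ ≠ 0 := by
    have : 3 * e₃ ^ 2 + 2 * W.a₂ * e₃ + W.a₄ = (e₃ - e₁) * (e₃ - e₂) := by
      linear_combination p13 + (e₃ - e₁) * q
    rw [this]; exact mul_ne_zero n31 n32
  have ns1 := hW.nonsingular_of_rt h₁ d1
  have ns2 := hW.nonsingular_of_rt h₂ d2
  have ns3 := hW.nonsingular_of_rt h₃ d3
  have t : ∀ {e : K} (h : W.Nonsingular e 0), 2 • (Affine.Point.some e 0 h : W.Point) = 0 := by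
    intro e h; rw [two_nsmul]; exact (add_self_eq_zero_iff hW h2 h).mpr rfl
  rcases hs₁ with rfl | rfl <;> rcases hs₂ with rfl | rfl <;> rcases hs₃ with rfl | rfl
  · exact ⟨0, by simp, rfl, rfl, rfl⟩
  · exfalso; apply hm; linear_combination hs
  · exfalso; apply hm; linear_combination hs
  · exact ⟨_, t ns1, by rw [rho_two_torsion, if_pos rfl], by rw [rho_two_torsion, if_neg h₁₂],
      by rw [rho_two_torsion, if_neg h₁₃]⟩
  · exfalso; apply hm; linear_combination hs
  · exact ⟨_, t ns2, by rw [rho_two_torsion, if_neg (Ne.symm h₁₂)],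
      by rw [rho_two_torsion, if_pos rfl], by rw [rho_two_torsion, if_neg h₂₃]⟩
  · exact ⟨_, t ns3, by rw [rho_two_torsion, if_neg (Ne.symm h₁₃)],
      by rw [rho_two_torsion, if_neg (Ne.symm h₂₃)], by rw [rho_two_torsion, if_pos rfl]⟩
  · exfalso; apply hm; linear_combination hs

/-- Halving of points when `x - eᵢ` are squares. -/
lemma exists_half (hW : Short W) (h2 : (2 : K) ≠ 0) (hsq : ∀ x : K, ∃ z, z ^ 2 = x)
    {e₁ e₂ e₃ : K} (h₁ : Rt W e₁)
    (h₂ : Rt W e₂) (h₃ : Rt W e₃) (h₁₂ : e₁ ≠ e₂) (h₁₃ : e₁ ≠ e₃) (h₂₃ : e₂ ≠ e₃)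
    (P : W.Point) : ∃ Q : W.Point, 2 • Q = P := by
  rcases P with _ | ⟨x₀, y₀, h⟩
  · exact ⟨0, by simp [← Affine.Point.zero_def]⟩
  have p12 := Rt.pair h₁ h₂ h₁₂
  have p13 := Rt.pair h₁ h₃ h₁₃
  have q3 : (e₂ - e₃) * (e₁ + e₂ + e₃ + W.a₂) = 0 := by linear_combination p12 - p13
  have q := (mul_eq_zero.mp q3).resolve_left (sub_ne_zero.mpr h₂₃)
  have ha2 : W.a₂ = -(e₁ + e₂ + e₃) := by linear_combination q
  have ha4 : W.a₄ = e₁ * e₂ + e₁ * e₃ + e₂ * e₃ := by
    linear_combination p12 - (e₁ + e₂) * q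
  have ha6 : W.a₆ = -(e₁ * e₂ * e₃) := by
    unfold Rt at h₁
    rw [ha2, ha4] at h₁
    linear_combination h₁
  have heq : y₀ ^ 2 = (x₀ - e₁) * (x₀ - e₂) * (x₀ - e₃) := by
    rw [hW.equation h.1, ha2, ha4, ha6]; ring
  obtain ⟨r₁, hr₁⟩ := hsq (x₀ - e₁)
  obtain ⟨r₂, hr₂⟩ := hsq (x₀ - e₂)
  obtain ⟨r₃', hr₃'⟩ := hsq (x₀ - e₃)
  -- choose the sign of `r₃` such that `r₁ r₂ r₃ = y₀`
  obtain ⟨r₃, hr₃, hy₀⟩ : ∃ r₃, r₃ ^ 2 = x₀ - e₃ ∧ y₀ = r₁ * r₂ * r₃ := by
    have h3 : (y₀ - r₁ * r₂ * r₃') * (y₀ + r₁ * r₂ * r₃') = 0 := by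
      have : (r₁ * r₂ * r₃') ^ 2 = (x₀ - e₁) * (x₀ - e₂) * (x₀ - e₃) := by
        rw [← hr₁, ← hr₂, ← hr₃']; ring
      linear_combination heq - this
    rcases mul_eq_zero.mp h3 with h4 | h4
    · exact ⟨r₃', hr₃', by linear_combination h4⟩
    · exact ⟨-r₃', by rw [neg_sq, hr₃'], by linear_combination h4⟩
  have e1 : e₁ = x₀ - r₁ ^ 2 := by rw [hr₁]; ring
  have e2 : e₂ = x₀ - r₂ ^ 2 := by rw [hr₂]; ring
  have e3 : e₃ = x₀ - r₃ ^ 2 := by rw [hr₃]; ring
  have n12 : r₁ + r₂ ≠ 0 := by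
    intro h0; apply h₁₂; rw [e1, e2]; linear_combination (r₂ - r₁) * h0
  have n13 : r₁ + r₃ ≠ 0 := by
    intro h0; apply h₁₃; rw [e1, e3]; linear_combination (r₃ - r₁) * h0
  have n23 : r₂ + r₃ ≠ 0 := by
    intro h0; apply h₂₃; rw [e2, e3]; linear_combination (r₃ - r₂) * h0
  set x := x₀ + r₁ * r₂ + r₁ * r₃ + r₂ * r₃ with hx
  set y := (r₁ + r₂) * (r₁ + r₃) * (r₂ + r₃) with hy
  have hyne : y ≠ 0 := mul_ne_zero (mul_ne_zero n12 n13) n23
  have hQ : W.Nonsingular x y := by
    rw [W.nonsingular_iff x y, Affine.equation_iff, hW.a₁, hW.a₃]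
    refine ⟨?_, Or.inr ?_⟩
    · rw [ha2, ha4, ha6, e1, e2, e3, hx, hy]; ring
    · intro h0; apply hyne
      have : 2 * y = 0 := by linear_combination h0
      exact (mul_eq_zero.mp this).resolve_left h2
  refine ⟨.some x y hQ, ?_⟩
  have hne : y ≠ W.negY x y := by
    rw [hW.negY]; intro h1
    have : 2 * y = 0 := by linear_combination h1
    exact hyne ((mul_eq_zero.mp this).resolve_left h2)
  have hslope : W.slope x x y y = r₁ + r₂ + r₃ := by
    rw [Affine.slope_of_Y_ne rfl hne, hW.negY, hW.a₁]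
    have : y - -y = 2 * y := by ring
    rw [this, div_eq_iff (mul_ne_zero h2 hyne), ha2, ha4, e1, e2, e3, hx, hy]
    ring
  have hX : W.addX x x (r₁ + r₂ + r₃) = x₀ := by
    rw [Affine.addX, hW.a₁, ha2, e1, e2, e3, hx]; ring
  have hY : W.addY x x y (r₁ + r₂ + r₃) = y₀ := by
    rw [Affine.addY, Affine.negAddY, hX, hW.negY, hy₀, hx, hy]; ring
  rw [two_nsmul, Affine.Point.add_self_of_Y_ne hne]
  simp only [hslope, hX, hY]

end Pool.Agent.Lib.MP_89bcae_ag

namespace Pool.Agent.Lib.MP_89bcae_ag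

section Map

open WeierstrassCurve

variable {R S : Type*} [CommRing R] [CommRing S] {A B : Type*} [Field A] [Field B] [DecidableEq A]
  [DecidableEq B] [Algebra R S] [Algebra R A] [Algebra S A] [IsScalarTower R S A] [Algebra R B]
  [Algebra S B] [IsScalarTower R S B] {W' : WeierstrassCurve.Affine R}

lemma rho_map (f : A →ₐ[S] B) (e : A) (P : (Affine.baseChange W' A).Point) :
    rho (f e) (Affine.Point.map (W' := W') f P) = f (rho e P) := by
  have hf : ∀ r : R, f (algebraMap R A r) = algebraMap R B r := by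
    intro r
    rw [IsScalarTower.algebraMap_apply R S A, AlgHom.commutes, ← IsScalarTower.algebraMap_apply]
  rcases P with _ | ⟨x, y, h⟩
  · exact (map_one f).symm
  · rw [Affine.Point.map_some, rho_some, rho_some]
    by_cases hy : y = 0
    · rw [if_pos hy, if_pos (by rw [hy, map_zero])]
      by_cases hx : x = e
      · rw [if_pos hx, if_pos (by rw [hx]), map_one]
      · have hx' : f x ≠ f e := fun h => hx (f.injective h)
        rw [if_neg hx, if_neg hx', map_neg, map_one]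
    · have hy' : f y ≠ 0 := fun h => hy ((map_eq_zero f).mp h)
      rw [if_neg hy, if_neg hy']
      simp only [map_div₀, map_sub, map_pow, map_add, map_mul, map_ofNat]
      simp [Affine.baseChange, WeierstrassCurve.baseChange, hf]

end Map

end Pool.Agent.Lib.MP_89bcae_ag

end

section

/-!
# Kummer theory for quadratic characters, and its version for a transitive set of roots
-/

namespace Pool.Agent.Lib.MP_89bcae_ag

variable {L Ω : Type*} [Field L] [Field Ω] [Algebra L Ω] [IsGalois L Ω]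

/-- A continuous sign character on the stabiliser of `θ₀` comes from a Kummer generator. -/
lemma exists_kummer_gen (θ₀ : Ω) (χ : (Ω ≃ₐ[L] Ω) → Ω)
    (hsign : ∀ σ : Ω ≃ₐ[L] Ω, σ θ₀ = θ₀ → χ σ = 1 ∨ χ σ = -1)
    (hmul : ∀ σ τ : Ω ≃ₐ[L] Ω, σ θ₀ = θ₀ → τ θ₀ = θ₀ → χ (σ * τ) = χ σ * χ τ)
    (hloc : IsLocallyConstant χ) :
    ∃ b : Ω, b ≠ 0 ∧ ∀ σ : Ω ≃ₐ[L] Ω, σ θ₀ = θ₀ → σ b = χ σ * b := by
  classical
  by_cases hneg1 : (-1 : Ω) = 1
  · refine ⟨1, one_ne_zero, fun σ hσ => ?_⟩
    rcases hsign σ hσ with h | h <;> simp [h, hneg1]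
  by_cases htriv : ∀ σ : Ω ≃ₐ[L] Ω, σ θ₀ = θ₀ → χ σ = 1
  · exact ⟨1, one_ne_zero, fun σ hσ => by rw [htriv σ hσ, map_one, mul_one]⟩
  push Not at htriv
  obtain ⟨σ₁, hσ₁, hχ₁⟩ := htriv
  have hχ₁' : χ σ₁ = -1 := (hsign σ₁ hσ₁).resolve_left hχ₁
  have hχone : χ 1 = 1 := by
    have h1 : (1 : Ω ≃ₐ[L] Ω) θ₀ = θ₀ := rfl
    have := hmul 1 1 h1 h1
    rw [mul_one] at this
    rcases hsign 1 h1 with h | h
    · exact h
    · rw [h] at this; exfalso; apply hneg1; rw [this]; ring
  have hinv : ∀ σ : Ω ≃ₐ[L] Ω, σ θ₀ = θ₀ → σ⁻¹ θ₀ = θ₀ := by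
    intro σ hσ
    have : σ⁻¹ (σ θ₀) = θ₀ := σ.symm_apply_apply θ₀
    rwa [hσ] at this
  have hχinv : ∀ σ : Ω ≃ₐ[L] Ω, σ θ₀ = θ₀ → χ σ⁻¹ = χ σ := by
    intro σ hσ
    have h := hmul σ σ⁻¹ hσ (hinv σ hσ)
    rw [mul_inv_cancel, hχone] at h
    rcases hsign σ hσ with h1 | h1 <;> rcases hsign σ⁻¹ (hinv σ hσ) with h2 | h2
    · rw [h1, h2]
    · rw [h1, h2] at h; exfalso; exact hneg1 (by linear_combination -h)
    · rw [h1, h2] at h; exfalso; exact hneg1 (by linear_combination -h)
    · rw [h1, h2]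
  -- the closed subgroup `H' = ker χ`
  let H' : Subgroup (Ω ≃ₐ[L] Ω) :=
    { carrier := {σ | σ θ₀ = θ₀ ∧ χ σ = 1}
      mul_mem' := by
        rintro a b ⟨ha, ha'⟩ ⟨hb, hb'⟩
        refine ⟨?_, ?_⟩
        · change a (b θ₀) = θ₀
          rw [hb, ha]
        · rw [hmul a b ha hb, ha', hb', mul_one]
      one_mem' := ⟨rfl, hχone⟩
      inv_mem' := by
        rintro a ⟨ha, ha'⟩
        exact ⟨hinv a ha, by rw [hχinv a ha, ha']⟩ }
  have hH'closed : IsClosed (H' : Set (Ω ≃ₐ[L] Ω)) := by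
    have h1 : IsClosed {σ : Ω ≃ₐ[L] Ω | σ θ₀ = θ₀} := by
      have h3 := InfiniteGalois.fixingSubgroup_isClosed (IntermediateField.adjoin L {θ₀})
      convert h3 using 1
      ext σ
      simp only [Set.mem_ofPred_eq, SetLike.mem_coe]
      rw [IntermediateField.mem_fixingSubgroup_iff]
      constructor
      · intro h x hx
        have : IntermediateField.adjoin L {θ₀} ≤
            IntermediateField.fixedField (Subgroup.zpowers σ) := by
          rw [IntermediateField.adjoin_le_iff, Set.singleton_subset_iff]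
          rw [SetLike.mem_coe, IntermediateField.mem_fixedField_iff]
          rintro f ⟨n, rfl⟩
          have hst : σ ∈ MulAction.stabilizer (Ω ≃ₐ[L] Ω) θ₀ := h
          exact (Subgroup.zpow_mem _ hst n)
        exact (IntermediateField.mem_fixedField_iff _ _).mp (this hx) σ (Subgroup.mem_zpowers σ)
      · intro h
        exact h θ₀ (IntermediateField.mem_adjoin_simple_self L θ₀)
    have h2 : IsClosed {σ : Ω ≃ₐ[L] Ω | χ σ = 1} := (hloc.isClosed_fiber 1)
    exact h1.inter h2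
  let H'c : ClosedSubgroup (Ω ≃ₐ[L] Ω) := ⟨H', hH'closed⟩
  have hnotmem : σ₁ ∉ H' := by
    rintro ⟨_, h⟩
    rw [hχ₁'] at h
    exact hneg1 h
  have hex : ∃ y ∈ IntermediateField.fixedField H', σ₁ y ≠ y := by
    by_contra hcon
    push Not at hcon
    apply hnotmem
    have h4 := InfiniteGalois.fixingSubgroup_fixedField H'c
    have h5 : σ₁ ∈ (IntermediateField.fixedField H').fixingSubgroup := by
      rw [IntermediateField.mem_fixingSubgroup_iff]
      exact hcon
    have h6 : (IntermediateField.fixedField H').fixingSubgroup = H' := h4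
    rwa [h6] at h5
  obtain ⟨y, hy, hσy⟩ := hex
  rw [IntermediateField.mem_fixedField_iff] at hy
  refine ⟨y - σ₁ y, sub_ne_zero.mpr (Ne.symm hσy), fun σ hσ => ?_⟩
  have key : ∀ h ∈ H', h (σ₁ y) = σ₁ y := by
    rintro h ⟨hh, hh'⟩
    have hm : σ₁⁻¹ * h * σ₁ ∈ H' := by
      refine ⟨?_, ?_⟩
      · change σ₁⁻¹ (h (σ₁ θ₀)) = θ₀
        rw [hσ₁, hh, hinv σ₁ hσ₁]
      · have e1 : (σ₁⁻¹ * h) θ₀ = θ₀ := by
          change σ₁⁻¹ (h θ₀) = θ₀
          rw [hh, hinv σ₁ hσ₁]
        rw [hmul _ _ e1 hσ₁, hmul _ _ (hinv σ₁ hσ₁) hh, hχinv σ₁ hσ₁, hh', hχ₁']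
        ring
    have := hy _ hm
    change σ₁⁻¹ (h (σ₁ y)) = y at this
    have h7 : σ₁ (σ₁⁻¹ (h (σ₁ y))) = h (σ₁ y) := σ₁.apply_symm_apply _
    rw [← h7, this]
  rcases hsign σ hσ with h1 | h1
  · have hm : σ ∈ H' := ⟨hσ, h1⟩
    rw [map_sub, hy σ hm, key σ hm, h1, one_mul]
  · -- `σ = h σ₁` with `h ∈ H'`
    have hm : σ * σ₁⁻¹ ∈ H' := by
      refine ⟨?_, ?_⟩
      · change σ (σ₁⁻¹ θ₀) = θ₀
        rw [hinv σ₁ hσ₁, hσ]
      · rw [hmul _ _ hσ (hinv σ₁ hσ₁), h1, hχinv σ₁ hσ₁, hχ₁']; ring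
    have hm2 : σ₁ * σ₁ ∈ H' := by
      refine ⟨?_, ?_⟩
      · change σ₁ (σ₁ θ₀) = θ₀
        rw [hσ₁, hσ₁]
      · rw [hmul _ _ hσ₁ hσ₁, hχ₁']; ring
    have e1 : σ y = σ₁ y := by
      have h8 : (σ * σ₁⁻¹) (σ₁ y) = σ y := by
        change σ (σ₁⁻¹ (σ₁ y)) = σ y
        congr 1
        exact σ₁.symm_apply_apply y
      rw [← h8]
      exact key _ hm
    have e2 : σ (σ₁ y) = y := by
      have h8 : (σ * σ₁⁻¹) (σ₁ (σ₁ y)) = σ (σ₁ y) := by
        change σ (σ₁⁻¹ (σ₁ (σ₁ y))) = σ (σ₁ y)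
        congr 1
        exact σ₁.symm_apply_apply (σ₁ y)
      have h9 : σ₁ (σ₁ y) = y := hy _ hm2
      rw [← h8, h9]
      exact hy _ hm
    rw [map_sub, e1, e2, h1]
    ring

/-- The descent functions attached to a `±1`-valued cocycle on a transitive set `R`. -/
lemma exists_descent_fun (R : Set Ω) (hR : ∀ θ ∈ R, ∀ σ : Ω ≃ₐ[L] Ω, σ θ ∈ R)
    (htrans : ∀ θ ∈ R, ∀ θ' ∈ R, ∃ σ : Ω ≃ₐ[L] Ω, σ θ = θ') (hne : R.Nonempty)
    (s : Ω → (Ω ≃ₐ[L] Ω) → Ω) (hs1 : ∀ θ ∈ R, ∀ σ, s θ σ = 1 ∨ s θ σ = -1)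
    (hs : ∀ θ ∈ R, ∀ σ τ, s (σ θ) (σ * τ) = s (σ θ) σ * s θ τ)
    (hloc : ∀ θ ∈ R, IsLocallyConstant (s θ)) :
    ∃ b : Ω → Ω, (∀ θ ∈ R, b θ ≠ 0) ∧ ∀ θ ∈ R, ∀ σ : Ω ≃ₐ[L] Ω, σ (b θ) = s (σ θ) σ * b (σ θ) := by
  classical
  obtain ⟨θ₀, hθ₀⟩ := hne
  obtain ⟨b₀, hb₀, hb⟩ := exists_kummer_gen θ₀ (s θ₀) (fun σ _ => hs1 θ₀ hθ₀ σ)
    (fun σ τ hσ hτ => by
      have := hs θ₀ hθ₀ σ τ
      rwa [hσ] at this) (hloc θ₀ hθ₀)
  choose! g hg using fun θ (hθ : θ ∈ R) => htrans θ₀ hθ₀ θ hθ
  have hsq : ∀ θ ∈ R, ∀ σ, s θ σ * s θ σ = 1 := by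
    intro θ hθ σ
    rcases hs1 θ hθ σ with h | h <;> rw [h] <;> ring
  have hsn : ∀ θ ∈ R, ∀ σ, s θ σ ≠ 0 := by
    intro θ hθ σ h
    have := hsq θ hθ σ
    rw [h, mul_zero] at this
    exact zero_ne_one this
  have hsfix : ∀ θ ∈ R, ∀ σ, ∀ τ : Ω ≃ₐ[L] Ω, τ (s θ σ) = s θ σ := by
    intro θ hθ σ τ
    rcases hs1 θ hθ σ with h | h <;> simp [h]
  refine ⟨fun θ => s θ (g θ) * g θ b₀, fun θ hθ => mul_ne_zero (hsn θ hθ _) ?_, fun θ hθ σ => ?_⟩
  · intro h
    exact hb₀ ((map_eq_zero (g θ)).mp h)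
  · have hσθ := hR θ hθ σ
    set g' := g (σ θ) with hg'
    have hg1 : g θ θ₀ = θ := hg θ hθ
    have hg2 : g' θ₀ = σ θ := hg (σ θ) hσθ
    set h := g'⁻¹ * (σ * g θ) with hh
    have hfix : h θ₀ = θ₀ := by
      change g'⁻¹ (σ (g θ θ₀)) = θ₀
      rw [hg1, ← hg2]
      exact g'.symm_apply_apply θ₀
    have hmul : σ * g θ = g' * h := by rw [hh]; group
    have e1 : σ (g θ b₀) = g' (h b₀) := by
      change (σ * g θ) b₀ = (g' * h) b₀
      rw [hmul]
    have e2 : σ (g θ b₀) = s θ₀ h * g' b₀ := by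
      rw [e1, hb h hfix, map_mul, hsfix θ₀ hθ₀]
    have e3 : s (σ θ) (σ * g θ) = s (σ θ) σ * s θ (g θ) := by
      exact hs θ hθ σ (g θ)
    have e4 : s (σ θ) (σ * g θ) = s (σ θ) g' * s θ₀ h := by
      have := hs θ₀ hθ₀ g' h
      rwa [hg2, ← hmul] at this
    have e5 : s θ₀ h = s (σ θ) g' * (s (σ θ) σ * s θ (g θ)) := by
      rw [← e3, e4, ← mul_assoc, hsq _ hσθ, one_mul]
    change σ (s θ (g θ) * g θ b₀) = s (σ θ) σ * (s (σ θ) g' * g' b₀)
    rw [map_mul, hsfix θ hθ, e2, e5]
    calc s θ (g θ) * (s (σ θ) g' * (s (σ θ) σ * s θ (g θ)) * g' b₀)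
        = (s θ (g θ) * s θ (g θ)) * (s (σ θ) g' * s (σ θ) σ * g' b₀) := by ring
      _ = s (σ θ) σ * (s (σ θ) g' * g' b₀) := by rw [hsq θ hθ]; ring

end Pool.Agent.Lib.MP_89bcae_ag

end

section

/-!
# The roots of `g(x) = t` in a separable closure of `F(t)`
-/

open Polynomial

set_option linter.unusedSectionVars false

namespace Pool.Agent.Lib.MP_89bcae_ag

section Roots

variable {F L Ω : Type*} [Field F] [Field L] [Field Ω] [Algebra F[X] L]
  [IsFractionRing F[X] L] [Algebra L Ω] [Algebra F[X] Ω] [IsScalarTower F[X] L Ω]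

variable (F Ω) in
/-- Evaluation of a polynomial with coefficients in `F` at an element of `Ω`. -/
noncomputable def ev (θ : Ω) : F[X] →+* Ω := eval₂RingHom ((algebraMap F[X] Ω).comp C) θ

lemma ev_C (θ : Ω) (a : F) : ev F Ω θ (C a) = algebraMap F[X] Ω (C a) := by
  simp [ev]

lemma ev_X (θ : Ω) : ev F Ω θ X = θ := by
  simp [ev]

lemma ev_map (σ : Ω ≃ₐ[L] Ω) (θ : Ω) (p : F[X]) : σ (ev F Ω θ p) = ev F Ω (σ θ) p := by
  have h : (σ : Ω →+* Ω).comp (ev F Ω θ) = ev F Ω (σ θ) := by
    apply Polynomial.ringHom_ext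
    · intro a
      simp only [RingHom.comp_apply, ev_C]
      rw [IsScalarTower.algebraMap_apply F[X] L Ω]
      exact σ.commutes _
    · simp [ev_X]
  exact RingHom.congr_fun h p

/-- The set of roots of `g(x) = t`. -/
def RootSet (g : F[X]) : Set Ω := {θ | ev F Ω θ g = algebraMap F[X] Ω X}

lemma ev_comp_of_mem {g : F[X]} {θ : Ω} (hθ : θ ∈ RootSet (Ω := Ω) g) (p : F[X]) :
    ev F Ω θ (p.comp g) = algebraMap F[X] Ω p := by
  have h : (ev F Ω θ).comp (compRingHom g) = algebraMap F[X] Ω := by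
    apply Polynomial.ringHom_ext
    · intro a
      simp [ev_C]
    · simp only [RingHom.comp_apply, coe_compRingHom_apply, X_comp]
      exact hθ
  exact RingHom.congr_fun h p

lemma map_mem_rootSet {g : F[X]} (σ : Ω ≃ₐ[L] Ω) {θ : Ω} (hθ : θ ∈ RootSet (Ω := Ω) g) :
    σ θ ∈ RootSet (Ω := Ω) g := by
  change ev F Ω (σ θ) g = _
  rw [← ev_map, show ev F Ω θ g = _ from hθ, IsScalarTower.algebraMap_apply F[X] L Ω]
  exact σ.commutes _

include L in
variable (L) in
lemma algebraMap_Om_injective : Function.Injective (algebraMap F[X] Ω) := by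
  rw [IsScalarTower.algebraMap_eq F[X] L Ω]
  exact (algebraMap L Ω).injective.comp (IsFractionRing.injective F[X] L)

variable (L) in
include L in
/-- A root `θ` of `g(x) = t` is transcendental over `F`. -/
lemma ev_injective [IsAlgClosed F] {g : F[X]} {θ : Ω} (hθ : θ ∈ RootSet (Ω := Ω) g) :
    Function.Injective (ev F Ω θ) := by
  rw [injective_iff_map_eq_zero]
  intro p hp
  by_contra hp0
  have hex : ∃ a : F, θ = algebraMap F[X] Ω (C a) := by
    have hs := IsAlgClosed.splits p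
    have h1 := hs.eq_prod_roots
    rw [h1, map_mul, map_multiset_prod, mul_eq_zero] at hp
    rcases hp with h | h
    · exfalso
      rw [ev_C] at h
      have := algebraMap_Om_injective (F := F) L (Ω := Ω) (h.trans (map_zero _).symm)
      rw [C_eq_zero, leadingCoeff_eq_zero] at this
      exact hp0 this
    · rw [Multiset.prod_eq_zero_iff, Multiset.mem_map] at h
      obtain ⟨q, hq, hq0⟩ := h
      rw [Multiset.mem_map] at hq
      obtain ⟨a, -, rfl⟩ := hq
      rw [map_sub, ev_X, ev_C, sub_eq_zero] at hq0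
      exact ⟨a, hq0⟩
  obtain ⟨a, rfl⟩ := hex
  have h2 : ev F Ω (algebraMap F[X] Ω (C a)) g = algebraMap F[X] Ω (C (g.eval a)) := by
    have h : (ev F Ω (algebraMap F[X] Ω (C a))) =
        (algebraMap F[X] Ω).comp (C.comp (evalRingHom a)) := by
      apply Polynomial.ringHom_ext
      · intro b
        simp [ev_C]
      · simp [ev_X]
    rw [h]; rfl
  have h3 : algebraMap F[X] Ω (C (g.eval a)) = algebraMap F[X] Ω X := by
    rw [← h2]; exact hθ
  have h4 := algebraMap_Om_injective (F := F) L (Ω := Ω) h3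
  have h5 := congrArg natDegree h4
  rw [natDegree_C, natDegree_X] at h5
  exact zero_ne_one h5

variable (L) in
/-- The polynomial `g(x) - t` over `L`. -/
noncomputable def PL (g : F[X]) : L[X] := g.map ((algebraMap F[X] L).comp C) - C (algebraMap F[X] L X)

lemma PL_natDegree {g : F[X]} (hdeg : g.natDegree = 3) : (PL L g).natDegree = 3 := by
  unfold PL
  rw [natDegree_sub_C, natDegree_map_eq_of_injective, hdeg]
  exact (IsFractionRing.injective F[X] L).comp C_injective

lemma PL_monic {g : F[X]} (hg : g.Monic) (hdeg : g.natDegree = 3) : (PL L g).Monic := by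
  unfold PL
  apply (hg.map _).sub_of_left
  refine lt_of_le_of_lt degree_C_le ?_
  rw [degree_eq_natDegree (hg.map _).ne_zero, (hg.natDegree_map _), hdeg]
  norm_num

lemma PL_aeval {g : F[X]} (θ : Ω) :
    (PL L g).aeval θ = ev F Ω θ g - algebraMap F[X] Ω X := by
  unfold PL ev
  rw [map_sub, aeval_C, ← IsScalarTower.algebraMap_apply, aeval_def, eval₂_map,
    coe_eval₂RingHom, ← RingHom.comp_assoc, ← IsScalarTower.algebraMap_eq]

lemma mem_rootSet_iff {g : F[X]} {θ : Ω} :
    θ ∈ RootSet (Ω := Ω) g ↔ (PL L g).aeval θ = 0 := by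
  rw [PL_aeval, sub_eq_zero]; rfl

/-- `g(x) - t` is irreducible over `F(t)`. -/
lemma PL_irreducible {g : F[X]} (hg : g.Monic) (hdeg : g.natDegree = 3) :
    Irreducible (PL L g) := by
  rw [(PL_monic (L := L) hg hdeg).irreducible_iff_roots_eq_zero_of_degree_le_three
    (by rw [PL_natDegree hdeg]; norm_num) (by rw [PL_natDegree hdeg])]
  rw [Multiset.eq_zero_iff_forall_notMem]
  intro x hx
  rw [mem_roots (PL_monic (L := L) hg hdeg).ne_zero, IsRoot.def] at hx
  -- `x` is integral over `F[t]`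
  have hint : IsIntegral F[X] x := by
    refine ⟨g.map C - C X, ?_, ?_⟩
    · apply (hg.map _).sub_of_left
      refine lt_of_le_of_lt degree_C_le ?_
      rw [degree_eq_natDegree (hg.map _).ne_zero, (hg.natDegree_map _), hdeg]
      norm_num
    · rw [eval₂_sub, eval₂_map, eval₂_C]
      rw [PL, eval_sub, eval_C, eval_map] at hx
      exact hx
  obtain ⟨p, rfl⟩ := IsIntegrallyClosed.isIntegral_iff.mp hint
  have h1 : algebraMap F[X] L (g.comp p) = algebraMap F[X] L X := by
    rw [PL, eval_sub, eval_C, eval_map, sub_eq_zero] at hx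
    rw [← hx]
    have h : (algebraMap F[X] L).comp (compRingHom p) =
        eval₂RingHom ((algebraMap F[X] L).comp C) (algebraMap F[X] L p) := by
      apply Polynomial.ringHom_ext
      · intro a; simp
      · simp
    exact RingHom.congr_fun h g
  have h2 := IsFractionRing.injective F[X] L h1
  have h3 := congrArg natDegree h2
  rw [natDegree_comp, hdeg, natDegree_X] at h3
  omega

lemma PL_separable {g : F[X]} (hg : g.Monic) (hdeg : g.natDegree = 3)
    (hd : derivative g ≠ 0) : (PL L g).Separable := by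
  rw [separable_iff_derivative_ne_zero (PL_irreducible hg hdeg)]
  unfold PL
  rw [derivative_sub, derivative_C, sub_zero, derivative_map]
  rw [Polynomial.map_ne_zero_iff]
  · exact hd
  · exact (IsFractionRing.injective F[X] L).comp C_injective

variable (L) in
include L in
/-- The three roots of `g(x) = t`. -/
lemma exists_three_roots [IsSepClosed Ω] {g : F[X]} (hg : g.Monic) (hdeg : g.natDegree = 3)
    (hd : derivative g ≠ 0) :
    ∃ θ₁ θ₂ θ₃ : Ω, θ₁ ≠ θ₂ ∧ θ₁ ≠ θ₃ ∧ θ₂ ≠ θ₃ ∧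
      (∀ θ, θ ∈ RootSet (Ω := Ω) g ↔ θ = θ₁ ∨ θ = θ₂ ∨ θ = θ₃) ∧
      (∀ x : Ω, ev F Ω x g - algebraMap F[X] Ω X = (x - θ₁) * (x - θ₂) * (x - θ₃)) ∧
      (PL L g).map (algebraMap L Ω) = (X - C θ₁) * (X - C θ₂) * (X - C θ₃) := by
  have hsep := PL_separable (L := L) hg hdeg hd
  set P : Polynomial Ω := (PL L g).map (algebraMap L Ω) with hP
  have hPm : P.Monic := (PL_monic (L := L) hg hdeg).map _
  have hs : P.Splits := IsSepClosed.splits_of_separable P (Separable.map hsep)
  have hnd : P.roots.Nodup := nodup_roots (Separable.map hsep)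
  have hcard : P.roots.card = 3 := by
    rw [← hs.natDegree_eq_card_roots, hP, natDegree_map, PL_natDegree hdeg]
  obtain ⟨θ₁, θ₂, θ₃, h⟩ := Multiset.card_eq_three.mp hcard
  rw [h] at hnd
  have hprod : P = (X - C θ₁) * (X - C θ₂) * (X - C θ₃) := by
    have := hs.eq_prod_roots_of_monic hPm
    rw [h] at this
    rw [this]
    simp [mul_assoc]
  have heval : ∀ x : Ω, ev F Ω x g - algebraMap F[X] Ω X = (x - θ₁) * (x - θ₂) * (x - θ₃) := by
    intro x
    rw [← PL_aeval (L := L), aeval_def, ← eval_map, ← hP, hprod]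
    simp
  simp only [Multiset.insert_eq_cons, Multiset.nodup_cons, Multiset.mem_cons,
    Multiset.mem_singleton, not_or, Multiset.nodup_singleton, and_true] at hnd
  refine ⟨θ₁, θ₂, θ₃, hnd.1.1, hnd.1.2, hnd.2, ?_, heval, hprod⟩
  intro θ
  have h5 : θ ∈ RootSet (Ω := Ω) g ↔ ev F Ω θ g - algebraMap F[X] Ω X = 0 := by
    rw [sub_eq_zero]; rfl
  rw [h5, heval, mul_eq_zero, mul_eq_zero, sub_eq_zero, sub_eq_zero, sub_eq_zero, or_assoc]

/-- The Galois group acts transitively on the roots. -/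
lemma rootSet_transitive [IsGalois L Ω] {g : F[X]} (hg : g.Monic) (hdeg : g.natDegree = 3)
    {θ θ' : Ω} (hθ : θ ∈ RootSet (Ω := Ω) g) (hθ' : θ' ∈ RootSet (Ω := Ω) g) :
    ∃ σ : Ω ≃ₐ[L] Ω, σ θ = θ' := by
  have h1 : minpoly L θ = minpoly L θ' := by
    rw [← minpoly.eq_of_irreducible_of_monic (PL_irreducible hg hdeg)
      ((mem_rootSet_iff (L := L)).mp hθ) (PL_monic hg hdeg),
      ← minpoly.eq_of_irreducible_of_monic (PL_irreducible hg hdeg)
      ((mem_rootSet_iff (L := L)).mp hθ') (PL_monic hg hdeg)]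
  obtain ⟨σ, hσ⟩ := (Normal.minpoly_eq_iff_mem_orbit Ω).mp h1.symm
  exact ⟨σ, hσ⟩

/-- An element fixed by the stabiliser of `θ` is a rational function of `θ`. -/
lemma exists_rational_of_fixed [IsAlgClosed F] [IsGalois L Ω] {g : F[X]} {θ : Ω}
    (hθ : θ ∈ RootSet (Ω := Ω) g) {x : Ω} (hx : ∀ σ : Ω ≃ₐ[L] Ω, σ θ = θ → σ x = x) :
    ∃ p q : F[X], q ≠ 0 ∧ x * ev F Ω θ q = ev F Ω θ p := by
  have hinj := ev_injective L hθ
  let K₀ : IntermediateField L Ω :=
    { carrier := {x | ∃ p q : F[X], q ≠ 0 ∧ x * ev F Ω θ q = ev F Ω θ p}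
      mul_mem' := by
        rintro a b ⟨p, q, hq, h⟩ ⟨p', q', hq', h'⟩
        exact ⟨p * p', q * q', mul_ne_zero hq hq', by
          rw [map_mul, map_mul, ← h, ← h']; ring⟩
      add_mem' := by
        rintro a b ⟨p, q, hq, h⟩ ⟨p', q', hq', h'⟩
        exact ⟨p * q' + p' * q, q * q', mul_ne_zero hq hq', by
          rw [map_mul, map_add, map_mul, map_mul, ← h, ← h']; ring⟩
      algebraMap_mem' := by
        intro r
        obtain ⟨p, q, hq, rfl⟩ := IsFractionRing.div_surjective (A := F[X]) r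
        have hq' : algebraMap F[X] Ω q ≠ 0 := by
          intro h
          exact nonZeroDivisors.ne_zero hq
            (algebraMap_Om_injective (F := F) L (Ω := Ω) (h.trans (map_zero _).symm))
        refine ⟨p.comp g, q.comp g, ?_, ?_⟩
        · intro h
          apply hq'
          rw [← ev_comp_of_mem hθ, h, map_zero]
        · rw [ev_comp_of_mem hθ, ev_comp_of_mem hθ, map_div₀, ← IsScalarTower.algebraMap_apply,
            ← IsScalarTower.algebraMap_apply]
          field_simp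
      inv_mem' := by
        rintro a ⟨p, q, hq, h⟩
        by_cases ha : a = 0
        · exact ⟨0, 1, one_ne_zero, by simp [ha]⟩
        · refine ⟨q, p, ?_, ?_⟩
          · rintro rfl
            rw [map_zero, mul_eq_zero] at h
            rcases h with h | h
            · exact ha h
            · exact hq (hinj (h.trans (map_zero _).symm))
          · rw [← h]; field_simp }
  have hθK : θ ∈ K₀ := ⟨X, 1, one_ne_zero, by rw [map_one, ev_X, mul_one]⟩
  have hle : IntermediateField.adjoin L {θ} ≤ K₀ := by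
    rw [IntermediateField.adjoin_le_iff, Set.singleton_subset_iff]
    exact hθK
  have hmem : x ∈ IntermediateField.adjoin L {θ} := by
    rw [← InfiniteGalois.fixedField_fixingSubgroup (IntermediateField.adjoin L {θ}),
      IntermediateField.mem_fixedField_iff]
    intro σ hσ
    apply hx
    exact (IntermediateField.mem_fixingSubgroup_iff _ _).mp hσ θ
      (IntermediateField.mem_adjoin_simple_self L θ)
  exact hle hmem

variable (L) in
include L in
/-- The three roots of `g(x) = t`, one of them being given. -/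
lemma exists_other_roots [IsSepClosed Ω] {g : F[X]} (hg : g.Monic) (hdeg : g.natDegree = 3)
    (hd : derivative g ≠ 0) {θ : Ω} (hθ : θ ∈ RootSet (Ω := Ω) g) :
    ∃ θ₂ θ₃ : Ω, θ ≠ θ₂ ∧ θ ≠ θ₃ ∧ θ₂ ≠ θ₃ ∧
      (∀ x, x ∈ RootSet (Ω := Ω) g ↔ x = θ ∨ x = θ₂ ∨ x = θ₃) ∧
      (∀ x : Ω, ev F Ω x g - algebraMap F[X] Ω X = (x - θ) * (x - θ₂) * (x - θ₃)) ∧
      ev F Ω θ (derivative g) = (θ - θ₂) * (θ - θ₃) := by
  have key : ∀ a b c : Ω, (PL L g).map (algebraMap L Ω) = (X - C a) * (X - C b) * (X - C c) →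
      ev F Ω a (derivative g) = (a - b) * (a - c) := by
    intro a b c h
    have h1 := congrArg (fun P : Polynomial Ω => (derivative P).eval a) h
    simp only [derivative_mul, derivative_sub, derivative_X, derivative_C, sub_zero, one_mul,
      mul_one, eval_add, eval_mul, eval_sub, eval_X, eval_C, sub_self, zero_mul,
      add_zero] at h1
    rw [derivative_map, PL, derivative_sub, derivative_C, sub_zero, derivative_map,
      Polynomial.map_map, ← RingHom.comp_assoc, ← IsScalarTower.algebraMap_eq, eval_map] at h1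
    rw [ev, coe_eval₂RingHom, h1]
  obtain ⟨θ₁, θ₂, θ₃, h12, h13, h23, hR, heval, hP⟩ :=
    exists_three_roots (F := F) L (Ω := Ω) hg hdeg hd
  rcases (hR θ).mp hθ with rfl | rfl | rfl
  · exact ⟨θ₂, θ₃, h12, h13, h23, hR, heval, key _ _ _ hP⟩
  · refine ⟨θ₁, θ₃, h12.symm, h23, h13, ?_, ?_, key _ _ _ (by rw [hP]; ring)⟩
    · intro x; rw [hR]; tauto
    · intro x; rw [heval]; ring
  · refine ⟨θ₁, θ₂, h13.symm, h23.symm, h12, ?_, ?_, key _ _ _ (by rw [hP]; ring)⟩
    · intro x; rw [hR]; tauto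
    · intro x; rw [heval]; ring

end Roots

end Pool.Agent.Lib.MP_89bcae_ag

end

section

/-!
# Polynomials over an algebraically closed field modulo squares
-/

open Polynomial

namespace Pool.Agent.Lib.MP_89bcae_ag

variable {F : Type*} [Field F]

lemma exists_sq_mul_prod_aux [DecidableEq F] (s : Multiset F) :
    ∃ (S : F[X]) (Z : Finset F), S ≠ 0 ∧
      (s.map fun a => X - C a).prod = S ^ 2 * ∏ β ∈ Z, (X - C β) := by
  induction s using Multiset.induction with
  | empty => exact ⟨1, ∅, one_ne_zero, by simp⟩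
  | cons a s ih =>
    obtain ⟨S, Z, hS, h⟩ := ih
    rw [Multiset.map_cons, Multiset.prod_cons, h]
    by_cases ha : a ∈ Z
    · refine ⟨S * (X - C a), Z.erase a, mul_ne_zero hS (X_sub_C_ne_zero a), ?_⟩
      rw [← Finset.mul_prod_erase Z _ ha]
      ring
    · refine ⟨S, insert a Z, hS, ?_⟩
      rw [Finset.prod_insert ha]
      ring

/-- Every nonzero polynomial is a square times a product of distinct linear factors. -/
lemma exists_sq_mul_prod [IsAlgClosed F] (r : F[X]) (hr : r ≠ 0) :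
    ∃ (S : F[X]) (Z : Finset F), S ≠ 0 ∧ r = S ^ 2 * ∏ β ∈ Z, (X - C β) := by
  classical
  obtain ⟨S, Z, hS, h⟩ := exists_sq_mul_prod_aux r.roots
  obtain ⟨z, hz⟩ := IsAlgClosed.exists_pow_nat_eq r.leadingCoeff (n := 2) (by norm_num)
  have hz0 : z ≠ 0 := by
    rintro rfl
    rw [zero_pow two_ne_zero] at hz
    exact hr (leadingCoeff_eq_zero.mp hz.symm)
  refine ⟨C z * S, Z, mul_ne_zero (C_ne_zero.mpr hz0) hS, ?_⟩
  conv_lhs => rw [(IsAlgClosed.splits r).eq_prod_roots]
  rw [h, ← hz, C_pow]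
  ring

/-- Parity of the multiplicities in a square. -/
lemma even_card_of_sq [DecidableEq F] {ι : Type*} (Z : Finset ι) (f : ι → F) {p q : F[X]}
    (hq : q ≠ 0) (h : p ^ 2 = q ^ 2 * ∏ β ∈ Z, (X - C (f β))) (α : F) :
    Even (Z.filter fun β => f β = α).card := by
  have hprod : (∏ β ∈ Z, (X - C (f β))) ≠ 0 := by
    rw [Finset.prod_ne_zero_iff]
    intro β _
    exact X_sub_C_ne_zero _
  have h1 := congrArg (fun P : F[X] => P.roots.count α) h
  rw [roots_pow, roots_mul (mul_ne_zero (pow_ne_zero 2 hq) hprod), roots_pow, Multiset.count_nsmul,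
    Multiset.count_add, Multiset.count_nsmul] at h1
  have h2 : (∏ β ∈ Z, (X - C (f β))).roots = Z.val.map f := by
    have : (∏ β ∈ Z, (X - C (f β))) = ((Z.val.map f).map fun a => X - C a).prod := by
      rw [Multiset.map_map]; rfl
    rw [this, roots_multiset_prod_X_sub_C]
  have h3 : (Z.val.map f).count α = (Z.filter fun β => f β = α).card := by
    rw [Multiset.count_map, Finset.card_def, Finset.filter_val]
    congr 1
    apply Multiset.filter_congr
    intro x _
    exact eq_comm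
  rw [h2, h3] at h1
  rw [Nat.even_iff]
  omega

/-- If a product of two products of distinct linear factors is a square, the two sets agree. -/
lemma eq_of_sq [DecidableEq F] (Z Z' : Finset F) {p q : F[X]} (hq : q ≠ 0)
    (h : p ^ 2 = q ^ 2 * ((∏ β ∈ Z, (X - C β)) * ∏ β ∈ Z', (X - C β))) : Z = Z' := by
  have h' : p ^ 2 = q ^ 2 * ∏ x ∈ Z.disjSum Z', (X - C (Sum.elim id id x)) := by
    rw [h, Finset.prod_disjSum]
    simp
  ext α
  have := even_card_of_sq (Z.disjSum Z') (Sum.elim id id) hq h' α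
  have h2 : ((Z.disjSum Z').filter fun x => Sum.elim id id x = α).card =
      (if α ∈ Z then 1 else 0) + (if α ∈ Z' then 1 else 0) := by
    have e : ∀ s : Finset F, (∑ x ∈ s, if x = α then 1 else 0) = (if α ∈ s then 1 else 0 : ℕ) :=
      fun s => Finset.sum_ite_eq' s α _
    rw [Finset.card_filter, Finset.sum_disjSum]
    exact congrArg₂ (· + ·) (e Z) (e Z')
  rw [h2] at this
  by_cases h3 : α ∈ Z <;> by_cases h4 : α ∈ Z' <;> simp [h3, h4] at this ⊢

end Pool.Agent.Lib.MP_89bcae_ag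

end

section

/-!
# Two-torsion and halving on `y² = (x - a)(x - b)(x - c)`

Elementary formulas for the group law on a Weierstrass curve over a field of characteristic not two
whose two-torsion is rational.
-/

open WeierstrassCurve WeierstrassCurve.Affine

namespace Pool.Agent.Lib.MP_89bcae_ag

variable {F : Type*} [Field F] [DecidableEq F]

/-- `W` is the curve `y² = (x - a)(x - b)(x - c)` with `a, b, c` distinct, in characteristic
not two. -/
structure Split (W : Affine F) (a b c : F) : Prop where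
  a₁ : W.a₁ = 0
  a₂ : W.a₂ = -(a + b + c)
  a₃ : W.a₃ = 0
  a₄ : W.a₄ = a * b + a * c + b * c
  a₆ : W.a₆ = -(a * b * c)
  ab : a ≠ b
  ac : a ≠ c
  bc : b ≠ c
  two : (2 : F) ≠ 0

namespace Split

variable {W : Affine F} {a b c : F}

omit [DecidableEq F] in
lemma swap12 (h : Split W a b c) : Split W b a c where
  a₁ := h.a₁
  a₂ := by rw [h.a₂]; ring
  a₃ := h.a₃
  a₄ := by rw [h.a₄]; ring
  a₆ := by rw [h.a₆]; ring
  ab := h.ab.symm
  ac := h.bc
  bc := h.ac
  two := h.two

omit [DecidableEq F] in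
lemma swap23 (h : Split W a b c) : Split W a c b where
  a₁ := h.a₁
  a₂ := by rw [h.a₂]; ring
  a₃ := h.a₃
  a₄ := by rw [h.a₄]; ring
  a₆ := by rw [h.a₆]; ring
  ab := h.ac
  ac := h.ab
  bc := h.bc.symm
  two := h.two

omit [DecidableEq F] in
lemma rot (h : Split W a b c) : Split W b c a := h.swap12.swap23

omit [DecidableEq F] in
lemma equation_iff (h : Split W a b c) (x y : F) :
    W.Equation x y ↔ y ^ 2 = (x - a) * (x - b) * (x - c) := by
  rw [Affine.equation_iff, h.a₁, h.a₂, h.a₃, h.a₄, h.a₆]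
  constructor <;> intro H <;> linear_combination H

omit [DecidableEq F] in
lemma negY_eq (h : Split W a b c) (x y : F) : W.negY x y = -y := by
  rw [Affine.negY, h.a₁, h.a₃]; ring

omit [DecidableEq F] in
lemma nonsingular_of_equation (h : Split W a b c) {x y : F}
    (H : y ^ 2 = (x - a) * (x - b) * (x - c)) : W.Nonsingular x y := by
  rw [Affine.nonsingular_iff', h.equation_iff]
  refine ⟨H, ?_⟩
  rw [h.a₁, h.a₂, h.a₃, h.a₄]
  by_cases hy : y = 0
  · left
    subst hy
    have H' : (x - a) * (x - b) * (x - c) = 0 := by rw [← H]; ring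
    rcases mul_eq_zero.mp H' with H' | H'
    · rcases mul_eq_zero.mp H' with H' | H'
      · obtain rfl : x = a := sub_eq_zero.mp H'
        intro h0
        have : (x - b) * (x - c) = 0 := by linear_combination -h0
        rcases mul_eq_zero.mp this with h1 | h1
        · exact h.ab (sub_eq_zero.mp h1)
        · exact h.ac (sub_eq_zero.mp h1)
      · obtain rfl : x = b := sub_eq_zero.mp H'
        intro h0
        have : (x - a) * (x - c) = 0 := by linear_combination -h0
        rcases mul_eq_zero.mp this with h1 | h1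
        · exact h.ab (sub_eq_zero.mp h1).symm
        · exact h.bc (sub_eq_zero.mp h1)
    · obtain rfl : x = c := sub_eq_zero.mp H'
      intro h0
      have : (x - a) * (x - b) = 0 := by linear_combination -h0
      rcases mul_eq_zero.mp this with h1 | h1
      · exact h.ac (sub_eq_zero.mp h1).symm
      · exact h.bc (sub_eq_zero.mp h1).symm
  · right
    intro h0
    have : (2 : F) * y = 0 := by linear_combination h0
    rcases mul_eq_zero.mp this with h1 | h1
    · exact h.two h1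
    · exact hy h1

/-- The two-torsion point `(a, 0)`. -/
def T (h : Split W a b c) : W.Point :=
  .some a 0 (h.nonsingular_of_equation (by ring))

omit [DecidableEq F] in
lemma eq_of_point (h : Split W a b c) {x y : F} (hP : W.Nonsingular x y) :
    y ^ 2 = (x - a) * (x - b) * (x - c) :=
  (h.equation_iff x y).mp hP.1

/-- A point which is killed by two is `0` or one of the three points `(a, 0)`, `(b, 0)`,
`(c, 0)`. -/
lemma two_torsion (h : Split W a b c) (R : W.Point) (hR : R + R = 0) :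
    R = 0 ∨ R = h.T ∨ R = h.swap12.T ∨ R = h.rot.rot.T := by
  rcases R with _ | ⟨x, y, hP⟩
  · exact Or.inl rfl
  · right
    by_cases hy : y = W.negY x y
    · rw [h.negY_eq] at hy
      have hy0 : y = 0 := by
        have : (2 : F) * y = 0 := by linear_combination hy
        rcases mul_eq_zero.mp this with h1 | h1
        · exact absurd h1 h.two
        · exact h1
      subst hy0
      have H := h.eq_of_point hP
      have H' : (x - a) * (x - b) * (x - c) = 0 := by rw [← H]; ring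
      rcases mul_eq_zero.mp H' with H' | H'
      · rcases mul_eq_zero.mp H' with H' | H'
        · obtain rfl : x = a := sub_eq_zero.mp H'
          exact Or.inl rfl
        · obtain rfl : x = b := sub_eq_zero.mp H'
          exact Or.inr (Or.inl rfl)
      · obtain rfl : x = c := sub_eq_zero.mp H'
        exact Or.inr (Or.inr rfl)
    · rw [Point.add_self_of_Y_ne hy] at hR
      exact absurd hR (Point.some_ne_zero _)

lemma T_add_T (h : Split W a b c) : h.T + h.T = 0 := by
  apply Point.add_self_of_Y_eq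
  rw [h.negY_eq]; ring

/-- The function `ρ_a(R) = ((x - a)² - (a - b)(a - c)) / (2 y)`, a square root of
`x(2R) - a`. -/
def rho (a b c x y : F) : F := ((x - a) ^ 2 - (a - b) * (a - c)) / (2 * y)

omit [DecidableEq F] in
lemma rho_comm (a b c x y : F) : rho a b c x y = rho a c b x y := by
  unfold rho; ring

/-- Doubling. -/
lemma double_some (h : Split W a b c) {x y : F} (hP : W.Nonsingular x y) (hy : y ≠ 0) :
    ∃ (X Y : F) (H : W.Nonsingular X Y), Point.some x y hP + Point.some x y hP = .some X Y H ∧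
      X - a = (rho a b c x y) ^ 2 ∧ X - b = (rho b a c x y) ^ 2 ∧ X - c = (rho c a b x y) ^ 2 := by
  have h2 := h.two
  have hy' : y ≠ W.negY x y := by
    rw [h.negY_eq]
    intro h0
    have : (2 : F) * y = 0 := by linear_combination h0
    rcases mul_eq_zero.mp this with h1 | h1
    · exact h2 h1
    · exact hy h1
  have H := h.eq_of_point hP
  refine ⟨_, _, _, Point.add_self_of_Y_ne hy', ?_, ?_, ?_⟩
  all_goals
    rw [Affine.addX, slope_of_Y_ne rfl hy', h.negY_eq, h.a₁, h.a₂, h.a₄]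
    unfold rho
    have e1 : y - -y = 2 * y := by ring
    rw [e1]
    field_simp
    rw [show y ^ 2 = (x - a) * (x - b) * (x - c) from H]
    ring

/-- Translation by a two-torsion point. -/
lemma add_T (h : Split W a b c) {x y : F} (hP : W.Nonsingular x y) (hy : y ≠ 0) :
    ∃ (H : W.Nonsingular (a + (a - b) * (a - c) / (x - a))
        (-(y * ((a - b) * (a - c)) / (x - a) ^ 2))),
      Point.some x y hP + h.T = .some _ _ H := by
  have H := h.eq_of_point hP
  have hxa : x - a ≠ 0 := by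
    intro h0
    apply hy
    have : y ^ 2 = 0 := by rw [H, h0]; ring
    exact pow_eq_zero_iff (two_ne_zero) |>.mp this
  have hx : x ≠ a := sub_ne_zero.mp hxa
  have key := Point.add_of_X_ne (W := W) (h₁ := hP) (h₂ := (h.nonsingular_of_equation (by ring) :
    W.Nonsingular a 0)) hx
  have eX : W.addX x a (W.slope x a y 0) = a + (a - b) * (a - c) / (x - a) := by
    rw [Affine.addX, slope_of_X_ne hx, h.a₁, h.a₂]
    field_simp
    linear_combination H
  have eY : W.addY x a y (W.slope x a y 0) = -(y * ((a - b) * (a - c)) / (x - a) ^ 2) := by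
    rw [Affine.addY, Affine.negAddY, h.negY_eq, eX, slope_of_X_ne hx]
    field_simp
    ring
  have N := nonsingular_add (W := W) hP ((h.nonsingular_of_equation (by ring) :
    W.Nonsingular a 0)) (fun hxy => hx hxy.left)
  rw [eX, eY] at N
  refine ⟨N, ?_⟩
  rw [T, key]
  simp only [Point.some.injEq]
  exact ⟨eX, eY⟩

omit [DecidableEq F] in
lemma ne_root (h : Split W a b c) {x y : F} (hP : W.Nonsingular x y) (hy : y ≠ 0) :
    x - a ≠ 0 := by
  have H := h.eq_of_point hP
  intro h0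
  apply hy
  have : y ^ 2 = 0 := by rw [H, h0]; ring
  exact pow_eq_zero_iff (two_ne_zero) |>.mp this

omit [DecidableEq F] in
/-- `ρ_a` is invariant under translation by `(a, 0)`. -/
lemma rho_add_T_self (h : Split W a b c) {x y : F} (hP : W.Nonsingular x y) (hy : y ≠ 0) :
    rho a b c (a + (a - b) * (a - c) / (x - a)) (-(y * ((a - b) * (a - c)) / (x - a) ^ 2)) =
      rho a b c x y := by
  have hxa := h.ne_root hP hy
  have hab : a - b ≠ 0 := sub_ne_zero.mpr h.ab
  have hac : a - c ≠ 0 := sub_ne_zero.mpr h.ac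
  have h2 := h.two
  unfold rho
  field_simp
  ring

omit [DecidableEq F] in
/-- `ρ_b` changes sign under translation by `(a, 0)`. -/
lemma rho_add_T_other (h : Split W a b c) {x y : F} (hP : W.Nonsingular x y) (hy : y ≠ 0) :
    rho b a c (a + (a - b) * (a - c) / (x - a)) (-(y * ((a - b) * (a - c)) / (x - a) ^ 2)) =
      - rho b a c x y := by
  have hxa := h.ne_root hP hy
  have hab : a - b ≠ 0 := sub_ne_zero.mpr h.ab
  have hac : a - c ≠ 0 := sub_ne_zero.mpr h.ac
  have h2 := h.two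
  unfold rho
  field_simp
  ring

/-- The doubling map is surjective over a field in which every element is a square. -/
lemma exists_half (h : Split W a b c) (hsq : ∀ z : F, ∃ w, w ^ 2 = z) (P : W.Point) :
    ∃ Q : W.Point, Q + Q = P := by
  rcases P with _ | ⟨X, Y, hP⟩
  · exact ⟨0, by simp [Point.zero_def]⟩
  · obtain ⟨r₁, h₁⟩ := hsq (X - a)
    obtain ⟨r₂, h₂⟩ := hsq (X - b)
    obtain ⟨r₃, h₃⟩ := hsq (X - c)
    have h2 := h.two
    have h12 : r₁ + r₂ ≠ 0 := by
      intro h0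
      apply h.ab
      have : r₁ ^ 2 = r₂ ^ 2 := by linear_combination (r₁ - r₂) * h0
      rw [h₁, h₂] at this
      linear_combination -this
    have h13 : r₁ + r₃ ≠ 0 := by
      intro h0
      apply h.ac
      have : r₁ ^ 2 = r₃ ^ 2 := by linear_combination (r₁ - r₃) * h0
      rw [h₁, h₃] at this
      linear_combination -this
    have h23 : r₂ + r₃ ≠ 0 := by
      intro h0
      apply h.bc
      have : r₂ ^ 2 = r₃ ^ 2 := by linear_combination (r₂ - r₃) * h0
      rw [h₂, h₃] at this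
      linear_combination -this
    set x := X + r₁ * r₂ + r₁ * r₃ + r₂ * r₃ with hx
    set y := (r₁ + r₂) * (r₁ + r₃) * (r₂ + r₃) with hy
    have xa : x - a = (r₁ + r₂) * (r₁ + r₃) := by rw [hx]; linear_combination -h₁
    have xb : x - b = (r₁ + r₂) * (r₂ + r₃) := by rw [hx]; linear_combination -h₂
    have xc : x - c = (r₁ + r₃) * (r₂ + r₃) := by rw [hx]; linear_combination -h₃
    have hN : W.Nonsingular x y := h.nonsingular_of_equation (by rw [xa, xb, xc, hy]; ring)
    have hy0 : y ≠ 0 := mul_ne_zero (mul_ne_zero h12 h13) h23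
    obtain ⟨X', Y', H', e, ea, -, -⟩ := h.double_some hN hy0
    have hX : X' = X := by
      have : rho a b c x y = r₁ := by
        unfold rho
        rw [div_eq_iff (mul_ne_zero h2 hy0), xa, hy]
        have e1 : a - b = r₂ ^ 2 - r₁ ^ 2 := by linear_combination h₁ - h₂
        have e2 : a - c = r₃ ^ 2 - r₁ ^ 2 := by linear_combination h₁ - h₃
        rw [e1, e2]
        ring
      rw [this] at ea
      linear_combination ea + h₁
    rcases (Point.X_eq_iff (h₁ := H') (h₂ := hP)).mp hX with h0 | h0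
    · exact ⟨.some x y hN, by rw [e, h0]⟩
    · refine ⟨-(.some x y hN), ?_⟩
      rw [← neg_add, e, h0, neg_neg]

omit [DecidableEq F] in
lemma T_ne_zero (h : Split W a b c) : h.T ≠ 0 := Point.some_ne_zero _

omit [DecidableEq F] in
lemma T_ne_T (h : Split W a b c) : h.T ≠ h.swap12.T := by
  intro H
  simp only [T, Point.some.injEq] at H
  exact h.ab H.1

/-- `(a, 0) + (b, 0) = (c, 0)`. -/
lemma T_add (h : Split W a b c) : h.T + h.swap12.T = h.rot.rot.T := by
  have h1 : (h.T + h.swap12.T) + (h.T + h.swap12.T) = 0 := by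
    have := h.T_add_T
    have := h.swap12.T_add_T
    calc (h.T + h.swap12.T) + (h.T + h.swap12.T) = (h.T + h.T) + (h.swap12.T + h.swap12.T) := by
          abel
      _ = 0 := by rw [h.T_add_T, h.swap12.T_add_T, add_zero]
  rcases h.two_torsion _ h1 with H | H | H | H
  · exfalso
    apply h.T_ne_T
    have := h.swap12.T_add_T
    calc h.T = h.T + (h.swap12.T + h.swap12.T) := by rw [this, add_zero]
      _ = (h.T + h.swap12.T) + h.swap12.T := by abel
      _ = h.swap12.T := by rw [H, zero_add]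
  · exfalso
    exact h.swap12.T_ne_zero (by simpa using H)
  · exfalso
    exact h.T_ne_zero (by simpa using H)
  · exact H

open Classical in
/-- The character `T ↦ e₂(T, (a, 0))` of the two-torsion. -/
noncomputable def chi (h : Split W a b c) (P : W.Point) : ℤ := if P = 0 ∨ P = h.T then 1 else -1

lemma chi_zero (h : Split W a b c) : h.chi 0 = 1 := by simp [chi]

lemma chi_self (h : Split W a b c) : h.chi h.T = 1 := by simp [chi]

lemma chi_other (h : Split W a b c) : h.chi h.swap12.T = -1 := by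
  have h1 : h.swap12.T ≠ h.T := h.T_ne_T.symm
  have h2 : h.swap12.T ≠ 0 := Point.some_ne_zero _
  simp [chi, h1, h2]

lemma chi_other' (h : Split W a b c) : h.chi h.rot.rot.T = -1 := by
  have h1 : h.rot.rot.T ≠ h.T := by
    intro H
    simp only [T, Point.some.injEq] at H
    exact h.ac H.1.symm
  have h2 : h.rot.rot.T ≠ 0 := Point.some_ne_zero _
  simp [chi, h1, h2]

lemma chi_sq (h : Split W a b c) (P : W.Point) : h.chi P * h.chi P = 1 := by
  unfold chi
  split_ifs <;> norm_num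

lemma chi_add (h : Split W a b c) {P Q : W.Point} (hP : P + P = 0) (hQ : Q + Q = 0) :
    h.chi (P + Q) = h.chi P * h.chi Q := by
  have e0 := h.chi_zero
  have ea := h.chi_self
  have eb := h.chi_other
  have ec := h.chi_other'
  have haa := h.T_add_T
  have hbb := h.swap12.T_add_T
  have hcc := h.rot.rot.T_add_T
  have hab : h.T + h.swap12.T = h.rot.rot.T := h.T_add
  have hba : h.swap12.T + h.T = h.rot.rot.T := by rw [add_comm]; exact hab
  have hac : h.T + h.rot.rot.T = h.swap12.T := by rw [← hab, ← add_assoc, haa, zero_add]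
  have hca : h.rot.rot.T + h.T = h.swap12.T := by rw [add_comm]; exact hac
  have hbc : h.swap12.T + h.rot.rot.T = h.T := by
    rw [← hab, add_comm h.T, ← add_assoc, hbb, zero_add]
  have hcb : h.rot.rot.T + h.swap12.T = h.T := by rw [add_comm]; exact hbc
  rcases h.two_torsion P hP with rfl | rfl | rfl | rfl <;>
  rcases h.two_torsion Q hQ with rfl | rfl | rfl | rfl <;>
  simp [e0, ea, eb, ec, haa, hbb, hcc, hab, hba, hac, hca, hbc, hcb]

lemma chi_swap23 (h : Split W a b c) (P : W.Point) : h.swap23.chi P = h.chi P := rfl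

lemma chi_mul_chi (h : Split W a b c) {P : W.Point} (hP : P + P = 0) :
    h.swap12.chi P * h.rot.rot.chi P = h.chi P := by
  have e1 : h.swap12.T ≠ h.T := h.T_ne_T.symm
  have e2 : h.rot.rot.T ≠ h.T := by
    intro H
    simp only [T, Point.some.injEq] at H
    exact h.ac H.1.symm
  have e3 : h.rot.rot.T ≠ h.swap12.T := by
    intro H
    simp only [T, Point.some.injEq] at H
    exact h.bc H.1.symm
  have z1 : h.T ≠ 0 := h.T_ne_zero
  have z2 : h.swap12.T ≠ 0 := h.swap12.T_ne_zero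
  have z3 : h.rot.rot.T ≠ 0 := h.rot.rot.T_ne_zero
  rcases h.two_torsion P hP with rfl | rfl | rfl | rfl <;>
  simp [chi, e1, e2, e3, e1.symm, e2.symm, e3.symm, z1, z2, z3]

lemma eq_zero_of_chi (h : Split W a b c) {P : W.Point} (hP : P + P = 0) (h1 : h.chi P = 1)
    (h2 : h.swap12.chi P = 1) : P = 0 := by
  rcases h.two_torsion P hP with rfl | rfl | rfl | rfl
  · rfl
  · exfalso
    have := h.swap12.chi_other
    have e : h.swap12.swap12.T = h.T := rfl
    rw [e, h2] at this
    norm_num at this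
  · exfalso
    rw [h.chi_other] at h1
    norm_num at h1
  · exfalso
    rw [h.chi_other'] at h1
    norm_num at h1

/-- `ρ_a` of a point, translated by a two-torsion point, changes by the character `chi`. -/
lemma rho_add_torsion (h : Split W a b c) {x y : F} (hP : W.Nonsingular x y) (hy : y ≠ 0)
    {x' y' : F} (hP' : W.Nonsingular x' y') {T : W.Point} (hT : T + T = 0)
    (e : Point.some x' y' hP' = Point.some x y hP + T) :
    rho a b c x' y' = (h.chi T : F) * rho a b c x y := by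
  rcases h.two_torsion T hT with rfl | rfl | rfl | rfl
  · rw [h.chi_zero, add_zero] at *
    simp only [Point.some.injEq] at e
    rw [e.1, e.2]; simp
  · rw [h.chi_self]
    obtain ⟨H, e'⟩ := h.add_T hP hy
    rw [e'] at e
    simp only [Point.some.injEq] at e
    rw [e.1, e.2, h.rho_add_T_self hP hy]; simp
  · rw [h.chi_other]
    obtain ⟨H, e'⟩ := h.swap12.add_T hP hy
    rw [e'] at e
    simp only [Point.some.injEq] at e
    rw [e.1, e.2, h.swap12.rho_add_T_other hP hy]; simp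
  · rw [h.chi_other']
    obtain ⟨H, e'⟩ := h.rot.rot.add_T hP hy
    rw [e'] at e
    simp only [Point.some.injEq] at e
    rw [e.1, e.2, rho_comm a b c, rho_comm a b c, h.rot.rot.rho_add_T_other hP hy]; simp

end Split

end Pool.Agent.Lib.MP_89bcae_ag

end

section

/-!
# Quadratic characters of a Galois group and classes modulo squares
-/

open WeierstrassCurve WeierstrassCurve.Affine

namespace Pool.Agent.Lib.MP_89bcae_ag

section Character

variable {F Ω : Type*} [Field F] [Field Ω] [Algebra F Ω] [IsGalois F Ω]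

/-- A locally constant quadratic character of an absolute Galois group has an eigenvector. -/
lemma exists_eigen (χ : (Ω ≃ₐ[F] Ω) → ℤ) (h1 : ∀ g, χ g = 1 ∨ χ g = -1)
    (hmul : ∀ g h, χ (g * h) = χ g * χ h) (hcont : IsLocallyConstant χ) :
    ∃ β : Ω, β ≠ 0 ∧ ∀ g : Ω ≃ₐ[F] Ω, g β = (χ g : Ω) * β := by
  have hone : χ 1 = 1 := by
    rcases h1 1 with h | h
    · exact h
    · have := hmul 1 1
      rw [mul_one, h] at this
      norm_num at this
  have hinv : ∀ g, χ g⁻¹ = χ g := by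
    intro g
    have := hmul g g⁻¹
    rw [mul_inv_cancel, hone] at this
    rcases h1 g with h | h <;> rcases h1 g⁻¹ with h' | h' <;> rw [h, h'] at this <;> omega
  let H : ClosedSubgroup (Ω ≃ₐ[F] Ω) :=
    { carrier := {g | χ g = 1}
      mul_mem' := by
        intro a b ha hb
        simp only [Set.mem_ofPred_eq] at *
        rw [hmul, ha, hb, mul_one]
      one_mem' := hone
      inv_mem' := by
        intro a ha
        simp only [Set.mem_ofPred_eq] at *
        rw [hinv, ha]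
      isClosed' := by
        have : IsClopen (χ ⁻¹' {1}) := hcont.isClopen_fiber 1
        exact this.1 }
  by_cases hall : ∀ g, χ g = 1
  · exact ⟨1, one_ne_zero, fun g => by rw [hall g]; simp⟩
  · push Not at hall
    obtain ⟨g₀, hg₀⟩ := hall
    have hg₀' : χ g₀ = -1 := (h1 g₀).resolve_left hg₀
    have hfix := InfiniteGalois.fixingSubgroup_fixedField H
    have hnot : g₀ ∉ (IntermediateField.fixedField H.toSubgroup).fixingSubgroup := by
      rw [hfix]
      exact hg₀
    rw [IntermediateField.mem_fixingSubgroup_iff] at hnot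
    push Not at hnot
    obtain ⟨z, hz, hne⟩ := hnot
    rw [IntermediateField.mem_fixedField_iff] at hz
    refine ⟨z - g₀ z, sub_ne_zero.mpr (Ne.symm hne), ?_⟩
    have hH : ∀ h : Ω ≃ₐ[F] Ω, χ h = 1 → h z = z := fun h hh => hz h hh
    have hH' : ∀ h : Ω ≃ₐ[F] Ω, χ h = -1 → h z = g₀ z := by
      intro h hh
      have e1 : χ (g₀⁻¹ * h) = 1 := by rw [hmul, hinv, hg₀', hh]; norm_num
      have e2 := hH _ e1
      have e3 : g₀ ((g₀⁻¹ * h) z) = g₀ z := by rw [e2]
      rw [← AlgEquiv.mul_apply, mul_inv_cancel_left] at e3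
      exact e3
    intro g
    rcases h1 g with hg | hg
    · have e1 : g (g₀ z) = g₀ z := by
        rw [← AlgEquiv.mul_apply]
        exact hH' _ (by rw [hmul, hg, hg₀']; norm_num)
      rw [map_sub, hH g hg, e1, hg]
      simp
    · have e1 : g (g₀ z) = z := by
        rw [← AlgEquiv.mul_apply]
        exact hH _ (by rw [hmul, hg, hg₀']; norm_num)
      rw [map_sub, hH' g hg, e1, hg]
      simp

omit [IsGalois F Ω] in
lemma sign_sq_fixed {χ : (Ω ≃ₐ[F] Ω) → ℤ} (h1 : ∀ g, χ g * χ g = 1) {β β' : Ω}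
    (hβ : ∀ g : Ω ≃ₐ[F] Ω, g β = (χ g : Ω) * β) (hβ' : ∀ g : Ω ≃ₐ[F] Ω, g β' = (χ g : Ω) * β')
    (g : Ω ≃ₐ[F] Ω) : g (β * β') = β * β' := by
  rw [map_mul, hβ, hβ']
  have : (χ g : Ω) * (χ g : Ω) = 1 := by exact_mod_cast congrArg (Int.cast : ℤ → Ω) (h1 g)
  linear_combination (β * β') * this

lemma exists_of_fixed {x : Ω} (h : ∀ g : Ω ≃ₐ[F] Ω, g x = x) : ∃ y : F, algebraMap F Ω y = x :=
  (InfiniteGalois.mem_range_algebraMap_iff_fixed x).mpr h

end Character

end Pool.Agent.Lib.MP_89bcae_ag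

end

section

/-!
# The family of the monic `D` of degree `n` with `D(g(x))` irreducible: elementary lemmas
-/

open Polynomial IntermediateField

namespace Pool.Agent.Lib.MP_89bcae_ag

universe u

section Basic

variable {k : Type u} [Field k]

lemma family_finite8 [Finite k] (g : k[X]) (n : ℕ) : (family g n).Finite := by
  have hinj : Set.InjOn (fun D : k[X] => fun i : Fin (n + 1) => D.coeff i) (family g n) := by
    rintro D ⟨-, h1, -⟩ D' ⟨-, h1', -⟩ h
    ext i
    by_cases hi : i < n + 1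
    · exact congrFun h ⟨i, hi⟩
    · rw [coeff_eq_zero_of_natDegree_lt (by omega), coeff_eq_zero_of_natDegree_lt (by omega)]
  exact Set.Finite.of_finite_image (Set.toFinite _) hinj

lemma irreducible_of_comp8 {g D : k[X]} (hdeg : g.natDegree = 3) (h : Irreducible (D.comp g)) :
    Irreducible D := by
  refine ⟨fun hu => ?_, fun a b hab => ?_⟩
  · have h1 := h.natDegree_pos
    rw [natDegree_comp, natDegree_eq_zero_of_isUnit hu] at h1
    omega
  · have h1 : IsUnit (a.comp g) ∨ IsUnit (b.comp g) := h.isUnit_or_isUnit (by rw [hab, mul_comp])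
    have key : ∀ c : k[X], c ≠ 0 → IsUnit (c.comp g) → IsUnit c := by
      intro c hc hu
      have h2 := natDegree_eq_zero_of_isUnit hu
      rw [natDegree_comp, hdeg] at h2
      have h3 : c.natDegree = 0 := by omega
      obtain ⟨r, hr⟩ := natDegree_eq_zero.mp h3
      rw [← hr] at hc ⊢
      rw [isUnit_C]
      exact (isUnit_iff_ne_zero).mpr (fun h0 => hc (by rw [h0, C_0]))
    have hD0 : D ≠ 0 := by
      rintro rfl
      exact h.ne_zero zero_comp
    rcases h1 with h1 | h1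
    · exact Or.inl (key a (by rintro rfl; exact hD0 (by rw [hab, zero_mul])) h1)
    · exact Or.inr (key b (by rintro rfl; exact hD0 (by rw [hab, mul_zero])) h1)

end Basic

lemma aeval_cubic8 {k F : Type*} [Field k] [Field F] [Algebra k F] {g : k[X]} (hg : g.Monic) (hdeg : g.natDegree = 3) (x : F) :
    aeval x g = x ^ 3 + algebraMap k F (g.coeff 2) * x ^ 2 + algebraMap k F (g.coeff 1) * x +
      algebraMap k F (g.coeff 0) := by
  have h3 : g.coeff 3 = 1 := by
    have := hg.coeff_natDegree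
    rwa [hdeg] at this
  rw [aeval_eq_sum_range, hdeg]
  simp only [Finset.sum_range_succ, Finset.sum_range_zero, Algebra.smul_def, h3, map_one]
  ring

open scoped Classical in
/-- The roots of the polynomials of a finite set of monic irreducible polynomials of degree `n`. -/
lemma exists_roots_card8 {k F : Type u} [Field k] [Fintype k] [Field F] [Algebra k F]
    [IsAlgClosure k F] (n : ℕ) (S : Finset k[X])
    (hS : ∀ D ∈ S, D.Monic ∧ D.natDegree = n ∧ Irreducible D) :
    ∃ A : Finset F, (∀ a, a ∈ A ↔ minpoly k a ∈ S) ∧ A.card = n * S.card := by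
  have hF : IsAlgClosed F := IsAlgClosure.isAlgClosed k
  have hkF : Algebra.IsAlgebraic k F := IsAlgClosure.isAlgebraic
  have key : ∀ D ∈ S, ∀ a : F, a ∈ (D.aroots F).toFinset ↔ minpoly k a = D := by
    intro D hD a
    obtain ⟨h1, -, h3⟩ := hS D hD
    rw [Multiset.mem_toFinset, mem_aroots]
    constructor
    · rintro ⟨-, h4⟩
      exact (minpoly.eq_of_irreducible_of_monic h3 h4 h1).symm
    · intro h4
      exact ⟨h3.ne_zero, by rw [← h4, minpoly.aeval]⟩
  refine ⟨S.biUnion fun D => (D.aroots F).toFinset, fun a => ?_, ?_⟩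
  · rw [Finset.mem_biUnion]
    constructor
    · rintro ⟨D, hD, h⟩
      rw [(key D hD a).mp h]
      exact hD
    · intro h
      exact ⟨_, h, (key _ h a).mpr rfl⟩
  · rw [Finset.card_biUnion]
    · rw [Finset.sum_const_nat (m := n), mul_comm]
      intro D hD
      obtain ⟨h1, h2, h3⟩ := hS D hD
      have hsep : D.Separable := PerfectField.separable_of_irreducible h3
      have h4 : (D.aroots F).Nodup := nodup_roots hsep.map
      rw [Multiset.toFinset_card_of_nodup h4, aroots_def,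
        ← (IsAlgClosed.splits (D.map (algebraMap k F))).natDegree_eq_card_roots, natDegree_map, h2]
    · intro D hD D' hD' hne
      rw [Function.onFun, Finset.disjoint_left]
      intro a ha ha'
      exact hne (((key D hD a).mp ha).symm.trans ((key D' hD' a).mp ha'))

/-- If `g - a` has no root in `k(a)`, then `D(g(x))` is irreducible for the minimal polynomial `D`
of `a`. -/
lemma minpoly_mem_family8 {k F : Type u} [Field k] [Fintype k] [Field F] [Algebra k F]
    [IsAlgClosure k F] {g : k[X]} (hg : g.Monic) (hdeg : g.natDegree = 3) {n : ℕ} (hn : 0 < n)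
    {a : F} (ha : a ^ (Fintype.card k ^ n) = a)
    (ha' : ∀ i, 0 < i → i < n → a ^ (Fintype.card k ^ i) ≠ a)
    (hroot : ∀ x : F, x ^ (Fintype.card k ^ n) = x → aeval x g ≠ a) :
    minpoly k a ∈ family g n := by
  have hF : IsAlgClosed F := IsAlgClosure.isAlgClosed k
  have hkF : Algebra.IsAlgebraic k F := IsAlgClosure.isAlgebraic
  have hint : ∀ x : F, IsIntegral k x := fun x => Algebra.IsIntegral.isIntegral x
  have hdn : (minpoly k a).natDegree = n := by
    have h1 : (minpoly k a).natDegree ∣ n := by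
      rw [← frob8_pow_eq_iff, frob8_pow_apply, ha]
    have h2 := Nat.le_of_dvd hn h1
    have h3 : 0 < (minpoly k a).natDegree := minpoly.natDegree_pos (hint a)
    by_contra h4
    apply ha' _ h3 (lt_of_le_of_ne h2 h4)
    rw [← frob8_pow_apply, frob8_pow_eq_iff]
  refine ⟨minpoly.monic (hint a), hdn, ?_⟩
  -- a root of `g - a`
  obtain ⟨β, hβ⟩ : ∃ β : F, aeval β g = a := by
    have h1 : (g.map (algebraMap k F) - C a).degree ≠ 0 := by
      have h3 : (g.map (algebraMap k F) - C a).natDegree = 3 := by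
        rw [natDegree_sub_C, hg.natDegree_map, hdeg]
      intro h4
      rw [natDegree_eq_of_degree_eq_some h4] at h3
      exact absurd h3 (by norm_num)
    obtain ⟨β, hβ⟩ := IsAlgClosed.exists_root _ h1
    refine ⟨β, ?_⟩
    rw [IsRoot.def, eval_sub, eval_C, eval_map_algebraMap] at hβ
    exact sub_eq_zero.mp hβ
  have hfg : ∀ (i : ℕ) (x : F), aeval ((frob8 k F ^ i) x) g = (frob8 k F ^ i) (aeval x g) := by
    intro i x
    change aeval ((frob8 k F ^ i : F ≃ₐ[k] F) x) g = _
    rw [← AlgEquiv.coe_toAlgHom (frob8 k F ^ i), aeval_algHom_apply]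
  have hcomp : aeval β ((minpoly k a).comp g) = 0 := by
    rw [aeval_comp, hβ, minpoly.aeval]
  have hcm : ((minpoly k a).comp g).Monic := (minpoly.monic (hint a)).comp hg (by omega)
  have hcd : ((minpoly k a).comp g).natDegree = 3 * n := by
    rw [natDegree_comp, hdeg, hdn, mul_comm]
  set m := (minpoly k β).natDegree with hm
  have hmpos : 0 < m := minpoly.natDegree_pos (hint β)
  have hmle : m ≤ 3 * n := by
    rw [← hcd]
    exact natDegree_le_of_dvd (minpoly.dvd k β hcomp) hcm.ne_zero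
  have hnm : n ∣ m := by
    rw [← hdn, ← frob8_pow_eq_iff, ← hβ, ← hfg, (frob8_pow_eq_iff β m).mpr dvd_rfl]
  obtain ⟨e, he⟩ := hnm
  have he3 : e ≤ 3 := by
    rw [he, mul_comm] at hmle
    exact Nat.le_of_mul_le_mul_right hmle hn
  have he0 : e ≠ 0 := by
    rintro rfl
    omega
  have hβn : (frob8 k F ^ n) β ≠ β := by
    intro h
    rw [frob8_pow_apply] at h
    exact hroot β h hβ
  have he1 : e ≠ 1 := by
    rintro rfl
    apply hβn
    rw [frob8_pow_eq_iff, ← hm, he, mul_one]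
  have he2 : e ≠ 2 := by
    rintro rfl
    set β' := (frob8 k F ^ n) β with hβ'
    have h1 : (frob8 k F ^ n) β' = β := by
      rw [hβ', ← AlgEquiv.mul_apply, ← pow_add, frob8_pow_eq_iff, ← hm, he]
      exact ⟨1, by ring⟩
    have h2 : aeval β' g = a := by
      rw [hβ', hfg, hβ, frob8_pow_apply, ha]
    have h3 : (frob8 k F ^ n) (-algebraMap k F (g.coeff 2) - β - β') =
        -algebraMap k F (g.coeff 2) - β - β' := by
      rw [map_sub, map_sub, map_neg, AlgEquiv.commutes, h1, ← hβ']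
      ring
    rw [frob8_pow_apply] at h3
    refine hroot _ h3 ?_
    rw [← hβ]
    rw [aeval_cubic8 hg hdeg] at h2 hβ ⊢
    rw [aeval_cubic8 hg hdeg]
    have h4 : (β' - β) * (β' ^ 2 + β' * β + β ^ 2 + algebraMap k F (g.coeff 2) * (β' + β) +
        algebraMap k F (g.coeff 1)) = 0 := by
      linear_combination h2 - hβ
    have h5 := (mul_eq_zero.mp h4).resolve_left (sub_ne_zero.mpr hβn)
    linear_combination (-algebraMap k F (g.coeff 2) - β - β' - β) * h5
  have hm3 : m = 3 * n := by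
    have : e = 3 := by omega
    rw [he, this, mul_comm]
  have hfin : (minpoly k a).comp g = minpoly k β := by
    apply eq_of_monic_of_dvd_of_natDegree_le (minpoly.monic (hint β)) hcm
      (minpoly.dvd k β hcomp)
    rw [hcd, ← hm, hm3]
  rw [hfin]
  exact minpoly.irreducible (hint β)


end Pool.Agent.Lib.MP_89bcae_ag

end

section

/-!
# Galois action on points and quadratic characters attached to two-torsion cocycles
-/

open WeierstrassCurve WeierstrassCurve.Affine

namespace Pool.Agent.Lib.MP_89bcae_ag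

section Maps

variable {R S A B : Type*} [CommRing R] [CommRing S] [Field A] [Field B]
  [Algebra R S] [Algebra R A] [Algebra S A] [IsScalarTower R S A] [Algebra R B] [Algebra S B]
  [IsScalarTower R S B] [DecidableEq A] [DecidableEq B] {W : Affine R} {a b c : R}

/-- `W`, over the field `A`, is the curve `y² = (x - a)(x - b)(x - c)`. -/
abbrev SplitAt (A : Type*) [Field A] [Algebra R A] (W : Affine R) (a b c : R) : Prop :=
  Split (W.baseChange A) (algebraMap R A a) (algebraMap R A b) (algebraMap R A c)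

omit [DecidableEq A] [DecidableEq B] in
lemma algHom_algebraMap (f : A →ₐ[S] B) (x : R) : f (algebraMap R A x) = algebraMap R B x := by
  rw [IsScalarTower.algebraMap_apply R S A, AlgHom.commutes, ← IsScalarTower.algebraMap_apply]

lemma map_T (f : A →ₐ[S] B) (hA : SplitAt A W a b c) (hB : SplitAt B W a b c) :
    Point.map (W' := W) f hA.T = hB.T := by
  rw [Split.T, Point.map_some, Split.T]
  simp only [Point.some.injEq]
  exact ⟨algHom_algebraMap f a, map_zero f⟩

lemma chi_map (f : A →ₐ[S] B) (hA : SplitAt A W a b c) (hB : SplitAt B W a b c)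
    (P : (W.baseChange A).Point) : hB.chi (Point.map (W' := W) f P) = hA.chi P := by
  unfold Split.chi
  have h1 : Point.map (W' := W) f P = 0 ↔ P = 0 := by
    rw [← Point.map_zero (W' := W) f]
    exact (Point.map_injective (W' := W) f).eq_iff
  have h2 : Point.map (W' := W) f P = hB.T ↔ P = hA.T := by
    rw [← map_T f hA hB]
    exact (Point.map_injective (W' := W) f).eq_iff
  simp only [h1, h2]

omit [DecidableEq A] [DecidableEq B] in
lemma map_rho (f : A →ₐ[S] B) (x y : A) :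
    Split.rho (algebraMap R B a) (algebraMap R B b) (algebraMap R B c) (f x) (f y) =
      f (Split.rho (algebraMap R A a) (algebraMap R A b) (algebraMap R A c) x y) := by
  unfold Split.rho
  simp only [map_div₀, map_sub, map_mul, map_pow, algHom_algebraMap, map_ofNat]

omit [DecidableEq A] [DecidableEq B] in
lemma SplitAt.up (hA : SplitAt A W a b c) (f : A →ₐ[S] B) : SplitAt B W a b c where
  a₁ := by
    have := congrArg f hA.a₁
    rw [map_zero] at this
    exact (algHom_algebraMap f W.a₁).symm.trans this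
  a₂ := by
    have := congrArg f hA.a₂
    rw [map_neg, map_add, map_add, algHom_algebraMap, algHom_algebraMap, algHom_algebraMap] at this
    exact (algHom_algebraMap f W.a₂).symm.trans this
  a₃ := by
    have := congrArg f hA.a₃
    rw [map_zero] at this
    exact (algHom_algebraMap f W.a₃).symm.trans this
  a₄ := by
    have := congrArg f hA.a₄
    rw [map_add, map_add, map_mul, map_mul, map_mul, algHom_algebraMap, algHom_algebraMap,
      algHom_algebraMap] at this
    exact (algHom_algebraMap f W.a₄).symm.trans this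
  a₆ := by
    have := congrArg f hA.a₆
    rw [map_neg, map_mul, map_mul, algHom_algebraMap, algHom_algebraMap,
      algHom_algebraMap] at this
    exact (algHom_algebraMap f W.a₆).symm.trans this
  ab := by
    intro h
    apply hA.ab
    apply f.injective
    rw [AlgHom.toRingHom_eq_coe, RingHom.coe_coe, algHom_algebraMap, algHom_algebraMap, h]
  ac := by
    intro h
    apply hA.ac
    apply f.injective
    rw [AlgHom.toRingHom_eq_coe, RingHom.coe_coe, algHom_algebraMap, algHom_algebraMap, h]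
  bc := by
    intro h
    apply hA.bc
    apply f.injective
    rw [AlgHom.toRingHom_eq_coe, RingHom.coe_coe, algHom_algebraMap, algHom_algebraMap, h]
  two := by
    intro h
    apply hA.two
    apply f.injective
    rw [AlgHom.toRingHom_eq_coe, RingHom.coe_coe, map_ofNat, map_zero]
    exact h

/-- A two-torsion point is fixed by every automorphism. -/
lemma map_two_torsion (f : A →ₐ[S] A) (hA : SplitAt A W a b c) {P : (W.baseChange A).Point}
    (hP : P + P = 0) : Point.map (W' := W) f P = P := by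
  have e1 := map_T f hA hA
  have e2 := map_T f (a := b) (b := a) (c := c) hA.swap12 hA.swap12
  have e3 := map_T f (a := c) (b := a) (c := b) hA.rot.rot hA.rot.rot
  rcases hA.two_torsion P hP with rfl | rfl | rfl | rfl
  · rfl
  · exact e1
  · exact e2
  · exact e3

end Maps

section Rep

variable {R F Ω : Type*} [CommRing R] [Field F] [Field Ω] [Algebra R Ω]
  [Algebra F Ω] [DecidableEq Ω] {W : Affine R} {a b c : R}

/-- The element `d` of `F` represents, modulo squares, the quadratic character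
`g ↦ e₂(c(g), (a, 0))` attached to a map `c` from the Galois group to the two-torsion. -/
def Rep (hΩ : SplitAt Ω W a b c) (s : (Ω ≃ₐ[F] Ω) → (W.baseChange Ω).Point) (d : F) : Prop :=
  ∃ β : Ω, β ≠ 0 ∧ β ^ 2 = algebraMap F Ω d ∧ ∀ g : Ω ≃ₐ[F] Ω, g β = (hΩ.chi (s g) : Ω) * β

variable (hΩ : SplitAt Ω W a b c) {s s' : (Ω ≃ₐ[F] Ω) → (W.baseChange Ω).Point} {d d' : F}

include hΩ in
lemma chi_cast_sq (P : (W.baseChange Ω).Point) : (hΩ.chi P : Ω) * (hΩ.chi P : Ω) = 1 := by
  exact_mod_cast congrArg (Int.cast : ℤ → Ω) (hΩ.chi_sq P)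

lemma Rep.mul (h : Rep hΩ s d) (h' : Rep hΩ s' d') (hs : ∀ g, s g + s g = 0)
    (hs' : ∀ g, s' g + s' g = 0) : Rep hΩ (fun g => s g + s' g) (d * d') := by
  obtain ⟨β, hβ, h1, h2⟩ := h
  obtain ⟨β', hβ', h1', h2'⟩ := h'
  refine ⟨β * β', mul_ne_zero hβ hβ', by rw [mul_pow, h1, h1', map_mul], fun g => ?_⟩
  rw [map_mul, h2, h2', hΩ.chi_add (hs g) (hs' g)]
  push_cast
  ring

lemma Rep.unique [IsGalois F Ω] (h : Rep hΩ s d) (h' : Rep hΩ s d') : ∃ w : F, w ≠ 0 ∧
    d * d' = w ^ 2 := by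
  obtain ⟨β, hβ, h1, h2⟩ := h
  obtain ⟨β', hβ', h1', h2'⟩ := h'
  obtain ⟨w, hw⟩ := exists_of_fixed (F := F) (x := β * β') (by
    intro g
    rw [map_mul, h2, h2']
    linear_combination (β * β') * chi_cast_sq hΩ (s g))
  refine ⟨w, ?_, ?_⟩
  · rintro rfl
    rw [map_zero] at hw
    exact mul_ne_zero hβ hβ' hw.symm
  · apply (algebraMap F Ω).injective
    rw [map_mul, map_pow, hw, ← h1, ← h1']
    ring

lemma Rep.ne_zero (h : Rep hΩ s d) : d ≠ 0 := by
  obtain ⟨β, hβ, h1, h2⟩ := h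
  rintro rfl
  rw [map_zero] at h1
  exact hβ (pow_eq_zero_iff (two_ne_zero) |>.mp h1)

lemma Rep.chi_eq_one (h : Rep hΩ s d) {w : F} (hd : d = w ^ 2) (g : Ω ≃ₐ[F] Ω) :
    hΩ.chi (s g) = 1 := by
  obtain ⟨β, hβ, h1, h2⟩ := h
  rw [hd, map_pow] at h1
  have : β = algebraMap F Ω w ∨ β = -algebraMap F Ω w := sq_eq_sq_iff_eq_or_eq_neg.mp h1
  have hfix : g β = β := by
    rcases this with h | h
    · rw [h, AlgEquiv.commutes]
    · rw [h, map_neg, AlgEquiv.commutes]
  have h3 := h2 g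
  rw [hfix] at h3
  have h4 : (hΩ.chi (s g) : Ω) = 1 := by
    have : ((hΩ.chi (s g) : Ω) - 1) * β = 0 := by linear_combination -h3
    rcases mul_eq_zero.mp this with h5 | h5
    · linear_combination h5
    · exact absurd h5 hβ
  unfold Split.chi at h4 ⊢
  split_ifs at h4 ⊢ with h5
  · rfl
  · exfalso
    apply hΩ.two
    push_cast at h4
    linear_combination -h4

lemma Rep.of_eq (h : Rep hΩ s d) (e : ∀ g, s g = s' g) : Rep hΩ s' d := by
  obtain ⟨β, hβ, h1, h2⟩ := h
  exact ⟨β, hβ, h1, fun g => by rw [h2, e]⟩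

lemma Rep.mul_sq (h : Rep hΩ s d) {w : F} (hw : w ≠ 0) : Rep hΩ s (d * w ^ 2) := by
  obtain ⟨β, hβ, h1, h2⟩ := h
  have hw' : algebraMap F Ω w ≠ 0 := fun h => hw ((algebraMap F Ω).injective (by rw [h, map_zero]))
  refine ⟨β * algebraMap F Ω w, mul_ne_zero hβ hw', by rw [mul_pow, h1, map_mul, map_pow],
    fun g => ?_⟩
  rw [map_mul, h2, AlgEquiv.commutes]
  ring

/-- Existence of a representative. -/
lemma exists_rep [IsGalois F Ω] (hs : ∀ g, s g + s g = 0) (hmul : ∀ g h, s (g * h) = s g + s h)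
    (hc : IsLocallyConstant s) : ∃ d : F, Rep hΩ s d := by
  obtain ⟨β, hβ, h2⟩ := exists_eigen (F := F) (Ω := Ω) (fun g => hΩ.chi (s g))
    (fun g => by
      unfold Split.chi
      split_ifs
      · exact Or.inl rfl
      · exact Or.inr rfl)
    (fun g h => by rw [hmul, hΩ.chi_add (hs g) (hs h)])
    (hc.comp hΩ.chi)
  obtain ⟨d, hd⟩ := exists_of_fixed (F := F) (x := β * β) (by
    intro g
    rw [map_mul, h2]
    linear_combination (β * β) * chi_cast_sq hΩ (s g))
  exact ⟨d, β, hβ, by rw [hd]; ring, h2⟩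

end Rep

end Pool.Agent.Lib.MP_89bcae_ag

end

section

/-!
# Local conditions at a place
-/

open WeierstrassCurve WeierstrassCurve.Affine WithZero Multiplicative

namespace Pool.Agent.Lib.MP_89bcae_ag

section Valuation

variable {L : Type*} [Field L] (w : Valuation L ℤᵐ⁰)

/-- The valuation, written additively (with the sign convention of `Valuation`). -/
noncomputable def lg (x : L) : ℤ := WithZero.log (w x)

lemma lg_mul {x y : L} (hx : x ≠ 0) (hy : y ≠ 0) : lg w (x * y) = lg w x + lg w y := by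
  unfold lg
  rw [map_mul, WithZero.log_mul ((Valuation.ne_zero_iff w).mpr hx)
    ((Valuation.ne_zero_iff w).mpr hy)]

lemma lg_pow {x : L} (n : ℕ) : lg w (x ^ n) = n * lg w x := by
  unfold lg
  rw [map_pow, WithZero.log_pow, nsmul_eq_mul]

lemma lg_neg (x : L) : lg w (-x) = lg w x := by
  unfold lg; rw [Valuation.map_neg]

lemma lg_lt {x y : L} (hx : x ≠ 0) (hy : y ≠ 0) : lg w x < lg w y ↔ w x < w y :=
  WithZero.log_lt_log ((Valuation.ne_zero_iff w).mpr hx) ((Valuation.ne_zero_iff w).mpr hy)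

lemma lg_add_of_lt {x y : L} (hx : x ≠ 0) (hy : y ≠ 0) (h : lg w x < lg w y) :
    x + y ≠ 0 ∧ lg w (x + y) = lg w y := by
  have h1 := (lg_lt w hx hy).mp h
  have h2 := w.map_add_eq_of_lt_right h1
  refine ⟨?_, by unfold lg; rw [h2]⟩
  intro h0
  rw [h0, map_zero] at h2
  exact (Valuation.ne_zero_iff w).mpr hy h2.symm

/-- If `a - b` and `a - c` have the same even valuation, then `x - a` has even valuation for every
point `(x, y)` of `y² = (x - a)(x - b)(x - c)` with `x ≠ a`. -/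
lemma even_lg_sub {a b c x y : L} (hab : a ≠ b) (hac : a ≠ c)
    (he : lg w (a - b) = lg w (a - c)) (h2 : Even (lg w (a - b)))
    (H : y ^ 2 = (x - a) * (x - b) * (x - c)) (hx : x ≠ a) : Even (lg w (x - a)) := by
  have hxa : x - a ≠ 0 := sub_ne_zero.mpr hx
  have hab' : a - b ≠ 0 := sub_ne_zero.mpr hab
  have hac' : a - c ≠ 0 := sub_ne_zero.mpr hac
  rcases lt_trichotomy (lg w (x - a)) (lg w (a - b)) with h | h | h
  · obtain ⟨n1, e1⟩ := lg_add_of_lt w hxa hab' h
    obtain ⟨n2, e2⟩ := lg_add_of_lt w hxa hac' (he ▸ h)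
    have s1 : x - a + (a - b) = x - b := by ring
    have s2 : x - a + (a - c) = x - c := by ring
    rw [s1] at n1 e1
    rw [s2] at n2 e2
    have e3 := congrArg (lg w) H
    rw [lg_pow, lg_mul w (mul_ne_zero hxa n1) n2, lg_mul w hxa n1, e1, e2, ← he] at e3
    have : lg w (x - a) = 2 * (lg w y - lg w (a - b)) := by push_cast at e3; linarith
    rw [this]
    exact even_two_mul _
  · rw [h]; exact h2
  · obtain ⟨n1, e1⟩ := lg_add_of_lt w hab' hxa h
    obtain ⟨n2, e2⟩ := lg_add_of_lt w hac' hxa (he ▸ h)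
    have s1 : a - b + (x - a) = x - b := by ring
    have s2 : a - c + (x - a) = x - c := by ring
    rw [s1] at n1 e1
    rw [s2] at n2 e2
    have e3 := congrArg (lg w) H
    rw [lg_pow, lg_mul w (mul_ne_zero hxa n1) n2, lg_mul w hxa n1, e1, e2] at e3
    have : lg w (x - a) = 2 * (lg w y - lg w (x - a)) := by push_cast at e3; linarith
    rw [this]
    exact even_two_mul _

end Valuation

section Restrict

variable {F Ω ΩL : Type*} [Field F] [Field Ω] [Field ΩL] [Algebra F Ω] [Algebra F ΩL]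
  [Normal F Ω]

/-- Restriction of an automorphism along an embedding of a normal extension. -/
lemma exists_restrict (j : Ω →ₐ[F] ΩL) (g : ΩL ≃ₐ[F] ΩL) :
    ∃ g' : Ω ≃ₐ[F] Ω, ∀ x, j (g' x) = g (j x) := by
  let _ : Algebra Ω ΩL := j.toRingHom.toAlgebra
  have : IsScalarTower F Ω ΩL := IsScalarTower.of_algebraMap_eq fun x => (j.commutes x).symm
  exact ⟨g.restrictNormal Ω, fun x => g.restrictNormal_commutes Ω x⟩

end Restrict

section LocalRep

variable {R F Ω L ΩL : Type*} [CommRing R] [Field F] [Field Ω] [Field L] [Field ΩL]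
  [Algebra R F] [Algebra R Ω] [Algebra F Ω] [IsScalarTower R F Ω]
  [Algebra F L] [Algebra R L] [IsScalarTower R F L]
  [Algebra L ΩL] [Algebra F ΩL] [IsScalarTower F L ΩL] [Algebra R ΩL] [IsScalarTower R F ΩL]
  [IsScalarTower R L ΩL] [Normal F Ω] [IsGalois L ΩL]
  [DecidableEq Ω] [DecidableEq L] [DecidableEq ΩL] {W : Affine R} {a b c : R}

/-- If a two-torsion cocycle becomes, at a place, the Kummer class of a local point, then the
element representing it is locally a square times `x - a` (or a square, or `(a - b)(a - c)` times a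
square). -/
lemma local_rep (hΩ : SplitAt Ω W a b c) (hL : SplitAt L W a b c)
    {s : (Ω ≃ₐ[F] Ω) → (W.baseChange Ω).Point} {d : F} (hrep : Rep hΩ s d)
    (hs : ∀ g, s g + s g = 0) (j : Ω →ₐ[F] ΩL) (Q : (W.baseChange ΩL).Point)
    (P : (W.baseChange L).Point) (hP : Q + Q = Point.map (W' := W) (Algebra.ofId L ΩL) P)
    (hc : ∀ (g : ΩL ≃ₐ[L] ΩL) (g' : Ω ≃ₐ[F] Ω), (∀ x, j (g' x) = g (j x)) →
      Point.map (W' := W) j (s g') = Point.map (W' := W) (g : ΩL →ₐ[L] ΩL) Q - Q) :
    ∃ u : L, u ≠ 0 ∧ (algebraMap F L d = u ^ 2 ∨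
      (∃ x y : L, y ^ 2 = (x - algebraMap R L a) * (x - algebraMap R L b) *
        (x - algebraMap R L c) ∧ x ≠ algebraMap R L a ∧
        algebraMap F L d = u ^ 2 * (x - algebraMap R L a)) ∨
      algebraMap F L d = u ^ 2 * ((algebraMap R L a - algebraMap R L b) *
        (algebraMap R L a - algebraMap R L c))) := by
  have hΩL : SplitAt ΩL W a b c := hL.up (Algebra.ofId L ΩL)
  obtain ⟨β, hβ, h1, h2⟩ := hrep
  have hj : j β ≠ 0 := (map_ne_zero j).mpr hβ
  have hjsq : (j β) ^ 2 = algebraMap L ΩL (algebraMap F L d) := by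
    rw [← map_pow, h1, AlgHom.commutes, ← IsScalarTower.algebraMap_apply]
  -- the basic dichotomy: for every `g` there is a two-torsion point
  have key : ∀ g : ΩL ≃ₐ[L] ΩL, ∃ T : (W.baseChange ΩL).Point, T + T = 0 ∧
      Point.map (W' := W) (g : ΩL →ₐ[L] ΩL) Q = Q + T ∧ g (j β) = (hΩL.chi T : ΩL) * j β := by
    intro g
    obtain ⟨g', hg'⟩ := exists_restrict (F := F) j (g.restrictScalars F)
    refine ⟨Point.map (W' := W) j (s g'), ?_, ?_, ?_⟩
    · rw [← map_add, hs, map_zero]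
    · rw [hc g g' hg']; abel
    · rw [chi_map j hΩ hΩL]
      have := hg' β
      rw [h2, map_mul] at this
      rw [show g (j β) = (g.restrictScalars F) (j β) from rfl, ← this]
      simp
  -- conclusion from a fixed quotient
  have concl : ∀ z : ΩL, z ≠ 0 → (∀ g : ΩL ≃ₐ[L] ΩL, g (j β * z) = j β * z) →
      ∃ u : L, u ≠ 0 ∧ algebraMap L ΩL (algebraMap F L d) * z ^ 2 = (algebraMap L ΩL u) ^ 2 := by
    intro z hz hfix
    obtain ⟨u, hu⟩ := exists_of_fixed (F := L) hfix
    refine ⟨u, ?_, ?_⟩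
    · rintro rfl
      rw [map_zero] at hu
      exact mul_ne_zero hj hz hu.symm
    · rw [hu, ← hjsq]; ring
  have hchi2 : ∀ T : (W.baseChange ΩL).Point, (hΩL.chi T : ΩL) * (hΩL.chi T : ΩL) = 1 :=
    fun T => chi_cast_sq hΩL T
  by_cases hQ : Q + Q = 0
  · -- the local class is trivial
    obtain ⟨u, hu, hu'⟩ := concl 1 one_ne_zero (by
      intro g
      obtain ⟨T, hT, e1, e2⟩ := key g
      rw [map_two_torsion (g : ΩL →ₐ[L] ΩL) hΩL hQ] at e1
      have hT0 : T = 0 := by simpa using e1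
      rw [mul_one, e2, hT0, hΩL.chi_zero]
      simp)
    refine ⟨u, hu, Or.inl ?_⟩
    apply (algebraMap L ΩL).injective
    rw [map_pow, ← hu']
    ring
  · rcases Q with _ | ⟨x, y, hxy⟩
    · exact absurd (add_zero _) hQ
    · have hy : y ≠ 0 := by
        rintro rfl
        apply hQ
        apply Point.add_self_of_Y_eq
        rw [hΩL.negY_eq]; ring
      obtain ⟨X, Y, H, e, ea, eb, ec⟩ := hΩL.double_some hxy hy
      -- the local point
      rcases P with _ | ⟨X₀, Y₀, h₀⟩
      · exfalso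
        apply hQ
        rw [hP]; rfl
      · rw [e, Point.map_some] at hP
        simp only [Point.some.injEq] at hP
        obtain ⟨hX, -⟩ := hP
        have hX' : X = algebraMap L ΩL X₀ := hX
        have hrho : ∀ g : ΩL ≃ₐ[L] ΩL, ∀ T : (W.baseChange ΩL).Point, T + T = 0 →
            Point.map (W' := W) (g : ΩL →ₐ[L] ΩL) (.some x y hxy) = .some x y hxy + T →
            g (Split.rho (algebraMap R ΩL a) (algebraMap R ΩL b) (algebraMap R ΩL c) x y) =
              (hΩL.chi T : ΩL) *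
                Split.rho (algebraMap R ΩL a) (algebraMap R ΩL b) (algebraMap R ΩL c) x y := by
          intro g T hT e1
          rw [Point.map_some] at e1
          have := hΩL.rho_add_torsion hxy hy _ hT e1
          rw [map_rho (g : ΩL →ₐ[L] ΩL)] at this
          exact this
        have hrhob : ∀ g : ΩL ≃ₐ[L] ΩL, ∀ T : (W.baseChange ΩL).Point, T + T = 0 →
            Point.map (W' := W) (g : ΩL →ₐ[L] ΩL) (.some x y hxy) = .some x y hxy + T →
            g (Split.rho (algebraMap R ΩL b) (algebraMap R ΩL a) (algebraMap R ΩL c) x y) =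
              (hΩL.swap12.chi T : ΩL) *
                Split.rho (algebraMap R ΩL b) (algebraMap R ΩL a) (algebraMap R ΩL c) x y := by
          intro g T hT e1
          rw [Point.map_some] at e1
          have := hΩL.swap12.rho_add_torsion hxy hy _ hT e1
          rw [map_rho (g : ΩL →ₐ[L] ΩL)] at this
          exact this
        have hrhoc : ∀ g : ΩL ≃ₐ[L] ΩL, ∀ T : (W.baseChange ΩL).Point, T + T = 0 →
            Point.map (W' := W) (g : ΩL →ₐ[L] ΩL) (.some x y hxy) = .some x y hxy + T →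
            g (Split.rho (algebraMap R ΩL c) (algebraMap R ΩL a) (algebraMap R ΩL b) x y) =
              (hΩL.rot.rot.chi T : ΩL) *
                Split.rho (algebraMap R ΩL c) (algebraMap R ΩL a) (algebraMap R ΩL b) x y := by
          intro g T hT e1
          rw [Point.map_some] at e1
          have := hΩL.rot.rot.rho_add_torsion hxy hy _ hT e1
          rw [map_rho (g : ΩL →ₐ[L] ΩL)] at this
          exact this
        have eqn : Y₀ ^ 2 = (X₀ - algebraMap R L a) * (X₀ - algebraMap R L b) *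
            (X₀ - algebraMap R L c) := hL.eq_of_point h₀
        have am : ∀ r : R, algebraMap R ΩL r = algebraMap L ΩL (algebraMap R L r) :=
          fun r => IsScalarTower.algebraMap_apply R L ΩL r
        by_cases hXa : X₀ = algebraMap R L a
        · -- use the other two square roots
          set ρb := Split.rho (algebraMap R ΩL b) (algebraMap R ΩL a) (algebraMap R ΩL c) x y
            with hρb
          set ρc := Split.rho (algebraMap R ΩL c) (algebraMap R ΩL a) (algebraMap R ΩL b) x y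
            with hρc
          have eb' : ρb ^ 2 = algebraMap L ΩL (algebraMap R L a - algebraMap R L b) := by
            rw [← eb, hX', hXa, map_sub, am b]
          have ec' : ρc ^ 2 = algebraMap L ΩL (algebraMap R L a - algebraMap R L c) := by
            rw [← ec, hX', hXa, map_sub, am c]
          have hab : algebraMap R L a - algebraMap R L b ≠ 0 := sub_ne_zero.mpr hL.ab
          have hac : algebraMap R L a - algebraMap R L c ≠ 0 := sub_ne_zero.mpr hL.ac
          have hb0 : ρb ≠ 0 := by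
            intro h
            rw [h] at eb'
            apply hab
            apply (algebraMap L ΩL).injective
            rw [← eb', map_zero]; ring
          have hc0 : ρc ≠ 0 := by
            intro h
            rw [h] at ec'
            apply hac
            apply (algebraMap L ΩL).injective
            rw [← ec', map_zero]; ring
          obtain ⟨u, hu, hu'⟩ := concl (ρb * ρc) (mul_ne_zero hb0 hc0) (by
            intro g
            obtain ⟨T, hT, e1, e2⟩ := key g
            rw [map_mul, map_mul, e2, hrhob g T hT e1, hrhoc g T hT e1]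
            have h3 := hΩL.chi_mul_chi hT
            have h3' : (hΩL.swap12.chi T : ΩL) * (hΩL.rot.rot.chi T : ΩL) = (hΩL.chi T : ΩL) := by
              exact_mod_cast congrArg (Int.cast : ℤ → ΩL) h3
            linear_combination (hΩL.chi T : ΩL) * j β * ρb * ρc * h3' + j β * ρb * ρc * hchi2 T)
          refine ⟨u / ((algebraMap R L a - algebraMap R L b) *
            (algebraMap R L a - algebraMap R L c)), div_ne_zero hu (mul_ne_zero hab hac),
            Or.inr (Or.inr ?_)⟩
          rw [mul_pow, eb', ec', ← map_mul, ← map_mul, ← map_pow] at hu'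
          have := (algebraMap L ΩL).injective hu'
          field_simp
          linear_combination this
        · set ρ := Split.rho (algebraMap R ΩL a) (algebraMap R ΩL b) (algebraMap R ΩL c) x y
            with hρ
          have ea' : ρ ^ 2 = algebraMap L ΩL (X₀ - algebraMap R L a) := by
            rw [← ea, hX', map_sub, am a]
          have hXa' : X₀ - algebraMap R L a ≠ 0 := sub_ne_zero.mpr hXa
          have hρ0 : ρ ≠ 0 := by
            intro h
            rw [h] at ea'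
            apply hXa'
            apply (algebraMap L ΩL).injective
            rw [← ea', map_zero]; ring
          obtain ⟨u, hu, hu'⟩ := concl ρ hρ0 (by
            intro g
            obtain ⟨T, hT, e1, e2⟩ := key g
            rw [map_mul, e2, hrho g T hT e1]
            linear_combination (j β * ρ) * hchi2 T)
          refine ⟨u / (X₀ - algebraMap R L a), div_ne_zero hu hXa', Or.inr (Or.inl
            ⟨X₀, Y₀, eqn, hXa, ?_⟩)⟩
          rw [ea', ← map_mul, ← map_pow] at hu'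
          have := (algebraMap L ΩL).injective hu'
          field_simp
          linear_combination this

end LocalRep

end Pool.Agent.Lib.MP_89bcae_ag

end

section

/-!
# The types modulo `p` of the polynomials `D`
-/

open Polynomial

open scoped Classical

namespace Pool.Agent.Lib.MP_89bcae_ag

/-- The polynomial `D(g(x))` is irreducible and the degree of `D` is `n`. -/
def TypeA7 {κ : Type} [Field κ] (g D : κ[X]) (n : ℕ) : Prop :=
  Irreducible (D.comp g) ∧ D.natDegree = n

/-- The polynomial `D` has degree `n` and a root `g(b)`, `b ∈ κ` with `g'(b) ≠ 0`, and for the quotient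
`D₁` of `D` by `t - g(b)` the polynomial `D₁(g(x))` is irreducible. -/
def TypeB7 {κ : Type} [Field κ] (g D : κ[X]) (n : ℕ) : Prop :=
  ∃ (b : κ) (D₁ : κ[X]), D = (X - C (g.eval b)) * D₁ ∧ (derivative g).eval b ≠ 0 ∧
    Irreducible (D₁.comp g) ∧ D.natDegree = n

end Pool.Agent.Lib.MP_89bcae_ag

end

section

/-!
# Two-descent for the twists `D(t) y² = g(x) - t`
-/

open Polynomial WeierstrassCurve WeierstrassCurve.Affine

open scoped Classical

namespace Pool.Agent.Lib.MP_89bcae_ag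

set_option linter.unusedSectionVars false

/-- Over the field `A`, the curve `W` is `D(t) y² = g(x) - t` in Weierstrass form. -/
structure IsTwist {R F : Type*} [CommRing R] [Field F] (A : Type*) [Field A] [Algebra R A]
    [Algebra F[X] A] (W : Affine R) (g D : F[X]) : Prop where
  a₁ : algebraMap R A W.a₁ = 0
  a₂ : algebraMap R A W.a₂ = algebraMap F[X] A (C (g.coeff 2) * D)
  a₃ : algebraMap R A W.a₃ = 0
  a₄ : algebraMap R A W.a₄ = algebraMap F[X] A (C (g.coeff 1) * D ^ 2)
  a₆ : algebraMap R A W.a₆ = algebraMap F[X] A ((C (g.coeff 0) - X) * D ^ 3)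

section Twist

variable {R F : Type*} [CommRing R] [Field F] {A B : Type*} [Field A] [Algebra R A]
    [Algebra F[X] A] [Field B] [Algebra R B] [Algebra F[X] B] {W : Affine R} {g D : F[X]}

lemma IsTwist.short (h : IsTwist A W g D) : Short (W.baseChange A) :=
  ⟨h.a₁, h.a₃⟩

lemma ev_cubic (hg : g.Monic) (hdeg : g.natDegree = 3) (x : A) :
    ev F A x g = x ^ 3 + algebraMap F[X] A (C (g.coeff 2)) * x ^ 2 +
      algebraMap F[X] A (C (g.coeff 1)) * x + algebraMap F[X] A (C (g.coeff 0)) := by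
  unfold ev
  have h3 : g.coeff 3 = 1 := by rw [← hdeg]; exact hg.coeff_natDegree
  rw [coe_eval₂RingHom, eval₂_eq_sum_range, hdeg, Finset.sum_range_succ, Finset.sum_range_succ,
    Finset.sum_range_succ, Finset.sum_range_one, h3]
  simp only [RingHom.comp_apply, map_one, pow_zero, mul_one, pow_one, one_mul]
  ring

lemma eq_cubic (hg : g.Monic) (hdeg : g.natDegree = 3) :
    g = X ^ 3 + C (g.coeff 2) * X ^ 2 + C (g.coeff 1) * X + C (g.coeff 0) := by
  have h3 : g.coeff 3 = 1 := by rw [← hdeg]; exact hg.coeff_natDegree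
  conv_lhs => rw [g.as_sum_range_C_mul_X_pow, hdeg, Finset.sum_range_succ, Finset.sum_range_succ,
    Finset.sum_range_succ, Finset.sum_range_one, h3]
  simp only [map_one, pow_zero, mul_one, pow_one, one_mul]
  ring

lemma ev_derivative_cubic (hg : g.Monic) (hdeg : g.natDegree = 3) (x : A) :
    ev F A x (derivative g) = 3 * x ^ 2 + 2 * algebraMap F[X] A (C (g.coeff 2)) * x +
      algebraMap F[X] A (C (g.coeff 1)) := by
  have h1 : derivative g = C 3 * X ^ 2 + C 2 * C (g.coeff 2) * X + C (g.coeff 1) := by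
    conv_lhs => rw [eq_cubic hg hdeg]
    simp only [derivative_add, derivative_mul, derivative_X_pow, derivative_C, derivative_X]
    simp only [Nat.cast_ofNat, map_ofNat]
    ring
  have h3 : (C (3 : F) : F[X]) = 3 := map_ofNat C 3
  have h2 : (C (2 : F) : F[X]) = 2 := map_ofNat C 2
  rw [h1, h2, h3]
  simp only [map_add, map_mul, map_pow, ev_C, ev_X, map_ofNat]

lemma IsTwist.rt (h : IsTwist A W g D) (hg : g.Monic) (hdeg : g.natDegree = 3) {θ : A}
    (hθ : θ ∈ RootSet g) : Rt (W.baseChange A) (algebraMap F[X] A D * θ) := by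
  have h1 : ev F A θ g = algebraMap F[X] A X := hθ
  rw [ev_cubic hg hdeg] at h1
  change (algebraMap F[X] A D * θ) ^ 3 + algebraMap R A W.a₂ * (algebraMap F[X] A D * θ) ^ 2 +
    algebraMap R A W.a₄ * (algebraMap F[X] A D * θ) + algebraMap R A W.a₆ = 0
  rw [h.a₂, h.a₄, h.a₆]
  simp only [map_mul, map_pow, map_sub]
  linear_combination (algebraMap F[X] A D) ^ 3 * h1

end Twist

section Kummer

variable {R F L Ω : Type*} [CommRing R] [Field F] [IsAlgClosed F] [Field L] [Field Ω]
  [Algebra F[X] L] [IsFractionRing F[X] L] [Algebra L Ω] [Algebra F[X] Ω] [IsScalarTower F[X] L Ω]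
  [Algebra R L] [Algebra R Ω] [IsScalarTower R L Ω] {W : Affine R} {g D : F[X]}
  [IsGalois L Ω] [IsSepClosed Ω] [DecidableEq Ω]

/-- the descent functions of a two-torsion cocycle -/
structure IsDesc (W : Affine R) (g D : F[X]) (c : (Ω ≃ₐ[L] Ω) → (W.baseChange Ω).Point)
    (Z : Finset F) (b : Ω → Ω) : Prop where
  sq : ∀ θ ∈ RootSet (Ω := Ω) g, b θ ^ 2 = ∏ β ∈ Z, (θ - algebraMap F[X] Ω (C β))
  act : ∀ θ ∈ RootSet (Ω := Ω) g, ∀ σ : Ω ≃ₐ[L] Ω,
    σ (b θ) = rho (algebraMap F[X] Ω D * σ θ) (c σ) * b (σ θ)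

lemma map_D (σ : Ω ≃ₐ[L] Ω) (D : F[X]) : σ (algebraMap F[X] Ω D) = algebraMap F[X] Ω D := by
  rw [IsScalarTower.algebraMap_apply F[X] L Ω]
  exact σ.commutes _

variable (L) in
include L in
lemma root_sub_ne_zero {θ : Ω} (hθ : θ ∈ RootSet (Ω := Ω) g) (β : F) :
    θ - algebraMap F[X] Ω (C β) ≠ 0 := by
  intro h
  have h1 : ev F Ω θ (X - C β) = 0 := by rw [map_sub, ev_X, ev_C, h]
  have h2 := ev_injective L hθ (h1.trans (map_zero _).symm)
  exact X_sub_C_ne_zero β h2

/-- Existence of the descent functions. -/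
lemma exists_desc (h2 : (2 : Ω) ≠ 0) (hW : IsTwist Ω W g D) (hg : g.Monic)
    (hdeg : g.natDegree = 3) (hd : derivative g ≠ 0)
    (c : (Ω ≃ₐ[L] Ω) → (W.baseChange Ω).Point) (hc : ∀ σ, 2 • c σ = 0)
    (hmul : ∀ σ τ : Ω ≃ₐ[L] Ω, c (σ * τ) = c σ + Point.map (σ : Ω →ₐ[L] Ω) (c τ))
    (hloc : IsLocallyConstant c) :
    ∃ (Z : Finset F) (b : Ω → Ω), IsDesc W g D c Z b := by
  have hshort := hW.short
  obtain ⟨θ₁, θ₂, θ₃, -, -, -, hR, -, -⟩ := exists_three_roots (F := F) L (Ω := Ω) hg hdeg hd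
  have hθ₁ : θ₁ ∈ RootSet (Ω := Ω) g := (hR θ₁).mpr (Or.inl rfl)
  set d := algebraMap F[X] Ω D with hdd
  have hrt : ∀ θ ∈ RootSet (Ω := Ω) g, Rt (W.baseChange Ω) (d * θ) :=
    fun θ hθ => hW.rt hg hdeg hθ
  have hσd : ∀ σ : Ω ≃ₐ[L] Ω, σ d = d := fun σ => map_D σ D
  -- the sign functions
  obtain ⟨b, hb0, hb⟩ := exists_descent_fun (L := L) (RootSet (Ω := Ω) g)
    (fun θ hθ σ => map_mem_rootSet σ hθ)
    (fun θ hθ θ' hθ' => rootSet_transitive hg hdeg hθ hθ') ⟨θ₁, hθ₁⟩
    (fun θ σ => rho (d * θ) (c σ))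
    (fun θ _ σ => rho_two_torsion_sq hshort h2 (d * θ) (hc σ))
    (by
      intro θ hθ σ τ
      have hθ' := map_mem_rootSet σ hθ
      have h3 : 2 • Point.map (W' := W) (σ : Ω →ₐ[L] Ω) (c τ) = 0 := by
        rw [← map_nsmul, hc, map_zero]
      rw [hmul, rho_add hshort h2 (hrt _ hθ') _ _ h3]
      congr 1
      have h4 : d * σ θ = (σ : Ω →ₐ[L] Ω) (d * θ) := by
        simp [hσd]
      rw [h4, rho_map]
      rcases rho_two_torsion_sq hshort h2 (d * θ) (hc τ) with h | h <;> simp [h])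
    (fun θ _ => hloc.comp (rho (d * θ)))
  have hsgn : ∀ (θ : Ω) σ, rho (d * θ) (c σ) * rho (d * θ) (c σ) = 1 :=
    fun θ σ => rho_two_torsion_mul_self hshort h2 _ (hc σ)
  -- the square of `b` is a rational function
  obtain ⟨p, q, hq, hpq⟩ := exists_rational_of_fixed (L := L) hθ₁ (x := b θ₁ ^ 2) (by
    intro σ hσ
    rw [map_pow, hb θ₁ hθ₁, hσ, mul_pow, pow_two (rho _ _), hsgn, one_mul])
  have hinj : ∀ θ ∈ RootSet (Ω := Ω) g, Function.Injective (ev F Ω θ) :=
    fun θ hθ => ev_injective L hθ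
  have hp : p ≠ 0 := by
    rintro rfl
    rw [map_zero, mul_eq_zero] at hpq
    rcases hpq with h | h
    · exact hb0 θ₁ hθ₁ (pow_eq_zero_iff two_ne_zero |>.mp h)
    · exact hq (hinj θ₁ hθ₁ (h.trans (map_zero _).symm))
  obtain ⟨S, Z, hS, hSZ⟩ := exists_sq_mul_prod (p * q) (mul_ne_zero hp hq)
  have hne : ∀ θ ∈ RootSet (Ω := Ω) g, ∀ r : F[X], r ≠ 0 → ev F Ω θ r ≠ 0 :=
    fun θ hθ r hr h => hr (hinj θ hθ (h.trans (map_zero _).symm))
  refine ⟨Z, fun θ => b θ * ev F Ω θ q / ev F Ω θ S, ?_, ?_⟩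
  · intro θ hθ
    obtain ⟨σ, rfl⟩ := rootSet_transitive (L := L) hg hdeg hθ₁ hθ
    have h5 : b (σ θ₁) ^ 2 * ev F Ω (σ θ₁) q = ev F Ω (σ θ₁) p := by
      have h6 := congrArg σ hpq
      rw [map_mul, map_pow, hb θ₁ hθ₁, mul_pow, pow_two (rho _ _), hsgn, one_mul, ev_map,
        ev_map] at h6
      exact h6
    have h7 : ev F Ω (σ θ₁) p * ev F Ω (σ θ₁) q =
        ev F Ω (σ θ₁) S ^ 2 * ∏ β ∈ Z, (σ θ₁ - algebraMap F[X] Ω (C β)) := by
      rw [← map_mul, hSZ, map_mul, map_pow, map_prod]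
      congr 1
      apply Finset.prod_congr rfl
      intro β _
      rw [map_sub, ev_X, ev_C]
    have h8 := hne _ hθ S hS
    rw [div_pow, div_eq_iff (pow_ne_zero 2 h8), mul_pow]
    linear_combination (ev F Ω (σ θ₁) q) * h5 + h7
  · intro θ hθ σ
    rw [map_div₀, map_mul, hb θ hθ, ev_map, ev_map]
    ring

lemma ev_const (β : F) (p : F[X]) :
    ev F Ω (algebraMap F[X] Ω (C β)) p = algebraMap F[X] Ω (C (p.eval β)) := by
  have h : (ev F Ω (algebraMap F[X] Ω (C β))) =
      (algebraMap F[X] Ω).comp (C.comp (evalRingHom β)) := by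
    apply Polynomial.ringHom_ext
    · intro b
      simp [ev_C]
    · simp [ev_X]
  rw [h]; rfl

/-- A product over the three roots is invariant under the Galois group. -/
lemma prod_roots_map {T : Finset Ω} (hT : ∀ θ, θ ∈ T ↔ θ ∈ RootSet (Ω := Ω) g)
    (σ : Ω ≃ₐ[L] Ω) (f : Ω → Ω) : ∏ θ ∈ T, f (σ θ) = ∏ θ ∈ T, f θ := by
  apply Finset.prod_nbij' (fun θ => σ θ) (fun θ => σ.symm θ)
  · intro θ hθ
    exact (hT _).mpr (map_mem_rootSet σ ((hT _).mp hθ))
  · intro θ hθ
    exact (hT _).mpr (map_mem_rootSet σ.symm ((hT _).mp hθ))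
  · intro θ _; simp
  · intro θ _; simp
  · intro θ _; rfl

variable (L) in
include L in
lemma algebraMap_ne_zero_Om {D : F[X]} (hD : D ≠ 0) : algebraMap F[X] Ω D ≠ 0 :=
  fun h => hD (algebraMap_Om_injective (F := F) L (Ω := Ω) (h.trans (map_zero _).symm))

variable (L) in
include L in
/-- The product over the roots of the three signs of a two-torsion point is `1`. -/
lemma prod_rho_roots (h2 : (2 : Ω) ≠ 0) (hW : IsTwist Ω W g D) (hg : g.Monic)
    (hdeg : g.natDegree = 3) (hd : derivative g ≠ 0) (hD : D ≠ 0) {T : Finset Ω}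
    (hT : ∀ θ, θ ∈ T ↔ θ ∈ RootSet (Ω := Ω) g) {P : (W.baseChange Ω).Point} (hP : 2 • P = 0) :
    ∏ θ ∈ T, rho (algebraMap F[X] Ω D * θ) P = 1 := by
  obtain ⟨θ₁, θ₂, θ₃, h12, h13, h23, hR, -, -⟩ :=
    exists_three_roots (F := F) L (Ω := Ω) hg hdeg hd
  have hT' : T = {θ₁, θ₂, θ₃} := by
    ext θ
    rw [hT, hR]
    simp
  have hd0 : algebraMap F[X] Ω D ≠ 0 := algebraMap_ne_zero_Om L hD
  rw [hT', Finset.prod_insert (by simp [h12, h13]), Finset.prod_insert (by simp [h23]),
    Finset.prod_singleton, ← mul_assoc]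
  apply prod_rho hW.short h2 (hW.rt hg hdeg ((hR θ₁).mpr (Or.inl rfl)))
    (hW.rt hg hdeg ((hR θ₂).mpr (Or.inr (Or.inl rfl))))
    (hW.rt hg hdeg ((hR θ₃).mpr (Or.inr (Or.inr rfl)))) _ _ _ hP
  · exact fun h => h12 (mul_left_cancel₀ hd0 h)
  · exact fun h => h13 (mul_left_cancel₀ hd0 h)
  · exact fun h => h23 (mul_left_cancel₀ hd0 h)

/-- The product of the descent functions is rational. -/
lemma IsDesc.exists_norm {c : (Ω ≃ₐ[L] Ω) → (W.baseChange Ω).Point} {Z : Finset F} {b : Ω → Ω}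
    (h : IsDesc W g D c Z b) (h2 : (2 : Ω) ≠ 0) (hW : IsTwist Ω W g D) (hg : g.Monic)
    (hdeg : g.natDegree = 3) (hd : derivative g ≠ 0) (hD : D ≠ 0) (hc : ∀ σ, 2 • c σ = 0)
    {T : Finset Ω} (hT : ∀ θ, θ ∈ T ↔ θ ∈ RootSet (Ω := Ω) g) :
    (∀ σ : Ω ≃ₐ[L] Ω, σ (∏ θ ∈ T, b θ) = ∏ θ ∈ T, b θ) ∧
      (∏ θ ∈ T, b θ) ^ 2 = algebraMap F[X] Ω (∏ β ∈ Z, (X - C (g.eval β))) := by
  constructor
  · intro σ
    rw [map_prod]
    have h1 : ∏ θ ∈ T, σ (b θ) =
        ∏ θ ∈ T, (rho (algebraMap F[X] Ω D * σ θ) (c σ) * b (σ θ)) :=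
      Finset.prod_congr rfl fun θ hθ => h.act θ ((hT θ).mp hθ) σ
    rw [h1, prod_roots_map hT σ (fun θ => rho (algebraMap F[X] Ω D * θ) (c σ) * b θ),
      Finset.prod_mul_distrib, prod_rho_roots L h2 hW hg hdeg hd hD hT (hc σ), one_mul]
  · obtain ⟨θ₁, θ₂, θ₃, h12, h13, h23, hR, heval, -⟩ :=
      exists_three_roots (F := F) L (Ω := Ω) hg hdeg hd
    have hT' : T = {θ₁, θ₂, θ₃} := by
      ext θ
      rw [hT, hR]
      simp
    rw [← Finset.prod_pow, Finset.prod_congr rfl fun θ hθ => h.sq θ ((hT θ).mp hθ),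
      Finset.prod_comm, map_prod]
    apply Finset.prod_congr rfl
    intro β _
    have h3 := heval (algebraMap F[X] Ω (C β))
    rw [ev_const] at h3
    rw [hT', Finset.prod_insert (by simp [h12, h13]), Finset.prod_insert (by simp [h23]),
      Finset.prod_singleton, map_sub]
    linear_combination h3

/-- The fibres of `g` meet `Z` in sets of even size. -/
lemma IsDesc.even {c : (Ω ≃ₐ[L] Ω) → (W.baseChange Ω).Point} {Z : Finset F} {b : Ω → Ω}
    (h : IsDesc W g D c Z b) (h2 : (2 : Ω) ≠ 0) (hW : IsTwist Ω W g D) (hg : g.Monic)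
    (hdeg : g.natDegree = 3) (hd : derivative g ≠ 0) (hD : D ≠ 0) (hc : ∀ σ, 2 • c σ = 0)
    (α : F) : Even (Z.filter fun β => g.eval β = α).card := by
  obtain ⟨θ₁, θ₂, θ₃, -, -, -, hR, -, -⟩ := exists_three_roots (F := F) L (Ω := Ω) hg hdeg hd
  have hT : ∀ θ, θ ∈ ({θ₁, θ₂, θ₃} : Finset Ω) ↔ θ ∈ RootSet (Ω := Ω) g := by
    intro θ
    rw [hR]
    simp
  obtain ⟨e1, e2⟩ := h.exists_norm h2 hW hg hdeg hd hD hc hT
  obtain ⟨y, hy⟩ := (InfiniteGalois.mem_range_algebraMap_iff_fixed (k := L) _).mpr e1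
  obtain ⟨p, q, hq, rfl⟩ := IsFractionRing.div_surjective (A := F[X]) y
  have hq0 : q ≠ 0 := nonZeroDivisors.ne_zero hq
  apply even_card_of_sq Z (fun β => g.eval β) hq0 (p := p)
  apply IsFractionRing.injective F[X] L
  apply (algebraMap L Ω).injective
  rw [← IsScalarTower.algebraMap_apply, ← IsScalarTower.algebraMap_apply, map_mul, ← e2, ← hy,
    map_div₀, ← IsScalarTower.algebraMap_apply, ← IsScalarTower.algebraMap_apply, map_pow, map_pow]
  have := algebraMap_ne_zero_Om (F := F) L (Ω := Ω) hq0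
  field_simp

variable (L) in
include L in
/-- A two-torsion point with prescribed signs. -/
lemma exists_point_signs (h2 : (2 : Ω) ≠ 0) (hW : IsTwist Ω W g D) (hg : g.Monic)
    (hdeg : g.natDegree = 3) (hd : derivative g ≠ 0) (hD : D ≠ 0) {T : Finset Ω}
    (hT : ∀ θ, θ ∈ T ↔ θ ∈ RootSet (Ω := Ω) g) (s : Ω → Ω) (hs : ∀ θ ∈ T, s θ = 1 ∨ s θ = -1)
    (hprod : ∏ θ ∈ T, s θ = 1) :
    ∃ P : (W.baseChange Ω).Point, 2 • P = 0 ∧
      ∀ θ ∈ T, rho (algebraMap F[X] Ω D * θ) P = s θ := by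
  obtain ⟨θ₁, θ₂, θ₃, h12, h13, h23, hR, -, -⟩ :=
    exists_three_roots (F := F) L (Ω := Ω) hg hdeg hd
  have hT' : T = {θ₁, θ₂, θ₃} := by
    ext θ
    rw [hT, hR]
    simp
  subst hT'
  have hd0 : algebraMap F[X] Ω D ≠ 0 := algebraMap_ne_zero_Om L hD
  rw [Finset.prod_insert (by simp [h12, h13]), Finset.prod_insert (by simp [h23]),
    Finset.prod_singleton, ← mul_assoc] at hprod
  obtain ⟨P, hP, r1, r2, r3⟩ := exists_two_torsion hW.short h2
    (hW.rt hg hdeg ((hR θ₁).mpr (Or.inl rfl)))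
    (hW.rt hg hdeg ((hR θ₂).mpr (Or.inr (Or.inl rfl))))
    (hW.rt hg hdeg ((hR θ₃).mpr (Or.inr (Or.inr rfl))))
    (fun h => h12 (mul_left_cancel₀ hd0 h)) (fun h => h13 (mul_left_cancel₀ hd0 h))
    (fun h => h23 (mul_left_cancel₀ hd0 h)) (s θ₁) (s θ₂) (s θ₃)
    (hs _ (by simp)) (hs _ (by simp)) (hs _ (by simp)) hprod
  refine ⟨P, hP, ?_⟩
  intro θ hθ
  simp only [Finset.mem_insert, Finset.mem_singleton] at hθ
  rcases hθ with rfl | rfl | rfl
  · exact r1
  · exact r2
  · exact r3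

variable (L) in
include L in
/-- A two-torsion point is determined by its signs. -/
lemma eq_of_signs (h2 : (2 : Ω) ≠ 0) (hW : IsTwist Ω W g D) (hg : g.Monic)
    (hdeg : g.natDegree = 3) (hd : derivative g ≠ 0) (hD : D ≠ 0)
    {P Q : (W.baseChange Ω).Point} (hP : 2 • P = 0) (hQ : 2 • Q = 0)
    (h : ∀ θ ∈ RootSet (Ω := Ω) g, rho (algebraMap F[X] Ω D * θ) P =
      rho (algebraMap F[X] Ω D * θ) Q) : P = Q := by
  obtain ⟨θ₁, θ₂, θ₃, h12, h13, h23, hR, -, -⟩ :=
    exists_three_roots (F := F) L (Ω := Ω) hg hdeg hd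
  have hd0 : algebraMap F[X] Ω D ≠ 0 := algebraMap_ne_zero_Om L hD
  have h1 : θ₁ ∈ RootSet (Ω := Ω) g := (hR θ₁).mpr (Or.inl rfl)
  have h1' : θ₂ ∈ RootSet (Ω := Ω) g := (hR θ₂).mpr (Or.inr (Or.inl rfl))
  have hQ' : 2 • (-Q) = 0 := by rw [smul_neg, hQ, neg_zero]
  have hnQ : -Q = Q := by
    have : Q + Q = 0 := by rw [← two_nsmul]; exact hQ
    exact neg_eq_of_add_eq_zero_left this
  have h3 : P - Q = 0 := by
    apply eq_zero_of_rho_eq_one hW.short h2 (e₁ := algebraMap F[X] Ω D * θ₁)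
      (e₂ := algebraMap F[X] Ω D * θ₂) (fun h => h12 (mul_left_cancel₀ hd0 h))
    · rw [smul_sub, hP, hQ, sub_zero]
    · rw [sub_eq_add_neg, rho_add hW.short h2 (hW.rt hg hdeg h1) _ _ hQ', hnQ, h _ h1]
      exact rho_two_torsion_mul_self hW.short h2 _ hQ
    · rw [sub_eq_add_neg, rho_add hW.short h2 (hW.rt hg hdeg h1') _ _ hQ', hnQ, h _ h1']
      exact rho_two_torsion_mul_self hW.short h2 _ hQ
  exact sub_eq_zero.mp h3

/-- The signs of the image of a two-torsion point under an automorphism. -/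
lemma rho_map_two_torsion (h2 : (2 : Ω) ≠ 0) (hW : IsTwist Ω W g D)
    (σ : Ω ≃ₐ[L] Ω) (θ : Ω) {P : (W.baseChange Ω).Point} (hP : 2 • P = 0) :
    rho (algebraMap F[X] Ω D * σ θ) (Point.map (W' := W) (σ : Ω →ₐ[L] Ω) P) =
      rho (algebraMap F[X] Ω D * θ) P := by
  have h4 : algebraMap F[X] Ω D * σ θ = (σ : Ω →ₐ[L] Ω) (algebraMap F[X] Ω D * θ) := by
    simp [map_D]
  rw [h4, rho_map]
  rcases rho_two_torsion_sq hW.short h2 (algebraMap F[X] Ω D * θ) hP with h | h <;> simp [h]

/-- If `Z` is empty, the cocycle is a coboundary. -/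
lemma IsDesc.coboundary {c : (Ω ≃ₐ[L] Ω) → (W.baseChange Ω).Point} {b : Ω → Ω}
    (h : IsDesc W g D c (∅ : Finset F) b) (h2 : (2 : Ω) ≠ 0) (hW : IsTwist Ω W g D) (hg : g.Monic)
    (hdeg : g.natDegree = 3) (hd : derivative g ≠ 0) (hD : D ≠ 0) (hc : ∀ σ, 2 • c σ = 0) :
    ∃ P : (W.baseChange Ω).Point, 2 • P = 0 ∧
      ∀ σ : Ω ≃ₐ[L] Ω, c σ = Point.map (σ : Ω →ₐ[L] Ω) P - P := by
  obtain ⟨θ₁, θ₂, θ₃, h12, h13, h23, hR, -, -⟩ :=
    exists_three_roots (F := F) L (Ω := Ω) hg hdeg hd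
  have hT : ∀ θ, θ ∈ ({θ₁, θ₂, θ₃} : Finset Ω) ↔ θ ∈ RootSet (Ω := Ω) g := by
    intro θ
    rw [hR]
    simp
  have hb : ∀ θ ∈ RootSet (Ω := Ω) g, b θ = 1 ∨ b θ = -1 := by
    intro θ hθ
    have := h.sq θ hθ
    rw [Finset.prod_empty] at this
    exact mul_self_eq_one_iff.mp (by rw [← pow_two]; exact this)
  set ε := ∏ θ ∈ ({θ₁, θ₂, θ₃} : Finset Ω), b θ with hε
  have hε' : ε = b θ₁ * b θ₂ * b θ₃ := by
    rw [hε, Finset.prod_insert (by simp [h12, h13]), Finset.prod_insert (by simp [h23]),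
      Finset.prod_singleton, ← mul_assoc]
  have hm1 : θ₁ ∈ RootSet (Ω := Ω) g := (hR θ₁).mpr (Or.inl rfl)
  have hm2 : θ₂ ∈ RootSet (Ω := Ω) g := (hR θ₂).mpr (Or.inr (Or.inl rfl))
  have hm3 : θ₃ ∈ RootSet (Ω := Ω) g := (hR θ₃).mpr (Or.inr (Or.inr rfl))
  have hεs : ε = 1 ∨ ε = -1 := by
    rw [hε']
    rcases hb _ hm1 with e1 | e1 <;> rcases hb _ hm2 with e2 | e2 <;>
      rcases hb _ hm3 with e3 | e3 <;> simp [e1, e2, e3]
  obtain ⟨P, hP, hPs⟩ := exists_point_signs L h2 hW hg hdeg hd hD hT (fun θ => ε * b θ)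
    (by
      intro θ hθ
      rcases hεs with e1 | e1 <;> rcases hb _ ((hT θ).mp hθ) with e2 | e2 <;> simp [e1, e2])
    (by
      rw [Finset.prod_mul_distrib, ← hε, Finset.prod_const,
        Finset.card_insert_of_notMem (by simp [h12, h13]),
        Finset.card_insert_of_notMem (by simp [h23]), Finset.card_singleton]
      rcases hεs with e1 | e1 <;> rw [e1] <;> norm_num)
  refine ⟨P, hP, fun σ => ?_⟩
  have hσP : 2 • Point.map (W' := W) (σ : Ω →ₐ[L] Ω) P = 0 := by
    rw [← map_nsmul, hP, map_zero]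
  have hnP : -P = P := by
    have : P + P = 0 := by rw [← two_nsmul]; exact hP
    exact neg_eq_of_add_eq_zero_left this
  apply eq_of_signs L h2 hW hg hdeg hd hD (hc σ) (by rw [smul_sub, hσP, hP, sub_zero])
  intro θ' hθ'
  obtain ⟨θ, rfl⟩ : ∃ θ, σ θ = θ' := ⟨σ.symm θ', σ.apply_symm_apply θ'⟩
  have hθ : θ ∈ RootSet (Ω := Ω) g := by
    have := map_mem_rootSet σ.symm hθ'
    rwa [σ.symm_apply_apply] at this
  rw [sub_eq_add_neg, rho_add hW.short h2 (hW.rt hg hdeg hθ') _ _ (by rw [hnP]; exact hP), hnP,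
    rho_map_two_torsion h2 hW σ θ hP, hPs θ ((hT θ).mpr hθ), hPs (σ θ) ((hT _).mpr hθ')]
  have h5 := h.act θ hθ σ
  have h6 : σ (b θ) = b θ := by
    rcases hb _ hθ with e | e <;> simp [e]
  rw [h6] at h5
  rw [h5]
  have h7 : b (σ θ) * b (σ θ) = 1 := by
    rcases hb _ hθ' with e | e <;> simp [e]
  have h8 : ε * ε = 1 := by
    rcases hεs with e | e <;> simp [e]
  linear_combination (-(rho (algebraMap F[X] Ω D * σ θ) (c σ)) * b (σ θ) * b (σ θ)) * h8 -
    (rho (algebraMap F[X] Ω D * σ θ) (c σ)) * h7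

end Kummer

end Pool.Agent.Lib.MP_89bcae_ag

end

section

/-!
# Tate module cocycles: division by two
-/

open Polynomial WeierstrassCurve WeierstrassCurve.Affine

namespace Pool.Agent.Lib.MP_89bcae_ag

section Basic

variable {R F Ω : Type*} [CommRing R] [Field F] [Field Ω] [Algebra R F] [Algebra R Ω]
  [Algebra F Ω] [IsScalarTower R F Ω] [DecidableEq Ω] {W : Affine R}

/-- A continuous cocycle with values in the two-adic Tate module. -/
structure TC (W : Affine R) (c : ℕ → (Ω ≃ₐ[F] Ω) → (W.baseChange Ω).Point) : Prop where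
  zero : ∀ g, c 0 g = 0
  two : ∀ n g, 2 • c (n + 1) g = c n g
  mul : ∀ n g h, c n (g * h) = c n g + Point.map (W' := W) (g : Ω →ₐ[F] Ω) (c n h)
  loc : ∀ n, IsLocallyConstant (c n)

/-- The class is fixed by `γ` up to torsion. -/
def InvMT (W : Affine R) (c : ℕ → (Ω ≃ₐ[F] Ω) → (W.baseChange Ω).Point) (γ : Ω ≃ₐ[R] Ω) : Prop :=
  ∃ m : ℕ, 0 < m ∧ ∀ n, ∃ A : (W.baseChange Ω).Point, 2 ^ n • A = 0 ∧
    ∀ g h : Ω ≃ₐ[F] Ω, (∀ x, γ (g x) = h (γ x)) →
      m • (Point.map (W' := W) (γ : Ω →ₐ[R] Ω) (c n g) - c n h) =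
        Point.map (W' := W) (h : Ω →ₐ[F] Ω) A - A

/-- The stabilizer of an algebraic element is open. -/
lemma isLocallyConstant_apply8 [Algebra.IsAlgebraic F Ω] (x : Ω) :
    IsLocallyConstant (fun g : Ω ≃ₐ[F] Ω => g x) := by
  rw [IsLocallyConstant.iff_exists_open]
  intro g
  have hfin : FiniteDimensional F (IntermediateField.adjoin F {x}) :=
    IntermediateField.adjoin.finiteDimensional (Algebra.IsIntegral.isIntegral x)
  have hopen := IntermediateField.fixingSubgroup_isOpen (IntermediateField.adjoin F {x})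
  refine ⟨(fun h => g⁻¹ * h) ⁻¹' ((IntermediateField.adjoin F {x}).fixingSubgroup :
    Set (Ω ≃ₐ[F] Ω)), hopen.preimage (continuous_const_mul g⁻¹), ?_, ?_⟩
  · simp only [Set.mem_preimage, inv_mul_cancel]
    exact Subgroup.one_mem _
  · intro h hh
    have h1 := (IntermediateField.mem_fixingSubgroup_iff _ _).mp hh x
      (IntermediateField.mem_adjoin_simple_self F x)
    have h2 : g ((g⁻¹ * h) x) = g x := by rw [h1]
    rwa [← AlgEquiv.mul_apply, mul_inv_cancel_left] at h2

lemma isLocallyConstant_map8 [Algebra.IsAlgebraic F Ω] (Q : (W.baseChange Ω).Point) :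
    IsLocallyConstant (fun g : Ω ≃ₐ[F] Ω => Point.map (W' := W) (g : Ω →ₐ[F] Ω) Q) := by
  rcases Q with _ | ⟨x, y, h⟩
  · exact IsLocallyConstant.const 0
  · have h1 := isLocallyConstant_apply8 (F := F) x
    have h2 := isLocallyConstant_apply8 (F := F) y
    rw [IsLocallyConstant.iff_exists_open] at h1 h2 ⊢
    intro g
    obtain ⟨U, hU, hgU, h1'⟩ := h1 g
    obtain ⟨V, hV, hgV, h2'⟩ := h2 g
    refine ⟨U ∩ V, hU.inter hV, ⟨hgU, hgV⟩, ?_⟩
    intro h hh
    rw [Point.map_some, Point.map_some]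
    simp only [Point.some.injEq]
    exact ⟨h1' h hh.1, h2' h hh.2⟩

/-- A point fixed by the Galois group is rational. -/
lemma exists_point_of_fixed8 [DecidableEq F] [IsGalois F Ω] (Q : (W.baseChange Ω).Point)
    (h : ∀ g : Ω ≃ₐ[F] Ω, Point.map (W' := W) (g : Ω →ₐ[F] Ω) Q = Q) :
    ∃ P : (W.baseChange F).Point, Point.map (W' := W) (Algebra.ofId F Ω) P = Q := by
  rcases Q with _ | ⟨x, y, hxy⟩
  · exact ⟨0, rfl⟩
  · have h' : ∀ g : Ω ≃ₐ[F] Ω, g x = x ∧ g y = y := by
      intro g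
      have := h g
      rw [Point.map_some] at this
      simp only [Point.some.injEq] at this
      exact this
    obtain ⟨x₀, hx₀⟩ := exists_of_fixed (F := F) (x := x) (fun g => (h' g).1)
    obtain ⟨y₀, hy₀⟩ := exists_of_fixed (F := F) (x := y) (fun g => (h' g).2)
    subst hx₀ hy₀
    have hN : (W.baseChange F).Nonsingular x₀ y₀ :=
      (W.baseChange_nonsingular (f := Algebra.ofId F Ω) (Algebra.ofId F Ω).injective x₀ y₀).mp hxy
    exact ⟨.some x₀ y₀ hN, rfl⟩

/-- A sequence of successive halves. -/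
lemma exists_seq8 {A : Type*} [AddCommGroup A] (h : ∀ P : A, ∃ Q, Q + Q = P) (P Q : A)
    (hQ : Q + Q = P) : ∃ q : ℕ → A, q 0 = P ∧ q 1 = Q ∧ ∀ n, q (n + 1) + q (n + 1) = q n := by
  choose f hf using h
  refine ⟨fun n => Nat.casesOn n P (fun m => f^[m] Q), rfl, rfl, ?_⟩
  intro n
  cases n with
  | zero => exact hQ
  | succ m =>
    change f^[m + 1] Q + f^[m + 1] Q = f^[m] Q
    rw [Function.iterate_succ_apply']
    exact hf _

lemma two_pow_seq8 {A : Type*} [AddCommGroup A] {q : ℕ → A}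
    (h : ∀ n, q (n + 1) + q (n + 1) = q n) (n : ℕ) : 2 ^ n • q n = q 0 := by
  induction n with
  | zero => simp
  | succ m ih => rw [pow_succ, mul_smul, two_nsmul, h, ih]

lemma TC.two_pow {c : ℕ → (Ω ≃ₐ[F] Ω) → (W.baseChange Ω).Point} (hc : TC W c) (n : ℕ)
    (g : Ω ≃ₐ[F] Ω) : 2 ^ n • c n g = 0 := by
  induction n with
  | zero => rw [hc.zero, smul_zero]
  | succ m ih => rw [pow_succ, mul_smul, hc.two, ih]

/-- The quotient by two of `c - δ(q)`, where `c` agrees with `δ(q)` at the first level. -/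
lemma TC.half [IsGalois F Ω] {c : ℕ → (Ω ≃ₐ[F] Ω) → (W.baseChange Ω).Point} (hc : TC W c)
    {q : ℕ → (W.baseChange Ω).Point} (hq : ∀ n, q (n + 1) + q (n + 1) = q n)
    (h1 : ∀ g : Ω ≃ₐ[F] Ω, c 1 g = Point.map (W' := W) (g : Ω →ₐ[F] Ω) (q 1) - q 1) :
    TC W (fun n (g : Ω ≃ₐ[F] Ω) => c (n + 1) g -
      (Point.map (W' := W) (g : Ω →ₐ[F] Ω) (q (n + 1)) - q (n + 1))) where
  zero g := by
    change c (0 + 1) g - _ = 0
    rw [zero_add, h1, sub_self]
  two n g := by
    change 2 • (c (n + 1 + 1) g - (Point.map (W' := W) (g : Ω →ₐ[F] Ω) (q (n + 1 + 1)) -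
      q (n + 1 + 1))) = c (n + 1) g - (Point.map (W' := W) (g : Ω →ₐ[F] Ω) (q (n + 1)) - q (n + 1))
    rw [smul_sub, hc.two, smul_sub, ← map_nsmul, two_nsmul (q (n + 1 + 1)), hq]
  mul n g h := by
    have e : Point.map (W' := W) ((g * h : Ω ≃ₐ[F] Ω) : Ω →ₐ[F] Ω) (q (n + 1)) =
        Point.map (g : Ω →ₐ[F] Ω) (Point.map (h : Ω →ₐ[F] Ω) (q (n + 1))) := by
      rw [Point.map_map]; rfl
    change c (n + 1) (g * h) - (Point.map (W' := W) ((g * h : Ω ≃ₐ[F] Ω) : Ω →ₐ[F] Ω) (q (n + 1)) -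
      q (n + 1)) = _
    rw [hc.mul, e, map_sub, map_sub]
    abel
  loc n := (hc.loc (n + 1)).sub ((isLocallyConstant_map8 _).sub (IsLocallyConstant.const _))

/-- Invariance up to torsion is inherited. -/
lemma InvMT.half {c : ℕ → (Ω ≃ₐ[F] Ω) → (W.baseChange Ω).Point}
    {q : ℕ → (W.baseChange Ω).Point} (hq : ∀ n, q (n + 1) + q (n + 1) = q n) {γ : Ω ≃ₐ[R] Ω}
    (hfix : Point.map (W' := W) (γ : Ω →ₐ[R] Ω) (q 0) = q 0)
    (hinv : InvMT W c γ) : InvMT W (fun n (g : Ω ≃ₐ[F] Ω) => c (n + 1) g -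
      (Point.map (W' := W) (g : Ω →ₐ[F] Ω) (q (n + 1)) - q (n + 1))) γ := by
  obtain ⟨m, hm, H⟩ := hinv
  refine ⟨2 * m, by positivity, fun n => ?_⟩
  obtain ⟨A, hA, HA⟩ := H (n + 1)
  set B := Point.map (W' := W) (γ : Ω →ₐ[R] Ω) (q (n + 1)) - q (n + 1) with hB
  refine ⟨2 • (A - m • B), ?_, ?_⟩
  · have hB' : 2 ^ (n + 1) • B = 0 := by
      rw [hB, smul_sub, ← map_nsmul, two_pow_seq8 hq, hfix, sub_self]
    rw [← mul_smul, ← pow_succ, smul_sub, hA, smul_comm, hB', smul_zero, sub_zero]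
  · intro g h hgh
    have e1 : Point.map (W' := W) (γ : Ω →ₐ[R] Ω) (Point.map (g : Ω →ₐ[F] Ω) (q (n + 1))) =
        Point.map (h : Ω →ₐ[F] Ω) (Point.map (γ : Ω →ₐ[R] Ω) (q (n + 1))) := by
      rcases q (n + 1) with _ | ⟨x, y, hxy⟩
      · rfl
      · rw [Point.map_some, Point.map_some, Point.map_some, Point.map_some]
        simp only [Point.some.injEq]
        exact ⟨hgh x, hgh y⟩
    have e2 := HA g h hgh
    have e3 : Point.map (W' := W) (γ : Ω →ₐ[R] Ω) (c (n + 1) g -
      (Point.map (g : Ω →ₐ[F] Ω) (q (n + 1)) - q (n + 1))) - (c (n + 1) h -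
      (Point.map (h : Ω →ₐ[F] Ω) (q (n + 1)) - q (n + 1))) =
      (Point.map (γ : Ω →ₐ[R] Ω) (c (n + 1) g) - c (n + 1) h) -
        (Point.map (h : Ω →ₐ[F] Ω) B - B) := by
      rw [map_sub, map_sub, e1, hB, map_sub]
      abel
    have e4 : Point.map (W' := W) (h : Ω →ₐ[F] Ω) (A - m • B) =
        Point.map (W' := W) (h : Ω →ₐ[F] Ω) A - m • Point.map (W' := W) (h : Ω →ₐ[F] Ω) B := by
      rw [map_sub, map_nsmul]
    change (2 * m) • (Point.map (W' := W) (γ : Ω →ₐ[R] Ω) (c (n + 1) g -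
      (Point.map (W' := W) (g : Ω →ₐ[F] Ω) (q (n + 1)) - q (n + 1))) - (c (n + 1) h -
      (Point.map (W' := W) (h : Ω →ₐ[F] Ω) (q (n + 1)) - q (n + 1)))) = _
    rw [e3, mul_smul, smul_sub m, e2, map_nsmul, e4, ← smul_sub 2]
    congr 1
    rw [smul_sub m]
    abel

end Basic

end Pool.Agent.Lib.MP_89bcae_ag

end

section

/-!
# Uniqueness and Galois equivariance of the descent data
-/

open Polynomial WeierstrassCurve WeierstrassCurve.Affine

open scoped Classical

namespace Pool.Agent.Lib.MP_89bcae_ag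

set_option linter.unusedSectionVars false

section Unique

variable {R F L Ω : Type*} [CommRing R] [Field F] [IsAlgClosed F] [Field L] [Field Ω]
  [Algebra F[X] L] [IsFractionRing F[X] L] [Algebra L Ω] [Algebra F[X] Ω] [IsScalarTower F[X] L Ω]
  [Algebra R L] [Algebra R Ω] [IsScalarTower R L Ω] {W : Affine R} {g D : F[X]}
  [IsGalois L Ω] [IsSepClosed Ω] [DecidableEq Ω]

lemma IsDesc.ne_zero {c : (Ω ≃ₐ[L] Ω) → (W.baseChange Ω).Point} {Z : Finset F} {b : Ω → Ω}
    (h : IsDesc W g D c Z b) {θ : Ω} (hθ : θ ∈ RootSet (Ω := Ω) g) : b θ ≠ 0 := by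
  intro h0
  have h1 := h.sq θ hθ
  rw [h0, zero_pow two_ne_zero, eq_comm, Finset.prod_eq_zero_iff] at h1
  obtain ⟨β, -, h2⟩ := h1
  exact root_sub_ne_zero L hθ β h2

lemma ev_prod (Z : Finset F) (θ : Ω) :
    ev F Ω θ (∏ β ∈ Z, (X - C β)) = ∏ β ∈ Z, (θ - algebraMap F[X] Ω (C β)) := by
  rw [map_prod]
  apply Finset.prod_congr rfl
  intro β _
  rw [map_sub, ev_X, ev_C]

/-- The quotient of two descent functions, for cocycles with the same values, is a rational
function of `θ`. -/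
lemma IsDesc.exists_ratio {c : (Ω ≃ₐ[L] Ω) → (W.baseChange Ω).Point} {Z Z' : Finset F}
    {b b' : Ω → Ω} (h : IsDesc W g D c Z b) (h' : IsDesc W g D c Z' b') (h2 : (2 : Ω) ≠ 0)
    (hW : IsTwist Ω W g D) (hc : ∀ σ, 2 • c σ = 0) {θ : Ω} (hθ : θ ∈ RootSet (Ω := Ω) g) :
    ∃ p q : F[X], q ≠ 0 ∧ b θ * b' θ * ev F Ω θ q = ev F Ω θ p := by
  apply exists_rational_of_fixed (L := L) hθ
  intro σ hσ
  rw [map_mul, h.act θ hθ, h'.act θ hθ, hσ]
  linear_combination (b θ * b' θ) * rho_two_torsion_mul_self hW.short h2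
    (algebraMap F[X] Ω D * θ) (hc σ)

/-- Uniqueness of the set `Z`. -/
lemma IsDesc.unique {c : (Ω ≃ₐ[L] Ω) → (W.baseChange Ω).Point} {Z Z' : Finset F}
    {b b' : Ω → Ω} (h : IsDesc W g D c Z b) (h' : IsDesc W g D c Z' b') (h2 : (2 : Ω) ≠ 0)
    (hW : IsTwist Ω W g D) (hg : g.Monic) (hdeg : g.natDegree = 3) (hd : derivative g ≠ 0)
    (hc : ∀ σ, 2 • c σ = 0) : Z = Z' := by
  obtain ⟨θ, _, _, -, -, -, hR, -, -⟩ := exists_three_roots (F := F) L (Ω := Ω) hg hdeg hd
  have hθ : θ ∈ RootSet (Ω := Ω) g := (hR θ).mpr (Or.inl rfl)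
  obtain ⟨p, q, hq, hpq⟩ := h.exists_ratio h' h2 hW hc hθ
  apply eq_of_sq Z Z' hq (p := p)
  apply ev_injective L hθ
  rw [map_pow, ← hpq, map_mul, map_mul, map_pow, ev_prod, ev_prod, ← h.sq θ hθ, ← h'.sq θ hθ]
  ring

/-- Changing the cocycle by a coboundary. -/
lemma IsDesc.twist {c c' : (Ω ≃ₐ[L] Ω) → (W.baseChange Ω).Point} {Z : Finset F}
    {b : Ω → Ω} (h : IsDesc W g D c Z b) (h2 : (2 : Ω) ≠ 0)
    (hW : IsTwist Ω W g D) (hg : g.Monic) (hdeg : g.natDegree = 3)
    {A : (W.baseChange Ω).Point} (hA : 2 • A = 0)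
    (hcc : ∀ σ : Ω ≃ₐ[L] Ω, c' σ = c σ + (Point.map (σ : Ω →ₐ[L] Ω) A - A)) :
    IsDesc W g D c' Z (fun θ => rho (algebraMap F[X] Ω D * θ) A * b θ) := by
  have hsq : ∀ θ : Ω, rho (algebraMap F[X] Ω D * θ) A * rho (algebraMap F[X] Ω D * θ) A = 1 :=
    fun θ => rho_two_torsion_mul_self hW.short h2 _ hA
  have hnA : -A = A := by
    have : A + A = 0 := by rw [← two_nsmul]; exact hA
    exact neg_eq_of_add_eq_zero_left this
  refine ⟨?_, ?_⟩
  · intro θ hθ
    rw [mul_pow, h.sq θ hθ, pow_two, hsq, one_mul]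
  · intro θ hθ σ
    have hσA : 2 • Point.map (W' := W) (σ : Ω →ₐ[L] Ω) A = 0 := by
      rw [← map_nsmul, hA, map_zero]
    have hθ' := map_mem_rootSet σ hθ
    have hrt := hW.rt hg hdeg hθ'
    rw [hcc, sub_eq_add_neg, hnA, rho_add hW.short h2 hrt _ _ (by
      rw [smul_add, hσA, hA, add_zero]), rho_add hW.short h2 hrt _ _ hA,
      rho_map_two_torsion h2 hW σ θ hA, map_mul, h.act θ hθ]
    have h3 : σ (rho (algebraMap F[X] Ω D * θ) A) = rho (algebraMap F[X] Ω D * θ) A := by
      rcases rho_two_torsion_sq hW.short h2 (algebraMap F[X] Ω D * θ) hA with e | e <;> simp [e]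
    rw [h3]
    linear_combination (-(rho (algebraMap F[X] Ω D * θ) A) *
      rho (algebraMap F[X] Ω D * σ θ) (c σ) * b (σ θ)) * hsq (σ θ)

end Unique

section Conj

variable {R F L Ω : Type*} [CommRing R] [Field F] [IsAlgClosed F] [Field L] [Field Ω]
  [Algebra F[X] L] [IsFractionRing F[X] L] [Algebra L Ω] [Algebra F[X] Ω] [IsScalarTower F[X] L Ω]
  [Algebra R L] [Algebra R Ω] [IsScalarTower R L Ω] {W : Affine R} {g D : F[X]}
  [IsGalois L Ω] [IsSepClosed Ω] [DecidableEq Ω] {γ : Ω ≃ₐ[R] Ω} {τ : F →+* F}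

lemma ev_gamma (hγ : ∀ p : F[X], γ (algebraMap F[X] Ω p) = algebraMap F[X] Ω (p.map τ))
    (θ : Ω) (p : F[X]) : γ (ev F Ω θ p) = ev F Ω (γ θ) (p.map τ) := by
  have h : (γ : Ω →+* Ω).comp (ev F Ω θ) = (ev F Ω (γ θ)).comp (mapRingHom τ) := by
    apply Polynomial.ringHom_ext
    · intro a
      simp only [RingHom.comp_apply, ev_C, coe_mapRingHom, map_C]
      have := hγ (C a)
      rw [map_C] at this
      exact this
    · simp [ev_X]
  exact RingHom.congr_fun h p

lemma gamma_mem_rootSet (hγ : ∀ p : F[X], γ (algebraMap F[X] Ω p) = algebraMap F[X] Ω (p.map τ))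
    (hgτ : g.map τ = g) {θ : Ω} (hθ : θ ∈ RootSet (Ω := Ω) g) : γ θ ∈ RootSet (Ω := Ω) g := by
  change ev F Ω (γ θ) g = _
  have h1 := ev_gamma hγ θ g
  rw [hgτ, show ev F Ω θ g = _ from hθ, hγ, map_X] at h1
  exact h1.symm

lemma gamma_symm_mem_rootSet
    (hγ : ∀ p : F[X], γ (algebraMap F[X] Ω p) = algebraMap F[X] Ω (p.map τ))
    (hgτ : g.map τ = g) {θ : Ω} (hθ : θ ∈ RootSet (Ω := Ω) g) :
    γ.symm θ ∈ RootSet (Ω := Ω) g := by
  change ev F Ω (γ.symm θ) g = _
  apply γ.injective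
  rw [ev_gamma hγ, hgτ, γ.apply_symm_apply, hγ, map_X]
  exact hθ

/-- Conjugating the cocycle by an automorphism over `k(t)`. -/
lemma IsDesc.conj {c c' : (Ω ≃ₐ[L] Ω) → (W.baseChange Ω).Point} {Z : Finset F}
    {b : Ω → Ω} (h : IsDesc W g D c Z b)
    (hγ : ∀ p : F[X], γ (algebraMap F[X] Ω p) = algebraMap F[X] Ω (p.map τ))
    (hgτ : g.map τ = g) (hDτ : D.map τ = D)
    (hconj : ∀ σ : Ω ≃ₐ[L] Ω, ∃ σ' : Ω ≃ₐ[L] Ω, (∀ x, γ (σ' x) = σ (γ x)) ∧
      c' σ = Point.map (W' := W) (γ : Ω →ₐ[R] Ω) (c σ')) :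
    IsDesc W g D c' (Z.image τ) (fun θ => γ (b (γ.symm θ))) := by
  refine ⟨?_, ?_⟩
  · intro θ hθ
    have hθ' := gamma_symm_mem_rootSet hγ hgτ hθ
    rw [← map_pow, h.sq _ hθ', map_prod, Finset.prod_image (fun x _ y _ hxy => τ.injective hxy)]
    apply Finset.prod_congr rfl
    intro β _
    rw [map_sub, γ.apply_symm_apply, hγ, map_C]
  · intro θ hθ σ
    have hθ' := gamma_symm_mem_rootSet hγ hgτ hθ
    obtain ⟨σ', h1, h3⟩ := hconj σ
    have h4 : σ' (γ.symm θ) = γ.symm (σ θ) := by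
      apply γ.injective
      rw [h1, γ.apply_symm_apply, γ.apply_symm_apply]
    rw [← h1, h.act _ hθ', map_mul, h4, h3]
    congr 1
    have h5 : algebraMap F[X] Ω D * σ θ = (γ : Ω →ₐ[R] Ω) (algebraMap F[X] Ω D * γ.symm (σ θ)) := by
      change _ = γ (algebraMap F[X] Ω D * γ.symm (σ θ))
      rw [map_mul, hγ, hDτ, γ.apply_symm_apply]
    rw [h5, rho_map]
    rfl

/-- Invariance of the class implies invariance of the set `Z`. -/
lemma IsDesc.image_eq {c : (Ω ≃ₐ[L] Ω) → (W.baseChange Ω).Point} {Z : Finset F}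
    {b : Ω → Ω} (h : IsDesc W g D c Z b) (h2 : (2 : Ω) ≠ 0)
    (hW : IsTwist Ω W g D) (hg : g.Monic) (hdeg : g.natDegree = 3) (hd : derivative g ≠ 0)
    (hc : ∀ σ, 2 • c σ = 0)
    (hγ : ∀ p : F[X], γ (algebraMap F[X] Ω p) = algebraMap F[X] Ω (p.map τ))
    (hgτ : g.map τ = g) (hDτ : D.map τ = D)
    (hconj : ∀ σ : Ω ≃ₐ[L] Ω, ∃ σ' : Ω ≃ₐ[L] Ω, ∀ x, γ (σ' x) = σ (γ x))
    {A : (W.baseChange Ω).Point} (hA : 2 • A = 0)
    (hinv : ∀ σ' σ : Ω ≃ₐ[L] Ω, (∀ x, γ (σ' x) = σ (γ x)) →
      Point.map (W' := W) (γ : Ω →ₐ[R] Ω) (c σ') - c σ =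
        Point.map (W' := W) (σ : Ω →ₐ[L] Ω) A - A) :
    Z.image τ = Z := by
  set c' : (Ω ≃ₐ[L] Ω) → (W.baseChange Ω).Point :=
    fun σ => c σ + (Point.map (W' := W) (σ : Ω →ₐ[L] Ω) A - A) with hc'
  have h3 := h.twist h2 hW hg hdeg hA (c' := c') (fun σ => rfl)
  have h4 := h.conj (c' := c') hγ hgτ hDτ (by
    intro σ
    obtain ⟨σ', hσ'⟩ := hconj σ
    refine ⟨σ', hσ', ?_⟩
    rw [hc']
    simp only
    rw [← hinv σ' σ hσ']
    abel)
  apply h4.unique h3 h2 hW hg hdeg hd
  intro σ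
  have hσA : 2 • Point.map (W' := W) (σ : Ω →ₐ[L] Ω) A = 0 := by
    rw [← map_nsmul, hA, map_zero]
  rw [hc']
  simp only
  rw [smul_add, hc, smul_sub, hσA, hA, sub_zero, add_zero]

end Conj

end Pool.Agent.Lib.MP_89bcae_ag

end

section

/-!
# The exact effect of an automorphism on the descent functions
-/

open Polynomial WeierstrassCurve WeierstrassCurve.Affine

open scoped Classical

namespace Pool.Agent.Lib.MP_89bcae_ag

set_option linter.unusedSectionVars false

section SqrtProd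

variable {F : Type*} [Field F]

/-- A product over a set with even fibres is a square. -/
lemma prod_even_fibres {M : Type*} [CommMonoid M] (Z : Finset F) (f : F → F) (u : F → M)
    (h : ∀ α, Even (Z.filter fun β => f β = α).card) :
    ∏ β ∈ Z, u (f β) =
      (∏ α ∈ Z.image f, u α ^ ((Z.filter fun β => f β = α).card / 2)) ^ 2 := by
  rw [Finset.prod_comp u f, ← Finset.prod_pow]
  apply Finset.prod_congr rfl
  intro α _
  rw [← pow_mul]
  congr 1
  obtain ⟨n, hn⟩ := h α
  omega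

end SqrtProd

section Conj

variable {R F L Ω : Type*} [CommRing R] [Field F] [IsAlgClosed F] [Field L] [Field Ω]
  [Algebra F[X] L] [IsFractionRing F[X] L] [Algebra L Ω] [Algebra F[X] Ω] [IsScalarTower F[X] L Ω]
  [Algebra R L] [Algebra R Ω] [IsScalarTower R L Ω] {W : Affine R} {g D : F[X]}
  [IsGalois L Ω] [IsSepClosed Ω] [DecidableEq Ω] {γ : Ω ≃ₐ[R] Ω} {τ : F →+* F}

/-- The effect of an automorphism fixing the points of `Z` on the descent functions. -/
lemma IsDesc.conj_eq {c : (Ω ≃ₐ[L] Ω) → (W.baseChange Ω).Point} {Z : Finset F}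
    {b : Ω → Ω} (h : IsDesc W g D c Z b) (h2 : (2 : Ω) ≠ 0)
    (hW : IsTwist Ω W g D) (hg : g.Monic) (hdeg : g.natDegree = 3) (hd : derivative g ≠ 0)
    (hD : D ≠ 0) (hc : ∀ σ, 2 • c σ = 0)
    (hγ : ∀ p : F[X], γ (algebraMap F[X] Ω p) = algebraMap F[X] Ω (p.map τ))
    (hgτ : g.map τ = g) (hDτ : D.map τ = D)
    (hconj : ∀ σ : Ω ≃ₐ[L] Ω, ∃ σ' : Ω ≃ₐ[L] Ω, ∀ x, γ (σ' x) = σ (γ x))
    (hfix : ∀ β ∈ Z, τ β = β)
    {A : (W.baseChange Ω).Point} (hA : 2 • A = 0)
    (hinv : ∀ σ' σ : Ω ≃ₐ[L] Ω, (∀ x, γ (σ' x) = σ (γ x)) →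
      Point.map (W' := W) (γ : Ω →ₐ[R] Ω) (c σ') - c σ =
        Point.map (W' := W) (σ : Ω →ₐ[L] Ω) A - A) :
    ∀ θ ∈ RootSet (Ω := Ω) g, γ (b (γ.symm θ)) = rho (algebraMap F[X] Ω D * θ) A * b θ := by
  set c' : (Ω ≃ₐ[L] Ω) → (W.baseChange Ω).Point :=
    fun σ => c σ + (Point.map (W' := W) (σ : Ω →ₐ[L] Ω) A - A) with hc'
  have h3 := h.twist h2 hW hg hdeg hA (c' := c') (fun σ => rfl)
  have h4 := h.conj (c' := c') hγ hgτ hDτ (by
    intro σ
    obtain ⟨σ', hσ'⟩ := hconj σ
    refine ⟨σ', hσ', ?_⟩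
    rw [hc']
    simp only
    rw [← hinv σ' σ hσ']
    abel)
  have hZ : Z.image τ = Z := by
    ext β
    rw [Finset.mem_image]
    constructor
    · rintro ⟨β', h5, rfl⟩
      rw [hfix β' h5]
      exact h5
    · intro h5
      exact ⟨β, h5, hfix β h5⟩
  rw [hZ] at h4
  have hc2' : ∀ σ, 2 • c' σ = 0 := by
    intro σ
    have hσA : 2 • Point.map (W' := W) (σ : Ω →ₐ[L] Ω) A = 0 := by
      rw [← map_nsmul, hA, map_zero]
    rw [hc']
    simp only
    rw [smul_add, hc, smul_sub, hσA, hA, sub_zero, add_zero]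
  obtain ⟨θ₁, θ₂, θ₃, h12, h13, h23, hR, -, -⟩ :=
    exists_three_roots (F := F) L (Ω := Ω) hg hdeg hd
  have hT : ∀ θ, θ ∈ ({θ₁, θ₂, θ₃} : Finset Ω) ↔ θ ∈ RootSet (Ω := Ω) g := by
    intro θ
    rw [hR]
    simp
  have hθ₁ : θ₁ ∈ RootSet (Ω := Ω) g := (hR _).mpr (Or.inl rfl)
  -- the two systems of descent functions agree up to a global sign
  set B1 : Ω → Ω := fun θ => rho (algebraMap F[X] Ω D * θ) A * b θ with hB1
  set B2 : Ω → Ω := fun θ => γ (b (γ.symm θ)) with hB2
  have hs0 : ∀ θ σ, rho (algebraMap F[X] Ω D * θ) (c' σ) ≠ 0 := by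
    intro θ σ h0
    have := rho_two_torsion_mul_self hW.short h2 (algebraMap F[X] Ω D * θ) (hc2' σ)
    rw [h0, mul_zero] at this
    exact zero_ne_one this
  have hglob : ∀ s : Ω, (s = 1 ∨ s = -1) → B2 θ₁ = s * B1 θ₁ →
      ∀ θ ∈ RootSet (Ω := Ω) g, B2 θ = s * B1 θ := by
    intro s hs h5 θ hθ
    obtain ⟨σ, rfl⟩ := rootSet_transitive (L := L) hg hdeg hθ₁ hθ
    have h6 := congrArg σ h5
    have hσs : σ s = s := by
      rcases hs with rfl | rfl <;> simp
    rw [map_mul, hσs, h4.act θ₁ hθ₁ σ, h3.act θ₁ hθ₁ σ] at h6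
    apply mul_left_cancel₀ (hs0 (σ θ₁) σ)
    linear_combination h6
  have hsgn : B2 θ₁ = 1 * B1 θ₁ ∨ B2 θ₁ = -1 * B1 θ₁ := by
    have h5 : B2 θ₁ ^ 2 = B1 θ₁ ^ 2 := (h4.sq θ₁ hθ₁).trans (h3.sq θ₁ hθ₁).symm
    have h6 : (B2 θ₁ - B1 θ₁) * (B2 θ₁ + B1 θ₁) = 0 := by linear_combination h5
    rcases mul_eq_zero.mp h6 with h7 | h7
    · left; linear_combination h7
    · right; linear_combination h7
  rcases hsgn with h5 | h5
  · intro θ hθ
    have := hglob 1 (Or.inl rfl) h5 θ hθ
    rw [one_mul] at this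
    exact this
  · exfalso
    have h6 := hglob (-1) (Or.inr rfl) h5
    -- the norm
    set T : Finset Ω := {θ₁, θ₂, θ₃} with hTdef
    obtain ⟨-, hN2⟩ := h.exists_norm h2 hW hg hdeg hd hD hc hT
    set N := ∏ θ ∈ T, b θ with hN
    have hB1N : ∏ θ ∈ T, B1 θ = N := by
      rw [hB1, Finset.prod_mul_distrib, prod_rho_roots L h2 hW hg hdeg hd hD hT hA, one_mul]
    have hcard : T.card = 3 := by
      rw [hTdef, Finset.card_insert_of_notMem (by simp [h12, h13]),
        Finset.card_insert_of_notMem (by simp [h23]), Finset.card_singleton]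
    have hB2N : ∏ θ ∈ T, B2 θ = -N := by
      rw [Finset.prod_congr rfl fun θ hθ => h6 θ ((hT θ).mp hθ), Finset.prod_mul_distrib, hB1N,
        Finset.prod_const, hcard]
      ring
    have hB2γ : ∏ θ ∈ T, B2 θ = γ N := by
      rw [hN, map_prod]
      symm
      apply Finset.prod_nbij' (fun θ => γ θ) (fun θ => γ.symm θ)
      · intro θ hθ
        exact (hT _).mpr (gamma_mem_rootSet hγ hgτ ((hT θ).mp hθ))
      · intro θ hθ
        exact (hT _).mpr (gamma_symm_mem_rootSet hγ hgτ ((hT θ).mp hθ))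
      · intro θ _; simp
      · intro θ _; simp
      · intro θ _
        rw [hB2]
        simp
    -- `N` is fixed by `γ`
    have heven := h.even h2 hW hg hdeg hd hD hc
    set q : F[X] := ∏ α ∈ Z.image (fun β => g.eval β),
      (X - C α) ^ ((Z.filter fun β => g.eval β = α).card / 2) with hq
    have hNq : N ^ 2 = (algebraMap F[X] Ω q) ^ 2 := by
      rw [hN2, ← map_pow, hq]
      congr 1
      exact prod_even_fibres Z (fun β => g.eval β) (fun α => X - C α) heven
    have hqτ : q.map τ = q := by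
      rw [hq, Polynomial.map_prod]
      apply Finset.prod_congr rfl
      intro α hα
      obtain ⟨β, hβ, rfl⟩ := Finset.mem_image.mp hα
      have h7 : τ (g.eval β) = g.eval β := by
        have := eval₂_hom (p := g) τ β
        rw [← this, ← eval_map, hgτ, hfix β hβ]
      rw [Polynomial.map_pow, Polynomial.map_sub, Polynomial.map_X, Polynomial.map_C, h7]
    have hγN : γ N = N := by
      have h7 : (N - algebraMap F[X] Ω q) * (N + algebraMap F[X] Ω q) = 0 := by
        linear_combination hNq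
      have h8 : γ (algebraMap F[X] Ω q) = algebraMap F[X] Ω q := by rw [hγ, hqτ]
      rcases mul_eq_zero.mp h7 with h9 | h9
      · rw [sub_eq_zero.mp h9, h8]
      · have : N = -algebraMap F[X] Ω q := by linear_combination h9
        rw [this, map_neg, h8]
    have hN0 : N ≠ 0 := by
      rw [hN]
      exact Finset.prod_ne_zero_iff.mpr fun θ hθ => h.ne_zero ((hT θ).mp hθ)
    rw [hB2γ, hγN] at hB2N
    have : 2 * N = 0 := by linear_combination hB2N
    rcases mul_eq_zero.mp this with h7 | h7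
    · exact h2 h7
    · exact hN0 h7

end Conj

end Pool.Agent.Lib.MP_89bcae_ag

end

section

/-!
# The definitions for a subfield `K`, in terms of `Sup.JacOver`
-/

open Polynomial IsDedekindDomain

open scoped Classical

namespace Pool.Agent.Lib.MP_89bcae_ag.Sup

universe u

section

variable {L Ω : Type u} [Field L] [Field Ω] [Algebra L Ω]

/-- See `Superelliptic.IsTateCocycleOver`. -/
structure IsTateCocycleOver (ℓ : ℕ) (f : L[X]) (K : Subfield Ω)
    (c : ℕ → galOver L K → JacOver ℓ f Ω) : Prop where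
  zero : ∀ σ, c 0 σ = 0
  smul : ∀ n σ, ℓ • c (n + 1) σ = c n σ
  cocycle : ∀ n (σ τ : galOver L K),
    c n (σ * τ) = c n σ + push ℓ f ((σ : Ω ≃ₐ[L] Ω) : Ω →ₐ[L] Ω) (c n τ)
  locallyConstant : ∀ n, IsLocallyConstant (c n)

/-- See `Superelliptic.IsLocallyTrivialOver`. -/
def IsLocallyTrivialOver (ℓ : ℕ) (f : L[X]) (K : Subfield Ω) (c : galOver L K → JacOver ℓ f Ω)
    (Lv : Type u) [Field Lv] [Algebra L Lv] : Prop :=
  ∀ (M : Type u) [Field M] [Algebra Lv M] [IsAlgClosure Lv M] [Algebra L M] [IsScalarTower L Lv M]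
    (j : Ω →ₐ[L] M), ∃ Q : JacOver ℓ f M, ∀ (g : M ≃ₐ[Lv] M) (g' : galOver L K),
      (∀ x, j ((g' : Ω ≃ₐ[L] Ω) x) = g (j x)) →
        push ℓ f j (c g') = push ℓ f (g.restrictScalars L : M →ₐ[L] M) Q - Q

/-- See `Superelliptic.IsFixedByOver`. -/
def IsFixedByOver (ℓ : ℕ) (f : L[X]) (K : Subfield Ω) (c : ℕ → galOver L K → JacOver ℓ f Ω)
    (γ : Ω ≃+* Ω)
    (hγ : (f.map (algebraMap L Ω)).map (γ : Ω →+* Ω) = f.map (algebraMap L Ω)) : Prop :=
  ∃ m : ℕ, 0 < m ∧ ∀ n, ∃ A : JacOver ℓ f Ω, ℓ ^ n • A = 0 ∧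
    ∀ g h : galOver L K, (∀ x, γ ((g : Ω ≃ₐ[L] Ω) x) = (h : Ω ≃ₐ[L] Ω) (γ x)) →
      m • (jacMap ℓ (γ : Ω →+* Ω) hγ (c n g) - c n h) =
        push ℓ f ((h : Ω ≃ₐ[L] Ω) : Ω →ₐ[L] Ω) A - A

/-- See `Superelliptic.IsTrivialOver`. -/
def IsTrivialOver (ℓ : ℕ) (f : L[X]) (K : Subfield Ω)
    (c : ℕ → galOver L K → JacOver ℓ f Ω) : Prop :=
  ∀ n, ∃ A : JacOver ℓ f Ω, ℓ ^ n • A = 0 ∧ ∀ g : galOver L K,
    c n g = push ℓ f ((g : Ω ≃ₐ[L] Ω) : Ω →ₐ[L] Ω) A - A

end

/-- See `Superelliptic.NoTateClassOver`. -/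
def NoTateClassOver (ℓ : ℕ) (k F L : Type u) {Ω : Type u} [Field k] [Field F] [Algebra k F]
    [Field L] [Algebra F[X] L] [IsFractionRing F[X] L] [Field Ω] [Algebra L Ω] (g D : k[X])
    (K : Subfield Ω) : Prop :=
  ∀ c : ℕ → galOver L K → JacOver ℓ (curvePoly k F L g D) Ω,
    IsTateCocycleOver ℓ (curvePoly k F L g D) K c →
    (∀ (v : HeightOneSpectrum F[X]) (n : ℕ),
      IsLocallyTrivialOver ℓ (curvePoly k F L g D) K (c n) (v.adicCompletion L)) →
    (∀ (γ : Ω ≃+* Ω) hγ, (∀ x ∈ K, γ x = x) →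
      IsFixedByOver ℓ (curvePoly k F L g D) K c γ hγ) →
    IsTrivialOver ℓ (curvePoly k F L g D) K c

end Pool.Agent.Lib.MP_89bcae_ag.Sup

namespace Pool.Agent.Lib.MP_89bcae_ag.Superelliptic

universe u

theorem NoTateClassOver.ofSup {ℓ : ℕ} {k F L Ω : Type u} [Field k] [Field F] [Algebra k F]
    [Field L] [Algebra F[X] L] [IsFractionRing F[X] L] [Field Ω] [Algebra L Ω] {g D : k[X]}
    {K : Subfield Ω} (h : Sup.NoTateClassOver ℓ k F L g D K) :
    NoTateClassOver ℓ k F L g D K := by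
  intro c hc hloc hfix
  exact h c ⟨hc.zero, hc.smul, hc.cocycle, hc.locallyConstant⟩ hloc hfix

end Pool.Agent.Lib.MP_89bcae_ag.Superelliptic

end

section

/-!
# The local condition at a place of good reduction
-/

open Polynomial WeierstrassCurve WeierstrassCurve.Affine

open scoped Classical

namespace Pool.Agent.Lib.MP_89bcae_ag

set_option linter.unusedSectionVars false

section Valuation

variable {K : Type*} [Field K] (w : Valuation K (WithZero (Multiplicative ℤ)))

lemma lg_one : lg w 1 = 0 := by simp [lg]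

lemma lg_eq_zero_of {x : K} (h : w x = 1) : lg w x = 0 := by
  unfold lg; rw [h, WithZero.log_one]

lemma ne_zero_of_val_one {x : K} (h : w x = 1) : x ≠ 0 := by
  rintro rfl
  rw [map_zero] at h
  exact zero_ne_one h

lemma lg_prod {ι : Type*} (s : Finset ι) (f : ι → K) (hf : ∀ i ∈ s, f i ≠ 0) :
    lg w (∏ i ∈ s, f i) = ∑ i ∈ s, lg w (f i) := by
  induction s using Finset.induction_on with
  | empty => simp [lg_one]
  | insert a s ha ih =>
    rw [Finset.prod_insert ha, Finset.sum_insert ha,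
      lg_mul w (hf a (Finset.mem_insert_self a s))
        (Finset.prod_ne_zero_iff.mpr fun i hi => hf i (Finset.mem_insert_of_mem hi)),
      ih fun i hi => hf i (Finset.mem_insert_of_mem hi)]

/-- At a place of good reduction, `x - e` has even valuation. -/
lemma even_lg_of_eq {u a q Y : K} (hu : u ≠ 0) (ha : w a ≤ 1) (hq : w q = 1)
    (h : Y ^ 2 = u * (u ^ 2 + a * u + q)) : Even (lg w u) := by
  have hq0 := ne_zero_of_val_one w hq
  rcases lt_trichotomy (w u) 1 with h1 | h1 | h1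
  · -- `q` dominates
    have h3 : w (u ^ 2 + a * u) < w q := by
      rw [hq]
      apply lt_of_le_of_lt (w.map_add _ _)
      rw [max_lt_iff, map_pow, map_mul]
      refine ⟨pow_lt_one₀ zero_le h1 two_ne_zero, ?_⟩
      exact lt_of_le_of_lt (mul_le_mul_left ha _) (by rwa [one_mul])
    have h4 : w (u ^ 2 + a * u + q) = 1 := by
      rw [w.map_add_eq_of_lt_right h3, hq]
    have h5 := congrArg (lg w) h
    rw [lg_pow, lg_mul w hu (ne_zero_of_val_one w h4), lg_eq_zero_of w h4] at h5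
    exact ⟨lg w Y, by push_cast at h5; linarith⟩
  · rw [lg_eq_zero_of w h1]; exact ⟨0, by simp⟩
  · -- `u ^ 2` dominates
    have h2 : w (a * u + q) < w (u ^ 2) := by
      apply lt_of_le_of_lt (w.map_add _ _)
      rw [max_lt_iff, map_pow, map_mul, hq, pow_two]
      refine ⟨?_, ?_⟩
      · apply lt_of_le_of_lt (mul_le_mul_left ha _)
        rw [one_mul]
        exact lt_mul_of_one_lt_left (lt_trans zero_lt_one h1) h1
      · exact lt_trans h1 (lt_mul_of_one_lt_left (lt_trans zero_lt_one h1) h1)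
    have h4 : w (u ^ 2 + a * u + q) = w (u ^ 2) := by
      rw [add_assoc]; exact w.map_add_eq_of_lt_left h2
    have h6 : u ^ 2 + a * u + q ≠ 0 := by
      intro h0
      rw [h0, map_zero, eq_comm, map_pow, pow_eq_zero_iff two_ne_zero, map_eq_zero] at h4
      exact hu h4
    have h7 : lg w (u ^ 2 + a * u + q) = 2 * lg w u := by
      unfold lg; rw [h4, map_pow, WithZero.log_pow, nsmul_eq_mul]; norm_num
    have h5 := congrArg (lg w) h
    rw [lg_pow, lg_mul w hu h6, h7] at h5
    exact ⟨lg w Y - lg w u, by push_cast at h5; linarith⟩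

end Valuation

section Local

variable {R F L Ω : Type*} [CommRing R] [Field F] [IsAlgClosed F] [Field L] [Field Ω]
  [Algebra F[X] L] [IsFractionRing F[X] L] [Algebra L Ω] [Algebra F[X] Ω] [IsScalarTower F[X] L Ω]
  [Algebra R L] [Algebra R Ω] [IsScalarTower R L Ω] {W : Affine R} {g D : F[X]}
  [IsGalois L Ω] [IsSepClosed Ω] [DecidableEq Ω]
  {Lv M : Type*} [Field Lv] [Field M] [Algebra L Lv] [Algebra Lv M] [Algebra L M]
  [IsScalarTower L Lv M] [Algebra R Lv] [Algebra R M] [IsScalarTower R L Lv]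
  [IsScalarTower R L M] [IsScalarTower R Lv M] [Algebra F[X] Lv] [Algebra F[X] M]
  [IsScalarTower F[X] L Lv] [IsScalarTower F[X] L M] [IsScalarTower F[X] Lv M] [IsGalois Lv M]
  [DecidableEq Lv] [DecidableEq M]

lemma IsTwist.up {A B : Type*} [Field A] [Field B] [Algebra A B] [Algebra R A] [Algebra R B]
    [IsScalarTower R A B] [Algebra F[X] A] [Algebra F[X] B] [IsScalarTower F[X] A B]
    (h : IsTwist A W g D) : IsTwist B W g D where
  a₁ := by rw [IsScalarTower.algebraMap_apply R A B, h.a₁, map_zero]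
  a₂ := by
    rw [IsScalarTower.algebraMap_apply R A B, h.a₂, ← IsScalarTower.algebraMap_apply]
  a₃ := by rw [IsScalarTower.algebraMap_apply R A B, h.a₃, map_zero]
  a₄ := by
    rw [IsScalarTower.algebraMap_apply R A B, h.a₄, ← IsScalarTower.algebraMap_apply]
  a₆ := by
    rw [IsScalarTower.algebraMap_apply R A B, h.a₆, ← IsScalarTower.algebraMap_apply]

/-- An embedding commutes with evaluation. -/
lemma ev_algHom (j : Ω →ₐ[L] M) (θ : Ω) (p : F[X]) : j (ev F Ω θ p) = ev F M (j θ) p := by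
  have h : (j : Ω →+* M).comp (ev F Ω θ) = ev F M (j θ) := by
    apply Polynomial.ringHom_ext
    · intro a
      simp only [RingHom.comp_apply, ev_C]
      rw [IsScalarTower.algebraMap_apply F[X] L Ω, IsScalarTower.algebraMap_apply F[X] L M]
      exact j.commutes _
    · simp [ev_X]
  exact RingHom.congr_fun h p

lemma algHom_algebraMap_poly (j : Ω →ₐ[L] M) (p : F[X]) :
    j (algebraMap F[X] Ω p) = algebraMap F[X] M p := by
  rw [IsScalarTower.algebraMap_apply F[X] L Ω, IsScalarTower.algebraMap_apply F[X] L M]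
  exact j.commutes _

/-- The image of the root set. -/
lemma exists_root_of_mem (hg : g.Monic) (hdeg : g.natDegree = 3) (hd : derivative g ≠ 0)
    (j : Ω →ₐ[L] M) {y : M} (hy : y ∈ RootSet (Ω := M) g) :
    ∃ θ ∈ RootSet (Ω := Ω) g, j θ = y := by
  obtain ⟨θ₁, θ₂, θ₃, -, -, -, hR, -, hP⟩ := exists_three_roots (F := F) L (Ω := Ω) hg hdeg hd
  have h1 := congrArg (fun P : Polynomial Ω => (P.map (j : Ω →+* M)).eval y) hP
  simp only [Polynomial.map_mul, Polynomial.map_sub, Polynomial.map_X, Polynomial.map_C,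
    eval_mul, eval_sub, eval_X, eval_C] at h1
  rw [Polynomial.map_map, show (j : Ω →+* M).comp (algebraMap L Ω) = algebraMap L M from
    j.comp_algebraMap, eval_map_algebraMap, (mem_rootSet_iff (L := L)).mp hy, eq_comm, mul_eq_zero,
    mul_eq_zero] at h1
  rcases h1 with (h1 | h1) | h1
  · exact ⟨θ₁, (hR _).mpr (Or.inl rfl), (sub_eq_zero.mp h1).symm⟩
  · exact ⟨θ₂, (hR _).mpr (Or.inr (Or.inl rfl)), (sub_eq_zero.mp h1).symm⟩
  · exact ⟨θ₃, (hR _).mpr (Or.inr (Or.inr rfl)), (sub_eq_zero.mp h1).symm⟩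

lemma lg_root_prod (w : Valuation Lv (WithZero (Multiplicative ℤ))) {θv : Lv} {β : F}
    (hβ : w (θv - algebraMap F[X] Lv (C β)) = WithZero.exp (-1 : ℤ))
    (hβ' : ∀ β' : F, β' ≠ β → w (θv - algebraMap F[X] Lv (C β')) = 1) (Z : Finset F) :
    (∀ β' : F, θv - algebraMap F[X] Lv (C β') ≠ 0) ∧
    lg w (∏ β' ∈ Z, (θv - algebraMap F[X] Lv (C β'))) = if β ∈ Z then -1 else 0 := by
  have hne : ∀ β' : F, θv - algebraMap F[X] Lv (C β') ≠ 0 := by
    intro β' h0
    by_cases hb : β' = β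
    · subst hb
      rw [h0, map_zero] at hβ
      exact WithZero.exp_ne_zero hβ.symm
    · have := hβ' β' hb
      rw [h0, map_zero] at this
      exact zero_ne_one this
  refine ⟨hne, ?_⟩
  rw [lg_prod w Z _ (fun i _ => hne i)]
  have h1 : ∀ β' ∈ Z, lg w (θv - algebraMap F[X] Lv (C β')) = if β' = β then -1 else 0 := by
    intro β' _
    by_cases hb : β' = β
    · subst hb
      rw [if_pos rfl]
      unfold lg
      rw [hβ, WithZero.log_exp]
    · rw [if_neg hb]
      exact lg_eq_zero_of w (hβ' β' hb)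
  rw [Finset.sum_congr rfl h1, Finset.sum_ite_eq']

/-- The values of `ρ²` at a half of a rational point. -/
lemma rho_sq_of_double (hW : IsTwist M W g D) (h2M : (2 : M) ≠ 0)
    (P : (W.baseChange Lv).Point) (Q : (W.baseChange M).Point)
    (hPQ : 2 • Q = Point.map (W' := W) (Algebra.ofId Lv M) P) :
    (∀ e : M, rho e Q ^ 2 = 1) ∨ ∃ (X₀ Y₀ : Lv) (h : (W.baseChange Lv).Nonsingular X₀ Y₀),
      P = .some X₀ Y₀ h ∧ ∀ e : M, Rt (W.baseChange M) e →
        rho e Q ^ 2 = algebraMap Lv M X₀ - e := by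
  by_cases h0 : 2 • Q = 0
  · left
    intro e
    rw [pow_two]
    exact rho_two_torsion_mul_self hW.short h2M e h0
  · right
    rcases Q with _ | ⟨x, y, hxy⟩
    · exact absurd (by rw [← Point.zero_def, smul_zero]) h0
    have hy : y ≠ 0 := by
      intro hy0
      apply h0
      rw [two_nsmul]
      exact (add_self_eq_zero_iff hW.short h2M hxy).mpr hy0
    rcases P with _ | ⟨X₀, Y₀, h₀⟩
    · exfalso
      apply h0
      rw [hPQ]; rfl
    · refine ⟨X₀, Y₀, h₀, rfl, fun e he => ?_⟩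
      rw [rho_sq hW.short h2M he hxy hy]
      have hne : y ≠ (W.baseChange M).negY x y := by
        rw [hW.short.negY]
        intro h1
        have : 2 * y = 0 := by linear_combination h1
        rcases mul_eq_zero.mp this with h3 | h3
        · exact h2M h3
        · exact hy h3
      rw [two_nsmul, Point.add_self_of_Y_ne hne, Point.map_some] at hPQ
      simp only [Point.some.injEq] at hPQ
      rw [hPQ.1]
      rfl

/-- Equivariance of `θ ↦ j(b(θ)) ρ_{Dθ}(Q)`. -/
lemma IsDesc.equivariant {c : (Ω ≃ₐ[L] Ω) → (W.baseChange Ω).Point} {Z : Finset F}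
    {b : Ω → Ω} (h : IsDesc W g D c Z b) (h2M : (2 : M) ≠ 0)
    (hWM : IsTwist M W g D) (hg : g.Monic) (hdeg : g.natDegree = 3)
    (hc : ∀ σ, 2 • c σ = 0) (j : Ω →ₐ[L] M) (Q : (W.baseChange M).Point)
    (σ : M ≃ₐ[Lv] M) (σ' : Ω ≃ₐ[L] Ω) (hσ : ∀ x, j (σ' x) = σ (j x))
    (hcQ : Point.map (W' := W) j (c σ') = Point.map (W' := W) (σ : M →ₐ[Lv] M) Q - Q)
    {θ : Ω} (hθ : θ ∈ RootSet (Ω := Ω) g) :
    σ (j (b θ) * rho (algebraMap F[X] M D * j θ) Q) =
      j (b (σ' θ)) * rho (algebraMap F[X] M D * j (σ' θ)) Q := by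
  have hσQ : Point.map (W' := W) (σ : M →ₐ[Lv] M) Q = Q + Point.map (W' := W) j (c σ') := by
    rw [hcQ]; abel
  have hjc : 2 • Point.map (W' := W) j (c σ') = 0 := by rw [← map_nsmul, hc, map_zero]
  have hσθ := map_mem_rootSet σ' hθ
  have hjσθ : j (σ' θ) ∈ RootSet (Ω := M) g := by
    change ev F M (j (σ' θ)) g = _
    rw [← ev_algHom (L := L), show ev F Ω (σ' θ) g = _ from hσθ, algHom_algebraMap_poly (L := L)]
  have hσd : σ (algebraMap F[X] M D) = algebraMap F[X] M D := by
    rw [IsScalarTower.algebraMap_apply F[X] Lv M]; exact σ.commutes _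
  have e1 : σ (rho (algebraMap F[X] M D * j θ) Q) =
      rho (algebraMap F[X] M D * j (σ' θ)) Q *
        rho (algebraMap F[X] M D * j (σ' θ)) (Point.map (W' := W) j (c σ')) := by
    rw [← rho_add hWM.short h2M (hWM.rt hg hdeg hjσθ) _ _ hjc, ← hσQ, hσ]
    have : algebraMap F[X] M D * σ (j θ) = (σ : M →ₐ[Lv] M) (algebraMap F[X] M D * j θ) := by
      change _ = σ (algebraMap F[X] M D * j θ)
      rw [map_mul, hσd]
    rw [this, rho_map]
    rfl
  have e2 : σ (j (b θ)) = rho (algebraMap F[X] M D * j (σ' θ)) (Point.map (W' := W) j (c σ')) *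
      j (b (σ' θ)) := by
    rw [← hσ, h.act θ hθ, map_mul]
    congr 1
    rw [← algHom_algebraMap_poly (L := L) j D, ← map_mul, rho_map]
  rw [map_mul, e1, e2]
  linear_combination (j (b (σ' θ)) * rho (algebraMap F[X] M D * j (σ' θ)) Q) *
    rho_two_torsion_mul_self hWM.short h2M (algebraMap F[X] M D * j (σ' θ)) hjc

/-- The local condition at a place of good reduction at which `β` is a simple root of
`g(x) = g(β)`: the point `β` does not belong to `Z`. -/
lemma IsDesc.notMem_of_local {c : (Ω ≃ₐ[L] Ω) → (W.baseChange Ω).Point} {Z : Finset F}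
    {b : Ω → Ω} (h : IsDesc W g D c Z b) (h2 : (2 : Lv) ≠ 0)
    (hW : IsTwist L W g D) (hg : g.Monic) (hdeg : g.natDegree = 3) (hd : derivative g ≠ 0)
    (hD : D ≠ 0) (hc : ∀ σ, 2 • c σ = 0) (j : Ω →ₐ[L] M)
    (w : Valuation Lv (WithZero (Multiplicative ℤ))) {θv : Lv} (hθv : θv ∈ RootSet (Ω := Lv) g)
    {β : F} (hβ : w (θv - algebraMap F[X] Lv (C β)) = WithZero.exp (-1 : ℤ))
    (hβ' : ∀ β' : F, β' ≠ β → w (θv - algebraMap F[X] Lv (C β')) = 1)
    (hwD : w (algebraMap F[X] Lv D) = 1) (hint : ∀ p : F[X], w (algebraMap F[X] Lv p) ≤ 1)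
    (hwg : w (ev F Lv θv (derivative g)) = 1)
    (hwt : w (algebraMap F[X] Lv (X - C (g.eval β))) = WithZero.exp (-1 : ℤ))
    (hwt' : ∀ α : F, α ≠ g.eval β → w (algebraMap F[X] Lv (X - C α)) = 1)
    (P : (W.baseChange Lv).Point) (Q : (W.baseChange M).Point)
    (hPQ : 2 • Q = Point.map (W' := W) (Algebra.ofId Lv M) P)
    (hcQ : ∀ (σ : M ≃ₐ[Lv] M) (σ' : Ω ≃ₐ[L] Ω), (∀ x, j (σ' x) = σ (j x)) →
      Point.map (W' := W) j (c σ') = Point.map (W' := W) (σ : M →ₐ[Lv] M) Q - Q) : β ∉ Z := by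
  have hWΩ : IsTwist Ω W g D := hW.up
  have hWv : IsTwist Lv W g D := hW.up
  have hWM : IsTwist M W g D := hW.up
  have inj : Function.Injective (algebraMap Lv M) := (algebraMap Lv M).injective
  have h2M : (2 : M) ≠ 0 := by
    intro h0; apply h2; apply inj; rw [map_ofNat, h0, map_zero]
  have h2Ω : (2 : Ω) ≠ 0 := by
    intro h0; apply h2M
    have := congrArg j h0
    rwa [map_ofNat, map_zero] at this
  obtain ⟨hne, hlg⟩ := lg_root_prod w hβ hβ' Z
  -- it suffices that the valuation of the product is even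
  suffices hev : Even (lg w (∏ β' ∈ Z, (θv - algebraMap F[X] Lv (C β')))) by
    intro hZ
    rw [hlg, if_pos hZ] at hev
    exact absurd hev (by decide)
  have hθM : algebraMap Lv M θv ∈ RootSet (Ω := M) g := by
    have h0 : ev F Lv θv g = algebraMap F[X] Lv X := hθv
    have h1 : (algebraMap Lv M) (ev F Lv θv g) = ev F M (algebraMap Lv M θv) g := by
      have h : (algebraMap Lv M).comp (ev F Lv θv) = ev F M (algebraMap Lv M θv) := by
        apply Polynomial.ringHom_ext
        · intro a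
          simp only [RingHom.comp_apply, ev_C]
          rw [← IsScalarTower.algebraMap_apply]
        · simp [ev_X]
      exact RingHom.congr_fun h g
    change ev F M (algebraMap Lv M θv) g = _
    rw [← h1, h0, ← IsScalarTower.algebraMap_apply]
  obtain ⟨θ, hθ, hjθ⟩ := exists_root_of_mem (F := F) (L := L) hg hdeg hd j hθM
  have hd0 : algebraMap F[X] Ω D ≠ 0 := algebraMap_ne_zero_Om L hD
  have hd0M : algebraMap F[X] M D ≠ 0 := by
    rw [← algHom_algebraMap_poly (L := L) j D]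
    exact (map_ne_zero j).mpr hd0
  set z : Ω → M := fun θ' => j (b θ') * rho (algebraMap F[X] M D * j θ') Q with hz
  have hzσ : ∀ (σ : M ≃ₐ[Lv] M) (σ' : Ω ≃ₐ[L] Ω), (∀ x, j (σ' x) = σ (j x)) →
      ∀ θ' ∈ RootSet (Ω := Ω) g, σ (z θ') = z (σ' θ') :=
    fun σ σ' hσ θ' hθ' => h.equivariant h2M hWM hg hdeg hc j Q σ σ' hσ (hcQ σ σ' hσ) hθ'
  have hres : ∀ σ : M ≃ₐ[Lv] M, ∃ σ' : Ω ≃ₐ[L] Ω, (∀ x, j (σ' x) = σ (j x)) ∧ σ' θ = θ := by
    intro σ
    obtain ⟨σ', hσ'⟩ := exists_restrict (F := L) j (σ.restrictScalars L)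
    refine ⟨σ', hσ', j.injective ?_⟩
    change j (σ' θ) = j θ
    rw [hσ', hjθ]
    exact σ.commutes _
  -- the element `z θ`
  obtain ⟨y, hy⟩ := exists_of_fixed (F := Lv) (x := z θ) (by
    intro σ
    obtain ⟨σ', h1, h3⟩ := hres σ
    rw [hzσ σ σ' h1 θ hθ, h3])
  have hjb : ∀ θ' ∈ RootSet (Ω := Ω) g, j (b θ') ^ 2 =
      ∏ β' ∈ Z, (j θ' - algebraMap F[X] M (C β')) := by
    intro θ' hθ'
    rw [← map_pow, h.sq θ' hθ', map_prod]
    apply Finset.prod_congr rfl
    intro β' _
    rw [map_sub, algHom_algebraMap_poly]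
  have hprodM : algebraMap Lv M (∏ β' ∈ Z, (θv - algebraMap F[X] Lv (C β'))) = j (b θ) ^ 2 := by
    rw [hjb θ hθ, map_prod]
    apply Finset.prod_congr rfl
    intro β' _
    rw [map_sub, hjθ, ← IsScalarTower.algebraMap_apply]
  have hprod0 : (∏ β' ∈ Z, (θv - algebraMap F[X] Lv (C β'))) ≠ 0 :=
    Finset.prod_ne_zero_iff.mpr fun β' _ => hne β'
  rcases rho_sq_of_double hWM h2M P Q hPQ with hρ | ⟨X₀, Y₀, h₀, rfl, hρ⟩
  · -- the class is locally the class of a two-torsion point
    have h5 : y ^ 2 = ∏ β' ∈ Z, (θv - algebraMap F[X] Lv (C β')) := by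
      apply inj
      rw [hprodM, map_pow, hy, hz]
      simp only
      rw [mul_pow, hρ, mul_one]
    rw [← h5, lg_pow]
    exact ⟨lg w y, by push_cast; ring⟩
  · have hrtv : Rt (W.baseChange Lv) (algebraMap F[X] Lv D * θv) := hWv.rt hg hdeg hθv
    have hem : algebraMap F[X] M D * j θ = algebraMap Lv M (algebraMap F[X] Lv D * θv) := by
      rw [map_mul, hjθ, ← IsScalarTower.algebraMap_apply]
    have hjmem : ∀ θ' ∈ RootSet (Ω := Ω) g, j θ' ∈ RootSet (Ω := M) g := by
      intro θ' hθ'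
      change ev F M (j θ') g = _
      rw [← ev_algHom (L := L), show ev F Ω θ' g = _ from hθ', algHom_algebraMap_poly (L := L)]
    by_cases hX : X₀ = algebraMap F[X] Lv D * θv
    · -- the special case
      obtain ⟨θ₂, θ₃, n2, n3, n23, hR, heval, hder⟩ :=
        exists_other_roots (F := F) L (Ω := Ω) hg hdeg hd hθ
      have hm2 : θ₂ ∈ RootSet (Ω := Ω) g := (hR _).mpr (Or.inr (Or.inl rfl))
      have hm3 : θ₃ ∈ RootSet (Ω := Ω) g := (hR _).mpr (Or.inr (Or.inr rfl))
      obtain ⟨y', hy'⟩ := exists_of_fixed (F := Lv) (x := z θ₂ * z θ₃) (by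
        intro σ
        obtain ⟨σ', h1, h3⟩ := hres σ
        rw [map_mul, hzσ σ σ' h1 θ₂ hm2, hzσ σ σ' h1 θ₃ hm3]
        have k2 := (hR _).mp (map_mem_rootSet σ' hm2)
        have k3 := (hR _).mp (map_mem_rootSet σ' hm3)
        have q2 : σ' θ₂ ≠ θ := fun h0 => n2 (σ'.injective (h3.trans h0.symm))
        have q3 : σ' θ₃ ≠ θ := fun h0 => n3 (σ'.injective (h3.trans h0.symm))
        have q23 : σ' θ₂ ≠ σ' θ₃ := fun h0 => n23 (σ'.injective h0)
        rcases k2 with k2 | k2 | k2
        · exact absurd k2 q2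
        · rcases k3 with k3 | k3 | k3
          · exact absurd k3 q3
          · exact absurd (k2.trans k3.symm) q23
          · rw [k2, k3]
        · rcases k3 with k3 | k3 | k3
          · exact absurd k3 q3
          · rw [k2, k3, mul_comm]
          · exact absurd (k2.trans k3.symm) q23)
      -- the key identity
      have hprodT : ∏ β' ∈ Z, algebraMap F[X] Lv (X - C (g.eval β')) ≠ 0 := by
        rw [Finset.prod_ne_zero_iff]
        intro β' _ h0
        by_cases hb : g.eval β' = g.eval β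
        · rw [hb] at h0
          rw [h0, map_zero] at hwt
          exact WithZero.exp_ne_zero hwt.symm
        · have := hwt' _ hb
          rw [h0, map_zero] at this
          exact zero_ne_one this
      have key : y' ^ 2 * ∏ β' ∈ Z, (θv - algebraMap F[X] Lv (C β')) =
          (∏ β' ∈ Z, algebraMap F[X] Lv (X - C (g.eval β'))) *
            ((algebraMap F[X] Lv D) ^ 2 * ev F Lv θv (derivative g)) := by
        apply inj
        rw [map_mul, map_mul, map_pow, hy', hz]
        simp only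
        rw [mul_pow, mul_pow, mul_pow, hjb θ₂ hm2, hjb θ₃ hm3,
          hρ _ (hWM.rt hg hdeg (hjmem θ₂ hm2)), hρ _ (hWM.rt hg hdeg (hjmem θ₃ hm3)), hprodM,
          hjb θ hθ, map_prod]
        have e1 : ∀ β' ∈ Z, algebraMap Lv M (algebraMap F[X] Lv (X - C (g.eval β'))) =
            (j θ - algebraMap F[X] M (C β')) * (j θ₂ - algebraMap F[X] M (C β')) *
              (j θ₃ - algebraMap F[X] M (C β')) := by
          intro β' _
          have h3 := heval (algebraMap F[X] Ω (C β'))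
          rw [ev_const] at h3
          have h4 := congrArg j h3
          simp only [map_sub, map_mul, algHom_algebraMap_poly] at h4
          rw [← IsScalarTower.algebraMap_apply, map_sub]
          linear_combination -h4
        rw [Finset.prod_congr rfl e1, Finset.prod_mul_distrib, Finset.prod_mul_distrib]
        have e2 : algebraMap Lv M (algebraMap F[X] Lv D ^ 2 * ev F Lv θv (derivative g)) =
            (algebraMap F[X] M D * j θ - algebraMap F[X] M D * j θ₂) *
            (algebraMap F[X] M D * j θ - algebraMap F[X] M D * j θ₃) := by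
          have h3 : algebraMap Lv M (ev F Lv θv (derivative g)) = j (ev F Ω θ (derivative g)) := by
            rw [ev_derivative_cubic hg hdeg, ev_derivative_cubic hg hdeg]
            simp only [map_add, map_mul, map_pow, map_ofNat, hjθ, algHom_algebraMap_poly,
              ← IsScalarTower.algebraMap_apply]
          rw [map_mul, map_pow, ← IsScalarTower.algebraMap_apply, h3, hder, map_mul, map_sub,
            map_sub]
          ring
        rw [e2, hX, ← hem]
        ring
      have h6 := congrArg (lg w) key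
      have hy'0 : y' ≠ 0 := by
        intro h0
        rw [h0, zero_pow two_ne_zero, zero_mul, eq_comm, mul_eq_zero, mul_eq_zero] at key
        rcases key with k | k | k
        · exact hprodT k
        · rw [pow_eq_zero_iff two_ne_zero] at k
          exact ne_zero_of_val_one w hwD k
        · exact ne_zero_of_val_one w hwg k
      have hwd2 : w ((algebraMap F[X] Lv D) ^ 2 * ev F Lv θv (derivative g)) = 1 := by
        rw [map_mul, map_pow, hwD, hwg]; simp
      have hlp := lg_prod w Z (fun β' => algebraMap F[X] Lv (X - C (g.eval β'))) (fun β' hb => by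
          intro h0
          exact hprodT (Finset.prod_eq_zero hb h0))
      rw [lg_mul w (pow_ne_zero 2 hy'0) hprod0, lg_mul w hprodT (ne_zero_of_val_one w hwd2),
        lg_eq_zero_of w hwd2, lg_pow, hlp] at h6
      have h7 : ∀ β' ∈ Z, lg w (algebraMap F[X] Lv (X - C (g.eval β'))) =
          if g.eval β' = g.eval β then -1 else 0 := by
        intro β' _
        by_cases hb : g.eval β' = g.eval β
        · rw [if_pos hb, hb]
          unfold lg
          rw [hwt, WithZero.log_exp]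
        · rw [if_neg hb]
          exact lg_eq_zero_of w (hwt' _ hb)
      obtain ⟨r, hr⟩ := h.even h2Ω hWΩ hg hdeg hd hD hc (g.eval β)
      rw [Finset.sum_congr rfl h7, ← Finset.sum_filter, Finset.sum_const, hr, nsmul_eq_mul] at h6
      exact ⟨-r - lg w y', by push_cast at h6; linarith⟩
    · have hu : X₀ - algebraMap F[X] Lv D * θv ≠ 0 := sub_ne_zero.mpr hX
      have h5 : y ^ 2 = (∏ β' ∈ Z, (θv - algebraMap F[X] Lv (C β'))) *
          (X₀ - algebraMap F[X] Lv D * θv) := by
        apply inj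
        rw [map_mul, hprodM, map_pow, hy, hz]
        simp only
        rw [mul_pow, hρ _ (hWM.rt hg hdeg (hjmem θ hθ)), hem, map_sub]
      have h6 := congrArg (lg w) h5
      rw [lg_pow, lg_mul w hprod0 hu] at h6
      have h7 : Even (lg w (X₀ - algebraMap F[X] Lv D * θv)) := by
        have heq := hWv.short.equation h₀.1
        have hθint : w θv ≤ 1 := by
          have : θv = (θv - algebraMap F[X] Lv (C β)) + algebraMap F[X] Lv (C β) := by ring
          rw [this]
          apply le_trans (w.map_add _ _)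
          rw [max_le_iff]
          refine ⟨?_, hint _⟩
          rw [hβ, ← WithZero.exp_zero]
          exact WithZero.exp_le_exp.mpr (by norm_num)
        set d := algebraMap F[X] Lv D with hdd
        set e := d * θv with he
        have ea2 : (W.baseChange Lv).a₂ = algebraMap F[X] Lv (C (g.coeff 2)) * d := by
          rw [hdd, ← map_mul]; exact hWv.a₂
        have ea4 : (W.baseChange Lv).a₄ = algebraMap F[X] Lv (C (g.coeff 1)) * d ^ 2 := by
          rw [hdd, ← map_pow, ← map_mul]; exact hWv.a₄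
        have ha : w (algebraMap F[X] Lv (3 * D) * θv + algebraMap F[X] Lv (C (g.coeff 2) * D)) ≤
            1 := by
          apply le_trans (w.map_add _ _)
          rw [max_le_iff, map_mul]
          exact ⟨mul_le_one' (hint _) hθint, hint _⟩
        have hq : w (d ^ 2 * ev F Lv θv (derivative g)) = 1 := by
          rw [map_mul, map_pow, hwD, hwg]; simp
        apply even_lg_of_eq w hu ha hq (Y := Y₀)
        rw [heq, ev_derivative_cubic hg hdeg, ea2, ea4]
        rw [Rt, ea2, ea4] at hrtv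
        simp only [map_mul, map_ofNat, ← hdd]
        linear_combination hrtv
      obtain ⟨r, hr⟩ := h7
      exact ⟨lg w y - r, by push_cast at h6; linarith⟩

end Local

end Pool.Agent.Lib.MP_89bcae_ag

end

section

/-!
# Quadratic characters of a discretely valued field all of whose units are squares
-/

open Polynomial WeierstrassCurve WeierstrassCurve.Affine

namespace Pool.Agent.Lib.MP_89bcae_ag

set_option linter.unusedSectionVars false

section Comp

variable {L Ω K M : Type*} [Field L] [Field Ω] [Algebra L Ω] [Field K] [Field M] [Algebra K M]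
  [Algebra.IsAlgebraic K M]

/-- A locally constant function on a Galois group stays locally constant after composition with a
map induced by an embedding. -/
lemma isLocallyConstant_comp8 {Y : Type*} (ι : Ω →+* M) (ψ : (M ≃ₐ[K] M) → (Ω ≃ₐ[L] Ω))
    (hψ : ∀ σ x, ι (ψ σ x) = σ (ι x)) {f : (Ω ≃ₐ[L] Ω) → Y} (hf : IsLocallyConstant f) :
    IsLocallyConstant (fun σ => f (ψ σ)) := by
  classical
  rw [IsLocallyConstant.iff_exists_open]
  intro σ₁
  have h1 : (fun h => ψ σ₁ * h) ⁻¹' (f ⁻¹' {f (ψ σ₁)}) ∈ nhds (1 : Ω ≃ₐ[L] Ω) := by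
    apply (continuous_const_mul (ψ σ₁)).continuousAt.preimage_mem_nhds
    rw [mul_one]
    exact (hf.isOpen_fiber _).mem_nhds rfl
  obtain ⟨E, hE, hEs⟩ := (krullTopology_mem_nhds_one_iff L Ω _).mp h1
  obtain ⟨S, hS⟩ : E.FG := IntermediateField.essFiniteType_iff.mp inferInstance
  refine ⟨⋂ x ∈ S, {σ : M ≃ₐ[K] M | σ (ι x) = σ₁ (ι x)}, ?_, ?_, ?_⟩
  · apply isOpen_biInter_finset
    intro x _
    exact (isLocallyConstant_apply8 (F := K) (ι x)).isOpen_fiber (σ₁ (ι x))
  · simp
  · intro σ hσ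
    have h2 : (ψ σ₁)⁻¹ * ψ σ ∈ E.fixingSubgroup := by
      rw [← hS, IntermediateField.mem_fixingSubgroup_iff]
      intro y hy
      have h3 : (ψ σ₁)⁻¹ * ψ σ ∈ (IntermediateField.adjoin L (S : Set Ω)).fixingSubgroup := by
        rw [← Subgroup.zpowers_le, ← IntermediateField.le_iff_le, IntermediateField.adjoin_le_iff]
        intro x hx
        rw [SetLike.mem_coe, IntermediateField.mem_fixedField_iff]
        intro τ hτ
        have h4 : ((ψ σ₁)⁻¹ * ψ σ) x = x := by
          apply (ψ σ₁).injective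
          rw [← AlgEquiv.mul_apply, mul_inv_cancel_left]
          apply ι.injective
          rw [hψ, hψ]
          have := Set.mem_iInter₂.mp hσ x hx
          exact this
        obtain ⟨n, rfl⟩ := Subgroup.mem_zpowers_iff.mp hτ
        have h5 : (ψ σ₁)⁻¹ * ψ σ ∈ MulAction.stabilizer (Ω ≃ₐ[L] Ω) x := h4
        exact (MulAction.stabilizer (Ω ≃ₐ[L] Ω) x).zpow_mem h5 n
      exact (IntermediateField.mem_fixingSubgroup_iff _ _).mp h3 y hy
    have h3 := hEs h2
    have h4 : f (ψ σ₁ * ((ψ σ₁)⁻¹ * ψ σ)) = f (ψ σ₁) := h3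
    rwa [mul_inv_cancel_left] at h4

end Comp

section Units

variable {K Ω : Type*} [Field K] [Field Ω] [Algebra K Ω]
  (w : Valuation K (WithZero (Multiplicative ℤ)))

lemma lg_zpow {x : K} (hx : x ≠ 0) (n : ℤ) : lg w (x ^ n) = n * lg w x := by
  rcases n with n | n
  · rw [Int.ofNat_eq_natCast, zpow_natCast, lg_pow]
  · rw [zpow_negSucc]
    have h1 : lg w ((x ^ (n + 1))⁻¹) = -lg w (x ^ (n + 1)) := by
      have h2 := lg_mul w (inv_ne_zero (pow_ne_zero (n + 1) hx)) (pow_ne_zero (n + 1) hx)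
      rw [inv_mul_cancel₀ (pow_ne_zero _ hx), lg_one] at h2
      linarith
    rw [h1, lg_pow, Int.negSucc_eq]
    push_cast
    ring

lemma val_one_of_lg {x : K} (hx : x ≠ 0) (h : lg w x = 0) : w x = 1 := by
  unfold lg at h
  have := WithZero.exp_log (show w x ≠ 0 from (map_ne_zero w).mpr hx)
  rw [h, WithZero.exp_zero] at this
  exact this.symm

/-- If the valuation of `x` is even, then `x` is a square. -/
lemma exists_sqrt_of_even {π : K} (hπ : w π = WithZero.exp (-1 : ℤ))
    (hsq : ∀ x : K, w x = 1 → ∃ r, r ^ 2 = x) {x : K} (hx : x ≠ 0) (h : Even (lg w x)) :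
    ∃ r, r ^ 2 = x := by
  obtain ⟨n, hn⟩ := h
  have hπ0 : π ≠ 0 := by
    rintro rfl
    rw [map_zero] at hπ
    exact WithZero.exp_ne_zero hπ.symm
  have hlπ : lg w π = -1 := by
    unfold lg
    rw [hπ, WithZero.log_exp]
  have h1 : w (x * (π ^ n) ^ 2) = 1 := by
    apply val_one_of_lg w (mul_ne_zero hx (pow_ne_zero 2 (zpow_ne_zero n hπ0)))
    rw [lg_mul w hx (pow_ne_zero 2 (zpow_ne_zero n hπ0)), lg_pow, lg_zpow w hπ0, hlπ, hn]
    push_cast
    ring
  obtain ⟨r, hr⟩ := hsq _ h1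
  refine ⟨r / π ^ n, ?_⟩
  rw [div_pow, hr]
  field_simp [zpow_ne_zero n hπ0]

/-- Square roots of elements of even valuation are rational. -/
lemma exists_rational_sqrt {π : K} (hπ : w π = WithZero.exp (-1 : ℤ))
    (hsq : ∀ x : K, w x = 1 → ∃ r, r ^ 2 = x) {x : K} (hx : x ≠ 0) (h : Even (lg w x)) {d : Ω}
    (hd : d ^ 2 = algebraMap K Ω x) : ∃ r, algebraMap K Ω r = d := by
  obtain ⟨r, hr⟩ := exists_sqrt_of_even w hπ hsq hx h
  have h1 : (d - algebraMap K Ω r) * (d + algebraMap K Ω r) = 0 := by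
    rw [← hr, map_pow] at hd
    linear_combination hd
  rcases mul_eq_zero.mp h1 with h2 | h2
  · exact ⟨r, (sub_eq_zero.mp h2).symm⟩
  · exact ⟨-r, by rw [map_neg]; linear_combination -h2⟩

variable {w} in
/-- The Galois action on a square root of an element of odd valuation. -/
lemma sqrt_odd {π : K} (hπ : w π = WithZero.exp (-1 : ℤ))
    (hsq : ∀ x : K, w x = 1 → ∃ r, r ^ 2 = x) {S : Ω} (hS : S ^ 2 = algebraMap K Ω π) {x : K}
    (hx : x ≠ 0) (h : Odd (lg w x)) {d : Ω} (hd : d ^ 2 = algebraMap K Ω x) (σ : Ω ≃ₐ[K] Ω) :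
    σ d * S = d * σ S := by
  have hπ0 : π ≠ 0 := by
    rintro rfl
    rw [map_zero] at hπ
    exact WithZero.exp_ne_zero hπ.symm
  have hlπ : lg w π = -1 := by
    unfold lg
    rw [hπ, WithZero.log_exp]
  have hS0 : S ≠ 0 := by
    rintro rfl
    rw [zero_pow two_ne_zero, eq_comm, map_eq_zero] at hS
    exact hπ0 hS
  obtain ⟨r, hr⟩ := exists_rational_sqrt w hπ hsq (x := x * π) (mul_ne_zero hx hπ0) (by
    rw [lg_mul w hx hπ0, hlπ]
    exact h.add_odd (by decide)) (d := d * S) (by rw [mul_pow, hd, hS, map_mul])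
  have h1 : σ d * σ S = d * S := by
    rw [← map_mul, ← hr, σ.commutes]
  have h2 : σ S ^ 2 = S ^ 2 := by rw [← map_pow, hS, σ.commutes]
  have hσS : σ S ≠ 0 := (map_ne_zero σ).mpr hS0
  apply mul_right_cancel₀ hσS
  linear_combination S * h1 - d * h2

/-- A square root of a uniformizer is moved by some element of the Galois group. -/
lemma exists_moves [IsGalois K Ω] {π : K} (hπ : w π = WithZero.exp (-1 : ℤ)) {S : Ω}
    (hS : S ^ 2 = algebraMap K Ω π) : ∃ σ : Ω ≃ₐ[K] Ω, σ S = -S := by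
  by_contra hcon
  push Not at hcon
  have h1 : ∀ σ : Ω ≃ₐ[K] Ω, σ S = S := by
    intro σ
    have h2 : (σ S - S) * (σ S + S) = 0 := by
      have : σ S ^ 2 = S ^ 2 := by rw [← map_pow, hS, σ.commutes]
      linear_combination this
    rcases mul_eq_zero.mp h2 with h | h
    · exact sub_eq_zero.mp h
    · exact absurd (by linear_combination h) (hcon σ)
  obtain ⟨y, hy⟩ := exists_of_fixed (F := K) (x := S) h1
  have h3 : y ^ 2 = π := by
    apply (algebraMap K Ω).injective
    rw [map_pow, hy, hS]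
  have h4 := lg_pow w (x := y) 2
  rw [h3] at h4
  have hlπ : lg w π = -1 := by
    unfold lg
    rw [hπ, WithZero.log_exp]
  rw [hlπ] at h4
  push_cast at h4
  omega

lemma smul_sign [IsGalois K Ω] {π : K} {S : Ω}
    (hS : S ^ 2 = algebraMap K Ω π) (σ : Ω ≃ₐ[K] Ω) : σ S = S ∨ σ S = -S := by
  have h2 : (σ S - S) * (σ S + S) = 0 := by
    have : σ S ^ 2 = S ^ 2 := by rw [← map_pow, hS, σ.commutes]
    linear_combination this
  rcases mul_eq_zero.mp h2 with h | h
  · exact Or.inl (sub_eq_zero.mp h)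
  · exact Or.inr (by linear_combination h)

/-- A sign character which is trivial at an element moving the square root of a uniformizer is
trivial. -/
lemma char_trivial [IsGalois K Ω] (h2 : (2 : Ω) ≠ 0) {π : K} (hπ : w π = WithZero.exp (-1 : ℤ))
    (hsq : ∀ x : K, w x = 1 → ∃ r, r ^ 2 = x) {S : Ω} (hS : S ^ 2 = algebraMap K Ω π)
    {σ₀ : Ω ≃ₐ[K] Ω} (hσ₀ : σ₀ S = -S) (χ : (Ω ≃ₐ[K] Ω) → Ω)
    (hsign : ∀ σ, χ σ = 1 ∨ χ σ = -1) (hmul : ∀ σ τ, χ (σ * τ) = χ σ * χ τ)
    (hloc : IsLocallyConstant χ) (h0 : χ σ₀ = 1) (σ : Ω ≃ₐ[K] Ω) : χ σ = 1 := by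
  obtain ⟨b, hb0, hb⟩ := exists_kummer_gen (0 : Ω) χ (fun σ _ => hsign σ)
    (fun σ τ _ _ => hmul σ τ) hloc
  have hb' : ∀ σ : Ω ≃ₐ[K] Ω, σ b = χ σ * b := fun σ => hb σ (map_zero σ)
  obtain ⟨x, hx⟩ := exists_of_fixed (F := K) (x := b ^ 2) (by
    intro σ
    rw [map_pow, hb']
    rcases hsign σ with h | h <;> rw [h] <;> ring)
  have hx0 : x ≠ 0 := by
    rintro rfl
    rw [map_zero] at hx
    exact hb0 (pow_eq_zero_iff two_ne_zero |>.mp hx.symm)
  have hπ0 : π ≠ 0 := by
    rintro rfl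
    rw [map_zero] at hπ
    exact WithZero.exp_ne_zero hπ.symm
  have hS0 : S ≠ 0 := by
    rintro rfl
    rw [zero_pow two_ne_zero, eq_comm, map_eq_zero] at hS
    exact hπ0 hS
  rcases Int.even_or_odd (lg w x) with he | ho
  · obtain ⟨r, hr⟩ := exists_rational_sqrt w hπ hsq hx0 he (d := b) hx.symm
    have h1 := hb' σ
    rw [← hr, σ.commutes] at h1
    have h3 : algebraMap K Ω r ≠ 0 := by rw [hr]; exact hb0
    exact (mul_right_cancel₀ h3 (by rw [one_mul]; exact h1)).symm
  · exfalso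
    have h1 := sqrt_odd hπ hsq hS hx0 ho (d := b) hx.symm σ₀
    rw [hb', h0, one_mul, hσ₀] at h1
    have h3 : 2 * (b * S) = 0 := by linear_combination h1
    rcases mul_eq_zero.mp h3 with h | h
    · exact h2 h
    · exact mul_ne_zero hb0 hS0 h

end Units

end Pool.Agent.Lib.MP_89bcae_ag

end

section

/-!
# The local Galois action on points of order four at a place where `D` vanishes
-/

open Polynomial WeierstrassCurve WeierstrassCurve.Affine

open scoped Classical

namespace Pool.Agent.Lib.MP_89bcae_ag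

set_option linter.unusedSectionVars false

section RhoDouble

variable {K : Type*} [Field K] {W : WeierstrassCurve.Affine K}

/-- `ρ_e(Q)² = x(2Q) - e`. -/
lemma rho_sq_double (hW : Short W) (h2 : (2 : K) ≠ 0) {e : K} (he : Rt W e) {Q : W.Point}
    {X Y : K} {h : W.Nonsingular X Y} (hQ : 2 • Q = .some X Y h) : rho e Q ^ 2 = X - e := by
  rcases Q with _ | ⟨x, y, hxy⟩
  · exfalso
    rw [← Affine.Point.zero_def, smul_zero] at hQ
    exact Affine.Point.some_ne_zero _ hQ.symm
  have hy : y ≠ 0 := by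
    intro hy0
    rw [two_nsmul, (add_self_eq_zero_iff hW h2 hxy).mpr hy0] at hQ
    exact Affine.Point.some_ne_zero _ hQ.symm
  rw [rho_sq hW h2 he hxy hy]
  have hne : y ≠ W.negY x y := by
    rw [hW.negY]
    intro h1
    have : 2 * y = 0 := by linear_combination h1
    rcases mul_eq_zero.mp this with h3 | h3
    · exact h2 h3
    · exact hy h3
  rw [two_nsmul, Affine.Point.add_self_of_Y_ne hne] at hQ
  simp only [Affine.Point.some.injEq] at hQ
  rw [hQ.1]

end RhoDouble

section Local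

variable {R F L Ω : Type*} [CommRing R] [Field F] [IsAlgClosed F] [Field L] [Field Ω]
  [Algebra F[X] L] [IsFractionRing F[X] L] [Algebra L Ω] [Algebra F[X] Ω] [IsScalarTower F[X] L Ω]
  [Algebra R L] [Algebra R Ω] [IsScalarTower R L Ω] {W : Affine R} {g D : F[X]}
  [IsGalois L Ω] [IsSepClosed Ω]
  {K : Type*} [Field K] [Algebra L K] [Algebra K Ω] [IsScalarTower L K Ω] [Algebra F[X] K]
  [IsScalarTower F[X] L K] [IsScalarTower F[X] K Ω] [IsGalois K Ω]

/-- The local situation: `K` is a field between `L` and `Ω` with a discrete valuation `w` such that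
units are squares, `π` is a uniformizer with square root `S`, the roots of `g(x) = t` are in `K`,
their differences are units and `D` has odd valuation. -/
structure IsLoc (w : Valuation K (WithZero (Multiplicative ℤ))) (g D : F[X]) (π : K) (S : Ω) :
    Prop where
  two : (2 : Ω) ≠ 0
  unif : w π = WithZero.exp (-1 : ℤ)
  sqrt : ∀ x : K, w x = 1 → ∃ r, r ^ 2 = x
  root : ∀ θ ∈ RootSet (Ω := Ω) g, ∃ x : K, algebraMap K Ω x = θ
  diff : ∀ x y : K, algebraMap K Ω x ∈ RootSet (Ω := Ω) g → algebraMap K Ω y ∈ RootSet (Ω := Ω) g →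
    x ≠ y → w (x - y) = 1
  odd : Odd (lg w (algebraMap F[X] K D))
  ne : D ≠ 0
  S_sq : S ^ 2 = algebraMap K Ω π

variable {w : Valuation K (WithZero (Multiplicative ℤ))} {π : K} {S : Ω}

lemma IsLoc.pi_ne (hL : IsLoc w g D π S) : π ≠ 0 := by
  rintro rfl
  have := hL.unif
  rw [map_zero] at this
  exact WithZero.exp_ne_zero this.symm

lemma IsLoc.S_ne (hL : IsLoc w g D π S) : S ≠ 0 := by
  intro h0
  have := hL.S_sq
  rw [h0, zero_pow two_ne_zero, eq_comm, map_eq_zero] at this
  exact hL.pi_ne this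

lemma IsLoc.fix_root (hL : IsLoc w g D π S) {θ : Ω} (hθ : θ ∈ RootSet (Ω := Ω) g)
    (σ : Ω ≃ₐ[K] Ω) : σ θ = θ := by
  obtain ⟨x, rfl⟩ := hL.root θ hθ
  exact σ.commutes x

/-- The Galois group acts trivially on points of order two. -/
lemma IsLoc.map_two (hL : IsLoc w g D π S) (hW : IsTwist Ω W g D) (hg : g.Monic)
    (hdeg : g.natDegree = 3) (hd : derivative g ≠ 0) {P : (W.baseChange Ω).Point} (hP : 2 • P = 0)
    (σ : Ω ≃ₐ[K] Ω) :
    Point.map (W' := W) ((σ.restrictScalars L : Ω ≃ₐ[L] Ω) : Ω →ₐ[L] Ω) P = P := by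
  apply eq_of_signs L hL.two hW hg hdeg hd hL.ne (by rw [← map_nsmul, hP, map_zero]) hP
  intro θ hθ
  have h1 := rho_map_two_torsion hL.two hW (σ.restrictScalars L : Ω ≃ₐ[L] Ω) θ hP
  have h3 : (σ.restrictScalars L : Ω ≃ₐ[L] Ω) θ = θ := hL.fix_root hθ σ
  rwa [h3] at h1

variable (L) in
include L in
/-- The classification of nonzero points of order two. -/
lemma exists_root_of_two (h2 : (2 : Ω) ≠ 0) (hW : IsTwist Ω W g D) (hg : g.Monic)
    (hdeg : g.natDegree = 3) (hd : derivative g ≠ 0) (hD : D ≠ 0) {P : (W.baseChange Ω).Point}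
    (hP : 2 • P = 0) (h0 : P ≠ 0) :
    ∃ θ ∈ RootSet (Ω := Ω) g, ∃ h, P = .some (algebraMap F[X] Ω D * θ) 0 h := by
  obtain ⟨θ₁, θ₂, θ₃, h12, h13, h23, hR, -, -⟩ :=
    exists_three_roots (F := F) L (Ω := Ω) hg hdeg hd
  have hd0 : algebraMap F[X] Ω D ≠ 0 := algebraMap_ne_zero_Om L hD
  rcases (two_torsion_iff hW.short h2 P).mp hP with h | ⟨e, h, he, rfl⟩
  · exact absurd h h0
  · have m1 : θ₁ ∈ RootSet (Ω := Ω) g := (hR _).mpr (Or.inl rfl)
    have m2 : θ₂ ∈ RootSet (Ω := Ω) g := (hR _).mpr (Or.inr (Or.inl rfl))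
    have m3 : θ₃ ∈ RootSet (Ω := Ω) g := (hR _).mpr (Or.inr (Or.inr rfl))
    rcases Rt.mem_of_three (hW.rt hg hdeg m1) (hW.rt hg hdeg m2) (hW.rt hg hdeg m3)
      (fun h => h12 (mul_left_cancel₀ hd0 h)) (fun h => h13 (mul_left_cancel₀ hd0 h))
      (fun h => h23 (mul_left_cancel₀ hd0 h)) he with rfl | rfl | rfl
    · exact ⟨θ₁, m1, h, rfl⟩
    · exact ⟨θ₂, m2, h, rfl⟩
    · exact ⟨θ₃, m3, h, rfl⟩

/-- The square of `ρ` at a half of a point of order two. -/
lemma IsLoc.rho_half (hL : IsLoc w g D π S) (hW : IsTwist Ω W g D) (hg : g.Monic)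
    (hdeg : g.natDegree = 3) {Q : (W.baseChange Ω).Point}
    {θ : Ω} {h : (W.baseChange Ω).Nonsingular (algebraMap F[X] Ω D * θ) 0}
    (hQ : 2 • Q = .some (algebraMap F[X] Ω D * θ) 0 h) {θ' : Ω}
    (hθ' : θ' ∈ RootSet (Ω := Ω) g) :
    rho (algebraMap F[X] Ω D * θ') Q ^ 2 = algebraMap F[X] Ω D * (θ - θ') := by
  rw [rho_sq_double hW.short hL.two (hW.rt hg hdeg hθ') hQ]
  ring

variable (L) in
include L in
/-- The Galois action on `ρ` at a half of a point of order two. -/
lemma IsLoc.act_half (hL : IsLoc w g D π S) (hW : IsTwist Ω W g D) (hg : g.Monic)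
    (hdeg : g.natDegree = 3) {Q : (W.baseChange Ω).Point}
    {θ : Ω} (hθ : θ ∈ RootSet (Ω := Ω) g)
    {h : (W.baseChange Ω).Nonsingular (algebraMap F[X] Ω D * θ) 0}
    (hQ : 2 • Q = .some (algebraMap F[X] Ω D * θ) 0 h) {θ' : Ω}
    (hθ' : θ' ∈ RootSet (Ω := Ω) g) (hne : θ ≠ θ') (σ : Ω ≃ₐ[K] Ω) :
    rho (algebraMap F[X] Ω D * θ') Q ≠ 0 ∧
    σ (rho (algebraMap F[X] Ω D * θ') Q) * S = rho (algebraMap F[X] Ω D * θ') Q * σ S := by
  have hd0 : algebraMap F[X] Ω D ≠ 0 := algebraMap_ne_zero_Om L hL.ne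
  have h1 := hL.rho_half hW hg hdeg hQ hθ'
  obtain ⟨x, rfl⟩ := hL.root θ hθ
  obtain ⟨y, rfl⟩ := hL.root θ' hθ'
  have hxy : x ≠ y := fun h => hne (by rw [h])
  have hwxy := hL.diff x y hθ hθ' hxy
  have hdK : algebraMap F[X] K D ≠ 0 := by
    intro h0
    apply hd0
    rw [IsScalarTower.algebraMap_apply F[X] K Ω, h0, map_zero]
  have h3 : rho (algebraMap F[X] Ω D * algebraMap K Ω y) Q ^ 2 =
      algebraMap K Ω (algebraMap F[X] K D * (x - y)) := by
    rw [h1, map_mul, ← IsScalarTower.algebraMap_apply, map_sub]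
  have h4 : algebraMap F[X] K D * (x - y) ≠ 0 := mul_ne_zero hdK (sub_ne_zero.mpr hxy)
  refine ⟨?_, ?_⟩
  · intro h0
    rw [h0, zero_pow two_ne_zero, eq_comm, map_eq_zero] at h3
    exact h4 h3
  · apply sqrt_odd hL.unif hL.sqrt hL.S_sq h4 _ h3 σ
    rw [lg_mul w hdK (sub_ne_zero.mpr hxy), lg_eq_zero_of w hwxy, add_zero]
    exact hL.odd

/-- The Galois group acts on points of order four by the character of the square root of a
uniformizer. -/
lemma IsLoc.map_four (hL : IsLoc w g D π S) (hW : IsTwist Ω W g D) (hg : g.Monic)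
    (hdeg : g.natDegree = 3) (hd : derivative g ≠ 0) {Q : (W.baseChange Ω).Point}
    (hQ : 4 • Q = 0) (σ : Ω ≃ₐ[K] Ω) :
    (σ S = S → Point.map (W' := W) ((σ.restrictScalars L : Ω ≃ₐ[L] Ω) : Ω →ₐ[L] Ω) Q = Q) ∧
    (σ S = -S → Point.map (W' := W) ((σ.restrictScalars L : Ω ≃ₐ[L] Ω) : Ω →ₐ[L] Ω) Q = -Q) := by
  have hT2 : 2 • (2 • Q) = 0 := by rw [← mul_smul]; exact hQ
  by_cases hT0 : 2 • Q = 0
  · have h1 := hL.map_two (L := L) hW hg hdeg hd hT0 σ
    have h3 : -Q = Q := by
      have : Q + Q = 0 := by rw [← two_nsmul]; exact hT0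
      exact neg_eq_of_add_eq_zero_left this
    exact ⟨fun _ => h1, fun _ => by rw [h3]; exact h1⟩
  obtain ⟨θ, hθ, h, hTθ⟩ := exists_root_of_two L hL.two hW hg hdeg hd hL.ne hT2 hT0
  obtain ⟨θ₂, θ₃, n2, n3, n23, hR, -, -⟩ :=
    exists_other_roots (F := F) L (Ω := Ω) hg hdeg hd hθ
  have m2 : θ₂ ∈ RootSet (Ω := Ω) g := (hR _).mpr (Or.inr (Or.inl rfl))
  have m3 : θ₃ ∈ RootSet (Ω := Ω) g := (hR _).mpr (Or.inr (Or.inr rfl))
  have hd0 : algebraMap F[X] Ω D ≠ 0 := algebraMap_ne_zero_Om L hL.ne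
  set σQ := Point.map (W' := W) ((σ.restrictScalars L : Ω ≃ₐ[L] Ω) : Ω →ₐ[L] Ω) Q with hσQ
  set V := σQ - Q with hV
  have hV2 : 2 • V = 0 := by
    rw [hV, smul_sub, hσQ, ← map_nsmul, hL.map_two hW hg hdeg hd hT2 σ, sub_self]
  have hσV : σQ = Q + V := by rw [hV]; abel
  have hrho : ∀ θ' ∈ RootSet (Ω := Ω) g, rho (algebraMap F[X] Ω D * θ') Q *
      rho (algebraMap F[X] Ω D * θ') V = σ (rho (algebraMap F[X] Ω D * θ') Q) := by
    intro θ' hθ'
    rw [← rho_add hW.short hL.two (hW.rt hg hdeg hθ') _ _ hV2, ← hσV, hσQ]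
    have h5 : algebraMap F[X] Ω D * θ' =
        ((σ.restrictScalars L : Ω ≃ₐ[L] Ω) : Ω →ₐ[L] Ω) (algebraMap F[X] Ω D * θ') := by
      change _ = σ (algebraMap F[X] Ω D * θ')
      rw [map_mul, hL.fix_root hθ' σ, IsScalarTower.algebraMap_apply F[X] K Ω, σ.commutes]
    conv_lhs => rw [h5]
    rw [rho_map]
    rfl
  have hkey : ∀ θ' ∈ RootSet (Ω := Ω) g, θ ≠ θ' →
      rho (algebraMap F[X] Ω D * θ') V * S = σ S := by
    intro θ' hθ' hne
    obtain ⟨h5, h6⟩ := hL.act_half L hW hg hdeg hθ hTθ hθ' hne σ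
    rw [← hrho θ' hθ'] at h6
    apply mul_left_cancel₀ h5
    linear_combination h6
  have hneD : algebraMap F[X] Ω D * θ₂ ≠ algebraMap F[X] Ω D * θ₃ :=
    fun h => n23 (mul_left_cancel₀ hd0 h)
  constructor
  · intro hS
    have h5 : V = 0 := by
      apply eq_zero_of_rho_eq_one hW.short hL.two hneD hV2
      · apply mul_right_cancel₀ hL.S_ne
        rw [hkey θ₂ m2 n2, hS, one_mul]
      · apply mul_right_cancel₀ hL.S_ne
        rw [hkey θ₃ m3 n3, hS, one_mul]
    rw [hσV, h5, add_zero]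
  · intro hS
    have h6 : ∀ θ' ∈ RootSet (Ω := Ω) g, θ ≠ θ' →
        rho (algebraMap F[X] Ω D * θ') (V + 2 • Q) = 1 := by
      intro θ' hθ' hne
      rw [rho_add hW.short hL.two (hW.rt hg hdeg hθ') _ _ hT2, hTθ, rho_two_torsion, if_neg]
      · apply mul_right_cancel₀ hL.S_ne
        linear_combination -(hkey θ' hθ' hne) - hS
      · intro h7
        exact hne (mul_left_cancel₀ hd0 h7)
    have h5 : V + 2 • Q = 0 := by
      apply eq_zero_of_rho_eq_one hW.short hL.two hneD
      · rw [smul_add, hV2, hT2, add_zero]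
      · exact h6 θ₂ m2 n2
      · exact h6 θ₃ m3 n3
    have h7 : V = -(2 • Q) := eq_neg_of_add_eq_zero_left h5
    rw [hσV, h7, two_nsmul]
    abel

variable (L) in
include L in
/-- A homomorphism to the points of order two which is trivial at an element moving the square
root of a uniformizer is trivial. -/
lemma IsLoc.hom_trivial (hL : IsLoc w g D π S) (hW : IsTwist Ω W g D) (hg : g.Monic)
    (hdeg : g.natDegree = 3) (hd : derivative g ≠ 0) {σ₀ : Ω ≃ₐ[K] Ω} (hσ₀ : σ₀ S = -S)
    (f : (Ω ≃ₐ[K] Ω) → (W.baseChange Ω).Point) (hf2 : ∀ σ, 2 • f σ = 0)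
    (hmul : ∀ σ τ, f (σ * τ) = f σ + f τ) (hloc : IsLocallyConstant f) (h0 : f σ₀ = 0)
    (σ : Ω ≃ₐ[K] Ω) : f σ = 0 := by
  apply eq_of_signs L hL.two hW hg hdeg hd hL.ne (hf2 σ) (smul_zero 2)
  intro θ hθ
  rw [rho_zero]
  exact char_trivial w hL.two hL.unif hL.sqrt hL.S_sq hσ₀
    (fun σ => rho (algebraMap F[X] Ω D * θ) (f σ))
    (fun σ => rho_two_torsion_sq hW.short hL.two _ (hf2 σ))
    (fun σ τ => by
      rw [hmul, rho_add hW.short hL.two (hW.rt hg hdeg hθ) _ _ (hf2 τ)])
    (hloc.comp (fun P => rho (algebraMap F[X] Ω D * θ) P)) (by rw [h0, rho_zero]) σ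

/-- The structure of a cocycle of the local Galois group with values in the points of order four. -/
lemma IsLoc.cocycle_eq (hL : IsLoc w g D π S) (hW : IsTwist Ω W g D) (hg : g.Monic)
    (hdeg : g.natDegree = 3) (hd : derivative g ≠ 0) {σ₀ : Ω ≃ₐ[K] Ω} (hσ₀ : σ₀ S = -S)
    (c : (Ω ≃ₐ[K] Ω) → (W.baseChange Ω).Point) (hc4 : ∀ σ, 4 • c σ = 0)
    (hmul : ∀ σ τ, c (σ * τ) = c σ +
      Point.map (W' := W) ((σ.restrictScalars L : Ω ≃ₐ[L] Ω) : Ω →ₐ[L] Ω) (c τ))
    (hloc : IsLocallyConstant c)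
    (h2 : ∀ σ, 2 • (c σ - if σ S = S then 0 else c σ₀) = 0) (σ : Ω ≃ₐ[K] Ω) :
    c σ = if σ S = S then 0 else c σ₀ := by
  have hne : -S ≠ S := by
    intro h0
    have : 2 * S = 0 := by linear_combination -h0
    rcases mul_eq_zero.mp this with h | h
    · exact hL.two h
    · exact hL.S_ne h
  have key := hL.hom_trivial L hW hg hdeg hd hσ₀
    (fun σ => c σ - if σ S = S then 0 else c σ₀) h2 (by
      intro σ τ
      have hm := hL.map_four (L := L) hW hg hdeg hd (hc4 τ) σ
      have e1 : ((σ * τ : Ω ≃ₐ[K] Ω)) S = σ (τ S) := rfl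
      have h2τ := h2 τ
      rcases smul_sign hL.S_sq σ with hs | hs <;> rcases smul_sign hL.S_sq τ with ht | ht
      · rw [hmul, hm.1 hs, e1, ht, hs, if_pos rfl]
        abel
      · rw [hmul, hm.1 hs, e1, ht, map_neg, hs, if_pos rfl, if_neg hne]
        abel
      · rw [ht, if_pos rfl, sub_zero, two_nsmul] at h2τ
        have e2 : -c τ = c τ := neg_eq_of_add_eq_zero_left h2τ
        rw [hmul, hm.2 hs, e1, ht, hs, if_neg hne, if_pos rfl, e2]
        abel
      · rw [ht, if_neg hne, two_nsmul] at h2τ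
        have e2 : -c τ = (c τ - c σ₀ - c σ₀) - (c τ - c σ₀ + (c τ - c σ₀)) := by abel
        rw [h2τ, sub_zero] at e2
        rw [hmul, hm.2 hs, e1, ht, map_neg, hs, neg_neg, if_pos rfl, if_neg hne, e2]
        abel)
    (by
      apply hloc.sub
      exact (isLocallyConstant_apply8 (F := K) S).comp (fun x => if x = S then 0 else c σ₀))
    (by rw [hσ₀, if_neg hne, sub_self]) σ
  exact sub_eq_zero.mp key

/-- The structure of a Tate module cocycle at level two. -/
lemma IsLoc.level_two (hL : IsLoc w g D π S) (hW : IsTwist Ω W g D) (hg : g.Monic)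
    (hdeg : g.natDegree = 3) (hd : derivative g ≠ 0) {σ₀ : Ω ≃ₐ[K] Ω} (hσ₀ : σ₀ S = -S)
    {y : ℕ → (Ω ≃ₐ[L] Ω) → (W.baseChange Ω).Point} (hy : TC W y) (σ : Ω ≃ₐ[K] Ω) :
    y 2 (σ.restrictScalars L) = if σ S = S then 0 else y 2 (σ₀.restrictScalars L) := by
  have hloc : ∀ n, IsLocallyConstant (fun σ : Ω ≃ₐ[K] Ω => y n (σ.restrictScalars L)) := fun n =>
    isLocallyConstant_comp8 (K := K) (RingHom.id Ω) (fun σ => σ.restrictScalars L)
      (fun _ _ => rfl) (hy.loc n)
  have hmul : ∀ n (σ τ : Ω ≃ₐ[K] Ω), y n ((σ * τ).restrictScalars L) =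
      y n (σ.restrictScalars L) + Point.map (W' := W)
        ((σ.restrictScalars L : Ω ≃ₐ[L] Ω) : Ω →ₐ[L] Ω) (y n (τ.restrictScalars L)) :=
    fun n σ τ => hy.mul n (σ.restrictScalars L) (τ.restrictScalars L)
  have h1 := hL.cocycle_eq (L := L) hW hg hdeg hd hσ₀ (fun σ => y 1 (σ.restrictScalars L))
    (fun σ => by
      have h3 := hy.two_pow 1 (σ.restrictScalars L)
      rw [show (4 : ℕ) = 2 * 2 ^ 1 by norm_num, mul_smul, h3, smul_zero]) (hmul 1) (hloc 1) (by
    intro σ
    have h3 := fun σ : Ω ≃ₐ[L] Ω => hy.two_pow 1 σ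
    simp only [pow_one] at h3
    rw [smul_sub, h3]
    split_ifs
    · simp
    · rw [h3, sub_zero])
  apply hL.cocycle_eq (L := L) hW hg hdeg hd hσ₀ (fun σ => y 2 (σ.restrictScalars L))
    (fun σ => hy.two_pow 2 (σ.restrictScalars L)) (hmul 2) (hloc 2)
  intro σ
  have h3 := h1 σ
  rw [smul_sub, hy.two 1, h3]
  split_ifs
  · simp
  · rw [hy.two 1, sub_self]

end Local

end Pool.Agent.Lib.MP_89bcae_ag

end

section

/-!
# The effect of an automorphism on the second level of a Selmer class: local computation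
-/

open Polynomial WeierstrassCurve WeierstrassCurve.Affine

open scoped Classical

namespace Pool.Agent.Lib.MP_89bcae_ag

set_option linter.unusedSectionVars false

/-- The automorphism `U` moves the square roots of `c`. -/
def Moves {F : Type*} [Field F] (U : F → F) (c : F) : Prop := ∀ s : F, s ^ 2 = c → U s ≠ s

section Cong

variable {F K : Type*} [Field F] [Field K] [Algebra F[X] K]
  (w : Valuation K (WithZero (Multiplicative ℤ))) (α : F)

/-- The valuation `w` lies over the place `t = α`. -/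
structure IsOver : Prop where
  unif : w (algebraMap F[X] K (X - C α)) = WithZero.exp (-1 : ℤ)
  unit : ∀ p : F[X], p.eval α ≠ 0 → w (algebraMap F[X] K p) = 1

/-- `x` is congruent to the constant `c`. -/
def Cg (x : K) (c : F) : Prop := w (x - algebraMap F[X] K (C c)) < 1

variable {w α}

lemma IsOver.unif_lt (h : IsOver w α) : w (algebraMap F[X] K (X - C α)) < 1 := by
  rw [h.unif, ← WithZero.exp_zero, WithZero.exp_lt_exp]; norm_num

lemma IsOver.const_le (h : IsOver w α) (c : F) : w (algebraMap F[X] K (C c)) ≤ 1 := by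
  by_cases hc : c = 0
  · rw [hc, map_zero, map_zero, map_zero]; exact zero_le_one
  · rw [h.unit _ (by rw [eval_C]; exact hc)]

lemma IsOver.const_one (h : IsOver w α) {c : F} (hc : c ≠ 0) : w (algebraMap F[X] K (C c)) = 1 :=
  h.unit _ (by rw [eval_C]; exact hc)

lemma IsOver.cg_const (c : F) : Cg w (algebraMap F[X] K (C c)) c := by
  unfold Cg
  rw [sub_self, map_zero]
  exact zero_lt_one

lemma Cg.le (h : IsOver w α) {x : K} {c : F} (hx : Cg w x c) : w x ≤ 1 := by
  have : x = (x - algebraMap F[X] K (C c)) + algebraMap F[X] K (C c) := by ring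
  rw [this]
  apply le_trans (w.map_add _ _)
  exact max_le (le_of_lt hx) (h.const_le c)

lemma Cg.one (h : IsOver w α) {x : K} {c : F} (hx : Cg w x c) (hc : c ≠ 0) : w x = 1 := by
  have h1 : x = algebraMap F[X] K (C c) + (x - algebraMap F[X] K (C c)) := by ring
  rw [h1, w.map_add_eq_of_lt_left, h.const_one hc]
  rw [h.const_one hc]
  exact hx

lemma Cg.add {x y : K} {c d : F} (hx : Cg w x c) (hy : Cg w y d) : Cg w (x + y) (c + d) := by
  unfold Cg at *
  have : x + y - algebraMap F[X] K (C (c + d)) = (x - algebraMap F[X] K (C c)) +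
      (y - algebraMap F[X] K (C d)) := by rw [C_add, map_add]; ring
  rw [this]
  exact lt_of_le_of_lt (w.map_add _ _) (max_lt hx hy)

lemma Cg.neg {x : K} {c : F} (hx : Cg w x c) : Cg w (-x) (-c) := by
  unfold Cg at *
  have : -x - algebraMap F[X] K (C (-c)) = -(x - algebraMap F[X] K (C c)) := by
    rw [C_neg, map_neg]; ring
  rw [this, w.map_neg]
  exact hx

lemma Cg.sub {x y : K} {c d : F} (hx : Cg w x c) (hy : Cg w y d) : Cg w (x - y) (c - d) := by
  rw [sub_eq_add_neg, sub_eq_add_neg]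
  exact hx.add hy.neg

lemma Cg.mul (h : IsOver w α) {x y : K} {c d : F} (hx : Cg w x c) (hy : Cg w y d) :
    Cg w (x * y) (c * d) := by
  have hyl := hy.le h
  unfold Cg at *
  have : x * y - algebraMap F[X] K (C (c * d)) = (x - algebraMap F[X] K (C c)) * y +
      algebraMap F[X] K (C c) * (y - algebraMap F[X] K (C d)) := by rw [C_mul, map_mul]; ring
  rw [this]
  apply lt_of_le_of_lt (w.map_add _ _)
  apply max_lt
  · rw [map_mul]
    exact lt_of_le_of_lt (mul_le_mul_right hyl _) (by rwa [mul_one])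
  · rw [map_mul]
    exact lt_of_le_of_lt (mul_le_mul_left (h.const_le c) _) (by rwa [one_mul])

lemma Cg.prod (h : IsOver w α) {ι : Type*} (s : Finset ι) {x : ι → K} {c : ι → F}
    (hx : ∀ i ∈ s, Cg w (x i) (c i)) : Cg w (∏ i ∈ s, x i) (∏ i ∈ s, c i) := by
  induction s using Finset.induction_on with
  | empty =>
    rw [Finset.prod_empty, Finset.prod_empty]
    have := IsOver.cg_const (K := K) (w := w) (1 : F)
    rwa [C_1, map_one] at this
  | insert a s ha ih =>
    rw [Finset.prod_insert ha, Finset.prod_insert ha]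
    exact (hx a (Finset.mem_insert_self a s)).mul h
      (ih fun i hi => hx i (Finset.mem_insert_of_mem hi))

lemma Cg.unique (h : IsOver w α) {x : K} {c d : F} (hx : Cg w x c) (hy : Cg w x d) : c = d := by
  by_contra hne
  have h1 := hx.sub hy
  rw [sub_self] at h1
  have h2 := h1.one h (sub_ne_zero.mpr hne)
  rw [map_zero] at h2
  exact zero_ne_one h2

lemma Cg.poly (h : IsOver w α) (p : F[X]) : Cg w (algebraMap F[X] K p) (p.eval α) := by
  unfold Cg
  rw [← map_sub]
  obtain ⟨q, hq⟩ : (X - C α) ∣ (p - C (p.eval α)) := by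
    rw [dvd_iff_isRoot]; simp
  have hle : ∀ q : F[X], w (algebraMap F[X] K q) ≤ 1 := by
    intro q
    induction q using Polynomial.induction_on' with
    | add p q hp hq =>
      rw [map_add]
      exact le_trans (w.map_add _ _) (max_le hp hq)
    | monomial n a =>
      rw [← C_mul_X_pow_eq_monomial, map_mul, map_mul, map_pow, map_pow]
      have hX : w (algebraMap F[X] K X) ≤ 1 := by
        have : (X : F[X]) = (X - C α) + C α := by ring
        rw [this, map_add]
        exact le_trans (w.map_add _ _) (max_le h.unif_lt.le (h.const_le α))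
      exact mul_le_one' (h.const_le a) (pow_le_one' hX n)
  rw [hq, map_mul, map_mul]
  exact lt_of_le_of_lt (mul_le_mul_right (hle q) _) (by rw [mul_one]; exact h.unif_lt)

/-- Reading off from a unit of `K` whether an automorphism moves the square roots of its residue. -/
lemma moves_iff_aux [IsAlgClosed F] (h : IsOver w α) (h2 : (2 : F) ≠ 0) {τ : F →+* F}
    {γK : K ≃+* K} (hγK : ∀ a : F, γK (algebraMap F[X] K (C a)) = algebraMap F[X] K (C (τ a)))
    (hwγ : ∀ x, w (γK x) = w x) {m : K} {c : F} (hc : c ≠ 0) (hm : Cg w (m ^ 2) c) :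
    (γK m = m → ¬ Moves τ c) ∧ (γK m = -m → Moves τ c) := by
  obtain ⟨s₀, hs₀⟩ := IsAlgClosed.exists_pow_nat_eq c (n := 2) (by norm_num)
  have hs0 : s₀ ≠ 0 := by
    rintro rfl
    apply hc
    rw [← hs₀]; ring
  -- choose the sign of the square root
  obtain ⟨s, hs, hms⟩ : ∃ s : F, s ^ 2 = c ∧ Cg w m s := by
    have h1 : w ((m - algebraMap F[X] K (C s₀)) * (m + algebraMap F[X] K (C s₀))) < 1 := by
      have : (m - algebraMap F[X] K (C s₀)) * (m + algebraMap F[X] K (C s₀)) =
          m ^ 2 - algebraMap F[X] K (C c) := by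
        rw [← hs₀, C_pow, map_pow]; ring
      rw [this]
      exact hm
    by_cases h3 : Cg w m s₀
    · exact ⟨s₀, hs₀, h3⟩
    · refine ⟨-s₀, by rw [neg_sq, hs₀], ?_⟩
      unfold Cg at h3 ⊢
      rw [C_neg, map_neg, sub_neg_eq_add]
      rw [map_mul] at h1
      push Not at h3
      by_contra h4
      push Not at h4
      exact absurd (le_trans (by rw [one_mul]) (mul_le_mul' h3 h4)) (not_le.mpr h1)
  have hs0' : s ≠ 0 := by
    rintro rfl
    apply hc
    rw [← hs]; ring
  have hγm : Cg w (γK m) (τ s) := by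
    unfold Cg
    rw [← hγK, ← map_sub, hwγ]
    exact hms
  constructor
  · intro h3 h4
    rw [h3] at hγm
    exact h4 s hs (hγm.unique h hms)
  · intro h3 s' hs' h4
    rw [h3] at hγm
    have h5 : τ s = -s := hγm.unique h hms.neg
    have h6 : (s' - s) * (s' + s) = 0 := by linear_combination hs' - hs
    have h7 : τ s' = -s' := by
      rcases mul_eq_zero.mp h6 with h | h
      · rw [sub_eq_zero.mp h, h5]
      · have : s' = -s := by linear_combination h
        rw [this, map_neg, h5]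
    rw [h7] at h4
    have h8 : 2 * s' = 0 := by linear_combination -h4
    rcases mul_eq_zero.mp h8 with h | h
    · exact h2 h
    · rw [h] at hs'
      apply hc
      rw [← hs']; ring

end Cong

section MovesLemmas

variable {F : Type*} [Field F] [IsAlgClosed F] {τ : F →+* F}

lemma moves_iff_neg (h2 : (2 : F) ≠ 0) {c : F} (hc : c ≠ 0) (hτ : τ c = c) {s : F}
    (hs : s ^ 2 = c) : (Moves τ c ↔ τ s = -s) ∧ (¬ Moves τ c ↔ τ s = s) := by
  have hs0 : s ≠ 0 := by
    rintro rfl
    apply hc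
    rw [← hs]; ring
  have hne : -s ≠ s := by
    intro h0
    have : 2 * s = 0 := by linear_combination -h0
    rcases mul_eq_zero.mp this with h | h
    · exact h2 h
    · exact hs0 h
  have hor : τ s = s ∨ τ s = -s := by
    have h1 : (τ s) ^ 2 = s ^ 2 := by rw [← map_pow, hs, hτ]
    have h3 : (τ s - s) * (τ s + s) = 0 := by linear_combination h1
    rcases mul_eq_zero.mp h3 with h | h
    · exact Or.inl (sub_eq_zero.mp h)
    · exact Or.inr (by linear_combination h)
  have hall : τ s = -s → Moves τ c := by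
    intro h3 s' hs' h4
    have h6 : (s' - s) * (s' + s) = 0 := by linear_combination hs' - hs
    rcases mul_eq_zero.mp h6 with h | h
    · rw [sub_eq_zero.mp h, h3] at h4
      exact hne h4
    · have : s' = -s := by linear_combination h
      rw [this, map_neg, h3, neg_neg] at h4
      exact hne h4.symm
  have hno : Moves τ c → τ s = -s := fun h => hor.resolve_left (h s hs)
  refine ⟨⟨hno, hall⟩, ⟨fun h => hor.resolve_right (fun h3 => h (hall h3)), fun h h3 => ?_⟩⟩
  exact h3 s hs h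

/-- The parity relation. -/
lemma moves_parity (h2 : (2 : F) ≠ 0) {c₁ c₂ c₃ E : F} (h₁ : c₁ ≠ 0) (h₂ : c₂ ≠ 0) (h₃ : c₃ ≠ 0)
    (t₁ : τ c₁ = c₁) (t₂ : τ c₂ = c₂) (t₃ : τ c₃ = c₃) (hE : c₁ * c₂ * c₃ = E ^ 2)
    (hτE : τ E = E) : Moves τ c₁ ↔ ¬ (Moves τ c₂ ↔ Moves τ c₃) := by
  obtain ⟨s₁, hs₁⟩ := IsAlgClosed.exists_pow_nat_eq c₁ (n := 2) (by norm_num)
  obtain ⟨s₂, hs₂⟩ := IsAlgClosed.exists_pow_nat_eq c₂ (n := 2) (by norm_num)
  obtain ⟨s₃, hs₃⟩ := IsAlgClosed.exists_pow_nat_eq c₃ (n := 2) (by norm_num)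
  have a₁ := moves_iff_neg h2 h₁ t₁ hs₁
  have a₂ := moves_iff_neg h2 h₂ t₂ hs₂
  have a₃ := moves_iff_neg h2 h₃ t₃ hs₃
  have hfix : τ (s₁ * s₂ * s₃) = s₁ * s₂ * s₃ := by
    have h4 : (s₁ * s₂ * s₃ - E) * (s₁ * s₂ * s₃ + E) = 0 := by
      have : (s₁ * s₂ * s₃) ^ 2 = E ^ 2 := by
        rw [mul_pow, mul_pow, hs₁, hs₂, hs₃, hE]
      linear_combination this
    rcases mul_eq_zero.mp h4 with h | h
    · rw [sub_eq_zero.mp h, hτE]
    · have : s₁ * s₂ * s₃ = -E := by linear_combination h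
      rw [this, map_neg, hτE]
  have hne : s₁ * s₂ * s₃ ≠ 0 := by
    intro h0
    have : (s₁ * s₂ * s₃) ^ 2 = 0 := by rw [h0]; ring
    rw [mul_pow, mul_pow, hs₁, hs₂, hs₃] at this
    exact mul_ne_zero (mul_ne_zero h₁ h₂) h₃ this
  have hneg : -(s₁ * s₂ * s₃) ≠ s₁ * s₂ * s₃ := by
    intro h0
    have : 2 * (s₁ * s₂ * s₃) = 0 := by linear_combination -h0
    rcases mul_eq_zero.mp this with h | h
    · exact h2 h
    · exact hne h
  rw [map_mul, map_mul] at hfix
  by_cases m₁ : Moves τ c₁ <;> by_cases m₂ : Moves τ c₂ <;> by_cases m₃ : Moves τ c₃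
  · exfalso
    rw [a₁.1.mp m₁, a₂.1.mp m₂, a₃.1.mp m₃] at hfix
    exact hneg (by linear_combination hfix)
  · simp [m₁, m₂, m₃]
  · simp [m₁, m₂, m₃]
  · exfalso
    rw [a₁.1.mp m₁, a₂.2.mp m₂, a₃.2.mp m₃] at hfix
    exact hneg (by linear_combination hfix)
  · simp [m₁, m₂, m₃]
  · exfalso
    rw [a₁.2.mp m₁, a₂.1.mp m₂, a₃.2.mp m₃] at hfix
    exact hneg (by linear_combination hfix)
  · exfalso
    rw [a₁.2.mp m₁, a₂.2.mp m₂, a₃.1.mp m₃] at hfix
    exact hneg (by linear_combination hfix)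
  · simp [m₁, m₂, m₃]

end MovesLemmas

section Tower

variable {R F L Ω : Type*} [CommRing R] [Field F] [IsAlgClosed F] [Field L] [Field Ω]
  [Algebra F[X] L] [IsFractionRing F[X] L] [Algebra L Ω] [Algebra F[X] Ω] [IsScalarTower F[X] L Ω]
  [Algebra R L] [Algebra R Ω] [IsScalarTower R L Ω] {W : Affine R} {g D : F[X]}
  [IsGalois L Ω] [IsSepClosed Ω]
  {K : Type*} [Field K] [Algebra L K] [Algebra K Ω] [IsScalarTower L K Ω] [Algebra F[X] K]
  [IsScalarTower F[X] L K] [IsScalarTower F[X] K Ω] [IsGalois K Ω]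

/-- The local data at a root `α` of `D` with an automorphism `γ`. -/
structure KeyData (w : Valuation K (WithZero (Multiplicative ℤ))) (g D : F[X]) (α : F) (S : Ω)
    (γ : Ω ≃ₐ[R] Ω) (γK : K ≃+* K) (τ : F →+* F) : Prop where
  isOver : IsOver w α
  loc : IsLoc w g D (algebraMap F[X] K (X - C α)) S
  near : ∀ β, g.eval β = α → ∃ x : K, algebraMap K Ω x ∈ RootSet (Ω := Ω) g ∧
    w (x - algebraMap F[X] K (C β)) = WithZero.exp (-1 : ℤ)
  γ_poly : ∀ p : F[X], γ (algebraMap F[X] Ω p) = algebraMap F[X] Ω (p.map τ)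
  γ_K : ∀ x : K, γ (algebraMap K Ω x) = algebraMap K Ω (γK x)
  γ_val : ∀ x, w (γK x) = w x
  g_fix : g.map τ = g
  D_fix : D.map τ = D
  α_fix : τ α = α
  β_fix : ∀ β, g.eval β = α → τ β = β

variable {w : Valuation K (WithZero (Multiplicative ℤ))} {α : F} {S : Ω} {γ : Ω ≃ₐ[R] Ω}
  {γK : K ≃+* K} {τ : F →+* F}

lemma KeyData.γK_poly (h : KeyData w g D α S γ γK τ) (p : F[X]) :
    γK (algebraMap F[X] K p) = algebraMap F[X] K (p.map τ) := by
  apply (algebraMap K Ω).injective
  rw [← h.γ_K, ← IsScalarTower.algebraMap_apply, ← IsScalarTower.algebraMap_apply, h.γ_poly]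

lemma cg_of_near {x : K} {β : F}
    (hx : w (x - algebraMap F[X] K (C β)) = WithZero.exp (-1 : ℤ)) : Cg w x β := by
  unfold Cg
  rw [hx, ← WithZero.exp_zero, WithZero.exp_lt_exp]; norm_num

/-- The root near a fixed constant is fixed. -/
lemma KeyData.fix_near (h : KeyData w g D α S γ γK τ) {β : F} (hβ : g.eval β = α) {x : K}
    (hx : algebraMap K Ω x ∈ RootSet (Ω := Ω) g) (hc : Cg w x β) :
    γK x = x := by
  by_contra hne
  have h1 : algebraMap K Ω (γK x) ∈ RootSet (Ω := Ω) g := by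
    rw [← h.γ_K]
    exact gamma_mem_rootSet h.γ_poly h.g_fix hx
  have h2 := h.loc.diff _ _ h1 hx hne
  have h3 : Cg w (γK x) β := by
    unfold Cg at hc ⊢
    have h4 := h.γK_poly (C β)
    rw [map_C, h.β_fix β hβ] at h4
    rw [← h4, ← map_sub, h.γ_val]
    exact hc
  have h4 := h3.sub hc
  unfold Cg at h4
  rw [sub_self, C_0, map_zero, sub_zero, h2] at h4
  exact lt_irrefl _ h4

/-- Labels for the fibre and the roots. -/
lemma KeyData.labels (h : KeyData w g D α S γ γK τ) (hg : g.Monic) (hdeg : g.natDegree = 3)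
    (hd : derivative g ≠ 0) (L' : Type*) [Field L'] [Algebra F[X] L'] [IsFractionRing F[X] L']
    [Algebra L' Ω] [IsScalarTower F[X] L' Ω] {β₁ β₂ β₃ : F}
    (h12 : β₁ ≠ β₂) (h13 : β₁ ≠ β₃) (h23 : β₂ ≠ β₃)
    (hfac : g - C α = (X - C β₁) * (X - C β₂) * (X - C β₃)) :
    ∃ x₁ x₂ x₃ : K, (algebraMap K Ω x₁ ∈ RootSet (Ω := Ω) g ∧
      algebraMap K Ω x₂ ∈ RootSet (Ω := Ω) g ∧ algebraMap K Ω x₃ ∈ RootSet (Ω := Ω) g) ∧
      (w (x₁ - algebraMap F[X] K (C β₁)) = WithZero.exp (-1 : ℤ) ∧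
      w (x₂ - algebraMap F[X] K (C β₂)) = WithZero.exp (-1 : ℤ) ∧
      w (x₃ - algebraMap F[X] K (C β₃)) = WithZero.exp (-1 : ℤ)) ∧
      ∀ θ ∈ RootSet (Ω := Ω) g, θ = algebraMap K Ω x₁ ∨ θ = algebraMap K Ω x₂ ∨
        θ = algebraMap K Ω x₃ := by
  have hev : ∀ β, g.eval β - α = (β - β₁) * (β - β₂) * (β - β₃) := by
    intro β
    have := congrArg (fun p => p.eval β) hfac
    simpa using this
  have e1 : g.eval β₁ = α := by
    have := hev β₁
    rw [sub_self, zero_mul, zero_mul] at this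
    exact sub_eq_zero.mp this
  have e2 : g.eval β₂ = α := by
    have := hev β₂
    rw [sub_self, mul_zero, zero_mul] at this
    exact sub_eq_zero.mp this
  have e3 : g.eval β₃ = α := by
    have := hev β₃
    rw [sub_self, mul_zero] at this
    exact sub_eq_zero.mp this
  obtain ⟨x₁, m1, n1⟩ := h.near β₁ e1
  obtain ⟨x₂, m2, n2⟩ := h.near β₂ e2
  obtain ⟨x₃, m3, n3⟩ := h.near β₃ e3
  refine ⟨x₁, x₂, x₃, ⟨m1, m2, m3⟩, ⟨n1, n2, n3⟩, ?_⟩
  have d12 : algebraMap K Ω x₁ ≠ algebraMap K Ω x₂ := by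
    intro h0
    have := (algebraMap K Ω).injective h0
    subst this
    exact h12 ((cg_of_near n1).unique h.isOver (cg_of_near n2))
  have d13 : algebraMap K Ω x₁ ≠ algebraMap K Ω x₃ := by
    intro h0
    have := (algebraMap K Ω).injective h0
    subst this
    exact h13 ((cg_of_near n1).unique h.isOver (cg_of_near n3))
  have d23 : algebraMap K Ω x₂ ≠ algebraMap K Ω x₃ := by
    intro h0
    have := (algebraMap K Ω).injective h0
    subst this
    exact h23 ((cg_of_near n2).unique h.isOver (cg_of_near n3))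
  obtain ⟨θ₁, θ₂, θ₃, t12, t13, t23, hR, -, -⟩ :=
    exists_three_roots (F := F) L' (Ω := Ω) hg hdeg hd
  have hsub : ({algebraMap K Ω x₁, algebraMap K Ω x₂, algebraMap K Ω x₃} : Finset Ω) ⊆
      {θ₁, θ₂, θ₃} := by
    intro θ hθ
    simp only [Finset.mem_insert, Finset.mem_singleton] at hθ ⊢
    rcases hθ with rfl | rfl | rfl
    · exact (hR _).mp m1
    · exact (hR _).mp m2
    · exact (hR _).mp m3
  have heq := Finset.eq_of_subset_of_card_le hsub (by
    rw [Finset.card_insert_of_notMem (by simp [t12, t13]),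
      Finset.card_insert_of_notMem (by simp [t23]), Finset.card_singleton,
      Finset.card_insert_of_notMem (by simp [d12, d13]),
      Finset.card_insert_of_notMem (by simp [d23]), Finset.card_singleton])
  intro θ hθ
  have h5 : θ ∈ ({θ₁, θ₂, θ₃} : Finset Ω) := by simpa using (hR θ).mp hθ
  rw [← heq] at h5
  simpa using h5

/-- The conjugate of an element of the local Galois group. -/
lemma KeyData.exists_conj (h : KeyData w g D α S γ γK τ) (σ : Ω ≃ₐ[K] Ω) :
    ∃ σ' : Ω ≃ₐ[K] Ω, (∀ x, γ (σ' x) = σ (γ x)) ∧ (σ S = -S → σ' S = -S) := by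
  refine ⟨AlgEquiv.ofRingEquiv (f := (γ.toRingEquiv.trans σ.toRingEquiv).trans
    γ.symm.toRingEquiv) ?_, ?_, ?_⟩
  · intro y
    change γ.symm (σ (γ (algebraMap K Ω y))) = algebraMap K Ω y
    rw [h.γ_K, σ.commutes, ← h.γ_K, AlgEquiv.symm_apply_apply]
  · intro x
    change γ (γ.symm (σ (γ x))) = σ (γ x)
    rw [AlgEquiv.apply_symm_apply]
  · intro hσ
    have h1 : (γ S) ^ 2 = S ^ 2 := by
      rw [← map_pow, h.loc.S_sq, ← IsScalarTower.algebraMap_apply, h.γ_poly, Polynomial.map_sub,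
        Polynomial.map_X, Polynomial.map_C, h.α_fix]
    have h3 : (γ S - S) * (γ S + S) = 0 := by linear_combination h1
    change γ.symm (σ (γ S)) = -S
    apply γ.injective
    rw [AlgEquiv.apply_symm_apply, map_neg]
    rcases mul_eq_zero.mp h3 with h4 | h4
    · rw [sub_eq_zero.mp h4, hσ]
    · have h5 : γ S = -S := by linear_combination h4
      rw [h5, map_neg, hσ]

variable (L) in
include L in
/-- An automorphism fixing the roots acts trivially on points of order two. -/
lemma gamma_two (h2 : (2 : Ω) ≠ 0) (hW : IsTwist Ω W g D) (hg : g.Monic)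
    (hdeg : g.natDegree = 3) (hd : derivative g ≠ 0) (hD : D ≠ 0)
    (hγD : γ (algebraMap F[X] Ω D) = algebraMap F[X] Ω D)
    (hγθ : ∀ θ ∈ RootSet (Ω := Ω) g, γ θ = θ) {T : (W.baseChange Ω).Point} (hT : 2 • T = 0) :
    Point.map (W' := W) (γ : Ω →ₐ[R] Ω) T = T := by
  apply eq_of_signs L h2 hW hg hdeg hd hD (by rw [← map_nsmul, hT, map_zero]) hT
  intro θ hθ
  have h1 : algebraMap F[X] Ω D * θ = (γ : Ω →ₐ[R] Ω) (algebraMap F[X] Ω D * θ) := by
    change _ = γ (algebraMap F[X] Ω D * θ)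
    rw [map_mul, hγD, hγθ θ hθ]
  conv_lhs => rw [h1]
  rw [rho_map]
  rcases rho_two_torsion_sq hW.short h2 (algebraMap F[X] Ω D * θ) hT with h3 | h3
  · rw [h3, map_one]
  · rw [h3, map_neg, map_one]

/-- The value of the second class at an element moving `S`. -/
lemma KeyData.value (h : KeyData w g D α S γ γK τ) (hW : IsTwist Ω W g D) (hg : g.Monic)
    (hdeg : g.natDegree = 3) (hd : derivative g ≠ 0)
    {y z : ℕ → (Ω ≃ₐ[L] Ω) → (W.baseChange Ω).Point} (hy : TC W y)
    {P : (W.baseChange Ω).Point} (hP : 4 • P = 0)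
    (hrel : ∀ σ' σ : Ω ≃ₐ[L] Ω, (∀ x, γ (σ' x) = σ (γ x)) →
      Point.map (W' := W) (γ : Ω →ₐ[R] Ω) (y 2 σ') =
        y 2 σ + z 1 σ + (Point.map (W' := W) (σ : Ω →ₐ[L] Ω) P - P))
    {σ₀ : Ω ≃ₐ[K] Ω} (hσ₀ : σ₀ S = -S) :
    z 1 (σ₀.restrictScalars L) =
      (Point.map (W' := W) (γ : Ω →ₐ[R] Ω) (y 2 (σ₀.restrictScalars L)) -
        y 2 (σ₀.restrictScalars L)) + 2 • P := by
  have hne : -S ≠ S := by
    intro h0
    have : 2 * S = 0 := by linear_combination -h0
    rcases mul_eq_zero.mp this with h1 | h1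
    · exact h.loc.two h1
    · exact h.loc.S_ne h1
  obtain ⟨σ₁, h1, h3⟩ := h.exists_conj σ₀
  have h4 := hrel (σ₁.restrictScalars L) (σ₀.restrictScalars L) h1
  have h5 := h.loc.level_two (L := L) hW hg hdeg hd hσ₀ hy σ₁
  rw [h3 hσ₀, if_neg hne] at h5
  rw [h5, (h.loc.map_four (L := L) hW hg hdeg hd hP σ₀).2 hσ₀] at h4
  rw [h4, two_nsmul]
  abel

/-- The sign of a cocycle of order two at an element moving `S`. -/
lemma KeyData.sign_near (h : KeyData w g D α S γ γK τ)
    {c : (Ω ≃ₐ[L] Ω) → (W.baseChange Ω).Point} {Z : Finset F} {b : Ω → Ω}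
    (hb : IsDesc W g D c Z b)
    {σ₀ : Ω ≃ₐ[K] Ω} (hσ₀ : σ₀ S = -S) {x : K} {β : F}
    (hx : algebraMap K Ω x ∈ RootSet (Ω := Ω) g)
    (hn : w (x - algebraMap F[X] K (C β)) = WithZero.exp (-1 : ℤ)) :
    rho (algebraMap F[X] Ω D * algebraMap K Ω x) (c (σ₀.restrictScalars L)) =
      if β ∈ Z then -1 else 1 := by
  have hoth : ∀ β' : F, β' ≠ β → w (x - algebraMap F[X] K (C β')) = 1 := by
    intro β' hne
    exact ((cg_of_near hn).sub (IsOver.cg_const (w := w) β')).one h.isOver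
      (sub_ne_zero.mpr (Ne.symm hne))
  obtain ⟨hne, hlg⟩ := lg_root_prod w hn hoth Z
  have hprod0 : (∏ β' ∈ Z, (x - algebraMap F[X] K (C β'))) ≠ 0 :=
    Finset.prod_ne_zero_iff.mpr fun β' _ => hne β'
  have hsq : b (algebraMap K Ω x) ^ 2 =
      algebraMap K Ω (∏ β' ∈ Z, (x - algebraMap F[X] K (C β'))) := by
    rw [hb.sq _ hx, map_prod]
    apply Finset.prod_congr rfl
    intro β' _
    rw [map_sub, ← IsScalarTower.algebraMap_apply]
  have hact := hb.act _ hx (σ₀.restrictScalars L)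
  have hfix : (σ₀.restrictScalars L) (algebraMap K Ω x) = algebraMap K Ω x := σ₀.commutes x
  rw [hfix] at hact
  have hb0 := hb.ne_zero hx
  by_cases hβ : β ∈ Z
  · rw [if_pos hβ] at hlg ⊢
    have h1 := sqrt_odd h.loc.unif h.loc.sqrt h.loc.S_sq hprod0 (by rw [hlg]; decide) hsq σ₀
    have h3 : σ₀ (b (algebraMap K Ω x)) = -b (algebraMap K Ω x) := by
      apply mul_right_cancel₀ h.loc.S_ne
      rw [h1, hσ₀]; ring
    have h4 : (σ₀.restrictScalars L) (b (algebraMap K Ω x)) = -b (algebraMap K Ω x) := h3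
    rw [h4] at hact
    apply mul_right_cancel₀ hb0
    rw [← hact]; ring
  · rw [if_neg hβ] at hlg ⊢
    obtain ⟨r, hr⟩ := exists_rational_sqrt w h.loc.unif h.loc.sqrt hprod0 (by rw [hlg]; decide) hsq
    have h4 : (σ₀.restrictScalars L) (b (algebraMap K Ω x)) = b (algebraMap K Ω x) := by
      rw [← hr]; exact σ₀.commutes r
    rw [h4] at hact
    apply mul_right_cancel₀ hb0
    rw [← hact]; ring

/-- Everything that is needed about the two classes `y` and `z = (γ y - y) / 2`. -/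
structure KeyRel (W : Affine R) (g D : F[X]) (γ : Ω ≃ₐ[R] Ω) (τ : F →+* F)
    (y z : ℕ → (Ω ≃ₐ[L] Ω) → (W.baseChange Ω).Point) (P : (W.baseChange Ω).Point)
    (Z Z' : Finset F) (b b' : Ω → Ω) : Prop where
  tcy : TC W y
  tcz : TC W z
  four : 4 • P = 0
  rel : ∀ σ' σ : Ω ≃ₐ[L] Ω, (∀ x, γ (σ' x) = σ (γ x)) →
      Point.map (W' := W) (γ : Ω →ₐ[R] Ω) (y 2 σ') =
        y 2 σ + z 1 σ + (Point.map (W' := W) (σ : Ω →ₐ[L] Ω) P - P)
  descy : IsDesc W g D (y 1) Z b
  descz : IsDesc W g D (z 1) Z' b'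
  fixZ : ∀ β ∈ Z, τ β = β
  conj : ∀ σ : Ω ≃ₐ[L] Ω, ∃ σ' : Ω ≃ₐ[L] Ω, ∀ x, γ (σ' x) = σ (γ x)

variable {y z : ℕ → (Ω ≃ₐ[L] Ω) → (W.baseChange Ω).Point} {P : (W.baseChange Ω).Point}
  {Z Z' : Finset F} {b b' : Ω → Ω}

/-- The effect of `γ` on `ρ(B) b(θ)`. -/
lemma KeyData.core (h : KeyData w g D α S γ γK τ) (hr : KeyRel W g D γ τ y z P Z Z' b b')
    (hW : IsTwist Ω W g D) (hg : g.Monic) (hdeg : g.natDegree = 3) (hd : derivative g ≠ 0)
    (hγθ : ∀ θ ∈ RootSet (Ω := Ω) g, γ θ = θ) {σ₀ : Ω ≃ₐ[K] Ω} (hσ₀ : σ₀ S = -S)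
    {x : K} {β : F} (hx : algebraMap K Ω x ∈ RootSet (Ω := Ω) g)
    (hn : w (x - algebraMap F[X] K (C β)) = WithZero.exp (-1 : ℤ)) :
    γ (rho (algebraMap F[X] Ω D * algebraMap K Ω x) (y 2 (σ₀.restrictScalars L)) *
        b (algebraMap K Ω x)) =
      (if β ∈ Z' then -1 else 1) *
        (rho (algebraMap F[X] Ω D * algebraMap K Ω x) (y 2 (σ₀.restrictScalars L)) *
          b (algebraMap K Ω x)) := by
  set θ := algebraMap K Ω x with hθ
  set B := y 2 (σ₀.restrictScalars L) with hB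
  have hγD : γ (algebraMap F[X] Ω D) = algebraMap F[X] Ω D := by rw [h.γ_poly, h.D_fix]
  have hz2 : ∀ σ, 2 • z 1 σ = 0 := fun σ => by
    have := hr.tcz.two_pow 1 σ
    rwa [pow_one] at this
  have hy2 : ∀ σ, 2 • y 1 σ = 0 := fun σ => by
    have := hr.tcy.two_pow 1 σ
    rwa [pow_one] at this
  have hP2 : 2 • (2 • P) = 0 := by rw [← mul_smul]; exact hr.four
  -- the level one relation
  have hrel1 : ∀ σ' σ : Ω ≃ₐ[L] Ω, (∀ x, γ (σ' x) = σ (γ x)) →
      Point.map (W' := W) (γ : Ω →ₐ[R] Ω) (y 1 σ') - y 1 σ =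
        Point.map (W' := W) (σ : Ω →ₐ[L] Ω) (2 • P) - 2 • P := by
    intro σ' σ hσ
    have h1 := congrArg (fun Q => 2 • Q) (hr.rel σ' σ hσ)
    rw [← map_nsmul, hr.tcy.two 1, smul_add, smul_add, hr.tcy.two 1, hz2, add_zero, smul_sub,
      ← map_nsmul] at h1
    rw [h1]
    abel
  have hb := hr.descy.conj_eq h.loc.two hW hg hdeg hd h.loc.ne hy2 h.γ_poly h.g_fix h.D_fix
    hr.conj hr.fixZ hP2 hrel1 θ hx
  have hsymm : γ.symm θ = θ := by
    apply γ.injective
    rw [AlgEquiv.apply_symm_apply, hγθ θ hx]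
  rw [hsymm] at hb
  have hval := h.value hW hg hdeg hd hr.tcy hr.four hr.rel hσ₀
  rw [← hB] at hval
  set V := Point.map (W' := W) (γ : Ω →ₐ[R] Ω) B - B with hV
  have h2B : 2 • B = y 1 (σ₀.restrictScalars L) := hr.tcy.two 1 _
  have hV2 : 2 • V = 0 := by
    rw [hV, smul_sub, ← map_nsmul, h2B, gamma_two L h.loc.two hW hg hdeg hd h.loc.ne hγD hγθ
      (hy2 _), sub_self]
  have hγB : Point.map (W' := W) (γ : Ω →ₐ[R] Ω) B = B + V := by rw [hV]; abel
  have h3 : γ (rho (algebraMap F[X] Ω D * θ) B) =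
      rho (algebraMap F[X] Ω D * θ) B * rho (algebraMap F[X] Ω D * θ) V := by
    rw [← rho_add hW.short h.loc.two (hW.rt hg hdeg hx) _ _ hV2, ← hγB]
    have h5 : algebraMap F[X] Ω D * θ = (γ : Ω →ₐ[R] Ω) (algebraMap F[X] Ω D * θ) := by
      change _ = γ (algebraMap F[X] Ω D * θ)
      rw [map_mul, hγD, hγθ θ hx]
    conv_rhs => rw [h5]
    rw [rho_map]
    rfl
  have h4 := h.sign_near hr.descz hσ₀ hx hn
  rw [hval, rho_add hW.short h.loc.two (hW.rt hg hdeg hx) _ _ hP2] at h4
  rw [map_mul, h3, hb, ← h4]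
  ring

/-- The final step: comparison of the two signs. -/
lemma KeyData.final (h : KeyData w g D α S γ γK τ) (h2F : (2 : F) ≠ 0) {m : K} {c : F} (hc : c ≠ 0)
    (hm : Cg w (m ^ 2) c) {β : F}
    (hκ : γ (algebraMap K Ω m) = (if β ∈ Z' then -1 else 1) * algebraMap K Ω m) :
    β ∈ Z' ↔ Moves τ c := by
  have haux := moves_iff_aux h.isOver h2F (τ := τ) (γK := γK) (fun a => by
    rw [h.γK_poly, map_C]) h.γ_val hc hm
  by_cases hβ : β ∈ Z'
  · rw [if_pos hβ] at hκ
    refine ⟨fun _ => haux.2 ?_, fun _ => hβ⟩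
    apply (algebraMap K Ω).injective
    rw [← h.γ_K, hκ, map_neg]; ring
  · rw [if_neg hβ] at hκ
    refine ⟨fun h1 => absurd h1 hβ, fun h1 => absurd h1 (haux.1 ?_)⟩
    apply (algebraMap K Ω).injective
    rw [← h.γ_K, hκ, one_mul]

/-- The case in which the fibre does not meet `Z`. -/
lemma KeyData.case_zero (h : KeyData w g D α S γ γK τ) (hr : KeyRel W g D γ τ y z P Z Z' b b')
    (h2F : (2 : F) ≠ 0)
    (hW : IsTwist Ω W g D) (hg : g.Monic) (hdeg : g.natDegree = 3) (hd : derivative g ≠ 0)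
    (hγθ : ∀ θ ∈ RootSet (Ω := Ω) g, γ θ = θ) {σ₀ : Ω ≃ₐ[K] Ω} (hσ₀ : σ₀ S = -S)
    (h2B : 2 • y 2 (σ₀.restrictScalars L) = 0)
    {x : K} {β : F} (hβ : g.eval β = α) (hx : algebraMap K Ω x ∈ RootSet (Ω := Ω) g)
    (hn : w (x - algebraMap F[X] K (C β)) = WithZero.exp (-1 : ℤ)) :
    β ∈ Z' ↔ Moves τ (PZ g D Z β) := by
  have h2y : ∀ σ, 2 • y 2 σ = y 1 σ := fun σ => hr.tcy.two 1 σ
  have hm1 : (1 : Ω) ≠ -1 := by
    intro h0
    apply h.loc.two
    linear_combination h0
  -- no point of the fibre is in `Z`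
  have hno : ∀ β' ∈ Z, g.eval β' ≠ α := by
    intro β' hβ' heq
    obtain ⟨x', m', n'⟩ := h.near β' heq
    have h1 := h.sign_near hr.descy hσ₀ m' n'
    rw [← h2y, h2B, rho_zero, if_pos hβ'] at h1
    exact hm1 h1
  have hβZ : β ∉ Z := fun h1 => hno β h1 hβ
  have hfilter : Z.filter (fun β' => g.eval β' ≠ g.eval β) = Z := by
    apply Finset.filter_true_of_mem
    intro β' hβ'
    rw [hβ]
    exact hno β' hβ'
  have hPZ : PZ g D Z β = ∏ β' ∈ Z, (β - β') := by
    rw [PZ, hfilter, if_neg hβZ, mul_one]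
  have hcore := h.core hr hW hg hdeg hd hγθ hσ₀ hx hn
  set θ := algebraMap K Ω x with hθ
  set B := y 2 (σ₀.restrictScalars L) with hB
  have hoth : ∀ β' : F, β' ≠ β → w (x - algebraMap F[X] K (C β')) = 1 := by
    intro β' hne
    exact ((cg_of_near hn).sub (IsOver.cg_const (w := w) β')).one h.isOver
      (sub_ne_zero.mpr (Ne.symm hne))
  obtain ⟨hne, hlg⟩ := lg_root_prod w hn hoth Z
  rw [if_neg hβZ] at hlg
  have hprod0 : (∏ β' ∈ Z, (x - algebraMap F[X] K (C β'))) ≠ 0 :=
    Finset.prod_ne_zero_iff.mpr fun β' _ => hne β'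
  have hsq : (rho (algebraMap F[X] Ω D * θ) B * b θ) ^ 2 =
      algebraMap K Ω (∏ β' ∈ Z, (x - algebraMap F[X] K (C β'))) := by
    rw [mul_pow, pow_two (rho _ _), rho_two_torsion_mul_self hW.short h.loc.two _ h2B, one_mul,
      hr.descy.sq _ hx, map_prod]
    apply Finset.prod_congr rfl
    intro β' _
    rw [map_sub, ← IsScalarTower.algebraMap_apply]
  obtain ⟨m, hm⟩ := exists_rational_sqrt w h.loc.unif h.loc.sqrt hprod0 (by rw [hlg]; decide) hsq
  rw [← hm] at hcore
  have hm2 : m ^ 2 = ∏ β' ∈ Z, (x - algebraMap F[X] K (C β')) := by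
    apply (algebraMap K Ω).injective
    rw [map_pow, hm, hsq]
  rw [hPZ]
  apply h.final h2F _ _ hcore
  · apply Finset.prod_ne_zero_iff.mpr
    intro β' hβ'
    apply sub_ne_zero.mpr
    rintro rfl
    exact hβZ hβ'
  · rw [hm2]
    apply Cg.prod h.isOver
    intro β' _
    exact (cg_of_near hn).sub (IsOver.cg_const (w := w) β')

/-- The case of a point of the fibre which belongs to `Z`. -/
lemma KeyData.case_one (h : KeyData w g D α S γ γK τ) (hr : KeyRel W g D γ τ y z P Z Z' b b')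
    (h2F : (2 : F) ≠ 0)
    (hW : IsTwist Ω W g D) (hg : g.Monic) (hdeg : g.natDegree = 3) (hd : derivative g ≠ 0)
    (hDα : D.eval α = 0) (hD' : (derivative D).eval α ≠ 0)
    (hγθ : ∀ θ ∈ RootSet (Ω := Ω) g, γ θ = θ) {σ₀ : Ω ≃ₐ[K] Ω} (hσ₀ : σ₀ S = -S)
    {βi βj βl : F} (hij : βi ≠ βj) (hil : βi ≠ βl) (hjl : βj ≠ βl)
    (hfac : g - C α = (X - C βi) * (X - C βj) * (X - C βl)) {xi xj : K}
    (hxi : algebraMap K Ω xi ∈ RootSet (Ω := Ω) g) (hxj : algebraMap K Ω xj ∈ RootSet (Ω := Ω) g)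
    (hni : w (xi - algebraMap F[X] K (C βi)) = WithZero.exp (-1 : ℤ))
    (hnj : w (xj - algebraMap F[X] K (C βj)) = WithZero.exp (-1 : ℤ))
    {hP' : (W.baseChange Ω).Nonsingular (algebraMap F[X] Ω D * algebraMap K Ω xj) 0}
    (h2B : 2 • y 2 (σ₀.restrictScalars L) =
      .some (algebraMap F[X] Ω D * algebraMap K Ω xj) 0 hP') :
    βi ∈ Z' ↔ Moves τ (PZ g D Z βi) := by
  have hm1 : (1 : Ω) ≠ -1 := by
    intro h0
    apply h.loc.two
    linear_combination h0
  have hd0 : algebraMap F[X] Ω D ≠ 0 := algebraMap_ne_zero_Om L h.loc.ne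
  have h2y : ∀ σ, 2 • y 2 σ = y 1 σ := fun σ => hr.tcy.two 1 σ
  have hev : ∀ β, g.eval β - α = (β - βi) * (β - βj) * (β - βl) := by
    intro β
    have := congrArg (fun p => p.eval β) hfac
    simpa using this
  have ei : g.eval βi = α := by
    have := hev βi
    rw [sub_self, zero_mul, zero_mul] at this
    exact sub_eq_zero.mp this
  have ej : g.eval βj = α := by
    have := hev βj
    rw [sub_self, mul_zero, zero_mul] at this
    exact sub_eq_zero.mp this
  have el : g.eval βl = α := by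
    have := hev βl
    rw [sub_self, mul_zero] at this
    exact sub_eq_zero.mp this
  -- membership in `Z`
  have hmem : ∀ (β' : F) (x' : K), algebraMap K Ω x' ∈ RootSet (Ω := Ω) g →
      w (x' - algebraMap F[X] K (C β')) = WithZero.exp (-1 : ℤ) → (β' ∈ Z ↔ xj ≠ x') := by
    intro β' x' m' n'
    have h1 := h.sign_near hr.descy hσ₀ m' n'
    rw [← h2y, h2B, rho_two_torsion] at h1
    by_cases hx' : xj = x'
    · rw [if_pos (by rw [hx'])] at h1
      constructor
      · intro h3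
        rw [if_pos h3] at h1
        exact absurd h1 hm1
      · intro h3
        exact absurd hx' h3
    · rw [if_neg (fun h3 => hx' ((algebraMap K Ω).injective (mul_left_cancel₀ hd0 h3)))] at h1
      constructor
      · exact fun _ => hx'
      · intro _
        by_contra h3
        rw [if_neg h3] at h1
        exact hm1 h1.symm
  have hxij : xi ≠ xj := by
    rintro rfl
    exact hij ((cg_of_near hni).unique h.isOver (cg_of_near hnj))
  have hZi : βi ∈ Z := (hmem βi xi hxi hni).mpr (Ne.symm hxij)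
  have hZj : βj ∉ Z := fun h1 => (hmem βj xj hxj hnj).mp h1 rfl
  have hZl : βl ∈ Z := by
    obtain ⟨xl, ml, nl⟩ := h.near βl el
    apply (hmem βl xl ml nl).mpr
    rintro rfl
    exact hjl ((cg_of_near hnj).unique h.isOver (cg_of_near nl))
  -- splitting off the fibre
  have hfib : Z.filter (fun β' => ¬ g.eval β' ≠ g.eval βi) = {βi, βl} := by
    ext β'
    rw [Finset.mem_filter, Finset.mem_insert, Finset.mem_singleton, not_not, ei]
    constructor
    · rintro ⟨h1, h3⟩
      have h4 := hev β'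
      rw [h3, sub_self, eq_comm, mul_eq_zero, mul_eq_zero] at h4
      rcases h4 with (h4 | h4) | h4
      · exact Or.inl (sub_eq_zero.mp h4)
      · rw [sub_eq_zero.mp h4] at h1
        exact absurd h1 hZj
      · exact Or.inr (sub_eq_zero.mp h4)
    · rintro (rfl | rfl)
      · exact ⟨hZi, ei⟩
      · exact ⟨hZl, el⟩
  set px : K := ∏ β' ∈ Z.filter (fun β' => g.eval β' ≠ g.eval βi),
    (xi - algebraMap F[X] K (C β')) with hpx
  set pb : F := ∏ β' ∈ Z.filter (fun β' => g.eval β' ≠ g.eval βi), (βi - β') with hpb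
  have hsplit : ∏ β' ∈ Z, (xi - algebraMap F[X] K (C β')) =
      px * ((xi - algebraMap F[X] K (C βi)) * (xi - algebraMap F[X] K (C βl))) := by
    rw [← Finset.prod_filter_mul_prod_filter_not Z (fun β' => g.eval β' ≠ g.eval βi), hfib,
      Finset.prod_pair hil]
  have hcp : Cg w px pb := by
    apply Cg.prod h.isOver
    intro β' _
    exact (cg_of_near hni).sub (IsOver.cg_const (w := w) β')
  have hp0 : pb ≠ 0 := by
    apply Finset.prod_ne_zero_iff.mpr
    intro β' hβ'
    apply sub_ne_zero.mpr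
    rintro rfl
    rw [Finset.mem_filter] at hβ'
    exact hβ'.2 rfl
  -- the product formula for `t - α`
  have hπ : algebraMap F[X] K (X - C α) = (xi - algebraMap F[X] K (C βi)) *
      (xi - algebraMap F[X] K (C βj)) * (xi - algebraMap F[X] K (C βl)) := by
    apply (algebraMap K Ω).injective
    have h1 := congrArg (ev F Ω (algebraMap K Ω xi)) hfac
    rw [map_sub, show ev F Ω (algebraMap K Ω xi) g = _ from hxi] at h1
    simp only [map_mul, map_sub, ev_X, ev_C] at h1
    simp only [map_mul, map_sub, ← IsScalarTower.algebraMap_apply]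
    exact h1
  obtain ⟨D₁, hD₁⟩ : (X - C α) ∣ D := dvd_iff_isRoot.mpr hDα
  have hD₁α : D₁.eval α = (derivative D).eval α := by
    rw [hD₁]
    simp
  have hπ0 := h.loc.pi_ne
  have hcore := h.core hr hW hg hdeg hd hγθ hσ₀ hxi hni
  set θ := algebraMap K Ω xi with hθ
  set B := y 2 (σ₀.restrictScalars L) with hB
  set XX : K := algebraMap F[X] K D * (xj - xi) * ∏ β' ∈ Z, (xi - algebraMap F[X] K (C β')) with hXX
  have hsq : (rho (algebraMap F[X] Ω D * θ) B * b θ) ^ 2 = algebraMap K Ω XX := by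
    rw [mul_pow, h.loc.rho_half hW hg hdeg h2B hxi, hr.descy.sq _ hxi, hXX, map_mul, map_mul,
      map_sub, map_prod, ← IsScalarTower.algebraMap_apply]
    congr 1
    apply Finset.prod_congr rfl
    intro β' _
    rw [map_sub, ← IsScalarTower.algebraMap_apply]
  have hoth : ∀ β' : F, β' ≠ βi → w (xi - algebraMap F[X] K (C β')) = 1 := by
    intro β' hne
    exact ((cg_of_near hni).sub (IsOver.cg_const (w := w) β')).one h.isOver
      (sub_ne_zero.mpr (Ne.symm hne))
  obtain ⟨hne, hlg⟩ := lg_root_prod w hni hoth Z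
  rw [if_pos hZi] at hlg
  have hprod0 : (∏ β' ∈ Z, (xi - algebraMap F[X] K (C β'))) ≠ 0 :=
    Finset.prod_ne_zero_iff.mpr fun β' _ => hne β'
  have hdK : algebraMap F[X] K D ≠ 0 := by
    intro h0
    apply hd0
    rw [IsScalarTower.algebraMap_apply F[X] K Ω, h0, map_zero]
  have hwji : w (xj - xi) = 1 := h.loc.diff _ _ hxj hxi (Ne.symm hxij)
  have hji0 : xj - xi ≠ 0 := sub_ne_zero.mpr (Ne.symm hxij)
  have hXX0 : XX ≠ 0 := mul_ne_zero (mul_ne_zero hdK hji0) hprod0
  have hXXe : Even (lg w XX) := by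
    rw [hXX, lg_mul w (mul_ne_zero hdK hji0) hprod0, lg_mul w hdK hji0, hlg,
      lg_eq_zero_of w hwji, add_zero]
    exact h.loc.odd.add_odd (by decide)
  obtain ⟨n, hn⟩ := exists_rational_sqrt w h.loc.unif h.loc.sqrt hXX0 hXXe hsq
  have hn2 : n ^ 2 = XX := by
    apply (algebraMap K Ω).injective
    rw [map_pow, hn, hsq]
  -- the normalised element
  set π : K := algebraMap F[X] K (X - C α) with hπdef
  have hγπ : γ (algebraMap K Ω π) = algebraMap K Ω π := by
    rw [hπdef, ← IsScalarTower.algebraMap_apply, h.γ_poly, Polynomial.map_sub, Polynomial.map_X,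
      Polynomial.map_C, h.α_fix]
  have hcore' : γ (algebraMap K Ω (n / π)) =
      (if βi ∈ Z' then -1 else 1) * algebraMap K Ω (n / π) := by
    rw [map_div₀, map_div₀, hγπ, hn, hcore]
    ring
  have hPZ : PZ g D Z βi = pb * -(derivative D).eval α := by
    rw [PZ, if_pos hZi, ei, hpb, ei]
  rw [hPZ]
  have huj : xi - algebraMap F[X] K (C βj) ≠ 0 := hne βj
  have hwj : w (xi - algebraMap F[X] K (C βj)) = 1 := hoth βj (Ne.symm hij)
  have hkey : (n / π) ^ 2 * (xi - algebraMap F[X] K (C βj)) =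
      algebraMap F[X] K D₁ * (xj - xi) * px := by
    have e1 : algebraMap F[X] K D = π * algebraMap F[X] K D₁ := by
      rw [hπdef, ← map_mul, ← hD₁]
    rw [div_pow, hn2, hXX, hsplit, e1, div_mul_eq_mul_div, div_eq_iff (pow_ne_zero 2 hπ0)]
    linear_combination (-(π * algebraMap F[X] K D₁ * (xj - xi) * px)) * hπ
  apply h.final h2F _ _ hcore'
  · exact mul_ne_zero hp0 (neg_ne_zero.mpr hD')
  · have h5 : Cg w (algebraMap F[X] K D₁ * (xj - xi) * px - algebraMap F[X] K
        (C (pb * -(derivative D).eval α)) * (xi - algebraMap F[X] K (C βj)))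
        (D₁.eval α * (βj - βi) * pb - (pb * -(derivative D).eval α) * (βi - βj)) := by
      apply Cg.sub
      · exact ((Cg.poly h.isOver D₁).mul h.isOver
          ((cg_of_near hnj).sub (cg_of_near hni))).mul h.isOver hcp
      · exact (IsOver.cg_const (w := w) _).mul h.isOver
          ((cg_of_near hni).sub (IsOver.cg_const (w := w) βj))
    rw [hD₁α, show (derivative D).eval α * (βj - βi) * pb -
      (pb * -(derivative D).eval α) * (βi - βj) = 0 by ring, ← hkey, ← sub_mul] at h5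
    unfold Cg at h5 ⊢
    rw [C_0, map_zero, sub_zero, map_mul, hwj, mul_one] at h5
    exact h5

/-- The product of the three values of `PZ` over a fibre is the square of a fixed element. -/
lemma prod_PZ {F : Type*} [Field F] [IsAlgClosed F] {g D : F[X]} {Z : Finset F} {τ : F →+* F}
    {α βi βj βl : F} (hij : βi ≠ βj) (hil : βi ≠ βl) (hjl : βj ≠ βl)
    (hfac : g - C α = (X - C βi) * (X - C βj) * (X - C βl))
    (heven : ∀ α, Even (Z.filter fun β => g.eval β = α).card) (hZ : ∀ β ∈ Z, τ β = β)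
    (hg : g.map τ = g) (hD : D.map τ = D) (hα : τ α = α) :
    ∃ E, τ E = E ∧ PZ g D Z βi * PZ g D Z βj * PZ g D Z βl = E ^ 2 := by
  have hev : ∀ β, g.eval β - α = (β - βi) * (β - βj) * (β - βl) := by
    intro β
    have := congrArg (fun p => p.eval β) hfac
    simpa using this
  have ei : g.eval βi = α := by
    have := hev βi
    rw [sub_self, zero_mul, zero_mul] at this
    exact sub_eq_zero.mp this
  have ej : g.eval βj = α := by
    have := hev βj
    rw [sub_self, mul_zero, zero_mul] at this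
    exact sub_eq_zero.mp this
  have el : g.eval βl = α := by
    have := hev βl
    rw [sub_self, mul_zero] at this
    exact sub_eq_zero.mp this
  have hτev : ∀ (p : F[X]) (x : F), p.map τ = p → τ x = x → τ (p.eval x) = p.eval x := by
    intro p x hp hx
    have := eval₂_hom (p := p) τ x
    rw [← this, ← eval_map, hp, hx]
  set Zf := Z.filter (fun β => g.eval β ≠ α) with hZf
  set d := -(derivative D).eval α with hd
  have hτd : τ d = d := by
    rw [hd, map_neg, hτev (derivative D) α (by rw [← derivative_map, hD]) hα]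
  -- the part away from the fibre
  have hevenf : ∀ a, Even (Zf.filter fun β => g.eval β = a).card := by
    intro a
    by_cases ha : a = α
    · subst ha
      have : Zf.filter (fun β => g.eval β = a) = ∅ := by
        apply Finset.filter_false_of_mem
        intro β hβ
        rw [hZf, Finset.mem_filter] at hβ
        exact hβ.2
      rw [this]
      exact ⟨0, rfl⟩
    · have : Zf.filter (fun β => g.eval β = a) = Z.filter (fun β => g.eval β = a) := by
        rw [hZf, Finset.filter_filter]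
        apply Finset.filter_congr
        intro β _
        constructor
        · exact fun h => h.2
        · intro h
          exact ⟨by rw [h]; exact ha, h⟩
      rw [this]
      exact heven a
  set E₁ : F := ∏ a ∈ Zf.image (fun β => g.eval β),
    (α - a) ^ ((Zf.filter fun β => g.eval β = a).card / 2) with hE₁
  have hτE₁ : τ E₁ = E₁ := by
    rw [hE₁, map_prod]
    apply Finset.prod_congr rfl
    intro a ha
    obtain ⟨β, hβ, rfl⟩ := Finset.mem_image.mp ha
    have hβZ : β ∈ Z := (Finset.mem_filter.mp hβ).1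
    rw [map_pow, map_sub, hα, hτev g β hg (hZ β hβZ)]
  have hprod : (∏ β ∈ Zf, (βi - β)) * (∏ β ∈ Zf, (βj - β)) * (∏ β ∈ Zf, (βl - β)) = E₁ ^ 2 := by
    rw [← Finset.prod_mul_distrib, ← Finset.prod_mul_distrib, hE₁,
      ← prod_even_fibres Zf (fun β => g.eval β) (fun a => α - a) hevenf]
    apply Finset.prod_congr rfl
    intro β _
    linear_combination hev β
  -- the part in the fibre
  have hfib : Z.filter (fun β => g.eval β = α) =
      ({βi, βj, βl} : Finset F).filter (fun β => β ∈ Z) := by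
    ext β
    simp only [Finset.mem_filter, Finset.mem_insert, Finset.mem_singleton]
    constructor
    · rintro ⟨h1, h3⟩
      refine ⟨?_, h1⟩
      have h4 := hev β
      rw [h3, sub_self, eq_comm, mul_eq_zero, mul_eq_zero] at h4
      rcases h4 with (h4 | h4) | h4
      · exact Or.inl (sub_eq_zero.mp h4)
      · exact Or.inr (Or.inl (sub_eq_zero.mp h4))
      · exact Or.inr (Or.inr (sub_eq_zero.mp h4))
    · rintro ⟨h1, h3⟩
      refine ⟨h3, ?_⟩
      rcases h1 with rfl | rfl | rfl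
      · exact ei
      · exact ej
      · exact el
  have hpar := heven α
  rw [hfib] at hpar
  obtain ⟨e, hτe, he⟩ : ∃ e, τ e = e ∧ (if βi ∈ Z then d else 1) * (if βj ∈ Z then d else 1) *
      (if βl ∈ Z then d else 1) = e ^ 2 := by
    by_cases hi : βi ∈ Z <;> by_cases hj : βj ∈ Z <;> by_cases hl : βl ∈ Z
    all_goals simp only [Finset.filter_insert, Finset.filter_singleton, hi, hj, hl, if_true,
      if_false] at hpar ⊢
    · rw [Finset.card_insert_of_notMem (by simp [hij, hil]),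
        Finset.card_insert_of_notMem (by simp [hjl]), Finset.card_singleton] at hpar
      exact absurd hpar (by decide)
    · exact ⟨d, hτd, by ring⟩
    · exact ⟨d, hτd, by ring⟩
    · rw [Finset.card_insert_of_notMem (by simp)] at hpar
      simp at hpar
    · exact ⟨d, hτd, by ring⟩
    · rw [Finset.card_insert_of_notMem (by simp)] at hpar
      simp at hpar
    · rw [Finset.card_singleton] at hpar
      exact absurd hpar (by decide)
    · exact ⟨1, map_one τ, by ring⟩
  refine ⟨E₁ * e, by rw [map_mul, hτE₁, hτe], ?_⟩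
  rw [PZ, PZ, PZ, ei, ej, el, mul_pow, ← hprod, ← he]
  ring

lemma map_PZ {F : Type*} [Field F] {g D : F[X]} {Z : Finset F} {τ : F →+* F}
    {β' : F} (hZ : ∀ β ∈ Z, τ β = β) (hβ' : τ β' = β')
    (hg : g.map τ = g) (hD : D.map τ = D) : τ (PZ g D Z β') = PZ g D Z β' := by
  have hτev : ∀ (p : F[X]) (x : F), p.map τ = p → τ x = x → τ (p.eval x) = p.eval x := by
    intro p x hp hx
    have := eval₂_hom (p := p) τ x
    rw [← this, ← eval_map, hp, hx]
  rw [PZ, map_mul, map_prod]
  congr 1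
  · apply Finset.prod_congr rfl
    intro β hβ
    rw [map_sub, hβ', hZ β (Finset.mem_filter.mp hβ).1]
  · split_ifs
    · rw [map_neg, hτev (derivative D) _ (by rw [← derivative_map, hD]) (hτev g β' hg hβ')]
    · rw [map_one]

lemma PZ_ne_zero {F : Type*} [Field F] {g D : F[X]} {Z : Finset F}
    {β' : F} (hD' : (derivative D).eval (g.eval β') ≠ 0) : PZ g D Z β' ≠ 0 := by
  rw [PZ]
  apply mul_ne_zero
  · apply Finset.prod_ne_zero_iff.mpr
    intro β hβ
    apply sub_ne_zero.mpr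
    rintro rfl
    rw [Finset.mem_filter] at hβ
    exact hβ.2 rfl
  · split_ifs
    · exact neg_ne_zero.mpr hD'
    · exact one_ne_zero

/-- Parity of the intersection of a set with a fibre. -/
lemma mem_parity {F : Type*} [Field F] {g : F[X]} {Z : Finset F}
    {α βi βj βl : F} (hij : βi ≠ βj) (hil : βi ≠ βl) (hjl : βj ≠ βl)
    (hfac : g - C α = (X - C βi) * (X - C βj) * (X - C βl))
    (heven : Even (Z.filter fun β => g.eval β = α).card) :
    βj ∈ Z ↔ ¬ (βi ∈ Z ↔ βl ∈ Z) := by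
  have hev : ∀ β, g.eval β - α = (β - βi) * (β - βj) * (β - βl) := by
    intro β
    have := congrArg (fun p => p.eval β) hfac
    simpa using this
  have ei : g.eval βi = α := by
    have := hev βi
    rw [sub_self, zero_mul, zero_mul] at this
    exact sub_eq_zero.mp this
  have ej : g.eval βj = α := by
    have := hev βj
    rw [sub_self, mul_zero, zero_mul] at this
    exact sub_eq_zero.mp this
  have el : g.eval βl = α := by
    have := hev βl
    rw [sub_self, mul_zero] at this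
    exact sub_eq_zero.mp this
  have hfib : Z.filter (fun β => g.eval β = α) =
      ({βi, βj, βl} : Finset F).filter (fun β => β ∈ Z) := by
    ext β
    simp only [Finset.mem_filter, Finset.mem_insert, Finset.mem_singleton]
    constructor
    · rintro ⟨h1, h3⟩
      refine ⟨?_, h1⟩
      have h4 := hev β
      rw [h3, sub_self, eq_comm, mul_eq_zero, mul_eq_zero] at h4
      rcases h4 with (h4 | h4) | h4
      · exact Or.inl (sub_eq_zero.mp h4)
      · exact Or.inr (Or.inl (sub_eq_zero.mp h4))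
      · exact Or.inr (Or.inr (sub_eq_zero.mp h4))
    · rintro ⟨h1, h3⟩
      refine ⟨h3, ?_⟩
      rcases h1 with rfl | rfl | rfl
      · exact ei
      · exact ej
      · exact el
  rw [hfib] at heven
  by_cases hi : βi ∈ Z <;> by_cases hj : βj ∈ Z <;> by_cases hl : βl ∈ Z
  all_goals simp only [Finset.filter_insert, Finset.filter_singleton, hi, hj, hl, if_true,
    if_false] at heven ⊢
  all_goals try tauto
  · exfalso
    rw [Finset.card_insert_of_notMem (by simp [hij, hil]),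
      Finset.card_insert_of_notMem (by simp [hjl]), Finset.card_singleton] at heven
    exact absurd heven (by decide)
  · exfalso
    rw [Finset.card_insert_of_notMem (by simp)] at heven
    simp at heven
  · exfalso
    rw [Finset.card_insert_of_notMem (by simp)] at heven
    simp at heven
  · exfalso
    rw [Finset.card_singleton] at heven
    exact absurd heven (by decide)

end Tower

end Pool.Agent.Lib.MP_89bcae_ag

end

section

/-!
# An automorphism which acts on the roots of a polynomial as Frobenius on the roots of its reduction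
-/

open Polynomial

namespace Pool.Agent.Lib.MP_89bcae_ag

set_option linter.unusedSectionVars false
set_option linter.style.haveILetI false

variable {R K F κ Fκ : Type*} [CommRing R] [IsDomain R] [IsIntegrallyClosed R] [Field K]
  [Algebra R K] [IsFractionRing R K] [Field F] [Algebra K F] [Algebra R F] [IsScalarTower R K F]
  [IsAlgClosed F] [Algebra.IsAlgebraic K F]
  [Field κ] [Fintype κ] [Field Fκ] [Algebra κ Fκ] [Algebra.IsAlgebraic κ Fκ] [IsAlgClosed Fκ]

/-- A root of a polynomial with invertible leading coefficient is integral. -/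
lemma integral_root14 {f : R[X]} (hu : IsUnit f.leadingCoeff) {x : F} (hx : aeval x f = 0) :
    IsIntegral R x := by
  obtain ⟨u, hu⟩ := hu
  refine ⟨C (↑u⁻¹ : R) * f, ?_, ?_⟩
  · rw [Monic, leadingCoeff_mul, leadingCoeff_C, ← hu]
    exact u.inv_mul
  · rw [eval₂_mul]
    change _ * aeval x f = 0
    rw [hx, mul_zero]

/-- The reduction of a root is a root. -/
lemma red_root14 {π : R →+* κ} {ρ : integralClosure R F →+* Fκ}
    (hρ : ∀ r, ρ (algebraMap R (integralClosure R F) r) = algebraMap κ Fκ (π r))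
    {f : R[X]} {x : F} (hi : IsIntegral R x) (hx : aeval x f = 0) :
    aeval (ρ ⟨x, hi⟩) (f.map π) = 0 := by
  have h1 : aeval (⟨x, hi⟩ : integralClosure R F) f = 0 := by
    apply Subtype.ext
    have h2 : ((aeval (⟨x, hi⟩ : integralClosure R F) f : integralClosure R F) : F) = aeval x f := by
      rw [← Subalgebra.coe_val, ← aeval_algHom_apply]
      rfl
    rw [h2, hx]
    rfl
  rw [aeval_def, eval₂_map]
  have h2 : (algebraMap κ Fκ).comp π = ρ.comp (algebraMap R (integralClosure R F)) :=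
    RingHom.ext fun r => (hρ r).symm
  rw [h2, ← hom_eval₂]
  change ρ (aeval (⟨x, hi⟩ : integralClosure R F) f) = 0
  rw [h1, map_zero]

variable (F) in
/-- The polynomial is separable if its reduction is. -/
lemma separable_of_red14 [FaithfulSMul R F] {π : R →+* κ} (hπ : Function.Surjective π) {f : R[X]}
    (hu : IsUnit f.leadingCoeff) (hs : (f.map π).Separable) :
    (f.map (algebraMap R K)).Separable := by
  obtain ⟨ρ, hρ⟩ := exists_red14 (F := F) (Fκ := AlgebraicClosure κ) π hπ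
  rw [← separable_map (algebraMap K F), Polynomial.map_map, ← IsScalarTower.algebraMap_eq,
    Polynomial.Separable, isCoprime_iff_aeval_ne_zero_of_isAlgClosed (k := F) F]
  intro a
  by_contra hcon
  push Not at hcon
  obtain ⟨h1, h2⟩ := hcon
  rw [← eval_map_algebraMap, Polynomial.map_map, Algebra.algebraMap_self, RingHom.id_comp,
    eval_map_algebraMap] at h1
  rw [derivative_map, ← eval_map_algebraMap, Polynomial.map_map, Algebra.algebraMap_self,
    RingHom.id_comp, eval_map_algebraMap] at h2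
  have hi := integral_root14 hu h1
  have h3 := red_root14 hρ hi h1
  have h4 := red_root14 hρ hi h2
  rw [← derivative_map] at h4
  obtain ⟨a', b', hab⟩ := hs
  have h5 := congrArg (aeval (ρ ⟨a, hi⟩)) hab
  rw [map_add, map_mul, map_mul, h3, h4, mul_zero, mul_zero, add_zero, map_one] at h5
  exact zero_ne_one h5

/-- A reduction map and a root with a given reduction. -/
lemma exists_root_red14 [FaithfulSMul R F] {π : R →+* κ} (hπ : Function.Surjective π) {f : R[X]}
    (hu : IsUnit f.leadingCoeff) (hirr : Irreducible (f.map π)) {β' : Fκ}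
    (hβ' : aeval β' (f.map π) = 0) :
    ∃ (ρ : integralClosure R F →+* Fκ) (β : F) (hi : IsIntegral R β),
      (∀ r, ρ (algebraMap R (integralClosure R F) r) = algebraMap κ Fκ (π r)) ∧
      aeval β f = 0 ∧ ρ ⟨β, hi⟩ = β' := by
  obtain ⟨ρ, hρ⟩ := exists_red14 (F := F) (Fκ := Fκ) π hπ
  have hdeg : (f.map (algebraMap R F)).degree ≠ 0 := by
    have h1 : (f.map (algebraMap R F)).natDegree = f.natDegree :=
      natDegree_map_eq_of_injective (FaithfulSMul.algebraMap_injective R F) f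
    have h2 : 0 < f.natDegree := lt_of_lt_of_le hirr.natDegree_pos natDegree_map_le
    intro h3
    have h4 := natDegree_eq_zero_iff_degree_le_zero.mpr h3.le
    omega
  obtain ⟨β, hβ⟩ := IsAlgClosed.exists_root _ hdeg
  have hβ2 : aeval β f = 0 := by
    rw [IsRoot.def, eval_map_algebraMap] at hβ
    exact hβ
  have hi := integral_root14 hu hβ2
  obtain ⟨m, -, hm⟩ := exists_frob8_pow hirr hβ' (red_root14 hρ hi hβ2)
  refine ⟨(((frob8 κ Fκ ^ m)⁻¹ : Fκ ≃ₐ[κ] Fκ) : Fκ →+* Fκ).comp ρ, β, hi, fun r => ?_, hβ2, ?_⟩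
  · rw [RingHom.comp_apply, hρ]
    exact AlgEquiv.commutes _ _
  · rw [RingHom.comp_apply, hm]
    change ((frob8 κ Fκ ^ m)⁻¹ * (frob8 κ Fκ ^ m)) β' = β'
    rw [inv_mul_cancel]
    rfl

open scoped Classical in
/-- **The automorphism.** -/
theorem frob_spec14 {π : R →+* κ} (hπ : Function.Surjective π) (h2 : (2 : κ) ≠ 0) {f : R[X]}
    (hu : IsUnit f.leadingCoeff) {N : ℕ} (hN : f.natDegree = N) (hirr : Irreducible (f.map π))
    {β' : Fκ} (hβ' : aeval β' (f.map π) = 0) :
    ∃ (φ : F ≃ₐ[K] F) (β : F), aeval β f = 0 ∧ (∀ γ : F, aeval γ f = 0 → ∃ i, (φ ^ i) β = γ) ∧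
      (∀ i, (φ ^ i) β = β ↔ N ∣ i) ∧
      ∀ i j : ℕ, Moves (fun x => (frob8 κ Fκ ^ N) x)
          (((frob8 κ Fκ ^ i) β' - β') * ((frob8 κ Fκ ^ i) β' - (frob8 κ Fκ ^ j) β')) →
        Moves (fun x => (φ ^ N) x) (((φ ^ i) β - β) * ((φ ^ i) β - (φ ^ j) β)) := by
  have hinjR : Function.Injective (algebraMap R F) := by
    rw [IsScalarTower.algebraMap_eq R K F]
    exact (algebraMap K F).injective.comp (IsFractionRing.injective R K)
  have hfaith : FaithfulSMul R F := (faithfulSMul_iff_algebraMap_injective R F).mpr hinjR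
  obtain ⟨ρ, β, hi, hρ, hβ, hρβ⟩ := exists_root_red14 (F := F) hπ hu hirr hβ'
  have hsepκ : (f.map π).Separable := PerfectField.separable_of_irreducible hirr
  have hsep : (f.map (algebraMap R K)).Separable := separable_of_red14 F hπ hu hsepκ
  have h2F : (2 : F) ≠ 0 := by
    intro h0
    have h1 : (2 : R) = 0 := hinjR (by rw [map_ofNat, map_zero]; exact h0)
    apply h2
    rw [← map_ofNat π, h1, map_zero]
  have hf0 : f ≠ 0 := by
    rintro rfl
    rw [Polynomial.map_zero] at hirr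
    exact hirr.ne_zero rfl
  have hfF0 : f.map (algebraMap R F) ≠ 0 := (Polynomial.map_ne_zero_iff hinjR).mpr hf0
  -- the roots
  set B : Finset F := (f.map (algebraMap R F)).roots.toFinset with hB
  have hmemB : ∀ γ, γ ∈ B ↔ aeval γ f = 0 := by
    intro γ
    rw [hB, Multiset.mem_toFinset, mem_roots hfF0, IsRoot.def, eval_map_algebraMap]
  have hBsep : ∀ γ ∈ B, γ ∈ separableClosure K F := by
    intro γ hγ
    rw [mem_separableClosure_iff]
    apply Separable.of_dvd hsep
    apply minpoly.dvd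
    rw [aeval_map_algebraMap]
    exact (hmemB γ).mp hγ
  have hBint : ∀ γ ∈ B, IsIntegral R γ := fun γ hγ => integral_root14 hu ((hmemB γ).mp hγ)
  -- the square roots
  have hsq : ∀ x : F, ∃ y, y ^ 2 = x := fun x => IsAlgClosed.exists_pow_nat_eq x (by norm_num)
  choose sq hsq using hsq
  let T : Finset F := (B ×ˢ (B ×ˢ B)).image fun p => sq ((p.1 - p.2.1) * (p.1 - p.2.2))
  obtain ⟨φ, M, hSM, hM⟩ := exists_frob_lift14 (κ := κ) π hπ ρ hρ (B ∪ T) (by
    intro x hx
    rw [Finset.mem_union] at hx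
    rcases hx with hx | hx
    · exact mem_separableClosure_iff.mp (hBsep x hx)
    · rw [Finset.mem_image] at hx
      obtain ⟨⟨a, b, c⟩, hp, rfl⟩ := hx
      rw [Finset.mem_product, Finset.mem_product] at hp
      obtain ⟨ha, hb, hc⟩ := hp
      set x := (a - b) * (a - c) with hx
      have hxs : x ∈ separableClosure K F :=
        mul_mem (sub_mem (hBsep a ha) (hBsep b hb)) (sub_mem (hBsep a ha) (hBsep c hc))
      by_cases hx0 : x = 0
      · have h3 : sq x = 0 := by
          have := hsq x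
          rw [hx0] at this ⊢
          exact pow_eq_zero_iff (two_ne_zero) |>.mp this
        change IsSeparable K (sq x)
        rw [h3]
        exact mem_separableClosure_iff.mp (zero_mem _)
      · change IsSeparable K (sq x)
        apply IsSeparable.of_algebra_isSeparable_of_isSeparable K (E := separableClosure K F)
        have h3 : (X ^ 2 - C (⟨x, hxs⟩ : separableClosure K F)).Separable := by
          apply separable_X_pow_sub_C
          · intro h4
            apply h2F
            have h5 := congrArg (algebraMap (separableClosure K F) F) h4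
            rw [map_natCast, map_zero] at h5
            exact_mod_cast h5
          · intro h4
            exact hx0 (congrArg Subtype.val h4)
        apply Separable.of_dvd h3
        apply minpoly.dvd
        rw [map_sub, map_pow, aeval_X, aeval_C, hsq]
        exact sub_self _)
  have hMi : ∀ (i : ℕ) (x : F), x ∈ M → ∀ hx : IsIntegral R x, (φ ^ i) x ∈ M ∧
      ∃ hx' : IsIntegral R ((φ ^ i) x), ρ ⟨(φ ^ i) x, hx'⟩ = (frob8 κ Fκ ^ i) (ρ ⟨x, hx⟩) := by
    intro i
    induction i with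
    | zero => exact fun x hxM hx => ⟨hxM, hx, rfl⟩
    | succ i ih =>
      intro x hxM hx
      obtain ⟨h3, h4, h5⟩ := ih x hxM hx
      obtain ⟨h6, h7⟩ := hM _ h3
      obtain ⟨h8, h9⟩ := h7 h4
      have h10 : (φ ^ (i + 1)) x = φ ((φ ^ i) x) := by rw [pow_succ', AlgEquiv.mul_apply]
      refine ⟨by rw [h10]; exact h6, by rw [h10]; exact h8, ?_⟩
      have h11 : ρ ⟨(φ ^ (i + 1)) x, by rw [h10]; exact h8⟩ = ρ ⟨φ ((φ ^ i) x), h8⟩ := by
        congr 1
        exact Subtype.ext h10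
      rw [h11, h9, h5, pow_succ' (frob8 κ Fκ), AlgEquiv.mul_apply, frob8_apply,
        Nat.card_eq_fintype_card]
  have hβB : β ∈ B := (hmemB β).mpr hβ
  have hβM : β ∈ M := hSM β (Finset.mem_union_left _ hβB)
  have hroot : ∀ i, (φ ^ i) β ∈ B := by
    intro i
    rw [hmemB]
    have h3 : aeval ((φ ^ i) β) (f.map (algebraMap R K)) = 0 := by
      rw [← AlgEquiv.coe_toAlgHom (φ ^ i), aeval_algHom_apply, aeval_map_algebraMap, hβ, map_zero]
    rwa [aeval_map_algebraMap] at h3
  have hred : ∀ i, ρ ⟨(φ ^ i) β, hBint _ (hroot i)⟩ = (frob8 κ Fκ ^ i) β' := by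
    intro i
    obtain ⟨-, h4, h5⟩ := hMi i β hβM hi
    rw [h5, hρβ]
  have hdegκ : (f.map π).natDegree = N := by
    rw [← hN]
    exact natDegree_map_of_leadingCoeff_ne_zero π (hu.map π).ne_zero
  have hmin : (minpoly κ β').natDegree = N := by
    rw [← minpoly.eq_of_irreducible hirr hβ', natDegree_mul_leadingCoeff_inv _ hirr.ne_zero, hdegκ]
  have hiff : ∀ i, (frob8 κ Fκ ^ i) β' = β' ↔ N ∣ i := fun i => by
    rw [frob8_pow_eq_iff, hmin]
  have hBcard : B.card ≤ N := by
    rw [← hN, ← natDegree_map_eq_of_injective hinjR f]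
    exact (Multiset.toFinset_card_le _).trans (card_roots' _)
  -- the orbit
  have horb : ∀ γ ∈ B, ∃ i < N, (φ ^ i) β = γ := by
    have h3 : ((Finset.range N).image fun i => (φ ^ i) β) = B := by
      apply Finset.eq_of_subset_of_card_le
      · intro γ hγ
        rw [Finset.mem_image] at hγ
        obtain ⟨i, -, rfl⟩ := hγ
        exact hroot i
      · rw [Finset.card_image_of_injOn, Finset.card_range]
        · exact hBcard
        · intro a ha b hb hab
          have ha' := Finset.mem_range.mp ha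
          have hb' := Finset.mem_range.mp hb
          have h4 : (frob8 κ Fκ ^ a) β' = (frob8 κ Fκ ^ b) β' := by
            rw [← hred, ← hred]
            congr 1
            exact Subtype.ext hab
          wlog hle : a ≤ b generalizing a b
          · exact (this hb ha hab.symm hb' ha' h4.symm (by omega)).symm
          have h5 : (frob8 κ Fκ ^ (b - a)) β' = β' := by
            apply (frob8 κ Fκ ^ a).injective
            rw [← AlgEquiv.mul_apply, ← pow_add, Nat.add_sub_cancel' hle]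
            exact h4.symm
          rw [hiff] at h5
          have := Nat.eq_zero_of_dvd_of_lt h5 (by omega)
          omega
    intro γ hγ
    rw [← h3, Finset.mem_image] at hγ
    obtain ⟨i, hi, hiγ⟩ := hγ
    exact ⟨i, Finset.mem_range.mp hi, hiγ⟩
  refine ⟨φ, β, hβ, fun γ hγ => ?_, fun i => ?_, fun i j hm s hs hsφ => ?_⟩
  · obtain ⟨i, -, hi⟩ := horb γ ((hmemB γ).mpr hγ)
    exact ⟨i, hi⟩
  · have hper : (φ ^ N) β = β := by
      obtain ⟨i, hiN, hi'⟩ := horb _ (hroot N)
      have h3 : (frob8 κ Fκ ^ i) β' = (frob8 κ Fκ ^ N) β' := by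
        rw [← hred, ← hred]
        congr 1
        exact Subtype.ext hi'
      rw [(hiff N).mpr dvd_rfl, hiff] at h3
      have h4 := Nat.eq_zero_of_dvd_of_lt h3 hiN
      rw [h4, pow_zero] at hi'
      exact hi'.symm
    constructor
    · intro h3
      rw [← hiff, ← hred, ← hρβ]
      congr 1
      exact Subtype.ext h3
    · rintro ⟨m, rfl⟩
      induction m with
      | zero => rfl
      | succ m ih => rw [Nat.mul_succ, pow_add, AlgEquiv.mul_apply, hper, ih]
  · -- the square roots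
    set x := ((φ ^ i) β - β) * ((φ ^ i) β - (φ ^ j) β) with hx
    have h3 : (φ ^ N) (sq x) = sq x := by
      have h4 : s ^ 2 = sq x ^ 2 := by rw [hs, hsq]
      rcases sq_eq_sq_iff_eq_or_eq_neg.mp h4 with h5 | h5
      · rw [← h5]
        exact hsφ
      · change (φ ^ N) s = s at hsφ
        rw [h5, map_neg] at hsφ
        exact neg_injective hsφ
    have h4 : sq x ∈ M := by
      apply hSM
      apply Finset.mem_union_right
      rw [Finset.mem_image]
      refine ⟨((φ ^ i) β, β, (φ ^ j) β), ?_, rfl⟩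
      rw [Finset.mem_product, Finset.mem_product]
      exact ⟨hroot i, hβB, hroot j⟩
    have h5 : IsIntegral R (sq x) := by
      apply IsIntegral.of_pow (n := 2) (by norm_num)
      rw [hsq]
      exact ((hBint _ (hroot i)).sub hi).mul ((hBint _ (hroot i)).sub (hBint _ (hroot j)))
    obtain ⟨-, h6, h7⟩ := hMi N _ h4 h5
    refine hm (ρ ⟨sq x, h5⟩) ?_ ?_
    · rw [← map_pow, ← hred i, ← hred j, ← hρβ, ← map_sub, ← map_sub, ← map_mul]
      congr 1
      exact Subtype.ext (hsq x)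
    · change (frob8 κ Fκ ^ N) (ρ ⟨sq x, h5⟩) = ρ ⟨sq x, h5⟩
      rw [← h7]
      congr 1
      exact Subtype.ext h3

end Pool.Agent.Lib.MP_89bcae_ag

end

section

/-!
# Frobenius elements and the action of the Galois group on the pairs of roots
-/

open Polynomial

namespace Pool.Agent.Lib.MP_89bcae_ag

set_option linter.unusedSectionVars false
set_option linter.style.haveILetI false

section Lift

variable {R K F κ Fκ : Type*} [CommRing R] [IsDomain R] [IsIntegrallyClosed R] [Field K]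
  [Algebra R K] [IsFractionRing R K] [Field F] [Algebra K F] [Algebra R F] [IsScalarTower R K F]
  [IsAlgClosed F] [Algebra.IsAlgebraic K F]
  [Field κ] [Fintype κ] [Field Fκ] [Algebra κ Fκ] [Algebra.IsAlgebraic κ Fκ] [IsAlgClosed Fκ]

/-- Two roots with the same reduction, which is a simple root of the reduced polynomial, are
equal. -/
lemma eq_of_red14 {π : R →+* κ} {ρ : integralClosure R F →+* Fκ}
    (hρ : ∀ r, ρ (algebraMap R (integralClosure R F) r) = algebraMap κ Fκ (π r))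
    {f : R[X]} {x y : F} (hx : IsIntegral R x) (hy : IsIntegral R y) (hfx : aeval x f = 0)
    (hfy : aeval y f = 0) (hxy : ρ ⟨x, hx⟩ = ρ ⟨y, hy⟩)
    (hs : aeval (ρ ⟨x, hx⟩) (derivative (f.map π)) ≠ 0) : x = y := by
  by_contra hne
  apply hs
  have hev : ∀ z : integralClosure R F, ((aeval z f : integralClosure R F) : F) =
      aeval (z : F) f := by
    intro z
    rw [← Subalgebra.coe_val, ← aeval_algHom_apply]
  have h1 : (f.map (algebraMap R (integralClosure R F))).IsRoot ⟨x, hx⟩ := by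
    rw [IsRoot.def, eval_map_algebraMap]
    exact Subtype.ext ((hev _).trans hfx)
  have h2 : (f.map (algebraMap R (integralClosure R F))).eval ⟨y, hy⟩ = 0 := by
    rw [eval_map_algebraMap]
    exact Subtype.ext ((hev _).trans hfy)
  obtain ⟨q, hq⟩ := dvd_iff_isRoot.mpr h1
  have h3 : q.eval ⟨y, hy⟩ = 0 := by
    rw [hq, eval_mul, eval_sub, eval_X, eval_C] at h2
    rcases mul_eq_zero.mp h2 with h | h
    · exact absurd (congrArg Subtype.val (sub_eq_zero.mp h)).symm hne
    · exact h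
  have hcomp : (algebraMap κ Fκ).comp π = ρ.comp (algebraMap R (integralClosure R F)) :=
    RingHom.ext fun r => (hρ r).symm
  have h4 : (f.map π).map (algebraMap κ Fκ) = (X - C (ρ ⟨x, hx⟩)) * q.map ρ := by
    rw [Polynomial.map_map, hcomp, ← Polynomial.map_map, hq, Polynomial.map_mul,
      Polynomial.map_sub, map_X, map_C]
  rw [← eval_map_algebraMap, ← derivative_map, h4, derivative_mul, derivative_sub, derivative_X,
    derivative_C, sub_zero, one_mul, eval_add, eval_mul, eval_sub, eval_X, eval_C, sub_self,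
    zero_mul, add_zero, hxy, eval_map, eval₂_at_apply, h3, map_zero]

/-- Every root of the reduced polynomial is the reduction of a root. -/
lemma exists_lift_root14 [FaithfulSMul R F] {π : R →+* κ} {ρ : integralClosure R F →+* Fκ}
    (hρ : ∀ r, ρ (algebraMap R (integralClosure R F) r) = algebraMap κ Fκ (π r))
    {f : R[X]} (hu : IsUnit f.leadingCoeff) {β : Fκ} (hβ : aeval β (f.map π) = 0) :
    ∃ (x : F) (hx : IsIntegral R x), aeval x f = 0 ∧ ρ ⟨x, hx⟩ = β := by
  classical
  have hinjR : Function.Injective (algebraMap R F) := FaithfulSMul.algebraMap_injective R F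
  have hf0 : f ≠ 0 := by
    rintro rfl
    rw [leadingCoeff_zero] at hu
    exact not_isUnit_zero hu
  have hfF0 : f.map (algebraMap R F) ≠ 0 := (Polynomial.map_ne_zero_iff hinjR).mpr hf0
  have hroot : ∀ x ∈ (f.map (algebraMap R F)).roots, aeval x f = 0 := by
    intro x hx
    rw [mem_roots hfF0, IsRoot.def, eval_map_algebraMap] at hx
    exact hx
  obtain ⟨s, hs⟩ : ∃ s : Multiset (integralClosure R F),
      s.map (fun z : integralClosure R F => (z : F)) = (f.map (algebraMap R F)).roots := by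
    refine ⟨(f.map (algebraMap R F)).roots.attach.map fun x =>
      ⟨x.1, integral_root14 hu (hroot x.1 x.2)⟩, ?_⟩
    rw [Multiset.map_map]
    exact Multiset.attach_map_val _
  have h1 : f.map (algebraMap R (integralClosure R F)) =
      C (algebraMap R (integralClosure R F) f.leadingCoeff) * (s.map fun z => X - C z).prod := by
    apply Polynomial.map_injective (algebraMap (integralClosure R F) F)
      (FaithfulSMul.algebraMap_injective _ _)
    rw [Polynomial.map_map, ← IsScalarTower.algebraMap_eq R (integralClosure R F) F,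
      Polynomial.map_mul, map_C, ← IsScalarTower.algebraMap_apply R (integralClosure R F) F]
    have h2 := (IsAlgClosed.splits (f.map (algebraMap R F))).eq_prod_roots
    rw [leadingCoeff_map_of_injective hinjR] at h2
    rw [Polynomial.map_multiset_prod, Multiset.map_map]
    conv_lhs => rw [h2, ← hs, Multiset.map_map]
    congr 3
    funext z
    simp only [Function.comp_apply, Polynomial.map_sub, map_X, map_C]
    rfl
  have hcomp : (algebraMap κ Fκ).comp π = ρ.comp (algebraMap R (integralClosure R F)) :=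
    RingHom.ext fun r => (hρ r).symm
  have h3 : (f.map π).map (algebraMap κ Fκ) =
      C (ρ (algebraMap R (integralClosure R F) f.leadingCoeff)) *
        (s.map fun z => X - C (ρ z)).prod := by
    rw [Polynomial.map_map, hcomp, ← Polynomial.map_map, h1, Polynomial.map_mul, map_C,
      Polynomial.map_multiset_prod, Multiset.map_map]
    congr 3
    funext z
    simp only [Function.comp_apply, Polynomial.map_sub, map_X, map_C]
  have h4 : (s.map fun z => β - ρ z).prod = 0 := by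
    rw [← eval_map_algebraMap, h3, eval_mul, eval_C, eval_multiset_prod, Multiset.map_map] at hβ
    rcases mul_eq_zero.mp hβ with h | h
    · rw [hρ, map_eq_zero] at h
      exact absurd h (hu.map π).ne_zero
    · rw [← h]
      congr 2
      funext z
      simp
  rw [Multiset.prod_eq_zero_iff, Multiset.mem_map] at h4
  obtain ⟨z, hz, hz0⟩ := h4
  refine ⟨z, z.2, ?_, (sub_eq_zero.mp hz0).symm⟩
  apply hroot
  rw [← hs]
  exact Multiset.mem_map_of_mem _ hz

/-- **The Frobenius element.** -/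
theorem exists_frob_roots14 {π : R →+* κ} (hπ : Function.Surjective π) {f : R[X]}
    (hu : IsUnit f.leadingCoeff) (hsep : (f.map (algebraMap R K)).Separable) :
    ∃ (ρ : integralClosure R F →+* Fκ) (φ : F ≃ₐ[K] F),
      (∀ r, ρ (algebraMap R (integralClosure R F) r) = algebraMap κ Fκ (π r)) ∧
      ∀ (i : ℕ) (x : F), aeval x f = 0 → ∀ hx : IsIntegral R x, aeval ((φ ^ i) x) f = 0 ∧
        ∃ hx' : IsIntegral R ((φ ^ i) x), ρ ⟨(φ ^ i) x, hx'⟩ = (frob8 κ Fκ ^ i) (ρ ⟨x, hx⟩) := by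
  classical
  have hinjR : Function.Injective (algebraMap R F) := by
    rw [IsScalarTower.algebraMap_eq R K F]
    exact (algebraMap K F).injective.comp (IsFractionRing.injective R K)
  have hfaith : FaithfulSMul R F := (faithfulSMul_iff_algebraMap_injective R F).mpr hinjR
  obtain ⟨ρ, hρ⟩ := exists_red14 (F := F) (Fκ := Fκ) π hπ
  have hf0 : f ≠ 0 := by
    rintro rfl
    rw [leadingCoeff_zero] at hu
    exact not_isUnit_zero hu
  have hfF0 : f.map (algebraMap R F) ≠ 0 := (Polynomial.map_ne_zero_iff hinjR).mpr hf0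
  set B : Finset F := (f.map (algebraMap R F)).roots.toFinset with hB
  have hmemB : ∀ γ, γ ∈ B ↔ aeval γ f = 0 := by
    intro γ
    rw [hB, Multiset.mem_toFinset, mem_roots hfF0, IsRoot.def, eval_map_algebraMap]
  obtain ⟨φ, M, hSM, hM⟩ := exists_frob_lift14 (κ := κ) π hπ ρ hρ B (by
    intro γ hγ
    apply Separable.of_dvd hsep
    apply minpoly.dvd
    rw [aeval_map_algebraMap]
    exact (hmemB γ).mp hγ)
  have hMi : ∀ (i : ℕ) (x : F), x ∈ M → ∀ hx : IsIntegral R x, (φ ^ i) x ∈ M ∧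
      ∃ hx' : IsIntegral R ((φ ^ i) x), ρ ⟨(φ ^ i) x, hx'⟩ = (frob8 κ Fκ ^ i) (ρ ⟨x, hx⟩) := by
    intro i
    induction i with
    | zero => exact fun x hxM hx => ⟨hxM, hx, rfl⟩
    | succ i ih =>
      intro x hxM hx
      obtain ⟨h3, h4, h5⟩ := ih x hxM hx
      obtain ⟨h6, h7⟩ := hM _ h3
      obtain ⟨h8, h9⟩ := h7 h4
      have h10 : (φ ^ (i + 1)) x = φ ((φ ^ i) x) := by rw [pow_succ', AlgEquiv.mul_apply]
      refine ⟨by rw [h10]; exact h6, by rw [h10]; exact h8, ?_⟩
      have h11 : ρ ⟨(φ ^ (i + 1)) x, by rw [h10]; exact h8⟩ = ρ ⟨φ ((φ ^ i) x), h8⟩ := by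
        congr 1
        exact Subtype.ext h10
      rw [h11, h9, h5, pow_succ' (frob8 κ Fκ), AlgEquiv.mul_apply, frob8_apply,
        Nat.card_eq_fintype_card]
  refine ⟨ρ, φ, hρ, fun i x hx hi => ⟨?_, (hMi i x (hSM x ((hmemB x).mpr hx)) hi).2⟩⟩
  have h3 : aeval ((φ ^ i) x) (f.map (algebraMap R K)) = 0 := by
    rw [← AlgEquiv.coe_toAlgHom (φ ^ i), aeval_algHom_apply, aeval_map_algebraMap, hx, map_zero]
  rwa [aeval_map_algebraMap] at h3

end Lift

section Types

variable {R K F κ : Type*} [CommRing R] [IsDomain R] [IsIntegrallyClosed R] [Field K]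
  [Algebra R K] [IsFractionRing R K] [Field F] [Algebra K F] [Algebra R F] [IsScalarTower R K F]
  [IsAlgClosed F] [Algebra.IsAlgebraic K F]
  [Field κ] [Fintype κ]

variable (K F) in
/-- **Type A.** -/
theorem frob_typeA14 {π : R →+* κ} (hπ : Function.Surjective π) {f : R[X]}
    (hu : IsUnit f.leadingCoeff) (hsep : (f.map (algebraMap R K)).Separable)
    (hirr : Irreducible (f.map π)) :
    ∃ φ : F ≃ₐ[K] F, ∀ x y : F, aeval x f = 0 → aeval y f = 0 → ∃ i : ℕ, (φ ^ i) x = y := by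
  obtain ⟨ρ, φ, hρ, hφ⟩ := exists_frob_roots14 (F := F) (Fκ := AlgebraicClosure κ) hπ hu hsep
  refine ⟨φ, fun x y hx hy => ?_⟩
  have hix := integral_root14 hu hx
  have hiy := integral_root14 hu hy
  obtain ⟨i, -, hi⟩ := exists_frob8_pow hirr (red_root14 hρ hix hx) (red_root14 hρ hiy hy)
  obtain ⟨h1, h2, h3⟩ := hφ i x hx hix
  refine ⟨i, eq_of_red14 hρ h2 hiy h1 hy (by rw [h3, hi]) ?_⟩
  have hsepκ : (f.map π).Separable := PerfectField.separable_of_irreducible hirr
  intro h4
  obtain ⟨a', b', hab⟩ := hsepκ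
  have h5 := congrArg (aeval (ρ ⟨(φ ^ i) x, h2⟩)) hab
  rw [map_add, map_mul, map_mul, red_root14 hρ h2 h1, h4, mul_zero, mul_zero, add_zero,
    map_one] at h5
  exact zero_ne_one h5

variable (K F) in
/-- **Type B.** -/
theorem frob_typeB14 {π : R →+* κ} (hπ : Function.Surjective π) {g D : R[X]} (hg : g.Monic)
    (hdeg : g.natDegree = 3) (hu : IsUnit D.leadingCoeff)
    (hsep : ((D.comp g).map (algebraMap R K)).Separable) {b : κ} {D₁ : κ[X]}
    (hD : D.map π = (X - C ((g.map π).eval b)) * D₁)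
    (hb : (derivative (g.map π)).eval b ≠ 0) (hirr : Irreducible (D₁.comp (g.map π))) :
    ∃ (φ : F ≃ₐ[K] F) (z : F), aeval z (D.comp g) = 0 ∧ φ z = z ∧
      ∀ x y : F, aeval x (D.comp g) = 0 → aeval y (D.comp g) = 0 → aeval x g ≠ aeval z g →
        aeval y g ≠ aeval z g → ∃ i : ℕ, (φ ^ i) x = y := by
  have huD : IsUnit (D.comp g).leadingCoeff := by
    rw [leadingCoeff_comp (by omega), hg.leadingCoeff, one_pow, mul_one]
    exact hu
  have hinjR : Function.Injective (algebraMap R F) := by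
    rw [IsScalarTower.algebraMap_eq R K F]
    exact (algebraMap K F).injective.comp (IsFractionRing.injective R K)
  have hfaith : FaithfulSMul R F := (faithfulSMul_iff_algebraMap_injective R F).mpr hinjR
  obtain ⟨ρ, φ, hρ, hφ⟩ := exists_frob_roots14 (F := F) (Fκ := AlgebraicClosure κ) hπ huD hsep
  set Fκ := AlgebraicClosure κ with hFκ
  set g' := g.map π with hg'
  set β : Fκ := algebraMap κ Fκ b with hβ
  have hmap : (D.comp g).map π = (g' - C (g'.eval b)) * D₁.comp g' := by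
    rw [Polynomial.map_comp, hD, mul_comp, sub_comp, X_comp, C_comp]
  have hmon : g'.Monic := hg.map π
  have hdeg' : g'.natDegree = 3 := by rw [hg', hg.natDegree_map, hdeg]
  -- `D₁ (g (b))` is not zero
  have hD1 : D₁.eval (g'.eval b) ≠ 0 := by
    intro h0
    have h1 : (D₁.comp g').IsRoot b := by rw [IsRoot.def, eval_comp, h0]
    have h2 := degree_eq_one_of_irreducible_of_root hirr h1
    have h3 : (D₁.comp g').natDegree = 1 := natDegree_eq_of_degree_eq_some h2
    rw [natDegree_comp, hdeg'] at h3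
    omega
  have hgβ : aeval β g' = algebraMap κ Fκ (g'.eval b) := by
    rw [hβ, aeval_algebraMap_apply, coe_aeval_eq_eval]
  have hDβ : aeval (aeval β g') D₁ ≠ 0 := by
    rw [hgβ, aeval_algebraMap_apply, coe_aeval_eq_eval]
    exact (_root_.map_ne_zero _).mpr hD1
  -- the root `z`
  obtain ⟨z, hz, hzr, hzβ⟩ := exists_lift_root14 hρ huD (β := β) (by
    rw [hmap, map_mul, map_sub, aeval_C, hgβ, sub_self, zero_mul])
  have hsimple : aeval β (derivative ((D.comp g).map π)) ≠ 0 := by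
    rw [hmap, derivative_mul, derivative_sub, derivative_C, sub_zero, map_add, map_mul, map_mul,
      map_sub, aeval_C, hgβ, sub_self, zero_mul, add_zero]
    apply mul_ne_zero
    · rw [hβ, aeval_algebraMap_apply, coe_aeval_eq_eval]
      exact (_root_.map_ne_zero _).mpr hb
    · rw [aeval_comp]
      exact hDβ
  have hint : ∀ x : F, aeval x (D.comp g) = 0 → IsIntegral R x := fun x hx => integral_root14 huD hx
  -- values of `g`
  have hev : ∀ z : integralClosure R F, ((aeval z g : integralClosure R F) : F) =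
      aeval (z : F) g := by
    intro z
    rw [← Subalgebra.coe_val, ← aeval_algHom_apply]
  have hgint : ∀ x : F, ∀ hx : IsIntegral R x, IsIntegral R (aeval x g) := fun x hx => by
    have h1 := (aeval (⟨x, hx⟩ : integralClosure R F) g).2
    rw [hev] at h1
    exact h1
  have hρg : ∀ (x : F) (hx : IsIntegral R x), ρ ⟨aeval x g, hgint x hx⟩ = aeval (ρ ⟨x, hx⟩) g' := by
    intro x hx
    have h1 : (⟨aeval x g, hgint x hx⟩ : integralClosure R F) =
        aeval (⟨x, hx⟩ : integralClosure R F) g := Subtype.ext (hev ⟨x, hx⟩).symm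
    rw [h1, hg', aeval_def, aeval_def, eval₂_map, hom_eval₂]
    congr 1
    exact RingHom.ext fun r => hρ r
  -- a root with `g x ≠ g z` reduces to a root of `D₁ (g)`
  have hkey : ∀ (x : F) (hx : aeval x (D.comp g) = 0), aeval x g ≠ aeval z g →
      aeval (ρ ⟨x, hint x hx⟩) (D₁.comp g') = 0 := by
    intro x hx hne
    have h1 := red_root14 hρ (hint x hx) hx
    rw [hmap, map_mul] at h1
    rcases mul_eq_zero.mp h1 with h2 | h2
    · exfalso
      apply hne
      rw [map_sub, aeval_C, sub_eq_zero, ← hgβ] at h2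
      refine eq_of_red14 hρ (f := D) (hgint x (hint x hx)) (hgint z hz) ?_ ?_ ?_ ?_
      · rw [← aeval_comp]
        exact hx
      · rw [← aeval_comp]
        exact hzr
      · rw [hρg x (hint x hx), hρg z hz, hzβ, h2]
      · rw [hρg x (hint x hx), h2, hD, derivative_mul, derivative_sub, derivative_X, derivative_C, sub_zero,
          one_mul, map_add, map_mul, map_sub, aeval_X, aeval_C, hgβ, sub_self, zero_mul, add_zero,
          ← hgβ]
        exact hDβ
    · exact h2
  refine ⟨φ, z, hzr, ?_, ?_⟩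
  · obtain ⟨h1, h2, h3⟩ := hφ 1 z hzr hz
    rw [pow_one] at h1 h2
    simp only [pow_one] at h3
    have h4 : frob8 κ Fκ β = β := by rw [hβ, AlgEquiv.commutes]
    refine eq_of_red14 hρ h2 hz h1 hzr (by rw [h3, hzβ, h4]) (by rw [h3, hzβ, h4]; exact hsimple)
  · intro x y hx hy hxz hyz
    obtain ⟨i, -, hi⟩ := exists_frob8_pow hirr (hkey x hx hxz) (hkey y hy hyz)
    obtain ⟨h1, h2, h3⟩ := hφ i x hx (hint x hx)
    refine ⟨i, eq_of_red14 hρ h2 (hint y hy) h1 hy (by rw [h3, hi]) ?_⟩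
    have hsepκ : (D₁.comp g').Separable := PerfectField.separable_of_irreducible hirr
    have hr : aeval (ρ ⟨(φ ^ i) x, h2⟩) (D₁.comp g') = 0 := by
      rw [h3, ← hi]
      exact hkey y hy hyz
    have hder : aeval (ρ ⟨(φ ^ i) x, h2⟩) (derivative (D₁.comp g')) ≠ 0 := by
      intro h4
      obtain ⟨a', b', hab⟩ := hsepκ
      have h5 := congrArg (aeval (ρ ⟨(φ ^ i) x, h2⟩)) hab
      rw [map_add, map_mul, map_mul, hr, h4, mul_zero, mul_zero, add_zero, map_one] at h5
      exact zero_ne_one h5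
    rw [hmap, derivative_mul, map_add, map_mul, map_mul, hr, mul_zero, zero_add]
    apply mul_ne_zero _ hder
    rw [map_sub, aeval_C, ← hgβ, sub_ne_zero]
    intro h4
    apply hDβ
    rw [← h4, ← aeval_comp]
    exact hr

end Types

/-- **Frobenius elements of types A and B make the action on the pairs transitive.** -/
theorem pairTransitive14 {K F : Type*} [Field K] [Field F] [Algebra K F] {g D : K[X]}
    (hA : ∃ φ : F ≃ₐ[K] F, ∀ x y : F, aeval x (D.comp g) = 0 → aeval y (D.comp g) = 0 →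
      ∃ i : ℕ, (φ ^ i) x = y)
    (hB : ∃ (φ : F ≃ₐ[K] F) (z : F), aeval z (D.comp g) = 0 ∧ φ z = z ∧
      ∀ x y : F, aeval x (D.comp g) = 0 → aeval y (D.comp g) = 0 → aeval x g ≠ aeval z g →
        aeval y g ≠ aeval z g → ∃ i : ℕ, (φ ^ i) x = y) :
    IsPairTransitive7 K F g D := by
  obtain ⟨φ, hφ⟩ := hA
  obtain ⟨ψ, z, hz, hzz, hψ⟩ := hB
  intro b c b' c' hb hc hb' hc' hne hne'
  have hroot : ∀ (σ : F ≃ₐ[K] F) (x : F), aeval x (D.comp g) = 0 → aeval (σ x) (D.comp g) = 0 := by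
    intro σ x hx
    rw [← AlgEquiv.coe_toAlgHom σ, aeval_algHom_apply, hx, map_zero]
  have hval : ∀ (σ : F ≃ₐ[K] F) (x : F), aeval (σ x) g = σ (aeval x g) := by
    intro σ x
    rw [← AlgEquiv.coe_toAlgHom σ, aeval_algHom_apply]
  obtain ⟨i, hi⟩ := hφ b z hb hz
  obtain ⟨j, hj⟩ := hφ b' z hb' hz
  obtain ⟨m, hm⟩ := hψ ((φ ^ i) c) ((φ ^ j) c') (hroot _ _ hc) (hroot _ _ hc') (by
    rw [← hi, hval, hval]
    exact fun h => hne ((φ ^ i).injective h).symm) (by
    rw [← hj, hval, hval]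
    exact fun h => hne' ((φ ^ j).injective h).symm)
  have hzm : (ψ ^ m) z = z := by
    induction m with
    | zero => rfl
    | succ m ih =>
      clear hm
      rw [pow_succ', AlgEquiv.mul_apply]
      have : (ψ ^ m) z = z := by
        clear ih
        induction m with
        | zero => rfl
        | succ m ih => rw [pow_succ', AlgEquiv.mul_apply, ih, hzz]
      rw [this, hzz]
  refine ⟨(φ ^ j)⁻¹ * ψ ^ m * φ ^ i, ?_, ?_⟩
  · rw [AlgEquiv.mul_apply, AlgEquiv.mul_apply, hi, hzm, ← hj]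
    change ((φ ^ j)⁻¹ * (φ ^ j)) b' = b'
    rw [inv_mul_cancel]
    rfl
  · rw [AlgEquiv.mul_apply, AlgEquiv.mul_apply, hm]
    change ((φ ^ j)⁻¹ * (φ ^ j)) c' = c'
    rw [inv_mul_cancel]
    rfl

end Pool.Agent.Lib.MP_89bcae_ag

end

section

/-!
# Integral polynomials whose reductions modulo two primes are of types A and B
-/

open Polynomial

namespace Pool.Agent.Lib.MP_89bcae_ag

set_option linter.unusedSectionVars false
set_option linter.style.haveILetI false

/-- Type A modulo `p`: the polynomial `D(g(x))` is irreducible modulo `p`. -/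
def IsTypeA14 (p : ℕ) (g D : ℤ[X]) : Prop :=
  Irreducible ((D.map (Int.castRingHom (ZMod p))).comp (g.map (Int.castRingHom (ZMod p))))

/-- Type B modulo `p`: `D` is `(t - g(b)) D₁` modulo `p`, where `g'(b) ≠ 0` and `D₁(g(x))` is
irreducible. -/
def IsTypeB14 (p : ℕ) (g D : ℤ[X]) : Prop :=
  ∃ (b : ZMod p) (D₁ : (ZMod p)[X]),
    D.map (Int.castRingHom (ZMod p)) = (X - C ((g.map (Int.castRingHom (ZMod p))).eval b)) * D₁ ∧
    (derivative (g.map (Int.castRingHom (ZMod p)))).eval b ≠ 0 ∧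
    Irreducible (D₁.comp (g.map (Int.castRingHom (ZMod p))))

/-- The local ring `ℤ_(p)` with its residue map. -/
lemma exists_local_ring14 {p : ℕ} (hp : p.Prime) :
    ∃ (R : Type) (_ : CommRing R) (_ : IsDomain R) (_ : IsIntegrallyClosed R)
      (_ : Algebra R ℚ) (_ : IsFractionRing R ℚ) (π : R →+* ZMod p),
      Function.Surjective π ∧
      ∀ z : ℤ, (z : ZMod p) ≠ 0 → IsUnit (Int.castRingHom R z) := by
  haveI : Fact p.Prime := ⟨hp⟩
  have hpi : Prime (p : ℤ) := Nat.prime_iff_prime_int.mp hp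
  haveI hP : (Ideal.span {(p : ℤ)}).IsPrime :=
    (Ideal.span_singleton_prime hpi.ne_zero).mpr hpi
  have hmem : ∀ z : ℤ, z ∈ (Ideal.span {(p : ℤ)}).primeCompl ↔ (z : ZMod p) ≠ 0 := by
    intro z
    rw [Ideal.mem_primeCompl_iff, Ideal.mem_span_singleton, Ne,
      ZMod.intCast_zmod_eq_zero_iff_dvd]
  let R := Localization.AtPrime (Ideal.span {(p : ℤ)})
  have hle : (Ideal.span {(p : ℤ)}).primeCompl ≤ nonZeroDivisors ℤ :=
    Ideal.primeCompl_le_nonZeroDivisors _
  let e : R →+* ℚ := IsLocalization.lift (M := (Ideal.span {(p : ℤ)}).primeCompl)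
    (g := algebraMap ℤ ℚ) (by
      intro y
      rw [isUnit_iff_ne_zero]
      exact (map_ne_zero_iff _ (algebraMap ℤ ℚ).injective_int).mpr
        (nonZeroDivisors.ne_zero (hle y.2)))
  letI : Algebra R ℚ := e.toAlgebra
  have hst := IsScalarTower.of_algebraMap_eq (R := ℤ) (S := R) (A := ℚ) fun r =>
    (IsLocalization.lift_eq _ r).symm
  haveI := hst
  have hfr : IsFractionRing R ℚ :=
    IsFractionRing.isFractionRing_of_isDomain_of_isLocalization
      (Ideal.span {(p : ℤ)}).primeCompl R ℚ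
  have hdom : IsDomain R := inferInstance
  have hic : IsIntegrallyClosed R := inferInstance
  let π : R →+* ZMod p := IsLocalization.lift (M := (Ideal.span {(p : ℤ)}).primeCompl)
    (g := Int.castRingHom (ZMod p)) (by
      intro y
      rw [isUnit_iff_ne_zero]
      exact (hmem y).mp y.2)
  have hπ : ∀ z : ℤ, π (algebraMap ℤ R z) = z := fun z => IsLocalization.lift_eq _ z
  refine ⟨R, inferInstance, hdom, hic, inferInstance, hfr, π, fun x => ?_, fun z hz => ?_⟩
  · obtain ⟨z, hz⟩ := ZMod.intCast_surjective x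
    exact ⟨algebraMap ℤ R z, by rw [hπ, hz]⟩
  · have h1 := IsLocalization.map_units R
      (⟨z, (hmem z).mpr hz⟩ : (Ideal.span {(p : ℤ)}).primeCompl)
    have h2 : algebraMap ℤ R = Int.castRingHom R := RingHom.ext_int _ _
    rw [h2] at h1
    exact h1

section

variable {F : Type*} [Field F] [Algebra ℚ F] [IsAlgClosed F] [Algebra.IsAlgebraic ℚ F]

/-- **Type A.** -/
theorem typeA14 {g D : ℤ[X]} (hg : g.Monic) (hdeg : g.natDegree = 3) {p : ℕ} (hp : p.Prime)
    (hu : (D.leadingCoeff : ZMod p) ≠ 0) (hA : IsTypeA14 p g D) :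
    ((D.comp g).map (algebraMap ℤ ℚ)).Separable ∧
    ∃ φ : F ≃ₐ[ℚ] F, ∀ x y : F,
      aeval x ((D.map (algebraMap ℤ ℚ)).comp (g.map (algebraMap ℤ ℚ))) = 0 →
      aeval y ((D.map (algebraMap ℤ ℚ)).comp (g.map (algebraMap ℤ ℚ))) = 0 →
        ∃ i : ℕ, (φ ^ i) x = y := by
  haveI : Fact p.Prime := ⟨hp⟩
  obtain ⟨R, _, _, _, _, _, π, hπ, hπu⟩ := exists_local_ring14 hp
  letI : Algebra R F := ((algebraMap ℚ F).comp (algebraMap R ℚ)).toAlgebra
  haveI : IsScalarTower R ℚ F := IsScalarTower.of_algebraMap_eq fun _ => rfl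
  have hRQ : (algebraMap R ℚ).comp (Int.castRingHom R) = algebraMap ℤ ℚ := RingHom.ext_int _ _
  have hinjZ : Function.Injective (Int.castRingHom R) := by
    have h1 : Function.Injective ((algebraMap R ℚ).comp (Int.castRingHom R)) := by
      rw [hRQ]
      exact (algebraMap ℤ ℚ).injective_int
    exact Function.Injective.of_comp h1
  haveI hfaith : FaithfulSMul R F := (faithfulSMul_iff_algebraMap_injective R F).mpr
    ((algebraMap ℚ F).injective.comp (IsFractionRing.injective R ℚ))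
  have hcomp : π.comp (Int.castRingHom R) = Int.castRingHom (ZMod p) := RingHom.ext_int _ _
  have hu' : IsUnit ((D.comp g).map (Int.castRingHom R)).leadingCoeff := by
    rw [leadingCoeff_map_of_injective hinjZ, leadingCoeff_comp (by omega), hg.leadingCoeff,
      one_pow, mul_one]
    exact hπu _ hu
  have hirr : Irreducible (((D.comp g).map (Int.castRingHom R)).map π) := by
    rw [Polynomial.map_map, hcomp, Polynomial.map_comp]
    exact hA
  have hQ : ((D.comp g).map (Int.castRingHom R)).map (algebraMap R ℚ) =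
      (D.comp g).map (algebraMap ℤ ℚ) := by
    rw [Polynomial.map_map, hRQ]
  have hsepκ : (((D.comp g).map (Int.castRingHom R)).map π).Separable :=
    PerfectField.separable_of_irreducible hirr
  have hsep := separable_of_red14 (K := ℚ) F hπ hu' hsepκ
  obtain ⟨φ, hφ⟩ := frob_typeA14 ℚ F hπ hu' hsep hirr
  rw [hQ] at hsep
  refine ⟨hsep, φ, fun x y hx hy => hφ x y ?_ ?_⟩
  · rw [← aeval_map_algebraMap ℚ, hQ, Polynomial.map_comp]
    exact hx
  · rw [← aeval_map_algebraMap ℚ, hQ, Polynomial.map_comp]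
    exact hy

/-- **Type B.** -/
theorem typeB14 {g D : ℤ[X]} (hg : g.Monic) (hdeg : g.natDegree = 3) {p : ℕ} (hp : p.Prime)
    (hu : (D.leadingCoeff : ZMod p) ≠ 0) (hB : IsTypeB14 p g D)
    (hsep : ((D.comp g).map (algebraMap ℤ ℚ)).Separable) :
    ∃ (φ : F ≃ₐ[ℚ] F) (z : F),
      aeval z ((D.map (algebraMap ℤ ℚ)).comp (g.map (algebraMap ℤ ℚ))) = 0 ∧ φ z = z ∧
      ∀ x y : F, aeval x ((D.map (algebraMap ℤ ℚ)).comp (g.map (algebraMap ℤ ℚ))) = 0 →
        aeval y ((D.map (algebraMap ℤ ℚ)).comp (g.map (algebraMap ℤ ℚ))) = 0 →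
        aeval x (g.map (algebraMap ℤ ℚ)) ≠ aeval z (g.map (algebraMap ℤ ℚ)) →
        aeval y (g.map (algebraMap ℤ ℚ)) ≠ aeval z (g.map (algebraMap ℤ ℚ)) →
        ∃ i : ℕ, (φ ^ i) x = y := by
  haveI : Fact p.Prime := ⟨hp⟩
  obtain ⟨R, _, _, _, _, _, π, hπ, hπu⟩ := exists_local_ring14 hp
  letI : Algebra R F := ((algebraMap ℚ F).comp (algebraMap R ℚ)).toAlgebra
  haveI : IsScalarTower R ℚ F := IsScalarTower.of_algebraMap_eq fun _ => rfl
  have hRQ : (algebraMap R ℚ).comp (Int.castRingHom R) = algebraMap ℤ ℚ := RingHom.ext_int _ _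
  have hinjZ : Function.Injective (Int.castRingHom R) := by
    have h1 : Function.Injective ((algebraMap R ℚ).comp (Int.castRingHom R)) := by
      rw [hRQ]
      exact (algebraMap ℤ ℚ).injective_int
    exact Function.Injective.of_comp h1
  have hcomp : π.comp (Int.castRingHom R) = Int.castRingHom (ZMod p) := RingHom.ext_int _ _
  have hu' : IsUnit (D.map (Int.castRingHom R)).leadingCoeff := by
    rw [leadingCoeff_map_of_injective hinjZ]
    exact hπu _ hu
  obtain ⟨b, D₁, hD, hb, hirr⟩ := hB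
  have hgπ : (g.map (Int.castRingHom R)).map π = g.map (Int.castRingHom (ZMod p)) := by
    rw [Polynomial.map_map, hcomp]
  have hDπ : (D.map (Int.castRingHom R)).map π = D.map (Int.castRingHom (ZMod p)) := by
    rw [Polynomial.map_map, hcomp]
  have hsep' : ((((D.map (Int.castRingHom R)).comp (g.map (Int.castRingHom R)))).map
      (algebraMap R ℚ)).Separable := by
    rw [← Polynomial.map_comp, Polynomial.map_map, hRQ]
    exact hsep
  obtain ⟨φ, z, hz, hzz, hφ⟩ := frob_typeB14 ℚ F hπ (hg.map (Int.castRingHom R))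
    (by rw [hg.natDegree_map, hdeg]) hu' hsep' (b := b) (D₁ := D₁) (by rw [hDπ, hgπ, hD])
    (by rw [hgπ]; exact hb) (by rw [hgπ]; exact hirr)
  have hc : ∀ x : F, aeval x ((D.map (Int.castRingHom R)).comp (g.map (Int.castRingHom R))) =
      aeval x ((D.map (algebraMap ℤ ℚ)).comp (g.map (algebraMap ℤ ℚ))) := by
    intro x
    rw [← aeval_map_algebraMap ℚ, Polynomial.map_comp, Polynomial.map_map, Polynomial.map_map,
      hRQ]
  have hgc : ∀ x : F, aeval x (g.map (Int.castRingHom R)) = aeval x (g.map (algebraMap ℤ ℚ)) := by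
    intro x
    rw [← aeval_map_algebraMap ℚ, Polynomial.map_map, hRQ]
  refine ⟨φ, z, by rw [← hc]; exact hz, hzz, fun x y hx hy hxz hyz => hφ x y ?_ ?_ ?_ ?_⟩
  · rw [hc]; exact hx
  · rw [hc]; exact hy
  · rw [hgc, hgc]; exact hxz
  · rw [hgc, hgc]; exact hyz

/-- **Types A and B.** -/
theorem pairTransitive_types14 {g D : ℤ[X]} (hg : g.Monic) (hdeg : g.natDegree = 3)
    {p q : ℕ} (hp : p.Prime) (hq : q.Prime) (hup : (D.leadingCoeff : ZMod p) ≠ 0)
    (huq : (D.leadingCoeff : ZMod q) ≠ 0) (hA : IsTypeA14 p g D) (hB : IsTypeB14 q g D) :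
    ((D.comp g).map (algebraMap ℤ ℚ)).Separable ∧
    IsPairTransitive7 ℚ F (g.map (algebraMap ℤ ℚ)) (D.map (algebraMap ℤ ℚ)) := by
  obtain ⟨hsep, hA'⟩ := typeA14 (F := F) hg hdeg hp hup hA
  exact ⟨hsep, pairTransitive14 hA' (typeB14 hg hdeg hq huq hB hsep)⟩

end

end Pool.Agent.Lib.MP_89bcae_ag

end

section

/-!
# Counting the polynomials of types A and B modulo a prime
-/

open Polynomial

namespace Pool.Agent.Lib.MP_89bcae_ag

set_option linter.unusedSectionVars false
set_option linter.style.haveILetI false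
set_option linter.unusedVariables false

/-- A cubic polynomial is not injective on the field with `p` elements, `p ≡ 1 mod 3`. -/
lemma exists_collision14 {p : ℕ} [Fact p.Prime] (h1 : p % 3 = 1) {g : (ZMod p)[X]} (hg : g.Monic)
    (hdeg : g.natDegree = 3) : ∃ x y : ZMod p, x ≠ y ∧ g.eval x = g.eval y := by
  have hp : p.Prime := Fact.out
  -- a primitive cube root of unity
  obtain ⟨ω, hω⟩ : ∃ ω : ZMod p, ω ^ 2 + ω + 1 = 0 := by
    haveI : Fact (Nat.Prime 3) := ⟨Nat.prime_three⟩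
    obtain ⟨u, hu⟩ := exists_prime_orderOf_dvd_card (G := (ZMod p)ˣ) 3 (by
      rw [ZMod.card_units]
      omega)
    refine ⟨u, ?_⟩
    have h2 : (u : ZMod p) ^ 3 = 1 := by
      rw [← Units.val_pow_eq_pow_val, ← hu, pow_orderOf_eq_one, Units.val_one]
    have h3 : (u : ZMod p) ≠ 1 := by
      intro h4
      have h5 : u = 1 := Units.ext h4
      rw [h5, orderOf_one] at hu
      omega
    have h4 : ((u : ZMod p) - 1) * ((u : ZMod p) ^ 2 + u + 1) = 0 := by
      linear_combination h2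
    exact (mul_eq_zero.mp h4).resolve_left (sub_ne_zero.mpr h3)
  have h3 : (3 : ZMod p) ≠ 0 := by
    intro h
    have h4 : ((3 : ℕ) : ZMod p) = 0 := by exact_mod_cast h
    rw [ZMod.natCast_eq_zero_iff] at h4
    have h5 := (Nat.prime_dvd_prime_iff_eq hp Nat.prime_three).mp h4
    omega
  have hev : ∀ x : ZMod p, g.eval x = x ^ 3 + g.coeff 2 * x ^ 2 + g.coeff 1 * x + g.coeff 0 := by
    intro x
    have := aeval_cubic8 (k := ZMod p) (F := ZMod p) hg hdeg x
    rwa [coe_aeval_eq_eval, Algebra.algebraMap_self] at this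
  obtain ⟨t, ht⟩ : ∃ t : ZMod p, 3 * t = g.coeff 2 := ⟨g.coeff 2 / 3, by field_simp⟩
  set B := g.coeff 1 - 3 * t ^ 2 with hB
  -- the two linear forms
  obtain ⟨U, V, hUV, hne⟩ : ∃ U V : ZMod p, U * V = -B ∧ U ≠ -ω * V := by
    by_cases hB0 : B = 0
    · exact ⟨1, 0, by rw [hB0]; simp, by simp⟩
    · by_cases h4 : -B = -ω
      · refine ⟨-B / 2, 2, ?_, ?_⟩
        · have h2 : (2 : ZMod p) ≠ 0 := by
            intro h
            have h4 : ((2 : ℕ) : ZMod p) = 0 := by exact_mod_cast h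
            rw [ZMod.natCast_eq_zero_iff] at h4
            have h5 := (Nat.prime_dvd_prime_iff_eq hp Nat.prime_two).mp h4
            omega
          field_simp
        · intro h5
          have h2 : (2 : ZMod p) ≠ 0 := by
            intro h
            have h4 : ((2 : ℕ) : ZMod p) = 0 := by exact_mod_cast h
            rw [ZMod.natCast_eq_zero_iff] at h4
            have h5 := (Nat.prime_dvd_prime_iff_eq hp Nat.prime_two).mp h4
            omega
          rw [div_eq_iff h2, h4] at h5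
          have h6 : 3 * ω = 0 := by linear_combination h5
          have h7 : ω = 0 := (mul_eq_zero.mp h6).resolve_left h3
          rw [h7] at hω
          norm_num at hω
      · exact ⟨-B, 1, by ring, by rw [mul_one]; exact h4⟩
  have hω3 : (ω - 1) * (ω ^ 2 + ω + 1) = ω ^ 3 - 1 := by ring
  have hω1 : ω ≠ 1 := by
    rintro rfl
    apply h3
    linear_combination hω
  have hω0 : ω ≠ 0 := by
    rintro rfl
    norm_num at hω
  have hd : ω ^ 2 - ω ≠ 0 := by
    intro h
    have : ω * (ω - 1) = 0 := by linear_combination h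
    rcases mul_eq_zero.mp this with h | h
    · exact hω0 h
    · exact hω1 (sub_eq_zero.mp h)
  obtain ⟨Y, hY⟩ : ∃ Y : ZMod p, (ω ^ 2 - ω) * Y = U - V := ⟨(U - V) / (ω ^ 2 - ω), by field_simp⟩
  set X' := U + ω * Y with hX'
  have hU : U = X' - ω * Y := by rw [hX']; ring
  have hV : V = X' - ω ^ 2 * Y := by
    rw [hX']
    linear_combination hY
  have hprod : X' ^ 2 + X' * Y + Y ^ 2 + B = 0 := by
    have h5 : U * V + B = 0 := by rw [hUV]; ring
    rw [hU, hV] at h5
    have h6 : ω ^ 3 = 1 := by linear_combination (ω - 1) * hω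
    linear_combination h5 + (X' * Y) * hω - Y ^ 2 * h6
  have hXY : X' ≠ Y := by
    intro h
    apply hne
    rw [hU, hV, h]
    have h6 : ω ^ 3 = 1 := by linear_combination (ω - 1) * hω
    linear_combination -Y * h6 
  refine ⟨X' - t, Y - t, fun h => hXY (sub_left_injective h), ?_⟩
  rw [hev, hev]
  have h7 : g.coeff 1 = B + 3 * t ^ 2 := by rw [hB]; ring
  rw [h7, ← ht]
  linear_combination (X' - Y) * hprod

lemma numeric14 {q n c : ℕ} (hq : 19 ≤ q) (hn : 2 ≤ n)
    (h : 2 * q ^ n ≤ 6 * c + 9 * q ^ (n / 2) + 10) : q ^ n ≤ 6 * c := by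
  obtain ⟨m, rfl⟩ : ∃ m, n = m + 1 := ⟨n - 1, by omega⟩
  have h1 : q ^ ((m + 1) / 2) ≤ q ^ m := Nat.pow_le_pow_right (by omega) (by omega)
  have h2 : 1 ≤ q ^ m := Nat.one_le_pow _ _ (by omega)
  have h3 : 19 * q ^ m ≤ q ^ (m + 1) := by
    rw [pow_succ, mul_comm (q ^ m)]
    exact Nat.mul_le_mul_right _ hq
  omega

/-- The family is large. -/
lemma family_lower14 {k : Type} [Field k] [Fintype k] (h2 : (2 : k) ≠ 0)
    (hq : 19 ≤ Fintype.card k) {g : k[X]} (hg : g.Monic) (hdeg : g.natDegree = 3)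
    (hcol : ∃ x y : k, x ≠ y ∧ g.eval x = g.eval y) {n : ℕ} (hn : 2 ≤ n) :
    Fintype.card k ^ n ≤ 6 * (n * (family g n).ncard) := by
  classical
  have hfin := family_finite8 g n
  have hfam : ∀ D ∈ hfin.toFinset, D.Monic ∧ D.natDegree = n ∧ Irreducible D := by
    intro D hD
    rw [Set.Finite.mem_toFinset] at hD
    exact ⟨hD.1, hD.2.1, irreducible_of_comp8 hdeg hD.2.2⟩
  have hcard : hfin.toFinset.card = (family g n).ncard := (Set.ncard_eq_toFinset_card _ hfin).symm
  obtain ⟨A, hA1, hA2⟩ := exists_roots_card8 (F := AlgebraicClosure k) n hfin.toFinset hfam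
  have h1 := Frob14.good_count (F := AlgebraicClosure k) h2 hg hdeg hcol (i := n) (by omega)
  have h3 := numeric14 hq hn h1
  rw [← hcard, ← hA2]
  refine h3.trans (Nat.mul_le_mul_left 6 (Finset.card_le_card ?_))
  intro a ha
  rw [Finset.mem_filter, Frob14.mem_fixS (by omega)] at ha
  rw [hA1, Set.Finite.mem_toFinset]
  exact minpoly_mem_family8 hg hdeg (by omega) ha.1 ha.2.2 ha.2.1

/-- The values at the noncritical points. -/
lemma values_lower14 {k : Type} [Field k] [Fintype k] {g : k[X]} (h3 : (3 : k) ≠ 0)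
    (hg : g.Monic) (hdeg : g.natDegree = 3) :
    Fintype.card k - 2 ≤
      3 * ({α : k | ∃ b : k, (derivative g).eval b ≠ 0 ∧ g.eval b = α}).ncard := by
  classical
  have hder : (derivative g) ≠ 0 := by
    intro h
    have h4 := congrArg (fun f => f.coeff 2) h
    simp only [coeff_derivative, coeff_zero] at h4
    have h5 : g.coeff 3 = 1 := by
      have := hg.coeff_natDegree
      rwa [hdeg] at this
    rw [show (2 + 1 : ℕ) = 3 by norm_num, h5, one_mul] at h4
    apply h3
    push_cast at h4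
    linear_combination h4
  have hderdeg : (derivative g).natDegree ≤ 2 := by
    have := natDegree_derivative_le g
    omega
  set T : Finset k := Finset.univ.filter fun b => (derivative g).eval b ≠ 0 with hT
  have hTcard : Fintype.card k - 2 ≤ T.card := by
    have h4 : Tᶜ.card ≤ 2 := by
      refine (Finset.card_le_card (t := (derivative g).roots.toFinset) ?_).trans
        ((Multiset.toFinset_card_le _).trans ((card_roots' _).trans hderdeg))
      intro b hb
      rw [Finset.mem_compl, hT, Finset.mem_filter, not_and, not_not] at hb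
      rw [Multiset.mem_toFinset, mem_roots hder]
      exact hb (Finset.mem_univ b)
    rw [Finset.card_compl] at h4
    omega
  have h6 : {α : k | ∃ b : k, (derivative g).eval b ≠ 0 ∧ g.eval b = α} =
      (T.image fun b => g.eval b : Finset k) := by
    ext α
    rw [Finset.mem_coe, Finset.mem_image]
    constructor
    · rintro ⟨b, hb, rfl⟩
      exact ⟨b, by rw [hT, Finset.mem_filter]; exact ⟨Finset.mem_univ _, hb⟩, rfl⟩
    · rintro ⟨b, hb, rfl⟩
      rw [hT, Finset.mem_filter] at hb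
      exact ⟨b, hb.2, rfl⟩
  rw [h6, Set.ncard_coe_finset]
  refine hTcard.trans (Finset.card_le_mul_card_image T 3 fun α _ => ?_)
  have hne : g - C α ≠ 0 := by
    intro h
    have := congrArg natDegree h
    rw [natDegree_sub_C, hdeg, natDegree_zero] at this
    omega
  refine (Finset.card_le_card (t := (g - C α).roots.toFinset) ?_).trans
    ((Multiset.toFinset_card_le _).trans ((card_roots' _).trans (by rw [natDegree_sub_C, hdeg])))
  intro b hb
  rw [Finset.mem_filter] at hb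
  rw [Multiset.mem_toFinset, mem_roots hne, IsRoot.def, eval_sub, eval_C, hb.2, sub_self]

section Coeff

variable {k : Type} [Field k] [Fintype k]

/-- The coefficient vector. -/
def coeffs14 (n : ℕ) (f : k[X]) : Fin (n + 1) → k := fun i => f.coeff i

omit [Fintype k] in
lemma coeffs_inj14 {n : ℕ} {f f' : k[X]} (hf : f.natDegree ≤ n) (hf' : f'.natDegree ≤ n)
    (h : coeffs14 n f = coeffs14 n f') : f = f' := by
  ext i
  by_cases hi : i < n + 1
  · exact congrFun h ⟨i, hi⟩
  · rw [coeff_eq_zero_of_natDegree_lt (by omega), coeff_eq_zero_of_natDegree_lt (by omega)]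

lemma ncard_ne_zero14 : ({u : k | u ≠ 0}).ncard = Fintype.card k - 1 := by
  classical
  have h1 : {u : k | u ≠ 0} = ((Finset.univ.erase (0 : k) : Finset k) : Set k) := by
    ext u
    simp
  rw [h1, Set.ncard_coe_finset, Finset.card_erase_of_mem (Finset.mem_univ _), Finset.card_univ]

/-- The number of the polynomials of type A. -/
lemma count_A14 (g : k[X]) (n : ℕ) :
    (Fintype.card k - 1) * (family g n).ncard ≤
      ({v : Fin (n + 1) → k | ∃ f : k[X], coeffs14 n f = v ∧ f.natDegree = n ∧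
        Irreducible (f.comp g)}).ncard := by
  rw [← ncard_ne_zero14, ← Set.ncard_prod]
  apply Set.ncard_le_ncard_of_injOn (fun x : k × k[X] => coeffs14 n (C x.1 * x.2))
  · rintro ⟨u, D⟩ ⟨hu, h1, h2, h3⟩
    refine ⟨_, rfl, ?_, ?_⟩
    · rw [natDegree_C_mul hu, h2]
    · rw [mul_comp, C_comp]
      have hu' : IsUnit (C u : k[X]) := isUnit_C.mpr (isUnit_iff_ne_zero.mpr hu)
      rw [irreducible_isUnit_mul hu']
      exact h3
  · rintro ⟨u, D⟩ ⟨hu, h1, h2, h3⟩ ⟨u', D'⟩ ⟨hu', h1', h2', h3'⟩ h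
    simp only at hu hu' h1 h2 h3 h1' h2' h3' h
    have h4 := coeffs_inj14 (by rw [natDegree_C_mul hu, h2]) (by rw [natDegree_C_mul hu', h2']) h
    have h5 := congrArg leadingCoeff h4
    rw [leadingCoeff_mul, leadingCoeff_C, h1.leadingCoeff, mul_one, leadingCoeff_mul,
      leadingCoeff_C, h1'.leadingCoeff, mul_one] at h5
    subst h5
    rw [Prod.mk.injEq]
    exact ⟨rfl, mul_left_cancel₀ (C_ne_zero.mpr hu) h4⟩

/-- The number of the polynomials of type B. -/
lemma count_B14 {g : k[X]} (hdeg : g.natDegree = 3) {n : ℕ} (hn : 3 ≤ n) :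
    (Fintype.card k - 1) *
      ({α : k | ∃ b : k, (derivative g).eval b ≠ 0 ∧ g.eval b = α}).ncard *
        (family g (n - 1)).ncard ≤
      ({v : Fin (n + 1) → k | ∃ f : k[X], coeffs14 n f = v ∧ f.natDegree = n ∧
        ∃ (b : k) (D₁ : k[X]), f = (X - C (g.eval b)) * D₁ ∧ (derivative g).eval b ≠ 0 ∧
        Irreducible (D₁.comp g)}).ncard := by
  rw [← ncard_ne_zero14, ← Set.ncard_prod, ← Set.ncard_prod]
  apply Set.ncard_le_ncard_of_injOn
    (fun x : (k × k) × k[X] => coeffs14 n (C x.1.1 * ((X - C x.1.2) * x.2)))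
  · rintro ⟨⟨u, α⟩, D⟩ ⟨⟨hu, b, hb, hα⟩, h1, h2, h3⟩
    simp only at hu hb hα h1 h2 h3
    refine ⟨_, rfl, ?_, b, C u * D, ?_, hb, ?_⟩
    · change (C u * ((X - C α) * D)).natDegree = n
      rw [natDegree_C_mul hu, (monic_X_sub_C α).natDegree_mul h1, natDegree_X_sub_C, h2]
      omega
    · change C u * ((X - C α) * D) = _
      rw [hα]
      ring
    · rw [mul_comp, C_comp]
      have hu' : IsUnit (C u : k[X]) := isUnit_C.mpr (isUnit_iff_ne_zero.mpr hu)
      rw [irreducible_isUnit_mul hu']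
      exact h3
  · rintro ⟨⟨u, α⟩, D⟩ ⟨⟨hu, -⟩, h1, h2, h3⟩ ⟨⟨u', α'⟩, D'⟩ ⟨⟨hu', -⟩, h1', h2', h3'⟩ h
    simp only at hu hu' h1 h2 h3 h1' h2' h3' h
    have hdg : ∀ (u α : k) (D : k[X]), u ≠ 0 → D.Monic → D.natDegree = n - 1 →
        (C u * ((X - C α) * D)).natDegree ≤ n := by
      intro u α D hu h1 h2
      rw [natDegree_C_mul hu, (monic_X_sub_C α).natDegree_mul h1, natDegree_X_sub_C, h2]
      omega
    have h4 := coeffs_inj14 (hdg u α D hu h1 h2) (hdg u' α' D' hu' h1' h2') h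
    have h5 := congrArg leadingCoeff h4
    rw [leadingCoeff_mul, leadingCoeff_C, ((monic_X_sub_C α).mul h1).leadingCoeff, mul_one,
      leadingCoeff_mul, leadingCoeff_C, ((monic_X_sub_C α').mul h1').leadingCoeff, mul_one] at h5
    subst h5
    have h6 := mul_left_cancel₀ (C_ne_zero.mpr hu) h4
    have h7 : α = α' := by
      by_contra hne
      have h8 := congrArg (eval α) h6
      rw [eval_mul, eval_sub, eval_X, eval_C, sub_self, zero_mul, eval_mul, eval_sub, eval_X,
        eval_C, eq_comm, mul_eq_zero] at h8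
      rcases h8 with h8 | h8
      · exact hne (sub_eq_zero.mp h8)
      · have h9 : D'.natDegree = 1 := natDegree_eq_of_degree_eq_some
          (degree_eq_one_of_irreducible_of_root (irreducible_of_comp8 hdeg h3') h8)
        rw [h2'] at h9
        omega
    subst h7
    rw [Prod.mk.injEq]
    exact ⟨rfl, mul_left_cancel₀ (X_sub_C_ne_zero α) h6⟩

end Coeff

end Pool.Agent.Lib.MP_89bcae_ag

end

section

/-!
# Types A and B: Frobenius elements and counts
-/

open Polynomial

open scoped Classical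

namespace Pool.Agent.Lib.MP_89bcae_ag

/-- Types A and B make the action on the pairs transitive. -/
theorem pair_of_types7 (F : Type) [Field F] [Algebra ℚ F] [IsAlgClosure ℚ F] {g D : ℤ[X]}
    (hg : g.Monic) (hdeg : g.natDegree = 3) {n : ℕ} (hD : D.natDegree ≤ n) (hn : 2 ≤ n)
    {p₁ p₂ : ℕ} [Fact p₁.Prime] [Fact p₂.Prime]
    (h₁ : TypeA7 (g.map (Int.castRingHom (ZMod p₁))) (D.map (Int.castRingHom (ZMod p₁))) n)
    (h₂ : TypeB7 (g.map (Int.castRingHom (ZMod p₂))) (D.map (Int.castRingHom (ZMod p₂))) n) :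
    ((D.comp g).map (Int.castRingHom ℚ)).Separable ∧
      IsPairTransitive7 ℚ F (g.map (Int.castRingHom ℚ)) (D.map (Int.castRingHom ℚ)) := by
  haveI : IsAlgClosed F := IsAlgClosure.isAlgClosed ℚ
  haveI : Algebra.IsAlgebraic ℚ F := IsAlgClosure.isAlgebraic
  obtain ⟨hA, hAn⟩ := h₁
  obtain ⟨b, D₁, h3, h4, h5, hBn⟩ := h₂
  have key : ∀ (p : ℕ) (_ : Fact p.Prime), (D.map (Int.castRingHom (ZMod p))).natDegree = n →
      (D.leadingCoeff : ZMod p) ≠ 0 := by
    intro p _ h
    have h6 : D.natDegree = n := le_antisymm hD (h ▸ natDegree_map_le)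
    have h7 : (D.leadingCoeff : ZMod p) = (D.map (Int.castRingHom (ZMod p))).leadingCoeff := by
      rw [leadingCoeff, leadingCoeff, h, h6, coeff_map]
      rfl
    rw [h7, leadingCoeff_ne_zero]
    intro h8
    rw [h8, natDegree_zero] at h
    omega
  exact pairTransitive_types14 (F := F) hg hdeg (Fact.out : p₁.Prime) (Fact.out : p₂.Prime)
    (key p₁ inferInstance hAn) (key p₂ inferInstance hBn) hA ⟨b, D₁, h3, h4, h5⟩

lemma two_three_ne_zero14 {p : ℕ} (hp : p.Prime) (h : 5 ≤ p) :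
    (2 : ZMod p) ≠ 0 ∧ (3 : ZMod p) ≠ 0 := by
  constructor
  · intro h
    have h4 : ((2 : ℕ) : ZMod p) = 0 := by exact_mod_cast h
    rw [ZMod.natCast_eq_zero_iff] at h4
    have h5 := (Nat.prime_dvd_prime_iff_eq hp Nat.prime_two).mp h4
    omega
  · intro h
    have h4 : ((3 : ℕ) : ZMod p) = 0 := by exact_mod_cast h
    rw [ZMod.natCast_eq_zero_iff] at h4
    have h5 := (Nat.prime_dvd_prime_iff_eq hp Nat.prime_three).mp h4
    omega

lemma polyOf_coeffs14 {k : Type} [Field k] {n : ℕ} {f : k[X]} (hf : f.natDegree = n) :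
    polyOf8 (coeffs14 n f) = f := by
  unfold polyOf8 coeffs14
  conv_rhs => rw [f.as_sum_range_C_mul_X_pow, hf]
  rw [Finset.sum_range]

/-- The number of the residue classes of type A. -/
theorem count_typeA7 (n : ℕ) (hn : 2 ≤ n) : ∃ c : ℝ, 0 < c ∧ ∃ P₀ : ℕ, ∀ p : ℕ, ∀ _ : Fact p.Prime,
    P₀ ≤ p → p % 3 = 1 → ∀ g : (ZMod p)[X], g.Monic → g.natDegree = 3 →
      c * (p : ℝ) ^ (n + 1) ≤
        ({v : Fin (n + 1) → ZMod p | TypeA7 g (polyOf8 v) n}.ncard : ℝ) := by
  have hn0 : (0 : ℝ) < n := by exact_mod_cast (by omega : 0 < n)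
  refine ⟨1 / (72 * n), by positivity, 19, fun p _ h19 h1 g hmon hdeg => ?_⟩
  have hp : p.Prime := Fact.out
  obtain ⟨h2, -⟩ := two_three_ne_zero14 hp (by omega)
  have hcard := ZMod.card p
  have h3 := family_lower14 h2 (by rw [hcard]; exact h19) hmon hdeg
    (exists_collision14 h1 hmon hdeg) hn
  have h4 := count_A14 g n
  rw [hcard] at h3 h4
  have h5 : ({v : Fin (n + 1) → ZMod p | ∃ f : (ZMod p)[X], coeffs14 n f = v ∧
      f.natDegree = n ∧ Irreducible (f.comp g)}).ncard ≤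
      {v : Fin (n + 1) → ZMod p | TypeA7 g (polyOf8 v) n}.ncard := by
    apply Set.ncard_le_ncard _ (Set.toFinite _)
    rintro v ⟨f, rfl, hfn, hirr⟩
    change TypeA7 g (polyOf8 (coeffs14 n f)) n
    rw [polyOf_coeffs14 hfn]
    exact ⟨hirr, hfn⟩
  have h6 : ((p : ℝ) - 1) * ((family g n).ncard : ℝ) ≤
      ({v : Fin (n + 1) → ZMod p | TypeA7 g (polyOf8 v) n}.ncard : ℝ) := by
    have h7 := h4.trans h5
    have h8 : (((p - 1) * (family g n).ncard : ℕ) : ℝ) =
        ((p : ℝ) - 1) * ((family g n).ncard : ℝ) := by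
      rw [Nat.cast_mul, Nat.cast_sub (by omega), Nat.cast_one]
    rw [← h8]
    exact_mod_cast h7
  refine le_trans ?_ h6
  have h7 : (p : ℝ) ^ n ≤ 6 * (n * ((family g n).ncard : ℝ)) := by exact_mod_cast h3
  have hp19 : (19 : ℝ) ≤ p := by exact_mod_cast h19
  rw [div_mul_eq_mul_div, one_mul, div_le_iff₀ (by positivity)]
  have h8 : (0 : ℝ) ≤ ((family g n).ncard : ℝ) := Nat.cast_nonneg _
  calc (p : ℝ) ^ (n + 1) = p * (p : ℝ) ^ n := by ring
    _ ≤ p * (6 * (n * ((family g n).ncard : ℝ))) := by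
        apply mul_le_mul_of_nonneg_left h7; linarith
    _ = 6 * p * (n * ((family g n).ncard : ℝ)) := by ring
    _ ≤ 72 * (p - 1) * (n * ((family g n).ncard : ℝ)) := by
        apply mul_le_mul_of_nonneg_right _ (by positivity)
        linarith
    _ = _ := by ring

/-- The number of the residue classes of type B. -/
theorem count_typeB7 (n : ℕ) (hn : 3 ≤ n) : ∃ c : ℝ, 0 < c ∧ ∃ P₀ : ℕ, ∀ p : ℕ, ∀ _ : Fact p.Prime,
    P₀ ≤ p → p % 3 = 1 → ∀ g : (ZMod p)[X], g.Monic → g.natDegree = 3 →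
      c * (p : ℝ) ^ (n + 1) ≤
        ({v : Fin (n + 1) → ZMod p | TypeB7 g (polyOf8 v) n}.ncard : ℝ) := by
  have hn0 : (0 : ℝ) < n := by exact_mod_cast (by omega : 0 < n)
  refine ⟨1 / (72 * n), by positivity, 19, fun p _ h19 h1 g hmon hdeg => ?_⟩
  have hp : p.Prime := Fact.out
  obtain ⟨h2, h3'⟩ := two_three_ne_zero14 hp (by omega)
  have hcard := ZMod.card p
  have h3 := family_lower14 h2 (by rw [hcard]; exact h19) hmon hdeg
    (exists_collision14 h1 hmon hdeg) (n := n - 1) (by omega)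
  have h4 := count_B14 hdeg hn
  have hV := values_lower14 h3' hmon hdeg
  rw [hcard] at h3 h4 hV
  set V := ({α : ZMod p | ∃ b : ZMod p, (derivative g).eval b ≠ 0 ∧ g.eval b = α}).ncard with hVd
  have h5 : ({v : Fin (n + 1) → ZMod p | ∃ f : (ZMod p)[X], coeffs14 n f = v ∧
      f.natDegree = n ∧ ∃ (b : ZMod p) (D₁ : (ZMod p)[X]), f = (X - C (g.eval b)) * D₁ ∧
        (derivative g).eval b ≠ 0 ∧ Irreducible (D₁.comp g)}).ncard ≤
      {v : Fin (n + 1) → ZMod p | TypeB7 g (polyOf8 v) n}.ncard := by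
    apply Set.ncard_le_ncard _ (Set.toFinite _)
    rintro v ⟨f, rfl, hfn, b, D₁, hf, hb, hirr⟩
    change TypeB7 g (polyOf8 (coeffs14 n f)) n
    rw [polyOf_coeffs14 hfn]
    exact ⟨b, D₁, hf, hb, hirr, hfn⟩
  have h6 : ((p : ℝ) - 1) * V * ((family g (n - 1)).ncard : ℝ) ≤
      ({v : Fin (n + 1) → ZMod p | TypeB7 g (polyOf8 v) n}.ncard : ℝ) := by
    have h7 := h4.trans h5
    have h8 : (((p - 1) * V * (family g (n - 1)).ncard : ℕ) : ℝ) =
        ((p : ℝ) - 1) * V * ((family g (n - 1)).ncard : ℝ) := by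
      rw [Nat.cast_mul, Nat.cast_mul, Nat.cast_sub (by omega), Nat.cast_one]
    rw [← h8]
    exact_mod_cast h7
  refine le_trans ?_ h6
  have h7 : (p : ℝ) ^ (n - 1) ≤ 6 * (((n - 1 : ℕ) : ℝ) * ((family g (n - 1)).ncard : ℝ)) := by
    exact_mod_cast h3
  have hp19 : (19 : ℝ) ≤ p := by exact_mod_cast h19
  have h8 : (0 : ℝ) ≤ ((family g (n - 1)).ncard : ℝ) := Nat.cast_nonneg _
  have h9 : (p : ℝ) ^ (n - 1) ≤ 6 * (n * ((family g (n - 1)).ncard : ℝ)) := by
    refine h7.trans ?_
    have : ((n - 1 : ℕ) : ℝ) ≤ n := by exact_mod_cast Nat.sub_le _ _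
    nlinarith [mul_le_mul_of_nonneg_right this h8]
  have h10 : (p : ℝ) - 2 ≤ 3 * V := by
    have : p ≤ 3 * V + 2 := by omega
    have h11 : (p : ℝ) ≤ 3 * V + 2 := by exact_mod_cast this
    linarith
  rw [div_mul_eq_mul_div, one_mul, div_le_iff₀ (by positivity)]
  have h12 : (p : ℝ) ^ (n + 1) = p ^ 2 * (p : ℝ) ^ (n - 1) := by
    rw [← pow_add]
    congr 1
    omega
  have h13 : (p : ℝ) ^ 2 ≤ 4 * ((p - 1) * (3 * V)) := by
    nlinarith [mul_le_mul_of_nonneg_left h10 (show (0 : ℝ) ≤ p - 1 by linarith)]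
  calc (p : ℝ) ^ (n + 1) = p ^ 2 * (p : ℝ) ^ (n - 1) := h12
    _ ≤ 4 * ((p - 1) * (3 * V)) * (6 * (n * ((family g (n - 1)).ncard : ℝ))) := by
        apply mul_le_mul h13 h9 (by positivity)
        apply le_trans _ h13
        positivity
    _ = _ := by ring

end Pool.Agent.Lib.MP_89bcae_ag

end

section

/-!
# Counting polynomials modulo `p` and modulo `p ^ 2`, for `g` of any degree
-/

open Polynomial

open scoped Classical

set_option linter.unusedSimpArgs false
set_option linter.unusedVariables false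
set_option linter.unusedSectionVars false
set_option linter.style.haveILetI false

namespace Pool.Agent.Lib.MP_89bcae_ag

section Crit

variable {K : Type*} [Field K]

/-- A polynomial with nonzero derivative has less than `deg g` critical values. -/
theorem card_crit14 {g : K[X]} (hder : derivative g ≠ 0)
    (S : Finset K) (hS : ∀ e ∈ S, ¬ (g - C e).Separable) : S.card ≤ g.natDegree - 1 := by
  let L := AlgebraicClosure K
  have hex : ∀ e ∈ S, ∃ θ ∈ ((derivative g).aroots L).toFinset, aeval θ g = algebraMap K L e := by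
    intro e he
    have h1 := hS e he
    rw [Polynomial.Separable, Polynomial.isCoprime_iff_aeval_ne_zero_of_isAlgClosed K L] at h1
    push Not at h1
    obtain ⟨θ, h4, h5⟩ := h1
    rw [derivative_sub, derivative_C, sub_zero] at h5
    rw [map_sub, aeval_C, sub_eq_zero] at h4
    exact ⟨θ, by rw [Multiset.mem_toFinset, mem_aroots]; exact ⟨hder, h5⟩, h4⟩
  choose! f hf1 hf2 using hex
  have h6 : S.card ≤ ((derivative g).aroots L).toFinset.card := by
    apply Finset.card_le_card_of_injOn f hf1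
    intro x hx y hy hxy
    apply (algebraMap K L).injective
    rw [← hf2 x hx, ← hf2 y hy, hxy]
  refine h6.trans ((Multiset.toFinset_card_le _).trans ?_)
  refine (card_roots' _).trans ?_
  rw [natDegree_map]
  exact natDegree_derivative_le g

/-- The derivative of a monic polynomial of degree `m ≠ 0` in `K` is not zero. -/
lemma derivative_ne_zero14 {g : K[X]} (hg : g.Monic) (h : (g.natDegree : K) ≠ 0) :
    derivative g ≠ 0 := by
  intro h0
  have hd : g.natDegree ≠ 0 := by
    intro h1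
    rw [h1, Nat.cast_zero] at h
    exact h rfl
  obtain ⟨d, hd'⟩ := Nat.exists_eq_succ_of_ne_zero hd
  have h1 : (derivative g).coeff d = 0 := by rw [h0, coeff_zero]
  rw [coeff_derivative] at h1
  have h2 : g.coeff (d + 1) = 1 := by
    have h3 := hg.coeff_natDegree
    rwa [hd', Nat.succ_eq_add_one] at h3
  rw [h2, one_mul] at h1
  apply h
  rw [hd', Nat.succ_eq_add_one]
  push_cast
  exact h1

end Crit

section Irr

/-- The number of the irreducible polynomials. -/
lemma irr_lower14 {k : Type} [Field k] [Fintype k] (hq : 3 ≤ Fintype.card k) {n : ℕ} (hn : 2 ≤ n) :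
    Fintype.card k ^ n ≤ 2 * (n * (family (X : k[X]) n).ncard) := by
  have hfin := family_finite8 (X : k[X]) n
  have hfam : ∀ D ∈ hfin.toFinset, D.Monic ∧ D.natDegree = n ∧ Irreducible D := by
    intro D hD
    rw [Set.Finite.mem_toFinset] at hD
    exact ⟨hD.1, hD.2.1, by simpa using hD.2.2⟩
  have hcard : hfin.toFinset.card = (family (X : k[X]) n).ncard :=
    (Set.ncard_eq_toFinset_card _ hfin).symm
  obtain ⟨A, hA1, hA2⟩ := exists_roots_card8 (F := AlgebraicClosure k) n hfin.toFinset hfam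
  have h1 := Frob14.card_fixS (k := k) (F := AlgebraicClosure k) (i := n) (by omega)
  have h2 := Frob14.small_card (k := k) (F := AlgebraicClosure k) n (by omega)
  have h3 := Frob14.two_mul_sum_pow_le hq (n / 2)
  have h4 : 3 * Fintype.card k ^ (n / 2) ≤ Fintype.card k ^ n := by
    calc 3 * Fintype.card k ^ (n / 2) ≤ Fintype.card k * Fintype.card k ^ (n - 1) :=
          Nat.mul_le_mul hq (Nat.pow_le_pow_right (by omega) (by omega))
      _ = Fintype.card k ^ n := by
          rw [← pow_succ']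
          congr 1
          omega
  have h5 := Finset.card_filter_add_card_filter_not (s := Frob14.fixS k (AlgebraicClosure k) n)
    (fun v => ∃ j, 0 < j ∧ j < n ∧ v ^ (Fintype.card k ^ j) = v)
  have h6 : ((Frob14.fixS k (AlgebraicClosure k) n).filter
      (fun v => ¬ ∃ j, 0 < j ∧ j < n ∧ v ^ (Fintype.card k ^ j) = v)).card ≤ A.card := by
    apply Finset.card_le_card
    intro a ha
    rw [Finset.mem_filter, Frob14.mem_fixS (by omega)] at ha
    obtain ⟨ha1, ha2⟩ := ha
    rw [hA1, Set.Finite.mem_toFinset]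
    have hint : IsIntegral k a := Algebra.IsIntegral.isIntegral a
    refine ⟨minpoly.monic hint, ?_, ?_⟩
    · have h1 : (minpoly k a).natDegree ∣ n := by
        rw [← frob8_pow_eq_iff, frob8_pow_apply, ha1]
      have h2 := Nat.le_of_dvd (by omega) h1
      have h3 : 0 < (minpoly k a).natDegree := minpoly.natDegree_pos hint
      by_contra h4
      apply ha2
      refine ⟨(minpoly k a).natDegree, h3, lt_of_le_of_ne h2 h4, ?_⟩
      rw [← frob8_pow_apply, frob8_pow_eq_iff]
    · rw [comp_X]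
      exact minpoly.irreducible hint
  rw [hA2, hcard] at h6
  omega

variable {k : Type} [Field k] [Fintype k]

/-- The number of the products of a linear and an irreducible polynomial. -/
lemma count_BX14 {n : ℕ} (hn : 3 ≤ n) :
    (Fintype.card k - 1) * Fintype.card k * (family (X : k[X]) (n - 1)).ncard ≤
      ({v : Fin (n + 1) → k | ∃ f : k[X], coeffs14 n f = v ∧ f.natDegree = n ∧
        ∃ (b : k) (D₁ : k[X]), f = (X - C b) * D₁ ∧ Irreducible D₁ ∧ D₁.natDegree = n - 1}).ncard := by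
  have huniv : Fintype.card k = (Set.univ : Set k).ncard := by
    rw [Set.ncard_univ, Nat.card_eq_fintype_card]
  rw [← ncard_ne_zero14]
  conv_lhs => rw [huniv]
  rw [← Set.ncard_prod, ← Set.ncard_prod]
  apply Set.ncard_le_ncard_of_injOn
    (fun x : (k × k) × k[X] => coeffs14 n (C x.1.1 * ((X - C x.1.2) * x.2)))
  · rintro ⟨⟨u, α⟩, D⟩ ⟨⟨hu, -⟩, h1, h2, h3⟩
    simp only at hu h1 h2 h3
    rw [comp_X] at h3
    refine ⟨_, rfl, ?_, α, C u * D, ?_, ?_, ?_⟩
    · change (C u * ((X - C α) * D)).natDegree = n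
      rw [natDegree_C_mul hu, (monic_X_sub_C α).natDegree_mul h1, natDegree_X_sub_C, h2]
      omega
    · change C u * ((X - C α) * D) = _
      ring
    · have hu' : IsUnit (C u : k[X]) := isUnit_C.mpr (isUnit_iff_ne_zero.mpr hu)
      rw [irreducible_isUnit_mul hu']
      exact h3
    · rw [natDegree_C_mul hu, h2]
  · rintro ⟨⟨u, α⟩, D⟩ ⟨⟨hu, -⟩, h1, h2, h3⟩ ⟨⟨u', α'⟩, D'⟩ ⟨⟨hu', -⟩, h1', h2', h3'⟩ h
    simp only at hu hu' h1 h2 h3 h1' h2' h3' h
    rw [comp_X] at h3 h3'
    have hdg : ∀ (u α : k) (D : k[X]), u ≠ 0 → D.Monic → D.natDegree = n - 1 →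
        (C u * ((X - C α) * D)).natDegree ≤ n := by
      intro u α D hu h1 h2
      rw [natDegree_C_mul hu, (monic_X_sub_C α).natDegree_mul h1, natDegree_X_sub_C, h2]
      omega
    have h4 := coeffs_inj14 (hdg u α D hu h1 h2) (hdg u' α' D' hu' h1' h2') h
    have h5 := congrArg leadingCoeff h4
    rw [leadingCoeff_mul, leadingCoeff_C, ((monic_X_sub_C α).mul h1).leadingCoeff, mul_one,
      leadingCoeff_mul, leadingCoeff_C, ((monic_X_sub_C α').mul h1').leadingCoeff, mul_one] at h5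
    subst h5
    have h6 := mul_left_cancel₀ (C_ne_zero.mpr hu) h4
    have h7 : α = α' := by
      by_contra hne
      have h8 := congrArg (eval α) h6
      rw [eval_mul, eval_sub, eval_X, eval_C, sub_self, zero_mul, eval_mul, eval_sub, eval_X,
        eval_C, eq_comm, mul_eq_zero] at h8
      rcases h8 with h8 | h8
      · exact hne (sub_eq_zero.mp h8)
      · have h9 : D'.natDegree = 1 := natDegree_eq_of_degree_eq_some
          (degree_eq_one_of_irreducible_of_root h3' h8)
        rw [h2'] at h9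
        omega
    subst h7
    rw [Prod.mk.injEq]
    exact ⟨rfl, mul_left_cancel₀ (X_sub_C_ne_zero α) h6⟩

end Irr

/-- The polynomial is irreducible of degree `n`. -/
def TypeAX14 {κ : Type} [Field κ] (D : κ[X]) (n : ℕ) : Prop :=
  Irreducible D ∧ D.natDegree = n

/-- The polynomial is the product of a linear polynomial and an irreducible polynomial of degree
`n - 1`. -/
def TypeBX14 {κ : Type} [Field κ] (D : κ[X]) (n : ℕ) : Prop :=
  ∃ (b : κ) (D₁ : κ[X]), D = (X - C b) * D₁ ∧ Irreducible D₁ ∧ D₁.natDegree = n - 1 ∧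
    D.natDegree = n

/-- The polynomial `D` has degree `n` and `D(g)` is separable. -/
def TypeS14 {κ : Type} [Field κ] (g D : κ[X]) (n : ℕ) : Prop :=
  D.natDegree = n ∧ (D.comp g).Separable

/-- The number of the residue classes of type A. -/
theorem count_typeAX14 (n : ℕ) (hn : 2 ≤ n) : ∃ c : ℝ, 0 < c ∧ ∃ P₀ : ℕ, ∀ p : ℕ,
    ∀ _ : Fact p.Prime, P₀ ≤ p →
      c * (p : ℝ) ^ (n + 1) ≤
        ({v : Fin (n + 1) → ZMod p | TypeAX14 (polyOf8 v) n}.ncard : ℝ) := by
  have hn0 : (0 : ℝ) < n := by exact_mod_cast (by omega : 0 < n)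
  refine ⟨1 / (4 * n), by positivity, 3, fun p _ hp3 => ?_⟩
  have hp : p.Prime := Fact.out
  have hcard := ZMod.card p
  have h3 := irr_lower14 (k := ZMod p) (by rw [hcard]; exact hp3) hn
  have h4 := count_A14 (X : (ZMod p)[X]) n
  rw [hcard] at h3 h4
  have h5 : ({v : Fin (n + 1) → ZMod p | ∃ f : (ZMod p)[X], coeffs14 n f = v ∧
      f.natDegree = n ∧ Irreducible (f.comp X)}).ncard ≤
      {v : Fin (n + 1) → ZMod p | TypeAX14 (polyOf8 v) n}.ncard := by
    apply Set.ncard_le_ncard _ (Set.toFinite _)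
    rintro v ⟨f, rfl, hfn, hirr⟩
    change TypeAX14 (polyOf8 (coeffs14 n f)) n
    rw [polyOf_coeffs14 hfn]
    rw [comp_X] at hirr
    exact ⟨hirr, hfn⟩
  have h6 : ((p : ℝ) - 1) * ((family (X : (ZMod p)[X]) n).ncard : ℝ) ≤
      ({v : Fin (n + 1) → ZMod p | TypeAX14 (polyOf8 v) n}.ncard : ℝ) := by
    have h7 := h4.trans h5
    have h8 : (((p - 1) * (family (X : (ZMod p)[X]) n).ncard : ℕ) : ℝ) =
        ((p : ℝ) - 1) * ((family (X : (ZMod p)[X]) n).ncard : ℝ) := by
      rw [Nat.cast_mul, Nat.cast_sub (by omega), Nat.cast_one]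
    rw [← h8]
    exact_mod_cast h7
  refine le_trans ?_ h6
  have h7 : (p : ℝ) ^ n ≤ 2 * (n * ((family (X : (ZMod p)[X]) n).ncard : ℝ)) := by
    exact_mod_cast h3
  have hp3' : (3 : ℝ) ≤ p := by exact_mod_cast hp3
  rw [div_mul_eq_mul_div, one_mul, div_le_iff₀ (by positivity)]
  have h8 : (0 : ℝ) ≤ ((family (X : (ZMod p)[X]) n).ncard : ℝ) := Nat.cast_nonneg _
  calc (p : ℝ) ^ (n + 1) = p * (p : ℝ) ^ n := by ring
    _ ≤ p * (2 * (n * ((family (X : (ZMod p)[X]) n).ncard : ℝ))) := by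
        apply mul_le_mul_of_nonneg_left h7; linarith
    _ = 2 * p * (n * ((family (X : (ZMod p)[X]) n).ncard : ℝ)) := by ring
    _ ≤ 4 * (p - 1) * (n * ((family (X : (ZMod p)[X]) n).ncard : ℝ)) := by
        apply mul_le_mul_of_nonneg_right _ (by positivity)
        linarith
    _ = _ := by ring

/-- The number of the residue classes of type B. -/
theorem count_typeBX14 (n : ℕ) (hn : 3 ≤ n) : ∃ c : ℝ, 0 < c ∧ ∃ P₀ : ℕ, ∀ p : ℕ,
    ∀ _ : Fact p.Prime, P₀ ≤ p →
      c * (p : ℝ) ^ (n + 1) ≤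
        ({v : Fin (n + 1) → ZMod p | TypeBX14 (polyOf8 v) n}.ncard : ℝ) := by
  have hn0 : (0 : ℝ) < n := by exact_mod_cast (by omega : 0 < n)
  refine ⟨1 / (4 * n), by positivity, 3, fun p _ hp3 => ?_⟩
  have hp : p.Prime := Fact.out
  have hcard := ZMod.card p
  have h3 := irr_lower14 (k := ZMod p) (by rw [hcard]; exact hp3) (n := n - 1) (by omega)
  have h4 := count_BX14 (k := ZMod p) hn
  rw [hcard] at h3 h4
  have h5 : ({v : Fin (n + 1) → ZMod p | ∃ f : (ZMod p)[X], coeffs14 n f = v ∧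
      f.natDegree = n ∧ ∃ (b : ZMod p) (D₁ : (ZMod p)[X]), f = (X - C b) * D₁ ∧
        Irreducible D₁ ∧ D₁.natDegree = n - 1}).ncard ≤
      {v : Fin (n + 1) → ZMod p | TypeBX14 (polyOf8 v) n}.ncard := by
    apply Set.ncard_le_ncard _ (Set.toFinite _)
    rintro v ⟨f, rfl, hfn, b, D₁, hf, hirr, hd⟩
    change TypeBX14 (polyOf8 (coeffs14 n f)) n
    rw [polyOf_coeffs14 hfn]
    exact ⟨b, D₁, hf, hirr, hd, hfn⟩
  have h6 : ((p : ℝ) - 1) * p * ((family (X : (ZMod p)[X]) (n - 1)).ncard : ℝ) ≤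
      ({v : Fin (n + 1) → ZMod p | TypeBX14 (polyOf8 v) n}.ncard : ℝ) := by
    have h7 := h4.trans h5
    have h8 : (((p - 1) * p * (family (X : (ZMod p)[X]) (n - 1)).ncard : ℕ) : ℝ) =
        ((p : ℝ) - 1) * p * ((family (X : (ZMod p)[X]) (n - 1)).ncard : ℝ) := by
      rw [Nat.cast_mul, Nat.cast_mul, Nat.cast_sub (by omega), Nat.cast_one]
    rw [← h8]
    exact_mod_cast h7
  refine le_trans ?_ h6
  have h7 : (p : ℝ) ^ (n - 1) ≤
      2 * (((n - 1 : ℕ) : ℝ) * ((family (X : (ZMod p)[X]) (n - 1)).ncard : ℝ)) := by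
    exact_mod_cast h3
  have hp3' : (3 : ℝ) ≤ p := by exact_mod_cast hp3
  have h8 : (0 : ℝ) ≤ ((family (X : (ZMod p)[X]) (n - 1)).ncard : ℝ) := Nat.cast_nonneg _
  have h9 : (p : ℝ) ^ (n - 1) ≤ 2 * (n * ((family (X : (ZMod p)[X]) (n - 1)).ncard : ℝ)) := by
    refine h7.trans ?_
    have : ((n - 1 : ℕ) : ℝ) ≤ n := by exact_mod_cast Nat.sub_le _ _
    nlinarith [mul_le_mul_of_nonneg_right this h8]
  rw [div_mul_eq_mul_div, one_mul, div_le_iff₀ (by positivity)]
  have h12 : (p : ℝ) ^ (n + 1) = p ^ 2 * (p : ℝ) ^ (n - 1) := by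
    rw [← pow_add]
    congr 1
    omega
  have h13 : (p : ℝ) ^ 2 ≤ 2 * ((p - 1) * p) := by nlinarith
  calc (p : ℝ) ^ (n + 1) = p ^ 2 * (p : ℝ) ^ (n - 1) := h12
    _ ≤ 2 * ((p - 1) * p) * (2 * (n * ((family (X : (ZMod p)[X]) (n - 1)).ncard : ℝ))) := by
        apply mul_le_mul h13 h9 (by positivity)
        apply le_trans _ h13
        positivity
    _ = _ := by ring

end Pool.Agent.Lib.MP_89bcae_ag

end

section

/-!
# Frobenius elements acting on the roots of `D`
-/

open Polynomial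

open scoped Classical

set_option linter.unusedSimpArgs false
set_option linter.unusedVariables false
set_option linter.unusedSectionVars false
set_option linter.style.haveILetI false

namespace Pool.Agent.Lib.MP_89bcae_ag

section Frob

variable {R K F κ : Type*} [CommRing R] [IsDomain R] [IsIntegrallyClosed R] [Field K]
  [Algebra R K] [IsFractionRing R K] [Field F] [Algebra K F] [Algebra R F] [IsScalarTower R K F]
  [IsAlgClosed F] [Algebra.IsAlgebraic K F]
  [Field κ] [Fintype κ]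

variable (K F) in
/-- A Frobenius element which fixes one root and is transitive on the other ones. -/
theorem frob_typeBX14 {π : R →+* κ} (hπ : Function.Surjective π) {D : R[X]}
    (hu : IsUnit D.leadingCoeff) (hsep : (D.map (algebraMap R K)).Separable) {b : κ} {D₁ : κ[X]}
    (hD : D.map π = (X - C b) * D₁) (hirr : Irreducible D₁) (hdeg : 2 ≤ D₁.natDegree) :
    ∃ (φ : F ≃ₐ[K] F) (z : F), aeval z D = 0 ∧ φ z = z ∧
      ∀ x y : F, aeval x D = 0 → aeval y D = 0 → x ≠ z → y ≠ z → ∃ i : ℕ, (φ ^ i) x = y := by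
  have hinjR : Function.Injective (algebraMap R F) := by
    rw [IsScalarTower.algebraMap_eq R K F]
    exact (algebraMap K F).injective.comp (IsFractionRing.injective R K)
  have hfaith : FaithfulSMul R F := (faithfulSMul_iff_algebraMap_injective R F).mpr hinjR
  obtain ⟨ρ, φ, hρ, hφ⟩ := exists_frob_roots14 (F := F) (Fκ := AlgebraicClosure κ) hπ hu hsep
  set Fκ := AlgebraicClosure κ with hFκ
  set β : Fκ := algebraMap κ Fκ b with hβ
  have hD1 : D₁.eval b ≠ 0 := by
    intro h0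
    have h3 : D₁.natDegree = 1 :=
      natDegree_eq_of_degree_eq_some (degree_eq_one_of_irreducible_of_root hirr h0)
    omega
  have hDβ : aeval β D₁ ≠ 0 := by
    rw [hβ, aeval_algebraMap_apply, coe_aeval_eq_eval]
    exact (_root_.map_ne_zero _).mpr hD1
  have hint : ∀ x : F, aeval x D = 0 → IsIntegral R x := fun x hx => integral_root14 hu hx
  -- the root `z`
  obtain ⟨z, hz, hzr, hzβ⟩ := exists_lift_root14 hρ hu (β := β) (by
    rw [hD, map_mul, map_sub, aeval_X, aeval_C, hβ, sub_self, zero_mul])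
  have hsimple : aeval β (derivative (D.map π)) ≠ 0 := by
    rw [hD, derivative_mul, derivative_sub, derivative_X, derivative_C, sub_zero, one_mul, map_add,
      map_mul, map_sub, aeval_X, aeval_C, hβ, sub_self, zero_mul, add_zero]
    exact hDβ
  have hkey : ∀ (x : F) (hx : aeval x D = 0), x ≠ z → aeval (ρ ⟨x, hint x hx⟩) D₁ = 0 := by
    intro x hx hne
    have h1 := red_root14 hρ (hint x hx) hx
    rw [hD, map_mul] at h1
    rcases mul_eq_zero.mp h1 with h2 | h2
    · exfalso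
      apply hne
      rw [map_sub, aeval_X, aeval_C, sub_eq_zero] at h2
      exact eq_of_red14 hρ (f := D) (hint x hx) hz hx hzr (by rw [h2, hzβ])
        (by rw [h2]; exact hsimple)
    · exact h2
  refine ⟨φ, z, hzr, ?_, ?_⟩
  · obtain ⟨h1, h2, h3⟩ := hφ 1 z hzr hz
    rw [pow_one] at h1 h2
    simp only [pow_one] at h3
    have h4 : frob8 κ Fκ β = β := by rw [hβ, AlgEquiv.commutes]
    refine eq_of_red14 hρ h2 hz h1 hzr (by rw [h3, hzβ, h4]) (by rw [h3, hzβ, h4]; exact hsimple)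
  · intro x y hx hy hxz hyz
    obtain ⟨i, -, hi⟩ := exists_frob8_pow hirr (hkey x hx hxz) (hkey y hy hyz)
    obtain ⟨h1, h2, h3⟩ := hφ i x hx (hint x hx)
    refine ⟨i, eq_of_red14 hρ h2 (hint y hy) h1 hy (by rw [h3, hi]) ?_⟩
    have hsepκ : D₁.Separable := PerfectField.separable_of_irreducible hirr
    have hr : aeval (ρ ⟨(φ ^ i) x, h2⟩) D₁ = 0 := by
      rw [h3, ← hi]
      exact hkey y hy hyz
    have hder : aeval (ρ ⟨(φ ^ i) x, h2⟩) (derivative D₁) ≠ 0 := by
      intro h4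
      obtain ⟨a', b', hab⟩ := hsepκ
      have h5 := congrArg (aeval (ρ ⟨(φ ^ i) x, h2⟩)) hab
      rw [map_add, map_mul, map_mul, hr, h4, mul_zero, mul_zero, add_zero, map_one] at h5
      exact zero_ne_one h5
    rw [hD, derivative_mul, map_add, map_mul, map_mul, hr, mul_zero, zero_add]
    apply mul_ne_zero _ hder
    rw [map_sub, aeval_X, aeval_C, sub_ne_zero]
    intro h4
    apply hDβ
    rw [hβ, ← h4]
    exact hr

end Frob

section Int

variable {K F : Type*} [Field K] [Field F] [Algebra K F] [IsAlgClosed F] [Algebra.IsAlgebraic K F]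

/-- The degree and the leading coefficient. -/
lemma lead_of_red14 {p : ℕ} [Fact p.Prime] {D : ℤ[X]} {n : ℕ} (hD : D.natDegree ≤ n) (hn : 1 ≤ n)
    (h : (D.map (Int.castRingHom (ZMod p))).natDegree = n) :
    D.natDegree = n ∧ (D.leadingCoeff : ZMod p) ≠ 0 := by
  have h6 : D.natDegree = n := le_antisymm hD (h ▸ natDegree_map_le)
  refine ⟨h6, ?_⟩
  have h7 : (D.leadingCoeff : ZMod p) = (D.map (Int.castRingHom (ZMod p))).leadingCoeff := by
    rw [leadingCoeff, leadingCoeff, h, h6, coeff_map]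
    rfl
  rw [h7, leadingCoeff_ne_zero]
  intro h8
  rw [h8, natDegree_zero] at h
  omega

/-- Type A over a ring with residue field `ZMod p`. -/
theorem typeAX_of_ring14 (R : Type*) [CommRing R] [IsDomain R] [IsIntegrallyClosed R]
    [Algebra R K] [IsFractionRing R K] {p : ℕ} [Fact p.Prime] (π : R →+* ZMod p)
    (hπ : Function.Surjective π) (hunit : ∀ z : ℤ, (z : ZMod p) ≠ 0 → IsUnit (z : R))
    [CharZero K] {D : ℤ[X]} {n : ℕ} (hD : D.natDegree ≤ n) (hn : 1 ≤ n)
    (h : TypeAX14 (D.map (Int.castRingHom (ZMod p))) n) :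
    ∃ φ : F ≃ₐ[K] F, ∀ x y : F, aeval x (D.map (Int.castRingHom K)) = 0 →
      aeval y (D.map (Int.castRingHom K)) = 0 → ∃ i : ℕ, (φ ^ i) x = y := by
  obtain ⟨hirr, hdn⟩ := h
  obtain ⟨hDn, hlc⟩ := lead_of_red14 hD hn hdn
  letI : Algebra R F := ((algebraMap K F).comp (algebraMap R K)).toAlgebra
  haveI : IsScalarTower R K F := IsScalarTower.of_algebraMap_eq fun _ => rfl
  have hRK : (algebraMap R K).comp (Int.castRingHom R) = Int.castRingHom K := RingHom.ext_int _ _
  have hinjZ : Function.Injective (Int.castRingHom R) := by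
    have h1 : Function.Injective ((algebraMap R K).comp (Int.castRingHom R)) := by
      rw [hRK]
      exact (Int.castRingHom K).injective_int
    exact Function.Injective.of_comp h1
  haveI hfaith : FaithfulSMul R F := (faithfulSMul_iff_algebraMap_injective R F).mpr
    ((algebraMap K F).injective.comp (IsFractionRing.injective R K))
  have hcomp : π.comp (Int.castRingHom R) = Int.castRingHom (ZMod p) := RingHom.ext_int _ _
  have hu' : IsUnit (D.map (Int.castRingHom R)).leadingCoeff := by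
    rw [leadingCoeff_map_of_injective hinjZ]
    exact hunit _ hlc
  have hirr' : Irreducible ((D.map (Int.castRingHom R)).map π) := by
    rw [Polynomial.map_map, hcomp]
    exact hirr
  have hQ : (D.map (Int.castRingHom R)).map (algebraMap R K) = D.map (Int.castRingHom K) := by
    rw [Polynomial.map_map, hRK]
  have hsep := separable_of_red14 (K := K) F hπ hu' (PerfectField.separable_of_irreducible hirr')
  obtain ⟨φ, hφ⟩ := frob_typeA14 K F hπ hu' hsep hirr'
  refine ⟨φ, fun x y hx hy => hφ x y ?_ ?_⟩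
  · rw [← aeval_map_algebraMap K, hQ]
    exact hx
  · rw [← aeval_map_algebraMap K, hQ]
    exact hy

/-- Type B over a ring with residue field `ZMod p`. -/
theorem typeBX_of_ring14 (R : Type*) [CommRing R] [IsDomain R] [IsIntegrallyClosed R]
    [Algebra R K] [IsFractionRing R K] {p : ℕ} [Fact p.Prime] (π : R →+* ZMod p)
    (hπ : Function.Surjective π) (hunit : ∀ z : ℤ, (z : ZMod p) ≠ 0 → IsUnit (z : R))
    [CharZero K] {D : ℤ[X]} {n : ℕ} (hD : D.natDegree ≤ n) (hn : 3 ≤ n)
    (hsep : (D.map (Int.castRingHom K)).Separable)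
    (h : TypeBX14 (D.map (Int.castRingHom (ZMod p))) n) :
    ∃ (φ : F ≃ₐ[K] F) (z : F), aeval z (D.map (Int.castRingHom K)) = 0 ∧ φ z = z ∧
      ∀ x y : F, aeval x (D.map (Int.castRingHom K)) = 0 →
        aeval y (D.map (Int.castRingHom K)) = 0 → x ≠ z → y ≠ z → ∃ i : ℕ, (φ ^ i) x = y := by
  obtain ⟨b, D₁, hD1, hirr, hd1, hdn⟩ := h
  obtain ⟨hDn, hlc⟩ := lead_of_red14 hD (by omega) hdn
  letI : Algebra R F := ((algebraMap K F).comp (algebraMap R K)).toAlgebra
  haveI : IsScalarTower R K F := IsScalarTower.of_algebraMap_eq fun _ => rfl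
  have hRK : (algebraMap R K).comp (Int.castRingHom R) = Int.castRingHom K := RingHom.ext_int _ _
  have hinjZ : Function.Injective (Int.castRingHom R) := by
    have h1 : Function.Injective ((algebraMap R K).comp (Int.castRingHom R)) := by
      rw [hRK]
      exact (Int.castRingHom K).injective_int
    exact Function.Injective.of_comp h1
  have hcomp : π.comp (Int.castRingHom R) = Int.castRingHom (ZMod p) := RingHom.ext_int _ _
  have hu' : IsUnit (D.map (Int.castRingHom R)).leadingCoeff := by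
    rw [leadingCoeff_map_of_injective hinjZ]
    exact hunit _ hlc
  have hQ : (D.map (Int.castRingHom R)).map (algebraMap R K) = D.map (Int.castRingHom K) := by
    rw [Polynomial.map_map, hRK]
  obtain ⟨φ, z, hz, hzz, hφ⟩ := frob_typeBX14 K F hπ hu' (by rw [hQ]; exact hsep)
    (b := b) (D₁ := D₁) (by rw [Polynomial.map_map, hcomp]; exact hD1) hirr (by omega)
  have hc : ∀ x : F, aeval x (D.map (Int.castRingHom R)) = aeval x (D.map (Int.castRingHom K)) := by
    intro x
    rw [← aeval_map_algebraMap K, hQ]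
  refine ⟨φ, z, by rw [← hc]; exact hz, hzz, fun x y hx hy hxz hyz => hφ x y ?_ ?_ hxz hyz⟩
  · rw [hc]; exact hx
  · rw [hc]; exact hy

/-- Types A and B give the transitivity on the pairs of roots of `D`. -/
theorem pairTransitiveX14 {D : K[X]}
    (hA : ∃ φ : F ≃ₐ[K] F, ∀ x y : F, aeval x D = 0 → aeval y D = 0 → ∃ i : ℕ, (φ ^ i) x = y)
    (hB : ∃ (φ : F ≃ₐ[K] F) (z : F), aeval z D = 0 ∧ φ z = z ∧
      ∀ x y : F, aeval x D = 0 → aeval y D = 0 → x ≠ z → y ≠ z → ∃ i : ℕ, (φ ^ i) x = y) :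
    IsPairTransitive7 K F X D := by
  apply pairTransitive14
  · rw [comp_X]
    exact hA
  · rw [comp_X]
    obtain ⟨φ, z, h1, h2, h3⟩ := hB
    refine ⟨φ, z, h1, h2, fun x y hx hy hxz hyz => h3 x y hx hy ?_ ?_⟩
    · simpa using hxz
    · simpa using hyz

/-- Type S gives separability over the rational numbers. -/
theorem separable_of_typeS_aux14 (F₀ : Type*) [Field F₀] [Algebra ℚ F₀] [IsAlgClosed F₀]
    [Algebra.IsAlgebraic ℚ F₀] {g D : ℤ[X]} (hg : g.Monic) (hd : g.natDegree ≠ 0)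
    {p : ℕ} [Fact p.Prime] (hlc : (D.leadingCoeff : ZMod p) ≠ 0)
    (hs : ((D.map (Int.castRingHom (ZMod p))).comp (g.map (Int.castRingHom (ZMod p)))).Separable) :
    ((D.comp g).map (Int.castRingHom ℚ)).Separable := by
  obtain ⟨R, _, _, _, _, _, π, hπ, hπu⟩ := exists_local_ring14 (Fact.out : p.Prime)
  letI : Algebra R F₀ := ((algebraMap ℚ F₀).comp (algebraMap R ℚ)).toAlgebra
  haveI : IsScalarTower R ℚ F₀ := IsScalarTower.of_algebraMap_eq fun _ => rfl
  have hRQ : (algebraMap R ℚ).comp (Int.castRingHom R) = Int.castRingHom ℚ := RingHom.ext_int _ _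
  have hinjZ : Function.Injective (Int.castRingHom R) := by
    have h1 : Function.Injective ((algebraMap R ℚ).comp (Int.castRingHom R)) := by
      rw [hRQ]
      exact (Int.castRingHom ℚ).injective_int
    exact Function.Injective.of_comp h1
  haveI hfaith : FaithfulSMul R F₀ :=
    (faithfulSMul_iff_algebraMap_injective R _).mpr
      ((algebraMap ℚ F₀).injective.comp (IsFractionRing.injective R ℚ))
  have hcomp : π.comp (Int.castRingHom R) = Int.castRingHom (ZMod p) := RingHom.ext_int _ _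
  have hu' : IsUnit ((D.comp g).map (Int.castRingHom R)).leadingCoeff := by
    rw [leadingCoeff_map_of_injective hinjZ, leadingCoeff_comp hd, hg.leadingCoeff,
      one_pow, mul_one]
    exact hπu _ hlc
  have hsep := separable_of_red14 (K := ℚ) F₀ hπ hu' (by
    rw [Polynomial.map_map, hcomp, Polynomial.map_comp]
    exact hs)
  rwa [Polynomial.map_map, hRQ] at hsep

lemma exists_closure14 (k : Type) [Field k] : ∃ (F₀ : Type) (_ : Field F₀) (_ : Algebra k F₀)
    (_ : IsAlgClosed F₀), Algebra.IsAlgebraic k F₀ :=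
  ⟨AlgebraicClosure k, inferInstance, inferInstance, inferInstance, inferInstance⟩

variable (K) in
/-- Type S gives separability. -/
theorem separable_of_typeS14 [CharZero K] {g D : ℤ[X]} (hg : g.Monic) (hd : g.natDegree ≠ 0)
    {n : ℕ} (hD : D.natDegree ≤ n) (hn : 1 ≤ n) {p : ℕ} [Fact p.Prime]
    (h : TypeS14 (g.map (Int.castRingHom (ZMod p))) (D.map (Int.castRingHom (ZMod p))) n) :
    D.natDegree = n ∧ ((D.comp g).map (Int.castRingHom K)).Separable := by
  obtain ⟨hdn, hs⟩ := h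
  obtain ⟨hDn, hlc⟩ := lead_of_red14 hD hn hdn
  refine ⟨hDn, ?_⟩
  obtain ⟨F₀, _, _, _, _⟩ := exists_closure14 ℚ
  have h1 := (separable_of_typeS_aux14 F₀ hg hd hlc hs).map (f := algebraMap ℚ K)
  rw [Polynomial.map_map] at h1
  have h2 : (algebraMap ℚ K).comp (Int.castRingHom ℚ) = Int.castRingHom K := RingHom.ext_int _ _
  rwa [h2] at h1

end Int

end Pool.Agent.Lib.MP_89bcae_ag

end
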