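import Mathlib
import Pool.Agent.Lib.MP_89bcae_ag.DefsZ7
import Pool.Agent.Lib.MP_89bcae_ag.Q.K001

/-!
# Polynomials with integral coefficients in a box: elementary lemmas
-/

open Polynomial Filter Topology

open scoped Classical

namespace Pool.Agent.Lib.MP_89bcae_ag

set_option linter.style.haveILetI false

section Vec

lemma map_vecPoly8 {n : ℕ} (a : Fin (n + 1) → ℤ) (p : ℕ) :
    (vecPoly7 a).map (Int.castRingHom (ZMod p)) = polyOf8 (fun i => (a i : ZMod p)) := by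
  unfold vecPoly7 polyOf8
  rw [Polynomial.map_sum]
  refine Finset.sum_congr rfl fun i _ => ?_
  rw [Polynomial.map_mul, map_C, Polynomial.map_pow, map_X]
  rfl

lemma natDegree_vecPoly8 {n : ℕ} (a : Fin (n + 1) → ℤ) : (vecPoly7 a).natDegree ≤ n := by
  unfold vecPoly7
  apply natDegree_sum_le_of_forall_le
  intro i _
  refine (natDegree_C_mul_X_pow_le _ _).trans ?_
  exact Nat.lt_succ_iff.mp i.2

lemma coeff_vecPoly8 {n : ℕ} (a : Fin (n + 1) → ℤ) (i : Fin (n + 1)) :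
    (vecPoly7 a).coeff i = a i := by
  unfold vecPoly7
  rw [finsetSum_coeff, Finset.sum_eq_single i]
  · rw [coeff_C_mul, coeff_X_pow, if_pos rfl, mul_one]
  · intro j _ hj
    rw [coeff_C_mul, coeff_X_pow, if_neg (fun h => hj (Fin.ext h.symm)), mul_zero]
  · exact fun h => absurd (Finset.mem_univ _) h

end Vec

/-- From density zero of the complement to density one. -/
lemma density_one8 (m : ℕ) (Good : (Fin m → ℤ) → Prop)
    (h : Tendsto (fun H : ℕ => ({a : Fin m → ℤ | (∀ i, |a i| ≤ H) ∧ ¬ Good a}.ncard : ℝ) /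
      (2 * H + 1) ^ m) atTop (𝓝 0)) :
    Tendsto (fun H : ℕ => ({a : Fin m → ℤ | (∀ i, |a i| ≤ H) ∧ Good a}.ncard : ℝ) /
      (2 * H + 1) ^ m) atTop (𝓝 1) := by
  have h1 : Tendsto (fun H : ℕ => 1 -
      ({a : Fin m → ℤ | (∀ i, |a i| ≤ H) ∧ ¬ Good a}.ncard : ℝ) / (2 * H + 1) ^ m) atTop
      (𝓝 (1 - 0)) := tendsto_const_nhds.sub h
  rw [sub_zero] at h1
  refine h1.congr fun H => ?_
  have hbox : ({a : Fin m → ℤ | ∀ i, |a i| ≤ H}) =
      ((Fintype.piFinset fun _ : Fin m => Finset.Icc (-(H : ℤ)) H : Finset (Fin m → ℤ)) :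
        Set (Fin m → ℤ)) := by
    ext a
    rw [Finset.mem_coe, Fintype.mem_piFinset]
    simp only [Set.mem_ofPred_eq, Finset.mem_Icc, abs_le]
  have hfin : ({a : Fin m → ℤ | ∀ i, |a i| ≤ H}).Finite := by
    rw [hbox]
    exact Finset.finite_toSet _
  have hcard : (({a : Fin m → ℤ | ∀ i, |a i| ≤ H}).ncard : ℝ) = (2 * H + 1) ^ m := by
    rw [hbox, Set.ncard_coe_finset, Fintype.card_piFinset, Finset.prod_const, Finset.card_univ,
      Fintype.card_fin, Int.card_Icc]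
    push_cast
    congr 1
    have h3 : ((H : ℤ) + 1 - -(H : ℤ)).toNat = 2 * H + 1 := by omega
    rw [h3]
    push_cast
    ring
  have hsplit : ({a : Fin m → ℤ | (∀ i, |a i| ≤ H) ∧ Good a}).ncard +
      ({a : Fin m → ℤ | (∀ i, |a i| ≤ H) ∧ ¬ Good a}).ncard =
      ({a : Fin m → ℤ | ∀ i, |a i| ≤ H}).ncard := by
    have hdisj : Disjoint {a : Fin m → ℤ | (∀ i, |a i| ≤ H) ∧ Good a}
        {a : Fin m → ℤ | (∀ i, |a i| ≤ H) ∧ ¬ Good a} := by
      rw [Set.disjoint_left]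
      rintro a ⟨-, h3⟩ ⟨-, h4⟩
      exact h4 h3
    rw [← Set.ncard_union_eq hdisj (hfin.subset fun a ha => ha.1) (hfin.subset fun a ha => ha.1)]
    congr 1
    ext a
    simp only [Set.mem_union, Set.mem_ofPred_eq]
    tauto
  have hpos : (0 : ℝ) < (2 * (H : ℝ) + 1) ^ m := by positivity
  rw [eq_div_iff hpos.ne', sub_mul, div_mul_cancel₀ _ hpos.ne', one_mul, ← hcard, ← hsplit]
  push_cast
  ring


end Pool.Agent.Lib.MP_89bcae_ag
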