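import Mathlib
import Pool.Agent.Lib.MP_89bcae_ag.Q.K010

/-!
ROW R04 (100-200 lines). Elementary properties of `ord P`, residues.

PROOF. `ord P` is minus the logarithm of the valuation `P.hs.valuation`: multiplicativity and the
ultrametric inequality are those of the valuation (`Valuation.map_mul`, `Valuation.map_add`).
For `a` in the coordinate ring: `HeightOneSpectrum.valuation_of_algebraMap`,
`intValuation_le_one`, `intValuation_lt_one_iff_mem` (or `_dvd`), and `a ∈ P.ideal` means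
`evalPt P a = 0`. Residues: if `ord P h ≥ 0`, i.e. valuation at most one, then `h = a / b` with `a`,
`b` in the coordinate ring and `b ∉ P.ideal` (`HeightOneSpectrum` : the valuation ring is the
localization at the prime; Mathlib: `IsDedekindDomain.HeightOneSpectrum.exists_..._valuation_le_one`
or: write `h = a / b` arbitrary, choose `c` in the coordinate ring with
`ord P (b c) = ...`; one may also use `IsLocalization.AtPrime` and `mem_integers_of_valuation_le_one`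
for the localization). Take for `c` the quotient `evalPt P a / evalPt P b`; then
`h - c = (a - c b) / b` with `a - c b ∈ P.ideal`. Uniqueness: `ord P` of a nonzero constant is `0`.
-/

open Polynomial IsDedekindDomain

open scoped Classical

namespace Pool.Agent.Lib.MP_89bcae_ag.Sup

universe u

variable {ℓ : ℕ} {E : Type u} [Field E] {f : E[X]} [hG : IsGood ℓ f]

private lemma R04_val_ne_zero (P : Pt ℓ f) (h : (Fn ℓ f)ˣ) :
    P.hs.valuation (Fn ℓ f) (h : Fn ℓ f) ≠ 0 :=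
  (Valuation.ne_zero_iff _).mpr h.ne_zero

private lemma R04_ord_nonneg_iff (P : Pt ℓ f) (h : (Fn ℓ f)ˣ) :
    0 ≤ ord P h ↔ P.hs.valuation (Fn ℓ f) (h : Fn ℓ f) ≤ 1 := by
  have h1 := WithZero.log_le_iff_le_exp (a := (0 : ℤ)) (R04_val_ne_zero P h)
  rw [WithZero.exp_zero] at h1
  rw [← h1]
  unfold ord
  omega

private lemma R04_ord_pos_iff (P : Pt ℓ f) (h : (Fn ℓ f)ˣ) :
    0 < ord P h ↔ P.hs.valuation (Fn ℓ f) (h : Fn ℓ f) < 1 := by
  have h1 := WithZero.log_lt_iff_lt_exp (a := (0 : ℤ)) (R04_val_ne_zero P h)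
  rw [WithZero.exp_zero] at h1
  rw [← h1]
  unfold ord
  omega

lemma ord_mul (P : Pt ℓ f) (h h' : (Fn ℓ f)ˣ) : ord P (h * h') = ord P h + ord P h' := by
  unfold ord
  rw [Units.val_mul, map_mul, WithZero.log_mul (R04_val_ne_zero P h) (R04_val_ne_zero P h')]
  ring

lemma ord_one (P : Pt ℓ f) : ord P 1 = 0 := by
  unfold ord
  rw [Units.val_one, map_one, WithZero.log_one, neg_zero]

lemma ord_inv (P : Pt ℓ f) (h : (Fn ℓ f)ˣ) : ord P h⁻¹ = -ord P h := by
  have h1 := ord_mul P h h⁻¹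
  rw [mul_inv_cancel, ord_one] at h1
  omega

lemma ord_pow (P : Pt ℓ f) (h : (Fn ℓ f)ˣ) (n : ℕ) : ord P (h ^ n) = n * ord P h := by
  induction n with
  | zero => rw [pow_zero, ord_one, Nat.cast_zero, zero_mul]
  | succ n ih =>
    rw [pow_succ, ord_mul, ih]
    push_cast
    ring

lemma ord_zpow (P : Pt ℓ f) (h : (Fn ℓ f)ˣ) (n : ℤ) : ord P (h ^ n) = n * ord P h := by
  rcases Int.eq_nat_or_neg n with ⟨m, rfl | rfl⟩
  · rw [zpow_natCast, ord_pow]
  · rw [zpow_neg, zpow_natCast, ord_inv, ord_pow]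
    ring

lemma ord_add (P : Pt ℓ f) (u v w : (Fn ℓ f)ˣ) (h : (w : Fn ℓ f) = u + v) :
    min (ord P u) (ord P v) ≤ ord P w := by
  have h1 : P.hs.valuation (Fn ℓ f) (w : Fn ℓ f) ≤
      max (P.hs.valuation (Fn ℓ f) (u : Fn ℓ f)) (P.hs.valuation (Fn ℓ f) (v : Fn ℓ f)) := by
    rw [h]
    exact Valuation.map_add _ _ _
  rcases le_max_iff.mp h1 with h2 | h2
  · refine (min_le_left _ _).trans ?_
    have h3 := (WithZero.log_le_log (R04_val_ne_zero P w) (R04_val_ne_zero P u)).mpr h2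
    unfold ord
    omega
  · refine (min_le_right _ _).trans ?_
    have h3 := (WithZero.log_le_log (R04_val_ne_zero P w) (R04_val_ne_zero P v)).mpr h2
    unfold ord
    omega

lemma ord_nonneg (P : Pt ℓ f) (a : Coord ℓ f) (u : (Fn ℓ f)ˣ)
    (hu : (u : Fn ℓ f) = algebraMap (Coord ℓ f) (Fn ℓ f) a) : 0 ≤ ord P u := by
  rw [R04_ord_nonneg_iff, hu]
  exact HeightOneSpectrum.valuation_le_one _ _

lemma ord_pos_iff (P : Pt ℓ f) (a : Coord ℓ f) (u : (Fn ℓ f)ˣ)
    (hu : (u : Fn ℓ f) = algebraMap (Coord ℓ f) (Fn ℓ f) a) : 0 < ord P u ↔ evalPt P a = 0 := by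
  rw [R04_ord_pos_iff, hu]
  exact HeightOneSpectrum.valuation_lt_one_iff_mem _ _

/-- The constant function. -/
noncomputable def cst : E →+* Fn ℓ f :=
  (algebraMap (Coord ℓ f) (Fn ℓ f)).comp (ofPoly.comp C)

/-- A nonzero constant, as a unit. -/
noncomputable def cstU : Eˣ →* (Fn ℓ f)ˣ := Units.map (cst : E →+* Fn ℓ f)

lemma ord_cstU (P : Pt ℓ f) (c : Eˣ) : ord P (cstU c) = 0 := by
  have h1 : 0 ≤ ord P (cstU c) := ord_nonneg P (ofPoly (C (c : E))) (cstU c) rfl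
  have h2 : 0 ≤ ord P (cstU c⁻¹) := ord_nonneg P (ofPoly (C ((c⁻¹ : Eˣ) : E))) (cstU c⁻¹) rfl
  rw [map_inv, ord_inv] at h2
  omega

/-- The residue of a function which is regular at `P`. -/
lemma exists_residue_pt (P : Pt ℓ f) (u : (Fn ℓ f)ˣ) (hu : 0 ≤ ord P u) :
    ∃ c : E, ∀ w : (Fn ℓ f)ˣ, (w : Fn ℓ f) = (u : Fn ℓ f) - (cst c : Fn ℓ f) → 0 < ord P w := by
  rw [R04_ord_nonneg_iff] at hu
  obtain ⟨a, ha⟩ := HeightOneSpectrum.exists_valuation_sub_lt_of_integer P.hs hu 1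
  refine ⟨evalPt P a, fun w hw => ?_⟩
  rw [R04_ord_pos_iff]
  have h2 : P.hs.valuation (Fn ℓ f)
      (algebraMap (Coord ℓ f) (Fn ℓ f) (a - ofPoly (C (evalPt P a)))) < 1 := by
    refine (HeightOneSpectrum.valuation_lt_one_iff_mem _ _).mpr ?_
    change evalPt P (a - ofPoly (C (evalPt P a))) = 0
    rw [map_sub, evalPt_ofPoly, eval_C, sub_self]
  have h3 : (w : Fn ℓ f) = -(algebraMap (Coord ℓ f) (Fn ℓ f) a - (u : Fn ℓ f)) +
      algebraMap (Coord ℓ f) (Fn ℓ f) (a - ofPoly (C (evalPt P a))) := by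
    rw [hw, map_sub]
    change (u : Fn ℓ f) - algebraMap (Coord ℓ f) (Fn ℓ f) (ofPoly (C (evalPt P a))) = _
    ring
  rw [h3]
  refine lt_of_le_of_lt (Valuation.map_add _ _ _) (max_lt ?_ h2)
  rw [Valuation.map_neg]
  exact ha

lemma div_mul (h h' : (Fn ℓ f)ˣ) : div (h * h') = div h + div h' := by
  ext P
  simp [ord_mul]

lemma div_one : div (1 : (Fn ℓ f)ˣ) = 0 := by
  ext P
  simp [ord_one]

lemma div_inv (h : (Fn ℓ f)ˣ) : div h⁻¹ = -div h := by
  ext P
  simp [ord_inv]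

lemma div_cstU (c : Eˣ) : div (cstU c : (Fn ℓ f)ˣ) = 0 := by
  ext P
  simp [ord_cstU]

end Pool.Agent.Lib.MP_89bcae_ag.Sup
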