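import Mathlib
import Pool.Agent.Lib.MP_89bcae_ag.Q.K010

/-!
ROW R05. The orders of `x - a` and of `y`.
-/

open Polynomial IsDedekindDomain

open scoped Classical

namespace Pool.Agent.Lib.MP_89bcae_ag.Sup

universe u

variable {ℓ : ℕ} {E : Type u} [Field E] {f : E[X]} [hG : IsGood ℓ f]

lemma algebraMap_ofPoly_ne_zero {p : E[X]} (hp : p ≠ 0) :
    algebraMap (Coord ℓ f) (Fn ℓ f) (ofPoly p) ≠ 0 := by
  intro h
  rw [map_eq_zero_iff _ (IsFractionRing.injective (Coord ℓ f) (Fn ℓ f))] at h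
  exact hp ((map_eq_zero_iff _ (ofPoly_injective hG.prime.ne_zero)).mp h)

/-- The function `p(x)`, for a nonzero polynomial `p`. -/
noncomputable def polyU (p : E[X]) (hp : p ≠ 0) : (Fn ℓ f)ˣ :=
  Units.mk0 (algebraMap (Coord ℓ f) (Fn ℓ f) (ofPoly p)) (algebraMap_ofPoly_ne_zero hp)

/-- The function `x - a`. -/
noncomputable def xs (a : E) : (Fn ℓ f)ˣ := polyU (X - C a) (X_sub_C_ne_zero a)

lemma algebraMap_yy_ne_zero : algebraMap (Coord ℓ f) (Fn ℓ f) yy ≠ 0 := by
  intro h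
  have h1 : algebraMap (Coord ℓ f) (Fn ℓ f) (ofPoly f) = 0 := by
    rw [← yy_pow, map_pow, h, zero_pow hG.prime.ne_zero]
  exact algebraMap_ofPoly_ne_zero hG.separable.ne_zero h1

/-- The function `y`. -/
noncomputable def yU : (Fn ℓ f)ˣ :=
  Units.mk0 (algebraMap (Coord ℓ f) (Fn ℓ f) yy) algebraMap_yy_ne_zero

/-- the order of a function of the coordinate ring -/
private lemma R05_ord (P : Pt ℓ f) (a : Coord ℓ f) (u : (Fn ℓ f)ˣ)
    (hu : (u : Fn ℓ f) = algebraMap (Coord ℓ f) (Fn ℓ f) a) :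
    ord P u = -(WithZero.log (P.hs.intValuation a)) := by
  unfold ord
  rw [hu, HeightOneSpectrum.valuation_of_algebraMap]

private lemma R05_le (P : Pt ℓ f) (a : Coord ℓ f) (h : evalPt P a = 0) :
    P.hs.intValuation a ≤ WithZero.exp (-1 : ℤ) := by
  have h1 := (P.hs.intValuation_le_pow_iff_mem a 1).mpr (by
    rw [pow_one]
    exact h)
  exact_mod_cast h1

private lemma R05_one (P : Pt ℓ f) (a : Coord ℓ f) (h : evalPt P a ≠ 0) :
    P.hs.intValuation a = 1 := by
  apply le_antisymm (P.hs.intValuation_le_one a)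
  by_contra hlt
  rw [not_le] at hlt
  exact h ((P.hs.intValuation_lt_one_iff_mem a).mp hlt)

/-- one of the two generators is a uniformizer -/
private lemma R05_key (P : Pt ℓ f) : WithZero.exp (-1 : ℤ) ≤
    max (P.hs.intValuation (ofPoly (X - C P.x))) (P.hs.intValuation (yy - ofPoly (C P.y))) := by
  obtain ⟨π, hπ⟩ := P.hs.intValuation_exists_uniformizer
  have hmem : π ∈ P.ideal := by
    apply (P.hs.intValuation_lt_one_iff_mem π).mp
    rw [hπ, ← WithZero.exp_zero, WithZero.exp_lt_exp]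
    norm_num
  rw [P.ideal_eq_span, Ideal.mem_span_pair] at hmem
  obtain ⟨c, d, hcd⟩ := hmem
  rw [← hπ, ← hcd]
  refine (Valuation.map_add _ _ _).trans ?_
  rw [map_mul, map_mul]
  exact max_le_max (mul_le_of_le_one_left' (P.hs.intValuation_le_one c))
    (mul_le_of_le_one_left' (P.hs.intValuation_le_one d))

lemma ord_polyU_of_ne (P : Pt ℓ f) {p : E[X]} (hp : p ≠ 0) (h : p.eval P.x ≠ 0) :
    ord P (polyU p hp) = 0 := by
  rw [R05_ord P (ofPoly p) _ rfl, R05_one P _ (by rwa [evalPt_ofPoly])]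
  simp

lemma ord_xs_of_ne (P : Pt ℓ f) {a : E} (h : P.x ≠ a) : ord P (xs a) = 0 := by
  apply ord_polyU_of_ne
  rw [eval_sub, eval_X, eval_C]
  exact sub_ne_zero.mpr h

lemma ord_xs_of_unramified (P : Pt ℓ f) (h : P.y ≠ 0) : ord P (xs P.x) = 1 := by
  rw [R05_ord P (ofPoly (X - C P.x)) _ rfl]
  have hle := R05_le P (ofPoly (X - C P.x)) (by simp)
  obtain ⟨q, hq⟩ : (X - C P.x) ∣ f - C (f.eval P.x) := by
    rw [dvd_iff_isRoot]
    simp
  have hgeo : (yy - ofPoly (C P.y) : Coord ℓ f) *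
      (∑ i ∈ Finset.range ℓ, yy ^ i * (ofPoly (C P.y)) ^ (ℓ - 1 - i)) =
      ofPoly (X - C P.x) * ofPoly q := by
    rw [mul_comm, Commute.geom_sum₂_mul (Commute.all _ _), yy_pow, ← map_pow, ← C_pow, P.eq,
      ← map_sub, ← map_mul, hq]
  have hS : P.hs.intValuation (∑ i ∈ Finset.range ℓ, yy ^ i * (ofPoly (C P.y)) ^ (ℓ - 1 - i)) =
      1 := by
    apply R05_one
    have e : evalPt P (∑ i ∈ Finset.range ℓ, yy ^ i * (ofPoly (C P.y)) ^ (ℓ - 1 - i)) =
        (ℓ : E) * P.y ^ (ℓ - 1) := by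
      rw [map_sum]
      have e1 : ∀ i ∈ Finset.range ℓ,
          evalPt P (yy ^ i * (ofPoly (C P.y)) ^ (ℓ - 1 - i)) = P.y ^ (ℓ - 1) := by
        intro i hi
        rw [Finset.mem_range] at hi
        rw [map_mul, map_pow, map_pow, evalPt_yy, evalPt_ofPoly, eval_C, ← pow_add]
        congr 1
        omega
      rw [Finset.sum_congr rfl e1, Finset.sum_const, Finset.card_range, nsmul_eq_mul]
    rw [e]
    exact mul_ne_zero hG.ne_zero (pow_ne_zero _ h)
  have hyx : P.hs.intValuation (yy - ofPoly (C P.y)) ≤ P.hs.intValuation (ofPoly (X - C P.x)) := by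
    have h1 := congrArg P.hs.intValuation hgeo
    rw [map_mul, hS, mul_one, map_mul] at h1
    rw [h1]
    exact mul_le_of_le_one_right' (P.hs.intValuation_le_one _)
  have hkey := R05_key P
  rw [max_eq_left hyx] at hkey
  rw [le_antisymm hle hkey, WithZero.log_exp]
  norm_num

/-- the value of y and of x - a at a ramified point -/
private lemma R05_ram (P : Pt ℓ f) (h : P.y = 0) :
    P.hs.intValuation (yy : Coord ℓ f) = WithZero.exp (-1 : ℤ) ∧
      P.hs.intValuation (ofPoly (X - C P.x) : Coord ℓ f) =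
        (P.hs.intValuation (yy : Coord ℓ f)) ^ ℓ := by
  have hfx : f.eval P.x = 0 := by
    rw [← P.eq, h, zero_pow hG.prime.ne_zero]
  obtain ⟨q, hq⟩ : (X - C P.x) ∣ f := by
    rw [dvd_iff_isRoot]
    exact hfx
  have hq0 : q.eval P.x ≠ 0 := by
    intro h0
    have hs := hG.separable
    have h1 : (derivative f).eval P.x ≠ 0 := by
      have := hs.eval₂_derivative_ne_zero (RingHom.id E) (x := P.x) (by simpa using hfx)
      simpa using this
    apply h1
    have e2 : derivative f = derivative ((X - C P.x) * q) := congrArg derivative hq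
    rw [e2]
    simp [h0]
  have hpow : P.hs.intValuation (ofPoly (X - C P.x) : Coord ℓ f) =
        (P.hs.intValuation (yy : Coord ℓ f)) ^ ℓ := by
    have h1 := congrArg P.hs.intValuation (yy_pow : (yy : Coord ℓ f) ^ ℓ = ofPoly f)
    rw [map_pow] at h1
    have e3 : (ofPoly f : Coord ℓ f) = ofPoly (X - C P.x) * ofPoly q := by
      rw [← map_mul]
      exact congrArg (ofPoly : E[X] →+* Coord ℓ f) hq
    rw [h1, e3, map_mul, R05_one P (ofPoly q) (by rwa [evalPt_ofPoly]), mul_one]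
  refine ⟨?_, hpow⟩
  have hle := R05_le P yy (by rw [evalPt_yy, h])
  have hkey := R05_key P
  rw [h, C_0, map_zero, sub_zero, max_eq_right] at hkey
  · exact le_antisymm hle hkey
  · rw [hpow]
    have h3 := pow_le_pow_right_of_le_one' (P.hs.intValuation_le_one (yy : Coord ℓ f))
      hG.prime.one_lt.le
    rwa [pow_one] at h3

lemma ord_xs_of_ramified (P : Pt ℓ f) (h : P.y = 0) : ord P (xs P.x) = ℓ := by
  obtain ⟨h1, h2⟩ := R05_ram P h
  rw [R05_ord P (ofPoly (X - C P.x)) _ rfl, h2, h1, WithZero.log_pow, WithZero.log_exp]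
  simp

lemma ord_yU_of_ne (P : Pt ℓ f) (h : P.y ≠ 0) : ord P yU = 0 := by
  rw [R05_ord P yy _ rfl, R05_one P _ (by rwa [evalPt_yy])]
  simp

lemma ord_yU_of_ramified (P : Pt ℓ f) (h : P.y = 0) : ord P yU = 1 := by
  obtain ⟨h1, -⟩ := R05_ram P h
  rw [R05_ord P yy _ rfl, h1, WithZero.log_exp]
  norm_num

end Pool.Agent.Lib.MP_89bcae_ag.Sup
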