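import Mathlib
import Pool.Agent.Lib.MP_89bcae_ag.Q.K010

/-!
ROW R06 (100-200 lines). Automorphisms of the coordinate ring acting on functions and orders.

PROOF. A ring automorphism `φ` of the domain `Coord ℓ f` extends to `Fn ℓ f`
(`IsFractionRing.ringEquivOfRingEquiv` or `IsFractionRing.map`). If `φ⁻¹(Q.ideal) = P.ideal`, i.e.
`Q.ideal = P.ideal.map φ`, then `φ` carries the valuation of `P` to that of `Q`: the exponent of
`Q.ideal` in `(φ a) = φ((a))` is the exponent of `P.ideal` in `(a)`; e.g. because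
`a ∈ P.ideal ^ n ↔ φ a ∈ Q.ideal ^ n` (`intValuation_le_pow_iff_mem`). Then pass to fractions.
-/

open Polynomial IsDedekindDomain

open scoped Classical

namespace Pool.Agent.Lib.MP_89bcae_ag.Sup

universe u

variable {ℓ : ℕ} {E : Type u} [Field E] {f : E[X]} [hG : IsGood ℓ f]

/-- The automorphism of the function field induced by one of the coordinate ring. -/
noncomputable def autF (φ : Coord ℓ f ≃+* Coord ℓ f) : Fn ℓ f ≃+* Fn ℓ f :=
  IsFractionRing.ringEquivOfRingEquiv φ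

lemma autF_algebraMap (φ : Coord ℓ f ≃+* Coord ℓ f) (a : Coord ℓ f) :
    autF φ (algebraMap (Coord ℓ f) (Fn ℓ f) a) = algebraMap (Coord ℓ f) (Fn ℓ f) (φ a) := by
  unfold autF
  exact IsFractionRing.ringEquivOfRingEquiv_algebraMap φ a

/-- The action on nonzero functions. -/
noncomputable def autU (φ : Coord ℓ f ≃+* Coord ℓ f) : (Fn ℓ f)ˣ ≃* (Fn ℓ f)ˣ :=
  Units.mapEquiv (autF φ : Fn ℓ f ≃* Fn ℓ f)

private lemma R06_ideal (φ : Coord ℓ f ≃+* Coord ℓ f) (P Q : Pt ℓ f)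
    (h : ∀ a, evalPt Q (φ a) = 0 ↔ evalPt P a = 0) :
    P.ideal.map (φ : Coord ℓ f →+* Coord ℓ f) = Q.ideal := by
  ext b
  rw [Ideal.mem_map_iff_of_surjective (φ : Coord ℓ f →+* Coord ℓ f) φ.surjective]
  constructor
  · rintro ⟨a, ha, rfl⟩
    have ha' : evalPt P a = 0 := ha
    have := (h a).2 ha'
    exact this
  · intro hb
    have hb' : evalPt Q b = 0 := hb
    refine ⟨φ.symm b, ?_, by simp⟩
    have h1 := h (φ.symm b)
    rw [φ.apply_symm_apply] at h1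
    exact h1.1 hb'

private lemma R06_pow (φ : Coord ℓ f ≃+* Coord ℓ f) (P Q : Pt ℓ f)
    (h : ∀ a, evalPt Q (φ a) = 0 ↔ evalPt P a = 0) (n : ℕ) (a : Coord ℓ f)
    (ha : a ∈ P.hs.asIdeal ^ n) : φ a ∈ Q.hs.asIdeal ^ n := by
  have h1 : P.hs.asIdeal = P.ideal := rfl
  have h2 : Q.hs.asIdeal = Q.ideal := rfl
  rw [h1] at ha
  rw [h2, ← R06_ideal φ P Q h, ← Ideal.map_pow]
  exact Ideal.mem_map_of_mem (φ : Coord ℓ f →+* Coord ℓ f) ha

private lemma R06_le (φ : Coord ℓ f ≃+* Coord ℓ f) (P Q : Pt ℓ f)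
    (h : ∀ a, evalPt Q (φ a) = 0 ↔ evalPt P a = 0) (a : Coord ℓ f) :
    Q.hs.intValuation (φ a) ≤ P.hs.intValuation a := by
  by_cases ha : a = 0
  · subst ha
    simp
  · have h1 := P.hs.intValuation_if_neg ha
    rw [h1]
    rw [HeightOneSpectrum.intValuation_le_pow_iff_mem]
    apply R06_pow φ P Q h
    rw [← HeightOneSpectrum.intValuation_le_pow_iff_mem, h1]

private lemma R06_int (φ : Coord ℓ f ≃+* Coord ℓ f) (P Q : Pt ℓ f)
    (h : ∀ a, evalPt Q (φ a) = 0 ↔ evalPt P a = 0) (a : Coord ℓ f) :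
    Q.hs.intValuation (φ a) = P.hs.intValuation a := by
  refine le_antisymm (R06_le φ P Q h a) ?_
  have h2 : ∀ b, evalPt P (φ.symm b) = 0 ↔ evalPt Q b = 0 := by
    intro b
    have h1 := h (φ.symm b)
    rw [φ.apply_symm_apply] at h1
    exact h1.symm
  have h3 := R06_le φ.symm Q P h2 (φ a)
  rwa [φ.symm_apply_apply] at h3

lemma ord_autU (φ : Coord ℓ f ≃+* Coord ℓ f) (P Q : Pt ℓ f)
    (h : ∀ a, evalPt Q (φ a) = 0 ↔ evalPt P a = 0) (u : (Fn ℓ f)ˣ) :
    ord Q (autU φ u) = ord P u := by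
  have key : Q.hs.valuation (Fn ℓ f) ((autU φ u : (Fn ℓ f)ˣ) : Fn ℓ f)
      = P.hs.valuation (Fn ℓ f) (u : Fn ℓ f) := by
    have h0 : ((autU φ u : (Fn ℓ f)ˣ) : Fn ℓ f) = autF φ (u : Fn ℓ f) := rfl
    rw [h0]
    obtain ⟨a, b, hb, hab⟩ := IsFractionRing.div_surjective (A := Coord ℓ f) (u : Fn ℓ f)
    rw [← hab, map_div₀, autF_algebraMap, autF_algebraMap, map_div₀, map_div₀]
    rw [HeightOneSpectrum.valuation_of_algebraMap, HeightOneSpectrum.valuation_of_algebraMap,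
      HeightOneSpectrum.valuation_of_algebraMap, HeightOneSpectrum.valuation_of_algebraMap,
      R06_int φ P Q h, R06_int φ P Q h]
  unfold ord
  rw [key]

end Pool.Agent.Lib.MP_89bcae_ag.Sup
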