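import Mathlib

/-!
ROW L12 (80-160 lines). Extension of automorphisms to algebraic closures, compatibly.

PROOFS. (1) As `exists_extend` in `Pool/Agent/Lib/MP_89bcae_ag/Galois.lean`, with `IsAlgClosure.equiv` (or
`IsAlgClosure.equivOfEquiv`) in place of `IsSepClosure.equiv`.
(2) `w ∘ j : Ω → M` and `j : Ω → M`: the image of `j` is the set of the elements of `M` algebraic over the
image of `L` (`Ω` is an algebraic closure of `L`), and `w` maps the image of `L` onto itself, so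
`w (j Ω) = j Ω`. See `exists_local_lift` in `Pool/Agent/Lib/MP_89bcae_ag/PlaceC8.lean`: take an
extension `γ₀` of `ψ` to `Ω` by (1); then `w ∘ j ∘ γ₀⁻¹` is a second embedding of `Ω` in `M` over `L`,
and two embeddings of a normal extension differ by an automorphism (`exists_alg_restrict`).
(3) `M` algebraic closure of `K`: embeddings of `Ω` exist: `IsAlgClosed.lift`.
-/

open Polynomial IsDedekindDomain

open scoped Classical

namespace Pool.Agent.Lib.MP_89bcae_ag.Sup

universe u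

/-- (1) -/
lemma exists_extend_alg {K M : Type u} [Field K] [Field M] [Algebra K M] [IsAlgClosure K M]
    (φ : K ≃+* K) : ∃ w : M ≃+* M, ∀ x, w (algebraMap K M x) = algebraMap K M (φ x) :=
  ⟨IsAlgClosure.equivOfEquiv M M φ, fun x => IsAlgClosure.equivOfEquiv_algebraMap M M φ x⟩

/-- two embeddings of an algebraic closure differ by an automorphism -/
lemma exists_autL12 {L Ω M : Type u} [Field L] [Field Ω] [Field M] [Algebra L Ω] [Algebra L M]
    [IsAlgClosure L Ω] (j j' : Ω →ₐ[L] M) :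
    ∃ g : Ω ≃ₐ[L] Ω, ∀ x, j (g x) = j' x := by
  haveI : Normal L Ω := IsAlgClosure.normal L Ω
  letI : Algebra Ω M := j.toRingHom.toAlgebra
  haveI : IsScalarTower L Ω M := IsScalarTower.of_algebraMap_eq (fun x => (j.commutes x).symm)
  refine ⟨AlgHom.restrictNormal' j' Ω, fun x => ?_⟩
  have h := AlgHom.restrictNormal_commutes j' Ω x
  exact h

/-- (2) -/
lemma exists_compat {L Ω M : Type u} [Field L] [Field Ω] [Field M] [Algebra L Ω] [Algebra L M]
    [IsAlgClosure L Ω] (j : Ω →ₐ[L] M) (ψ : L ≃+* L) (w : M ≃+* M)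
    (hw : ∀ x, w (algebraMap L M x) = algebraMap L M (ψ x)) :
    ∃ γ : Ω ≃+* Ω, (∀ x, γ (algebraMap L Ω x) = algebraMap L Ω (ψ x)) ∧
      ∀ x, j (γ x) = w (j x) := by
  obtain ⟨γ₀, hγ₀⟩ := exists_extend_alg (K := L) (M := Ω) ψ
  have hc : ∀ l : L, w.symm (j (γ₀ (algebraMap L Ω l))) = algebraMap L M l := by
    intro l
    rw [hγ₀, j.commutes, ← hw, RingEquiv.symm_apply_apply]
  let j' : Ω →ₐ[L] M :=
    { toRingHom := (w.symm : M →+* M).comp (j.toRingHom.comp (γ₀ : Ω →+* Ω))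
      commutes' := hc }
  obtain ⟨g, hg⟩ := exists_autL12 j j'
  have hg' : ∀ x, j (g x) = w.symm (j (γ₀ x)) := hg
  refine ⟨(g.symm : Ω ≃+* Ω).trans γ₀, fun x => ?_, fun x => ?_⟩
  · have h1 : ((g.symm : Ω ≃+* Ω).trans γ₀) (algebraMap L Ω x) = γ₀ (g.symm (algebraMap L Ω x)) := rfl
    rw [h1, AlgEquiv.commutes, hγ₀]
  · have h1 : ((g.symm : Ω ≃+* Ω).trans γ₀) x = γ₀ (g.symm x) := rfl
    have h2 := hg' (g.symm x)
    rw [AlgEquiv.apply_symm_apply] at h2
    rw [h1, h2, RingEquiv.apply_symm_apply]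

/-- An automorphism of `M` over `L` restricts to `Ω`. -/
lemma exists_restrict {L Ω M : Type u} [Field L] [Field Ω] [Field M] [Algebra L Ω] [Algebra L M]
    [IsAlgClosure L Ω] (j : Ω →ₐ[L] M) (w : M ≃ₐ[L] M) :
    ∃ g : Ω ≃ₐ[L] Ω, ∀ x, j (g x) = w (j x) :=
  exists_autL12 j ((w : M →ₐ[L] M).comp j)

end Pool.Agent.Lib.MP_89bcae_ag.Sup
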