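import Mathlib
import Pool.Agent.Lib.MP_89bcae_ag.Q.K019
import Pool.Agent.Lib.MP_89bcae_ag.Q.K023

section

/-!
ROW R09 (100-250 lines). Functoriality of the class of a divisor.

PROOF. By additivity it is enough that `jacMap ℓ σ h (clPt P) = clPt (P.map σ h)`. Unfold: with
`A = Coord ℓ f`, `A' = Coord ℓ f'`, `φ = coordMap ℓ σ h`, the left side is the class in `Pic A'` of
`A' ⊗_A P.ideal` (`CommRing.Pic.mapRingHom`, `mapAlgebra_apply`, `ClassGroup.equivPic` applied to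
`mk0 I` is the class of `I`; look for a lemma such as `ClassGroup.equivPic_mk0`/`unitsToPic`), so it
is enough to give an `A'`-linear isomorphism `A' ⊗_A P.ideal ≃ P'.ideal`, `P' = P.map σ h`.
`a' ⊗ x ↦ a' φ(x)`: it is injective because `φ` is flat: `A' = E'[x, y]/(...)` is free over `A`
along `E'/E`: `A' = A ⊗_E E'`; or, more elementary: `P.ideal` is an invertible module, so
`A' ⊗_A P.ideal` is an invertible `A'`-module, hence torsion-free (it is locally free of rank one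
over a domain), the map is surjective onto the ideal `φ(P.ideal) A' = P'.ideal` (generators:
`Pt.ideal_eq_span`, `coordMap_ofPoly`, `coordMap_yy`), and a surjection of invertible modules is an
isomorphism (`Module.Invertible.bijective_of_surjective`).
-/

open Polynomial IsDedekindDomain

open scoped Classical nonZeroDivisors TensorProduct

namespace Pool.Agent.Lib.MP_89bcae_ag.Sup

universe u

/-- The fractional ideal of an ideal is isomorphic to the ideal. -/
noncomputable def R09_equiv (R : Type u) [CommRing R] [IsDedekindDomain R] (I : (Ideal R)⁰) :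
    ((FractionalIdeal.unitsMulEquivSubmodule (FractionalIdeal.mk0 (FractionRing R) I) : 
      (Submodule R (FractionRing R))ˣ) : Submodule R (FractionRing R)) ≃ₗ[R] I.1 := by
  refine (LinearEquiv.ofBijective ((Algebra.linearMap R (FractionRing R)).restrict (p := I.1) ?_) ⟨?_, ?_⟩).symm
  · intro x hx
    show algebraMap R (FractionRing R) x ∈ ((FractionalIdeal.mk0 (FractionRing R) I : FractionalIdeal R⁰ (FractionRing R)) : Submodule R (FractionRing R))
    rw [FractionalIdeal.coe_mk0]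
    exact FractionalIdeal.mem_coeIdeal_of_mem _ hx
  · intro x y h
    have h1 := congrArg Subtype.val h
    exact Subtype.ext (IsFractionRing.injective R (FractionRing R) h1)
  · rintro ⟨y, hy⟩
    have hy' : y ∈ (FractionalIdeal.mk0 (FractionRing R) I : FractionalIdeal R⁰ (FractionRing R)) := hy
    rw [FractionalIdeal.coe_mk0, FractionalIdeal.mem_coeIdeal] at hy'
    obtain ⟨x, hx, rfl⟩ := hy'
    exact ⟨⟨x, hx⟩, rfl⟩

lemma R09_invertible (R : Type u) [CommRing R] [IsDedekindDomain R] (I : (Ideal R)⁰) :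
    Module.Invertible R I.1 := Module.Invertible.congr (R09_equiv R I)

lemma R09_equivPic_mk0 (R : Type u) [CommRing R] [IsDedekindDomain R] (I : (Ideal R)⁰) [Module.Invertible R I.1] :
    ClassGroup.equivPic R (ClassGroup.mk0 I) = CommRing.Pic.mk R I.1 := by
  rw [ClassGroup.mk0_eq_quotientMk]
  have h : ClassGroup.equivPic R (QuotientGroup.mk (FractionalIdeal.mk0 (FractionRing R) I)) =
    Submodule.unitsToPic R (FractionRing R) 
      (FractionalIdeal.unitsMulEquivSubmodule (FractionalIdeal.mk0 (FractionRing R) I)) := rfl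
  refine h.trans ?_
  rw [Submodule.unitsToPic_apply, CommRing.Pic.mk_eq_mk_iff]
  exact ⟨R09_equiv R I⟩

/-- base change of an ideal -/
lemma R09_map {R S : Type u} [CommRing R] [CommRing S] (φ : R →+* S) (I : Ideal R) (J : Ideal S)
    [Module.Invertible R I] [Module.Invertible S J] (h : I.map φ = J) :
    CommRing.Pic.mapRingHom φ (CommRing.Pic.mk R I) = CommRing.Pic.mk S J := by
  let _ := φ.toAlgebra
  show CommRing.Pic.mapAlgebra R S (CommRing.Pic.mk R I) = CommRing.Pic.mk S J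
  rw [CommRing.Pic.mapAlgebra_apply, CommRing.Pic.mk_eq_mk_iff]
  have e1 : S ⊗[R] (CommRing.Pic.mk R I : CommRing.Pic R) ≃ₗ[S] S ⊗[R] I :=
    TensorProduct.AlgebraTensorModule.congr (LinearEquiv.refl S S) (CommRing.Pic.mk.linearEquiv R I)
  refine ⟨e1 ≪≫ₗ ?_⟩
  -- the multiplication map
  have hmem : ∀ x : I, φ x ∈ J := fun x => h ▸ Ideal.mem_map_of_mem φ x.2
  let g0 : I →ₗ[R] J :=
    { toFun := fun x => ⟨φ x, hmem x⟩
      map_add' := fun x y => Subtype.ext (by simp)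
      map_smul' := fun r x => Subtype.ext (by
        show φ (r * x) = ((r • (⟨φ x, hmem x⟩ : J) : J) : S)
        rw [map_mul]
        rfl) }
  let g : S ⊗[R] I →ₗ[S] J := TensorProduct.AlgebraTensorModule.lift
    ((LinearMap.toSpanSingleton S (I →ₗ[R] J) g0))
  have hg : ∀ (s : S) (x : I), ((g (s ⊗ₜ x) : J) : S) = s * φ x := by
    intro s x
    rfl
  have key : ∀ y ∈ Submodule.span S (φ '' (I : Set R)), ∃ t : S ⊗[R] I, ((g t : J) : S) = y := by
    intro y hy
    induction hy using Submodule.span_induction with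
    | mem y hy =>
      obtain ⟨x, hx, rfl⟩ := hy
      exact ⟨1 ⊗ₜ ⟨x, hx⟩, by rw [hg, one_mul]⟩
    | zero => exact ⟨0, by rw [map_zero]; rfl⟩
    | add y z _ _ hy hz =>
      obtain ⟨s, hs⟩ := hy
      obtain ⟨t, ht⟩ := hz
      exact ⟨s + t, by rw [map_add]; show ((g s : J) : S) + ((g t : J) : S) = _; rw [hs, ht]⟩
    | smul a y _ hy =>
      obtain ⟨s, hs⟩ := hy
      exact ⟨a • s, by rw [map_smul]; show a * ((g s : J) : S) = _; rw [hs]; rfl⟩
  refine LinearEquiv.ofBijective g (Module.Invertible.bijective_of_surjective ?_)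
  rintro ⟨y, hy⟩
  have hy2 : y ∈ Submodule.span S (φ '' (I : Set R)) := by
    have h3 : y ∈ I.map φ := by rw [h]; exact hy
    exact h3
  obtain ⟨t, ht⟩ := key y hy2
  exact ⟨t, Subtype.ext ht⟩

variable {ℓ : ℕ} {E E' : Type u} [Field E] [Field E'] {f : E[X]} {f' : E'[X]} [hG : IsGood ℓ f]
  [hG' : IsGood ℓ f']

lemma R09_clPt (σ : E →+* E') (h : f.map σ = f') (P : Pt ℓ f) :
    jacMap ℓ σ h (clPt P) = clPt (Pt.map σ h P) := by
  have i1 : Module.Invertible (Coord ℓ f) P.ideal := R09_invertible (Coord ℓ f)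
    ⟨P.ideal, mem_nonZeroDivisors_of_ne_zero P.ideal_ne_bot⟩
  have i2 : Module.Invertible (Coord ℓ f') (Pt.map σ h P).ideal := R09_invertible (Coord ℓ f')
    ⟨(Pt.map σ h P).ideal, mem_nonZeroDivisors_of_ne_zero (Pt.map σ h P).ideal_ne_bot⟩
  have h1 : CommRing.Pic.mapRingHom (coordMap ℓ σ h) (ClassGroup.equivPic (Coord ℓ f)
      (ClassGroup.mk0 ⟨P.ideal, mem_nonZeroDivisors_of_ne_zero P.ideal_ne_bot⟩)) =
      ClassGroup.equivPic (Coord ℓ f') (ClassGroup.mk0
        ⟨(Pt.map σ h P).ideal, mem_nonZeroDivisors_of_ne_zero (Pt.map σ h P).ideal_ne_bot⟩) := by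
    rw [R09_equivPic_mk0, R09_equivPic_mk0]
    refine R09_map (coordMap ℓ σ h) P.ideal (Pt.map σ h P).ideal ?_
    have e1 : coordMap ℓ σ h (ofPoly (X - C P.x)) = ofPoly (X - C (Pt.map σ h P).x) := by
      rw [coordMap_ofPoly, Polynomial.map_sub, Polynomial.map_X, Polynomial.map_C]
      rfl
    have e2 : coordMap ℓ σ h ((yy : Coord ℓ f) - ofPoly (C P.y)) =
        yy - ofPoly (C (Pt.map σ h P).y) := by
      rw [map_sub, coordMap_ofPoly, coordMap_yy, Polynomial.map_C]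
      rfl
    rw [Pt.ideal_eq_span, Pt.ideal_eq_span, Ideal.map_span, Set.image_pair, e1, e2]
  exact congrArg Additive.ofMul h1

lemma jacMap_cl (σ : E →+* E') (h : f.map σ = f') (D : Pt ℓ f →₀ ℤ) :
    jacMap ℓ σ h (cl D) = cl (D.mapDomain (Pt.map σ h)) := by
  induction D using Finsupp.induction_linear with
  | zero => rw [map_zero, map_zero, Finsupp.mapDomain_zero, map_zero]
  | add D D' h1 h2 => rw [map_add, map_add, h1, h2, Finsupp.mapDomain_add, map_add]
  | single P n =>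
    rw [Finsupp.mapDomain_single]
    have e1 : cl (Finsupp.single P n) = n • clPt P := by
      rw [cl, Finsupp.liftAddHom_apply_single, zmultiplesHom_apply]
    have e2 : cl (Finsupp.single (Pt.map σ h P) n) = n • clPt (Pt.map σ h P) := by
      rw [cl, Finsupp.liftAddHom_apply_single, zmultiplesHom_apply]
    rw [e1, e2, map_zsmul, R09_clPt]

/-- The action of `Sym f` on the Jacobian. -/
noncomputable def symJ (σ : Sym f) : Jac ℓ f →+ Jac ℓ f :=
  jacMap ℓ ((σ : E ≃+* E) : E →+* E) σ.2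

lemma symJ_cl (σ : Sym f) (D : Pt ℓ f →₀ ℤ) :
    symJ σ (cl D) = cl (D.mapDomain (Pt.sym σ)) := jacMap_cl _ _ D

end Pool.Agent.Lib.MP_89bcae_ag.Sup

end

section

/-!
ROW R15 (80-160 lines). Divisors of rotated functions, of `x - a`, of `y`.

PROOF. `div` is `P ↦ ord P`. `ord P (rot⁻¹ u) = ord (P.rot ζ⁻¹) u` (`ord_rotU` applied to
`rot⁻¹ u`), i.e. `div (rot⁻¹ u)` is the image of `div u` under `P ↦ P.rot ζ`
(`Finsupp.mapDomain_apply` for the injective map `Pt.rot`). Same for `symU` (`ord_symU`).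
`div (x - a)`: the points above `a` are the `(a, ζ^i b)`, `i < ℓ`; if `b ≠ 0` they are distinct and
the order of `x - a` is `1` at each of them (`ord_xs_of_unramified`); if `b = 0` they all coincide
and the order is `ℓ` (`ord_xs_of_ramified`). `div y` : `ord_yU_...`.
-/

open Polynomial IsDedekindDomain

open scoped Classical

namespace Pool.Agent.Lib.MP_89bcae_ag.Sup

universe u

variable {ℓ : ℕ} {E : Type u} [Field E] {f : E[X]} [hG : IsGood ℓ f]

lemma R15_root (P : Pt ℓ f) (h : P.y = 0) : f.eval P.x = 0 := by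
  rw [← P.eq, h, zero_pow hG.prime.ne_zero]

lemma ramDiv_finite (e : E → ℤ) :
    (Function.support fun P : Pt ℓ f => if P.y = 0 then e P.x else 0).Finite := by
  have hf0 : f ≠ 0 := by
    intro h
    have := IsGood.natDegree_ne_zero (ℓ := ℓ) (f := f)
    rw [h] at this
    exact this natDegree_zero
  have hfin : {P : Pt ℓ f | P.y = 0}.Finite := by
    apply Set.Finite.of_finite_image (f := Pt.x)
    · apply (f.roots.toFinset.finite_toSet).subset
      rintro _ ⟨P, hP, rfl⟩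
      rw [Finset.mem_coe, Multiset.mem_toFinset, mem_roots hf0]
      exact R15_root P hP
    · intro P hP Q hQ hx
      ext
      · exact hx
      · rw [show P.y = 0 from hP, show Q.y = 0 from hQ]
  apply hfin.subset
  intro P hP
  by_contra h
  apply hP
  exact if_neg h

/-- The divisor `∑ e(θ) (θ, 0)` over the roots `θ` of `f`. -/
noncomputable def ramDiv (e : E → ℤ) : Pt ℓ f →₀ ℤ :=
  Finsupp.ofSupportFinite (fun P => if P.y = 0 then e P.x else 0) (ramDiv_finite e)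

@[simp] lemma ramDiv_apply (e : E → ℤ) (P : Pt ℓ f) :
    ramDiv e P = if P.y = 0 then e P.x else 0 := rfl

lemma ramDiv_add (e e' : E → ℤ) :
    (ramDiv (fun θ => e θ + e' θ) : Pt ℓ f →₀ ℤ) = ramDiv e + ramDiv e' := by
  ext P
  rw [Finsupp.add_apply, ramDiv_apply, ramDiv_apply, ramDiv_apply]
  split_ifs <;> simp

lemma ramDiv_sub (e e' : E → ℤ) :
    (ramDiv (fun θ => e θ - e' θ) : Pt ℓ f →₀ ℤ) = ramDiv e - ramDiv e' := by
  ext P
  rw [Finsupp.sub_apply, ramDiv_apply, ramDiv_apply, ramDiv_apply]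
  split_ifs <;> simp

lemma ramDiv_smul (n : ℤ) (e : E → ℤ) :
    (ramDiv (fun θ => n * e θ) : Pt ℓ f →₀ ℤ) = n • ramDiv e := by
  ext P
  rw [Finsupp.smul_apply, ramDiv_apply, ramDiv_apply]
  split_ifs <;> simp

lemma ramDiv_congr (e e' : E → ℤ) (h : ∀ θ, f.eval θ = 0 → e θ = e' θ) :
    (ramDiv e : Pt ℓ f →₀ ℤ) = ramDiv e' := by
  ext P
  rw [ramDiv_apply, ramDiv_apply]
  split_ifs with hP
  · exact h _ (R15_root P hP)
  · rfl

omit hG in
lemma R15_sym_inv (σ : Sym f) (Q : Pt ℓ f) : (Q.sym σ⁻¹).sym σ = Q := by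
  ext
  · exact (σ : E ≃+* E).apply_symm_apply Q.x
  · exact (σ : E ≃+* E).apply_symm_apply Q.y

omit hG in
lemma R15_sym_inj (σ : Sym f) : Function.Injective (Pt.sym (ℓ := ℓ) σ) := by
  intro P Q h
  ext
  · exact (σ : E ≃+* E).injective (congrArg Pt.x h)
  · exact (σ : E ≃+* E).injective (congrArg Pt.y h)

omit hG in
lemma R15_ne (hℓ : ℓ ≠ 0) (ζ : E) (hζ : ζ ^ ℓ = 1) : ζ ≠ 0 := by
  intro h
  rw [h, zero_pow hℓ] at hζ
  exact zero_ne_one hζ

lemma R15_rot_inj (ζ : E) (hζ : ζ ^ ℓ = 1) :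
    Function.Injective (Pt.rot (f := f) ζ hζ) := by
  intro P Q h
  have h1 := congrArg Pt.x h
  have h2 : ζ * P.y = ζ * Q.y := congrArg Pt.y h
  ext
  · exact h1
  · exact mul_left_cancel₀ (R15_ne hG.prime.ne_zero ζ hζ) h2

lemma R15_rot_inv (ζ : E) (hζ : ζ ^ ℓ = 1) (Q : Pt ℓ f) :
    (Q.rot ζ⁻¹ (by rw [inv_pow, hζ, inv_one])).rot ζ hζ = Q := by
  ext
  · rfl
  · exact mul_inv_cancel_left₀ (R15_ne hG.prime.ne_zero ζ hζ) Q.y

omit hG in
lemma R15_iter (ζ : E) (hζ : ζ ^ ℓ = 1) (P : Pt ℓ f) (n : ℕ) :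
    ((Pt.rot ζ hζ)^[n] P).x = P.x ∧ ((Pt.rot ζ hζ)^[n] P).y = ζ ^ n * P.y := by
  induction n with
  | zero => simp
  | succ n ih =>
    rw [Function.iterate_succ_apply']
    refine ⟨ih.1, ?_⟩
    show ζ * ((Pt.rot ζ hζ)^[n] P).y = _
    rw [ih.2, pow_succ]
    ring

lemma mapDomain_sym_ramDiv (σ : Sym f) (e : E → ℤ) :
    (ramDiv e : Pt ℓ f →₀ ℤ).mapDomain (Pt.sym σ) =
      ramDiv fun θ => e (((σ⁻¹ : Sym f) : E ≃+* E) θ) := by
  ext Q
  conv_lhs => rw [← R15_sym_inv σ Q]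
  rw [Finsupp.mapDomain_apply (R15_sym_inj σ), ramDiv_apply, ramDiv_apply]
  have h1 : (Q.sym σ⁻¹).y = 0 ↔ Q.y = 0 :=
    map_eq_zero_iff (((σ⁻¹ : Sym f) : E ≃+* E)) (RingEquiv.injective _)
  by_cases hQ : Q.y = 0
  · rw [if_pos hQ, if_pos (h1.mpr hQ)]
    rfl
  · rw [if_neg hQ, if_neg (fun h => hQ (h1.mp h))]

lemma mapDomain_rot_ramDiv (ζ : E) (hζ : ζ ^ ℓ = 1) (e : E → ℤ) :
    (ramDiv e : Pt ℓ f →₀ ℤ).mapDomain (Pt.rot ζ hζ) = ramDiv e := by
  ext Q
  conv_lhs => rw [← R15_rot_inv ζ hζ Q]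
  rw [Finsupp.mapDomain_apply (R15_rot_inj ζ hζ), ramDiv_apply, ramDiv_apply]
  have h1 : (Q.rot ζ⁻¹ (by rw [inv_pow, hζ, inv_one])).y = 0 ↔ Q.y = 0 := by
    show ζ⁻¹ * Q.y = 0 ↔ Q.y = 0
    rw [mul_eq_zero, inv_eq_zero]
    constructor
    · rintro (h | h)
      · exact absurd h (R15_ne hG.prime.ne_zero ζ hζ)
      · exact h
    · exact Or.inr
  by_cases hQ : Q.y = 0
  · rw [if_pos hQ, if_pos (h1.mpr hQ)]
    rfl
  · rw [if_neg hQ, if_neg (fun h => hQ (h1.mp h))]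

/-- The coefficient of a divisor at `(θ, 0)` (zero if `θ` is not a root of `f`). -/
noncomputable def atR (D : Pt ℓ f →₀ ℤ) (θ : E) : ℤ :=
  if hθ : f.eval θ = 0 then D ⟨θ, 0, by rw [zero_pow hG.prime.ne_zero, hθ]⟩ else 0

lemma div_rotU_symm (ζ : E) (hζ : ζ ^ ℓ = 1) (h0 : ζ ≠ 0) (u : (Fn ℓ f)ˣ) :
    div ((rotU ζ hζ h0).symm u) = (div u).mapDomain (Pt.rot ζ hζ) := by
  ext Q
  conv_rhs => rw [← R15_rot_inv ζ hζ Q]
  rw [Finsupp.mapDomain_apply (R15_rot_inj ζ hζ), div_apply, div_apply]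
  have h1 := ord_rotU ζ hζ h0 (Q.rot ζ⁻¹ (by rw [inv_pow, hζ, inv_one]))
    ((rotU ζ hζ h0).symm u)
  rw [MulEquiv.apply_symm_apply, R15_rot_inv] at h1
  exact h1.symm

lemma div_symU (σ : Sym f) (u : (Fn ℓ f)ˣ) :
    div (symU σ u) = (div u).mapDomain (Pt.sym σ) := by
  ext Q
  conv_rhs => rw [← R15_sym_inv σ Q]
  rw [Finsupp.mapDomain_apply (R15_sym_inj σ), div_apply, div_apply]
  have h1 := ord_symU σ (Q.sym σ⁻¹) u
  rw [R15_sym_inv] at h1
  exact h1

lemma div_xs (ζ : E) (hζ : IsPrimitiveRoot ζ ℓ) (P : Pt ℓ f) :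
    div (xs P.x : (Fn ℓ f)ˣ) =
      ∑ i ∈ Finset.range ℓ, Finsupp.single ((Pt.rot ζ hζ.pow_eq_one)^[i] P) 1 := by
  have hℓ0 : ℓ ≠ 0 := hG.prime.ne_zero
  have : NeZero ℓ := ⟨hℓ0⟩
  ext Q
  rw [div_apply, Finsupp.finsetSum_apply]
  simp only [Finsupp.single_apply]
  by_cases hx : Q.x = P.x
  · by_cases hy : Q.y = 0
    · have hPy : P.y = 0 := by
        have h1 := P.eq
        rw [← hx, ← Q.eq, hy, zero_pow hℓ0] at h1
        exact (pow_eq_zero_iff hℓ0).mp h1
      rw [← hx, ord_xs_of_ramified Q hy]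
      have h2 : ∀ i ∈ Finset.range ℓ, (if (Pt.rot ζ hζ.pow_eq_one)^[i] P = Q then (1 : ℤ) else 0) =
          1 := by
        intro i _
        rw [if_pos]
        ext
        · rw [(R15_iter ζ hζ.pow_eq_one P i).1, hx]
        · rw [(R15_iter ζ hζ.pow_eq_one P i).2, hPy, hy, mul_zero]
      rw [Finset.sum_congr rfl h2]
      simp
    · rw [← hx, ord_xs_of_unramified Q hy]
      have hPy : P.y ≠ 0 := by
        intro h
        apply hy
        have h1 := Q.eq
        rw [hx, ← P.eq, h, zero_pow hℓ0] at h1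
        exact (pow_eq_zero_iff hℓ0).mp h1
      have h5 : (Q.y / P.y) ^ ℓ = 1 := by
        rw [div_pow, Q.eq, P.eq, hx, div_self]
        rw [← P.eq]
        exact pow_ne_zero ℓ hPy
      obtain ⟨i, hi, he⟩ := hζ.eq_pow_of_pow_eq_one h5
      symm
      rw [Finset.sum_eq_single i]
      · rw [if_pos]
        ext
        · rw [(R15_iter ζ hζ.pow_eq_one P i).1, hx]
        · rw [(R15_iter ζ hζ.pow_eq_one P i).2, he, div_mul_cancel₀ _ hPy]
      · intro j hj hji
        rw [if_neg]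
        intro h
        apply hji
        have h6 := congrArg Pt.y h
        rw [(R15_iter ζ hζ.pow_eq_one P j).2] at h6
        have h7 : ζ ^ j = ζ ^ i := by
          rw [he, eq_div_iff hPy]
          exact h6
        exact hζ.pow_inj (Finset.mem_range.mp hj) hi h7
      · intro h
        exact absurd (Finset.mem_range.mpr hi) h
  · rw [ord_xs_of_ne Q hx]
    symm
    apply Finset.sum_eq_zero
    intro i _
    rw [if_neg]
    intro h
    apply hx
    rw [← h, (R15_iter ζ hζ.pow_eq_one P i).1]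

lemma div_yU : div (yU : (Fn ℓ f)ˣ) = ramDiv fun _ => 1 := by
  ext P
  rw [div_apply, ramDiv_apply]
  split_ifs with h
  · exact ord_yU_of_ramified P h
  · exact ord_yU_of_ne P h

end Pool.Agent.Lib.MP_89bcae_ag.Sup

end

section

/-!
ROW R16 (80-150 lines). The automorphism `Z` of the Jacobian induced by `(x, y) ↦ (x, ζ y)`.

PROOF. `cl` is surjective with kernel the divisors of functions (R08), and this kernel is stable
under `D ↦ D.mapDomain (Pt.rot ζ)` because `(div u).mapDomain (rot) = div (rot⁻¹ u)`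
(`div_rotU_symm`); so `Z` exists (e.g. via `QuotientAddGroup.lift`, or choose for each class a
divisor). `∑_{i<ℓ} Z^i [P] = cl (div (x - P.x)) = 0` by `div_xs`, and these classes generate.
The classes of the points generate, so `Z` commutes with `symJ σ` if `σ ζ = ζ` as
`(P.rot ζ).sym σ = (P.sym σ).rot ζ`; and with `jacMap ℓ σ` (`ζ ↦ σ ζ`) for a homomorphism `σ`.
-/

open Polynomial IsDedekindDomain

open scoped Classical

namespace Pool.Agent.Lib.MP_89bcae_ag.Sup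

universe u

variable {ℓ : ℕ} {E : Type u} [Field E] {f : E[X]} [hG : IsGood ℓ f]

lemma exists_zJ (ζ : E) (hζ : ζ ^ ℓ = 1) : ∃ Z : Jac ℓ f →+ Jac ℓ f, ∀ D : Pt ℓ f →₀ ℤ,
    Z (cl D) = cl (D.mapDomain (Pt.rot ζ hζ)) := by
  have h0 : ζ ≠ 0 := by
    intro h
    rw [h, zero_pow hG.prime.ne_zero] at hζ
    exact zero_ne_one hζ
  set g : (Pt ℓ f →₀ ℤ) →+ Jac ℓ f :=
    (cl : (Pt ℓ f →₀ ℤ) →+ Jac ℓ f).comp (Finsupp.mapDomain.addMonoidHom (Pt.rot ζ hζ)) with hg
  have hker : (cl : (Pt ℓ f →₀ ℤ) →+ Jac ℓ f).ker ≤ g.ker := by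
    intro D hD
    rw [AddMonoidHom.mem_ker] at hD ⊢
    obtain ⟨u, hu⟩ := exists_div_of_cl_eq_zero D hD
    change cl (D.mapDomain (Pt.rot ζ hζ)) = 0
    rw [← hu, ← div_rotU_symm ζ hζ h0, cl_div]
  refine ⟨(cl : (Pt ℓ f →₀ ℤ) →+ Jac ℓ f).liftOfSurjective cl_surjective ⟨g, hker⟩,
    fun D => ?_⟩
  exact AddMonoidHom.liftOfRightInverse_comp_apply _ _ _ ⟨g, hker⟩ D

/-- The automorphism of the Jacobian induced by `(x, y) ↦ (x, ζ y)`. -/
noncomputable def zJ (ζ : E) (hζ : ζ ^ ℓ = 1) : Jac ℓ f →+ Jac ℓ f := (exists_zJ ζ hζ).choose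

lemma zJ_cl (ζ : E) (hζ : ζ ^ ℓ = 1) (D : Pt ℓ f →₀ ℤ) :
    zJ ζ hζ (cl D) = cl (D.mapDomain (Pt.rot ζ hζ)) := (exists_zJ ζ hζ).choose_spec D

lemma sum_zJ (ζ : E) (hζ : IsPrimitiveRoot ζ ℓ) (Q : Jac ℓ f) :
    ∑ i ∈ Finset.range ℓ, (zJ ζ hζ.pow_eq_one)^[i] Q = 0 := by
  have hit : ∀ (i : ℕ) (D : Pt ℓ f →₀ ℤ), (zJ ζ hζ.pow_eq_one)^[i] (cl D) =
      cl (D.mapDomain ((Pt.rot ζ hζ.pow_eq_one)^[i])) := by
    intro i D
    induction i with
    | zero =>
      rw [Function.iterate_zero, Function.iterate_zero, id_eq, Finsupp.mapDomain_id]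
    | succ i ih =>
      rw [Function.iterate_succ_apply', ih, zJ_cl, ← Finsupp.mapDomain_comp,
        Function.iterate_succ']
  obtain ⟨D, rfl⟩ := cl_surjective Q
  rw [Finset.sum_congr rfl fun i _ => hit i D]
  induction D using Finsupp.induction_linear with
  | zero =>
    refine Finset.sum_eq_zero fun i _ => ?_
    rw [Finsupp.mapDomain_zero, map_zero]
  | add D D' h h' =>
    rw [Finset.sum_congr rfl fun i _ => by rw [Finsupp.mapDomain_add, map_add],
      Finset.sum_add_distrib, h, h', add_zero]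
  | single P n =>
    have h1 : ∀ i ∈ Finset.range ℓ, cl ((Finsupp.single P n).mapDomain
        ((Pt.rot ζ hζ.pow_eq_one)^[i])) =
        n • cl (Finsupp.single ((Pt.rot ζ hζ.pow_eq_one)^[i] P) (1 : ℤ)) := by
      intro i _
      rw [Finsupp.mapDomain_single, ← map_zsmul, Finsupp.smul_single, smul_eq_mul, mul_one]
    rw [Finset.sum_congr rfl h1, ← Finset.smul_sum, ← map_sum, ← div_xs ζ hζ P, cl_div,
      smul_zero]

lemma zJ_symJ (ζ : E) (hζ : ζ ^ ℓ = 1) (σ : Sym f) (hσ : (σ : E ≃+* E) ζ = ζ) (Q : Jac ℓ f) :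
    zJ ζ hζ (symJ σ Q) = symJ σ (zJ ζ hζ Q) := by
  obtain ⟨D, rfl⟩ := cl_surjective Q
  rw [symJ_cl, zJ_cl, zJ_cl, symJ_cl, ← Finsupp.mapDomain_comp, ← Finsupp.mapDomain_comp]
  congr 2
  funext P
  apply Pt.ext
  · rfl
  · change ζ * (σ : E ≃+* E) P.y = (σ : E ≃+* E) (ζ * P.y)
    rw [map_mul, hσ]

lemma zJ_jacMap {E' : Type u} [Field E'] {f' : E'[X]} [hG' : IsGood ℓ f'] (σ : E →+* E')
    (h : f.map σ = f') (ζ : E) (hζ : ζ ^ ℓ = 1) (hζ' : (σ ζ) ^ ℓ = 1) (Q : Jac ℓ f) :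
    zJ (σ ζ) hζ' (jacMap ℓ σ h Q) = jacMap ℓ σ h (zJ ζ hζ Q) := by
  obtain ⟨D, rfl⟩ := cl_surjective Q
  rw [jacMap_cl, zJ_cl, zJ_cl, jacMap_cl, ← Finsupp.mapDomain_comp, ← Finsupp.mapDomain_comp]
  congr 2
  funext P
  apply Pt.ext
  · rfl
  · change σ ζ * σ P.y = σ (ζ * P.y)
    rw [map_mul]

end Pool.Agent.Lib.MP_89bcae_ag.Sup

end
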