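import Mathlib

section

/-!
ROW A01 (120-220 lines). Automorphisms of finite order congruent to `1` modulo `π²`, and modulo `π`.

Setting: `B` commutative ring, `H` a `B`-module, `ℓ` prime, `z` in `B` with `∑_{i<ℓ} z^i = 0`,
`p = 1 - z`; `p` is injective on `H` and `⋂ p^n H = 0`.
(1) `exists_pi_identity`: there are `v`, `w` in `B` with `p v = ℓ`, `p^(ℓ-1) = ℓ (-1 + p w)`.
 PROOF. `v = ∑_{k<ℓ} ∑_{i<k} z^i` (`(1 - z) ∑_{i<k} z^i = 1 - z^k`). In `ℤ[X]`,
 `(1 - X)^(ℓ-1) - ∑_{i<ℓ} X^i` is divisible by `ℓ` (modulo `ℓ`: `(1-X)^ℓ = 1 - X^ℓ =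
 (1-X) ∑ X^i`, cancel `1 - X`), equal to `ℓ W`; at `X = 1`: `W(1) = -1`, so
 `W = -1 + (1 - X) W₂`; evaluate at `z`.
(2) `ℓ` is injective on `H`: `ℓ x = 0 → p^(ℓ-1) x = 0`. For `n` prime to `ℓ` and `X` in `B`,
 `n + p X` is injective on `H`: if `(n + pX) y = 0` then `n y ∈ pH`, `ℓ y = p v y ∈ pH`, so
 `y = p y₁` (Bezout), `(n + pX) y₁ = 0` by injectivity of `p`, and so on: `y ∈ ⋂ p^n H = 0`.
(3) `sq_case`: `W = 1 + p² Y`, `W^M x = x`, `M > 0` imply `Y x = 0`.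
 PROOF. `W^ℓ = 1 + ℓ p² Y (1 + p X₁)`: binomial theorem: the terms `C(ℓ,j) p^{2j} Y^j`,
 `2 ≤ j < ℓ`, are divisible by `ℓ p² Y · p`; `p^{2ℓ} Y^ℓ = p^{ℓ-1} p^{ℓ+1} Y^ℓ = ℓ (-1+pw) p^{ℓ+1} Y^ℓ`
 too. By induction `W^{ℓ^s} = 1 + ℓ^s p² Y (1 + p X_s)`, and for `M'` prime to `ℓ`,
 `(1 + p² Y')^{M'} = 1 + p² Y' (M' + p X')`. With `M = ℓ^s M'`:
 `0 = (W^M - 1) x = ℓ^s p² (1 + pX)(M' + pX') Y x`; all factors are injective by (2).
(4) `fst_case`: `W = 1 + p N`, `W^M x = x`, `M > 0` imply `(N^ℓ - N) x ∈ p H`.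
 PROOF. `W^ℓ = 1 + ℓ p N + ∑_{2≤j<ℓ} C(ℓ,j) p^j N^j + p^ℓ N^ℓ` and `p^ℓ = ℓ p (-1 + p w)`:
 `W^ℓ = 1 + ℓ p (N - N^ℓ + p X) = 1 + p² Y` with `Y = v (N - N^ℓ + p X)`, and
 `(W^ℓ)^M x = x`, so `Y x = 0` by (3), `p Y = ℓ (N - N^ℓ + pX)`, so `(N^ℓ - N) x = p X x`.
-/

open Polynomial

namespace Pool.Agent.Lib.MP_89bcae_ag.Sup

variable {B H : Type*} [CommRing B] [AddCommGroup H] [Module B H] {ℓ : ℕ}

private lemma A01_poly (hℓ : ℓ.Prime) : ∃ W : ℤ[X],
    (1 - X) ^ (ℓ - 1) - ∑ i ∈ Finset.range ℓ, (X : ℤ[X]) ^ i = C (ℓ : ℤ) * W := by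
  have : Fact ℓ.Prime := ⟨hℓ⟩
  have h1 : ((1 - X : (ZMod ℓ)[X])) ^ (ℓ - 1) = ∑ i ∈ Finset.range ℓ, (X : (ZMod ℓ)[X]) ^ i := by
    have h2 : (1 - X : (ZMod ℓ)[X]) * (1 - X) ^ (ℓ - 1) =
        (1 - X) * ∑ i ∈ Finset.range ℓ, (X : (ZMod ℓ)[X]) ^ i := by
      rw [mul_neg_geom_sum, ← pow_succ', Nat.sub_add_cancel hℓ.one_le, sub_pow_char, one_pow]
    have h3 : (1 - X : (ZMod ℓ)[X]) ≠ 0 := by
      intro h
      have := congrArg (eval 0) h
      simp at this
    exact mul_left_cancel₀ h3 h2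
  have h4 : C (ℓ : ℤ) ∣ (1 - X) ^ (ℓ - 1) - ∑ i ∈ Finset.range ℓ, (X : ℤ[X]) ^ i := by
    rw [C_dvd_iff_dvd_coeff]
    intro i
    rw [← ZMod.intCast_zmod_eq_zero_iff_dvd]
    have h5 : Polynomial.map (Int.castRingHom (ZMod ℓ))
        ((1 - X) ^ (ℓ - 1) - ∑ i ∈ Finset.range ℓ, (X : ℤ[X]) ^ i) = 0 := by
      rw [Polynomial.map_sub, Polynomial.map_pow, Polynomial.map_sub, Polynomial.map_one,
        Polynomial.map_X, Polynomial.map_sum, h1]
      simp only [Polynomial.map_pow, Polynomial.map_X, sub_self]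
    have h6 := congrArg (fun q => coeff q i) h5
    simp only [coeff_map, coeff_zero] at h6
    exact h6
  obtain ⟨W, hW⟩ := h4
  exact ⟨W, hW⟩

lemma exists_pi_identity (hℓ : ℓ.Prime) (z : B) (hz : ∑ i ∈ Finset.range ℓ, z ^ i = 0) :
    ∃ v w : B, (1 - z) * v = ℓ ∧ (1 - z) ^ (ℓ - 1) = ℓ * (-1 + (1 - z) * w) := by
  obtain ⟨W, hW⟩ := A01_poly hℓ
  have hW1 : eval 1 W = -1 := by
    have h1 := congrArg (eval (1 : ℤ)) hW
    have h2 : ℓ - 1 ≠ 0 := Nat.sub_ne_zero_of_lt hℓ.one_lt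
    simp only [eval_sub, eval_pow, eval_one, eval_X, sub_self, eval_finsetSum, one_pow,
      Finset.sum_const, Finset.card_range, eval_mul, eval_C, zero_pow h2, smul_eq_mul,
      nsmul_eq_mul, mul_one] at h1
    have h3 : (ℓ : ℤ) ≠ 0 := by exact_mod_cast hℓ.ne_zero
    have h4 : (ℓ : ℤ) * (eval 1 W + 1) = 0 := by linarith
    have h5 := (mul_eq_zero.1 h4).resolve_left h3
    linarith
  obtain ⟨W2, hW2⟩ := (X_sub_C_dvd_sub_C_eval (a := (1 : ℤ)) (p := W))
  rw [hW1] at hW2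
  have hWz : aeval z W = -1 + (1 - z) * (-aeval z W2) := by
    have h1 := congrArg (aeval z) hW2
    simp only [map_sub, map_mul, aeval_X, aeval_C, map_neg, map_one] at h1
    have h2 : aeval z W = (z - 1) * aeval z W2 - 1 := by
      rw [← h1]
      ring
    rw [h2]
    ring
  refine ⟨∑ k ∈ Finset.range ℓ, ∑ i ∈ Finset.range k, z ^ i, -aeval z W2, ?_, ?_⟩
  · rw [Finset.mul_sum]
    simp only [mul_neg_geom_sum, Finset.sum_sub_distrib, Finset.sum_const, Finset.card_range,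
      nsmul_eq_mul, mul_one]
    rw [hz, sub_zero]
  · have h1 := congrArg (aeval z) hW
    simp only [map_sub, map_mul, map_pow, map_sum, aeval_X, aeval_C, map_one, hz, sub_zero] at h1
    rw [h1, hWz]
    simp

private lemma A01_bin (hℓ : ℓ.Prime) (u : B) :
    ∃ R : B, (1 + u) ^ ℓ = 1 + ℓ * u * (1 + u * R) + u ^ ℓ := by
  have h1 := add_pow_prime_eq hℓ u (1 : B)
  refine ⟨∑ k ∈ (Finset.Ioo 0 ℓ).erase 1, u ^ (k - 2) * ((ℓ.choose k / ℓ : ℕ) : B), ?_⟩
  have h2 : (1 : ℕ) ∈ Finset.Ioo 0 ℓ := Finset.mem_Ioo.2 ⟨one_pos, hℓ.one_lt⟩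
  have h3 : ∑ k ∈ Finset.Ioo 0 ℓ, u ^ (k - 1) * (1 : B) ^ (ℓ - k - 1) *
      ((ℓ.choose k / ℓ : ℕ) : B) = 1 + u * ∑ k ∈ (Finset.Ioo 0 ℓ).erase 1, u ^ (k - 2) *
      ((ℓ.choose k / ℓ : ℕ) : B) := by
    rw [← Finset.add_sum_erase _ _ h2, Finset.mul_sum]
    congr 1
    · rw [Nat.choose_one_right, Nat.div_self hℓ.pos]
      simp
    · refine Finset.sum_congr rfl fun k hk => ?_
      rw [Finset.mem_erase, Finset.mem_Ioo] at hk
      have h4 : k - 1 = (k - 2) + 1 := by omega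
      rw [h4, pow_succ]
      ring
  rw [h3] at h1
  rw [add_comm, h1]
  ring

section

variable {z : B}

private lemma A01_inj_pow (hinj : ∀ x : H, (1 - z) • x = 0 → x = 0) (n : ℕ) (x : H)
    (h : (1 - z) ^ n • x = 0) : x = 0 := by
  induction n with
  | zero => simpa using h
  | succ n ih =>
    rw [pow_succ', mul_smul] at h
    exact ih (hinj _ h)

private lemma A01_inj_unit (hℓ : ℓ.Prime) (hz : ∑ i ∈ Finset.range ℓ, z ^ i = 0)
    (hinj : ∀ x : H, (1 - z) • x = 0 → x = 0)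
    (hsep : ∀ x : H, (∀ n : ℕ, ∃ y : H, x = (1 - z) ^ n • y) → x = 0)
    (a : ℤ) (ha : IsCoprime a (ℓ : ℤ)) (X : B) (y : H) (h : ((a : B) + (1 - z) * X) • y = 0) :
    y = 0 := by
  obtain ⟨v, w, hv, -⟩ := exists_pi_identity (B := B) hℓ z hz
  obtain ⟨c, d, hcd⟩ := ha
  have key : ∀ n : ℕ, ∃ y' : H, y = (1 - z) ^ n • y' ∧ ((a : B) + (1 - z) * X) • y' = 0 := by
    intro n
    induction n with
    | zero => exact ⟨y, by simp, h⟩
    | succ n ih =>
      obtain ⟨y', h1, h2⟩ := ih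
      have h3 : ((c : B) * (a : B) + (d : B) * (ℓ : B)) = 1 := by
        exact_mod_cast congrArg (fun q : ℤ => (q : B)) hcd
      have h4 : y' = (1 - z) • ((-(c : B) * X + d * v) • y') := by
        have h5 : (1 - z) * (-(c : B) * X + d * v) = 1 - (c : B) * ((a : B) + (1 - z) * X) := by
          linear_combination (d : B) * hv + h3
        rw [← mul_smul, h5, sub_smul, one_smul, mul_smul, h2, smul_zero, sub_zero]
      refine ⟨(-(c : B) * X + d * v) • y', ?_, ?_⟩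
      · rw [pow_succ, mul_smul, ← h4]
        exact h1
      · rw [← mul_smul, mul_comm, mul_smul, h2, smul_zero]
  refine hsep y fun n => ?_
  obtain ⟨y', h1, -⟩ := key n
  exact ⟨y', h1⟩

private lemma A01_inj_l (hℓ : ℓ.Prime) (hz : ∑ i ∈ Finset.range ℓ, z ^ i = 0)
    (hinj : ∀ x : H, (1 - z) • x = 0 → x = 0) (x : H) (h : (ℓ : B) • x = 0) : x = 0 := by
  obtain ⟨v, w, -, hw⟩ := exists_pi_identity (B := B) hℓ z hz
  refine A01_inj_pow hinj (ℓ - 1) x ?_
  rw [hw, mul_comm, mul_smul, h, smul_zero]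

private lemma A01_inj_l_pow (hℓ : ℓ.Prime) (hz : ∑ i ∈ Finset.range ℓ, z ^ i = 0)
    (hinj : ∀ x : H, (1 - z) • x = 0 → x = 0) (s : ℕ) (x : H) (h : (ℓ : B) ^ s • x = 0) :
    x = 0 := by
  induction s with
  | zero => simpa using h
  | succ n ih =>
    rw [pow_succ', mul_smul] at h
    exact ih (A01_inj_l hℓ hz hinj _ h)

private lemma A01_pow_l (hℓ : ℓ.Prime) (hz : ∑ i ∈ Finset.range ℓ, z ^ i = 0) (Y : B) :
    ∃ X : B, (1 + (1 - z) ^ 2 * Y) ^ ℓ = 1 + ℓ * ((1 - z) ^ 2 * Y) * (1 + (1 - z) * X) := by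
  obtain ⟨v, w, -, hw⟩ := exists_pi_identity (B := B) hℓ z hz
  obtain ⟨R, hR⟩ := A01_bin hℓ ((1 - z) ^ 2 * Y)
  obtain ⟨m, hm⟩ : ∃ m, ℓ = m + 2 := ⟨ℓ - 2, by have := hℓ.two_le; omega⟩
  have h1 : ((1 - z) ^ 2 * Y) ^ ℓ = ℓ * ((1 - z) ^ 2 * Y) *
      ((1 - z) * ((-1 + (1 - z) * w) * (1 - z) ^ m * Y ^ (ℓ - 1))) := by
    have h2 : ((1 - z) ^ 2 * Y) ^ ℓ = ((1 - z) ^ 2 * Y) * ((1 - z) ^ (ℓ - 1) *
        (1 - z) ^ (ℓ - 1) * Y ^ (ℓ - 1)) := by
      obtain ⟨k, hk⟩ : ∃ k, ℓ = k + 1 := ⟨ℓ - 1, by have := hℓ.one_le; omega⟩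
      rw [hk]
      simp only [Nat.add_sub_cancel]
      rw [pow_succ', mul_pow, ← pow_mul]
      ring
    have h3 : (1 - z) ^ (ℓ - 1) * (1 - z) ^ (ℓ - 1) =
        (ℓ * (-1 + (1 - z) * w)) * ((1 - z) * (1 - z) ^ m) := by
      nth_rewrite 1 [hw]
      congr 1
      rw [← pow_succ']
      congr 1
      omega
    rw [h2, h3]
    ring
  refine ⟨(1 - z) * Y * R + (-1 + (1 - z) * w) * (1 - z) ^ m * Y ^ (ℓ - 1), ?_⟩
  rw [hR, h1]
  ring

private lemma A01_pow_ls (hℓ : ℓ.Prime) (hz : ∑ i ∈ Finset.range ℓ, z ^ i = 0) (Y : B) (s : ℕ) :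
    ∃ X : B, (1 + (1 - z) ^ 2 * Y) ^ (ℓ ^ s) =
      1 + (1 - z) ^ 2 * ((ℓ : B) ^ s * Y * (1 + (1 - z) * X)) := by
  induction s with
  | zero => exact ⟨0, by simp⟩
  | succ s ih =>
    obtain ⟨X, hX⟩ := ih
    obtain ⟨X', hX'⟩ := A01_pow_l hℓ hz ((ℓ : B) ^ s * Y * (1 + (1 - z) * X))
    refine ⟨X + X' + (1 - z) * X * X', ?_⟩
    rw [show ℓ ^ (s + 1) = ℓ ^ s * ℓ from pow_succ _ _, pow_mul, hX, hX']
    ring

private lemma A01_pow_M (u : B) (M : ℕ) : ∃ R : B, (1 + u) ^ M = 1 + u * (M + u * R) := by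
  induction M with
  | zero => exact ⟨0, by simp⟩
  | succ n ih =>
    obtain ⟨R, hR⟩ := ih
    refine ⟨R + n + u * R, ?_⟩
    rw [pow_succ, hR]
    push_cast
    ring

private lemma A01_fix {W : B} {x : H} (h : W • x = x) (n : ℕ) : W ^ n • x = x := by
  induction n with
  | zero => simp
  | succ n ih => rw [pow_succ, mul_smul, h, ih]

end

lemma sq_case (hℓ : ℓ.Prime) (z : B) (hz : ∑ i ∈ Finset.range ℓ, z ^ i = 0)
    (hinj : ∀ x : H, (1 - z) • x = 0 → x = 0)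
    (hsep : ∀ x : H, (∀ n : ℕ, ∃ y : H, x = (1 - z) ^ n • y) → x = 0)
    (Y : B) (x : H) (M : ℕ) (hM : 0 < M) (hx : (1 + (1 - z) ^ 2 * Y) ^ M • x = x) :
    Y • x = 0 := by
  obtain ⟨s, M', hM', hMe⟩ := Nat.exists_eq_pow_mul_and_not_dvd hM.ne' ℓ hℓ.ne_one
  obtain ⟨X, hX⟩ := A01_pow_ls hℓ hz Y s
  obtain ⟨R, hR⟩ := A01_pow_M ((1 - z) ^ 2 * ((ℓ : B) ^ s * Y * (1 + (1 - z) * X))) M'
  have hcop : IsCoprime (M' : ℤ) (ℓ : ℤ) := by
    rw [Nat.isCoprime_iff_coprime]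
    exact ((Nat.Prime.coprime_iff_not_dvd hℓ).2 hM').symm
  rw [hMe, pow_mul, hX, hR, add_smul, one_smul, add_eq_left] at hx
  have e : (1 - z) ^ 2 * ((ℓ : B) ^ s * Y * (1 + (1 - z) * X)) *
      ((M' : B) + (1 - z) ^ 2 * ((ℓ : B) ^ s * Y * (1 + (1 - z) * X)) * R) =
      (1 - z) ^ 2 * ((ℓ : B) ^ s * ((((1 : ℤ) : B) + (1 - z) * X) * ((((M' : ℤ) : B) + (1 - z) *
        ((1 - z) * ((ℓ : B) ^ s * Y * (1 + (1 - z) * X)) * R)) * Y))) := by
    push_cast
    ring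
  rw [e, mul_smul, mul_smul, mul_smul, mul_smul] at hx
  have h1 := A01_inj_pow hinj _ _ hx
  have h2 := A01_inj_l_pow hℓ hz hinj _ _ h1
  have h3 := A01_inj_unit hℓ hz hinj hsep 1 isCoprime_one_left _ _ h2
  exact A01_inj_unit hℓ hz hinj hsep _ hcop _ _ h3

lemma fst_case (hℓ : ℓ.Prime) (z : B) (hz : ∑ i ∈ Finset.range ℓ, z ^ i = 0)
    (hinj : ∀ x : H, (1 - z) • x = 0 → x = 0)
    (hsep : ∀ x : H, (∀ n : ℕ, ∃ y : H, x = (1 - z) ^ n • y) → x = 0)
    (N : B) (x : H) (M : ℕ) (hM : 0 < M) (hx : (1 + (1 - z) * N) ^ M • x = x) :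
    ∃ y : H, (N ^ ℓ - N) • x = (1 - z) • y := by
  obtain ⟨v, w, hv, hw⟩ := exists_pi_identity (B := B) hℓ z hz
  obtain ⟨R, hR⟩ := A01_bin hℓ ((1 - z) * N)
  have h1 : ((1 - z) * N) ^ ℓ = ℓ * ((1 - z) * ((-1 + (1 - z) * w) * N ^ ℓ)) := by
    have h2 : (1 - z) ^ ℓ = (1 - z) * (1 - z) ^ (ℓ - 1) := by
      rw [← pow_succ', Nat.sub_add_cancel hℓ.one_le]
    rw [mul_pow, h2, hw]
    ring
  have hW : (1 + (1 - z) * N) ^ ℓ = 1 + (1 - z) ^ 2 * (v * (N - N ^ ℓ + (1 - z) *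
      (N * N * R + w * N ^ ℓ))) := by
    have h3 : (1 + (1 - z) * N) ^ ℓ = 1 + (ℓ : B) * ((1 - z) * (N - N ^ ℓ + (1 - z) *
      (N * N * R + w * N ^ ℓ))) := by
      rw [hR, h1]
      ring
    rw [h3, ← hv]
    ring
  have hx' : (1 + (1 - z) ^ 2 * (v * (N - N ^ ℓ + (1 - z) *
      (N * N * R + w * N ^ ℓ)))) ^ M • x = x := by
    rw [← hW, ← pow_mul, mul_comm ℓ M, pow_mul]
    exact A01_fix hx ℓ
  have h4 := sq_case hℓ z hz hinj hsep _ x M hM hx'
  have h5 : (N - N ^ ℓ + (1 - z) * (N * N * R + w * N ^ ℓ)) • x = 0 := by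
    refine A01_inj_l hℓ hz hinj _ ?_
    rw [← hv, ← mul_smul, mul_assoc, mul_smul, h4, smul_zero]
  refine ⟨(N * N * R + w * N ^ ℓ) • x, ?_⟩
  rw [← mul_smul, ← sub_eq_zero, ← sub_smul]
  have e : N ^ ℓ - N - (1 - z) * (N * N * R + w * N ^ ℓ) =
      -(N - N ^ ℓ + (1 - z) * (N * N * R + w * N ^ ℓ)) := by ring
  rw [e, neg_smul, h5, neg_zero]

end Pool.Agent.Lib.MP_89bcae_ag.Sup

end

section

/-!
ROW A02 (60-120 lines). Commuting endomorphisms `n` of a finite vector space over `ZMod ℓ` with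
`n ^ ℓ = n` have a common eigenvector.

PROOF. Let `W` be a nonzero submodule stable under all the `n i`, with the smallest number of elements
(`V` is finite). For each `i`, the polynomial `X^ℓ - X = ∏_{c} (X - c)` over `ZMod ℓ` kills `n i`, so
some `n i - c` is not injective on `W` (else the product would be injective and zero on `W ≠ 0`).
Its kernel in `W` is stable under all `n j` (they commute), nonzero, so equal to `W` by minimality:
`n i` is the scalar `c = a i` on `W`. Take any nonzero `x` in `W`.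
-/

open Polynomial in
/-- the factorisation of `X^ℓ - X` -/
private lemma A02_prod (ℓ : ℕ) [Fact ℓ.Prime] :
    (∏ c : ZMod ℓ, (X - C c) : (ZMod ℓ)[X]) = X ^ ℓ - X := by
  have hℓ : 1 < ℓ := (Fact.out : ℓ.Prime).one_lt
  have hr := FiniteField.roots_X_pow_card_sub_X (ZMod ℓ)
  rw [ZMod.card] at hr
  have hm : (X ^ ℓ - X : (ZMod ℓ)[X]).Monic :=
    monic_X_pow_sub (by rw [degree_X]; exact_mod_cast hℓ)
  have hd := FiniteField.X_pow_card_sub_X_natDegree_eq (ZMod ℓ) hℓ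
  have hc : (X ^ ℓ - X : (ZMod ℓ)[X]).roots.card = (X ^ ℓ - X : (ZMod ℓ)[X]).natDegree := by
    rw [hr, hd]
    change (Finset.univ : Finset (ZMod ℓ)).card = ℓ
    rw [Finset.card_univ, ZMod.card]
  have h := prod_multiset_X_sub_C_of_monic_of_roots_card_eq hm hc
  rw [hr] at h
  exact h

namespace Pool.Agent.Lib.MP_89bcae_ag.Sup

open Polynomial in
private lemma A02_eig {R V : Type*} [CommRing R] [AddCommGroup V] [Module R V]
    (f : V →ₗ[R] V) (W : Submodule R V) (hW : ∀ x ∈ W, f x ∈ W) (s : Finset R) :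
    ∀ y ∈ W, y ≠ 0 → (aeval f (∏ c ∈ s, (X - C c : R[X]))) y = 0 →
      ∃ c : R, ∃ z ∈ W, z ≠ 0 ∧ f z = c • z := by
  classical
  induction s using Finset.induction_on with
  | empty =>
    intro y _ hy0 h
    exfalso
    rw [Finset.prod_empty, map_one] at h
    exact hy0 h
  | insert c s hc ih =>
    intro y hy hy0 h
    rw [Finset.prod_insert hc, mul_comm, map_mul] at h
    have e : aeval f (X - C c : R[X]) y = f y - c • y := by
      rw [map_sub, aeval_X, aeval_C]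
      rfl
    change aeval f (∏ c ∈ s, (X - C c : R[X])) (aeval f (X - C c : R[X]) y) = 0 at h
    rw [e] at h
    by_cases hz : f y - c • y = 0
    · exact ⟨c, y, hy, hy0, sub_eq_zero.1 hz⟩
    · exact ih _ (W.sub_mem (hW y hy) (W.smul_mem c hy)) hz h

lemma exists_common_eigenvector {ℓ : ℕ} [Fact ℓ.Prime] {V I : Type*} [AddCommGroup V]
    [Module (ZMod ℓ) V] [Finite V] (n : I → V →ₗ[ZMod ℓ] V) (hcomm : ∀ i j, n i * n j = n j * n i)
    (hpow : ∀ i, n i ^ ℓ = n i) (hV : ∃ x : V, x ≠ 0) :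
    ∃ x : V, x ≠ 0 ∧ ∃ a : I → ZMod ℓ, ∀ i, n i x = a i • x := by
  classical
  haveI : Finite (Submodule (ZMod ℓ) V) :=
    Finite.of_injective (fun W : Submodule (ZMod ℓ) V => (W : Set V)) SetLike.coe_injective
  set S : Set (Submodule (ZMod ℓ) V) := {W | (∃ x ∈ W, x ≠ 0) ∧ ∀ i, ∀ x ∈ W, n i x ∈ W} with hS
  have hSne : S.Nonempty := by
    obtain ⟨x, hx⟩ := hV
    exact ⟨⊤, ⟨x, Submodule.mem_top, hx⟩, fun i x _ => Submodule.mem_top⟩
  obtain ⟨W, ⟨⟨x, hxW, hx0⟩, hWst⟩, hmin⟩ := (Set.toFinite S).exists_minimal hSne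
  refine ⟨x, hx0, ?_⟩
  have key : ∀ i, ∃ c : ZMod ℓ, ∀ y ∈ W, n i y = c • y := by
    intro i
    have h0 : (Polynomial.aeval (n i) (∏ c : ZMod ℓ, (Polynomial.X - Polynomial.C c))) x = 0 := by
      rw [A02_prod, map_sub, map_pow, Polynomial.aeval_X, hpow i, sub_self]
      rfl
    obtain ⟨c, z, hzW, hz0, hz⟩ := A02_eig (n i) W (hWst i) Finset.univ x hxW hx0 h0
    refine ⟨c, ?_⟩
    set W' : Submodule (ZMod ℓ) V := W ⊓ LinearMap.ker (n i - c • LinearMap.id) with hW'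
    have hmem : ∀ y, y ∈ W' ↔ y ∈ W ∧ n i y = c • y := fun y => by
      rw [hW', Submodule.mem_inf, LinearMap.mem_ker]
      simp only [LinearMap.sub_apply, LinearMap.smul_apply, LinearMap.id_apply, sub_eq_zero]
    have hW'S : W' ∈ S := by
      refine ⟨⟨z, (hmem z).2 ⟨hzW, hz⟩, hz0⟩, fun j y hy => ?_⟩
      rw [hmem] at hy ⊢
      refine ⟨hWst j y hy.1, ?_⟩
      have e1 : n i (n j y) = n j (n i y) := by
        have := LinearMap.congr_fun (hcomm i j) y
        exact this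
      rw [e1, hy.2, map_smul]
    have hle : W ≤ W' := hmin hW'S inf_le_left
    intro y hy
    exact ((hmem y).1 (hle hy)).2
  choose a ha using key
  exact ⟨a, fun i => ha i x hxW⟩

end Pool.Agent.Lib.MP_89bcae_ag.Sup

end

section

/-!
ROW A03 (150-300 lines). The abstract eigenvector theorem.

Setting: `H` abelian group with an endomorphism `Z`, `∑_{i<ℓ} Z^i = 0`, and an action of a group `G`
commuting with `Z`; `p = 1 - Z` is injective and `⋂ p^n H = 0`; `e : H → (ι → ZMod ℓ)`, `ι` finite,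
additive with kernel `p H`; `e (u • x) = e x`; each `u` has finite order on each `x`; `H ≠ 0`.
CONCLUSION: there are `x` with `e x ≠ 0` and `a : G → ZMod ℓ` such that for all `u`:
`u • x - x = p y` implies `e y = a u • e x`.

PROOF. For `u` in `G` and `x` in `H`, `e (u x - x) = 0`, so `u x - x = p (N_u x)` for a unique
`N_u x`; `N_u` is an endomorphism of `H` commuting with `Z`.
(a) The subring `B` of `End H` generated by `Z` and `N_u` is commutative; `fst_case` in `B`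
(`W = 1 + p N_u` = action of `u`, of finite order on `x`) gives `(N_u^ℓ - N_u) x ∈ p H`, so
`e (N_u^ℓ x) = e (N_u x)`.
(b) For `u`, `u'` let `c = u u' u⁻¹ u'⁻¹` and `Y = [N_u, N_{u'}] (u' u)⁻¹` in `End H` : `p² [N_u, N_{u'}] =
u u' - u' u` (as operators) `= (c - 1) u' u`, so `c = 1 + p² Y` as an operator; `Y` commutes with
`Z`; `B` generated by `Z` and `Y`; `c` has finite order on each `x`, so `Y x = 0` by `sq_case` for
all `x`: `N_u N_{u'} = N_{u'} N_u`.
(c) `V = e(H)` (a finite `ZMod ℓ`-module, the range of `e`), `n_u : V → V` induced by `N_u`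
(`N_u p H ⊆ p H`). They commute and `n_u^ℓ = n_u`. `V ≠ 0`: otherwise `H = p H`, so every element is in
`⋂ p^n H = 0`. Apply `exists_common_eigenvector`.
-/

open Polynomial

namespace Pool.Agent.Lib.MP_89bcae_ag.Sup

section A03

variable {ℓ : ℕ} {H : Type*} [AddCommGroup H]

private lemma A03_comm {z Y : Module.End ℤ H} (hc : z * Y = Y * z) :
    ∀ a ∈ ({z, Y} : Set (Module.End ℤ H)), ∀ b ∈ ({z, Y} : Set (Module.End ℤ H)),
      a * b = b * a := by
  rintro a (rfl | rfl) b (rfl | rfl)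
  · rfl
  · exact hc
  · exact hc.symm
  · rfl

private lemma A03_sq (hℓ : ℓ.Prime) (z Y : Module.End ℤ H) (hc : z * Y = Y * z)
    (hz : ∑ i ∈ Finset.range ℓ, z ^ i = 0) (hinj : ∀ x : H, (1 - z) x = 0 → x = 0)
    (hsep : ∀ x : H, (∀ n : ℕ, ∃ y : H, x = ((1 - z) ^ n) y) → x = 0)
    (x : H) (M : ℕ) (hM : 0 < M)
    (hx : ((1 + (1 - z) ^ 2 * Y) ^ M : Module.End ℤ H) x = x) : Y x = 0 := by
  letI instB : CommRing (Algebra.adjoin ℤ ({z, Y} : Set (Module.End ℤ H))) :=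
    { (inferInstance : Ring (Algebra.adjoin ℤ ({z, Y} : Set (Module.End ℤ H)))) with
      mul_comm := (Algebra.isMulCommutative_adjoin ℤ (A03_comm hc)).is_comm.comm }
  let zB : Algebra.adjoin ℤ ({z, Y} : Set (Module.End ℤ H)) :=
    ⟨z, Algebra.subset_adjoin (Or.inl rfl)⟩
  let YB : Algebra.adjoin ℤ ({z, Y} : Set (Module.End ℤ H)) :=
    ⟨Y, Algebra.subset_adjoin (Or.inr rfl)⟩
  have hzB : ∑ i ∈ Finset.range ℓ, zB ^ i = 0 := by
    apply Subtype.ext
    push_cast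
    exact hz
  exact sq_case (B := Algebra.adjoin ℤ ({z, Y} : Set (Module.End ℤ H))) (H := H) hℓ zB hzB
    (fun x hx => hinj x hx) (fun x hx => hsep x hx) YB x M hM hx

private lemma A03_fst (hℓ : ℓ.Prime) (z N : Module.End ℤ H) (hc : z * N = N * z)
    (hz : ∑ i ∈ Finset.range ℓ, z ^ i = 0) (hinj : ∀ x : H, (1 - z) x = 0 → x = 0)
    (hsep : ∀ x : H, (∀ n : ℕ, ∃ y : H, x = ((1 - z) ^ n) y) → x = 0)
    (x : H) (M : ℕ) (hM : 0 < M)
    (hx : ((1 + (1 - z) * N) ^ M : Module.End ℤ H) x = x) :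
    ∃ y : H, (N ^ ℓ - N) x = (1 - z) y := by
  letI instB : CommRing (Algebra.adjoin ℤ ({z, N} : Set (Module.End ℤ H))) :=
    { (inferInstance : Ring (Algebra.adjoin ℤ ({z, N} : Set (Module.End ℤ H)))) with
      mul_comm := (Algebra.isMulCommutative_adjoin ℤ (A03_comm hc)).is_comm.comm }
  let zB : Algebra.adjoin ℤ ({z, N} : Set (Module.End ℤ H)) :=
    ⟨z, Algebra.subset_adjoin (Or.inl rfl)⟩
  let NB : Algebra.adjoin ℤ ({z, N} : Set (Module.End ℤ H)) :=
    ⟨N, Algebra.subset_adjoin (Or.inr rfl)⟩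
  have hzB : ∑ i ∈ Finset.range ℓ, zB ^ i = 0 := by
    apply Subtype.ext
    push_cast
    exact hz
  exact fst_case (B := Algebra.adjoin ℤ ({z, N} : Set (Module.End ℤ H))) (H := H) hℓ zB hzB
    (fun x hx => hinj x hx) (fun x hx => hsep x hx) NB x M hM hx

end A03

theorem exists_eigen {ℓ : ℕ} [Fact ℓ.Prime] {H G ι : Type*} [AddCommGroup H] [Group G]
    [DistribMulAction G H] [Finite ι] (Z : H →+ H)
    (hZ : ∀ x, ∑ i ∈ Finset.range ℓ, Z^[i] x = 0) (hZG : ∀ (u : G) x, Z (u • x) = u • Z x)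
    (hinj : ∀ x, Z x = x → x = 0)
    (hsep : ∀ x : H, (∀ n : ℕ, ∃ y : H, x = (fun h => h - Z h)^[n] y) → x = 0)
    (e : H →+ (ι → ZMod ℓ)) (he : ∀ x, e x = 0 ↔ ∃ y, x = y - Z y)
    (hGe : ∀ (u : G) x, e (u • x) = e x)
    (hfin : ∀ (u : G) (x : H), ∃ M : ℕ, 0 < M ∧ u ^ M • x = x) (hne : ∃ x : H, x ≠ 0) :
    ∃ x : H, e x ≠ 0 ∧ ∃ a : G → ZMod ℓ, ∀ u y, u • x - x = y - Z y → e y = a u • e x := by
  classical
  have hℓ : ℓ.Prime := Fact.out
  set z : Module.End ℤ H := Z.toIntLinearMap with hz_def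
  have z_apply : ∀ x, z x = Z x := fun x => rfl
  have hz : ∑ i ∈ Finset.range ℓ, z ^ i = 0 := by
    ext x
    rw [LinearMap.sum_apply, LinearMap.zero_apply, ← hZ x]
    refine Finset.sum_congr rfl fun i _ => ?_
    rw [Module.End.pow_apply]
    rfl
  have p_apply : ∀ x, (1 - z) x = x - Z x := fun x => rfl
  have hinj' : ∀ x : H, (1 - z) x = 0 → x = 0 := fun x hx => by
    rw [p_apply, sub_eq_zero] at hx
    exact hinj x hx.symm
  have hsep' : ∀ x : H, (∀ n : ℕ, ∃ y : H, x = ((1 - z) ^ n) y) → x = 0 := fun x hx => by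
    refine hsep x fun n => ?_
    obtain ⟨y, hy⟩ := hx n
    refine ⟨y, ?_⟩
    rw [hy, Module.End.pow_apply]
    rfl
  -- injectivity of p in the form of cancellation
  have pcancel : ∀ x y : H, x - Z x = y - Z y → x = y := fun x y h => by
    have : (1 - z) (x - y) = 0 := by
      rw [p_apply, map_sub]
      have : x - y - (Z x - Z y) = (x - Z x) - (y - Z y) := by abel
      rw [this, h, sub_self]
    exact sub_eq_zero.1 (hinj' _ this)
  have hex : ∀ (u : G) (x : H), ∃ y, u • x - x = y - Z y := fun u x => by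
    rw [← he, map_sub, hGe, sub_self]
  choose N0 hN0 using hex
  have hN0u : ∀ (u : G) (x y : H), u • x - x = y - Z y → y = N0 u x := fun u x y h =>
    pcancel _ _ (by rw [← h, hN0])
  let N : G → Module.End ℤ H := fun u => AddMonoidHom.toIntLinearMap
    { toFun := N0 u
      map_zero' := ((hN0u u 0 0 (by simp)).symm)
      map_add' := fun x y => (hN0u u (x + y) (N0 u x + N0 u y) (by
        rw [smul_add, map_add]
        have h1 := hN0 u x
        have h2 := hN0 u y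
        have : u • x + u • y - (x + y) = (u • x - x) + (u • y - y) := by abel
        rw [this, h1, h2]
        abel)).symm }
  have N_apply : ∀ u x, u • x - x = N u x - Z (N u x) := fun u x => hN0 u x
  have N_uniq : ∀ u x y, u • x - x = y - Z y → y = N u x := fun u x y h => hN0u u x y h
  let U : G → Module.End ℤ H := fun u => (DistribSMul.toAddMonoidHom H u).toIntLinearMap
  have U_apply : ∀ u x, U u x = u • x := fun u x => rfl
  have U_mul : ∀ u v, U (u * v) = U u * U v := fun u v => by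
    ext x
    change (u * v) • x = u • (v • x)
    rw [mul_smul]
  have U_one : U 1 = 1 := by
    ext x
    change (1 : G) • x = x
    rw [one_smul]
  have U_pow : ∀ u (M : ℕ), U u ^ M = U (u ^ M) := fun u M => by
    induction M with
    | zero => rw [pow_zero, pow_zero, U_one]
    | succ M ih => rw [pow_succ, pow_succ, U_mul, ih]
  have U_eq : ∀ u, U u = 1 + (1 - z) * N u := fun u => by
    ext x
    change u • x = x + (N u x - Z (N u x))
    rw [← N_apply]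
    abel
  have zU : ∀ u, z * U u = U u * z := fun u => by
    ext x
    exact hZG u x
  have zN : ∀ u, z * N u = N u * z := fun u => by
    ext x
    change Z (N u x) = N u (Z x)
    apply N_uniq
    rw [← hZG, ← map_sub, N_apply, map_sub]
  have hp_N : ∀ u, (1 - z) * N u = N u * (1 - z) := fun u => by
    rw [sub_mul, mul_sub, one_mul, mul_one, zN]
  have hpe : ∀ y, e ((1 - z) y) = 0 := fun y => (he _).2 ⟨y, rfl⟩
  -- (a)
  have hA : ∀ u x, e ((N u ^ ℓ) x) = e (N u x) := by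
    intro u x
    obtain ⟨M, hM, hMx⟩ := hfin u x
    obtain ⟨y, hy⟩ := A03_fst hℓ z (N u) (zN u) hz hinj' hsep' x M hM (by
      rw [← U_eq, U_pow, U_apply, hMx])
    have h1 := hpe y
    rw [← hy, LinearMap.sub_apply, map_sub, sub_eq_zero] at h1
    exact h1
  -- (b)
  have hB : ∀ u v, N u * N v = N v * N u := by
    intro u v
    set D : Module.End ℤ H := N u * N v - N v * N u with hD
    set Y : Module.End ℤ H := D * U (v * u)⁻¹ with hY
    have zD : z * D = D * z := by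
      rw [hD, mul_sub, sub_mul, ← mul_assoc, ← mul_assoc, zN, zN, mul_assoc, mul_assoc, mul_assoc,
        mul_assoc, zN, zN]
    have zY : z * Y = Y * z := by
      rw [hY, ← mul_assoc, zD, mul_assoc, mul_assoc, zU]
    have hUv : U (v * u)⁻¹ * U (v * u) = 1 := by rw [← U_mul, inv_mul_cancel, U_one]
    have hUv' : U (v * u) * U (v * u)⁻¹ = 1 := by rw [← U_mul, mul_inv_cancel, U_one]
    have h1 : (1 - z) ^ 2 * D = U (u * v) - U (v * u) := by
      have e1 : U (u * v) = (1 + (1 - z) * N u) * (1 + (1 - z) * N v) := by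
        rw [U_mul, U_eq u, U_eq v]
      have e2 : U (v * u) = (1 + (1 - z) * N v) * (1 + (1 - z) * N u) := by
        rw [U_mul, U_eq u, U_eq v]
      have e3 : (1 - z) * N u * ((1 - z) * N v) = (1 - z) ^ 2 * (N u * N v) := by
        rw [mul_assoc, ← mul_assoc (N u), ← hp_N, pow_two, mul_assoc, mul_assoc]
      have e4 : (1 - z) * N v * ((1 - z) * N u) = (1 - z) ^ 2 * (N v * N u) := by
        rw [mul_assoc, ← mul_assoc (N v), ← hp_N, pow_two, mul_assoc, mul_assoc]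
      rw [e1, e2, hD, mul_sub, add_mul, add_mul, mul_add, mul_add, mul_add, mul_add, e3, e4]
      simp only [one_mul, mul_one]
      abel
    set c : G := (u * v) * (v * u)⁻¹ with hc
    have h2 : 1 + (1 - z) ^ 2 * Y = U c := by
      rw [hY, ← mul_assoc, h1, sub_mul, hUv', ← U_mul]
      abel
    have h3 : ∀ x, Y x = 0 := by
      intro x
      obtain ⟨M, hM, hMx⟩ := hfin c x
      exact A03_sq hℓ z Y zY hz hinj' hsep' x M hM (by rw [h2, U_pow, U_apply, hMx])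
    have h4 : Y = 0 := LinearMap.ext h3
    have h5 : D = 0 := by
      calc D = D * (U (v * u)⁻¹ * U (v * u)) := by rw [hUv, mul_one]
        _ = Y * U (v * u) := by rw [hY, mul_assoc]
        _ = 0 := by rw [h4, zero_mul]
    exact sub_eq_zero.1 h5
  -- (c)
  let V : Submodule (ZMod ℓ) (ι → ZMod ℓ) := AddSubgroup.toZModSubmodule ℓ e.range
  let e' : H →+ V := e.rangeRestrict
  have he'v : ∀ x, ((e' x : V) : ι → ZMod ℓ) = e x := fun x => rfl
  have hsurj : Function.Surjective e' := e.rangeRestrict_surjective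
  have hker : ∀ x, e' x = 0 ↔ e x = 0 := fun x => by
    rw [← he'v]
    exact ⟨fun h => by rw [h]; rfl, fun h => Subtype.ext h⟩
  have hwd : ∀ u, e'.ker ≤ (e'.comp (N u).toAddMonoidHom).ker := by
    intro u x hx
    rw [AddMonoidHom.mem_ker, hker, he] at hx
    obtain ⟨y, rfl⟩ := hx
    rw [AddMonoidHom.mem_ker, AddMonoidHom.comp_apply, hker]
    have : (N u).toAddMonoidHom (y - Z y) = (1 - z) (N u y) := by
      change (N u * (1 - z)) y = ((1 - z) * N u) y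
      rw [hp_N]
    rw [this]
    exact hpe _
  let n0 : G → V →+ V := fun u => (AddMonoidHom.liftOfSurjective e' hsurj) ⟨_, hwd u⟩
  have hn0 : ∀ u x, n0 u (e' x) = e' (N u x) := fun u x =>
    AddMonoidHom.liftOfRightInverse_comp_apply e' _ _ ⟨_, hwd u⟩ x
  let n : G → V →ₗ[ZMod ℓ] V := fun u => (n0 u).toZModLinearMap ℓ
  have hn : ∀ u x, n u (e' x) = e' (N u x) := fun u x => hn0 u x
  have hncomm : ∀ u v, n u * n v = n v * n u := by
    intro u v
    ext1 w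
    obtain ⟨x, rfl⟩ := hsurj w
    change n u (n v (e' x)) = n v (n u (e' x))
    rw [hn, hn, hn, hn]
    have := LinearMap.congr_fun (hB u v) x
    exact congrArg e' this
  have hnpow_apply : ∀ u (k : ℕ) x, (n u ^ k) (e' x) = e' ((N u ^ k) x) := by
    intro u k
    induction k with
    | zero => intro x; rw [pow_zero, pow_zero]; rfl
    | succ k ih =>
      intro x
      rw [pow_succ, pow_succ]
      change (n u ^ k) (n u (e' x)) = e' ((N u ^ k) (N u x))
      rw [hn, ih]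
  have hnpow : ∀ u, n u ^ ℓ = n u := by
    intro u
    ext1 w
    obtain ⟨x, rfl⟩ := hsurj w
    rw [hnpow_apply, hn]
    apply Subtype.ext
    exact hA u x
  have hVne : ∃ w : V, w ≠ 0 := by
    by_contra hcon
    push Not at hcon
    obtain ⟨x, hx⟩ := hne
    apply hx
    have hall : ∀ y : H, ∃ y', y = (1 - z) y' := fun y => (he y).1 ((hker y).1 (hcon (e' y)))
    refine hsep' x fun k => ?_
    induction k with
    | zero => exact ⟨x, by rw [pow_zero]; rfl⟩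
    | succ k ih =>
      obtain ⟨y, hy⟩ := ih
      obtain ⟨y', hy'⟩ := hall y
      refine ⟨y', ?_⟩
      rw [pow_succ]
      change x = ((1 - z) ^ k) ((1 - z) y')
      rw [← hy']
      exact hy
  obtain ⟨w, hw0, a, ha⟩ := exists_common_eigenvector n hncomm hnpow hVne
  obtain ⟨x, rfl⟩ := hsurj w
  refine ⟨x, fun h => hw0 ((hker x).2 h), a, fun u y hy => ?_⟩
  have h1 := N_uniq u x y hy
  have h2 := ha u
  rw [hn] at h2
  have h3 := congrArg (Subtype.val) h2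
  rw [h1]
  exact h3

end Pool.Agent.Lib.MP_89bcae_ag.Sup

end

section

/-!
ROW A04 (100-200 lines). The eigenvector theorem for a subquotient.

PROOF. Apply `exists_eigen` (A03) to `H = W ⧸ T` (`T.addSubgroupOf W`), with the action of `G` and the
endomorphism `Z` induced. `e` is given on `W` as a relation `E c ε` (`ε : ι → ZMod ℓ`): it is total on
`W`, additive, and `E c ε` with `c ∈ T` implies `ε = 0`; so it defines a homomorphism `W → (ι → ZMod ℓ)`
(`ε` is unique: the difference of two values for `c` is a value for `0 ∈ T`), which factors through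
`W ⧸ T`. Its kernel is `p (W ⧸ T)` by `hker` and `hZE`.
-/

namespace Pool.Agent.Lib.MP_89bcae_ag.Sup

theorem exists_eigen_sub {ℓ : ℕ} [Fact ℓ.Prime] {C G ι : Type*} [AddCommGroup C] [Group G]
    [DistribMulAction G C] [Finite ι] (W T : AddSubgroup C) (Z : C →+ C) (hTW : T ≤ W)
    (hZW : ∀ c ∈ W, Z c ∈ W) (hZT : ∀ c ∈ T, Z c ∈ T) (hGW : ∀ (u : G), ∀ c ∈ W, u • c ∈ W)
    (hGT : ∀ (u : G), ∀ c ∈ T, u • c ∈ T)
    (hZ : ∀ c ∈ W, ∑ i ∈ Finset.range ℓ, Z^[i] c ∈ T)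
    (hZG : ∀ (u : G), ∀ c ∈ W, Z (u • c) - u • Z c ∈ T)
    (hinj : ∀ c ∈ W, c - Z c ∈ T → c ∈ T)
    (hsep : ∀ c ∈ W, (∀ n : ℕ, ∃ y ∈ W, c - (fun h => h - Z h)^[n] y ∈ T) → c ∈ T)
    (E : C → (ι → ZMod ℓ) → Prop) (hE : ∀ c ∈ W, ∃ ε, E c ε)
    (hadd : ∀ c ∈ W, ∀ c' ∈ W, ∀ ε ε', E c ε → E c' ε' → E (c + c') (ε + ε'))
    (hneg : ∀ c ∈ W, ∀ ε, E c ε → E (-c) (-ε))
    (hET : ∀ c ∈ T, ∀ ε, E c ε → ε = 0)
    (hZE : ∀ c ∈ W, ∀ ε, E c ε → E (Z c) ε)
    (hker : ∀ c ∈ W, E c 0 → ∃ y ∈ W, c - (y - Z y) ∈ T)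
    (hGE : ∀ (u : G), ∀ c ∈ W, ∀ ε, E c ε → E (u • c) ε)
    (hfin : ∀ (u : G), ∀ c ∈ W, ∃ M : ℕ, 0 < M ∧ u ^ M • c - c ∈ T)
    (hne : ¬ W ≤ T) :
    ∃ c ∈ W, ∃ ε, E c ε ∧ ε ≠ 0 ∧ ∃ a : G → ZMod ℓ, ∀ u, ∀ y ∈ W, ∀ ε',
      u • c - c - (y - Z y) ∈ T → E y ε' → ε' = a u • ε := by
  classical
  -- uniqueness of values
  have huniq : ∀ c ∈ W, ∀ ε ε', E c ε → E c ε' → ε = ε' := by
    intro c hc ε ε' h h'
    have h1 := hadd c hc (-c) (W.neg_mem hc) ε (-ε') h (hneg c hc ε' h')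
    rw [add_neg_cancel] at h1
    have h2 := hET 0 T.zero_mem _ h1
    rwa [← sub_eq_add_neg, sub_eq_zero] at h2
  -- the quotient
  let T' : AddSubgroup W := T.addSubgroupOf W
  have memT' : ∀ w : W, w ∈ T' ↔ (w : C) ∈ T := fun w => AddSubgroup.mem_addSubgroupOf
  let mk : W →+ W ⧸ T' := QuotientAddGroup.mk' T'
  have mk_surj : Function.Surjective mk := QuotientAddGroup.mk'_surjective T'
  have mk_eq : ∀ a b : W, mk a = mk b ↔ (a : C) - b ∈ T := by
    intro a b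
    rw [← sub_eq_zero, ← map_sub]
    change (QuotientAddGroup.mk (a - b) : W ⧸ T') = 0 ↔ _
    rw [QuotientAddGroup.eq_zero_iff, memT']
    rfl
  -- induced endomorphism
  let ZW : W →+ W := (Z.comp W.subtype).codRestrict W fun c => hZW c c.2
  have ZW_coe : ∀ w : W, (ZW w : C) = Z w := fun w => rfl
  let Zb : W ⧸ T' →+ W ⧸ T' := QuotientAddGroup.map T' T' ZW fun w hw => by
    rw [AddSubgroup.mem_comap, memT', ZW_coe]
    exact hZT _ ((memT' w).1 hw)
  have Zb_mk : ∀ w, Zb (mk w) = mk (ZW w) := fun w => rfl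
  -- induced action
  let φ : G → W →+ W := fun u =>
    ((DistribSMul.toAddMonoidHom C u).comp W.subtype).codRestrict W fun c => hGW u c c.2
  have φ_coe : ∀ u (w : W), (φ u w : C) = u • (w : C) := fun u w => rfl
  let ψ : G → W ⧸ T' →+ W ⧸ T' := fun u => QuotientAddGroup.map T' T' (φ u) fun w hw => by
    rw [AddSubgroup.mem_comap, memT', φ_coe]
    exact hGT u _ ((memT' w).1 hw)
  have ψ_mk : ∀ u w, ψ u (mk w) = mk (φ u w) := fun u w => rfl
  letI act : DistribMulAction G (W ⧸ T') :=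
    { smul := fun u q => ψ u q
      one_smul := fun q => by
        obtain ⟨w, rfl⟩ := mk_surj q
        change ψ 1 (mk w) = mk w
        rw [ψ_mk]
        congr 1
        apply Subtype.ext
        rw [φ_coe, one_smul]
      mul_smul := fun u v q => by
        obtain ⟨w, rfl⟩ := mk_surj q
        change ψ (u * v) (mk w) = ψ u (ψ v (mk w))
        rw [ψ_mk, ψ_mk, ψ_mk]
        congr 1
        apply Subtype.ext
        rw [φ_coe, φ_coe, φ_coe, mul_smul]
      smul_zero := fun u => map_zero (ψ u)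
      smul_add := fun u x y => map_add (ψ u) x y }
  have smul_mk : ∀ (u : G) (w : W), u • (mk w) = mk (φ u w) := fun u w => rfl
  -- the homomorphism e
  have hex : ∀ w : W, ∃ ε, E w ε := fun w => hE w w.2
  choose ew hew using hex
  let eW : W →+ (ι → ZMod ℓ) :=
    { toFun := ew
      map_zero' := hET 0 T.zero_mem _ (hew 0)
      map_add' := fun a b => huniq (a + b : W) (a + b).2 _ _ (hew (a + b))
        (hadd a a.2 b b.2 _ _ (hew a) (hew b)) }
  have eW_spec : ∀ w : W, E w (eW w) := hew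
  let e : W ⧸ T' →+ (ι → ZMod ℓ) := QuotientAddGroup.lift T' eW fun w hw =>
    hET w ((memT' w).1 hw) _ (eW_spec w)
  have e_mk : ∀ w, e (mk w) = eW w := fun w => rfl
  have eW_uniq : ∀ (w : W) ε, E w ε → eW w = ε := fun w ε h => huniq w w.2 _ _ (eW_spec w) h
  -- iterates
  have it1 : ∀ (i : ℕ) (w : W), Zb^[i] (mk w) = mk (ZW^[i] w) := by
    intro i
    induction i with
    | zero => intro w; rfl
    | succ i ih => intro w; rw [Function.iterate_succ_apply, Function.iterate_succ_apply, Zb_mk, ih]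
  have it2 : ∀ (i : ℕ) (w : W), ((ZW^[i] w : W) : C) = Z^[i] (w : C) := by
    intro i
    induction i with
    | zero => intro w; rfl
    | succ i ih =>
      intro w
      rw [Function.iterate_succ_apply, Function.iterate_succ_apply, ih, ZW_coe]
  have it3 : ∀ (i : ℕ) (w : W), (fun h => h - Zb h)^[i] (mk w) = mk ((fun h => h - ZW h)^[i] w) := by
    intro i
    induction i with
    | zero => intro w; rfl
    | succ i ih =>
      intro w
      rw [Function.iterate_succ_apply, Function.iterate_succ_apply, Zb_mk, ← map_sub, ih]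
  have it4 : ∀ (i : ℕ) (w : W), (((fun h => h - ZW h)^[i] w : W) : C) =
      (fun h => h - Z h)^[i] (w : C) := by
    intro i
    induction i with
    | zero => intro w; rfl
    | succ i ih =>
      intro w
      rw [Function.iterate_succ_apply, Function.iterate_succ_apply, ih]
      rfl
  obtain ⟨q, hq0, a, ha⟩ := exists_eigen (ℓ := ℓ) (H := W ⧸ T') (G := G) (ι := ι) Zb
    (fun q => by
      obtain ⟨w, rfl⟩ := mk_surj q
      simp only [it1]
      rw [← map_sum, ← map_zero mk, mk_eq]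
      have h1 := hZ w w.2
      rw [ZeroMemClass.coe_zero, sub_zero]
      change W.subtype (∑ i ∈ Finset.range ℓ, ZW^[i] w) ∈ T
      rw [map_sum]
      simp only [AddSubgroup.subtype_apply, it2]
      exact h1)
    (fun u q => by
      obtain ⟨w, rfl⟩ := mk_surj q
      rw [smul_mk, Zb_mk, Zb_mk, smul_mk, mk_eq, ZW_coe, φ_coe, φ_coe, ZW_coe]
      exact hZG u w w.2)
    (fun q hq => by
      obtain ⟨w, rfl⟩ := mk_surj q
      rw [Zb_mk, mk_eq, ZW_coe] at hq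
      rw [← map_zero mk, mk_eq, ZeroMemClass.coe_zero, sub_zero]
      refine hinj w w.2 ?_
      have := T.neg_mem hq
      rwa [neg_sub] at this)
    (fun q hq => by
      obtain ⟨w, rfl⟩ := mk_surj q
      rw [← map_zero mk, mk_eq, ZeroMemClass.coe_zero, sub_zero]
      refine hsep w w.2 fun n => ?_
      obtain ⟨y, hy⟩ := hq n
      obtain ⟨y', rfl⟩ := mk_surj y
      rw [it3, mk_eq, it4] at hy
      exact ⟨y', y'.2, hy⟩)
    e
    (fun q => by
      obtain ⟨w, rfl⟩ := mk_surj q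
      constructor
      · intro h
        rw [e_mk] at h
        have h1 := eW_spec w
        rw [h] at h1
        obtain ⟨y, hy, hyT⟩ := hker w w.2 h1
        refine ⟨mk ⟨y, hy⟩, ?_⟩
        rw [Zb_mk, ← map_sub, mk_eq]
        exact hyT
      · rintro ⟨y, hy⟩
        obtain ⟨y', rfl⟩ := mk_surj y
        rw [hy, map_sub, Zb_mk, e_mk, e_mk, sub_eq_zero]
        exact (eW_uniq (ZW y') _ (hZE y' y'.2 _ (eW_spec y'))).symm)
    (fun u q => by
      obtain ⟨w, rfl⟩ := mk_surj q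
      rw [smul_mk, e_mk, e_mk]
      exact eW_uniq (φ u w) _ (hGE u w w.2 _ (eW_spec w)))
    (fun u q => by
      obtain ⟨w, rfl⟩ := mk_surj q
      obtain ⟨M, hM, hMT⟩ := hfin u w w.2
      refine ⟨M, hM, ?_⟩
      rw [smul_mk, mk_eq, φ_coe]
      exact hMT)
    (by
      obtain ⟨c, hcW, hcT⟩ := Set.not_subset.1 hne
      refine ⟨mk ⟨c, hcW⟩, fun h => hcT ?_⟩
      rw [← map_zero mk, mk_eq, ZeroMemClass.coe_zero, sub_zero] at h
      exact h)
  obtain ⟨w, rfl⟩ := mk_surj q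
  rw [e_mk] at hq0
  refine ⟨w, w.2, eW w, eW_spec w, hq0, a, fun u y hy ε' hyT hyE => ?_⟩
  have h1 := ha u (mk ⟨y, hy⟩) (by
    rw [smul_mk, Zb_mk, ← map_sub, ← map_sub, mk_eq]
    exact hyT)
  rw [e_mk, e_mk, eW_uniq ⟨y, hy⟩ ε' hyE] at h1
  exact h1

end Pool.Agent.Lib.MP_89bcae_ag.Sup

end
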