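import Mathlib
import Pool.Agent.Lib.MP_89bcae_ag.Q.K027

/-!
ROW R12 (200-350 lines). `a - x` is a norm (an explicit form of Tsen's theorem).

STATEMENT: for every `a` in `E` there is a function `h` with `∏_{i<ℓ} h(x, ζ^i y) = x - a`.

PROOF. `V = E(z)`, `z` a variable, is a vector space of dimension `ℓ` over its subfield
`E(x)`, `x := a - z^ℓ`, with basis `1, z, ..., z^(ℓ-1)`. Let `s` be the `E`-automorphism `z ↦ ζ z`
of `V`; it fixes `x`. Write `f = c ∏_i (X - r_i)` (roots `r_i`), `s_i^ℓ = a - r_i`, `d^ℓ = c`,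
`H = d ∏_i (s_i - z)` in `V`. As `∏_{j<ℓ} (s_i - ζ^j z) = s_i^ℓ - z^ℓ = x - r_i`, we have
`∏_{j<ℓ} s^j(H) = f(x)`. So `Y : V → V, v ↦ H s(v)`, which is `E(x)`-linear, satisfies
`Y^ℓ = f(x)` and `V` becomes a vector space over `K = E(x)(y)` with `y v = Y(v)`, of dimension
`1` (as `[K : E(x)] = ℓ`; only needed: `u ↦ u · 1` from `K` to `V` is injective (`K` is a field) and
`E(x)`-linear between spaces of the same dimension `ℓ`, so bijective). Let `h` in `K` with
`h · 1 = z`. For all `u` in `K`: `z · (u · 1) = rot⁻¹(u) · z` where `rot : y ↦ ζ y`: indeed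
`z Y(v) = z H s(v) = ζ⁻¹ H s(z v) = ζ⁻¹ Y(z v)`, so multiplication by `z` satisfies
`z ∘ y = (ζ⁻¹ y) ∘ z`. Hence `z^ℓ = z^ℓ · 1 = (∏_{i<ℓ} rot^{-i}(h)) · 1`, and
`z^ℓ = a - x = (a - x) · 1`, so `∏ rot^i(h) = a - x`. Finally `-1 = ∏ rot^i(e)` with the constant
`e`, `e^ℓ = -1`, so `x - a` is a norm too.
One can avoid fields: to have the result in the coordinate ring up to `E(x)` it is enough to
find a nonzero `w = ∑ p_i(x) y^i` in the coordinate ring and nonzero `q(x)` with `w · 1 = q(x) z` in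
`E[z]`: exists by linear algebra over `E(x)`; then `nrm w = q^ℓ (a - x)` and `h = w / q`.
-/

open Polynomial IsDedekindDomain

open scoped Classical

namespace Pool.Agent.Lib.MP_89bcae_ag.Sup

universe u

section R12aux

variable {E : Type u} [Field E]

/-- substitution `z ↦ η z` -/
private noncomputable def r12_rr (η : E) : E[X] →ₐ[E] E[X] := Polynomial.aeval (C η * X)

private lemma r12_rr_X (η : E) : r12_rr η X = C η * X := by
  unfold r12_rr; exact aeval_X _

private lemma r12_rr_C (η c : E) : r12_rr η (C c) = C c := by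
  unfold r12_rr; exact aeval_C _ _

private lemma r12_rr_rr (η η' : E) (v : E[X]) : r12_rr η (r12_rr η' v) = r12_rr (η * η') v := by
  have h : (r12_rr η).comp (r12_rr η') = r12_rr (η * η') := by
    ext1
    rw [AlgHom.comp_apply, r12_rr_X, map_mul, r12_rr_C, r12_rr_X, r12_rr_X, C_mul]
    ring
  rw [← h, AlgHom.comp_apply]

private lemma r12_rr_one (v : E[X]) : r12_rr 1 v = v := by
  have h : r12_rr (1 : E) = AlgHom.id E E[X] := by
    ext1
    rw [r12_rr_X, AlgHom.id_apply, C_1, one_mul]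
  rw [h, AlgHom.id_apply]

/-- the polynomial `p(a - z ^ l)` -/
private noncomputable def r12_hat (l : ℕ) (a : E) : E[X] →ₐ[E] E[X] :=
  Polynomial.aeval (C a - X ^ l)

private lemma r12_hat_X (l : ℕ) (a : E) : r12_hat l a X = C a - X ^ l := by
  unfold r12_hat; exact aeval_X _

private lemma r12_hat_C (l : ℕ) (a c : E) : r12_hat l a (C c) = C c := by
  unfold r12_hat; exact aeval_C _ _

private lemma r12_hat_ne {l : ℕ} (hl : 0 < l) (a : E) {p : E[X]} (hp : p ≠ 0) :
    r12_hat l a p ≠ 0 := by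
  intro h
  have h1 : p.comp (C a - X ^ l) = 0 := by
    rw [Polynomial.comp_eq_aeval]; exact h
  rw [Polynomial.comp_eq_zero_iff] at h1
  rcases h1 with h1 | ⟨_, h1⟩
  · exact hp h1
  · have h2 := congrArg natDegree h1
    rw [natDegree_C] at h2
    have h3 : (C a - X ^ l : E[X]).natDegree = l := by
      rw [natDegree_sub_eq_right_of_natDegree_lt]
      · exact natDegree_X_pow l
      · rw [natDegree_C, natDegree_X_pow]; exact hl
    omega

private lemma r12_rr_hat {l : ℕ} {η : E} (hη : η ^ l = 1) (a : E) (p : E[X]) :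
    r12_rr η (r12_hat l a p) = r12_hat l a p := by
  have h : (r12_rr η).comp (r12_hat l a) = r12_hat l a := by
    ext1
    rw [AlgHom.comp_apply, r12_hat_X, map_sub, map_pow, r12_rr_C, r12_rr_X, mul_pow, ← C_pow, hη,
      C_1, one_mul]
  exact congrArg (fun φ : E[X] →ₐ[E] E[X] => φ p) h

private lemma r12_lin {l : ℕ} (hl : 0 < l) {η : E} (hη : IsPrimitiveRoot η l) (s : E) :
    ∏ j ∈ Finset.range l, r12_rr (η ^ j) (C s - X) = C (s ^ l) - X ^ l := by
  have h1 : IsPrimitiveRoot (C η : E[X]) l := hη.map_of_injective C_injective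
  have h2 := h1.pow_sub_pow_eq_prod_sub_mul (C s : E[X]) X hl
  have h3 : nthRootsFinset l (1 : E[X]) = (Finset.range l).image (fun j => (C η : E[X]) ^ j) := by
    symm
    apply Finset.eq_of_subset_of_card_le
    · intro x hx
      obtain ⟨j, _, rfl⟩ := Finset.mem_image.mp hx
      rw [mem_nthRootsFinset hl, ← pow_mul, mul_comm, pow_mul, h1.pow_eq_one, one_pow]
    · rw [h1.card_nthRootsFinset, Finset.card_image_of_injOn, Finset.card_range]
      intro i hi j hj hij
      exact h1.pow_inj (Finset.mem_range.mp hi) (Finset.mem_range.mp hj) hij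
  rw [h3, Finset.prod_image] at h2
  · rw [C_pow, h2]
    refine Finset.prod_congr rfl fun j _ => ?_
    rw [map_sub, r12_rr_C, r12_rr_X, C_pow]
  · intro i hi j hj hij
    exact h1.pow_inj (Finset.mem_range.mp hi) (Finset.mem_range.mp hj) hij

private lemma r12_H [IsAlgClosed E] {l : ℕ} (hl : 0 < l) {η : E} (hη : IsPrimitiveRoot η l) (a : E)
    (f : E[X]) : ∃ H : E[X], ∏ j ∈ Finset.range l, r12_rr (η ^ j) H = r12_hat l a f := by
  have hmul : ∀ p q : E[X], (∃ H : E[X], ∏ j ∈ Finset.range l, r12_rr (η ^ j) H = r12_hat l a p) →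
      (∃ H : E[X], ∏ j ∈ Finset.range l, r12_rr (η ^ j) H = r12_hat l a q) →
      ∃ H : E[X], ∏ j ∈ Finset.range l, r12_rr (η ^ j) H = r12_hat l a (p * q) := by
    rintro p q ⟨H, hH⟩ ⟨H', hH'⟩
    refine ⟨H * H', ?_⟩
    rw [map_mul, ← hH, ← hH', ← Finset.prod_mul_distrib]
    exact Finset.prod_congr rfl fun j _ => map_mul _ _ _
  have hC : ∀ c : E, ∃ H : E[X], ∏ j ∈ Finset.range l, r12_rr (η ^ j) H = r12_hat l a (C c) := by
    intro c
    obtain ⟨d, hd⟩ := IsAlgClosed.exists_pow_nat_eq c hl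
    refine ⟨C d, ?_⟩
    rw [r12_hat_C, ← hd, C_pow]
    rw [Finset.prod_congr rfl (fun j _ => r12_rr_C (η ^ j) d), Finset.prod_const,
      Finset.card_range]
  have hX : ∀ r : E, ∃ H : E[X], ∏ j ∈ Finset.range l, r12_rr (η ^ j) H =
      r12_hat l a (X - C r) := by
    intro r
    obtain ⟨s, hs⟩ := IsAlgClosed.exists_pow_nat_eq (a - r) hl
    refine ⟨C s - X, ?_⟩
    rw [r12_lin hl hη, hs, map_sub (r12_hat l a), r12_hat_X, r12_hat_C, C_sub]
    ring
  have hm : ∀ m : Multiset E, ∃ H : E[X], ∏ j ∈ Finset.range l, r12_rr (η ^ j) H =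
      r12_hat l a ((m.map fun r => X - C r).prod) := by
    intro m
    induction m using Multiset.induction_on with
    | empty =>
      have := hC 1
      rwa [C_1] at this
    | cons r m ih =>
      rw [Multiset.map_cons, Multiset.prod_cons]
      exact hmul _ _ (hX r) ih
  have hsp := (IsAlgClosed.splits f).eq_prod_roots
  rw [hsp]
  exact hmul _ _ (hC _) (hm _)


private lemma r12_Y_pow (η : E) (H : E[X]) (Y : Module.End E E[X])
    (hY : ∀ v, Y v = H * r12_rr η v) (n : ℕ) (v : E[X]) :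
    (Y ^ n) v = (∏ j ∈ Finset.range n, r12_rr (η ^ j) H) * r12_rr (η ^ n) v := by
  induction n generalizing v with
  | zero => rw [pow_zero, pow_zero, Finset.prod_range_zero, one_mul, r12_rr_one]; rfl
  | succ n ih =>
    rw [pow_succ, Module.End.mul_apply, ih, hY, map_mul, r12_rr_rr, Finset.prod_range_succ,
      ← pow_succ]
    ring

/-- the action of the coordinate ring on the polynomials in `z` -/
private lemma r12_act {l : ℕ} (f : E[X]) (a : E) {η : E} (hη : η ^ l = 1) (H : E[X])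
    (hH : ∏ j ∈ Finset.range l, r12_rr (η ^ j) H = r12_hat l a f) :
    ∃ act : Coord l f →+* Module.End E E[X],
      (∀ p v, act (ofPoly p) v = r12_hat l a p * v) ∧
      (∀ v, act yy v = H * r12_rr η v) := by
  set f0 : E[X] →+* Module.End E E[X] :=
    (Algebra.lmul E E[X]).toRingHom.comp (r12_hat l a).toRingHom with hf0
  have hf0a : ∀ p v, f0 p v = r12_hat l a p * v := fun p v => rfl
  set Y : Module.End E E[X] := LinearMap.mulLeft E H * (r12_rr η).toLinearMap with hYd
  have hY : ∀ v, Y v = H * r12_rr η v := fun v => rfl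
  have hcomm : ∀ p, Commute (f0 p) Y := by
    intro p
    apply LinearMap.ext
    intro v
    show f0 p (Y v) = Y (f0 p v)
    rw [hf0a, hY, hY, hf0a, map_mul, r12_rr_hat hη]
    ring
  set act0 : E[X][X] →+* Module.End E E[X] := Polynomial.eval₂RingHom' f0 Y hcomm with hact0
  have h1 : ∀ p, act0 (C p) = f0 p := fun p => Polynomial.eval₂_C _ _
  have h2 : act0 X = Y := Polynomial.eval₂_X _ _
  have hzero : act0 (X ^ l - C f) = 0 := by
    rw [map_sub, map_pow, h1, h2, sub_eq_zero]
    apply LinearMap.ext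
    intro v
    rw [r12_Y_pow η H Y hY, hH, hη, r12_rr_one, hf0a]
  set act : Coord l f →+* Module.End E E[X] :=
    Ideal.Quotient.lift (Ideal.span {(X ^ l - C f : E[X][X])}) act0 (by
      intro x hx
      obtain ⟨y, rfl⟩ := Ideal.mem_span_singleton'.mp hx
      rw [map_mul, hzero, mul_zero]) with hact
  have h3 : ∀ q : E[X][X], act (AdjoinRoot.mk _ q) = act0 q := fun q => rfl
  refine ⟨act, ?_, ?_⟩
  · intro p v
    have h4 : (ofPoly p : Coord l f) = AdjoinRoot.mk _ (C p) := rfl
    rw [h4, h3, h1, hf0a]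
  · intro v
    have h4 : (yy : Coord l f) = AdjoinRoot.mk _ X := rfl
    rw [h4, h3, h2, hY]


private lemma r12_exists_poly {l : ℕ} {f : E[X]} [hG : IsGood l f] {u : Coord l f} (hu : u ≠ 0) :
    ∃ (p : E[X]) (c : Coord l f), p ≠ 0 ∧ (ofPoly p : Coord l f) = c * u := by
  have hfin : Module.Finite E[X] (Coord l f) :=
    (monic_eqn (f := f) hG.prime.ne_zero).finite_adjoinRoot
  have hint : IsIntegral E[X] u := Algebra.IsIntegral.isIntegral u
  have h1 := Ideal.comap_ne_bot_of_integral_mem hu (Ideal.mem_span_singleton_self u) hint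
  obtain ⟨p, hp, hp0⟩ := (Submodule.ne_bot_iff _).mp h1
  rw [Ideal.mem_comap, Ideal.mem_span_singleton'] at hp
  obtain ⟨c, hc⟩ := hp
  exact ⟨p, c, hp0, hc.symm⟩

private lemma r12_act_inj {l : ℕ} {f : E[X]} [hG : IsGood l f] {a : E}
    (act : Coord l f →+* Module.End E E[X])
    (h1 : ∀ p v, act (ofPoly p) v = r12_hat l a p * v) {v : E[X]} (hv : v ≠ 0) {u : Coord l f}
    (hu : act u v = 0) : u = 0 := by
  by_contra hne
  obtain ⟨p, c, hp, hpc⟩ := r12_exists_poly hne
  have h2 : act (ofPoly p) v = 0 := by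
    rw [hpc, map_mul, Module.End.mul_apply, hu, map_zero]
  rw [h1] at h2
  exact mul_ne_zero (r12_hat_ne hG.prime.pos a hp) hv h2

private lemma r12_deg {l : ℕ} {f : E[X]} {a η : E} {H : E[X]}
    (act : Coord l f →+* Module.End E E[X])
    (h1 : ∀ p v, act (ofPoly p) v = r12_hat l a p * v)
    (h2 : ∀ v, act yy v = H * r12_rr η v) (i j : ℕ) (v : E[X]) :
    (act (ofPoly (X ^ j) * yy ^ i) v).natDegree ≤ l * j + i * H.natDegree + v.natDegree := by
  have hrr : ∀ w : E[X], (r12_rr η w).natDegree ≤ w.natDegree := by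
    intro w
    have h3 : r12_rr η w = w.comp (C η * X) := by rw [Polynomial.comp_eq_aeval]; rfl
    rw [h3]
    refine natDegree_comp_le.trans ?_
    have h4 : (C η * X : E[X]).natDegree ≤ 1 :=
      (natDegree_C_mul_le _ _).trans natDegree_X_le
    calc w.natDegree * (C η * X : E[X]).natDegree ≤ w.natDegree * 1 := Nat.mul_le_mul_left _ h4
      _ = w.natDegree := mul_one _
  have hy : ∀ (i : ℕ) (w : E[X]), ((act yy ^ i) w).natDegree ≤ i * H.natDegree + w.natDegree := by
    intro i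
    induction i with
    | zero => intro w; rw [pow_zero]; show w.natDegree ≤ _; omega
    | succ i ih =>
      intro w
      rw [pow_succ, Module.End.mul_apply]
      refine (ih _).trans ?_
      rw [h2]
      have h3 := natDegree_mul_le (p := H) (q := r12_rr η w)
      have h4 := hrr w
      have h5 : (i + 1) * H.natDegree = i * H.natDegree + H.natDegree := by ring
      omega
  rw [map_mul, Module.End.mul_apply, h1, map_pow act]
  have h3 := natDegree_mul_le (p := r12_hat l a (X ^ j)) (q := (act yy ^ i) v)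
  have h4 := hy i v
  have h5 : (r12_hat l a (X ^ j)).natDegree ≤ l * j := by
    rw [map_pow, r12_hat_X]
    refine natDegree_pow_le.trans ?_
    have h6 : (C a - X ^ l : E[X]).natDegree ≤ l := by
      refine (natDegree_sub_le _ _).trans ?_
      rw [natDegree_C, natDegree_X_pow]
      exact max_le (Nat.zero_le _) le_rfl
    calc j * (C a - X ^ l : E[X]).natDegree ≤ j * l := Nat.mul_le_mul_left _ h6
      _ = l * j := mul_comm _ _
  omega

/-- the element with the coefficients `c` -/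
private noncomputable def r12_el {l : ℕ} {f : E[X]} (N : ℕ) (c : ℕ → ℕ → E) : Coord l f :=
  ∑ i ∈ Finset.range l, ofPoly (∑ j ∈ Finset.range N, C (c i j) * X ^ j) * yy ^ i

private lemma r12_el_act {l : ℕ} {f : E[X]} {a : E}
    (act : Coord l f →+* Module.End E E[X])
    (h1 : ∀ p v, act (ofPoly p) v = r12_hat l a p * v) (N : ℕ) (c : ℕ → ℕ → E) (v : E[X]) :
    act (r12_el N c) v =
      ∑ i ∈ Finset.range l, ∑ j ∈ Finset.range N, c i j • act (ofPoly (X ^ j) * yy ^ i) v := by
  unfold r12_el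
  rw [map_sum, LinearMap.sum_apply]
  refine Finset.sum_congr rfl fun i _ => ?_
  rw [map_mul, Module.End.mul_apply, h1, map_sum, Finset.sum_mul]
  refine Finset.sum_congr rfl fun j _ => ?_
  rw [map_mul (r12_hat l a), r12_hat_C, map_mul act, Module.End.mul_apply, h1, smul_eq_C_mul,
    mul_assoc]

private lemma r12_el_zero {l : ℕ} (hl : l ≠ 0) {f : E[X]} {N : ℕ} {c : ℕ → ℕ → E}
    (h : (r12_el N c : Coord l f) = 0) : ∀ i < l, ∀ j < N, c i j = 0 := by
  intro i hi j hj
  have h1 := expand_unique hl (fun i => ∑ j ∈ Finset.range N, C (c i j) * X ^ j) h i hi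
  have h2 := congrArg (fun p : E[X] => p.coeff j) h1
  simp only [finsetSum_coeff, coeff_C_mul, coeff_X_pow, coeff_zero] at h2
  rw [Finset.sum_eq_single j] at h2
  · simpa using h2
  · intro b _ hb
    rw [if_neg (Ne.symm hb), mul_zero]
  · intro hb
    exact absurd (Finset.mem_range.mpr hj) hb


private lemma r12_exists_w {l : ℕ} {f : E[X]} [hG : IsGood l f] {a η : E} {H : E[X]}
    (act : Coord l f →+* Module.End E E[X])
    (h1 : ∀ p v, act (ofPoly p) v = r12_hat l a p * v)
    (h2 : ∀ v, act yy v = H * r12_rr η v) :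
    ∃ (w : Coord l f) (q : E[X]), q ≠ 0 ∧ act w 1 = r12_hat l a q * X := by
  have hl : 2 ≤ l := hG.prime.two_le
  set n' := H.natDegree with hn'
  set N := n' + 1 with hN
  set D := l * n' + (l - 1) * n' + 2 with hD
  set g : Fin 2 × Fin l × Fin N → E[X] := fun x =>
    if x.1 = 0 then act (ofPoly (X ^ (x.2.2 : ℕ)) * yy ^ (x.2.1 : ℕ)) 1
    else -act (ofPoly (X ^ (x.2.2 : ℕ)) * yy ^ (x.2.1 : ℕ)) X with hg
  have hgdeg : ∀ x, (g x).natDegree < D := by
    intro x
    obtain ⟨k, i, j⟩ := x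
    have hi : (i : ℕ) ≤ l - 1 := by have := i.2; omega
    have hj : (j : ℕ) ≤ n' := by have := j.2; omega
    have h3 := r12_deg act h1 h2 (i : ℕ) (j : ℕ) 1
    have h4 := r12_deg act h1 h2 (i : ℕ) (j : ℕ) X
    rw [natDegree_one, ← hn'] at h3
    rw [natDegree_X, ← hn'] at h4
    have h5 : (i : ℕ) * n' ≤ (l - 1) * n' := Nat.mul_le_mul_right _ hi
    have h6 : l * (j : ℕ) ≤ l * n' := Nat.mul_le_mul_left _ hj
    simp only [hg]
    split_ifs
    · omega
    · rw [natDegree_neg]; omega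
  set T : (Fin 2 × Fin l × Fin N → E) →ₗ[E] E[X] := Fintype.linearCombination E g with hT
  set T' : (Fin 2 × Fin l × Fin N → E) →ₗ[E] (Fin D → E) :=
    LinearMap.pi (fun j => (Polynomial.lcoeff E (j : ℕ)).comp T) with hT'
  have hker : LinearMap.ker T' ≠ ⊥ := by
    apply LinearMap.ker_ne_bot_of_finrank_lt
    rw [Module.finrank_fin_fun, Module.finrank_fintype_fun_eq_card, Fintype.card_prod,
      Fintype.card_prod, Fintype.card_fin, Fintype.card_fin, Fintype.card_fin, hD, hN]
    have h3 : (l - 1) * n' ≤ l * n' := Nat.mul_le_mul_right _ (by omega)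
    have h4 : 2 * (l * (n' + 1)) = l * n' + l * n' + 2 * l := by ring
    omega
  obtain ⟨c, hc, hc0⟩ := (Submodule.ne_bot_iff _).mp hker
  have hTc : T c = 0 := by
    ext j
    by_cases hj : j < D
    · have h3 : T' c = 0 := hc
      have h4 := congrFun h3 ⟨j, hj⟩
      exact h4
    · rw [coeff_zero]
      apply coeff_eq_zero_of_natDegree_lt
      have h3 : T c = ∑ x, c x • g x := rfl
      rw [h3]
      refine lt_of_lt_of_le ?_ (not_lt.mp hj)
      refine lt_of_le_of_lt (natDegree_sum_le_of_forall_le (n := D - 1) _ _ ?_) (by omega)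
      intro x _
      refine (natDegree_smul_le _ _).trans ?_
      have := hgdeg x
      omega
  set cc : Fin 2 → ℕ → ℕ → E := fun k i j =>
    if h : i < l ∧ j < N then c (k, ⟨i, h.1⟩, ⟨j, h.2⟩) else 0 with hcc
  have hccv : ∀ (k : Fin 2) (i : Fin l) (j : Fin N), cc k i j = c (k, i, j) := by
    intro k i j
    simp only [hcc]
    rw [dif_pos ⟨i.2, j.2⟩]
  have hsum : act (r12_el N (cc 0)) 1 - act (r12_el N (cc 1)) X = 0 := by
    rw [r12_el_act act h1, r12_el_act act h1, ← hTc]
    have h3 : T c = ∑ x, c x • g x := rfl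
    rw [h3, Fintype.sum_prod_type, Fin.sum_univ_two, Fintype.sum_prod_type, Fintype.sum_prod_type,
      Finset.sum_range, Finset.sum_range, sub_eq_add_neg, ← Finset.sum_neg_distrib]
    congr 1
    · refine Finset.sum_congr rfl fun i _ => ?_
      rw [Finset.sum_range]
      refine Finset.sum_congr rfl fun j _ => ?_
      rw [hccv]
      simp only [hg, if_pos]
    · refine Finset.sum_congr rfl fun i _ => ?_
      rw [Finset.sum_range, ← Finset.sum_neg_distrib]
      refine Finset.sum_congr rfl fun j _ => ?_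
      rw [hccv]
      simp only [hg]
      rw [if_neg (by decide), smul_neg]
  have hu : (r12_el N (cc 1) : Coord l f) ≠ 0 := by
    intro h3
    have h4 := r12_el_zero hG.prime.ne_zero h3
    rw [h3, map_zero, LinearMap.zero_apply, sub_zero] at hsum
    have h5 := r12_act_inj act h1 one_ne_zero hsum
    have h6 := r12_el_zero hG.prime.ne_zero h5
    apply hc0
    funext x
    obtain ⟨k, i, j⟩ := x
    rw [← hccv, Pi.zero_apply]
    fin_cases k
    · exact h6 i i.2 j j.2
    · exact h4 i i.2 j j.2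
  obtain ⟨p, u', hp, hpu⟩ := r12_exists_poly hu
  refine ⟨u' * r12_el N (cc 0), p, hp, ?_⟩
  rw [map_mul, Module.End.mul_apply, sub_eq_zero.mp hsum, ← Module.End.mul_apply, ← map_mul, ← hpu,
    h1]


/-- the main identity in the coordinate ring -/
private lemma r12_main {l : ℕ} {f : E[X]} [hG : IsGood l f] (ζ : E) (hζ : IsPrimitiveRoot ζ l)
    (h0 : ζ ≠ 0) (a : E) :
    ∃ (w : Coord l f) (q : E[X]), q ≠ 0 ∧ w ≠ 0 ∧
      ∏ i ∈ Finset.range l, (rotC ζ hζ.pow_eq_one)^[i] w = ofPoly (q ^ l * (C a - X)) := by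
  have hl : 0 < l := hG.prime.pos
  have : IsAlgClosed E := hG.alg
  have hη : IsPrimitiveRoot ζ⁻¹ l := hζ.inv
  obtain ⟨H, hH⟩ := r12_H hl hη a f
  obtain ⟨act, h1, h2⟩ := r12_act f a hη.pow_eq_one H hH
  obtain ⟨w, q, hq, hw⟩ := r12_exists_w act h1 h2
  -- the semilinearity of the multiplication by `z`
  have hsemi : ∀ (u : Coord l f) (v : E[X]),
      X * act u v = act (rotC ζ hζ.pow_eq_one u) (X * v) := by
    have hadd : ∀ u u' : Coord l f,
        (∀ v : E[X], X * act u v = act (rotC ζ hζ.pow_eq_one u) (X * v)) →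
        (∀ v : E[X], X * act u' v = act (rotC ζ hζ.pow_eq_one u') (X * v)) →
        ∀ v : E[X], X * act (u + u') v = act (rotC ζ hζ.pow_eq_one (u + u')) (X * v) := by
      intro u u' hu hu' v
      rw [map_add act, map_add (rotC ζ hζ.pow_eq_one), map_add act, LinearMap.add_apply,
        LinearMap.add_apply, mul_add, hu, hu']
    have hmul : ∀ u u' : Coord l f,
        (∀ v : E[X], X * act u v = act (rotC ζ hζ.pow_eq_one u) (X * v)) →
        (∀ v : E[X], X * act u' v = act (rotC ζ hζ.pow_eq_one u') (X * v)) →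
        ∀ v : E[X], X * act (u * u') v = act (rotC ζ hζ.pow_eq_one (u * u')) (X * v) := by
      intro u u' hu hu' v
      rw [map_mul act, map_mul (rotC ζ hζ.pow_eq_one), map_mul act, Module.End.mul_apply,
        Module.End.mul_apply, hu, hu']
    have hp : ∀ (p : E[X]) (v : E[X]), X * act (ofPoly p : Coord l f) v =
        act (rotC ζ hζ.pow_eq_one (ofPoly p)) (X * v) := by
      intro p v
      rw [rotC_ofPoly, h1, h1]
      ring
    have hy : ∀ v : E[X], X * act (yy : Coord l f) v =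
        act (rotC ζ hζ.pow_eq_one yy) (X * v) := by
      intro v
      rw [rotC_yy, map_mul act, Module.End.mul_apply, h1, h2, h2, map_mul, r12_rr_X, r12_hat_C]
      have h3 : (C ζ * C ζ⁻¹ : E[X]) = 1 := by rw [← C_mul, mul_inv_cancel₀ h0, C_1]
      calc X * (H * r12_rr ζ⁻¹ v) = 1 * (X * (H * r12_rr ζ⁻¹ v)) := by rw [one_mul]
        _ = (C ζ * C ζ⁻¹) * (X * (H * r12_rr ζ⁻¹ v)) := by rw [h3]
        _ = _ := by ring
    have hyp : ∀ (i : ℕ) (v : E[X]), X * act ((yy : Coord l f) ^ i) v =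
        act (rotC ζ hζ.pow_eq_one (yy ^ i)) (X * v) := by
      intro i
      induction i with
      | zero =>
        intro v
        rw [pow_zero, map_one (rotC ζ hζ.pow_eq_one), map_one act]
        rfl
      | succ i ih =>
        rw [pow_succ]
        exact hmul _ _ ih hy
    intro u
    obtain ⟨p, rfl⟩ := exists_expand hl.ne' u
    have key : ∀ s : Finset ℕ, ∀ v : E[X],
        X * act (∑ i ∈ s, (ofPoly (p i) : Coord l f) * yy ^ i) v =
        act (rotC ζ hζ.pow_eq_one (∑ i ∈ s, ofPoly (p i) * yy ^ i)) (X * v) := by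
      intro s
      induction s using Finset.induction_on with
      | empty =>
        intro v
        rw [Finset.sum_empty, map_zero, map_zero, map_zero, LinearMap.zero_apply,
          LinearMap.zero_apply, mul_zero]
      | insert i s hi ih =>
        rw [Finset.sum_insert hi]
        exact hadd _ _ (hmul _ _ (hp (p i)) (hyp i)) ih
    exact key _
  have hsemik : ∀ (k : ℕ) (v : E[X]),
      X ^ k * act w v = act ((rotC ζ hζ.pow_eq_one)^[k] w) (X ^ k * v) := by
    intro k
    induction k with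
    | zero => intro v; rw [pow_zero, one_mul, one_mul]; rfl
    | succ k ih =>
      intro v
      rw [pow_succ', mul_assoc, ih, hsemi, Function.iterate_succ_apply', mul_assoc]
  have hcommC : ∀ (u : Coord l f) (p v : E[X]),
      act u (r12_hat l a p * v) = r12_hat l a p * act u v := by
    intro u p v
    rw [← h1, ← Module.End.mul_apply, ← map_mul, mul_comm, map_mul, Module.End.mul_apply, h1]
  have hprod : ∀ k : ℕ, act (∏ i ∈ Finset.range k, (rotC ζ hζ.pow_eq_one)^[i] w) 1 =
      r12_hat l a (q ^ k) * X ^ k := by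
    intro k
    induction k with
    | zero =>
      rw [Finset.prod_range_zero, map_one act, pow_zero, pow_zero, map_one (r12_hat l a)]
      show (1 : E[X]) = 1 * 1
      rw [one_mul]
    | succ k ih =>
      rw [Finset.prod_range_succ, mul_comm, map_mul, Module.End.mul_apply, ih, hcommC]
      have h3 := hsemik k 1
      rw [mul_one, hw] at h3
      rw [← h3, pow_succ, pow_succ, map_mul]
      ring
  have hw0 : w ≠ 0 := by
    intro h3
    rw [h3, map_zero, LinearMap.zero_apply] at hw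
    exact mul_ne_zero (r12_hat_ne hl a hq) X_ne_zero hw.symm
  refine ⟨w, q, hq, hw0, ?_⟩
  rw [← sub_eq_zero]
  refine r12_act_inj act h1 (v := 1) one_ne_zero ?_
  rw [map_sub, LinearMap.sub_apply, hprod, h1, mul_one, map_mul, map_sub (r12_hat l a), r12_hat_X,
    r12_hat_C]
  ring

end R12aux

variable {ℓ : ℕ} {E : Type u} [Field E] {f : E[X]} [hG : IsGood ℓ f]

lemma exists_nrm_eq_xs (ζ : E) (hζ : IsPrimitiveRoot ζ ℓ) (h0 : ζ ≠ 0) (a : E) :
    ∃ h : (Fn ℓ f)ˣ, nrm ζ hζ.pow_eq_one h0 h = xs a := by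
  have hl : 0 < ℓ := hG.prime.pos
  have : IsAlgClosed E := hG.alg
  obtain ⟨w, q, hq, hw0, hmain⟩ := r12_main (f := f) ζ hζ h0 a
  obtain ⟨e, he⟩ := IsAlgClosed.exists_pow_nat_eq (-1 : E) hl
  have he0 : e ≠ 0 := by
    intro h
    rw [h, zero_pow hl.ne'] at he
    exact one_ne_zero (neg_eq_zero.mp he.symm)
  have hinj : Function.Injective (algebraMap (Coord ℓ f) (Fn ℓ f)) :=
    IsFractionRing.injective (Coord ℓ f) (Fn ℓ f)
  set wU : (Fn ℓ f)ˣ := Units.mk0 (algebraMap (Coord ℓ f) (Fn ℓ f) w)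
    (by rwa [Ne, map_eq_zero_iff _ hinj]) with hwU
  have hrot : ∀ (u : Coord ℓ f), rotE ζ hζ.pow_eq_one h0 u = rotC ζ hζ.pow_eq_one u := fun u => rfl
  have hit : ∀ i : ℕ, (((rotU ζ hζ.pow_eq_one h0)^[i] wU : (Fn ℓ f)ˣ) : Fn ℓ f) =
      algebraMap (Coord ℓ f) (Fn ℓ f) ((rotC ζ hζ.pow_eq_one)^[i] w) := by
    intro i
    induction i with
    | zero => rfl
    | succ i ih =>
      rw [Function.iterate_succ_apply', Function.iterate_succ_apply']
      show (autF (rotE ζ hζ.pow_eq_one h0)) (((rotU ζ hζ.pow_eq_one h0)^[i] wU : (Fn ℓ f)ˣ) :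
        Fn ℓ f) = _
      rw [ih, autF_algebraMap, hrot]
  have hnw : ((nrm ζ hζ.pow_eq_one h0 wU : (Fn ℓ f)ˣ) : Fn ℓ f) =
      algebraMap (Coord ℓ f) (Fn ℓ f) (ofPoly (q ^ ℓ * (C a - X))) := by
    unfold nrm
    rw [← hmain, Units.coe_prod, map_prod]
    exact Finset.prod_congr rfl fun i _ => hit i
  have hnq : nrm ζ hζ.pow_eq_one h0 (polyU q hq : (Fn ℓ f)ˣ) = (polyU q hq) ^ ℓ := by
    unfold nrm
    have h1 : ∀ i : ℕ, (rotU ζ hζ.pow_eq_one h0)^[i] (polyU q hq : (Fn ℓ f)ˣ) = polyU q hq := by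
      intro i
      induction i with
      | zero => rfl
      | succ i ih => rw [Function.iterate_succ_apply', ih, rotU_polyU]
    rw [Finset.prod_congr rfl (fun i _ => h1 i), Finset.prod_const, Finset.card_range]
  have hkey : nrm ζ hζ.pow_eq_one h0 (wU * cstU (Units.mk0 e he0)) =
      nrm ζ hζ.pow_eq_one h0 (polyU q hq) * xs a := by
    rw [nrm_mul, nrm_cstU, hnq]
    apply Units.ext
    rw [Units.val_mul, Units.val_mul, hnw, Units.val_pow_eq_pow_val]
    have h1 : ((cstU (Units.mk0 e he0 ^ ℓ) : (Fn ℓ f)ˣ) : Fn ℓ f) =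
        algebraMap (Coord ℓ f) (Fn ℓ f) (ofPoly (C (-1))) := by
      have h2 : ((cstU (Units.mk0 e he0 ^ ℓ) : (Fn ℓ f)ˣ) : Fn ℓ f) =
        algebraMap (Coord ℓ f) (Fn ℓ f) (ofPoly (C (e ^ ℓ))) := by
        show (cst (((Units.mk0 e he0) ^ ℓ : Eˣ) : E) : Fn ℓ f) = _
        rw [Units.val_pow_eq_pow_val]
        rfl
      rw [h2, he]
    have h3 : ((polyU q hq : (Fn ℓ f)ˣ) : Fn ℓ f) =
        algebraMap (Coord ℓ f) (Fn ℓ f) (ofPoly q) := rfl
    have h4 : ((xs a : (Fn ℓ f)ˣ) : Fn ℓ f) =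
        algebraMap (Coord ℓ f) (Fn ℓ f) (ofPoly (X - C a)) := rfl
    rw [h1, h3, h4, ← map_mul, ← map_mul, ← map_pow, ← map_pow, ← map_mul, ← map_mul]
    congr 2
    rw [C_neg, C_1]
    ring
  refine ⟨wU * cstU (Units.mk0 e he0) * (polyU q hq)⁻¹, ?_⟩
  have h5 : nrm ζ hζ.pow_eq_one h0 (wU * cstU (Units.mk0 e he0) * (polyU q hq)⁻¹) *
      nrm ζ hζ.pow_eq_one h0 (polyU q hq) =
      nrm ζ hζ.pow_eq_one h0 (wU * cstU (Units.mk0 e he0)) := by
    rw [← nrm_mul, inv_mul_cancel_right]
  rw [hkey, mul_comm (nrm ζ hζ.pow_eq_one h0 (polyU q hq)) (xs a)] at h5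
  exact mul_right_cancel h5

end Pool.Agent.Lib.MP_89bcae_ag.Sup
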