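import Mathlib
import Pool.Agent.Lib.MP_89bcae_ag.Q.K024
import Pool.Agent.Lib.MP_89bcae_ag.Q.K029
import Pool.Agent.Lib.MP_89bcae_ag.Q.K030
import Pool.Agent.Lib.MP_89bcae_ag.Q.K031

section

/-!
ROW R17 (100-200 lines). The kernel of `π = 1 - Z`.

Notation: `ram e = cl (ramDiv e) = ∑ e(θ) [(θ, 0)]`.

(A) `cl_eq_ram`: if `D - rot_* D = div h` and `nrm h = 1` then `cl D = ram e`, where
`e(θ) = atR D θ - n(θ)` and `lc θ h = ζ^n(θ)`.
PROOF. By Hilbert 90 (R11), `h = v / rot⁻¹ v`, so `div h = div v - rot_* div v` and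
`D₀ = D - div v` is fixed by `rot_*`. A divisor fixed by `rot_*` is the sum of its part at the ramified
points and of multiples of the full fibres `∑_{i<ℓ} (P.rot^i) = div (x - P.x)` of unramified points
(induction on the size of the support, or a sum over the finite set of the `x`-coordinates), so its
class is `ram (atR D₀)`, and `atR D₀ θ = atR D θ - ordR θ v`. By `lc_spec`:
`lc θ (rot v') = ζ^{ordR θ v'} lc θ v'` with `v' = rot⁻¹ v` and `ordR θ v' = ordR θ v`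
(`P.rot = P` for `P = (θ, 0)`), so `lc θ h = ζ^{ordR θ v}`, i.e. `n(θ) ≡ ordR θ v` modulo `ℓ`; and
`ℓ [(θ, 0)] = cl (div (x - θ)) = 0` so exponents matter only modulo `ℓ`.
(B) `zJ Q = Q` iff `Q` is some `ram e`. PROOF. If `Q = cl D` (R08), `D - rot_* D = div h`,
`nrm h = c · xprod (div h) = c` (`exists_nrm_eq`; `xprod (D - rot_* D) = 1` by `xprod_rot`,
`xprod_add`); dividing `h` by a constant whose `ℓ`-th power is `c` (`E` algebraically closed) we may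
assume `nrm h = 1` (`nrm_cstU`); apply (A) — the `lc θ h` are `ℓ`-th roots of unity since
`1 = lc θ (nrm h) = ∏ lc θ (rot^i h) = ζ^{...} lc θ(h)^ℓ` and `ordR θ h = 0`: `ord` of
`D - rot_* D` at a fixed point is zero. The converse: `mapDomain_rot_ramDiv`.
(C) `ram e = 0` iff `e` is constant modulo `ℓ` on the roots of `f`. PROOF. `ram 1 = cl (div y) = 0`
and `ℓ [(θ,0)] = 0` give the direction from right to left. Conversely let `ramDiv e = div h`. Then `rot⁻¹ h / h` has divisor `0`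
(`mapDomain_rot_ramDiv`), so it is a constant `c`: (divisor zero implies constant: R13 lemma
`exists_const_of_dg_eq_zero`: else `dg (div w) < 0` with `w = h - c`, but `ord_P w ≥ 0` for all `P`
by `ord_add`); `c^ℓ = 1` as `rot^ℓ = 1`; `c = ζ^{-j}`; and `lc θ (rot h) = ζ^{ordR θ h} lc θ h`
gives `e(θ) = ordR θ h ≡ j` for all roots `θ`.
-/

open Polynomial IsDedekindDomain

open scoped Classical

namespace Pool.Agent.Lib.MP_89bcae_ag.Sup

universe u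

variable {ℓ : ℕ} {E : Type u} [Field E] {f : E[X]} [hG : IsGood ℓ f]

/-- The class `∑ e(θ) [(θ, 0)]`. -/
noncomputable def ram (e : E → ℤ) : Jac ℓ f := cl (ramDiv e)

lemma r17_eq_of_x_eq {P Q : Pt ℓ f} (hP : P.y = 0) (h : Q.x = P.x) : Q = P := by
  have h1 : Q.y ^ ℓ = 0 := by
    rw [Q.eq, h, ← P.eq, hP, zero_pow hG.prime.ne_zero]
  exact Pt.ext h ((pow_eq_zero_iff hG.prime.ne_zero).1 h1 |>.trans hP.symm)

lemma r17_div_xs_ram (P : Pt ℓ f) (hP : P.y = 0) :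
    div (xs P.x : (Fn ℓ f)ˣ) = ℓ • Finsupp.single P 1 := by
  ext Q
  rw [div_apply, Finsupp.smul_apply, Finsupp.single_apply]
  by_cases h : P = Q
  · subst h
    rw [if_pos rfl, ord_xs_of_ramified P hP]
    simp
  · rw [if_neg h, smul_zero]
    exact ord_xs_of_ne Q fun h1 => h (r17_eq_of_x_eq hP h1).symm

lemma r17_smul_cl (D : Pt ℓ f →₀ ℤ) (hD : ∀ P, P.y ≠ 0 → D P = 0) : ℓ • cl D = 0 := by
  conv_lhs => rw [← Finsupp.sum_single D]
  rw [Finsupp.sum, map_sum, Finset.smul_sum]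
  refine Finset.sum_eq_zero fun P hP => ?_
  have hy : P.y = 0 := by
    by_contra hy
    exact Finsupp.mem_support_iff.1 hP (hD P hy)
  have h1 : (Finsupp.single P (D P) : Pt ℓ f →₀ ℤ) = D P • Finsupp.single P 1 := by
    rw [Finsupp.smul_single, smul_eq_mul, mul_one]
  rw [h1, map_zsmul, smul_comm, ← map_nsmul, ← r17_div_xs_ram P hy, cl_div, smul_zero]

lemma ram_congr (e e' : E → ℤ) (h : ∀ θ, f.eval θ = 0 → (ℓ : ℤ) ∣ e θ - e' θ) :
    (ram e : Jac ℓ f) = ram e' := by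
  have hk : ∀ θ, ∃ k : ℤ, f.eval θ = 0 → e θ - e' θ = ℓ * k := by
    intro θ
    by_cases hθ : f.eval θ = 0
    · obtain ⟨k, hk⟩ := h θ hθ
      exact ⟨k, fun _ => hk⟩
    · exact ⟨0, fun h => absurd h hθ⟩
  choose k hk using hk
  rw [← sub_eq_zero, ram, ram, ← map_sub, ← ramDiv_sub,
    ramDiv_congr (fun θ => e θ - e' θ) (fun θ => ℓ * k θ) hk, ramDiv_smul, map_zsmul,
    natCast_zsmul]
  refine r17_smul_cl _ fun P hP => ?_
  rw [ramDiv_apply, if_neg hP]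

omit hG in
lemma r17_rot_injective (ζ : E) (hζ : ζ ^ ℓ = 1) (h0 : ζ ≠ 0) :
    Function.Injective (Pt.rot ζ hζ : Pt ℓ f → Pt ℓ f) := by
  intro P Q h
  have hx : (Pt.rot ζ hζ P).x = (Pt.rot ζ hζ Q).x := by rw [h]
  have hy : (Pt.rot ζ hζ P).y = (Pt.rot ζ hζ Q).y := by rw [h]
  exact Pt.ext hx (mul_left_cancel₀ h0 hy)

omit hG in
lemma r17_rot_iter (ζ : E) (hζ : ζ ^ ℓ = 1) (P : Pt ℓ f) (i : ℕ) :
    ((Pt.rot ζ hζ)^[i] P).x = P.x ∧ ((Pt.rot ζ hζ)^[i] P).y = ζ ^ i * P.y := by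
  induction i with
  | zero => simp
  | succ i ih =>
    rw [Function.iterate_succ_apply']
    refine ⟨ih.1, ?_⟩
    change ζ * ((Pt.rot ζ hζ)^[i] P).y = _
    rw [ih.2, pow_succ']
    ring

lemma r17_exists_iter (ζ : E) (hζ : IsPrimitiveRoot ζ ℓ) (P Q : Pt ℓ f) (hP : P.y ≠ 0)
    (h : Q.x = P.x) : ∃ i, (Pt.rot ζ hζ.pow_eq_one)^[i] P = Q := by
  have h1 : (Q.y / P.y) ^ ℓ = 1 := by
    rw [div_pow, Q.eq, P.eq, h, div_self]
    rw [← P.eq]
    exact pow_ne_zero _ hP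
  have : NeZero ℓ := ⟨hG.prime.ne_zero⟩
  obtain ⟨i, _, hi⟩ := hζ.eq_pow_of_pow_eq_one h1
  refine ⟨i, Pt.ext ?_ ?_⟩
  · rw [(r17_rot_iter ζ hζ.pow_eq_one P i).1, h]
  · rw [(r17_rot_iter ζ hζ.pow_eq_one P i).2, hi, div_mul_cancel₀ _ hP]

omit hG in
lemma r17_apply_rot (ζ : E) (hζ : ζ ^ ℓ = 1) (h0 : ζ ≠ 0) (D : Pt ℓ f →₀ ℤ)
    (hD : D.mapDomain (Pt.rot ζ hζ) = D) (P : Pt ℓ f) (i : ℕ) :
    D ((Pt.rot ζ hζ)^[i] P) = D P := by
  induction i with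
  | zero => rfl
  | succ i ih =>
    rw [Function.iterate_succ_apply', ← ih]
    conv_lhs => rw [← hD]
    exact Finsupp.mapDomain_apply (r17_rot_injective ζ hζ h0) _ _

lemma r17_cl_unram (ζ : E) (hζ : IsPrimitiveRoot ζ ℓ) (h0 : ζ ≠ 0) (D : Pt ℓ f →₀ ℤ)
    (hD : D.mapDomain (Pt.rot ζ hζ.pow_eq_one) = D) (hr : ∀ P, P.y = 0 → D P = 0) :
    cl D = 0 := by
  have := hG.alg
  have hb : ∀ a : E, ∃ b : E, b ^ ℓ = f.eval a := fun a =>
    IsAlgClosed.exists_pow_nat_eq _ hG.prime.pos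
  choose b hb using hb
  have key : D = ∑ a ∈ D.support.image Pt.x, D ⟨a, b a, hb a⟩ • div (xs a : (Fn ℓ f)ˣ) := by
    ext Q
    rw [Finsupp.finsetSum_apply]
    by_cases hQ : Q.x ∈ D.support.image Pt.x
    · rw [Finset.sum_eq_single Q.x]
      · obtain ⟨P, hP, hPQ⟩ := Finset.mem_image.1 hQ
        have hPy : P.y ≠ 0 := fun h => Finsupp.mem_support_iff.1 hP (hr P h)
        have hQy : Q.y ≠ 0 := by
          intro h
          apply hPy
          rw [r17_eq_of_x_eq h hPQ]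
          exact h
        have hby : b Q.x ≠ 0 := by
          intro h
          have h2 := hb Q.x
          rw [h, zero_pow hG.prime.ne_zero, ← Q.eq] at h2
          exact hQy ((pow_eq_zero_iff hG.prime.ne_zero).1 h2.symm)
        obtain ⟨i, hi⟩ := r17_exists_iter ζ hζ ⟨Q.x, b Q.x, hb Q.x⟩ Q hby rfl
        rw [Finsupp.smul_apply, div_apply, ord_xs_of_unramified Q hQy, smul_eq_mul, mul_one,
          ← r17_apply_rot ζ hζ.pow_eq_one h0 D hD ⟨Q.x, b Q.x, hb Q.x⟩ i, hi]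
      · intro a _ ha
        rw [Finsupp.smul_apply, div_apply, ord_xs_of_ne Q ha.symm, smul_zero]
      · intro h
        exact absurd hQ h
    · have hQ0 : D Q = 0 := by
        by_contra h
        exact hQ (Finset.mem_image.2 ⟨Q, Finsupp.mem_support_iff.2 h, rfl⟩)
      rw [hQ0]
      symm
      refine Finset.sum_eq_zero fun a ha => ?_
      rw [Finsupp.smul_apply, div_apply, ord_xs_of_ne Q (fun h => hQ (h ▸ ha)), smul_zero]
  rw [key, map_sum]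
  refine Finset.sum_eq_zero fun a _ => ?_
  rw [map_zsmul, cl_div, smul_zero]

lemma r17_cl_fixed (ζ : E) (hζ : IsPrimitiveRoot ζ ℓ) (h0 : ζ ≠ 0) (D : Pt ℓ f →₀ ℤ)
    (hD : D.mapDomain (Pt.rot ζ hζ.pow_eq_one) = D) : cl D = ram (atR D) := by
  rw [← sub_eq_zero, ram, ← map_sub]
  refine r17_cl_unram ζ hζ h0 _ ?_ ?_
  · have := (Finsupp.mapDomain.addMonoidHom (M := ℤ) (Pt.rot ζ hζ.pow_eq_one : Pt ℓ f → Pt ℓ f)
      ).map_sub D (ramDiv (atR D))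
    change (D - ramDiv (atR D)).mapDomain (Pt.rot ζ hζ.pow_eq_one) =
      D.mapDomain (Pt.rot ζ hζ.pow_eq_one) - (ramDiv (atR D)).mapDomain (Pt.rot ζ hζ.pow_eq_one)
      at this
    rw [this, hD, mapDomain_rot_ramDiv]
  · intro P hP
    have hθ : f.eval P.x = 0 := by
      rw [← P.eq, hP, zero_pow hG.prime.ne_zero]
    rw [Finsupp.sub_apply, ramDiv_apply, if_pos hP, atR, dif_pos hθ, sub_eq_zero]
    congr 1
    exact Pt.ext rfl hP

lemma cl_eq_ram (ζ : E) (hζ : IsPrimitiveRoot ζ ℓ) (h0 : ζ ≠ 0) (D : Pt ℓ f →₀ ℤ)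
    (h : (Fn ℓ f)ˣ) (hD : D - D.mapDomain (Pt.rot ζ hζ.pow_eq_one) = div h)
    (hn : nrm ζ hζ.pow_eq_one h0 h = 1) (n : E → ℤ)
    (hlc : ∀ θ, f.eval θ = 0 → (lc θ h : E) = ζ ^ n θ) :
    cl D = ram fun θ => atR D θ - n θ := by
  obtain ⟨v, hv⟩ := exists_hilbert ζ hζ h0 h hn
  have hdiv : div h = div v - (div v).mapDomain (Pt.rot ζ hζ.pow_eq_one) := by
    rw [hv, div_eq_mul_inv, div_mul, div_inv, div_rotU_symm, sub_eq_add_neg]
  have hfix : (D - div v).mapDomain (Pt.rot ζ hζ.pow_eq_one) = D - div v := by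
    have := (Finsupp.mapDomain.addMonoidHom (M := ℤ) (Pt.rot ζ hζ.pow_eq_one : Pt ℓ f → Pt ℓ f)
      ).map_sub D (div v)
    change (D - div v).mapDomain (Pt.rot ζ hζ.pow_eq_one) =
      D.mapDomain (Pt.rot ζ hζ.pow_eq_one) - (div v).mapDomain (Pt.rot ζ hζ.pow_eq_one)
      at this
    rw [this]
    rw [hdiv] at hD
    have h2 : D.mapDomain (Pt.rot ζ hζ.pow_eq_one) =
        D - (div v - (div v).mapDomain (Pt.rot ζ hζ.pow_eq_one)) := by
      rw [← hD]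
      abel
    rw [h2]
    abel
  have hcl : cl D = cl (D - div v) := by
    rw [map_sub, cl_div, sub_zero]
  rw [hcl, r17_cl_fixed ζ hζ h0 _ hfix]
  refine ram_congr _ _ fun θ hθ => ?_
  have hrot : (Pt.rot ζ hζ.pow_eq_one (ramPt hG.prime.ne_zero hθ) : Pt ℓ f) =
      ramPt hG.prime.ne_zero hθ := Pt.ext rfl (mul_zero ζ)
  set v' := (rotU ζ hζ.pow_eq_one h0).symm v with hv'
  have hvv : rotU ζ hζ.pow_eq_one h0 v' = v := MulEquiv.apply_symm_apply _ _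
  have hord : ordR θ v' = ord (ramPt hG.prime.ne_zero hθ) v := by
    rw [ordR, dif_pos hθ, ← hvv, ord_rotU, hrot]
  obtain ⟨_, _, _, _, hr, _⟩ := lc_spec (ℓ := ℓ) hθ
  have hl := hr ζ hζ.pow_eq_one h0 v'
  rw [hvv, hord] at hl
  have hl2 : (lc θ h : E) = ζ ^ ord (ramPt hG.prime.ne_zero hθ) v := by
    rw [hv, _root_.map_div, Units.val_div_eq_div_val, hl, mul_div_assoc, div_self (Units.ne_zero _),
      mul_one]
  rw [hlc θ hθ] at hl2
  have hz : ζ ^ (n θ - ord (ramPt hG.prime.ne_zero hθ) v) = 1 := by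
    rw [zpow_sub₀ h0, hl2, div_self (zpow_ne_zero _ h0)]
  have hdvd := (hζ.zpow_eq_one_iff_dvd _).1 hz
  have hat : atR (D - div v) θ = atR D θ - ord (ramPt hG.prime.ne_zero hθ) v := by
    rw [atR, dif_pos hθ, atR, dif_pos hθ, Finsupp.sub_apply, div_apply]
    rfl
  rw [hat]
  have : atR D θ - ord (ramPt hG.prime.ne_zero hθ) v - (atR D θ - n θ) =
      n θ - ord (ramPt hG.prime.ne_zero hθ) v := by ring
  rw [this]
  exact hdvd

end Pool.Agent.Lib.MP_89bcae_ag.Sup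

end

section

/-!
The kernel of `π = 1 - Z`: parts (B) and (C) of the explanations in R17.
-/

open Polynomial IsDedekindDomain

open scoped Classical

namespace Pool.Agent.Lib.MP_89bcae_ag.Sup

universe u

variable {ℓ : ℕ} {E : Type u} [Field E] {f : E[X]} [hG : IsGood ℓ f]

lemma R18_rot_ramPt (ζ : E) (hζ : ζ ^ ℓ = 1) {θ : E} (hθ : f.eval θ = 0) :
    (ramPt hG.prime.ne_zero hθ : Pt ℓ f).rot ζ hζ = ramPt hG.prime.ne_zero hθ := by
  ext
  · rfl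
  · simp [Pt.rot, ramPt]

lemma R18_ordR_rot (ζ : E) (hζ : ζ ^ ℓ = 1) (h0 : ζ ≠ 0) (θ : E) (h : (Fn ℓ f)ˣ) :
    ordR θ (rotU ζ hζ h0 h) = ordR θ h := by
  unfold ordR
  split_ifs with hθ
  · rw [ord_rotU, R18_rot_ramPt]
  · rfl

lemma R18_ordR_iter (ζ : E) (hζ : ζ ^ ℓ = 1) (h0 : ζ ≠ 0) (θ : E) (h : (Fn ℓ f)ˣ) (i : ℕ) :
    ordR θ ((rotU ζ hζ h0)^[i] h) = ordR θ h := by
  induction i with
  | zero => rfl
  | succ i ih => rw [Function.iterate_succ_apply', R18_ordR_rot, ih]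

lemma R18_lc_iter (ζ : E) (hζ : ζ ^ ℓ = 1) (h0 : ζ ≠ 0) {θ : E} (hθ : f.eval θ = 0)
    (h : (Fn ℓ f)ˣ) (i : ℕ) :
    (lc θ ((rotU ζ hζ h0)^[i] h) : E) = (ζ ^ ordR θ h) ^ i * lc θ h := by
  induction i with
  | zero => simp
  | succ i ih =>
    rw [Function.iterate_succ_apply', (lc_spec hθ).2.2.2.2.1, ih, R18_ordR_iter, pow_succ]
    ring

/-- The leading coefficient of a norm. -/
lemma R18_lc_nrm (ζ : E) (hζ : ζ ^ ℓ = 1) (h0 : ζ ≠ 0) {θ : E} (hθ : f.eval θ = 0)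
    (h : (Fn ℓ f)ˣ) :
    (lc θ (nrm ζ hζ h0 h) : E) =
      (ζ ^ ordR θ h) ^ (∑ i ∈ Finset.range ℓ, i) * (lc θ h : E) ^ ℓ := by
  rw [nrm, map_prod, Units.coe_prod, Finset.prod_congr rfl fun i _ => R18_lc_iter ζ hζ h0 hθ h i,
    Finset.prod_mul_distrib, Finset.prod_pow_eq_pow_sum, Finset.prod_const, Finset.card_range]

lemma R18_xprod_sub (D D' : Pt ℓ f →₀ ℤ) : xprod (D - D') = xprod D / xprod D' := by
  rw [eq_div_iff_mul_eq', ← xprod_add, sub_add_cancel]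

lemma R18_div_div (h h' : (Fn ℓ f)ˣ) : div (h / h') = div h - div h' := by
  rw [div_eq_mul_inv, div_mul, div_inv, sub_eq_add_neg]

/-- Extraction of roots of constants: normalization of the norm. -/
lemma R18_exists_normalized (ζ : E) (hζ : ζ ^ ℓ = 1) (h0 : ζ ≠ 0) (h : (Fn ℓ f)ˣ) (c : Eˣ)
    (g : (Fn ℓ f)ˣ) (hn : nrm ζ hζ h0 h = cstU c * g) :
    ∃ h' : (Fn ℓ f)ˣ, div h' = div h ∧ nrm ζ hζ h0 h' = g := by
  have := hG.alg
  obtain ⟨d, hd⟩ := IsAlgClosed.exists_pow_nat_eq (c : E) hG.prime.pos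
  have hd0 : d ≠ 0 := by
    rintro rfl
    rw [zero_pow hG.prime.ne_zero] at hd
    exact c.ne_zero hd.symm
  have hdc : (Units.mk0 d hd0) ^ ℓ = c := by
    ext
    simpa using hd
  refine ⟨h * cstU (Units.mk0 d hd0)⁻¹, ?_, ?_⟩
  · rw [div_mul, div_cstU, add_zero]
  · rw [nrm_mul, nrm_cstU, hn, inv_pow, hdc, map_inv]
    rw [mul_comm (cstU c) g, mul_inv_cancel_right]

lemma zJ_ram (ζ : E) (hζ : ζ ^ ℓ = 1) (e : E → ℤ) : zJ ζ hζ (ram e : Jac ℓ f) = ram e := by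
  rw [ram, zJ_cl, mapDomain_rot_ramDiv]

/-- (B) -/
lemma exists_ram_of_zJ_eq (ζ : E) (hζ : IsPrimitiveRoot ζ ℓ) (Q : Jac ℓ f)
    (hQ : zJ ζ hζ.pow_eq_one Q = Q) : ∃ e : E → ℤ, Q = ram e := by
  have h0 : ζ ≠ 0 := hζ.ne_zero hG.prime.ne_zero
  obtain ⟨D, rfl⟩ := cl_surjective Q
  rw [zJ_cl] at hQ
  have h1 : cl (D - D.mapDomain (Pt.rot ζ hζ.pow_eq_one)) = 0 := by
    rw [map_sub, hQ, sub_self]
  obtain ⟨h, hh⟩ := exists_div_of_cl_eq_zero _ h1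
  obtain ⟨c, hc⟩ := exists_nrm_eq ζ hζ h0 h
  have hx : xprod (div h) = 1 := by
    rw [hh, R18_xprod_sub, xprod_rot, div_self']
  obtain ⟨h', hdiv, hn⟩ := R18_exists_normalized ζ hζ.pow_eq_one h0 h c _ hc
  rw [hx] at hn
  have hord : ∀ θ, f.eval θ = 0 → ordR θ h' = 0 := by
    intro θ hθ
    have h2 : ord (ramPt hG.prime.ne_zero hθ) h' = 0 := by
      rw [← div_apply, hdiv, hh, Finsupp.sub_apply]
      nth_rw 2 [← R18_rot_ramPt ζ hζ.pow_eq_one hθ]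
      rw [Finsupp.mapDomain_apply, sub_self]
      intro P P' hP
      have hx := congrArg Pt.x hP
      have hy := congrArg Pt.y hP
      simp only [Pt.rot] at hx hy
      exact Pt.ext hx (mul_left_cancel₀ h0 hy)
    rw [ordR, dif_pos hθ, h2]
  have hlc : ∀ θ, f.eval θ = 0 → ∃ n : ℤ, (lc θ h' : E) = ζ ^ n := by
    intro θ hθ
    have h3 := R18_lc_nrm ζ hζ.pow_eq_one h0 hθ h'
    rw [hn, hord θ hθ, map_one, zpow_zero, one_pow, one_mul, Units.val_one] at h3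
    have : NeZero ℓ := ⟨hG.prime.ne_zero⟩
    obtain ⟨i, _, hi⟩ := hζ.eq_pow_of_pow_eq_one h3.symm
    exact ⟨i, by rw [← hi, zpow_natCast]⟩
  choose! n hn' using hlc
  exact ⟨_, cl_eq_ram ζ hζ h0 D h' (by rw [hdiv, hh]) hn n hn'⟩

/-- (C) -/
lemma ram_eq_zero_iff (ζ : E) (hζ : IsPrimitiveRoot ζ ℓ) (e : E → ℤ) :
    (ram e : Jac ℓ f) = 0 ↔
      ∃ c : ℤ, ∀ θ, f.eval θ = 0 → (ℓ : ℤ) ∣ e θ - c := by
  have h0 : ζ ≠ 0 := hζ.ne_zero hG.prime.ne_zero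
  constructor
  · intro he
    obtain ⟨h, hh⟩ := exists_div_of_cl_eq_zero _ he
    have hu : div ((rotU ζ hζ.pow_eq_one h0).symm h / h) = 0 := by
      rw [R18_div_div, div_rotU_symm, hh, mapDomain_rot_ramDiv, sub_self]
    have hdg : dg (div ((rotU ζ hζ.pow_eq_one h0).symm h / h)) = 0 := by
      rw [hu, dg, Finsupp.sum_zero_index]
    obtain ⟨c, hc⟩ := exists_const_of_dg_eq_zero ζ hζ _ hdg
    have hord : ∀ P, ord P ((rotU ζ hζ.pow_eq_one h0).symm h / h) = 0 := by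
      intro P
      rw [← div_apply, hu, Finsupp.zero_apply]
    have hc1 : (((rotU ζ hζ.pow_eq_one h0).symm h / h : (Fn ℓ f)ˣ) : Fn ℓ f) = cst c := by
      rcases hc with hc | ⟨w, hw, hwd⟩
      · exact hc
      · exfalso
        have hwn : ∀ P, 0 ≤ ord P w := by
          intro P
          by_cases hc0 : c = 0
          · rw [hc0, map_zero, sub_zero] at hw
            rw [Units.ext hw, hord]
          · have h5 := ord_add P ((rotU ζ hζ.pow_eq_one h0).symm h / h)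
              (cstU (Units.mk0 (-c) (neg_ne_zero.2 hc0))) w (by
                rw [hw, cstU, Units.coe_map, Units.val_mk0, MonoidHom.coe_coe, map_neg,
                  sub_eq_add_neg])
            rw [hord, ord_cstU, min_self] at h5
            exact h5
        refine absurd hwd (not_lt.2 ?_)
        exact Finset.sum_nonneg fun P _ => hwn P
    have hc0 : c ≠ 0 := by
      rintro rfl
      rw [map_zero] at hc1
      exact Units.ne_zero _ hc1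
    have h6 : (rotU ζ hζ.pow_eq_one h0).symm h / h = cstU (Units.mk0 c hc0) := by
      ext
      rw [hc1, cstU, Units.coe_map, Units.val_mk0, MonoidHom.coe_coe]
    have h7 : h = cstU (Units.mk0 c hc0) * rotU ζ hζ.pow_eq_one h0 h := by
      have h8 := congrArg (rotU ζ hζ.pow_eq_one h0) (eq_mul_of_div_eq h6)
      rw [MulEquiv.apply_symm_apply, map_mul, rotU_cstU] at h8
      exact h8
    have h9 : ∀ θ, f.eval θ = 0 → c * ζ ^ e θ = 1 := by
      intro θ hθ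
      have h10 : ordR θ h = e θ := by
        rw [ordR, dif_pos hθ, ← div_apply, hh, ramDiv_apply, if_pos (by rfl)]
        rfl
      have h11 := congrArg (fun u => (lc θ u : E)) h7
      simp only [map_mul, Units.val_mul, (lc_spec hθ).1, (lc_spec hθ).2.2.2.2.1, Units.val_mk0,
        h10] at h11
      have h12 := (lc θ h).ne_zero
      rw [← mul_assoc] at h11
      exact (mul_eq_right₀ h12).1 h11.symm
    obtain ⟨θ₀, hθ₀⟩ := IsGood.exists_root (ℓ := ℓ) (f := f)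
    refine ⟨e θ₀, fun θ hθ => ?_⟩
    rw [← hζ.zpow_eq_one_iff_dvd, zpow_sub₀ h0]
    have h13 := h9 θ hθ
    have h14 := h9 θ₀ hθ₀
    rw [← h14] at h13
    rw [mul_left_cancel₀ hc0 h13, div_self (zpow_ne_zero _ h0)]
  · rintro ⟨c, hc⟩
    rw [ram_congr e (fun _ => c * 1) (fun θ hθ => by simpa using hc θ hθ), ram, ramDiv_smul,
      map_zsmul, ← div_yU, cl_div, smul_zero]

lemma ram_add (e e' : E → ℤ) : (ram fun θ => e θ + e' θ : Jac ℓ f) = ram e + ram e' := by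
  rw [ram, ramDiv_add, map_add, ← ram, ← ram]

lemma ram_sub (e e' : E → ℤ) : (ram fun θ => e θ - e' θ : Jac ℓ f) = ram e - ram e' := by
  rw [ram, ramDiv_sub, map_sub, ← ram, ← ram]

lemma symJ_ram (σ : Sym f) (e : E → ℤ) :
    symJ σ (ram e : Jac ℓ f) = ram fun θ => e (((σ⁻¹ : Sym f) : E ≃+* E) θ) := by
  rw [ram, symJ_cl, mapDomain_sym_ramDiv, ← ram]

lemma smul_ram (e : E → ℤ) : ℓ • (ram e : Jac ℓ f) = 0 := by
  have h1 : (ram (fun θ => (ℓ : ℤ) * e θ) : Jac ℓ f) = ram fun _ => 0 :=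
    ram_congr _ _ fun θ _ => ⟨e θ, by ring⟩
  have h2 : (ram (fun _ => 0) : Jac ℓ f) = 0 := by
    have h3 : (ramDiv (fun _ => 0) : Pt ℓ f →₀ ℤ) = 0 := by
      ext P
      simp
    rw [ram, h3, map_zero]
  rw [h2, ram, ramDiv_smul, map_zsmul, ← ram, natCast_zsmul] at h1
  exact h1

end Pool.Agent.Lib.MP_89bcae_ag.Sup

end

section

/-!
THE KUMMER FORMULA.

STATEMENT. Let `Q - Z Q = cl D`. There are `z θ ≠ 0` in `E` (for the roots `θ` of `f`) with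
`(z θ)^ℓ = ε^{D(θ,0)} ∏_P (θ - x(P))^{D(P)}`, where `ε = (-1)^(ℓ+1)` and the factor of
`P = (θ, 0)` is replaced by `(1/f'(θ))^{D(P)}`, such that for every automorphism `σ` in `Sym f` which
fixes `ζ` and `D`: if `σ (z θ) = ζ^{n(σ θ)} z (σ θ)` for all roots `θ`, then
`σ Q - Q = ram n = ∑ n(θ) [(θ, 0)]`.
-/

open Polynomial IsDedekindDomain

open scoped Classical

namespace Pool.Agent.Lib.MP_89bcae_ag.Sup

universe u

variable {ℓ : ℕ} {E : Type u} [Field E] {f : E[X]} [hG : IsGood ℓ f]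

/-- The value at `θ` of `∏ (x - x(P)) ^ D(P)`, regularized if `θ` is one of the `x(P)`. -/
noncomputable def uval (D : Pt ℓ f →₀ ℤ) (θ : E) : E :=
  D.prod fun P n => (if P.x = θ then ((derivative f).eval θ)⁻¹ else θ - P.x) ^ n

omit hG in
lemma R21_eval (σ : Sym f) (θ : E) :
    f.eval ((σ : E ≃+* E) θ) = (σ : E ≃+* E) (f.eval θ) := by
  have h : f.map ((σ : E ≃+* E) : E →+* E) = f := mem_Sym.1 σ.2
  refine (congrArg (fun g : E[X] => g.eval ((σ : E ≃+* E) θ)) h.symm).trans ?_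
  rw [Polynomial.eval_map]
  exact Polynomial.eval₂_hom ((σ : E ≃+* E) : E →+* E) θ

omit hG in
lemma R21_sym_injective (σ : Sym f) : Function.Injective (Pt.sym σ : Pt ℓ f → Pt ℓ f) := by
  intro P P' hP
  have hx := congrArg Pt.x hP
  have hy := congrArg Pt.y hP
  exact Pt.ext ((σ : E ≃+* E).injective hx) ((σ : E ≃+* E).injective hy)

omit hG in
lemma R21_sym_rot (σ : Sym f) (ζ : E) (hζ : ζ ^ ℓ = 1) (hσ : (σ : E ≃+* E) ζ = ζ) :
    (Pt.sym σ : Pt ℓ f → Pt ℓ f) ∘ Pt.rot ζ hζ = Pt.rot ζ hζ ∘ Pt.sym σ := by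
  funext P
  refine Pt.ext ?_ ?_
  · rfl
  · change (σ : E ≃+* E) (ζ * P.y) = ζ * (σ : E ≃+* E) P.y
    rw [map_mul, hσ]

lemma R21_atR_sym (σ : Sym f) (D : Pt ℓ f →₀ ℤ) {θ : E} (hθ : f.eval θ = 0) :
    atR (D.mapDomain (Pt.sym σ)) ((σ : E ≃+* E) θ) = atR D θ := by
  have hσθ : f.eval ((σ : E ≃+* E) θ) = 0 := by rw [R21_eval, hθ, map_zero]
  rw [atR, atR, dif_pos hθ, dif_pos hσθ]
  have h : (⟨(σ : E ≃+* E) θ, 0, by rw [zero_pow hG.prime.ne_zero, hσθ]⟩ : Pt ℓ f) =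
      Pt.sym σ ⟨θ, 0, by rw [zero_pow hG.prime.ne_zero, hθ]⟩ := by
    refine Pt.ext rfl ?_
    change 0 = (σ : E ≃+* E) 0
    rw [map_zero]
  rw [h, Finsupp.mapDomain_apply (R21_sym_injective σ)]

omit hG in
lemma R21_rot_injective {ζ : E} (hζ : ζ ^ ℓ = 1) (h0 : ζ ≠ 0) :
    Function.Injective (Pt.rot ζ hζ : Pt ℓ f → Pt ℓ f) := by
  intro P P' hP
  have hx := congrArg Pt.x hP
  have hy := congrArg Pt.y hP
  exact Pt.ext hx (mul_left_cancel₀ h0 hy)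

lemma R21_atR_sub (D D' : Pt ℓ f →₀ ℤ) (θ : E) : atR (D - D') θ = atR D θ - atR D' θ := by
  unfold atR
  split_ifs
  · rfl
  · rfl

lemma R21_atR_rot {ζ : E} (hζ : ζ ^ ℓ = 1) (h0 : ζ ≠ 0) (D : Pt ℓ f →₀ ℤ) (θ : E) :
    atR (D.mapDomain (Pt.rot ζ hζ)) θ = atR D θ := by
  unfold atR
  split_ifs with hθ
  · have h := R18_rot_ramPt (ℓ := ℓ) ζ hζ hθ
    conv_lhs => rw [show (⟨θ, 0, by rw [zero_pow hG.prime.ne_zero, hθ]⟩ : Pt ℓ f) =
      Pt.rot ζ hζ ⟨θ, 0, by rw [zero_pow hG.prime.ne_zero, hθ]⟩ from h.symm]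
    rw [Finsupp.mapDomain_apply (R21_rot_injective hζ h0)]
  · rfl

lemma R21_ordR (θ : E) (h : (Fn ℓ f)ˣ) : ordR θ h = atR (div h) θ := by
  unfold ordR atR
  split_ifs
  · rfl
  · rfl

lemma R21_eps {ζ : E} (hζ : IsPrimitiveRoot ζ ℓ) (hℓ : ℓ.Prime) :
    ζ ^ (∑ i ∈ Finset.range ℓ, i) = (-1) ^ (ℓ + 1) := by
  rcases hℓ.eq_two_or_odd' with rfl | hodd
  · have h1 : ζ = -1 := hζ.eq_neg_one_of_two_right
    rw [h1]
    norm_num [Finset.sum_range_succ]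
  · obtain ⟨k, hk⟩ := hodd
    have h1 : ∑ i ∈ Finset.range ℓ, i = ℓ * k := by
      have h2 := Finset.sum_range_id_mul_two ℓ
      have h3 : ℓ - 1 = 2 * k := by omega
      rw [h3] at h2
      nlinarith
    rw [h1, pow_mul, hζ.pow_eq_one, one_pow, Even.neg_one_pow]
    exact ⟨k + 1, by omega⟩

lemma R21_lc_xprod {θ : E} (hθ : f.eval θ = 0) (D : Pt ℓ f →₀ ℤ) :
    (lc θ (xprod D) : E) = uval D θ := by
  rw [xprod, uval, Finsupp.prod, Finsupp.prod, map_prod, Units.coe_prod]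
  refine Finset.prod_congr rfl fun P _ => ?_
  rw [map_zpow, Units.val_zpow_eq_zpow_val]
  congr 1
  split_ifs with hP
  · rw [hP, (lc_spec hθ).2.2.1]
  · rw [(lc_spec hθ).2.1 P.x hP]

lemma R21_nrm_div (ζ : E) (hζ : ζ ^ ℓ = 1) (h0 : ζ ≠ 0) (h h' : (Fn ℓ f)ˣ) :
    nrm ζ hζ h0 (h / h') = nrm ζ hζ h0 h / nrm ζ hζ h0 h' := by
  rw [eq_div_iff_mul_eq', ← nrm_mul, div_mul_cancel]

lemma R21_nrm_sym (σ : Sym f) (ζ : E) (hζ : ζ ^ ℓ = 1) (h0 : ζ ≠ 0)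
    (hσ : (σ : E ≃+* E) ζ = ζ) (h : (Fn ℓ f)ˣ) :
    nrm ζ hζ h0 (symU σ h) = symU σ (nrm ζ hζ h0 h) := by
  have key : ∀ i, (rotU ζ hζ h0)^[i] (symU σ h) = symU σ ((rotU ζ hζ h0)^[i] h) := by
    intro i
    induction i with
    | zero => rfl
    | succ i ih =>
      rw [Function.iterate_succ_apply', Function.iterate_succ_apply', ih,
        symU_rotU σ ζ hζ h0 hσ]
  rw [nrm, nrm, map_prod]
  exact Finset.prod_congr rfl fun i _ => key i

theorem kummer_formula (ζ : E) (hζ : IsPrimitiveRoot ζ ℓ) (Q : Jac ℓ f) (D : Pt ℓ f →₀ ℤ)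
    (hQ : Q - zJ ζ hζ.pow_eq_one Q = cl D) :
    ∃ z : E → E, (∀ θ, f.eval θ = 0 → z θ ≠ 0 ∧
      z θ ^ ℓ = ((-1) ^ (ℓ + 1)) ^ atR D θ * uval D θ) ∧
      ∀ (σ : Sym f), (σ : E ≃+* E) ζ = ζ → D.mapDomain (Pt.sym σ) = D → ∀ n : E → ℤ,
        (∀ θ, f.eval θ = 0 →
          (σ : E ≃+* E) (z θ) = ζ ^ n ((σ : E ≃+* E) θ) * z ((σ : E ≃+* E) θ)) →
        symJ σ Q - Q = ram n := by
  have h0 : ζ ≠ 0 := hζ.ne_zero hG.prime.ne_zero
  obtain ⟨D₁, rfl⟩ := cl_surjective Q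
  rw [zJ_cl] at hQ
  have h1 : cl (D₁ - D₁.mapDomain (Pt.rot ζ hζ.pow_eq_one) - D) = 0 := by
    rw [map_sub, map_sub, hQ, sub_self]
  obtain ⟨w₀, hw₀⟩ := exists_div_of_cl_eq_zero _ h1
  obtain ⟨c, hc⟩ := exists_nrm_eq ζ hζ h0 w₀
  obtain ⟨w, hw, hn⟩ := R18_exists_normalized ζ hζ.pow_eq_one h0 w₀ c _ hc
  rw [hw₀] at hw hn
  have hx : nrm ζ hζ.pow_eq_one h0 w = (xprod D)⁻¹ := by
    rw [hn, R18_xprod_sub, R18_xprod_sub, xprod_rot, div_self', one_div]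
  have hord : ∀ θ, ordR θ w = -atR D θ := by
    intro θ
    rw [R21_ordR, hw, R21_atR_sub, R21_atR_sub, R21_atR_rot _ h0, sub_self, zero_sub]
  refine ⟨fun θ => ζ ^ atR D₁ θ * (lc θ w : E)⁻¹, fun θ hθ => ⟨?_, ?_⟩, ?_⟩
  · exact mul_ne_zero (zpow_ne_zero _ h0) (inv_ne_zero (lc θ w).ne_zero)
  · have h2 := R18_lc_nrm ζ hζ.pow_eq_one h0 hθ w
    rw [hx, map_inv, Units.val_inv_eq_inv_val, R21_lc_xprod hθ, hord, ← zpow_natCast (ζ ^ _),
      ← zpow_mul, mul_comm (-atR D θ), zpow_mul, zpow_natCast, R21_eps hζ hG.prime, zpow_neg] at h2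
    have h3 : (ζ ^ atR D₁ θ) ^ ℓ = 1 := by
      rw [← zpow_natCast, ← zpow_mul, mul_comm, zpow_mul, zpow_natCast, hζ.pow_eq_one, one_zpow]
    have hε0 : (((-1 : E) ^ (ℓ + 1)) ^ atR D θ) ≠ 0 :=
      zpow_ne_zero _ (pow_ne_zero _ (neg_ne_zero.2 one_ne_zero))
    have hε : (((-1 : E) ^ (ℓ + 1)) ^ atR D θ) * (((-1 : E) ^ (ℓ + 1)) ^ atR D θ) = 1 := by
      rw [← mul_zpow, ← pow_add, Even.neg_one_pow ⟨ℓ + 1, rfl⟩, one_zpow]
    have hu0 : uval D θ ≠ 0 := by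
      rw [← R21_lc_xprod hθ]
      exact (lc θ (xprod D)).ne_zero
    have hl0 : (lc θ w : E) ^ ℓ ≠ 0 := pow_ne_zero _ (lc θ w).ne_zero
    rw [mul_pow, h3, one_mul, inv_pow]
    rw [inv_eq_iff_eq_inv, mul_inv, h2, ← mul_assoc]
    have h4 : (((-1 : E) ^ (ℓ + 1)) ^ atR D θ)⁻¹ * (((-1 : E) ^ (ℓ + 1)) ^ atR D θ)⁻¹ = 1 := by
      rw [← mul_inv, hε, inv_one]
    rw [h4, one_mul]
  · intro σ hσζ hσD n hzn
    have hdiv : D₁.mapDomain (Pt.sym σ) - D₁ -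
        (D₁.mapDomain (Pt.sym σ) - D₁).mapDomain (Pt.rot ζ hζ.pow_eq_one) =
        div (symU σ w / w) := by
      rw [R18_div_div, div_symU, hw]
      have h5 : ∀ A B : Pt ℓ f →₀ ℤ, ∀ g : Pt ℓ f → Pt ℓ f,
          (A - B).mapDomain g = A.mapDomain g - B.mapDomain g := fun A B g =>
        map_sub (Finsupp.mapDomain.addMonoidHom g) A B
      rw [h5, h5, h5, hσD, ← Finsupp.mapDomain_comp, ← Finsupp.mapDomain_comp,
        R21_sym_rot σ ζ hζ.pow_eq_one hσζ]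
      abel
    have hnh : nrm ζ hζ.pow_eq_one h0 (symU σ w / w) = 1 := by
      rw [R21_nrm_div, R21_nrm_sym σ ζ _ h0 hσζ, hx, map_inv, symU_xprod, hσD, div_self']
    have hm := cl_eq_ram ζ hζ h0 (D₁.mapDomain (Pt.sym σ) - D₁) (symU σ w / w) hdiv hnh
      (fun θ => atR D₁ (((σ⁻¹ : Sym f) : E ≃+* E) θ) - n θ - atR D₁ θ) (by
        intro θ' hθ'
        obtain ⟨θ, rfl⟩ := (σ : E ≃+* E).surjective θ'
        have hθ : f.eval θ = 0 := by
          rw [R21_eval] at hθ'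
          exact (map_eq_zero_iff _ (σ : E ≃+* E).injective).1 hθ'
        have h6 := hzn θ hθ
        simp only at h6
        have h7 : (((σ⁻¹ : Sym f) : E ≃+* E)) ((σ : E ≃+* E) θ) = θ :=
          (σ : E ≃+* E).symm_apply_apply θ
        rw [map_mul, map_zpow₀, hσζ, map_inv₀] at h6
        rw [_root_.map_div, Units.val_div_eq_div_val, (lc_spec hθ).2.2.2.2.2 σ w, h7]
        have h8 : ((lc ((σ : E ≃+* E) θ) w : Eˣ) : E) ≠ 0 := (lc ((σ : E ≃+* E) θ) w).ne_zero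
        have h9 : (σ : E ≃+* E) (lc θ w : E) ≠ 0 :=
          (map_ne_zero_iff _ (σ : E ≃+* E).injective).2 (lc θ w).ne_zero
        have h10 : ∀ m : ℤ, ζ ^ m ≠ 0 := fun m => zpow_ne_zero m h0
        rw [zpow_sub₀ h0, zpow_sub₀ h0]
        have h11 := h10 (n ((σ : E ≃+* E) θ))
        have h12 := h10 (atR D₁ ((σ : E ≃+* E) θ))
        have h13 := h10 (atR D₁ θ)
        generalize ζ ^ n ((σ : E ≃+* E) θ) = N at *
        generalize ζ ^ atR D₁ ((σ : E ≃+* E) θ) = A at *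
        generalize ζ ^ atR D₁ θ = B at *
        generalize (σ : E ≃+* E) (lc θ w : E) = S at *
        generalize ((lc ((σ : E ≃+* E) θ) w : Eˣ) : E) = T at *
        field_simp at h6 ⊢
        linear_combination -h6)
    rw [symJ_cl, ← map_sub, hm]
    refine ram_congr _ _ fun θ' hθ' => ?_
    obtain ⟨θ, rfl⟩ := (σ : E ≃+* E).surjective θ'
    have hθ : f.eval θ = 0 := by
      rw [R21_eval] at hθ'
      exact (map_eq_zero_iff _ (σ : E ≃+* E).injective).1 hθ'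
    have h7 : (((σ⁻¹ : Sym f) : E ≃+* E)) ((σ : E ≃+* E) θ) = θ :=
      (σ : E ≃+* E).symm_apply_apply θ
    simp only [R21_atR_sub, R21_atR_sym σ D₁ hθ, h7]
    exact ⟨0, by ring⟩

end Pool.Agent.Lib.MP_89bcae_ag.Sup

end
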