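import Mathlib
import Pool.Agent.Lib.MP_89bcae_ag.Q.K025

/-!
# The trivial cocycles and the invariant Selmer cocycles

ROW G03 = the lemmas of this file (80-150 lines).
PROOFS. Trivial cocycles: `c n σ = σ A - A`, `ℓ^n A = 0`; sums, `Z A`, `γ A` (with
`σ γ A - γ A = γ (γ⁻¹ σ γ A - A)`). `act_galA_sub`: for a cocycle `c` and `h` in `Gal(Ω/L)`:
`(h c)(σ) = h c(h⁻¹ σ h) = c(σ h) - c(h) = c(σ) + σ c(h) - c(h)` (cocycle relation for
`h (h⁻¹ σ h) = σ h`), so `h c - c` is the coboundary of `A = c n h`, killed by `ℓ^n`.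
-/

open Polynomial IsDedekindDomain

open scoped Classical

namespace Pool.Agent.Lib.MP_89bcae_ag.Sup

universe u

variable {k F L Ω : Type u} [Field k] [Field F] [Algebra k F] [Field L] [Algebra F[X] L]
  [Field Ω] [Algebra L Ω] [IsAlgClosure k F] [IsFractionRing F[X] L] [IsAlgClosure L Ω]
  {ℓ : ℕ} {g D : k[X]} [hG : IsGood ℓ (cOver k F L Ω g D)]

/-- The trivial Tate cocycles. -/
def TTc (c : Coch ℓ k F L Ω g D) : Prop :=
  IsTateCocycle ℓ (curvePoly k F L g D) c ∧ IsTrivial ℓ (curvePoly k F L g D) c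

/-- The locally trivial Tate cocycles whose class is fixed by a power of each automorphism. -/
def WWc (c : Coch ℓ k F L Ω g D) : Prop :=
  IsTateCocycle ℓ (curvePoly k F L g D) c ∧ LTc c ∧
    ∀ γ : AutO k F L Ω, ∃ M : ℕ, 0 < M ∧ TTc (act (γ ^ M) c - c)

lemma TTc.zero : TTc (0 : Coch ℓ k F L Ω g D) := by
  refine ⟨IsTateCocycle.zero', fun n => ⟨0, smul_zero _, fun σ => ?_⟩⟩
  rw [map_zero, sub_zero]
  rfl

lemma TTc.add {c c' : Coch ℓ k F L Ω g D} (hc : TTc c) (hc' : TTc c') : TTc (c + c') := by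
  refine ⟨hc.1.add hc'.1, fun n => ?_⟩
  obtain ⟨A, hA, hcA⟩ := hc.2 n
  obtain ⟨B, hB, hcB⟩ := hc'.2 n
  refine ⟨A + B, by rw [smul_add, hA, hB, add_zero], fun σ => ?_⟩
  change c n σ + c' n σ = _
  rw [hcA σ, hcB σ, map_add]
  abel

lemma TTc.neg {c : Coch ℓ k F L Ω g D} (hc : TTc c) : TTc (-c) := by
  refine ⟨hc.1.neg, fun n => ?_⟩
  obtain ⟨A, hA, hcA⟩ := hc.2 n
  refine ⟨-A, by rw [smul_neg, hA, neg_zero], fun σ => ?_⟩
  change -(c n σ) = _
  rw [hcA σ, map_neg]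
  abel

lemma TTc.sub {c c' : Coch ℓ k F L Ω g D} (hc : TTc c) (hc' : TTc c') : TTc (c - c') := by
  rw [sub_eq_add_neg]
  exact hc.add hc'.neg

lemma TTc.zC {c : Coch ℓ k F L Ω g D} (hc : TTc c) (ζ : k) (hζ : (zA F L Ω ζ) ^ ℓ = 1) :
    TTc (Sup.zC ζ hζ c) := by
  refine ⟨hc.1.zC ζ hζ, fun n => ?_⟩
  obtain ⟨A, hA, hcA⟩ := hc.2 n
  refine ⟨zJ (zA F L Ω ζ) hζ A, by rw [← map_nsmul, hA, map_zero], fun σ => ?_⟩
  change zJ (zA F L Ω ζ) hζ (c n σ) = _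
  rw [hcA σ, map_sub, push_eq, push_eq, zJ_symJ]
  exact zA_fixed ζ (galA k F σ)

lemma TTc.act {c : Coch ℓ k F L Ω g D} (hc : TTc c) (γ : AutO k F L Ω) :
    TTc (Sup.act γ c) := by
  refine ⟨hc.1.act γ, fun n => ?_⟩
  obtain ⟨A, hA, hcA⟩ := hc.2 n
  refine ⟨symJ (toSym g D γ) A, by rw [← map_nsmul, hA, map_zero], fun σ => ?_⟩
  change symJ (toSym g D γ) (c n (conjG γ⁻¹ σ)) = _
  rw [hcA, map_sub, push_eq, push_eq, galA_conjG, ← symJ_mul, ← symJ_mul, ← map_mul, ← map_mul]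
  have h : γ * (γ⁻¹ * galA k F σ * γ⁻¹⁻¹) = galA k F σ * γ := by group
  rw [h]

lemma act_galA_sub {c : Coch ℓ k F L Ω g D}
    (hc : IsTateCocycle ℓ (curvePoly k F L g D) c) (h : Ω ≃ₐ[L] Ω) :
    TTc (act (galA k F h) c - c) := by
  refine ⟨?_, fun n => ?_⟩
  · rw [sub_eq_add_neg]
    exact (hc.act _).add hc.neg
  refine ⟨c n h, hc.pow_smul n h, fun σ => ?_⟩
  change symJ (toSym g D (galA k F h)) (c n (conjG (galA k F h)⁻¹ σ)) - c n σ = _
  have h1 : conjG (galA k F h : AutO k F L Ω)⁻¹ σ = h⁻¹ * σ * h := by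
    rw [← map_inv, conjG_galA, inv_inv]
  have h2 : h * (h⁻¹ * σ * h) = σ * h := by group
  have h3 := hc.cocycle n h (h⁻¹ * σ * h)
  rw [h2, hc.cocycle n σ h] at h3
  rw [h1, ← push_eq]
  rw [eq_comm, ← sub_eq_iff_eq_add'] at h3
  rw [← h3]
  abel

/-- If two automorphisms have the same restriction to `F`, they act in the same way on classes. -/
lemma act_sub_act_of_resF_eq {c : Coch ℓ k F L Ω g D}
    (hc : IsTateCocycle ℓ (curvePoly k F L g D) c) {γ γ' : AutO k F L Ω}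
    (h : resF γ = resF γ') : TTc (act γ c - act γ' c) := by
  obtain ⟨σ, hσ⟩ := exists_galA_of_resF_eq_one (γ'⁻¹ * γ) (by rw [map_mul, map_inv, h]; group)
  have h1 : γ = γ' * galA k F σ := by rw [hσ]; group
  have h2 : act γ c - act γ' c = act γ' (act (galA k F σ) c - c) := by
    rw [act_sub, ← act_mul, ← h1]
  rw [h2]
  exact (act_galA_sub hc σ).act γ'

lemma sum_zC_mem (ζ : k) (hζ : IsPrimitiveRoot (zA F L Ω ζ) ℓ) (c : Coch ℓ k F L Ω g D) :
    ∑ i ∈ Finset.range ℓ, (zC ζ hζ.pow_eq_one)^[i] c = 0 := by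
  have hit : ∀ (i : ℕ) (n : ℕ) (σ : Ω ≃ₐ[L] Ω), ((zC ζ hζ.pow_eq_one)^[i] c) n σ =
      (zJ (zA F L Ω ζ) hζ.pow_eq_one)^[i] (c n σ) := by
    intro i
    induction i with
    | zero =>
      intro n σ
      rfl
    | succ i ih =>
      intro n σ
      rw [Function.iterate_succ_apply', Function.iterate_succ_apply', ← ih n σ]
      rfl
  funext n σ
  rw [Finset.sum_apply, Finset.sum_apply]
  simp only [hit]
  exact sum_zJ _ hζ _

end Pool.Agent.Lib.MP_89bcae_ag.Sup
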