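import Mathlib
import Pool.Agent.Lib.MP_89bcae_ag.Q.K020
import Pool.Agent.Lib.MP_89bcae_ag.Q.K032

section

/-!
ROW L04 (120-220 lines). The roots of `g(x) = t` near a point `r` of the residue field.

`near v f r` is the set of the roots `θ` of `f` with `v (θ - r) < 1`.
PROOFS. (5) `∏_θ (X - θ) = g - t` has coefficients of absolute value `≤ 1`; reducing
coefficientwise, `∏_θ (X - res θ) = g - a` in `F[X]` (e.g.: both sides are monic polynomials over the
infinite field `F`; for `c` in `F` the value `g(c) - a` is the residue of `g(c) - t = ∏ (c - θ)`,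
which is `∏ (c - res θ)` (`residue_mul`)), so the multiplicity of `r` in `g - a` is the number of `θ`
with residue `r`.
(7) `aeval x g - t = ∏ (x - θ)` and `v (x - θ) = 1` if the residues of `x` and `θ` are different.
(6) Take `x = r` in (7): if `g(r) = a`, then `∏_{θ near r} v (r - θ) = v (a - t)`. That all the factors
are equal: write `g - a = (X - r)^μ G`, `G(r) ≠ 0`: `t - a = g(θ) - a = (θ - r)^μ G(θ)` and
`v (G(θ)) = 1`.
-/

open Polynomial

open scoped Classical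

namespace Pool.Agent.Lib.MP_89bcae_ag.Sup

universe u

variable {F M : Type u} [Field F] [Field M] [Algebra F M] {v : AbsoluteValue M ℝ} {a : F} {t : M}

/-- The roots of `f` with residue `r`. -/
noncomputable def near (v : AbsoluteValue M ℝ) (f : M[X]) (r : F) : Finset M :=
  (rts f).filter fun θ => v (θ - algebraMap F M r) < 1

variable [IsAlgClosed M]

omit [IsAlgClosed M] in
private lemma LocCtx.L04_sub_lt (h : LocCtx v a t) {x y : M} {c d : F}
    (hc : v (x - algebraMap F M c) < 1) (hd : v (y - algebraMap F M d) < 1) :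
    v (x - y - algebraMap F M (c - d)) < 1 := by
  have h1 : x - y - algebraMap F M (c - d)
      = (x - algebraMap F M c) + (-(y - algebraMap F M d)) := by
    rw [map_sub]; ring
  rw [h1]
  refine (h.nonarch _ _).trans_lt ?_
  rw [v.map_neg]
  exact max_lt hc hd

omit [IsAlgClosed M] in
private lemma LocCtx.L04_t (h : LocCtx v a t) : v (t - algebraMap F M a) < 1 := h.lt_one

omit [IsAlgClosed M] in
/-- Roots which are not near `r`. -/
lemma LocCtx.L04_not_near (h : LocCtx v a t) {g : F[X]} (hg : g.Monic)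
    (hm : g.natDegree ≠ 0) {r : F} {x θ : M}
    (hx : v (x - algebraMap F M r) < 1) (hθ : aeval θ g = t)
    (hn : ¬ v (θ - algebraMap F M r) < 1) : v (x - θ) = 1 := by
  obtain ⟨s, hs⟩ := h.residue θ (h.v_root_le hg hm hθ)
  have hrs : r - s ≠ 0 := by
    intro h0
    have : r = s := by linear_combination h0
    rw [this] at hn
    exact hn hs
  exact h.v_eq_one (h.L04_sub_lt hx hs) hrs

omit [IsAlgClosed M] in
private lemma L04_mem_rts {g : F[X]} (hg : g.Monic) (hm : g.natDegree ≠ 0) {d : M}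
    (hd : d ≠ 0) {θ : M} : θ ∈ rts (locPoly g t d) ↔ aeval θ g = t := by
  rw [mem_rts (locPoly_ne_zero hg hm hd), eval_locPoly_eq_zero hd]

omit [IsAlgClosed M] in
private lemma LocCtx.L04_prod (h : LocCtx v a t) (S : Finset M) (w : M → M) (ρ : M → F)
    (hρ : ∀ θ ∈ S, v (w θ - algebraMap F M (ρ θ)) < 1) :
    v (∏ θ ∈ S, w θ - algebraMap F M (∏ θ ∈ S, ρ θ)) < 1 := by
  classical
  induction S using Finset.induction_on with
  | empty => simp
  | insert b S hb ih =>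
    rw [Finset.prod_insert hb, Finset.prod_insert hb]
    exact h.residue_mul (hρ b (Finset.mem_insert_self b S))
      (ih fun θ hθ => hρ θ (Finset.mem_insert_of_mem hθ))

/-- (5) -/
lemma LocCtx.card_near (h : LocCtx v a t) {g : F[X]} (hg : g.Monic) (hm : g.natDegree ≠ 0) {d : M}
    (hd : d ≠ 0) (hs : (locPoly g t d).Separable) (r : F) :
    (near v (locPoly g t d) r).card = (g - C a).rootMultiplicity r := by
  haveI := h.alg
  haveI : Infinite F := IsAlgClosed.instInfinite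
  have hex : ∀ θ : M, ∃ c : F, v θ ≤ 1 → v (θ - algebraMap F M c) < 1 := by
    intro θ
    by_cases hθ : v θ ≤ 1
    · obtain ⟨c, hc⟩ := h.residue θ hθ
      exact ⟨c, fun _ => hc⟩
    · exact ⟨0, fun h' => absurd h' hθ⟩
  choose res hres using hex
  have hres' : ∀ θ ∈ rts (locPoly g t d), v (θ - algebraMap F M (res θ)) < 1 := by
    intro θ hθ
    exact hres θ (h.v_root_le hg hm ((L04_mem_rts hg hm hd).mp hθ))
  have hpoly : g - C a = (((rts (locPoly g t d)).val.map res).map (fun c => X - C c)).prod := by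
    apply Polynomial.funext
    intro c
    have h1 := eval_sub_eq_prod hg hm hd hs (algebraMap F M c)
    have h2 : v (aeval (algebraMap F M c) g - t - algebraMap F M (g.eval c - a)) < 1 := by
      apply h.L04_sub_lt _ h.lt_one
      rw [aeval_algebraMap_apply, Polynomial.aeval_def, Polynomial.eval₂_eq_eval_map,
        Algebra.algebraMap_self, Polynomial.map_id, sub_self, map_zero]
      exact one_pos
    have h3 : v (∏ θ ∈ rts (locPoly g t d), (algebraMap F M c - θ)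
        - algebraMap F M (∏ θ ∈ rts (locPoly g t d), (c - res θ))) < 1 := by
      apply h.L04_prod
      intro θ hθ
      apply h.L04_sub_lt _ (hres' θ hθ)
      rw [sub_self, map_zero]
      exact one_pos
    rw [← h1] at h3
    have h4 := h.residue_unique h2 h3
    rw [eval_sub, eval_C, h4, Multiset.map_map, Polynomial.eval_multiset_prod, Multiset.map_map]
    simp only [Function.comp_def, eval_sub, eval_X, eval_C]
    rfl
  rw [← Polynomial.count_roots, hpoly, Polynomial.roots_multiset_prod_X_sub_C,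
    Multiset.count_map, near, Finset.card_def, Finset.filter_val]
  congr 1
  apply Multiset.filter_congr
  intro θ hθ
  constructor
  · intro h1
    exact h.residue_unique h1 (hres' θ hθ)
  · intro h1
    rw [h1]
    exact hres' θ hθ

/-- (6) -/
lemma LocCtx.v_sub_pow (h : LocCtx v a t) {g : F[X]} (hg : g.Monic) (hm : g.natDegree ≠ 0) {d : M}
    (hd : d ≠ 0) (hs : (locPoly g t d).Separable) {r : F} {θ : M}
    (hθ : θ ∈ near v (locPoly g t d) r) :
    v (θ - algebraMap F M r) ^ (near v (locPoly g t d) r).card = v (t - algebraMap F M a) := by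
  rw [h.card_near hg hm hd hs r]
  rw [near, Finset.mem_filter] at hθ
  obtain ⟨hθ1, hθ2⟩ := hθ
  have hθ3 := (L04_mem_rts hg hm hd).mp hθ1
  have hne : g - C a ≠ 0 := by
    intro h0
    apply hm
    have : g = C a := by linear_combination h0
    rw [this, natDegree_C]
  obtain ⟨q, hq, hq'⟩ := Polynomial.exists_eq_pow_rootMultiplicity_mul_and_not_dvd (g - C a) hne r
  have hqr : q.eval r ≠ 0 := by
    intro h0
    exact hq' (Polynomial.dvd_iff_isRoot.mpr h0)
  have hv : v (aeval θ q) = 1 := h.v_eq_one (h.residue_eval hθ2 q) hqr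
  have h1 : t - algebraMap F M a = aeval θ (g - C a) := by
    rw [map_sub, hθ3, aeval_C]
  have h2 : aeval θ (g - C a)
      = (θ - algebraMap F M r) ^ rootMultiplicity r (g - C a) * aeval θ q := by
    conv_lhs => rw [hq]
    rw [map_mul, map_pow, map_sub (aeval θ) X (C r), aeval_X, aeval_C]
  rw [h1, h2, map_mul, map_pow, hv, mul_one]

/-- (7) -/
lemma LocCtx.prod_near (h : LocCtx v a t) {g : F[X]} (hg : g.Monic) (hm : g.natDegree ≠ 0) {d : M}
    (hd : d ≠ 0) (hs : (locPoly g t d).Separable) {r : F} {x : M}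
    (hx : v (x - algebraMap F M r) < 1) :
    v (aeval x g - t) = ∏ θ ∈ near v (locPoly g t d) r, v (x - θ) := by
  rw [eval_sub_eq_prod hg hm hd hs x, map_prod]
  symm
  apply Finset.prod_subset (Finset.filter_subset _ _)
  intro θ hθ hn
  refine h.L04_not_near hg hm hx ((L04_mem_rts hg hm hd).mp hθ) ?_
  intro h1
  exact hn (Finset.mem_filter.mpr ⟨hθ, h1⟩)

/-- Roots which are not near `r`. -/
lemma LocCtx.v_sub_of_not_near (h : LocCtx v a t) {g : F[X]} (hg : g.Monic)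
    (hm : g.natDegree ≠ 0) {d : M} (hd : d ≠ 0) {r : F} {x θ : M}
    (hx : v (x - algebraMap F M r) < 1) (hθ : aeval θ g = t)
    (hn : ¬ v (θ - algebraMap F M r) < 1) : v (x - θ) = 1 :=
  h.L04_not_near hg hm hx hθ hn

/-- (9) -/
lemma LocCtx.v_derivative (h : LocCtx v a t) {g : F[X]} (hg : g.Monic) (hm : g.natDegree ≠ 0)
    {d : M} (hd : d ≠ 0) (hs : (locPoly g t d).Separable) {r : F} {θ : M}
    (hθ : θ ∈ near v (locPoly g t d) r) :
    v ((derivative (locPoly g t d)).eval θ) =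
      (v d)⁻¹ * ∏ θ' ∈ (near v (locPoly g t d) r).erase θ, v (θ - θ') := by
  have hθ' := hθ
  rw [near, Finset.mem_filter] at hθ'
  obtain ⟨hθ1, hθ2⟩ := hθ'
  rw [derivative_locPoly_eval hg hm hd hs hθ1, map_mul, map_prod, map_inv₀]
  congr 1
  symm
  apply Finset.prod_subset (Finset.erase_subset_erase _ (Finset.filter_subset _ _))
  intro θ' hθ' hn
  rw [Finset.mem_erase] at hθ'
  refine h.L04_not_near hg hm hθ2 ((L04_mem_rts hg hm hd).mp hθ'.2) ?_
  intro h1
  exact hn (Finset.mem_erase.mpr ⟨hθ'.1, Finset.mem_filter.mpr ⟨hθ'.2, h1⟩⟩)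

end Pool.Agent.Lib.MP_89bcae_ag.Sup

end

section

/-!
ROW L11 (120-220 lines). The group `Γ = Aut(M/K)`: fixed elements, and the roots of `g(x) = t` with the
same residue are conjugate.

PROOFS. `galSym` is clear: `σ` fixes the coefficients of `f`.
`LocGrp`: the fixed elements of `Aut(M/K)`, `M` an algebraic closure of `K`, are purely inseparable
over `K`: if `x` is fixed, all roots of its minimal polynomial are conjugates of `x` (normality), so
equal to `x`, so `x ^ p^s ∈ K` for some `s`, where `p` is the characteristic exponent (Mathlib: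
`IsPurelyInseparable`, `perfectClosure`, `minpoly.natSepDegree_eq_one_iff...`,
`mem_perfectClosure_iff`). So `v(x)^{p^s}` is an integral power of `ϖ = v (t - a)`.
Conjugacy: let `θ`, `θ'` be roots near `r`, `μ` the number of the roots near `r`, `q` the minimal
polynomial of `θ` over `K`; it divides `g(x) - t` (coefficients in `K`), so it is separable and all its
roots in `M` are conjugates of `θ` under `Aut(M/K)` (`IsConjRoot`, `isConjRoot_iff_exists_algEquiv`), so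
they are near `r` (`σ` preserves `v` and fixes `r`). By `v_sub_pow`, `v (q(r)) = ∏ v (r - θ_i)` satisfies
`v (q(r))^μ = ϖ^{deg q}`, and `q(r)` is a nonzero element of `K` (`r` comes from `K`), so
`v (q(r)) = ϖ^i`, `i μ = deg q ≤ μ`, `i ≥ 1` (as `deg q ≥ 1`): `deg q = μ` and all the `μ` roots near
`r` are roots of `q`.
-/

open Polynomial

open scoped Classical

namespace Pool.Agent.Lib.MP_89bcae_ag.Sup

universe u

variable {F K M : Type u} [Field F] [Field K] [Field M] [Algebra F M] [Algebra K M]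

/-- The automorphisms of `M` over `K` fix the coefficients of a polynomial over `K`. -/
def galSym {f₀ : K[X]} {f : M[X]} (hf : f₀.map (algebraMap K M) = f) :
    (M ≃ₐ[K] M) →* Sym f where
  toFun σ := ⟨(σ : M ≃+* M), by
    rw [mem_Sym, ← hf, Polynomial.map_map]
    congr 1
    ext x
    exact σ.commutes x⟩
  map_one' := by
    apply Subtype.ext
    rfl
  map_mul' σ τ := by
    apply Subtype.ext
    rfl

lemma galSym_apply {f₀ : K[X]} {f : M[X]} (hf : f₀.map (algebraMap K M) = f) (σ : M ≃ₐ[K] M)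
    (x : M) : ((galSym hf σ : Sym f) : M ≃+* M) x = σ x := rfl

private lemma L11_pow_mem [IsAlgClosure K M] {x : M} (hx : ∀ σ : M ≃ₐ[K] M, σ x = x) :
    ∃ n : ℕ, x ^ (ringExpChar K) ^ n ∈ (algebraMap K M).range := by
  have hN : Normal K M := IsAlgClosure.normal K M
  have hA : IsAlgClosed M := IsAlgClosure.isAlgClosed K
  have hint : IsIntegral K x := (IsAlgClosure.isAlgebraic.isAlgebraic x).isIntegral
  rw [← minpoly.natSepDegree_eq_one_iff_pow_mem (ringExpChar K),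
    natSepDegree_eq_of_isAlgClosed M, Finset.card_eq_one]
  refine ⟨x, ?_⟩
  ext y
  rw [Multiset.mem_toFinset, Finset.mem_singleton, ← isConjRoot_iff_mem_minpoly_aroots hint]
  constructor
  · intro h
    obtain ⟨σ, hσ⟩ := h.exists_algEquiv
    have h2 := hx σ.symm
    rw [← hσ, AlgEquiv.symm_apply_apply] at h2
    rw [h2, hσ]
  · rintro rfl
    exact IsConjRoot.refl

variable {v : AbsoluteValue M ℝ} {a : F} {t : M} [IsAlgClosure K M]

theorem LocCtx.locGrp (h : LocCtx v a t) {f₀ : K[X]} {f : M[X]}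
    (hf : f₀.map (algebraMap K M) = f) (hinv : ∀ (σ : M ≃ₐ[K] M) x, v (σ x) = v x)
    (hval : ∀ x : K, x ≠ 0 → ∃ i : ℤ, v (algebraMap K M x) = v (t - algebraMap F M a) ^ i)
    (hF : ∀ c : F, ∃ x : K, algebraMap K M x = algebraMap F M c)
    (ht : ∃ x : K, algebraMap K M x = t) :
    LocGrp (ringExpChar K) F v t (v (t - algebraMap F M a)) (galSym hf).range where
  pos := v.pos (sub_ne_zero.2 h.ne)
  lt_one := h.lt_one
  inv := by
    rintro _ ⟨τ, rfl⟩ x
    exact hinv τ x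
  fix := by
    rintro _ ⟨τ, rfl⟩ c
    obtain ⟨x, hx⟩ := hF c
    rw [galSym_apply, ← hx, τ.commutes]
  fixt := by
    rintro _ ⟨τ, rfl⟩
    obtain ⟨x, hx⟩ := ht
    rw [galSym_apply, ← hx, τ.commutes]
  disc := by
    intro x hx0 hx
    obtain ⟨n, y, hy⟩ := L11_pow_mem (K := K) (x := x) (fun σ => by
      have := hx (galSym hf σ) ⟨σ, rfl⟩
      rwa [galSym_apply] at this)
    have hy0 : y ≠ 0 := by
      rintro rfl
      rw [map_zero] at hy
      exact pow_ne_zero _ hx0 hy.symm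
    obtain ⟨i, hi⟩ := hval y hy0
    refine ⟨n, i, ?_⟩
    rw [← map_pow, ← hy, hi]

theorem LocCtx.exists_conj_near (h : LocCtx v a t) {g : F[X]} (hg : g.Monic)
    (hm : g.natDegree ≠ 0) {d : M} (hd : d ≠ 0) (hs : (locPoly g t d).Separable)
    (hinv : ∀ (σ : M ≃ₐ[K] M) x, v (σ x) = v x)
    (hval : ∀ x : K, x ≠ 0 → ∃ i : ℤ, v (algebraMap K M x) = v (t - algebraMap F M a) ^ i)
    (hF : ∀ c : F, ∃ x : K, algebraMap K M x = algebraMap F M c)
    (ht : ∃ x : K, algebraMap K M x = t) {r : F} {θ θ' : M}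
    (hθ : θ ∈ near v (locPoly g t d) r) (hθ' : θ' ∈ near v (locPoly g t d) r) :
    ∃ σ : M ≃ₐ[K] M, σ θ = θ' := by
  have hN : Normal K M := IsAlgClosure.normal K M
  have hA : IsAlgClosed M := IsAlgClosure.isAlgClosed K
  have hint : IsIntegral K θ := (IsAlgClosure.isAlgebraic.isAlgebraic θ).isIntegral
  have hf0 : locPoly g t d ≠ 0 := locPoly_ne_zero hg hm hd
  have hϖ0 : 0 < v (t - algebraMap F M a) := v.pos (sub_ne_zero.2 h.ne)
  obtain ⟨ϖ, hϖ⟩ : ∃ ϖ, ϖ = v (t - algebraMap F M a) := ⟨_, rfl⟩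
  have hmemN : ∀ {x : M}, x ∈ near v (locPoly g t d) r ↔
      (locPoly g t d).eval x = 0 ∧ v (x - algebraMap F M r) < 1 := by
    intro x
    rw [near, Finset.mem_filter, mem_rts hf0]
  -- the polynomial over `K`
  have hlift : g.map (algebraMap F M) - C t ∈ Polynomial.lifts (algebraMap K M) := by
    rw [Polynomial.lifts_iff_coeff_lifts]
    intro n
    rw [coeff_sub, coeff_map, coeff_C]
    obtain ⟨x, hx⟩ := hF (g.coeff n)
    obtain ⟨y, hy⟩ := ht
    split_ifs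
    · exact ⟨x - y, by rw [map_sub, hx, hy]⟩
    · exact ⟨x, by rw [hx, sub_zero]⟩
  rw [Polynomial.mem_lifts] at hlift
  obtain ⟨P, hP⟩ := hlift
  have hevP : ∀ x : M, aeval x P = aeval x g - t := by
    intro x
    rw [aeval_def, ← eval_map, hP, eval_sub, eval_map, ← aeval_def, eval_C]
  have hqP : minpoly K θ ∣ P := by
    refine minpoly.dvd K θ ?_
    rw [hevP, sub_eq_zero]
    exact (eval_locPoly_eq_zero hd).1 (hmemN.1 hθ).1
  have hqf : (minpoly K θ).map (algebraMap K M) ∣ locPoly g t d := by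
    have h1 := Polynomial.map_dvd (algebraMap K M) hqP
    rw [hP] at h1
    exact h1.mul_left _
  have hqs : ((minpoly K θ).map (algebraMap K M)).Separable := hs.of_dvd hqf
  have hq0 : (minpoly K θ).map (algebraMap K M) ≠ 0 := hqs.ne_zero
  have hqm : ((minpoly K θ).map (algebraMap K M)).Monic := (minpoly.monic hint).map _
  obtain ⟨R, hR⟩ : ∃ R, R = ((minpoly K θ).map (algebraMap K M)).roots.toFinset := ⟨_, rfl⟩
  have hRm : ∀ {x : M}, x ∈ R ↔ IsConjRoot K θ x := by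
    intro x
    rw [hR, Multiset.mem_toFinset, isConjRoot_iff_mem_minpoly_aroots hint]
  have hRc : R.card = (minpoly K θ).natDegree := by
    rw [hR, Multiset.toFinset_card_of_nodup (nodup_roots hqs), ← natDegree_map (algebraMap K M)]
    exact (splits_iff_card_roots.1 (IsAlgClosed.splits _))
  have hRN : R ⊆ near v (locPoly g t d) r := by
    intro x hx
    rw [hRm] at hx
    have hx1 : (locPoly g t d).eval x = 0 := by
      have h1 : ((minpoly K θ).map (algebraMap K M)).eval x = 0 := by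
        rw [eval_map, ← aeval_def]
        exact hx.aeval_eq_zero
      obtain ⟨k, hk⟩ := hqf
      rw [hk, eval_mul, h1, zero_mul]
    obtain ⟨σ, hσ⟩ := hx.exists_algEquiv
    obtain ⟨y, hy⟩ := hF r
    refine hmemN.2 ⟨hx1, ?_⟩
    rw [← hinv σ, map_sub, hσ, ← hy, σ.commutes, hy]
    exact (hmemN.1 hθ).2
  -- the value of `q(r)`
  obtain ⟨y, hy⟩ := hF r
  have hqr : algebraMap K M ((minpoly K θ).eval y) = ∏ x ∈ R, (algebraMap F M r - x) := by
    have h1 : (minpoly K θ).map (algebraMap K M) = ∏ x ∈ R, (X - C x) := by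
      have h2 : ((minpoly K θ).map (algebraMap K M)) =
          (((minpoly K θ).map (algebraMap K M)).roots.map (fun x => X - C x)).prod :=
        (IsAlgClosed.splits _).eq_prod_roots_of_monic hqm
      rw [hR, Finset.prod_eq_multiset_prod, Multiset.toFinset_val,
        Multiset.dedup_eq_self.2 (nodup_roots hqs)]
      exact h2
    have h3 : algebraMap K M ((minpoly K θ).eval y) =
        ((minpoly K θ).map (algebraMap K M)).eval (algebraMap F M r) := by
      rw [← hy, eval_map, eval₂_at_apply]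
    rw [h3, h1, eval_prod]
    simp only [eval_sub, eval_X, eval_C]
  have hpow : v (algebraMap K M ((minpoly K θ).eval y)) ^ (near v (locPoly g t d) r).card =
      ϖ ^ (minpoly K θ).natDegree := by
    rw [hqr, map_prod, ← Finset.prod_pow, ← hRc]
    rw [Finset.prod_congr rfl (g := fun _ => ϖ), Finset.prod_const]
    intro x hx
    rw [v.map_sub, hϖ]
    exact h.v_sub_pow hg hm hd hs (hRN hx)
  have hϖ0' : 0 < ϖ := hϖ ▸ hϖ0
  have hϖ1 : ϖ < 1 := hϖ ▸ h.lt_one
  have hμ : 0 < (near v (locPoly g t d) r).card := Finset.card_pos.2 ⟨θ, hθ⟩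
  have hne : (minpoly K θ).eval y ≠ 0 := by
    intro h0
    rw [h0, map_zero, map_zero, zero_pow hμ.ne'] at hpow
    exact (pow_pos hϖ0' _).ne hpow
  obtain ⟨i, hi⟩ := hval _ hne
  rw [hi, ← hϖ, ← zpow_natCast, ← zpow_mul, ← zpow_natCast] at hpow
  have hinj := zpow_right_injective₀ hϖ0' hϖ1.ne hpow
  have hdeg : 0 < (minpoly K θ).natDegree := minpoly.natDegree_pos hint
  have hle : R.card ≤ (near v (locPoly g t d) r).card := Finset.card_le_card hRN
  have hi1 : 1 ≤ i := by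
    by_contra hcon
    push Not at hcon
    have h1 : i * ((near v (locPoly g t d) r).card : ℤ) ≤ 0 :=
      mul_nonpos_of_nonpos_of_nonneg (by linarith) (by positivity)
    rw [hinj] at h1
    have : (0 : ℤ) < (minpoly K θ).natDegree := by exact_mod_cast hdeg
    linarith
  have hge : (near v (locPoly g t d) r).card ≤ R.card := by
    rw [hRc]
    have h1 : ((near v (locPoly g t d) r).card : ℤ) ≤ i * (near v (locPoly g t d) r).card :=
      le_mul_of_one_le_left (by positivity) hi1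
    rw [hinj] at h1
    exact_mod_cast h1
  have hReq : R = near v (locPoly g t d) r := Finset.eq_of_subset_of_card_le hRN hge
  rw [← hReq, hRm] at hθ'
  exact hθ'.symm.exists_algEquiv

end Pool.Agent.Lib.MP_89bcae_ag.Sup

end

section

/-!
ROW R20 (100-200 lines). A class fixed by a set of automorphisms contains a divisor fixed by them.

PROOF. Every class contains an effective divisor: `-[P] = ∑_{0<i<ℓ} [P.rot^i]` by
`cl (div (x - P.x)) = 0` and `div_xs`, so negative coefficients can be replaced by positive ones.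
Let `D` be an effective divisor of minimal degree (`dg`) in the class. It is the only one: let `D'`
be another effective divisor of the same degree in the class, `D - D' = div h` (R08). Then
`dg (div h) = 0`, so by R13 there is a constant `c` with `h = c`, whence `D = D'`, or
`w = h - c ≠ 0` with `dg (div w) < 0`; then `D' + div w` is effective: `ord_P w ≥ min (ord_P h, 0)`
(`ord_add` with `u = h`, `v = -c`; if `c = 0` then `w = h`) and
`ord_P h = D(P) - D'(P) ≥ -D'(P)`, `0 ≥ -D'(P)`; it is in the same class and has smaller degree: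
contradiction. For `σ` in `Γ`: `D.mapDomain (Pt.sym σ)` is effective of the same degree, and its
class is `symJ σ x = x`, so it is equal to `D`.
-/

open Polynomial IsDedekindDomain

open scoped Classical

namespace Pool.Agent.Lib.MP_89bcae_ag.Sup

universe u

variable {ℓ : ℕ} {E : Type u} [Field E] {f : E[X]} [hG : IsGood ℓ f]

omit hG in
lemma r20_dg_add (D D' : Pt ℓ f →₀ ℤ) : dg (D + D') = dg D + dg D' :=
  Finsupp.sum_add_index' (fun _ => rfl) fun _ _ _ => rfl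

omit hG in
lemma r20_dg_nonneg (D : Pt ℓ f →₀ ℤ) (hD : ∀ P, 0 ≤ D P) : 0 ≤ dg D :=
  Finset.sum_nonneg fun P _ => hD P

omit hG in
lemma r20_mapDomain_nonneg (D : Pt ℓ f →₀ ℤ) (hD : ∀ P, 0 ≤ D P) (g : Pt ℓ f → Pt ℓ f) :
    ∀ P, 0 ≤ D.mapDomain g P := by
  intro P
  rw [Finsupp.mapDomain, Finsupp.sum_apply]
  refine Finset.sum_nonneg fun Q _ => ?_
  change 0 ≤ (Finsupp.single (g Q) (D Q) : Pt ℓ f →₀ ℤ) P
  rw [Finsupp.single_apply]
  split_ifs
  · exact hD Q
  · exact le_rfl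

omit hG in
lemma r20_dg_mapDomain (D : Pt ℓ f →₀ ℤ) (g : Pt ℓ f → Pt ℓ f) : dg (D.mapDomain g) = dg D :=
  Finsupp.sum_mapDomain_index (fun _ => rfl) fun _ _ _ => rfl

lemma r20_exists_effective (ζ : E) (hζ : IsPrimitiveRoot ζ ℓ) (D : Pt ℓ f →₀ ℤ) :
    ∃ D' : Pt ℓ f →₀ ℤ, (∀ P, 0 ≤ D' P) ∧ cl D' = cl D := by
  induction D using Finsupp.induction_linear with
  | zero => exact ⟨0, fun _ => le_rfl, rfl⟩
  | add D₁ D₂ h₁ h₂ =>
    obtain ⟨D₁', h₁, h₁'⟩ := h₁
    obtain ⟨D₂', h₂, h₂'⟩ := h₂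
    refine ⟨D₁' + D₂', fun P => add_nonneg (h₁ P) (h₂ P), ?_⟩
    rw [map_add, map_add, h₁', h₂']
  | single P n =>
    rcases le_or_gt 0 n with hn | hn
    · refine ⟨Finsupp.single P n, fun Q => ?_, rfl⟩
      rw [Finsupp.single_apply]
      split_ifs
      · exact hn
      · exact le_rfl
    · refine ⟨Finsupp.single P n + (-n) • div (xs P.x : (Fn ℓ f)ˣ), fun Q => ?_, ?_⟩
      · have hx : (Finsupp.single P 1 : Pt ℓ f →₀ ℤ) Q ≤ div (xs P.x : (Fn ℓ f)ˣ) Q := by
          rw [div_xs ζ hζ P, Finsupp.finsetSum_apply]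
          have h0 : 0 ∈ Finset.range ℓ := Finset.mem_range.2 hG.prime.pos
          refine Finset.single_le_sum (f := fun i =>
            (Finsupp.single ((Pt.rot ζ hζ.pow_eq_one)^[i] P) 1 : Pt ℓ f →₀ ℤ) Q)
            (fun i _ => ?_) h0
          rw [Finsupp.single_apply]
          split_ifs <;> norm_num
        rw [Finsupp.add_apply, Finsupp.smul_apply, smul_eq_mul]
        have hs : (Finsupp.single P n : Pt ℓ f →₀ ℤ) Q =
            n * (Finsupp.single P 1 : Pt ℓ f →₀ ℤ) Q := by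
          rw [Finsupp.single_apply, Finsupp.single_apply]
          split_ifs <;> simp
        rw [hs]
        nlinarith
      · rw [map_add, map_zsmul, cl_div, smul_zero, add_zero]

lemma r20_unique (ζ : E) (hζ : IsPrimitiveRoot ζ ℓ) (D D' : Pt ℓ f →₀ ℤ)
    (h : ∀ P, 0 ≤ D P) (h' : ∀ P, 0 ≤ D' P) (hc : cl D = cl D') (hd : dg D = dg D')
    (hmin : ∀ D'' : Pt ℓ f →₀ ℤ, (∀ P, 0 ≤ D'' P) → cl D'' = cl D' → dg D' ≤ dg D'') :
    D = D' := by
  obtain ⟨u, hu⟩ := exists_div_of_cl_eq_zero (D - D') (by rw [map_sub, hc, sub_self])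
  have hdg : dg (div u) = 0 := by
    have := r20_dg_add (D - D') D'
    rw [sub_add_cancel, hd] at this
    rw [hu]
    linarith
  have hord : ∀ P, ord P u = D P - D' P := fun P => by
    rw [← div_apply, hu, Finsupp.sub_apply]
  obtain ⟨c, hc' | ⟨w, hw, hwd⟩⟩ := exists_const_of_dg_eq_zero ζ hζ u hdg
  · have hc0 : c ≠ 0 := by
      rintro rfl
      exact u.ne_zero (by rw [hc', map_zero])
    have hu' : u = cstU (Units.mk0 c hc0) := Units.ext hc'
    rw [hu', div_cstU] at hu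
    exact (sub_eq_zero.1 hu.symm)
  · exfalso
    have heff : ∀ P, 0 ≤ (D' + div w) P := by
      intro P
      rw [Finsupp.add_apply, div_apply]
      by_cases hc0 : c = 0
      · have hwu : w = u := Units.ext (by rw [hw, hc0, map_zero, sub_zero])
        rw [hwu, hord]
        linarith [h P]
      · have := ord_add P u (cstU (Units.mk0 (-c) (neg_ne_zero.2 hc0))) w (by
          rw [hw, sub_eq_add_neg, ← map_neg]
          rfl)
        rw [ord_cstU, hord] at this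
        rcases min_le_iff.1 this with h1 | h1
        · linarith [h P]
        · linarith [h' P]
    have h1 := hmin (D' + div w) heff (by rw [map_add, cl_div, add_zero])
    rw [r20_dg_add] at h1
    linarith

lemma exists_stable (ζ : E) (hζ : IsPrimitiveRoot ζ ℓ) (Γ : Set (Sym f)) (x : Jac ℓ f)
    (hx : ∀ σ ∈ Γ, symJ σ x = x) :
    ∃ D : Pt ℓ f →₀ ℤ, cl D = x ∧ ∀ σ ∈ Γ, D.mapDomain (Pt.sym σ) = D := by
  obtain ⟨D₀, hD₀⟩ := cl_surjective x
  have hex : ∃ n : ℕ, ∃ D : Pt ℓ f →₀ ℤ, (∀ P, 0 ≤ D P) ∧ cl D = x ∧ dg D = n := by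
    obtain ⟨D, h1, h2⟩ := r20_exists_effective ζ hζ D₀
    exact ⟨(dg D).toNat, D, h1, h2.trans hD₀, (Int.toNat_of_nonneg (r20_dg_nonneg D h1)).symm⟩
  obtain ⟨D, h1, h2, h3⟩ := Nat.find_spec hex
  refine ⟨D, h2, fun σ hσ => ?_⟩
  refine r20_unique ζ hζ _ _ (r20_mapDomain_nonneg D h1 _) h1 ?_ (r20_dg_mapDomain _ _) ?_
  · rw [← symJ_cl, h2, hx σ hσ]
  · intro D'' h1'' h2''
    have := Nat.find_min' hex ⟨D'', h1'', h2''.trans h2,
      (Int.toNat_of_nonneg (r20_dg_nonneg D'' h1'')).symm⟩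
    have h0 := r20_dg_nonneg D'' h1''
    omega

end Pool.Agent.Lib.MP_89bcae_ag.Sup

end

section

/-!
ROW U01 (60-120 lines). `uval D θ = ∏_P (θ - x(P))^{D(P)}` (regularized): equivariance, examples.

PROOF. `Finsupp.prod_mapDomain_index` or reindexing the product over the support along the bijection
`Pt.sym σ` of the points: `(P.sym σ).x = σ P.x`, `σ (f'(θ)) = f'(σ θ)` since `σ` fixes the coefficients
of `f`, `P.x = θ ↔ (P.sym σ).x = σ θ`. For `ramDiv e` the support is in the set of the points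
`(θ', 0)`, `θ'` root of `f` (`f.roots.toFinset`; the point `(θ, 0)` exists for each root).
-/

open Polynomial

open scoped Classical

namespace Pool.Agent.Lib.MP_89bcae_ag.Sup

universe u

variable {ℓ : ℕ} {E : Type u} [Field E] {f : E[X]} [hG : IsGood ℓ f]

omit hG in
lemma U01_deriv_ne (hs : f.Separable) {θ : E} (hθ : f.eval θ = 0) :
    (derivative f).eval θ ≠ 0 := by
  obtain ⟨a, b, hab⟩ := hs
  intro h0
  have h := congrArg (eval θ) hab
  simp [hθ, h0] at h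

omit hG in
lemma U01_sym_inj (σ : Sym f) : Function.Injective (Pt.sym (ℓ := ℓ) σ) := by
  intro P Q h
  ext
  · exact (σ : E ≃+* E).injective (congrArg Pt.x h)
  · exact (σ : E ≃+* E).injective (congrArg Pt.y h)

omit hG in
lemma U01_eval_sym (σ : Sym f) (p : E[X]) (hp : p.map ((σ : E ≃+* E) : E →+* E) = p) (θ : E) :
    p.eval ((σ : E ≃+* E) θ) = (σ : E ≃+* E) (p.eval θ) := by
  have h := Polynomial.eval₂_hom ((σ : E ≃+* E) : E →+* E) θ (p := p)
  rw [← Polynomial.eval_map, hp] at h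
  exact h

omit hG in
lemma U01_map_deriv (σ : Sym f) :
    (derivative f).map ((σ : E ≃+* E) : E →+* E) = derivative f := by
  rw [← Polynomial.derivative_map]
  exact congrArg _ σ.2

lemma uval_ne_zero (D : Pt ℓ f →₀ ℤ) {θ : E} (hθ : f.eval θ = 0) : uval D θ ≠ 0 := by
  unfold uval
  rw [Finsupp.prod, Finset.prod_ne_zero_iff]
  intro P _
  apply zpow_ne_zero
  split_ifs with h
  · exact inv_ne_zero (U01_deriv_ne (IsGood.separable ℓ) hθ)
  · exact sub_ne_zero.mpr (Ne.symm h)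

lemma sym_uval (σ : Sym f) (D : Pt ℓ f →₀ ℤ) (hD : D.mapDomain (Pt.sym σ) = D) (θ : E) :
    (σ : E ≃+* E) (uval D θ) = uval D ((σ : E ≃+* E) θ) := by
  conv_rhs => rw [← hD]
  unfold uval
  rw [Finsupp.prod_mapDomain_index_inj (U01_sym_inj σ), Finsupp.prod, Finsupp.prod, map_prod]
  apply Finset.prod_congr rfl
  intro P _
  rw [map_zpow₀]
  congr 1
  have hx : (P.sym σ).x = (σ : E ≃+* E) P.x := rfl
  by_cases h : P.x = θ
  · rw [if_pos h, if_pos (by rw [hx, h]), map_inv₀, U01_eval_sym σ _ (U01_map_deriv σ)]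
  · rw [if_neg h, if_neg (by
      rw [hx]
      exact fun h' => h ((σ : E ≃+* E).injective h')), map_sub, hx]

lemma eval_sym_eq_zero (σ : Sym f) {θ : E} : f.eval ((σ : E ≃+* E) θ) = 0 ↔ f.eval θ = 0 := by
  rw [U01_eval_sym σ f σ.2]
  exact map_eq_zero_iff _ (σ : E ≃+* E).injective

lemma sym_atR (σ : Sym f) (D : Pt ℓ f →₀ ℤ) (hD : D.mapDomain (Pt.sym σ) = D) (θ : E) :
    atR D ((σ : E ≃+* E) θ) = atR D θ := by
  have h0 : f.eval ((σ : E ≃+* E) θ) = 0 ↔ f.eval θ = 0 := by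
    rw [U01_eval_sym σ f σ.2]
    exact map_eq_zero_iff _ (σ : E ≃+* E).injective
  unfold atR
  by_cases hθ : f.eval θ = 0
  · rw [dif_pos hθ, dif_pos (h0.mpr hθ)]
    have hP : (0 : E) ^ ℓ = f.eval θ := by rw [zero_pow hG.prime.ne_zero, hθ]
    have e : (⟨(σ : E ≃+* E) θ, 0, by rw [zero_pow hG.prime.ne_zero, h0.mpr hθ]⟩ : Pt ℓ f)
        = Pt.sym σ ⟨θ, 0, hP⟩ := by
      ext
      · rfl
      · exact (map_zero ((σ : E ≃+* E) : E →+* E)).symm
    rw [e]
    conv_lhs => rw [← hD]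
    rw [Finsupp.mapDomain_apply (U01_sym_inj σ)]
  · rw [dif_neg hθ, dif_neg (fun h => hθ (h0.mp h))]

lemma atR_ramDiv (e : E → ℤ) {θ : E} (hθ : f.eval θ = 0) :
    atR (ramDiv e : Pt ℓ f →₀ ℤ) θ = e θ := by
  unfold atR
  rw [dif_pos hθ, ramDiv_apply, if_pos rfl]

lemma uval_ramDiv (e : E → ℤ) {θ : E} (hθ : f.eval θ = 0) :
    uval (ramDiv e : Pt ℓ f →₀ ℤ) θ = ((derivative f).eval θ)⁻¹ ^ e θ *
      ∏ θ' ∈ f.roots.toFinset.erase θ, (θ - θ') ^ e θ' := by
  have hf0 : f ≠ 0 := (IsGood.separable ℓ (f := f)).ne_zero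
  have hr : ∀ t : E, t ∈ f.roots.toFinset ↔ f.eval t = 0 := by
    intro t
    rw [Multiset.mem_toFinset, mem_roots hf0, IsRoot.def]
  let S : Finset (Pt ℓ f) := f.roots.toFinset.attach.map
    ⟨fun t => ⟨t.1, 0, by rw [zero_pow hG.prime.ne_zero, (hr t.1).mp t.2]⟩,
      fun a b h => Subtype.ext (congrArg Pt.x h)⟩
  have hS : (ramDiv e : Pt ℓ f →₀ ℤ).support ⊆ S := by
    intro P hP
    rw [Finsupp.mem_support_iff, ramDiv_apply] at hP
    have hy : P.y = 0 := by
      by_contra h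
      exact hP (if_neg h)
    have hx : f.eval P.x = 0 := by rw [← P.eq, hy, zero_pow hG.prime.ne_zero]
    refine Finset.mem_map.mpr ⟨⟨P.x, (hr _).mpr hx⟩, Finset.mem_attach _ _, ?_⟩
    ext
    · rfl
    · exact hy.symm
  have h1 : uval (ramDiv e : Pt ℓ f →₀ ℤ) θ = ∏ P ∈ S,
      (if P.x = θ then ((derivative f).eval θ)⁻¹ else θ - P.x) ^ ((ramDiv e : Pt ℓ f →₀ ℤ) P) :=
    Finsupp.prod_of_support_subset _ hS _ (fun _ _ => zpow_zero _)
  rw [h1, Finset.prod_map]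
  have h2 : ∀ t ∈ f.roots.toFinset.attach,
      (fun P : Pt ℓ f => (if P.x = θ then ((derivative f).eval θ)⁻¹ else θ - P.x) ^
        ((ramDiv e : Pt ℓ f →₀ ℤ) P)) (⟨t.1, 0, by
          rw [zero_pow hG.prime.ne_zero, (hr t.1).mp t.2]⟩ : Pt ℓ f)
      = (fun t' : E => (if t' = θ then ((derivative f).eval θ)⁻¹ else θ - t') ^ e t') t.1 := by
    intro t _
    simp
  refine (Finset.prod_congr rfl h2).trans ?_
  rw [Finset.prod_attach f.roots.toFinset
    (fun t' : E => (if t' = θ then ((derivative f).eval θ)⁻¹ else θ - t') ^ e t'),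
    ← Finset.mul_prod_erase _ _ ((hr θ).mpr hθ)]
  rw [if_pos rfl]
  congr 1
  apply Finset.prod_congr rfl
  intro t ht
  rw [if_neg (Finset.ne_of_mem_erase ht)]

end Pool.Agent.Lib.MP_89bcae_ag.Sup

end

section

/-!
ROW L05 (200-350 lines). THE LOCAL DIVISIBILITY LEMMA.

STATEMENT. Let `Γ` be a group of automorphisms as in `LocGrp` with uniformizer value `ϖ`, let `D`
be a divisor fixed by `Γ`, suppose `v d` is in `ϖ ^ (ℓ ℤ[1/p])`, and that the roots near `r` form one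
orbit under `Γ`, `μ` their number, `θ` one of them. Then `v (uval D θ) ^ μ` is in
`ϖ ^ (ℓ ℤ[1/p])`.

PROOF. Notation: `f = d⁻¹ ∏ (X - θ')`, `m = deg f` prime to `ℓ`, `N = near r`. For a point
`P = (x, b)`, `b^ℓ = f(x)`:
 (i) `v x > 1`: `v (b)^ℓ = v(d)⁻¹ v(x)^m` (`v_eval_of_large`), and `v (θ - x) = v x`;
 (ii) `v x ≤ 1` with residue different from `r`: `v (θ - x) = 1` for `θ` in `N`;
 (iii) residue `r`, `b ≠ 0`: `v(b)^ℓ = v(d)⁻¹ ∏_{θ' ∈ N} v (x - θ')` (`prod_near`);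
 (iv) `b = 0`, `x = θ'` in `N`. All `D(θ', 0)`, `θ'` in `N`, are equal to one integer `n`, because
`D` is fixed by `Γ` which permutes `N` transitively. The contribution of these points to `uval D θ`
has absolute value `v(f'(θ))^{-n} ∏_{θ' ∈ N, ≠ θ} v (θ - θ')^n = v(d)^n` (`v_derivative`).
(Points with `b = 0` whose `x` is not in `N` are in case (ii).)
So `v (uval D θ) = v(d)^n · v(X) · ∏_{(iii)} v (θ - x(P))^{D(P)}`, `X = ∏_{(i)} x(P)^{D(P)}`.
The left side is the same for all `θ` in `N` (`σ (uval D θ) = uval D (σ θ)` for `σ` in `Γ`), so its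
`μ`-th power is the product over `N`:
`v(d)^{μ n} v(X)^μ ∏_{(iii)} (v(b_P)^ℓ v(d))^{D(P)} = v(d)^{..} v(X)^μ v(B)^ℓ`, where
`B = ∏_{(iii)} b_P^{D(P)}` is fixed by `Γ` (which permutes the points of type (iii), as it preserves `v`
and fixes `r`): `v(B)` is in `ϖ^{ℤ[1/p]}` so `v(B)^ℓ` is fine; `v(d)` is fine; `X` is fixed by `Γ` and
`v(X)^m = v(B')^ℓ v(d)^{..}` with `B' = ∏_{(i)} b_P^{D(P)}` fixed by `Γ`, so `v(X)` is in
`ϖ ^ (ℓ ℤ[1/p])` by `Val.of_pow`.
-/

open Polynomial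

open scoped Classical

namespace Pool.Agent.Lib.MP_89bcae_ag.Sup

universe u

variable {F M : Type u} [Field F] [Field M] [Algebra F M] {v : AbsoluteValue M ℝ} {a : F} {t : M}

private lemma L05_v_sub_comm (x y : M) : v (x - y) = v (y - x) := by
  rw [← neg_sub, map_neg_eq_map]

private lemma L05_sym_injective {ℓ : ℕ} {f : M[X]} (σ : Sym f) :
    Function.Injective (Pt.sym σ : Pt ℓ f → Pt ℓ f) := by
  intro P Q hPQ
  have hx : (σ : M ≃+* M) P.x = (σ : M ≃+* M) Q.x := congrArg Pt.x hPQ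
  have hy : (σ : M ≃+* M) P.y = (σ : M ≃+* M) Q.y := congrArg Pt.y hPQ
  exact Pt.ext ((σ : M ≃+* M).injective hx) ((σ : M ≃+* M).injective hy)

/-- A product over an invariant divisor of equivariant quantities is invariant. -/
private lemma L05_prod_fixed {ℓ : ℕ} {f : M[X]} (σ : Sym f) (D : Pt ℓ f →₀ ℤ)
    (hD : D.mapDomain (Pt.sym σ) = D) (φ : Pt ℓ f → M)
    (hφ : ∀ P, (σ : M ≃+* M) (φ P) = φ (P.sym σ)) :
    (σ : M ≃+* M) (D.prod fun P n => φ P ^ n) = D.prod fun P n => φ P ^ n := by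
  conv_rhs => rw [← hD, Finsupp.prod_mapDomain_index_inj (L05_sym_injective σ)]
  rw [map_finsuppProd]
  refine Finsupp.prod_congr ?_
  intro P _
  rw [map_zpow₀, hφ]

private lemma L05_prod_ne_zero {ℓ : ℕ} {f : M[X]} (D : Pt ℓ f →₀ ℤ) (φ : Pt ℓ f → M)
    (hφ : ∀ P, φ P ≠ 0) : (D.prod fun P n => φ P ^ n) ≠ 0 :=
  Finset.prod_ne_zero_iff.2 fun P _ => zpow_ne_zero _ (hφ P)

private lemma L05_v_prod {ℓ : ℕ} {f : M[X]} (D : Pt ℓ f →₀ ℤ) (φ : Pt ℓ f → M) :
    v (D.prod fun P n => φ P ^ n) = ∏ P ∈ D.support, v (φ P) ^ D P := by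
  rw [Finsupp.prod, map_prod]
  refine Finset.prod_congr rfl ?_
  intro P _
  rw [map_zpow₀]

/-- The values of `∏ φ(P) ^ D(P)` for an equivariant function `φ`. -/
private lemma L05_val {ℓ p : ℕ} {f : M[X]} {ϖ : ℝ} {Γ : Subgroup (Sym f)}
    (hΓ : LocGrp p F v t ϖ Γ) (D : Pt ℓ f →₀ ℤ) (hD : ∀ σ ∈ Γ, D.mapDomain (Pt.sym σ) = D)
    (φ : Pt ℓ f → M) (h0 : ∀ P, φ P ≠ 0)
    (hφ : ∀ σ ∈ Γ, ∀ P, (σ : M ≃+* M) (φ P) = φ (P.sym σ)) :
    Val p ϖ (∏ P ∈ D.support, v (φ P) ^ D P) := by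
  rw [← L05_v_prod]
  exact hΓ.disc _ (L05_prod_ne_zero D φ h0) fun σ hσ => L05_prod_fixed σ D (hD σ hσ) φ (hφ σ hσ)

private lemma L05_v_eq {ℓ : ℕ} {g : F[X]} {d : M} (hd : d ≠ 0) (P : Pt ℓ (locPoly g t d)) :
    v (aeval P.x g - t) = v d * v P.y ^ ℓ := by
  rw [← map_pow, P.eq, eval_locPoly, ← map_mul, mul_inv_cancel_left₀ hd]

private lemma L05_factor (h : LocCtx v a t) {ℓ : ℕ} {g : F[X]} (hg : g.Monic)
    (hm : g.natDegree ≠ 0) {d : M} (hd : d ≠ 0) [hG : IsGood ℓ (locPoly g t d)] (r : F)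
    (P : Pt ℓ (locPoly g t d)) :
    ∏ θ ∈ near v (locPoly g t d) r,
      v (if P.x = θ then ((derivative (locPoly g t d)).eval θ)⁻¹ else θ - P.x) =
    v (if 1 < v P.x then P.x else 1) ^ (near v (locPoly g t d) r).card *
      ((if v (P.x - algebraMap F M r) < 1 then v d else 1) *
        v (if v (P.x - algebraMap F M r) < 1 ∧ P.y ≠ 0 then P.y else 1) ^ ℓ) := by
  have hAM : IsAlgClosed M := hG.alg
  have hs := hG.separable
  have hf0 := locPoly_ne_zero (t := t) hg hm hd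
  have hnear : ∀ θ ∈ near v (locPoly g t d) r, (locPoly g t d).eval θ = 0 ∧
      aeval θ g = t ∧ v θ ≤ 1 ∧ v (θ - algebraMap F M r) < 1 := by
    intro θ hθ
    unfold near at hθ
    rw [Finset.mem_filter, mem_rts hf0] at hθ
    have h1 := (eval_locPoly_eq_zero hd).1 hθ.1
    exact ⟨hθ.1, h1, h.v_root_le hg hm h1, hθ.2⟩
  by_cases hbig : 1 < v P.x
  · have hnr : ¬ v (P.x - algebraMap F M r) < 1 := by
      intro h1
      have h2 : P.x = (P.x - algebraMap F M r) + algebraMap F M r := by ring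
      have h3 : v P.x ≤ 1 := by
        rw [h2]
        exact (h.nonarch _ _).trans (max_le h1.le (h.v_const_le r))
      exact absurd hbig (not_lt.2 h3)
    rw [if_pos hbig, if_neg hnr, if_neg (fun hh => hnr hh.1), map_one, one_pow, mul_one, mul_one,
      Finset.prod_congr rfl (g := fun _ => v P.x), Finset.prod_const]
    intro θ hθ
    obtain ⟨-, -, hθ1, -⟩ := hnear θ hθ
    rw [if_neg (by rintro rfl; exact absurd hbig (not_lt.2 hθ1))]
    apply le_antisymm
    · have : θ - P.x = θ + -P.x := by ring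
      rw [this]
      refine (h.nonarch _ _).trans (max_le (hθ1.trans hbig.le) ?_)
      rw [map_neg_eq_map]
    · have : P.x = -(θ - P.x) + θ := by ring
      have h1 := h.nonarch (-(θ - P.x)) θ
      rw [← this, map_neg_eq_map] at h1
      rcases le_max_iff.1 h1 with h2 | h2
      · exact h2
      · exact absurd (h2.trans hθ1) (not_le.2 hbig)
  · rw [if_neg hbig, map_one, one_pow, one_mul]
    by_cases hr : v (P.x - algebraMap F M r) < 1
    · rw [if_pos hr]
      by_cases hy : P.y = 0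
      · rw [if_neg (fun hh => hh.2 hy), map_one, one_pow, mul_one]
        have hPx : (locPoly g t d).eval P.x = 0 := by
          rw [← P.eq, hy, zero_pow hG.prime.ne_zero]
        have hmem : P.x ∈ near v (locPoly g t d) r := by
          unfold near
          rw [Finset.mem_filter, mem_rts hf0]
          exact ⟨hPx, hr⟩
        rw [← Finset.mul_prod_erase _ _ hmem, if_pos rfl, map_inv₀, h.v_derivative hg hm hd hs hmem]
        have e1 : ∏ θ ∈ (near v (locPoly g t d) r).erase P.x,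
            v (if P.x = θ then ((derivative (locPoly g t d)).eval θ)⁻¹ else θ - P.x) =
            ∏ θ ∈ (near v (locPoly g t d) r).erase P.x, v (P.x - θ) := by
          refine Finset.prod_congr rfl ?_
          intro θ hθ
          rw [if_neg (Finset.ne_of_mem_erase hθ).symm, L05_v_sub_comm]
        rw [e1]
        have h2 : ∏ θ ∈ (near v (locPoly g t d) r).erase P.x, v (P.x - θ) ≠ 0 := by
          refine Finset.prod_ne_zero_iff.2 ?_
          intro θ hθ
          exact (v.ne_zero_iff).2 (sub_ne_zero.2 (Finset.ne_of_mem_erase hθ).symm)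
        rw [mul_inv, inv_inv, mul_assoc, inv_mul_cancel₀ h2, mul_one]
      · rw [if_pos ⟨hr, hy⟩, ← L05_v_eq hd P, h.prod_near hg hm hd hs hr]
        refine Finset.prod_congr rfl ?_
        intro θ hθ
        rw [if_neg, L05_v_sub_comm]
        rintro rfl
        apply hy
        have h1 := P.eq
        rw [(hnear _ hθ).1] at h1
        exact pow_eq_zero_iff hG.prime.ne_zero |>.1 h1
    · rw [if_neg hr, if_neg (fun hh => hr hh.1), map_one, one_pow, mul_one]
      refine Finset.prod_eq_one ?_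
      intro θ hθ
      obtain ⟨-, -, hθ1, hθr⟩ := hnear θ hθ
      rw [if_neg (by rintro rfl; exact hr hθr)]
      apply le_antisymm
      · have : θ - P.x = θ + -P.x := by ring
        rw [this]
        refine (h.nonarch _ _).trans (max_le hθ1 ?_)
        rw [map_neg_eq_map]
        exact not_lt.1 hbig
      · by_contra hlt
        apply hr
        have : P.x - algebraMap F M r = -(θ - P.x) + (θ - algebraMap F M r) := by ring
        rw [this]
        refine lt_of_le_of_lt (h.nonarch _ _) (max_lt ?_ hθr)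
        rw [map_neg_eq_map]
        exact not_le.1 hlt

theorem LocCtx.val_uval (h : LocCtx v a t) {ℓ p : ℕ} {g : F[X]} (hg : g.Monic)
    (hm : g.natDegree ≠ 0) {d : M} (hd : d ≠ 0) [hG : IsGood ℓ (locPoly g t d)]
    (hmℓ : g.natDegree.Coprime ℓ) {ϖ : ℝ} {Γ : Subgroup (Sym (locPoly g t d))}
    (hΓ : LocGrp p F v t ϖ Γ) (hdv : Val p (ϖ ^ ℓ) (v d))
    (D : Pt ℓ (locPoly g t d) →₀ ℤ) (hD : ∀ σ ∈ Γ, D.mapDomain (Pt.sym σ) = D) {r : F}
    (horb : ∀ θ ∈ near v (locPoly g t d) r, ∀ θ' ∈ near v (locPoly g t d) r,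
      ∃ σ ∈ Γ, (σ : M ≃+* M) θ = θ') {θ : M} (hθ : θ ∈ near v (locPoly g t d) r) :
    Val p (ϖ ^ ℓ) (v (uval D θ) ^ (near v (locPoly g t d) r).card) := by
  have hsymx : ∀ (σ : Sym (locPoly g t d)) (P : Pt ℓ (locPoly g t d)),
      (P.sym σ).x = (σ : M ≃+* M) P.x := fun σ P => rfl
  have hsymy : ∀ (σ : Sym (locPoly g t d)) (P : Pt ℓ (locPoly g t d)),
      (P.sym σ).y = (σ : M ≃+* M) P.y := fun σ P => rfl
  -- the product over the roots near `r`
  have hconst : ∀ θ' ∈ near v (locPoly g t d) r, v (uval D θ') = v (uval D θ) := by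
    intro θ' hθ'
    obtain ⟨σ, hσ, hσθ⟩ := horb θ hθ θ' hθ'
    rw [← hσθ, ← sym_uval σ D (hD σ hσ), hΓ.inv σ hσ]
  have hprod : v (uval D θ) ^ (near v (locPoly g t d) r).card =
      ∏ θ' ∈ near v (locPoly g t d) r, v (uval D θ') := by
    rw [Finset.prod_congr rfl hconst, Finset.prod_const]
  have hprod2 : ∏ θ' ∈ near v (locPoly g t d) r, v (uval D θ') =
      (∏ P ∈ D.support, v (if 1 < v P.x then P.x else 1) ^ D P) ^
        (near v (locPoly g t d) r).card *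
      ((∏ P ∈ D.support, (if v (P.x - algebraMap F M r) < 1 then v d else 1) ^ D P) *
        (∏ P ∈ D.support,
          v (if v (P.x - algebraMap F M r) < 1 ∧ P.y ≠ 0 then P.y else 1) ^ D P) ^ ℓ) := by
    have e1 : ∀ θ' ∈ near v (locPoly g t d) r, v (uval D θ') = ∏ P ∈ D.support,
        v (if P.x = θ' then ((derivative (locPoly g t d)).eval θ')⁻¹ else θ' - P.x) ^ D P := by
      intro θ' _
      unfold uval
      rw [Finsupp.prod, map_prod]
      refine Finset.prod_congr rfl ?_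
      intro P _
      rw [map_zpow₀]
    rw [Finset.prod_congr rfl e1, Finset.prod_comm, ← Finset.prod_pow, ← Finset.prod_pow,
      ← Finset.prod_mul_distrib, ← Finset.prod_mul_distrib]
    refine Finset.prod_congr rfl ?_
    intro P _
    rw [Finset.prod_zpow, L05_factor h hg hm hd r P, mul_zpow, mul_zpow]
    congr 1
    · rw [← zpow_natCast, ← zpow_natCast, ← zpow_mul, ← zpow_mul, mul_comm]
    · congr 1
      rw [← zpow_natCast, ← zpow_natCast, ← zpow_mul, ← zpow_mul, mul_comm]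
  rw [hprod, hprod2]
  -- the big part
  have hX : Val p ϖ (∏ P ∈ D.support, v (if 1 < v P.x then P.x else 1) ^ D P) := by
    refine L05_val hΓ D hD (fun P => if 1 < v P.x then P.x else 1) ?_ ?_
    · intro P
      show (if 1 < v P.x then P.x else 1) ≠ 0
      split_ifs with h1
      · intro h0
        rw [h0, map_zero] at h1
        exact absurd h1 (not_lt.2 zero_le_one)
      · exact one_ne_zero
    · intro σ hσ P
      simp only [hsymx, hΓ.inv σ hσ]
      split_ifs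
      · rfl
      · exact map_one _
  have hX' : Val p ϖ (∏ P ∈ D.support, v (if 1 < v P.x then P.y else 1) ^ D P) := by
    refine L05_val hΓ D hD (fun P => if 1 < v P.x then P.y else 1) ?_ ?_
    · intro P
      show (if 1 < v P.x then P.y else 1) ≠ 0
      split_ifs with h1
      · intro h0
        have h2 := h.v_eval_of_large hg hm h1
        rw [L05_v_eq hd P, h0, map_zero, zero_pow hG.prime.ne_zero, mul_zero] at h2
        have h3 : 0 < v P.x ^ g.natDegree := pow_pos (zero_lt_one.trans h1) _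
        exact absurd h2 h3.ne
      · exact one_ne_zero
    · intro σ hσ P
      simp only [hsymx, hsymy, hΓ.inv σ hσ]
      split_ifs
      · rfl
      · exact map_one _
  have hXm : (∏ P ∈ D.support, v (if 1 < v P.x then P.x else 1) ^ D P) ^ g.natDegree =
      (∏ P ∈ D.support, (if 1 < v P.x then v d else 1) ^ D P) *
        (∏ P ∈ D.support, v (if 1 < v P.x then P.y else 1) ^ D P) ^ ℓ := by
    rw [← Finset.prod_pow, ← Finset.prod_pow, ← Finset.prod_mul_distrib]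
    refine Finset.prod_congr rfl ?_
    intro P _
    have e1 : ∀ (x : ℝ) (m : ℕ), (x ^ D P) ^ m = (x ^ m) ^ D P := by
      intro x m
      rw [← zpow_natCast, ← zpow_natCast, ← zpow_mul, ← zpow_mul, mul_comm]
    rw [e1, e1, ← mul_zpow]
    congr 1
    split_ifs with h1
    · rw [← h.v_eval_of_large hg hm h1, L05_v_eq hd P]
    · simp
  have hXpos : 0 < ∏ P ∈ D.support, v (if 1 < v P.x then P.x else 1) ^ D P := by
    refine Finset.prod_pos ?_
    intro P _
    refine zpow_pos ?_ _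
    split_ifs with h1
    · exact zero_lt_one.trans h1
    · rw [map_one]; exact one_pos
  have hXval : Val p (ϖ ^ ℓ) (∏ P ∈ D.support, v (if 1 < v P.x then P.x else 1) ^ D P) := by
    refine Val.of_pow hΓ.pos hΓ.lt_one hmℓ hXpos hX ?_
    rw [hXm]
    refine Val.mul (Val.prod _ _ ?_) (Val.pow_self ℓ hX')
    intro P _
    refine Val.zpow ?_ _
    split_ifs
    · exact hdv
    · exact Val.one _ _
  -- the part near `r`
  have hB : Val p ϖ (∏ P ∈ D.support,
      v (if v (P.x - algebraMap F M r) < 1 ∧ P.y ≠ 0 then P.y else 1) ^ D P) := by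
    refine L05_val hΓ D hD
      (fun P => if v (P.x - algebraMap F M r) < 1 ∧ P.y ≠ 0 then P.y else 1) ?_ ?_
    · intro P
      show (if v (P.x - algebraMap F M r) < 1 ∧ P.y ≠ 0 then P.y else 1) ≠ 0
      split_ifs with h1
      · exact h1.2
      · exact one_ne_zero
    · intro σ hσ P
      have e1 : v ((σ : M ≃+* M) P.x - algebraMap F M r) = v (P.x - algebraMap F M r) := by
        rw [← hΓ.inv σ hσ (P.x - algebraMap F M r), map_sub (σ : M ≃+* M), hΓ.fix σ hσ]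
      have e2 : ((σ : M ≃+* M) P.y ≠ 0) = (P.y ≠ 0) := by
        rw [ne_eq, map_eq_zero_iff _ (σ : M ≃+* M).injective]
      simp only [hsymx, hsymy, e1, e2]
      split_ifs
      · rfl
      · exact map_one _
  refine Val.mul (Val.pow hXval _) (Val.mul (Val.prod _ _ ?_) (Val.pow_self ℓ hB))
  intro P _
  refine Val.zpow ?_ _
  split_ifs
  · exact hdv
  · exact Val.one _ _

end Pool.Agent.Lib.MP_89bcae_ag.Sup

end

section

/-!
ROW L07. A place `t = a` where `D` has a simple zero and `g(x) = a` has simple roots (bad place): first facts.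
-/

open Polynomial

open scoped Classical

namespace Pool.Agent.Lib.MP_89bcae_ag.Sup

universe u

variable {F M : Type u} [Field F] [Field M] [Algebra F M] {v : AbsoluteValue M ℝ} {a : F} {t : M}

/-- The hypotheses at a bad place. -/
structure BadCtx (g D : F[X]) (a : F) (t δ : M) (ℓ : ℕ) : Prop where
  monic : g.Monic
  deg : g.natDegree ≠ 0
  cop : g.natDegree.Coprime ℓ
  zero : D.eval a = 0
  simple : (derivative D).eval a ≠ 0
  roots : ∀ r, g.eval r = a → (derivative g).eval r ≠ 0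
  delta : δ ^ ℓ = aeval t D
  ne : aeval t D ≠ 0

/-- The residue of an element of `M`. -/
noncomputable def rs (F : Type u) {M : Type u} [Field F] [Field M] [Algebra F M]
    (v : AbsoluteValue M ℝ) (x : M) : F :=
  if h : ∃ c : F, v (x - algebraMap F M c) < 1 then h.choose else 0

lemma LocCtx.rs_eq (h : LocCtx v a t) {x : M} {c : F} (hc : v (x - algebraMap F M c) < 1) :
    rs F v x = c := by
  have hex : ∃ c : F, v (x - algebraMap F M c) < 1 := ⟨c, hc⟩
  unfold rs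
  rw [dif_pos hex]
  exact h.residue_unique hex.choose_spec hc

lemma LocCtx.v_sub_rs (h : LocCtx v a t) {x : M} (hx : v x ≤ 1) :
    v (x - algebraMap F M (rs F v x)) < 1 := by
  have hex := h.residue x hx
  unfold rs
  rw [dif_pos hex]
  exact hex.choose_spec

/-- the residue of `t` is `a` -/
private lemma L07_quot (h : LocCtx v a t) {P : F[X]} {x : M} {c : F}
    (hx : v (x - algebraMap F M c) < 1) (hP : P.eval c = 0) :
    ∃ Q : F[X], aeval x P = (x - algebraMap F M c) * aeval x Q ∧ Q.eval c = (derivative P).eval c ∧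
      v (aeval x Q - algebraMap F M ((derivative P).eval c)) < 1 := by
  obtain ⟨Q, hQ⟩ : (X - C c) ∣ P := by
    rw [dvd_iff_isRoot]
    exact hP
  have hd : Q.eval c = (derivative P).eval c := by
    rw [hQ]
    simp
  refine ⟨Q, ?_, hd, ?_⟩
  · rw [hQ, map_mul, map_sub, aeval_X, aeval_C]
  · rw [← hd]
    exact h.residue_eval hx Q

lemma LocCtx.v_bad (h : LocCtx v a t) {g D : F[X]} {δ : M} {ℓ : ℕ} (hB : BadCtx g D a t δ ℓ) :
    v (aeval t D) = v (t - algebraMap F M a) ∧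
      v (aeval t D / (t - algebraMap F M a) - algebraMap F M ((derivative D).eval a)) < 1 := by
  obtain ⟨Q, h1, h2, h3⟩ := L07_quot h h.lt_one hB.zero
  have hta : t - algebraMap F M a ≠ 0 := sub_ne_zero.mpr h.ne
  constructor
  · rw [h1, map_mul, h.v_eq_one h3 hB.simple, mul_one]
  · rw [h1, mul_div_cancel_left₀ _ hta]
    exact h3

lemma LocCtx.eval_rs (h : LocCtx v a t) {g D : F[X]} {δ : M} {ℓ : ℕ} (hB : BadCtx g D a t δ ℓ)
    {θ : M} (hθ : aeval θ g = t) : g.eval (rs F v θ) = a :=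
  h.eval_residue hθ (h.v_sub_rs (h.v_root_le hB.monic hB.deg hθ))

/-- the valuation ring -/
private def L07_ring (h : LocCtx v a t) : Subring M where
  carrier := {x | v x ≤ 1}
  mul_mem' {x y} hx hy := by
    have hx' : v x ≤ 1 := hx
    have hy' : v y ≤ 1 := hy
    show v (x * y) ≤ 1
    rw [map_mul]
    exact mul_le_one₀ hx' (v.nonneg y) hy'
  one_mem' := by
    show v 1 ≤ 1
    rw [map_one]
  add_mem' {x y} hx hy := (h.nonarch x y).trans (max_le hx hy)
  zero_mem' := by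
    show v 0 ≤ 1
    rw [map_zero]
    exact zero_le_one
  neg_mem' {x} hx := by
    show v (-x) ≤ 1
    rw [v.map_neg]
    exact hx

/-- divided differences -/
private lemma L07_taylor (h : LocCtx v a t) (g : F[X]) {x y : M} (hx : v x ≤ 1) (hy : v y ≤ 1) :
    ∃ k : M, v k ≤ 1 ∧ aeval (x + y) g = aeval x g + aeval x (derivative g) * y + k * y ^ 2 := by
  set R := L07_ring h with hR
  set φ : F →+* R := (algebraMap F M).codRestrict R (fun c => h.v_const_le c) with hφ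
  set x' : R := ⟨x, hx⟩ with hx'
  set y' : R := ⟨y, hy⟩ with hy'
  obtain ⟨k, hk⟩ := (g.map φ).binomExpansion x' y'
  refine ⟨(k : M), k.2, ?_⟩
  have key : ∀ (p : F[X]) (z : R), (((p.map φ).eval z : R) : M) = aeval (z : M) p := by
    intro p z
    rw [eval_map]
    have e := hom_eval₂ p φ R.subtype z
    rw [aeval_def]
    exact e
  have h1 := congrArg (fun r : R => (r : M)) hk
  simp only [Subring.coe_add, Subring.coe_mul, SubmonoidClass.coe_pow, derivative_map, key] at h1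
  exact h1

/-- Two roots with the same residue are equal. -/
lemma LocCtx.rs_injOn (h : LocCtx v a t) {g D : F[X]} {δ : M} {ℓ : ℕ} (hB : BadCtx g D a t δ ℓ)
    {θ θ' : M} (hθ : aeval θ g = t) (hθ' : aeval θ' g = t) (he : rs F v θ = rs F v θ') :
    θ = θ' := by
  have hv := h.v_root_le hB.monic hB.deg hθ
  have hv' := h.v_root_le hB.monic hB.deg hθ'
  have hr := h.v_sub_rs hv
  have hr' := h.v_sub_rs hv'
  rw [← he] at hr'
  have hd : v (θ' - θ) < 1 := by
    have e : θ' - θ = (θ' - algebraMap F M (rs F v θ)) + -(θ - algebraMap F M (rs F v θ)) := by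
      ring
    rw [e]
    refine (h.nonarch _ _).trans_lt (max_lt hr' ?_)
    rw [v.map_neg]
    exact hr
  obtain ⟨k, hk, hkt⟩ := L07_taylor h g hv hd.le
  rw [add_sub_cancel, hθ', hθ] at hkt
  have h0 : (θ' - θ) * (aeval θ (derivative g) + k * (θ' - θ)) = 0 := by
    linear_combination -hkt
  rcases mul_eq_zero.mp h0 with h1 | h1
  · exact (sub_eq_zero.mp h1).symm
  · exfalso
    have h2 := h.residue_eval hr (derivative g)
    have h3 : v (aeval θ (derivative g)) = 1 := h.v_eq_one h2 (hB.roots _ (h.eval_rs hB hθ))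
    have h4 : aeval θ (derivative g) = -(k * (θ' - θ)) := by linear_combination h1
    rw [h4, v.map_neg, map_mul] at h3
    have h5 : v k * v (θ' - θ) < 1 := by
      calc v k * v (θ' - θ) ≤ 1 * v (θ' - θ) := mul_le_mul_of_nonneg_right hk (v.nonneg _)
        _ < 1 := by rw [one_mul]; exact hd
    linarith

lemma LocCtx.exists_root (h : LocCtx v a t) [IsAlgClosed M] {g D : F[X]} {δ : M} {ℓ : ℕ}
    (hB : BadCtx g D a t δ ℓ) {β : F} (hβ : g.eval β = a) :
    ∃ θ : M, aeval θ g = t ∧ rs F v θ = β := by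
  set P : M[X] := g.map (algebraMap F M) - C t with hP
  have hgm : (g.map (algebraMap F M)).Monic := hB.monic.map _
  have hdeg : (g.map (algebraMap F M)).natDegree = g.natDegree := natDegree_map _
  have hPm : P.Monic := by
    apply hgm.sub_of_left
    rw [degree_eq_natDegree hgm.ne_zero, hdeg]
    refine (degree_C_le).trans_lt ?_
    have := hB.deg
    exact_mod_cast Nat.pos_of_ne_zero this
  have hsp : P.Splits := IsAlgClosed.splits P
  have hev := hsp.eval_eq_prod_roots_of_monic hPm (algebraMap F M β)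
  have hevβ : P.eval (algebraMap F M β) = -(t - algebraMap F M a) := by
    rw [hP, eval_sub, eval_C, eval_map_algebraMap, aeval_algebraMap_apply]
    have e : (aeval β g : F) = a := by
      rw [← hβ]
      exact coe_aeval_eq_eval β ▸ rfl
    rw [e]
    ring
  have hprod : v ((P.roots.map (fun θ => algebraMap F M β - θ)).prod) < 1 := by
    rw [← hev, hevβ, v.map_neg]
    exact h.lt_one
  have hex : ∃ θ ∈ P.roots, v (algebraMap F M β - θ) < 1 := by
    by_contra hcon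
    push Not at hcon
    have h1 : 1 ≤ v ((P.roots.map (fun θ => algebraMap F M β - θ)).prod) := by
      rw [map_multiset_prod, Multiset.map_map]
      have h2 : ∀ s : Multiset M, (∀ θ ∈ s, 1 ≤ v (algebraMap F M β - θ)) →
          1 ≤ (Multiset.map (⇑v ∘ fun θ => algebraMap F M β - θ) s).prod := by
        intro s
        induction s using Multiset.induction_on with
        | empty => intro _; simp
        | cons b s ih =>
          intro hs
          rw [Multiset.map_cons, Multiset.prod_cons]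
          have h3 := hs b (Multiset.mem_cons_self b s)
          have h4 := ih fun θ hθ => hs θ (Multiset.mem_cons_of_mem hθ)
          exact one_le_mul_of_one_le_of_one_le h3 h4
      exact h2 _ hcon
    linarith
  obtain ⟨θ, hθ, hv⟩ := hex
  have hroot : aeval θ g = t := by
    have h1 := (mem_roots hPm.ne_zero).mp hθ
    rw [IsRoot.def, hP, eval_sub, eval_C, eval_map_algebraMap] at h1
    exact sub_eq_zero.mp h1
  refine ⟨θ, hroot, h.rs_eq ?_⟩
  rw [← v.map_neg, neg_sub]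
  exact hv

/-- `(t - a) / (θ - β)` has residue `g'(β)`, where `β` is the residue of `θ`. -/
lemma LocCtx.residue_quot (h : LocCtx v a t) {g D : F[X]} {δ : M} {ℓ : ℕ}
    (hB : BadCtx g D a t δ ℓ) {θ : M} (hθ : aeval θ g = t) :
    v ((t - algebraMap F M a) / (θ - algebraMap F M (rs F v θ)) -
      algebraMap F M ((derivative g).eval (rs F v θ))) < 1 := by
  have hr := h.v_sub_rs (h.v_root_le hB.monic hB.deg hθ)
  have he := h.eval_rs hB hθ
  obtain ⟨Q, h1, h2, h3⟩ := L07_quot h (P := g - C a) hr (by rw [eval_sub, eval_C, he, sub_self])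
  rw [map_sub, aeval_C, hθ] at h1
  have hta : t - algebraMap F M a ≠ 0 := sub_ne_zero.mpr h.ne
  have hne : θ - algebraMap F M (rs F v θ) ≠ 0 := by
    intro h0
    rw [h0, zero_mul] at h1
    exact hta h1
  rw [h1, mul_div_cancel_left₀ _ hne]
  simpa using h3

lemma LocCtx.fix_root (h : LocCtx v a t) {g D : F[X]} {δ : M} {ℓ : ℕ}
    (hB : BadCtx g D a t δ ℓ) (τ : M ≃+* M) (hτ : ∀ x, v (τ x) = v x)
    (hc : ∀ c : F, τ (algebraMap F M c) = algebraMap F M c) (ht : τ t = t) {θ : M}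
    (hθ : aeval θ g = t) : τ θ = θ := by
  have h1 : aeval (τ θ) g = t := by
    have e : (τ : M →+* M).comp (algebraMap F M) = algebraMap F M := by
      ext c
      exact hc c
    have h2 := hom_eval₂ g (algebraMap F M) (τ : M →+* M) θ
    rw [e] at h2
    rw [aeval_def]
    have h3 : (τ : M →+* M) θ = τ θ := rfl
    rw [h3] at h2
    rw [← h2, ← aeval_def, hθ]
    exact ht
  apply h.rs_injOn hB h1 hθ
  apply h.rs_eq
  have hr := h.v_sub_rs (h.v_root_le hB.monic hB.deg hθ)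
  have e : τ θ - algebraMap F M (rs F v θ) = τ (θ - algebraMap F M (rs F v θ)) := by
    rw [map_sub, hc]
  rw [e, hτ]
  exact hr

lemma LocCtx.char_of_unit (h : LocCtx v a t) {δ : M} {ℓ : ℕ} (hℓ : ℓ ≠ 0) (hδ : δ ≠ 0) {ζ : F}
    (hζ : IsPrimitiveRoot ζ ℓ) (τ : M ≃+* M) (hτ : ∀ x, v (τ x) = v x)
    (hc : ∀ c : F, τ (algebraMap F M c) = algebraMap F M c) {z w : M} (i j : ℤ)
    (hj : τ δ = algebraMap F M ζ ^ j * δ) (hz : z ^ ℓ = (δ ^ ℓ) ^ i * w) (hw : τ w = w)
    (hw1 : v w = 1) : τ z = algebraMap F M ζ ^ (j * i) * z := by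
  have hδi : δ ^ i ≠ 0 := zpow_ne_zero _ hδ
  set y := z / δ ^ i with hy
  have hyℓ : y ^ ℓ = w := by
    rw [hy, div_pow, hz, ← zpow_natCast, ← zpow_natCast, ← zpow_mul, ← zpow_mul, mul_comm (ℓ : ℤ) i,
      mul_div_cancel_left₀ _ (zpow_ne_zero _ hδ)]
  have hvy : v y = 1 := by
    have h1 : v y ^ ℓ = 1 := by rw [← map_pow, hyℓ, hw1]
    exact (pow_eq_one_iff_of_nonneg (v.nonneg y) hℓ).mp h1
  have hfix := h.root_of_unit_fixed hℓ hζ τ hτ hc hvy (by rw [hyℓ, hw])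
  have hzy : z = y * δ ^ i := by
    rw [hy, div_mul_cancel₀ _ hδi]
  have e1 : τ z = y * (algebraMap F M ζ ^ j * δ) ^ i := by
    rw [hzy, map_mul, hfix, map_zpow₀, hj]
  rw [e1, mul_zpow, ← zpow_mul]
  conv_rhs => rw [hzy]
  ring

theorem LocCtx.bad_J2 (h : LocCtx v a t) {g D : F[X]} {δ : M} {ℓ : ℕ} (hB : BadCtx g D a t δ ℓ)
    [hG : IsGood ℓ (locPoly g t (aeval t D))] {ζ : F} (hζ : IsPrimitiveRoot ζ ℓ)
    (hζ' : IsPrimitiveRoot (algebraMap F M ζ) ℓ)
    (τ : Sym (locPoly g t (aeval t D))) (hτ : ∀ x, v ((τ : M ≃+* M) x) = v x)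
    (hc : ∀ c : F, (τ : M ≃+* M) (algebraMap F M c) = algebraMap F M c)
    (ht : (τ : M ≃+* M) t = t) (j : ℤ) (hj : (τ : M ≃+* M) δ = algebraMap F M ζ ^ j * δ)
    (Q : Jac ℓ (locPoly g t (aeval t D))) (r : M → ℤ)
    (hQ : Q - zJ (algebraMap F M ζ) hζ'.pow_eq_one Q = ram r) :
    symJ τ Q - Q = ram fun θ => j * r θ := by
  have := hG.alg
  have hd0 : aeval t D ≠ 0 := hB.ne
  have hf0 : (locPoly g t (aeval t D)) ≠ 0 := locPoly_ne_zero hB.monic hB.deg hd0
  have hsep : (locPoly g t (aeval t D)).Separable := hG.separable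
  have hℓ : ℓ ≠ 0 := hG.prime.ne_zero
  have hδ0 : δ ≠ 0 := by
    intro h0
    apply hd0
    rw [← hB.delta, h0, zero_pow hℓ]
  have hroot : ∀ θ : M, (locPoly g t (aeval t D)).eval θ = 0 → aeval θ g = t := fun θ hθ =>
    (eval_locPoly_eq_zero hd0).mp hθ
  have hfixr : ∀ θ : M, (locPoly g t (aeval t D)).eval θ = 0 → (τ : M ≃+* M) θ = θ := fun θ hθ =>
    h.fix_root hB (τ : M ≃+* M) hτ hc ht (hroot θ hθ)
  obtain ⟨z, hz1, hz2⟩ := kummer_formula (algebraMap F M ζ) hζ' Q (ramDiv r) hQ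
  have hmap : (ramDiv r : Pt ℓ (locPoly g t (aeval t D)) →₀ ℤ).mapDomain (Pt.sym τ) = ramDiv r := by
    rw [mapDomain_sym_ramDiv]
    apply ramDiv_congr
    intro θ hθ
    have e : ((τ⁻¹ : Sym (locPoly g t (aeval t D))) : M ≃+* M) θ = θ := by
      have h1 := hfixr θ hθ
      have h2 : ((τ⁻¹ : Sym (locPoly g t (aeval t D))) : M ≃+* M) ((τ : M ≃+* M) θ) = θ := by
        have h3 : ((τ⁻¹ : Sym (locPoly g t (aeval t D))) : M ≃+* M) = (τ : M ≃+* M)⁻¹ := rfl
        rw [h3]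
        exact (τ : M ≃+* M).symm_apply_apply θ
      rw [h1] at h2
      exact h2
    rw [e]
  apply hz2 τ (hc ζ) hmap
  intro θ hθ
  rw [hfixr θ hθ]
  obtain ⟨hz0, hzp⟩ := hz1 θ hθ
  rw [atR_ramDiv r hθ, uval_ramDiv r hθ] at hzp
  have hθr : θ ∈ rts (locPoly g t (aeval t D)) := (mem_rts hf0).mpr hθ
  have hder := derivative_locPoly_eval hB.monic hB.deg hd0 hsep hθr
  have hrts : (locPoly g t (aeval t D)).roots.toFinset = rts (locPoly g t (aeval t D)) := rfl
  rw [hder, hrts] at hzp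
  have hvdiff : ∀ θ' ∈ (rts (locPoly g t (aeval t D))).erase θ, v (θ - θ') = 1 := by
    intro θ' hθ'
    obtain ⟨hne, hmem⟩ := Finset.mem_erase.mp hθ'
    have h1 := hroot θ hθ
    have h2 := hroot θ' ((mem_rts hf0).mp hmem)
    have hr1 := h.v_sub_rs (h.v_root_le hB.monic hB.deg h1)
    have hr2 := h.v_sub_rs (h.v_root_le hB.monic hB.deg h2)
    have hne2 : rs F v θ - rs F v θ' ≠ 0 := by
      intro h0
      exact hne (h.rs_injOn hB h1 h2 (sub_eq_zero.mp h0)).symm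
    apply h.v_eq_one (c := rs F v θ - rs F v θ') ?_ hne2
    have e : θ - θ' - algebraMap F M (rs F v θ - rs F v θ') =
        (θ - algebraMap F M (rs F v θ)) + -(θ' - algebraMap F M (rs F v θ')) := by
      rw [map_sub]
      ring
    rw [e]
    refine (h.nonarch _ _).trans_lt (max_lt hr1 ?_)
    rw [v.map_neg]
    exact hr2
  have hτdiff : ∀ θ' ∈ (rts (locPoly g t (aeval t D))).erase θ, (τ : M ≃+* M) (θ - θ') = θ - θ' := by
    intro θ' hθ'
    obtain ⟨hne, hmem⟩ := Finset.mem_erase.mp hθ'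
    rw [map_sub, hfixr θ hθ, hfixr θ' ((mem_rts hf0).mp hmem)]
  set w : M := ((-1) ^ (ℓ + 1)) ^ r θ * ((∏ θ' ∈ (rts (locPoly g t (aeval t D))).erase θ, (θ - θ'))⁻¹ ^ r θ *
    ∏ θ' ∈ (rts (locPoly g t (aeval t D))).erase θ, (θ - θ') ^ r θ') with hw
  have hzw : z θ ^ ℓ = (δ ^ ℓ) ^ r θ * w := by
    rw [hzp, hw, hB.delta, mul_inv, inv_inv, mul_zpow]
    ring
  have hprod1 : v (∏ θ' ∈ (rts (locPoly g t (aeval t D))).erase θ, (θ - θ')) = 1 := by
    rw [map_prod]
    exact Finset.prod_eq_one hvdiff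
  have hprod2 : v (∏ θ' ∈ (rts (locPoly g t (aeval t D))).erase θ, (θ - θ') ^ r θ') = 1 := by
    rw [map_prod]
    apply Finset.prod_eq_one
    intro θ' hθ'
    rw [map_zpow₀, hvdiff θ' hθ', one_zpow]
  have hw1 : v w = 1 := by
    rw [hw, map_mul, map_mul, map_zpow₀, map_zpow₀, map_pow, map_inv₀, hprod1, hprod2, v.map_neg,
      map_one]
    simp
  have hτw : (τ : M ≃+* M) w = w := by
    rw [hw, map_mul, map_mul, map_zpow₀, map_zpow₀, map_pow, map_inv₀, map_prod, map_prod, map_neg,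
      map_one]
    congr 2
    · rw [Finset.prod_congr rfl hτdiff]
    · apply Finset.prod_congr rfl
      intro θ' hθ'
      rw [map_zpow₀, hτdiff θ' hθ']
  exact h.char_of_unit hℓ hδ0 hζ (τ : M ≃+* M) hτ hc (r θ) j hj hzw hτw hw1

end Pool.Agent.Lib.MP_89bcae_ag.Sup

end

section

/-!
ROW L06 (150-300 lines). A place `t = a` with `v d = 1`: the exponents are divisible by `ℓ`.

Setting: `f = d⁻¹ (g(x) - t)`, `v d = 1`, `ϖ = v (t - a)`, `Γ` as in `LocGrp`, the roots of `f` near any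
`r` form one orbit (if any). `R` is a nonzero polynomial over `F`, `z θ ^ ℓ = R(θ)` for the roots `θ`
of `f`; `Q` a class such that for all `σ` in `Γ`, `σ Q - Q = ram n` with `σ (z θ) = ζ^{n(σθ)} z(σθ)`;
and the sum of the multiplicities in `R` of the roots of `g(x) = a` is divisible by `ℓ`. Then each of
these multiplicities is divisible by `ℓ`.

PROOF. `m = deg g` is prime to `ℓ`. `π Q := Q - Z Q` is fixed by `Γ` (`σ Q - Q` is killed by `π`,
`zJ_ram`, `zJ_symJ`). By R20, `π Q = cl D` with `D` fixed by `Γ`; by the Kummer formula R21 there are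
`z' θ`, `(z' θ)^ℓ = ε^{..} uval D θ` with, for `σ` in `Γ` (write `σ (z' θ) = ζ^{n'(σθ)} z'(σθ)`, possible as
the `ℓ`-th powers agree: `σ (uval D θ) = uval D (σθ)`, `σ` permutes the roots),
`σ Q - Q = ram n'`. So by `ram_eq_zero_iff` `n - n' ≡ c(σ)` constant on the roots. Let
`q_θ = z θ / z' θ`, `Q̃ = ∏_θ q_θ`, `x_θ = q_θ^m / Q̃`: `σ q_θ = ζ^{c(σ)} q_{σθ}`,
`σ Q̃ = ζ^{m c(σ)} Q̃` and `σ x_θ = x_{σθ}`. Fix `r` with `g(r) = a`, `N = near r`, `μ = #N ≥ 1`
(`card_near`), `θ ∈ N`, `ε = ` multiplicity of `r` in `R`. All values are positive reals: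
 `v(x_θ)` is the same for all `θ` in `N` and `∏_{θ∈N} x_θ` is fixed by `Γ`: `v(x_θ)^μ ∈ ϖ^{Z[1/p]}`;
 `v(R(θ)) = v(θ - r)^ε` (the other factors `θ - β` are units), `v(θ - r)^μ = ϖ` (`v_sub_pow`);
 `v(z' θ)^{ℓ μ} = v(uval D θ)^μ ∈ ϖ^{ℓ Z[1/p]}` (L05; the sign has absolute value one);
 `v(Q̃)^ℓ = ∏_θ v(R(θ)) / ∏_θ v(uval D θ)`: the numerator is `ϖ^{∑ ε_β}` over the fibre (group the
roots by residues: `∏_{θ∈near β} v(θ-β)^{ε_β} = ϖ^{ε_β}`), a power of `ϖ^ℓ` by hypothesis; the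
denominator is a product of `v(uval D θ)^μ`'s. So `v(Q̃) ∈ ϖ^{Z[1/p]}` (`Val.root`).
Hence `(v(x_θ)^μ)^ℓ = v(q_θ)^{m ℓ μ} / v(Q̃)^{ℓ μ} = ϖ^{m ε} / (...)` with `(...)` in `ϖ^{ℓ Z[1/p]}`, and
the left side is in `ϖ^{ℓ Z[1/p]}`, so `ℓ ∣ m ε` (`Val.dvd_of_zpow`), `ℓ ∣ ε`.
-/

open Polynomial

open scoped Classical

namespace Pool.Agent.Lib.MP_89bcae_ag.Sup

universe u

variable {F M : Type u} [Field F] [Field M] [Algebra F M] {v : AbsoluteValue M ℝ} {a : F} {t : M}

lemma LocCtx.L06_v_aeval (h : LocCtx v a t) {R : F[X]} (hR : R ≠ 0) {θ : M} {r : F}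
    (hr : v (θ - algebraMap F M r) < 1) :
    v (aeval θ R) = v (θ - algebraMap F M r) ^ R.rootMultiplicity r := by
  obtain ⟨q, hq, hqr⟩ := exists_eq_pow_rootMultiplicity_mul_and_not_dvd R hR r
  have h1 : q.eval r ≠ 0 := fun h0 => hqr (dvd_iff_isRoot.mpr h0)
  have h2 : v (aeval θ q) = 1 := h.v_eq_one (h.residue_eval hr q) h1
  have h3 : aeval θ R = (θ - algebraMap F M r) ^ R.rootMultiplicity r * aeval θ q := by
    conv_lhs => rw [hq]
    rw [map_mul, map_pow, map_sub, aeval_X, aeval_C]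
  rw [h3, map_mul, map_pow, h2, mul_one]

lemma L06_prod_perm {N : Type*} [CommMonoid N] (σ : M ≃+* M) (S : Finset M)
    (hS : ∀ θ ∈ S, σ θ ∈ S) (φ : M → N) :
    ∏ θ ∈ S, φ (σ θ) = ∏ θ ∈ S, φ θ := by
  have h1 : S.image σ = S := by
    apply Finset.eq_of_subset_of_card_le
    · intro x hx
      obtain ⟨y, hy, rfl⟩ := Finset.mem_image.mp hx
      exact hS y hy
    · rw [Finset.card_image_of_injective _ σ.injective]
  conv_rhs => rw [← h1]
  rw [Finset.prod_image (fun x _ y _ h => σ.injective h)]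

lemma L06_zpow_congr {ℓ : ℕ} {ξ : M} (hξ : IsPrimitiveRoot ξ ℓ) (hξ0 : ξ ≠ 0) {i j : ℤ}
    (hij : (ℓ : ℤ) ∣ i - j) : ξ ^ i = ξ ^ j := by
  have h1 : ξ ^ (i - j) = 1 := (hξ.zpow_eq_one_iff_dvd _).mpr hij
  have h2 : ξ ^ i = ξ ^ (i - j) * ξ ^ j := by
    rw [← zpow_add₀ hξ0, sub_add_cancel]
  rw [h2, h1, one_mul]

theorem LocCtx.good_place (h : LocCtx v a t) {ℓ p : ℕ} (hp : p.Coprime ℓ) {g : F[X]}
    (hg : g.Monic) (hm : g.natDegree ≠ 0) (hmℓ : g.natDegree.Coprime ℓ) {d : M} (hd : d ≠ 0)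
    [hG : IsGood ℓ (locPoly g t d)] {ζ : F} (hζ : IsPrimitiveRoot ζ ℓ)
    (hζ' : IsPrimitiveRoot (algebraMap F M ζ) ℓ)
    {Γ : Subgroup (Sym (locPoly g t d))} (hΓ : LocGrp p F v t (v (t - algebraMap F M a)) Γ)
    (hdv : v d = 1)
    (horb : ∀ r : F, ∀ θ ∈ near v (locPoly g t d) r, ∀ θ' ∈ near v (locPoly g t d) r,
      ∃ σ ∈ Γ, (σ : M ≃+* M) θ = θ')
    {R : F[X]} (hR : R ≠ 0) {z : M → M}
    (hz : ∀ θ ∈ rts (locPoly g t d), z θ ^ ℓ = aeval θ R) (Q : Jac ℓ (locPoly g t d))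
    (hQ : ∀ σ ∈ Γ, ∃ n : M → ℤ, symJ σ Q - Q = ram n ∧ ∀ θ ∈ rts (locPoly g t d),
      (σ : M ≃+* M) (z θ) = algebraMap F M ζ ^ n ((σ : M ≃+* M) θ) * z ((σ : M ≃+* M) θ))
    (hsum : ℓ ∣ ∑ r ∈ (g - C a).roots.toFinset, R.rootMultiplicity r)
    {r : F} (hr : g.eval r = a) : ℓ ∣ R.rootMultiplicity r := by
  have hAC : IsAlgClosed M := hG.alg
  have hs : (locPoly g t d).Separable := hG.separable
  have hℓ0 : ℓ ≠ 0 := hG.prime.ne_zero
  have hNZ : NeZero ℓ := ⟨hℓ0⟩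
  have hf0 : locPoly g t d ≠ 0 := locPoly_ne_zero hg hm hd
  have hϖ0 : 0 < v (t - algebraMap F M a) := hΓ.pos
  have hϖ1 : v (t - algebraMap F M a) < 1 := hΓ.lt_one
  have hζ0 : algebraMap F M ζ ≠ 0 := hζ'.ne_zero hℓ0
  have hga : g - C a ≠ 0 := by
    intro h0
    apply hm
    rw [← natDegree_sub_C (p := g) (a := a), h0, natDegree_zero]
  have hrts : ∀ θ, θ ∈ rts (locPoly g t d) ↔ (locPoly g t d).eval θ = 0 := fun θ => mem_rts hf0
  have hev : ∀ θ ∈ rts (locPoly g t d), aeval θ g = t := fun θ hθ =>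
    (eval_locPoly_eq_zero hd).mp ((hrts θ).mp hθ)
  have hnear : ∀ r' : F, ∀ θ, θ ∈ near v (locPoly g t d) r' ↔
      θ ∈ rts (locPoly g t d) ∧ v (θ - algebraMap F M r') < 1 := by
    intro r' θ
    unfold near
    rw [Finset.mem_filter]
  -- residues
  have hres : ∀ θ ∈ rts (locPoly g t d), ∃ r' : F, v (θ - algebraMap F M r') < 1 ∧
      g.eval r' = a := by
    intro θ hθ
    obtain ⟨c, hc⟩ := h.residue θ (h.v_root_le hg hm (hev θ hθ))
    exact ⟨c, hc, h.eval_residue (hev θ hθ) hc⟩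
  choose! res hres1 hres2 using hres
  have hgroup : ∀ φ : M → ℝ, ∏ θ ∈ rts (locPoly g t d), φ θ =
      ∏ r' ∈ (g - C a).roots.toFinset, ∏ θ ∈ near v (locPoly g t d) r', φ θ := by
    intro φ
    rw [← Finset.prod_fiberwise_of_maps_to (t := (g - C a).roots.toFinset) (g := res) ?_ φ]
    · refine Finset.prod_congr rfl fun r' _ => ?_
      refine Finset.prod_congr ?_ fun _ _ => rfl
      unfold near
      apply Finset.filter_congr
      intro θ hθ
      constructor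
      · rintro rfl
        exact hres1 θ hθ
      · intro h'
        exact h.residue_unique (hres1 θ hθ) h'
    · intro θ hθ
      rw [Multiset.mem_toFinset, mem_roots hga, IsRoot.def, eval_sub, eval_C, hres2 θ hθ, sub_self]
  have hroot : ∀ r' ∈ (g - C a).roots.toFinset, g.eval r' = a := by
    intro r' hr'
    rw [Multiset.mem_toFinset, mem_roots hga, IsRoot.def, eval_sub, eval_C, sub_eq_zero] at hr'
    exact hr'
  -- the action of `Γ`
  have hσrts : ∀ σ ∈ Γ, ∀ θ ∈ rts (locPoly g t d), (σ : M ≃+* M) θ ∈ rts (locPoly g t d) := by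
    intro σ _ θ hθ
    rw [hrts] at hθ ⊢
    exact (eval_sym_eq_zero σ).mpr hθ
  have hσnear : ∀ r' : F, ∀ σ ∈ Γ, ∀ θ ∈ near v (locPoly g t d) r',
      (σ : M ≃+* M) θ ∈ near v (locPoly g t d) r' := by
    intro r' σ hσ θ hθ
    rw [hnear] at hθ ⊢
    refine ⟨hσrts σ hσ θ hθ.1, ?_⟩
    have e1 : (σ : M ≃+* M) θ - algebraMap F M r' = (σ : M ≃+* M) (θ - algebraMap F M r') := by
      rw [map_sub, hΓ.fix σ hσ]
    rw [e1, hΓ.inv σ hσ]
    exact hθ.2
  have hfixζ : ∀ σ ∈ Γ, (σ : M ≃+* M) (algebraMap F M ζ) = algebraMap F M ζ :=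
    fun σ hσ => hΓ.fix σ hσ ζ
  have hstab : ∀ σ ∈ (Γ : Set (Sym (locPoly g t d))),
      symJ σ (Q - zJ (algebraMap F M ζ) hζ'.pow_eq_one Q) =
        Q - zJ (algebraMap F M ζ) hζ'.pow_eq_one Q := by
    intro σ hσ
    obtain ⟨n, hn, -⟩ := hQ σ hσ
    have e1 : symJ σ Q = Q + ram n := by
      rw [← hn]
      abel
    rw [map_sub, ← zJ_symJ _ _ σ (hfixζ σ hσ), e1, map_add, zJ_ram]
    abel
  obtain ⟨D, hDcl, hDfix⟩ := exists_stable (algebraMap F M ζ) hζ'
    (Γ : Set (Sym (locPoly g t d))) _ hstab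
  obtain ⟨z', hz', hkum⟩ := kummer_formula (algebraMap F M ζ) hζ' Q D hDcl.symm
  have hc : ∀ σ ∈ Γ, ∃ c : ℤ, ∀ θ ∈ rts (locPoly g t d), (σ : M ≃+* M) (z θ / z' θ) =
      algebraMap F M ζ ^ c * (z ((σ : M ≃+* M) θ) / z' ((σ : M ≃+* M) θ)) := by
    intro σ hσ
    obtain ⟨n, hn, hnz⟩ := hQ σ hσ
    have hDσ := hDfix σ hσ
    have hex : ∀ θ ∈ rts (locPoly g t d), ∃ i : ℤ, (σ : M ≃+* M) (z' θ) =
        algebraMap F M ζ ^ i * z' ((σ : M ≃+* M) θ) := by
      intro θ hθ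
      have hθ0 : (locPoly g t d).eval θ = 0 := (hrts θ).mp hθ
      have hσθ0 : (locPoly g t d).eval ((σ : M ≃+* M) θ) = 0 :=
        (hrts _).mp (hσrts σ hσ θ hθ)
      have h0 : z' ((σ : M ≃+* M) θ) ≠ 0 := (hz' _ hσθ0).1
      have h1 : ((σ : M ≃+* M) (z' θ) / z' ((σ : M ≃+* M) θ)) ^ ℓ = 1 := by
        rw [div_pow, ← map_pow, (hz' θ hθ0).2, (hz' _ hσθ0).2, map_mul, sym_uval σ D hDσ,
          sym_atR σ D hDσ, map_zpow₀, map_pow, map_neg, map_one]
        apply div_self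
        apply mul_ne_zero
        · apply zpow_ne_zero
          apply pow_ne_zero
          exact neg_ne_zero.mpr one_ne_zero
        · exact uval_ne_zero D hσθ0
      obtain ⟨i, _, hi⟩ := hζ'.eq_pow_of_pow_eq_one h1
      exact ⟨i, by rw [zpow_natCast, hi, div_mul_cancel₀ _ h0]⟩
    let n' : M → ℤ := fun θ'' =>
      if h : (σ : M ≃+* M).symm θ'' ∈ rts (locPoly g t d) then (hex _ h).choose else 0
    have hn' : ∀ θ, (locPoly g t d).eval θ = 0 → (σ : M ≃+* M) (z' θ) =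
        algebraMap F M ζ ^ n' ((σ : M ≃+* M) θ) * z' ((σ : M ≃+* M) θ) := by
      intro θ hθ
      have hθ' : θ ∈ rts (locPoly g t d) := (hrts θ).mpr hθ
      have key : ∀ θ₁ (h₁ : θ₁ ∈ rts (locPoly g t d)), θ₁ = θ → (σ : M ≃+* M) (z' θ) =
          algebraMap F M ζ ^ (hex θ₁ h₁).choose * z' ((σ : M ≃+* M) θ) := by
        rintro θ₁ h₁ rfl
        exact (hex θ₁ h₁).choose_spec
      have e1 : (σ : M ≃+* M).symm ((σ : M ≃+* M) θ) = θ := RingEquiv.symm_apply_apply _ _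
      have e2 : (σ : M ≃+* M).symm ((σ : M ≃+* M) θ) ∈ rts (locPoly g t d) := by
        rw [e1]
        exact hθ'
      have e3 : n' ((σ : M ≃+* M) θ) = (hex _ e2).choose := dif_pos e2
      rw [e3]
      exact key _ e2 e1
    have hk := hkum σ (hfixζ σ hσ) hDσ n' hn'
    have h0 : (ram (fun θ => n θ - n' θ) : Jac ℓ (locPoly g t d)) = 0 := by
      rw [ram_sub, ← hn, ← hk, sub_self]
    obtain ⟨c, hc⟩ := (ram_eq_zero_iff (algebraMap F M ζ) hζ' _).mp h0
    refine ⟨c, fun θ hθ => ?_⟩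
    have h1 := hc ((σ : M ≃+* M) θ) ((hrts _).mp (hσrts σ hσ θ hθ))
    rw [map_div₀, hnz θ hθ, hn' θ ((hrts θ).mp hθ), mul_div_mul_comm, ← zpow_sub₀ hζ0,
      L06_zpow_congr hζ' hζ0 h1]
  -- values
  have hvθ : ∀ r' : F, ∀ θ ∈ near v (locPoly g t d) r', v (θ - algebraMap F M r') ≠ 0 := by
    intro r' θ hθ h0
    have h1 := h.v_sub_pow hg hm hd hs hθ
    rw [h0, zero_pow (Finset.card_ne_zero_of_mem hθ)] at h1
    exact hϖ0.ne h1
  have hz0 : ∀ θ ∈ rts (locPoly g t d), z θ ≠ 0 := by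
    intro θ hθ h0
    have h1 := hz θ hθ
    rw [h0, zero_pow hℓ0] at h1
    have h2 := h.L06_v_aeval hR (hres1 θ hθ)
    rw [← h1, map_zero] at h2
    exact pow_ne_zero _ (hvθ (res θ) θ ((hnear _ _).mpr ⟨hθ, hres1 θ hθ⟩)) h2.symm
  have hq0 : ∀ θ ∈ rts (locPoly g t d), z θ / z' θ ≠ 0 := fun θ hθ =>
    div_ne_zero (hz0 θ hθ) (hz' θ ((hrts θ).mp hθ)).1
  obtain ⟨Qt, hQt⟩ : ∃ Qt, Qt = ∏ θ ∈ rts (locPoly g t d), (z θ / z' θ) := ⟨_, rfl⟩
  have hQt0 : Qt ≠ 0 := by
    rw [hQt]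
    exact Finset.prod_ne_zero_iff.mpr hq0
  have hx : ∀ σ ∈ Γ, ∀ θ ∈ rts (locPoly g t d),
      (σ : M ≃+* M) ((z θ / z' θ) ^ g.natDegree / Qt) =
        (z ((σ : M ≃+* M) θ) / z' ((σ : M ≃+* M) θ)) ^ g.natDegree / Qt := by
    intro σ hσ θ hθ
    obtain ⟨c, hc⟩ := hc σ hσ
    have h1 : (σ : M ≃+* M) Qt = (algebraMap F M ζ ^ c) ^ g.natDegree * Qt := by
      rw [hQt, map_prod, Finset.prod_congr rfl (fun θ hθ => hc θ hθ), Finset.prod_mul_distrib,
        Finset.prod_const, card_rts hg hm hd hs]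
      congr 1
      exact L06_prod_perm (σ : M ≃+* M) _ (hσrts σ hσ) (fun θ => z θ / z' θ)
    rw [map_div₀, map_pow, hc θ hθ, h1, mul_pow,
      mul_div_mul_left _ _ (pow_ne_zero _ (zpow_ne_zero _ hζ0))]
  have hvx : ∀ θ ∈ near v (locPoly g t d) r, Val p (v (t - algebraMap F M a))
      (v ((z θ / z' θ) ^ g.natDegree / Qt) ^ (near v (locPoly g t d) r).card) := by
    intro θ hθ
    have h1 : ∏ θ' ∈ near v (locPoly g t d) r, v ((z θ' / z' θ') ^ g.natDegree / Qt) =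
        v ((z θ / z' θ) ^ g.natDegree / Qt) ^ (near v (locPoly g t d) r).card := by
      apply Finset.prod_eq_pow_card
      intro θ' hθ'
      obtain ⟨σ, hσ, rfl⟩ := horb r θ hθ θ' hθ'
      rw [← hx σ hσ θ ((hnear _ _).mp hθ).1, hΓ.inv σ hσ]
    rw [← h1, ← map_prod]
    apply hΓ.disc
    · exact Finset.prod_ne_zero_iff.mpr fun θ' hθ' =>
        div_ne_zero (pow_ne_zero _ (hq0 θ' ((hnear _ _).mp hθ').1)) hQt0
    · intro σ hσ
      rw [map_prod, Finset.prod_congr rfl (fun θ' hθ' => hx σ hσ θ' ((hnear _ _).mp hθ').1)]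
      exact L06_prod_perm (σ : M ≃+* M) _ (hσnear r σ hσ)
        (fun θ => (z θ / z' θ) ^ g.natDegree / Qt)
  have hvq : ∀ θ ∈ rts (locPoly g t d), v (z θ / z' θ) ^ ℓ = v (aeval θ R) / v (uval D θ) := by
    intro θ hθ
    have h1 : v (z' θ) ^ ℓ = v (uval D θ) := by
      rw [← map_pow, (hz' θ ((hrts θ).mp hθ)).2, map_mul, map_zpow₀, map_pow, AbsoluteValue.map_neg,
        map_one, one_pow, one_zpow, one_mul]
    rw [map_div₀, div_pow, h1, ← map_pow, hz θ hθ]
  have hdv' : Val p (v (t - algebraMap F M a) ^ ℓ) (v d) := by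
    rw [hdv]
    exact Val.one _ _
  have huv : ∀ r' : F, Val p (v (t - algebraMap F M a) ^ ℓ)
      (∏ θ ∈ near v (locPoly g t d) r', v (uval D θ)) := by
    intro r'
    rcases (near v (locPoly g t d) r').eq_empty_or_nonempty with he | ⟨θ, hθ⟩
    · rw [he, Finset.prod_empty]
      exact Val.one _ _
    · have h1 : ∏ θ' ∈ near v (locPoly g t d) r', v (uval D θ') =
          v (uval D θ) ^ (near v (locPoly g t d) r').card := by
        apply Finset.prod_eq_pow_card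
        intro θ' hθ'
        obtain ⟨σ, hσ, rfl⟩ := horb r' θ hθ θ' hθ'
        rw [← sym_uval σ D (hDfix σ hσ), hΓ.inv σ hσ]
      rw [h1]
      exact h.val_uval hg hm hd hmℓ hΓ hdv' D hDfix (horb r') hθ
  have hRv : ∀ r' : F, g.eval r' = a → ∏ θ ∈ near v (locPoly g t d) r', v (aeval θ R) =
      v (t - algebraMap F M a) ^ R.rootMultiplicity r' := by
    intro r' hr'
    rw [Finset.prod_congr rfl (fun θ hθ => h.L06_v_aeval hR ((hnear _ _).mp hθ).2),
      Finset.prod_pow]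
    congr 1
    have h1 := h.prod_near hg hm hd hs (r := r') (x := algebraMap F M r')
      (by rw [sub_self, map_zero]; exact one_pos)
    have h2 : aeval (algebraMap F M r') g = algebraMap F M a := by
      rw [aeval_algebraMap_apply, coe_aeval_eq_eval, hr']
    rw [h2, AbsoluteValue.map_sub] at h1
    rw [h1]
    exact Finset.prod_congr rfl fun θ _ => AbsoluteValue.map_sub _ _ _
  have hQv : Val p (v (t - algebraMap F M a) ^ ℓ) (v Qt ^ ℓ) := by
    have h1 : v Qt ^ ℓ = (v (t - algebraMap F M a) ^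
        ∑ r' ∈ (g - C a).roots.toFinset, R.rootMultiplicity r') *
        (∏ r' ∈ (g - C a).roots.toFinset,
          ∏ θ ∈ near v (locPoly g t d) r', v (uval D θ))⁻¹ := by
      rw [hQt, map_prod, ← Finset.prod_pow, Finset.prod_congr rfl hvq, Finset.prod_div_distrib,
        hgroup (fun θ => v (aeval θ R)), hgroup (fun θ => v (uval D θ)), div_eq_mul_inv,
        Finset.prod_congr rfl (fun r' hr' => hRv r' (hroot r' hr')), Finset.prod_pow_eq_pow_sum]
    rw [h1]
    obtain ⟨k, hk⟩ := hsum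
    apply Val.mul
    · rw [hk, pow_mul]
      exact ⟨0, k, by rw [pow_zero, pow_one, zpow_natCast]⟩
    · exact (Val.prod _ _ fun r' _ => huv r').inv
  -- conclusion
  have hne : (near v (locPoly g t d) r).Nonempty := by
    rw [← Finset.card_pos, h.card_near hg hm hd hs r, rootMultiplicity_pos hga, IsRoot.def,
      eval_sub, eval_C, hr, sub_self]
  obtain ⟨θ, hθ⟩ := hne
  have hθr := ((hnear _ _).mp hθ).1
  have hUθ : Val p (v (t - algebraMap F M a) ^ ℓ)
      (v (uval D θ) ^ (near v (locPoly g t d) r).card) :=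
    h.val_uval hg hm hd hmℓ hΓ hdv' D hDfix (horb r) hθ
  have hRθ : v (aeval θ R) ^ (near v (locPoly g t d) r).card =
      v (t - algebraMap F M a) ^ R.rootMultiplicity r := by
    rw [h.L06_v_aeval hR ((hnear _ _).mp hθ).2, ← pow_mul, mul_comm, pow_mul,
      h.v_sub_pow hg hm hd hs hθ]
  have hU0 : v (uval D θ) ≠ 0 := by
    rw [AbsoluteValue.ne_zero_iff]
    exact uval_ne_zero D ((hrts θ).mp hθr)
  have hQ0 : v Qt ≠ 0 := by
    rw [AbsoluteValue.ne_zero_iff]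
    exact hQt0
  have hmain : v (t - algebraMap F M a) ^ ((g.natDegree * R.rootMultiplicity r : ℕ) : ℤ) =
      (v ((z θ / z' θ) ^ g.natDegree / Qt) ^ (near v (locPoly g t d) r).card) ^ ℓ *
        ((v (uval D θ) ^ (near v (locPoly g t d) r).card) ^ g.natDegree *
        (v Qt ^ ℓ) ^ (near v (locPoly g t d) r).card) := by
    have e1 : v ((z θ / z' θ) ^ g.natDegree / Qt) ^ (near v (locPoly g t d) r).card =
        (v (z θ / z' θ) ^ g.natDegree) ^ (near v (locPoly g t d) r).card /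
          v Qt ^ (near v (locPoly g t d) r).card := by
      rw [map_div₀, map_pow, div_pow]
    have e2 : ((v (z θ / z' θ) ^ g.natDegree) ^ (near v (locPoly g t d) r).card) ^ ℓ =
        ((v (z θ / z' θ) ^ ℓ) ^ (near v (locPoly g t d) r).card) ^ g.natDegree := by
      rw [← pow_mul, ← pow_mul, ← pow_mul, ← pow_mul]
      congr 1
      ring
    have e3 : (v (uval D θ) ^ (near v (locPoly g t d) r).card) ^ g.natDegree ≠ 0 :=
      pow_ne_zero _ (pow_ne_zero _ hU0)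
    have e4 : (v Qt ^ ℓ) ^ (near v (locPoly g t d) r).card ≠ 0 :=
      pow_ne_zero _ (pow_ne_zero _ hQ0)
    have e5 : (v Qt ^ (near v (locPoly g t d) r).card) ^ ℓ =
        (v Qt ^ ℓ) ^ (near v (locPoly g t d) r).card := by
      rw [← pow_mul, ← pow_mul, mul_comm]
    rw [e1, div_pow, e2, hvq θ hθr, div_pow, hRθ, zpow_natCast, div_pow, e5,
      mul_comm g.natDegree, pow_mul]
    rw [div_mul_eq_mul_div, div_mul_eq_mul_div, div_div, eq_div_iff (mul_ne_zero e3 e4)]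
  have hfin : Val p (v (t - algebraMap F M a) ^ ℓ)
      (v (t - algebraMap F M a) ^ ((g.natDegree * R.rootMultiplicity r : ℕ) : ℤ)) := by
    rw [hmain]
    exact (Val.pow_self ℓ (hvx θ hθ)).mul ((hUθ.pow _).mul (hQv.pow _))
  have hdvd := Val.dvd_of_zpow hp hϖ0 hϖ1 _ hfin
  rw [Int.natCast_dvd_natCast] at hdvd
  exact hmℓ.symm.dvd_of_dvd_mul_left hdvd

end Pool.Agent.Lib.MP_89bcae_ag.Sup

end

section

/-!
ROW L08 (120-220 lines). Bad place: the part of the local class over `F((t - a))(δ)`.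

PROOF. `Γ₀ = {κ ∈ Γ | κ δ = δ}` is a subgroup.
(1) `LocGrp p F v t (v δ) Γ₀`: only the field `disc` is not clear. There is `τ₁` in `Γ` with
`τ₁ δ = ζ δ`: for `τ` in `Γ`, `(τ δ)^ℓ = τ d = d = δ^ℓ` (`τ` fixes `t` and `F`), so `τ δ = ζ^j δ` with
`0 ≤ j < ℓ`; if `j = 0` for all `τ`, then `δ` is fixed by `Γ` so `v(δ)^{p^s} = v(t - a)^i =
v(δ)^{ℓ i}` (`v d = v (t - a)`, `v_bad`), `p^s = ℓ i`, impossible as `p` is prime to `ℓ > 1`
(`Val.dvd_of_zpow`); so some `j ≠ 0`, and a power of that `τ` has `j = 1` (`ℓ` prime). Let `x ≠ 0` be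
fixed by `Γ₀` and `N = ∏_{i<ℓ} τ₁^i x`. `N` is fixed by `Γ`: for `κ` in `Γ₀`,
`κ τ₁^i x = τ₁^i (τ₁^{-i} κ τ₁^i) x = τ₁^i x` (`Γ₀` is normal in `Γ`: `ζ` is fixed by `Γ`), `τ₁` permutes
the factors cyclically as `τ₁^ℓ ∈ Γ₀`, and every `σ` in `Γ` is `τ₁^j κ`. So
`v(x)^ℓ = v(N)` is in `ϖ^{Z[1/p]}`, `ϖ = v(t-a) = v(δ)^ℓ`, and `Val.root` gives `Val p (v δ) (v x)`.
(2) By hypothesis with `j = 0`, `π Q = Q - Z Q` is fixed by `Γ₀` (`ram 0 = 0`). By R20 `π Q = cl D`,
`D` fixed by `Γ₀`. Kummer formula R21: `(z θ)^ℓ = ε^{atR D θ} uval D θ`, fixed by `κ` in `Γ₀` (`sym_uval`,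
`fix_root`). L05 with `Γ₀`, `ϖ := v δ`, `v d = (v δ)^ℓ`, `μ = 1` (`card_near`, simple roots):
`v ((z θ)^ℓ) = v(uval D θ)` is in `Val p ((v δ)^ℓ)`, so `κ (z θ) = z θ` by `root_fixed_of_val` with
`π' = δ`. Hence `n = 0` in R21 and `κ Q - Q = ram 0 = 0`.
-/

open Polynomial

open scoped Classical

namespace Pool.Agent.Lib.MP_89bcae_ag.Sup

universe u

variable {F M : Type u} [Field F] [Field M] [Algebra F M] {v : AbsoluteValue M ℝ} {a : F} {t : M}

private lemma l08_pow (τ : M ≃+* M) {δ z : M} (hτ : τ δ = z * δ) (hz : τ z = z) (n : ℕ) :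
    (τ ^ n) δ = z ^ n * δ := by
  induction n with
  | zero => simp
  | succ n ih =>
    rw [pow_succ', RingAut.mul_apply, ih, map_mul, map_pow, hz, hτ]
    ring

private lemma l08_aeval (τ : M ≃+* M) (hc : ∀ c : F, τ (algebraMap F M c) = algebraMap F M c)
    (ht : τ t = t) (D : F[X]) : τ (aeval t D) = aeval t D := by
  have h3 : τ (aeval t D) = aeval (τ t) D := by
    rw [aeval_def, aeval_def]
    have h4 := hom_eval₂ D (algebraMap F M) (τ : M →+* M) t
    have h5 : (τ : M →+* M).comp (algebraMap F M) = algebraMap F M := RingHom.ext hc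
    rw [h5] at h4
    exact h4
  rw [h3, ht]

/-- There is an element of `Γ` which maps `δ` to `ζ δ`. -/
theorem LocCtx.exists_tame (h : LocCtx v a t) {g D : F[X]} {δ : M} {ℓ p : ℕ} (hp : p.Coprime ℓ)
    (hB : BadCtx g D a t δ ℓ) [hG : IsGood ℓ (locPoly g t (aeval t D))] {ζ : F}
    (hζ : IsPrimitiveRoot ζ ℓ) (hζ' : IsPrimitiveRoot (algebraMap F M ζ) ℓ)
    {Γ : Subgroup (Sym (locPoly g t (aeval t D)))}
    (hΓ : LocGrp p F v t (v (t - algebraMap F M a)) Γ) :
    ∃ τ ∈ Γ, (τ : M ≃+* M) δ = algebraMap F M ζ * δ := by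
  have hM : IsAlgClosed M := hG.alg
  have hℓ := hG.prime
  have hδ0 : δ ≠ 0 := by
    rintro rfl
    apply hB.ne
    rw [← hB.delta, zero_pow hℓ.ne_zero]
  have hd := (h.v_bad hB).1
  have hvδ : v δ ^ ℓ = v (t - algebraMap F M a) := by rw [← map_pow, hB.delta, hd]
  have hv0 : 0 < v δ := v.pos hδ0
  have hv1 : v δ < 1 := by
    by_contra hcon
    push Not at hcon
    have h1 : 1 ≤ v δ ^ ℓ := one_le_pow₀ hcon
    rw [hvδ] at h1
    exact absurd h.lt_one (not_lt.mpr h1)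
  -- the values of the automorphisms at `δ`
  have hval : ∀ τ ∈ Γ, ∃ j < ℓ, (τ : M ≃+* M) δ = algebraMap F M ζ ^ j * δ := by
    intro τ hτ
    have h1 : ((τ : M ≃+* M) δ) ^ ℓ = δ ^ ℓ := by
      rw [← map_pow, hB.delta]
      exact l08_aeval (τ : M ≃+* M) (hΓ.fix τ hτ) (hΓ.fixt τ hτ) D
    have h3 : ((τ : M ≃+* M) δ / δ) ^ ℓ = 1 := by
      rw [div_pow, h1, div_self (pow_ne_zero ℓ hδ0)]
    have : NeZero ℓ := ⟨hℓ.ne_zero⟩
    obtain ⟨j, hj, hj'⟩ := hζ'.eq_pow_of_pow_eq_one h3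
    exact ⟨j, hj, by rw [hj', div_mul_cancel₀ _ hδ0]⟩
  obtain ⟨τ, hτ, j, hj, hj0, hτj⟩ : ∃ τ ∈ Γ, ∃ j < ℓ, j ≠ 0 ∧
      (τ : M ≃+* M) δ = algebraMap F M ζ ^ j * δ := by
    by_contra hcon
    push Not at hcon
    have h1 : ∀ σ ∈ Γ, (σ : M ≃+* M) δ = δ := by
      intro σ hσ
      obtain ⟨j, hj, hj'⟩ := hval σ hσ
      by_cases hj0 : j = 0
      · rw [hj', hj0, pow_zero, one_mul]
      · exact absurd hj' (hcon σ hσ j hj hj0)
    have h3 := hΓ.disc δ hδ0 h1
    rw [← hvδ] at h3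
    have h4 := Val.dvd_of_zpow hp hv0 hv1 1 (by rw [zpow_one]; exact h3)
    have h5 : (ℓ : ℤ) ≤ 1 := Int.le_of_dvd one_pos h4
    have h6 := hℓ.one_lt
    omega
  -- a power
  have hcop : Nat.Coprime j ℓ :=
    Nat.Coprime.symm ((Nat.Prime.coprime_iff_not_dvd hℓ).mpr
      (fun h0 => absurd (Nat.le_of_dvd (Nat.pos_of_ne_zero hj0) h0) (not_le.mpr hj)))
  obtain ⟨i, -, hi⟩ := Nat.exists_mul_mod_eq_one_of_coprime hcop hℓ.one_lt
  refine ⟨τ ^ i, Subgroup.pow_mem _ hτ i, ?_⟩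
  have h1 : ((τ ^ i : Sym (locPoly g t (aeval t D))) : M ≃+* M) = (τ : M ≃+* M) ^ i := rfl
  rw [h1, l08_pow (τ : M ≃+* M) hτj (by rw [map_pow, hΓ.fix τ hτ]), ← pow_mul]
  congr 1
  rw [← Nat.div_add_mod (j * i) ℓ, hi, pow_add, pow_mul, hζ'.pow_eq_one, one_pow, one_mul,
    pow_one]


theorem LocCtx.bad_kernel (h : LocCtx v a t) {g D : F[X]} {δ : M} {ℓ p : ℕ} (hp : p.Coprime ℓ)
    (hB : BadCtx g D a t δ ℓ) [hG : IsGood ℓ (locPoly g t (aeval t D))] {ζ : F}
    (hζ : IsPrimitiveRoot ζ ℓ) (hζ' : IsPrimitiveRoot (algebraMap F M ζ) ℓ)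
    {Γ : Subgroup (Sym (locPoly g t (aeval t D)))}
    (hΓ : LocGrp p F v t (v (t - algebraMap F M a)) Γ)
    (Q : Jac ℓ (locPoly g t (aeval t D))) (r : M → ℤ)
    (hQ : ∀ τ ∈ Γ, ∀ j : ℤ, (τ : M ≃+* M) δ = algebraMap F M ζ ^ j * δ →
      (symJ τ Q - Q) - zJ (algebraMap F M ζ) hζ'.pow_eq_one (symJ τ Q - Q) =
        ram fun θ => j * r θ)
    {κ : Sym (locPoly g t (aeval t D))} (hκ : κ ∈ Γ) (hκδ : (κ : M ≃+* M) δ = δ) :
    symJ κ Q = Q := by
  have hM : IsAlgClosed M := hG.alg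
  have hℓ := hG.prime
  have hδ0 : δ ≠ 0 := by
    rintro rfl
    apply hB.ne
    rw [← hB.delta, zero_pow hℓ.ne_zero]
  have hd := (h.v_bad hB).1
  have hvδ : v δ ^ ℓ = v (t - algebraMap F M a) := by rw [← map_pow, hB.delta, hd]
  have hv0 : 0 < v δ := v.pos hδ0
  have hv1 : v δ < 1 := by
    by_contra hcon
    push Not at hcon
    have h1 : 1 ≤ v δ ^ ℓ := one_le_pow₀ hcon
    rw [hvδ] at h1
    exact absurd h.lt_one (not_lt.mpr h1)
  have hsep := hG.separable
  -- the subgroup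
  let Γ₀ : Subgroup (Sym (locPoly g t (aeval t D))) :=
    { carrier := {κ | κ ∈ Γ ∧ (κ : M ≃+* M) δ = δ}
      mul_mem' := by
        rintro x y ⟨hx, hx'⟩ ⟨hy, hy'⟩
        refine ⟨Γ.mul_mem hx hy, ?_⟩
        show (x : M ≃+* M) ((y : M ≃+* M) δ) = δ
        rw [hy', hx']
      one_mem' := ⟨Γ.one_mem, rfl⟩
      inv_mem' := by
        rintro x ⟨hx, hx'⟩
        refine ⟨Γ.inv_mem hx, ?_⟩
        show (x : M ≃+* M).symm δ = δ
        rw [RingEquiv.symm_apply_eq, hx'] }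
  have hΓ₀ : ∀ κ ∈ Γ₀, κ ∈ Γ ∧ (κ : M ≃+* M) δ = δ := fun κ hκ => hκ
  obtain ⟨τ, hτ, hτδ⟩ := h.exists_tame hp hB hζ hζ' hΓ
  have hτζ : (τ : M ≃+* M) (algebraMap F M ζ) = algebraMap F M ζ := hΓ.fix τ hτ ζ
  have hτi : ∀ i : ℕ, ((τ ^ i : Sym (locPoly g t (aeval t D))) : M ≃+* M) δ =
      algebraMap F M ζ ^ i * δ := fun i => l08_pow (τ : M ≃+* M) hτδ hτζ i
  have hfixζ : ∀ σ ∈ Γ, ∀ i : ℕ, (σ : M ≃+* M) (algebraMap F M ζ ^ i) =
      algebraMap F M ζ ^ i := fun σ hσ i => by rw [map_pow, hΓ.fix σ hσ]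
  have hζ0 : algebraMap F M ζ ≠ 0 := hζ'.ne_zero hℓ.ne_zero
  -- the values of the automorphisms at `δ`
  have hval : ∀ σ ∈ Γ, ∃ j : ℕ, (σ : M ≃+* M) δ = algebraMap F M ζ ^ j * δ := by
    intro σ hσ
    have h1 : ((σ : M ≃+* M) δ) ^ ℓ = δ ^ ℓ := by
      rw [← map_pow, hB.delta]
      exact l08_aeval (σ : M ≃+* M) (hΓ.fix σ hσ) (hΓ.fixt σ hσ) D
    have h3 : ((σ : M ≃+* M) δ / δ) ^ ℓ = 1 := by
      rw [div_pow, h1, div_self (pow_ne_zero ℓ hδ0)]
    have : NeZero ℓ := ⟨hℓ.ne_zero⟩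
    obtain ⟨j, hj, hj'⟩ := hζ'.eq_pow_of_pow_eq_one h3
    exact ⟨j, by rw [hj', div_mul_cancel₀ _ hδ0]⟩
  have hgrp : LocGrp p F v t (v δ) Γ₀ := by
    refine ⟨hv0, hv1, fun σ hσ => hΓ.inv σ hσ.1, fun σ hσ => hΓ.fix σ hσ.1,
      fun σ hσ => hΓ.fixt σ hσ.1, fun x hx0 hx => ?_⟩
    -- the norm
    have hinv : ∀ (σ : Sym (locPoly g t (aeval t D))) (y : M),
        ((σ⁻¹ : Sym (locPoly g t (aeval t D))) : M ≃+* M) ((σ : M ≃+* M) y) = y := fun σ y =>
      (σ : M ≃+* M).symm_apply_apply y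
    have hκx : ∀ κ ∈ Γ₀, ∀ i : ℕ, (κ : M ≃+* M)
        (((τ ^ i : Sym (locPoly g t (aeval t D))) : M ≃+* M) x) =
          ((τ ^ i : Sym (locPoly g t (aeval t D))) : M ≃+* M) x := by
      intro κ hκ i
      have h1 : (τ ^ i)⁻¹ * κ * τ ^ i ∈ Γ₀ := by
        refine ⟨Γ.mul_mem (Γ.mul_mem (Γ.inv_mem (Γ.pow_mem hτ i)) (hΓ₀ κ hκ).1)
          (Γ.pow_mem hτ i), ?_⟩
        show (((τ ^ i)⁻¹ : Sym (locPoly g t (aeval t D))) : M ≃+* M) ((κ : M ≃+* M)
          (((τ ^ i : Sym (locPoly g t (aeval t D))) : M ≃+* M) δ)) = δ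
        rw [hτi, map_mul, hfixζ κ (hΓ₀ κ hκ).1, (hΓ₀ κ hκ).2, ← hτi, hinv]
      have h3 := hx _ h1
      change (((τ ^ i)⁻¹ : Sym (locPoly g t (aeval t D))) : M ≃+* M) ((κ : M ≃+* M)
          (((τ ^ i : Sym (locPoly g t (aeval t D))) : M ≃+* M) x)) = x at h3
      have h4 := congrArg (((τ ^ i : Sym (locPoly g t (aeval t D))) : M ≃+* M)) h3
      exact ((((τ ^ i : Sym (locPoly g t (aeval t D))) : M ≃+* M)).apply_symm_apply _).symm.trans h4
    have hN : ∀ σ ∈ Γ, (σ : M ≃+* M) (∏ i ∈ Finset.range ℓ,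
        ((τ ^ i : Sym (locPoly g t (aeval t D))) : M ≃+* M) x) =
          ∏ i ∈ Finset.range ℓ, ((τ ^ i : Sym (locPoly g t (aeval t D))) : M ≃+* M) x := by
      have hN0 : ∀ σ ∈ Γ₀, (σ : M ≃+* M) (∏ i ∈ Finset.range ℓ,
          ((τ ^ i : Sym (locPoly g t (aeval t D))) : M ≃+* M) x) =
            ∏ i ∈ Finset.range ℓ, ((τ ^ i : Sym (locPoly g t (aeval t D))) : M ≃+* M) x := by
        intro σ hσ
        rw [map_prod]
        exact Finset.prod_congr rfl fun i _ => hκx σ hσ i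
      have hτN : (τ : M ≃+* M) (∏ i ∈ Finset.range ℓ,
          ((τ ^ i : Sym (locPoly g t (aeval t D))) : M ≃+* M) x) =
            ∏ i ∈ Finset.range ℓ, ((τ ^ i : Sym (locPoly g t (aeval t D))) : M ≃+* M) x := by
        rw [map_prod]
        have h1 : ∀ i ∈ Finset.range ℓ, (τ : M ≃+* M)
            (((τ ^ i : Sym (locPoly g t (aeval t D))) : M ≃+* M) x) =
              ((τ ^ (i + 1) : Sym (locPoly g t (aeval t D))) : M ≃+* M) x := by
          intro i _
          rw [pow_succ']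
          rfl
        rw [Finset.prod_congr rfl h1]
        have h3 : ((τ ^ ℓ : Sym (locPoly g t (aeval t D))) : M ≃+* M) x = x := by
          refine hx _ ⟨Γ.pow_mem hτ ℓ, ?_⟩
          rw [hτi, hζ'.pow_eq_one, one_mul]
        obtain ⟨m, hm⟩ : ∃ m, ℓ = m + 1 := ⟨ℓ - 1, by have := hℓ.pos; omega⟩
        have h4 : ((τ ^ (m + 1) : Sym (locPoly g t (aeval t D))) : M ≃+* M) x = x := by
          rw [← hm]; exact h3
        have h5 : ∏ i ∈ Finset.range ℓ,
            ((τ ^ (i + 1) : Sym (locPoly g t (aeval t D))) : M ≃+* M) x =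
            (∏ i ∈ Finset.range m,
              ((τ ^ (i + 1) : Sym (locPoly g t (aeval t D))) : M ≃+* M) x) * x := by
          rw [hm, Finset.prod_range_succ, h4]
        have h6 : ∏ i ∈ Finset.range ℓ,
            ((τ ^ i : Sym (locPoly g t (aeval t D))) : M ≃+* M) x =
            (∏ i ∈ Finset.range m,
              ((τ ^ (i + 1) : Sym (locPoly g t (aeval t D))) : M ≃+* M) x) * x := by
          rw [hm, Finset.prod_range_succ']
          rfl
        rw [h5, h6]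
      have hτN' : ∀ i : ℕ, (((τ ^ i : Sym (locPoly g t (aeval t D))) : M ≃+* M))
          (∏ i ∈ Finset.range ℓ,
            ((τ ^ i : Sym (locPoly g t (aeval t D))) : M ≃+* M) x) =
            ∏ i ∈ Finset.range ℓ, ((τ ^ i : Sym (locPoly g t (aeval t D))) : M ≃+* M) x := by
        intro i
        induction i with
        | zero => rfl
        | succ i ih =>
          rw [pow_succ]
          show ((τ ^ i : Sym (locPoly g t (aeval t D))) : M ≃+* M) ((τ : M ≃+* M)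
            (∏ i ∈ Finset.range ℓ,
              ((τ ^ i : Sym (locPoly g t (aeval t D))) : M ≃+* M) x)) = _
          rw [hτN, ih]
      intro σ hσ
      obtain ⟨j, hj⟩ := hval σ hσ
      have h1 : (τ ^ j)⁻¹ * σ ∈ Γ₀ := by
        refine ⟨Γ.mul_mem (Γ.inv_mem (Γ.pow_mem hτ j)) hσ, ?_⟩
        show (((τ ^ j)⁻¹ : Sym (locPoly g t (aeval t D))) : M ≃+* M) ((σ : M ≃+* M) δ) = δ
        rw [hj, ← hτi, hinv]
      have h3 := hN0 _ h1
      change (((τ ^ j)⁻¹ : Sym (locPoly g t (aeval t D))) : M ≃+* M) ((σ : M ≃+* M) _) = _ at h3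
      have h4 := congrArg (((τ ^ j : Sym (locPoly g t (aeval t D))) : M ≃+* M)) h3
      rw [hτN' j] at h4
      exact ((((τ ^ j : Sym (locPoly g t (aeval t D))) : M ≃+* M)).apply_symm_apply _).symm.trans h4
    have hN1 : v (∏ i ∈ Finset.range ℓ,
        ((τ ^ i : Sym (locPoly g t (aeval t D))) : M ≃+* M) x) = v x ^ ℓ := by
      rw [map_prod, Finset.prod_congr rfl fun i _ => hΓ.inv _ (Γ.pow_mem hτ i) x,
        Finset.prod_const, Finset.card_range]
    have hN2 := hΓ.disc _ (Finset.prod_ne_zero_iff.mpr fun i _ =>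
      (EmbeddingLike.map_ne_zero_iff
        (f := ((τ ^ i : Sym (locPoly g t (aeval t D))) : M ≃+* M))).mpr hx0) hN
    rw [hN1, ← hvδ] at hN2
    exact Val.root hℓ.ne_zero hv0 (v.pos hx0) hN2
  -- the class `Q - Z Q`
  have hram0 : ∀ r : M → ℤ, (ram fun θ => 0 * r θ : Jac ℓ (locPoly g t (aeval t D))) = 0 := by
    intro r
    rw [ram_eq_zero_iff (algebraMap F M ζ) hζ']
    exact ⟨0, fun θ _ => by simp⟩
  have hstab : ∀ σ ∈ (Γ₀ : Set (Sym (locPoly g t (aeval t D)))),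
      symJ σ (Q - zJ (algebraMap F M ζ) hζ'.pow_eq_one Q) =
        Q - zJ (algebraMap F M ζ) hζ'.pow_eq_one Q := by
    intro σ hσ
    have h1 := hQ σ (hΓ₀ σ hσ).1 0 (by rw [zpow_zero, one_mul]; exact (hΓ₀ σ hσ).2)
    rw [hram0, map_sub, zJ_symJ _ _ σ (hΓ.fix σ (hΓ₀ σ hσ).1 ζ)] at h1
    rw [map_sub, ← sub_eq_zero, ← h1]
    abel
  obtain ⟨D', hD', hD'σ⟩ := exists_stable (algebraMap F M ζ) hζ'
    (Γ₀ : Set (Sym (locPoly g t (aeval t D))))
    (Q - zJ (algebraMap F M ζ) hζ'.pow_eq_one Q) hstab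
  obtain ⟨z, hz, hkum⟩ := kummer_formula (algebraMap F M ζ) hζ' Q D' hD'.symm
  have hκ₀ : κ ∈ Γ₀ := ⟨hκ, hκδ⟩
  have hfin := hkum κ (hΓ.fix κ hκ ζ) (hD'σ κ hκ₀) (fun _ => 0) (by
    intro θ hθ
    rw [zpow_zero, one_mul]
    have hθg : aeval θ g = t := (eval_locPoly_eq_zero hB.ne).mp hθ
    have hκθ : (κ : M ≃+* M) θ = θ := h.fix_root hB (κ : M ≃+* M) (hΓ.inv κ hκ) (hΓ.fix κ hκ)
      (hΓ.fixt κ hκ) hθg
    rw [hκθ]
    obtain ⟨hz0, hzℓ⟩ := hz θ hθ
    -- the only root near the residue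
    have hle : v θ ≤ 1 := h.v_root_le hB.monic hB.deg hθg
    have hne : locPoly g t (aeval t D) ≠ 0 := locPoly_ne_zero hB.monic hB.deg hB.ne
    have hmem : θ ∈ near v (locPoly g t (aeval t D)) (rs F v θ) := by
      unfold near
      rw [Finset.mem_filter, mem_rts hne]
      exact ⟨hθ, h.v_sub_rs hle⟩
    have huniq : ∀ θ' ∈ near v (locPoly g t (aeval t D)) (rs F v θ), θ' = θ := by
      intro θ' hθ'
      unfold near at hθ'
      rw [Finset.mem_filter, mem_rts hne] at hθ'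
      exact h.rs_injOn hB ((eval_locPoly_eq_zero hB.ne).mp hθ'.1) hθg (h.rs_eq hθ'.2)
    have hcard : (near v (locPoly g t (aeval t D)) (rs F v θ)).card = 1 := by
      rw [Finset.card_eq_one]
      exact ⟨θ, Finset.eq_singleton_iff_unique_mem.mpr ⟨hmem, huniq⟩⟩
    have hdv : Val p (v δ ^ ℓ) (v (aeval t D)) :=
      ⟨0, 1, by rw [pow_zero, pow_one, zpow_one, hd, hvδ]⟩
    have hval' := h.val_uval hB.monic hB.deg hB.ne hB.cop hgrp hdv D' hD'σ
      (fun θ₁ h1 θ₂ h2 => ⟨1, Γ₀.one_mem, by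
        rw [huniq θ₁ h1, huniq θ₂ h2]; rfl⟩) hmem
    rw [hcard, pow_one] at hval'
    have hsgn : ∀ n : ℤ, v (((-1 : M) ^ (ℓ + 1)) ^ n) = 1 := by
      intro n
      rw [map_zpow₀, map_pow, AbsoluteValue.map_neg, map_one, one_pow, one_zpow]
    apply h.root_fixed_of_val hℓ.ne_zero hp hζ (κ : M ≃+* M) (hΓ.inv κ hκ) (hΓ.fix κ hκ) hz0 hδ0
      hκδ
    · rw [hzℓ, map_mul, sym_uval κ D' (hD'σ κ hκ₀), hκθ, map_zpow₀, map_pow, map_neg, map_one]
    · rw [hzℓ, map_mul, hsgn, one_mul]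
      exact hval')
  have h0 : (ram (fun _ => 0) : Jac ℓ (locPoly g t (aeval t D))) = 0 := by
    rw [ram_eq_zero_iff (algebraMap F M ζ) hζ']
    exact ⟨0, fun θ _ => by simp⟩
  rw [h0, sub_eq_zero] at hfin
  exact hfin

end Pool.Agent.Lib.MP_89bcae_ag.Sup

end

section

/-!
ROW L09 (200-350 lines). THE LOCAL FORMULA at a bad place.

Setting: `u` in `Sym f` is an automorphism of `M` preserving `v` and `t`, acting on `F` by `U`, where
`U` fixes `ζ` and every element of the finite set `R`, which contains the fibre `g(x) = a`; `u` fixes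
`a`, and normalizes `Γ`. `C τ = τ Q - Q` for `τ` in `Γ`, with `π (C τ) = ram (j e)` if
`τ δ = ζ^j δ` (`e` a function on `F`, extended to the roots `θ` of `f` by their residues). `A` is a
class with `π A = ram (-q)`, where `u (z θ) = ζ^{q(θ)} z θ`, `(z θ)^ℓ = ∏_{β∈R} (θ - β)^{e(β)}`. Finally
`ram (j e') = u (C τ) - C (u τ u⁻¹) + (u τ u⁻¹) A - A` whenever `τ δ = ζ^j δ`.
CONCLUSION: there is `c` such that for all `β` with `g(β) = a` and all `y` in `F` with
`y^ℓ = (ε D'(a))^{e(β)} ∏_{β' ∈ R, g(β') ≠ a} (β - β')^{-e(β')}`, `ε = (-1)^(ℓ+1)`: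
`U(y) = ζ^{e'(β) + c} y`.

PROOF. Take `τ` in `Γ` with `τ δ = ζ δ` (`exists_tame`), `τ' = u τ u⁻¹`. `u δ = ζ^i δ` for some `i`
(`(u δ)^ℓ = u d = d`: `d = D(t)` is fixed by `u`: it is given that `u ∈ Sym f` and `u` fixes `t`; see
`hud`), so `τ' δ = ζ δ`. `κ = τ⁻¹ τ'` is in `Γ` and fixes `δ`, so `κ Q = Q` (L08), so
`C τ' = τ κ Q - Q = C τ`. By `bad_J2` applied to `A`, `r = -q`, `τ'`: `τ' A - A = ram (-q)`. So
`ram e' = (u (C τ) - C τ) - ram q`. By R21 for the class `C τ` with `π (C τ) = ram e = cl (ramDiv e)`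
(`e` through residues) and `σ = u`, which fixes `ζ` and all the roots `θ` (`u θ` is a root of
`g(x) = t` with the same residue: `U β = β`; so it fixes `ramDiv e`): there are `w θ` with
`(w θ)^ℓ = ε^{e(θ)} uval (ramDiv e) θ` and `u (C τ) - C τ = ram n`, `u (w θ) = ζ^{n(θ)} w θ` (such `n`
exists since `u` fixes `(w θ)^ℓ`). So by `ram_eq_zero_iff`: `e'(θ) ≡ n(θ) - q(θ) - c` for a constant `c`.
Let `Y = w θ / z θ`: `u Y = ζ^{n - q} Y = ζ^{e'(β) + c} Y`, and (`uval_ramDiv`,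
`derivative_locPoly_eval`, `β = ` residue of `θ`)
`Y^ℓ = ε^{e(β)} (d / (G θ (θ - β)))^{e(β)} ∏_{θ' ≠ θ} ((θ - θ') / (θ - β'))^{e(β')} ·
∏_{β' ∈ R, g(β') ≠ a} (θ - β')^{-e(β')}` where `G θ = ∏_{θ' ≠ θ} (θ - θ')`, `β' = ` residue of `θ'`. The
residues are: `d/(t-a) → D'(a)` (`v_bad`), `(t-a)/(θ-β) → g'(β)` (`residue_quot`),
`G θ → g'(β)` (product of the `β - β'`, `g - a = ∏ (X - β')`), `(θ-θ')/(θ-β') → 1`,
`θ - β' → β - β'`. So `Y` is a unit whose residue `y₀` satisfies the equation of `y`, and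
`u Y = ζ^{..} Y` gives `U y₀ = ζ^{e'(β)+c} y₀` (the residue of `u Y` is `U y₀`), and `y / y₀` is a power
of `ζ`, fixed by `U`.
-/

open Polynomial

open scoped Classical

namespace Pool.Agent.Lib.MP_89bcae_ag.Sup

universe u

variable {F M : Type u} [Field F] [Field M] [Algebra F M] {v : AbsoluteValue M ℝ} {a : F} {t : M}

private lemma L09_exists_zpow {K : Type*} [Field K] {ℓ : ℕ} (hℓ : ℓ ≠ 0) {ζ : K}
    (hζ : IsPrimitiveRoot ζ ℓ) {x y : K} (hy : y ≠ 0) (h : x ^ ℓ = y ^ ℓ) :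
    ∃ k : ℤ, x = ζ ^ k * y := by
  have : NeZero ℓ := ⟨hℓ⟩
  have h1 : (x / y) ^ ℓ = 1 := by
    rw [div_pow, h, div_self (pow_ne_zero _ hy)]
  obtain ⟨i, _, hi⟩ := hζ.eq_pow_of_pow_eq_one h1
  refine ⟨i, ?_⟩
  rw [zpow_natCast, hi, div_mul_cancel₀ _ hy]

private lemma L09_zpow_eq {K : Type*} [Field K] {ℓ : ℕ} (hℓ : ℓ ≠ 0) {ζ : K}
    (hζ : IsPrimitiveRoot ζ ℓ) {i j : ℤ} (h : (ℓ : ℤ) ∣ i - j) : ζ ^ i = ζ ^ j := by
  obtain ⟨k, hk⟩ := h
  have h0 : ζ ≠ 0 := hζ.ne_zero hℓ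
  have : i = j + ℓ * k := by omega
  rw [this, zpow_add₀ h0, zpow_mul, zpow_natCast, hζ.pow_eq_one, one_zpow, mul_one]

private lemma L09_symJ_mul {ℓ : ℕ} {E : Type u} [Field E] {f : E[X]} [hG : IsGood ℓ f]
    (σ τ : Sym f) (Q : Jac ℓ f) : symJ (σ * τ) Q = symJ σ (symJ τ Q) := by
  obtain ⟨D, rfl⟩ := cl_surjective Q
  rw [symJ_cl, symJ_cl, symJ_cl, ← Finsupp.mapDomain_comp]
  rfl

private lemma L09_res_const (x : F) : v (algebraMap F M x - algebraMap F M x) < 1 := by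
  rw [sub_self, map_zero]; exact one_pos

private lemma L09_res_sub (h : LocCtx v a t) {x y : M} {c d : F}
    (hc : v (x - algebraMap F M c) < 1) (hd : v (y - algebraMap F M d) < 1) :
    v (x - y - algebraMap F M (c - d)) < 1 := by
  have e : x - y - algebraMap F M (c - d) =
      (x - algebraMap F M c) + -(y - algebraMap F M d) := by
    rw [map_sub]; ring
  rw [e]
  refine lt_of_le_of_lt (h.nonarch _ _) (max_lt hc ?_)
  rw [map_neg_eq_map]
  exact hd

private lemma L09_res_prod (h : LocCtx v a t) {ι : Type*} (s : Finset ι) (x : ι → M) (c : ι → F)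
    (hx : ∀ i ∈ s, v (x i - algebraMap F M (c i)) < 1) :
    v (∏ i ∈ s, x i - algebraMap F M (∏ i ∈ s, c i)) < 1 := by
  induction s using Finset.induction_on with
  | empty => simp
  | insert i s hi ih =>
    rw [Finset.prod_insert hi, Finset.prod_insert hi]
    exact h.residue_mul (hx i (Finset.mem_insert_self _ _))
      (ih fun j hj => hx j (Finset.mem_insert_of_mem hj))

private lemma L09_res_div (h : LocCtx v a t) {x y : M} {c d : F}
    (hc : v (x - algebraMap F M c) < 1) (hd : v (y - algebraMap F M d) < 1) (h0 : d ≠ 0) :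
    v (x / y - algebraMap F M (c / d)) < 1 := by
  rw [div_eq_mul_inv, div_eq_mul_inv]
  exact h.residue_mul hc (h.residue_inv hd h0)

private lemma L09_res_pow (h : LocCtx v a t) {x : M} {c : F}
    (hc : v (x - algebraMap F M c) < 1) (n : ℕ) :
    v (x ^ n - algebraMap F M (c ^ n)) < 1 := by
  have := h.residue_eval hc (X ^ n)
  simpa using this

/-- the derivative of `locPoly` -/
private lemma L09_deriv (g : F[X]) (t d θ : M) :
    (derivative (locPoly g t d)).eval θ = d⁻¹ * aeval θ (derivative g) := by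
  unfold locPoly
  rw [derivative_mul, derivative_C, zero_mul, zero_add, derivative_sub, derivative_C, sub_zero,
    eval_mul, eval_C, derivative_map, eval_map, aeval_def]

section key

variable {g D : F[X]} {δ : M} {ℓ : ℕ}

private lemma L09_mem_rts (hB : BadCtx g D a t δ ℓ) {θ : M} :
    θ ∈ rts (locPoly g t (aeval t D)) ↔ aeval θ g = t := by
  rw [mem_rts (locPoly_ne_zero hB.monic hB.deg hB.ne), eval_locPoly_eq_zero hB.ne]

private lemma L09_sub_ne (h : LocCtx v a t) (hB : BadCtx g D a t δ ℓ) {θ : M}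
    (hθ : aeval θ g = t) : θ - algebraMap F M (rs F v θ) ≠ 0 := by
  intro h0
  have h1 := h.residue_quot hB hθ
  rw [h0, div_zero, zero_sub, map_neg_eq_map] at h1
  rw [h.const _ (hB.roots _ (h.eval_rs hB hθ))] at h1
  exact lt_irrefl _ h1

private lemma L09_v_sub_rs (h : LocCtx v a t) (hB : BadCtx g D a t δ ℓ) {θ : M}
    (hθ : aeval θ g = t) : v (θ - algebraMap F M (rs F v θ)) < 1 :=
  h.v_sub_rs (h.v_root_le hB.monic hB.deg hθ)

private lemma L09_filter_eq (h : LocCtx v a t) [IsAlgClosed M] (hB : BadCtx g D a t δ ℓ)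
    (R : Finset F) (hR : ∀ β, g.eval β = a → β ∈ R) :
    (R.filter fun β => g.eval β = a) = (rts (locPoly g t (aeval t D))).image (rs F v) := by
  ext β
  rw [Finset.mem_filter, Finset.mem_image]
  constructor
  · rintro ⟨_, hβ⟩
    obtain ⟨θ, hθ, hr⟩ := h.exists_root hB hβ
    exact ⟨θ, (L09_mem_rts hB).2 hθ, hr⟩
  · rintro ⟨θ, hθ, rfl⟩
    have := h.eval_rs hB ((L09_mem_rts hB).1 hθ)
    exact ⟨hR _ this, this⟩

private lemma L09_prod (h : LocCtx v a t) [IsAlgClosed M] (hB : BadCtx g D a t δ ℓ)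
    (R : Finset F) (hR : ∀ β, g.eval β = a → β ∈ R) (e : F → ℤ) {θ : M}
    (hθ : aeval θ g = t) :
    ∏ β ∈ R, (θ - algebraMap F M β) ^ e β =
      (θ - algebraMap F M (rs F v θ)) ^ e (rs F v θ) *
      (∏ θ' ∈ (rts (locPoly g t (aeval t D))).erase θ,
        (θ - algebraMap F M (rs F v θ')) ^ e (rs F v θ')) *
      ∏ β ∈ R.filter fun β => g.eval β ≠ a, (θ - algebraMap F M β) ^ e β := by
  rw [← Finset.prod_filter_mul_prod_filter_not R (fun β => g.eval β = a),
    L09_filter_eq h hB R hR, Finset.prod_image, ← Finset.mul_prod_erase _ _ ((L09_mem_rts hB).2 hθ)]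
  intro x hx y hy hxy
  exact h.rs_injOn hB ((L09_mem_rts hB).1 hx) ((L09_mem_rts hB).1 hy) hxy

private lemma L09_key (h : LocCtx v a t) (hB : BadCtx g D a t δ ℓ)
    [hG : IsGood ℓ (locPoly g t (aeval t D))] (R : Finset F) (hR : ∀ β, g.eval β = a → β ∈ R)
    (e : F → ℤ) {θ : M} (hθ : aeval θ g = t) :
    v ((((-1) ^ (ℓ + 1)) ^ (e (rs F v θ)) *
        uval (ramDiv (fun θ' => e (rs F v θ')) : Pt ℓ (locPoly g t (aeval t D)) →₀ ℤ) θ) /
        ∏ β ∈ R, (θ - algebraMap F M β) ^ (e β) -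
      algebraMap F M (((-1) ^ (ℓ + 1) * (derivative D).eval a) ^ e (rs F v θ) *
        ∏ β' ∈ R.filter fun β' => g.eval β' ≠ a, (rs F v θ - β') ^ (-e β'))) < 1 := by
  have hA : IsAlgClosed M := hG.alg
  have hmem := (L09_mem_rts hB).2 hθ
  have hev : (locPoly g t (aeval t D)).eval θ = 0 := (eval_locPoly_eq_zero hB.ne).2 hθ
  have hta : t - algebraMap F M a ≠ 0 := sub_ne_zero.2 h.ne
  have hsub := L09_sub_ne h hB hθ
  have hr := L09_v_sub_rs h hB hθ
  have hg' : (derivative g).eval (rs F v θ) ≠ 0 := hB.roots _ (h.eval_rs hB hθ)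
  rw [uval_ramDiv _ hev, L09_deriv, L09_prod h hB R hR e hθ]
  have e1 : ((-1) ^ (ℓ + 1)) ^ e (rs F v θ) *
      (((aeval t D)⁻¹ * aeval θ (derivative g))⁻¹ ^ e (rs F v θ) *
        ∏ θ' ∈ (locPoly g t (aeval t D)).roots.toFinset.erase θ, (θ - θ') ^ e (rs F v θ')) /
      ((θ - algebraMap F M (rs F v θ)) ^ e (rs F v θ) *
        (∏ θ' ∈ (rts (locPoly g t (aeval t D))).erase θ,
          (θ - algebraMap F M (rs F v θ')) ^ e (rs F v θ')) *
        ∏ β ∈ R.filter fun β => g.eval β ≠ a, (θ - algebraMap F M β) ^ e β) =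
      (((-1) ^ (ℓ + 1)) * ((aeval t D / (t - algebraMap F M a)) *
        ((t - algebraMap F M a) / (θ - algebraMap F M (rs F v θ))) *
        (aeval θ (derivative g))⁻¹)) ^ e (rs F v θ) *
      (∏ θ' ∈ (rts (locPoly g t (aeval t D))).erase θ,
        ((θ - θ') / (θ - algebraMap F M (rs F v θ'))) ^ e (rs F v θ')) *
      ∏ β ∈ R.filter fun β => g.eval β ≠ a, (θ - algebraMap F M β) ^ (-e β) := by
    have e2 : (aeval t D / (t - algebraMap F M a)) *
        ((t - algebraMap F M a) / (θ - algebraMap F M (rs F v θ))) *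
        (aeval θ (derivative g))⁻¹ =
        ((aeval t D)⁻¹ * aeval θ (derivative g))⁻¹ / (θ - algebraMap F M (rs F v θ)) := by
      rw [mul_inv, inv_inv]
      field_simp
    rw [e2]
    simp only [zpow_neg, div_zpow, mul_zpow, Finset.prod_inv_distrib, Finset.prod_div_distrib]
    unfold rts
    simp only [div_eq_mul_inv, mul_inv]
    ring
  rw [e1]
  have e3 : ((-1) ^ (ℓ + 1) * (derivative D).eval a) ^ e (rs F v θ) *
        ∏ β' ∈ R.filter fun β' => g.eval β' ≠ a, (rs F v θ - β') ^ (-e β') =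
      ((-1) ^ (ℓ + 1) * ((derivative D).eval a * (derivative g).eval (rs F v θ) *
        ((derivative g).eval (rs F v θ))⁻¹)) ^ e (rs F v θ) *
      (∏ θ' ∈ (rts (locPoly g t (aeval t D))).erase θ,
        ((rs F v θ - rs F v θ') / (rs F v θ - rs F v θ')) ^ e (rs F v θ')) *
      ∏ β' ∈ R.filter fun β' => g.eval β' ≠ a, (rs F v θ - β') ^ (-e β') := by
    have e4 : (∏ θ' ∈ (rts (locPoly g t (aeval t D))).erase θ,
        ((rs F v θ - rs F v θ') / (rs F v θ - rs F v θ')) ^ e (rs F v θ')) = 1 := by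
      refine Finset.prod_eq_one ?_
      intro θ' hθ'
      have hne : rs F v θ - rs F v θ' ≠ 0 := by
        intro h0
        exact (Finset.ne_of_mem_erase hθ').symm (h.rs_injOn hB hθ
          ((L09_mem_rts hB).1 (Finset.mem_of_mem_erase hθ')) (sub_eq_zero.1 h0))
      rw [div_self hne, one_zpow]
    rw [e4, mul_inv_cancel_right₀ hg', mul_one]
  rw [e3]
  refine h.residue_mul (h.residue_mul ?_ ?_) ?_
  · refine h.residue_zpow ?_ ?_ _
    · refine h.residue_mul ?_ (h.residue_mul (h.residue_mul (h.v_bad hB).2 (h.residue_quot hB hθ)) ?_)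
      · have : ((-1 : M) ^ (ℓ + 1)) = algebraMap F M ((-1) ^ (ℓ + 1)) := by
          rw [map_pow, map_neg, map_one]
        rw [this]
        exact L09_res_const _
      · exact h.residue_inv (h.residue_eval hr _) hg'
    · rw [mul_inv_cancel_right₀ hg']
      exact mul_ne_zero (pow_ne_zero _ (neg_ne_zero.2 one_ne_zero)) hB.simple
  · refine L09_res_prod h _ _ _ ?_
    intro θ' hθ'
    have hθ'' := (L09_mem_rts hB).1 (Finset.mem_of_mem_erase hθ')
    have hne : rs F v θ - rs F v θ' ≠ 0 := by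
      intro h0
      exact (Finset.ne_of_mem_erase hθ').symm (h.rs_injOn hB hθ hθ'' (sub_eq_zero.1 h0))
    refine h.residue_zpow (L09_res_div h (L09_res_sub h hr (L09_v_sub_rs h hB hθ''))
      (L09_res_sub h hr (L09_res_const _)) hne) (div_ne_zero hne hne) _
  · refine L09_res_prod h _ _ _ ?_
    intro β hβ
    refine h.residue_zpow (L09_res_sub h hr (L09_res_const _)) ?_ _
    intro h0
    rw [Finset.mem_filter] at hβ
    apply hβ.2
    rw [← sub_eq_zero.1 h0]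
    exact h.eval_rs hB hθ

end key

theorem LocCtx.bad_formula (h : LocCtx v a t) {g D : F[X]} {δ : M} {ℓ p : ℕ} (hp : p.Coprime ℓ)
    (hB : BadCtx g D a t δ ℓ) [hG : IsGood ℓ (locPoly g t (aeval t D))] {ζ : F}
    (hζ : IsPrimitiveRoot ζ ℓ) (hζ' : IsPrimitiveRoot (algebraMap F M ζ) ℓ)
    {Γ : Subgroup (Sym (locPoly g t (aeval t D)))}
    (hΓ : LocGrp p F v t (v (t - algebraMap F M a)) Γ)
    -- the automorphism `u`
    (u : Sym (locPoly g t (aeval t D))) (U : F ≃+* F) (huv : ∀ x, v ((u : M ≃+* M) x) = v x)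
    (huF : ∀ c : F, (u : M ≃+* M) (algebraMap F M c) = algebraMap F M (U c))
    (hut : (u : M ≃+* M) t = t) (hug : g.map (U : F →+* F) = g)
    (hud : (u : M ≃+* M) (aeval t D) = aeval t D)
    (hUζ : U ζ = ζ) (hnorm : ∀ τ ∈ Γ, u * τ * u⁻¹ ∈ Γ)
    -- the exponents
    (R : Finset F) (hR : ∀ β, g.eval β = a → β ∈ R) (hUR : ∀ β ∈ R, U β = β) (hUa : U a = a)
    (e : F → ℤ) (Q : Jac ℓ (locPoly g t (aeval t D)))
    (hC : ∀ τ ∈ Γ, ∀ j : ℤ, (τ : M ≃+* M) δ = algebraMap F M ζ ^ j * δ →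
      (symJ τ Q - Q) - zJ (algebraMap F M ζ) hζ'.pow_eq_one (symJ τ Q - Q) =
        ram fun θ => j * e (rs F v θ))
    (z : M → M) (hz : ∀ θ ∈ rts (locPoly g t (aeval t D)),
      z θ ^ ℓ = ∏ β ∈ R, (θ - algebraMap F M β) ^ e β)
    (q : M → ℤ) (hq : ∀ θ ∈ rts (locPoly g t (aeval t D)),
      (u : M ≃+* M) (z θ) = algebraMap F M ζ ^ q θ * z θ)
    (A : Jac ℓ (locPoly g t (aeval t D)))
    (hA : A - zJ (algebraMap F M ζ) hζ'.pow_eq_one A = ram fun θ => -q θ)
    (e' : F → ℤ)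
    (he' : ∀ τ ∈ Γ, ∀ j : ℤ, (τ : M ≃+* M) δ = algebraMap F M ζ ^ j * δ →
      (ram fun θ => j * e' (rs F v θ)) =
        symJ u (symJ τ Q - Q) - (symJ (u * τ * u⁻¹) Q - Q) + (symJ (u * τ * u⁻¹) A - A)) :
    ∃ c : ℤ, ∀ β, g.eval β = a → ∀ y : F,
      y ^ ℓ = ((-1) ^ (ℓ + 1) * (derivative D).eval a) ^ e β *
        ∏ β' ∈ R.filter fun β' => g.eval β' ≠ a, (β - β') ^ (-e β') →
      U y = ζ ^ (e' β + c) * y := by
  have hAM : IsAlgClosed M := hG.alg
  have hℓ0 : ℓ ≠ 0 := hG.prime.ne_zero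
  have hζ0 : ζ ≠ 0 := hζ.ne_zero hℓ0
  have hζ0' : algebraMap F M ζ ≠ 0 := hζ'.ne_zero hℓ0
  have hδ0 : δ ≠ 0 := by
    intro h0
    apply hB.ne
    rw [← hB.delta, h0, zero_pow hℓ0]
  have huζ : (u : M ≃+* M) (algebraMap F M ζ) = algebraMap F M ζ := by rw [huF, hUζ]
  -- the automorphisms `τ`, `τ'`, `κ`
  obtain ⟨τ, hτΓ, hτδ⟩ := h.exists_tame hp hB hζ hζ' hΓ
  have hτ'Γ : u * τ * u⁻¹ ∈ Γ := hnorm τ hτΓ
  obtain ⟨i, hi⟩ : ∃ i : ℤ, (u : M ≃+* M) δ = algebraMap F M ζ ^ i * δ := by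
    refine L09_exists_zpow hℓ0 hζ' hδ0 ?_
    rw [← map_pow, hB.delta, hud]
  have hτζ : (τ : M ≃+* M) (algebraMap F M ζ) = algebraMap F M ζ := hΓ.fix τ hτΓ ζ
  have huinv : ((u⁻¹ : Sym _) : M ≃+* M) δ = algebraMap F M ζ ^ (-i) * δ := by
    have h1 : (u : M ≃+* M) (algebraMap F M ζ ^ (-i) * δ) = δ := by
      rw [map_mul, map_zpow₀, huζ, hi, ← mul_assoc, ← zpow_add₀ hζ0', neg_add_cancel, zpow_zero,
        one_mul]
    have h2 : ((u⁻¹ : Sym _) : M ≃+* M) ((u : M ≃+* M) (algebraMap F M ζ ^ (-i) * δ)) =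
        algebraMap F M ζ ^ (-i) * δ := (u : M ≃+* M).symm_apply_apply _
    rw [h1] at h2
    exact h2
  have hτ'δ : ((u * τ * u⁻¹ : Sym _) : M ≃+* M) δ = algebraMap F M ζ * δ := by
    have h1 : ((u * τ * u⁻¹ : Sym _) : M ≃+* M) δ =
        (u : M ≃+* M) ((τ : M ≃+* M) (((u⁻¹ : Sym _) : M ≃+* M) δ)) := rfl
    rw [h1, huinv, map_mul, map_zpow₀, hτζ, hτδ, map_mul, map_zpow₀, huζ, map_mul, huζ, hi]
    have : algebraMap F M ζ ^ (-i) * (algebraMap F M ζ * (algebraMap F M ζ ^ i * δ)) =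
        (algebraMap F M ζ ^ (-i) * algebraMap F M ζ ^ i) * (algebraMap F M ζ * δ) := by ring
    rw [this, ← zpow_add₀ hζ0', neg_add_cancel, zpow_zero, one_mul]
  have hκΓ : τ⁻¹ * (u * τ * u⁻¹) ∈ Γ := Γ.mul_mem (Γ.inv_mem hτΓ) hτ'Γ
  have hκδ : ((τ⁻¹ * (u * τ * u⁻¹) : Sym _) : M ≃+* M) δ = δ := by
    have h1 : ((τ⁻¹ * (u * τ * u⁻¹) : Sym _) : M ≃+* M) δ =
        (τ : M ≃+* M).symm (((u * τ * u⁻¹ : Sym _) : M ≃+* M) δ) := rfl
    rw [h1, hτ'δ, ← hτδ, RingEquiv.symm_apply_apply]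
  have hκQ : symJ (τ⁻¹ * (u * τ * u⁻¹)) Q = Q :=
    h.bad_kernel hp hB hζ hζ' hΓ Q (fun θ => e (rs F v θ)) hC hκΓ hκδ
  have hτ'Q : symJ (u * τ * u⁻¹) Q = symJ τ Q := by
    have h1 : u * τ * u⁻¹ = τ * (τ⁻¹ * (u * τ * u⁻¹)) := by group
    rw [h1, L09_symJ_mul, hκQ]
  have hτ'A : symJ (u * τ * u⁻¹) A - A = ram fun θ => (1 : ℤ) * -q θ := by
    refine h.bad_J2 hB hζ hζ' (u * τ * u⁻¹) (hΓ.inv _ hτ'Γ) (hΓ.fix _ hτ'Γ) (hΓ.fixt _ hτ'Γ) 1
      ?_ A _ hA
    rw [zpow_one]; exact hτ'δ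
  have hE' := he' τ hτΓ 1 (by rw [zpow_one]; exact hτδ)
  have hCτ := hC τ hτΓ 1 (by rw [zpow_one]; exact hτδ)
  rw [hτ'Q, hτ'A] at hE'
  -- `u` fixes the roots
  have hroot : ∀ {θ : M}, (locPoly g t (aeval t D)).eval θ = 0 ↔ aeval θ g = t := fun {θ} =>
    eval_locPoly_eq_zero hB.ne
  have hufix : ∀ θ : M, (locPoly g t (aeval t D)).eval θ = 0 → (u : M ≃+* M) θ = θ := by
    intro θ hθ
    have hθt := hroot.1 hθ
    have huθ : aeval ((u : M ≃+* M) θ) g = t := hroot.1 ((eval_sym_eq_zero u).2 hθ)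
    refine h.rs_injOn hB huθ hθt ?_
    apply h.rs_eq
    have h1 := L09_v_sub_rs h hB hθt
    have h2 : U (rs F v θ) = rs F v θ := hUR _ (hR _ (h.eval_rs hB hθt))
    rw [← huv, map_sub, huF, h2] at h1
    exact h1
  have hufix' : ∀ θ : M, (locPoly g t (aeval t D)).eval θ = 0 →
      ((u⁻¹ : Sym _) : M ≃+* M) θ = θ := by
    intro θ hθ
    have h1 : ((u⁻¹ : Sym _) : M ≃+* M) ((u : M ≃+* M) θ) = θ :=
      (u : M ≃+* M).symm_apply_apply θ
    rwa [hufix θ hθ] at h1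
  -- the Kummer formula
  obtain ⟨w, hw, hker⟩ := kummer_formula (algebraMap F M ζ) hζ' (symJ τ Q - Q)
    (ramDiv fun θ => (1 : ℤ) * e (rs F v θ)) hCτ
  have hDfix : (ramDiv (fun θ => (1 : ℤ) * e (rs F v θ)) :
      Pt ℓ (locPoly g t (aeval t D)) →₀ ℤ).mapDomain (Pt.sym u) =
      ramDiv fun θ => (1 : ℤ) * e (rs F v θ) := by
    rw [mapDomain_sym_ramDiv]
    refine ramDiv_congr _ _ ?_
    intro θ hθ
    rw [hufix' θ hθ]
  have hn : ∀ θ : M, ∃ n : ℤ, (locPoly g t (aeval t D)).eval θ = 0 →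
      (u : M ≃+* M) (w θ) = algebraMap F M ζ ^ n * w θ := by
    intro θ
    by_cases hθ : (locPoly g t (aeval t D)).eval θ = 0
    · obtain ⟨n, hn⟩ : ∃ n : ℤ, (u : M ≃+* M) (w θ) = algebraMap F M ζ ^ n * w θ := by
        refine L09_exists_zpow hℓ0 hζ' (hw θ hθ).1 ?_
        rw [← map_pow, (hw θ hθ).2, map_mul, map_zpow₀, map_pow, map_neg, map_one,
          sym_uval u _ hDfix, hufix θ hθ]
      exact ⟨n, fun _ => hn⟩
    · exact ⟨0, fun h0 => absurd h0 hθ⟩
  choose n hn using hn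
  have hkn : symJ u (symJ τ Q - Q) - (symJ τ Q - Q) = ram n := by
    refine hker u huζ hDfix n ?_
    intro θ hθ
    rw [hufix θ hθ]
    exact hn θ hθ
  have hzero : (ram fun θ => (e' (rs F v θ)) - (n θ - q θ) :
      Jac ℓ (locPoly g t (aeval t D))) = 0 := by
    have e1 : (ram fun θ => (1 : ℤ) * e' (rs F v θ) : Jac ℓ (locPoly g t (aeval t D))) =
        ram fun θ => e' (rs F v θ) := by
      congr 1; funext θ; rw [one_mul]
    have e2 : (ram fun θ => (1 : ℤ) * -q θ : Jac ℓ (locPoly g t (aeval t D))) =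
        ram fun θ => 0 - q θ := by
      congr 1; funext θ; ring
    have e3 : (ram fun θ => (0 : ℤ) - q θ : Jac ℓ (locPoly g t (aeval t D))) = - ram q := by
      rw [ram_sub]
      have : (ram fun _ => (0 : ℤ) : Jac ℓ (locPoly g t (aeval t D))) = 0 :=
        (ram_eq_zero_iff (algebraMap F M ζ) hζ' _).2 ⟨0, fun _ _ => by simp⟩
      rw [this, zero_sub]
    rw [e1, e2, e3, hkn] at hE'
    rw [ram_sub (fun θ => e' (rs F v θ)) (fun θ => n θ - q θ), ram_sub, hE']
    abel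
  obtain ⟨c, hc⟩ := (ram_eq_zero_iff (algebraMap F M ζ) hζ' _).1 hzero
  refine ⟨-c, ?_⟩
  intro β hβ y hy
  obtain ⟨θ, hθt, hrs⟩ := h.exists_root hB hβ
  subst hrs
  have hθ := hroot.2 hθt
  have hθm := (L09_mem_rts hB).2 hθt
  -- the unit `Y`
  have hkey := L09_key h hB R hR e hθt
  have hYℓ : (w θ / z θ) ^ ℓ = (((-1) ^ (ℓ + 1)) ^ (e (rs F v θ)) *
        uval (ramDiv (fun θ' => e (rs F v θ')) : Pt ℓ (locPoly g t (aeval t D)) →₀ ℤ) θ) /
        ∏ β ∈ R, (θ - algebraMap F M β) ^ (e β) := by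
    rw [div_pow, (hw θ hθ).2, hz θ hθm, atR_ramDiv _ hθ]
    simp only [one_mul]
  rw [← hYℓ, ← hy] at hkey
  have hy0 : y ≠ 0 := by
    intro h0
    rw [h0, zero_pow hℓ0] at hy
    have h1 : (((-1) ^ (ℓ + 1) * (derivative D).eval a) ^ e (rs F v θ) : F) ≠ 0 :=
      zpow_ne_zero _ (mul_ne_zero (pow_ne_zero _ (neg_ne_zero.2 one_ne_zero)) hB.simple)
    have h2 : (∏ β' ∈ R.filter fun β' => g.eval β' ≠ a, (rs F v θ - β') ^ (-e β') : F) ≠ 0 := by
      refine Finset.prod_ne_zero_iff.2 ?_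
      intro β' hβ'
      refine zpow_ne_zero _ ?_
      intro h3
      rw [Finset.mem_filter] at hβ'
      apply hβ'.2
      rw [← sub_eq_zero.1 h3]
      exact hβ
    exact mul_ne_zero h1 h2 hy.symm
  have hvY : v (w θ / z θ) = 1 := by
    have h1 := h.v_eq_one hkey (pow_ne_zero ℓ hy0)
    rw [map_pow] at h1
    exact (pow_eq_one_iff_of_nonneg (v.nonneg _) hℓ0).1 h1
  obtain ⟨y₀, hy₀⟩ := h.residue _ hvY.le
  have hpow : y₀ ^ ℓ = y ^ ℓ := h.residue_unique (L09_res_pow h hy₀ ℓ) hkey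
  obtain ⟨k, hk⟩ := L09_exists_zpow hℓ0 hζ hy0 hpow
  -- the action of `u`
  have huY : (u : M ≃+* M) (w θ / z θ) = algebraMap F M ζ ^ (n θ - q θ) * (w θ / z θ) := by
    rw [map_div₀, hn θ hθ, hq θ hθm, zpow_sub₀ hζ0']
    simp only [div_eq_mul_inv, mul_inv]
    ring
  have hr1 : v ((u : M ≃+* M) (w θ / z θ) - algebraMap F M (U y₀)) < 1 := by
    rw [← huF, ← map_sub, huv]
    exact hy₀
  have hr2 : v ((u : M ≃+* M) (w θ / z θ) - algebraMap F M (ζ ^ (n θ - q θ) * y₀)) < 1 := by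
    rw [huY, ← map_zpow₀]
    exact h.residue_mul (L09_res_const _) hy₀
  have hU : U y₀ = ζ ^ (n θ - q θ) * y₀ := h.residue_unique hr1 hr2
  have hexp : ζ ^ (n θ - q θ) = ζ ^ (e' (rs F v θ) + -c) := by
    refine L09_zpow_eq hℓ0 hζ ?_
    obtain ⟨m, hm⟩ := hc θ hθ
    refine ⟨-m, ?_⟩
    rw [mul_neg, ← hm]
    ring
  rw [hk, map_mul, map_zpow₀, hUζ, hexp] at hU
  have hζk : ζ ^ k ≠ 0 := zpow_ne_zero _ hζ0
  have : ζ ^ k * U y = ζ ^ k * (ζ ^ (e' (rs F v θ) + -c) * y) := by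
    rw [hU]; ring
  exact mul_left_cancel₀ hζk this

end Pool.Agent.Lib.MP_89bcae_ag.Sup

end

section

open Polynomial

open scoped Classical

set_option linter.unusedSectionVars false

namespace Pool.Agent.Lib.MP_89bcae_ag.Sup

universe u

variable {F M : Type u} [Field F] [Field M] [Algebra F M] {v : AbsoluteValue M ℝ} {a : F} {t : M}

theorem LocCtx.eval_q (h : LocCtx v a t) {ℓ : ℕ} (hℓ : ℓ ≠ 0) {g D : F[X]} {δ : M}
    (hB : BadCtx g D a t δ ℓ) {ζ : F} (hζ : IsPrimitiveRoot ζ ℓ)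
    (u : M ≃+* M) (U : F ≃+* F) (huv : ∀ x, v (u x) = v x)
    (huF : ∀ c : F, u (algebraMap F M c) = algebraMap F M (U c)) (hut : u t = t)
    (hUζ : U ζ = ζ) (huδ : u δ = δ) (R : Finset F) (hR : ∀ β, g.eval β = a → β ∈ R) {lc : F}
    (hDg : D.comp g = C lc * ∏ β ∈ R, (X - C β)) (hUR : ∀ β ∈ R, U β = β)
    (e : F → ℤ) {θ z : M} (hθ : aeval θ g = t)
    (hz : z ^ ℓ = ∏ β ∈ R, (θ - algebraMap F M β) ^ e β) (q : ℤ)
    (hq : u z = algebraMap F M ζ ^ q * z) :
    ∀ x : F, x ^ ℓ = lc ^ (-e (rs F v θ)) *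
        ∏ β ∈ R.erase (rs F v θ), (rs F v θ - β) ^ (e β - e (rs F v θ)) →
      U x = ζ ^ q * x := by
  intro x hx
  set β₀ := rs F v θ with hβ₀
  have hβR : β₀ ∈ R := hR β₀ (h.eval_rs hB hθ)
  have hres : v (θ - algebraMap F M β₀) < 1 := h.v_sub_rs (h.v_root_le hB.monic hB.deg hθ)
  have hDt : aeval t D = algebraMap F M lc * ∏ β ∈ R, (θ - algebraMap F M β) := by
    have h1 : aeval θ (D.comp g) = aeval t D := by rw [aeval_comp, hθ]
    rw [← h1, hDg, map_mul, map_prod, aeval_C]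
    congr 1
    apply Finset.prod_congr rfl
    intro β _
    rw [map_sub, aeval_X, aeval_C]
  have hne := hB.ne
  rw [hDt] at hne
  have hlcM : algebraMap F M lc ≠ 0 := left_ne_zero_of_mul hne
  have hlc : lc ≠ 0 := by
    intro h0
    apply hlcM
    rw [h0, map_zero]
  have hθβ : ∀ β ∈ R, θ - algebraMap F M β ≠ 0 := fun β hβ =>
    Finset.prod_ne_zero_iff.mp (right_ne_zero_of_mul hne) β hβ
  have hδ0 : δ ≠ 0 := by
    intro h0
    apply hB.ne
    rw [← hB.delta, h0, zero_pow hℓ]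
  set Y := z / δ ^ e β₀ with hY
  have hYl : Y ^ ℓ = algebraMap F M (lc ^ (-e β₀)) *
      ∏ β ∈ R.erase β₀, (θ - algebraMap F M β) ^ (e β - e β₀) := by
    have h1 : (δ ^ e β₀) ^ ℓ = (aeval t D) ^ e β₀ := by
      rw [← hB.delta, ← zpow_natCast, ← zpow_natCast, ← zpow_mul, ← zpow_mul, mul_comm]
    have h2 : ∏ β ∈ R.erase β₀, (θ - algebraMap F M β) ^ (e β - e β₀) =
        ∏ β ∈ R, (θ - algebraMap F M β) ^ (e β - e β₀) :=
      Finset.prod_erase _ (by rw [sub_self, zpow_zero])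
    have h3 : ∏ β ∈ R, (θ - algebraMap F M β) ^ (e β - e β₀) =
        (∏ β ∈ R, (θ - algebraMap F M β) ^ e β) / (∏ β ∈ R, (θ - algebraMap F M β)) ^ e β₀ := by
      rw [← Finset.prod_zpow, ← Finset.prod_div_distrib]
      apply Finset.prod_congr rfl
      intro β hβ
      rw [zpow_sub₀ (hθβ β hβ)]
    rw [hY, div_pow, hz, h1, hDt, h2, h3, mul_zpow, map_zpow₀, zpow_neg,
      div_mul_eq_div_div_swap, div_eq_inv_mul]
  have hw0 : ∀ β ∈ R.erase β₀, β₀ - β ≠ 0 := fun β hβ =>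
    sub_ne_zero.mpr (Finset.ne_of_mem_erase hβ).symm
  have hrβ : ∀ β : F, v ((θ - algebraMap F M β) - algebraMap F M (β₀ - β)) < 1 := by
    intro β
    have h1 : (θ - algebraMap F M β) - algebraMap F M (β₀ - β) = θ - algebraMap F M β₀ := by
      rw [map_sub]; ring
    rw [h1]
    exact hres
  have hprod : ∀ S : Finset F, S ⊆ R.erase β₀ →
      v (∏ β ∈ S, (θ - algebraMap F M β) ^ (e β - e β₀) -
        algebraMap F M (∏ β ∈ S, (β₀ - β) ^ (e β - e β₀))) < 1 := by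
    intro S
    induction S using Finset.induction_on with
    | empty =>
      intro _
      rw [Finset.prod_empty, Finset.prod_empty, map_one, sub_self, map_zero]
      exact zero_lt_one
    | insert b S hb ih =>
      intro hS
      rw [Finset.prod_insert hb, Finset.prod_insert hb]
      exact h.residue_mul (h.residue_zpow (hrβ b) (hw0 b (hS (Finset.mem_insert_self _ _))) _)
        (ih fun y hy => hS (Finset.mem_insert_of_mem hy))
  have hYr : v (Y ^ ℓ - algebraMap F M (x ^ ℓ)) < 1 := by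
    rw [hYl, hx]
    apply h.residue_mul _ (hprod _ subset_rfl)
    rw [sub_self, map_zero]
    exact zero_lt_one
  have hx0 : x ≠ 0 := by
    intro h0
    rw [h0, zero_pow hℓ] at hx
    exact mul_ne_zero (zpow_ne_zero _ hlc)
      (Finset.prod_ne_zero_iff.mpr fun β hβ => zpow_ne_zero _ (hw0 β hβ)) hx.symm
  have hvYl : v (Y ^ ℓ) = 1 := h.v_eq_one hYr (pow_ne_zero _ hx0)
  have hvY : v Y = 1 := by
    rw [map_pow] at hvYl
    exact (pow_eq_one_iff_of_nonneg (v.nonneg _) hℓ).mp hvYl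
  obtain ⟨c, hc⟩ := h.residue Y hvY.le
  have hc0 : c ≠ 0 := by
    intro h0
    rw [h0, map_zero, sub_zero, hvY] at hc
    exact lt_irrefl _ hc
  have hcl : c ^ ℓ = x ^ ℓ := by
    have h1 := h.residue_zpow hc hc0 (ℓ : ℤ)
    rw [zpow_natCast, zpow_natCast] at h1
    exact h.residue_unique h1 hYr
  have : NeZero ℓ := ⟨hℓ⟩
  obtain ⟨i, -, hi⟩ := hζ.eq_pow_of_pow_eq_one (show (c / x) ^ ℓ = 1 by
    rw [div_pow, hcl, div_self (pow_ne_zero _ hx0)])
  have hcx : c = ζ ^ i * x := by rw [hi, div_mul_cancel₀ _ hx0]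
  have huY : u Y = algebraMap F M ζ ^ q * Y := by
    rw [hY, map_div₀, map_zpow₀, huδ, hq, mul_div_assoc]
  have h1 : v (u Y - algebraMap F M (U c)) < 1 := by
    rw [← huF, ← map_sub, huv]
    exact hc
  have h2 : v (u Y - algebraMap F M (ζ ^ q * c)) < 1 := by
    rw [huY]
    apply h.residue_mul _ hc
    rw [map_zpow₀, sub_self, map_zero]
    exact zero_lt_one
  have h3 : U c = ζ ^ q * c := h.residue_unique h1 h2
  rw [hcx, map_mul, map_pow, hUζ] at h3
  have hζi : ζ ^ i ≠ 0 := pow_ne_zero _ (hζ.ne_zero hℓ)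
  apply mul_left_cancel₀ hζi
  rw [h3]
  ring

end Pool.Agent.Lib.MP_89bcae_ag.Sup

end

section

/-!
# The local theorems for a polynomial `f` which is equal to `d⁻¹ (g(x) - t)`
-/

open Polynomial

open scoped Classical

namespace Pool.Agent.Lib.MP_89bcae_ag.Sup

universe u

variable {F M : Type u} [Field F] [Field M] [Algebra F M] {v : AbsoluteValue M ℝ} {a : F} {t : M}

theorem LocCtx.good_place' (h : LocCtx v a t) {ℓ p : ℕ} (hp : p.Coprime ℓ) {g : F[X]}
    (hg : g.Monic) (hm : g.natDegree ≠ 0) (hmℓ : g.natDegree.Coprime ℓ) {d : M} (hd : d ≠ 0)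
    {f : M[X]} (hf : f = locPoly g t d)
    [hG : IsGood ℓ f] {ζ : F} (hζ : IsPrimitiveRoot ζ ℓ)
    (hζ' : IsPrimitiveRoot (algebraMap F M ζ) ℓ)
    {Γ : Subgroup (Sym f)} (hΓ : LocGrp p F v t (v (t - algebraMap F M a)) Γ)
    (hdv : v d = 1)
    (horb : ∀ r : F, ∀ θ ∈ near v f r, ∀ θ' ∈ near v f r, ∃ σ ∈ Γ, (σ : M ≃+* M) θ = θ')
    {R : F[X]} (hR : R ≠ 0) {z : M → M}
    (hz : ∀ θ ∈ rts f, z θ ^ ℓ = aeval θ R) (Q : Jac ℓ f)
    (hQ : ∀ σ ∈ Γ, ∃ n : M → ℤ, symJ σ Q - Q = ram n ∧ ∀ θ ∈ rts f,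
      (σ : M ≃+* M) (z θ) = algebraMap F M ζ ^ n ((σ : M ≃+* M) θ) * z ((σ : M ≃+* M) θ))
    (hsum : ℓ ∣ ∑ r ∈ (g - C a).roots.toFinset, R.rootMultiplicity r)
    {r : F} (hr : g.eval r = a) : ℓ ∣ R.rootMultiplicity r := by
  subst hf
  exact h.good_place hp hg hm hmℓ hd hζ hζ' hΓ hdv horb hR hz Q hQ hsum hr

theorem LocCtx.bad_formula' (h : LocCtx v a t) {g D : F[X]} {δ : M} {ℓ p : ℕ} (hp : p.Coprime ℓ)
    (hB : BadCtx g D a t δ ℓ) {f : M[X]} (hf : f = locPoly g t (aeval t D))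
    [hG : IsGood ℓ f] {ζ : F}
    (hζ : IsPrimitiveRoot ζ ℓ) (hζ' : IsPrimitiveRoot (algebraMap F M ζ) ℓ)
    {Γ : Subgroup (Sym f)}
    (hΓ : LocGrp p F v t (v (t - algebraMap F M a)) Γ)
    (u : Sym f) (U : F ≃+* F) (huv : ∀ x, v ((u : M ≃+* M) x) = v x)
    (huF : ∀ c : F, (u : M ≃+* M) (algebraMap F M c) = algebraMap F M (U c))
    (hut : (u : M ≃+* M) t = t) (hug : g.map (U : F →+* F) = g)
    (hud : (u : M ≃+* M) (aeval t D) = aeval t D)
    (hUζ : U ζ = ζ) (hnorm : ∀ τ ∈ Γ, u * τ * u⁻¹ ∈ Γ)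
    (R : Finset F) (hR : ∀ β, g.eval β = a → β ∈ R) (hUR : ∀ β ∈ R, U β = β) (hUa : U a = a)
    (e : F → ℤ) (Q : Jac ℓ f)
    (hC : ∀ τ ∈ Γ, ∀ j : ℤ, (τ : M ≃+* M) δ = algebraMap F M ζ ^ j * δ →
      (symJ τ Q - Q) - zJ (algebraMap F M ζ) hζ'.pow_eq_one (symJ τ Q - Q) =
        ram fun θ => j * e (rs F v θ))
    (z : M → M) (hz : ∀ θ ∈ rts f,
      z θ ^ ℓ = ∏ β ∈ R, (θ - algebraMap F M β) ^ e β)
    (q : M → ℤ) (hq : ∀ θ ∈ rts f,
      (u : M ≃+* M) (z θ) = algebraMap F M ζ ^ q θ * z θ)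
    (A : Jac ℓ f)
    (hA : A - zJ (algebraMap F M ζ) hζ'.pow_eq_one A = ram fun θ => -q θ)
    (e' : F → ℤ)
    (he' : ∀ τ ∈ Γ, ∀ j : ℤ, (τ : M ≃+* M) δ = algebraMap F M ζ ^ j * δ →
      (ram fun θ => j * e' (rs F v θ)) =
        symJ u (symJ τ Q - Q) - (symJ (u * τ * u⁻¹) Q - Q) + (symJ (u * τ * u⁻¹) A - A)) :
    ∃ c : ℤ, ∀ β, g.eval β = a → ∀ y : F,
      y ^ ℓ = ((-1) ^ (ℓ + 1) * (derivative D).eval a) ^ e β *
        ∏ β' ∈ R.filter fun β' => g.eval β' ≠ a, (β - β') ^ (-e β') →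
      U y = ζ ^ (e' β + c) * y := by
  subst hf
  exact h.bad_formula hp hB hζ hζ' hΓ u U huv huF hut hug hud hUζ hnorm R hR hUR hUa e Q hC z hz q
    hq A hA e' he'

end Pool.Agent.Lib.MP_89bcae_ag.Sup

end
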