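import Mathlib
import Pool.Agent.Lib.MP_89bcae_ag.Q.K036
import Pool.Agent.Lib.MP_89bcae_ag.Q.K039

/-!
ROW G15 (120-220 lines). The local character of a class at a bad place.

Setting: `D(a) = 0`, `K` any field between `L` and `M` (`M` an algebraically closed field containing `K`),
`v` an absolute value as in `LocCtx` invariant under `Aut(M/K)`, `δ^ℓ = D(t)`, `j : Ω → M`.
STATEMENT: if `τ` in `Aut(M/K)` restricts to `τ'` on `Ω` and `τ δ = ζ^i δ`, and `HasExp c e`, then
`j (v (c 1 τ')) = ram (θ ↦ i e(residue of θ))`.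

PROOF. The roots over `M` are the `j θ₀`, `θ₀` a root in `Ω` (same number of roots). `τ` fixes every root
(`fix_root`; `τ` fixes `F` and `t`), so `τ'` fixes every root `θ₀`. Let `z` be as in `HasExp`, and `n` with
`τ' (z θ₀) = ζ^{n(θ₀)} z θ₀`; `v (c 1 τ') = ram n`. With `θ = j θ₀`, `β` its residue (in `RR`, as
`g(β) = a`): `(j (z θ₀))^ℓ = ∏_{β'∈RR} (θ - β')^{e β'} = (θ - β)^{e β} · w'`, `w'` a unit fixed by `τ`
(`θ - β'` has residue `β - β' ≠ 0`), and `θ - β = D(t) · w''` with a unit `w''` fixed by `τ`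
(`v_bad`, `residue_quot`: `(t-a)/(θ-β)` has residue `g'(β) ≠ 0`, `D(t)/(t-a)` has residue
`D'(a) ≠ 0`). So `char_of_unit` (L07) gives `τ (j (z θ₀)) = ζ^{i e β} j (z θ₀)`, hence `n(θ₀) ≡ i e(β)`
modulo `ℓ`, and `jacMap_ram` (G07), `ram_congr`.
-/

open Polynomial IsDedekindDomain

open scoped Classical

namespace Pool.Agent.Lib.MP_89bcae_ag.Sup

universe u

variable {k F L Ω : Type u} [Field k] [Field F] [Algebra k F] [Field L] [Algebra F[X] L]
  [Field Ω] [Algebra L Ω] [IsAlgClosure k F] [IsFractionRing F[X] L] [IsAlgClosure L Ω]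
  [Algebra F Ω] {ℓ : ℕ} {g D : k[X]} [hG : IsGood ℓ (cOver k F L Ω g D)] {ζ : k}
  {hζ : (zA F L Ω ζ) ^ ℓ = 1}

private lemma G15_aeval {A : Type u} [Field A] [Algebra L A] [Algebra F A]
    (hF : CompatF F L A) (p : F[X]) :
    aeval (tA F L A) p = algebraMap L A (algebraMap F[X] L p) := by
  have h1 : ((aeval (tA F L A) : F[X] →ₐ[F] A) : F[X] →+* A) =
      (algebraMap L A).comp (algebraMap F[X] L) := by
    apply Polynomial.ringHom_ext
    · intro c
      rw [AlgHom.coe_toRingHom, aeval_C]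
      exact hF c
    · rw [AlgHom.coe_toRingHom, aeval_X]
      rfl
  exact congrArg (fun f : F[X] →+* A => f p) h1

private lemma G15_t_inj {A : Type u} [Field A] [Algebra L A] [Algebra F A]
    (hF : CompatF F L A) {p : F[X]} (hp : aeval (tA F L A) p = 0) : p = 0 := by
  rw [G15_aeval hF] at hp
  have h1 : algebraMap F[X] L p = 0 := (map_eq_zero _).mp hp
  exact (IsFractionRing.injective F[X] L) (h1.trans (map_zero _).symm)

private lemma G15_zA {A : Type u} [Field A] [Algebra L A] [Algebra F A]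
    (hF : CompatF F L A) (ζ : k) : zA F L A ζ = algebraMap F A (algebraMap k F ζ) := by
  rw [hF]
  unfold zA base
  rw [RingHom.comp_apply, RingHom.comp_apply, coe_mapRingHom, map_C]

private lemma G15_rts_map {A : Type u} [Field A] [IsAlgClosed A] {B : Type u} [Field B] (f : A[X])
    (i : A →+* B) {x : B} : x ∈ rts (f.map i) ↔ ∃ y ∈ rts f, i y = x := by
  unfold rts
  rw [(IsAlgClosed.splits f).roots_map i, Multiset.mem_toFinset, Multiset.mem_map]
  constructor
  · rintro ⟨y, hy, h⟩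
    exact ⟨y, Multiset.mem_toFinset.mpr hy, h⟩
  · rintro ⟨y, hy, h⟩
    exact ⟨y, Multiset.mem_toFinset.mp hy, h⟩

private lemma G15_cOver {A B : Type u} [Field A] [Algebra L A] [Field B] [Algebra L B]
    (j : A →ₐ[L] B) (g D : k[X]) :
    (cOver k F L A g D).map (j : A →+* B) = cOver k F L B g D := by
  rw [Polynomial.map_map, AlgHom.comp_algebraMap]

/-- `BadCtx` from the global hypotheses. -/
lemma GlobHyp.badCtx (H : GlobHyp ℓ g D ζ) {M : Type u} [Field M] [Algebra L M] [Algebra F M]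
    (hFM : CompatF F L M) {a : F} (ha : aeval a D = 0) {δ : M}
    (hδ : δ ^ ℓ = aeval (tA F L M) (D.map (algebraMap k F))) :
    BadCtx (g.map (algebraMap k F)) (D.map (algebraMap k F)) a (tA F L M) δ ℓ := by
  have hcl : IsAlgClosed F := IsAlgClosure.isAlgClosed k
  have hdeg : g.natDegree ≠ 0 := by
    intro h0
    have h1 := H.cop
    rw [h0, Nat.coprime_zero_left] at h1
    exact H.prime.ne_one h1
  have hdeg' : (g.map (algebraMap k F)).natDegree ≠ 0 := by
    rw [natDegree_map]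
    exact hdeg
  have ha' : (D.map (algebraMap k F)).eval a = 0 := by
    rw [eval_map_algebraMap]
    exact ha
  have key : ∀ r : F, (g.map (algebraMap k F)).eval r = a →
      (derivative (g.map (algebraMap k F))).eval r *
        (derivative (D.map (algebraMap k F))).eval a ≠ 0 := by
    intro r hr
    have hs : ((D.comp g).map (algebraMap k F)).Separable := H.sep.map
    rw [Polynomial.map_comp] at hs
    have hroot : ((D.map (algebraMap k F)).comp (g.map (algebraMap k F))).eval r = 0 := by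
      rw [eval_comp, hr, ha']
    have h1 := U01_deriv_ne hs hroot
    rw [derivative_comp, eval_mul, eval_comp, hr] at h1
    exact h1
  refine ⟨H.monic.map _, hdeg', ?_, ha', ?_, ?_, hδ, ?_⟩
  · rw [natDegree_map]
    exact H.cop
  · obtain ⟨r, hr⟩ := IsAlgClosed.exists_root (g.map (algebraMap k F) - C a) (by
      apply degree_ne_of_natDegree_ne
      rw [natDegree_sub_C]
      exact hdeg')
    have hr' : (g.map (algebraMap k F)).eval r = a := by
      rw [IsRoot.def, eval_sub, eval_C, sub_eq_zero] at hr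
      exact hr
    exact right_ne_zero_of_mul (key r hr')
  · intro r hr
    exact left_ne_zero_of_mul (key r hr)
  · intro h0
    have h1 := G15_t_inj hFM h0
    rw [Polynomial.map_eq_zero] at h1
    apply H.pos
    rw [h1, natDegree_zero]

/-- The roots over `M` are the images of the roots over `Ω`. -/
lemma exists_root_eq (H : GlobHyp ℓ g D ζ) {M : Type u} [Field M] [Algebra L M] (j : Ω →ₐ[L] M)
    {θ : M} (hθ : θ ∈ rts (cOver k F L M g D)) :
    ∃ θ₀ ∈ rts (cOver k F L Ω g D), j θ₀ = θ := by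
  have hcl : IsAlgClosed Ω := IsAlgClosure.isAlgClosed L
  rw [← G15_cOver j, G15_rts_map] at hθ
  exact hθ

lemma map_root_mem (H : GlobHyp ℓ g D ζ) {M : Type u} [Field M] [Algebra L M] (j : Ω →ₐ[L] M)
    {θ₀ : Ω} (hθ : θ₀ ∈ rts (cOver k F L Ω g D)) : j θ₀ ∈ rts (cOver k F L M g D) := by
  have hcl : IsAlgClosed Ω := IsAlgClosure.isAlgClosed L
  rw [← G15_cOver j, G15_rts_map]
  exact ⟨θ₀, hθ, rfl⟩

lemma map_zA {M : Type u} [Field M] [Algebra L M] (j : Ω →ₐ[L] M) (ζ : k) :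
    j (zA F L Ω ζ) = zA F L M ζ := by
  unfold zA base
  rw [RingHom.comp_apply, RingHom.comp_apply]
  exact j.commutes _

/-- The action of `τ` on the Kummer function. -/
private lemma G15_kummer (H : GlobHyp ℓ g D ζ) (e : F → ℤ) {a : F} (ha : aeval a D = 0)
    {K M : Type u} [Field K] [Algebra L K] [Field M] [Algebra K M] [Algebra L M]
    [IsScalarTower L K M] [Algebra F M] (hFM : CompatF F L M) {v : AbsoluteValue M ℝ}
    (hv : LocCtx v a (tA F L M)) (hinv : ∀ (σ : M ≃ₐ[K] M) x, v (σ x) = v x)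
    {δ : M} (hδ : δ ^ ℓ = aeval (tA F L M) (D.map (algebraMap k F)))
    (τ : M ≃ₐ[K] M) (i : ℤ) (hi : τ δ = zA F L M ζ ^ i * δ) {θ z : M}
    (hθ : θ ∈ rts (cOver k F L M g D))
    (hz : z ^ ℓ = ∏ β ∈ RR F g D, (θ - algebraMap F M β) ^ e β) :
    τ θ = θ ∧ z ≠ 0 ∧ τ z = zA F L M ζ ^ (i * e (rs F v θ)) * z := by
  have hB := H.badCtx hFM ha hδ
  have hconst : ∀ y : L, τ (algebraMap L M y) = algebraMap L M y := by
    intro y
    rw [IsScalarTower.algebraMap_apply L K M]
    exact τ.commutes _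
  have hc : ∀ c : F, (τ : M ≃+* M) (algebraMap F M c) = algebraMap F M c := by
    intro c
    rw [hFM]
    exact hconst _
  have ht : (τ : M ≃+* M) (tA F L M) = tA F L M := hconst _
  have hτ : ∀ x, v ((τ : M ≃+* M) x) = v x := fun x => hinv τ x
  have hθt : aeval θ (g.map (algebraMap k F)) = tA F L M := by
    rw [cOver_eq_locPoly hFM, mem_rts (locPoly_ne_zero hB.monic hB.deg hB.ne),
      eval_locPoly_eq_zero hB.ne] at hθ
    exact hθ
  have hfix : (τ : M ≃+* M) θ = θ := hv.fix_root hB (τ : M ≃+* M) hτ hc ht hθt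
  set β := rs F v θ with hβdef
  have hβ : (g.map (algebraMap k F)).eval β = a := hv.eval_rs hB hθt
  have hres := hv.v_sub_rs (hv.v_root_le hB.monic hB.deg hθt)
  rw [← hβdef] at hres
  have hne : ∀ c : F, θ - algebraMap F M c ≠ 0 := by
    intro c h0
    have h1 : θ = algebraMap F M c := sub_eq_zero.mp h0
    rw [h1, aeval_algebraMap_apply] at hθt
    have h2 : aeval (tA F L M) (X - C (aeval c (g.map (algebraMap k F))) : F[X]) = 0 := by
      rw [map_sub, aeval_X, aeval_C, hθt, sub_self]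
    exact X_sub_C_ne_zero _ (G15_t_inj hFM h2)
  have hβR : β ∈ RR F g D := by
    rw [mem_RR H]
    rw [eval_map_algebraMap] at hβ
    rw [hβ]
    exact ha
  have hzne : z ≠ 0 := by
    intro h0
    rw [h0, zero_pow H.prime.ne_zero] at hz
    have h1 : ∏ β ∈ RR F g D, (θ - algebraMap F M β) ^ e β ≠ 0 :=
      Finset.prod_ne_zero_iff.mpr fun c _ => zpow_ne_zero _ (hne c)
    exact h1 hz.symm
  refine ⟨hfix, hzne, ?_⟩
  have hδ0 : δ ≠ 0 := by
    intro h0
    apply hB.ne
    rw [← hδ, h0, zero_pow H.prime.ne_zero]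
  have hta : tA F L M - algebraMap F M a ≠ 0 := sub_ne_zero.mpr hv.ne
  have hquot := hv.residue_quot hB hθt
  rw [← hβdef] at hquot
  have hv1 : v ((tA F L M - algebraMap F M a) / (θ - algebraMap F M β)) = 1 :=
    hv.v_eq_one hquot (hB.roots β hβ)
  have hv2 : v (tA F L M - algebraMap F M a) = v (θ - algebraMap F M β) := by
    rw [map_div₀] at hv1
    exact (div_eq_one_iff_eq ((map_ne_zero v).mpr (hne β))).mp hv1
  have hv3 : v (aeval (tA F L M) (D.map (algebraMap k F))) = v (θ - algebraMap F M β) := by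
    rw [(hv.v_bad hB).1, hv2]
  set w₁ : M := (θ - algebraMap F M β) / aeval (tA F L M) (D.map (algebraMap k F)) with hw₁
  have hw₁v : v w₁ = 1 := by
    rw [hw₁, map_div₀, hv3, div_self ((map_ne_zero v).mpr (hne β))]
  have hDt : (τ : M ≃+* M) (aeval (tA F L M) (D.map (algebraMap k F))) =
      aeval (tA F L M) (D.map (algebraMap k F)) := by
    rw [G15_aeval hFM]
    exact hconst _
  have hw₁τ : (τ : M ≃+* M) w₁ = w₁ := by
    rw [hw₁, map_div₀, map_sub, hfix, hc, hDt]
  set w₂ : M := ∏ β' ∈ (RR F g D).erase β, (θ - algebraMap F M β') ^ e β' with hw₂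
  have hw₂v : v w₂ = 1 := by
    rw [hw₂, map_prod]
    apply Finset.prod_eq_one
    intro β' hβ'
    have hne' : β - β' ≠ 0 := sub_ne_zero.mpr (Finset.ne_of_mem_erase hβ').symm
    have h1 : v (θ - algebraMap F M β' - algebraMap F M (β - β')) < 1 := by
      have h2 : θ - algebraMap F M β' - algebraMap F M (β - β') = θ - algebraMap F M β := by
        rw [map_sub]
        ring
      rw [h2]
      exact hres
    rw [map_zpow₀, hv.v_eq_one h1 hne', one_zpow]
  have hw₂τ : (τ : M ≃+* M) w₂ = w₂ := by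
    rw [hw₂, map_prod]
    apply Finset.prod_congr rfl
    intro β' _
    rw [map_zpow₀, map_sub, hfix, hc]
  have hzw : z ^ ℓ = (δ ^ ℓ) ^ e β * (w₁ ^ e β * w₂) := by
    rw [hz, ← Finset.mul_prod_erase _ _ hβR, ← hw₂, hδ, ← mul_assoc, ← mul_zpow, hw₁,
      mul_div_cancel₀ _ hB.ne]
  have hi' : (τ : M ≃+* M) δ = algebraMap F M (algebraMap k F ζ) ^ i * δ := by
    rw [← G15_zA hFM]
    exact hi
  have hζF : IsPrimitiveRoot (algebraMap k F ζ) ℓ :=
    H.zeta.map_of_injective (algebraMap k F).injective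
  have hfin := hv.char_of_unit H.prime.ne_zero hδ0 hζF (τ : M ≃+* M) hτ hc (e β) i hi' hzw
    (by rw [map_mul, map_zpow₀, hw₁τ, hw₂τ]) (by rw [map_mul, map_zpow₀, hw₁v, hw₂v, one_zpow, one_mul])
  rw [G15_zA hFM]
  exact hfin

theorem HasExp.local_char (hF : CompatF F L Ω) (H : GlobHyp ℓ g D ζ)
    {c : Coch ℓ k F L Ω g D} {e : F → ℤ} (h : HasExp hζ c e) {a : F} (ha : aeval a D = 0)
    {K M : Type u} [Field K] [Algebra L K] [Field M] [Algebra K M] [Algebra L M]
    [IsScalarTower L K M] [Algebra F M] (hFM : CompatF F L M)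
    [hGM : IsGood ℓ (cOver k F L M g D)] {v : AbsoluteValue M ℝ}
    (hv : LocCtx v a (tA F L M)) (hinv : ∀ (σ : M ≃ₐ[K] M) x, v (σ x) = v x)
    (j : Ω →ₐ[L] M) {δ : M} (hδ : δ ^ ℓ = aeval (tA F L M) (D.map (algebraMap k F)))
    (τ : M ≃ₐ[K] M) (τ' : Ω ≃ₐ[L] Ω) (hτ : ∀ x, j (τ' x) = τ (j x)) (i : ℤ)
    (hi : τ δ = zA F L M ζ ^ i * δ) :
    push ℓ (curvePoly k F L g D) j (vJ (zA F L Ω ζ) hζ (c 1 τ')) =
      ram fun θ => i * e (rs F v θ) := by
  obtain ⟨z, hz, hch⟩ := h.ex
  obtain ⟨n, hn⟩ := exists_n_of_pow hF H e hz τ'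
  rw [hch τ' n hn]
  have hjinj : Function.Injective j := (j : Ω →+* M).injective
  have hB := H.badCtx hFM ha hδ
  have hcM0 : cOver k F L M g D ≠ 0 := by
    rw [cOver_eq_locPoly hFM]
    exact locPoly_ne_zero hB.monic hB.deg hB.ne
  have h1 : push ℓ (curvePoly k F L g D) j (ram n) = ram (Function.extend j n 0) :=
    jacMap_ram (j : Ω →+* M) _ n _ fun θ _ => hjinj.extend_apply n 0 θ
  rw [h1]
  apply ram_congr
  intro θ hθ
  have hθ' : θ ∈ rts (cOver k F L M g D) := (mem_rts hcM0).mpr hθ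
  obtain ⟨θ₀, hθ₀, hjθ⟩ := exists_root_eq H j hθ'
  rw [← hjθ, hjinj.extend_apply, hjθ]
  have hzj : (j (z θ₀)) ^ ℓ = ∏ β ∈ RR F g D, (θ - algebraMap F M β) ^ e β := by
    rw [← map_pow, hz θ₀ hθ₀, map_prod]
    apply Finset.prod_congr rfl
    intro β _
    rw [map_zpow₀, map_sub, hjθ, hF, hFM, j.commutes]
  obtain ⟨hfix, hzne, hτz⟩ := G15_kummer H e ha hFM hv hinv hδ τ i hi hθ' hzj
  have hfix₀ : τ' θ₀ = θ₀ := by
    apply hjinj
    rw [hτ, hjθ]
    exact hfix
  have h2 := congrArg j (hn θ₀ hθ₀)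
  rw [hτ, hfix₀, map_mul, map_zpow₀, map_zA, hτz] at h2
  have h3 := mul_right_cancel₀ hzne h2
  have hprim : IsPrimitiveRoot (zA F L M ζ) ℓ := by
    rw [G15_zA hFM]
    exact (H.zeta.map_of_injective (algebraMap k F).injective).map_of_injective
      (algebraMap F M).injective
  have hζ0 : zA F L M ζ ≠ 0 := hprim.ne_zero H.prime.ne_zero
  rw [← hprim.zpow_eq_one_iff_dvd, zpow_sub₀ hζ0, ← h3, div_self (zpow_ne_zero _ hζ0)]

end Pool.Agent.Lib.MP_89bcae_ag.Sup
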