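import Mathlib
import Pool.Agent.Lib.MP_89bcae_ag.Q.K041

section

/-!
The symbol of an automorphism of `F` with respect to a root of unity.
-/

open Polynomial

open scoped Classical

namespace Pool.Agent.Lib.MP_89bcae_ag.Sup

universe u

/-- The symbol: `U x = ζ ^ κ(z) x` for `x ^ ℓ = z`. -/
noncomputable def kap {F : Type u} [Field F] (ℓ : ℕ) (ζ : F) (U : F → F) (z : F) : ZMod ℓ :=
  if h : ∃ i : ZMod ℓ, ∀ x : F, x ^ ℓ = z → U x = ζ ^ i.val * x then h.choose else 0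

section

variable {ℓ : ℕ} {k F : Type u} [Field k] [Field F] [Algebra k F]

/-- The sum over the other fibres. -/
noncomputable def sumO (g E : k[X]) (kp e : F → ZMod ℓ) (β : F) : ZMod ℓ :=
  ∑ β' ∈ (RR F g E).filter (fun β' => aeval β' g ≠ aeval β g), kp (β - β') * (e β - e β')

/-- The sum over the same fibre. -/
noncomputable def sumS (g E : k[X]) (kp e : F → ZMod ℓ) (β : F) : ZMod ℓ :=
  ∑ β' ∈ (RR F g E).filter (fun β' => aeval β' g = aeval β g), kp (β - β') * (e β - e β')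

/-- The separation condition for the symbol `kp`, with weight `μ` for the pairs in the same fibre, on the
fibres over `B`. -/
def SepU (g E : k[X]) (kp : F → ZMod ℓ) (μ : ZMod ℓ) (B : Set F) : Prop :=
  ∀ (e : F → ZMod ℓ) (n : ZMod ℓ) (cst : F → ZMod ℓ),
    (∀ β ∈ RR F g E,
      ∑ β' ∈ (RR F g E).filter (fun β' => aeval β' g = aeval β g), e β' = 0) →
    (∀ β ∈ RR F g E, aeval β g ∈ B →
      sumO g E kp e β + μ * sumS g E kp e β + n * e β = cst (aeval β g)) →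
    ∀ β ∈ RR F g E, aeval β g ∈ B → e β = 0

end

section

variable {F : Type u} [Field F] [IsAlgClosed F] {ℓ : ℕ} {ζ : F} (U : F ≃+* F)

lemma tk01_ex (hℓ : ℓ.Prime) (hζ : IsPrimitiveRoot ζ ℓ) (hU : U ζ = ζ) {z : F} (hz0 : z ≠ 0)
    (hz : U z = z) : ∃ i : ZMod ℓ, ∀ x : F, x ^ ℓ = z → U x = ζ ^ i.val * x := by
  have : NeZero ℓ := ⟨hℓ.ne_zero⟩
  obtain ⟨x, hx⟩ := IsAlgClosed.exists_pow_nat_eq z hℓ.pos
  have hx0 : x ≠ 0 := by
    intro h
    rw [h, zero_pow hℓ.ne_zero] at hx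
    exact hz0 hx.symm
  have h1 : (U x / x) ^ ℓ = 1 := by
    rw [div_pow, ← map_pow, hx, hz, div_self hz0]
  obtain ⟨i, hi, hi'⟩ := hζ.eq_pow_of_pow_eq_one h1
  have hUx : U x = ζ ^ i * x := by
    rw [hi', div_mul_cancel₀ _ hx0]
  refine ⟨(i : ZMod ℓ), fun y hy => ?_⟩
  rw [ZMod.val_cast_of_lt hi]
  have h2 : (y / x) ^ ℓ = 1 := by
    rw [div_pow, hx, hy, div_self hz0]
  obtain ⟨j, hj, hj'⟩ := hζ.eq_pow_of_pow_eq_one h2
  have hyx : y = ζ ^ j * x := by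
    rw [hj', div_mul_cancel₀ _ hx0]
  rw [hyx, map_mul, map_pow, hU, hUx]
  ring

lemma kap_spec (hℓ : ℓ.Prime) (hζ : IsPrimitiveRoot ζ ℓ) (hU : U ζ = ζ) {z : F} (hz0 : z ≠ 0)
    (hz : U z = z) {x : F} (hx : x ^ ℓ = z) : U x = ζ ^ (kap ℓ ζ U z).val * x := by
  have h := tk01_ex U hℓ hζ hU hz0 hz
  unfold kap
  rw [dif_pos h]
  exact h.choose_spec x hx

lemma kap_of (hℓ : ℓ.Prime) (hζ : IsPrimitiveRoot ζ ℓ) (hU : U ζ = ζ) {x : F} (hx : x ≠ 0)
    {n : ℤ} (h : U x = ζ ^ n * x) : kap ℓ ζ U (x ^ ℓ) = n := by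
  have : NeZero ℓ := ⟨hℓ.ne_zero⟩
  have hζ0 : ζ ≠ 0 := hζ.ne_zero hℓ.ne_zero
  have hz : U (x ^ ℓ) = x ^ ℓ := by
    have h1 : (ζ ^ n) ^ ℓ = 1 := by
      rw [← zpow_natCast, ← zpow_mul, mul_comm, zpow_mul, zpow_natCast, hζ.pow_eq_one, one_zpow]
    rw [map_pow, h, mul_pow, h1, one_mul]
  have h2 := kap_spec U hℓ hζ hU (pow_ne_zero ℓ hx) hz (rfl : x ^ ℓ = x ^ ℓ)
  rw [h] at h2
  have h3 : ζ ^ n = ζ ^ ((kap ℓ ζ U (x ^ ℓ)).val : ℤ) := by
    rw [zpow_natCast]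
    exact mul_right_cancel₀ hx h2
  have h4 : ζ ^ (n - ((kap ℓ ζ U (x ^ ℓ)).val : ℤ)) = 1 := by
    rw [zpow_sub₀ hζ0, h3, div_self]
    exact zpow_ne_zero _ hζ0
  have h5 : (ℓ : ℤ) ∣ n - ((kap ℓ ζ U (x ^ ℓ)).val : ℤ) := (hζ.zpow_eq_one_iff_dvd _).mp h4
  have h6 : ((n - ((kap ℓ ζ U (x ^ ℓ)).val : ℤ) : ℤ) : ZMod ℓ) = 0 :=
    (ZMod.intCast_zmod_eq_zero_iff_dvd _ _).mpr h5
  rw [Int.cast_sub, Int.cast_natCast, ZMod.natCast_zmod_val, sub_eq_zero] at h6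
  exact h6.symm

lemma tk01_root {U : F ≃+* F} (hℓ : ℓ.Prime) (hζ : IsPrimitiveRoot ζ ℓ) (hU : U ζ = ζ) {z : F}
    (hz0 : z ≠ 0) (hz : U z = z) : ∃ x : F, x ≠ 0 ∧ x ^ ℓ = z ∧
      U x = ζ ^ (((kap ℓ ζ U z).val : ℕ) : ℤ) * x := by
  obtain ⟨x, hx⟩ := IsAlgClosed.exists_pow_nat_eq z hℓ.pos
  refine ⟨x, ?_, hx, ?_⟩
  · intro h
    rw [h, zero_pow hℓ.ne_zero] at hx
    exact hz0 hx.symm
  · rw [zpow_natCast]
    exact kap_spec U hℓ hζ hU hz0 hz hx

lemma kap_mul (hℓ : ℓ.Prime) (hζ : IsPrimitiveRoot ζ ℓ) (hU : U ζ = ζ) {z z' : F}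
    (hz0 : z ≠ 0) (hz0' : z' ≠ 0) (hz : U z = z) (hz' : U z' = z') :
    kap ℓ ζ U (z * z') = kap ℓ ζ U z + kap ℓ ζ U z' := by
  have : NeZero ℓ := ⟨hℓ.ne_zero⟩
  have hζ0 : ζ ≠ 0 := hζ.ne_zero hℓ.ne_zero
  obtain ⟨x, hx0, hx, hUx⟩ := tk01_root hℓ hζ hU hz0 hz
  obtain ⟨y, hy0, hy, hUy⟩ := tk01_root hℓ hζ hU hz0' hz'
  have h := kap_of U hℓ hζ hU (mul_ne_zero hx0 hy0)
    (n := ((kap ℓ ζ U z).val : ℤ) + ((kap ℓ ζ U z').val : ℤ)) (by
      rw [map_mul, hUx, hUy, zpow_add₀ hζ0]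
      ring)
  rw [mul_pow, hx, hy, Int.cast_add, Int.cast_natCast, Int.cast_natCast, ZMod.natCast_zmod_val,
    ZMod.natCast_zmod_val] at h
  exact h

lemma kap_zpow (hℓ : ℓ.Prime) (hζ : IsPrimitiveRoot ζ ℓ) (hU : U ζ = ζ) {z : F}
    (hz0 : z ≠ 0) (hz : U z = z) (n : ℤ) : kap ℓ ζ U (z ^ n) = n * kap ℓ ζ U z := by
  have : NeZero ℓ := ⟨hℓ.ne_zero⟩
  obtain ⟨x, hx0, hx, hUx⟩ := tk01_root hℓ hζ hU hz0 hz
  have h := kap_of U hℓ hζ hU (zpow_ne_zero n hx0) (n := ((kap ℓ ζ U z).val : ℤ) * n) (by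
      rw [map_zpow₀, hUx, mul_zpow, ← zpow_mul])
  have h1 : (x ^ n) ^ ℓ = z ^ n := by
    rw [← hx, ← zpow_natCast, ← zpow_natCast, ← zpow_mul, ← zpow_mul, mul_comm]
  rw [h1, Int.cast_mul, Int.cast_natCast, ZMod.natCast_zmod_val, mul_comm] at h
  exact h

lemma tk01_one (hℓ : ℓ.Prime) (hζ : IsPrimitiveRoot ζ ℓ) (hU : U ζ = ζ) : kap ℓ ζ U 1 = 0 := by
  have h := kap_of U hℓ hζ hU (one_ne_zero) (n := 0) (by rw [map_one, zpow_zero, one_mul])
  rw [one_pow, Int.cast_zero] at h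
  exact h

lemma kap_prod (hℓ : ℓ.Prime) (hζ : IsPrimitiveRoot ζ ℓ) (hU : U ζ = ζ) {ι : Type*}
    (S : Finset ι) (z : ι → F) (hz0 : ∀ i ∈ S, z i ≠ 0) (hz : ∀ i ∈ S, U (z i) = z i) :
    kap ℓ ζ U (∏ i ∈ S, z i) = ∑ i ∈ S, kap ℓ ζ U (z i) := by
  induction S using Finset.induction_on with
  | empty => simpa using tk01_one U hℓ hζ hU
  | insert a S ha ih =>
    rw [Finset.prod_insert ha, Finset.sum_insert ha]
    have h0 : ∀ i ∈ S, z i ≠ 0 := fun i hi => hz0 i (Finset.mem_insert_of_mem hi)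
    have h1 : ∀ i ∈ S, U (z i) = z i := fun i hi => hz i (Finset.mem_insert_of_mem hi)
    rw [kap_mul U hℓ hζ hU (hz0 a (Finset.mem_insert_self a S)) (Finset.prod_ne_zero_iff.mpr h0)
      (hz a (Finset.mem_insert_self a S)) (by rw [map_prod]; exact Finset.prod_congr rfl h1),
      ih h0 h1]

lemma kap_eq_zero (hℓ : ℓ.Prime) (hζ : IsPrimitiveRoot ζ ℓ) (hU : U ζ = ζ) {z : F}
    (hz0 : z ≠ 0) (h : ∀ x, x ^ ℓ = z → U x = x) : kap ℓ ζ U z = 0 := by
  obtain ⟨x, hx⟩ := IsAlgClosed.exists_pow_nat_eq z hℓ.pos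
  have hx0 : x ≠ 0 := by
    intro h
    rw [h, zero_pow hℓ.ne_zero] at hx
    exact hz0 hx.symm
  have h1 := kap_of U hℓ hζ hU hx0 (n := 0) (by rw [zpow_zero, one_mul]; exact h x hx)
  rw [hx, Int.cast_zero] at h1
  exact h1

end

end Pool.Agent.Lib.MP_89bcae_ag.Sup

end

section

/-!
# Definitions for the density theorem
-/

open Polynomial

open scoped Classical

namespace Pool.Agent.Lib.MP_89bcae_ag.Sup

universe u

/-- The function `o` is a homomorphism on `K`, zero on the differences of elements of `S`, except for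
the pairs matched by the bijection `M` between the fibres of `p` over `α` and `α'`. -/
structure MOrd {F : Type u} [Field F] (K : Subfield F) (S : Finset F) (p : F → F) (α α' : F)
    (M : F → F) (o : F → ℤ) : Prop where
  mul : ∀ a ∈ K, ∀ b ∈ K, a ≠ 0 → b ≠ 0 → o (a * b) = o a + o b
  same : ∀ β ∈ S, ∀ β' ∈ S, β ≠ β' → p β = p β' → o (β - β') = 0
  out : ∀ β ∈ S, ∀ β' ∈ S, p β ≠ p β' → ¬ (p β = α ∧ p β' = α') →
    ¬ (p β = α' ∧ p β' = α) → o (β - β') = 0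
  mem : ∀ β ∈ S, p β = α → M β ∈ S ∧ p (M β) = α'
  inj : ∀ β ∈ S, ∀ β' ∈ S, p β = α → p β' = α → M β = M β' → β = β'
  surj : ∀ β' ∈ S, p β' = α' → ∃ β ∈ S, p β = α ∧ M β = β'
  left : ∀ β ∈ S, p β = α → ∀ β' ∈ S, p β' = α' → o (β - β') = if β' = M β then 1 else 0

/-- The values of the symbol on the differences: the matching `M` between the fibres over `α` and `α'`,
the constant `c` between the fibres over `α` and `α''`. -/
structure KpOk {F : Type u} [Field F] {ℓ : ℕ} (S : Finset F) (p : F → F) (α α' α'' : F)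
    (M : F → F) (c : ZMod ℓ) (kp : F → ZMod ℓ) : Prop where
  mem : ∀ β ∈ S, p β = α → M β ∈ S ∧ p (M β) = α'
  inj : ∀ β ∈ S, ∀ β' ∈ S, p β = α → p β' = α → M β = M β' → β = β'
  surj : ∀ β' ∈ S, p β' = α' → ∃ β ∈ S, p β = α ∧ M β = β'
  same : ∀ β ∈ S, ∀ β' ∈ S, β ≠ β' → p β = p β' → kp (β - β') = 0
  ab : ∀ β ∈ S, p β = α → ∀ β' ∈ S, p β' = α' → kp (β - β') = if β' = M β then 1 else 0
  ba : ∀ β ∈ S, p β = α' → ∀ β' ∈ S, p β' = α → kp (β - β') = if β = M β' then 1 else 0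
  ac : ∀ β ∈ S, p β = α → ∀ β' ∈ S, p β' = α'' → kp (β - β') = c
  ao : ∀ β ∈ S, p β = α → ∀ β' ∈ S, p β' ≠ α → p β' ≠ α' → p β' ≠ α'' → kp (β - β') = 0
  bo : ∀ β ∈ S, p β = α' → ∀ β' ∈ S, p β' ≠ α' → p β' ≠ α → kp (β - β') = 0

/-- The criterion for all towers. -/
structure CRall (ℓ : ℕ) {k F : Type u} [Field k] [Field F] [Algebra k F] (g E : k[X]) (ζ : k)
    (U : F ≃ₐ[k] F) (B : Set F) : Prop where
  fix : ∀ β ∈ RR F g E, U β = β
  neg : ∀ x : F, x ^ ℓ = -1 → U x = x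
  sep : ∀ μ : ZMod ℓ, SepU g E (kap ℓ (algebraMap k F ζ) U) μ B

end Pool.Agent.Lib.MP_89bcae_ag.Sup

end

section

/-!
Kummer duality: automorphisms with prescribed symbols.
-/

open Polynomial

open scoped Classical

set_option linter.unusedSectionVars false
set_option linter.unusedVariables false

namespace Pool.Agent.Lib.MP_89bcae_ag.Sup

universe u

theorem te04_lam_one {k F : Type u} [Field k] [Field F] [Algebra k F] {ℓ : ℕ}
    (K : IntermediateField k F) (lam : F → ZMod ℓ)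
    (hmul : ∀ x ∈ K, ∀ y ∈ K, x ≠ 0 → y ≠ 0 → lam (x * y) = lam x + lam y) : lam 1 = 0 := by
  have h := hmul 1 K.one_mem 1 K.one_mem one_ne_zero one_ne_zero
  rw [mul_one] at h
  exact left_eq_add.1 h

theorem te04_lam_pow {k F : Type u} [Field k] [Field F] [Algebra k F] {ℓ : ℕ}
    (K : IntermediateField k F) (lam : F → ZMod ℓ)
    (hmul : ∀ x ∈ K, ∀ y ∈ K, x ≠ 0 → y ≠ 0 → lam (x * y) = lam x + lam y) {x : F} (hx : x ∈ K)
    (hx0 : x ≠ 0) (n : ℕ) : lam (x ^ n) = n * lam x := by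
  induction n with
  | zero => simp [te04_lam_one K lam hmul]
  | succ n ih =>
    rw [pow_succ, hmul _ (pow_mem hx n) _ hx (pow_ne_zero _ hx0) hx0, ih]
    push_cast
    ring

theorem te04_lam_prod {k F : Type u} [Field k] [Field F] [Algebra k F] {ℓ : ℕ}
    (K : IntermediateField k F) (lam : F → ZMod ℓ)
    (hmul : ∀ x ∈ K, ∀ y ∈ K, x ≠ 0 → y ≠ 0 → lam (x * y) = lam x + lam y) {ι : Type*}
    (S : Finset ι) (z : ι → F) (hz : ∀ i ∈ S, z i ∈ K) (hz0 : ∀ i ∈ S, z i ≠ 0) :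
    lam (∏ i ∈ S, z i) = ∑ i ∈ S, lam (z i) := by
  classical
  induction S using Finset.induction_on with
  | empty => simp [te04_lam_one K lam hmul]
  | insert a S ha ih =>
    rw [Finset.prod_insert ha, Finset.sum_insert ha,
      hmul _ (hz a (Finset.mem_insert_self a S)) _
        (K.prod_mem fun i hi => hz i (Finset.mem_insert_of_mem hi))
        (hz0 a (Finset.mem_insert_self a S))
        (Finset.prod_ne_zero_iff.2 fun i hi => hz0 i (Finset.mem_insert_of_mem hi)),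
      ih (fun i hi => hz i (Finset.mem_insert_of_mem hi))
        (fun i hi => hz0 i (Finset.mem_insert_of_mem hi))]

/-- The symbols of a product of two automorphisms. -/
theorem te04_kap_comp {k F : Type u} [Field k] [Field F] [Algebra k F] [IsAlgClosed F]
    {ℓ : ℕ} (hℓ : ℓ.Prime) {ζ : k} (hζ : IsPrimitiveRoot ζ ℓ) (U V : F ≃ₐ[k] F) {z : F}
    (hz0 : z ≠ 0) (hU : U z = z) (hV : V z = z) :
    kap ℓ (algebraMap k F ζ) (U.trans V) z =
      kap ℓ (algebraMap k F ζ) U z + kap ℓ (algebraMap k F ζ) V z := by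
  have : NeZero ℓ := ⟨hℓ.ne_zero⟩
  have hζF : IsPrimitiveRoot (algebraMap k F ζ) ℓ :=
    hζ.map_of_injective (algebraMap k F).injective
  obtain ⟨x, hx⟩ := IsAlgClosed.exists_pow_nat_eq z hℓ.pos
  have hx0 : x ≠ 0 := by
    rintro rfl
    rw [zero_pow hℓ.ne_zero] at hx
    exact hz0 hx.symm
  have h1 := kap_spec U.toRingEquiv hℓ hζF (by simp) hz0 hU hx
  have h2 := kap_spec V.toRingEquiv hℓ hζF (by simp) hz0 hV hx
  have h3 : (U.trans V).toRingEquiv x = (algebraMap k F ζ) ^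
      (((kap ℓ (algebraMap k F ζ) U z).val + (kap ℓ (algebraMap k F ζ) V z).val : ℕ) : ℤ) * x := by
    rw [zpow_natCast, pow_add]
    show V (U x) = _
    have h1' : U x = (algebraMap k F ζ) ^ (kap ℓ (algebraMap k F ζ) U z).val * x := h1
    have h2' : V x = (algebraMap k F ζ) ^ (kap ℓ (algebraMap k F ζ) V z).val * x := h2
    rw [h1', map_mul, map_pow, V.commutes, h2']
    ring
  have h4 := kap_of (U.trans V).toRingEquiv hℓ hζF (by simp) hx0 h3
  rw [hx] at h4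
  have h5 : kap ℓ (algebraMap k F ζ) (U.trans V) z =
    ((((kap ℓ (algebraMap k F ζ) U z).val + (kap ℓ (algebraMap k F ζ) V z).val : ℕ) : ℤ) : ZMod ℓ) := h4
  rw [h5]
  push_cast
  rw [ZMod.natCast_zmod_val, ZMod.natCast_zmod_val]

theorem te04_kap_id {k F : Type u} [Field k] [Field F] [Algebra k F] [IsAlgClosed F]
    {ℓ : ℕ} (hℓ : ℓ.Prime) {ζ : k} (hζ : IsPrimitiveRoot ζ ℓ) {z : F}
    (hz0 : z ≠ 0) : kap ℓ (algebraMap k F ζ) (AlgEquiv.refl : F ≃ₐ[k] F) z = 0 := by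
  have hζF : IsPrimitiveRoot (algebraMap k F ζ) ℓ :=
    hζ.map_of_injective (algebraMap k F).injective
  exact kap_eq_zero (AlgEquiv.refl : F ≃ₐ[k] F).toRingEquiv hℓ hζF (by simp) hz0 (fun x _ => rfl)

theorem te04_fixed {k F : Type u} [Field k] [Field F] [Algebra k F] [IsAlgClosed F]
    [Algebra.IsAlgebraic k F] {ℓ : ℕ} (hℓ : ℓ.Prime) (hne : (ℓ : k) ≠ 0)
    (K : IntermediateField k F) {y z : F} (hz : z ∈ K) (hz0 : z ≠ 0) (hy : y ^ ℓ = z)
    (hfix : ∀ U : F ≃ₐ[k] F, (∀ x ∈ K, U x = x) → U y = y) : y ∈ K := by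
  have halg : Algebra.IsAlgebraic K F := Algebra.IsAlgebraic.tower_top (K := k) K
  have hneK : (ℓ : K) ≠ 0 := by
    intro h
    apply hne
    have h2 : algebraMap k K (ℓ : k) = 0 := by rw [map_natCast]; exact h
    exact (map_eq_zero_iff _ (algebraMap k K).injective).1 h2
  have hsep : (X ^ ℓ - C (⟨z, hz⟩ : K)).Separable := by
    apply separable_X_pow_sub_C _ hneK
    intro h
    exact hz0 (congrArg Subtype.val h)
  have hroot : aeval y (X ^ ℓ - C (⟨z, hz⟩ : K)) = 0 := by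
    rw [map_sub, map_pow, aeval_X, aeval_C, hy]
    exact sub_self _
  have hys : IsSeparable K y := hsep.of_dvd (minpoly.dvd K y hroot)
  by_contra hcon
  have hn : y ∉ (⊥ : Subalgebra K F) := by
    intro h
    rw [Algebra.mem_bot] at h
    obtain ⟨w, hw⟩ := h
    apply hcon
    rw [← hw]
    exact w.2
  rw [notMem_iff_exists_ne_and_isConjRoot hys (IsAlgClosed.splits _)] at hn
  obtain ⟨y', hne', hconj⟩ := hn
  have hnorm : Normal K F := by
    have : IsAlgClosure K F := ⟨inferInstance, halg⟩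
    exact IsAlgClosure.normal K F
  obtain ⟨σ, hσ⟩ := isConjRoot_iff_exists_algEquiv.1 hconj
  have h1 : (σ.symm : F ≃ₐ[K] F) y = y' := by
    rw [← hσ]; exact σ.symm_apply_apply y'
  have h2 := hfix (σ.symm.restrictScalars k) (fun x hx => by
    have := σ.symm.commutes (⟨x, hx⟩ : K)
    exact this)
  apply hne'
  rw [← h1]
  exact h2.symm

theorem exists_U_of_lam {k F : Type u} [Field k] [Field F] [Algebra k F] [IsAlgClosed F]
    [Algebra.IsAlgebraic k F] {ℓ : ℕ} (hℓ : ℓ.Prime) (hne : (ℓ : k) ≠ 0) {ζ : k}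
    (hζ : IsPrimitiveRoot ζ ℓ) (K : IntermediateField k F) (lam : F → ZMod ℓ)
    (hmul : ∀ x ∈ K, ∀ y ∈ K, x ≠ 0 → y ≠ 0 → lam (x * y) = lam x + lam y) (T : Finset F)
    (hT : ∀ x ∈ T, x ∈ K ∧ x ≠ 0) :
    ∃ U : F ≃ₐ[k] F, (∀ x ∈ K, U x = x) ∧
      ∀ x ∈ T, kap ℓ (algebraMap k F ζ) U x = lam x := by
  classical
  have : NeZero ℓ := ⟨hℓ.ne_zero⟩
  have : Fact ℓ.Prime := ⟨hℓ⟩
  have hζF : IsPrimitiveRoot (algebraMap k F ζ) ℓ :=
    hζ.map_of_injective (algebraMap k F).injective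
  let V : AddSubmonoid (T → ZMod ℓ) :=
    { carrier := {v | ∃ U : F ≃ₐ[k] F, (∀ x ∈ K, U x = x) ∧
        ∀ x : T, kap ℓ (algebraMap k F ζ) U x = v x}
      add_mem' := by
        rintro v w ⟨U, hU, hUv⟩ ⟨U', hU', hUw⟩
        refine ⟨U.trans U', fun x hx => ?_, fun x => ?_⟩
        · show U' (U x) = x
          rw [hU x hx, hU' x hx]
        · rw [te04_kap_comp hℓ hζ U U' (hT x x.2).2 (hU _ (hT x x.2).1) (hU' _ (hT x x.2).1),
            hUv, hUw]
          rfl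
      zero_mem' := ⟨AlgEquiv.refl, fun x _ => rfl, fun x => te04_kap_id hℓ hζ (hT x x.2).2⟩ }
  let W : Submodule (ZMod ℓ) (T → ZMod ℓ) :=
    { V with
      smul_mem' := by
        intro c v hv
        have h : c • v = c.val • v := by
          ext i
          simp only [Pi.smul_apply, smul_eq_mul, nsmul_eq_mul]
          rw [ZMod.natCast_zmod_val]
        rw [h]
        exact V.nsmul_mem hv c.val }
  by_cases hlam : (fun x : T => lam x) ∈ W
  · obtain ⟨U, hU, hUv⟩ := hlam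
    exact ⟨U, hU, fun x hx => hUv ⟨x, hx⟩⟩
  exfalso
  obtain ⟨φ, hφ, hφW⟩ := Submodule.exists_le_ker_of_notMem hlam
  let c : T → ℕ := fun x => (φ (Pi.single x 1)).val
  have hφv : ∀ v : T → ZMod ℓ, φ v = ∑ x : T, (c x : ZMod ℓ) * v x := by
    intro v
    rw [LinearMap.pi_apply_eq_sum_univ φ v]
    apply Finset.sum_congr rfl
    intro x _
    have h1 : (c x : ZMod ℓ) = φ (Pi.single x 1) := ZMod.natCast_zmod_val _
    rw [h1, smul_eq_mul, mul_comm]
    congr 2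
    ext i
    simp [Pi.single_apply, eq_comm]
  set z : F := ∏ x : T, (x : F) ^ c x with hzdef
  have hzK : z ∈ K := K.prod_mem fun x _ => pow_mem (hT x x.2).1 _
  have hz0 : z ≠ 0 := Finset.prod_ne_zero_iff.2 fun x _ => pow_ne_zero _ (hT x x.2).2
  obtain ⟨y, hy⟩ := IsAlgClosed.exists_pow_nat_eq z hℓ.pos
  have hy0 : y ≠ 0 := by
    rintro rfl
    rw [zero_pow hℓ.ne_zero] at hy
    exact hz0 hy.symm
  have hfix : ∀ U : F ≃ₐ[k] F, (∀ x ∈ K, U x = x) → U y = y := by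
    intro U hU
    have h1 := kap_prod U.toRingEquiv hℓ hζF (by simp) Finset.univ
      (fun x : T => (x : F) ^ c x) (fun x _ => pow_ne_zero _ (hT x x.2).2)
      (fun x _ => hU _ (pow_mem (hT x x.2).1 _))
    have h2 : ∀ x : T, kap ℓ (algebraMap k F ζ) U.toRingEquiv ((x : F) ^ c x) =
        (c x : ZMod ℓ) * kap ℓ (algebraMap k F ζ) U x := by
      intro x
      have := kap_zpow U.toRingEquiv hℓ hζF (by simp) (hT x x.2).2 (hU _ (hT x x.2).1) (c x : ℤ)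
      rw [zpow_natCast] at this
      rw [this]
      push_cast
      rfl
    have h3 : kap ℓ (algebraMap k F ζ) U.toRingEquiv z = 0 := by
      rw [hzdef, h1, Finset.sum_congr rfl fun x _ => h2 x]
      have h4 : (fun x : T => kap ℓ (algebraMap k F ζ) U x) ∈ W := ⟨U, hU, fun x => rfl⟩
      have h5 := hφW h4
      rw [LinearMap.mem_ker, hφv] at h5
      exact h5
    have h6 := kap_spec U.toRingEquiv hℓ hζF (by simp) hz0 (hU z hzK) hy
    rw [h3, ZMod.val_zero, pow_zero, one_mul] at h6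
    exact h6
  have hyK := te04_fixed hℓ hne K hzK hz0 hy hfix
  have h7 : lam z = 0 := by
    rw [← hy, te04_lam_pow K lam hmul hyK hy0, ZMod.natCast_self, zero_mul]
  have h8 : lam z = φ (fun x : T => lam x) := by
    rw [hφv, hzdef, te04_lam_prod K lam hmul Finset.univ (fun x : T => (x : F) ^ c x)
      (fun x _ => pow_mem (hT x x.2).1 _) (fun x _ => pow_ne_zero _ (hT x x.2).2)]
    apply Finset.sum_congr rfl
    intro x _
    exact te04_lam_pow K lam hmul (hT x x.2).1 (hT x x.2).2 (c x)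
  exact hφ (by rw [← h8]; exact h7)

end Pool.Agent.Lib.MP_89bcae_ag.Sup

end

section

open Polynomial

open scoped Classical

set_option linter.unusedSectionVars false

namespace Pool.Agent.Lib.MP_89bcae_ag.Sup

universe u

theorem exists_delta {ℓ : ℕ} [Fact ℓ.Prime] {m : ZMod ℓ} (hm : m ≠ 0) :
    ∃ c : ZMod ℓ, ∀ z : ZMod ℓ, z * (z + m * c) ≠ 1 := by
  have h1 : ∃ δ : ZMod ℓ, ∀ z : ZMod ℓ, z ≠ 0 → z⁻¹ - z ≠ δ := by
    by_contra hcon
    push Not at hcon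
    have h2 : (Finset.univ : Finset (ZMod ℓ)) ⊆
        (Finset.univ.filter fun z : ZMod ℓ => z ≠ 0).image fun z => z⁻¹ - z := by
      intro δ _
      obtain ⟨z, hz, hzδ⟩ := hcon δ
      exact Finset.mem_image.2 ⟨z, Finset.mem_filter.2 ⟨Finset.mem_univ _, hz⟩, hzδ⟩
    have h3 := (Finset.card_le_card h2).trans Finset.card_image_le
    have h4 : (Finset.univ.filter fun z : ZMod ℓ => z ≠ 0).card <
        (Finset.univ : Finset (ZMod ℓ)).card := by
      refine Finset.card_lt_card ?_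
      rw [Finset.filter_ssubset]
      exact ⟨0, Finset.mem_univ _, by simp⟩
    omega
  obtain ⟨δ, hδ⟩ := h1
  refine ⟨δ / m, fun z hz => ?_⟩
  rw [mul_div_cancel₀ _ hm] at hz
  have hz0 : z ≠ 0 := by
    rintro rfl
    rw [zero_mul] at hz
    exact zero_ne_one hz
  apply hδ z hz0
  have h5 : z⁻¹ * (z * (z + δ)) = z⁻¹ * 1 := by rw [hz]
  rw [inv_mul_cancel_left₀ hz0, mul_one] at h5
  rw [← h5]
  ring

private lemma te05_S {F : Type u} [Field F] {ℓ : ℕ} {S : Finset F} {p : F → F} {α α' α'' : F}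
    {M : F → F} {c : ZMod ℓ} {kp : F → ZMod ℓ} (h : KpOk S p α α' α'' M c kp) (e : F → ZMod ℓ)
    {β : F} (hβ : β ∈ S) :
    ∑ β' ∈ S.filter (fun β' => p β' = p β), kp (β - β') * (e β - e β') = 0 := by
  refine Finset.sum_eq_zero fun β' hβ' => ?_
  rw [Finset.mem_filter] at hβ'
  rcases eq_or_ne β β' with h0 | h0
  · rw [h0, sub_self (e β'), mul_zero]
  · rw [h.same β hβ β' hβ'.1 h0 hβ'.2.symm, zero_mul]

private lemma te05_A {F : Type u} [Field F] {ℓ : ℕ} {S : Finset F} {p : F → F} {α α' α'' : F}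
    (h1 : α ≠ α') (h2 : α ≠ α'') (h3 : α' ≠ α'')
    {M : F → F} {c : ZMod ℓ} {kp : F → ZMod ℓ} (h : KpOk S p α α' α'' M c kp) (e : F → ZMod ℓ)
    {m : ℕ} (hm : (S.filter (fun β => p β = α'')).card = m)
    (hs : ∑ β' ∈ S.filter (fun β' => p β' = α''), e β' = 0)
    {β : F} (hβ : β ∈ S) (hα : p β = α) :
    ∑ β' ∈ S.filter (fun β' => p β' ≠ p β), kp (β - β') * (e β - e β') =
      (1 + m * c) * e β - e (M β) := by
  have hMm := h.mem β hβ hα
  have e1 : ∀ β' ∈ S.filter (fun β' => p β' ≠ p β), kp (β - β') * (e β - e β') =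
      (if β' = M β then e β - e β' else 0) + if p β' = α'' then c * (e β - e β') else 0 := by
    intro β' hβ'
    rw [Finset.mem_filter, hα] at hβ'
    rcases eq_or_ne (p β') α' with h4 | h4
    · rw [h.ab β hβ hα β' hβ'.1 h4, if_neg (show ¬ p β' = α'' by rw [h4]; exact h3), add_zero]
      split_ifs
      · rw [one_mul]
      · rw [zero_mul]
    · have h5 : ¬ β' = M β := by
        rintro rfl
        exact h4 hMm.2
      rw [if_neg h5, zero_add]
      rcases eq_or_ne (p β') α'' with h6 | h6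
      · rw [if_pos h6, h.ac β hβ hα β' hβ'.1 h6]
      · rw [if_neg h6, h.ao β hβ hα β' hβ'.1 hβ'.2 h4 h6, zero_mul]
  rw [Finset.sum_congr rfl e1, Finset.sum_add_distrib, Finset.sum_ite_eq', if_pos,
    ← Finset.sum_filter, Finset.filter_filter]
  · have e2 : S.filter (fun β' => p β' ≠ p β ∧ p β' = α'') = S.filter (fun β' => p β' = α'') := by
      refine Finset.filter_congr fun β' _ => ?_
      constructor
      · exact fun h4 => h4.2
      · intro h4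
        refine ⟨?_, h4⟩
        rw [h4, hα]
        exact h2.symm
    rw [e2, ← Finset.mul_sum, Finset.sum_sub_distrib, hs, Finset.sum_const, hm, nsmul_eq_mul]
    ring
  · rw [Finset.mem_filter, hMm.2, hα]
    exact ⟨hMm.1, h1.symm⟩

private lemma te05_B {F : Type u} [Field F] {ℓ : ℕ} {S : Finset F} {p : F → F} {α α' α'' : F}
    (h1 : α ≠ α')
    {M : F → F} {c : ZMod ℓ} {kp : F → ZMod ℓ} (h : KpOk S p α α' α'' M c kp) (e : F → ZMod ℓ)
    {β : F} (hβ : β ∈ S) (hα : p β = α) :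
    ∑ β' ∈ S.filter (fun β' => p β' ≠ p (M β)), kp (M β - β') * (e (M β) - e β') =
      e (M β) - e β := by
  have hMm := h.mem β hβ hα
  have e1 : ∀ β' ∈ S.filter (fun β' => p β' ≠ p (M β)), kp (M β - β') * (e (M β) - e β') =
      if β' = β then e (M β) - e β' else 0 := by
    intro β' hβ'
    rw [Finset.mem_filter, hMm.2] at hβ'
    rcases eq_or_ne (p β') α with h4 | h4
    · rw [h.ba (M β) hMm.1 hMm.2 β' hβ'.1 h4]
      by_cases h5 : β' = β
      · rw [if_pos h5, if_pos (by rw [h5]), one_mul]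
      · rw [if_neg h5, if_neg, zero_mul]
        intro h6
        exact h5 (h.inj β hβ β' hβ'.1 hα h4 h6).symm
    · have h5 : ¬ β' = β := by
        rintro rfl
        exact h4 hα
      rw [if_neg h5, h.bo (M β) hMm.1 hMm.2 β' hβ'.1 hβ'.2 h4, zero_mul]
  rw [Finset.sum_congr rfl e1, Finset.sum_ite_eq', if_pos]
  rw [Finset.mem_filter, hMm.2, hα]
  exact ⟨hβ, h1⟩

private lemma te05_bij {F : Type u} [Field F] {ℓ : ℕ} {S : Finset F} {p : F → F} {α α' α'' : F}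
    {M : F → F} {c : ZMod ℓ} {kp : F → ZMod ℓ} (h : KpOk S p α α' α'' M c kp)
    (e : F → ZMod ℓ) :
    ∑ β ∈ S.filter (fun β => p β = α), e (M β) = ∑ β ∈ S.filter (fun β => p β = α'), e β := by
  refine Finset.sum_bij (fun β _ => M β) ?_ ?_ ?_ ?_
  · intro β hβ
    rw [Finset.mem_filter] at hβ ⊢
    exact h.mem β hβ.1 hβ.2
  · intro β hβ β' hβ' heq
    rw [Finset.mem_filter] at hβ hβ'
    exact h.inj β hβ.1 β' hβ'.1 hβ.2 hβ'.2 heq
  · intro β' hβ'
    rw [Finset.mem_filter] at hβ'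
    obtain ⟨β, hb, hp, hM⟩ := h.surj β' hβ'.1 hβ'.2
    exact ⟨β, Finset.mem_filter.2 ⟨hb, hp⟩, hM⟩
  · intro β _
    rfl

private lemma te05_main {F : Type u} [Field F] {ℓ : ℕ} [Fact ℓ.Prime] {S : Finset F}
    {p : F → F} {α α' α'' : F} (h1 : α ≠ α') (h2 : α ≠ α'') (h3 : α' ≠ α'') {M : F → F}
    {c : ZMod ℓ} {kp : F → ZMod ℓ} (h : KpOk S p α α' α'' M c kp) {m : ℕ}
    (hm : ∀ a, a = α ∨ a = α' ∨ a = α'' → (S.filter (fun β => p β = a)).card = m)
    (hm0 : (m : ZMod ℓ) ≠ 0) (hc : ∀ z : ZMod ℓ, z * (z + m * c) ≠ 1) (μ : ZMod ℓ)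
    (e : F → ZMod ℓ) (n : ZMod ℓ) (cst : F → ZMod ℓ)
    (hs : ∀ β ∈ S, ∑ β' ∈ S.filter (fun β' => p β' = p β), e β' = 0)
    (he : ∀ β ∈ S, p β ∈ ({α, α'} : Set F) →
      ∑ β' ∈ S.filter (fun β' => p β' ≠ p β), kp (β - β') * (e β - e β') +
        μ * ∑ β' ∈ S.filter (fun β' => p β' = p β), kp (β - β') * (e β - e β') + n * e β =
          cst (p β)) :
    ∀ β ∈ S, p β = α → e β = 0 ∧ e (M β) = 0 := by
  have hfib : ∀ a, a = α ∨ a = α' ∨ a = α'' → ∑ β' ∈ S.filter (fun β' => p β' = a), e β' = 0 := by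
    intro a ha
    have h4 : (S.filter (fun β => p β = a)).Nonempty := by
      rw [← Finset.card_pos, hm a ha]
      rcases Nat.eq_zero_or_pos m with h0 | h0
      · exfalso
        apply hm0
        rw [h0, Nat.cast_zero]
      · exact h0
    obtain ⟨b, hb⟩ := h4
    rw [Finset.mem_filter] at hb
    have h5 := hs b hb.1
    rwa [hb.2] at h5
  have hA : ∀ β ∈ S, p β = α → (1 + n + m * c) * e β - e (M β) = cst α := by
    intro β hβ hα
    have h4 := he β hβ (by rw [hα]; exact Set.mem_insert _ _)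
    rw [te05_A h1 h2 h3 h e (hm α'' (Or.inr (Or.inr rfl))) (hfib α'' (Or.inr (Or.inr rfl))) hβ hα,
      te05_S h e hβ, hα] at h4
    rw [← h4]
    ring
  have hB : ∀ β ∈ S, p β = α → (1 + n) * e (M β) - e β = cst α' := by
    intro β hβ hα
    have hMm := h.mem β hβ hα
    have h4 := he (M β) hMm.1 (by rw [hMm.2]; exact Set.mem_insert_of_mem _ rfl)
    rw [te05_B h1 h e hβ hα, te05_S h e hMm.1, hMm.2] at h4
    rw [← h4]
    ring
  have hsA := hfib α (Or.inl rfl)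
  have hsB : ∑ β ∈ S.filter (fun β => p β = α), e (M β) = 0 := by
    rw [te05_bij h e]
    exact hfib α' (Or.inr (Or.inl rfl))
  have hcard := hm α (Or.inl rfl)
  have hcA : cst α = 0 := by
    have h4 : ∑ β ∈ S.filter (fun β => p β = α), ((1 + n + m * c) * e β - e (M β)) =
        ∑ β ∈ S.filter (fun β => p β = α), cst α := by
      refine Finset.sum_congr rfl fun β hβ => ?_
      rw [Finset.mem_filter] at hβ
      exact hA β hβ.1 hβ.2
    rw [Finset.sum_sub_distrib, ← Finset.mul_sum, hsA, hsB, Finset.sum_const, hcard,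
      nsmul_eq_mul, mul_zero, sub_zero] at h4
    exact (mul_eq_zero.1 h4.symm).resolve_left hm0
  have hcB : cst α' = 0 := by
    have h4 : ∑ β ∈ S.filter (fun β => p β = α), ((1 + n) * e (M β) - e β) =
        ∑ β ∈ S.filter (fun β => p β = α), cst α' := by
      refine Finset.sum_congr rfl fun β hβ => ?_
      rw [Finset.mem_filter] at hβ
      exact hB β hβ.1 hβ.2
    rw [Finset.sum_sub_distrib, ← Finset.mul_sum, hsA, hsB, Finset.sum_const, hcard,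
      nsmul_eq_mul, mul_zero, sub_zero] at h4
    exact (mul_eq_zero.1 h4.symm).resolve_left hm0
  intro β hβ hα
  have hA' := hA β hβ hα
  have hB' := hB β hβ hα
  rw [hcA] at hA'
  rw [hcB] at hB'
  have h5 : e (M β) = (1 + n + m * c) * e β := (sub_eq_zero.1 hA').symm
  have h6 : ((1 + n) * ((1 + n) + m * c) - 1) * e β = 0 := by
    rw [h5] at hB'
    rw [← hB']
    ring
  have h7 : e β = 0 := by
    rcases mul_eq_zero.1 h6 with h8 | h8
    · exact absurd (sub_eq_zero.1 h8) (hc (1 + n))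
    · exact h8
  exact ⟨h7, by rw [h5, h7, mul_zero]⟩

theorem KpOk.sepU {k F : Type u} [Field k] [Field F] [Algebra k F] {ℓ : ℕ} [Fact ℓ.Prime]
    {g E : k[X]} {α α' α'' : F} (h1 : α ≠ α') (h2 : α ≠ α'') (h3 : α' ≠ α'') {M : F → F}
    {c : ZMod ℓ} {kp : F → ZMod ℓ}
    (h : KpOk (RR F g E) (fun β => aeval β g) α α' α'' M c kp) {m : ℕ}
    (hm : ∀ a, a = α ∨ a = α' ∨ a = α'' →
      ((RR F g E).filter (fun β => aeval β g = a)).card = m) (hm0 : (m : ZMod ℓ) ≠ 0)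
    (hc : ∀ z : ZMod ℓ, z * (z + m * c) ≠ 1) (μ : ZMod ℓ) :
    SepU g E kp μ {α, α'} := by
  intro e n cst hs he
  have key := te05_main h1 h2 h3 h hm hm0 hc μ e n cst hs he
  intro β hβ hB
  rcases hB with h4 | h4
  · exact (key β hβ h4).1
  · obtain ⟨β₁, hb, hp, hM⟩ := h.surj β hβ h4
    rw [← hM]
    exact (key β₁ hb hp).2

end Pool.Agent.Lib.MP_89bcae_ag.Sup

end

section

open Polynomial

open scoped Classical

set_option linter.unusedSectionVars false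

namespace Pool.Agent.Lib.MP_89bcae_ag.Sup

universe u

lemma te06_ord_neg {F : Type u} [Field F] {K : Subfield F} {S : Finset F} {p : F → F} {α α' : F}
    {M : F → F} {o : F → ℤ} (h : MOrd K S p α α' M o) :
    o (-1) = 0 := by
  have h1 : o (1 * 1) = o 1 + o 1 := h.mul 1 K.one_mem 1 K.one_mem one_ne_zero one_ne_zero
  have h2 : o ((-1) * (-1)) = o (-1) + o (-1) :=
    h.mul (-1) (K.neg_mem K.one_mem) (-1) (K.neg_mem K.one_mem) (neg_ne_zero.2 one_ne_zero)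
      (neg_ne_zero.2 one_ne_zero)
  rw [mul_one] at h1
  rw [neg_one_mul, neg_neg] at h2
  omega

theorem exists_lam {k F : Type u} [Field k] [Field F] [Algebra k F] {ℓ : ℕ}
    {g E : k[X]} (S : Finset F) (hS : ∀ b, b ∈ S ↔ aeval (aeval b g) E = 0) {α α' α'' : F}
    (h1 : α ≠ α') (h2 : α ≠ α'') (h3 : α' ≠ α'') {J : Finset (F ≃ₐ[k] F)}
    (hJ1 : ∀ x y : F, aeval x g = α → aeval y g = α →
      ∃ σ ∈ J, σ x = y ∧ ∀ τ ∈ J, τ x = y → τ = σ)
    (hJ2 : ∀ σ ∈ J, ∀ b : F, aeval b (E.comp g) = 0 → aeval b g ≠ α → σ b = b)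
    {M M'' : F → F} {o o'' : F → ℤ}
    (ho : MOrd (IntermediateField.adjoin k (S : Set F)).toSubfield S
      (fun b => aeval b g) α α' M o)
    (ho'' : MOrd (IntermediateField.adjoin k (S : Set F)).toSubfield S
      (fun b => aeval b g) α α'' M'' o'') (c : ZMod ℓ) :
    ∃ lam : F → ZMod ℓ, (∀ x ∈ IntermediateField.adjoin k (S : Set F),
        ∀ y ∈ IntermediateField.adjoin k (S : Set F), x ≠ 0 → y ≠ 0 →
          lam (x * y) = lam x + lam y) ∧ lam (-1) = 0 ∧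
      KpOk S (fun b => aeval b g) α α' α'' M c lam := by
  -- action on `S`
  have hp : ∀ (σ : F ≃ₐ[k] F) (b : F), aeval (σ b) g = σ (aeval b g) := fun σ b => by
    have := Polynomial.aeval_algHom_apply (σ : F →ₐ[k] F) b g
    simpa using this
  have hE : ∀ (σ : F ≃ₐ[k] F) (b : F), aeval (σ b) E = σ (aeval b E) := fun σ b => by
    have := Polynomial.aeval_algHom_apply (σ : F →ₐ[k] F) b E
    simpa using this
  have hSσ : ∀ (σ : F ≃ₐ[k] F) (b : F), b ∈ S → σ b ∈ S := fun σ b hb => by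
    rw [hS] at hb ⊢
    rw [hp, hE, hb, map_zero]
  have hinv : ∀ (σ : F ≃ₐ[k] F) (b : F), σ (σ⁻¹ b) = b := fun σ b => by
    rw [← AlgEquiv.mul_apply, mul_inv_cancel, AlgEquiv.one_apply]
  have hinv' : ∀ (σ : F ≃ₐ[k] F) (b : F), σ⁻¹ (σ b) = b := fun σ b => by
    rw [← AlgEquiv.mul_apply, inv_mul_cancel, AlgEquiv.one_apply]
  have hfix : ∀ σ ∈ J, ∀ b ∈ S, aeval b g ≠ α → σ⁻¹ b = b := fun σ hσ b hb hba => by
    have h : σ b = b := hJ2 σ hσ b (by rw [aeval_comp]; exact (hS b).1 hb) hba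
    have h' := hinv' σ b
    rwa [h] at h'
  have hal : ∀ σ ∈ J, ∀ b ∈ S, aeval b g = α → aeval (σ⁻¹ b) g = α := fun σ hσ b hb hba => by
    by_contra hne
    have hmem : σ⁻¹ b ∈ S := hSσ _ _ hb
    have h : σ (σ⁻¹ b) = σ⁻¹ b :=
      hJ2 σ hσ (σ⁻¹ b) (by rw [aeval_comp]; exact (hS _).1 hmem) hne
    rw [hinv] at h
    rw [← h] at hne
    exact hne hba
  -- the field `K`
  have hK : ∀ (σ : F ≃ₐ[k] F) (x : F), x ∈ IntermediateField.adjoin k (S : Set F) →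
      σ x ∈ IntermediateField.adjoin k (S : Set F) := fun σ x hx => by
    have h1 : σ x ∈ (IntermediateField.adjoin k (S : Set F)).map (σ : F →ₐ[k] F) :=
      ⟨x, hx, rfl⟩
    rw [IntermediateField.adjoin_map] at h1
    refine IntermediateField.adjoin.mono k _ _ ?_ h1
    rintro _ ⟨b, hb, rfl⟩
    exact hSσ σ b hb
  have hSK : ∀ b ∈ S, b ∈ IntermediateField.adjoin k (S : Set F) := fun b hb =>
    IntermediateField.subset_adjoin k _ hb
  set lam : F → ZMod ℓ := fun z => (o z : ZMod ℓ) + c * ∑ σ ∈ J, (o'' (σ⁻¹ z) : ZMod ℓ)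
    with hlam
  have hmul : ∀ x ∈ IntermediateField.adjoin k (S : Set F),
        ∀ y ∈ IntermediateField.adjoin k (S : Set F), x ≠ 0 → y ≠ 0 →
          lam (x * y) = lam x + lam y := by
    intro x hx y hy hx0 hy0
    have e1 : o (x * y) = o x + o y := ho.mul x hx y hy hx0 hy0
    have e2 : ∀ σ : F ≃ₐ[k] F, o'' (σ⁻¹ (x * y)) = o'' (σ⁻¹ x) + o'' (σ⁻¹ y) := fun σ => by
      rw [map_mul]
      exact ho''.mul _ (hK _ _ hx) _ (hK _ _ hy) (by simpa using hx0) (by simpa using hy0)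
    simp only [hlam]
    rw [e1]
    simp only [e2]
    push_cast
    rw [Finset.sum_add_distrib]
    ring
  have hneg1 : lam (-1) = 0 := by
    have e1 : o (-1) = 0 := te06_ord_neg ho
    have e2 : ∀ σ : F ≃ₐ[k] F, o'' (σ⁻¹ (-1)) = 0 := fun σ => by
      rw [map_neg, map_one]
      exact te06_ord_neg ho''
    simp only [hlam]
    rw [e1, Finset.sum_eq_zero (fun σ _ => by rw [e2 σ, Int.cast_zero]), Int.cast_zero, mul_zero,
      add_zero]
  have hneg : ∀ β ∈ S, ∀ β' ∈ S, β ≠ β' → lam (β - β') = lam (β' - β) := by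
    intro β hβ β' hβ' hne
    have e : β - β' = (-1) * (β' - β) := by ring
    rw [e, hmul (-1) (neg_mem (one_mem _)) _ (sub_mem (hSK _ hβ') (hSK _ hβ))
      (neg_ne_zero.2 one_ne_zero) (sub_ne_zero.2 hne.symm), hneg1, zero_add]
  have hab : ∀ β ∈ S, aeval β g = α → ∀ β' ∈ S, aeval β' g = α' →
      lam (β - β') = if β' = M β then 1 else 0 := by
    intro β hβ hβa β' hβ' hβa'
    have e1 : o (β - β') = if β' = M β then 1 else 0 := ho.left β hβ hβa β' hβ' hβa'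
    have e2 : ∀ σ ∈ J, (o'' (σ⁻¹ (β - β')) : ZMod ℓ) = 0 := fun σ hσ => by
      have hb' : σ⁻¹ β' = β' := hfix σ hσ β' hβ' (by rw [hβa']; exact h1.symm)
      have hb : aeval (σ⁻¹ β) g = α := hal σ hσ β hβ hβa
      rw [map_sub, hb']
      have : o'' (σ⁻¹ β - β') = 0 := ho''.out (σ⁻¹ β) (hSσ _ _ hβ) β' hβ'
        (by simp only [hb, hβa']; exact h1) (fun h => h3 (hβa'.symm.trans h.2))
        (fun h => h1 (h.2.symm.trans hβa'))
      rw [this, Int.cast_zero]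
    simp only [hlam]
    rw [e1, Finset.sum_eq_zero e2, mul_zero, add_zero]
    split_ifs <;> simp
  refine ⟨lam, hmul, hneg1, ?_⟩
  refine ⟨ho.mem, ho.inj, ho.surj, ?_, hab, ?_, ?_, ?_, ?_⟩
  · intro β hβ β' hβ' hne hpp
    have e1 : o (β - β') = 0 := ho.same β hβ β' hβ' hne hpp
    have e2 : ∀ σ : F ≃ₐ[k] F, o'' (σ⁻¹ (β - β')) = 0 := fun σ => by
      rw [map_sub]
      refine ho''.same _ (hSσ _ _ hβ) _ (hSσ _ _ hβ') (fun h => hne (σ⁻¹.injective h)) ?_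
      simp only [hp]
      exact congrArg _ hpp
    simp only [hlam]
    rw [e1, Finset.sum_eq_zero (fun σ _ => by rw [e2 σ, Int.cast_zero]), Int.cast_zero, mul_zero,
      add_zero]
  · intro β hβ hβa β' hβ' hβa'
    have hne : β ≠ β' := by
      rintro rfl
      exact h1 (hβa'.symm.trans hβa)
    rw [hneg β hβ β' hβ' hne]
    exact hab β' hβ' hβa' β hβ hβa
  · intro β hβ hβa β' hβ' hβa'
    have e1 : o (β - β') = 0 := ho.out β hβ β' hβ'
      (fun h => h2 (hβa.symm.trans (h.trans hβa'))) (fun h => h3 (h.2.symm.trans hβa'))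
      (fun h => h1 (hβa.symm.trans h.1))
    obtain ⟨x₀, hx₀, hx₀a, hx₀M⟩ := ho''.surj β' hβ' hβa'
    obtain ⟨σ₀, hσ₀, hσ₀x, huniq⟩ := hJ1 x₀ β hx₀a hβa
    have e2 : ∀ σ ∈ J, (o'' (σ⁻¹ (β - β')) : ZMod ℓ) = if σ = σ₀ then 1 else 0 := fun σ hσ => by
      have hb' : σ⁻¹ β' = β' := hfix σ hσ β' hβ' (by rw [hβa']; exact h2.symm)
      have hb : aeval (σ⁻¹ β) g = α := hal σ hσ β hβ hβa
      rw [map_sub, hb']
      have : o'' (σ⁻¹ β - β') = if β' = M'' (σ⁻¹ β) then 1 else 0 :=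
        ho''.left (σ⁻¹ β) (hSσ _ _ hβ) hb β' hβ' hβa'
      rw [this]
      have hiff : β' = M'' (σ⁻¹ β) ↔ σ = σ₀ := by
        constructor
        · intro h
          refine huniq σ hσ ?_
          have : x₀ = σ⁻¹ β := ho''.inj x₀ hx₀ _ (hSσ _ _ hβ) hx₀a hb (hx₀M.trans h)
          rw [this, hinv]
        · rintro rfl
          rw [← hσ₀x, hinv', hx₀M]
      by_cases h : σ = σ₀
      · rw [if_pos h, if_pos (hiff.2 h), Int.cast_one]
      · rw [if_neg h, if_neg (fun h' => h (hiff.1 h')), Int.cast_zero]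
    simp only [hlam]
    rw [e1, Finset.sum_congr rfl e2]
    simp [hσ₀]
  · intro β hβ hβa β' hβ' hn1 hn2 hn3
    have e1 : o (β - β') = 0 := ho.out β hβ β' hβ'
      (fun h => hn1 (h.symm.trans hβa)) (fun h => hn2 h.2)
      (fun h => h1 (hβa.symm.trans h.1))
    have e2 : ∀ σ ∈ J, (o'' (σ⁻¹ (β - β')) : ZMod ℓ) = 0 := fun σ hσ => by
      have hb' : σ⁻¹ β' = β' := hfix σ hσ β' hβ' hn1
      have hb : aeval (σ⁻¹ β) g = α := hal σ hσ β hβ hβa
      rw [map_sub, hb']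
      have : o'' (σ⁻¹ β - β') = 0 := ho''.out (σ⁻¹ β) (hSσ _ _ hβ) β' hβ'
        (fun h => hn1 (h.symm.trans hb)) (fun h => hn3 h.2)
        (fun h => h2 (hb.symm.trans h.1))
      rw [this, Int.cast_zero]
    simp only [hlam]
    rw [e1, Finset.sum_eq_zero e2]
    simp
  · intro β hβ hβa β' hβ' hn1 hn2
    have e1 : o (β - β') = 0 := ho.out β hβ β' hβ'
      (fun h => hn1 (h.symm.trans hβa)) (fun h => h1 (h.1.symm.trans hβa))
      (fun h => hn2 h.2)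
    have e2 : ∀ σ ∈ J, (o'' (σ⁻¹ (β - β')) : ZMod ℓ) = 0 := fun σ hσ => by
      have hb' : σ⁻¹ β' = β' := hfix σ hσ β' hβ' hn2
      have hb : σ⁻¹ β = β := hfix σ hσ β hβ (fun h => h1 (h.symm.trans hβa))
      rw [map_sub, hb', hb]
      have : o'' (β - β') = 0 := ho''.out β hβ β' hβ'
        (fun h => hn1 (h.symm.trans hβa)) (fun h => h1 (h.1.symm.trans hβa))
        (fun h => h3 (hβa.symm.trans h.1))
      rw [this, Int.cast_zero]
    simp only [hlam]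
    rw [e1, Finset.sum_eq_zero e2]
    simp

end Pool.Agent.Lib.MP_89bcae_ag.Sup

end

section

/-!
# The criterion for all towers
-/

open Polynomial

open scoped Classical

set_option linter.unusedSectionVars false

namespace Pool.Agent.Lib.MP_89bcae_ag.Sup

universe u

/-- If `E ∘ g` is separable, so is `E`. -/
private lemma te07_separable {κ : Type*} [Field κ] {g D : κ[X]} (hg : g.natDegree ≠ 0)
    (h : (D.comp g).Separable) : D.Separable := by
  rw [Polynomial.Separable, isCoprime_iff_aeval_ne_zero_of_isAlgClosed (k := κ)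
    (AlgebraicClosure κ)]
  intro a
  by_contra hcon
  push Not at hcon
  obtain ⟨h1, h2⟩ := hcon
  have hdeg : (g.map (algebraMap κ (AlgebraicClosure κ)) - C a).degree ≠ 0 := by
    intro h3
    have h4 := natDegree_eq_zero_iff_degree_le_zero.mpr h3.le
    rw [natDegree_sub_C, natDegree_map] at h4
    exact hg h4
  obtain ⟨b, hb⟩ := IsAlgClosed.exists_root _ hdeg
  have hb2 : aeval b g = a := by
    rw [IsRoot.def, eval_sub, eval_C, sub_eq_zero, eval_map_algebraMap] at hb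
    exact hb
  obtain ⟨u, v, huv⟩ := h
  have h3 := congrArg (aeval b) huv
  rw [derivative_comp, map_add, map_mul, map_mul, map_mul, aeval_comp, aeval_comp, hb2, h1, h2] at h3
  simp at h3

/-- The fibres over the roots of `E` have `deg g` elements. -/
private lemma te07_card {k F : Type u} [Field k] [Field F] [Algebra k F] [IsAlgClosed F] {ℓ : ℕ}
    {g E : k[X]} {ζ : k} (H : GlobHyp ℓ g E ζ) {a : F} (ha : aeval a E = 0) :
    ((RR F g E).filter (fun β => aeval β g = a)).card = g.natDegree := by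
  have h1 : g.map (algebraMap k F) - C a ∣ (E.comp g).map (algebraMap k F) := by
    rw [Polynomial.map_comp]
    have h2 : X - C a ∣ E.map (algebraMap k F) := by
      rw [dvd_iff_isRoot, IsRoot.def, eval_map_algebraMap, ha]
    obtain ⟨q, hq⟩ := h2
    refine ⟨q.comp (g.map (algebraMap k F)), ?_⟩
    rw [hq, mul_comp, sub_comp, X_comp, C_comp]
  have hsep : (g.map (algebraMap k F) - C a).Separable :=
    Separable.of_dvd (H.sep.map (f := algebraMap k F)) h1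
  have h0 : g.map (algebraMap k F) - C a ≠ 0 := hsep.ne_zero
  have h3 : (RR F g E).filter (fun β => aeval β g = a) =
      (g.map (algebraMap k F) - C a).roots.toFinset := by
    ext β
    rw [Finset.mem_filter, mem_RR H, Multiset.mem_toFinset, mem_roots h0, IsRoot.def, eval_sub,
      eval_C, eval_map_algebraMap, sub_eq_zero]
    constructor
    · exact fun h => h.2
    · intro h
      exact ⟨by rw [h, ha], h⟩
  rw [h3, Multiset.toFinset_card_of_nodup (nodup_roots hsep),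
    IsAlgClosed.card_roots_eq_natDegree, natDegree_sub_C, natDegree_map]

theorem exists_cRall {k F : Type u} [Field k] [Field F] [Algebra k F] [IsAlgClosure k F] {ℓ : ℕ}
    {g E : k[X]} {ζ : k} (H : GlobHyp ℓ g E ζ) (h3 : 3 ≤ E.natDegree)
    (hJ : ∀ α : F, aeval α E = 0 → ∃ J : Finset (F ≃ₐ[k] F),
      (∀ x y : F, aeval x g = α → aeval y g = α →
        ∃ σ ∈ J, σ x = y ∧ ∀ τ ∈ J, τ x = y → τ = σ) ∧
      ∀ σ ∈ J, ∀ b : F, aeval b (E.comp g) = 0 → aeval b g ≠ α → σ b = b)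
    (hM : ∀ α α' : F, aeval α E = 0 → aeval α' E = 0 → α ≠ α' →
      ∃ (M : F → F) (o : F → ℤ),
        MOrd (IntermediateField.adjoin k ((RR F g E : Finset F) : Set F)).toSubfield (RR F g E)
          (fun b => aeval b g) α α' M o) :
    ∀ a : F, aeval a E = 0 → ∃ (U : F ≃ₐ[k] F) (B : Set F), a ∈ B ∧ CRall ℓ g E ζ U B := by
  intro a ha
  have : IsAlgClosed F := IsAlgClosure.isAlgClosed k
  have : Algebra.IsAlgebraic k F := IsAlgClosure.isAlgebraic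
  have : Fact ℓ.Prime := ⟨H.prime⟩
  have hgdeg : g.natDegree ≠ 0 := by
    intro h0
    have h1 := H.cop
    rw [h0, Nat.coprime_zero_left] at h1
    exact H.prime.ne_one h1
  have hm0 : (g.natDegree : ZMod ℓ) ≠ 0 := by
    rw [Ne, ZMod.natCast_eq_zero_iff]
    intro h1
    have h2 := H.cop
    rw [Nat.coprime_comm, H.prime.coprime_iff_not_dvd] at h2
    exact h2 h1
  have hsepE : E.Separable := te07_separable hgdeg H.sep
  have hE0 : E.map (algebraMap k F) ≠ 0 := hsepE.map.ne_zero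
  -- three roots of `E`
  obtain ⟨a', a'', ha', ha'', h1, h2, h12⟩ : ∃ a' a'' : F, aeval a' E = 0 ∧ aeval a'' E = 0 ∧
      a ≠ a' ∧ a ≠ a'' ∧ a' ≠ a'' := by
    have hmem : ∀ x, x ∈ (E.map (algebraMap k F)).roots.toFinset ↔ aeval x E = 0 := by
      intro x
      rw [Multiset.mem_toFinset, mem_roots hE0, IsRoot.def, eval_map_algebraMap]
    have hcard : (E.map (algebraMap k F)).roots.toFinset.card = E.natDegree := by
      rw [Multiset.toFinset_card_of_nodup (nodup_roots hsepE.map),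
        IsAlgClosed.card_roots_eq_natDegree, natDegree_map]
    have h4 : 1 < ((E.map (algebraMap k F)).roots.toFinset.erase a).card := by
      rw [Finset.card_erase_of_mem ((hmem a).mpr ha), hcard]
      omega
    obtain ⟨a', ha', a'', ha'', hne⟩ := Finset.one_lt_card.mp h4
    rw [Finset.mem_erase, hmem] at ha' ha''
    exact ⟨a', a'', ha'.2, ha''.2, ha'.1.symm, ha''.1.symm, hne⟩
  obtain ⟨c, hc⟩ := exists_delta (ℓ := ℓ) hm0
  obtain ⟨J, hJ1, hJ2⟩ := hJ a ha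
  obtain ⟨M, o, ho⟩ := hM a a' ha ha' h1
  obtain ⟨M'', o'', ho''⟩ := hM a a'' ha ha'' h2
  obtain ⟨lam, hmul, hneg, hlam⟩ := exists_lam (RR F g E) (fun b => mem_RR H) h1 h2 h12 hJ1 hJ2
    ho ho'' c
  have hSK : ∀ β ∈ RR F g E, β ∈ IntermediateField.adjoin k ((RR F g E : Finset F) : Set F) :=
    fun β hβ => IntermediateField.subset_adjoin k _ hβ
  obtain ⟨U, hU1, hU2⟩ := exists_U_of_lam H.prime H.ne H.zeta
    (IntermediateField.adjoin k ((RR F g E : Finset F) : Set F)) lam hmul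
    (insert (-1) (((RR F g E ×ˢ RR F g E).filter (fun p => p.1 ≠ p.2)).image
      (fun p => p.1 - p.2))) (by
      intro x hx
      rw [Finset.mem_insert, Finset.mem_image] at hx
      rcases hx with rfl | ⟨⟨β, β'⟩, hp, rfl⟩
      · exact ⟨neg_mem (one_mem _), neg_ne_zero.mpr one_ne_zero⟩
      · rw [Finset.mem_filter, Finset.mem_product] at hp
        exact ⟨sub_mem (hSK _ hp.1.1) (hSK _ hp.1.2), sub_ne_zero.mpr hp.2⟩)
  have hkey : ∀ β ∈ RR F g E, ∀ β' ∈ RR F g E, β ≠ β' →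
      kap ℓ (algebraMap k F ζ) U (β - β') = lam (β - β') := by
    intro β hβ β' hβ' hne
    apply hU2
    rw [Finset.mem_insert, Finset.mem_image]
    refine Or.inr ⟨(β, β'), ?_, rfl⟩
    rw [Finset.mem_filter, Finset.mem_product]
    exact ⟨⟨hβ, hβ'⟩, hne⟩
  have hkp : KpOk (RR F g E) (fun β => aeval β g) a a' a'' M c
      (kap ℓ (algebraMap k F ζ) U) :=
    { mem := hlam.mem
      inj := hlam.inj
      surj := hlam.surj
      same := fun β hβ β' hβ' hne hp => by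
        rw [hkey β hβ β' hβ' hne]
        exact hlam.same β hβ β' hβ' hne hp
      ab := fun β hβ hp β' hβ' hp' => by
        rw [hkey β hβ β' hβ' (by
          rintro rfl
          exact h1 (hp.symm.trans hp'))]
        exact hlam.ab β hβ hp β' hβ' hp'
      ba := fun β hβ hp β' hβ' hp' => by
        rw [hkey β hβ β' hβ' (by
          rintro rfl
          exact h1 (hp'.symm.trans hp))]
        exact hlam.ba β hβ hp β' hβ' hp'
      ac := fun β hβ hp β' hβ' hp' => by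
        rw [hkey β hβ β' hβ' (by
          rintro rfl
          exact h2 (hp.symm.trans hp'))]
        exact hlam.ac β hβ hp β' hβ' hp'
      ao := fun β hβ hp β' hβ' hp1 hp2 hp3 => by
        rw [hkey β hβ β' hβ' (by
          rintro rfl
          exact hp1 hp)]
        exact hlam.ao β hβ hp β' hβ' hp1 hp2 hp3
      bo := fun β hβ hp β' hβ' hp1 hp2 => by
        rw [hkey β hβ β' hβ' (by
          rintro rfl
          exact hp1 hp)]
        exact hlam.bo β hβ hp β' hβ' hp1 hp2 }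
  refine ⟨U, {a, a'}, by simp, ⟨fun β hβ => hU1 β (hSK β hβ), ?_, fun μ => ?_⟩⟩
  · intro x hx
    have hζ : IsPrimitiveRoot (algebraMap k F ζ) ℓ :=
      H.zeta.map_of_injective (algebraMap k F).injective
    have h4 := kap_spec (U : F ≃+* F) H.prime hζ (U.commutes ζ)
      (neg_ne_zero.mpr (one_ne_zero (α := F))) (by simp) hx
    have h5 : kap ℓ (algebraMap k F ζ) (U : F ≃+* F) (-1) = 0 := by
      have h6 := hU2 (-1) (Finset.mem_insert_self _ _)
      rw [hneg] at h6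
      exact h6
    rw [h5, ZMod.val_zero, pow_zero, one_mul] at h4
    exact h4
  · refine hkp.sepU h1 h2 h12 (m := g.natDegree) ?_ hm0 hc μ
    rintro b (rfl | rfl | rfl)
    · exact te07_card H ha
    · exact te07_card H ha'
    · exact te07_card H ha''

end Pool.Agent.Lib.MP_89bcae_ag.Sup

end

section

open Polynomial IsDedekindDomain

open scoped Classical

set_option linter.unusedSectionVars false

namespace Pool.Agent.Lib.MP_89bcae_ag.Sup

universe u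

variable {k F L Ω : Type u} [Field k] [Field F] [Algebra k F] [Field L] [Algebra F[X] L]
  [Field Ω] [Algebra L Ω] [IsAlgClosure k F] [IsFractionRing F[X] L] [IsAlgClosure L Ω]
  [Algebra F Ω] {ℓ : ℕ} {g E : k[X]} [hG : IsGood ℓ (cOver k F L Ω g 1)] {ζ : k}
  {hζ : (zA F L Ω ζ) ^ ℓ = 1} {N : Subgroup (Ω ≃ₐ[L] Ω)}

private lemma tb06_mem (hG' : IsGood ℓ (cOver k F L Ω g 1)) {θ : Ω} : θ ∈ rts (cOver k F L Ω g 1) ↔ (cOver k F L Ω g 1).eval θ = 0 :=
  mem_rts hG'.separable.ne_zero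

private lemma tb06_stable (hG' : IsGood ℓ (cOver k F L Ω g 1)) (γ : AutO k F L Ω) {θ : Ω} :
    (γ : Ω ≃+* Ω) θ ∈ rts (cOver k F L Ω g 1) ↔ θ ∈ rts (cOver k F L Ω g 1) := by
  rw [tb06_mem hG', tb06_mem hG']
  have h1 := (toSym g 1 γ).2
  have h2 : (cOver k F L Ω g 1).eval ((γ : Ω ≃+* Ω) θ) =
      (γ : Ω ≃+* Ω) ((cOver k F L Ω g 1).eval θ) := by
    conv_lhs => rw [← h1]
    rw [eval_map]
    exact eval₂_hom (p := cOver k F L Ω g 1) ((γ : Ω ≃+* Ω) : Ω →+* Ω) θ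
  rw [h2]
  exact map_eq_zero_iff _ (γ : Ω ≃+* Ω).injective

private lemma tb06_smul_mem (hG' : IsGood ℓ (cOver k F L Ω g 1)) (σ : Ω ≃ₐ[L] Ω) {θ : Ω} :
    σ θ ∈ rts (cOver k F L Ω g 1) ↔ θ ∈ rts (cOver k F L Ω g 1) :=
  tb06_stable hG' (galA k F σ)

private lemma tb06_exists {ζ x y : Ω} {ℓ : ℕ} (hℓ : ℓ ≠ 0) (hζ : IsPrimitiveRoot ζ ℓ)
    (hy : y ≠ 0) (h : x ^ ℓ = y ^ ℓ) : ∃ n : ℤ, x = ζ ^ n * y := by
  have : NeZero ℓ := ⟨hℓ⟩
  have h1 : (x / y) ^ ℓ = 1 := by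
    rw [div_pow, h, div_self (pow_ne_zero _ hy)]
  obtain ⟨i, -, hi⟩ := hζ.eq_pow_of_pow_eq_one h1
  refine ⟨i, ?_⟩
  rw [zpow_natCast, hi, div_mul_cancel₀ _ hy]

private lemma tb06_ne (hF : CompatF F L Ω) (H : GlobHyp ℓ g E ζ) {θ : Ω}
    (hθ : θ ∈ rts (cOver k F L Ω g 1)) (β : F) : θ - algebraMap F Ω β ≠ 0 := by
  have hΩc : IsAlgClosed Ω := IsAlgClosure.isAlgClosed L
  rw [rts_one H] at hθ
  have h1 : aeval θ (X - C β : F[X]) = θ - algebraMap F Ω β := by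
    rw [map_sub, aeval_X, aeval_C]
  rw [← h1, Ne, map_eq_zero_iff _ (aeval_root_injective hF H hθ)]
  exact X_sub_C_ne_zero β

private lemma tb06_z_ne (hF : CompatF F L Ω) (H : GlobHyp ℓ g E ζ) (e : F → ℤ) {x θ : Ω}
    (hθ : θ ∈ rts (cOver k F L Ω g 1))
    (hx : x ^ ℓ = ∏ β ∈ RR F g E, (θ - algebraMap F Ω β) ^ e β) : x ≠ 0 := by
  rintro rfl
  rw [zero_pow H.prime.ne_zero] at hx
  exact Finset.prod_ne_zero_iff.2 (fun β _ => zpow_ne_zero _ (tb06_ne hF H hθ β)) hx.symm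

private lemma tb06_const (hF : CompatF F L Ω) (γ : AutO k F L Ω)
    (hγ : ∀ β ∈ RR F g E, resF γ β = β) :
    ∀ β ∈ RR F g E, (γ : Ω ≃+* Ω) (algebraMap F Ω β) = algebraMap F Ω β := by
  intro β hβ
  rw [hF β, resF_spec, map_C]
  have h1 : (resF γ : F →+* F) β = β := hγ β hβ
  rw [h1]

private lemma tb06_map_prod (hF : CompatF F L Ω) (γ : AutO k F L Ω)
    (hγ : ∀ β ∈ RR F g E, resF γ β = β) (e : F → ℤ) (θ : Ω) :
    (γ : Ω ≃+* Ω) (∏ β ∈ RR F g E, (θ - algebraMap F Ω β) ^ e β) =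
      ∏ β ∈ RR F g E, ((γ : Ω ≃+* Ω) θ - algebraMap F Ω β) ^ e β := by
  rw [map_prod]
  refine Finset.prod_congr rfl fun β hβ => ?_
  rw [map_zpow₀, map_sub, tb06_const hF γ hγ β hβ]

private lemma tb06_conj (γ : AutO k F L Ω) (σ : Ω ≃ₐ[L] Ω) (x : Ω) :
    (conjG γ⁻¹ σ) x = (γ : Ω ≃+* Ω).symm (σ ((γ : Ω ≃+* Ω) x)) := by
  have h2 := conjG_spec γ⁻¹ σ ((γ : Ω ≃+* Ω) x)
  have h3 : ∀ y : Ω, ((γ⁻¹ : AutO k F L Ω) : Ω ≃+* Ω) y = (γ : Ω ≃+* Ω).symm y :=
    fun y => rfl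
  rw [h3, h3, RingEquiv.symm_apply_apply] at h2
  exact h2

private lemma tb06_zsymm (ζ : k) (γ : AutO k F L Ω) :
    (γ : Ω ≃+* Ω).symm (zA F L Ω ζ) = zA F L Ω ζ := by
  rw [RingEquiv.symm_apply_eq]
  exact (zA_fixed ζ γ).symm

theorem HasExpM.cob_of_dvd (hF : CompatF F L Ω) (H : GlobHyp ℓ g E ζ)
    {h : Ch ℓ k F L Ω g 1} {e : F → ℤ} (he : HasExpM ζ E h e)
    (hd : ∀ β ∈ RR F g E, (ℓ : ℤ) ∣ e β) :
    ∃ m : Ω → ℤ, ∀ σ, h σ = cob (ram m) σ := by
  have Hζ : IsPrimitiveRoot (zA F L Ω ζ) ℓ := zA_primitive H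
  have hz0 : zA F L Ω ζ ≠ 0 := Hζ.ne_zero H.prime.ne_zero
  have : NeZero ℓ := ⟨H.prime.ne_zero⟩
  have h' : HasExpM ζ E h (fun _ => 0) := he.congr hF H (by
    intro β hβ
    rw [zero_sub, dvd_neg]
    exact hd β hβ)
  obtain ⟨z, hz, hzσ⟩ := h'.ex
  have hroot : ∀ θ : Ω, ∃ m : ℤ, θ ∈ rts (cOver k F L Ω g 1) → z θ = zA F L Ω ζ ^ m := by
    intro θ
    by_cases hθ : θ ∈ rts (cOver k F L Ω g 1)
    · have h1 := hz θ hθ
      simp only [zpow_zero, Finset.prod_const_one] at h1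
      obtain ⟨i, _, hi⟩ := Hζ.eq_pow_of_pow_eq_one h1
      exact ⟨i, fun _ => by rw [zpow_natCast, hi]⟩
    · exact ⟨0, fun h => absurd h hθ⟩
  choose m₀ hm₀ using hroot
  have hfix : ∀ σ : Ω ≃ₐ[L] Ω, σ (zA F L Ω ζ) = zA F L Ω ζ := fun σ => zA_fixed ζ (galA k F σ)
  refine ⟨m₀, fun σ => ?_⟩
  have h1 := hzσ σ (fun η => m₀ (σ.symm η) - m₀ η) (by
    intro θ hθ
    rw [hm₀ θ hθ, hm₀ (σ θ) ((tb06_smul_mem hG σ).2 hθ), map_zpow₀, hfix σ, ← zpow_add₀ hz0]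
    congr 1
    rw [AlgEquiv.symm_apply_apply]
    ring)
  rw [h1, ram_sub]
  unfold cob
  rw [symJ_ram]
  rfl

theorem HasExpM.unique (hF : CompatF F L Ω) (H : GlobHyp ℓ g E ζ)
    {h h' : Ch ℓ k F L Ω g 1} {e e' : F → ℤ} (he : HasExpM ζ E h e)
    (he' : HasExpM ζ E h' e') {m : Ω → ℤ} (hh : ∀ σ, h σ = h' σ + cob (ram m) σ) :
    ∀ β ∈ RR F g E, (ℓ : ℤ) ∣ e β - e' β := by
  have hz : (zA F L Ω ζ) ^ ℓ = 1 := (zA_primitive H).pow_eq_one
  have h1 : HasExpM ζ E (h + -h') (fun β => e β + -e' β) := he.add hF H (he'.neg hF H)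
  have h2 := h1.dvd_of_cob (hζ := hz) hF H (A := ram m) (zJ_ram _ hz m) (fun σ => by
    change h σ + -h' σ = _
    rw [hh σ]
    abel)
  intro β hβ
  have h3 := h2 β hβ
  rwa [← sub_eq_add_neg] at h3

/-- The function `z` of `HasExpM` can be used to compute `γ h - h`. -/
theorem HasExpM.act_rel (hF : CompatF F L Ω) (H : GlobHyp ℓ g E ζ)
    {h : Ch ℓ k F L Ω g 1} {e : F → ℤ} (he : HasExpM ζ E h e) (γ : AutO k F L Ω)
    (hγ : ∀ β ∈ RR F g E, resF γ β = β) :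
    ∃ (z : Ω → Ω) (q : Ω → ℤ),
      (∀ θ ∈ rts (cOver k F L Ω g 1),
        z θ ^ ℓ = ∏ β ∈ RR F g E, (θ - algebraMap F Ω β) ^ e β) ∧
      (∀ (σ : Ω ≃ₐ[L] Ω) (n : Ω → ℤ), (∀ θ ∈ rts (cOver k F L Ω g 1),
        σ (z θ) = zA F L Ω ζ ^ n (σ θ) * z (σ θ)) → h σ = ram n) ∧
      (∀ θ ∈ rts (cOver k F L Ω g 1), (γ : Ω ≃+* Ω) (z θ) =
        zA F L Ω ζ ^ q ((γ : Ω ≃+* Ω) θ) * z ((γ : Ω ≃+* Ω) θ)) ∧
      ∀ σ, act1 γ h σ = h σ + cob (ram q) σ := by
  have Hζ : IsPrimitiveRoot (zA F L Ω ζ) ℓ := zA_primitive H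
  have hz0 : zA F L Ω ζ ≠ 0 := Hζ.ne_zero H.prime.ne_zero
  obtain ⟨z, hz, hzσ⟩ := he.ex
  have h1 : ∀ θ : Ω, ∃ i : ℤ, θ ∈ rts (cOver k F L Ω g 1) →
      (γ : Ω ≃+* Ω) (z θ) = zA F L Ω ζ ^ i * z ((γ : Ω ≃+* Ω) θ) := by
    intro θ
    by_cases hθ : θ ∈ rts (cOver k F L Ω g 1)
    · have hγθ := (tb06_stable hG γ).2 hθ
      obtain ⟨i, hi⟩ := tb06_exists H.prime.ne_zero Hζ (tb06_z_ne hF H e hγθ (hz _ hγθ))
        (x := (γ : Ω ≃+* Ω) (z θ)) (by
          rw [← map_pow, hz θ hθ, hz _ hγθ]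
          exact tb06_map_prod hF γ hγ e θ)
      exact ⟨i, fun _ => hi⟩
    · exact ⟨0, fun h => absurd h hθ⟩
  choose i hi using h1
  obtain ⟨q, hq⟩ : ∃ q : Ω → ℤ, ∀ θ, q ((γ : Ω ≃+* Ω) θ) = i θ :=
    ⟨fun η => i ((γ : Ω ≃+* Ω).symm η), fun θ => by
      show i ((γ : Ω ≃+* Ω).symm ((γ : Ω ≃+* Ω) θ)) = i θ
      rw [RingEquiv.symm_apply_apply]⟩
  have hq' : ∀ θ ∈ rts (cOver k F L Ω g 1), (γ : Ω ≃+* Ω) (z θ) =
      zA F L Ω ζ ^ q ((γ : Ω ≃+* Ω) θ) * z ((γ : Ω ≃+* Ω) θ) := fun θ hθ => by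
    rw [hq]
    exact hi θ hθ
  refine ⟨z, q, hz, hzσ, hq', fun σ => ?_⟩
  obtain ⟨n, hn⟩ := HasExpM.exists_n hF H e hz σ
  have hzσ' : ∀ θ ∈ rts (cOver k F L Ω g 1), z ((γ : Ω ≃+* Ω) θ) =
      zA F L Ω ζ ^ (-q ((γ : Ω ≃+* Ω) θ)) * (γ : Ω ≃+* Ω) (z θ) := by
    intro θ hθ
    rw [hq' θ hθ, ← mul_assoc, ← zpow_add₀ hz0, neg_add_cancel, zpow_zero, one_mul]
  have h2 : h (conjG γ⁻¹ σ) = ram (fun φ => q (σ.symm ((γ : Ω ≃+* Ω) φ)) +
      n ((γ : Ω ≃+* Ω) φ) - q ((γ : Ω ≃+* Ω) φ)) := by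
    apply hzσ
    intro θ hθ
    have hγθ := (tb06_stable hG γ).2 hθ
    have hφ : (conjG γ⁻¹ σ) θ ∈ rts (cOver k F L Ω g 1) := (tb06_smul_mem hG _).2 hθ
    have hγφ : (γ : Ω ≃+* Ω) ((conjG γ⁻¹ σ) θ) = σ ((γ : Ω ≃+* Ω) θ) := by
      rw [tb06_conj, RingEquiv.apply_symm_apply]
    have h3 := hzσ' _ hφ
    rw [hγφ] at h3
    rw [hγφ, AlgEquiv.symm_apply_apply, tb06_conj γ σ (z θ), RingEquiv.symm_apply_eq, hq' θ hθ,
      map_mul, map_zpow₀, show σ (zA F L Ω ζ) = zA F L Ω ζ from zA_fixed ζ (galA k F σ), hn _ hγθ,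
      h3, map_mul, map_zpow₀, zA_fixed, zpow_sub₀ hz0, zpow_add₀ hz0, zpow_neg]
    ring
  unfold act1
  rw [h2, symJ_ram]
  have h4 : (fun θ => q (σ.symm ((γ : Ω ≃+* Ω) ((((toSym g 1 γ)⁻¹ :
      Sym (cOver k F L Ω g 1)) : Ω ≃+* Ω) θ))) +
      n ((γ : Ω ≃+* Ω) ((((toSym g 1 γ)⁻¹ : Sym (cOver k F L Ω g 1)) : Ω ≃+* Ω) θ)) -
      q ((γ : Ω ≃+* Ω) ((((toSym g 1 γ)⁻¹ : Sym (cOver k F L Ω g 1)) : Ω ≃+* Ω) θ))) =
      fun θ => (n θ + q (σ.symm θ)) - q θ := by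
    funext θ
    have h5 : (γ : Ω ≃+* Ω) ((((toSym g 1 γ)⁻¹ : Sym (cOver k F L Ω g 1)) : Ω ≃+* Ω) θ) = θ :=
      (γ : Ω ≃+* Ω).apply_symm_apply θ
    rw [h5, add_comm (q (σ.symm θ))]
  rw [h4, ram_sub, ram_add, ← hzσ σ n hn]
  unfold cob
  rw [symJ_ram, add_sub_assoc]
  rfl

lemma HasExpM.act (hF : CompatF F L Ω) (H : GlobHyp ℓ g E ζ) {h : Ch ℓ k F L Ω g 1}
    {e : F → ℤ} (he : HasExpM ζ E h e) (γ : AutO k F L Ω)
    (hγ : ∀ β ∈ RR F g E, resF γ β = β) : HasExpM ζ E (act1 γ h) e := by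
  obtain ⟨z, hz, hzn⟩ := he.ex
  refine ⟨he.sum, fun θ => (γ : Ω ≃+* Ω) (z ((γ : Ω ≃+* Ω).symm θ)), fun θ hθ => ?_,
    fun σ n hn => ?_⟩
  · have hθ' : (γ : Ω ≃+* Ω).symm θ ∈ rts (cOver k F L Ω g 1) := by
      rw [← tb06_stable hG γ, RingEquiv.apply_symm_apply]
      exact hθ
    rw [← map_pow, hz _ hθ', tb06_map_prod hF γ hγ, RingEquiv.apply_symm_apply]
  · have h4 : h (conjG γ⁻¹ σ) = ram (fun x => n ((γ : Ω ≃+* Ω) x)) := by
      apply hzn
      intro θ hθ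
      have h5 := hn ((γ : Ω ≃+* Ω) θ) ((tb06_stable hG γ).2 hθ)
      simp only [RingEquiv.symm_apply_apply] at h5
      rw [tb06_conj, tb06_conj, h5, map_mul, RingEquiv.symm_apply_apply,
        RingEquiv.apply_symm_apply, map_zpow₀, tb06_zsymm]
    unfold act1
    rw [h4, symJ_ram]
    congr 1
    funext θ
    exact congrArg n ((γ : Ω ≃+* Ω).apply_symm_apply θ)

end Pool.Agent.Lib.MP_89bcae_ag.Sup

end
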