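import Mathlib
import Pool.Agent.Lib.MP_89bcae_ag.DefsRedei7
import Pool.Agent.Lib.MP_89bcae_ag.Q.K002
import Pool.Agent.Lib.MP_89bcae_ag.Q.K042

section

/-!
# Rédei maps with prescribed weights: existence of one without eigenvalues
-/

open Polynomial

open scoped Classical

set_option linter.unusedSimpArgs false
set_option linter.unusedVariables false

namespace Pool.Agent.Lib.MP_89bcae_ag

section

variable {V I : Type*}

theorem logic3 {E O : Fin 3 → Prop} (h : ∀ a b : Fin 3, E (b - a) ∨ O (a + b)) :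
    (∀ u, E u) ∨ (∀ v, O v) := by
  by_contra hcon
  push Not at hcon
  obtain ⟨⟨u, hu⟩, ⟨v, hv⟩⟩ := hcon
  have h1 : ∀ u v : Fin 3, ∃ a b : Fin 3, b - a = u ∧ a + b = v := by decide
  obtain ⟨a, b, hab, hab'⟩ := h1 u v
  rcases h a b with h2 | h2
  · rw [hab] at h2; exact hu h2
  · rw [hab'] at h2; exact hv h2

theorem perm3 : ∀ (a b : Fin 3) (σ : Fin 3 → Fin 3), (∀ c d, σ c = σ d → c = d) → σ a = b →
    (∀ c, σ c = c + (b - a)) ∨ (∀ c, σ c = (a + b) - c) := by decide

/-- The operator of the weights `l b c`. -/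
noncomputable def opT (R : Finset V) (v : V → I) (l : V → V → ZMod 2) (z : V → ZMod 2) (b : V) :
    ZMod 2 :=
  ∑ c ∈ R.filter (fun c => v c ≠ v b), l b c * (z c + z b)

/-- The function `z` has sum `0` on each fibre. -/
def EvenZ (R : Finset V) (v : V → I) (z : V → ZMod 2) : Prop :=
  ∀ α : I, ∑ c ∈ R.filter (fun c => v c = α), z c = 0

/-- `m` is a matching of the fibres `i` and `j`. -/
def Match8 (R : Finset V) (v : V → I) (i j : I) (m : V → V) : Prop :=
  (∀ x ∈ R, v x = i → m x ∈ R ∧ v (m x) = j ∧ m (m x) = x) ∧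
  (∀ x ∈ R, v x = j → m x ∈ R ∧ v (m x) = i ∧ m (m x) = x)

/-- `l` has the weights of the matching `m` of the fibres `i` and `j`. -/
def MatchW8 (R : Finset V) (v : V → I) (i j : I) (m : V → V)
    (l : V → V → ZMod 2) : Prop :=
  ∀ x ∈ R, ∀ y ∈ R, v x ≠ v y →
    l x y = if (v x = i ∨ v x = j) ∧ y = m x then 1 else 0

theorem opT_add (R : Finset V) (v : V → I) (l l' : V → V → ZMod 2)
    (z : V → ZMod 2) (b : V) :
    opT R v (l + l') z b = opT R v l z b + opT R v l' z b := by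
  unfold opT
  rw [← Finset.sum_add_distrib]
  refine Finset.sum_congr rfl fun c _ => ?_
  rw [Pi.add_apply, Pi.add_apply]
  ring

theorem opT_match {R : Finset V} {v : V → I} {i j : I} (hij : i ≠ j) {m : V → V}
    {l : V → V → ZMod 2} (hm : Match8 R v i j m) (hl : MatchW8 R v i j m l) (z : V → ZMod 2) {b : V}
    (hb : b ∈ R) : opT R v l z b = if v b = i ∨ v b = j then z (m b) + z b else 0 := by
  unfold opT
  have h1 : ∀ c ∈ R.filter (fun c => v c ≠ v b), l b c * (z c + z b) =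
      if c = m b then (if v b = i ∨ v b = j then z c + z b else 0) else 0 := by
    intro c hc
    rw [Finset.mem_filter] at hc
    rw [hl b hb c hc.1 (Ne.symm hc.2)]
    by_cases h3 : c = m b
    · by_cases h4 : v b = i ∨ v b = j
      · rw [if_pos ⟨h4, h3⟩, if_pos h3, if_pos h4, one_mul]
      · rw [if_neg (fun h => h4 h.1), if_pos h3, if_neg h4, zero_mul]
    · rw [if_neg (fun h => h3 h.2), if_neg h3, zero_mul]
  rw [Finset.sum_congr rfl h1, Finset.sum_ite_eq' _ (m b)]
  by_cases h4 : v b = i ∨ v b = j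
  · have h5 : m b ∈ R.filter (fun c => v c ≠ v b) := by
      rw [Finset.mem_filter]
      rcases h4 with h6 | h6
      · obtain ⟨h7, h8, _⟩ := hm.1 b hb h6
        exact ⟨h7, by rw [h8, h6]; exact hij.symm⟩
      · obtain ⟨h7, h8, _⟩ := hm.2 b hb h6
        exact ⟨h7, by rw [h8, h6]; exact hij⟩
    rw [if_pos h5]
  · rw [if_neg h4]
    split_ifs <;> rfl

theorem opT_full {R : Finset V} {v : V → I} {i j : I} (hij : i ≠ j)
    (hci : (R.filter (fun c => v c = i)).card = 3) (hcj : (R.filter (fun c => v c = j)).card = 3)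
    {l : V → V → ZMod 2} (hl : ∀ x ∈ R, ∀ y ∈ R, v x ≠ v y →
      l x y = if (v x = i ∧ v y = j) ∨ (v x = j ∧ v y = i) then 1 else 0)
    {z : V → ZMod 2} (hz : EvenZ R v z) {b : V}
    (hb : b ∈ R) : opT R v l z b = if v b = i ∨ v b = j then z b else 0 := by
  have key : ∀ i j : I, i ≠ j → (R.filter (fun c => v c = j)).card = 3 →
      (∀ x ∈ R, ∀ y ∈ R, v x ≠ v y →
        l x y = if (v x = i ∧ v y = j) ∨ (v x = j ∧ v y = i) then 1 else 0) →
      v b = i → opT R v l z b = z b := by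
    intro i j hij hcj hl hbi
    unfold opT
    have h1 : ∀ c ∈ R.filter (fun c => v c ≠ v b), l b c * (z c + z b) =
        if v c = j then z c + z b else 0 := by
      intro c hc
      rw [Finset.mem_filter] at hc
      rw [hl b hb c hc.1 (Ne.symm hc.2)]
      by_cases h3 : v c = j
      · rw [if_pos (Or.inl ⟨hbi, h3⟩), if_pos h3, one_mul]
      · rw [if_neg (fun h => ?_), if_neg h3, zero_mul]
        rcases h with h | h
        · exact h3 h.2
        · exact hij (hbi.symm.trans h.1)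
    rw [Finset.sum_congr rfl h1, ← Finset.sum_filter, Finset.filter_filter]
    have h2 : R.filter (fun c => v c ≠ v b ∧ v c = j) = R.filter (fun c => v c = j) := by
      refine Finset.filter_congr fun c _ => ?_
      constructor
      · exact fun h => h.2
      · intro h
        exact ⟨by rw [h, hbi]; exact hij.symm, h⟩
    rw [h2, Finset.sum_add_distrib, hz j, zero_add, Finset.sum_const, hcj]
    have h3 : ∀ t : ZMod 2, 3 • t = t := by decide
    exact h3 _
  by_cases h4 : v b = i ∨ v b = j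
  · rw [if_pos h4]
    rcases h4 with h5 | h5
    · exact key i j hij hcj hl h5
    · refine key j i hij.symm hci (fun x hx y hy hxy => ?_) h5
      rw [hl x hx y hy hxy]
      exact if_congr or_comm rfl rfl
  · rw [if_neg h4]
    unfold opT
    refine Finset.sum_eq_zero fun c hc => ?_
    rw [Finset.mem_filter] at hc
    rw [hl b hb c hc.1 (Ne.symm hc.2), if_neg, zero_mul]
    intro h
    rcases h with h | h
    · exact h4 (Or.inl h.1)
    · exact h4 (Or.inr h.1)

/-- Three disjoint matchings. -/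
theorem exists_full {R : Finset V} {v : V → I} {HH : Set (V → V → ZMod 2)}
    (hadd : ∀ l ∈ HH, ∀ l' ∈ HH, l + l' ∈ HH) {i j : I} (hij : i ≠ j)
    (hci : (R.filter (fun c => v c = i)).card = 3) (hcj : (R.filter (fun c => v c = j)).card = 3)
    (H : ∀ x ∈ R, ∀ y ∈ R, v x = i → v y = j →
      ∃ l ∈ HH, ∃ m : V → V, Match8 R v i j m ∧ MatchW8 R v i j m l ∧ m x = y) :
    ∃ l ∈ HH, ∀ x ∈ R, ∀ y ∈ R, v x ≠ v y →
      l x y = if (v x = i ∧ v y = j) ∨ (v x = j ∧ v y = i) then 1 else 0 := by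
  have hX : Nonempty (Fin 3 ≃ (R.filter (fun c => v c = i))) :=
    ⟨(Fintype.equivFinOfCardEq (by rw [Fintype.card_coe, hci])).symm⟩
  have hY : Nonempty (Fin 3 ≃ (R.filter (fun c => v c = j))) :=
    ⟨(Fintype.equivFinOfCardEq (by rw [Fintype.card_coe, hcj])).symm⟩
  obtain ⟨X⟩ := hX
  obtain ⟨Y⟩ := hY
  have hXR : ∀ a, (X a : V) ∈ R ∧ v (X a) = i := fun a => by
    have := (X a).2
    rwa [Finset.mem_filter] at this
  have hYR : ∀ a, (Y a : V) ∈ R ∧ v (Y a) = j := fun a => by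
    have := (Y a).2
    rwa [Finset.mem_filter] at this
  -- availability of a map
  let av : (Fin 3 → Fin 3) → Prop := fun σ => ∃ l ∈ HH, ∃ m : V → V, Match8 R v i j m ∧
    MatchW8 R v i j m l ∧ ∀ a, m (X a) = Y (σ a)
  have hav : ∀ a b : Fin 3, av (fun c => c + (b - a)) ∨ av (fun c => (a + b) - c) := by
    intro a b
    obtain ⟨l, hl, m, hm, hml, hab⟩ := H (X a) (hXR a).1 (Y b) (hYR b).1 (hXR a).2 (hYR b).2
    have h1 : ∀ c : Fin 3, ∃ d : Fin 3, m (X c) = Y d := by
      intro c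
      obtain ⟨h2, h3, _⟩ := hm.1 (X c) (hXR c).1 (hXR c).2
      refine ⟨Y.symm ⟨m (X c), Finset.mem_filter.mpr ⟨h2, h3⟩⟩, ?_⟩
      rw [Equiv.apply_symm_apply]
    choose σ hσ using h1
    have h4 : ∀ c d, σ c = σ d → c = d := by
      intro c d hcd
      have h5 : m (X c) = m (X d) := by rw [hσ, hσ, hcd]
      have h6 : (X c : V) = X d := by
        rw [← (hm.1 (X c) (hXR c).1 (hXR c).2).2.2, h5,
          (hm.1 (X d) (hXR d).1 (hXR d).2).2.2]
      exact X.injective (Subtype.ext h6)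
    have h5 : σ a = b := by
      have h6 : (Y (σ a) : V) = Y b := by rw [← hσ, hab]
      exact Y.injective (Subtype.ext h6)
    rcases perm3 a b σ h4 h5 with h6 | h6
    · exact Or.inl ⟨l, hl, m, hm, hml, fun c => by rw [hσ, h6]⟩
    · exact Or.inr ⟨l, hl, m, hm, hml, fun c => by rw [hσ, h6]⟩
  have hthree : ∃ τ : Fin 3 → Fin 3 → Fin 3, (∀ u, av (τ u)) ∧
      ∀ a b : Fin 3, (∑ u : Fin 3, if b = τ u a then (1 : ZMod 2) else 0) = 1 := by
    rcases logic3 (E := fun u => av (fun c => c + u)) (O := fun w => av (fun c => w - c)) hav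
      with h | h
    · exact ⟨fun u c => c + u, h, by decide⟩
    · exact ⟨fun w c => w - c, h, by decide⟩
  obtain ⟨τ, hτ, hsum⟩ := hthree
  choose l hl m hm hml hmX using hτ
  refine ⟨l 0 + l 1 + l 2, hadd _ (hadd _ (hl 0) _ (hl 1)) _ (hl 2), ?_⟩
  intro x hx y hy hxy
  -- the weights for `x` in the fibre `i` and `y` in the fibre `j`
  have hXsurj : ∀ x ∈ R, v x = i → ∃ a, x = X a := fun x hx hxi =>
    ⟨X.symm ⟨x, Finset.mem_filter.mpr ⟨hx, hxi⟩⟩, by rw [Equiv.apply_symm_apply]⟩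
  have hYsurj : ∀ y ∈ R, v y = j → ∃ b, y = Y b := fun y hy hyj =>
    ⟨Y.symm ⟨y, Finset.mem_filter.mpr ⟨hy, hyj⟩⟩, by rw [Equiv.apply_symm_apply]⟩
  have hXY : ∀ (u a b : Fin 3), (Y b : V) = m u (X a) ↔ b = τ u a := by
    intro u a b
    rw [hmX]
    constructor
    · intro h
      exact Y.injective (Subtype.ext h)
    · intro h
      rw [h]
  have hYX : ∀ (u a b : Fin 3), (X a : V) = m u (Y b) ↔ b = τ u a := by
    intro u a b
    rw [← hXY]
    constructor
    · intro h
      rw [h, ((hm u).2 (Y b) (hYR b).1 (hYR b).2).2.2]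
    · intro h
      rw [h, ((hm u).1 (X a) (hXR a).1 (hXR a).2).2.2]
  have hsum3 : ∀ f : Fin 3 → ZMod 2, f 0 + f 1 + f 2 = ∑ u, f u := fun f => by
    rw [Fin.sum_univ_three]
  have e1 : (l 0 + l 1 + l 2) x y = ∑ u, l u x y := by
    rw [← hsum3]; rfl
  rw [e1, Finset.sum_congr rfl fun u _ => hml u x hx y hy hxy]
  by_cases c1 : v x = i ∧ v y = j
  · rw [if_pos (Or.inl c1)]
    obtain ⟨a, rfl⟩ := hXsurj x hx c1.1
    obtain ⟨b, rfl⟩ := hYsurj y hy c1.2
    refine Eq.trans ?_ (hsum a b)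
    refine Finset.sum_congr rfl fun u _ => if_congr ?_ rfl rfl
    rw [hXY]
    exact ⟨fun h => h.2, fun h => ⟨Or.inl c1.1, h⟩⟩
  · by_cases c2 : v x = j ∧ v y = i
    · rw [if_pos (Or.inr c2)]
      obtain ⟨a, rfl⟩ := hXsurj y hy c2.2
      obtain ⟨b, rfl⟩ := hYsurj x hx c2.1
      refine Eq.trans ?_ (hsum a b)
      refine Finset.sum_congr rfl fun u _ => if_congr ?_ rfl rfl
      rw [hYX]
      exact ⟨fun h => h.2, fun h => ⟨Or.inr c2.1, h⟩⟩
    · rw [if_neg (fun h => h.elim c1 c2)]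
      refine Finset.sum_eq_zero fun u _ => if_neg ?_
      rintro ⟨h | h, hy'⟩
      · exact c1 ⟨h, by rw [hy']; exact ((hm u).1 x hx h).2.1⟩
      · exact c2 ⟨h, by rw [hy']; exact ((hm u).2 x hx h).2.1⟩

/-- The operators which come from `HH`. -/
def IsOp (R : Finset V) (v : V → I) (HH : Set (V → V → ZMod 2))
    (T : (V → ZMod 2) → V → ZMod 2) : Prop :=
  ∃ l ∈ HH, ∀ z, EvenZ R v z → ∀ b ∈ R, opT R v l z b = T z b

theorem IsOp.add {R : Finset V} {v : V → I} {HH : Set (V → V → ZMod 2)}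
    (hadd : ∀ l ∈ HH, ∀ l' ∈ HH, l + l' ∈ HH) {T T' : (V → ZMod 2) → V → ZMod 2}
    (h : IsOp R v HH T) (h' : IsOp R v HH T') : IsOp R v HH (fun z b => T z b + T' z b) := by
  obtain ⟨l, hl, hT⟩ := h
  obtain ⟨l', hl', hT'⟩ := h'
  exact ⟨l + l', hadd l hl l' hl', fun z hz b hb => by
    rw [opT_add, hT z hz b hb, hT' z hz b hb]⟩

/-- The fibres in `A` have an operator without eigenvalues. -/
def Good8 (R : Finset V) (v : V → I) (HH : Set (V → V → ZMod 2)) (A : Finset I) : Prop :=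
  ∃ T, IsOp R v HH T ∧ (∀ z b, v b ∉ A → T z b = 0) ∧
    ∀ (ε : ZMod 2) (z : V → ZMod 2), EvenZ R v z →
      (∀ b ∈ R, v b ∈ A → T z b = ε * z b) → ∀ b ∈ R, v b ∈ A → z b = 0

theorem Good8.union {R : Finset V} {v : V → I} {HH : Set (V → V → ZMod 2)}
    (hadd : ∀ l ∈ HH, ∀ l' ∈ HH, l + l' ∈ HH) {A B : Finset I} (hA : Good8 R v HH A)
    (hB : Good8 R v HH B) (hAB : Disjoint A B) : Good8 R v HH (A ∪ B) := by
  obtain ⟨T, hT, hT0, hTe⟩ := hA
  obtain ⟨S, hS, hS0, hSe⟩ := hB
  refine ⟨_, hT.add hadd hS, ?_, ?_⟩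
  · intro z b hb
    rw [Finset.mem_union, not_or] at hb
    rw [hT0 z b hb.1, hS0 z b hb.2, add_zero]
  · intro ε z hz h b hb hbA
    rw [Finset.mem_union] at hbA
    rcases hbA with h1 | h1
    · refine hTe ε z hz (fun c hc hcA => ?_) b hb h1
      have h2 := h c hc (Finset.mem_union_left _ hcA)
      rwa [hS0 z c (Finset.disjoint_left.mp hAB hcA), add_zero] at h2
    · refine hSe ε z hz (fun c hc hcB => ?_) b hb h1
      have h2 := h c hc (Finset.mem_union_right _ hcB)
      rwa [hT0 z c (Finset.disjoint_right.mp hAB hcB), zero_add] at h2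

/-- The hypothesis on `HH`. -/
def AllMatch8 (R : Finset V) (v : V → I) (HH : Set (V → V → ZMod 2)) : Prop :=
  ∀ x ∈ R, ∀ y ∈ R, v x ≠ v y → ∃ l ∈ HH, ∃ m : V → V,
    Match8 R v (v x) (v y) m ∧ MatchW8 R v (v x) (v y) m l ∧ m x = y

theorem exists_op_full {R : Finset V} {v : V → I} {HH : Set (V → V → ZMod 2)}
    (hadd : ∀ l ∈ HH, ∀ l' ∈ HH, l + l' ∈ HH)
    (hcard : ∀ x ∈ R, (R.filter (fun c => v c = v x)).card = 3) (H : AllMatch8 R v HH)
    {i j : I} (hi : i ∈ R.image v) (hj : j ∈ R.image v) (hij : i ≠ j) :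
    IsOp R v HH (fun z b => if v b = i ∨ v b = j then z b else 0) := by
  obtain ⟨x0, hx0, rfl⟩ := Finset.mem_image.mp hi
  obtain ⟨y0, hy0, rfl⟩ := Finset.mem_image.mp hj
  obtain ⟨l, hl, hw⟩ := exists_full hadd hij (hcard x0 hx0) (hcard y0 hy0)
    (fun x hx y hy hxi hyj => by
      have := H x hx y hy (by rw [hxi, hyj]; exact hij)
      rwa [hxi, hyj] at this)
  exact ⟨l, hl, fun z hz b hb => opT_full hij (hcard x0 hx0) (hcard y0 hy0) hw hz hb⟩

theorem exists_op_edge {R : Finset V} {v : V → I} {HH : Set (V → V → ZMod 2)}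
    (hadd : ∀ l ∈ HH, ∀ l' ∈ HH, l + l' ∈ HH)
    (hcard : ∀ x ∈ R, (R.filter (fun c => v c = v x)).card = 3) (H : AllMatch8 R v HH)
    {i j : I} (hi : i ∈ R.image v) (hj : j ∈ R.image v) (hij : i ≠ j) :
    ∃ m : V → V, Match8 R v i j m ∧
      IsOp R v HH (fun z b => if v b = i ∨ v b = j then z (m b) else 0) := by
  have hf := exists_op_full hadd hcard H hi hj hij
  obtain ⟨x0, hx0, rfl⟩ := Finset.mem_image.mp hi
  obtain ⟨y0, hy0, rfl⟩ := Finset.mem_image.mp hj
  obtain ⟨l, hl, m, hm, hml, _⟩ := H x0 hx0 y0 hy0 hij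
  refine ⟨m, hm, ?_⟩
  have h1 : IsOp R v HH (fun z b => if v b = v x0 ∨ v b = v y0 then z (m b) + z b else 0) :=
    ⟨l, hl, fun z _ b hb => opT_match hij hm hml z hb⟩
  obtain ⟨l', hl', hT⟩ := h1.add hadd hf
  refine ⟨l', hl', fun z hz b hb => ?_⟩
  rw [hT z hz b hb]
  by_cases h4 : v b = v x0 ∨ v b = v y0
  · simp only [if_pos h4]
    have h3 : ∀ s t : ZMod 2, s + t + t = s := by decide
    exact h3 _ _
  · simp only [if_neg h4, add_zero]

theorem good3 {R : Finset V} {v : V → I} {HH : Set (V → V → ZMod 2)}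
    (hadd : ∀ l ∈ HH, ∀ l' ∈ HH, l + l' ∈ HH)
    (hcard : ∀ x ∈ R, (R.filter (fun c => v c = v x)).card = 3) (H : AllMatch8 R v HH)
    {a b c : I} (ha : a ∈ R.image v) (hb : b ∈ R.image v) (hc : c ∈ R.image v)
    (hab : a ≠ b) (hac : a ≠ c) (hbc : b ≠ c) : Good8 R v HH {a, b, c} := by
  obtain ⟨m, hm, hE⟩ := exists_op_edge hadd hcard H ha hb hab
  obtain ⟨n, hn, hE'⟩ := exists_op_edge hadd hcard H hb hc hbc
  have hP := exists_op_full hadd hcard H ha hb hab
  refine ⟨_, (hE.add hadd hE').add hadd hP, ?_, ?_⟩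
  · intro z x hx
    simp only [Finset.mem_insert, Finset.mem_singleton, not_or] at hx
    simp only [hx.1, hx.2.1, hx.2.2, or_self, if_false, add_zero]
  · intro ε z hz h
    -- the path of `x`
    have key : ∀ x ∈ R, v x = a → z x = 0 ∧ z (m x) = 0 ∧ z (n (m x)) = 0 := by
      intro x hx hxa
      obtain ⟨h1, h2, h3⟩ := hm.1 x hx hxa
      obtain ⟨h4, h5, h6⟩ := hn.1 (m x) h1 h2
      have e1 := h x hx (by simp [hxa])
      have e2 := h (m x) h1 (by simp [h2])
      have e3 := h (n (m x)) h4 (by simp [h5])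
      simp only [hxa, hab, hac, or_false, or_true, true_or, false_or, if_true, if_false,
        add_zero, or_self] at e1
      simp only [h2, h3, hbc, hab.symm, or_false, or_true, true_or, false_or, if_true, if_false,
        add_zero, or_self] at e2
      simp only [h5, h6, hbc.symm, hac.symm, or_false, or_true, true_or, false_or, if_true,
        if_false, add_zero, zero_add, or_self] at e3
      revert e1 e2 e3
      generalize z x = z1
      generalize z (m x) = z2
      generalize z (n (m x)) = z3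
      clear h
      revert ε z1 z2 z3
      decide
    intro x hx hxA
    simp only [Finset.mem_insert, Finset.mem_singleton] at hxA
    rcases hxA with h1 | h1 | h1
    · exact (key x hx h1).1
    · obtain ⟨h2, h3, h4⟩ := hm.2 x hx h1
      have := (key (m x) h2 h3).2.1
      rwa [h4] at this
    · obtain ⟨h2, h3, h4⟩ := hn.2 x hx h1
      obtain ⟨h5, h6, h7⟩ := hm.2 (n x) h2 h3
      have := (key (m (n x)) h5 h6).2.2
      rwa [h7, h4] at this

theorem good4 {R : Finset V} {v : V → I} {HH : Set (V → V → ZMod 2)}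
    (hadd : ∀ l ∈ HH, ∀ l' ∈ HH, l + l' ∈ HH)
    (hcard : ∀ x ∈ R, (R.filter (fun c => v c = v x)).card = 3) (H : AllMatch8 R v HH)
    {a b c d : I} (ha : a ∈ R.image v) (hb : b ∈ R.image v) (hc : c ∈ R.image v)
    (hd : d ∈ R.image v) (hab : a ≠ b) (hac : a ≠ c) (had : a ≠ d) (hbc : b ≠ c) (hbd : b ≠ d)
    (hcd : c ≠ d) : Good8 R v HH {a, b, c, d} := by
  obtain ⟨m, hm, hE⟩ := exists_op_edge hadd hcard H ha hb hab
  obtain ⟨n, hn, hE'⟩ := exists_op_edge hadd hcard H hb hc hbc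
  obtain ⟨p, hp, hE''⟩ := exists_op_edge hadd hcard H hc hd hcd
  have hP := exists_op_full hadd hcard H ha hb hab
  have hQ := exists_op_full hadd hcard H hc hd hcd
  refine ⟨_, (((hE.add hadd hE').add hadd hE'').add hadd hP).add hadd hQ, ?_, ?_⟩
  · intro z x hx
    simp only [Finset.mem_insert, Finset.mem_singleton, not_or] at hx
    simp only [hx.1, hx.2.1, hx.2.2.1, hx.2.2.2, or_self, if_false, add_zero]
  · intro ε z hz h
    have key : ∀ x ∈ R, v x = a → z x = 0 ∧ z (m x) = 0 ∧ z (n (m x)) = 0 ∧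
        z (p (n (m x))) = 0 := by
      intro x hx hxa
      obtain ⟨h1, h2, h3⟩ := hm.1 x hx hxa
      obtain ⟨h4, h5, h6⟩ := hn.1 (m x) h1 h2
      obtain ⟨h7, h8, h9⟩ := hp.1 (n (m x)) h4 h5
      have e1 := h x hx (by simp [hxa])
      have e2 := h (m x) h1 (by simp [h2])
      have e3 := h (n (m x)) h4 (by simp [h5])
      have e4 := h (p (n (m x))) h7 (by simp [h8])
      simp only [hxa, hab, hac, had, or_false, or_true, true_or, false_or, if_true, if_false,
        add_zero, zero_add, or_self] at e1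
      simp only [h2, h3, hbc, hbd, hab.symm, or_false, or_true, true_or, false_or, if_true,
        if_false, add_zero, zero_add, or_self] at e2
      simp only [h5, h6, hcd, hbc.symm, hac.symm, or_false, or_true, true_or, false_or, if_true,
        if_false, add_zero, zero_add, or_self] at e3
      simp only [h8, h9, hcd.symm, hbd.symm, had.symm, or_false, or_true, true_or, false_or,
        if_true, if_false, add_zero, zero_add, or_self] at e4
      revert e1 e2 e3 e4
      generalize z x = z1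
      generalize z (m x) = z2
      generalize z (n (m x)) = z3
      generalize z (p (n (m x))) = z4
      clear h
      revert ε z1 z2 z3 z4
      decide
    intro x hx hxA
    simp only [Finset.mem_insert, Finset.mem_singleton] at hxA
    rcases hxA with h1 | h1 | h1 | h1
    · exact (key x hx h1).1
    · obtain ⟨h2, h3, h4⟩ := hm.2 x hx h1
      have := (key (m x) h2 h3).2.1
      rwa [h4] at this
    · obtain ⟨h2, h3, h4⟩ := hn.2 x hx h1
      obtain ⟨h5, h6, h7⟩ := hm.2 (n x) h2 h3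
      have := (key (m (n x)) h5 h6).2.2.1
      rwa [h7, h4] at this
    · obtain ⟨h2, h3, h4⟩ := hp.2 x hx h1
      obtain ⟨h5, h6, h7⟩ := hn.2 (p x) h2 h3
      obtain ⟨h8, h9, h10⟩ := hm.2 (n (p x)) h5 h6
      have := (key (m (n (p x))) h8 h9).2.2.2
      rwa [h10, h7, h4] at this

theorem good5 {R : Finset V} {v : V → I} {HH : Set (V → V → ZMod 2)}
    (hadd : ∀ l ∈ HH, ∀ l' ∈ HH, l + l' ∈ HH)
    (hcard : ∀ x ∈ R, (R.filter (fun c => v c = v x)).card = 3) (H : AllMatch8 R v HH)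
    {a b c d e : I} (ha : a ∈ R.image v) (hb : b ∈ R.image v) (hc : c ∈ R.image v)
    (hd : d ∈ R.image v) (he : e ∈ R.image v) (hab : a ≠ b) (hac : a ≠ c) (had : a ≠ d)
    (hae : a ≠ e) (hbc : b ≠ c) (hbd : b ≠ d) (hbe : b ≠ e) (hcd : c ≠ d) (hce : c ≠ e)
    (hde : d ≠ e) : Good8 R v HH {a, b, c, d, e} := by
  obtain ⟨m, hm, hE⟩ := exists_op_edge hadd hcard H ha hb hab
  obtain ⟨n, hn, hE'⟩ := exists_op_edge hadd hcard H hb hc hbc
  obtain ⟨p, hp, hE''⟩ := exists_op_edge hadd hcard H hc hd hcd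
  obtain ⟨q, hq, hE3⟩ := exists_op_edge hadd hcard H hd he hde
  have hP := exists_op_full hadd hcard H ha hb hab
  refine ⟨_, (((hE.add hadd hE').add hadd hE'').add hadd hE3).add hadd hP, ?_, ?_⟩
  · intro z x hx
    simp only [Finset.mem_insert, Finset.mem_singleton, not_or] at hx
    simp only [hx.1, hx.2.1, hx.2.2.1, hx.2.2.2.1, hx.2.2.2.2, or_self, if_false, add_zero]
  · intro ε z hz h
    have key : ∀ x ∈ R, v x = a → z x = 0 ∧ z (m x) = 0 ∧ z (n (m x)) = 0 ∧
        z (p (n (m x))) = 0 ∧ z (q (p (n (m x)))) = 0 := by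
      intro x hx hxa
      obtain ⟨h1, h2, h3⟩ := hm.1 x hx hxa
      obtain ⟨h4, h5, h6⟩ := hn.1 (m x) h1 h2
      obtain ⟨h7, h8, h9⟩ := hp.1 (n (m x)) h4 h5
      obtain ⟨h10, h11, h12⟩ := hq.1 (p (n (m x))) h7 h8
      have e1 := h x hx (by simp [hxa])
      have e2 := h (m x) h1 (by simp [h2])
      have e3 := h (n (m x)) h4 (by simp [h5])
      have e4 := h (p (n (m x))) h7 (by simp [h8])
      have e5 := h (q (p (n (m x)))) h10 (by simp [h11])
      simp only [hxa, hab, hac, had, hae, or_false, or_true, true_or, false_or, if_true,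
        if_false, add_zero, zero_add, or_self] at e1
      simp only [h2, h3, hbc, hbd, hbe, hab.symm, or_false, or_true, true_or, false_or, if_true,
        if_false, add_zero, zero_add, or_self] at e2
      simp only [h5, h6, hcd, hce, hbc.symm, hac.symm, or_false, or_true, true_or, false_or,
        if_true, if_false, add_zero, zero_add, or_self] at e3
      simp only [h8, h9, hde, hcd.symm, hbd.symm, had.symm, or_false, or_true, true_or, false_or,
        if_true, if_false, add_zero, zero_add, or_self] at e4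
      simp only [h11, h12, hde.symm, hce.symm, hbe.symm, hae.symm, or_false, or_true, true_or,
        false_or, if_true, if_false, add_zero, zero_add, or_self] at e5
      revert e1 e2 e3 e4 e5
      generalize z x = z1
      generalize z (m x) = z2
      generalize z (n (m x)) = z3
      generalize z (p (n (m x))) = z4
      generalize z (q (p (n (m x)))) = z5
      clear h
      revert ε z1 z2 z3 z4 z5
      decide
    intro x hx hxA
    simp only [Finset.mem_insert, Finset.mem_singleton] at hxA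
    rcases hxA with h1 | h1 | h1 | h1 | h1
    · exact (key x hx h1).1
    · obtain ⟨h2, h3, h4⟩ := hm.2 x hx h1
      have := (key (m x) h2 h3).2.1
      rwa [h4] at this
    · obtain ⟨h2, h3, h4⟩ := hn.2 x hx h1
      obtain ⟨h5, h6, h7⟩ := hm.2 (n x) h2 h3
      have := (key (m (n x)) h5 h6).2.2.1
      rwa [h7, h4] at this
    · obtain ⟨h2, h3, h4⟩ := hp.2 x hx h1
      obtain ⟨h5, h6, h7⟩ := hn.2 (p x) h2 h3
      obtain ⟨h8, h9, h10⟩ := hm.2 (n (p x)) h5 h6
      have := (key (m (n (p x))) h8 h9).2.2.2.1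
      rwa [h10, h7, h4] at this
    · obtain ⟨h2, h3, h4⟩ := hq.2 x hx h1
      obtain ⟨h5, h6, h7⟩ := hp.2 (q x) h2 h3
      obtain ⟨h8, h9, h10⟩ := hn.2 (p (q x)) h5 h6
      obtain ⟨h11, h12, h13⟩ := hm.2 (n (p (q x))) h8 h9
      have := (key (m (n (p (q x)))) h11 h12).2.2.2.2
      rwa [h13, h10, h7, h4] at this

theorem goodAll {R : Finset V} {v : V → I} {HH : Set (V → V → ZMod 2)}
    (hadd : ∀ l ∈ HH, ∀ l' ∈ HH, l + l' ∈ HH)
    (hcard : ∀ x ∈ R, (R.filter (fun c => v c = v x)).card = 3) (H : AllMatch8 R v HH) :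
    ∀ (n : ℕ) (A : Finset I), A ⊆ R.image v → A.card = n → 3 ≤ n → Good8 R v HH A := by
  intro n
  induction n using Nat.strong_induction_on with
  | _ n ih =>
    intro A hA hn h3
    by_cases h6 : 6 ≤ n
    · obtain ⟨B, hBA, hB3⟩ := Finset.exists_subset_card_eq (s := A) (n := 3) (by omega)
      obtain ⟨a, b, c, hab, hac, hbc, rfl⟩ := Finset.card_eq_three.mp hB3
      have h1 : Good8 R v HH {a, b, c} :=
        good3 hadd hcard H (hA (hBA (by simp))) (hA (hBA (by simp))) (hA (hBA (by simp)))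
          hab hac hbc
      have h2 : (A \ {a, b, c}).card = n - 3 := by
        rw [Finset.card_sdiff_of_subset hBA, hn, hB3]
      have h4 := (ih (n - 3) (by omega) (A \ {a, b, c})
        (Finset.sdiff_subset.trans hA) h2 (by omega)).union hadd h1 Finset.sdiff_disjoint
      rwa [Finset.sdiff_union_of_subset hBA] at h4
    · have h7 : n = 3 ∨ n = 4 ∨ n = 5 := by omega
      rcases h7 with h7 | h7 | h7
      · rw [h7] at hn
        obtain ⟨a, b, c, hab, hac, hbc, rfl⟩ := Finset.card_eq_three.mp hn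
        exact good3 hadd hcard H (hA (by simp)) (hA (by simp)) (hA (by simp)) hab hac hbc
      · rw [h7] at hn
        obtain ⟨d, B, hdB, rfl, hB⟩ := Finset.card_eq_succ.mp hn
        obtain ⟨a, b, c, hab, hac, hbc, rfl⟩ := Finset.card_eq_three.mp hB
        simp only [Finset.mem_insert, Finset.mem_singleton, not_or] at hdB
        exact good4 hadd hcard H (hA (by simp)) (hA (by simp)) (hA (by simp)) (hA (by simp))
          hdB.1 hdB.2.1 hdB.2.2 hab hac hbc
      · rw [h7] at hn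
        obtain ⟨e, B, heB, rfl, hB⟩ := Finset.card_eq_succ.mp hn
        obtain ⟨d, B', hdB, rfl, hB'⟩ := Finset.card_eq_succ.mp hB
        obtain ⟨a, b, c, hab, hac, hbc, rfl⟩ := Finset.card_eq_three.mp hB'
        simp only [Finset.mem_insert, Finset.mem_singleton, not_or] at hdB heB
        exact good5 hadd hcard H (hA (by simp)) (hA (by simp)) (hA (by simp)) (hA (by simp))
          (hA (by simp)) heB.1 heB.2.1 heB.2.2.1 heB.2.2.2 hdB.1 hdB.2.1 hdB.2.2 hab hac hbc

/-- There is an `l` in `HH` whose operator has no eigenvalue `0` or `1`. -/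
theorem exists_noEigen {R : Finset V} {v : V → I} {HH : Set (V → V → ZMod 2)}
    (hadd : ∀ l ∈ HH, ∀ l' ∈ HH, l + l' ∈ HH)
    (hcard : ∀ x ∈ R, (R.filter (fun c => v c = v x)).card = 3) (H : AllMatch8 R v HH)
    (h3 : 3 ≤ (R.image v).card) :
    ∃ l ∈ HH, ∀ (ε : ZMod 2) (z : V → ZMod 2), EvenZ R v z →
      (∀ b ∈ R, opT R v l z b = ε * z b) → ∀ b ∈ R, z b = 0 := by
  obtain ⟨T, ⟨l, hl, hT⟩, _, hTe⟩ := goodAll hadd hcard H _ (R.image v) subset_rfl rfl h3
  refine ⟨l, hl, fun ε z hz h b hb => ?_⟩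
  exact hTe ε z hz (fun c hc _ => by rw [← hT z hz c hc]; exact h c hc) b hb
    (Finset.mem_image_of_mem v hb)

/-- A perfect matching is given by a map. -/
theorem exists_match_of_isMatch7 {R : Finset V} {v : V → I} {i j : I} (hij : i ≠ j)
    {e : V → V → ZMod 2} (he : IsMatch7 R v i j e) :
    ∃ m : V → V, Match8 R v i j m ∧ MatchW8 R v i j m e := by
  choose! f hf1 hf2 hf3 hf4 using he.left
  choose! f' hf1' hf2' hf3' hf4' using he.right
  have hji : j ≠ i := hij.symm
  let m : V → V := fun x => if v x = i then f x else f' x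
  have hmi : ∀ x, v x = i → m x = f x := fun x hx => if_pos hx
  have hmj : ∀ x, v x = j → m x = f' x := fun x hx => if_neg (by rw [hx]; exact hji)
  have hff : ∀ x ∈ R, v x = i → f' (f x) = x := by
    intro x hx hxi
    by_contra hne
    have h1 := hf4' (f x) (hf1 x hx hxi) (hf2 x hx hxi) x hx hxi (Ne.symm hne)
    rw [he.symm (f x) (hf1 x hx hxi) x hx, hf3 x hx hxi] at h1
    exact one_ne_zero h1
  have hff' : ∀ x ∈ R, v x = j → f (f' x) = x := by
    intro x hx hxi
    by_contra hne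
    have h1 := hf4 (f' x) (hf1' x hx hxi) (hf2' x hx hxi) x hx hxi (Ne.symm hne)
    rw [he.symm (f' x) (hf1' x hx hxi) x hx, hf3' x hx hxi] at h1
    exact one_ne_zero h1
  refine ⟨m, ⟨?_, ?_⟩, ?_⟩
  · intro x hx hxi
    rw [hmi x hxi]
    exact ⟨hf1 x hx hxi, hf2 x hx hxi, by rw [hmj _ (hf2 x hx hxi), hff x hx hxi]⟩
  · intro x hx hxi
    rw [hmj x hxi]
    exact ⟨hf1' x hx hxi, hf2' x hx hxi, by rw [hmi _ (hf2' x hx hxi), hff' x hx hxi]⟩
  · intro x hx y hy hxy
    by_cases h1 : (v x = i ∧ v y = j) ∨ (v x = j ∧ v y = i)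
    · rcases h1 with ⟨h2, h3⟩ | ⟨h2, h3⟩
      · rw [hmi x h2]
        by_cases h4 : y = f x
        · rw [if_pos ⟨Or.inl h2, h4⟩, h4, hf3 x hx h2]
        · rw [if_neg (fun h => h4 h.2), hf4 x hx h2 y hy h3 h4]
      · rw [hmj x h2]
        by_cases h4 : y = f' x
        · rw [if_pos ⟨Or.inr h2, h4⟩, h4, hf3' x hx h2]
        · rw [if_neg (fun h => h4 h.2), hf4' x hx h2 y hy h3 h4]
    · have h5 : e x y = 0 := by
        by_contra h6
        exact h1 (he.supp x hx y hy hxy h6)
      rw [h5, if_neg]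
      rintro ⟨h6 | h6, h7⟩
      · refine h1 (Or.inl ⟨h6, ?_⟩)
        rw [h7, hmi x h6]
        exact hf2 x hx h6
      · refine h1 (Or.inr ⟨h6, ?_⟩)
        rw [h7, hmj x h6]
        exact hf2' x hx h6

/-- The pattern lemma. -/
theorem exists_pattern8 (S : Finset V) (p : V → I)
    (hfib : ∀ b ∈ S, (S.filter fun c => p c = p b).card = 3) (hn : 3 ≤ (S.image p).card)
    (E : Set (V → V → ZMod 2)) (hadd : ∀ e ∈ E, ∀ e' ∈ E, e + e' ∈ E)
    (hmatch : ∀ b ∈ S, ∀ c ∈ S, p b ≠ p c → ∃ e ∈ E, IsMatch7 S p (p b) (p c) e ∧ e b c = 1) :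
    ∃ e ∈ E, ∀ z : V → ZMod 2, (∀ b ∈ S, ∑ c ∈ S.filter (fun c => p c = p b), z c = 0) →
      ∀ ε : ZMod 2, (∀ b ∈ S, ∑ c ∈ S.filter (fun c => p c ≠ p b), e b c * (z b + z c) = ε * z b) →
        ∀ b ∈ S, z b = 0 := by
  have H : AllMatch8 S p E := by
    intro x hx y hy hxy
    obtain ⟨e, he, hm, h1⟩ := hmatch x hx y hy hxy
    obtain ⟨m, hm1, hm2⟩ := exists_match_of_isMatch7 hxy hm
    refine ⟨e, he, m, hm1, hm2, ?_⟩
    have h2 := hm2 x hx y hy hxy
    rw [h1] at h2
    by_contra h3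
    rw [if_neg (fun h => h3 h.2.symm)] at h2
    exact one_ne_zero h2
  obtain ⟨l, hl, hfin⟩ := exists_noEigen hadd hfib H hn
  refine ⟨l, hl, fun z hz ε h b hb => ?_⟩
  refine hfin ε z (fun α => ?_) (fun c hc => ?_) b hb
  · by_cases h1 : ∃ b ∈ S, p b = α
    · obtain ⟨b, hb, rfl⟩ := h1
      exact hz b hb
    · refine Finset.sum_eq_zero fun c hc => ?_
      rw [Finset.mem_filter] at hc
      exact absurd ⟨c, hc⟩ h1
  · rw [← h c hc]
    unfold opT
    exact Finset.sum_congr rfl fun d _ => by rw [add_comm (z d)]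

end

end Pool.Agent.Lib.MP_89bcae_ag

end

section

/-!
# Rédei maps with prescribed weights: the algebra
-/

open Polynomial

open scoped Classical

set_option linter.unusedSimpArgs false
set_option linter.unusedVariables false
set_option linter.unusedSectionVars false

namespace Pool.Agent.Lib.MP_89bcae_ag

section

variable {F : Type*} [Field F]

theorem eval_derivative_prod8 (R : Finset F) {b : F} (hb : b ∈ R) :
    (derivative (∏ c ∈ R, (X - C c))).eval b = ∏ c ∈ R.erase b, (b - c) := by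
  rw [← Finset.mul_prod_erase R _ hb, derivative_mul, eval_add, eval_mul, eval_mul,
    derivative_X_sub_C, eval_one, one_mul, eval_sub, eval_X, eval_C, sub_self, zero_mul, add_zero,
    eval_prod]
  exact Finset.prod_congr rfl fun c _ => by rw [eval_sub, eval_X, eval_C]

variable [IsAlgClosed F]

theorem eq_prod_of_separable8 {P : F[X]} (hP : P.Separable) :
    P = C P.leadingCoeff * ∏ c ∈ P.roots.toFinset, (X - C c) := by
  have h1 : P.roots.Nodup := nodup_roots hP
  have h2 : P.Splits := IsAlgClosed.splits P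
  conv_lhs => rw [h2.eq_prod_roots]
  congr 1
  rw [Finset.prod_eq_multiset_prod, Multiset.toFinset_val, Multiset.dedup_eq_self.mpr h1]

theorem card_roots_of_separable8 {P : F[X]} (hP : P.Separable) :
    P.roots.toFinset.card = P.natDegree := by
  rw [Multiset.toFinset_card_of_nodup (nodup_roots hP),
    (IsAlgClosed.splits P).natDegree_eq_card_roots]

variable {g D : F[X]}

theorem mem_R8 (hsep : (D.comp g).Separable) {b : F} :
    b ∈ (D.comp g).roots.toFinset ↔ D.eval (g.eval b) = 0 := by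
  have hne : D.comp g ≠ 0 := hsep.ne_zero
  rw [Multiset.mem_toFinset, mem_roots hne, IsRoot.def, eval_comp]

theorem sep_fibre8 (hsep : (D.comp g).Separable) {b : F} (hb : b ∈ (D.comp g).roots.toFinset) :
    (g - C (g.eval b)).Separable := by
  have h1 : D.eval (g.eval b) = 0 := (mem_R8 hsep).mp hb
  have h2 : X - C (g.eval b) ∣ D := dvd_iff_isRoot.mpr h1
  obtain ⟨q, hq⟩ := h2
  refine hsep.of_dvd ⟨q.comp g, ?_⟩
  conv_lhs => rw [hq, mul_comp, sub_comp, X_comp, C_comp]

theorem fibre_eq8 (hg : g.Monic) (hdeg : g.natDegree = 3) (hsep : (D.comp g).Separable) {b : F}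
    (hb : b ∈ (D.comp g).roots.toFinset) :
    (D.comp g).roots.toFinset.filter (fun c => g.eval c = g.eval b) =
      (g - C (g.eval b)).roots.toFinset := by
  have h1 : D.eval (g.eval b) = 0 := (mem_R8 hsep).mp hb
  have h2 : g - C (g.eval b) ≠ 0 := (sep_fibre8 hsep hb).ne_zero
  ext c
  rw [Finset.mem_filter, mem_R8 hsep, Multiset.mem_toFinset, mem_roots h2, IsRoot.def, eval_sub,
    eval_C, sub_eq_zero]
  constructor
  · exact fun h => h.2
  · intro h
    exact ⟨by rw [h]; exact h1, h⟩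

theorem card_fibre8 (hg : g.Monic) (hdeg : g.natDegree = 3) (hsep : (D.comp g).Separable) {b : F}
    (hb : b ∈ (D.comp g).roots.toFinset) :
    ((D.comp g).roots.toFinset.filter (fun c => g.eval c = g.eval b)).card = 3 := by
  rw [fibre_eq8 hg hdeg hsep hb, card_roots_of_separable8 (sep_fibre8 hsep hb), natDegree_sub_C,
    hdeg]

theorem card_image8 (hg : g.Monic) (hdeg : g.natDegree = 3) (hsep : (D.comp g).Separable) :
    ((D.comp g).roots.toFinset.image fun c => g.eval c).card = D.natDegree := by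
  have h1 : (D.comp g).roots.toFinset.card = D.natDegree * 3 := by
    rw [card_roots_of_separable8 hsep, natDegree_comp, hdeg]
  have h2 := Finset.card_eq_sum_card_image (fun c => g.eval c) (D.comp g).roots.toFinset
  have h3 : ∀ α ∈ (D.comp g).roots.toFinset.image (fun c => g.eval c),
      ((D.comp g).roots.toFinset.filter (fun c => g.eval c = α)).card = 3 := by
    intro α hα
    obtain ⟨b, hb, rfl⟩ := Finset.mem_image.mp hα
    exact card_fibre8 hg hdeg hsep hb
  rw [Finset.sum_congr rfl h3, Finset.sum_const, h1, smul_eq_mul] at h2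
  omega

/-- The derivative of `D` at `g(b)` is the product of the differences. -/
theorem derivative_eq_prod8 (hg : g.Monic) (hdeg : g.natDegree = 3)
    (hsep : (D.comp g).Separable) {b : F} (hb : b ∈ (D.comp g).roots.toFinset) :
    (derivative D).eval (g.eval b) = D.leadingCoeff *
      ∏ c ∈ (D.comp g).roots.toFinset.filter (fun c => g.eval c ≠ g.eval b), (b - c) := by
  have hlc : (D.comp g).leadingCoeff = D.leadingCoeff := by
    rw [leadingCoeff_comp (by rw [hdeg]; norm_num), hg.leadingCoeff, one_pow, mul_one]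
  have h1 : (derivative (D.comp g)).eval b =
      D.leadingCoeff * ∏ c ∈ (D.comp g).roots.toFinset.erase b, (b - c) := by
    conv_lhs => rw [eq_prod_of_separable8 hsep, derivative_C_mul, eval_C_mul,
      eval_derivative_prod8 _ hb, hlc]
  have h2 : (derivative g).eval b =
      ∏ c ∈ ((D.comp g).roots.toFinset.filter (fun c => g.eval c = g.eval b)).erase b,
        (b - c) := by
    have h3 : derivative g = derivative (g - C (g.eval b)) := by
      rw [derivative_sub, derivative_C, sub_zero]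
    have hb' : b ∈ (g - C (g.eval b)).roots.toFinset := by
      rw [← fibre_eq8 hg hdeg hsep hb, Finset.mem_filter]
      exact ⟨hb, rfl⟩
    have hm : (g - C (g.eval b)).Monic := hg.sub_of_left (by
      refine lt_of_le_of_lt degree_C_le ?_
      rw [degree_eq_natDegree hg.ne_zero, hdeg]
      norm_num)
    rw [h3, eq_prod_of_separable8 (sep_fibre8 hsep hb), hm.leadingCoeff, C_1, one_mul,
      eval_derivative_prod8 _ hb', fibre_eq8 hg hdeg hsep hb]
  have h4 : (derivative (D.comp g)).eval b =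
      (derivative g).eval b * (derivative D).eval (g.eval b) := by
    rw [derivative_comp, eval_mul, eval_comp]
  have h5 : (D.comp g).roots.toFinset.erase b =
      (((D.comp g).roots.toFinset.filter (fun c => g.eval c = g.eval b)).erase b) ∪
        (D.comp g).roots.toFinset.filter (fun c => g.eval c ≠ g.eval b) := by
    ext c
    simp only [Finset.mem_erase, Finset.mem_union, Finset.mem_filter]
    by_cases h : g.eval c = g.eval b
    · simp [h]
    · have h' : c ≠ b := fun h0 => h (by rw [h0])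
      simp [h, h']
  have h6 : Disjoint (((D.comp g).roots.toFinset.filter
      (fun c => g.eval c = g.eval b)).erase b)
        ((D.comp g).roots.toFinset.filter (fun c => g.eval c ≠ g.eval b)) := by
    rw [Finset.disjoint_left]
    intro c hc hc'
    rw [Finset.mem_erase, Finset.mem_filter] at hc
    rw [Finset.mem_filter] at hc'
    exact hc'.2 hc.2.2
  rw [h5, Finset.prod_union h6, ← h2, h4] at h1
  have h7 : (derivative g).eval b ≠ 0 := by
    rw [h2, Finset.prod_ne_zero_iff]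
    intro c hc
    exact sub_ne_zero.mpr (Ne.symm (Finset.mem_erase.mp hc).1)
  apply mul_left_cancel₀ h7
  rw [h1]
  ring

/-- The value of `l` at a product. -/
theorem l_prod8 {K : Subfield F} {l : F → ZMod 2}
    (hmul : ∀ x ∈ K, ∀ y ∈ K, x ≠ 0 → y ≠ 0 → l (x * y) = l x + l y) {ι : Type*}
    (s : Finset ι) (f : ι → F) (hf : ∀ i ∈ s, f i ∈ K ∧ f i ≠ 0) :
    (∏ i ∈ s, f i ∈ K ∧ ∏ i ∈ s, f i ≠ 0) ∧ l (∏ i ∈ s, f i) = ∑ i ∈ s, l (f i) := by
  have h1 : l 1 = 0 := by
    have := hmul 1 K.one_mem 1 K.one_mem one_ne_zero one_ne_zero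
    rw [one_mul] at this
    have h2 : ∀ t : ZMod 2, t = t + t → t = 0 := by decide
    exact h2 _ this
  induction s using Finset.induction_on with
  | empty => simp [h1, K.one_mem]
  | insert a s ha ih =>
    have h2 := ih fun i hi => hf i (Finset.mem_insert_of_mem hi)
    have h3 := hf a (Finset.mem_insert_self a s)
    rw [Finset.prod_insert ha, Finset.sum_insert ha]
    exact ⟨⟨K.mul_mem h3.1 h2.1.1, mul_ne_zero h3.2 h2.1.2⟩, by
      rw [hmul _ h3.1 _ h2.1.1 h3.2 h2.1.2, h2.2]⟩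

/-- The products `PZ` and `PZ1` lie in the field generated by the roots and are not `0`. -/
theorem PZ_mem8 (hg : g.Monic) (hdeg : g.natDegree = 3) (hsep : (D.comp g).Separable)
    (K : Subfield F) (hK : ∀ x ∈ (D.comp g).roots.toFinset, x ∈ K) (hlc : D.leadingCoeff ∈ K)
    {Z : Finset F} (hZ : Z ⊆ (D.comp g).roots.toFinset) {b : F}
    (hb : b ∈ (D.comp g).roots.toFinset) :
    (PZ g D Z b ∈ K ∧ PZ g D Z b ≠ 0) ∧ (PZ1 g D Z b ∈ K ∧ PZ1 g D Z b ≠ 0) := by
  have hD0 : D ≠ 0 := by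
    rintro rfl
    rw [zero_comp] at hsep
    exact not_separable_zero hsep
  have hlc' : D.leadingCoeff ≠ 0 := leadingCoeff_ne_zero.mpr hD0
  have hdiff : ∀ c ∈ (D.comp g).roots.toFinset, b ≠ c → b - c ∈ K ∧ b - c ≠ 0 :=
    fun c hc hbc => ⟨K.sub_mem (hK b hb) (hK c hc), sub_ne_zero.mpr hbc⟩
  have h1 : PZ g D Z b ∈ K ∧ PZ g D Z b ≠ 0 := by
    have h3 : -(derivative D).eval (g.eval b) ∈ K ∧ -(derivative D).eval (g.eval b) ≠ 0 := by
      rw [derivative_eq_prod8 hg hdeg hsep hb]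
      have h4 : ∀ c ∈ (D.comp g).roots.toFinset.filter (fun c => g.eval c ≠ g.eval b),
          b - c ∈ K ∧ b - c ≠ 0 := fun c hc => by
        rw [Finset.mem_filter] at hc
        exact hdiff c hc.1 (fun h => hc.2 (by rw [h]))
      exact ⟨K.neg_mem (K.mul_mem hlc (K.prod_mem fun c hc => (h4 c hc).1)),
        neg_ne_zero.mpr (mul_ne_zero hlc' (Finset.prod_ne_zero_iff.mpr fun c hc =>
          (h4 c hc).2))⟩
    have h4 : ∀ c ∈ Z.filter (fun β => g.eval β ≠ g.eval b), b - c ∈ K ∧ b - c ≠ 0 :=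
      fun c hc => by
        rw [Finset.mem_filter] at hc
        exact hdiff c (hZ hc.1) (fun h => hc.2 (by rw [h]))
    unfold PZ
    refine ⟨K.mul_mem (K.prod_mem fun c hc => (h4 c hc).1) ?_,
      mul_ne_zero (Finset.prod_ne_zero_iff.mpr fun c hc => (h4 c hc).2) ?_⟩
    · split_ifs
      · exact h3.1
      · exact K.one_mem
    · split_ifs
      · exact h3.2
      · exact one_ne_zero
  refine ⟨h1, ?_⟩
  have h4 : ∀ c ∈ (g - C (g.eval b)).roots.toFinset.filter (fun c => c ≠ b ∧ (c ∈ Z ↔ b ∉ Z)),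
      b - c ∈ K ∧ b - c ≠ 0 := fun c hc => by
    rw [Finset.mem_filter, ← fibre_eq8 hg hdeg hsep hb, Finset.mem_filter] at hc
    exact hdiff c hc.1.1 (Ne.symm hc.2.1)
  unfold PZ1
  exact ⟨K.mul_mem h1.1 (K.prod_mem fun c hc => (h4 c hc).1),
    mul_ne_zero h1.2 (Finset.prod_ne_zero_iff.mpr fun c hc => (h4 c hc).2)⟩

/-- **Existence of a Rédei map without eigenvalues**: the set `HH` of functions on `F` is closed
under addition, its members are homomorphisms on the subfield `K`, and for any two roots `x`, `y`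
of `D(g(x))` in different fibres there is an `l` in `HH` whose weights are those of a matching of
the two fibres which matches `x` and `y`. -/
theorem exists_noEigen_of_match8 (hg : g.Monic) (hdeg : g.natDegree = 3)
    (hsep : (D.comp g).Separable) (hn : 3 ≤ D.natDegree) (K : Subfield F)
    (hK : ∀ x ∈ (D.comp g).roots.toFinset, x ∈ K) (hlc : D.leadingCoeff ∈ K)
    (HH : Set (F → ZMod 2)) (hadd : ∀ l ∈ HH, ∀ l' ∈ HH, l + l' ∈ HH)
    (hmul : ∀ l ∈ HH, ∀ x ∈ K, ∀ y ∈ K, x ≠ 0 → y ≠ 0 → l (x * y) = l x + l y)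
    (hneg : ∀ l ∈ HH, l (-1) = 0) (hlc0 : ∀ l ∈ HH, l D.leadingCoeff = 0)
    (hfib : ∀ l ∈ HH, ∀ x ∈ (D.comp g).roots.toFinset, ∀ y ∈ (D.comp g).roots.toFinset, x ≠ y →
      g.eval x = g.eval y → l (x - y) = 0)
    (hmatch : ∀ x ∈ (D.comp g).roots.toFinset, ∀ y ∈ (D.comp g).roots.toFinset,
      g.eval x ≠ g.eval y → ∃ l ∈ HH, IsMatch7 (D.comp g).roots.toFinset (fun b => g.eval b)
        (g.eval x) (g.eval y) (fun b c => l (b - c)) ∧ l (x - y) = 1) :
    ∃ l ∈ HH, NoEigen (fun x => l x = 1) (PZ g D) g D ∧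
      NoEigen (fun x => l x = 1) (PZ1 g D) g D := by
  set S := (D.comp g).roots.toFinset with hS
  obtain ⟨e, ⟨l, hl, rfl⟩, he⟩ := exists_pattern8 S (fun b => g.eval b)
    (fun b hb => card_fibre8 hg hdeg hsep hb) (by rw [hS, card_image8 hg hdeg hsep]; exact hn)
    {e | ∃ l ∈ HH, e = fun b c => l (b - c)}
    (by
      rintro _ ⟨l, hl, rfl⟩ _ ⟨l', hl', rfl⟩
      exact ⟨l + l', hadd l hl l' hl', rfl⟩)
    (fun b hb c hc hbc => by
      obtain ⟨l, hl, h1, h2⟩ := hmatch b hb c hc hbc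
      exact ⟨_, ⟨l, hl, rfl⟩, h1, h2⟩)
  have hmull := hmul l hl
  -- the differences
  have hdiff : ∀ b ∈ S, ∀ c ∈ S, b ≠ c → b - c ∈ K ∧ b - c ≠ 0 := fun b hb c hc hbc =>
    ⟨K.sub_mem (hK b hb) (hK c hc), sub_ne_zero.mpr hbc⟩
  have hlc' : D.leadingCoeff ≠ 0 := by
    rw [Ne, leadingCoeff_eq_zero]
    rintro rfl
    rw [natDegree_zero] at hn
    omega
  -- the derivative
  have hder : ∀ b ∈ S, (-(derivative D).eval (g.eval b) ∈ K ∧
      -(derivative D).eval (g.eval b) ≠ 0) ∧ l (-(derivative D).eval (g.eval b)) =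
        ∑ c ∈ S.filter (fun c => g.eval c ≠ g.eval b), l (b - c) := by
    intro b hb
    obtain ⟨⟨h1, h2⟩, h3⟩ := l_prod8 hmull (S.filter (fun c => g.eval c ≠ g.eval b))
      (fun c => b - c) (fun c hc => by
        rw [Finset.mem_filter] at hc
        exact hdiff b hb c hc.1 (fun h => hc.2 (by rw [h])))
    rw [derivative_eq_prod8 hg hdeg hsep hb, neg_eq_neg_one_mul]
    have h4 : (-1 : F) ∈ K := K.neg_mem K.one_mem
    have h5 : (-1 : F) ≠ 0 := neg_ne_zero.mpr one_ne_zero
    refine ⟨⟨K.mul_mem h4 (K.mul_mem hlc h1), mul_ne_zero h5 (mul_ne_zero hlc' h2)⟩, ?_⟩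
    rw [hmull _ h4 _ (K.mul_mem hlc h1) h5 (mul_ne_zero hlc' h2), hneg l hl, zero_add,
      hmull _ hlc _ h1 hlc' h2, hlc0 l hl, zero_add, h3]
  -- the values of `l` at the products
  have hPZ : ∀ Z ⊆ S, ∀ b ∈ S, (PZ g D Z b ∈ K ∧ PZ g D Z b ≠ 0) ∧ l (PZ g D Z b) =
      ∑ c ∈ S.filter (fun c => g.eval c ≠ g.eval b),
        l (b - c) * ((if b ∈ Z then 1 else 0) + if c ∈ Z then 1 else 0) := by
    intro Z hZ b hb
    obtain ⟨⟨h1, h2⟩, h3⟩ := l_prod8 hmull (Z.filter (fun β => g.eval β ≠ g.eval b))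
      (fun c => b - c) (fun c hc => by
        rw [Finset.mem_filter] at hc
        exact hdiff b hb c (hZ hc.1) (fun h => hc.2 (by rw [h])))
    have h4 : ∑ c ∈ Z.filter (fun β => g.eval β ≠ g.eval b), l (b - c) =
        ∑ c ∈ S.filter (fun c => g.eval c ≠ g.eval b), l (b - c) * if c ∈ Z then 1 else 0 := by
      have h5 : Z.filter (fun β => g.eval β ≠ g.eval b) =
          (S.filter (fun c => g.eval c ≠ g.eval b)).filter (fun c => c ∈ Z) := by
        ext c
        simp only [Finset.mem_filter]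
        exact ⟨fun h => ⟨⟨hZ h.1, h.2⟩, h.1⟩, fun h => ⟨h.2, h.1.2⟩⟩
      rw [h5, Finset.sum_filter]
      refine Finset.sum_congr rfl fun c _ => ?_
      split_ifs <;> simp
    unfold PZ
    by_cases hbZ : b ∈ Z
    · obtain ⟨⟨h6, h7⟩, h8⟩ := hder b hb
      rw [if_pos hbZ]
      refine ⟨⟨K.mul_mem h1 h6, mul_ne_zero h2 h7⟩, ?_⟩
      rw [hmull _ h1 _ h6 h2 h7, h3, h4, h8, ← Finset.sum_add_distrib]
      refine Finset.sum_congr rfl fun c _ => ?_
      rw [if_pos hbZ]
      ring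
    · rw [if_neg hbZ, mul_one]
      refine ⟨⟨h1, h2⟩, ?_⟩
      rw [h3, h4]
      refine Finset.sum_congr rfl fun c _ => ?_
      rw [if_neg hbZ, zero_add]
  have hPZ1 : ∀ Z ⊆ S, ∀ b ∈ S, l (PZ1 g D Z b) = l (PZ g D Z b) := by
    intro Z hZ b hb
    have hsub : ∀ c, c ∈ (g - C (g.eval b)).roots.toFinset → c ∈ S ∧ g.eval c = g.eval b := by
      intro c hc
      rw [← fibre_eq8 hg hdeg hsep hb, Finset.mem_filter] at hc
      exact hc
    obtain ⟨⟨h1, h2⟩, h3⟩ := l_prod8 hmull ((g - C (g.eval b)).roots.toFinset.filter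
      (fun c => c ≠ b ∧ (c ∈ Z ↔ b ∉ Z))) (fun c => b - c) (fun c hc => by
        rw [Finset.mem_filter] at hc
        exact hdiff b hb c (hsub c hc.1).1 (Ne.symm hc.2.1))
    obtain ⟨⟨h4, h5⟩, _⟩ := hPZ Z hZ b hb
    unfold PZ1
    rw [hmull _ h4 _ h1 h5 h2, h3, Finset.sum_eq_zero, add_zero]
    intro c hc
    rw [Finset.mem_filter] at hc
    exact hfib l hl b hb c (hsub c hc.1).1 (Ne.symm hc.2.1) (hsub c hc.1).2.symm
  -- the conclusion
  have key : ∀ P : Finset F → F → F, (∀ Z ⊆ S, ∀ b ∈ S, l (P Z b) = l (PZ g D Z b)) →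
      NoEigen (fun x => l x = 1) P g D := by
    intro P hP Z hZ hev hne
    have hz : ∀ b ∈ S, ∑ c ∈ S.filter (fun c => g.eval c = g.eval b),
        (if c ∈ Z then (1 : ZMod 2) else 0) = 0 := by
      intro b _
      rw [Finset.sum_ite, Finset.sum_const_zero, add_zero, Finset.sum_const, nsmul_eq_mul,
        mul_one, Finset.filter_filter]
      have h1 : S.filter (fun c => g.eval c = g.eval b ∧ c ∈ Z) =
          Z.filter (fun c => g.eval c = g.eval b) := by
        ext c
        simp only [Finset.mem_filter]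
        exact ⟨fun h => ⟨h.2.2, h.2.1⟩, fun h => ⟨hZ h.1, h.2, h.1⟩⟩
      rw [h1]
      exact (ZMod.natCast_eq_zero_iff_even).mpr (hev (g.eval b))
    have hT := he (fun c => if c ∈ Z then 1 else 0) hz
    have hval : ∀ Z' : Finset F, redei (fun x => l x = 1) P (D.comp g) Z = Z' → Z' ⊆ S →
        ∀ b ∈ S, ∑ c ∈ S.filter (fun c => g.eval c ≠ g.eval b),
          l (b - c) * ((if b ∈ Z then 1 else 0) + if c ∈ Z then 1 else 0) =
            if b ∈ Z' then 1 else 0 := by
      intro Z' hZ' _ b hb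
      rw [← (hPZ Z hZ b hb).2, ← hP Z hZ b hb, ← hZ']
      have h1 : b ∈ redei (fun x => l x = 1) P (D.comp g) Z ↔ l (P Z b) = 1 := by
        have h5 : ∀ N : F → Prop, b ∈ redei N P (D.comp g) Z ↔ N (P Z b) := by
          intro N
          unfold redei
          rw [Finset.mem_filter]
          exact ⟨fun h => h.2, fun h => ⟨hb, h⟩⟩
        exact h5 _
      by_cases h2 : l (P Z b) = 1
      · rw [if_pos (h1.mpr h2), h2]
      · rw [if_neg (fun h => h2 (h1.mp h))]
        have h3 : ∀ t : ZMod 2, t ≠ 1 → t = 0 := by decide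
        exact h3 _ h2
    obtain ⟨b0, hb0⟩ := hne
    constructor
    · intro h0
      have h1 := hT 0 (fun b hb => by
        rw [zero_mul]
        have h2 := hval ∅ h0 (Finset.empty_subset _) b hb
        rw [if_neg (Finset.notMem_empty b)] at h2
        exact h2) b0 (hZ hb0)
      simp only [if_pos hb0] at h1
      exact one_ne_zero h1
    · intro h0
      have h1 := hT 1 (fun b hb => by
        rw [one_mul]
        exact hval Z h0 hZ b hb) b0 (hZ hb0)
      simp only [if_pos hb0] at h1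
      exact one_ne_zero h1
  exact ⟨l, hl, key _ fun Z _ b _ => rfl, key _ hPZ1⟩

end

end Pool.Agent.Lib.MP_89bcae_ag

end

section

open Polynomial WithZero

open scoped Classical

set_option linter.unusedSimpArgs false
set_option linter.unusedVariables false
set_option linter.unusedSectionVars false
set_option linter.style.haveILetI false

namespace Pool.Agent.Lib.MP_89bcae_ag.Sup

universe u

theorem exists_mOrd (R k F : Type u) [CommRing R]
    [IsDomain R] [IsDiscreteValuationRing R] [Field k] [Algebra R k] [IsFractionRing R k]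
    [Field F] [Algebra k F] [IsAlgClosure k F] (h2 : IsUnit (2 : R)) {g D : R[X]} (hg : g.Monic)
    (hgdeg : g.natDegree ≠ 0)
    (hlc : IsUnit D.leadingCoeff) (hcol : IsCollision7 g D)
    (hsep : ((D.comp g).map (algebraMap R k)).Separable)
    (htr : IsPairTransitive7 k F (g.map (algebraMap R k)) (D.map (algebraMap R k)))
    (S : Finset F) (hS : ∀ b, b ∈ S ↔
      aeval (aeval b (g.map (algebraMap R k))) (D.map (algebraMap R k)) = 0) {α α' : F}
    (hα : aeval α (D.map (algebraMap R k)) = 0) (hα' : aeval α' (D.map (algebraMap R k)) = 0)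
    (hne : α ≠ α') :
    ∃ (M : F → F) (o : F → ℤ), MOrd (IntermediateField.adjoin k (S : Set F)).toSubfield S
      (fun b => aeval b (g.map (algebraMap R k))) α α' M o := by
  have hF : IsAlgClosed F := IsAlgClosure.isAlgClosed k
  have hkF : Algebra.IsAlgebraic k F := IsAlgClosure.isAlgebraic
  letI : Algebra R F := ((algebraMap k F).comp (algebraMap R k)).toAlgebra
  haveI : IsScalarTower R k F := IsScalarTower.of_algebraMap_eq fun _ => rfl
  have hinjk : Function.Injective (algebraMap R k) := IsFractionRing.injective R k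
  have hinjF : Function.Injective (algebraMap R F) := (algebraMap k F).injective.comp hinjk
  have hmapF : ∀ p : R[X], (p.map (algebraMap R k)).map (algebraMap k F) =
      p.map (algebraMap R F) := fun p => by rw [Polynomial.map_map]; rfl
  have hlcF : algebraMap R F D.leadingCoeff ≠ 0 := (hlc.map (algebraMap R F)).ne_zero
  have hlcF' : (D.map (algebraMap R F)).leadingCoeff = algebraMap R F D.leadingCoeff :=
    leadingCoeff_map_of_injective hinjF D
  have hcompF : (D.map (algebraMap R F)).comp (g.map (algebraMap R F)) =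
      ((D.comp g).map (algebraMap R k)).map (algebraMap k F) := by
    rw [hmapF, Polynomial.map_comp]
  have hsepF : ((D.map (algebraMap R F)).comp (g.map (algebraMap R F))).Separable := by
    rw [hcompF]; exact hsep.map
  have hgF : (g.map (algebraMap R F)).natDegree = g.natDegree := hg.natDegree_map _
  have hsepD : (D.map (algebraMap R F)).Separable := separable_left7 (by rw [hgF]; exact hgdeg) hsepF
  set gF := g.map (algebraMap R F) with hgFdef
  set DF := D.map (algebraMap R F) with hDFdef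
  set A : Finset F := DF.roots.toFinset with hA
  have hev0 : ∀ b : F, aeval b (g.map (algebraMap R k)) = gF.eval b := by
    intro b
    rw [← eval_map_algebraMap, hmapF]
  have hevD : ∀ b : F, aeval b (D.map (algebraMap R k)) = DF.eval b := by
    intro b
    rw [← eval_map_algebraMap, hmapF]
  have hmemS : ∀ b, b ∈ S ↔ DF.eval (gF.eval b) = 0 := by
    intro b
    rw [hS, hev0, hevD]
  have hSeq : S = (DF.comp gF).roots.toFinset := by
    ext b
    rw [hmemS, Multiset.mem_toFinset, mem_roots hsepF.ne_zero, IsRoot.def, eval_comp]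
  have hmemA : ∀ α, α ∈ A ↔ DF.eval α = 0 := by
    intro α
    rw [hA, Multiset.mem_toFinset, mem_roots hsepD.ne_zero, IsRoot.def]
  have hSA : ∀ b ∈ S, gF.eval b ∈ A := fun b hb => (hmemA _).mpr ((hmemS b).mp hb)
  have hDA : DF = C (algebraMap R F D.leadingCoeff) * ∏ α ∈ A, (X - C α) := by
    rw [← hlcF']
    exact eq_prod_roots7 hsepD
  have hdvd : ∀ α ∈ A, (gF - C α) ∣ DF.comp gF := by
    intro α hα
    obtain ⟨w, hw⟩ := dvd_iff_isRoot.mpr ((hmemA α).mp hα)
    refine ⟨w.comp gF, ?_⟩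
    rw [hw, mul_comp, sub_comp, X_comp, C_comp]
  have hmon : ∀ α, (gF - C α).Monic := by
    intro α
    have h5 : (C α).degree < gF.degree := by
      rw [degree_eq_natDegree (p := gF) (hg.map _).ne_zero, hgF]
      refine (degree_C_le).trans_lt ?_
      exact_mod_cast Nat.pos_of_ne_zero hgdeg
    exact (hg.map _).sub_of_left h5
  have hroots : ∀ α ∈ A, (gF - C α).roots.toFinset = S.filter (fun b => gF.eval b = α) := by
    intro α hα
    ext b
    rw [Finset.mem_filter, Multiset.mem_toFinset, mem_roots (hmon α).ne_zero, IsRoot.def, eval_sub,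
      eval_C, sub_eq_zero, hmemS]
    constructor
    · exact fun h => ⟨by rw [h]; exact (hmemA α).mp hα, h⟩
    · exact fun h => h.2
  have hgS : ∀ α ∈ A, gF - C α = ∏ b ∈ S.filter (fun b => gF.eval b = α), (X - C b) := by
    intro α hα
    have h3 := eq_prod_roots7 (hsepF.of_dvd (hdvd α hα))
    rw [(hmon α).leadingCoeff, C_1, one_mul, hroots α hα] at h3
    exact h3
  have hcardS : ∀ α ∈ A, (S.filter (fun b => gF.eval b = α)).card = g.natDegree := by
    intro α hα
    rw [← hroots α hα, card_roots_of_separable8 (hsepF.of_dvd (hdvd α hα)), natDegree_sub_C, hgF]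
  have hAS : ∀ α ∈ A, ∃ b ∈ S, gF.eval b = α := by
    intro α hα
    have h1 : (S.filter (fun b => gF.eval b = α)).Nonempty := by
      rw [← Finset.card_pos, hcardS α hα]
      exact Nat.pos_of_ne_zero hgdeg
    obtain ⟨b, hb⟩ := h1
    exact ⟨b, (Finset.mem_filter.mp hb).1, (Finset.mem_filter.mp hb).2⟩
  have hSroot : (S : Set F) = ((D.comp g).map (algebraMap R k)).rootSet F := by
    rw [rootSet, hSeq, hcompF, aroots]
  obtain ⟨hfin, hgal⟩ := galois7 (F := F) hsep
  obtain ⟨K, hK⟩ : ∃ K, K = IntermediateField.adjoin k (S : Set F) := ⟨_, rfl⟩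
  haveI : FiniteDimensional k K := by rw [hK, hSroot]; exact hfin
  haveI : IsGalois k K := by rw [hK, hSroot]; exact hgal
  obtain ⟨w, hw1, hw2, hw3, α₁, hα₁, α₂, hα₂, h12, hw4, hw5⟩ := exists_ord7 (R := R) (k := k)
    (F := F) h2 hgdeg hg hlc S A hDA hgS hSA hAS K hK hcol
  have hSK : ∀ b ∈ S, b ∈ K := by
    intro b hb
    rw [hK]
    exact IntermediateField.subset_adjoin _ _ hb
  have hev : ∀ b : F, aeval b (g.map (algebraMap R k)) = gF.eval b := by
    intro b
    rw [← eval_map_algebraMap, hmapF]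
  -- the sums of the orders over the fibres
  let o : F → ℤ := fun x => - ordF7 w x
  have ho0 : ∀ b ∈ S, ∀ c ∈ S, 0 ≤ o (b - c) := fun b hb c hc => by
    have := hw2 b hb c hc
    show 0 ≤ - ordF7 w (b - c)
    omega
  have hsum : ∀ b ∈ S, ∀ α ∈ A, gF.eval b ≠ α →
      ∑ c ∈ S.filter (fun c => gF.eval c = α), o (b - c) = - ordF7 w (gF.eval b - α) := by
    intro b hb α hα hne
    have h3 := congrArg (eval b) (hgS α hα)
    rw [eval_sub, eval_C, eval_prod] at h3
    rw [h3, Finset.prod_congr rfl fun c _ => by rw [eval_sub, eval_X, eval_C],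
      ordF7_prod w _ _ (fun c hc => K.sub_mem (hSK b hb) (hSK c (Finset.mem_filter.mp hc).1))
        (fun c hc => sub_ne_zero.mpr fun h0 => hne (by
          rw [h0]; exact (Finset.mem_filter.mp hc).2)), ← Finset.sum_neg_distrib]
  -- zero outside of the two fibres
  have hzero : ∀ b ∈ S, ∀ α ∈ A, gF.eval b ≠ α → ¬ (gF.eval b = α₁ ∧ α = α₂) →
      ¬ (gF.eval b = α₂ ∧ α = α₁) → ∀ c ∈ S, gF.eval c = α → o (b - c) = 0 := by
    intro b hb α hα hne h1 h3 c hc hcα
    have h4 := hsum b hb α hα hne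
    rw [hw5 _ (hSA b hb) α hα hne h1 h3, neg_zero] at h4
    exact (Finset.sum_eq_zero_iff_of_nonneg (fun c hc =>
      ho0 b hb c (Finset.mem_filter.mp hc).1)).mp h4 c (Finset.mem_filter.mpr ⟨hc, hcα⟩)
  -- one partner in the two fibres
  have hone : ∀ b ∈ S, ∀ α ∈ A, gF.eval b ≠ α → ordF7 w (gF.eval b - α) = -1 →
      ∀ c ∈ S, gF.eval c = α → o (b - c) ≠ 0 → ∀ c' ∈ S, gF.eval c' = α →
        o (b - c') = if c' = c then 1 else 0 := by
    intro b hb α hα hne h1 c hc hcα hc0 c' hc' hcα'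
    have h4 := hsum b hb α hα hne
    rw [h1, neg_neg] at h4
    have hmem : c ∈ S.filter (fun c => gF.eval c = α) := Finset.mem_filter.mpr ⟨hc, hcα⟩
    rw [← Finset.add_sum_erase _ _ hmem] at h4
    have h5 : 0 ≤ ∑ x ∈ (S.filter (fun c => gF.eval c = α)).erase c, o (b - x) :=
      Finset.sum_nonneg fun x hx => ho0 b hb x
        (Finset.mem_filter.mp (Finset.mem_of_mem_erase hx)).1
    have h6 := ho0 b hb c hc
    have h7 : o (b - c) = 1 := by omega
    have h8 : ∑ x ∈ (S.filter (fun c => gF.eval c = α)).erase c, o (b - x) = 0 := by omega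
    by_cases hcc : c' = c
    · rw [if_pos hcc, hcc, h7]
    · rw [if_neg hcc]
      exact (Finset.sum_eq_zero_iff_of_nonneg (fun x hx =>
        ho0 b hb x (Finset.mem_filter.mp (Finset.mem_of_mem_erase hx)).1)).mp h8 c'
        (Finset.mem_erase.mpr ⟨hcc, Finset.mem_filter.mpr ⟨hc', hcα'⟩⟩)
  have hsymm : ∀ x y : F, o (x - y) = o (y - x) := fun x y => by
    show - ordF7 w (x - y) = - ordF7 w (y - x)
    rw [ordF7_sub_comm]
  have hpart : ∀ b, ∃ c, b ∈ S → gF.eval b = α₁ → c ∈ S ∧ gF.eval c = α₂ ∧ o (b - c) ≠ 0 := by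
    intro b
    by_cases hb : b ∈ S ∧ gF.eval b = α₁
    · have hbα : gF.eval b ≠ α₂ := by rw [hb.2]; exact h12
      by_contra hcon
      push Not at hcon
      have h4 := hsum b hb.1 α₂ hα₂ hbα
      rw [Finset.sum_eq_zero fun c hc => ?_, hb.2, hw4] at h4
      · omega
      · by_contra h5
        have h6 := hcon c
        exact h5 (h6.2.2 (Finset.mem_filter.mp hc).1 (Finset.mem_filter.mp hc).2)
    · exact ⟨b, fun h1 h3 => absurd ⟨h1, h3⟩ hb⟩
  choose M₀ hM₀ using hpart
  have hleft : ∀ β ∈ S, gF.eval β = α₁ → ∀ β' ∈ S, gF.eval β' = α₂ →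
      o (β - β') = if β' = M₀ β then 1 else 0 := by
    intro β hβ h1 β' hβ' h3
    obtain ⟨q1, q2, q3⟩ := hM₀ β hβ h1
    exact hone β hβ α₂ hα₂ (by rw [h1]; exact h12) (by rw [h1]; exact hw4) (M₀ β) q1 q2 q3 β' hβ' h3
  have hbase : MOrd K.toSubfield S (fun b => gF.eval b) α₁ α₂ M₀ o := by
    refine ⟨fun a ha b hb ha0 hb0 => ?_, fun β hβ β' hβ' h1 h3 => ?_,
      fun β hβ β' hβ' h1 h3 h4 => ?_, fun β hβ h1 => ?_, fun β hβ β' hβ' h1 h3 h4 => ?_,
      fun β' hβ' h1 => ?_, hleft⟩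
    · show - ordF7 w (a * b) = - ordF7 w a + - ordF7 w b
      rw [ordF7_mul w ha hb ha0 hb0]
      ring
    · show - ordF7 w (β - β') = 0
      rw [hw3 β hβ β' hβ' h1 h3, neg_zero]
    · exact hzero β hβ _ (hSA β' hβ') h1 h3 h4 β' hβ' rfl
    · exact ⟨(hM₀ β hβ h1).1, (hM₀ β hβ h1).2.1⟩
    · obtain ⟨q1, q2, q3⟩ := hM₀ β hβ h1
      obtain ⟨r1, r2, r3⟩ := hM₀ β' hβ' h3
      rw [← h4] at r3
      rw [hsymm] at q3 r3
      have h5 := hone (M₀ β) q1 α₁ hα₁ (by rw [q2]; exact h12.symm)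
        (by rw [q2, ordF7_sub_comm]; exact hw4) β hβ h1 q3 β' hβ' h3
      by_contra hcon
      rw [if_neg (fun h => hcon h.symm)] at h5
      exact r3 h5
    · have hbα : gF.eval β' ≠ α₁ := by
        rw [show gF.eval β' = α₂ from h1]
        exact h12.symm
      obtain ⟨β, hβ, hβ1, hβ2⟩ : ∃ β ∈ S, gF.eval β = α₁ ∧ o (β' - β) ≠ 0 := by
        by_contra hcon
        push Not at hcon
        have h4 := hsum β' hβ' α₁ hα₁ hbα
        rw [Finset.sum_eq_zero fun c hc => hcon c (Finset.mem_filter.mp hc).1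
          (Finset.mem_filter.mp hc).2, show gF.eval β' = α₂ from h1, ordF7_sub_comm, hw4] at h4
        omega
      refine ⟨β, hβ, hβ1, ?_⟩
      have h5 := hleft β hβ hβ1 β' hβ' h1
      by_contra hcon
      rw [if_neg (fun h => hcon h.symm), hsymm] at h5
      exact hβ2 h5
  -- the Galois conjugates
  have hmemS' : ∀ b, b ∈ S ↔ aeval b ((D.map (algebraMap R k)).comp
      (g.map (algebraMap R k))) = 0 := by
    intro b
    rw [hmemS, aeval_comp, ← eval_map_algebraMap, hmapF, hev]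
  have hσS : ∀ (σ : F ≃ₐ[k] F), ∀ x ∈ S, σ x ∈ S := by
    intro σ x hx
    rw [hmemS'] at hx ⊢
    rw [Polynomial.aeval_algHom_apply, hx, map_zero]
  have hσK : ∀ (σ : F ≃ₐ[k] F), ∀ x ∈ K, σ x ∈ K := by
    intro σ x hx
    rw [hK] at hx ⊢
    refine IntermediateField.adjoin_induction k (p := fun x _ =>
      σ x ∈ IntermediateField.adjoin k (S : Set F)) ?_ ?_ ?_ ?_ ?_ hx
    · intro y hy
      exact IntermediateField.subset_adjoin k _ (hσS σ y hy)
    · intro y
      rw [AlgEquiv.commutes]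
      exact IntermediateField.algebraMap_mem _ y
    · intro y z _ _ hy hz
      rw [map_add]; exact add_mem hy hz
    · intro y _ hy
      rw [map_inv₀]; exact inv_mem hy
    · intro y z _ _ hy hz
      rw [map_mul]; exact mul_mem hy hz
  have hσg : ∀ (σ : F ≃ₐ[k] F) (x : F), gF.eval (σ x) = σ (gF.eval x) := fun σ x => by
    rw [← hev, ← hev]
    exact Polynomial.aeval_algHom_apply (σ : F →ₐ[k] F) x _
  -- the pair of roots
  have hαA : α ∈ A := (hmemA α).mpr (by rw [← hevD]; exact hα)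
  have hαA' : α' ∈ A := (hmemA α').mpr (by rw [← hevD]; exact hα')
  obtain ⟨x, hx, hgx⟩ := hAS α hαA
  obtain ⟨y, hy, hgy⟩ := hAS α' hαA'
  obtain ⟨b₀, hb₀, hgb₀⟩ := hAS α₁ hα₁
  obtain ⟨c₀, hc₀, hgc₀⟩ := hAS α₂ hα₂
  obtain ⟨σ, hσ1, hσ2⟩ := htr x y b₀ c₀ ((hmemS' x).mp hx) ((hmemS' y).mp hy)
      ((hmemS' b₀).mp hb₀) ((hmemS' c₀).mp hc₀) (by rw [hev, hev, hgx, hgy]; exact hne) (by
        rw [hev, hev, hgb₀, hgc₀]; exact h12)
  have hσα : σ α = α₁ := by rw [← hgx, ← hσg, hσ1, hgb₀]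
  have hσα' : σ α' = α₂ := by rw [← hgy, ← hσg, hσ2, hgc₀]
  have k1 : ∀ z, gF.eval (σ z) = α₁ ↔ aeval z (g.map (algebraMap R k)) = α := by
    intro z
    rw [hσg, hev, ← hσα]
    exact σ.injective.eq_iff
  have k2 : ∀ z, gF.eval (σ z) = α₂ ↔ aeval z (g.map (algebraMap R k)) = α' := by
    intro z
    rw [hσg, hev, ← hσα']
    exact σ.injective.eq_iff
  have k3 : ∀ z z', gF.eval (σ z) = gF.eval (σ z') ↔
      aeval z (g.map (algebraMap R k)) = aeval z' (g.map (algebraMap R k)) := by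
    intro z z'
    rw [hσg, hσg, hev, hev]
    exact σ.injective.eq_iff
  have k4 : ∀ z, σ (σ.symm z) = z := fun z => σ.apply_symm_apply z
  refine ⟨fun z => σ.symm (M₀ (σ z)), fun z => o (σ z), ?_⟩
  rw [← hK]
  refine ⟨fun a ha b hb ha0 hb0 => ?_, fun β hβ β' hβ' h1 h3 => ?_,
      fun β hβ β' hβ' h1 h3 h4 => ?_, fun β hβ h1 => ?_, fun β hβ β' hβ' h1 h3 h4 => ?_,
      fun β' hβ' h1 => ?_, fun β hβ h1 β' hβ' h3 => ?_⟩
  · show o (σ (a * b)) = o (σ a) + o (σ b)
    rw [map_mul]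
    exact hbase.mul _ (hσK σ a ha) _ (hσK σ b hb) ((_root_.map_ne_zero σ).mpr ha0)
      ((_root_.map_ne_zero σ).mpr hb0)
  · show o (σ (β - β')) = 0
    rw [map_sub]
    exact hbase.same _ (hσS σ β hβ) _ (hσS σ β' hβ') (fun h => h1 (σ.injective h))
      ((k3 β β').mpr h3)
  · show o (σ (β - β')) = 0
    rw [map_sub]
    exact hbase.out _ (hσS σ β hβ) _ (hσS σ β' hβ') (fun h => h1 ((k3 β β').mp h))
      (fun h => h3 ⟨(k1 β).mp h.1, (k2 β').mp h.2⟩) (fun h => h4 ⟨(k2 β).mp h.1, (k1 β').mp h.2⟩)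
  · obtain ⟨q1, q2⟩ := hbase.mem _ (hσS σ β hβ) ((k1 β).mpr h1)
    refine ⟨hσS σ.symm _ q1, (k2 _).mp ?_⟩
    rw [k4]
    exact q2
  · have h5 : M₀ (σ β) = M₀ (σ β') := σ.symm.injective h4
    exact σ.injective (hbase.inj _ (hσS σ β hβ) _ (hσS σ β' hβ') ((k1 β).mpr h1)
      ((k1 β').mpr h3) h5)
  · obtain ⟨β, hβ, hβ1, hβ2⟩ := hbase.surj _ (hσS σ β' hβ') ((k2 β').mpr h1)
    refine ⟨σ.symm β, hσS σ.symm _ hβ, (k1 _).mp (by rw [k4]; exact hβ1), ?_⟩
    show σ.symm (M₀ (σ (σ.symm β))) = β'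
    rw [k4, hβ2]
    exact σ.symm_apply_apply β'
  · show o (σ (β - β')) = _
    rw [map_sub, hbase.left _ (hσS σ β hβ) ((k1 β).mpr h1) _ (hσS σ β' hβ') ((k2 β').mpr h3)]
    refine if_congr ⟨fun h => ?_, fun h => ?_⟩ rfl rfl
    · rw [← h]
      exact (σ.symm_apply_apply β').symm
    · rw [h]
      exact k4 _

end Pool.Agent.Lib.MP_89bcae_ag.Sup

end
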