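import Mathlib
import Pool.Agent.Lib.MP_89bcae_ag.Q.K038

open Polynomial IsDedekindDomain

open scoped Classical

set_option linter.unusedSectionVars false

namespace Pool.Agent.Lib.MP_89bcae_ag.Sup

universe u

/-- local triviality on the subgroup `N`, for an arbitrary polynomial -/
def ta04_LT {ℓ : ℕ} {L Ω : Type u} [Field L] [Field Ω] [Algebra L Ω] (N : Subgroup (Ω ≃ₐ[L] Ω))
    (f : L[X]) (c : (Ω ≃ₐ[L] Ω) → JacOver ℓ f Ω) (Lv : Type u) [Field Lv] [Algebra L Lv] : Prop :=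
  ∀ (M : Type u) [Field M] [Algebra Lv M] [IsAlgClosure Lv M] [Algebra L M]
    [IsScalarTower L Lv M] (j : Ω →ₐ[L] M), ∃ Q : JacOver ℓ f M,
      ∀ (σ : M ≃ₐ[Lv] M) (σ' : Ω ≃ₐ[L] Ω), σ' ∈ N → (∀ x, j (σ' x) = σ (j x)) →
        push ℓ f j (c σ') = push ℓ f (σ.restrictScalars L : M →ₐ[L] M) Q - Q

private lemma ta04_jacMap_congr (ℓ : ℕ) {A B : Type u} [Field A] [Field B] {σ τ : A →+* B}
    (hst : σ = τ) {f : A[X]} {f' : B[X]} (h : f.map σ = f') (h' : f.map τ = f') (Q : Jac ℓ f) :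
    jacMap ℓ σ h Q = jacMap ℓ τ h' Q := by
  subst hst
  rfl

private lemma ta04_exists_conj {L Ω : Type u} [Field L] [Field Ω] [Algebra L Ω]
    (s : L ≃+* L) (γ : Ω ≃+* Ω)
    (hγ : ∀ x : L, γ (algebraMap L Ω x) = algebraMap L Ω (s x)) (h : Ω ≃ₐ[L] Ω) :
    ∃ g : Ω ≃ₐ[L] Ω, ∀ x, γ (g x) = h (γ x) := by
  refine ⟨AlgEquiv.ofRingEquiv (f := (γ.trans h.toRingEquiv).trans γ.symm) ?_, ?_⟩
  · intro y
    change γ.symm (h (γ (algebraMap L Ω y))) = algebraMap L Ω y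
    rw [hγ, h.commutes, ← hγ, RingEquiv.symm_apply_apply]
  · intro x
    change γ (γ.symm (h (γ x))) = h (γ x)
    rw [RingEquiv.apply_symm_apply]

private lemma ta04_aux {ℓ : ℕ} {L Ω : Type u} [Field L] [Field Ω] [Algebra L Ω] {f : L[X]}
    {c c' : (Ω ≃ₐ[L] Ω) → JacOver ℓ f Ω} (N : Subgroup (Ω ≃ₐ[L] Ω))
    {Lv Lv' : Type u} [Field Lv] [Algebra L Lv] [Field Lv'] [Algebra L Lv'] (s : L ≃+* L)
    (hs : f.map (s : L →+* L) = f) (φ : Lv ≃+* Lv')
    (γ : Ω ≃+* Ω) (hγf : (f.map (algebraMap L Ω)).map (γ : Ω →+* Ω) = f.map (algebraMap L Ω))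
    (hγ : ∀ x : L, γ (algebraMap L Ω x) = algebraMap L Ω (s x))
    (hcc' : ∀ σ σ' : Ω ≃ₐ[L] Ω, (∀ x, γ (σ' x) = σ (γ x)) →
      c' σ = jacMap ℓ (γ : Ω →+* Ω) hγf (c σ'))
    (hN : ∀ σ σ' : Ω ≃ₐ[L] Ω, (∀ x, γ (σ' x) = σ (γ x)) → σ ∈ N → σ' ∈ N)
    (h : ta04_LT N f c Lv)
    {M : Type u} [Field M] [Algebra Lv' M] [Algebra L M] [IsScalarTower L Lv' M]
    {M' : Type u} [Field M'] [Algebra Lv M'] [IsAlgClosure Lv M'] [Algebra L M']
    [IsScalarTower L Lv M'] (e : M' ≃+* M)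
    (he : ∀ x : Lv, e (algebraMap Lv M' x) = algebraMap Lv' M (φ x))
    (he' : ∀ x : L, e (algebraMap L M' x) = algebraMap L M (s x))
    (j : Ω →ₐ[L] M) :
    ∃ Q : JacOver ℓ f M,
      ∀ (g : M ≃ₐ[Lv'] M) (g' : Ω ≃ₐ[L] Ω), g' ∈ N → (∀ x, j (g' x) = g (j x)) →
        push ℓ f j (c' g') = push ℓ f (g.restrictScalars L : M →ₐ[L] M) Q - Q := by
  have hef : (f.map (algebraMap L M')).map (e : M' →+* M) = f.map (algebraMap L M) := by
    have h1 : (e : M' →+* M).comp (algebraMap L M') = (algebraMap L M).comp (s : L →+* L) :=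
      RingHom.ext fun x => he' x
    rw [Polynomial.map_map, h1, ← Polynomial.map_map, hs]
  -- the embedding of `Ω` in `M'`
  let j' : Ω →ₐ[L] M' :=
    { toRingHom := (e.symm : M →+* M').comp ((j : Ω →+* M).comp (γ : Ω →+* Ω))
      commutes' := fun x => by
        change e.symm (j (γ (algebraMap L Ω x))) = algebraMap L M' x
        rw [hγ, j.commutes, ← he', RingEquiv.symm_apply_apply] }
  have hj' : ∀ x, e (j' x) = j (γ x) := fun x => by
    change e (e.symm (j (γ x))) = _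
    rw [RingEquiv.apply_symm_apply]
  obtain ⟨Q₀, hQ₀⟩ := h M' j'
  refine ⟨jacMap ℓ (e : M' →+* M) hef Q₀, fun g g' hgN hg => ?_⟩
  -- the conjugates of `g` and `g'`
  let s₀ : M' ≃ₐ[Lv] M' := AlgEquiv.ofRingEquiv (f := (e.trans g.toRingEquiv).trans e.symm) (by
    intro y
    change e.symm (g (e (algebraMap Lv M' y))) = algebraMap Lv M' y
    rw [he, g.commutes, ← he, RingEquiv.symm_apply_apply])
  have hs₀ : ∀ x, e (s₀ x) = g (e x) := fun x => by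
    change e (e.symm (g (e x))) = _
    rw [RingEquiv.apply_symm_apply]
  obtain ⟨s', hs'⟩ := ta04_exists_conj s γ hγ g'
  have hss : ∀ x, j' (s' x) = s₀ (j' x) := by
    intro x
    apply e.injective
    rw [hj', hs', hg, hs₀, hj']
  have h1 := hQ₀ s₀ s' (hN g' s' hs' hgN) hss
  have hc1 : ((j : Ω →+* M).comp (γ : Ω →+* Ω)) = (e : M' →+* M).comp (j' : Ω →+* M') :=
    RingHom.ext fun x => (hj' x).symm
  have hc2 : ((e : M' →+* M).comp ((s₀.restrictScalars L : M' →ₐ[L] M') : M' →+* M')) =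
      ((g.restrictScalars L : M →ₐ[L] M) : M →+* M).comp (e : M' →+* M) :=
    RingHom.ext fun x => hs₀ x
  have hf1 : (f.map (algebraMap L Ω)).map ((j : Ω →+* M).comp (γ : Ω →+* Ω)) =
      f.map (algebraMap L M) := by
    rw [← Polynomial.map_map, hγf, Polynomial.map_map, AlgHom.comp_algebraMap]
  have hf2 : (f.map (algebraMap L M')).map
      (((g.restrictScalars L : M →ₐ[L] M) : M →+* M).comp (e : M' →+* M)) =
      f.map (algebraMap L M) := by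
    rw [← Polynomial.map_map, hef, Polynomial.map_map, AlgHom.comp_algebraMap]
  have e1 : push ℓ f j (c' g') = jacMap ℓ (e : M' →+* M) hef (push ℓ f j' (c s')) := by
    rw [hcc' g' s' hs']
    unfold push
    rw [jacMap_jacMap ℓ (γ : Ω →+* Ω) (j : Ω →+* M) hγf _ hf1,
      jacMap_jacMap ℓ (j' : Ω →+* M') (e : M' →+* M) _ hef (hc1 ▸ hf1)]
    exact ta04_jacMap_congr ℓ hc1 _ _ _
  have e2 : jacMap ℓ (e : M' →+* M) hef
      (push ℓ f (s₀.restrictScalars L : M' →ₐ[L] M') Q₀) =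
      push ℓ f (g.restrictScalars L : M →ₐ[L] M) (jacMap ℓ (e : M' →+* M) hef Q₀) := by
    unfold push
    rw [jacMap_jacMap ℓ _ (e : M' →+* M) _ hef (hc2.symm ▸ hf2),
      jacMap_jacMap ℓ (e : M' →+* M) _ hef _ hf2]
    exact ta04_jacMap_congr ℓ hc2 _ _ _
  rw [e1, h1, map_sub, e2]

private lemma ta04_isAlgClosure {K K' M : Type u} [Field K] [Field K'] [Field M] [Algebra K' M]
    [IsAlgClosure K' M] [Algebra K M] (φ : K ≃+* K')
    (h : ∀ x, algebraMap K M x = algebraMap K' M (φ x)) : IsAlgClosure K M := by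
  have hac : IsAlgClosed M := IsAlgClosure.isAlgClosed K'
  have halg : Algebra.IsAlgebraic K' M := IsAlgClosure.isAlgebraic
  refine ⟨hac, ⟨fun x => ?_⟩⟩
  obtain ⟨p, hp0, hp⟩ := halg.isAlgebraic x
  refine ⟨p.map (φ.symm : K' →+* K), (Polynomial.map_ne_zero_iff φ.symm.injective).mpr hp0, ?_⟩
  have e1 : (algebraMap K M).comp (φ.symm : K' →+* K) = algebraMap K' M :=
    RingHom.ext fun x => by
      change algebraMap K M (φ.symm x) = algebraMap K' M x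
      rw [h, RingEquiv.apply_symm_apply]
  rw [aeval_def, eval₂_map, e1]
  exact hp

private lemma ta04_trans {ℓ : ℕ} {L Ω : Type u} [Field L] [Field Ω] [Algebra L Ω] {f : L[X]}
    {c c' : (Ω ≃ₐ[L] Ω) → JacOver ℓ f Ω} (N : Subgroup (Ω ≃ₐ[L] Ω))
    {Lv Lv' : Type u} [Field Lv] [Algebra L Lv] [Field Lv'] [Algebra L Lv'] (s : L ≃+* L)
    (hs : f.map (s : L →+* L) = f) (φ : Lv ≃+* Lv')
    (hφ : ∀ x : L, φ (algebraMap L Lv x) = algebraMap L Lv' (s x))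
    (γ : Ω ≃+* Ω) (hγf : (f.map (algebraMap L Ω)).map (γ : Ω →+* Ω) = f.map (algebraMap L Ω))
    (hγ : ∀ x : L, γ (algebraMap L Ω x) = algebraMap L Ω (s x))
    (hcc' : ∀ σ σ' : Ω ≃ₐ[L] Ω, (∀ x, γ (σ' x) = σ (γ x)) →
      c' σ = jacMap ℓ (γ : Ω →+* Ω) hγf (c σ'))
    (hN : ∀ σ σ' : Ω ≃ₐ[L] Ω, (∀ x, γ (σ' x) = σ (γ x)) → σ ∈ N → σ' ∈ N)
    (h : ta04_LT N f c Lv) : ta04_LT N f c' Lv' := by
  intro M _ i1 i2 i3 i4 j
  have htow : ∀ x : L, algebraMap L M x = algebraMap Lv' M (algebraMap L Lv' x) := fun x =>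
    IsScalarTower.algebraMap_apply L Lv' M x
  let ιv : Lv' →+* M := algebraMap Lv' M
  let ιL : L →+* M := algebraMap L M
  let a1 : Algebra Lv M := (ιv.comp (φ : Lv →+* Lv')).toAlgebra
  let a2 : Algebra L M := (ιL.comp (s : L →+* L)).toAlgebra
  have a3 : @IsScalarTower L Lv M _ a1.toSMul a2.toSMul :=
    @IsScalarTower.of_algebraMap_eq L Lv M _ _ _ _ a1 a2 (fun x => by
      change ιL (s x) = ιv (φ (algebraMap L Lv x))
      rw [hφ]
      exact htow (s x))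
  have a5 := @ta04_isAlgClosure Lv Lv' M _ _ _ i1 i2 a1 φ (fun x => rfl)
  exact @ta04_aux ℓ L Ω _ _ _ f c c' N Lv Lv' _ _ _ _ s hs φ γ hγf hγ hcc' hN h M _ i1 i3 i4 M _ a1 a5 a2
    a3 (RingEquiv.refl M) (fun x => rfl) (fun x => rfl) j

variable {k F L Ω : Type u} [Field k] [Field F] [Algebra k F] [Field L] [Algebra F[X] L]
  [Field Ω] [Algebra L Ω] [IsAlgClosure k F] [IsFractionRing F[X] L] [IsAlgClosure L Ω]
  {ℓ : ℕ} {g D : k[X]} [hG : IsGood ℓ (cOver k F L Ω g D)] {N : Subgroup (Ω ≃ₐ[L] Ω)}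

private lemma ta04_coefL_base (U : F ≃ₐ[k] F) (p : k[X]) :
    coefL L (U : F ≃+* F) (base k F L L p) = base k F L L p := by
  change coefL L (U : F ≃+* F) (algebraMap F[X] L (p.map (algebraMap k F))) =
    algebraMap F[X] L (p.map (algebraMap k F))
  rw [coefL_algebraMap, Polynomial.map_map]
  congr 2
  exact RingHom.ext fun x => U.commutes x

private lemma ta04_coefL_curvePoly (U : F ≃ₐ[k] F) :
    (curvePoly k F L g D).map (coefL L (U : F ≃+* F) : L →+* L) = curvePoly k F L g D := by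
  unfold curvePoly
  rw [Polynomial.map_mul, Polynomial.map_C, Polynomial.map_sub, Polynomial.map_C,
    Polynomial.map_map]
  have h1 : ∀ p : k[X], (coefL L (U : F ≃+* F) : L →+* L) (base k F L L p) = base k F L L p :=
    fun p => ta04_coefL_base U p
  have h2 : (coefL L (U : F ≃+* F) : L →+* L).comp ((base k F L L).comp C) =
      (base k F L L).comp C := RingHom.ext fun x => h1 (C x)
  rw [h2, map_inv₀, h1, h1]

private lemma ta04_gamma (γ : AutO k F L Ω) (x : L) :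
    (γ : Ω ≃+* Ω) (algebraMap L Ω x) =
      algebraMap L Ω (coefL L (resF γ : F ≃+* F) x) := by
  obtain ⟨p, q, hq, rfl⟩ := IsFractionRing.div_surjective (A := F[X]) x
  rw [map_div₀, map_div₀, map_div₀, map_div₀, coefL_algebraMap, coefL_algebraMap, resF_spec,
    resF_spec]
  rfl

theorem LTs.act (hN : Nrm k F N) {c : Coch ℓ k F L Ω g D} (hc : LTs N c)
    (γ : AutO k F L Ω) : LTs N (Sup.act γ c) := by
  have key : ∀ σ σ' : Ω ≃ₐ[L] Ω, (∀ x, (γ : Ω ≃+* Ω) (σ' x) = σ ((γ : Ω ≃+* Ω) x)) →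
      conjG γ⁻¹ σ = σ' := by
    intro σ σ' hσ
    apply AlgEquiv.ext
    intro y
    have h2 := conjG_spec γ⁻¹ σ ((γ : Ω ≃+* Ω) y)
    have h3 : ∀ z : Ω, ((γ⁻¹ : AutO k F L Ω) : Ω ≃+* Ω) ((γ : Ω ≃+* Ω) z) = z := fun z =>
      (γ : Ω ≃+* Ω).symm_apply_apply z
    rw [h3, ← hσ, h3] at h2
    exact h2
  intro a n
  obtain ⟨b, rfl⟩ := (resF γ : F ≃+* F).surjective a
  obtain ⟨φ, hφ, -⟩ := exists_adic_equiv L (resF γ : F ≃+* F) b
  refine ta04_trans N (coefL L (resF γ : F ≃+* F)) (ta04_coefL_curvePoly (resF γ)) φ hφ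
    (γ : Ω ≃+* Ω) (toSym g D γ).2 (ta04_gamma γ) ?_ ?_ (hc b n)
  · intro σ σ' hσ
    change symJ (toSym g D γ) (c n (conjG γ⁻¹ σ)) = _
    rw [key σ σ' hσ]
    rfl
  · intro σ σ' hσ hσN
    rw [← key σ σ' hσ]
    exact hN γ⁻¹ σ hσN

end Pool.Agent.Lib.MP_89bcae_ag.Sup
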