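import Mathlib
import Pool.Agent.Lib.MP_89bcae_ag.Q.K044
import Pool.Agent.Lib.MP_89bcae_ag.Q.K045

section

open Polynomial IsDedekindDomain

open scoped Classical

set_option linter.unusedSectionVars false

namespace Pool.Agent.Lib.MP_89bcae_ag.Sup

universe u

variable {k F L Ω : Type u} [Field k] [Field F] [Algebra k F] [Field L] [Algebra F[X] L]
  [Field Ω] [Algebra L Ω] [IsAlgClosure k F] [IsFractionRing F[X] L] [IsAlgClosure L Ω]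
  {ℓ : ℕ} {g D : k[X]} [hG : IsGood ℓ (cOver k F L Ω g D)] {N : Subgroup (Ω ≃ₐ[L] Ω)}

lemma TCs.zero' : TCs N (0 : Coch ℓ k F L Ω g D) where
  c1 _ := C1s.zero'
  zero _ _ := rfl
  smul _ _ _ := smul_zero _

lemma TCs.add {c c' : Coch ℓ k F L Ω g D} (hc : TCs N c) (hc' : TCs N c') :
    TCs N (c + c') where
  c1 n := (hc.c1 n).add (hc'.c1 n)
  zero σ hσ := by
    rw [Pi.add_apply, Pi.add_apply, hc.zero σ hσ, hc'.zero σ hσ, add_zero]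
  smul n σ hσ := by
    rw [Pi.add_apply, Pi.add_apply, Pi.add_apply, Pi.add_apply, smul_add, hc.smul n σ hσ,
      hc'.smul n σ hσ]

lemma TCs.neg {c : Coch ℓ k F L Ω g D} (hc : TCs N c) : TCs N (-c) where
  c1 n := (hc.c1 n).neg
  zero σ hσ := by
    rw [Pi.neg_apply, Pi.neg_apply, hc.zero σ hσ, neg_zero]
  smul n σ hσ := by
    rw [Pi.neg_apply, Pi.neg_apply, Pi.neg_apply, Pi.neg_apply, smul_neg, hc.smul n σ hσ]

lemma TCs.sub {c c' : Coch ℓ k F L Ω g D} (hc : TCs N c) (hc' : TCs N c') :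
    TCs N (c - c') := by
  rw [sub_eq_add_neg]
  exact hc.add hc'.neg

lemma TCs.zC {c : Coch ℓ k F L Ω g D} (hc : TCs N c) (ζ : k) (hζ : (zA F L Ω ζ) ^ ℓ = 1) :
    TCs N (Sup.zC ζ hζ c) where
  c1 n := (hc.c1 n).zJ ζ hζ
  zero σ hσ := by
    change zJ (zA F L Ω ζ) hζ (c 0 σ) = 0
    rw [hc.zero σ hσ, map_zero]
  smul n σ hσ := by
    change ℓ • zJ (zA F L Ω ζ) hζ (c (n + 1) σ) = zJ (zA F L Ω ζ) hζ (c n σ)
    rw [← map_nsmul, hc.smul n σ hσ]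

lemma TCs.act (hN : Nrm k F N) {c : Coch ℓ k F L Ω g D} (hc : TCs N c) (γ : AutO k F L Ω) :
    TCs N (Sup.act γ c) where
  c1 n := (hc.c1 n).act1 hN γ
  zero σ hσ := by
    change symJ (toSym g D γ) (c 0 (conjG γ⁻¹ σ)) = 0
    rw [hc.zero _ (hN γ⁻¹ σ hσ), map_zero]
  smul n σ hσ := by
    change ℓ • symJ (toSym g D γ) (c (n + 1) (conjG γ⁻¹ σ)) =
      symJ (toSym g D γ) (c n (conjG γ⁻¹ σ))
    rw [← map_nsmul, hc.smul n _ (hN γ⁻¹ σ hσ)]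

lemma TCs.pow_smul {c : Coch ℓ k F L Ω g D} (hc : TCs N c) (n : ℕ) {σ : Ω ≃ₐ[L] Ω}
    (hσ : σ ∈ N) : ℓ ^ n • c n σ = 0 := by
  induction n with
  | zero => rw [pow_zero, one_smul, hc.zero σ hσ]
  | succ n ih => rw [pow_succ, mul_smul, hc.smul n σ hσ, ih]

lemma TCs.congr {c c' : Coch ℓ k F L Ω g D} (hc : TCs N c)
    (h : ∀ n, ∀ σ ∈ N, c' n σ = c n σ) : TCs N c' where
  c1 n := (hc.c1 n).congr (h n)
  zero σ hσ := by rw [h 0 σ hσ, hc.zero σ hσ]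
  smul n σ hσ := by rw [h (n + 1) σ hσ, h n σ hσ, hc.smul n σ hσ]

lemma TTs.zero' : TTs N (0 : Coch ℓ k F L Ω g D) := by
  refine ⟨TCs.zero', fun n => ⟨0, smul_zero _, fun σ _ => ?_⟩⟩
  rw [cob_zero]
  rfl

lemma TTs.add {c c' : Coch ℓ k F L Ω g D} (hc : TTs N c) (hc' : TTs N c') :
    TTs N (c + c') := by
  refine ⟨hc.1.add hc'.1, fun n => ?_⟩
  obtain ⟨A, hA, hcA⟩ := hc.2 n
  obtain ⟨B, hB, hcB⟩ := hc'.2 n
  refine ⟨A + B, by rw [smul_add, hA, hB, add_zero], fun σ hσ => ?_⟩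
  change c n σ + c' n σ = _
  rw [hcA σ hσ, hcB σ hσ, cob_add]
  rfl

lemma TTs.neg {c : Coch ℓ k F L Ω g D} (hc : TTs N c) : TTs N (-c) := by
  refine ⟨hc.1.neg, fun n => ?_⟩
  obtain ⟨A, hA, hcA⟩ := hc.2 n
  refine ⟨-A, by rw [smul_neg, hA, neg_zero], fun σ hσ => ?_⟩
  change -(c n σ) = _
  rw [hcA σ hσ, cob_neg]
  rfl

lemma TTs.sub {c c' : Coch ℓ k F L Ω g D} (hc : TTs N c) (hc' : TTs N c') :
    TTs N (c - c') := by
  rw [sub_eq_add_neg]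
  exact hc.add hc'.neg

lemma TTs.zC {c : Coch ℓ k F L Ω g D} (hc : TTs N c) (ζ : k) (hζ : (zA F L Ω ζ) ^ ℓ = 1) :
    TTs N (Sup.zC ζ hζ c) := by
  refine ⟨hc.1.zC ζ hζ, fun n => ?_⟩
  obtain ⟨A, hA, hcA⟩ := hc.2 n
  refine ⟨zJ (zA F L Ω ζ) hζ A, by rw [← map_nsmul, hA, map_zero], fun σ hσ => ?_⟩
  change zJ (zA F L Ω ζ) hζ (c n σ) = _
  rw [hcA σ hσ, zJ_cob]

lemma TTs.act (hN : Nrm k F N) {c : Coch ℓ k F L Ω g D} (hc : TTs N c) (γ : AutO k F L Ω) :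
    TTs N (Sup.act γ c) := by
  refine ⟨hc.1.act hN γ, fun n => ?_⟩
  obtain ⟨A, hA, hcA⟩ := hc.2 n
  refine ⟨symJ (toSym g D γ) A, by rw [← map_nsmul, hA, map_zero], fun σ hσ => ?_⟩
  rw [act_apply1, act1_congr hN γ hcA σ hσ, act1_cob]

lemma TTs.congr {c c' : Coch ℓ k F L Ω g D} (hc : TTs N c)
    (h : ∀ n, ∀ σ ∈ N, c' n σ = c n σ) : TTs N c' := by
  refine ⟨hc.1.congr h, fun n => ?_⟩
  obtain ⟨A, hA, hcA⟩ := hc.2 n
  exact ⟨A, hA, fun σ hσ => by rw [h n σ hσ, hcA σ hσ]⟩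

/-- The elements of `N` act trivially on the classes. -/
lemma act_galA_subs (hN : Nrm k F N) {c : Coch ℓ k F L Ω g D} (hc : TCs N c)
    {h : Ω ≃ₐ[L] Ω} (hh : h ∈ N) : TTs N (act (galA k F h) c - c) := by
  refine ⟨(hc.act hN _).sub hc, fun n => ⟨c n h, hc.pow_smul n hh, fun σ hσ => ?_⟩⟩
  change Sup.act (galA k F h) c n σ - c n σ = _
  rw [act_apply1, act1_galA_sub (hc.c1 n) hh σ hσ]
  abel

lemma act_neg (γ : AutO k F L Ω) (c : Coch ℓ k F L Ω g D) : act γ (-c) = -act γ c := by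
  funext n σ
  exact map_neg (symJ (toSym g D γ)) _

end Pool.Agent.Lib.MP_89bcae_ag.Sup

end

section

open Polynomial IsDedekindDomain

open scoped Classical

set_option linter.unusedSectionVars false

namespace Pool.Agent.Lib.MP_89bcae_ag.Sup

universe u

variable {k F L Ω : Type u} [Field k] [Field F] [Algebra k F] [Field L] [Algebra F[X] L]
  [Field Ω] [Algebra L Ω] [IsAlgClosure k F] [IsFractionRing F[X] L] [IsAlgClosure L Ω]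
  {ℓ : ℕ} {g D : k[X]} [hG : IsGood ℓ (cOver k F L Ω g D)] {N : Subgroup (Ω ≃ₐ[L] Ω)}

private lemma ta07_pow_smul_add {c : Coch ℓ k F L Ω g D} (hc : TCs N c) (t j : ℕ)
    {σ : Ω ≃ₐ[L] Ω} (hσ : σ ∈ N) : ℓ ^ t • c (j + t) σ = c j σ := by
  induction t with
  | zero => rw [pow_zero, one_nsmul, add_zero]
  | succ t ih => rw [pow_succ, mul_nsmul', ← add_assoc, hc.smul _ σ hσ, ih]

private lemma ta07_iterate (ζ : k) (hζ : (zA F L Ω ζ) ^ ℓ = 1) (y : Coch ℓ k F L Ω g D) (n : ℕ)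
    (σ : Ω ≃ₐ[L] Ω) (m : ℕ) :
    ((fun x : Coch ℓ k F L Ω g D => x - Sup.zC ζ hζ x)^[m] y) n σ =
      (fun x => x - zJ (zA F L Ω ζ) hζ x)^[m] (y n σ) := by
  induction m with
  | zero => rfl
  | succ m ih =>
    rw [Function.iterate_succ_apply', Function.iterate_succ_apply', ← ih]
    rfl

theorem TTs.of_sub_zC {ζ : k} (hζ : IsPrimitiveRoot (zA F L Ω ζ) ℓ)
    (hT : Trs (cOver k F L Ω g D) N) {c : Coch ℓ k F L Ω g D} (hc : TCs N c)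
    (h : TTs N (c - Sup.zC ζ hζ.pow_eq_one c)) : TTs N c := by
  refine ⟨hc, fun n => ?_⟩
  obtain ⟨A, hA, hA2⟩ := h.2 (n + 1)
  have key : ∀ σ ∈ N, c n σ = symJ (toSym g D (galA k F σ)) (vJ (zA F L Ω ζ) hζ.pow_eq_one A) -
      vJ (zA F L Ω ζ) hζ.pow_eq_one A := by
    intro σ hσ
    have h1 : c (n + 1) σ - zJ (zA F L Ω ζ) hζ.pow_eq_one (c (n + 1) σ) =
        symJ (toSym g D (galA k F σ)) A - A := hA2 σ hσ
    have h3 : vJ (zA F L Ω ζ) hζ.pow_eq_one (c (n + 1) σ) -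
        zJ (zA F L Ω ζ) hζ.pow_eq_one (vJ (zA F L Ω ζ) hζ.pow_eq_one (c (n + 1) σ)) =
          ℓ • c (n + 1) σ :=
      vJ_sub_zJ _ hζ _
    rw [← vJ_symJ (zA F L Ω ζ) hζ.pow_eq_one _ (zA_fixed ζ (galA k F σ)), ← vJ_sub, ← h1, vJ_sub,
      vJ_zJ, h3, hc.smul n σ hσ]
  refine ⟨vJ (zA F L Ω ζ) hζ.pow_eq_one A, ?_, fun σ hσ => key σ hσ⟩
  refine eq_zero_of_fixN hζ hT 1 _ ?_ ?_
  · rw [pow_one, ← mul_nsmul', mul_comm ℓ, ← pow_succ, ← vJ_smul, hA]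
    have h0 := vJ_sub (zA F L Ω ζ) hζ.pow_eq_one A A
    rw [sub_self, sub_self] at h0
    exact h0
  · intro σ hσ
    have h5 := hc.pow_smul n hσ
    rw [key σ hσ, nsmul_sub, sub_eq_zero] at h5
    rw [map_nsmul, h5]

theorem TTs.of_smul {ζ : k} (hζ : IsPrimitiveRoot (zA F L Ω ζ) ℓ)
    (hT : Trs (cOver k F L Ω g D) N) {c : Coch ℓ k F L Ω g D} (hc : TCs N c) {m : ℕ}
    (hm : 0 < m) (h : TTs N (m • c)) : TTs N c := by
  refine ⟨hc, fun n => ?_⟩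
  obtain ⟨s, m', hm', hmm⟩ := Nat.exists_eq_pow_mul_and_not_dvd hm.ne' ℓ hG.prime.ne_one
  obtain ⟨A, hA, hA2⟩ := h.2 (n + s)
  have hcop : IsCoprime (m' : ℤ) ((ℓ ^ n : ℕ) : ℤ) := by
    rw [Nat.isCoprime_iff_coprime]
    exact Nat.Coprime.pow_right n ((Nat.Prime.coprime_iff_not_dvd hG.prime).2 hm').symm
  obtain ⟨a, b, hab⟩ := hcop
  have h1 : ∀ σ ∈ N, m' • c n σ = symJ (toSym g D (galA k F σ)) A - A := by
    intro σ hσ
    have h2 : (m • c) (n + s) σ = symJ (toSym g D (galA k F σ)) A - A := hA2 σ hσ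
    have h3 : (m • c) (n + s) σ = m' • c n σ := by
      change m • (c (n + s) σ) = m' • c n σ
      rw [hmm, mul_comm, mul_nsmul', ta07_pow_smul_add hc s n hσ]
    rw [← h3]
    exact h2
  have key : ∀ σ ∈ N, c n σ = symJ (toSym g D (galA k F σ)) (a • A) - a • A := by
    intro σ hσ
    have h4 : (a * (m' : ℤ) + b * ((ℓ ^ n : ℕ) : ℤ)) • c n σ = c n σ := by
      rw [hab, one_zsmul]
    rw [add_zsmul, mul_zsmul, mul_zsmul, natCast_zsmul, natCast_zsmul, hc.pow_smul n hσ, zsmul_zero,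
      add_zero, h1 σ hσ] at h4
    rw [← h4, zsmul_sub, map_zsmul]
  refine ⟨a • A, ?_, fun σ hσ => key σ hσ⟩
  refine eq_zero_of_fixN hζ hT (n + s) _ ?_ ?_
  · rw [smul_comm, smul_comm (ℓ ^ (n + s)) a A, hA, zsmul_zero, nsmul_zero]
  · intro σ hσ
    have h5 := hc.pow_smul n hσ
    rw [key σ hσ, nsmul_sub, sub_eq_zero] at h5
    rw [map_nsmul, h5]

theorem TTs.of_separated {ζ : k} (hζ : IsPrimitiveRoot (zA F L Ω ζ) ℓ)
    (hT : Trs (cOver k F L Ω g D) N) {c : Coch ℓ k F L Ω g D} (hc : TCs N c)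
    (h : ∀ n : ℕ, ∃ y : Coch ℓ k F L Ω g D, TCs N y ∧
      TTs N (c - (fun x => x - Sup.zC ζ hζ.pow_eq_one x)^[n] y)) : TTs N c := by
  refine ⟨hc, fun n => ?_⟩
  obtain ⟨y, hy, h1⟩ := h ((ℓ - 1) * n)
  obtain ⟨A, hA, hA2⟩ := h1.2 n
  refine ⟨A, hA, fun σ hσ => ?_⟩
  rw [← hA2 σ hσ]
  have h2 : ((fun x : Coch ℓ k F L Ω g D => x - Sup.zC ζ hζ.pow_eq_one x)^[(ℓ - 1) * n] y) n σ =
      0 := by
    rw [ta07_iterate]
    exact iterate_eq_zero_of_smul _ hζ n _ (hy.pow_smul n hσ)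
  change c n σ = c n σ -
    ((fun x : Coch ℓ k F L Ω g D => x - Sup.zC ζ hζ.pow_eq_one x)^[(ℓ - 1) * n] y) n σ
  rw [h2, sub_zero]

end Pool.Agent.Lib.MP_89bcae_ag.Sup

end

section

open Polynomial IsDedekindDomain

open scoped Classical

set_option linter.unusedSectionVars false

namespace Pool.Agent.Lib.MP_89bcae_ag.Sup

universe u

variable {k F L Ω : Type u} [Field k] [Field F] [Algebra k F] [Field L] [Algebra F[X] L]
  [Field Ω] [Algebra L Ω] [IsAlgClosure k F] [IsFractionRing F[X] L] [IsAlgClosure L Ω]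
  {ℓ : ℕ} {g D : k[X]} [hG : IsGood ℓ (cOver k F L Ω g D)] {N : Subgroup (Ω ≃ₐ[L] Ω)}

theorem exists_ext {ζ : k} (hζ : IsPrimitiveRoot (zA F L Ω ζ) ℓ)
    (hT : Trs (cOver k F L Ω g D) N) (hN : Nrm k F N) (hO : Opn N) (n : ℕ)
    {x : Ch ℓ k F L Ω g D} (hx : C1s N x) (hn : ∀ σ ∈ N, ℓ ^ n • x σ = 0)
    (h : ∀ γ : Ω ≃ₐ[L] Ω, ∃ A : JacOver ℓ (curvePoly k F L g D) Ω, ℓ ^ n • A = 0 ∧
      ∀ σ ∈ N, act1 (galA k F γ) x σ = x σ + cob A σ) :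
    ∃ y : Ch ℓ k F L Ω g D, C1s ⊤ y ∧ (∀ σ, ℓ ^ n • y σ = 0) ∧ (∀ σ ∈ N, y σ = x σ) ∧
      ∀ γ : Ω ≃ₐ[L] Ω, ∀ σ ∈ N, act1 (galA k F γ) x σ = x σ + cob (y γ) σ := by
  choose y hy hy' using h
  have hyx : ∀ σ ∈ N, y σ = x σ := by
    intro γ hγ
    refine cob_injN hζ hT n (hy γ) (hn γ hγ) fun σ hσ => ?_
    have h1 := hy' γ σ hσ
    rw [act1_galA_sub hx hγ σ hσ] at h1
    exact (add_left_cancel h1).symm
  refine ⟨y, ⟨?_, ?_⟩, hy, hyx, hy'⟩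
  · intro γ _ δ _
    have h0 : ℓ ^ n • (y γ + symJ (toSym g D (galA k F γ)) (y δ)) = 0 := by
      rw [smul_add, hy γ, ← map_nsmul, hy δ, map_zero, add_zero]
    refine cob_injN hζ hT n (hy (γ * δ)) h0 fun σ hσ => ?_
    have h1 := hy' (γ * δ) σ hσ
    rw [map_mul, act1_mul] at h1
    have h2 := act1_congr hN (galA k F γ) (x := act1 (galA k F δ) x) (y := x + cob (y δ))
      (fun τ hτ => hy' δ τ hτ) σ hσ
    rw [h2, act1_add, act1_cob, Pi.add_apply, hy' γ σ hσ, add_assoc] at h1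
    rw [cob_add, Pi.add_apply]
    exact (add_left_cancel h1).symm
  · obtain ⟨S, hS⟩ := hx.cont
    obtain ⟨S', hS'⟩ := hO
    refine ⟨S ∪ S', fun σ _ hσ => ?_⟩
    have h1 : σ ∈ N := hS' σ fun z hz => hσ z (Finset.mem_union_right _ hz)
    rw [hyx σ h1]
    exact hS σ h1 fun z hz => hσ z (Finset.mem_union_left _ hz)

theorem exists_extM {ζ : k} (hζ : IsPrimitiveRoot (zA F L Ω ζ) ℓ)
    (hT : Trs (cOver k F L Ω g D) N) (hN : Nrm k F N) (hO : Opn N)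
    {x : Ch ℓ k F L Ω g D} (hx : MCs ζ hζ.pow_eq_one N x)
    (h : ∀ γ : Ω ≃ₐ[L] Ω, ∃ A : JacOver ℓ (curvePoly k F L g D) Ω, ℓ • A = 0 ∧
      ∀ σ ∈ N, act1 (galA k F γ) x σ = x σ + cob A σ) :
    ∃ y : Ch ℓ k F L Ω g D, MCs ζ hζ.pow_eq_one ⊤ y ∧ (∀ σ ∈ N, y σ = x σ) ∧
      ∀ γ : Ω ≃ₐ[L] Ω, ∀ σ ∈ N, act1 (galA k F γ) x σ = x σ + cob (y γ) σ := by
  have hn : ∀ σ ∈ N, ℓ ^ 1 • x σ = 0 := by
    intro σ hσ
    obtain ⟨e, he⟩ := exists_ram_of_zJ_eq (zA F L Ω ζ) hζ (x σ) (hx.fixed σ hσ)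
    rw [he, pow_one]
    exact smul_ram e
  have h' : ∀ γ : Ω ≃ₐ[L] Ω, ∃ A : JacOver ℓ (curvePoly k F L g D) Ω, ℓ ^ 1 • A = 0 ∧
      ∀ σ ∈ N, act1 (galA k F γ) x σ = x σ + cob A σ := by
    intro γ
    obtain ⟨A, hA, hA'⟩ := h γ
    exact ⟨A, by rw [pow_one, hA], hA'⟩
  obtain ⟨y, hy, hy1, hyx, hy'⟩ := exists_ext hζ hT hN hO 1 hx.toC1s hn h'
  refine ⟨y, ⟨hy, ?_⟩, hyx, hy'⟩
  intro γ _
  have h0 : ℓ ^ 1 • zJ (zA F L Ω ζ) hζ.pow_eq_one (y γ) = 0 := by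
    rw [← map_nsmul, hy1 γ, map_zero]
  refine cob_injN hζ hT 1 h0 (hy1 γ) fun σ hσ => ?_
  have h1 := congrArg (zJ (zA F L Ω ζ) hζ.pow_eq_one) (hy' γ σ hσ)
  have h2 := congrFun (act1_zJ (galA k F γ) ζ hζ.pow_eq_one x) σ
  rw [← h2] at h1
  have h3 := act1_congr hN (galA k F γ) (x := fun σ => zJ (zA F L Ω ζ) hζ.pow_eq_one (x σ)) (y := x)
    (fun τ hτ => hx.fixed τ hτ) σ hσ
  rw [h3, hy' γ σ hσ, map_add, hx.fixed σ hσ, zJ_cob] at h1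
  exact (add_left_cancel h1).symm

theorem exists_extT {ζ : k} (hζ : IsPrimitiveRoot (zA F L Ω ζ) ℓ)
    (hT : Trs (cOver k F L Ω g D) N) (hN : Nrm k F N) (hO : Opn N)
    {c : Coch ℓ k F L Ω g D} (hc : TCs N c)
    (h : ∀ γ : Ω ≃ₐ[L] Ω, TTs N (act (galA k F γ) c - c)) :
    ∃ c' : Coch ℓ k F L Ω g D, TCs ⊤ c' ∧ ∀ n, ∀ σ ∈ N, c' n σ = c n σ := by
  have h' : ∀ n, ∃ y : Ch ℓ k F L Ω g D, C1s ⊤ y ∧ (∀ σ, ℓ ^ n • y σ = 0) ∧
      (∀ σ ∈ N, y σ = c n σ) ∧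
      ∀ γ : Ω ≃ₐ[L] Ω, ∀ σ ∈ N, act1 (galA k F γ) (c n) σ = c n σ + cob (y γ) σ := by
    intro n
    refine exists_ext hζ hT hN hO n (hc.c1 n) (fun σ hσ => hc.pow_smul n hσ) fun γ => ?_
    obtain ⟨A, hA, hA'⟩ := (h γ).2 n
    refine ⟨A, hA, fun σ hσ => ?_⟩
    have h1 : act1 (galA k F γ) (c n) σ - c n σ = cob A σ := hA' σ hσ
    rw [← h1]
    abel
  choose c' h1 h2 h3 h4 using h'
  refine ⟨c', ⟨h1, ?_, ?_⟩, h3⟩
  · intro σ _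
    have h5 := h2 0 σ
    rwa [pow_zero, one_smul] at h5
  · intro n γ _
    have h0 : ℓ ^ n • (ℓ • c' (n + 1) γ) = 0 := by
      rw [← mul_smul, ← pow_succ, h2 (n + 1) γ]
    refine cob_injN hζ hT n h0 (h2 n γ) fun σ hσ => ?_
    have h5 := act1_congr hN (galA k F γ) (x := ℓ • c (n + 1)) (y := c n)
      (fun τ hτ => hc.smul n τ hτ) σ hσ
    rw [act1_nsmul, Pi.smul_apply, h4 (n + 1) γ σ hσ, h4 n γ σ hσ, smul_add, hc.smul n σ hσ] at h5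
    rw [cob_nsmul, Pi.smul_apply]
    exact add_left_cancel h5

/-- Cocycles of `Gal(Ω/L)` which agree on `N` are equal. -/
theorem C1s.eq_of_eqOn {ζ : k} (hζ : IsPrimitiveRoot (zA F L Ω ζ) ℓ)
    (hT : Trs (cOver k F L Ω g D) N) (hN : Nrm k F N) (n : ℕ) {y y' : Ch ℓ k F L Ω g D}
    (hy : C1s ⊤ y) (hy' : C1s ⊤ y') (hn : ∀ σ, ℓ ^ n • y σ = 0) (hn' : ∀ σ, ℓ ^ n • y' σ = 0)
    (h : ∀ σ ∈ N, y σ = y' σ) : ∀ σ, y σ = y' σ := by
  intro γ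
  refine sub_eq_zero.1 (cob_injN hζ hT n (A := y γ - y' γ) (B := 0) ?_ (smul_zero _) fun σ hσ => ?_)
  · rw [smul_sub, hn, hn', sub_zero]
  · have h1 := act1_galA_sub (hy.sub hy') (Subgroup.mem_top γ) σ (Subgroup.mem_top σ)
    have h2 := act1_congr hN (galA k F γ) (x := y - y') (y := 0)
      (fun τ hτ => by rw [Pi.sub_apply, h τ hτ, sub_self]; rfl) σ hσ
    have h3 : Sup.act1 (galA k F γ) (0 : Ch ℓ k F L Ω g D) = 0 := by
      have h4 := act1_sub (galA k F γ) (0 : Ch ℓ k F L Ω g D) 0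
      rwa [sub_self, sub_self] at h4
    rw [h2, h3, Pi.sub_apply, h σ hσ, sub_self, zero_add, Pi.sub_apply] at h1
    rw [← h1, cob_zero]

end Pool.Agent.Lib.MP_89bcae_ag.Sup

end

section

open Polynomial IsDedekindDomain

open scoped Classical

set_option linter.unusedSectionVars false

namespace Pool.Agent.Lib.MP_89bcae_ag.Sup

universe u

variable {k F L Ω : Type u} [Field k] [Field F] [Algebra k F] [Field L] [Algebra F[X] L]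
  [Field Ω] [Algebra L Ω] [IsAlgClosure k F] [IsFractionRing F[X] L] [IsAlgClosure L Ω]
  {ℓ : ℕ} {g D : k[X]} [hG : IsGood ℓ (cOver k F L Ω g D)] {N : Subgroup (Ω ≃ₐ[L] Ω)}

lemma TTs.act_pow_mul (hN : Nrm k F N) {c : Coch ℓ k F L Ω g D} (hc : TCs N c)
    {γ : AutO k F L Ω} {M : ℕ} (h : TTs N (Sup.act (γ ^ M) c - c)) (m : ℕ) :
    TTs N (Sup.act (γ ^ (M * m)) c - c) := by
  induction m with
  | zero =>
    rw [Nat.mul_zero, pow_zero, act_one, sub_self]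
    exact TTs.zero'
  | succ m ih =>
    have e : Sup.act (γ ^ (M * (m + 1))) c - c =
        Sup.act (γ ^ (M * m)) (Sup.act (γ ^ M) c - c) + (Sup.act (γ ^ (M * m)) c - c) := by
      rw [Nat.mul_succ, pow_add, act_mul, act_sub]
      abel
    rw [e]
    exact (h.act hN _).add ih

lemma TTs.wws (hN : Nrm k F N) {c : Coch ℓ k F L Ω g D} (hc : TTs N c) : WWs N c := by
  refine ⟨hc.1, hc.lts, fun γ => ⟨1, one_pos, ?_⟩⟩
  rw [pow_one]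
  exact (hc.act hN γ).sub hc

lemma WWs.add (hN : Nrm k F N) {c c' : Coch ℓ k F L Ω g D} (hc : WWs N c)
    (hc' : WWs N c') : WWs N (c + c') := by
  refine ⟨hc.1.add hc'.1, hc.2.1.add hc'.2.1, fun γ => ?_⟩
  obtain ⟨M, hM, h⟩ := hc.2.2 γ
  obtain ⟨M', hM', h'⟩ := hc'.2.2 γ
  refine ⟨M * M', Nat.mul_pos hM hM', ?_⟩
  have h1 : TTs N (Sup.act (γ ^ (M * M')) c - c) := TTs.act_pow_mul hN hc.1 h M'
  have h2 : TTs N (Sup.act (γ ^ (M' * M)) c' - c') := TTs.act_pow_mul hN hc'.1 h' M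
  rw [Nat.mul_comm M' M] at h2
  have e : Sup.act (γ ^ (M * M')) (c + c') - (c + c') =
      (Sup.act (γ ^ (M * M')) c - c) + (Sup.act (γ ^ (M * M')) c' - c') := by
    rw [act_add]
    abel
  rw [e]
  exact h1.add h2

lemma WWs.neg (hN : Nrm k F N) {c : Coch ℓ k F L Ω g D} (hc : WWs N c) : WWs N (-c) := by
  refine ⟨hc.1.neg, hc.2.1.neg, fun γ => ?_⟩
  obtain ⟨M, hM, h⟩ := hc.2.2 γ
  refine ⟨M, hM, ?_⟩
  have e : Sup.act (γ ^ M) (-c) - -c = -(Sup.act (γ ^ M) c - c) := by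
    rw [act_neg]
    abel
  rw [e]
  exact h.neg

lemma WWs.sub (hN : Nrm k F N) {c c' : Coch ℓ k F L Ω g D} (hc : WWs N c)
    (hc' : WWs N c') : WWs N (c - c') := by
  have e : c - c' = c + -c' := sub_eq_add_neg _ _
  rw [e]
  exact WWs.add hN hc (WWs.neg hN hc')

lemma WWs.zC (hA : GoodAll ℓ k F L g D) (hN : Nrm k F N) {ζ : k} {c : Coch ℓ k F L Ω g D}
    (hc : WWs N c) (hζ : (zA F L Ω ζ) ^ ℓ = 1) : WWs N (Sup.zC ζ hζ c) := by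
  refine ⟨hc.1.zC ζ hζ, hc.2.1.zC hA hζ, fun γ => ?_⟩
  obtain ⟨M, hM, h⟩ := hc.2.2 γ
  refine ⟨M, hM, ?_⟩
  rw [act_zC, ← map_sub]
  exact h.zC ζ hζ

lemma WWs.act (hN : Nrm k F N) {c : Coch ℓ k F L Ω g D} (hc : WWs N c)
    (γ : AutO k F L Ω) : WWs N (Sup.act γ c) := by
  refine ⟨hc.1.act hN γ, LTs.act hN hc.2.1 γ, fun γ' => ?_⟩
  obtain ⟨M, hM, h⟩ := hc.2.2 (γ⁻¹ * γ' * γ)
  refine ⟨M, hM, ?_⟩
  have e1 : γ'^ M * γ = γ * (γ⁻¹ * γ' * γ) ^ M := by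
    have h1 : (γ⁻¹ * γ' * γ⁻¹⁻¹) ^ M = γ⁻¹ * γ' ^ M * γ⁻¹⁻¹ := conj_pow
    rw [inv_inv] at h1
    rw [h1]
    group
  have e : Sup.act (γ' ^ M) (Sup.act γ c) - Sup.act γ c =
      Sup.act γ (Sup.act ((γ⁻¹ * γ' * γ) ^ M) c - c) := by
    rw [← act_mul, e1, act_mul, act_sub]
  rw [e]
  exact h.act hN γ

lemma WWs.congr {c c' : Coch ℓ k F L Ω g D} (hN : Nrm k F N) (hc : WWs N c)
    (h : ∀ n, ∀ σ ∈ N, c' n σ = c n σ) : WWs N c' := by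
  refine ⟨hc.1.congr h, hc.2.1.congr h, fun γ => ?_⟩
  obtain ⟨M, hM, h1⟩ := hc.2.2 γ
  refine ⟨M, hM, h1.congr fun n σ hσ => ?_⟩
  change Sup.act1 (γ ^ M) (c' n) σ - c' n σ = Sup.act1 (γ ^ M) (c n) σ - c n σ
  rw [h n σ hσ, act1_congr hN (γ ^ M) (h n) σ hσ]

/-- If `c' - c` is trivial and `c` is in `WWs N`, then so is `c'`. -/
lemma WWs.of_sub (hN : Nrm k F N) {c c' : Coch ℓ k F L Ω g D} (hc : WWs N c)
    (h : TTs N (c' - c)) : WWs N c' := by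
  refine WWs.congr hN (WWs.add hN hc (TTs.wws hN h)) fun n σ _ => ?_
  change c' n σ = c n σ + (c' n σ - c n σ)
  abel

end Pool.Agent.Lib.MP_89bcae_ag.Sup

end

section

open Polynomial IsDedekindDomain

open scoped Classical

set_option linter.unusedSectionVars false

namespace Pool.Agent.Lib.MP_89bcae_ag.Sup

universe u

variable {k F L Ω : Type u} [Field k] [Field F] [Algebra k F] [Field L] [Algebra F[X] L]
  [Field Ω] [Algebra L Ω] [IsAlgClosure k F] [IsFractionRing F[X] L] [IsAlgClosure L Ω]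
  [Algebra F Ω] {ℓ : ℕ} {g E : k[X]} [hG : IsGood ℓ (cOver k F L Ω g 1)] {ζ : k}
  {hζ : (zA F L Ω ζ) ^ ℓ = 1} {N : Subgroup (Ω ≃ₐ[L] Ω)}

theorem exists_divisionN (H : GlobHyp ℓ g E ζ) (hζ' : IsPrimitiveRoot (zA F L Ω ζ) ℓ)
    (hT : Trs (cOver k F L Ω g 1) N) (hN : Nrm k F N) {c : Coch ℓ k F L Ω g 1}
    (hc : WWs N c) (m : Ω → ℤ)
    (h1 : ∀ σ ∈ N, vJ (zA F L Ω ζ) hζ (c 1 σ) = cob (ram m) σ) :
    ∃ y : Coch ℓ k F L Ω g 1, WWs N y ∧ TTs N (c - (y - Sup.zC ζ hζ y)) := by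
  have hA : GoodAll ℓ k F L g 1 := goodAll_one H
  set B : JacOver ℓ (curvePoly k F L g 1) Ω := (ram m : Jac ℓ (cOver k F L Ω g 1)) with hB
  have hv1 : ∀ σ ∈ N, vJ (zA F L Ω ζ) hζ (c 1 σ) = cob B σ := h1
  -- the divisions of B
  choose dv hdv using fun Q : JacOver ℓ (curvePoly k F L g 1) Ω =>
    exists_smul_eq (zA F L Ω ζ) hζ' Q
  set Q : ℕ → JacOver ℓ (curvePoly k F L g 1) Ω := fun n => dv^[n] B with hQ
  have hQ0 : Q 0 = B := rfl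
  have hQs : ∀ n, ℓ • Q (n + 1) = Q n := by
    intro n
    simp only [hQ]
    rw [Function.iterate_succ_apply']
    exact hdv _
  set y : Coch ℓ k F L Ω g 1 := fun n σ => vJ (zA F L Ω ζ) hζ (c (n + 1) σ) -
    cob (Q n) σ with hy
  have hyTC : TCs N y := by
    refine ⟨?_, ?_, ?_⟩
    · intro n
      exact ((hc.1.c1 (n + 1)).vJ ζ hζ).sub (C1s.cob (Q n))
    · intro σ hσ
      simp only [hy]
      rw [Nat.zero_add, hv1 σ hσ, hQ0, sub_self]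
    · intro n σ hσ
      simp only [hy]
      have h2 : ℓ • cob (Q (n + 1)) σ = cob (Q n) σ := by
        have h3 := congrFun (cob_nsmul (g := g) (D := 1) ℓ (Q (n + 1))) σ
        rw [hQs n] at h3
        rw [h3]
        rfl
      rw [smul_sub, ← vJ_smul, hc.1.smul (n + 1) σ hσ, h2]
  have hyLT : LTs N y := by
    have h1 : LTs N (fun n σ => vJ (zA F L Ω ζ) hζ ((fun n => c (n + 1)) n σ) :
        Coch ℓ k F L Ω g 1) := LTs.v hA (hc.2.1.shift fun n => n + 1) hζ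
    have h2 : LTs N (fun n σ => cob (Q n) σ : Coch ℓ k F L Ω g 1) :=
      LTs.of_cob fun n => ⟨Q n, fun σ _ => rfl⟩
    have h3 := h1.add h2.neg
    have h4 : y = (fun n σ => vJ (zA F L Ω ζ) hζ ((fun n => c (n + 1)) n σ) :
        Coch ℓ k F L Ω g 1) + -(fun n σ => cob (Q n) σ : Coch ℓ k F L Ω g 1) := by
      funext n σ
      simp only [hy, Pi.add_apply, Pi.neg_apply]
      abel
    rw [h4]
    exact h3
  have hyZ : TCs N (c - (y - Sup.zC ζ hζ y)) := hc.1.sub (hyTC.sub (hyTC.zC ζ hζ))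
  have hQn : ∀ n, ℓ ^ n • Q n = B := by
    intro n
    induction n with
    | zero => rw [pow_zero, one_smul, hQ0]
    | succ n ih =>
      rw [pow_succ, mul_smul, hQs, ih]
  have hTT : TTs N (c - (y - Sup.zC ζ hζ y)) := by
    refine ⟨hyZ, ?_⟩
    intro n
    refine ⟨Q n - zJ (zA F L Ω ζ) hζ (Q n), ?_, ?_⟩
    · rw [smul_sub, ← map_nsmul, hQn, hB, zJ_ram, sub_self]
    · intro σ hσ
      have h1 : (c - (y - Sup.zC ζ hζ y)) n σ =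
          c n σ - (y n σ - zJ (zA F L Ω ζ) hζ (y n σ)) := rfl
      rw [h1, cob_sub]
      have h3 : (cob (Q n) - cob (zJ (zA F L Ω ζ) hζ (Q n)) : Ch ℓ k F L Ω g 1) σ =
          cob (Q n) σ - zJ (zA F L Ω ζ) hζ (cob (Q n) σ) := by
        rw [zJ_cob]
        rfl
      rw [h3]
      simp only [hy]
      rw [map_sub]
      have h2 := vJ_sub_zJ (zA F L Ω ζ) hζ' (c (n + 1) σ)
      rw [hc.1.smul n σ hσ] at h2
      rw [← h2]
      abel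
  refine ⟨y, ⟨hyTC, hyLT, ?_⟩, hTT⟩
  intro γ
  obtain ⟨M, hM, hMT⟩ := hc.2.2 γ
  refine ⟨M, hM, ?_⟩
  have hx : TCs N (Sup.act (γ ^ M) y - y) := (hyTC.act hN (γ ^ M)).sub hyTC
  apply TTs.of_sub_zC hζ' hT hx
  have h1 : Sup.act (γ ^ M) y - y - Sup.zC ζ hζ (Sup.act (γ ^ M) y - y) =
      (Sup.act (γ ^ M) c - c) - (Sup.act (γ ^ M) (c - (y - Sup.zC ζ hζ y)) -
        (c - (y - Sup.zC ζ hζ y))) := by
    rw [act_sub, act_sub, act_zC, map_sub]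
    abel
  rw [h1]
  exact hMT.sub ((hTT.act hN (γ ^ M)).sub hTT)

end Pool.Agent.Lib.MP_89bcae_ag.Sup

end
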