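import Mathlib
import Pool.Agent.Lib.MP_89bcae_ag.Q.K020
import Pool.Agent.Lib.MP_89bcae_ag.Q.K022

section

/-!
ROW L10 (150-300 lines). The absolute value of an algebraic closure `M` of the completion `K` of
`F(t)` at `t = a`.

PROOF. `K` has the complete discrete valuation `Valued.v` with values in `ℤᵐ⁰`; choose a rank one
structure (`Valuation.RankOne`; e.g. `exp n ↦ 2 ^ n`; see `Valued.toNormedField`,
`IsDedekindDomain.HeightOneSpectrum.adicCompletion` and, for the pattern,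
`Mathlib/NumberTheory/Padics/Complex.lean` and `.../NumberField/Completion/FinitePlace.lean`) to make
`K` a complete nontrivially normed field with nonarchimedean norm, and let `v` be the spectral norm
`spectralNorm K M` (`spectralNorm_mul`/`spectralMulAlgNorm`, `isNonarchimedean_spectralNorm`,
`spectralNorm_extends`). `spectralNorm_eq_of_equiv` gives the invariance under `Aut(M/K)`; the
invariance under `u` (semilinear with respect to an isometry `φ` of `K`): the minimal polynomial of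
`u x` is the image under `φ` of the minimal polynomial of `x`, and `spectralValue` depends only on the
norms of the coefficients. Constants: `Valued.v (C c) = 1` for `c ≠ 0` (`val_eq_one`);
`Valued.v (X - a) = exp (-1)` (`val_X_sub_C`), so every nonzero element of `K` has the absolute value of a
power of `t - a`. Residues: let `x` in `M`, `v x ≤ 1`, with minimal polynomial `q` over `K`, whose
coefficients have norm `≤ 1` (definition of the spectral norm:
`spectralValue q ≤ 1 → ‖q.coeff n‖ ≤ 1`, `spectralValue_le_one_iff`); let `q₀` in `F[X]` be monic with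
coefficients the residues of those of `q` (`exists_residue`); then `v (q₀(x)) = v (q₀(x) - q(x)) < 1` and
`q₀ = ∏ (X - c_i)` (`F` is algebraically closed), so `v (x - c_i) < 1` for some `i`.
-/

open Polynomial IsDedekindDomain

open scoped Classical

namespace Pool.Agent.Lib.MP_89bcae_ag.Sup

universe u

section Spectral

variable {K M : Type u} [NontriviallyNormedField K] [IsUltrametricDist K] [CompleteSpace K]
  [Field M] [Algebra K M] [Algebra.IsAlgebraic K M]

/-- The spectral norm as an absolute value. -/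
private noncomputable def L10_abs (K M : Type u) [NontriviallyNormedField K]
    [IsUltrametricDist K] [CompleteSpace K]
    [Field M] [Algebra K M] [Algebra.IsAlgebraic K M] : AbsoluteValue M ℝ where
  toFun := spectralNorm K M
  map_mul' x y := (spectralMulAlgNorm K M).map_mul' x y
  nonneg' x := spectralNorm_nonneg x
  eq_zero' x := ⟨fun h => eq_zero_of_map_spectralNorm_eq_zero h
    (Algebra.IsAlgebraic.isAlgebraic x), fun h => by rw [h]; exact spectralNorm_zero⟩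
  add_le' x y := isNonarchimedean_spectralNorm.add_le spectralNorm_nonneg

private theorem L10_abs_apply (x : M) : L10_abs K M x = spectralNorm K M x := rfl

private theorem L10_nonarch (x y : M) :
    L10_abs K M (x + y) ≤ max (L10_abs K M x) (L10_abs K M y) :=
  isNonarchimedean_spectralNorm x y

private theorem L10_ext (x : K) : L10_abs K M (algebraMap K M x) = ‖x‖ :=
  spectralNorm_extends x

private theorem L10_gal (σ : M ≃ₐ[K] M) (x : M) : L10_abs K M (σ x) = L10_abs K M x :=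
  (spectralNorm_eq_of_equiv σ x).symm

private theorem L10_semilin (w : M ≃+* M) (φ : K ≃+* K) (hφ : ∀ x, ‖φ x‖ = ‖x‖)
    (hw : ∀ x, w (algebraMap K M x) = algebraMap K M (φ x)) (x : M) :
    L10_abs K M (w x) = L10_abs K M x := by
  have hx : IsIntegral K x := (Algebra.IsAlgebraic.isAlgebraic x).isIntegral
  have hcomp : (algebraMap K M).comp (φ : K →+* K) = (w : M →+* M).comp (algebraMap K M) := by
    ext k
    exact (hw k).symm
  have hroot : aeval (w x) ((minpoly K x).map (φ : K →+* K)) = 0 := by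
    rw [aeval_def, eval₂_map, hcomp]
    have h1 : eval₂ ((w : M →+* M).comp (algebraMap K M)) (w x) (minpoly K x) =
        w (eval₂ (algebraMap K M) x (minpoly K x)) := by
      have := (hom_eval₂ (minpoly K x) (algebraMap K M) (w : M →+* M) x)
      exact this.symm
    rw [h1, ← aeval_def, minpoly.aeval, map_zero]
  have hirr : Irreducible ((minpoly K x).map (φ : K →+* K)) := by
    have h2 := minpoly.irreducible hx
    exact (MulEquiv.irreducible_iff (Polynomial.mapEquiv φ)).mpr h2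
  have hmon : ((minpoly K x).map (φ : K →+* K)).Monic := (minpoly.monic hx).map _
  have hmin : minpoly K (w x) = (minpoly K x).map (φ : K →+* K) :=
    (minpoly.eq_of_irreducible_of_monic hirr hroot hmon).symm
  change spectralValue (minpoly K (w x)) = spectralValue (minpoly K x)
  rw [hmin]
  unfold spectralValue
  congr 1
  funext n
  unfold spectralValueTerms
  rw [natDegree_map_eq_of_injective (RingHom.injective (φ : K →+* K)), coeff_map]
  have h3 : ‖(φ : K →+* K) ((minpoly K x).coeff n)‖ = ‖(minpoly K x).coeff n‖ := hφ _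
  rw [h3]

private theorem L10_sum_lt {ι : Type*} (v : AbsoluteValue M ℝ)
    (hna : ∀ x y, v (x + y) ≤ max (v x) (v y)) (s : Finset ι) (f : ι → M)
    (h : ∀ i ∈ s, v (f i) < 1) : v (∑ i ∈ s, f i) < 1 := by
  induction s using Finset.induction_on with
  | empty => rw [Finset.sum_empty, map_zero]; exact zero_lt_one
  | insert a s ha ih =>
    rw [Finset.sum_insert ha]
    refine (hna _ _).trans_lt (max_lt (h a (Finset.mem_insert_self a s)) (ih fun i hi => ?_))
    exact h i (Finset.mem_insert_of_mem hi)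

private theorem L10_residue {F : Type u} [Field F] [IsAlgClosed F] (ι : F →+* K)
    (hres : ∀ k : K, ‖k‖ ≤ 1 → ∃ c : F, ‖k - ι c‖ < 1)
    (x : M) (hx : L10_abs K M x ≤ 1) :
    ∃ c : F, L10_abs K M (x - algebraMap K M (ι c)) < 1 := by
  have hint : IsIntegral K x := (Algebra.IsAlgebraic.isAlgebraic x).isIntegral
  set q := minpoly K x with hq
  have hmon : q.Monic := minpoly.monic hint
  have hcoef : ∀ n, ‖q.coeff n‖ ≤ 1 := (spectralValue_le_one_iff hmon).mp hx
  choose c hc using fun n => hres (q.coeff n) (hcoef n)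
  set n := q.natDegree with hn
  set q₀ : F[X] := X ^ n + ∑ i ∈ Finset.range n, C (c i) * X ^ i with hq₀
  have hdeg : (∑ i ∈ Finset.range n, C (c i) * X ^ i : F[X]).degree < n := by
    rw [Finset.sum_range]
    exact degree_sum_fin_lt _
  have hq₀mon : q₀.Monic := monic_X_pow_add hdeg
  have hsplit : q₀.Splits := IsAlgClosed.splits q₀
  have hprod : q₀ = (q₀.roots.map fun r => X - C r).prod := by
    have := hsplit.eq_prod_roots
    rw [hq₀mon.leadingCoeff, C_1, one_mul] at this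
    exact this
  set j : F →+* M := (algebraMap K M).comp ι with hj
  have heval : eval₂ j x q₀ = (q₀.roots.map fun r => x - j r).prod := by
    conv_lhs => rw [hprod]
    rw [← coe_eval₂RingHom, map_multiset_prod, Multiset.map_map]
    congr 1
    refine Multiset.map_congr rfl fun r _ => ?_
    simp
  have hlt : L10_abs K M (eval₂ j x q₀) < 1 := by
    have hqx : eval₂ (algebraMap K M) x q = 0 := by
      rw [← aeval_def, hq, minpoly.aeval]
    have hq' : q = X ^ n + ∑ i ∈ Finset.range n, C (q.coeff i) * X ^ i := by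
      conv_lhs => rw [q.as_sum_range_C_mul_X_pow]
      rw [Finset.sum_range_succ, ← hn, hn, hmon.coeff_natDegree, C_1, one_mul, add_comm]
    have hqx' : x ^ n + ∑ i ∈ Finset.range n, algebraMap K M (q.coeff i) * x ^ i = 0 := by
      rw [← hqx]
      conv_rhs => rw [hq']
      simp [eval₂_finsetSum]
    have hq₀x : eval₂ j x q₀ =
        ∑ i ∈ Finset.range n, algebraMap K M (ι (c i) - q.coeff i) * x ^ i := by
      have h1 : eval₂ j x q₀ = x ^ n + ∑ i ∈ Finset.range n, j (c i) * x ^ i := by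
        rw [hq₀]
        simp [eval₂_finsetSum]
      rw [h1, ← sub_zero (x ^ n + ∑ i ∈ Finset.range n, j (c i) * x ^ i), ← hqx',
        add_sub_add_left_eq_sub, ← Finset.sum_sub_distrib]
      refine Finset.sum_congr rfl fun i _ => ?_
      rw [map_sub, sub_mul]
      rfl
    rw [hq₀x]
    refine L10_sum_lt _ L10_nonarch _ _ fun i _ => ?_
    rw [map_mul, map_pow, L10_ext, norm_sub_rev]
    calc ‖q.coeff i - ι (c i)‖ * L10_abs K M x ^ i ≤ ‖q.coeff i - ι (c i)‖ * 1 := by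
          refine mul_le_mul_of_nonneg_left ?_ (norm_nonneg _)
          exact pow_le_one₀ (AbsoluteValue.nonneg _ _) hx
      _ < 1 := by rw [mul_one]; exact hc i
  by_contra hcon
  push Not at hcon
  rw [heval, map_multiset_prod, Multiset.map_map] at hlt
  refine absurd hlt (not_lt.mpr ?_)
  have hall : ∀ s : Multiset F, 1 ≤ (s.map (⇑(L10_abs K M) ∘ fun r => x - j r)).prod := by
    intro s
    induction s using Multiset.induction_on with
    | empty => rw [Multiset.map_zero, Multiset.prod_zero]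
    | cons a s ih =>
      rw [Multiset.map_cons, Multiset.prod_cons]
      exact one_le_mul_of_one_le_of_one_le (hcon a) ih
  exact hall _

end Spectral

section Discrete

variable {K M : Type u} [Field K] [Valued K (WithZero (Multiplicative ℤ))] [CompleteSpace K]
  [Field M] [Algebra K M] [Algebra.IsAlgebraic K M]

private theorem L10_valued (hR : Valuation.RankOne (Valued.v : Valuation K
      (WithZero (Multiplicative ℤ)))) :
    ∃ v : AbsoluteValue M ℝ,
      (∀ x y, v (x + y) ≤ max (v x) (v y)) ∧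
      (∀ x y : K, v (algebraMap K M x) ≤ v (algebraMap K M y) ↔ Valued.v x ≤ Valued.v y) ∧
      (∀ (σ : M ≃ₐ[K] M) (x : M), v (σ x) = v x) ∧
      (∀ (w : M ≃+* M) (φ : K ≃+* K), (∀ x, Valued.v (φ x) = Valued.v x) →
        (∀ x, w (algebraMap K M x) = algebraMap K M (φ x)) → ∀ x, v (w x) = v x) ∧
      (∀ {F : Type u} [Field F] [IsAlgClosed F] (ι : F →+* K),
        (∀ k : K, Valued.v k ≤ 1 → ∃ c : F, Valued.v (k - ι c) < 1) →
        ∀ x : M, v x ≤ 1 → ∃ c : F, v (x - algebraMap K M (ι c)) < 1) := by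
  let _ := hR
  let _ : NontriviallyNormedField K := Valued.toNontriviallyNormedField K _
  have _ : IsUltrametricDist K := Valued.instIsUltrametricDist K _
  refine ⟨L10_abs K M, L10_nonarch, fun x y => ?_, L10_gal, fun w φ hφ hw x => ?_,
    fun ι hres x hx => ?_⟩
  · rw [L10_ext, L10_ext]
    exact Valued.toNormedField.norm_le_iff
  · refine L10_semilin w φ (fun k => ?_) hw x
    refine le_antisymm ?_ ?_
    · exact Valued.toNormedField.norm_le_iff.mpr (hφ k).le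
    · exact Valued.toNormedField.norm_le_iff.mpr (hφ k).ge
  · refine L10_residue ι (fun k hk => ?_) x hx
    obtain ⟨c, hc⟩ := hres k (Valued.toNormedField.norm_le_one_iff.mp hk)
    exact ⟨c, Valued.toNormedField.norm_lt_one_iff.mpr hc⟩

end Discrete

theorem exists_locCtx {F L M : Type u} [Field F] [IsAlgClosed F] [Field L] [Algebra F[X] L]
    [IsFractionRing F[X] L] (a : F) [Field M] [Algebra ((plc a).adicCompletion L) M]
    [IsAlgClosure ((plc a).adicCompletion L) M] [Algebra F M]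
    (hF : ∀ c : F, algebraMap F M c = algebraMap ((plc a).adicCompletion L) M
      (algebraMap F[X] ((plc a).adicCompletion L) (C c))) :
    ∃ v : AbsoluteValue M ℝ,
      LocCtx v a (algebraMap ((plc a).adicCompletion L) M
        (algebraMap F[X] ((plc a).adicCompletion L) X)) ∧
      (∀ x : (plc a).adicCompletion L, x ≠ 0 → ∃ i : ℤ,
        v (algebraMap ((plc a).adicCompletion L) M x) =
          v (algebraMap ((plc a).adicCompletion L) M
            (algebraMap F[X] ((plc a).adicCompletion L) X) - algebraMap F M a) ^ i) ∧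
      (∀ (σ : M ≃ₐ[(plc a).adicCompletion L] M) (x : M), v (σ x) = v x) ∧
      ∀ (w : M ≃+* M) (φ : (plc a).adicCompletion L ≃+* (plc a).adicCompletion L),
        (∀ x, Valued.v (φ x) = Valued.v x) →
        (∀ x, w (algebraMap ((plc a).adicCompletion L) M x) =
          algebraMap ((plc a).adicCompletion L) M (φ x)) → ∀ x, v (w x) = v x := by
  have hRD : (Valued.v : Valuation ((plc a).adicCompletion L)
      (WithZero (Multiplicative ℤ))).IsRankOneDiscrete := inferInstance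
  obtain ⟨v, hna, hle, hgal, hsemi, hres⟩ := L10_valued
    (K := (plc a).adicCompletion L) (M := M)
    (Valuation.IsRankOneDiscrete.rankOne (Valued.v : Valuation ((plc a).adicCompletion L)
      (WithZero (Multiplicative ℤ))) (e := 2) one_lt_two)
  have hlt : ∀ x y : (plc a).adicCompletion L,
      v (algebraMap _ M x) < v (algebraMap _ M y) ↔ Valued.v x < Valued.v y := by
    intro x y
    rw [← not_le, ← not_le, hle]
  have heq : ∀ x y : (plc a).adicCompletion L, Valued.v x = Valued.v y →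
      v (algebraMap _ M x) = v (algebraMap _ M y) := by
    intro x y h
    exact le_antisymm ((hle x y).mpr h.le) ((hle y x).mpr h.ge)
  have hone : v (algebraMap ((plc a).adicCompletion L) M 1) = 1 := by
    rw [map_one, map_one]
  have hsub : algebraMap ((plc a).adicCompletion L) M
        (algebraMap F[X] ((plc a).adicCompletion L) X) - algebraMap F M a =
      algebraMap ((plc a).adicCompletion L) M
        (algebraMap F[X] ((plc a).adicCompletion L) (X - C a)) := by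
    rw [hF, map_sub, map_sub]
  have hval0 : Valued.v (algebraMap F[X] ((plc a).adicCompletion L) (X - C a)) =
      WithZero.exp (-1 : ℤ) := val_X_sub_C L a
  refine ⟨v, ⟨inferInstance, hna, ?_, ?_, ?_, ?_⟩, ?_, hgal, hsemi⟩
  · intro c hc
    rw [hF, ← hone]
    refine heq _ _ ?_
    rw [map_one]
    refine val_eq_one L a ?_
    rw [eval_C]
    exact hc
  · rw [hsub, ← hone, hlt, hval0, map_one]
    rw [← WithZero.exp_zero]
    exact WithZero.exp_lt_exp.mpr (by norm_num)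
  · intro h
    rw [← sub_eq_zero, hsub, map_eq_zero] at h
    rw [h, map_zero] at hval0
    exact WithZero.exp_ne_zero hval0.symm
  · intro x hx
    obtain ⟨c, hc⟩ := hres (F := F) ((algebraMap F[X] ((plc a).adicCompletion L)).comp C)
      (fun k hk => exists_residue L a k hk) x hx
    refine ⟨c, ?_⟩
    rw [hF]
    exact hc
  · intro x hx
    have hx0 : Valued.v x ≠ 0 := (Valuation.ne_zero_iff _).mpr hx
    refine ⟨-(WithZero.log (Valued.v x)), ?_⟩
    rw [hsub, ← map_zpow₀, ← map_zpow₀]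
    refine heq _ _ ?_
    rw [map_zpow₀, hval0, ← WithZero.exp_zsmul]
    simp [WithZero.exp_log hx0]

end Pool.Agent.Lib.MP_89bcae_ag.Sup

end

section

open Polynomial

open scoped Classical

set_option linter.unusedSectionVars false

namespace Pool.Agent.Lib.MP_89bcae_ag.Sup

universe u

variable {F M : Type u} [Field F] [Field M] [Algebra F M] {v : AbsoluteValue M ℝ} {a : F} {t : M}

private lemma tc02_pow (τ : M ≃+* M) {δ z : M} (hτ : τ δ = z * δ) (hz : τ z = z) (n : ℕ) :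
    (τ ^ n) δ = z ^ n * δ := by
  induction n with
  | zero => simp
  | succ n ih =>
    rw [pow_succ', RingAut.mul_apply, ih, map_mul, map_pow, hz, hτ]
    ring

/-- The values of the automorphisms at `π'`. -/
private lemma tc02_val {q : ℕ} (hq : q ≠ 0) {ξ : M} (hξ : IsPrimitiveRoot ξ q) {π' : M}
    (hπ0 : π' ≠ 0) (σ : M ≃+* M) (h : σ (π' ^ q) = π' ^ q) :
    ∃ i < q, σ π' = ξ ^ i * π' := by
  have h3 : (σ π' / π') ^ q = 1 := by
    rw [div_pow, ← map_pow, h, div_self (pow_ne_zero _ hπ0)]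
  have : NeZero q := ⟨hq⟩
  obtain ⟨j, hj, hj'⟩ := hξ.eq_pow_of_pow_eq_one h3
  exact ⟨j, hj, by rw [hj', div_mul_cancel₀ _ hπ0]⟩

private lemma tc02_v {p : ℕ} {ϖ : ℝ} {f : M[X]} {Γ : Subgroup (Sym f)}
    (hΓ : LocGrp p F v t ϖ Γ) {q : ℕ} {π' : M}
    (hπ0 : π' ≠ 0) (hπv : v π' ^ q = ϖ) : 0 < v π' ∧ v π' < 1 := by
  have hv0 : 0 < v π' := v.pos hπ0
  refine ⟨hv0, ?_⟩
  by_contra hcon
  push Not at hcon
  have h1 : 1 ≤ v π' ^ q := one_le_pow₀ hcon
  rw [hπv] at h1
  exact absurd hΓ.lt_one (not_lt.mpr h1)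

theorem LocGrp.exists_tame_pow {p ℓ r : ℕ} {ϖ : ℝ} {f : M[X]} {Γ : Subgroup (Sym f)}
    (hΓ : LocGrp p F v t ϖ Γ) (hℓ : ℓ.Prime) (hp : p.Coprime ℓ) {ξ : M}
    (hξ : IsPrimitiveRoot ξ (ℓ ^ r)) (hξΓ : ∀ σ ∈ Γ, (σ : M ≃+* M) ξ = ξ) {π' : M}
    (hπ0 : π' ≠ 0) (hπv : v π' ^ ℓ ^ r = ϖ)
    (hπΓ : ∀ σ ∈ Γ, (σ : M ≃+* M) (π' ^ ℓ ^ r) = π' ^ ℓ ^ r) :
    ∃ τ ∈ Γ, (τ : M ≃+* M) π' = ξ * π' := by
  obtain ⟨hv0, hv1⟩ := tc02_v hΓ hπ0 hπv
  have hq0 : ℓ ^ r ≠ 0 := pow_ne_zero _ hℓ.ne_zero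
  rcases Nat.eq_zero_or_pos r with hr | hr
  · subst hr
    refine ⟨1, Γ.one_mem, ?_⟩
    have h1 : ξ = 1 := by
      have h2 := hξ.pow_eq_one
      rwa [pow_zero, pow_one] at h2
    rw [h1, one_mul]
    rfl
  obtain ⟨s, rfl⟩ : ∃ s, r = s + 1 := ⟨r - 1, by omega⟩
  -- an element with exponent prime to `ℓ`
  obtain ⟨τ, hτ, j, hj, hj0, hτj⟩ : ∃ τ ∈ Γ, ∃ j < ℓ ^ (s + 1), ¬ ℓ ∣ j ∧
      (τ : M ≃+* M) π' = ξ ^ j * π' := by
    by_contra hcon
    push Not at hcon
    have h1 : ∀ σ ∈ Γ, (σ : M ≃+* M) (π' ^ ℓ ^ s) = π' ^ ℓ ^ s := by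
      intro σ hσ
      obtain ⟨j, hj, hj'⟩ := tc02_val hq0 hξ hπ0 (σ : M ≃+* M) (hπΓ σ hσ)
      by_cases hj0 : ℓ ∣ j
      · obtain ⟨i, rfl⟩ := hj0
        rw [map_pow, hj', mul_pow, ← pow_mul]
        have h2 : ℓ * i * ℓ ^ s = ℓ ^ (s + 1) * i := by ring
        rw [h2, pow_mul, hξ.pow_eq_one, one_pow, one_mul]
      · exact absurd hj' (hcon σ hσ j hj hj0)
    have h3 := hΓ.disc _ (pow_ne_zero (ℓ ^ s) hπ0) h1
    rw [← hπv, map_pow, pow_succ, pow_mul] at h3
    have h4 := Val.dvd_of_zpow hp (pow_pos hv0 (ℓ ^ s))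
      (pow_lt_one₀ hv0.le hv1 (pow_ne_zero _ hℓ.ne_zero)) 1 (by rw [zpow_one]; exact h3)
    have h5 : (ℓ : ℤ) ≤ 1 := Int.le_of_dvd one_pos h4
    have h6 := hℓ.one_lt
    omega
  -- a power
  have hcop : Nat.Coprime j (ℓ ^ (s + 1)) :=
    Nat.Coprime.pow_right _ (Nat.Coprime.symm ((Nat.Prime.coprime_iff_not_dvd hℓ).mpr hj0))
  obtain ⟨i, -, hi⟩ := Nat.exists_mul_mod_eq_one_of_coprime hcop
    (Nat.one_lt_pow (by omega) hℓ.one_lt)
  refine ⟨τ ^ i, Subgroup.pow_mem _ hτ i, ?_⟩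
  have h1 : ((τ ^ i : Sym f) : M ≃+* M) = (τ : M ≃+* M) ^ i := rfl
  rw [h1, tc02_pow (τ : M ≃+* M) hτj (by rw [map_pow, hξΓ τ hτ]), ← pow_mul]
  congr 1
  rw [← Nat.div_add_mod (j * i) (ℓ ^ (s + 1)), hi, pow_add, pow_mul, hξ.pow_eq_one, one_pow,
    one_mul, pow_one]

/-- The stabilizer of `π'` in `Γ`. -/
def stabG {f : M[X]} (Γ : Subgroup (Sym f)) (π' : M) : Subgroup (Sym f) where
  carrier := {σ | σ ∈ Γ ∧ (σ : M ≃+* M) π' = π'}
  mul_mem' := by
    rintro σ τ ⟨h1, h2⟩ ⟨h3, h4⟩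
    refine ⟨Γ.mul_mem h1 h3, ?_⟩
    change (σ : M ≃+* M) ((τ : M ≃+* M) π') = π'
    rw [h4, h2]
  one_mem' := ⟨Γ.one_mem, rfl⟩
  inv_mem' := by
    rintro σ ⟨h1, h2⟩
    refine ⟨Γ.inv_mem h1, ?_⟩
    change (σ : M ≃+* M).symm π' = π'
    rw [RingEquiv.symm_apply_eq, h2]

theorem LocGrp.stab {p ℓ r : ℕ} {ϖ : ℝ} {f : M[X]} {Γ : Subgroup (Sym f)}
    (hΓ : LocGrp p F v t ϖ Γ) (hℓ : ℓ.Prime) {ξ : M}
    (hξ : IsPrimitiveRoot ξ (ℓ ^ r)) (hξΓ : ∀ σ ∈ Γ, (σ : M ≃+* M) ξ = ξ) {π' : M}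
    (hπ0 : π' ≠ 0) (hπv : v π' ^ ℓ ^ r = ϖ)
    (hπΓ : ∀ σ ∈ Γ, (σ : M ≃+* M) (π' ^ ℓ ^ r) = π' ^ ℓ ^ r) :
    LocGrp p F v t (v π') (stabG Γ π') := by
  obtain ⟨hv0, hv1⟩ := tc02_v hΓ hπ0 hπv
  have hq0 : ℓ ^ r ≠ 0 := pow_ne_zero _ hℓ.ne_zero
  have hξ0 : ξ ≠ 0 := hξ.ne_zero hq0
  have hΓ₀ : ∀ κ ∈ stabG Γ π', κ ∈ Γ ∧ (κ : M ≃+* M) π' = π' := fun κ hκ => hκ
  refine ⟨hv0, hv1, fun σ hσ => hΓ.inv σ hσ.1, fun σ hσ => hΓ.fix σ hσ.1,
    fun σ hσ => hΓ.fixt σ hσ.1, fun x hx0 hx => ?_⟩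
  -- the smallest exponent
  have hex : ∃ d : ℕ, 0 < d ∧ ∃ σ ∈ Γ, (σ : M ≃+* M) π' = ξ ^ d * π' := by
    refine ⟨ℓ ^ r, Nat.pos_of_ne_zero hq0, 1, Γ.one_mem, ?_⟩
    rw [hξ.pow_eq_one, one_mul]
    rfl
  have hd0 : 0 < Nat.find hex := (Nat.find_spec hex).1
  obtain ⟨τ, hτ, hτd⟩ := (Nat.find_spec hex).2
  have hdmin : ∀ i : ℕ, 0 < i → (∃ σ ∈ Γ, (σ : M ≃+* M) π' = ξ ^ i * π') → Nat.find hex ≤ i :=
    fun i hi h => Nat.find_min' hex ⟨hi, h⟩
  generalize Nat.find hex = d at hd0 hτd hdmin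
  have hfixζ : ∀ σ ∈ Γ, ∀ i : ℕ, (σ : M ≃+* M) (ξ ^ i) = ξ ^ i := fun σ hσ i => by
    rw [map_pow, hξΓ σ hσ]
  have hτi : ∀ i : ℕ, ((τ ^ i : Sym f) : M ≃+* M) π' = ξ ^ (d * i) * π' := fun i => by
    have h1 := tc02_pow (τ : M ≃+* M) hτd (hfixζ τ hτ d) i
    rw [← pow_mul] at h1
    exact h1
  have hinv : ∀ (σ : Sym f) (y : M),
      ((σ⁻¹ : Sym f) : M ≃+* M) ((σ : M ≃+* M) y) = y := fun σ y =>
    (σ : M ≃+* M).symm_apply_apply y
  -- all the exponents are multiples of `d`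
  have hval : ∀ σ ∈ Γ, ∀ i : ℕ, (σ : M ≃+* M) π' = ξ ^ i * π' → d ∣ i := by
    intro σ hσ i hi
    by_contra hcon
    have h0 : 0 < i % d := Nat.pos_of_ne_zero fun h => hcon (Nat.dvd_of_mod_eq_zero h)
    have h1 : (((τ ^ (i / d))⁻¹ * σ : Sym f) : M ≃+* M) π' = ξ ^ (i % d) * π' := by
      have hmem : (τ ^ (i / d))⁻¹ ∈ Γ := Γ.inv_mem (Γ.pow_mem hτ _)
      change (((τ ^ (i / d))⁻¹ : Sym f) : M ≃+* M) ((σ : M ≃+* M) π') = _
      have h2 : ξ ^ i * π' = ξ ^ (i % d) * (ξ ^ (d * (i / d)) * π') := by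
        rw [← mul_assoc, ← pow_add, add_comm, Nat.div_add_mod]
      rw [hi, h2, ← hτi, map_mul, hfixζ _ hmem, hinv]
    have h3 := hdmin _ h0 ⟨_, Γ.mul_mem (Γ.inv_mem (Γ.pow_mem hτ _)) hσ, h1⟩
    exact absurd (Nat.mod_lt i hd0) (not_lt.mpr h3)
  obtain ⟨n, hn⟩ : d ∣ ℓ ^ r := by
    refine hval 1 Γ.one_mem _ ?_
    rw [hξ.pow_eq_one, one_mul]
    rfl
  have hn0 : n ≠ 0 := by
    rintro rfl
    exact hq0 (by rw [hn, mul_zero])
  -- the norm
  have hκx : ∀ κ ∈ stabG Γ π', ∀ i : ℕ, (κ : M ≃+* M) (((τ ^ i : Sym f) : M ≃+* M) x) =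
      ((τ ^ i : Sym f) : M ≃+* M) x := by
    intro κ hκ i
    have h1 : (τ ^ i)⁻¹ * κ * τ ^ i ∈ stabG Γ π' := by
      refine ⟨Γ.mul_mem (Γ.mul_mem (Γ.inv_mem (Γ.pow_mem hτ i)) (hΓ₀ κ hκ).1)
        (Γ.pow_mem hτ i), ?_⟩
      change (((τ ^ i)⁻¹ : Sym f) : M ≃+* M) ((κ : M ≃+* M)
        (((τ ^ i : Sym f) : M ≃+* M) π')) = π'
      rw [hτi, map_mul, hfixζ κ (hΓ₀ κ hκ).1, (hΓ₀ κ hκ).2, ← hτi, hinv]
    have h3 := hx _ h1
    change (((τ ^ i)⁻¹ : Sym f) : M ≃+* M) ((κ : M ≃+* M)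
        (((τ ^ i : Sym f) : M ≃+* M) x)) = x at h3
    have h4 := congrArg (((τ ^ i : Sym f) : M ≃+* M)) h3
    exact ((((τ ^ i : Sym f) : M ≃+* M)).apply_symm_apply _).symm.trans h4
  have hN0 : ∀ σ ∈ stabG Γ π', (σ : M ≃+* M) (∏ i ∈ Finset.range n,
      ((τ ^ i : Sym f) : M ≃+* M) x) =
        ∏ i ∈ Finset.range n, ((τ ^ i : Sym f) : M ≃+* M) x := by
    intro σ hσ
    rw [map_prod]
    exact Finset.prod_congr rfl fun i _ => hκx σ hσ i
  have hτN : (τ : M ≃+* M) (∏ i ∈ Finset.range n, ((τ ^ i : Sym f) : M ≃+* M) x) =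
      ∏ i ∈ Finset.range n, ((τ ^ i : Sym f) : M ≃+* M) x := by
    rw [map_prod]
    have h1 : ∀ i ∈ Finset.range n, (τ : M ≃+* M) (((τ ^ i : Sym f) : M ≃+* M) x) =
        ((τ ^ (i + 1) : Sym f) : M ≃+* M) x := by
      intro i _
      rw [pow_succ']
      rfl
    rw [Finset.prod_congr rfl h1]
    have h3 : ((τ ^ n : Sym f) : M ≃+* M) x = x := by
      refine hx _ ⟨Γ.pow_mem hτ n, ?_⟩
      rw [hτi, ← hn, hξ.pow_eq_one, one_mul]
    obtain ⟨m, hm⟩ : ∃ m, n = m + 1 := ⟨n - 1, by omega⟩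
    have h4 : ((τ ^ (m + 1) : Sym f) : M ≃+* M) x = x := by
      rw [← hm]; exact h3
    have h5 : ∏ i ∈ Finset.range n, ((τ ^ (i + 1) : Sym f) : M ≃+* M) x =
        (∏ i ∈ Finset.range m, ((τ ^ (i + 1) : Sym f) : M ≃+* M) x) * x := by
      rw [hm, Finset.prod_range_succ, h4]
    have h6 : ∏ i ∈ Finset.range n, ((τ ^ i : Sym f) : M ≃+* M) x =
        (∏ i ∈ Finset.range m, ((τ ^ (i + 1) : Sym f) : M ≃+* M) x) * x := by
      rw [hm, Finset.prod_range_succ']
      rfl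
    rw [h5, h6]
  have hτN' : ∀ i : ℕ, (((τ ^ i : Sym f) : M ≃+* M))
      (∏ i ∈ Finset.range n, ((τ ^ i : Sym f) : M ≃+* M) x) =
        ∏ i ∈ Finset.range n, ((τ ^ i : Sym f) : M ≃+* M) x := by
    intro i
    induction i with
    | zero => rfl
    | succ i ih =>
      rw [pow_succ]
      change ((τ ^ i : Sym f) : M ≃+* M) ((τ : M ≃+* M)
        (∏ i ∈ Finset.range n, ((τ ^ i : Sym f) : M ≃+* M) x)) = _
      rw [hτN, ih]
  have hN : ∀ σ ∈ Γ, (σ : M ≃+* M) (∏ i ∈ Finset.range n, ((τ ^ i : Sym f) : M ≃+* M) x) =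
      ∏ i ∈ Finset.range n, ((τ ^ i : Sym f) : M ≃+* M) x := by
    intro σ hσ
    obtain ⟨i, -, hi⟩ := tc02_val hq0 hξ hπ0 (σ : M ≃+* M) (hπΓ σ hσ)
    obtain ⟨j, rfl⟩ := hval σ hσ i hi
    have h1 : (τ ^ j)⁻¹ * σ ∈ stabG Γ π' := by
      refine ⟨Γ.mul_mem (Γ.inv_mem (Γ.pow_mem hτ j)) hσ, ?_⟩
      change (((τ ^ j)⁻¹ : Sym f) : M ≃+* M) ((σ : M ≃+* M) π') = π'
      rw [hi, ← hτi, hinv]
    have h3 := hN0 _ h1
    change (((τ ^ j)⁻¹ : Sym f) : M ≃+* M) ((σ : M ≃+* M) _) = _ at h3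
    have h4 := congrArg (((τ ^ j : Sym f) : M ≃+* M)) h3
    rw [hτN' j] at h4
    exact ((((τ ^ j : Sym f) : M ≃+* M)).apply_symm_apply _).symm.trans h4
  have hN1 : v (∏ i ∈ Finset.range n, ((τ ^ i : Sym f) : M ≃+* M) x) = v x ^ n := by
    rw [map_prod, Finset.prod_congr rfl fun i _ => hΓ.inv _ (Γ.pow_mem hτ i) x,
      Finset.prod_const, Finset.card_range]
  have hN2 := hΓ.disc _ (Finset.prod_ne_zero_iff.mpr fun i _ =>
    (EmbeddingLike.map_ne_zero_iff (f := ((τ ^ i : Sym f) : M ≃+* M))).mpr hx0) hN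
  have hN3 := hN2.pow d
  rw [hN1, ← hπv, ← pow_mul, mul_comm n d, ← hn] at hN3
  exact Val.root hq0 hv0 (v.pos hx0) hN3

end Pool.Agent.Lib.MP_89bcae_ag.Sup

end
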