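import Mathlib
import Pool.Agent.Lib.MP_89bcae_ag.Q.K036
import Pool.Agent.Lib.MP_89bcae_ag.Q.K039
import Pool.Agent.Lib.MP_89bcae_ag.Q.K047
import Pool.Agent.Lib.MP_89bcae_ag.Q.K048

/-!
ROW G13 (150-300 lines). Every locally trivial Tate cocycle has exponents supported in `RR`.

PROOF. Take `P`, `z` from `exists_kummer` (G11). Claim: `ℓ ∣ P.rootMultiplicity r` whenever
`a := g(r)` satisfies `D(a) ≠ 0`. Let `K = (plc a).adicCompletion L`, `M = AlgebraicClosure K`, an
`F`-algebra through `F[X] → L → K → M` (`letI`), `j : Ω → M` over `L` (`IsAlgClosed.lift`), `v` from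
`exists_locCtx` (L10), `t = tA F L M`. `d = D(t)`: `v d = 1` since `D(t) ≡ D(a) ≠ 0` (`residue_eval`).
`Γ = (galSym ..).range` (L11), with `LocCtx.locGrp` (`p = ringExpChar K`, prime to `ℓ`) and
`exists_conj_near`. Local triviality of `c 1`: `Q₁` in `J(M)` with `j (c 1 g') = g Q₁ - Q₁`; put
`Q = v Q₁` (`vJ`). Let `zM (j θ) = j (z θ)` (every root of the curve over `M` is `j θ` for a unique root
`θ` in `Ω`: `rts` have the same number of elements). For `g` in `Aut(M/K)`, `g'` its restriction to `Ω`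
(`exists_restrict`), choose `n` with `g' (z θ) = ζ^{n(g'θ)} z(g'θ)` (the `ℓ`-th powers agree); then
`v (c 1 g') = ram n`, and applying `j` (`jacMap_ram`, `vJ_jacMap`, `push`): `g Q - Q = ram nM`,
`nM (j θ) = n θ`, and `g (zM θ') = ζ^{nM(gθ')} zM(gθ')`. `LocCtx.good_place'` (L13) applies.
Then put `e β = P.rootMultiplicity β`, `z' θ = z θ / ∏_{β ∉ RR} (θ - β)^{mult β / ℓ}` (product over the
roots `β` of `P` which are not in `RR`; `β ∈ RR ↔ D(g(β)) = 0`). The fibre sums: for `D(a) = 0` the fibre of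
`g` over `a` is contained in `RR` and its sum is divisible by `ℓ` by G11; otherwise the sum is empty.
-/

open Polynomial IsDedekindDomain

open scoped Classical

namespace Pool.Agent.Lib.MP_89bcae_ag.Sup

set_option linter.unusedSectionVars false

universe u

section General

lemma G13_jacMap_congr {ℓ : ℕ} {A B : Type u} [Field A] [Field B] {σ τ : A →+* B} {f : A[X]}
    {f' : B[X]} (e : σ = τ) (h : f.map σ = f') (h' : f.map τ = f') (Q : Jac ℓ f) :
    jacMap ℓ σ h Q = jacMap ℓ τ h' Q := by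
  subst e
  rfl

lemma G13_coprime_aux {K : Type u} [Field K] {ℓ : ℕ} (hℓ : ℓ.Prime) (h : (ℓ : K) ≠ 0) (q : ℕ)
    (hq : ExpChar K q) : q.Coprime ℓ := by
  cases hq with
  | zero => exact Nat.coprime_one_left ℓ
  | prime hp =>
    rw [Nat.coprime_primes hp hℓ]
    rintro rfl
    exact h (CharP.cast_eq_zero K q)

lemma G13_coprime {K : Type u} [Field K] {ℓ : ℕ} (hℓ : ℓ.Prime) (h : (ℓ : K) ≠ 0) :
    (ringExpChar K).Coprime ℓ :=
  G13_coprime_aux hℓ h _ inferInstance

/-- A quotient of two elements with the same `ℓ`-th power is a power of `ζ`. -/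
lemma G13_exists_zpow {E : Type u} [Field E] {ℓ : ℕ} (hℓ : ℓ ≠ 0) {ζ : E}
    (hζ : IsPrimitiveRoot ζ ℓ) {x y : E} (hy : y ≠ 0) (h : x ^ ℓ = y ^ ℓ) :
    ∃ i : ℤ, x = ζ ^ i * y := by
  have : NeZero ℓ := ⟨hℓ⟩
  have h1 : (x / y) ^ ℓ = 1 := by
    rw [div_pow, h, div_self (pow_ne_zero _ hy)]
  obtain ⟨i, _, hi⟩ := hζ.eq_pow_of_pow_eq_one h1
  refine ⟨i, ?_⟩
  rw [zpow_natCast, hi, div_mul_cancel₀ _ hy]

end General

variable {k F L Ω : Type u} [Field k] [Field F] [Algebra k F] [Field L] [Algebra F[X] L]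
  [Field Ω] [Algebra L Ω] [IsAlgClosure k F] [IsFractionRing F[X] L] [IsAlgClosure L Ω]
  [Algebra F Ω] {ℓ : ℕ} {g D : k[X]} [hG : IsGood ℓ (cOver k F L Ω g D)] {ζ : k}
  {hζ : (zA F L Ω ζ) ^ ℓ = 1}

omit [IsAlgClosure k F] [IsFractionRing F[X] L] [IsAlgClosure L Ω] hG in
lemma G13_map_aeval (hF : CompatF F L Ω) {M : Type u} [Field M] [Algebra L M] [Algebra F M]
    (hFM : CompatF F L M) (j : Ω →ₐ[L] M) (x : Ω) (P : F[X]) :
    j (aeval x P) = aeval (j x) P := by
  have hj : ∀ c : F, j (algebraMap F Ω c) = algebraMap F M c := by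
    intro c
    rw [hF c, hFM c, j.commutes]
  have h1 := Polynomial.hom_eval₂ P (algebraMap F Ω) (j : Ω →+* M) x
  have h2 : (j : Ω →+* M).comp (algebraMap F Ω) = algebraMap F M := by
    ext c
    exact hj c
  rw [h2] at h1
  exact h1

omit [IsAlgClosure k F] [IsFractionRing F[X] L] [IsAlgClosure L Ω] [Algebra F Ω] hG in
lemma G13_zA {A : Type u} [Field A] [Algebra L A] [Algebra F A] (hFA : CompatF F L A) (ζ : k) :
    zA F L A ζ = algebraMap F A (algebraMap k F ζ) := by
  rw [hFA]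
  unfold zA base
  simp

omit [IsAlgClosure k F] [IsFractionRing F[X] L] [IsAlgClosure L Ω] [Algebra F Ω] hG in
lemma G13_map_zA {M : Type u} [Field M] [Algebra L M] (j : Ω →ₐ[L] M) (ζ : k) :
    j (zA F L Ω ζ) = zA F L M ζ := by
  unfold zA base
  simp

omit [IsAlgClosure k F] [IsFractionRing F[X] L] [IsAlgClosure L Ω] [Algebra F Ω] in
lemma G13_map_root {M : Type u} [Field M] [Algebra L M] [hGM : IsGood ℓ (cOver k F L M g D)]
    (j : Ω →ₐ[L] M) {θ : Ω} (hθ : θ ∈ rts (cOver k F L Ω g D)) :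
    j θ ∈ rts (cOver k F L M g D) := by
  have h1 : cOver k F L Ω g D ≠ 0 := (IsGood.separable ℓ (f := cOver k F L Ω g D)).ne_zero
  have h2 : cOver k F L M g D ≠ 0 := (IsGood.separable ℓ (f := cOver k F L M g D)).ne_zero
  rw [mem_rts h1] at hθ
  rw [mem_rts h2]
  have h3 : aeval θ (curvePoly k F L g D) = 0 := by
    rw [aeval_def, ← eval_map]
    exact hθ
  have h4 : aeval (j θ) (curvePoly k F L g D) = 0 := by
    rw [aeval_algHom_apply, h3, map_zero]
  rw [aeval_def, ← eval_map] at h4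
  exact h4

omit [IsAlgClosure k F] [IsFractionRing F[X] L] [Algebra F Ω] in
lemma G13_exists_root {M : Type u} [Field M] [Algebra L M] [hGM : IsGood ℓ (cOver k F L M g D)]
    (j : Ω →ₐ[L] M) {θ : M} (hθ : θ ∈ rts (cOver k F L M g D)) :
    ∃ θ₀ ∈ rts (cOver k F L Ω g D), j θ₀ = θ := by
  have hA : IsAlgClosed Ω := IsAlgClosure.isAlgClosed L
  have h1 : cOver k F L Ω g D ≠ 0 := (IsGood.separable ℓ (f := cOver k F L Ω g D)).ne_zero
  have h2 : cOver k F L M g D ≠ 0 := (IsGood.separable ℓ (f := cOver k F L M g D)).ne_zero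
  have hm : (cOver k F L Ω g D).map (j : Ω →+* M) = cOver k F L M g D := by
    unfold cOver
    rw [Polynomial.map_map, AlgHom.comp_algebraMap]
  have hs : (cOver k F L Ω g D).Splits := IsAlgClosed.splits _
  have hr : (cOver k F L M g D).roots = (cOver k F L Ω g D).roots.map (j : Ω →+* M) := by
    rw [← hm]
    exact hs.roots_map (j : Ω →+* M)
  unfold rts at hθ ⊢
  rw [Multiset.mem_toFinset, hr, Multiset.mem_map] at hθ
  obtain ⟨θ₀, h3, h4⟩ := hθ
  exact ⟨θ₀, by rwa [Multiset.mem_toFinset], h4⟩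

/-- The exponents `n` exist. -/
lemma G13_exists_n (hF : CompatF F L Ω) (H : GlobHyp ℓ g D ζ) {P : F[X]} (hP : P ≠ 0) {z : Ω → Ω}
    (hz : ∀ θ ∈ rts (cOver k F L Ω g D), z θ ^ ℓ = aeval θ P) (σ : Ω ≃ₐ[L] Ω) :
    ∃ n : Ω → ℤ, ∀ θ ∈ rts (cOver k F L Ω g D),
      σ (z θ) = zA F L Ω ζ ^ n (σ θ) * z (σ θ) := by
  have h1 : ∀ θ' : Ω, ∃ i : ℤ, θ' ∈ rts (cOver k F L Ω g D) →
      σ (z (σ.symm θ')) = zA F L Ω ζ ^ i * z θ' := by
    intro θ'
    by_cases hθ : θ' ∈ rts (cOver k F L Ω g D)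
    · have hθ2 : σ.symm θ' ∈ rts (cOver k F L Ω g D) := by
        have := G13_map_root (g := g) (D := D) (ℓ := ℓ) (k := k) (F := F)
          (σ.symm : Ω →ₐ[L] Ω) hθ
        exact this
      have h2 : z θ' ≠ 0 := by
        intro h0
        have h3 := hz θ' hθ
        rw [h0, zero_pow H.prime.ne_zero] at h3
        have h4 := aeval_root_injective hF H hθ (a₁ := P) (a₂ := 0) (by rw [map_zero, ← h3])
        exact hP h4
      have h5 : σ (z (σ.symm θ')) ^ ℓ = z θ' ^ ℓ := by
        rw [← map_pow, hz _ hθ2, hz _ hθ]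
        have h6 := G13_map_aeval hF hF (σ : Ω →ₐ[L] Ω) (σ.symm θ') P
        have h7 : (σ : Ω →ₐ[L] Ω) (σ.symm θ') = θ' := σ.apply_symm_apply θ'
        rw [h7] at h6
        exact h6
      have h8 : IsPrimitiveRoot (zA F L Ω ζ) ℓ := zA_primitive H
      obtain ⟨i, hi⟩ := G13_exists_zpow H.prime.ne_zero h8 h2 h5
      exact ⟨i, fun _ => hi⟩
    · exact ⟨0, fun h => absurd h hθ⟩
  choose n hn using h1
  refine ⟨n, fun θ hθ => ?_⟩
  have h2 : σ θ ∈ rts (cOver k F L Ω g D) := by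
    have := G13_map_root (g := g) (D := D) (ℓ := ℓ) (k := k) (F := F) (σ : Ω →ₐ[L] Ω) hθ
    exact this
  have h3 := hn (σ θ) h2
  rwa [AlgEquiv.symm_apply_apply] at h3

/-- The good places, abstract form. -/
lemma G13_dvd_aux (hF : CompatF F L Ω) (H : GlobHyp ℓ g D ζ) {c : Coch ℓ k F L Ω g D}
    {P : F[X]} {z : Ω → Ω} (hP : P.Monic)
    (hfib : ∀ a : F, ℓ ∣ ∑ β ∈ (g.map (algebraMap k F) - C a).roots.toFinset, P.rootMultiplicity β)
    (hz : ∀ θ ∈ rts (cOver k F L Ω g D), z θ ^ ℓ = aeval θ P)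
    (hn : ∀ (σ : Ω ≃ₐ[L] Ω) (n : Ω → ℤ), (∀ θ ∈ rts (cOver k F L Ω g D),
        σ (z θ) = zA F L Ω ζ ^ n (σ θ) * z (σ θ)) →
          vJ (zA F L Ω ζ) hζ (c 1 σ) = ram n)
    {r a : F} (hr : aeval r g = a) (hDa : aeval a D ≠ 0)
    {K M : Type u} [Field K] [Algebra L K] [Field M] [Algebra K M] [Algebra L M]
    [IsScalarTower L K M] [IsAlgClosure K M] [Algebra F M] (hFM : CompatF F L M)
    {v : AbsoluteValue M ℝ} (hv : LocCtx v a (tA F L M))
    (hinv : ∀ (σ : M ≃ₐ[K] M) x, v (σ x) = v x)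
    (hval : ∀ x : K, x ≠ 0 → ∃ i : ℤ, v (algebraMap K M x) = v (tA F L M - algebraMap F M a) ^ i)
    (j : Ω →ₐ[L] M) (Q₁ : JacOver ℓ (curvePoly k F L g D) M)
    (hQ₁ : ∀ (σ : M ≃ₐ[K] M) (σ' : Ω ≃ₐ[L] Ω), (∀ x, j (σ' x) = σ (j x)) →
      push ℓ (curvePoly k F L g D) j (c 1 σ') =
        push ℓ (curvePoly k F L g D) (σ.restrictScalars L : M →ₐ[L] M) Q₁ - Q₁) :
    ℓ ∣ P.rootMultiplicity r := by
  have hMc : IsAlgClosed M := IsAlgClosure.isAlgClosed K
  have hGM : IsGood ℓ (cOver k F L M g D) := isGood_cOver H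
  have hgm : (g.map (algebraMap k F)).Monic := H.monic.map _
  have hgd : (g.map (algebraMap k F)).natDegree = g.natDegree := natDegree_map _
  have hm0 : g.natDegree ≠ 0 := by
    intro h0
    have h1 := H.cop
    rw [h0, Nat.coprime_zero_left] at h1
    exact H.prime.one_lt.ne' h1
  have hm : (g.map (algebraMap k F)).natDegree ≠ 0 := by rwa [hgd]
  have hmℓ : (g.map (algebraMap k F)).natDegree.Coprime ℓ := by
    rw [hgd]
    exact H.cop
  have hfl : cOver k F L M g D = locPoly (g.map (algebraMap k F)) (tA F L M)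
      (aeval (tA F L M) (D.map (algebraMap k F))) := cOver_eq_locPoly hFM g D
  obtain ⟨d, hd⟩ : ∃ d : M, d = aeval (tA F L M) (D.map (algebraMap k F)) := ⟨_, rfl⟩
  rw [← hd] at hfl
  have hdv : v d = 1 := by
    rw [hd]
    refine hv.v_eq_one (hv.residue_eval hv.lt_one (D.map (algebraMap k F))) ?_
    rw [eval_map, ← aeval_def]
    exact hDa
  have hd0 : d ≠ 0 := by
    rintro rfl
    rw [map_zero] at hdv
    exact zero_ne_one hdv
  have hs : (locPoly (g.map (algebraMap k F)) (tA F L M) d).Separable := by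
    rw [← hfl]
    exact IsGood.separable ℓ
  have hFK : ∀ c : F, ∃ x : K, algebraMap K M x = algebraMap F M c := by
    intro c
    refine ⟨algebraMap L K (algebraMap F[X] L (C c)), ?_⟩
    rw [hFM, ← IsScalarTower.algebraMap_apply L K M]
  have htK : ∃ x : K, algebraMap K M x = tA F L M := by
    refine ⟨algebraMap L K (algebraMap F[X] L X), ?_⟩
    unfold tA
    rw [← IsScalarTower.algebraMap_apply L K M]
  have hf : ((curvePoly k F L g D).map (algebraMap L K)).map (algebraMap K M) =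
      cOver k F L M g D := by
    rw [Polynomial.map_map, ← IsScalarTower.algebraMap_eq L K M]
  have hΓ := hv.locGrp hf hinv hval hFK htK
  have hℓK : (ℓ : K) ≠ 0 := by
    intro h0
    apply H.ne
    have h1 : (algebraMap L K) ((algebraMap F[X] L) ((mapRingHom (algebraMap k F)) (C (ℓ : k)))) =
        (ℓ : K) := by simp
    rw [h0, map_eq_zero, map_eq_zero_iff _ (IsFractionRing.injective F[X] L), coe_mapRingHom,
      Polynomial.map_C, C_eq_zero, map_eq_zero] at h1
    exact h1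
  have hp : (ringExpChar K).Coprime ℓ := G13_coprime H.prime hℓK
  have hζF : IsPrimitiveRoot (algebraMap k F ζ) ℓ :=
    H.zeta.map_of_injective (algebraMap k F).injective
  have hζM : IsPrimitiveRoot (algebraMap F M (algebraMap k F ζ)) ℓ :=
    hζF.map_of_injective (algebraMap F M).injective
  have hjζ : j (zA F L Ω ζ) = algebraMap F M (algebraMap k F ζ) := by
    rw [G13_map_zA, G13_zA hFM]
  have hjζ' : (j : Ω →+* M) (zA F L Ω ζ) ^ ℓ = 1 := by
    rw [← map_pow, hζ, map_one]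
  -- the functions over `M`
  have hinvj : ∀ x, Function.invFun j (j x) = x :=
    Function.leftInverse_invFun (j : Ω →+* M).injective
  obtain ⟨zM, hzM⟩ : ∃ zM : M → M, ∀ x, zM (j x) = j (z x) :=
    ⟨fun θ => j (z (Function.invFun j θ)), fun x => congrArg (fun y => j (z y)) (hinvj x)⟩
  have hzM' : ∀ θ ∈ rts (cOver k F L M g D), zM θ ^ ℓ = aeval θ P := by
    intro θ hθ
    obtain ⟨θ₀, h1, rfl⟩ := G13_exists_root (ℓ := ℓ) j hθ
    rw [hzM, ← map_pow, hz θ₀ h1, G13_map_aeval hF hFM]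
  refine hv.good_place' hp hgm hm hmℓ hd0 hfl hζF hζM hΓ hdv ?_ hP.ne_zero hzM'
    (vJ ((j : Ω →+* M) (zA F L Ω ζ)) hjζ' Q₁) ?_ (hfib a) ?_
  · intro r' θ hθ θ' hθ'
    rw [hfl] at hθ hθ'
    obtain ⟨τ, hτ⟩ := hv.exists_conj_near hgm hm hd0 hs hinv hval hFK htK hθ hθ'
    exact ⟨galSym hf τ, ⟨τ, rfl⟩, by rw [galSym_apply]; exact hτ⟩
  · rintro _ ⟨τ, rfl⟩
    obtain ⟨τ', hτ'⟩ := exists_restrict j (τ.restrictScalars L)
    have hτ'' : ∀ x, j (τ' x) = τ (j x) := hτ'
    obtain ⟨n, hn'⟩ := G13_exists_n hF H hP.ne_zero hz τ'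
    refine ⟨fun θ => n (Function.invFun j θ), ?_, ?_⟩
    · have h1 := hQ₁ τ τ' hτ''
      have h2 : push ℓ (curvePoly k F L g D) (τ.restrictScalars L : M →ₐ[L] M) Q₁ =
          symJ (galSym hf τ) Q₁ := by
        unfold push symJ
        apply G13_jacMap_congr
        ext x
        rfl
      rw [h2] at h1
      have h3 : ((galSym hf τ : Sym (cOver k F L M g D)) : M ≃+* M)
          ((j : Ω →+* M) (zA F L Ω ζ)) = (j : Ω →+* M) (zA F L Ω ζ) := by
        rw [galSym_apply]
        have h4 : (j : Ω →+* M) (zA F L Ω ζ) = zA F L M ζ := G13_map_zA j ζ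
        rw [h4]
        have h5 : zA F L M ζ = algebraMap K M (algebraMap L K (base k F L L (C ζ))) := by
          rw [← IsScalarTower.algebraMap_apply L K M]
          rfl
        rw [h5, τ.commutes]
      rw [← vJ_symJ _ hjζ' _ h3, ← vJ_sub, ← h1]
      have h6 : vJ ((j : Ω →+* M) (zA F L Ω ζ)) hjζ' (push ℓ (curvePoly k F L g D) j (c 1 τ')) =
          push ℓ (curvePoly k F L g D) j (vJ (zA F L Ω ζ) hζ (c 1 τ')) := by
        unfold push
        exact vJ_jacMap _ _ _ hζ hjζ' _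
      rw [h6, hn τ' n hn']
      unfold push
      apply jacMap_ram
      intro θ _
      exact congrArg n (hinvj θ)
    · intro θ hθ
      obtain ⟨θ₀, h1, rfl⟩ := G13_exists_root (ℓ := ℓ) j hθ
      have h2 := congrArg j (hn' θ₀ h1)
      rw [map_mul, map_zpow₀, hjζ, hτ''] at h2
      have h3 : ((galSym hf τ : Sym (cOver k F L M g D)) : M ≃+* M) (j θ₀) = j (τ' θ₀) := by
        rw [galSym_apply, hτ'']
      rw [h3, hzM, hzM, galSym_apply, h2]
      change _ = _ ^ n (Function.invFun j (j (τ' θ₀))) * _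
      rw [hinvj]
  · rw [eval_map, ← aeval_def]
    exact hr

/-- The good places. -/
lemma G13_dvd (hF : CompatF F L Ω) (H : GlobHyp ℓ g D ζ) {c : Coch ℓ k F L Ω g D} (hLT : LTc c)
    {P : F[X]} {z : Ω → Ω} (hP : P.Monic)
    (hfib : ∀ a : F, ℓ ∣ ∑ β ∈ (g.map (algebraMap k F) - C a).roots.toFinset, P.rootMultiplicity β)
    (hz : ∀ θ ∈ rts (cOver k F L Ω g D), z θ ^ ℓ = aeval θ P)
    (hn : ∀ (σ : Ω ≃ₐ[L] Ω) (n : Ω → ℤ), (∀ θ ∈ rts (cOver k F L Ω g D),
        σ (z θ) = zA F L Ω ζ ^ n (σ θ) * z (σ θ)) →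
          vJ (zA F L Ω ζ) hζ (c 1 σ) = ram n)
    {r a : F} (hr : aeval r g = a) (hDa : aeval a D ≠ 0) : ℓ ∣ P.rootMultiplicity r := by
  have hFc : IsAlgClosed F := IsAlgClosure.isAlgClosed k
  let _ : Algebra F (AlgebraicClosure ((plc a).adicCompletion L)) :=
    ((algebraMap L (AlgebraicClosure ((plc a).adicCompletion L))).comp
      ((algebraMap F[X] L).comp C)).toAlgebra
  have hFM : CompatF F L (AlgebraicClosure ((plc a).adicCompletion L)) := fun c => rfl
  have hFK : ∀ c : F, algebraMap F (AlgebraicClosure ((plc a).adicCompletion L)) c =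
      algebraMap ((plc a).adicCompletion L) (AlgebraicClosure ((plc a).adicCompletion L))
        (algebraMap F[X] ((plc a).adicCompletion L) (C c)) := by
    intro c
    rw [hFM, IsScalarTower.algebraMap_apply L ((plc a).adicCompletion L)
      (AlgebraicClosure ((plc a).adicCompletion L)),
      ← IsScalarTower.algebraMap_apply F[X] L ((plc a).adicCompletion L)]
  have htK : algebraMap ((plc a).adicCompletion L) (AlgebraicClosure ((plc a).adicCompletion L))
        (algebraMap F[X] ((plc a).adicCompletion L) X) =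
      tA F L (AlgebraicClosure ((plc a).adicCompletion L)) := by
    unfold tA
    rw [IsScalarTower.algebraMap_apply L ((plc a).adicCompletion L)
      (AlgebraicClosure ((plc a).adicCompletion L)),
      ← IsScalarTower.algebraMap_apply F[X] L ((plc a).adicCompletion L)]
  obtain ⟨v, hv, hval, hinv, -⟩ := exists_locCtx (L := L)
    (M := AlgebraicClosure ((plc a).adicCompletion L)) a hFK
  rw [htK] at hv
  simp only [htK] at hval
  obtain ⟨j⟩ : Nonempty (Ω →ₐ[L] AlgebraicClosure ((plc a).adicCompletion L)) := by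
    have : Algebra.IsAlgebraic L Ω := IsAlgClosure.isAlgebraic
    exact ⟨IsAlgClosed.lift⟩
  obtain ⟨Q₁, hQ₁⟩ := hLT a 1 (AlgebraicClosure ((plc a).adicCompletion L)) j
  exact G13_dvd_aux hF H hP hfib hz hn hr hDa hFM hv hinv hval j Q₁ hQ₁

theorem exists_hasExp (hF : CompatF F L Ω) (H : GlobHyp ℓ g D ζ) {c : Coch ℓ k F L Ω g D}
    (hc : IsTateCocycle ℓ (curvePoly k F L g D) c) (hLT : LTc c) :
    ∃ e : F → ℤ, HasExp hζ c e := by
  have hFc : IsAlgClosed F := IsAlgClosure.isAlgClosed k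
  obtain ⟨P, z, hP, hfib, hz, hn⟩ := exists_kummer hF H hζ hc
  have hdvd : ∀ r : F, r ∉ RR F g D → ℓ ∣ P.rootMultiplicity r := by
    intro r hr
    rw [mem_RR H] at hr
    exact G13_dvd hF H hLT hP hfib hz hn rfl hr
  set W : F[X] := ∏ β ∈ P.roots.toFinset \ RR F g D, (X - C β) ^ (P.rootMultiplicity β / ℓ)
    with hW
  have hWm : W.Monic := monic_prod_of_monic _ _ fun β _ => (monic_X_sub_C β).pow _
  have hPW : P = W ^ ℓ * ∏ β ∈ RR F g D, (X - C β) ^ P.rootMultiplicity β := by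
    have h1 : P = ∏ β ∈ P.roots.toFinset, (X - C β) ^ P.rootMultiplicity β := by
      have h2 : P = (P.roots.map fun a => X - C a).prod :=
        (IsAlgClosed.splits P).eq_prod_roots_of_monic hP
      conv_lhs => rw [h2]
      rw [Finset.prod_multiset_map_count]
      refine Finset.prod_congr rfl fun β _ => ?_
      rw [count_roots]
    have h3 : W ^ ℓ = ∏ β ∈ P.roots.toFinset \ RR F g D, (X - C β) ^ P.rootMultiplicity β := by
      rw [hW, ← Finset.prod_pow]
      refine Finset.prod_congr rfl fun β hβ => ?_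
      rw [← pow_mul, Nat.div_mul_cancel (hdvd β (Finset.mem_sdiff.mp hβ).2)]
    have h4 : ∏ β ∈ RR F g D, (X - C β) ^ P.rootMultiplicity β =
        ∏ β ∈ P.roots.toFinset ∩ RR F g D, (X - C β) ^ P.rootMultiplicity β := by
      symm
      refine Finset.prod_subset Finset.inter_subset_right fun β hβ hn' => ?_
      have h5 : β ∉ P.roots.toFinset := fun h => hn' (Finset.mem_inter.mpr ⟨h, hβ⟩)
      have h6 : P.rootMultiplicity β = 0 := by
        rw [← count_roots]
        rw [Multiset.mem_toFinset] at h5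
        exact Multiset.count_eq_zero_of_notMem h5
      rw [h6, pow_zero]
    rw [h3, h4]
    conv_lhs => rw [h1]
    rw [mul_comm]
    exact (Finset.prod_inter_mul_prod_sdiff _ _ _).symm
  have hWθ : ∀ θ ∈ rts (cOver k F L Ω g D), aeval θ W ≠ 0 := by
    intro θ hθ h0
    exact hWm.ne_zero (aeval_root_injective hF H hθ (a₁ := W) (a₂ := 0) (by rw [map_zero, h0]))
  refine ⟨fun β => (P.rootMultiplicity β : ℤ), ?_, fun θ => z θ / aeval θ W, ?_, ?_⟩
  · intro a
    by_cases hDa : aeval a D = 0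
    · have h1 : (RR F g D).filter (fun β => aeval β g = a) =
          (g.map (algebraMap k F) - C a).roots.toFinset := by
        have hne : g.map (algebraMap k F) - C a ≠ 0 := by
          intro h0
          have h2 : g.map (algebraMap k F) = C a := sub_eq_zero.mp h0
          have h3 := congrArg natDegree h2
          rw [natDegree_map, natDegree_C] at h3
          have h4 := H.cop
          rw [h3, Nat.coprime_zero_left] at h4
          exact H.prime.one_lt.ne' h4
        ext β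
        rw [Finset.mem_filter, mem_RR H, Multiset.mem_toFinset, mem_roots hne, IsRoot.def, eval_sub,
          eval_C, eval_map, ← aeval_def, sub_eq_zero]
        constructor
        · exact fun h => h.2
        · rintro rfl
          exact ⟨hDa, rfl⟩
      rw [h1]
      have h5 := hfib a
      exact_mod_cast h5
    · have h1 : (RR F g D).filter (fun β => aeval β g = a) = ∅ := by
        rw [Finset.filter_eq_empty_iff]
        intro β hβ h
        rw [mem_RR H, h] at hβ
        exact hDa hβ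
      rw [h1, Finset.sum_empty]
      exact dvd_zero _
  · intro θ hθ
    rw [div_pow, hz θ hθ]
    conv_lhs => rw [hPW]
    rw [map_mul, map_pow, mul_div_cancel_left₀ _ (pow_ne_zero _ (hWθ θ hθ)), map_prod]
    refine Finset.prod_congr rfl fun β _ => ?_
    rw [map_pow, map_sub, aeval_X, aeval_C, zpow_natCast]
  · intro σ n hσ
    refine hn σ n fun θ hθ => ?_
    have h1 := hσ θ hθ
    have h2 : σ (aeval θ W) = aeval (σ θ) W := G13_map_aeval hF hF (σ : Ω →ₐ[L] Ω) θ W
    have h3 : σ θ ∈ rts (cOver k F L Ω g D) :=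
      G13_map_root (g := g) (D := D) (ℓ := ℓ) (k := k) (F := F) (σ : Ω →ₐ[L] Ω) hθ
    have h4 := hWθ _ h3
    rw [map_div₀, h2, div_eq_iff h4] at h1
    rw [h1]
    field_simp

end Pool.Agent.Lib.MP_89bcae_ag.Sup
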