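import Mathlib
import Pool.Agent.Lib.MP_89bcae_ag.Q.K025
import Pool.Agent.Lib.MP_89bcae_ag.Q.K039
import Pool.Agent.Lib.MP_89bcae_ag.Q.K048

open Polynomial IsDedekindDomain

open scoped Classical

set_option linter.unusedSectionVars false

namespace Pool.Agent.Lib.MP_89bcae_ag.Sup

universe u

variable {k F L Ω : Type u} [Field k] [Field F] [Algebra k F] [Field L] [Algebra F[X] L]
  [Field Ω] [Algebra L Ω] [IsAlgClosure k F] [IsFractionRing F[X] L] [IsAlgClosure L Ω]
  [Algebra F Ω] {ℓ : ℕ} {g E : k[X]} [hG : IsGood ℓ (cOver k F L Ω g 1)] {ζ : k}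
  {hζ : (zA F L Ω ζ) ^ ℓ = 1} {N : Subgroup (Ω ≃ₐ[L] Ω)}

/-- Local data at `t = a`. -/
structure LocDat (F L : Type u) [Field F] [Field L] [Algebra F[X] L] [IsFractionRing F[X] L]
    (a : F) (M : Type u) [Field M] [Algebra ((plc a).adicCompletion L) M] [Algebra L M]
    [IsScalarTower L ((plc a).adicCompletion L) M] [Algebra F M] (v : AbsoluteValue M ℝ) :
    Prop where
  compat : CompatF F L M
  ctx : LocCtx v a (tA F L M)
  inv : ∀ (σ : M ≃ₐ[(plc a).adicCompletion L] M) x, v (σ x) = v x
  val : ∀ x : (plc a).adicCompletion L, x ≠ 0 → ∃ i : ℤ,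
    v (algebraMap ((plc a).adicCompletion L) M x) = v (tA F L M - algebraMap F M a) ^ i
  iso : ∀ (w : M ≃+* M) (φ : (plc a).adicCompletion L ≃+* (plc a).adicCompletion L),
    (∀ x, Valued.v (φ x) = Valued.v x) →
    (∀ x, w (algebraMap ((plc a).adicCompletion L) M x) =
      algebraMap ((plc a).adicCompletion L) M (φ x)) → ∀ x, v (w x) = v x

theorem exists_locDat [IsAlgClosed F] (a : F) :
    ∃ (M : Type u) (_ : Field M) (_ : Algebra ((plc a).adicCompletion L) M)
      (_ : IsAlgClosure ((plc a).adicCompletion L) M) (_ : Algebra L M)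
      (_ : IsScalarTower L ((plc a).adicCompletion L) M) (_ : Algebra F M)
      (v : AbsoluteValue M ℝ) (_ : Ω →ₐ[L] M), LocDat F L a M v := by
  have hΩalg : Algebra.IsAlgebraic L Ω := IsAlgClosure.isAlgebraic
  let iF : Algebra F (AlgebraicClosure ((plc a).adicCompletion L)) :=
    ((algebraMap L (AlgebraicClosure ((plc a).adicCompletion L))).comp
      ((algebraMap F[X] L).comp (C : F →+* F[X]))).toAlgebra
  have hFM : CompatF F L (AlgebraicClosure ((plc a).adicCompletion L)) := fun _ => rfl
  have hXL : ∀ P : F[X], algebraMap ((plc a).adicCompletion L)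
      (AlgebraicClosure ((plc a).adicCompletion L))
      (algebraMap F[X] ((plc a).adicCompletion L) P) =
      algebraMap L (AlgebraicClosure ((plc a).adicCompletion L)) (algebraMap F[X] L P) := by
    intro P
    rw [IsScalarTower.algebraMap_apply F[X] L ((plc a).adicCompletion L),
      ← IsScalarTower.algebraMap_apply L ((plc a).adicCompletion L)]
  obtain ⟨v, hv, hval, hinv, hsemi⟩ := exists_locCtx (L := L)
    (M := AlgebraicClosure ((plc a).adicCompletion L)) a (fun c => by rw [hXL, hFM])
  rw [hXL] at hv hval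
  let j : Ω →ₐ[L] AlgebraicClosure ((plc a).adicCompletion L) := IsAlgClosed.lift
  exact ⟨AlgebraicClosure ((plc a).adicCompletion L), inferInstance, inferInstance, inferInstance,
    inferInstance, inferInstance, iF, v, j, ⟨hFM, hv, hinv, hval, hsemi⟩⟩

section

variable {a : F} {M : Type u} [Field M] [Algebra ((plc a).adicCompletion L) M]
  [IsAlgClosure ((plc a).adicCompletion L) M] [Algebra L M]
  [IsScalarTower L ((plc a).adicCompletion L) M] [Algebra F M] {v : AbsoluteValue M ℝ}

lemma LocDat.hfK (g D : k[X]) : ((curvePoly k F L g D).map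
    (algebraMap L ((plc a).adicCompletion L))).map
      (algebraMap ((plc a).adicCompletion L) M) = cOver k F L M g D := by
  rw [Polynomial.map_map, ← IsScalarTower.algebraMap_eq]

theorem LocDat.locGrp (hd : LocDat F L a M v) (g D : k[X]) :
    LocGrp (ringExpChar ((plc a).adicCompletion L)) F v (tA F L M)
      (v (tA F L M - algebraMap F M a))
      (galSym (LocDat.hfK (k := k) (F := F) (L := L) (a := a) (M := M) g D)).range := by
  refine hd.ctx.locGrp _ hd.inv hd.val (fun c =>
    ⟨algebraMap L ((plc a).adicCompletion L) (algebraMap F[X] L (C c)), ?_⟩)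
    ⟨algebraMap L ((plc a).adicCompletion L) (algebraMap F[X] L X), ?_⟩
  · rw [← IsScalarTower.algebraMap_apply, ← hd.compat]
  · rw [← IsScalarTower.algebraMap_apply]
    rfl

lemma LocDat.coprime (H : GlobHyp ℓ g E ζ) :
    (ringExpChar ((plc a).adicCompletion L)).Coprime ℓ := by
  have hℓK : (ℓ : (plc a).adicCompletion L) ≠ 0 := by
    intro h0
    apply H.ne
    let ι : k →+* (plc a).adicCompletion L :=
      (algebraMap L ((plc a).adicCompletion L)).comp ((algebraMap F[X] L).comp
        ((C : F →+* F[X]).comp (algebraMap k F)))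
    apply ι.injective
    rw [map_natCast, map_zero]
    exact h0
  rcases expChar_is_prime_or_one ((plc a).adicCompletion L)
    (ringExpChar ((plc a).adicCompletion L)) with h1 | h1
  · rw [Nat.coprime_primes h1 H.prime]
    intro h2
    apply hℓK
    rw [← h2]
    have h3 : ringExpChar ((plc a).adicCompletion L) = ringChar ((plc a).adicCompletion L) := by
      have h4 : 1 < ringExpChar ((plc a).adicCompletion L) := h1.one_lt
      unfold ringExpChar at h4 ⊢
      rcases max_cases (ringChar ((plc a).adicCompletion L)) 1 with h5 | h5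
      · exact h5.1
      · rw [h5.1] at h4
        exact absurd h4 (lt_irrefl _)
    rw [h3]
    exact ringChar.Nat.cast_ringChar
  · rw [h1]
    exact Nat.coprime_one_left ℓ

/-- The restriction to `Ω` of an automorphism of `M` over the completion. -/
lemma LocDat.restrict (j : Ω →ₐ[L] M) (σ : M ≃ₐ[(plc a).adicCompletion L] M) :
    ∃ σ' : Ω ≃ₐ[L] Ω, ∀ x, j (σ' x) = σ (j x) :=
  exists_restrict j (σ.restrictScalars L)

/-- A local semilinear automorphism with a given restriction `U` to `F`, `U a = a`. -/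
theorem LocDat.exists_semilinear (hd : LocDat F L a M v) (j : Ω →ₐ[L] M)
    (γ₀ : AutO k F L Ω) (ha : resF γ₀ a = a) :
    ∃ (w : M ≃+* M) (φ : (plc a).adicCompletion L ≃+* (plc a).adicCompletion L)
      (γ : AutO k F L Ω),
      (∀ x, w (algebraMap ((plc a).adicCompletion L) M x) =
        algebraMap ((plc a).adicCompletion L) M (φ x)) ∧
      (∀ x, v (w x) = v x) ∧ (∀ x, j ((γ : Ω ≃+* Ω) x) = w (j x)) ∧ resF γ = resF γ₀ := by
  have hFc : IsAlgClosed F := IsAlgClosure.isAlgClosed k
  have hφ : ∃ φ : (plc a).adicCompletion L ≃+* (plc a).adicCompletion L,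
      (∀ x : L, φ (algebraMap L _ x) = algebraMap L _ (coefL L (resF γ₀ : F ≃+* F) x)) ∧
      ∀ x, Valued.v (φ x) = Valued.v x := by
    have h1 := exists_adic_equiv L (resF γ₀ : F ≃+* F) a
    have h2 : (resF γ₀ : F ≃+* F) a = a := ha
    rwa [h2] at h1
  obtain ⟨φ, hφL, hφv⟩ := hφ
  obtain ⟨w, hw⟩ := exists_extend_alg (M := M) φ
  have hwL : ∀ x : L, w (algebraMap L M x) =
      algebraMap L M (coefL L (resF γ₀ : F ≃+* F) x) := by
    intro x
    rw [IsScalarTower.algebraMap_apply L ((plc a).adicCompletion L) M, hw, hφL,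
      ← IsScalarTower.algebraMap_apply L ((plc a).adicCompletion L)]
  obtain ⟨γ₁, hγ₁, hjγ₁⟩ := exists_compat j (coefL L (resF γ₀ : F ≃+* F)) w hwL
  have hγP : ∀ P : F[X], γ₁ (algebraMap L Ω (algebraMap F[X] L P)) =
      algebraMap L Ω (algebraMap F[X] L (P.map (resF γ₀ : F →+* F))) := by
    intro P
    rw [hγ₁, coefL_algebraMap]
    rfl
  let γ' : AutO k F L Ω := ⟨γ₁, fun p => by
    have h1 := hγP (p.map (algebraMap k F))
    have h2 : (p.map (algebraMap k F)).map (resF γ₀ : F →+* F) = p.map (algebraMap k F) := by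
      rw [Polynomial.map_map]
      congr 1
      exact (resF γ₀ : F →ₐ[k] F).comp_algebraMap
    rw [h2] at h1
    exact h1⟩
  have hres : resF γ' = resF γ₀ := by
    ext x
    have h1 := resF_spec γ' (C x)
    have h2 := hγP (C x)
    have h3 : (γ' : Ω ≃+* Ω) (algebraMap L Ω (algebraMap F[X] L (C x))) =
      γ₁ (algebraMap L Ω (algebraMap F[X] L (C x))) := rfl
    rw [h3, h2] at h1
    have h4 := IsFractionRing.injective F[X] L ((algebraMap L Ω).injective h1)
    rw [Polynomial.map_C, Polynomial.map_C] at h4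
    exact (C_injective h4).symm
  exact ⟨w, φ, γ', hw, hd.iso w φ hφv hw, hjγ₁, hres⟩

end

end Pool.Agent.Lib.MP_89bcae_ag.Sup
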