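import Mathlib
import Pool.Agent.Lib.MP_89bcae_ag.Q.K038
import Pool.Agent.Lib.MP_89bcae_ag.Q.K040
import Pool.Agent.Lib.MP_89bcae_ag.Q.K051

section

open Polynomial

open scoped Classical

set_option linter.unusedSectionVars false

namespace Pool.Agent.Lib.MP_89bcae_ag.Sup

universe u

variable {F M : Type u} [Field F] [Field M] [Algebra F M] {v : AbsoluteValue M ℝ} {a : F} {t : M}

lemma LocCtx.badCtx_lin' (h : LocCtx v a t) [IsAlgClosed M] {g : F[X]} {ℓ : ℕ} (hg : g.Monic)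
    (hm : g.natDegree ≠ 0) (hmℓ : g.natDegree.Coprime ℓ)
    (hroots : ∀ r, g.eval r = a → (derivative g).eval r ≠ 0) {δ : M}
    (hδ : δ ^ ℓ = t - algebraMap F M a) : BadCtx g (X - C a) a t δ ℓ := by
  refine ⟨hg, hm, hmℓ, ?_, ?_, hroots, ?_, ?_⟩
  · simp
  · simp
  · rw [hδ]; simp
  · simp only [map_sub, aeval_X, aeval_C]
    exact sub_ne_zero.mpr h.ne

theorem LocCtx.good_fixed (h : LocCtx v a t) {ℓ p : ℕ} (hp : p.Coprime ℓ) {g : F[X]}
    (hg : g.Monic) (hm : g.natDegree ≠ 0) (hmℓ : g.natDegree.Coprime ℓ)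
    (hroots : ∀ r, g.eval r = a → (derivative g).eval r ≠ 0) {f : M[X]}
    (hf : f = locPoly g t 1) [hG : IsGood ℓ f] {ζ : F} (hζ : IsPrimitiveRoot ζ ℓ)
    (hζ' : IsPrimitiveRoot (algebraMap F M ζ) ℓ) {ϖ : ℝ} {Γ : Subgroup (Sym f)}
    (hΓ : LocGrp p F v t ϖ Γ) {π' : M} (hπ : v π' = ϖ)
    (hπΓ : ∀ σ ∈ Γ, (σ : M ≃+* M) π' = π') (Q : Jac ℓ f)
    (hQ : ∀ σ ∈ Γ, zJ (algebraMap F M ζ) hζ'.pow_eq_one (symJ σ Q - Q) = symJ σ Q - Q) :
    ∀ σ ∈ Γ, symJ σ Q = Q := by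
  subst hf
  have hAC : IsAlgClosed M := hG.alg
  have hℓ0 : ℓ ≠ 0 := hG.prime.ne_zero
  have hf0 : locPoly g t 1 ≠ 0 := locPoly_ne_zero hg hm one_ne_zero
  obtain ⟨δ, hδ⟩ := IsAlgClosed.exists_pow_nat_eq (t - algebraMap F M a) (Nat.pos_of_ne_zero hℓ0)
  have hB := h.badCtx_lin' hg hm hmℓ hroots hδ
  have hroot : ∀ θ : M, (locPoly g t 1).eval θ = 0 → aeval θ g = t := fun θ hθ =>
    (eval_locPoly_eq_zero one_ne_zero).mp hθ
  have hfixr : ∀ σ ∈ Γ, ∀ θ : M, (locPoly g t 1).eval θ = 0 → (σ : M ≃+* M) θ = θ :=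
    fun σ hσ θ hθ => h.fix_root hB (σ : M ≃+* M) (hΓ.inv σ hσ) (hΓ.fix σ hσ) (hΓ.fixt σ hσ)
      (hroot θ hθ)
  have hnear : ∀ r' : F, ∀ θ, θ ∈ near v (locPoly g t 1) r' →
      (locPoly g t 1).eval θ = 0 ∧ v (θ - algebraMap F M r') < 1 := by
    intro r' θ hθ
    unfold near at hθ
    rw [Finset.mem_filter] at hθ
    exact ⟨(mem_rts hf0).mp hθ.1, hθ.2⟩
  have huniq : ∀ r' : F, ∀ θ ∈ near v (locPoly g t 1) r', ∀ θ' ∈ near v (locPoly g t 1) r',
      θ = θ' := by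
    intro r' θ hθ θ' hθ'
    obtain ⟨h1, h2⟩ := hnear r' θ hθ
    obtain ⟨h3, h4⟩ := hnear r' θ' hθ'
    apply h.rs_injOn hB (hroot θ h1) (hroot θ' h3)
    rw [h.rs_eq h2, h.rs_eq h4]
  have horb : ∀ r' : F, ∀ θ ∈ near v (locPoly g t 1) r', ∀ θ' ∈ near v (locPoly g t 1) r',
      ∃ σ ∈ Γ, (σ : M ≃+* M) θ = θ' := by
    intro r' θ hθ θ' hθ'
    refine ⟨1, Γ.one_mem, ?_⟩
    rw [huniq r' θ hθ θ' hθ']
    rfl
  have hfixζ : ∀ σ ∈ Γ, (σ : M ≃+* M) (algebraMap F M ζ) = algebraMap F M ζ :=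
    fun σ hσ => hΓ.fix σ hσ ζ
  have hstab : ∀ σ ∈ (Γ : Set (Sym (locPoly g t 1))),
      symJ σ (Q - zJ (algebraMap F M ζ) hζ'.pow_eq_one Q) =
        Q - zJ (algebraMap F M ζ) hζ'.pow_eq_one Q := by
    intro σ hσ
    have h1 := hQ σ hσ
    rw [map_sub] at h1
    rw [map_sub, ← zJ_symJ _ _ σ (hfixζ σ hσ)]
    have h2 : symJ σ Q - zJ (algebraMap F M ζ) hζ'.pow_eq_one (symJ σ Q) -
        (Q - zJ (algebraMap F M ζ) hζ'.pow_eq_one Q) =
        (symJ σ Q - Q) - (zJ (algebraMap F M ζ) hζ'.pow_eq_one (symJ σ Q) -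
          zJ (algebraMap F M ζ) hζ'.pow_eq_one Q) := by abel
    rw [← sub_eq_zero, h2, h1, sub_self]
  obtain ⟨D, hDcl, hDfix⟩ := exists_stable (algebraMap F M ζ) hζ'
    (Γ : Set (Sym (locPoly g t 1))) _ hstab
  obtain ⟨z', hz', hkum⟩ := kummer_formula (algebraMap F M ζ) hζ' Q D hDcl.symm
  intro σ hσ
  have hπ0 : π' ≠ 0 := by
    intro h0
    rw [h0, map_zero] at hπ
    exact hΓ.pos.ne hπ
  have hk := hkum σ (hfixζ σ hσ) (hDfix σ hσ) (fun _ => 0) (by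
    intro θ hθ
    rw [hfixr σ hσ θ hθ, zpow_zero, one_mul]
    refine h.root_fixed_of_val hℓ0 hp hζ (σ : M ≃+* M) (hΓ.inv σ hσ) (hΓ.fix σ hσ) (hz' θ hθ).1
      hπ0 (hπΓ σ hσ) ?_ ?_
    · rw [(hz' θ hθ).2, map_mul, sym_uval σ D (hDfix σ hσ), map_zpow₀, map_pow, map_neg, map_one,
        hfixr σ hσ θ hθ]
    · have hres := h.v_sub_rs (h.v_root_le hg hm (hroot θ hθ))
      have hmem : θ ∈ near v (locPoly g t 1) (rs F v θ) := by
        unfold near
        rw [Finset.mem_filter]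
        exact ⟨(mem_rts hf0).mpr hθ, hres⟩
      have hcard : (near v (locPoly g t 1) (rs F v θ)).card = 1 := by
        rw [Finset.card_eq_one]
        refine ⟨θ, ?_⟩
        ext x
        rw [Finset.mem_singleton]
        constructor
        · intro hx
          exact huniq _ x hx θ hmem
        · rintro rfl
          exact hmem
      have hval := h.val_uval (p := p) hg hm one_ne_zero hmℓ hΓ
        (by rw [map_one]; exact Val.one p (ϖ ^ ℓ)) D (hDfix) (r := rs F v θ)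
        (horb (rs F v θ)) hmem
      rw [hcard, pow_one] at hval
      have hv1 : v (z' θ ^ ℓ) = v (uval D θ) := by
        rw [(hz' θ hθ).2, map_mul, map_zpow₀, map_pow, v.map_neg, map_one, one_pow, one_zpow,
          one_mul]
      rw [hv1, hπ]
      exact hval)
  have h0 : (ram (fun _ => 0) : Jac ℓ (locPoly g t 1)) = 0 := by
    have h1 := ram_sub (ℓ := ℓ) (f := locPoly g t 1) (fun _ => 0) (fun _ => 0)
    simpa using h1
  rw [h0] at hk
  exact sub_eq_zero.mp hk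

end Pool.Agent.Lib.MP_89bcae_ag.Sup

end

section

open Polynomial

open scoped Classical

set_option linter.unusedSectionVars false

namespace Pool.Agent.Lib.MP_89bcae_ag.Sup

universe u

variable {F M : Type u} [Field F] [Field M] [Algebra F M] {v : AbsoluteValue M ℝ} {a : F} {t : M}

private lemma tc09_exists_zpow {K : Type*} [Field K] {ℓ : ℕ} (hℓ : ℓ ≠ 0) {ζ : K}
    (hζ : IsPrimitiveRoot ζ ℓ) {x y : K} (hy : y ≠ 0) (h : x ^ ℓ = y ^ ℓ) :
    ∃ k : ℤ, x = ζ ^ k * y := by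
  have : NeZero ℓ := ⟨hℓ⟩
  have h1 : (x / y) ^ ℓ = 1 := by
    rw [div_pow, h, div_self (pow_ne_zero _ hy)]
  obtain ⟨i, _, hi⟩ := hζ.eq_pow_of_pow_eq_one h1
  refine ⟨i, ?_⟩
  rw [zpow_natCast, hi, div_mul_cancel₀ _ hy]

private lemma tc09_res_const (x : F) : v (algebraMap F M x - algebraMap F M x) < 1 := by
  rw [sub_self, map_zero]; exact one_pos

private lemma tc09_res_sub (h : LocCtx v a t) {x y : M} {c d : F}
    (hc : v (x - algebraMap F M c) < 1) (hd : v (y - algebraMap F M d) < 1) :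
    v (x - y - algebraMap F M (c - d)) < 1 := by
  have e : x - y - algebraMap F M (c - d) =
      (x - algebraMap F M c) + -(y - algebraMap F M d) := by
    rw [map_sub]; ring
  rw [e]
  refine lt_of_le_of_lt (h.nonarch _ _) (max_lt hc ?_)
  rw [map_neg_eq_map]
  exact hd

private lemma tc09_res_prod (h : LocCtx v a t) {ι : Type*} (s : Finset ι) (x : ι → M) (c : ι → F)
    (hx : ∀ i ∈ s, v (x i - algebraMap F M (c i)) < 1) :
    v (∏ i ∈ s, x i - algebraMap F M (∏ i ∈ s, c i)) < 1 := by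
  induction s using Finset.induction_on with
  | empty => simp
  | insert i s hi ih =>
    rw [Finset.prod_insert hi, Finset.prod_insert hi]
    exact h.residue_mul (hx i (Finset.mem_insert_self _ _))
      (ih fun j hj => hx j (Finset.mem_insert_of_mem hj))

private lemma tc09_res_pow (h : LocCtx v a t) {x : M} {c : F}
    (hc : v (x - algebraMap F M c) < 1) (n : ℕ) :
    v (x ^ n - algebraMap F M (c ^ n)) < 1 := by
  have := h.residue_eval hc (X ^ n)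
  simpa using this

/-- An `ℓ`-th root of `ε = (-1) ^ (ℓ + 1)` fixed by `U`. -/
private lemma tc09_eps {K : Type*} [Field K] [IsAlgClosed K] {ℓ : ℕ} (hℓ : ℓ ≠ 0) (U : K ≃+* K)
    (h1 : ∀ x : K, x ^ ℓ = -1 → U x = x) :
    ∃ x₀ : K, x₀ ^ ℓ = (-1) ^ (ℓ + 1) ∧ U x₀ = x₀ := by
  rcases Nat.even_or_odd (ℓ + 1) with he | ho
  · exact ⟨1, by rw [one_pow, he.neg_one_pow], map_one U⟩
  · obtain ⟨x, hx⟩ := IsAlgClosed.exists_pow_nat_eq (-1 : K) (Nat.pos_of_ne_zero hℓ)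
    exact ⟨x, by rw [hx, ho.neg_one_pow], h1 x hx⟩

theorem LocCtx.sym_eval (h : LocCtx v a t) [IsAlgClosed M] {ℓ : ℕ} {g : F[X]}
    (hg : g.Monic) (hm : g.natDegree ≠ 0) (hmℓ : g.natDegree.Coprime ℓ)
    (hroots : ∀ r, g.eval r = a → (derivative g).eval r ≠ 0) {f : M[X]}
    (hf : f = locPoly g t 1) [hG : IsGood ℓ f] {ζ : F} (hζ : IsPrimitiveRoot ζ ℓ)
    (hζ' : IsPrimitiveRoot (algebraMap F M ζ) ℓ)
    (u : Sym f) (U : F ≃+* F) (huv : ∀ x, v ((u : M ≃+* M) x) = v x)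
    (huF : ∀ c : F, (u : M ≃+* M) (algebraMap F M c) = algebraMap F M (U c))
    (hut : (u : M ≃+* M) t = t) (hug : g.map (U : F →+* F) = g) (hUζ : U ζ = ζ)
    (hU : ∀ β, g.eval β = a → U β = β)
    (h1 : ∀ x : F, x ^ ℓ = -1 → U x = x)
    (e : F → ℤ) (Q : Jac ℓ f)
    (hQ : Q - zJ (algebraMap F M ζ) hζ'.pow_eq_one Q = ram fun θ => e (rs F v θ))
    (R₀ : Finset F) (hR₀ : ∀ β, β ∈ R₀ ↔ g.eval β = a) :
    ∃ n : M → ℤ, symJ u Q = Q + ram n ∧ ∀ θ ∈ rts f, ∀ x : F,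
      x ^ ℓ = ∏ β' ∈ R₀.erase (rs F v θ), (rs F v θ - β') ^ (e β' - e (rs F v θ)) →
      U x = ζ ^ n θ * x := by
  subst hf
  have hFac : IsAlgClosed F := h.alg
  have hℓ0 : ℓ ≠ 0 := hG.prime.ne_zero
  have hζ0 : ζ ≠ 0 := hζ.ne_zero hℓ0
  have huζ : (u : M ≃+* M) (algebraMap F M ζ) = algebraMap F M ζ := by rw [huF, hUζ]
  obtain ⟨δ, hδ⟩ := IsAlgClosed.exists_pow_nat_eq (t - algebraMap F M a) (Nat.pos_of_ne_zero hℓ0)
  have hB : BadCtx g (X - C a) a t δ ℓ := h.badCtx_lin' hg hm hmℓ hroots hδ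
  have hroot : ∀ {θ : M}, (locPoly g t (1 : M)).eval θ = 0 ↔ aeval θ g = t := fun {θ} =>
    eval_locPoly_eq_zero one_ne_zero
  have hmemr : ∀ {θ : M}, θ ∈ rts (locPoly g t (1 : M)) ↔ aeval θ g = t := fun {θ} => by
    rw [mem_rts (locPoly_ne_zero hg hm one_ne_zero), hroot]
  have hsep : (locPoly g t (1 : M)).Separable := hG.separable
  have hres : ∀ {θ : M}, aeval θ g = t → v (θ - algebraMap F M (rs F v θ)) < 1 := fun {θ} hθ =>
    h.v_sub_rs (h.v_root_le hg hm hθ)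
  -- `u` fixes the roots
  have hufix : ∀ θ : M, (locPoly g t (1 : M)).eval θ = 0 → (u : M ≃+* M) θ = θ := by
    intro θ hθ
    have hθt := hroot.1 hθ
    have huθ : aeval ((u : M ≃+* M) θ) g = t := hroot.1 ((eval_sym_eq_zero u).2 hθ)
    refine h.rs_injOn hB huθ hθt ?_
    apply h.rs_eq
    have h1 := hres hθt
    have h2 : U (rs F v θ) = rs F v θ := hU _ (h.eval_rs hB hθt)
    rw [← huv, map_sub, huF, h2] at h1
    exact h1
  have hufix' : ∀ θ : M, (locPoly g t (1 : M)).eval θ = 0 →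
      ((u⁻¹ : Sym _) : M ≃+* M) θ = θ := by
    intro θ hθ
    have h1 : ((u⁻¹ : Sym _) : M ≃+* M) ((u : M ≃+* M) θ) = θ :=
      (u : M ≃+* M).symm_apply_apply θ
    rwa [hufix θ hθ] at h1
  -- the Kummer formula
  obtain ⟨w, hw, hker⟩ := kummer_formula (algebraMap F M ζ) hζ' Q
    (ramDiv fun θ => e (rs F v θ)) hQ
  have hDfix : (ramDiv (fun θ => e (rs F v θ)) :
      Pt ℓ (locPoly g t (1 : M)) →₀ ℤ).mapDomain (Pt.sym u) =
      ramDiv fun θ => e (rs F v θ) := by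
    rw [mapDomain_sym_ramDiv]
    refine ramDiv_congr _ _ ?_
    intro θ hθ
    rw [hufix' θ hθ]
  have hn : ∀ θ : M, ∃ n : ℤ, (locPoly g t (1 : M)).eval θ = 0 →
      (u : M ≃+* M) (w θ) = algebraMap F M ζ ^ n * w θ := by
    intro θ
    by_cases hθ : (locPoly g t (1 : M)).eval θ = 0
    · obtain ⟨n, hn⟩ : ∃ n : ℤ, (u : M ≃+* M) (w θ) = algebraMap F M ζ ^ n * w θ := by
        refine tc09_exists_zpow hℓ0 hζ' (hw θ hθ).1 ?_
        rw [← map_pow, (hw θ hθ).2, map_mul, map_zpow₀, map_pow, map_neg, map_one,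
          sym_uval u _ hDfix, hufix θ hθ]
      exact ⟨n, fun _ => hn⟩
    · exact ⟨0, fun h0 => absurd h0 hθ⟩
  choose n hn using hn
  have hkn : symJ u Q - Q = ram n := by
    refine hker u huζ hDfix n ?_
    intro θ hθ
    rw [hufix θ hθ]
    exact hn θ hθ
  refine ⟨n, by rw [← hkn, add_sub_cancel], ?_⟩
  intro θ hθm x hx
  have hθt := hmemr.1 hθm
  have hθ := hroot.2 hθt
  have hneg : ∀ θ' ∈ (rts (locPoly g t (1 : M))).erase θ, rs F v θ - rs F v θ' ≠ 0 := by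
    intro θ' hθ' h0
    obtain ⟨h2, h3⟩ := Finset.mem_erase.1 hθ'
    exact h2 (h.rs_injOn hB hθt (hmemr.1 h3) (sub_eq_zero.1 h0)).symm
  -- the set of the residues
  have hR₁ : R₀.erase (rs F v θ) = ((rts (locPoly g t (1 : M))).erase θ).image (rs F v) := by
    ext β
    rw [Finset.mem_erase, Finset.mem_image, hR₀]
    constructor
    · rintro ⟨h2, h3⟩
      obtain ⟨θ', hθ', rfl⟩ := h.exists_root hB h3
      refine ⟨θ', Finset.mem_erase.2 ⟨?_, hmemr.2 hθ'⟩, rfl⟩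
      rintro rfl
      exact h2 rfl
    · rintro ⟨θ', hθ', rfl⟩
      refine ⟨fun h0 => hneg θ' hθ' (sub_eq_zero.2 h0.symm), ?_⟩
      exact h.eval_rs hB (hmemr.1 (Finset.mem_of_mem_erase hθ'))
  rw [hR₁, Finset.prod_image] at hx
  swap
  · intro x hx y hy hxy
    exact h.rs_injOn hB (hmemr.1 (Finset.mem_of_mem_erase hx))
      (hmemr.1 (Finset.mem_of_mem_erase hy)) hxy
  -- the residue of `(w θ) ^ ℓ`
  obtain ⟨x₀, hx₀, hUx₀⟩ := tc09_eps hℓ0 U h1
  have hx₀0 : x₀ ≠ 0 := by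
    rintro rfl
    rw [zero_pow hℓ0] at hx₀
    exact pow_ne_zero _ (neg_ne_zero.2 one_ne_zero) hx₀.symm
  have hx0 : x ≠ 0 := by
    rintro rfl
    rw [zero_pow hℓ0] at hx
    exact (Finset.prod_ne_zero_iff.2 fun θ' hθ' => zpow_ne_zero _ (hneg θ' hθ')) hx.symm
  have hwl : w θ ^ ℓ = ((-1) ^ (ℓ + 1)) ^ e (rs F v θ) *
      ∏ θ' ∈ (rts (locPoly g t (1 : M))).erase θ, (θ - θ') ^ (e (rs F v θ') - e (rs F v θ)) := by
    have hne : ∀ θ' ∈ (rts (locPoly g t (1 : M))).erase θ, θ - θ' ≠ 0 := fun θ' hθ' =>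
      sub_ne_zero.2 (Finset.ne_of_mem_erase hθ').symm
    rw [(hw θ hθ).2, atR_ramDiv _ hθ, uval_ramDiv _ hθ,
      derivative_locPoly_eval hg hm one_ne_zero hsep hθm, inv_one, one_mul]
    congr 1
    have h2 : (locPoly g t (1 : M)).roots.toFinset = rts (locPoly g t (1 : M)) := rfl
    rw [h2, ← Finset.prod_inv_distrib, ← Finset.prod_zpow, ← Finset.prod_mul_distrib]
    refine Finset.prod_congr rfl fun θ' hθ' => ?_
    rw [inv_zpow, ← zpow_neg, ← zpow_add₀ (hne θ' hθ')]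
    congr 1
    ring
  have hkey : v (w θ ^ ℓ - algebraMap F M ((x₀ ^ e (rs F v θ) * x) ^ ℓ)) < 1 := by
    have h2 : (x₀ ^ e (rs F v θ) * x) ^ ℓ = ((-1) ^ (ℓ + 1)) ^ e (rs F v θ) *
        ∏ θ' ∈ (rts (locPoly g t (1 : M))).erase θ,
          (rs F v θ - rs F v θ') ^ (e (rs F v θ') - e (rs F v θ)) := by
      rw [mul_pow, hx, ← hx₀, ← zpow_natCast, ← zpow_natCast, ← zpow_mul, ← zpow_mul,
        mul_comm (e (rs F v θ))]
    rw [hwl, h2]
    refine h.residue_mul ?_ (tc09_res_prod h _ _ _ fun θ' hθ' => h.residue_zpow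
      (tc09_res_sub h (hres hθt) (hres (hmemr.1 (Finset.mem_of_mem_erase hθ')))) (hneg θ' hθ') _)
    have h3 : (((-1 : M) ^ (ℓ + 1)) ^ e (rs F v θ)) =
        algebraMap F M (((-1) ^ (ℓ + 1)) ^ e (rs F v θ)) := by
      rw [map_zpow₀, map_pow, map_neg, map_one]
    rw [h3]
    exact tc09_res_const _
  have hy0 : x₀ ^ e (rs F v θ) * x ≠ 0 := mul_ne_zero (zpow_ne_zero _ hx₀0) hx0
  have hvw : v (w θ) = 1 := by
    have h2 := h.v_eq_one hkey (pow_ne_zero ℓ hy0)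
    rw [map_pow] at h2
    exact (pow_eq_one_iff_of_nonneg (v.nonneg _) hℓ0).1 h2
  obtain ⟨y₀, hy₀⟩ := h.residue _ hvw.le
  have hpow : y₀ ^ ℓ = (x₀ ^ e (rs F v θ) * x) ^ ℓ :=
    h.residue_unique (tc09_res_pow h hy₀ ℓ) hkey
  obtain ⟨k, hk⟩ := tc09_exists_zpow hℓ0 hζ hy0 hpow
  -- the action of `u`
  have hr1 : v ((u : M ≃+* M) (w θ) - algebraMap F M (U y₀)) < 1 := by
    rw [← huF, ← map_sub, huv]
    exact hy₀
  have hr2 : v ((u : M ≃+* M) (w θ) - algebraMap F M (ζ ^ n θ * y₀)) < 1 := by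
    rw [hn θ hθ, ← map_zpow₀]
    exact h.residue_mul (tc09_res_const _) hy₀
  have hUy : U y₀ = ζ ^ n θ * y₀ := h.residue_unique hr1 hr2
  rw [hk, map_mul, map_mul, map_zpow₀, map_zpow₀, hUζ, hUx₀] at hUy
  have hc0 : ζ ^ k * x₀ ^ e (rs F v θ) ≠ 0 := mul_ne_zero (zpow_ne_zero _ hζ0)
    (zpow_ne_zero _ hx₀0)
  refine mul_left_cancel₀ hc0 ?_
  linear_combination hUy

end Pool.Agent.Lib.MP_89bcae_ag.Sup

end

section

open Polynomial IsDedekindDomain

open scoped Classical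

set_option linter.unusedSectionVars false

namespace Pool.Agent.Lib.MP_89bcae_ag.Sup

universe u

private lemma tc04_zJ {A B : Type u} [Field A] [Field B] {ℓ : ℕ} (j : A →+* B)
    {f : A[X]} {f' : B[X]} [IsGood ℓ f] [IsGood ℓ f'] (hj : f.map j = f') (ζ : A) (ζ' : B)
    (hζ : ζ ^ ℓ = 1) (hζ' : ζ' ^ ℓ = 1) (h : j ζ = ζ') (Q : Jac ℓ f) :
    jacMap ℓ j hj (zJ ζ hζ Q) = zJ ζ' hζ' (jacMap ℓ j hj Q) := by
  subst h
  exact (zJ_jacMap j hj ζ hζ hζ' Q).symm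

variable {k F L Ω : Type u} [Field k] [Field F] [Algebra k F] [Field L] [Algebra F[X] L]
  [Field Ω] [Algebra L Ω] [IsAlgClosure k F] [IsFractionRing F[X] L] [IsAlgClosure L Ω]
  [Algebra F Ω] {ℓ : ℕ} {g E : k[X]} [hG : IsGood ℓ (cOver k F L Ω g 1)] {ζ : k}
  {hζ : (zA F L Ω ζ) ^ ℓ = 1} {N : Subgroup (Ω ≃ₐ[L] Ω)}

theorem push_inj_torsion (H : GlobHyp ℓ g E ζ) {M : Type u} [Field M] [Algebra L M]
    [IsAlgClosed M] (j : Ω →ₐ[L] M) (n : ℕ) (Q : JacOver ℓ (curvePoly k F L g 1) Ω)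
    (hQ : ℓ ^ n • Q = 0) (h0 : push ℓ (curvePoly k F L g 1) j Q = 0) : Q = 0 := by
  have hGM : IsGood ℓ (cOver k F L M g 1) := goodAll_one H M
  have hz := zA_primitive (F := F) (L := L) H (A := Ω)
  have hzM := zA_primitive (F := F) (L := L) H (A := M)
  have hjm : (cOver k F L Ω g 1).map (j : Ω →+* M) = cOver k F L M g 1 := by
    rw [Polynomial.map_map, AlgHom.comp_algebraMap]
  have hjz : (j : Ω →+* M) (zA F L Ω ζ) = zA F L M ζ := map_zA j ζ
  have h1 := iterate_eq_zero_of_smul _ hz n Q hQ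
  have key : ∀ (m : ℕ) (Q : JacOver ℓ (curvePoly k F L g 1) Ω),
      (fun x => x - zJ (zA F L Ω ζ) hz.pow_eq_one x)^[m] Q = 0 →
      push ℓ (curvePoly k F L g 1) j Q = 0 → Q = 0 := by
    intro m
    induction m with
    | zero => exact fun Q h _ => h
    | succ m ih =>
      intro Q h hp
      rw [Function.iterate_succ_apply] at h
      have h2 : push ℓ (curvePoly k F L g 1) j (zJ (zA F L Ω ζ) hz.pow_eq_one Q) =
          zJ (zA F L M ζ) hzM.pow_eq_one (push ℓ (curvePoly k F L g 1) j Q) :=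
        tc04_zJ (j : Ω →+* M) hjm (zA F L Ω ζ) (zA F L M ζ) hz.pow_eq_one hzM.pow_eq_one hjz Q
      have h3 := ih _ h (by rw [map_sub, h2, hp, map_zero, sub_zero])
      obtain ⟨e, rfl⟩ := exists_ram_of_zJ_eq _ hz Q (sub_eq_zero.mp h3).symm
      have h4 : push ℓ (curvePoly k F L g 1) j (ram e) =
          (ram (fun θ => e (Function.invFun j θ)) : Jac ℓ (cOver k F L M g 1)) := by
        refine jacMap_ram (j : Ω →+* M) hjm e _ fun θ _ => ?_
        have h7 : Function.invFun j (j θ) = θ :=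
          Function.leftInverse_invFun (j : Ω →+* M).injective θ
        change e (Function.invFun j (j θ)) = e θ
        rw [h7]
      rw [h4] at hp
      obtain ⟨c, hc⟩ := (ram_eq_zero_iff _ hzM _).mp hp
      refine (ram_eq_zero_iff _ hz _).mpr ⟨c, fun θ hθ => ?_⟩
      have h5 := hc (j θ) (by
        have h6 := Polynomial.eval₂_at_apply (p := cOver k F L Ω g 1) (j : Ω →+* M) θ
        rw [← Polynomial.eval_map, hjm, hθ, map_zero] at h6
        exact h6)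
      have h7 : Function.invFun j (j θ) = θ :=
        Function.leftInverse_invFun (j : Ω →+* M).injective θ
      rw [h7] at h5
      exact h5
  exact key _ Q h1 h0

/-- `j (σ' Q) = σ (j Q)`. -/
lemma push_symJ {M : Type u} [Field M] [Algebra L M] (j : Ω →ₐ[L] M) (σ' : Ω ≃ₐ[L] Ω)
    (σ : M →ₐ[L] M) (h : ∀ x, j (σ' x) = σ (j x))
    (Q : JacOver ℓ (curvePoly k F L g 1) Ω) :
    push ℓ (curvePoly k F L g 1) j (symJ (toSym g 1 (galA k F σ')) Q) =
      push ℓ (curvePoly k F L g 1) σ (push ℓ (curvePoly k F L g 1) j Q) := by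
  rw [← push_eq, push_push, push_push]
  congr 2
  exact AlgHom.ext h

section

variable {a : F} {M : Type u} [Field M] [Algebra ((plc a).adicCompletion L) M]
  [IsAlgClosure ((plc a).adicCompletion L) M] [Algebra L M]
  [IsScalarTower L ((plc a).adicCompletion L) M] [Algebra F M] {v : AbsoluteValue M ℝ}

theorem LocDat.fix_torsion (hd : LocDat F L a M v) (H : GlobHyp ℓ g E ζ)
    (ha : aeval a E = 0) (j : Ω →ₐ[L] M) {σ : M ≃ₐ[(plc a).adicCompletion L] M}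
    {σ' : Ω ≃ₐ[L] Ω} (hσ : ∀ x, j (σ' x) = σ (j x)) (n : ℕ)
    (Q : JacOver ℓ (curvePoly k F L g 1) Ω) (hQ : ℓ ^ n • Q = 0) :
    symJ (toSym g 1 (galA k F σ')) Q = Q := by
  have hMc : IsAlgClosed M := IsAlgClosure.isAlgClosed ((plc a).adicCompletion L)
  have hGM : IsGood ℓ (cOver k F L M g 1) := goodAll_one H M
  have hz := zA_primitive (F := F) (L := L) H (A := Ω)
  have hzM := zA_primitive (F := F) (L := L) H (A := M)
  have hjm : (cOver k F L Ω g 1).map (j : Ω →+* M) = cOver k F L M g 1 := by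
    rw [Polynomial.map_map, AlgHom.comp_algebraMap]
  have hjz : (j : Ω →+* M) (zA F L Ω ζ) = zA F L M ζ := map_zA j ζ
  have hzF : zA F L M ζ = algebraMap F M (algebraMap k F ζ) := by
    rw [hd.compat]
    unfold zA base
    rw [RingHom.comp_apply, RingHom.comp_apply, coe_mapRingHom, map_C]
  have hζF : IsPrimitiveRoot (algebraMap k F ζ) ℓ :=
    H.zeta.map_of_injective (algebraMap k F).injective
  have hzM' : IsPrimitiveRoot (algebraMap F M (algebraMap k F ζ)) ℓ := hzF ▸ hzM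
  obtain ⟨δ, hδ⟩ := IsAlgClosed.exists_pow_nat_eq
    (aeval (tA F L M) (E.map (algebraMap k F))) H.prime.pos
  have hB := H.badCtx hd.compat ha hδ
  have hΓ := hd.locGrp (k := k) g 1
  set Γ := (galSym (LocDat.hfK (k := k) (F := F) (L := L) (a := a) (M := M) g 1)).range with hΓdef
  have hpush : ∀ (τ : M ≃ₐ[(plc a).adicCompletion L] M) (τ' : Ω ≃ₐ[L] Ω),
      (∀ x, j (τ' x) = τ (j x)) → ∀ Q : JacOver ℓ (curvePoly k F L g 1) Ω,
      symJ (galSym (LocDat.hfK (k := k) (F := F) (L := L) (a := a) (M := M) g 1) τ)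
        (push ℓ (curvePoly k F L g 1) j Q) =
      push ℓ (curvePoly k F L g 1) j (symJ (toSym g 1 (galA k F τ')) Q) := by
    intro τ τ' hτ Q
    rw [push_symJ j τ' (τ.restrictScalars L : M →ₐ[L] M) hτ]
    rfl
  have hpz : ∀ Q : JacOver ℓ (curvePoly k F L g 1) Ω,
      push ℓ (curvePoly k F L g 1) j (zJ (zA F L Ω ζ) hz.pow_eq_one Q) =
        zJ (algebraMap F M (algebraMap k F ζ)) hzM'.pow_eq_one
          (push ℓ (curvePoly k F L g 1) j Q) := fun Q =>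
    tc04_zJ (j : Ω →+* M) hjm (zA F L Ω ζ) _ hz.pow_eq_one hzM'.pow_eq_one (hjz.trans hzF) Q
  have hsz : ∀ (τ' : Ω ≃ₐ[L] Ω) (Q : JacOver ℓ (curvePoly k F L g 1) Ω),
      zJ (zA F L Ω ζ) hz.pow_eq_one (symJ (toSym g 1 (galA k F τ')) Q) =
        symJ (toSym g 1 (galA k F τ')) (zJ (zA F L Ω ζ) hz.pow_eq_one Q) := fun τ' Q =>
    zJ_symJ _ hz.pow_eq_one _ (zA_fixed ζ (galA k F τ')) Q
  have h1 := iterate_eq_zero_of_smul _ hz n Q hQ
  have key : ∀ (m : ℕ) (Q : JacOver ℓ (curvePoly k F L g 1) Ω), ℓ ^ n • Q = 0 →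
      (fun x => x - zJ (zA F L Ω ζ) hz.pow_eq_one x)^[m] Q = 0 →
      ∀ (τ : M ≃ₐ[(plc a).adicCompletion L] M) (τ' : Ω ≃ₐ[L] Ω),
      (∀ x, j (τ' x) = τ (j x)) → symJ (toSym g 1 (galA k F τ')) Q = Q := by
    intro m
    induction m with
    | zero =>
      intro Q _ h τ τ' _
      have h' : Q = 0 := h
      rw [h', map_zero]
    | succ m ih =>
      intro Q hQn h τ τ' hτ
      rw [Function.iterate_succ_apply] at h
      have hP := ih _ (by rw [smul_sub, ← map_nsmul, hQn, map_zero, sub_zero]) h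
      have hfix := hd.ctx.good_fixed (LocDat.coprime (F := F) (L := L) (a := a) H)
        (H.monic.map (algebraMap k F)) hB.deg hB.cop hB.roots (cOver_one hd.compat g) hζF hzM'
        hΓ (π' := tA F L M - algebraMap F M a) rfl
        (by
          intro σ hσΓ
          rw [map_sub, hΓ.fix σ hσΓ, hΓ.fixt σ hσΓ])
        (push ℓ (curvePoly k F L g 1) j Q)
        (by
          rintro _ ⟨ρ, rfl⟩
          obtain ⟨ρ', hρ⟩ := LocDat.restrict (F := F) (L := L) (a := a) j ρ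
          have h2 := hP ρ ρ' hρ
          rw [map_sub, ← hsz] at h2
          have h3 : zJ (zA F L Ω ζ) hz.pow_eq_one (symJ (toSym g 1 (galA k F ρ')) Q) -
              zJ (zA F L Ω ζ) hz.pow_eq_one Q = symJ (toSym g 1 (galA k F ρ')) Q - Q := by
            have h4 : zJ (zA F L Ω ζ) hz.pow_eq_one (symJ (toSym g 1 (galA k F ρ')) Q) =
                symJ (toSym g 1 (galA k F ρ')) Q - (symJ (toSym g 1 (galA k F ρ')) Q -
                  zJ (zA F L Ω ζ) hz.pow_eq_one (symJ (toSym g 1 (galA k F ρ')) Q)) := by abel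
            rw [h4, h2]
            abel
          rw [hpush ρ ρ' hρ, ← map_sub, ← hpz, map_sub (zJ (zA F L Ω ζ) hz.pow_eq_one), h3])
      have h5 := hfix (galSym (LocDat.hfK (k := k) (F := F) (L := L) (a := a) (M := M) g 1) τ)
        ⟨τ, rfl⟩
      rw [hpush τ τ' hτ] at h5
      have h6 : push ℓ (curvePoly k F L g 1) j (symJ (toSym g 1 (galA k F τ')) Q - Q) = 0 := by
        rw [map_sub, h5, sub_self]
      exact sub_eq_zero.mp (push_inj_torsion H j n _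
        (by rw [smul_sub, ← map_nsmul, hQn, map_zero, sub_zero]) h6)
  exact key _ Q hQ h1 σ σ' hσ

end

end Pool.Agent.Lib.MP_89bcae_ag.Sup

end
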