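import Mathlib
import Pool.Agent.Lib.MP_89bcae_ag.Q.K041
import Pool.Agent.Lib.MP_89bcae_ag.Q.K052

open Polynomial IsDedekindDomain

open scoped Classical

set_option linter.unusedSectionVars false

namespace Pool.Agent.Lib.MP_89bcae_ag.Sup

universe u

variable {k F L Ω : Type u} [Field k] [Field F] [Algebra k F] [Field L] [Algebra F[X] L]
  [Field Ω] [Algebra L Ω] [IsAlgClosure k F] [IsFractionRing F[X] L] [IsAlgClosure L Ω]
  [Algebra F Ω] {ℓ : ℕ} {g E : k[X]} [hG : IsGood ℓ (cOver k F L Ω g 1)] {ζ : k}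
  {hζ : (zA F L Ω ζ) ^ ℓ = 1} {N : Subgroup (Ω ≃ₐ[L] Ω)}

variable {a : F} {M : Type u} [Field M] [Algebra ((plc a).adicCompletion L) M]
  [IsAlgClosure ((plc a).adicCompletion L) M] [Algebra L M]
  [IsScalarTower L ((plc a).adicCompletion L) M] [Algebra F M] {v : AbsoluteValue M ℝ}

/-- The local condition on `N` at `a`: locally `N` is the stabilizer of `s₀`, `s₀ ^ (ℓ ^ r)` has the value
of `t - a`. -/
structure RamAt (a : F) (N : Subgroup (Ω ≃ₐ[L] Ω)) (r ℓ : ℕ) (s₀ : Ω) (M : Type u) [Field M]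
    [Algebra ((plc a).adicCompletion L) M] [Algebra L M] [Algebra F M]
    (v : AbsoluteValue M ℝ) (j : Ω →ₐ[L] M) : Prop where
  mem : ∀ (σ : M ≃ₐ[(plc a).adicCompletion L] M) (σ' : Ω ≃ₐ[L] Ω), (∀ x, j (σ' x) = σ (j x)) →
    (σ' ∈ N ↔ σ (j s₀) = j s₀)
  val : v (j s₀) ^ ℓ ^ r = v (tA F L M - algebraMap F M a)
  fix : ∀ σ : M ≃ₐ[(plc a).adicCompletion L] M, σ (j s₀ ^ ℓ ^ r) = j s₀ ^ ℓ ^ r

lemma tc05_smul {c : Coch ℓ k F L Ω g 1} (hc : TCs N c) (n : ℕ) {σ : Ω ≃ₐ[L] Ω}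
    (hσ : σ ∈ N) : ℓ ^ n • c n σ = 0 := by
  induction n with
  | zero => rw [pow_zero, one_smul, hc.zero σ hσ]
  | succ n ih => rw [pow_succ, mul_smul, hc.smul n σ hσ, ih]

lemma tc05_iter {A : Type u} [AddCommGroup A] (Z : A →+ A) (G : Set (A →+ A))
    (hG : ∀ s ∈ G, ∀ x, Z (s x) = s (Z x))
    (h1 : ∀ Q : A, (∀ s ∈ G, Z (s Q - Q) = s Q - Q) → ∀ s ∈ G, s Q = Q) (m : ℕ) :
    ∀ Q : A, (∀ s ∈ G, (fun x => x - Z x)^[m] (s Q - Q) = 0) → ∀ s ∈ G, s Q = Q := by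
  induction m with
  | zero =>
    intro Q hQ s hs
    exact sub_eq_zero.mp (hQ s hs)
  | succ m ih =>
    intro Q hQ
    apply h1
    intro s hs
    have h2 := ih (Q - Z Q) (by
      intro s' hs'
      have h3 := hQ s' hs'
      rw [Function.iterate_succ_apply] at h3
      have h4 : s' (Q - Z Q) - (Q - Z Q) = (s' Q - Q) - Z (s' Q - Q) := by
        rw [map_sub, map_sub, hG s' hs']
        abel
      rw [h4]
      exact h3) s hs
    have h5 : s (Q - Z Q) - (Q - Z Q) = (s Q - Q) - Z (s Q - Q) := by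
      rw [map_sub, map_sub, hG s hs]
      abel
    rw [h2, sub_self] at h5
    exact (sub_eq_zero.mp h5.symm).symm

theorem LTs.vanish (hd : LocDat F L a M v) (H : GlobHyp ℓ g E ζ) (ha : aeval a E = 0)
    {r : ℕ} {ζr : F} (hr : IsPrimitiveRoot ζr (ℓ ^ r)) {s₀ : Ω} (j : Ω →ₐ[L] M)
    (hR : RamAt a N r ℓ s₀ M v j) {c : Coch ℓ k F L Ω g 1} (hc : TCs N c) (hLT : LTs N c)
    (n : ℕ) {σ : M ≃ₐ[(plc a).adicCompletion L] M} {σ' : Ω ≃ₐ[L] Ω}
    (hσ : ∀ x, j (σ' x) = σ (j x)) (hN : σ' ∈ N) : c n σ' = 0 := by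
  have hMc : IsAlgClosed M := IsAlgClosure.isAlgClosed ((plc a).adicCompletion L)
  have hGM : IsGood ℓ (cOver k F L M g 1) := goodAll_one H M
  have hℓ0 : ℓ ≠ 0 := H.prime.ne_zero
  obtain ⟨ϖ, hϖ⟩ := IsAlgClosed.exists_pow_nat_eq (tA F L M - algebraMap F M a)
    (Nat.pos_of_ne_zero hℓ0)
  have hB := badCtx_lin H hd.compat ha hϖ
  have hf : cOver k F L M g 1 = locPoly (g.map (algebraMap k F)) (tA F L M) 1 :=
    cOver_one hd.compat g
  have hζF : IsPrimitiveRoot (algebraMap k F ζ) ℓ :=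
    H.zeta.map_of_injective (algebraMap k F).injective
  have hζM : IsPrimitiveRoot (algebraMap F M (algebraMap k F ζ)) ℓ :=
    hζF.map_of_injective (algebraMap F M).injective
  have hvt : 0 < v (tA F L M - algebraMap F M a) := v.pos (sub_ne_zero.mpr hd.ctx.ne)
  have hπ0 : j s₀ ≠ 0 := by
    intro h0
    have h1 := hR.val
    rw [h0, map_zero, zero_pow (pow_ne_zero _ hℓ0)] at h1
    exact hvt.ne h1
  have hΓ := hd.locGrp (k := k) g 1
  have hΓ' := hΓ.stab (r := r) H.prime (hr.map_of_injective (algebraMap F M).injective)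
    (fun τ hτ => hΓ.fix τ hτ ζr) hπ0 hR.val (by
      rintro _ ⟨τ, rfl⟩
      exact hR.fix τ)
  have hmemΓ : ∀ τ : M ≃ₐ[(plc a).adicCompletion L] M, τ (j s₀) = j s₀ →
      galSym (LocDat.hfK (k := k) (F := F) (L := L) (a := a) (M := M) g 1) τ ∈
        stabG (galSym (LocDat.hfK (k := k) (F := F) (L := L) (a := a) (M := M) g 1)).range
          (j s₀) := fun τ hτ => ⟨⟨τ, rfl⟩, hτ⟩
  obtain ⟨Q, hQ⟩ := hLT a n M j
  have hpush : ∀ τ : M ≃ₐ[(plc a).adicCompletion L] M,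
      push ℓ (curvePoly k F L g 1) (τ.restrictScalars L : M →ₐ[L] M) Q =
        symJ (galSym (LocDat.hfK (k := k) (F := F) (L := L) (a := a) (M := M) g 1) τ) Q :=
    fun _ => rfl
  have hfixζ : ∀ τ ∈ stabG (galSym (LocDat.hfK (k := k) (F := F) (L := L) (a := a)
      (M := M) g 1)).range (j s₀),
      (τ : M ≃+* M) (algebraMap F M (algebraMap k F ζ)) = algebraMap F M (algebraMap k F ζ) :=
    fun τ hτ => hΓ'.fix τ hτ _
  have key := tc05_iter (zJ (algebraMap F M (algebraMap k F ζ)) hζM.pow_eq_one :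
      Jac ℓ (cOver k F L M g 1) →+ Jac ℓ (cOver k F L M g 1))
    {s | ∃ τ ∈ stabG (galSym (LocDat.hfK (k := k) (F := F) (L := L) (a := a)
      (M := M) g 1)).range (j s₀), s = symJ τ}
    (by
      rintro _ ⟨τ, hτ, rfl⟩ x
      exact zJ_symJ _ _ τ (hfixζ τ hτ) x)
    (by
      rintro P hP _ ⟨τ, hτ, rfl⟩
      exact hd.ctx.good_fixed (LocDat.coprime H) hB.monic hB.deg hB.cop hB.roots hf hζF hζM hΓ'
        rfl (fun τ' hτ' => hτ'.2) P (fun τ' hτ' => hP _ ⟨τ', hτ', rfl⟩) τ hτ)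
    ((ℓ - 1) * n) Q
    (by
      rintro _ ⟨_, ⟨⟨τ, rfl⟩, hτs⟩, rfl⟩
      obtain ⟨τ', hτ'⟩ := LocDat.restrict j τ
      have hN' : τ' ∈ N := (hR.mem τ τ' hτ').mpr hτs
      have h1 := hQ τ τ' hN' hτ'
      rw [hpush τ] at h1
      rw [← h1]
      apply iterate_eq_zero_of_smul _ hζM
      rw [← map_nsmul, tc05_smul hc n hN', map_zero])
  have hσs : σ (j s₀) = j s₀ := (hR.mem σ σ' hσ).mp hN
  have h2 := key _ ⟨_, hmemΓ σ hσs, rfl⟩
  apply push_inj_torsion H j n (c n σ') (tc05_smul hc n hN)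
  rw [hQ σ σ' hN hσ, hpush σ, h2, sub_self]

end Pool.Agent.Lib.MP_89bcae_ag.Sup
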