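import Mathlib

section

open Finset

namespace Pool.Agent.Lib.MP_89bcae_ag.Sup

theorem td01_root {ℓ : ℕ} (hℓ : ℓ.Prime) :
    ∃ (A : Type) (_ : CommRing A) (_ : IsDomain A) (ζ : A), IsPrimitiveRoot ζ ℓ ∧
      ∀ {R : Type*} [CommRing R] (ξ : R), ∑ i ∈ range ℓ, ξ ^ i = 0 →
        ∃ f : A →+* R, f ζ = ξ := by
  have hirr : Irreducible (Polynomial.cyclotomic ℓ ℤ) := Polynomial.cyclotomic.irreducible hℓ.pos
  have hpr : Prime (Polynomial.cyclotomic ℓ ℤ) := hirr.prime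
  have hmon : (Polynomial.cyclotomic ℓ ℤ).Monic := Polynomial.cyclotomic.monic ℓ ℤ
  have : Fact ℓ.Prime := ⟨hℓ⟩
  have hdom : IsDomain (AdjoinRoot (Polynomial.cyclotomic ℓ ℤ)) :=
    AdjoinRoot.isDomain_of_prime hpr
  have hdeg : (Polynomial.cyclotomic ℓ ℤ).natDegree = ℓ - 1 := by
    rw [Polynomial.natDegree_cyclotomic, Nat.totient_prime hℓ]
  have hne : ((ℓ : ℕ) : AdjoinRoot (Polynomial.cyclotomic ℓ ℤ)) ≠ 0 := by
    intro h
    have h1 : AdjoinRoot.mk (Polynomial.cyclotomic ℓ ℤ) (Polynomial.C (ℓ : ℤ)) = 0 := by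
      rw [AdjoinRoot.mk_C]
      simpa using h
    rw [AdjoinRoot.mk_eq_zero] at h1
    have h2 := Polynomial.natDegree_le_of_dvd h1 (by
      rw [Ne, Polynomial.C_eq_zero]; exact_mod_cast hℓ.ne_zero)
    rw [hdeg, Polynomial.natDegree_C] at h2
    have := hℓ.two_le
    omega
  have hNe : NeZero ((ℓ : ℕ) : AdjoinRoot (Polynomial.cyclotomic ℓ ℤ)) := ⟨hne⟩
  refine ⟨AdjoinRoot (Polynomial.cyclotomic ℓ ℤ), inferInstance, hdom,
    AdjoinRoot.root _, ?_, ?_⟩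
  · rw [← Polynomial.isRoot_cyclotomic_iff]
    have h := AdjoinRoot.isRoot_root (Polynomial.cyclotomic ℓ ℤ)
    have hm : (Polynomial.cyclotomic ℓ ℤ).map (AdjoinRoot.of (Polynomial.cyclotomic ℓ ℤ))
        = Polynomial.cyclotomic ℓ (AdjoinRoot (Polynomial.cyclotomic ℓ ℤ)) :=
      Polynomial.map_cyclotomic _ _
    rwa [hm] at h
  · intro R _ ξ hξ
    have he : (Polynomial.cyclotomic ℓ ℤ).eval₂ (Int.castRingHom R) ξ = 0 := by
      rw [Polynomial.cyclotomic_prime, Polynomial.eval₂_finsetSum]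
      simpa using hξ
    exact ⟨AdjoinRoot.lift (Int.castRingHom R) ξ he, AdjoinRoot.lift_root he⟩

theorem prod_sub_pow {R : Type*} [CommRing R] {ℓ : ℕ} (hℓ : ℓ.Prime) (ξ x y : R)
    (hξ : ∑ i ∈ range ℓ, ξ ^ i = 0) : ∏ c ∈ range ℓ, (x - ξ ^ c * y) = x ^ ℓ - y ^ ℓ := by
  classical
  obtain ⟨A, _, _, ζ, hζ, hlift⟩ := td01_root hℓ
  obtain ⟨f, hf⟩ := hlift ξ hξ
  have hζ' : IsPrimitiveRoot (MvPolynomial.C (σ := Fin 2) ζ) ℓ :=
    hζ.map_of_injective (f := (MvPolynomial.C (σ := Fin 2) : A →+* _))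
      (MvPolynomial.C_injective _ _)
  have hid := hζ'.pow_sub_pow_eq_prod_sub_mul (MvPolynomial.X 0 : MvPolynomial (Fin 2) A)
    (MvPolynomial.X 1) hℓ.pos
  have hset : Polynomial.nthRootsFinset ℓ (1 : MvPolynomial (Fin 2) A)
      = (range ℓ).image (fun c => (MvPolynomial.C (σ := Fin 2) ζ) ^ c) := by
    symm
    apply Finset.eq_of_subset_of_card_le
    · intro z hz
      obtain ⟨c, -, rfl⟩ := Finset.mem_image.1 hz
      rw [Polynomial.mem_nthRootsFinset hℓ.pos, ← pow_mul, mul_comm, pow_mul, hζ'.pow_eq_one,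
        one_pow]
    · rw [hζ'.card_nthRootsFinset, Finset.card_image_of_injOn, Finset.card_range]
      intro i hi j hj hij
      exact hζ'.pow_inj (by simpa using hi) (by simpa using hj) hij
  rw [hset, Finset.prod_image] at hid
  swap
  · intro i hi j hj hij
    exact hζ'.pow_inj (by simpa using hi) (by simpa using hj) hij
  have := congrArg (MvPolynomial.eval₂Hom f ![x, y]) hid
  simp only [map_sub, map_pow, map_prod, map_mul, MvPolynomial.eval₂Hom_X', Matrix.cons_val_zero,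
    Matrix.cons_val_one, MvPolynomial.eval₂Hom_C, hf] at this
  exact this.symm

theorem td01_list {M : Type*} [CommMonoid M] (g : ℕ → M) (n : ℕ) :
    ∏ c ∈ range n, g c = ((List.range n).map g).prod := by
  induction n with
  | zero => simp
  | succ n ih => rw [Finset.prod_range_succ, List.range_succ, ih]; simp

theorem prod_sub_pow_comm {R : Type*} [Ring R] {ℓ : ℕ} (hℓ : ℓ.Prime) (ξ x : R)
    (hc : Commute ξ x) (hξ : ∑ i ∈ range ℓ, ξ ^ i = 0) :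
    ((List.range ℓ).map fun c => x - ξ ^ c).prod = x ^ ℓ - 1 := by
  have hcomm : ∀ a ∈ ({x, ξ} : Set R), ∀ b ∈ ({x, ξ} : Set R), a * b = b * a := by
    intro a ha b hb
    rcases ha with rfl | ha <;> rcases hb with rfl | hb
    · rfl
    · rw [Set.mem_singleton_iff.1 hb]; exact hc.eq.symm
    · rw [Set.mem_singleton_iff.1 ha]; exact hc.eq
    · rw [Set.mem_singleton_iff.1 ha, Set.mem_singleton_iff.1 hb]
  let : CommRing (Subring.closure ({x, ξ} : Set R)) := Subring.closureCommRingOfComm hcomm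
  let x' : Subring.closure ({x, ξ} : Set R) := ⟨x, Subring.subset_closure (by simp)⟩
  let ξ' : Subring.closure ({x, ξ} : Set R) := ⟨ξ, Subring.subset_closure (by simp)⟩
  have hξ' : ∑ i ∈ range ℓ, ξ' ^ i = 0 := by
    apply Subtype.ext
    have : (((∑ i ∈ range ℓ, ξ' ^ i : Subring.closure ({x, ξ} : Set R))) : R)
        = ∑ i ∈ range ℓ, ξ ^ i := by
      rw [← Subring.coe_subtype, map_sum]
      simp [ξ']
    rw [this, hξ]; rfl
  have h := prod_sub_pow hℓ ξ' x' 1 hξ'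
  have h2 : ((List.range ℓ).map fun c => x' - ξ' ^ c * 1).prod = x' ^ ℓ - 1 ^ ℓ := by
    rw [← h, td01_list]
  have h3 := congrArg (Subring.subtype (Subring.closure ({x, ξ} : Set R))) h2
  rw [map_list_prod] at h3
  simpa [x', ξ', Function.comp_def] using h3

end Pool.Agent.Lib.MP_89bcae_ag.Sup

end

section

open Finset

namespace Pool.Agent.Lib.MP_89bcae_ag.Sup

open Polynomial in
theorem td02_taylor (P : Polynomial ℤ) :
    ∃ P' : Polynomial ℤ, P = C (P.eval 1) + (1 - X) * P' := by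
  obtain ⟨R, hR⟩ := Polynomial.X_sub_C_dvd_sub_C_eval (a := (1 : ℤ)) (p := P)
  refine ⟨-R, ?_⟩
  have h1 : P = C (P.eval 1) + (X - C 1) * R := by rw [← hR]; ring
  calc P = C (P.eval 1) + (X - C 1) * R := h1
    _ = C (P.eval 1) + (1 - X) * -R := by rw [C_1]; ring

open Polynomial in
theorem td02_frob {ℓ : ℕ} (hℓ : ℓ.Prime) (n₀ : ℕ) :
    ∃ R : Polynomial ℤ, (1 - X : Polynomial ℤ) ^ ℓ ^ n₀ =
      1 - X ^ ℓ ^ n₀ + (ℓ : Polynomial ℤ) * ((1 - X) * R) := by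
  have : Fact ℓ.Prime := ⟨hℓ⟩
  have hN : 0 < ℓ ^ n₀ := pow_pos hℓ.pos _
  set P : Polynomial ℤ := (1 - X) ^ ℓ ^ n₀ - (1 - X ^ ℓ ^ n₀) with hP
  have h0 : P.map (Int.castRingHom (ZMod ℓ)) = 0 := by
    rw [hP]
    simp only [Polynomial.map_sub, Polynomial.map_pow, Polynomial.map_one, Polynomial.map_X]
    rw [sub_pow_char_pow, one_pow, sub_self]
  have h1 : C (ℓ : ℤ) ∣ P := by
    rw [Polynomial.C_dvd_iff_dvd_coeff]
    intro i
    have := congrArg (fun Q : Polynomial (ZMod ℓ) => Q.coeff i) h0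
    simp only [Polynomial.coeff_map, Polynomial.coeff_zero] at this
    rwa [eq_intCast, ZMod.intCast_zmod_eq_zero_iff_dvd] at this
  obtain ⟨R, hR⟩ := h1
  obtain ⟨R', hR'⟩ := td02_taylor R
  have hev : P.eval 1 = 0 := by
    rw [hP]
    simp [zero_pow hN.ne']
  have hR1 : R.eval 1 = 0 := by
    rw [hR, eval_mul, eval_C] at hev
    rcases mul_eq_zero.1 hev with h | h
    · exact absurd (by exact_mod_cast h) hℓ.ne_zero
    · exact h
  refine ⟨R', ?_⟩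
  rw [hR1, C_0, zero_add] at hR'
  have h2 : (1 - X : Polynomial ℤ) ^ ℓ ^ n₀ = 1 - X ^ ℓ ^ n₀ + P := by rw [hP]; ring
  rw [h2, hR]
  congr 1
  rw [hR']
  simp

open Polynomial in
/-- `ℓ = (1 - X ^ N) κ + Φ` -/
theorem td02_kappa (ℓ N : ℕ) :
    ∃ κ : Polynomial ℤ, (ℓ : Polynomial ℤ) =
      (1 - X ^ N) * κ + ∑ j ∈ range ℓ, X ^ (j * N) := by
  refine ⟨∑ j ∈ range ℓ, ∑ i ∈ range j, (X ^ N) ^ i, ?_⟩
  rw [Finset.mul_sum]
  have h : ∀ j ∈ range ℓ, (1 - X ^ N : Polynomial ℤ) * ∑ i ∈ range j, (X ^ N) ^ i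
      = 1 - X ^ (j * N) := by
    intro j _
    rw [mul_neg_geom_sum, ← pow_mul, mul_comm N j]
  rw [Finset.sum_congr rfl h, Finset.sum_sub_distrib]
  simp

section
variable {Q : Type*} [AddCommGroup Q]

open Polynomial in
theorem td02_phi {ℓ N : ℕ} (t : AddMonoid.End Q)
    (hΦ : ∑ j ∈ range ℓ, t ^ (j * N) = 0) :
    aeval t (∑ j ∈ range ℓ, X ^ (j * N) : Polynomial ℤ) = 0 := by
  rw [map_sum]
  simpa using hΦ

open Polynomial in
/-- `ℓ = (1 - t ^ N) κ(t)` -/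
theorem td02_ell {ℓ N : ℕ} (t : AddMonoid.End Q)
    (hΦ : ∑ j ∈ range ℓ, t ^ (j * N) = 0) :
    ∃ κ : Polynomial ℤ, (ℓ : AddMonoid.End Q) = (1 - t ^ N) * aeval t κ := by
  obtain ⟨κ, hκ⟩ := td02_kappa ℓ N
  refine ⟨κ, ?_⟩
  have h := congrArg (aeval t) hκ
  rw [map_add, td02_phi t hΦ, add_zero] at h
  simpa using h

open Polynomial in
theorem td02_comm (t : AddMonoid.End Q) (A B : Polynomial ℤ) :
    aeval t A * aeval t B = aeval t B * aeval t A := by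
  rw [← map_mul, mul_comm, map_mul]

open Polynomial in
/-- `(1 - t)^N = (1 - t^N) (1 + κ(t) (1 - t) R(t))` -/
theorem td02_key {ℓ : ℕ} (hℓ : ℓ.Prime) (n₀ : ℕ)
    (t : AddMonoid.End Q) (hΦ : ∑ j ∈ range ℓ, t ^ (j * ℓ ^ n₀) = 0) :
    ∃ κ R : Polynomial ℤ, (1 - t) ^ ℓ ^ n₀ =
      (1 - t ^ ℓ ^ n₀) * (1 + aeval t κ * ((1 - t) * aeval t R)) := by
  obtain ⟨κ, hκ⟩ := td02_ell t hΦ
  obtain ⟨R, hR⟩ := td02_frob hℓ n₀
  refine ⟨κ, R, ?_⟩
  have h := congrArg (aeval t) hR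
  simp only [map_pow, map_sub, map_one, aeval_X, map_add, map_mul, map_natCast] at h
  rw [h, hκ]
  noncomm_ring

end

theorem pw_lemma {Q : Type*} [AddCommGroup Q] {ℓ : ℕ} (hℓ : ℓ.Prime) (n₀ : ℕ)
    (t : AddMonoid.End Q) (hΦ : ∑ j ∈ range ℓ, t ^ (j * ℓ ^ n₀) = 0) (a : Q) :
    ∃ a' : Q, ((1 - t) ^ ℓ ^ n₀) a = a' - (t ^ ℓ ^ n₀) a' := by
  obtain ⟨κ, R, h⟩ := td02_key hℓ n₀ t hΦ
  refine ⟨(1 + Polynomial.aeval t κ * ((1 - t) * Polynomial.aeval t R)) a, ?_⟩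
  rw [h]
  rfl

theorem td02_inj {Q : Type*} [AddCommGroup Q] (t : AddMonoid.End Q)
    (hinj : ∀ a, a - t a = 0 → a = 0) (n : ℕ) (a : Q) (h : ((1 - t) ^ n) a = 0) : a = 0 := by
  induction n with
  | zero => simpa using h
  | succ n ih =>
    apply ih
    apply hinj
    rw [pow_succ'] at h
    exact h

theorem div_lemma {Q : Type*} [AddCommGroup Q] {ℓ : ℕ} (hℓ : ℓ.Prime) (n₀ : ℕ)
    (t : AddMonoid.End Q) (hΦ : ∑ j ∈ range ℓ, t ^ (j * ℓ ^ n₀) = 0)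
    (hinj : ∀ a, a - t a = 0 → a = 0) {a y : Q}
    (h : y - (t ^ ℓ ^ n₀) y = ((1 - t) ^ (ℓ ^ n₀ - 1)) a) : ∃ a', a = a' - t a' := by
  obtain ⟨κ, R, hk⟩ := td02_key hℓ n₀ t hΦ
  have hN : 0 < ℓ ^ n₀ := pow_pos hℓ.pos _
  set w : AddMonoid.End Q := 1 + Polynomial.aeval t κ * ((1 - t) * Polynomial.aeval t R) with hw
  have h1t : (1 - t) = Polynomial.aeval t (1 - Polynomial.X : Polynomial ℤ) := by simp
  have hwp : w = Polynomial.aeval t (1 + κ * ((1 - Polynomial.X) * R)) := by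
    rw [hw]; simp
  have hpowp : ∀ n : ℕ, (1 - t) ^ n = Polynomial.aeval t ((1 - Polynomial.X : Polynomial ℤ) ^ n) := by
    intro n; rw [map_pow, ← h1t]
  have hxip : (1 - t ^ ℓ ^ n₀) =
      Polynomial.aeval t (1 - Polynomial.X ^ ℓ ^ n₀ : Polynomial ℤ) := by simp
  -- the identity
  have e1 : (1 - t ^ ℓ ^ n₀) y = ((1 - t) ^ (ℓ ^ n₀ - 1)) a := h
  have e2 : ((1 - t) ^ ℓ ^ n₀) y = ((1 - t) ^ (ℓ ^ n₀ - 1)) (w a) := by
    have c1 : (1 - t) ^ ℓ ^ n₀ = w * (1 - t ^ ℓ ^ n₀) := by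
      rw [hk, hxip, hwp]; exact td02_comm t _ _
    have c2 : w * (1 - t) ^ (ℓ ^ n₀ - 1) = (1 - t) ^ (ℓ ^ n₀ - 1) * w := by
      rw [hpowp, hwp]; exact td02_comm t _ _
    rw [c1]
    show w ((1 - t ^ ℓ ^ n₀) y) = _
    rw [e1]
    show (w * (1 - t) ^ (ℓ ^ n₀ - 1)) a = _
    rw [c2]; rfl
  have e3 : ((1 - t) ^ (ℓ ^ n₀ - 1)) ((1 - t) y - w a) = 0 := by
    rw [map_sub, ← e2]
    have : (1 - t) ^ ℓ ^ n₀ = (1 - t) ^ (ℓ ^ n₀ - 1) * (1 - t) := by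
      rw [← pow_succ]; congr 1; omega
    rw [this]
    exact sub_self _
  have e4 := td02_inj t hinj _ _ e3
  have e5 : (1 - t) y = w a := sub_eq_zero.1 e4
  have c3 : w = 1 + (1 - t) * (Polynomial.aeval t κ * Polynomial.aeval t R) := by
    rw [hw, ← mul_assoc, ← mul_assoc]
    congr 2
    rw [h1t]; exact td02_comm t _ _
  rw [c3] at e5
  refine ⟨y - (Polynomial.aeval t κ * Polynomial.aeval t R) a, ?_⟩
  have e6 : (1 - t) y = a + (1 - t) ((Polynomial.aeval t κ * Polynomial.aeval t R) a) := e5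
  have e7 : a = (1 - t) (y - (Polynomial.aeval t κ * Polynomial.aeval t R) a) := by
    rw [map_sub, e6]; abel
  exact e7

open Polynomial in
/-- `(1 + t + ... + t^(q-1))^n = 1 + (1 - t) s` modulo `(1 - t)²`. -/
theorem eps_lemma {Q : Type*} [AddCommGroup Q] {ℓ : ℕ} (hℓ : ℓ.Prime) (n₀ q n : ℕ)
    (hq0 : 0 < q) (hq1 : ℓ ∣ q - 1)
    (t : AddMonoid.End Q) (hΦ : ∑ j ∈ range ℓ, t ^ (j * ℓ ^ n₀) = 0) :
    ∃ s : ℤ, ∀ a : Q, ∃ a' : Q, ((∑ i ∈ range q, t ^ i) ^ n) a =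
      a + (1 - t) (s • a + (1 - t) a') := by
  obtain ⟨κ, hκ⟩ := td02_kappa ℓ (ℓ ^ n₀)
  obtain ⟨R, hR⟩ := td02_taylor ((∑ i ∈ range q, X ^ i : Polynomial ℤ) ^ n)
  have hev : ((∑ i ∈ range q, X ^ i : Polynomial ℤ) ^ n).eval 1 = (q : ℤ) ^ n := by
    simp [eval_finsetSum]
  rw [hev] at hR
  have hdvd : (ℓ : ℤ) ∣ (q : ℤ) ^ n - 1 := by
    have h1 : (ℓ : ℤ) ∣ (q : ℤ) - 1 := by
      have : ((q - 1 : ℕ) : ℤ) = (q : ℤ) - 1 := by
        rw [Nat.cast_sub hq0]; simp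
      rw [← this]; exact_mod_cast hq1
    have h2 : (q : ℤ) - 1 ∣ (q : ℤ) ^ n - 1 ^ n := sub_dvd_pow_sub_pow _ _ n
    rw [one_pow] at h2
    exact h1.trans h2
  obtain ⟨y, hy⟩ := hdvd
  set G : Polynomial ℤ := ∑ i ∈ range (ℓ ^ n₀), X ^ i with hG
  have hGe : (1 - X ^ (ℓ ^ n₀) : Polynomial ℤ) = (1 - X) * G := by
    rw [hG, mul_neg_geom_sum]
  obtain ⟨R₂, hR₂⟩ := td02_taylor R
  obtain ⟨K₂, hK₂⟩ := td02_taylor (G * κ * C y)
  set s : ℤ := R.eval 1 + (G * κ * C y).eval 1 with hs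
  have hmain : (∑ i ∈ range q, X ^ i : Polynomial ℤ) ^ n =
      1 + (1 - X) * (C s + (1 - X) * (R₂ + K₂)) +
        (∑ j ∈ range ℓ, X ^ (j * ℓ ^ n₀)) * C y := by
    have h1 : (C ((q : ℤ) ^ n) : Polynomial ℤ) = 1 + (ℓ : Polynomial ℤ) * C y := by
      have : (q : ℤ) ^ n = 1 + ℓ * y := by rw [← hy]; ring
      rw [this]; simp
    have h2 : (ℓ : Polynomial ℤ) * C y = (1 - X) * (G * κ * C y) +
        (∑ j ∈ range ℓ, X ^ (j * ℓ ^ n₀)) * C y := by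
      rw [hκ, hGe]; ring
    have h3 : (C s : Polynomial ℤ) = C (R.eval 1) + C ((G * κ * C y).eval 1) := by
      rw [hs, C_add]
    have h4 : (1 - X) * R = (1 - X) * (C (R.eval 1) + (1 - X) * R₂) := by rw [← hR₂]
    have h5 : (1 - X) * (G * κ * C y) =
        (1 - X) * (C ((G * κ * C y).eval 1) + (1 - X) * K₂) := by rw [← hK₂]
    rw [hR, h1, h2, h3, h4, h5]
    ring
  refine ⟨s, fun a => ⟨aeval t (R₂ + K₂) a, ?_⟩⟩
  have h := congrArg (aeval t) hmain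
  rw [map_add, map_mul (aeval t) (∑ j ∈ range ℓ, X ^ (j * ℓ ^ n₀)), td02_phi t hΦ, zero_mul,
    add_zero] at h
  have hl : aeval t ((∑ i ∈ range q, X ^ i : Polynomial ℤ) ^ n) = (∑ i ∈ range q, t ^ i) ^ n := by
    simp
  rw [hl] at h
  rw [h]
  have hr : aeval t (1 + (1 - X) * (C s + (1 - X) * (R₂ + K₂)) : Polynomial ℤ) =
      1 + (1 - t) * ((s : AddMonoid.End Q) + (1 - t) * aeval t (R₂ + K₂)) := by
    simp only [map_add, map_mul, map_sub, map_one, aeval_X, aeval_C]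
    simp
  rw [hr]
  show a + (1 - t) ((s : AddMonoid.End Q) a + (1 - t) (aeval t (R₂ + K₂) a)) = _
  have hs' : (s : AddMonoid.End Q) a = s • a := by
    rw [← zsmul_one s]; rfl
  rw [hs']

end Pool.Agent.Lib.MP_89bcae_ag.Sup

end

section

/-!
# The order lemma
-/

open Finset

namespace Pool.Agent.Lib.MP_89bcae_ag.Sup

section poly

open Polynomial

lemma td05_p1 (f : ℤ[X]) : ∃ g : ℤ[X], f = C (f.eval 1) + (1 - X) * g := by
  obtain ⟨g, hg⟩ := X_sub_C_dvd_sub_C_eval (a := (1 : ℤ)) (p := f)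
  refine ⟨-g, ?_⟩
  rw [C_1] at hg
  linear_combination hg

lemma td05_p2 (n : ℕ) : (∃ g : ℤ[X], (X : ℤ[X]) ^ n = 1 - (n : ℤ[X]) * (1 - X) + (1 - X) ^ 2 * g) ∧
    ∃ g : ℤ[X], ∑ i ∈ range n, (X : ℤ[X]) ^ i =
      (n : ℤ[X]) - ((n.choose 2 : ℕ) : ℤ[X]) * (1 - X) + (1 - X) ^ 2 * g := by
  induction n with
  | zero => exact ⟨⟨0, by simp⟩, ⟨0, by simp⟩⟩
  | succ n ih =>
    obtain ⟨⟨g, hg⟩, ⟨h, hh⟩⟩ := ih
    refine ⟨⟨(n : ℤ[X]) + g - (1 - X) * g, ?_⟩, ⟨h + g, ?_⟩⟩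
    · rw [pow_succ, hg]
      push_cast
      ring
    · rw [sum_range_succ, hh, hg, Nat.choose_succ_succ' n 1, Nat.choose_one_right]
      push_cast
      ring

end poly

section arith

/-- the arithmetic hypothesis on `q` -/
def td05_H (ℓ q : ℕ) : Prop := ∃ x : ℕ, q = 1 + ℓ * x ∧ (ℓ = 2 → 2 ∣ x)

lemma td05_H_of {ℓ q : ℕ} (hq0 : 0 < q) (hq1 : ℓ ∣ q - 1) (hq2 : ℓ ∣ q.choose 2) :
    td05_H ℓ q := by
  obtain ⟨x, hx⟩ := hq1
  refine ⟨x, by omega, ?_⟩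
  rintro rfl
  have hq : q = 2 * x + 1 := by omega
  have h1 : q.choose 2 = (2 * x + 1) * x := by
    rw [hq, Nat.choose_two_right]
    have : (2 * x + 1) * (2 * x + 1 - 1) = (2 * x + 1) * x * 2 := by
      rw [Nat.add_sub_cancel]
      ring
    rw [this, Nat.mul_div_cancel _ two_pos]
  rw [h1] at hq2
  rcases (Nat.prime_two.dvd_mul).1 hq2 with h | h
  · omega
  · exact h

lemma td05_H_pow {ℓ q : ℕ} (h : td05_H ℓ q) (n : ℕ) : td05_H ℓ (q ^ n) := by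
  obtain ⟨x, hx, h2⟩ := h
  induction n with
  | zero => exact ⟨0, by simp, fun _ => dvd_zero _⟩
  | succ n ih =>
    obtain ⟨y, hy, hy2⟩ := ih
    refine ⟨x + y + ℓ * y * x, ?_, fun h => ?_⟩
    · rw [pow_succ, hy, hx]
      ring
    · exact dvd_add (dvd_add (h2 h) (hy2 h)) ((h2 h).mul_left _)

lemma td05_geom (x n : ℕ) : ∃ z, ∑ i ∈ range n, (1 + x) ^ i = n + n.choose 2 * x + x ^ 2 * z := by
  have h1 : ∀ n : ℕ, ∃ z, (1 + x) ^ n = 1 + n * x + x ^ 2 * z := by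
    intro n
    induction n with
    | zero => exact ⟨0, by simp⟩
    | succ n ih =>
      obtain ⟨z, hz⟩ := ih
      refine ⟨n + z + x * z, ?_⟩
      rw [pow_succ, hz]
      ring
  induction n with
  | zero => exact ⟨0, by simp⟩
  | succ n ih =>
    obtain ⟨z, hz⟩ := ih
    obtain ⟨w, hw⟩ := h1 n
    refine ⟨z + w, ?_⟩
    rw [sum_range_succ, hz, hw, Nat.choose_succ_succ' n 1, Nat.choose_one_right]
    ring

/-- `∑_{i<ℓ} q^i = ℓ v` with `v` prime to `ℓ` -/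
lemma td05_S {ℓ q : ℕ} (hℓ : ℓ.Prime) (h : td05_H ℓ q) :
    ∃ y, ∑ i ∈ range ℓ, q ^ i = ℓ * (1 + ℓ * y) := by
  obtain ⟨x, hx, h2⟩ := h
  obtain ⟨z, hz⟩ := td05_geom (ℓ * x) ℓ
  rw [hx, hz]
  obtain ⟨c, hc⟩ : ∃ c, ℓ.choose 2 * x = ℓ * c := by
    rcases eq_or_ne ℓ 2 with h | h
    · obtain ⟨c, hc⟩ := h2 h
      refine ⟨c, ?_⟩
      rw [hc, h]
      norm_num
    · obtain ⟨c, hc⟩ := hℓ.dvd_choose_self (k := 2) two_ne_zero (by
        have := hℓ.two_le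
        omega)
      refine ⟨c * x, ?_⟩
      rw [hc]
      ring
  refine ⟨c + x ^ 2 * z, ?_⟩
  have : ℓ.choose 2 * (ℓ * x) = ℓ * (ℓ.choose 2 * x) := by ring
  rw [this, hc]
  ring

lemma td05_choose {ℓ q : ℕ} (hℓ : ℓ.Prime) (h : td05_H ℓ q) : ∃ c, q.choose 2 = ℓ * c := by
  obtain ⟨x, hx, h2⟩ := h
  have h3 : 2 * q.choose 2 = ℓ * (x * q) := by
    rw [Nat.choose_two_right, Nat.mul_div_cancel']
    · rw [hx, Nat.add_sub_cancel_left]
      ring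
    · exact (Nat.even_mul_pred_self q).two_dvd
  rcases eq_or_ne ℓ 2 with h | h
  · obtain ⟨c, hc⟩ := h2 h
    refine ⟨c * q, ?_⟩
    subst h
    rw [hc] at h3
    have : 2 * (2 * c * q) = 2 * (2 * (c * q)) := by ring
    rw [this] at h3
    exact Nat.eq_of_mul_eq_mul_left two_pos h3
  · have h4 : ℓ ∣ 2 * q.choose 2 := ⟨_, h3⟩
    rcases (hℓ.dvd_mul).1 h4 with h5 | h5
    · exact absurd ((Nat.prime_dvd_prime_iff_eq hℓ Nat.prime_two).1 h5) h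
    · exact h5

lemma td05_sq {ℓ q : ℕ} (hℓ : ℓ.Prime) (h : td05_H ℓ q) : ∃ y, q ^ ℓ = 1 + ℓ ^ 2 * y := by
  obtain ⟨y, hy⟩ := td05_S hℓ h
  obtain ⟨x, hx, h2⟩ := h
  refine ⟨x * (1 + ℓ * y), ?_⟩
  have h3 : (q : ℤ) ^ ℓ = 1 + ((q : ℤ) - 1) * ∑ i ∈ range ℓ, (q : ℤ) ^ i := by
    rw [mul_geom_sum]
    ring
  have h4 : (∑ i ∈ range ℓ, (q : ℤ) ^ i) = ℓ * (1 + ℓ * y) := by exact_mod_cast hy
  have h5 : (q : ℤ) = 1 + ℓ * x := by exact_mod_cast hx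
  have h6 : (q : ℤ) - 1 = ℓ * x := by rw [h5]; ring
  rw [h4, h6] at h3
  have h7 : ((q ^ ℓ : ℕ) : ℤ) = ((1 + ℓ ^ 2 * (x * (1 + ℓ * y)) : ℕ) : ℤ) := by
    push_cast
    rw [h3]
    ring
  exact_mod_cast h7

/-- the exponent `e` with `ℓ N ∣ n + e S` -/
lemma td05_solve {ℓ : ℕ} (hℓ : ℓ.Prime) (n₀ n' y : ℕ) :
    ∃ e k : ℕ, ℓ * n' + e * (ℓ * (1 + ℓ * y)) = ℓ * ℓ ^ n₀ * k := by
  have hcop : Nat.Coprime (1 + ℓ * y) (ℓ ^ n₀) := by
    apply Nat.Coprime.pow_right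
    rw [Nat.coprime_comm, hℓ.coprime_iff_not_dvd]
    intro h
    have h1 : ℓ ∣ 1 := (Nat.dvd_add_left (dvd_mul_right ℓ y)).1 h
    exact hℓ.one_lt.ne' (Nat.dvd_one.1 h1)
  have hN : 0 < ℓ ^ n₀ := pow_pos hℓ.pos _
  obtain ⟨w, -, hw'⟩ := Nat.exists_mul_mod_eq_of_coprime 1 hcop hN.ne'
  have hw : (1 + ℓ * y) * w ≡ 1 [MOD ℓ ^ n₀] := hw'
  refine ⟨w * (n' * (ℓ ^ n₀ - 1)), ?_⟩
  have h1 : n' + w * (n' * (ℓ ^ n₀ - 1)) * (1 + ℓ * y) ≡ 0 [MOD ℓ ^ n₀] := by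
    have h2 : w * (n' * (ℓ ^ n₀ - 1)) * (1 + ℓ * y) ≡ 1 * (n' * (ℓ ^ n₀ - 1)) [MOD ℓ ^ n₀] := by
      have h3 : w * (n' * (ℓ ^ n₀ - 1)) * (1 + ℓ * y) = ((1 + ℓ * y) * w) * (n' * (ℓ ^ n₀ - 1)) := by
        ring
      rw [h3]
      exact hw.mul_right _
    have h4 : n' + 1 * (n' * (ℓ ^ n₀ - 1)) = n' * ℓ ^ n₀ := by
      obtain ⟨M, hM⟩ := Nat.exists_eq_succ_of_ne_zero hN.ne'
      rw [hM, Nat.succ_sub_one, Nat.succ_eq_add_one]
      ring
    refine (h2.add_left n').trans ?_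
    rw [h4]
    exact (Nat.modEq_zero_iff_dvd.2 (dvd_mul_left _ _))
  obtain ⟨k, hk⟩ := Nat.modEq_zero_iff_dvd.1 h1
  refine ⟨k, ?_⟩
  calc ℓ * n' + w * (n' * (ℓ ^ n₀ - 1)) * (ℓ * (1 + ℓ * y))
      = ℓ * (n' + w * (n' * (ℓ ^ n₀ - 1)) * (1 + ℓ * y)) := by ring
    _ = ℓ * ℓ ^ n₀ * k := by rw [hk]; ring

end arith

section ring

open Polynomial

variable {R : Type*} [Ring R]

/-- the value of a polynomial at `t` -/
noncomputable def td05_v (t : R) : ℤ[X] →+* R := (aeval t : ℤ[X] →ₐ[ℤ] R).toRingHom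

lemma td05_v_X (t : R) : td05_v t X = t := aeval_X t

lemma td05_v_pi (t : R) : td05_v t (1 - X) = 1 - t := by
  rw [map_sub, map_one, td05_v_X]

lemma td05_v_C (t : R) (a : ℤ) : td05_v t (C a) = a := by
  change aeval t (C a) = _
  rw [aeval_C]
  exact eq_intCast _ a

lemma td05_comm (t : R) (f g : ℤ[X]) : Commute (td05_v t f) (td05_v t g) := by
  unfold Commute SemiconjBy
  rw [← map_mul, ← map_mul, mul_comm]

lemma td05_comm_pi (t : R) (f : ℤ[X]) : Commute (td05_v t f) (1 - t) := by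
  rw [← td05_v_pi]
  exact td05_comm t f _

/-- `ℓ = (1 - t) κ(t)` -/
lemma td05_kappa {ℓ n₀ : ℕ} (t : R) (hΦ : ∑ j ∈ range ℓ, t ^ (j * ℓ ^ n₀) = 0) :
    ∃ K : ℤ[X], (ℓ : R) = (1 - t) * td05_v t K := by
  obtain ⟨g, hg⟩ := td05_p1 ((ℓ : ℤ[X]) - ∑ j ∈ range ℓ, X ^ (j * ℓ ^ n₀))
  have h1 : ((ℓ : ℤ[X]) - ∑ j ∈ range ℓ, X ^ (j * ℓ ^ n₀)).eval 1 = 0 := by
    rw [eval_sub, eval_natCast, eval_finsetSum]
    simp
  rw [h1, C_0, zero_add] at hg
  refine ⟨g, ?_⟩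
  have h2 := congrArg (td05_v t) hg
  rw [map_mul, td05_v_pi, map_sub, map_natCast, map_sum] at h2
  rw [← h2]
  have h3 : ∑ j ∈ range ℓ, td05_v t (X ^ (j * ℓ ^ n₀)) = 0 := by
    rw [← hΦ]
    refine sum_congr rfl fun j _ => ?_
    rw [map_pow, td05_v_X]
  rw [h3, sub_zero]

/-- `ε^m = 1 + π (s + π z)` with a natural number `s` -/
lemma td05_eps0 {ℓ q : ℕ} (hℓ : ℓ.Prime) (t : R) {K : ℤ[X]}
    (hK : (ℓ : R) = (1 - t) * td05_v t K) (h : td05_H ℓ q) (m : ℕ) :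
    ∃ (s : ℕ) (z : ℤ[X]), (∑ i ∈ range q, t ^ i) ^ m =
      1 + (1 - t) * ((s : R) + (1 - t) * td05_v t z) := by
  obtain ⟨x, hx, -⟩ := td05_H_pow h m
  obtain ⟨g, hg⟩ := td05_p1 ((∑ i ∈ range q, (X : ℤ[X]) ^ i) ^ m)
  have h1 : ((∑ i ∈ range q, (X : ℤ[X]) ^ i) ^ m).eval 1 = 1 + ℓ * x := by
    rw [eval_pow, eval_finsetSum]
    have : ∑ i ∈ range q, eval 1 ((X : ℤ[X]) ^ i) = q := by simp
    rw [this]
    exact_mod_cast hx
  obtain ⟨g₂, hg₂⟩ := td05_p1 (K * (x : ℤ[X]) + g)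
  set a : ℤ := (K * (x : ℤ[X]) + g).eval 1 with ha
  have hℓ0 : (ℓ : ℤ) ≠ 0 := by exact_mod_cast hℓ.ne_zero
  obtain ⟨s, hs⟩ : ∃ s : ℕ, (s : ℤ) = a % ℓ := ⟨(a % ℓ).toNat, Int.toNat_of_nonneg
    (Int.emod_nonneg a hℓ0)⟩
  refine ⟨s, K * C (a / ℓ) + g₂, ?_⟩
  have h2 := congrArg (td05_v t) hg
  have h3 := congrArg (td05_v t) hg₂
  have hsum : td05_v t (∑ i ∈ range q, (X : ℤ[X]) ^ i) = ∑ i ∈ range q, t ^ i := by
    rw [map_sum]
    refine sum_congr rfl fun j _ => ?_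
    rw [map_pow, td05_v_X]
  rw [map_pow, hsum, h1, map_add, map_mul, td05_v_pi, td05_v_C] at h2
  rw [map_add, map_mul, map_add, map_mul, td05_v_pi, td05_v_C, map_natCast] at h3
  have h4 : (a : R) = (s : R) + (1 - t) * (td05_v t K * ((a / ℓ : ℤ) : R)) := by
    have h5 : a = (s : ℤ) + ℓ * (a / ℓ) := by
      rw [hs]
      exact (Int.emod_add_mul_ediv a ℓ).symm
    rw [← mul_assoc, ← hK]
    conv_lhs => rw [h5]
    push_cast
    rfl
  have h5 : td05_v t g = (s : R) + (1 - t) * (td05_v t K * ((a / ℓ : ℤ) : R)) +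
      (1 - t) * td05_v t g₂ - td05_v t K * (x : R) := by
    rw [← h4, ← h3, add_sub_cancel_left]
  rw [h2, h5, map_add, map_mul, td05_v_C]
  have h6 : ((1 + ℓ * x : ℤ) : R) = 1 + (1 - t) * (td05_v t K * (x : R)) := by
    rw [← mul_assoc, ← hK]
    push_cast
    rfl
  rw [h6]
  noncomm_ring

/-- `ε^m = 1 + π² z` if `q ≡ 1` modulo `ℓ²` -/
lemma td05_eps1 {ℓ q : ℕ} (t : R) {K : ℤ[X]}
    (hK : (ℓ : R) = (1 - t) * td05_v t K) (h1 : ∃ y, q = 1 + ℓ ^ 2 * y)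
    (h2 : ∃ c, q.choose 2 = ℓ * c) (m : ℕ) :
    ∃ z : ℤ[X], (∑ i ∈ range q, t ^ i) ^ m = 1 + (1 - t) * ((1 - t) * td05_v t z) := by
  obtain ⟨y, hy⟩ := h1
  obtain ⟨c, hc⟩ := h2
  obtain ⟨-, g, hg⟩ := td05_p2 q
  have hsum : td05_v t (∑ i ∈ range q, (X : ℤ[X]) ^ i) = ∑ i ∈ range q, t ^ i := by
    rw [map_sum]
    refine sum_congr rfl fun j _ => ?_
    rw [map_pow, td05_v_X]
  induction m with
  | zero => exact ⟨0, by simp⟩
  | succ m ih =>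
    obtain ⟨z, hz⟩ := ih
    have hK2 : (ℓ : R) * ℓ = (1 - t) * ((1 - t) * td05_v t (K * K)) := by
      have e1 : (ℓ : R) * ℓ = (1 - t) * (td05_v t K * (1 - t)) * td05_v t K := by
        conv_lhs => rw [hK]
        noncomm_ring
      rw [e1, (td05_comm_pi t K).eq, map_mul]
      noncomm_ring
    have h3 : ∑ i ∈ range q, t ^ i = 1 + (1 - t) * ((1 - t) *
        td05_v t (K * K * (y : ℤ[X]) - K * (c : ℤ[X]) + g)) := by
      have h4 := congrArg (td05_v t) hg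
      rw [hsum] at h4
      rw [h4, map_add, map_sub, map_mul, map_mul, map_pow, td05_v_pi, map_natCast, map_natCast,
        map_add, map_sub, map_mul _ (K * K), map_mul _ K (c : ℤ[X]), map_natCast, map_natCast, hc]
      have e2 : ((q : ℕ) : R) = 1 + (1 - t) * ((1 - t) * td05_v t (K * K)) * (y : R) := by
        rw [← hK2, hy]
        push_cast
        rw [pow_two]
      have e3 : ((ℓ * c : ℕ) : R) * (1 - t) = (1 - t) * ((1 - t) * (td05_v t K * (c : R))) := by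
        have e4 : ((ℓ * c : ℕ) : R) * (1 - t) = (1 - t) * ((ℓ * c : ℕ) : R) :=
          (Nat.cast_commute _ _).eq
        rw [e4]
        push_cast
        rw [hK]
        noncomm_ring
      rw [e2, e3]
      noncomm_ring
    refine ⟨z + (K * K * (y : ℤ[X]) - K * (c : ℤ[X]) + g) +
      z * ((1 - X) * (1 - X)) * (K * K * (y : ℤ[X]) - K * (c : ℤ[X]) + g), ?_⟩
    have h4 : ∀ f : ℤ[X], 1 + (1 - t) * ((1 - t) * td05_v t f) =
        td05_v t (1 + (1 - X) * ((1 - X) * f)) := by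
      intro f
      rw [map_add, map_one, map_mul, map_mul, td05_v_pi]
    rw [pow_succ, hz, h3, h4, h4, h4, ← map_mul]
    congr 1
    ring

/-- `t^n (1 + ... + t^(s-1)) = s + π y` -/
lemma td05_ts (t : R) (n s : ℕ) : ∃ y : R,
    t ^ (n + s) - t ^ n = -((1 - t) * ((s : R) + (1 - t) * y)) := by
  obtain ⟨g, hg⟩ := td05_p1 (X ^ n * ∑ i ∈ range s, (X : ℤ[X]) ^ i)
  have h1 : ((X : ℤ[X]) ^ n * ∑ i ∈ range s, (X : ℤ[X]) ^ i).eval 1 = s := by
    rw [eval_mul, eval_pow, eval_X, one_pow, one_mul, eval_finsetSum]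
    simp
  refine ⟨td05_v t g, ?_⟩
  have h2 := congrArg (td05_v t) hg
  rw [h1, map_add, map_mul (td05_v t) (1 - X), td05_v_pi, td05_v_C] at h2
  have h3 : ((s : ℤ) : R) = (s : R) := Int.cast_natCast s
  rw [h3] at h2
  rw [← h2, map_mul, map_pow, td05_v_X]
  have hsum : td05_v t (∑ i ∈ range s, (X : ℤ[X]) ^ i) = ∑ i ∈ range s, t ^ i := by
    rw [map_sum]
    refine sum_congr rfl fun j _ => ?_
    rw [map_pow, td05_v_X]
  rw [hsum, ← mul_assoc, ((Commute.one_left _).sub_left (Commute.pow_right (Commute.refl t) n)).eq,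
    mul_assoc, mul_neg_geom_sum, pow_add]
  noncomm_ring

lemma td05_semi {t u : R} {q : ℕ} (hc : u * t = t ^ q * u) (c : ℕ) :
    SemiconjBy (u ^ c) t (t ^ q ^ c) := by
  induction c with
  | zero =>
    rw [pow_zero, pow_zero, pow_one]
    exact SemiconjBy.one_left t
  | succ c ih =>
    have h1 : SemiconjBy u t (t ^ q) := hc
    have h2 := h1.pow_right (q ^ c)
    rw [← pow_mul, ← pow_succ'] at h2
    rw [pow_succ']
    exact h2.mul_left ih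

lemma td05_commt (t : R) (n m : ℕ) : Commute (∑ i ∈ range n, t ^ i) ((1 - t) ^ m) := by
  apply Commute.pow_right
  apply Commute.sub_right (Commute.one_right _)
  exact Commute.sum_left _ _ _ fun i _ => (Commute.refl t).pow_left i

lemma td05_upi {t u : R} {q : ℕ} (hc : u * t = t ^ q * u) (c m : ℕ) :
    u ^ c * (1 - t) ^ m = (1 - t) ^ m * ((∑ i ∈ range (q ^ c), t ^ i) ^ m * u ^ c) := by
  have h1 : SemiconjBy (u ^ c) (1 - t) (1 - t ^ q ^ c) :=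
    (SemiconjBy.one_right _).sub_right (td05_semi hc c)
  have h2 := (h1.pow_right m).eq
  have h3 : (1 - t ^ q ^ c) ^ m = (1 - t) ^ m * (∑ i ∈ range (q ^ c), t ^ i) ^ m := by
    rw [← mul_neg_geom_sum, Commute.mul_pow]
    have := td05_commt t (q ^ c) 1
    rw [pow_one] at this
    exact this.symm
  rw [h2, h3, mul_assoc]

lemma td05_u1 {t u w : R} (hw : u - 1 = (1 - t) * w) (c : ℕ) :
    ∃ B, u ^ c = 1 + (1 - t) * B := by
  refine ⟨w * ∑ i ∈ range c, u ^ i, ?_⟩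
  rw [← mul_assoc, ← hw, mul_geom_sum]
  abel

lemma td05_u2 {ℓ q : ℕ} (hℓ : ℓ.Prime) {t u w : R} (hc : u * t = t ^ q * u)
    (hw : u - 1 = (1 - t) * w) {K : ℤ[X]} (hK : (ℓ : R) = (1 - t) * td05_v t K)
    (h : td05_H ℓ q) : ∃ D, u ^ ℓ = 1 + (1 - t) * ((1 - t) * D) := by
  have h1 : ∀ c : ℕ, ∃ C : R, (∑ i ∈ range (q ^ c), t ^ i) * u ^ c = 1 + (1 - t) * C := by
    intro c
    obtain ⟨s, z, hz⟩ := td05_eps0 hℓ t hK (td05_H_pow h c) 1
    obtain ⟨B, hB⟩ := td05_u1 hw c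
    rw [pow_one] at hz
    rw [hz, hB]
    generalize (s : R) + (1 - t) * td05_v t z = A
    refine ⟨A + B + A * ((1 - t) * B), ?_⟩
    noncomm_ring
  choose C hC using h1
  refine ⟨(td05_v t K + ∑ c ∈ range ℓ, C c) * w, ?_⟩
  have h2 : (∑ c ∈ range ℓ, u ^ c) * (1 - t) = (1 - t) * ((1 - t) *
      (td05_v t K + ∑ c ∈ range ℓ, C c)) := by
    rw [sum_mul]
    have h3 : ∀ c ∈ range ℓ, u ^ c * (1 - t) = (1 - t) * (1 + (1 - t) * C c) := by
      intro c _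
      have h4 := td05_upi hc c 1
      rw [pow_one, pow_one] at h4
      rw [h4, hC]
    rw [sum_congr rfl h3, ← mul_sum, sum_add_distrib, sum_const, card_range, nsmul_one, hK,
      ← mul_sum]
    congr 1
    rw [mul_add]
  have h5 : u ^ ℓ - 1 = (∑ c ∈ range ℓ, u ^ c) * (u - 1) := (geom_sum_mul u ℓ).symm
  rw [hw, ← mul_assoc, h2] at h5
  rw [← mul_assoc (1 - t) _ w, ← mul_assoc (1 - t) _ w, ← h5]
  abel

lemma td05_u3 {ℓ q : ℕ} (hℓ : ℓ.Prime) {t u w : R} (hc : u * t = t ^ q * u)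
    (hw : u - 1 = (1 - t) * w) {K : ℤ[X]} (hK : (ℓ : R) = (1 - t) * td05_v t K)
    (h : td05_H ℓ q) (j : ℕ) : ∃ D, u ^ ℓ ^ (j + 1) = 1 + (1 - t) * ((1 - t) * D) := by
  obtain ⟨D, hD⟩ := td05_u2 hℓ hc hw hK h
  refine ⟨D * ∑ i ∈ range (ℓ ^ j), (u ^ ℓ) ^ i, ?_⟩
  have h1 : u ^ ℓ - 1 = (1 - t) * ((1 - t) * D) := by rw [hD, add_sub_cancel_left]
  rw [← mul_assoc (1 - t) D, ← mul_assoc (1 - t) _ (∑ i ∈ range (ℓ ^ j), (u ^ ℓ) ^ i), ← h1,
    mul_geom_sum, ← pow_mul, ← pow_succ']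
  abel

/-- the identity for `j = 0` -/
lemma td05_id0 {ℓ q : ℕ} (hℓ : ℓ.Prime) {t u w : R}
    (hw : u - 1 = (1 - t) * w) {K : ℤ[X]} (hK : (ℓ : R) = (1 - t) * td05_v t K)
    (h : td05_H ℓ q) (m n : ℕ) : ∃ (s : ℕ) (Y : R),
      (∑ i ∈ range q, t ^ i) ^ m * u - t ^ n = (u - t ^ (n + s)) + (1 - t) * ((1 - t) * Y) := by
  obtain ⟨s, z, hz⟩ := td05_eps0 hℓ t hK h m
  obtain ⟨y, hy⟩ := td05_ts t n s
  refine ⟨s, (s : R) * w - y + td05_v t z * u, ?_⟩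
  have h1 : (s : R) * (u - 1) = (1 - t) * ((s : R) * w) := by
    rw [hw, ← mul_assoc, (Nat.cast_commute s (1 - t)).eq, mul_assoc]
  have h2 : t ^ n = t ^ (n + s) + (1 - t) * ((s : R) + (1 - t) * y) := by
    have := hy
    rw [sub_eq_iff_eq_add] at this
    rw [this]
    abel
  have h3 : (∑ i ∈ range q, t ^ i) ^ m * u - t ^ n = (u - t ^ (n + s)) +
      (1 - t) * ((s : R) * (u - 1) + (1 - t) * (td05_v t z * u) - (1 - t) * y) := by
    rw [hz, h2]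
    noncomm_ring
  rw [h3, h1]
  noncomm_ring

/-- the identity for `j > 0`, `n` prime to `ℓ` -/
lemma td05_id1 {ℓ q j : ℕ} (hℓ : ℓ.Prime) {t u w : R} (hc : u * t = t ^ q * u)
    (hw : u - 1 = (1 - t) * w) {K : ℤ[X]} (hK : (ℓ : R) = (1 - t) * td05_v t K)
    (h : td05_H ℓ q) (m n : ℕ) : ∃ Y : R,
      (∑ i ∈ range (q ^ ℓ ^ (j + 1)), t ^ i) ^ m * u ^ ℓ ^ (j + 1) - t ^ n =
        (1 - t) * ((n : R) + (1 - t) * Y) := by
  have h1 : ∃ y, q ^ ℓ ^ (j + 1) = 1 + ℓ ^ 2 * y := by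
    have := td05_sq hℓ (td05_H_pow h (ℓ ^ j))
    rw [← pow_mul, ← pow_succ] at this
    exact this
  obtain ⟨z, hz⟩ := td05_eps1 t hK h1 (td05_choose hℓ (td05_H_pow h (ℓ ^ (j + 1)))) m
  obtain ⟨D, hD⟩ := td05_u3 hℓ hc hw hK h j
  obtain ⟨y, hy⟩ := td05_ts t 0 n
  rw [zero_add, pow_zero, sub_eq_iff_eq_add] at hy
  refine ⟨y + td05_v t z + D + td05_v t z * ((1 - t) * ((1 - t) * D)), ?_⟩
  rw [hz, hD, hy]
  noncomm_ring

/-- the factorisation for `n` divisible by `ℓ` -/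
lemma td05_fact {ℓ n₀ q j : ℕ} (hℓ : ℓ.Prime) {t u : R} (hc : u * t = t ^ q * u)
    (hΦ : ∑ j ∈ range ℓ, t ^ (j * ℓ ^ n₀) = 0) (h : td05_H ℓ q) (n' : ℕ) :
    ∃ e f : ℕ, u ^ ℓ ^ (j + 1) - t ^ (ℓ * n') = t ^ (ℓ * n') *
      ((List.range ℓ).map fun c => t ^ e * (u ^ ℓ ^ j - t ^ (ℓ ^ n₀ * c + f))).prod := by
  set N := ℓ ^ n₀ with hN
  have hT : t ^ (ℓ * N) = 1 := by
    have h1 := geom_sum_mul (t ^ N) ℓ
    have h2 : ∑ i ∈ range ℓ, (t ^ N) ^ i = 0 := by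
      rw [← hΦ]
      refine sum_congr rfl fun i _ => ?_
      rw [← pow_mul, mul_comm]
    rw [h2, zero_mul] at h1
    rw [mul_comm, pow_mul]
    exact (sub_eq_zero.1 h1.symm)
  have hT' : ∀ k, t ^ (ℓ * N * k) = 1 := fun k => by rw [pow_mul, hT, one_pow]
  have hj := td05_H_pow h (ℓ ^ j)
  obtain ⟨y, hy⟩ := td05_S hℓ hj
  obtain ⟨e, k, hek⟩ := td05_solve hℓ n₀ n' y
  rw [← hN] at hek
  set U := u ^ ℓ ^ j with hU
  set Q' := q ^ ℓ ^ j with hQ'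
  have hsemi : SemiconjBy U t (t ^ Q') := td05_semi hc (ℓ ^ j)
  have hpw : ∀ a : ℕ, U * t ^ a = t ^ (Q' * a) * U := by
    intro a
    have := (hsemi.pow_right a).eq
    rw [← pow_mul] at this
    exact this
  -- the powers of `t ^ e * U`
  have hpow : ∀ i : ℕ, (t ^ e * U) ^ i = t ^ (e * ∑ l ∈ range i, Q' ^ l) * U ^ i := by
    intro i
    induction i with
    | zero => simp
    | succ i ih =>
      rw [pow_succ', ih, geom_sum_succ, mul_assoc, ← mul_assoc U, hpw, pow_succ' U, mul_assoc,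
        ← mul_assoc (t ^ e), ← pow_add]
      congr 2
      ring
  obtain ⟨x, hx, -⟩ := hj
  have hcomm : Commute (t ^ N) (t ^ e * U) := by
    have h1 : U * t ^ N = t ^ N * U := by
      rw [hpw, hx]
      have : (1 + ℓ * x) * N = N + ℓ * N * x := by ring
      rw [this, pow_add, hT', mul_one]
    unfold Commute SemiconjBy
    rw [← mul_assoc, ← pow_add, mul_assoc, h1, ← mul_assoc, ← pow_add, add_comm]
  have hfac := prod_sub_pow_comm hℓ (t ^ N) (t ^ e * U) hcomm (by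
    rw [← hΦ]
    refine sum_congr rfl fun i _ => ?_
    rw [← pow_mul, mul_comm])
  refine ⟨e, (ℓ * N - 1) * e, ?_⟩
  have hfun : (fun c => t ^ e * (U - t ^ (N * c + (ℓ * N - 1) * e))) =
      fun c => t ^ e * U - (t ^ N) ^ c := by
    funext c
    rw [mul_sub, ← pow_mul, ← pow_add]
    have h1 : 0 < ℓ * N := Nat.mul_pos hℓ.pos (pow_pos hℓ.pos _)
    obtain ⟨T, hT1⟩ := Nat.exists_eq_succ_of_ne_zero h1.ne'
    have h2 : e + (N * c + (ℓ * N - 1) * e) = N * c + ℓ * N * e := by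
      rw [hT1, Nat.succ_sub_one, Nat.succ_eq_add_one]
      ring
    rw [h2, pow_add, hT', mul_one]
  rw [hfun, hfac, hpow, hy, mul_sub, mul_one, ← mul_assoc, ← pow_add, hek, hT', one_mul, hU,
    ← pow_mul, ← pow_succ]

end ring

section order

variable {Q : Type*} [AddCommGroup Q]

/-- `b = (1 - t)^m a` with `a` not in `P` -/
def td05_Lev (t : AddMonoid.End Q) (P : AddSubgroup Q) (b : Q) : Prop :=
  ∃ (m : ℕ) (a : Q), a ∉ P ∧ b = ((1 - t) ^ m) a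

lemma td05_add {t : AddMonoid.End Q} {P : AddSubgroup Q} (hP : ∀ a, a - t a ∈ P) {a : Q}
    (ha : a ∉ P) (w : Q) : a + (1 - t) w ∉ P := by
  intro h
  apply ha
  have h1 : (1 - t) w ∈ P := hP w
  have h2 := P.sub_mem h h1
  rwa [add_sub_cancel_right] at h2

lemma td05_lev_pi {t : AddMonoid.End Q} {P : AddSubgroup Q} {b : Q} (h : td05_Lev t P b)
    (k : ℕ) : td05_Lev t P (((1 - t) ^ k) b) := by
  obtain ⟨m, a, ha, rfl⟩ := h
  refine ⟨k + m, a, ha, ?_⟩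
  rw [pow_add]
  rfl

lemma td05_lev_t {t : AddMonoid.End Q} {P : AddSubgroup Q} (hP : ∀ a, a - t a ∈ P) {b : Q}
    (h : td05_Lev t P b) (i : ℕ) : td05_Lev t P ((t ^ i) b) := by
  obtain ⟨m, a, ha, rfl⟩ := h
  refine ⟨m, (t ^ i) a, ?_, ?_⟩
  · obtain ⟨y, hy⟩ := td05_ts t 0 i
    rw [zero_add, pow_zero, sub_eq_iff_eq_add] at hy
    have h1 : (t ^ i) a = a + (1 - t) (-(((i : AddMonoid.End Q) + (1 - t) * y) a)) := by
      rw [hy, map_neg]
      change -((1 - t) (((i : AddMonoid.End Q) + (1 - t) * y) a)) + a = _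
      abel
    rw [h1]
    exact td05_add hP ha _
  · have h1 : Commute (t ^ i) ((1 - t) ^ m) :=
      ((Commute.one_right _).sub_right ((Commute.refl t).pow_left i)).pow_right m
    exact congrArg (fun f : AddMonoid.End Q => f a) h1.eq

lemma td05_claim {ℓ : ℕ} (hℓ : ℓ.Prime) (n₀ q : ℕ) (h : td05_H ℓ q)
    (t u : AddMonoid.End Q) (hc : u * t = t ^ q * u)
    (hΦ : ∑ j ∈ range ℓ, t ^ (j * ℓ ^ n₀) = 0) (w : AddMonoid.End Q) (hw : u - 1 = (1 - t) * w)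
    (P : AddSubgroup Q) (hP : ∀ a, a - t a ∈ P)
    (hu : ∀ a, a ∉ P → ∀ n : ℕ, ∃ a', a' ∉ P ∧ u a - (t ^ n) a = a' - t a') (j : ℕ) :
    ∀ (n : ℕ) (b : Q), td05_Lev t P b → td05_Lev t P ((u ^ ℓ ^ j - t ^ n) b) := by
  obtain ⟨K, hK⟩ := td05_kappa t hΦ
  -- the reduction to `a`
  have hred : ∀ (j n m : ℕ) (a : Q), td05_Lev t P
      (((∑ i ∈ range (q ^ ℓ ^ j), t ^ i) ^ m * u ^ ℓ ^ j - t ^ n) a) →
        td05_Lev t P ((u ^ ℓ ^ j - t ^ n) (((1 - t) ^ m) a)) := by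
    intro j n m a ha
    have h1 : (u ^ ℓ ^ j - t ^ n) * (1 - t) ^ m =
        (1 - t) ^ m * ((∑ i ∈ range (q ^ ℓ ^ j), t ^ i) ^ m * u ^ ℓ ^ j - t ^ n) := by
      have h2 : Commute (t ^ n) ((1 - t) ^ m) :=
        ((Commute.one_right _).sub_right ((Commute.refl t).pow_left n)).pow_right m
      rw [sub_mul, td05_upi hc, mul_sub, h2.eq]
    have h2 : (u ^ ℓ ^ j - t ^ n) (((1 - t) ^ m) a) = ((1 - t) ^ m)
        (((∑ i ∈ range (q ^ ℓ ^ j), t ^ i) ^ m * u ^ ℓ ^ j - t ^ n) a) :=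
      congrArg (fun f : AddMonoid.End Q => f a) h1
    rw [h2]
    exact td05_lev_pi ha m
  induction j with
  | zero =>
    rintro n b ⟨m, a, ha, rfl⟩
    apply hred
    rw [pow_zero, pow_one, pow_one]
    obtain ⟨s, Y, hY⟩ := td05_id0 hℓ hw hK h m n
    obtain ⟨a', ha', ha''⟩ := hu a ha (n + s)
    rw [hY]
    refine ⟨1, a' + (1 - t) (Y a), td05_add hP ha' _, ?_⟩
    rw [pow_one, map_add]
    have h1 : (u - t ^ (n + s)) a = (1 - t) a' := ha''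
    rw [← h1]
    rfl
  | succ j ih =>
    intro n b hb
    by_cases hn : ℓ ∣ n
    · obtain ⟨n', rfl⟩ := hn
      obtain ⟨e, f, hef⟩ := td05_fact (j := j) hℓ hc hΦ h n'
      rw [hef]
      have h1 : ∀ (l : List ℕ) (b : Q), td05_Lev t P b → td05_Lev t P
          ((l.map fun c => t ^ e * (u ^ ℓ ^ j - t ^ (ℓ ^ n₀ * c + f))).prod b) := by
        intro l
        induction l with
        | nil =>
          intro b hb
          rw [List.map_nil, List.prod_nil]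
          exact hb
        | cons c l ihl =>
          intro b hb
          rw [List.map_cons, List.prod_cons]
          have h2 := td05_lev_t hP (ih (ℓ ^ n₀ * c + f) _ (ihl b hb)) e
          exact h2
      exact td05_lev_t hP (h1 (List.range ℓ) b hb) (ℓ * n')
    · obtain ⟨m, a, ha, rfl⟩ := hb
      apply hred
      obtain ⟨Y, hY⟩ := td05_id1 (j := j) hℓ hc hw hK h m n
      rw [hY]
      have hna : n • a ∉ P := by
        intro hna
        apply ha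
        have h1 : ℓ • a ∈ P := by
          have h2 : ℓ • a = (1 - t) (td05_v t K a) := by
            have h3 := congrArg (fun f : AddMonoid.End Q => f a) hK
            have h4 : ((ℓ : ℕ) : AddMonoid.End Q) a = ℓ • a := rfl
            exact h4.symm.trans h3
          rw [h2]
          exact hP _
        have h3 : IsCoprime (ℓ : ℤ) (n : ℤ) :=
          Nat.isCoprime_iff_coprime.2 ((Nat.Prime.coprime_iff_not_dvd hℓ).2 hn)
        obtain ⟨x, y, hxy⟩ := h3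
        have h4 : a = x • (ℓ • a) + y • (n • a) := by
          rw [← natCast_zsmul, ← natCast_zsmul, smul_smul, smul_smul, ← add_smul, hxy, one_smul]
        rw [h4]
        exact P.add_mem (P.zsmul_mem h1 x) (P.zsmul_mem hna y)
      refine ⟨1, n • a + (1 - t) (Y a), td05_add hP hna _, ?_⟩
      rw [pow_one]
      rfl

theorem order_lemma {Q : Type*} [AddCommGroup Q] {ℓ : ℕ} (hℓ : ℓ.Prime) (n₀ q : ℕ)
    (hq0 : 0 < q) (hq1 : ℓ ∣ q - 1) (hq2 : ℓ ∣ q.choose 2)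
    (t u : AddMonoid.End Q) (hc : u * t = t ^ q * u)
    (hΦ : ∑ j ∈ range ℓ, t ^ (j * ℓ ^ n₀) = 0) (hinj : ∀ a, a - t a = 0 → a = 0)
    (P : AddSubgroup Q) (hP : ∀ a, a - t a ∈ P) (hu1 : ∀ a, ∃ a', u a - a = a' - t a')
    (hu : ∀ a, a ∉ P → ∀ n : ℕ, ∃ a', a' ∉ P ∧ u a - (t ^ n) a = a' - t a')
    (hfin : ∀ a, ∃ M : ℕ, 0 < M ∧ (u ^ M) a = a) : ∀ a, a ∈ P := by
  have h := td05_H_of hq0 hq1 hq2
  obtain ⟨K, hK⟩ := td05_kappa t hΦ
  -- the operator `w`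
  obtain ⟨w, hw⟩ : ∃ w : AddMonoid.End Q, u - 1 = (1 - t) * w := by
    choose f hf using hu1
    have hinj' : ∀ a b, (1 - t) a = (1 - t) b → a = b := by
      intro a b hab
      have h1 : (1 - t) (a - b) = 0 := by rw [map_sub, hab, sub_self]
      exact sub_eq_zero.1 (hinj _ h1)
    have hf' : ∀ a, u a - a = (1 - t) (f a) := hf
    refine ⟨AddMonoidHom.mk' f fun a b => ?_, ?_⟩
    · apply hinj'
      rw [map_add, ← hf', ← hf', ← hf', map_add]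
      abel
    · ext a
      exact hf a
  intro a
  by_contra ha
  obtain ⟨M, hM0, hM⟩ := hfin a
  obtain ⟨j, M', hM', rfl⟩ := Nat.exists_eq_pow_mul_and_not_dvd hM0.ne' ℓ hℓ.ne_one
  have hM'a : M' • a ∉ P := by
    intro hna
    apply ha
    have h1 : ℓ • a ∈ P := by
      have h2 : ℓ • a = (1 - t) (td05_v t K a) := by
        have h3 := congrArg (fun f : AddMonoid.End Q => f a) hK
        have h4 : ((ℓ : ℕ) : AddMonoid.End Q) a = ℓ • a := rfl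
        exact h4.symm.trans h3
      rw [h2]
      exact hP _
    have h3 : IsCoprime (ℓ : ℤ) (M' : ℤ) :=
      Nat.isCoprime_iff_coprime.2 ((Nat.Prime.coprime_iff_not_dvd hℓ).2 hM')
    obtain ⟨x, y, hxy⟩ := h3
    have h4 : a = x • (ℓ • a) + y • (M' • a) := by
      rw [← natCast_zsmul, ← natCast_zsmul, smul_smul, smul_smul, ← add_smul, hxy, one_smul]
    rw [h4]
    exact P.add_mem (P.zsmul_mem h1 x) (P.zsmul_mem hna y)
  -- `a₁ = ∑ X^c a`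
  have h1 : ∀ c : ℕ, ∃ B : AddMonoid.End Q, (u ^ ℓ ^ j) ^ c = 1 + (1 - t) * B := by
    intro c
    rw [← pow_mul]
    exact td05_u1 hw _
  choose B hB using h1
  have h2 : (∑ c ∈ range M', (u ^ ℓ ^ j) ^ c) a = M' • a + (1 - t) ((∑ c ∈ range M', B c) a) := by
    rw [sum_congr rfl fun c _ => hB c, sum_add_distrib, sum_const, card_range, ← mul_sum]
    rfl
  have h3 : (u ^ ℓ ^ j - t ^ 0) ((∑ c ∈ range M', (u ^ ℓ ^ j) ^ c) a) = 0 := by
    have h4 : (u ^ ℓ ^ j - t ^ 0) * (∑ c ∈ range M', (u ^ ℓ ^ j) ^ c) = u ^ (ℓ ^ j * M') - 1 := by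
      rw [pow_zero, mul_geom_sum, ← pow_mul]
    have h5 := congrArg (fun f : AddMonoid.End Q => f a) h4
    refine h5.trans ?_
    change (u ^ (ℓ ^ j * M')) a - a = 0
    rw [hM, sub_self]
  have hL : td05_Lev t P ((∑ c ∈ range M', (u ^ ℓ ^ j) ^ c) a) := by
    rw [h2]
    exact ⟨0, _, td05_add hP hM'a _, rfl⟩
  have h4 := td05_claim hℓ n₀ q h t u hc hΦ w hw P hP hu j 0 _ hL
  rw [h3] at h4
  obtain ⟨m, a', ha', h0⟩ := h4
  have h5 : ∀ (m : ℕ) (a' : Q), ((1 - t) ^ m) a' = 0 → a' = 0 := by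
    intro m
    induction m with
    | zero => intro a' h; exact h
    | succ m ih =>
      intro a' h
      rw [pow_succ] at h
      exact hinj _ (ih _ h)
  rw [h5 m a' h0.symm] at ha'
  exact ha' P.zero_mem

end order

end Pool.Agent.Lib.MP_89bcae_ag.Sup

end

section

/-!
The killing lemma.
-/

open Finset

namespace Pool.Agent.Lib.MP_89bcae_ag.Sup

theorem td03_sub {Q : Type*} [AddCommGroup Q] (f : AddMonoid.End Q) (a : Q) : (1 - f) a = a - f a := rfl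

theorem td03_mul {Q : Type*} [AddCommGroup Q] (f g : AddMonoid.End Q) (a : Q) : (f * g) a = f (g a) := rfl

theorem td03_pow_fix {Q : Type*} [AddCommGroup Q] (f : AddMonoid.End Q) (a : Q) (h : f a = a) (n : ℕ) :
    (f ^ n) a = a := by
  induction n with
  | zero => rfl
  | succ n ih => rw [pow_succ, td03_mul, h, ih]

theorem td03_geom {Q : Type*} [AddCommGroup Q] (x : AddMonoid.End Q) (n : ℕ) (y : Q) :
    y - (x ^ n) y = (∑ i ∈ range n, x ^ i) y - x ((∑ i ∈ range n, x ^ i) y) := by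
  have h := mul_neg_geom_sum x n
  have h2 : ((1 - x) * ∑ i ∈ range n, x ^ i) y = (1 - x ^ n) y := by rw [h]
  rw [td03_mul, td03_sub, td03_sub] at h2
  exact h2.symm

theorem td03_perm {R : Type*} [Ring R] (ℓ b b' : ℕ) (hℓ : 0 < ℓ) (hbb : b * b' ≡ 1 [MOD ℓ]) (z : R)
    (hz1 : z ^ ℓ = 1) : ∑ j ∈ range ℓ, z ^ (b * j) = ∑ i ∈ range ℓ, z ^ i := by
  have hmod : ∀ n : ℕ, z ^ (n % ℓ) = z ^ n := by
    intro n
    conv_rhs => rw [← Nat.mod_add_div n ℓ]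
    rw [pow_add, pow_mul, hz1, one_pow, mul_one]
  refine Finset.sum_nbij' (fun j => (b * j) % ℓ) (fun i => (b' * i) % ℓ) ?_ ?_ ?_ ?_ ?_
  · intro j _
    exact mem_range.mpr (Nat.mod_lt _ hℓ)
  · intro j _
    exact mem_range.mpr (Nat.mod_lt _ hℓ)
  · intro j hj
    have hj' := mem_range.mp hj
    have h1 : b' * (b * j % ℓ) ≡ j [MOD ℓ] := by
      calc b' * (b * j % ℓ) ≡ b' * (b * j) [MOD ℓ] := (Nat.mod_modEq _ _).mul_left _
        _ = (b * b') * j := by ring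
        _ ≡ 1 * j [MOD ℓ] := hbb.mul_right _
        _ = j := one_mul j
    change b' * (b * j % ℓ) % ℓ = j
    rw [h1, Nat.mod_eq_of_lt hj']
  · intro j hj
    have hj' := mem_range.mp hj
    have h1 : b * (b' * j % ℓ) ≡ j [MOD ℓ] := by
      calc b * (b' * j % ℓ) ≡ b * (b' * j) [MOD ℓ] := (Nat.mod_modEq _ _).mul_left _
        _ = (b * b') * j := by ring
        _ ≡ 1 * j [MOD ℓ] := hbb.mul_right _
        _ = j := one_mul j
    change b * (b' * j % ℓ) % ℓ = j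
    rw [h1, Nat.mod_eq_of_lt hj']
  · intro j _
    exact (hmod (b * j)).symm

theorem kill_lemma {Q : Type*} [AddCommGroup Q] {ℓ : ℕ} (hℓ : ℓ.Prime) (n₀ b : ℕ)
    (hb : ¬ ℓ ∣ b) (t z : AddMonoid.End Q) (hc : t * z = z * t)
    (hz : ∑ i ∈ range ℓ, z ^ i = 0) (heig : t ^ ℓ ^ n₀ = z ^ b)
    (hinj : ∀ a, a - z a = 0 → a = 0)
    (hsep : ∀ a, (∀ n : ℕ, ∃ y, a = ((1 - z) ^ n) y) → a = 0)
    {ι : Type*} (P : ι → AddSubgroup Q) (hP : ∀ i a, a - t a ∈ P i)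
    (q : ι → ℕ) (hq0 : ∀ i, 0 < q i) (hq1 : ∀ i, ℓ ∣ q i - 1) (hq2 : ∀ i, ℓ ∣ (q i).choose 2)
    (u : ι → AddMonoid.End Q) (hut : ∀ i, u i * t = t ^ q i * u i)
    (hu1 : ∀ i a, ∃ a', u i a - a = a' - t a')
    (hu : ∀ i a, a ∉ P i → ∀ n : ℕ, ∃ a', a' ∉ P i ∧ u i a - (t ^ n) a = a' - t a')
    (hfin : ∀ i a, ∃ M : ℕ, 0 < M ∧ (u i ^ M) a = a)
    (hdiv : ∀ a, (∀ i, a ∈ P i) → ∃ y, ((1 - t) ^ (ℓ ^ n₀ - 1)) a = y - z y) :
    ∀ a : Q, a = 0 := by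
  have hz1 : z ^ ℓ = 1 := by
    have h := mul_neg_geom_sum z ℓ
    rw [hz, mul_zero] at h
    exact (sub_eq_zero.mp h.symm).symm
  obtain ⟨b', hbb⟩ : ∃ b', b * b' ≡ 1 [MOD ℓ] := by
    have hco : Nat.Coprime b ℓ := ((Nat.Prime.coprime_iff_not_dvd hℓ).mpr hb).symm
    obtain ⟨m, hm⟩ := Nat.exists_mul_mod_eq_one_of_coprime hco hℓ.one_lt
    refine ⟨m, ?_⟩
    change b * m % ℓ = 1 % ℓ
    rw [hm.2, Nat.mod_eq_of_lt hℓ.one_lt]
  have hzb : z ^ (b * b') = z := by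
    have h1 : z ^ (b * b') = z ^ ((b * b') % ℓ) := by
      conv_lhs => rw [← Nat.mod_add_div (b * b') ℓ]
      rw [pow_add, pow_mul, hz1, one_pow, mul_one]
    rw [h1, hbb, Nat.mod_eq_of_lt hℓ.one_lt, pow_one]
  have htz : (t ^ ℓ ^ n₀) ^ b' = z := by
    rw [heig, ← pow_mul, hzb]
  have hΦ : ∑ j ∈ range ℓ, t ^ (j * ℓ ^ n₀) = 0 := by
    rw [← hz, ← td03_perm ℓ b b' hℓ.pos hbb z hz1]
    refine Finset.sum_congr rfl (fun j _ => ?_)
    rw [mul_comm j, pow_mul, heig, ← pow_mul]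
  have hinj' : ∀ a, a - t a = 0 → a = 0 := by
    intro a ha
    have h1 : t a = a := (sub_eq_zero.mp ha).symm
    have h2 : (t ^ ℓ ^ n₀) a = a := td03_pow_fix t a h1 _
    have h3 : ((t ^ ℓ ^ n₀) ^ b') a = a := td03_pow_fix _ a h2 _
    rw [htz] at h3
    exact hinj a (by rw [h3, sub_self])
  have hall : ∀ i a, a ∈ P i := fun i =>
    order_lemma hℓ n₀ (q i) (hq0 i) (hq1 i) (hq2 i) t (u i) (hut i) hΦ hinj' (P i) (hP i) (hu1 i)
      (hu i) (hfin i)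
  have hsurj : ∀ a, ∃ a', a = (1 - t) a' := by
    intro a
    obtain ⟨y, hy⟩ := hdiv a (fun i => hall i a)
    have h1 : y - z y = (∑ i ∈ range b', (t ^ ℓ ^ n₀) ^ i) y -
        (t ^ ℓ ^ n₀) ((∑ i ∈ range b', (t ^ ℓ ^ n₀) ^ i) y) := by
      rw [← td03_geom, htz]
    rw [h1] at hy
    obtain ⟨a', ha'⟩ := div_lemma hℓ n₀ t hΦ hinj' hy.symm
    exact ⟨a', ha'⟩
  have hsurjn : ∀ (n : ℕ) (a : Q), ∃ a', a = ((1 - t) ^ n) a' := by
    intro n
    induction n with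
    | zero => exact fun a => ⟨a, rfl⟩
    | succ n ih =>
      intro a
      obtain ⟨a1, h1⟩ := ih a
      obtain ⟨a2, h2⟩ := hsurj a1
      exact ⟨a2, by rw [pow_succ, td03_mul, ← h2, h1]⟩
  have hzs : ∀ a, ∃ w, a = (1 - z) w := by
    intro a
    obtain ⟨x, hx⟩ := hsurjn (ℓ ^ n₀) a
    obtain ⟨x', hx'⟩ := pw_lemma hℓ n₀ t hΦ x
    refine ⟨(∑ i ∈ range b, z ^ i) x', ?_⟩
    rw [hx, hx', td03_sub, ← td03_geom, heig]
  have hzsn : ∀ (n : ℕ) (a : Q), ∃ a', a = ((1 - z) ^ n) a' := by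
    intro n
    induction n with
    | zero => exact fun a => ⟨a, rfl⟩
    | succ n ih =>
      intro a
      obtain ⟨a1, h1⟩ := ih a
      obtain ⟨a2, h2⟩ := hzs a1
      exact ⟨a2, by rw [pow_succ, td03_mul, ← h2, h1]⟩
  exact fun a => hsep a (fun n => hzsn n a)

end Pool.Agent.Lib.MP_89bcae_ag.Sup

end

section

open Finset

namespace Pool.Agent.Lib.MP_89bcae_ag.Sup

theorem td04_mul_app {Q : Type*} [AddCommGroup Q] (F G : AddMonoid.End Q) (x : Q) :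
    (F * G) x = F (G x) := rfl

theorem td04_one_app {Q : Type*} [AddCommGroup Q] (x : Q) : (1 : AddMonoid.End Q) x = x := rfl

theorem td04_add_app {Q : Type*} [AddCommGroup Q] (F G : AddMonoid.End Q) (x : Q) :
    (F + G) x = F x + G x := rfl

theorem td04_sub_app {Q : Type*} [AddCommGroup Q] (F G : AddMonoid.End Q) (x : Q) :
    (F - G) x = F x - G x := rfl

theorem td04_comm {R : Type*} [Ring R] (t u : R) (q : ℕ) (hut : u * t = t ^ q * u) (m : ℕ) :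
    u * (1 - t) ^ m = (1 - t) ^ m * ((∑ i ∈ range q, t ^ i) ^ m * u) := by
  generalize hE : (∑ i ∈ range q, t ^ i) = E
  have hEt : Commute t E := by
    rw [← hE]
    exact Commute.sum_right _ _ _ fun i _ => Commute.pow_right (Commute.refl _) i
  have hE1 : Commute (1 - t) E := Commute.sub_left (Commute.one_left _) hEt
  have hu1 : u * (1 - t) = (1 - t) * E * u := by
    rw [mul_sub, mul_one, hut, ← hE, mul_neg_geom_sum, sub_mul, one_mul]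
  induction m with
  | zero => rw [pow_zero, pow_zero, one_mul, one_mul, mul_one]
  | succ m ih =>
    have h1 : E ^ m * ((1 - t) * E * u) = (1 - t) * (E ^ (m + 1) * u) := by
      rw [← mul_assoc, ← mul_assoc, ← (hE1.pow_right m).eq, mul_assoc (1 - t), ← pow_succ,
        mul_assoc]
    rw [pow_succ, ← mul_assoc, ih, mul_assoc, mul_assoc, hu1, h1, mul_assoc]

section Rel

variable {A : Type*} [AddCommGroup A]

/-- the quotient of `W` by `T` -/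
abbrev Td04Q (W T : AddSubgroup A) : Type _ := W ⧸ T.addSubgroupOf W

variable (W T : AddSubgroup A)

/-- the class of an element of `W` -/
def td04_mk (a : A) (ha : a ∈ W) : Td04Q W T := QuotientAddGroup.mk ⟨a, ha⟩

variable {W T}

theorem td04_zero {a : A} {ha : a ∈ W} : td04_mk W T a ha = 0 ↔ a ∈ T := by
  unfold td04_mk
  rw [QuotientAddGroup.eq_zero_iff, AddSubgroup.mem_addSubgroupOf]

theorem td04_sub {a b : A} {ha : a ∈ W} {hb : b ∈ W} :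
    td04_mk W T a ha - td04_mk W T b hb = td04_mk W T (a - b) (W.sub_mem ha hb) := rfl

theorem td04_add {a b : A} {ha : a ∈ W} {hb : b ∈ W} :
    td04_mk W T a ha + td04_mk W T b hb = td04_mk W T (a + b) (W.add_mem ha hb) := rfl

theorem td04_smul {a : A} {ha : a ∈ W} (s : ℤ) :
    s • td04_mk W T a ha = td04_mk W T (s • a) (W.zsmul_mem ha s) := rfl

theorem td04_eq {a b : A} {ha : a ∈ W} {hb : b ∈ W} :
    td04_mk W T a ha = td04_mk W T b hb ↔ a - b ∈ T := by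
  rw [← sub_eq_zero, td04_sub, td04_zero]

theorem td04_surj (x : Td04Q W T) : ∃ a, ∃ ha : a ∈ W, x = td04_mk W T a ha := by
  induction x using QuotientAddGroup.induction_on with
  | H a => exact ⟨a.1, a.2, rfl⟩

/-- the endomorphism `F` of the quotient is induced by the map `f` -/
def Td04I (F : AddMonoid.End (Td04Q W T)) (f : A → A) : Prop :=
  ∀ a (ha : a ∈ W), ∃ h : f a ∈ W, F (td04_mk W T a ha) = td04_mk W T (f a) h

/-- the induced endomorphism -/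
def td04_bar (f : A →+ A) (fW : ∀ a ∈ W, f a ∈ W) (fT : ∀ a ∈ T, f a ∈ T) :
    AddMonoid.End (Td04Q W T) :=
  QuotientAddGroup.map _ _ ((f.comp W.subtype).codRestrict W fun a => fW a a.2) (by
    intro a ha
    rw [AddSubgroup.mem_comap, AddSubgroup.mem_addSubgroupOf]
    rw [AddSubgroup.mem_addSubgroupOf] at ha
    exact fT _ ha)

theorem td04_bar_I (f : A →+ A) (fW : ∀ a ∈ W, f a ∈ W) (fT : ∀ a ∈ T, f a ∈ T) :
    Td04I (td04_bar f fW fT) f := fun a ha => ⟨fW a ha, rfl⟩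

theorem Td04I.mul {F G : AddMonoid.End (Td04Q W T)} {f g : A → A} (hF : Td04I F f)
    (hG : Td04I G g) : Td04I (F * G) (fun x => f (g x)) := by
  intro a ha
  obtain ⟨h1, h2⟩ := hG a ha
  obtain ⟨h3, h4⟩ := hF _ h1
  exact ⟨h3, by rw [td04_mul_app, h2, h4]⟩

theorem Td04I.pow {F : AddMonoid.End (Td04Q W T)} {f : A → A} (hF : Td04I F f) (n : ℕ) :
    Td04I (F ^ n) (f^[n]) := by
  induction n with
  | zero => exact fun a ha => ⟨ha, rfl⟩
  | succ n ih =>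
    intro a ha
    obtain ⟨h1, h2⟩ := hF a ha
    obtain ⟨h3, h4⟩ := ih _ h1
    refine ⟨by rw [Function.iterate_succ_apply]; exact h3, ?_⟩
    rw [pow_succ, td04_mul_app, h2, h4]
    rfl

theorem Td04I.one_sub {F : AddMonoid.End (Td04Q W T)} {f : A → A} (hF : Td04I F f) :
    Td04I (1 - F) (fun x => x - f x) := by
  intro a ha
  obtain ⟨h1, h2⟩ := hF a ha
  refine ⟨W.sub_mem ha h1, ?_⟩
  rw [td04_sub_app, td04_one_app, h2]
  rfl

theorem Td04I.sum {F : ℕ → AddMonoid.End (Td04Q W T)} {f : ℕ → A → A} (n : ℕ)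
    (hF : ∀ i, Td04I (F i) (f i)) :
    Td04I (∑ i ∈ range n, F i) (fun x => ∑ i ∈ range n, f i x) := by
  intro a ha
  induction n with
  | zero => exact ⟨by simp [W.zero_mem], by simp; rfl⟩
  | succ n ih =>
    obtain ⟨h1, h2⟩ := ih
    obtain ⟨h3, h4⟩ := hF n a ha
    have h5 : ∑ i ∈ range (n + 1), f i a = ∑ i ∈ range n, f i a + f n a := sum_range_succ _ _
    have h6 : ∑ i ∈ range (n + 1), f i a ∈ W := by
      rw [h5]
      exact W.add_mem h1 h3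
    refine ⟨h6, ?_⟩
    rw [sum_range_succ, td04_add_app, h2, h4, td04_add, td04_eq]
    show ∑ i ∈ range n, f i a + f n a - ∑ i ∈ range (n + 1), f i a ∈ T
    rw [h5, sub_self]
    exact T.zero_mem

/-- equality of endomorphisms -/
theorem Td04I.ext {F G : AddMonoid.End (Td04Q W T)} {f g : A → A} (hF : Td04I F f)
    (hG : Td04I G g) (h : ∀ a ∈ W, f a - g a ∈ T) : F = G := by
  refine DFunLike.ext _ _ fun x => ?_
  obtain ⟨a, ha, rfl⟩ := td04_surj x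
  obtain ⟨h1, h2⟩ := hF a ha
  obtain ⟨h3, h4⟩ := hG a ha
  exact h2.trans ((td04_eq.2 (h a ha)).trans h4.symm)

theorem td04_zero_I : Td04I (0 : AddMonoid.End (Td04Q W T)) (fun _ => 0) :=
  fun _ _ => ⟨W.zero_mem, rfl⟩

/-! ### Formulas for endomorphisms -/

theorem td04_pow_one {Q : Type*} [AddCommGroup Q] {ℓ : ℕ} (z : AddMonoid.End Q)
    (hz : ∑ i ∈ range ℓ, z ^ i = 0) : z ^ ℓ = 1 := by
  have h := mul_neg_geom_sum z ℓ
  rw [hz, mul_zero] at h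
  exact (sub_eq_zero.1 h.symm).symm

theorem td04_pow_mod {Q : Type*} [AddCommGroup Q] {ℓ : ℕ} (z : AddMonoid.End Q)
    (h1 : z ^ ℓ = 1) (m : ℕ) : z ^ m = z ^ (m % ℓ) := by
  conv_lhs => rw [← Nat.mod_add_div m ℓ, pow_add, pow_mul, h1, one_pow, mul_one]

theorem td04_inv {ℓ : ℕ} (hℓ : ℓ.Prime) {b : ℕ} (hb : ¬ ℓ ∣ b) :
    ∃ b' : ℕ, b * b' % ℓ = 1 % ℓ := by
  have hc : Nat.Coprime b ℓ := ((Nat.Prime.coprime_iff_not_dvd hℓ).2 hb).symm
  obtain ⟨b', -, h⟩ := Nat.exists_mul_mod_eq_one_of_coprime hc hℓ.one_lt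
  exact ⟨b', by rw [h, Nat.mod_eq_of_lt hℓ.one_lt]⟩

/-- the sum of the powers of `z ^ b` vanishes -/
theorem td04_phi {Q : Type*} [AddCommGroup Q] {ℓ : ℕ} (hℓ : ℓ.Prime) (n₀ b : ℕ)
    (hb : ¬ ℓ ∣ b) (t z : AddMonoid.End Q)
    (hz : ∑ i ∈ range ℓ, z ^ i = 0) (heig : t ^ ℓ ^ n₀ = z ^ b) :
    ∑ j ∈ range ℓ, t ^ (j * ℓ ^ n₀) = 0 := by
  have h1 := td04_pow_one z hz
  have h2 : ∀ j, t ^ (j * ℓ ^ n₀) = z ^ (b * j % ℓ) := by
    intro j
    rw [mul_comm, pow_mul, heig, ← pow_mul, td04_pow_mod z h1]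
  rw [sum_congr rfl fun j _ => h2 j, ← hz]
  refine sum_nbij (fun j => b * j % ℓ) ?_ ?_ ?_ fun _ _ => rfl
  · intro j _
    exact mem_range.2 (Nat.mod_lt _ hℓ.pos)
  · intro i hi j hj hij
    rw [coe_range, Set.mem_Iio] at hi hj
    have hc : Nat.Coprime ℓ b := (Nat.Prime.coprime_iff_not_dvd hℓ).2 hb
    have h3 : i ≡ j [MOD ℓ] := Nat.ModEq.cancel_left_of_coprime hc hij
    exact Nat.ModEq.eq_of_lt_of_lt h3 hi hj
  · intro i hi
    obtain ⟨b', hb'⟩ := td04_inv hℓ hb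
    rw [coe_range, Set.mem_Iio] at hi
    refine ⟨b' * i % ℓ, ?_, ?_⟩
    · rw [coe_range, Set.mem_Iio]
      exact Nat.mod_lt _ hℓ.pos
    · have h3 : b * (b' * i % ℓ) ≡ i [MOD ℓ] := by
        calc b * (b' * i % ℓ) ≡ b * (b' * i) [MOD ℓ] := (Nat.mod_modEq _ _).mul_left b
          _ = b * b' * i := by ring
          _ ≡ 1 * i [MOD ℓ] := Nat.ModEq.mul_right i hb'
          _ = i := one_mul i
      have h4 : b * (b' * i % ℓ) % ℓ = i % ℓ := h3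
      show b * (b' * i % ℓ) % ℓ = i
      rw [h4, Nat.mod_eq_of_lt hi]

/-- `1 - x ^ m` in terms of `1 - x` -/
theorem td04_geom {Q : Type*} [AddCommGroup Q] (x : AddMonoid.End Q) (m : ℕ) (y : Q) :
    y - (x ^ m) y = (∑ c ∈ range m, x ^ c) y - x ((∑ c ∈ range m, x ^ c) y) := by
  have h := mul_neg_geom_sum x m
  have h1 := congrArg (fun f : AddMonoid.End Q => f y) h
  simp only [td04_mul_app, td04_sub_app, td04_one_app] at h1
  exact h1.symm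

theorem td04_inj {Q : Type*} [AddCommGroup Q] {ℓ : ℕ} (hℓ : ℓ.Prime) (n₀ b : ℕ)
    (hb : ¬ ℓ ∣ b) (t z : AddMonoid.End Q)
    (hz : ∑ i ∈ range ℓ, z ^ i = 0) (heig : t ^ ℓ ^ n₀ = z ^ b)
    (hinj : ∀ a, a - z a = 0 → a = 0) : ∀ a, a - t a = 0 → a = 0 := by
  intro a ha
  have h0 : t a = a := (sub_eq_zero.1 ha).symm
  have h1 : ∀ m, (t ^ m) a = a := by
    intro m
    induction m with
    | zero => rfl
    | succ m ih => rw [pow_succ, td04_mul_app, h0, ih]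
  obtain ⟨b', hb'⟩ := td04_inv hℓ hb
  have h2 : z = t ^ (ℓ ^ n₀ * b') := by
    rw [pow_mul, heig, ← pow_mul, td04_pow_mod z (td04_pow_one z hz), hb',
      ← td04_pow_mod z (td04_pow_one z hz), pow_one]
  apply hinj
  have h3 : z a = a := by
    conv_lhs => rw [h2]
    exact h1 _
  rw [h3, sub_self]

end Rel

theorem kill_rel {A : Type*} [AddCommGroup A] {ℓ : ℕ} (hℓ : ℓ.Prime) (n₀ b : ℕ)
    (hb : ¬ ℓ ∣ b) (W T : AddSubgroup A) (hTW : T ≤ W) (t z : A →+ A)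
    (tW : ∀ a ∈ W, t a ∈ W) (tT : ∀ a ∈ T, t a ∈ T) (zW : ∀ a ∈ W, z a ∈ W)
    (zT : ∀ a ∈ T, z a ∈ T) (hzt : ∀ a ∈ W, t (z a) - z (t a) ∈ T)
    (hz : ∀ a ∈ W, ∑ i ∈ range ℓ, z^[i] a ∈ T)
    (heig : ∀ a ∈ W, t^[ℓ ^ n₀] a - z^[b] a ∈ T)
    (hinj : ∀ a ∈ W, a - z a ∈ T → a ∈ T)
    (hsep : ∀ a ∈ W, (∀ n : ℕ, ∃ y ∈ W, a - (fun x => x - z x)^[n] y ∈ T) → a ∈ T)
    {ι : Type*} (P : ι → AddSubgroup A) (TP : ∀ i, T ≤ P i)
    (hP : ∀ i, ∀ a ∈ W, a - t a ∈ P i)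
    (q : ι → ℕ) (hq0 : ∀ i, 0 < q i) (hq1 : ∀ i, ℓ ∣ q i - 1) (hq2 : ∀ i, ℓ ∣ (q i).choose 2)
    (u : ι → A →+ A) (uW : ∀ i, ∀ a ∈ W, u i a ∈ W)
    (uT : ∀ i, ∀ a ∈ T, u i a ∈ T) (hut : ∀ i, ∀ a ∈ W, u i (t a) - t^[q i] (u i a) ∈ T)
    (hu1 : ∀ i, ∀ a ∈ W, ∃ a' ∈ W, u i a - a - (a' - t a') ∈ T)
    (hu : ∀ i, ∀ a ∈ W, a ∉ P i → ∀ n : ℕ, ∃ a' ∈ W, a' ∉ P i ∧
      u i a - t^[n] a - (a' - t a') ∈ T)
    (hfin : ∀ i, ∀ a ∈ W, ∃ M : ℕ, 0 < M ∧ (u i)^[M] a - a ∈ T)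
    (hdiv : ∀ a ∈ W, (∀ i, a ∈ P i) →
      ∃ y ∈ W, (fun x => x - t x)^[ℓ ^ n₀ - 1] a - (y - z y) ∈ T) :
    ∀ a ∈ W, a ∈ T := by
  have It := td04_bar_I t tW tT
  have Iz := td04_bar_I z zW zT
  have Iu := fun i => td04_bar_I (u i) (uW i) (uT i)
  have hc : td04_bar t tW tT * td04_bar z zW zT = td04_bar z zW zT * td04_bar t tW tT :=
    (It.mul Iz).ext (Iz.mul It) hzt
  have hz' : ∑ i ∈ range ℓ, td04_bar z zW zT ^ i = 0 :=
    (Td04I.sum ℓ fun i => Iz.pow i).ext td04_zero_I fun a ha => by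
      rw [sub_zero]
      exact hz a ha
  have heig' : td04_bar t tW tT ^ ℓ ^ n₀ = td04_bar z zW zT ^ b :=
    (It.pow _).ext (Iz.pow _) heig
  let PP : ι → AddSubgroup (Td04Q W T) := fun i =>
    ((P i).addSubgroupOf W).map (QuotientAddGroup.mk' (T.addSubgroupOf W))
  have hPP : ∀ i a (ha : a ∈ W), td04_mk W T a ha ∈ PP i ↔ a ∈ P i := by
    intro i a ha
    constructor
    · rintro ⟨w, hw, hwa⟩
      have h1 : td04_mk W T w.1 w.2 = td04_mk W T a ha := hwa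
      rw [td04_eq] at h1
      have h2 := TP i h1
      have h3 : (w : A) ∈ P i := hw
      have h4 : a = w - (w - a) := by abel
      rw [h4]
      exact (P i).sub_mem h3 h2
    · intro h
      exact ⟨⟨a, ha⟩, h, rfl⟩
  have hmain := kill_lemma (Q := Td04Q W T) hℓ n₀ b hb (td04_bar t tW tT) (td04_bar z zW zT) hc hz' heig'
    (by
      intro x hx
      obtain ⟨a, ha, rfl⟩ := td04_surj x
      have hx' : td04_mk W T (a - z a) (W.sub_mem ha (zW a ha)) = 0 := hx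
      rw [td04_zero] at hx' ⊢
      exact hinj a ha hx')
    (by
      intro x hx
      obtain ⟨a, ha, rfl⟩ := td04_surj x
      rw [td04_zero]
      refine hsep a ha fun n => ?_
      obtain ⟨y, hy⟩ := hx n
      obtain ⟨y, hyW, rfl⟩ := td04_surj y
      obtain ⟨h1, h2⟩ := (Iz.one_sub.pow n) y hyW
      rw [h2, td04_eq] at hy
      exact ⟨y, hyW, hy⟩)
    PP
    (by
      intro i x
      obtain ⟨a, ha, rfl⟩ := td04_surj x
      exact (hPP i _ (W.sub_mem ha (tW a ha))).2 (hP i a ha))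
    q hq0 hq1 hq2 (fun i => td04_bar (u i) (uW i) (uT i))
    (fun i => ((Iu i).mul It).ext ((It.pow (q i)).mul (Iu i)) (hut i))
    (by
      intro i x
      obtain ⟨a, ha, rfl⟩ := td04_surj x
      obtain ⟨a', ha', h⟩ := hu1 i a ha
      refine ⟨td04_mk W T a' ha', ?_⟩
      exact (td04_eq (ha := W.sub_mem (uW i a ha) ha) (hb := W.sub_mem ha' (tW a' ha'))).2 h)
    (by
      intro i x hx n
      obtain ⟨a, ha, rfl⟩ := td04_surj x
      have ha1 : a ∉ P i := fun h => hx ((hPP i a ha).2 h)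
      obtain ⟨a', ha', hP', h⟩ := hu i a ha ha1 n
      refine ⟨td04_mk W T a' ha', fun h' => hP' ((hPP i a' ha').1 h'), ?_⟩
      obtain ⟨h1, h2⟩ := (It.pow n) a ha
      rw [h2]
      exact (td04_eq (ha := W.sub_mem (uW i a ha) h1) (hb := W.sub_mem ha' (tW a' ha'))).2 h)
    (by
      intro i x
      obtain ⟨a, ha, rfl⟩ := td04_surj x
      obtain ⟨M, hM, h⟩ := hfin i a ha
      refine ⟨M, hM, ?_⟩
      obtain ⟨h1, h2⟩ := ((Iu i).pow M) a ha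
      rw [h2, td04_eq]
      exact h)
    (by
      intro x hx
      obtain ⟨a, ha, rfl⟩ := td04_surj x
      obtain ⟨y, hy, h⟩ := hdiv a ha fun i => (hPP i a ha).1 (hx i)
      refine ⟨td04_mk W T y hy, ?_⟩
      obtain ⟨h1, h2⟩ := (It.one_sub.pow (ℓ ^ n₀ - 1)) a ha
      rw [h2]
      exact (td04_eq (ha := h1) (hb := W.sub_mem hy (zW y hy))).2 h)
  intro a ha
  exact td04_zero.1 (hmain (td04_mk W T a ha))

theorem pw_rel {A : Type*} [AddCommGroup A] {ℓ : ℕ} (hℓ : ℓ.Prime) (n₀ b : ℕ)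
    (hb : ¬ ℓ ∣ b) (W T : AddSubgroup A) (hTW : T ≤ W) (t z : A →+ A)
    (tW : ∀ a ∈ W, t a ∈ W) (tT : ∀ a ∈ T, t a ∈ T) (zW : ∀ a ∈ W, z a ∈ W)
    (zT : ∀ a ∈ T, z a ∈ T) (hzt : ∀ a ∈ W, t (z a) - z (t a) ∈ T)
    (hz : ∀ a ∈ W, ∑ i ∈ range ℓ, z^[i] a ∈ T)
    (heig : ∀ a ∈ W, t^[ℓ ^ n₀] a - z^[b] a ∈ T) :
    ∀ a ∈ W, ∃ y ∈ W, (fun x => x - t x)^[ℓ ^ n₀] a - (y - z y) ∈ T := by
  have It := td04_bar_I t tW tT
  have Iz := td04_bar_I z zW zT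
  have hz' : ∑ i ∈ range ℓ, td04_bar z zW zT ^ i = 0 :=
    (Td04I.sum ℓ fun i => Iz.pow i).ext td04_zero_I fun a ha => by
      rw [sub_zero]
      exact hz a ha
  have heig' : td04_bar t tW tT ^ ℓ ^ n₀ = td04_bar z zW zT ^ b :=
    (It.pow _).ext (Iz.pow _) heig
  have hΦ := td04_phi hℓ n₀ b hb _ _ hz' heig'
  intro a ha
  obtain ⟨x, hx⟩ := pw_lemma hℓ n₀ (td04_bar t tW tT) hΦ (td04_mk W T a ha)
  rw [heig', td04_geom] at hx
  obtain ⟨y, hy, hy'⟩ := td04_surj ((∑ c ∈ range b, td04_bar z zW zT ^ c) x)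
  obtain ⟨h1, h2⟩ := (It.one_sub.pow (ℓ ^ n₀)) a ha
  rw [hy', h2] at hx
  exact ⟨y, hy, (td04_eq (ha := h1) (hb := W.sub_mem hy (zW y hy))).1 hx⟩

theorem div_rel {A : Type*} [AddCommGroup A] {ℓ : ℕ} (hℓ : ℓ.Prime) (n₀ b : ℕ)
    (hb : ¬ ℓ ∣ b) (W T : AddSubgroup A) (hTW : T ≤ W) (t z : A →+ A)
    (tW : ∀ a ∈ W, t a ∈ W) (tT : ∀ a ∈ T, t a ∈ T) (zW : ∀ a ∈ W, z a ∈ W)
    (zT : ∀ a ∈ T, z a ∈ T) (hzt : ∀ a ∈ W, t (z a) - z (t a) ∈ T)
    (hz : ∀ a ∈ W, ∑ i ∈ range ℓ, z^[i] a ∈ T)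
    (heig : ∀ a ∈ W, t^[ℓ ^ n₀] a - z^[b] a ∈ T)
    (hinj : ∀ a ∈ W, a - z a ∈ T → a ∈ T) :
    ∀ a ∈ W, (∃ y ∈ W, (fun x => x - t x)^[ℓ ^ n₀ - 1] a - (y - z y) ∈ T) →
      ∃ a' ∈ W, a - (a' - t a') ∈ T := by
  have It := td04_bar_I t tW tT
  have Iz := td04_bar_I z zW zT
  have hz' : ∑ i ∈ range ℓ, td04_bar z zW zT ^ i = 0 :=
    (Td04I.sum ℓ fun i => Iz.pow i).ext td04_zero_I fun a ha => by
      rw [sub_zero]
      exact hz a ha
  have heig' : td04_bar t tW tT ^ ℓ ^ n₀ = td04_bar z zW zT ^ b :=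
    (It.pow _).ext (Iz.pow _) heig
  have hΦ := td04_phi hℓ n₀ b hb _ _ hz' heig'
  have hinjz : ∀ x, x - td04_bar z zW zT x = 0 → x = 0 := by
    intro x hx
    obtain ⟨a, ha, rfl⟩ := td04_surj x
    have hx' : td04_mk W T (a - z a) (W.sub_mem ha (zW a ha)) = 0 := hx
    rw [td04_zero] at hx' ⊢
    exact hinj a ha hx'
  have hinjt := td04_inj hℓ n₀ b hb _ _ hz' heig' hinjz
  intro a ha hya
  obtain ⟨y, hy, h⟩ := hya
  obtain ⟨h1, h2⟩ := (It.one_sub.pow (ℓ ^ n₀ - 1)) a ha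
  have h3 : td04_mk W T y hy - td04_bar z zW zT (td04_mk W T y hy) =
      ((1 - td04_bar t tW tT) ^ (ℓ ^ n₀ - 1)) (td04_mk W T a ha) := by
    rw [h2]
    exact ((td04_eq (ha := h1) (hb := W.sub_mem hy (zW y hy))).2 h).symm
  obtain ⟨b', hb'⟩ := td04_inv hℓ hb
  have h4 : td04_bar z zW zT = (td04_bar t tW tT ^ ℓ ^ n₀) ^ b' := by
    rw [heig', ← pow_mul, td04_pow_mod _ (td04_pow_one _ hz'), hb',
      ← td04_pow_mod _ (td04_pow_one _ hz'), pow_one]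
  rw [h4, td04_geom] at h3
  obtain ⟨x, hx⟩ := div_lemma hℓ n₀ (td04_bar t tW tT) hΦ hinjt h3
  obtain ⟨a', ha', rfl⟩ := td04_surj x
  exact ⟨a', ha', (td04_eq (ha := ha) (hb := W.sub_mem ha' (tW a' ha'))).1 hx⟩

theorem eps_rel {A : Type*} [AddCommGroup A] {ℓ : ℕ} (hℓ : ℓ.Prime) (n₀ b q n : ℕ)
    (hb : ¬ ℓ ∣ b) (hq0 : 0 < q) (hq1 : ℓ ∣ q - 1) (W T : AddSubgroup A) (hTW : T ≤ W)
    (t z u : A →+ A)
    (tW : ∀ a ∈ W, t a ∈ W) (tT : ∀ a ∈ T, t a ∈ T) (zW : ∀ a ∈ W, z a ∈ W)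
    (zT : ∀ a ∈ T, z a ∈ T) (hzt : ∀ a ∈ W, t (z a) - z (t a) ∈ T)
    (hz : ∀ a ∈ W, ∑ i ∈ range ℓ, z^[i] a ∈ T)
    (heig : ∀ a ∈ W, t^[ℓ ^ n₀] a - z^[b] a ∈ T)
    (uW : ∀ a ∈ W, u a ∈ W) (uT : ∀ a ∈ T, u a ∈ T)
    (hut : ∀ a ∈ W, u (t a) - t^[q] (u a) ∈ T) :
    ∃ s : ℤ, ∀ a ∈ W, ∃ a' ∈ W,
      u ((fun x => x - t x)^[n] a) - ((fun x => x - t x)^[n] (u a) +
        (fun x => x - t x)^[n + 1] (s • u a + (a' - t a'))) ∈ T := by
  have It := td04_bar_I t tW tT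
  have Iz := td04_bar_I z zW zT
  have Iu := td04_bar_I u uW uT
  have hz' : ∑ i ∈ range ℓ, td04_bar z zW zT ^ i = 0 :=
    (Td04I.sum ℓ fun i => Iz.pow i).ext td04_zero_I fun a ha => by
      rw [sub_zero]
      exact hz a ha
  have heig' : td04_bar t tW tT ^ ℓ ^ n₀ = td04_bar z zW zT ^ b :=
    (It.pow _).ext (Iz.pow _) heig
  have hΦ := td04_phi hℓ n₀ b hb _ _ hz' heig'
  have hut' : td04_bar u uW uT * td04_bar t tW tT = td04_bar t tW tT ^ q * td04_bar u uW uT :=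
    (Iu.mul It).ext ((It.pow q).mul Iu) hut
  obtain ⟨s, hs⟩ := eps_lemma hℓ n₀ q n hq0 hq1 (td04_bar t tW tT) hΦ
  refine ⟨s, fun a ha => ?_⟩
  obtain ⟨x, hx⟩ := hs (td04_bar u uW uT (td04_mk W T a ha))
  obtain ⟨a', ha', rfl⟩ := td04_surj x
  refine ⟨a', ha', ?_⟩
  have hun : td04_bar u uW uT * (1 - td04_bar t tW tT) ^ n =
      (1 - td04_bar t tW tT) ^ n * ((∑ i ∈ range q, td04_bar t tW tT ^ i) ^ n * td04_bar u uW uT) :=
    td04_comm (R := AddMonoid.End (Td04Q W T)) (td04_bar t tW tT) (td04_bar u uW uT) q hut' n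
  have hkey := congrArg (fun f : AddMonoid.End (Td04Q W T) => f (td04_mk W T a ha)) hun
  simp only [td04_mul_app] at hkey
  rw [hx, map_add] at hkey
  -- the left side
  obtain ⟨h1, h2⟩ := (It.one_sub.pow n) a ha
  obtain ⟨h3, h4⟩ := Iu _ h1
  rw [h2, h4] at hkey
  -- the right side
  obtain ⟨h5, h6⟩ := Iu a ha
  obtain ⟨h7, h8⟩ := (It.one_sub.pow n) _ h5
  have h9 : s • td04_mk W T (u a) h5 + (1 - td04_bar t tW tT) (td04_mk W T a' ha') =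
      td04_mk W T (s • u a + (a' - t a')) (W.add_mem (W.zsmul_mem h5 s) (W.sub_mem ha' (tW a' ha'))) := rfl
  obtain ⟨h10, h11⟩ := (It.one_sub.pow (n + 1)) _
    (W.add_mem (W.zsmul_mem h5 s) (W.sub_mem ha' (tW a' ha')))
  rw [h6, h8, h9] at hkey
  have h12 : ((1 - td04_bar t tW tT) ^ n) ((1 - td04_bar t tW tT)
      (td04_mk W T (s • u a + (a' - t a'))
        (W.add_mem (W.zsmul_mem h5 s) (W.sub_mem ha' (tW a' ha'))))) =
      ((1 - td04_bar t tW tT) ^ (n + 1)) (td04_mk W T (s • u a + (a' - t a'))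
        (W.add_mem (W.zsmul_mem h5 s) (W.sub_mem ha' (tW a' ha')))) := by
    rw [pow_succ, td04_mul_app]
  rw [h12, h11, td04_add, td04_eq] at hkey
  exact hkey

theorem tower_rel {A : Type*} [AddCommGroup A] {ℓ : ℕ} (hℓ : ℓ.Prime) (r : ℕ)
    (W T : AddSubgroup A) (hTW : T ≤ W) (t z : A →+ A)
    (tW : ∀ a ∈ W, t a ∈ W) (tT : ∀ a ∈ T, t a ∈ T) (zW : ∀ a ∈ W, z a ∈ W)
    (zT : ∀ a ∈ T, z a ∈ T) (hzt : ∀ a ∈ W, t (z a) - z (t a) ∈ T)
    (hz : ∀ a ∈ W, ∑ i ∈ range ℓ, z^[i] a ∈ T)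
    (ht : ∀ a ∈ W, t^[ℓ ^ r] a - a ∈ T) (h0 : ∀ a ∈ W, t a - a ∈ T → a ∈ T)
    (hib : ∀ i < r, ∀ b : ℕ, ¬ ℓ ∣ b → ∀ a ∈ W, t^[ℓ ^ i] a - z^[b] a ∈ T → a ∈ T) :
    ∀ a ∈ W, a ∈ T := by
  have It := td04_bar_I t tW tT
  have Iz := td04_bar_I z zW zT
  have hc : td04_bar t tW tT * td04_bar z zW zT = td04_bar z zW zT * td04_bar t tW tT :=
    (It.mul Iz).ext (Iz.mul It) hzt
  have hz' : ∑ i ∈ range ℓ, td04_bar z zW zT ^ i = 0 :=
    (Td04I.sum ℓ fun i => Iz.pow i).ext td04_zero_I fun a ha => by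
      rw [sub_zero]
      exact hz a ha
  have key : ∀ i ≤ r, ∀ x : Td04Q W T, (td04_bar t tW tT ^ ℓ ^ i) x = x → x = 0 := by
    intro i
    induction i with
    | zero =>
      intro _ x hx
      obtain ⟨a, ha, rfl⟩ := td04_surj x
      rw [pow_zero, pow_one] at hx
      have hx' : td04_mk W T (t a) (tW a ha) = td04_mk W T a ha := hx
      rw [td04_eq] at hx'
      rw [td04_zero]
      exact h0 a ha hx'
    | succ i ih =>
      intro hi x hx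
      have hcx : Commute (td04_bar z zW zT) (td04_bar t tW tT ^ ℓ ^ i) :=
        ((show Commute (td04_bar t tW tT) (td04_bar z zW zT) from hc).pow_left _).symm
      have hprod := prod_sub_pow_comm hℓ (td04_bar z zW zT) (td04_bar t tW tT ^ ℓ ^ i) hcx hz'
      obtain ⟨m, hm⟩ : ∃ m, ℓ = m + 1 := ⟨ℓ - 1, by have := hℓ.pos; omega⟩
      have hr : List.range ℓ = 0 :: (List.range m).map Nat.succ := by
        rw [hm, List.range_succ_eq_map]
      rw [hr, List.map_cons, List.prod_cons, pow_zero] at hprod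
      have h1 := congrArg (fun f : AddMonoid.End (Td04Q W T) => f x) hprod
      simp only [td04_mul_app] at h1
      rw [← pow_mul, ← pow_succ, td04_sub_app, td04_sub_app,
        td04_one_app, td04_one_app, hx, sub_self, sub_eq_zero] at h1
      have h2 := ih (by omega) _ h1
      -- the other factors are injective
      have h3 : ∀ L : List ℕ, (∀ c ∈ L, ¬ ℓ ∣ c) → ∀ y : Td04Q W T,
          (L.map fun c => td04_bar t tW tT ^ ℓ ^ i - td04_bar z zW zT ^ c).prod y = 0 → y = 0 := by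
        intro L
        induction L with
        | nil => intro _ y hy; exact hy
        | cons c L ihL =>
          intro hL y hy
          rw [List.map_cons, List.prod_cons, td04_mul_app] at hy
          refine ihL (fun c' hc' => hL c' (List.mem_cons_of_mem _ hc')) y ?_
          generalize (L.map fun c => td04_bar t tW tT ^ ℓ ^ i - td04_bar z zW zT ^ c).prod y = w
            at hy ⊢
          obtain ⟨a, ha, rfl⟩ := td04_surj w
          obtain ⟨h4, h5⟩ := (It.pow (ℓ ^ i)) a ha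
          obtain ⟨h6, h7⟩ := (Iz.pow c) a ha
          rw [td04_sub_app, h5, h7, td04_sub, td04_zero] at hy
          rw [td04_zero]
          exact hib i (by omega) c (hL c List.mem_cons_self) a ha hy
      refine h3 ((List.range m).map Nat.succ) ?_ x h2
      intro c hc' hdvd
      rw [List.mem_map] at hc'
      obtain ⟨k, hk, rfl⟩ := hc'
      rw [List.mem_range] at hk
      have := Nat.le_of_dvd (Nat.succ_pos k) hdvd
      omega
  intro a ha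
  refine td04_zero.1 (key r le_rfl (td04_mk W T a ha) ?_)
  obtain ⟨h1, h2⟩ := (It.pow (ℓ ^ r)) a ha
  rw [h2, td04_eq]
  exact ht a ha

end Pool.Agent.Lib.MP_89bcae_ag.Sup

end
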