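import Mathlib
import Pool.Agent.Lib.MP_89bcae_ag.Q.K042
import Pool.Agent.Lib.MP_89bcae_ag.Q.K046
import Pool.Agent.Lib.MP_89bcae_ag.Q.K054
import Pool.Agent.Lib.MP_89bcae_ag.Q.K055

section

open Polynomial IsDedekindDomain

open scoped Classical

set_option linter.unusedSectionVars false

namespace Pool.Agent.Lib.MP_89bcae_ag.Sup

universe u

variable {k F L Ω : Type u} [Field k] [Field F] [Algebra k F] [Field L] [Algebra F[X] L]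
  [Field Ω] [Algebra L Ω] [IsAlgClosure k F] [IsFractionRing F[X] L] [IsAlgClosure L Ω]
  [Algebra F Ω] {ℓ : ℕ} {g E : k[X]} [hG : IsGood ℓ (cOver k F L Ω g 1)] {ζ : k}
  {hζ : (zA F L Ω ζ) ^ ℓ = 1} {r : ℕ} {ζr : F} {s : Ω}

/-- The action of `γ` on the cochains as an additive map. -/
noncomputable def actH (γ : AutO k F L Ω) : Coch ℓ k F L Ω g 1 →+ Coch ℓ k F L Ω g 1 where
  toFun c := act γ c
  map_zero' := act_zero γ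
  map_add' := act_add γ

/-- `c` is in `WWs N` and `τ^(ℓ^i) c - Z^b c` is trivial. -/
def IsW (hζ : (zA F L Ω ζ) ^ ℓ = 1) (s : Ω) (τ : Ω ≃ₐ[L] Ω) (i b : ℕ)
    (c : Coch ℓ k F L Ω g 1) : Prop :=
  WWs (Nst s) c ∧ TTs (Nst s) (act (galA k F (τ ^ ℓ ^ i)) c - (Sup.zC ζ hζ)^[b] c)

private lemma tf00_pow_s {τ : Ω ≃ₐ[L] Ω} {c : F} {s : Ω} (h : τ s = xA F L Ω c * s) (n : ℕ) :
    (τ ^ n) s = xA F L Ω c ^ n * s := by
  induction n with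
  | zero => simp
  | succ n ih =>
    have h1 : (τ ^ (n + 1)) s = (τ ^ n) (τ s) := by
      rw [pow_succ]
      rfl
    have h2 : (τ ^ n) (xA F L Ω c) = xA F L Ω c := AlgEquiv.commutes _ _
    rw [h1, h, map_mul, h2, ih, pow_succ]
    ring

private lemma tf00_iter_add (b : ℕ) (c c' : Coch ℓ k F L Ω g 1) :
    (Sup.zC ζ hζ)^[b] (c + c') = (Sup.zC ζ hζ)^[b] c + (Sup.zC ζ hζ)^[b] c' := by
  induction b with
  | zero => rfl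
  | succ b ih => simp only [Function.iterate_succ_apply', ih, map_add]

private lemma tf00_iter_neg (b : ℕ) (c : Coch ℓ k F L Ω g 1) :
    (Sup.zC ζ hζ)^[b] (-c) = -(Sup.zC ζ hζ)^[b] c := by
  induction b with
  | zero => rfl
  | succ b ih => simp only [Function.iterate_succ_apply', ih, map_neg]

private lemma tf00_iter_TTs {N : Subgroup (Ω ≃ₐ[L] Ω)} (b : ℕ) {c : Coch ℓ k F L Ω g 1}
    (hc : TTs N c) : TTs N ((Sup.zC ζ hζ)^[b] c) := by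
  induction b with
  | zero => exact hc
  | succ b ih =>
    rw [Function.iterate_succ_apply']
    exact ih.zC ζ hζ

private lemma tf00_iter_TCs {N : Subgroup (Ω ≃ₐ[L] Ω)} (b : ℕ) {c : Coch ℓ k F L Ω g 1}
    (hc : TCs N c) : TCs N ((Sup.zC ζ hζ)^[b] c) := by
  induction b with
  | zero => exact hc
  | succ b ih =>
    rw [Function.iterate_succ_apply']
    exact ih.zC ζ hζ

private lemma tf00_iter_act (b : ℕ) (γ : AutO k F L Ω) (c : Coch ℓ k F L Ω g 1) :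
    Sup.act γ ((Sup.zC ζ hζ)^[b] c) = (Sup.zC ζ hζ)^[b] (Sup.act γ c) := by
  induction b with
  | zero => rfl
  | succ b ih => simp only [Function.iterate_succ_apply', act_zC, ih]

private lemma tf00_act_pow (τ : Ω ≃ₐ[L] Ω) (a b : ℕ) (x : Coch ℓ k F L Ω g 1) :
    Sup.act (galA k F (τ ^ (a + b))) x =
      Sup.act (galA k F (τ ^ a)) (Sup.act (galA k F (τ ^ b)) x) := by
  rw [pow_add, map_mul, act_mul]

lemma iter_act (τ : Ω ≃ₐ[L] Ω) (m : ℕ) (c : Coch ℓ k F L Ω g 1) :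
    (actH (galA k F τ))^[m] c = act (galA k F (τ ^ m)) c := by
  induction m with
  | zero =>
    have h : (galA k F (τ ^ 0) : AutO k F L Ω) = 1 := by rw [pow_zero, map_one]
    rw [h, act_one]
    rfl
  | succ m ih =>
    rw [Function.iterate_succ_apply', ih, pow_succ', map_mul, act_mul]
    rfl

/-- `γ τ^m = τ^(q m) γ` on the classes. -/
lemma act_comm_sub (hD : TowDat (L := L) ℓ r g E ζ ζr s)
    {τ : Ω ≃ₐ[L] Ω} (hτ : τ s = xA F L Ω ζr * s) (γ : AutO k F L Ω) {q : ℕ}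
    (hq : resF γ ζr = ζr ^ q) (m : ℕ)
    {c : Coch ℓ k F L Ω g 1} (hc : TCs (Nst s) c) :
    TTs (Nst s)
      (act γ (act (galA k F (τ ^ m)) c) - act (galA k F (τ ^ (q * m))) (act γ c)) := by
  set σ : Ω ≃ₐ[L] Ω := conjG γ (τ ^ m) with hσ
  set ρ : Ω ≃ₐ[L] Ω := τ ^ (q * m) with hρ
  have hc1 : TCs (Nst s) (Sup.act γ c) := hc.act hD.nrm γ
  have h1 : γ * galA k F (τ ^ m) = galA k F σ * γ := by
    rw [hσ, galA_conjG]
    group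
  have h2 : σ s = ρ s := by
    obtain ⟨j, hj⟩ := hD.exists_pow γ⁻¹
    have h3 : (γ : Ω ≃+* Ω) (((γ⁻¹ : AutO k F L Ω) : Ω ≃+* Ω) s) = s :=
      (γ : Ω ≃+* Ω).apply_symm_apply s
    have h4 : σ s = (γ : Ω ≃+* Ω) ((τ ^ m) (((γ⁻¹ : AutO k F L Ω) : Ω ≃+* Ω) s)) := by
      rw [← conjG_spec, h3]
    have h5 : (τ ^ m) (xA F L Ω ζr) = xA F L Ω ζr := AlgEquiv.commutes _ _
    rw [hj, map_mul, map_pow, xA_act, hq, xA_pow] at h3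
    rw [h4, hj, map_mul, map_pow, h5, tf00_pow_s hτ, map_mul, map_mul, map_pow, map_pow, xA_act,
      hq, xA_pow, hρ, tf00_pow_s hτ]
    calc (xA F L Ω ζr ^ q) ^ j * ((xA F L Ω ζr ^ q) ^ m * (γ : Ω ≃+* Ω) s)
        = (xA F L Ω ζr ^ q) ^ m * ((xA F L Ω ζr ^ q) ^ j * (γ : Ω ≃+* Ω) s) := by ring
      _ = xA F L Ω ζr ^ (q * m) * s := by rw [h3, pow_mul]
  have h6 : ρ⁻¹ * σ ∈ (Nst s : Subgroup (Ω ≃ₐ[L] Ω)) := inv_mul_mem_nst h2.symm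
  have h7 : Sup.act γ (Sup.act (galA k F (τ ^ m)) c) - Sup.act (galA k F ρ) (Sup.act γ c) =
      Sup.act (galA k F ρ) (Sup.act (galA k F (ρ⁻¹ * σ)) (Sup.act γ c) - Sup.act γ c) := by
    rw [act_sub, ← act_mul, ← act_mul, ← act_mul, h1, ← map_mul, mul_inv_cancel_left, act_mul]
  rw [h7]
  exact (act_galA_subs hD.nrm hc1 h6).act hD.nrm _

/-- The group of the trivial cocycles. -/
noncomputable def TT (ℓ : ℕ) (k F : Type u) {L Ω : Type u} [Field k] [Field F] [Algebra k F]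
    [Field L] [Algebra F[X] L] [Field Ω] [Algebra L Ω] [IsAlgClosure k F]
    [IsFractionRing F[X] L] [IsAlgClosure L Ω] (g : k[X])
    [hG : IsGood ℓ (cOver k F L Ω g 1)] (s : Ω) : AddSubgroup (Coch ℓ k F L Ω g 1) where
  carrier := {c | TTs (Nst s) c}
  zero_mem' := TTs.zero'
  add_mem' := fun h h' => h.add h'
  neg_mem' := fun h => h.neg

/-- The group `WWs`. -/
noncomputable def WW (hD : TowDat (L := L) ℓ r g E ζ ζr s) :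
    AddSubgroup (Coch ℓ k F L Ω g 1) where
  carrier := {c | WWs (Nst s) c}
  zero_mem' := TTs.zero'.wws hD.nrm
  add_mem' := fun h h' => h.add hD.nrm h'
  neg_mem' := fun h => h.neg hD.nrm

lemma IsW.add (hD : TowDat (L := L) ℓ r g E ζ ζr s) {τ : Ω ≃ₐ[L] Ω} {i b : ℕ}
    {c c' : Coch ℓ k F L Ω g 1} (hc : IsW hζ s τ i b c) (hc' : IsW hζ s τ i b c') :
    IsW hζ s τ i b (c + c') := by
  refine ⟨hc.1.add hD.nrm hc'.1, ?_⟩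
  rw [act_add, tf00_iter_add, add_sub_add_comm]
  exact hc.2.add hc'.2

lemma IsW.neg (hD : TowDat (L := L) ℓ r g E ζ ζr s) {τ : Ω ≃ₐ[L] Ω} {i b : ℕ}
    {c : Coch ℓ k F L Ω g 1} (hc : IsW hζ s τ i b c) : IsW hζ s τ i b (-c) := by
  refine ⟨hc.1.neg hD.nrm, ?_⟩
  have e : Sup.act (galA k F (τ ^ ℓ ^ i)) (-c) - (Sup.zC ζ hζ)^[b] (-c) =
      -(Sup.act (galA k F (τ ^ ℓ ^ i)) c - (Sup.zC ζ hζ)^[b] c) := by
    rw [act_neg, tf00_iter_neg]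
    abel
  rw [e]
  exact hc.2.neg

lemma IsW.sub (hD : TowDat (L := L) ℓ r g E ζ ζr s) {τ : Ω ≃ₐ[L] Ω} {i b : ℕ}
    {c c' : Coch ℓ k F L Ω g 1} (hc : IsW hζ s τ i b c) (hc' : IsW hζ s τ i b c') :
    IsW hζ s τ i b (c - c') := by
  rw [sub_eq_add_neg]
  exact hc.add hD (hc'.neg hD)

lemma TTs.isW (hD : TowDat (L := L) ℓ r g E ζ ζr s) {τ : Ω ≃ₐ[L] Ω} {i b : ℕ}
    {c : Coch ℓ k F L Ω g 1} (hc : TTs (Nst s) c) : IsW hζ s τ i b c := by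
  exact ⟨hc.wws hD.nrm, (hc.act hD.nrm _).sub (tf00_iter_TTs b hc)⟩

/-- The group of the `c` with `IsW`. -/
noncomputable def WI (hD : TowDat (L := L) ℓ r g E ζ ζr s) (hζ : (zA F L Ω ζ) ^ ℓ = 1)
    (τ : Ω ≃ₐ[L] Ω) (i b : ℕ) : AddSubgroup (Coch ℓ k F L Ω g 1) where
  carrier := {c | IsW hζ s τ i b c}
  zero_mem' := TTs.zero'.isW hD
  add_mem' := fun h h' => h.add hD h'
  neg_mem' := fun h => h.neg hD

lemma IsW.zsmul (hD : TowDat (L := L) ℓ r g E ζ ζr s) {τ : Ω ≃ₐ[L] Ω} {i b : ℕ} (m : ℤ)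
    {c : Coch ℓ k F L Ω g 1} (hc : IsW hζ s τ i b c) : IsW hζ s τ i b (m • c) := by
  exact (WI hD hζ τ i b).zsmul_mem hc m

lemma IsW.zC (hD : TowDat (L := L) ℓ r g E ζ ζr s) {τ : Ω ≃ₐ[L] Ω} {i b : ℕ}
    {c : Coch ℓ k F L Ω g 1} (hc : IsW hζ s τ i b c) :
    IsW hζ s τ i b (Sup.zC ζ hζ c) := by
  refine ⟨hc.1.zC (goodAll_one hD.glob) hD.nrm hζ, ?_⟩
  rw [act_zC, ← Function.iterate_succ_apply, Function.iterate_succ_apply', ← map_sub]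
  exact hc.2.zC ζ hζ

lemma IsW.act (hD : TowDat (L := L) ℓ r g E ζ ζr s) {τ : Ω ≃ₐ[L] Ω}
    (hτ : τ s = xA F L Ω ζr * s) {i b : ℕ}
    {c : Coch ℓ k F L Ω g 1} (hc : IsW hζ s τ i b c) (γ : AutO k F L Ω) {q : ℕ}
    (hqo : QOk ℓ q) (hq : resF γ ζr = ζr ^ q) :
    IsW hζ s τ i b (Sup.act γ c) := by
  have hN := hD.nrm
  have hc' : WWs (Nst s) (Sup.act γ c) := hc.1.act hN γ
  refine ⟨hc', ?_⟩
  set c' : Coch ℓ k F L Ω g 1 := Sup.act γ c with hc'def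
  have hℓ := hD.glob.prime
  -- `A (q ℓ^i) c' ~ Z^b c'`
  have h1 : TTs (Nst s) (Sup.act (galA k F (τ ^ (q * ℓ ^ i))) c' - (Sup.zC ζ hζ)^[b] c') := by
    have e1 := act_comm_sub hD hτ γ hq (ℓ ^ i) hc.1.1
    have e2 := hc.2.act hN γ
    rw [act_sub, tf00_iter_act] at e2
    have e3 := e2.sub e1
    have e4 : Sup.act γ (Sup.act (galA k F (τ ^ ℓ ^ i)) c) - (Sup.zC ζ hζ)^[b] (Sup.act γ c) -
        (Sup.act γ (Sup.act (galA k F (τ ^ ℓ ^ i)) c) -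
          Sup.act (galA k F (τ ^ (q * ℓ ^ i))) (Sup.act γ c)) =
        Sup.act (galA k F (τ ^ (q * ℓ ^ i))) c' - (Sup.zC ζ hζ)^[b] c' := by
      rw [hc'def]
      abel
    rw [e4] at e3
    exact e3
  -- iterate
  have h2 : ∀ n : ℕ, TTs (Nst s) (Sup.act (galA k F (τ ^ (q * ℓ ^ i * n))) c' -
      (Sup.zC ζ hζ)^[b * n] c') := by
    intro n
    induction n with
    | zero =>
      have e1 : (galA k F (τ ^ (q * ℓ ^ i * 0)) : AutO k F L Ω) = 1 := by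
        rw [mul_zero, pow_zero, map_one]
      have e2 : (Sup.zC ζ hζ)^[b * 0] c' = c' := by rw [mul_zero]; rfl
      rw [e1, act_one, e2, sub_self]
      exact TTs.zero'
    | succ n ih =>
      have e1 : Sup.act (galA k F (τ ^ (q * ℓ ^ i * (n + 1)))) c' =
          Sup.act (galA k F (τ ^ (q * ℓ ^ i * n))) (Sup.act (galA k F (τ ^ (q * ℓ ^ i))) c') := by
        rw [← tf00_act_pow, mul_add, mul_one]
      have e2 : (Sup.zC ζ hζ)^[b * (n + 1)] c' = (Sup.zC ζ hζ)^[b] ((Sup.zC ζ hζ)^[b * n] c') := by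
        rw [← Function.iterate_add_apply]
        congr 2
        ring
      have e3 : Sup.act (galA k F (τ ^ (q * ℓ ^ i * (n + 1)))) c' - (Sup.zC ζ hζ)^[b * (n + 1)] c' =
          Sup.act (galA k F (τ ^ (q * ℓ ^ i * n)))
            (Sup.act (galA k F (τ ^ (q * ℓ ^ i))) c' - (Sup.zC ζ hζ)^[b] c') +
          (Sup.zC ζ hζ)^[b] (Sup.act (galA k F (τ ^ (q * ℓ ^ i * n))) c' -
            (Sup.zC ζ hζ)^[b * n] c') := by
        rw [e1, e2, act_sub, tf00_iter_act, sub_eq_add_neg (Sup.act (galA k F (τ ^ (q * ℓ ^ i * n))) c'),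
          tf00_iter_add, tf00_iter_neg]
        abel
      rw [e3]
      exact (h1.act hN _).add (tf00_iter_TTs b ih)
  -- the inverse of `q`
  have hcop : q.Coprime (ℓ ^ r) := by
    apply Nat.Coprime.pow_right
    rw [Nat.coprime_comm, Nat.Prime.coprime_iff_not_dvd hℓ]
    intro h3
    have h4 : ℓ ∣ q - (q - 1) := Nat.dvd_sub h3 hqo.2.1
    have h5 : q - (q - 1) = 1 := by have := hqo.1; omega
    rw [h5] at h4
    exact hℓ.one_lt.ne' (Nat.dvd_one.mp h4)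
  have hlt : 1 < ℓ ^ r := Nat.one_lt_pow hD.rpos.ne' hℓ.one_lt
  obtain ⟨m, _, hm⟩ := Nat.exists_mul_mod_eq_one_of_coprime hcop hlt
  obtain ⟨M, hM⟩ : ∃ M, q * m = 1 + ℓ ^ r * M := by
    refine ⟨q * m / ℓ ^ r, ?_⟩
    have h3 := Nat.mod_add_div (q * m) (ℓ ^ r)
    rw [hm] at h3
    exact h3.symm
  obtain ⟨M', hM'⟩ : ∃ M', m = 1 + ℓ * M' := by
    obtain ⟨u, hu⟩ := hqo.2.1
    have h3 : q = 1 + ℓ * u := by have := hqo.1; omega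
    have hm0 : 1 ≤ m := by
      rcases Nat.eq_zero_or_pos m with h4 | h4
      · rw [h4] at hM
        omega
      · exact h4
    have h5 : (ℓ : ℤ) ∣ (m : ℤ) - 1 := by
      have h6 : (q : ℤ) * m = 1 + ℓ ^ r * M := by exact_mod_cast hM
      have h7 : (q : ℤ) = 1 + ℓ * u := by exact_mod_cast h3
      obtain ⟨w, hw⟩ : ∃ w, r = w + 1 := ⟨r - 1, by have := hD.rpos; omega⟩
      refine ⟨ℓ ^ w * M - u * m, ?_⟩
      rw [h7, hw, pow_succ] at h6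
      linear_combination h6
    have h8 : ℓ ∣ m - 1 := by
      have : ((m - 1 : ℕ) : ℤ) = (m : ℤ) - 1 := by push_cast [hm0]; ring
      rw [← this] at h5
      exact_mod_cast h5
    obtain ⟨w, hw⟩ := h8
    exact ⟨w, by omega⟩
  -- `Z^ℓ = 1`
  have hZ : ∀ x : Coch ℓ k F L Ω g 1, (Sup.zC ζ hζ)^[ℓ] x = x := by
    intro x
    have hp : IsPrimitiveRoot (zA F L Ω ζ) ℓ := zA_primitive hD.glob
    have e1 : ∑ i ∈ Finset.range ℓ, (Sup.zC ζ hζ)^[i] x = 0 := sum_zC_mem ζ hp x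
    have e2 : ∑ i ∈ Finset.range ℓ, (Sup.zC ζ hζ)^[i] (Sup.zC ζ hζ x) = 0 := sum_zC_mem ζ hp _
    have e3 : ∑ i ∈ Finset.range ℓ, (Sup.zC ζ hζ)^[i] (Sup.zC ζ hζ x) =
        ∑ i ∈ Finset.range ℓ, (Sup.zC ζ hζ)^[i + 1] x := by
      refine Finset.sum_congr rfl fun i _ => ?_
      rw [Function.iterate_succ_apply]
    have e4 := Finset.sum_range_succ (fun i => (Sup.zC ζ hζ)^[i] x) ℓ
    have e5 := Finset.sum_range_succ' (fun i => (Sup.zC ζ hζ)^[i] x) ℓ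
    rw [e3] at e2
    rw [e4, e2, e1, zero_add, zero_add] at e5
    exact e5
  have hZm : ∀ (w : ℕ) (x : Coch ℓ k F L Ω g 1), (Sup.zC ζ hζ)^[ℓ * w] x = x := by
    intro w x
    induction w with
    | zero => rfl
    | succ w ih => rw [mul_add, mul_one, Function.iterate_add_apply, hZ, ih]
  have h9 := h2 m
  have e6 : (Sup.zC ζ hζ)^[b * m] c' = (Sup.zC ζ hζ)^[b] c' := by
    have e7 : b * m = b + ℓ * (M' * b) := by rw [hM']; ring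
    rw [e7, Function.iterate_add_apply, hZm]
  have e8 : Sup.act (galA k F (τ ^ (q * ℓ ^ i * m))) c' =
      Sup.act (galA k F (τ ^ ℓ ^ i)) (Sup.act (galA k F ((τ ^ ℓ ^ r) ^ (M * ℓ ^ i))) c') := by
    have e9 : q * ℓ ^ i * m = ℓ ^ i + ℓ ^ r * (M * ℓ ^ i) := by
      calc q * ℓ ^ i * m = (q * m) * ℓ ^ i := by ring
        _ = ℓ ^ i + ℓ ^ r * (M * ℓ ^ i) := by rw [hM]; ring
    rw [← pow_mul, ← tf00_act_pow, e9]
  have h10 : TTs (Nst s) (Sup.act (galA k F ((τ ^ ℓ ^ r) ^ (M * ℓ ^ i))) c' - c') :=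
    act_galA_subs hN hc'.1 (Subgroup.pow_mem _ (hD.pow_mem hτ) _)
  have h11 := h10.act hN (galA k F (τ ^ ℓ ^ i))
  rw [act_sub, ← e8] at h11
  rw [e6] at h9
  have h12 := h9.sub h11
  have e9 : Sup.act (galA k F (τ ^ (q * ℓ ^ i * m))) c' - (Sup.zC ζ hζ)^[b] c' -
      (Sup.act (galA k F (τ ^ (q * ℓ ^ i * m))) c' - Sup.act (galA k F (τ ^ ℓ ^ i)) c') =
      Sup.act (galA k F (τ ^ ℓ ^ i)) c' - (Sup.zC ζ hζ)^[b] c' := by abel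
  rw [e9] at h12
  exact h12

/-- `IsW.act` for `γ = τ`. -/
lemma IsW.actτ (hD : TowDat (L := L) ℓ r g E ζ ζr s) {τ : Ω ≃ₐ[L] Ω}
    (hτ : τ s = xA F L Ω ζr * s) {i b : ℕ}
    {c : Coch ℓ k F L Ω g 1} (hc : IsW hζ s τ i b c) :
    IsW hζ s τ i b (Sup.act (galA k F τ) c) := by
  refine hc.act hD hτ (galA k F τ) (q := 1) ⟨one_pos, by simp, by simp⟩ ?_
  rw [resF_galA, pow_one]
  rfl

lemma IsW.sat (hD : TowDat (L := L) ℓ r g E ζ ζr s) {τ : Ω ≃ₐ[L] Ω} {i b : ℕ}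
    {y : Coch ℓ k F L Ω g 1} (hy : WWs (Nst s) y)
    (h : IsW hζ s τ i b (y - Sup.zC ζ hζ y)) : IsW hζ s τ i b y := by
  refine ⟨hy, ?_⟩
  have hp : IsPrimitiveRoot (zA F L Ω ζ) ℓ := zA_primitive hD.glob
  have hN := hD.nrm
  apply TTs.of_sub_zC hp hD.trs ((hy.1.act hN _).sub (tf00_iter_TCs b hy.1))
  have h1 := h.2
  have e1 : Sup.act (galA k F (τ ^ ℓ ^ i)) (y - Sup.zC ζ hζ y) - (Sup.zC ζ hζ)^[b] (y - Sup.zC ζ hζ y) =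
      Sup.act (galA k F (τ ^ ℓ ^ i)) y - (Sup.zC ζ hζ)^[b] y -
        Sup.zC ζ hp.pow_eq_one (Sup.act (galA k F (τ ^ ℓ ^ i)) y - (Sup.zC ζ hζ)^[b] y) := by
    rw [map_sub, act_sub, act_zC, sub_eq_add_neg y, tf00_iter_add, tf00_iter_neg,
      ← Function.iterate_succ_apply, Function.iterate_succ_apply']
    abel
  rw [e1] at h1
  exact h1

lemma sum_zC (hD : TowDat (L := L) ℓ r g E ζ ζr s) (c : Coch ℓ k F L Ω g 1) :
    ∑ i ∈ Finset.range ℓ, (Sup.zC ζ hζ)^[i] c = 0 := by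
  exact sum_zC_mem ζ (zA_primitive hD.glob) c

end Pool.Agent.Lib.MP_89bcae_ag.Sup

end

section

open Polynomial IsDedekindDomain

open scoped Classical

set_option linter.unusedSectionVars false

namespace Pool.Agent.Lib.MP_89bcae_ag.Sup

universe u

variable {k F L Ω : Type u} [Field k] [Field F] [Algebra k F] [Field L] [Algebra F[X] L]
  [Field Ω] [Algebra L Ω] [IsAlgClosure k F] [IsFractionRing F[X] L] [IsAlgClosure L Ω]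
  [Algebra F Ω] {ℓ : ℕ} {g E : k[X]} [hG : IsGood ℓ (cOver k F L Ω g 1)] {ζ : k}
  {hζ : (zA F L Ω ζ) ^ ℓ = 1} {r : ℕ} {ζr : F} {s : Ω}

/-- `pw` in terms of iterates. -/
lemma pw_eq (τ : Ω ≃ₐ[L] Ω) (n : ℕ) (c : Coch ℓ k F L Ω g 1) :
    pw τ n c = (fun x => x - actH (galA k F τ) x)^[n] c := rfl

lemma pw_succ (τ : Ω ≃ₐ[L] Ω) (n : ℕ) (c : Coch ℓ k F L Ω g 1) :
    pw τ (n + 1) c = pw τ n c - act (galA k F τ) (pw τ n c) := by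
  unfold pw
  rw [Function.iterate_succ_apply']

lemma pw_succ' (τ : Ω ≃ₐ[L] Ω) (n : ℕ) (c : Coch ℓ k F L Ω g 1) :
    pw τ (n + 1) c = pw τ n (c - act (galA k F τ) c) := by
  unfold pw
  rw [Function.iterate_succ_apply]

lemma IsW.pw (hD : TowDat (L := L) ℓ r g E ζ ζr s) {τ : Ω ≃ₐ[L] Ω}
    (hτ : τ s = xA F L Ω ζr * s) {i b : ℕ} (n : ℕ)
    {c : Coch ℓ k F L Ω g 1} (hc : IsW hζ s τ i b c) : IsW hζ s τ i b (Sup.pw τ n c) := by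
  induction n with
  | zero => exact hc
  | succ n ih =>
    rw [pw_succ]
    exact ih.sub hD (ih.actτ hD hτ)

lemma pw_add (τ : Ω ≃ₐ[L] Ω) (n : ℕ) (c c' : Coch ℓ k F L Ω g 1) :
    pw τ n (c + c') = pw τ n c + pw τ n c' := by
  induction n with
  | zero => rfl
  | succ n ih =>
    rw [pw_succ, pw_succ, pw_succ, ih, act_add]
    abel

lemma pw_neg (τ : Ω ≃ₐ[L] Ω) (n : ℕ) (c : Coch ℓ k F L Ω g 1) :
    pw τ n (-c) = -pw τ n c := by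
  induction n with
  | zero => rfl
  | succ n ih =>
    rw [pw_succ, pw_succ, ih, act_neg]
    abel

lemma TTs.pw (hD : TowDat (L := L) ℓ r g E ζ ζr s) (τ : Ω ≃ₐ[L] Ω) (n : ℕ)
    {c : Coch ℓ k F L Ω g 1} (hc : TTs (Nst s) c) : TTs (Nst s) (Sup.pw τ n c) := by
  induction n with
  | zero => exact hc
  | succ n ih =>
    rw [pw_succ]
    exact ih.sub (ih.act hD.nrm _)

lemma tf08_hzt (τ : Ω ≃ₐ[L] Ω) (hζ : (zA F L Ω ζ) ^ ℓ = 1) (s : Ω)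
    (a : Coch ℓ k F L Ω g 1) :
    actH (galA k F τ) (Sup.zC ζ hζ a) - Sup.zC ζ hζ (actH (galA k F τ) a) ∈
      TT ℓ k F g s := by
  have h : actH (galA k F τ) (Sup.zC ζ hζ a) - Sup.zC ζ hζ (actH (galA k F τ) a) = 0 :=
    sub_eq_zero.mpr (act_zC (galA k F τ) ζ hζ a)
  rw [h]
  exact AddSubgroup.zero_mem _

lemma tf08_hz (hD : TowDat (L := L) ℓ r g E ζ ζr s) (hζ : (zA F L Ω ζ) ^ ℓ = 1)
    (a : Coch ℓ k F L Ω g 1) :
    ∑ i ∈ Finset.range ℓ, (Sup.zC ζ hζ)^[i] a ∈ TT ℓ k F g s := by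
  rw [sum_zC hD a]
  exact AddSubgroup.zero_mem _

lemma tf08_heig {τ : Ω ≃ₐ[L] Ω} {i b : ℕ} {a : Coch ℓ k F L Ω g 1}
    (ha : IsW hζ s τ i b a) :
    (actH (galA k F τ))^[ℓ ^ i] a - (Sup.zC ζ hζ)^[b] a ∈ TT ℓ k F g s := by
  rw [iter_act]
  exact ha.2

/-- `γ (1 - τ)^n = (1 - τ)^n (1 + (1 - τ) s' + ..) γ` on the classes. -/
theorem pw_act_rel (hD : TowDat (L := L) ℓ r g E ζ ζr s) {τ : Ω ≃ₐ[L] Ω}
    (hτ : τ s = xA F L Ω ζr * s) {i b : ℕ} (hb : ¬ ℓ ∣ b) (n : ℕ) (γ : AutO k F L Ω) {q : ℕ}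
    (hqo : QOk ℓ q) (hq : resF γ ζr = ζr ^ q) :
    ∃ s' : ℤ, ∀ c : Coch ℓ k F L Ω g 1, IsW hζ s τ i b c →
      ∃ w : Coch ℓ k F L Ω g 1, IsW hζ s τ i b w ∧
        TTs (Nst s) (Sup.act γ (Sup.pw τ n c) - (Sup.pw τ n (Sup.act γ c) +
          Sup.pw τ (n + 1) (s' • Sup.act γ c + (w - Sup.act (galA k F τ) w)))) := by
  have hut : ∀ a ∈ WI hD hζ τ i b, actH γ (actH (galA k F τ) a) -
      (actH (galA k F τ))^[q] (actH γ a) ∈ TT ℓ k F g s := by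
    intro a ha
    have h := act_comm_sub hD hτ γ hq 1 ha.1.1
    rw [pow_one, mul_one] at h
    rw [iter_act]
    exact h
  obtain ⟨s', hs'⟩ := eps_rel hD.glob.prime i b q n hb hqo.1 hqo.2.1 (WI hD hζ τ i b)
    (TT ℓ k F g s) (fun a ha => TTs.isW hD ha) (actH (galA k F τ)) (Sup.zC ζ hζ) (actH γ)
    (fun a ha => IsW.actτ hD hτ ha) (fun a ha => TTs.act hD.nrm ha _)
    (fun a ha => IsW.zC hD ha) (fun a ha => TTs.zC ha ζ hζ)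
    (fun a _ => tf08_hzt τ hζ s a) (fun a _ => tf08_hz hD hζ a) (fun a ha => tf08_heig ha)
    (fun a ha => IsW.act hD hτ ha γ hqo hq) (fun a ha => TTs.act hD.nrm ha γ) hut
  refine ⟨s', fun c hc => ?_⟩
  obtain ⟨w, hw, h⟩ := hs' c hc
  exact ⟨w, hw, h⟩

/-- `(1 - τ)^(ℓ^i) c` is divisible by `1 - Z`. -/
theorem IsW.pw_div (hD : TowDat (L := L) ℓ r g E ζ ζr s) {τ : Ω ≃ₐ[L] Ω}
    (hτ : τ s = xA F L Ω ζr * s) {i b : ℕ} (hb : ¬ ℓ ∣ b)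
    {c : Coch ℓ k F L Ω g 1} (hc : IsW hζ s τ i b c) :
    ∃ y : Coch ℓ k F L Ω g 1, IsW hζ s τ i b y ∧
      TTs (Nst s) (Sup.pw τ (ℓ ^ i) c - (y - Sup.zC ζ hζ y)) := by
  obtain ⟨y, hy, h⟩ := pw_rel hD.glob.prime i b hb (WI hD hζ τ i b)
    (TT ℓ k F g s) (fun a ha => TTs.isW hD ha) (actH (galA k F τ)) (Sup.zC ζ hζ)
    (fun a ha => IsW.actτ hD hτ ha) (fun a ha => TTs.act hD.nrm ha _)
    (fun a ha => IsW.zC hD ha) (fun a ha => TTs.zC ha ζ hζ)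
    (fun a _ => tf08_hzt τ hζ s a) (fun a _ => tf08_hz hD hζ a) (fun a ha => tf08_heig ha)
    c hc
  exact ⟨y, hy, h⟩

/-- If `(1 - τ)^(ℓ^i - 1) c` is divisible by `1 - Z` then `c` is divisible by `1 - τ`. -/
theorem IsW.div (hD : TowDat (L := L) ℓ r g E ζ ζr s) {τ : Ω ≃ₐ[L] Ω}
    (hτ : τ s = xA F L Ω ζr * s) {i b : ℕ} (hb : ¬ ℓ ∣ b)
    {c : Coch ℓ k F L Ω g 1} (hc : IsW hζ s τ i b c)
    (h : ∃ y : Coch ℓ k F L Ω g 1, IsW hζ s τ i b y ∧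
      TTs (Nst s) (Sup.pw τ (ℓ ^ i - 1) c - (y - Sup.zC ζ hζ y))) :
    ∃ c₁ : Coch ℓ k F L Ω g 1, IsW hζ s τ i b c₁ ∧
      TTs (Nst s) (c - (c₁ - Sup.act (galA k F τ) c₁)) := by
  have hprim : IsPrimitiveRoot (zA F L Ω ζ) ℓ := zA_primitive hD.glob
  have hinj : ∀ a ∈ WI hD hζ τ i b, a - Sup.zC ζ hζ a ∈ TT ℓ k F g s →
      a ∈ TT ℓ k F g s := fun a ha h' => TTs.of_sub_zC hprim hD.trs ha.1.1 h'
  obtain ⟨y, hy, hy'⟩ := h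
  obtain ⟨c₁, hc₁, h'⟩ := div_rel hD.glob.prime i b hb (WI hD hζ τ i b)
    (TT ℓ k F g s) (fun a ha => TTs.isW hD ha) (actH (galA k F τ)) (Sup.zC ζ hζ)
    (fun a ha => IsW.actτ hD hτ ha) (fun a ha => TTs.act hD.nrm ha _)
    (fun a ha => IsW.zC hD ha) (fun a ha => TTs.zC ha ζ hζ)
    (fun a _ => tf08_hzt τ hζ s a) (fun a _ => tf08_hz hD hζ a) (fun a ha => tf08_heig ha)
    hinj c hc ⟨y, hy, hy'⟩
  exact ⟨c₁, hc₁, h'⟩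

end Pool.Agent.Lib.MP_89bcae_ag.Sup

end

section

open Polynomial IsDedekindDomain

open scoped Classical

set_option linter.unusedSectionVars false

namespace Pool.Agent.Lib.MP_89bcae_ag.Sup

universe u

variable {k F L Ω : Type u} [Field k] [Field F] [Algebra k F] [Field L] [Algebra F[X] L]
  [Field Ω] [Algebra L Ω] [IsAlgClosure k F] [IsFractionRing F[X] L] [IsAlgClosure L Ω]
  [Algebra F Ω] {ℓ : ℕ} {g E : k[X]} [hG : IsGood ℓ (cOver k F L Ω g 1)] {ζ : k}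
  {hζ : (zA F L Ω ζ) ^ ℓ = 1} {r : ℕ} {ζr : F} {s : Ω}

/-- The exponents of `c`. -/
def HasExpT (hζ : (zA F L Ω ζ) ^ ℓ = 1) (E : k[X]) (s : Ω) (τ : Ω ≃ₐ[L] Ω) (n : ℕ)
    (c : Coch ℓ k F L Ω g 1) (e : F → ℤ) : Prop :=
  ∃ (h : Ch ℓ k F L Ω g 1) (m : Ω → ℤ), MCs ζ hζ ⊤ h ∧ HasExpM ζ E h e ∧
    ∀ σ ∈ (Nst s : Subgroup (Ω ≃ₐ[L] Ω)),
      h σ = vJ (zA F L Ω ζ) hζ (pw τ n c 1 σ) + cob (ram m) σ

private lemma tf01_fixed (H : GlobHyp ℓ g E ζ) {Q : JacOver ℓ (curvePoly k F L g 1) Ω}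
    (hQ : ℓ • Q = 0) : zJ (zA F L Ω ζ) hζ (vJ (zA F L Ω ζ) hζ Q) = vJ (zA F L Ω ζ) hζ Q := by
  have hz : IsPrimitiveRoot (zA F L Ω ζ) ℓ := zA_primitive H
  have h1 := vJ_sub_zJ (f := cOver k F L Ω g 1) (zA F L Ω ζ) hz Q
  rw [show ℓ • Q = 0 from hQ, sub_eq_zero] at h1
  exact h1.symm

private lemma tf01_ram_zero :
    (ram (fun _ => 0) : JacOver ℓ (curvePoly k F L g 1) Ω) = 0 := by
  have h1 := ram_sub (ℓ := ℓ) (f := cOver k F L Ω g 1) (fun _ => 0) (fun _ => 0)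
  exact h1.trans (sub_self _)

lemma vJ_trivial (hD : TowDat (L := L) ℓ r g E ζ ζr s) {d : Coch ℓ k F L Ω g 1}
    (hd : TTs (Nst s) d) : ∃ m : Ω → ℤ, ∀ σ ∈ (Nst s : Subgroup (Ω ≃ₐ[L] Ω)),
      vJ (zA F L Ω ζ) hζ (d 1 σ) = cob (ram m) σ := by
  obtain ⟨A, hA, hdA⟩ := hd.2 1
  rw [pow_one] at hA
  obtain ⟨m, hm⟩ := exists_ram_of_zJ_eq (f := cOver k F L Ω g 1) (zA F L Ω ζ)
    (zA_primitive hD.glob) (vJ (zA F L Ω ζ) hζ A) (tf01_fixed hD.glob hA)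
  refine ⟨m, fun σ hσ => ?_⟩
  rw [hdA σ hσ, vJ_cob, hm]

lemma vJ_sub_zC (hD : TowDat (L := L) ℓ r g E ζ ζr s) {y : Coch ℓ k F L Ω g 1}
    (hy : TCs (Nst s) y) : ∀ σ ∈ (Nst s : Subgroup (Ω ≃ₐ[L] Ω)),
      vJ (zA F L Ω ζ) hζ ((y - Sup.zC ζ hζ y) 1 σ) = 0 := by
  intro σ hσ
  have hz : IsPrimitiveRoot (zA F L Ω ζ) ℓ := zA_primitive hD.glob
  have h1 : (y - Sup.zC ζ hζ y) 1 σ = y 1 σ - zJ (zA F L Ω ζ) hζ (y 1 σ) := rfl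
  have h2 := vJ_sub_zJ (f := cOver k F L Ω g 1) (zA F L Ω ζ) hz (y 1 σ)
  rw [h1, vJ_sub, vJ_zJ, h2]
  exact (hy.smul 0 σ hσ).trans (hy.zero σ hσ)

lemma IsW.pw_vJ_zero (hD : TowDat (L := L) ℓ r g E ζ ζr s) {τ : Ω ≃ₐ[L] Ω}
    (hτ : τ s = xA F L Ω ζr * s) {i b : ℕ} (hb : ¬ ℓ ∣ b)
    {c : Coch ℓ k F L Ω g 1} (hc : IsW hζ s τ i b c) :
    ∃ m : Ω → ℤ, ∀ σ ∈ (Nst s : Subgroup (Ω ≃ₐ[L] Ω)),
      vJ (zA F L Ω ζ) hζ (Sup.pw τ (ℓ ^ i) c 1 σ) = cob (ram m) σ := by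
  obtain ⟨y, hy, hT⟩ := hc.pw_div hD hτ hb
  obtain ⟨m, hm⟩ := vJ_trivial (hζ := hζ) hD hT
  refine ⟨m, fun σ hσ => ?_⟩
  have h1 := hm σ hσ
  have h2 : (Sup.pw τ (ℓ ^ i) c - (y - Sup.zC ζ hζ y)) 1 σ =
      Sup.pw τ (ℓ ^ i) c 1 σ - (y - Sup.zC ζ hζ y) 1 σ := rfl
  rw [h2, vJ_sub, vJ_sub_zC hD hy.1.1 σ hσ, sub_zero] at h1
  exact h1

theorem IsW.exists_h (hD : TowDat (L := L) ℓ r g E ζ ζr s) {τ : Ω ≃ₐ[L] Ω}
    (hτ : τ s = xA F L Ω ζr * s) {i b : ℕ} (hb : ¬ ℓ ∣ b)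
    {c : Coch ℓ k F L Ω g 1} (hc : IsW hζ s τ i b c) :
    ∃ h : Ch ℓ k F L Ω g 1, MCs ζ hζ ⊤ h ∧ ∀ σ ∈ (Nst s : Subgroup (Ω ≃ₐ[L] Ω)),
      h σ = vJ (zA F L Ω ζ) hζ (Sup.pw τ (ℓ ^ i - 1) c 1 σ) := by
  have H := hD.glob
  have hz : IsPrimitiveRoot (zA F L Ω ζ) ℓ := zA_primitive H
  have hN : Nrm k F (Nst s : Subgroup (Ω ≃ₐ[L] Ω)) := hD.nrm
  obtain ⟨P, hP⟩ : ∃ P : Coch ℓ k F L Ω g 1, P = Sup.pw τ (ℓ ^ i - 1) c := ⟨_, rfl⟩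
  have hW : IsW hζ s τ i b P := by
    rw [hP]
    exact hc.pw hD hτ _
  have hTC : TCs (Nst s) P := hW.1.1
  have hPℓ : ∀ σ ∈ (Nst s : Subgroup (Ω ≃ₐ[L] Ω)), ℓ • P 1 σ = 0 := fun σ hσ =>
    (hTC.smul 0 σ hσ).trans (hTC.zero σ hσ)
  obtain ⟨x, hx⟩ : ∃ x : Ch ℓ k F L Ω g 1, x = fun σ => vJ (zA F L Ω ζ) hζ (P 1 σ) := ⟨_, rfl⟩
  have hxM : MCs ζ hζ (Nst s) x := by
    refine ⟨?_, fun σ hσ => ?_⟩
    · rw [hx]
      exact (hTC.c1 1).vJ ζ hζ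
    · rw [hx]
      exact tf01_fixed H (hPℓ σ hσ)
  -- the good elements
  have hmul : ∀ γ δ : Ω ≃ₐ[L] Ω,
      (∃ A : JacOver ℓ (curvePoly k F L g 1) Ω, ℓ • A = 0 ∧
        ∀ σ ∈ (Nst s : Subgroup (Ω ≃ₐ[L] Ω)), act1 (galA k F γ) x σ = x σ + cob A σ) →
      (∃ A : JacOver ℓ (curvePoly k F L g 1) Ω, ℓ • A = 0 ∧
        ∀ σ ∈ (Nst s : Subgroup (Ω ≃ₐ[L] Ω)), act1 (galA k F δ) x σ = x σ + cob A σ) →
      ∃ A : JacOver ℓ (curvePoly k F L g 1) Ω, ℓ • A = 0 ∧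
        ∀ σ ∈ (Nst s : Subgroup (Ω ≃ₐ[L] Ω)), act1 (galA k F (γ * δ)) x σ = x σ + cob A σ := by
    rintro γ δ ⟨A, hA, hA'⟩ ⟨B, hB, hB'⟩
    refine ⟨A + symJ (toSym g 1 (galA k F γ)) B, ?_, fun σ hσ => ?_⟩
    · rw [smul_add, hA, zero_add, ← map_nsmul, hB, map_zero]
    · have h1 : ∀ σ ∈ (Nst s : Subgroup (Ω ≃ₐ[L] Ω)),
          act1 (galA k F δ) x σ = (x + cob B) σ := fun σ hσ => hB' σ hσ
      rw [map_mul, act1_mul, act1_congr hN (galA k F γ) h1 σ hσ, act1_add, act1_cob]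
      change act1 (galA k F γ) x σ + cob (symJ (toSym g 1 (galA k F γ)) B) σ = _
      rw [hA' σ hσ, cob_add]
      change x σ + cob A σ + _ = x σ + (cob A σ + cob (symJ (toSym g 1 (galA k F γ)) B) σ)
      rw [add_assoc]
  have hη : ∀ η ∈ (Nst s : Subgroup (Ω ≃ₐ[L] Ω)),
      ∃ A : JacOver ℓ (curvePoly k F L g 1) Ω, ℓ • A = 0 ∧
        ∀ σ ∈ (Nst s : Subgroup (Ω ≃ₐ[L] Ω)), act1 (galA k F η) x σ = x σ + cob A σ := by
    intro η hη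
    refine ⟨x η, ?_, act1_galA_sub hxM.toC1s hη⟩
    have h1 := hxM.fixed η hη
    have h2 := sum_zJ (f := cOver k F L Ω g 1) (zA F L Ω ζ) hz (x η)
    have h3 : ∀ i : ℕ, (zJ (zA F L Ω ζ) hz.pow_eq_one)^[i] (x η) = x η := by
      intro i
      induction i with
      | zero => rfl
      | succ i ih =>
        rw [Function.iterate_succ_apply', ih]
        exact h1
    rw [Finset.sum_congr rfl fun i _ => h3 i, Finset.sum_const, Finset.card_range] at h2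
    exact h2
  have hτ' : ∃ A : JacOver ℓ (curvePoly k F L g 1) Ω, ℓ • A = 0 ∧
      ∀ σ ∈ (Nst s : Subgroup (Ω ≃ₐ[L] Ω)), act1 (galA k F τ) x σ = x σ + cob A σ := by
    obtain ⟨m, hm⟩ := hc.pw_vJ_zero hD hτ hb
    refine ⟨-ram m, ?_, fun σ hσ => ?_⟩
    · rw [smul_neg]
      exact (congrArg Neg.neg (smul_ram (ℓ := ℓ) (f := cOver k F L Ω g 1) m)).trans neg_zero
    · have hn : ℓ ^ i - 1 + 1 = ℓ ^ i :=
        Nat.sub_add_cancel (Nat.one_le_pow _ _ H.prime.pos)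
      have h1 := pw_succ τ (ℓ ^ i - 1) c
      rw [hn, ← hP] at h1
      have h2 : Sup.act (galA k F τ) P = P - Sup.pw τ (ℓ ^ i) c := by
        rw [h1]
        abel
      have h3 : act1 (galA k F τ) x σ = vJ (zA F L Ω ζ) hζ (act1 (galA k F τ) (P 1) σ) := by
        rw [hx, act1_vJ]
      have h4 : act1 (galA k F τ) (P 1) σ = P 1 σ - Sup.pw τ (ℓ ^ i) c 1 σ := by
        rw [← act_apply1, h2]
        rfl
      rw [h3, h4, vJ_sub, hm σ hσ, cob_neg, hx, sub_eq_add_neg]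
      rfl
  have hpow : ∀ j : ℕ, ∃ A : JacOver ℓ (curvePoly k F L g 1) Ω, ℓ • A = 0 ∧
      ∀ σ ∈ (Nst s : Subgroup (Ω ≃ₐ[L] Ω)), act1 (galA k F (τ ^ j)) x σ = x σ + cob A σ := by
    intro j
    induction j with
    | zero =>
      rw [pow_zero]
      exact hη 1 (Subgroup.one_mem _)
    | succ j ih =>
      rw [pow_succ]
      exact hmul _ _ ih hτ'
  obtain ⟨y, hy, hyx, -⟩ := exists_extM (N := (Nst s : Subgroup (Ω ≃ₐ[L] Ω))) hz hD.trs hN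
    (opn_nst s) hxM (fun γ => by
      obtain ⟨j, η, hη', rfl⟩ := hD.exists_mul hτ γ
      exact hmul _ _ (hpow j) (hη η hη'))
  refine ⟨y, hy, fun σ hσ => ?_⟩
  rw [hyx σ hσ, hx, hP]

theorem HasExpT.exists (hF : CompatF F L Ω) (hD : TowDat (L := L) ℓ r g E ζ ζr s)
    {τ : Ω ≃ₐ[L] Ω} (hτ : τ s = xA F L Ω ζr * s) {i b : ℕ} (hb : ¬ ℓ ∣ b)
    {c : Coch ℓ k F L Ω g 1} (hc : IsW hζ s τ i b c) :
    ∃ e : F → ℤ, HasExpT hζ E s τ (ℓ ^ i - 1) c e := by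
  obtain ⟨h, hh, hhx⟩ := hc.exists_h hD hτ hb
  have hW : IsW hζ s τ i b (Sup.pw τ (ℓ ^ i - 1) c) := hc.pw hD hτ _
  have h0 : ∀ σ ∈ (Nst s : Subgroup (Ω ≃ₐ[L] Ω)),
      h σ = vJ (zA F L Ω ζ) hζ (Sup.pw τ (ℓ ^ i - 1) c 1 σ) + cob (ram fun _ => 0) σ := by
    intro σ hσ
    rw [hhx σ hσ, tf01_ram_zero, cob_zero]
    exact (add_zero _).symm
  obtain ⟨e, he⟩ := exists_hasExpM hF hD.glob hD.unr hh hW.1.2.1 (fun _ => 0) h0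
  exact ⟨e, h, fun _ => 0, hh, he, h0⟩

end Pool.Agent.Lib.MP_89bcae_ag.Sup

end

section

open Polynomial IsDedekindDomain

open scoped Classical

set_option linter.unusedSectionVars false

namespace Pool.Agent.Lib.MP_89bcae_ag.Sup

universe u

variable {k F L Ω : Type u} [Field k] [Field F] [Algebra k F] [Field L] [Algebra F[X] L]
  [Field Ω] [Algebra L Ω] [IsAlgClosure k F] [IsFractionRing F[X] L] [IsAlgClosure L Ω]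
  [Algebra F Ω] {ℓ : ℕ} {g E : k[X]} [hG : IsGood ℓ (cOver k F L Ω g 1)] {ζ : k}
  {hζ : (zA F L Ω ζ) ^ ℓ = 1} {r : ℕ} {ζr : F} {s : Ω}

lemma tf02_prim (hD : TowDat (L := L) ℓ r g E ζ ζr s) : IsPrimitiveRoot (zA F L Ω ζ) ℓ :=
  zA_primitive (F := F) (L := L) hD.glob (A := Ω)

lemma tf02_ram_zero : (ram (fun _ => 0) : JacOver ℓ (curvePoly k F L g 1) Ω) = 0 := by
  have h1 := ram_sub (ℓ := ℓ) (f := cOver k F L Ω g 1) (fun _ => 0) (fun _ => 0)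
  exact h1.trans (sub_self _)

lemma tf02_ram_neg (e : Ω → ℤ) :
    (ram (fun θ => -e θ) : JacOver ℓ (curvePoly k F L g 1) Ω) = -ram e := by
  have h1 := ram_sub (ℓ := ℓ) (f := cOver k F L Ω g 1) (fun _ => 0) e
  have h2 := tf02_ram_zero (F := F) (L := L) (Ω := Ω) (ℓ := ℓ) (g := g)
  rw [show (ram (fun _ => 0) : Jac ℓ (cOver k F L Ω g 1)) = 0 from h2, zero_sub] at h1
  refine Eq.trans ?_ h1
  congr 1
  funext θ
  rw [zero_sub]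

lemma tf02_cob_add (m m' : Ω → ℤ) (σ : Ω ≃ₐ[L] Ω) :
    (cob (ram fun θ => m θ + m' θ) : Ch ℓ k F L Ω g 1) σ = cob (ram m) σ + cob (ram m') σ := by
  have h : (ram (fun θ => m θ + m' θ) : JacOver ℓ (curvePoly k F L g 1) Ω) = ram m + ram m' :=
    ram_add m m'
  rw [h, cob_add]
  rfl

lemma tf02_cob_neg (m : Ω → ℤ) (σ : Ω ≃ₐ[L] Ω) :
    (cob (ram fun θ => -m θ) : Ch ℓ k F L Ω g 1) σ = -cob (ram m) σ := by
  rw [tf02_ram_neg, cob_neg]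
  rfl

lemma tf02_cob_sub (m m' : Ω → ℤ) (σ : Ω ≃ₐ[L] Ω) :
    (cob (ram fun θ => m θ - m' θ) : Ch ℓ k F L Ω g 1) σ = cob (ram m) σ - cob (ram m') σ := by
  have h : (ram (fun θ => m θ - m' θ) : JacOver ℓ (curvePoly k F L g 1) Ω) = ram m - ram m' :=
    ram_sub m m'
  rw [h, cob_sub]
  rfl

lemma tf02_cob_zero (σ : Ω ≃ₐ[L] Ω) :
    (cob (ram fun _ => 0) : Ch ℓ k F L Ω g 1) σ = 0 := by
  rw [tf02_ram_zero, cob_zero]
  rfl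

lemma tf02_smul (hD : TowDat (L := L) ℓ r g E ζ ζr s) {N : Subgroup (Ω ≃ₐ[L] Ω)}
    {h : Ch ℓ k F L Ω g 1} (hh : MCs ζ hζ N h) {σ : Ω ≃ₐ[L] Ω} (hσ : σ ∈ N) :
    ℓ • h σ = 0 := by
  obtain ⟨e, he⟩ := exists_ram_of_zJ_eq (zA F L Ω ζ) (tf02_prim hD) (h σ) (hh.fixed σ hσ)
  rw [he]
  exact smul_ram e

lemma tf02_smul_cob (m : Ω → ℤ) (σ : Ω ≃ₐ[L] Ω) :
    ℓ • (cob (ram m) : Ch ℓ k F L Ω g 1) σ = 0 := by
  have h : ℓ • (ram m : JacOver ℓ (curvePoly k F L g 1) Ω) = 0 := smul_ram m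
  have h1 := cob_nsmul (k := k) (F := F) (L := L) (Ω := Ω) (g := g) (D := 1) ℓ
    (ram m : JacOver ℓ (curvePoly k F L g 1) Ω)
  rw [h, cob_zero] at h1
  exact (congrFun h1 σ).symm

lemma tf02_eq (hD : TowDat (L := L) ℓ r g E ζ ζr s) {h h' : Ch ℓ k F L Ω g 1}
    (hh : C1s ⊤ h) (hh' : C1s ⊤ h') (hn : ∀ σ, ℓ • h σ = 0) (hn' : ∀ σ, ℓ • h' σ = 0)
    (he : ∀ σ ∈ (Nst s : Subgroup (Ω ≃ₐ[L] Ω)), h σ = h' σ) : ∀ σ, h σ = h' σ :=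
  C1s.eq_of_eqOn (tf02_prim hD) hD.trs hD.nrm 1 hh hh' (fun σ => by rw [pow_one]; exact hn σ)
    (fun σ => by rw [pow_one]; exact hn' σ) he

lemma tf02_vJ_neg (Q : JacOver ℓ (curvePoly k F L g 1) Ω) :
    vJ (zA F L Ω ζ) hζ (-Q) = -vJ (zA F L Ω ζ) hζ Q :=
  (AddMonoidHom.mk' (vJ (zA F L Ω ζ) hζ) (vJ_add (zA F L Ω ζ) hζ)).map_neg Q

include hG in
lemma tf02_stable (σ : Ω ≃ₐ[L] Ω) {θ : Ω} (hθ : (cOver k F L Ω g 1).eval θ = 0) :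
    σ θ ∈ rts (cOver k F L Ω g 1) := by
  rw [mem_rts hG.separable.ne_zero]
  have h1 := (toSym g 1 (galA k F σ)).2
  have h2 : (cOver k F L Ω g 1).eval (((galA k F σ : AutO k F L Ω) : Ω ≃+* Ω) θ) =
      ((galA k F σ : AutO k F L Ω) : Ω ≃+* Ω) ((cOver k F L Ω g 1).eval θ) := by
    conv_lhs => rw [← h1]
    rw [eval_map]
    exact eval₂_hom (p := cOver k F L Ω g 1)
      (((galA k F σ : AutO k F L Ω) : Ω ≃+* Ω) : Ω →+* Ω) θ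
  refine Eq.trans h2 ?_
  rw [hθ, map_zero]

lemma tf02_hasExp_zero (hF : CompatF F L Ω) (hD : TowDat (L := L) ℓ r g E ζ ζr s) :
    HasExpM ζ E (0 : Ch ℓ k F L Ω g 1) (fun _ => 0) := by
  have hp := tf02_prim hD
  refine ⟨fun a => ?_, fun _ => 1, fun θ _ => ?_, fun σ n hn => ?_⟩
  · rw [Finset.sum_const_zero]
    exact dvd_zero _
  · simp
  · have h1 : (ram n : JacOver ℓ (curvePoly k F L g 1) Ω) = 0 := by
      refine (ram_eq_zero_iff (zA F L Ω ζ) hp n).2 ⟨0, fun θ hθ => ?_⟩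
      rw [sub_zero, ← hp.zpow_eq_one_iff_dvd]
      have h2 : σ.symm θ ∈ rts (cOver k F L Ω g 1) := tf02_stable (k := k) (F := F) (ℓ := ℓ) σ.symm hθ
      have h4 := hn (σ.symm θ) h2
      rw [map_one, mul_one, AlgEquiv.apply_symm_apply] at h4
      exact h4.symm
    rw [h1]
    rfl

lemma HasExpT.unique (hF : CompatF F L Ω) (hD : TowDat (L := L) ℓ r g E ζ ζr s)
    {τ : Ω ≃ₐ[L] Ω} {n : ℕ} {c : Coch ℓ k F L Ω g 1}
    {e e' : F → ℤ} (he : HasExpT hζ E s τ n c e) (he' : HasExpT hζ E s τ n c e') :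
    ∀ β ∈ RR F g E, (ℓ : ℤ) ∣ e β - e' β := by
  obtain ⟨h, m, hM, hE, hh⟩ := he
  obtain ⟨h', m', hM', hE', hh'⟩ := he'
  have key := tf02_eq hD hM.toC1s
    (hM'.toC1s.add (C1s.cob (N := ⊤) (ram fun θ => m θ - m' θ)))
    (fun σ => tf02_smul hD hM (Subgroup.mem_top σ))
    (fun σ => by
      change ℓ • (h' σ + cob (ram fun θ => m θ - m' θ) σ) = 0
      rw [smul_add, tf02_smul hD hM' (Subgroup.mem_top σ), tf02_smul_cob, add_zero])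
    (fun σ hσ => by
      change h σ = h' σ + cob (ram fun θ => m θ - m' θ) σ
      rw [hh σ hσ, hh' σ hσ, tf02_cob_sub]
      abel)
  exact HasExpM.unique hF hD.glob hE hE' (m := fun θ => m θ - m' θ) key

lemma HasExpT.congr (hF : CompatF F L Ω) (hD : TowDat (L := L) ℓ r g E ζ ζr s)
    {τ : Ω ≃ₐ[L] Ω} {n : ℕ} {c : Coch ℓ k F L Ω g 1}
    {e e' : F → ℤ} (he : HasExpT hζ E s τ n c e)
    (h : ∀ β ∈ RR F g E, (ℓ : ℤ) ∣ e' β - e β) : HasExpT hζ E s τ n c e' := by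
  obtain ⟨h₀, m, hM, hE, hh⟩ := he
  exact ⟨h₀, m, hM, hE.congr hF hD.glob h, hh⟩

lemma HasExpT.add (hF : CompatF F L Ω) (hD : TowDat (L := L) ℓ r g E ζ ζr s)
    {τ : Ω ≃ₐ[L] Ω} {n : ℕ} {c c' : Coch ℓ k F L Ω g 1}
    {e e' : F → ℤ} (he : HasExpT hζ E s τ n c e) (he' : HasExpT hζ E s τ n c' e') :
    HasExpT hζ E s τ n (c + c') (fun β => e β + e' β) := by
  obtain ⟨h, m, hM, hE, hh⟩ := he
  obtain ⟨h', m', hM', hE', hh'⟩ := he'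
  refine ⟨h + h', fun θ => m θ + m' θ, ⟨hM.toC1s.add hM'.toC1s, fun σ hσ => ?_⟩,
    hE.add hF hD.glob hE', fun σ hσ => ?_⟩
  · change Sup.zJ (zA F L Ω ζ) hζ (h σ + h' σ) = h σ + h' σ
    rw [map_add, hM.fixed σ hσ, hM'.fixed σ hσ]
  · change h σ + h' σ = _
    rw [pw_add]
    change _ = vJ (zA F L Ω ζ) hζ (pw τ n c 1 σ + pw τ n c' 1 σ) + _
    rw [vJ_add, tf02_cob_add, hh σ hσ, hh' σ hσ]
    abel

lemma HasExpT.neg (hF : CompatF F L Ω) (hD : TowDat (L := L) ℓ r g E ζ ζr s)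
    {τ : Ω ≃ₐ[L] Ω} {n : ℕ} {c : Coch ℓ k F L Ω g 1}
    {e : F → ℤ} (he : HasExpT hζ E s τ n c e) :
    HasExpT hζ E s τ n (-c) (fun β => -e β) := by
  obtain ⟨h, m, hM, hE, hh⟩ := he
  refine ⟨-h, fun θ => -m θ, ⟨hM.toC1s.neg, fun σ hσ => ?_⟩, hE.neg hF hD.glob, fun σ hσ => ?_⟩
  · change Sup.zJ (zA F L Ω ζ) hζ (-h σ) = -h σ
    rw [map_neg, hM.fixed σ hσ]
  · change -h σ = _
    rw [pw_neg]
    change _ = vJ (zA F L Ω ζ) hζ (-(pw τ n c 1 σ)) + _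
    rw [tf02_vJ_neg, tf02_cob_neg, hh σ hσ]
    abel

lemma HasExpT.of_tts (hF : CompatF F L Ω) (hD : TowDat (L := L) ℓ r g E ζ ζr s)
    {τ : Ω ≃ₐ[L] Ω} {n : ℕ} {c c' : Coch ℓ k F L Ω g 1}
    {e : F → ℤ} (he : HasExpT hζ E s τ n c e) (h : TTs (Nst s) (c' - c)) :
    HasExpT hζ E s τ n c' e := by
  obtain ⟨h₀, m, hM, hE, hh⟩ := he
  obtain ⟨m₁, hm₁⟩ := vJ_trivial (hζ := hζ) hD (TTs.pw hD τ n h)
  refine ⟨h₀, fun θ => m θ - m₁ θ, hM, hE, fun σ hσ => ?_⟩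
  have h1 : pw τ n c' = pw τ n c + pw τ n (c' - c) := by
    rw [← pw_add]
    congr 1
    abel
  rw [h1]
  change _ = vJ (zA F L Ω ζ) hζ (pw τ n c 1 σ + pw τ n (c' - c) 1 σ) + _
  rw [vJ_add, hm₁ σ hσ, tf02_cob_sub, hh σ hσ]
  abel

lemma HasExpT.zero (hF : CompatF F L Ω) (hD : TowDat (L := L) ℓ r g E ζ ζr s)
    (τ : Ω ≃ₐ[L] Ω) (n : ℕ) : HasExpT hζ E s τ n (0 : Coch ℓ k F L Ω g 1) (fun _ => 0) := by
  refine ⟨0, fun _ => 0, ⟨C1s.zero', fun σ _ => ?_⟩, tf02_hasExp_zero hF hD, fun σ _ => ?_⟩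
  · exact map_zero _
  · have h0 : pw τ n (0 : Coch ℓ k F L Ω g 1) = 0 := by
      have h1 := pw_add τ n (0 : Coch ℓ k F L Ω g 1) 0
      rw [add_zero] at h1
      exact left_eq_add.1 h1
    rw [h0, tf02_cob_zero]
    have h2 : vJ (zA F L Ω ζ) hζ (0 : JacOver ℓ (curvePoly k F L g 1) Ω) = 0 :=
      (AddMonoidHom.mk' (vJ (zA F L Ω ζ) hζ) (vJ_add (zA F L Ω ζ) hζ)).map_zero
    exact (add_zero _).symm.trans (congrArg (· + 0) h2.symm)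

lemma HasExpT.zsmul (hF : CompatF F L Ω) (hD : TowDat (L := L) ℓ r g E ζ ζr s)
    {τ : Ω ≃ₐ[L] Ω} {n : ℕ} {c : Coch ℓ k F L Ω g 1}
    {e : F → ℤ} (he : HasExpT hζ E s τ n c e) (m : ℤ) :
    HasExpT hζ E s τ n (m • c) (fun β => m * e β) := by
  induction m using Int.induction_on with
  | zero =>
    have h := HasExpT.zero (hζ := hζ) (s := s) hF hD τ n
    rw [zero_smul]
    refine h.congr hF hD fun β _ => ?_
    simp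
  | succ m ih =>
    have h := ih.add hF hD he
    rw [add_smul, one_smul]
    refine h.congr hF hD fun β _ => ?_
    have : ((m : ℤ) + 1) * e β - ((m : ℤ) * e β + e β) = 0 := by ring
    rw [this]
    exact dvd_zero _
  | pred m ih =>
    have h := ih.add hF hD (he.neg hF hD)
    rw [sub_smul, one_smul, sub_eq_add_neg]
    refine h.congr hF hD fun β _ => ?_
    have : (-(m : ℤ) - 1) * e β - (-(m : ℤ) * e β + -e β) = 0 := by ring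
    rw [this]
    exact dvd_zero _

lemma tf02_pw_zC (τ : Ω ≃ₐ[L] Ω) (n : ℕ) (c : Coch ℓ k F L Ω g 1) :
    pw τ n (Sup.zC ζ hζ c) = Sup.zC ζ hζ (pw τ n c) := by
  induction n with
  | zero => rfl
  | succ n ih => rw [pw_succ, pw_succ, ih, Sup.act_zC, map_sub]

lemma tf02_pw_tcs (hD : TowDat (L := L) ℓ r g E ζ ζr s) (τ : Ω ≃ₐ[L] Ω) (n : ℕ)
    {c : Coch ℓ k F L Ω g 1} (hc : TCs (Nst s) c) : TCs (Nst s) (pw τ n c) := by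
  induction n with
  | zero => exact hc
  | succ n ih =>
    rw [pw_succ]
    exact ih.sub (ih.act hD.nrm _)

lemma HasExpT.zC (hF : CompatF F L Ω) (hD : TowDat (L := L) ℓ r g E ζ ζr s)
    {τ : Ω ≃ₐ[L] Ω} {n : ℕ} {c : Coch ℓ k F L Ω g 1} (hc : TCs (Nst s) c)
    {e : F → ℤ} (he : HasExpT hζ E s τ n c e) :
    HasExpT hζ E s τ n (Sup.zC ζ hζ c) e := by
  obtain ⟨h, m, hM, hE, hh⟩ := he
  refine ⟨h, m, hM, hE, fun σ hσ => ?_⟩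
  rw [tf02_pw_zC]
  have h1 := (tf02_pw_tcs hD τ n hc).pow_smul 1 hσ
  rw [pow_one] at h1
  have h2 := vJ_sub_zJ (zA F L Ω ζ) (tf02_prim hD) (pw τ n c 1 σ)
  have h3 := vJ_zJ (zA F L Ω ζ) hζ (pw τ n c 1 σ)
  change h σ = vJ (zA F L Ω ζ) hζ (Sup.zJ (zA F L Ω ζ) hζ (pw τ n c 1 σ)) + _
  rw [h3, hh σ hσ]
  rw [h1, sub_eq_zero] at h2
  rw [← h2]

/-- The exponents of `c - τ c` are zero. -/
lemma IsW.exp_sub_act (hF : CompatF F L Ω) (hD : TowDat (L := L) ℓ r g E ζ ζr s)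
    {τ : Ω ≃ₐ[L] Ω} (hτ : τ s = xA F L Ω ζr * s) {i b : ℕ} (hb : ¬ ℓ ∣ b)
    {c : Coch ℓ k F L Ω g 1} (hc : IsW hζ s τ i b c) :
    HasExpT hζ E s τ (ℓ ^ i - 1) (c - Sup.act (galA k F τ) c) (fun _ => 0) := by
  obtain ⟨m, hm⟩ := IsW.pw_vJ_zero hD hτ hb hc
  have hpos : 0 < ℓ ^ i := pow_pos hG.prime.pos i
  refine ⟨0, fun θ => -m θ, ⟨C1s.zero', fun σ _ => map_zero _⟩, tf02_hasExp_zero hF hD,
    fun σ hσ => ?_⟩
  rw [← pw_succ', Nat.sub_add_cancel hpos, hm σ hσ, tf02_cob_neg]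
  exact (add_neg_cancel _).symm

lemma HasExpT.act (hF : CompatF F L Ω) (hD : TowDat (L := L) ℓ r g E ζ ζr s)
    {τ : Ω ≃ₐ[L] Ω} (hτ : τ s = xA F L Ω ζr * s) {i b : ℕ} (hb : ¬ ℓ ∣ b)
    {c : Coch ℓ k F L Ω g 1} (hc : IsW hζ s τ i b c) {e : F → ℤ}
    (he : HasExpT hζ E s τ (ℓ ^ i - 1) c e) (γ : AutO k F L Ω) {q : ℕ}
    (hqo : QOk ℓ q) (hq : resF γ ζr = ζr ^ q) (hγ : ∀ β ∈ RR F g E, resF γ β = β) :
    HasExpT hζ E s τ (ℓ ^ i - 1) (Sup.act γ c) e := by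
  obtain ⟨h, m, hM, hE, hh⟩ := he
  have hpos : 0 < ℓ ^ i := pow_pos hG.prime.pos i
  obtain ⟨s', hs'⟩ := pw_act_rel (hζ := hζ) hD hτ hb (ℓ ^ i - 1) γ hqo hq
  obtain ⟨w, hw, hwT⟩ := hs' c hc
  have hW' : IsW hζ s τ i b (s' • Sup.act γ c + (w - Sup.act (galA k F τ) w)) :=
    ((hc.act hD hτ γ hqo hq).zsmul hD s').add hD (hw.sub hD (hw.actτ hD hτ))
  set w' := s' • Sup.act γ c + (w - Sup.act (galA k F τ) w) with hw'
  rw [Nat.sub_add_cancel hpos] at hwT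
  obtain ⟨m₃, hm₃⟩ := IsW.pw_vJ_zero hD hτ hb hW'
  obtain ⟨m₄, hm₄⟩ := vJ_trivial (hζ := hζ) hD hwT
  have hNt : Nrm k F (⊤ : Subgroup (Ω ≃ₐ[L] Ω)) := fun _ _ _ => Subgroup.mem_top _
  refine ⟨act1 γ h, fun θ => m ((((toSym g 1 γ)⁻¹ : Sym (cOver k F L Ω g 1)) : Ω ≃+* Ω) θ)
      + (m₃ θ + m₄ θ), ⟨hM.toC1s.act1 hNt γ, fun σ _ => ?_⟩, hE.act hF hD.glob γ hγ,
      fun σ hσ => ?_⟩
  · have h1 : (fun σ => Sup.zJ (zA F L Ω ζ) hζ (h σ)) = h := by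
      funext σ
      exact hM.fixed σ (Subgroup.mem_top σ)
    have h2 := act1_zJ γ ζ hζ h
    rw [h1] at h2
    exact (congrFun h2 σ).symm
  · have h1 : act1 γ h σ = act1 γ ((fun σ => vJ (zA F L Ω ζ) hζ (pw τ (ℓ ^ i - 1) c 1 σ))
        + cob (ram m)) σ := act1_congr hD.nrm γ hh σ hσ
    have h2 : vJ (zA F L Ω ζ) hζ (Sup.act γ (pw τ (ℓ ^ i - 1) c) 1 σ) =
        vJ (zA F L Ω ζ) hζ (pw τ (ℓ ^ i - 1) (Sup.act γ c) 1 σ) + cob (ram m₃) σ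
          + cob (ram m₄) σ := by
      have h3 : Sup.act γ (pw τ (ℓ ^ i - 1) c) = pw τ (ℓ ^ i - 1) (Sup.act γ c) + pw τ (ℓ ^ i) w'
          + (Sup.act γ (pw τ (ℓ ^ i - 1) c) - (pw τ (ℓ ^ i - 1) (Sup.act γ c)
            + pw τ (ℓ ^ i) w')) := by abel
      rw [h3]
      change vJ (zA F L Ω ζ) hζ (pw τ (ℓ ^ i - 1) (Sup.act γ c) 1 σ + pw τ (ℓ ^ i) w' 1 σ
        + (Sup.act γ (pw τ (ℓ ^ i - 1) c) - (pw τ (ℓ ^ i - 1) (Sup.act γ c)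
            + pw τ (ℓ ^ i) w')) 1 σ) = _
      rw [vJ_add, vJ_add, hm₃ σ hσ, hm₄ σ hσ]
    rw [h1, act1_add, act1_vJ, act1_cob, tf02_cob_add, tf02_cob_add]
    have h4 : symJ (toSym g 1 γ) (ram m : JacOver ℓ (curvePoly k F L g 1) Ω) =
        ram fun θ => m ((((toSym g 1 γ)⁻¹ : Sym (cOver k F L Ω g 1)) : Ω ≃+* Ω) θ) :=
      symJ_ram _ _
    rw [h4]
    change vJ (zA F L Ω ζ) hζ (Sup.act γ (pw τ (ℓ ^ i - 1) c) 1 σ) + _ = _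
    rw [h2]
    abel

/-- If the exponents of `c` are zero then `c` is divisible by `1 - τ`. -/
theorem IsW.div_of_exp (hF : CompatF F L Ω) (hD : TowDat (L := L) ℓ r g E ζ ζr s)
    {τ : Ω ≃ₐ[L] Ω} (hτ : τ s = xA F L Ω ζr * s) {i b : ℕ} (hb : ¬ ℓ ∣ b)
    {c : Coch ℓ k F L Ω g 1} (hc : IsW hζ s τ i b c) {e : F → ℤ}
    (he : HasExpT hζ E s τ (ℓ ^ i - 1) c e) (hd : ∀ β ∈ RR F g E, (ℓ : ℤ) ∣ e β) :
    (∃ y : Coch ℓ k F L Ω g 1, IsW hζ s τ i b y ∧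
      TTs (Nst s) (Sup.pw τ (ℓ ^ i - 1) c - (y - Sup.zC ζ hζ y))) ∧
    ∃ c₁ : Coch ℓ k F L Ω g 1, IsW hζ s τ i b c₁ ∧
      TTs (Nst s) (c - (c₁ - Sup.act (galA k F τ) c₁)) := by
  obtain ⟨h, m, hM, hE, hh⟩ := he
  obtain ⟨m₁, hm₁⟩ := hE.cob_of_dvd hF hD.glob hd
  have hPW : IsW hζ s τ i b (Sup.pw τ (ℓ ^ i - 1) c) := hc.pw hD hτ _
  obtain ⟨y, hyW, hyT⟩ := exists_divisionN (hζ := hζ) hD.glob (tf02_prim hD) hD.trs hD.nrm hPW.1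
    (fun θ => m₁ θ - m θ) (fun σ hσ => by
      rw [tf02_cob_sub, ← hm₁ σ, hh σ hσ]
      abel)
  have hy : IsW hζ s τ i b y := by
    refine IsW.sat hD hyW ?_
    have h1 : y - Sup.zC ζ hζ y = Sup.pw τ (ℓ ^ i - 1) c
        - (Sup.pw τ (ℓ ^ i - 1) c - (y - Sup.zC ζ hζ y)) := by abel
    rw [h1]
    exact hPW.sub hD (hyT.isW hD)
  exact ⟨⟨y, hy, hyT⟩, hc.div hD hτ hb ⟨y, hy, hyT⟩⟩

end Pool.Agent.Lib.MP_89bcae_ag.Sup

end
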