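import Mathlib
import Pool.Agent.Lib.MP_89bcae_ag.Q.K042
import Pool.Agent.Lib.MP_89bcae_ag.Q.K046
import Pool.Agent.Lib.MP_89bcae_ag.Q.K054

section

/-!
The commutator formula.
-/

open Polynomial IsDedekindDomain

open scoped Classical

set_option linter.unusedSectionVars false

namespace Pool.Agent.Lib.MP_89bcae_ag.Sup

universe u

variable {k F L Ω : Type u} [Field k] [Field F] [Algebra k F] [Field L] [Algebra F[X] L]
  [Field Ω] [Algebra L Ω] [IsAlgClosure k F] [IsFractionRing F[X] L] [IsAlgClosure L Ω]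
  {ℓ : ℕ} {g D : k[X]} [hG : IsGood ℓ (cOver k F L Ω g D)] {N : Subgroup (Ω ≃ₐ[L] Ω)}

lemma ta09_act1_zsmul (γ : AutO k F L Ω) (b : ℤ) (x : Ch ℓ k F L Ω g D) :
    act1 γ (b • x) = b • act1 γ x := by
  funext σ
  change symJ (toSym g D γ) (b • x (conjG γ⁻¹ σ)) = b • symJ (toSym g D γ) (x (conjG γ⁻¹ σ))
  exact map_zsmul _ _ _

lemma ta09_cob_zsmul (b : ℤ) (A : JacOver ℓ (curvePoly k F L g D) Ω) :
    cob (b • A) = b • cob A := by
  funext σ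
  change symJ (toSym g D (galA k F σ)) (b • A) - b • A =
    b • (symJ (toSym g D (galA k F σ)) A - A)
  rw [map_zsmul, smul_sub]

lemma ta09_fix_pow {τ : Ω ≃ₐ[L] Ω} {B : JacOver ℓ (curvePoly k F L g D) Ω}
    (fB : symJ (toSym g D (galA k F τ)) B = B) (m : ℕ) :
    symJ (toSym g D (galA k F (τ ^ m))) B = B := by
  induction m with
  | zero =>
    rw [pow_zero, map_one, map_one, symJ_one]
  | succ m ih =>
    rw [pow_succ, map_mul, map_mul, symJ_mul, fB, ih]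

/-- powers of `τ` on a cocycle of the whole group -/
lemma ta09_pow_top {h : Ch ℓ k F L Ω g D} (hh : C1s ⊤ h) {τ : Ω ≃ₐ[L] Ω}
    (fh : symJ (toSym g D (galA k F τ)) (h τ) = h τ) (m : ℕ) :
    act1 (galA k F (τ ^ m)) h = h + cob (m • h τ) := by
  have h1 : act1 (galA k F τ) h = h + cob (h τ) := by
    funext σ
    exact act1_galA_sub hh (Subgroup.mem_top τ) σ (Subgroup.mem_top σ)
  induction m with
  | zero =>
    rw [pow_zero, map_one, act1_one, zero_smul, cob_zero, add_zero]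
  | succ m ih =>
    rw [pow_succ', map_mul, act1_mul, ih, act1_add, h1, act1_cob, map_nsmul, fh, add_assoc,
      ← cob_add, succ_nsmul']

/-- powers of `τ` on `x` -/
lemma ta09_pow_x (hN : Nrm k F N) {x h : Ch ℓ k F L Ω g D} (hh : C1s ⊤ h) (b : ℤ)
    {τ : Ω ≃ₐ[L] Ω} {A : JacOver ℓ (curvePoly k F L g D) Ω}
    (h1 : ∀ σ ∈ N, act1 (galA k F τ) x σ = x σ - b • h σ + cob A σ)
    (fA : symJ (toSym g D (galA k F τ)) A = A)
    (fh : symJ (toSym g D (galA k F τ)) (h τ) = h τ) (m : ℕ) :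
    ∀ σ ∈ N, act1 (galA k F (τ ^ m)) x σ =
      x σ - b • (m • h σ) + cob (m • A - b • (m.choose 2 • h τ)) σ := by
  have h2 : act1 (galA k F τ) h = h + cob (h τ) := by
    funext σ
    exact act1_galA_sub hh (Subgroup.mem_top τ) σ (Subgroup.mem_top σ)
  induction m with
  | zero =>
    intro σ hσ
    rw [pow_zero, map_one, act1_one, zero_smul, zero_smul, Nat.choose_zero_succ, zero_smul,
      smul_zero, sub_zero, sub_zero, cob_zero, Pi.zero_apply, add_zero]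
  | succ m ih =>
    intro σ hσ
    rw [pow_succ', map_mul, act1_mul]
    rw [act1_congr hN (galA k F τ)
      (y := x - b • (m • h) + cob (m • A - b • (m.choose 2 • h τ))) ih σ hσ]
    rw [act1_add, act1_sub, ta09_act1_zsmul, act1_nsmul, act1_cob, h2, map_sub, map_nsmul,
      map_zsmul, map_nsmul, fA, fh]
    rw [Pi.add_apply, Pi.sub_apply, h1 σ hσ, Pi.smul_apply, Pi.smul_apply, Pi.add_apply]
    have e1 : cob ((m + 1) • A - b • ((m + 1).choose 2 • h τ)) σ =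
        cob (m • A - b • (m.choose 2 • h τ)) σ + cob A σ - b • (m • cob (h τ) σ) := by
      have e2 : (m + 1) • A - b • ((m + 1).choose 2 • h τ) =
          (m • A - b • (m.choose 2 • h τ)) + A - b • (m • h τ) := by
        rw [Nat.choose_succ_succ' m 1, Nat.choose_one_right, succ_nsmul, add_smul, smul_add]
        abel
      rw [e2, cob_sub, cob_add, ta09_cob_zsmul, cob_nsmul]
      rfl
    rw [e1, succ_nsmul, smul_add, smul_add, smul_add]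
    abel

theorem commutator_formula {ζ : k} (hζ : IsPrimitiveRoot (zA F L Ω ζ) ℓ)
    (hT : Trs (cOver k F L Ω g D) N) (hN : Nrm k F N) (n : ℕ) {x h y : Ch ℓ k F L Ω g D}
    (hx : C1s N x) (hh : C1s ⊤ h) (hy : C1s ⊤ y) (b : ℤ) (q : ℕ) {τ g₀ : Ω ≃ₐ[L] Ω}
    {γ : AutO k F L Ω} {A B C : JacOver ℓ (curvePoly k F L g D) Ω}
    (hA : ℓ ^ n • A = 0) (hB : ℓ ^ n • B = 0) (hC : ℓ ^ n • C = 0)
    (hyn : ℓ ^ n • y τ = 0)
    (h1 : ∀ σ ∈ N, act1 (galA k F τ) x σ = x σ - b • h σ + cob A σ)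
    (h2 : ∀ σ ∈ N, act1 γ x σ = x σ + y σ + cob B σ)
    (h3 : ∀ σ, act1 γ h σ = h σ + cob C σ)
    (hg₀ : g₀ ∈ N) (hc : γ * galA k F τ = galA k F g₀ * galA k F (τ ^ q) * γ)
    (qh : ∀ σ, q • h σ = h σ) (qA : q • A = A) (qy : q • y τ = y τ)
    (q2 : q.choose 2 • h τ = 0)
    (hx0 : x g₀ = 0) (hh0 : h g₀ = 0) (hy0 : y g₀ = 0)
    (fA : symJ (toSym g D (galA k F τ)) A = A)
    (fB : symJ (toSym g D (galA k F τ)) B = B)
    (fh : symJ (toSym g D (galA k F τ)) (h τ) = h τ)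
    (fy : symJ (toSym g D (galA k F τ)) (y τ) = y τ)
    (gA : symJ (toSym g D (galA k F g₀)) A = A)
    (gB : symJ (toSym g D (galA k F g₀)) B = B)
    (gy : symJ (toSym g D (galA k F g₀)) (y τ) = y τ) :
    y τ = -(b • C) + (symJ (toSym g D γ) A - A) := by
  -- the action of `τ ^ q`
  have hxq : ∀ σ ∈ N, act1 (galA k F (τ ^ q)) x σ = x σ - b • h σ + cob A σ := by
    intro σ hσ
    rw [ta09_pow_x hN hh b h1 fA fh q σ hσ, qh, qA, q2, smul_zero, sub_zero]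
  have hyq : act1 (galA k F (τ ^ q)) y = y + cob (y τ) := by
    rw [ta09_pow_top hy fy q, qy]
  have hgx : ∀ σ ∈ N, act1 (galA k F g₀) x σ = x σ := by
    intro σ hσ
    rw [act1_galA_sub hx hg₀ σ hσ, hx0, cob_zero, Pi.zero_apply, add_zero]
  have hgh : act1 (galA k F g₀) h = h := by
    funext σ
    rw [act1_galA_sub hh (Subgroup.mem_top g₀) σ (Subgroup.mem_top σ), hh0, cob_zero,
      Pi.zero_apply, add_zero]
  have hgy : act1 (galA k F g₀) y = y := by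
    funext σ
    rw [act1_galA_sub hy (Subgroup.mem_top g₀) σ (Subgroup.mem_top σ), hy0, cob_zero,
      Pi.zero_apply, add_zero]
  have h3' : act1 γ h = h + cob C := by
    funext σ
    exact h3 σ
  -- first computation
  have k1 : ∀ σ ∈ N, act1 (γ * galA k F τ) x σ =
      (x σ + y σ + cob B σ) - b • (h σ + cob C σ) + cob (symJ (toSym g D γ) A) σ := by
    intro σ hσ
    rw [act1_mul, act1_congr hN γ (y := x - b • h + cob A) h1 σ hσ, act1_add, act1_sub,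
      ta09_act1_zsmul, act1_cob, h3', Pi.add_apply, Pi.sub_apply, h2 σ hσ, Pi.smul_apply,
      Pi.add_apply]
  -- second computation
  have k2 : ∀ σ ∈ N, act1 (galA k F (τ ^ q)) (act1 γ x) σ =
      (x - b • h + cob A + (y + cob (y τ)) + cob B) σ := by
    intro σ hσ
    rw [act1_congr hN (galA k F (τ ^ q)) (y := x + y + cob B) h2 σ hσ, act1_add, act1_add,
      hyq, act1_cob, ta09_fix_pow fB, Pi.add_apply, Pi.add_apply, hxq σ hσ]
    rfl
  have k3 : ∀ σ ∈ N, act1 (galA k F g₀ * galA k F (τ ^ q) * γ) x σ =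
      x σ - b • h σ + cob A σ + (y σ + cob (y τ) σ) + cob B σ := by
    intro σ hσ
    rw [mul_assoc, act1_mul, act1_mul, act1_congr hN (galA k F g₀) k2 σ hσ, act1_add, act1_add,
      act1_add, act1_sub, act1_add, ta09_act1_zsmul, hgh, hgy, act1_cob, act1_cob, act1_cob,
      gA, gB, gy]
    simp only [Pi.add_apply, Pi.sub_apply, Pi.smul_apply]
    rw [hgx σ hσ]
  have k4 : ∀ σ ∈ N, cob (y τ) σ = cob (-(b • C) + (symJ (toSym g D γ) A - A)) σ := by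
    intro σ hσ
    have e := k1 σ hσ
    rw [hc, k3 σ hσ, smul_add] at e
    rw [cob_add, cob_neg, cob_sub, ta09_cob_zsmul]
    simp only [Pi.add_apply, Pi.sub_apply, Pi.smul_apply, Pi.neg_apply]
    have e2 : cob (y τ) σ = (x σ - b • h σ + cob A σ + (y σ + cob (y τ) σ) + cob B σ)
        - (x σ - b • h σ + cob A σ + y σ + cob B σ) := by abel
    rw [e2, e]
    abel
  refine cob_injN hζ hT n hyn ?_ k4
  rw [smul_add, smul_neg, smul_sub, smul_comm (ℓ ^ n) b C, hC, smul_zero, ← map_nsmul, hA,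
    map_zero, neg_zero, sub_zero, add_zero]

end Pool.Agent.Lib.MP_89bcae_ag.Sup

end

section

open Polynomial IsDedekindDomain

open scoped Classical

set_option linter.unusedSectionVars false

namespace Pool.Agent.Lib.MP_89bcae_ag.Sup

universe u

variable {k F L Ω : Type u} [Field k] [Field F] [Algebra k F] [Field L] [Algebra F[X] L]
  [Field Ω] [Algebra L Ω] [IsAlgClosure k F] [IsFractionRing F[X] L] [IsAlgClosure L Ω]
  [Algebra F Ω] {ℓ : ℕ} {g E : k[X]} [hG : IsGood ℓ (cOver k F L Ω g 1)] {ζ : k}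
  {hζ : (zA F L Ω ζ) ^ ℓ = 1} {r : ℕ} {ζr : F} {s : Ω}

/-- `σ'` is the restriction to `Ω` of an automorphism over the completion at `t = a`, for some choice of the
algebraic closure and of the embedding. -/
def IsLoc (F L : Type u) {Ω : Type u} [Field F] [Field L] [Algebra F[X] L]
    [IsFractionRing F[X] L] [Field Ω] [Algebra L Ω] (a : F) (σ' : Ω ≃ₐ[L] Ω) : Prop :=
  ∃ (M : Type u) (_ : Field M) (_ : Algebra ((plc a).adicCompletion L) M)
      (_ : IsAlgClosure ((plc a).adicCompletion L) M) (_ : Algebra L M)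
      (_ : IsScalarTower L ((plc a).adicCompletion L) M) (_ : Algebra F M)
      (v : AbsoluteValue M ℝ) (j : Ω →ₐ[L] M) (σ : M ≃ₐ[(plc a).adicCompletion L] M),
      LocDat F L a M v ∧ ∀ x, j (σ' x) = σ (j x)

theorem TowDat.fixt (hD : TowDat (L := L) ℓ r g E ζ ζr s) {a : F}
    (ha : aeval a E = 0) {σ' : Ω ≃ₐ[L] Ω} (hσ : IsLoc F L a σ') (n : ℕ)
    (Q : JacOver ℓ (curvePoly k F L g 1) Ω) (hQ : ℓ ^ n • Q = 0) :
    symJ (toSym g 1 (galA k F σ')) Q = Q := by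
  obtain ⟨M, _, _, _, _, _, _, v, j, σ, hd, hj⟩ := hσ
  exact hd.fix_torsion hD.glob ha j hj n Q hQ

theorem TowDat.vanish (hD : TowDat (L := L) ℓ r g E ζ ζr s) {a : F}
    (ha : aeval a E = 0) {c : Coch ℓ k F L Ω g 1} (hc : TCs (Nst s) c) (hLT : LTs (Nst s) c)
    (n : ℕ) {σ' : Ω ≃ₐ[L] Ω} (hσ : IsLoc F L a σ')
    (hN : σ' ∈ (Nst s : Subgroup (Ω ≃ₐ[L] Ω))) : c n σ' = 0 := by
  obtain ⟨M, _, _, _, _, _, _, v, j, σ, hd, hj⟩ := hσ
  exact LTs.vanish hd hD.glob ha hD.prim j (hD.ramAt hd ha j) hc hLT n hj hN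

end Pool.Agent.Lib.MP_89bcae_ag.Sup

end

section

open Polynomial IsDedekindDomain

open scoped Classical

set_option linter.unusedSectionVars false

namespace Pool.Agent.Lib.MP_89bcae_ag.Sup

universe u

variable {k F L Ω : Type u} [Field k] [Field F] [Algebra k F] [Field L] [Algebra F[X] L]
  [Field Ω] [Algebra L Ω] [IsAlgClosure k F] [IsFractionRing F[X] L] [IsAlgClosure L Ω]
  [Algebra F Ω] {ℓ : ℕ} {g E : k[X]} [hG : IsGood ℓ (cOver k F L Ω g 1)] {ζ : k}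
  {hζ : (zA F L Ω ζ) ^ ℓ = 1} {r : ℕ} {ζr : F} {s : Ω}

/-- The class of `c` is fixed by all of `Gal(Ω/L)`. -/
lemma tc14_inv (hD : TowDat (L := L) ℓ r g E ζ ζr s) {c : Coch ℓ k F L Ω g 1}
    (hc : TCs (Nst s) c) {τ₀ : Ω ≃ₐ[L] Ω} (hτ₀ : τ₀ s = xA F L Ω ζr * s)
    (hinv : TTs (Nst s) (act (galA k F τ₀) c - c)) (γ : Ω ≃ₐ[L] Ω) :
    TTs (Nst s) (act (galA k F γ) c - c) := by
  obtain ⟨i, η, hη, rfl⟩ := hD.exists_mul hτ₀ γ
  have hpow : ∀ i : ℕ, TTs (Nst s) (act (galA k F (τ₀ ^ i)) c - c) := by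
    intro i
    induction i with
    | zero =>
      rw [pow_zero, map_one, act_one, sub_self]
      exact TTs.zero'
    | succ i ih =>
      have h1 : act (galA k F (τ₀ ^ (i + 1))) c - c =
          act (galA k F τ₀) (act (galA k F (τ₀ ^ i)) c - c) + (act (galA k F τ₀) c - c) := by
        rw [pow_succ', map_mul, act_mul, act_sub]
        abel
      rw [h1]
      exact (ih.act hD.nrm _).add hinv
  have h1 : act (galA k F (τ₀ ^ i * η)) c - c =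
      act (galA k F (τ₀ ^ i)) (act (galA k F η) c - c) + (act (galA k F (τ₀ ^ i)) c - c) := by
    rw [map_mul, act_mul, act_sub]
    abel
  rw [h1]
  exact ((act_galA_subs hD.nrm hc hη).act hD.nrm _).add (hpow i)

/-- Powers of an automorphism which fixes the value of the cocycle. -/
lemma tc14_pow {x : Ch ℓ k F L Ω g 1} (hx : C1s ⊤ x) {σ' : Ω ≃ₐ[L] Ω}
    (hfix : symJ (toSym g 1 (galA k F σ')) (x σ') = x σ') (i : ℕ) :
    x (σ' ^ i) = i • x σ' := by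
  induction i with
  | zero => rw [pow_zero, hx.map_one, zero_smul]
  | succ i ih =>
    rw [pow_succ', hx.cocycle σ' trivial (σ' ^ i) trivial, ih, map_nsmul, hfix, succ_nsmul']

lemma tc14_smul {N : Subgroup (Ω ≃ₐ[L] Ω)} {c : Coch ℓ k F L Ω g 1} (hc : TCs N c) (n : ℕ)
    {σ : Ω ≃ₐ[L] Ω} (hσ : σ ∈ N) (r : ℕ) : ℓ ^ r • c (n + r) σ = c n σ := by
  induction r with
  | zero => rw [pow_zero, one_smul, add_zero]
  | succ r ih =>
    rw [pow_succ, mul_smul, ← add_assoc, hc.smul (n + r) σ hσ, ih]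

/-- The fibre of `g` over a root of `E` has `deg g` elements. -/
lemma tc14_card (H : GlobHyp ℓ g E ζ) {a : F} (ha : aeval a E = 0) :
    ((RR F g E).filter (fun β => aeval β g = a)).card = g.natDegree := by
  have : IsAlgClosed F := IsAlgClosure.isAlgClosed k
  set P : F[X] := g.map (algebraMap k F) - C a with hP
  have hm : g.natDegree ≠ 0 := by
    intro h0
    have h1 := H.cop
    rw [h0, Nat.coprime_zero_left] at h1
    exact H.prime.ne_one h1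
  have hdiv : P ∣ (E.comp g).map (algebraMap k F) := by
    have h1 : (X - C a : F[X]) ∣ E.map (algebraMap k F) := by
      rw [dvd_iff_isRoot, IsRoot.def, eval_map_algebraMap]
      exact ha
    obtain ⟨Q, hQ⟩ := h1
    rw [Polynomial.map_comp, hQ, mul_comp, sub_comp, X_comp, C_comp]
    exact Dvd.intro _ rfl
  have hsep : P.Separable := (H.sep.map (f := algebraMap k F)).of_dvd hdiv
  have hroots : (RR F g E).filter (fun β => aeval β g = a) = P.roots.toFinset := by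
    ext β
    rw [Finset.mem_filter, mem_RR H, Multiset.mem_toFinset, mem_roots hsep.ne_zero, IsRoot.def, hP,
      eval_sub, eval_C, eval_map_algebraMap, sub_eq_zero]
    constructor
    · exact fun h => h.2
    · intro h
      exact ⟨by rw [h]; exact ha, h⟩
  rw [hroots, Multiset.toFinset_card_of_nodup (nodup_roots hsep), IsAlgClosed.card_roots_eq_natDegree,
    hP, natDegree_sub_C, natDegree_map]

/-- `E(t)` over an extension `A` of `L`. -/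
lemma tc14_aeval {A : Type u} [Field A] [Algebra L A] [Algebra F A] (hF : CompatF F L A)
    (p : k[X]) : aeval (tA F L A) (p.map (algebraMap k F)) = base k F L A p := by
  have h1 : ((aeval (tA F L A) : F[X] →ₐ[F] A) : F[X] →+* A) =
      (algebraMap L A).comp (algebraMap F[X] L) := by
    apply Polynomial.ringHom_ext
    · intro c
      rw [AlgHom.coe_toRingHom, aeval_C]
      exact hF c
    · rw [AlgHom.coe_toRingHom, aeval_X]
      rfl
  exact congrArg (fun f : F[X] →+* A => f (p.map (algebraMap k F))) h1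

section

variable {a : F} {M : Type u} [Field M] [Algebra ((plc a).adicCompletion L) M]
  [IsAlgClosure ((plc a).adicCompletion L) M] [Algebra L M]
  [IsScalarTower L ((plc a).adicCompletion L) M] [Algebra F M] {v : AbsoluteValue M ℝ}

/-- A tame automorphism with `σ' s = ζr s` multiplies the `ℓ`-th root of `t - a` by `ζ`. -/
lemma tc14_tame (hD : TowDat (L := L) ℓ r g E ζ ζr s) (hd : LocDat F L a M v)
    (ha : aeval a E = 0) (j : Ω →ₐ[L] M) {σ : M ≃ₐ[(plc a).adicCompletion L] M}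
    {σ' : Ω ≃ₐ[L] Ω} (hσ : ∀ x, j (σ' x) = σ (j x)) (hσs : σ' s = xA F L Ω ζr * s)
    {ϖ : M} (hϖ : ϖ ^ ℓ = tA F L M - algebraMap F M a) :
    (∃ δ : M, BadCtx (g.map (algebraMap k F)) (E.map (algebraMap k F)) a (tA F L M) δ ℓ) ∧
      σ ϖ = zA F L M ζ * ϖ := by
  have H := hD.glob
  have hL : ∀ x : L, σ (algebraMap L M x) = algebraMap L M x := by
    intro x
    rw [IsScalarTower.algebraMap_apply L ((plc a).adicCompletion L) M]
    exact σ.commutes _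
  have hcF : ∀ c : F, σ (algebraMap F M c) = algebraMap F M c := by
    intro c
    rw [hd.compat]
    exact hL _
  have ht : σ (tA F L M) = tA F L M := hL _
  set δ : M := j (s ^ ℓ ^ (r - 1)) with hδdef
  have hrr : r - 1 + 1 = r := by
    have := hD.rpos
    omega
  have hδ : δ ^ ℓ = aeval (tA F L M) (E.map (algebraMap k F)) := by
    rw [hδdef, ← map_pow, ← pow_mul, ← pow_succ, hrr, hD.hs, tc14_aeval hd.compat]
    exact j.commutes _
  have hB := H.badCtx hd.compat ha hδ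
  refine ⟨⟨δ, hB⟩, ?_⟩
  have hσδ : σ δ = zA F L M ζ * δ := by
    rw [hδdef, ← hσ, map_pow, hσs, mul_pow, ← xA_pow, hD.pow, ← zA_eq, map_mul, map_zA]
  have hta : tA F L M - algebraMap F M a ≠ 0 := sub_ne_zero.mpr hd.ctx.ne
  have hϖ0 : ϖ ≠ 0 := by
    intro h0
    rw [h0, zero_pow H.prime.ne_zero] at hϖ
    exact hta hϖ.symm
  have hδ0 : δ ≠ 0 := by
    intro h0
    apply hB.ne
    rw [← hδ, h0, zero_pow H.prime.ne_zero]
  set y : M := δ / ϖ with hy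
  have hyℓ : y ^ ℓ = aeval (tA F L M) (E.map (algebraMap k F)) /
      (tA F L M - algebraMap F M a) := by
    rw [hy, div_pow, hδ, hϖ]
  have hvy : v y = 1 := by
    have h1 : v y ^ ℓ = 1 := by
      rw [← map_pow, hyℓ, map_div₀, (hd.ctx.v_bad hB).1, div_self ((map_ne_zero v).mpr hta)]
    exact (pow_eq_one_iff_of_nonneg (v.nonneg y) H.prime.ne_zero).mp h1
  have hσE : σ (aeval (tA F L M) (E.map (algebraMap k F))) =
      aeval (tA F L M) (E.map (algebraMap k F)) := by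
    rw [tc14_aeval hd.compat]
    exact hL _
  have hyfix : σ (y ^ ℓ) = y ^ ℓ := by
    rw [hyℓ, map_div₀, hσE, map_sub, ht, hcF]
  have hζF : IsPrimitiveRoot (algebraMap k F ζ) ℓ :=
    H.zeta.map_of_injective (algebraMap k F).injective
  have h2 : (σ : M ≃+* M) y = y :=
    hd.ctx.root_of_unit_fixed H.prime.ne_zero hζF (σ : M ≃+* M) (fun x => hd.inv σ x) hcF hvy hyfix
  have h3 : σ y = y := h2
  have hy0 : y ≠ 0 := div_ne_zero hδ0 hϖ0
  have h4 : δ = y * ϖ := by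
    rw [hy, div_mul_cancel₀ _ hϖ0]
  rw [h4, map_mul, h3] at hσδ
  apply mul_left_cancel₀ hy0
  rw [hσδ]
  ring

end

theorem TowDat.exp_zero (hF : CompatF F L Ω) (hD : TowDat (L := L) ℓ r g E ζ ζr s)
    {c : Coch ℓ k F L Ω g 1} (hc : TCs (Nst s) c) (hcl : LTs (Nst s) c)
    {τ₀ : Ω ≃ₐ[L] Ω} (hτ₀ : τ₀ s = xA F L Ω ζr * s)
    (hinv : TTs (Nst s) (act (galA k F τ₀) c - c))
    {h : Ch ℓ k F L Ω g 1} (hh : MCs ζ hζ ⊤ h) {m : Ω → ℤ}
    (hm : ∀ σ ∈ (Nst s : Subgroup (Ω ≃ₐ[L] Ω)),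
      h σ = vJ (zA F L Ω ζ) hζ (c 1 σ) + cob (ram m) σ)
    {e : F → ℤ} (he : HasExpM ζ E h e) : ∀ β ∈ RR F g E, (ℓ : ℤ) ∣ e β := by
  have H := hD.glob
  have hcl' : IsAlgClosed F := IsAlgClosure.isAlgClosed k
  have hζ' : IsPrimitiveRoot (zA F L Ω ζ) ℓ := zA_primitive H
  have hz0 : vJ (zA F L Ω ζ) hζ (0 : JacOver ℓ (curvePoly k F L g 1) Ω) = 0 :=
    (AddMonoidHom.mk' (vJ (zA F L Ω ζ) hζ) (vJ_add (zA F L Ω ζ) hζ)).map_zero
  obtain ⟨c', hc', hcc'⟩ := exists_extT hζ' hD.trs hD.nrm (opn_nst s) hc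
    (fun γ => tc14_inv hD hc hτ₀ hinv γ)
  -- `h` is given by the extended cocycle
  have hramk : ∀ σ : Ω ≃ₐ[L] Ω, ℓ • (cob (ram m) : Ch ℓ k F L Ω g 1) σ = 0 := by
    intro σ
    have h1 : ℓ • (cob (ram m) : Ch ℓ k F L Ω g 1) = 0 := by
      rw [← cob_nsmul, smul_ram, cob_zero]
    exact congrFun h1 σ
  have heq : ∀ σ, h σ = ((fun σ => vJ (zA F L Ω ζ) hζ (c' 1 σ)) + cob (ram m) :
      Ch ℓ k F L Ω g 1) σ := by
    refine C1s.eq_of_eqOn hζ' hD.trs hD.nrm 1 hh.toC1s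
      (((hc'.c1 1).vJ ζ hζ).add (C1s.cob (ram m))) ?_ ?_ ?_
    · intro σ
      obtain ⟨q, hq⟩ := exists_ram_of_zJ_eq (zA F L Ω ζ) hζ' (h σ) (hh.fixed σ trivial)
      rw [hq, pow_one, smul_ram]
    · intro σ
      rw [pow_one, Pi.add_apply, smul_add, hramk, add_zero, ← vJ_smul,
        hc'.smul 0 σ trivial, hc'.zero σ trivial, hz0]
    · intro σ hσ
      rw [hm σ hσ, Pi.add_apply, hcc' 1 σ hσ]
  intro β hβ
  set a : F := aeval β g with ha'
  have ha : aeval a E = 0 := (mem_RR H).1 hβ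
  obtain ⟨M, i1, i2, i3, i4, i5, i6, v, j, hd⟩ := exists_locDat (L := L) (Ω := Ω) a
  obtain ⟨σ, σ', hσ, hσs⟩ := hD.exists_tame_loc hd ha j
  have hσi : ∀ (i : ℕ) (x : Ω), j ((σ' ^ i) x) = (σ ^ i) (j x) := by
    intro i
    induction i with
    | zero => intro x; rfl
    | succ i ih =>
      intro x
      rw [pow_succ', pow_succ', AlgEquiv.mul_apply, AlgEquiv.mul_apply, hσ, ih]
  have hloc : ∀ i : ℕ, IsLoc F L a (σ' ^ i) := fun i =>
    ⟨M, i1, i2, i3, i4, i5, i6, v, j, σ ^ i, hd, hσi i⟩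
  have hfixt : ∀ (n : ℕ) (Q : JacOver ℓ (curvePoly k F L g 1) Ω), ℓ ^ n • Q = 0 →
      symJ (toSym g 1 (galA k F σ')) Q = Q := by
    intro n Q hQ
    have h1 := hloc 1
    rw [pow_one] at h1
    exact hD.fixt ha h1 n Q hQ
  have hmem : σ' ^ ℓ ^ r ∈ (Nst s : Subgroup (Ω ≃ₐ[L] Ω)) := hD.pow_mem hσs
  have hc0 : c' 1 σ' = 0 := by
    have h1 := tc14_pow (hc'.c1 (1 + r)) (hfixt (1 + r) _ (hc'.pow_smul (1 + r) trivial)) (ℓ ^ r)
    have h2 : c' (1 + r) (σ' ^ ℓ ^ r) = 0 := by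
      rw [hcc' (1 + r) _ hmem]
      exact hD.vanish ha hc hcl (1 + r) (hloc _) hmem
    rw [← tc14_smul hc' 1 trivial r, ← h1, h2]
  have hh0 : h σ' = 0 := by
    have h3 : symJ (toSym g 1 (galA k F σ')) (ram m) = ram m :=
      hfixt 1 _ (by rw [pow_one, smul_ram])
    rw [heq σ', Pi.add_apply, hc0, hz0, cob_apply, h3, sub_self, add_zero]
  -- the local character
  have hMc : IsAlgClosed M := IsAlgClosure.isAlgClosed ((plc a).adicCompletion L)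
  have hGM : IsGood ℓ (cOver k F L M g 1) := goodAll_one H M
  obtain ⟨ϖ, hϖ⟩ := IsAlgClosed.exists_pow_nat_eq (tA F L M - algebraMap F M a) H.prime.pos
  obtain ⟨⟨δ, hB⟩, hσϖ⟩ := tc14_tame hD hd ha j hσ hσs hϖ
  have hchar := he.local_char hF H ha hd.compat hd.ctx hd.inv j hϖ σ σ' hσ 1
    (by rw [zpow_one]; exact hσϖ)
  rw [hh0, map_zero] at hchar
  obtain ⟨c₀, hc₀⟩ := (ram_eq_zero_iff (zA F L M ζ) (zA_primitive H) _).1 hchar.symm
  have hconst : ∀ β' : F, aeval β' g = a → (ℓ : ℤ) ∣ e β' - c₀ := by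
    intro β' hβ'
    obtain ⟨θ, hθ, hrs⟩ := hd.ctx.exists_root hB (β := β') (by
      rw [eval_map_algebraMap]
      exact hβ')
    have h1 : θ ∈ rts (cOver k F L M g 1) := (mem_rts_one H hd.compat).2 hθ
    have h2 := hc₀ θ ((mem_rts hGM.separable.ne_zero).1 h1)
    rw [hrs, one_mul] at h2
    exact h2
  have hsum := he.sum a
  have hsum2 : (ℓ : ℤ) ∣ ∑ β' ∈ (RR F g E).filter (fun β' => aeval β' g = a), (e β' - c₀) :=
    Finset.dvd_sum fun β' hβ' => hconst β' (Finset.mem_filter.1 hβ').2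
  rw [Finset.sum_sub_distrib, Finset.sum_const, tc14_card H ha, nsmul_eq_mul] at hsum2
  have h5 : (ℓ : ℤ) ∣ (g.natDegree : ℤ) * c₀ := (dvd_sub_right hsum).1 hsum2
  have h6 : IsCoprime (ℓ : ℤ) (g.natDegree : ℤ) := Nat.isCoprime_iff_coprime.2 H.cop.symm
  have h7 : (ℓ : ℤ) ∣ c₀ := h6.dvd_of_dvd_mul_left h5
  have h8 := dvd_add (hconst β rfl) h7
  rw [sub_add_cancel] at h8
  exact h8

end Pool.Agent.Lib.MP_89bcae_ag.Sup

end

section

open Polynomial IsDedekindDomain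

open scoped Classical

set_option linter.unusedSectionVars false

namespace Pool.Agent.Lib.MP_89bcae_ag.Sup

universe u

private lemma tc11_sq {A B : Type u} [Field A] [Field B] {ℓ : ℕ} (σ : A →+* A) (j : A →+* B)
    (w : B →+* B) {f : A[X]} {f' : B[X]} (hσ : f.map σ = f) (hj : f.map j = f')
    (hw : f'.map w = f') (hc : ∀ x, j (σ x) = w (j x)) (Q : Jac ℓ f) :
    jacMap ℓ j hj (jacMap ℓ σ hσ Q) = jacMap ℓ w hw (jacMap ℓ j hj Q) := by
  have h0 : j.comp σ = w.comp j := RingHom.ext hc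
  have h1 : f.map (j.comp σ) = f' := by rw [← Polynomial.map_map, hσ, hj]
  have h2 : f.map (w.comp j) = f' := by rw [← Polynomial.map_map, hj, hw]
  rw [jacMap_jacMap ℓ σ j hσ hj h1, jacMap_jacMap ℓ j w hj hw h2]
  congr 1
  simp only [h0]

private lemma tc11_zJ {A B : Type u} [Field A] [Field B] {ℓ : ℕ} (j : A →+* B)
    {f : A[X]} {f' : B[X]} [IsGood ℓ f] [IsGood ℓ f'] (hj : f.map j = f') (ζ : A) (ζ' : B)
    (hζ : ζ ^ ℓ = 1) (hζ' : ζ' ^ ℓ = 1) (h : j ζ = ζ') (Q : Jac ℓ f) :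
    jacMap ℓ j hj (zJ ζ hζ Q) = zJ ζ' hζ' (jacMap ℓ j hj Q) := by
  subst h
  exact (zJ_jacMap j hj ζ hζ hζ' Q).symm

section formal

variable {ℓ : ℕ} {A : Type u} [Field A] {f : A[X]} [hG : IsGood ℓ f]

private lemma tc11_smul (ζ : A) (hζ : IsPrimitiveRoot ζ ℓ) (P : Jac ℓ f)
    (hP : zJ ζ hζ.pow_eq_one P = P) : ℓ • P = 0 := by
  obtain ⟨e, rfl⟩ := exists_ram_of_zJ_eq ζ hζ P hP
  exact smul_ram e

private lemma tc11_q_smul {q : ℕ} (hq : QOk ℓ q) (P : Jac ℓ f) (hP : ℓ • P = 0) : q • P = P := by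
  obtain ⟨hq0, ⟨m, hm⟩, -⟩ := hq
  have h1 : q = 1 + m * ℓ := by
    rw [mul_comm, ← hm]
    omega
  rw [h1, add_nsmul, one_nsmul, mul_nsmul', hP, nsmul_zero, add_zero]

private lemma tc11_choose {q : ℕ} (hq : QOk ℓ q) (P : Jac ℓ f) (hP : ℓ • P = 0) :
    q.choose 2 • P = 0 := by
  obtain ⟨-, -, m, hm⟩ := hq
  rw [hm, mul_comm, mul_nsmul', hP, nsmul_zero]

private lemma tc11_iter (ζ : A) (hζ : ζ ^ ℓ = 1) (P : Jac ℓ f) (hP : zJ ζ hζ P = P) (i : ℕ) :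
    (zJ ζ hζ)^[i] P = P := by
  induction i with
  | zero => rfl
  | succ i ih => rw [Function.iterate_succ_apply', ih, hP]

private lemma tc11_vJ (ζ : A) (hζ : ζ ^ ℓ = 1) (P : Jac ℓ f) (hP : zJ ζ hζ P = P) :
    vJ ζ hζ P = ℓ.choose 2 • P := by
  unfold vJ
  have h1 : ∀ k ∈ Finset.range ℓ, ∑ i ∈ Finset.range k, (zJ ζ hζ)^[i] P = k • P := by
    intro k _
    rw [Finset.sum_congr rfl fun i _ => tc11_iter ζ hζ P hP i, Finset.sum_const, Finset.card_range]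
  rw [Finset.sum_congr rfl h1, ← Finset.sum_smul, Finset.sum_range_id, Nat.choose_two_right]

private lemma tc11_ellA (ζ : A) (hζ : IsPrimitiveRoot ζ ℓ) (Q P : Jac ℓ f)
    (hQ : Q - zJ ζ hζ.pow_eq_one Q = P) (hP : zJ ζ hζ.pow_eq_one P = P) :
    ℓ • Q = ℓ.choose 2 • P := by
  rw [← tc11_vJ ζ hζ.pow_eq_one P hP, ← hQ, vJ_sub, vJ_zJ, vJ_sub_zJ ζ hζ]

private lemma tc11_dvd {q m : ℕ} (hℓ : ℓ.Prime) (hq : QOk ℓ q) (hm : q - 1 = ℓ * m) :
    ℓ ∣ m * ℓ.choose 2 := by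
  obtain ⟨hq0, -, h2⟩ := hq
  rcases hℓ.eq_two_or_odd' with h | h
  · subst h
    have h3 : q.choose 2 = q * m := by
      rw [Nat.choose_two_right, hm, ← mul_assoc, mul_comm q 2, mul_assoc, Nat.mul_div_cancel_left _ (by norm_num)]
    rw [h3] at h2
    rcases (Nat.prime_two.dvd_mul).1 h2 with h4 | h4
    · exfalso
      omega
    · exact h4.mul_right _
  · refine Dvd.dvd.mul_left ?_ m
    rw [Nat.choose_two_right]
    obtain ⟨t, ht⟩ := h
    rw [ht, Nat.add_sub_cancel]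
    refine ⟨t, ?_⟩
    rw [mul_comm 2 t, ← mul_assoc, Nat.mul_div_cancel _ (by norm_num)]

private lemma tc11_qA (ζ : A) (hζ : IsPrimitiveRoot ζ ℓ) {q : ℕ} (hq : QOk ℓ q) (Q P : Jac ℓ f)
    (hQ : Q - zJ ζ hζ.pow_eq_one Q = P) (hP : zJ ζ hζ.pow_eq_one P = P) : q • Q = Q := by
  obtain ⟨hq0, ⟨m, hm⟩, h2⟩ := id hq
  have h1 : q = 1 + m * ℓ := by
    rw [mul_comm, ← hm]
    omega
  have h3 : m • ℓ • Q = 0 := by
    rw [tc11_ellA ζ hζ Q P hQ hP, ← mul_nsmul']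
    obtain ⟨c, hc⟩ := tc11_dvd hG.prime hq hm
    rw [hc, mul_comm, mul_nsmul', tc11_smul ζ hζ P hP, nsmul_zero]
  conv_lhs => rw [h1, add_nsmul, one_nsmul, mul_nsmul', h3, add_zero]

private lemma tc11_zsmul_ram (c : ℤ) (e : A → ℤ) :
    (ram fun θ => c * e θ : Jac ℓ f) = c • ram e := by
  rw [ram, ramDiv_smul, map_zsmul, ← ram]

private lemma tc11_neg_ram (e : A → ℤ) :
    (ram fun θ => -e θ : Jac ℓ f) = -ram e := by
  have h := tc11_zsmul_ram (ℓ := ℓ) (f := f) (-1) e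
  rw [neg_one_zsmul] at h
  rw [← h]
  congr 1
  funext θ
  ring

private lemma tc11_zJ_zsmul (ζ : A) (hζ : ζ ^ ℓ = 1) (P : Jac ℓ f) (hP : zJ ζ hζ P = P) (c : ℤ) :
    zJ ζ hζ (c • P) = c • P := by
  rw [map_zsmul, hP]

end formal

private lemma tc11_prod {F : Type u} [Field F] [IsAlgClosed F] (P : F[X]) (hP : P.Separable) :
    P = C P.leadingCoeff * ∏ β ∈ P.roots.toFinset, (X - C β) := by
  have h1 := (IsAlgClosed.splits P).eq_prod_roots
  conv_lhs => rw [h1]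
  congr 1
  rw [Finset.prod, Multiset.toFinset_val, (nodup_roots hP).dedup]

section noGood

variable {k F L Ω : Type u} [Field k] [Field F] [Algebra k F] [Field L] [Algebra F[X] L]
  [Field Ω] [Algebra L Ω]

private lemma tc11_aeval {M : Type u} [Field M] [Algebra L M] [Algebra F M]
    (hFM : CompatF F L M) (P : F[X]) :
    aeval (tA F L M) P = algebraMap L M (algebraMap F[X] L P) := by
  have h : ((aeval (tA F L M) : F[X] →ₐ[F] M) : F[X] →+* M) =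
      (algebraMap L M).comp (algebraMap F[X] L) := by
    apply Polynomial.ringHom_ext
    · intro c
      change aeval (tA F L M) (C c) = algebraMap L M (algebraMap F[X] L (C c))
      rw [aeval_C]
      exact hFM c
    · change aeval (tA F L M) X = algebraMap L M (algebraMap F[X] L X)
      rw [aeval_X]
      rfl
  exact RingHom.congr_fun h P

private lemma tc11_z {M : Type u} [Field M] [Algebra L M] [Algebra F M]
    (hFM : CompatF F L M) (ζ : k) : zA F L M ζ = algebraMap F M (algebraMap k F ζ) := by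
  rw [hFM]
  unfold zA base
  rw [RingHom.comp_apply, RingHom.comp_apply, coe_mapRingHom, Polynomial.map_C]

variable [IsAlgClosure k F] [IsFractionRing F[X] L] [IsAlgClosure L Ω] {ℓ : ℕ} {g E : k[X]} {ζ : k}

private lemma tc11_poly {M : Type u} [Field M] [Algebra L M] (j : Ω →ₐ[L] M) (γ : AutO k F L Ω)
    (w : M ≃+* M) (hw : ∀ x, j ((γ : Ω ≃+* Ω) x) = w (j x)) (P : F[X]) :
    w (algebraMap L M (algebraMap F[X] L P)) =
      algebraMap L M (algebraMap F[X] L (P.map (resF γ : F →+* F))) := by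
  rw [← j.commutes, ← hw, resF_spec, j.commutes]

private lemma tc11_map {M : Type u} [Field M] [Algebra L M] (j : Ω →ₐ[L] M) :
    (cOver k F L Ω g 1).map (j : Ω →+* M) = cOver k F L M g 1 := by
  rw [Polynomial.map_map]
  congr 1
  exact j.comp_algebraMap

private lemma tc11_sym {M : Type u} [Field M] [Algebra L M] (j : Ω →ₐ[L] M) (γ : AutO k F L Ω)
    (w : M ≃+* M) (hw : ∀ x, j ((γ : Ω ≃+* Ω) x) = w (j x)) : w ∈ Sym (cOver k F L M g 1) := by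
  rw [mem_Sym, ← tc11_map j, Polynomial.map_map]
  have h2 : (w : M →+* M).comp (j : Ω →+* M) =
      (j : Ω →+* M).comp (((γ : Ω ≃+* Ω)) : Ω →+* Ω) := by
    ext x
    exact (hw x).symm
  rw [h2, ← Polynomial.map_map]
  congr 1
  exact (toSym g 1 γ).2

private lemma tc11_Ua (H : GlobHyp ℓ g E ζ) (U : F ≃ₐ[k] F)
    (hU : ∀ β ∈ RR F g E, U β = β) {a : F} (ha : aeval a E = 0) : U a = a := by
  have hFc : IsAlgClosed F := IsAlgClosure.isAlgClosed k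
  have hdeg : (g.map (algebraMap k F)).natDegree ≠ 0 := by
    rw [natDegree_map]
    intro h0
    have h1 := H.cop
    rw [h0, Nat.coprime_zero_left] at h1
    exact H.prime.one_lt.ne' h1
  obtain ⟨β, hβ⟩ := IsAlgClosed.exists_root (g.map (algebraMap k F) - C a) (by
    rw [degree_sub_C (natDegree_pos_iff_degree_pos.mp (Nat.pos_of_ne_zero hdeg))]
    exact (natDegree_pos_iff_degree_pos.mp (Nat.pos_of_ne_zero hdeg)).ne')
  rw [IsRoot.def, eval_sub, eval_C, sub_eq_zero, eval_map_algebraMap] at hβ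
  have h1 := hU β (by
    rw [mem_RR H, hβ]
    exact ha)
  rw [← hβ, ← aeval_algHom_apply, h1]

private lemma tc11_comp (H : GlobHyp ℓ g E ζ) :
    (E.map (algebraMap k F)).comp (g.map (algebraMap k F)) =
      C (algebraMap k F E.leadingCoeff) * ∏ β ∈ RR F g E, (X - C β) := by
  have hFc : IsAlgClosed F := IsAlgClosure.isAlgClosed k
  have hdeg : g.natDegree ≠ 0 := by
    intro h0
    have h1 := H.cop
    rw [h0, Nat.coprime_zero_left] at h1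
    exact H.prime.one_lt.ne' h1
  have h1 := tc11_prod ((E.comp g).map (algebraMap k F)) H.sep.map
  rw [leadingCoeff_map, leadingCoeff_comp hdeg, H.monic.leadingCoeff, one_pow, mul_one] at h1
  rw [← Polynomial.map_comp]
  exact h1

end noGood

variable {k F L Ω : Type u} [Field k] [Field F] [Algebra k F] [Field L] [Algebra F[X] L]
  [Field Ω] [Algebra L Ω] [IsAlgClosure k F] [IsFractionRing F[X] L] [IsAlgClosure L Ω]
  [Algebra F Ω] {ℓ : ℕ} {g E : k[X]} [hG : IsGood ℓ (cOver k F L Ω g 1)] {ζ : k}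
  {hζ : (zA F L Ω ζ) ^ ℓ = 1} {r : ℕ} {ζr : F} {s : Ω}

/-- The conclusion of the formula at `a`. -/
def Formula (ℓ : ℕ) {k F : Type u} [Field k] [Field F] [Algebra k F] (g E : k[X]) (ζ : k)
    (U : F → F) (a : F) (b κ₀ : ℤ) (e e' : F → ℤ) (cst : ℤ) : Prop :=
  ∀ β, aeval β g = a → ∀ x₀ x₂ : F,
    x₀ ^ ℓ = algebraMap k F E.leadingCoeff ^ e β *
      ∏ β' ∈ (RR F g E).erase β, (β - β') ^ (e β - e β') →
    x₂ ^ ℓ = ∏ β' ∈ ((RR F g E).filter (fun β' => aeval β' g = aeval β g)).erase β,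
      (β - β') ^ (e β - e β') →
    (U x₀) ^ b * x₂ ^ κ₀ = algebraMap k F ζ ^ (e' β + cst) * x₀ ^ b * (U x₂) ^ κ₀

private theorem tc11_local (hF : CompatF F L Ω) (hD : TowDat (L := L) ℓ r g E ζ ζr s)
    (b κ₀ : ℤ) {h y : Ch ℓ k F L Ω g 1} {e e' : F → ℤ} (he : HasExpM ζ E h e)
    (he' : HasExpM ζ E y e') (U : F ≃ₐ[k] F) (hU : ∀ β ∈ RR F g E, U β = β)
    (hS0 : ∀ x₀ : F, x₀ ^ ℓ = -1 → U x₀ = x₀) {a : F} (ha : aeval a E = 0)
    {M : Type u} [Field M] [Algebra ((plc a).adicCompletion L) M]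
    [IsAlgClosure ((plc a).adicCompletion L) M] [Algebra L M]
    [IsScalarTower L ((plc a).adicCompletion L) M] [Algebra F M] {v : AbsoluteValue M ℝ}
    (hd : LocDat F L a M v) (j : Ω →ₐ[L] M)
    (σ : M ≃ₐ[(plc a).adicCompletion L] M) (τ : Ω ≃ₐ[L] Ω) (hτ : ∀ x, j (τ x) = σ (j x))
    (hτs : τ s = xA F L Ω ζr * s)
    (w : M ≃+* M) (hvw : ∀ x, v (w x) = v x) (γ : AutO k F L Ω)
    (hjw : ∀ x, j ((γ : Ω ≃+* Ω) x) = w (j x)) (hres : resF γ = U)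
    (hγs : (γ : Ω ≃+* Ω) s = s)
    (A : JacOver ℓ (curvePoly k F L g 1) Ω) (hA : A - zJ (zA F L Ω ζ) hζ A = κ₀ • h τ)
    (z : Ω → Ω) (nz : Ω → ℤ)
    (hz : ∀ θ ∈ rts (cOver k F L Ω g 1),
      z θ ^ ℓ = ∏ β ∈ RR F g E, (θ - algebraMap F Ω β) ^ e β)
    (hnz : ∀ θ ∈ rts (cOver k F L Ω g 1), (γ : Ω ≃+* Ω) (z θ) =
        zA F L Ω ζ ^ nz ((γ : Ω ≃+* Ω) θ) * z ((γ : Ω ≃+* Ω) θ))
    (hform : y τ = -(b • ram nz) + (symJ (toSym g 1 γ) A - A)) :
    ∃ cst : ℤ, Formula ℓ g E ζ U a b κ₀ e e' cst := by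
  have H := hD.glob
  have hFc : IsAlgClosed F := IsAlgClosure.isAlgClosed k
  have hMc : IsAlgClosed M := IsAlgClosure.isAlgClosed ((plc a).adicCompletion L)
  have hΩc : IsAlgClosed Ω := IsAlgClosure.isAlgClosed L
  have hGM : IsGood ℓ (cOver k F L M g 1) := goodAll_one H M
  have hGE : IsGood ℓ (cOver k F L Ω g E) := isGood_cOver H
  have hFM := hd.compat
  have hv := hd.ctx
  have hjm := tc11_map (k := k) (F := F) (g := g) j
  have hℓ0 : ℓ ≠ 0 := H.prime.ne_zero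
  have hNe : NeZero ℓ := ⟨hℓ0⟩
  have hζM0 : IsPrimitiveRoot (zA F L M ζ) ℓ := zA_primitive H
  have hζM : (zA F L M ζ) ^ ℓ = 1 := hζM0.pow_eq_one
  have hjz : (j : Ω →+* M) (zA F L Ω ζ) = zA F L M ζ := map_zA j ζ
  have hzF : zA F L M ζ = algebraMap F M (algebraMap k F ζ) := tc11_z hFM ζ
  have hζF : IsPrimitiveRoot (algebraMap k F ζ) ℓ :=
    H.zeta.map_of_injective (algebraMap k F).injective
  have hz0 : zA F L M ζ ≠ 0 := hζM0.ne_zero hℓ0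
  set g' : F[X] := g.map (algebraMap k F) with hg'
  set E' : F[X] := E.map (algebraMap k F) with hE'
  -- the element `δ`
  obtain ⟨δ, hδdef⟩ : ∃ δ : M, δ = j (s ^ ℓ ^ (r - 1)) := ⟨_, rfl⟩
  have hδ : δ ^ ℓ = aeval (tA F L M) E' := by
    rw [hδdef, ← map_pow, ← pow_mul, ← pow_succ, Nat.sub_add_cancel hD.rpos, hD.hs]
    change j (algebraMap L Ω (algebraMap F[X] L E')) = _
    rw [j.commutes, tc11_aeval hFM]
  have hB : BadCtx g' E' a (tA F L M) δ ℓ := H.badCtx hFM ha hδ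
  have hf : cOver k F L M g 1 = locPoly g' (tA F L M) 1 := cOver_one hFM g
  have hδ0 : δ ≠ 0 := by
    rintro rfl
    rw [zero_pow hℓ0] at hδ
    exact hB.ne hδ.symm
  have hσδ : σ δ = zA F L M ζ * δ := by
    rw [hδdef, ← hτ, map_pow, hτs, mul_pow, ← xA_pow, hD.pow, ← zA_eq, map_mul]
    congr 1
  have hwδ : w δ = δ := by
    rw [hδdef, ← hjw, map_pow, hγs]
  -- the element `ϖ`
  obtain ⟨ϖ, hϖ⟩ := IsAlgClosed.exists_pow_nat_eq (tA F L M - algebraMap F M a)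
    (Nat.pos_of_ne_zero hℓ0)
  have hta : tA F L M - algebraMap F M a ≠ 0 := sub_ne_zero.mpr hv.ne
  have hϖ0 : ϖ ≠ 0 := by
    rintro rfl
    rw [zero_pow hℓ0] at hϖ
    exact hta hϖ.symm
  have hσL : ∀ x : L, σ (algebraMap L M x) = algebraMap L M x := by
    intro x
    rw [IsScalarTower.algebraMap_apply L ((plc a).adicCompletion L) M]
    exact σ.commutes _
  have hσF : ∀ c : F, σ (algebraMap F M c) = algebraMap F M c := by
    intro c
    rw [hFM]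
    exact hσL _
  have hσt : σ (tA F L M) = tA F L M := hσL _
  have hσϖ : σ ϖ = zA F L M ζ ^ (1 : ℤ) * ϖ := by
    have hq : v (δ / ϖ) = 1 := by
      have h1 : v (δ / ϖ) ^ ℓ = 1 := by
        rw [← map_pow, div_pow, hδ, hϖ, map_div₀, (hv.v_bad hB).1,
          div_self ((map_ne_zero v).mpr hta)]
      exact (pow_eq_one_iff_of_nonneg (v.nonneg _) hℓ0).1 h1
    have hfix := hv.root_of_unit_fixed hℓ0 hζF (σ : M ≃+* M) (fun x => hd.inv σ x) hσF hq (by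
      change σ ((δ / ϖ) ^ ℓ) = (δ / ϖ) ^ ℓ
      rw [div_pow, hδ, hϖ, map_div₀, map_sub, hσF, hσt, tc11_aeval hFM, hσL])
    have hfix' : σ (δ / ϖ) = δ / ϖ := hfix
    rw [map_div₀, hσδ] at hfix'
    have hσϖ0 : σ ϖ ≠ 0 := (map_ne_zero σ).2 hϖ0
    rw [div_eq_div_iff hσϖ0 hϖ0] at hfix'
    rw [zpow_one]
    apply mul_left_cancel₀ hδ0
    rw [← hfix']
    ring
  -- the automorphism `u`
  let u : Sym (cOver k F L M g 1) := ⟨w, tc11_sym j γ w hjw⟩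
  have hwP := tc11_poly j γ w hjw
  have huF : ∀ c : F, w (algebraMap F M c) = algebraMap F M (U c) := by
    intro c
    rw [hFM, hwP, Polynomial.map_C, hFM, hres]
    rfl
  have hut : w (tA F L M) = tA F L M := by
    have := hwP X
    rwa [Polynomial.map_X] at this
  have hmapk : ∀ P : k[X], (P.map (algebraMap k F)).map (U : F →+* F) =
      P.map (algebraMap k F) := by
    intro P
    rw [Polynomial.map_map]
    congr 1
    exact (U : F →ₐ[k] F).comp_algebraMap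
  -- the roots
  have hRRmem : ∀ β, g'.eval β = a → β ∈ RR F g E := by
    intro β hβ
    rw [mem_RR H]
    rw [hg', eval_map_algebraMap] at hβ
    rw [hβ]
    exact ha
  have hwθ : ∀ θ, aeval θ g' = tA F L M → w θ = θ := by
    intro θ hθ
    have h1 : aeval (w θ) g' = tA F L M := by
      have e1 : (w : M →+* M).comp (algebraMap F M) =
          (algebraMap F M).comp (U : F →+* F) := RingHom.ext huF
      have h2 := hom_eval₂ g' (algebraMap F M) (w : M →+* M) θ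
      rw [e1, ← eval₂_map, hg', hmapk, ← aeval_def, ← aeval_def] at h2
      have h3 : (w : M →+* M) θ = w θ := rfl
      rw [h3] at h2
      rw [← hut, ← hθ]
      exact h2.symm
    have h4 := hv.eval_rs hB hθ
    apply hv.rs_injOn hB h1 hθ
    apply hv.rs_eq
    have hr := hv.v_sub_rs (hv.v_root_le hB.monic hB.deg hθ)
    have e2 : w θ - algebraMap F M (rs F v θ) = w (θ - algebraMap F M (rs F v θ)) := by
      rw [map_sub, huF, hU _ (hRRmem _ h4)]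
    rw [e2, hvw]
    exact hr
  -- the local characters
  have hch := he.local_char hF H ha hFM hv hd.inv j hϖ σ τ hτ 1 hσϖ
  have hch' := he'.local_char hF H ha hFM hv hd.inv j hϖ σ τ hτ 1 hσϖ
  have hzJ : ∀ (x : M) (hx : x ^ ℓ = 1) (P : JacOver ℓ (curvePoly k F L g 1) M),
      x = zA F L M ζ → zJ x hx P = zJ (zA F L M ζ) hζM P := by
    rintro _ _ _ rfl
    rfl
  obtain ⟨n, hn1, hn2⟩ := hv.sym_eval (ℓ := ℓ) (g := g') hB.monic hB.deg hB.cop hB.roots hf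
    (ζ := algebraMap k F ζ) hζF (by
      rw [← hzF]
      exact hζM0) u (U : F ≃+* F) hvw huF hut (hmapk g) (U.commutes ζ)
    (fun β hβ => hU β (hRRmem β hβ)) hS0 (fun β => κ₀ * e β)
    (push ℓ (curvePoly k F L g 1) j A) (by
      rw [hzJ _ _ _ hzF.symm]
      have e1 := tc11_zJ (j : Ω →+* M) hjm (zA F L Ω ζ) (zA F L M ζ) hζ hζM hjz A
      have e2 : zJ (zA F L M ζ) hζM (push ℓ (curvePoly k F L g 1) j A) =
          push ℓ (curvePoly k F L g 1) j (zJ (zA F L Ω ζ) hζ A) := e1.symm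
      rw [e2, ← map_sub, hA, map_zsmul, hch, ← tc11_zsmul_ram]
      congr 1
      funext θ
      ring)
    ((RR F g E).filter fun β' => aeval β' g = a) (by
      intro β
      rw [Finset.mem_filter, hg', eval_map_algebraMap]
      refine ⟨fun h1 => h1.2, fun h1 => ⟨hRRmem β ?_, h1⟩⟩
      rw [hg', eval_map_algebraMap]
      exact h1)
  have hji : Function.Injective j := (j : Ω →+* M).injective
  -- the function over `M`
  obtain ⟨nM, hnM⟩ : ∃ nM : M → ℤ, ∀ x, nM (j x) = nz x :=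
    ⟨Function.extend j nz 0, fun x => hji.extend_apply _ _ x⟩
  have hpf := congrArg (push ℓ (curvePoly k F L g 1) j) hform
  have e3 : push ℓ (curvePoly k F L g 1) j (symJ (toSym g 1 γ) A) =
      symJ u (push ℓ (curvePoly k F L g 1) j A) :=
    tc11_sq _ (j : Ω →+* M) _ _ hjm _ hjw _
  have e4 : push ℓ (curvePoly k F L g 1) j (ram nz) = ram nM :=
    jacMap_ram (j : Ω →+* M) hjm nz nM (fun θ _ => hnM θ)
  rw [map_add, map_neg, map_zsmul, map_sub, e3, e4, hn1, hch'] at hpf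
  have h0 : (ram fun θ => (1 * e' (rs F v θ) + b * nM θ) - n θ :
      JacOver ℓ (curvePoly k F L g 1) M) = 0 := by
    have hb := tc11_zsmul_ram (ℓ := ℓ) (f := cOver k F L M g 1) b nM
    rw [ram_sub, ram_add, hb, hpf]
    abel
  obtain ⟨c₀, hc₀⟩ := (ram_eq_zero_iff (zA F L M ζ) hζM0 _).1 h0
  refine ⟨-c₀, ?_⟩
  intro β hβ x₀ x₂ hx₀ hx₂
  have hβ' : g'.eval β = a := by
    rw [hg', eval_map_algebraMap]
    exact hβ
  obtain ⟨θ, hθ, hrs⟩ := hv.exists_root hB hβ'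
  have hθr : θ ∈ rts (cOver k F L M g 1) := (mem_rts_one H hFM).2 hθ
  have hθE : θ ∈ rts (cOver k F L M g E) := by
    rw [← rts_one H]
    exact hθr
  obtain ⟨θ₀, hθ₀E, rfl⟩ := exists_root_eq (k := k) (F := F) H j hθE
  have hθ₀ : θ₀ ∈ rts (cOver k F L Ω g 1) := by
    rw [rts_one H]
    exact hθ₀E
  have hγθ₀ : (γ : Ω ≃+* Ω) θ₀ = θ₀ := by
    apply hji
    rw [hjw]
    exact hwθ _ hθ
  -- the first evaluation
  have hzθ : (j (z θ₀)) ^ ℓ = ∏ β ∈ RR F g E, (j θ₀ - algebraMap F M β) ^ e β := by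
    rw [← map_pow, hz θ₀ hθ₀, map_prod]
    refine Finset.prod_congr rfl fun β _ => ?_
    rw [map_zpow₀, map_sub, hF, j.commutes, ← hFM]
  have hwz : w (j (z θ₀)) = algebraMap F M (algebraMap k F ζ) ^ nz θ₀ * j (z θ₀) := by
    have h1 := hnz θ₀ hθ₀
    rw [hγθ₀] at h1
    rw [← hjw, h1, map_mul, map_zpow₀, ← hzF]
    congr 2
  have hev1 := hv.eval_q hℓ0 hB hζF w (U : F ≃+* F) hvw huF hut (U.commutes ζ) hwδ
    (RR F g E) hRRmem (tc11_comp H) hU e hθ hzθ (nz θ₀) hwz x₀⁻¹ (by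
      rw [hrs, inv_pow, hx₀, mul_inv, zpow_neg, ← Finset.prod_inv_distrib]
      congr 1
      refine Finset.prod_congr rfl fun β' _ => ?_
      rw [← zpow_neg, neg_sub])
  -- the second evaluation
  have hev2 := hn2 (j θ₀) hθr (x₂ ^ (-κ₀)) (by
      rw [hrs, ← zpow_natCast, ← zpow_mul, mul_comm, zpow_mul, zpow_natCast, hx₂, hβ,
        ← Finset.prod_zpow]
      refine Finset.prod_congr rfl fun β' _ => ?_
      rw [← zpow_mul]
      congr 1
      ring)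
  have hf0 : cOver k F L M g 1 ≠ 0 := by
    rw [hf]
    exact locPoly_ne_zero hB.monic hB.deg one_ne_zero
  have hd0 := hc₀ (j θ₀) ((mem_rts hf0).1 hθr)
  rw [hrs, hnM] at hd0
  have hz1 : algebraMap k F ζ ^ (1 * e' β + b * nz θ₀ - n (j θ₀) - c₀) = 1 :=
    (hζF.zpow_eq_one_iff_dvd _).2 hd0
  have hζ0 : algebraMap k F ζ ≠ 0 := hζF.ne_zero hℓ0
  have hU1 : U x₀ = algebraMap k F ζ ^ (-nz θ₀) * x₀ := by
    have h1 : U x₀⁻¹ = algebraMap k F ζ ^ nz θ₀ * x₀⁻¹ := hev1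
    rw [map_inv₀] at h1
    rw [← inv_inv (U x₀), h1, mul_inv, inv_inv, zpow_neg]
  have hU2 : (U x₂) ^ κ₀ = algebraMap k F ζ ^ (-n (j θ₀)) * x₂ ^ κ₀ := by
    have h1 : U (x₂ ^ (-κ₀)) = algebraMap k F ζ ^ n (j θ₀) * x₂ ^ (-κ₀) := hev2
    rw [map_zpow₀, zpow_neg, zpow_neg] at h1
    rw [← inv_inv ((U x₂) ^ κ₀), h1, mul_inv, inv_inv, zpow_neg]
  rw [hU2, hU1, mul_zpow, ← zpow_mul]
  have hz2 : algebraMap k F ζ ^ (-nz θ₀ * b) =
      algebraMap k F ζ ^ (e' β + -c₀) * algebraMap k F ζ ^ (-n (j θ₀)) := by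
    rw [← zpow_add₀ hζ0]
    have h1 : e' β + -c₀ + -n (j θ₀) =
        -nz θ₀ * b + (1 * e' β + b * nz θ₀ - n (j θ₀) - c₀) := by ring
    rw [h1, zpow_add₀ hζ0, hz1, mul_one]
  rw [hz2]
  ring

theorem TowDat.form0 (hF : CompatF F L Ω) (hD : TowDat (L := L) ℓ r g E ζ ζr s)
    (n₀ : ℕ) (b κ₀ : ℤ) {x h y : Ch ℓ k F L Ω g 1} (hx : C1s (Nst s) x)
    (hh : MCs ζ hζ ⊤ h) (hy : MCs ζ hζ ⊤ y) {e e' : F → ℤ} (he : HasExpM ζ E h e)
    (he' : HasExpM ζ E y e') (U : F ≃ₐ[k] F) (hU : ∀ β ∈ RR F g E, U β = β)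
    (hS0 : ∀ x₀ : F, x₀ ^ ℓ = -1 → U x₀ = x₀) {q : ℕ} (hq : QOk ℓ q) (hUq : U ζr = ζr ^ q)
    (h1 : ∀ τ : Ω ≃ₐ[L] Ω, τ s = xA F L Ω ζr * s →
      ∃ A : JacOver ℓ (curvePoly k F L g 1) Ω, ℓ ^ n₀ • A = 0 ∧
        (∀ σ ∈ (Nst s : Subgroup (Ω ≃ₐ[L] Ω)),
          act1 (galA k F τ) x σ = x σ - b • h σ + cob A σ) ∧
        A - zJ (zA F L Ω ζ) hζ A = κ₀ • h τ)
    (h2 : ∀ γ : AutO k F L Ω, resF γ = U → (γ : Ω ≃+* Ω) s = s →
      ∃ B : JacOver ℓ (curvePoly k F L g 1) Ω, ℓ ^ n₀ • B = 0 ∧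
        ∀ σ ∈ (Nst s : Subgroup (Ω ≃ₐ[L] Ω)), act1 γ x σ = x σ + y σ + cob B σ)
    {a : F} (ha : aeval a E = 0)
    (hvan : ∀ σ' ∈ (Nst s : Subgroup (Ω ≃ₐ[L] Ω)), IsLoc F L a σ' →
      x σ' = 0 ∧ h σ' = 0 ∧ y σ' = 0) :
    ∃ cst : ℤ, Formula ℓ g E ζ U a b κ₀ e e' cst := by
  have H := hD.glob
  have hFc : IsAlgClosed F := IsAlgClosure.isAlgClosed k
  have hUa : U a = a := tc11_Ua H U hU ha
  have hζp : IsPrimitiveRoot (zA F L Ω ζ) ℓ := zA_primitive H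
  obtain ⟨M, iM1, iM2, iM3, iM4, iM5, iM6, v, j, hd⟩ := exists_locDat (L := L) (Ω := Ω) a
  obtain ⟨γ₀, hγ₀⟩ := resF_surjective (L := L) (Ω := Ω) U
  obtain ⟨σ, τ, hτ, hτs⟩ := hD.exists_tame_loc hd ha j
  obtain ⟨w, φ, γ, hwφ, hvw, hjw, hres₀, hγs⟩ := hD.exists_gamma hd ha j γ₀ (by
    rw [hγ₀]
    exact hUa)
  have hres : resF γ = U := hres₀.trans hγ₀
  obtain ⟨g₀, hg₀, hconj, hcomm⟩ := hD.exists_comm hτs γ (q := q) (by
    rw [hres]
    exact hUq)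
  have hlocτ : IsLoc F L a τ := ⟨M, iM1, iM2, iM3, iM4, iM5, iM6, v, j, σ, hd, hτ⟩
  -- `g₀` is local
  have hwinv : ∀ x : (plc a).adicCompletion L,
      w.symm (algebraMap ((plc a).adicCompletion L) M x) =
        algebraMap ((plc a).adicCompletion L) M (φ.symm x) := by
    intro x
    rw [RingEquiv.symm_apply_eq, hwφ, RingEquiv.apply_symm_apply]
  let cw : M ≃ₐ[(plc a).adicCompletion L] M :=
    AlgEquiv.ofRingEquiv (f := (w.symm.trans (σ : M ≃+* M)).trans w) (by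
      intro x
      change w (σ (w.symm (algebraMap ((plc a).adicCompletion L) M x))) =
        algebraMap ((plc a).adicCompletion L) M x
      rw [hwinv, σ.commutes, hwφ, RingEquiv.apply_symm_apply])
  have hcw : ∀ x, j (conjG γ τ x) = cw (j x) := by
    intro x
    obtain ⟨x, rfl⟩ := (γ : Ω ≃+* Ω).surjective x
    rw [conjG_spec, hjw, hτ, hjw]
    change w (σ (j x)) = w (σ (w.symm (w (j x))))
    rw [RingEquiv.symm_apply_apply]
  have hpow : ∀ (n : ℕ) x, j ((τ ^ n) x) = (σ ^ n) (j x) := by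
    intro n
    induction n with
    | zero =>
      intro x
      rfl
    | succ n ih =>
      intro x
      rw [pow_succ, pow_succ, AlgEquiv.mul_apply, AlgEquiv.mul_apply, ih, hτ]
  have hlocg : IsLoc F L a g₀ := by
    refine ⟨M, iM1, iM2, iM3, iM4, iM5, iM6, v, j, cw * (σ ^ q)⁻¹, hd, ?_⟩
    intro x
    obtain ⟨x, rfl⟩ := (τ ^ q).surjective x
    have e1 : g₀ ((τ ^ q) x) = conjG γ τ x := by
      rw [hconj]
      rfl
    rw [e1, hcw, hpow, AlgEquiv.mul_apply]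
    congr 1
    exact ((σ ^ q).symm_apply_apply _).symm
  obtain ⟨A, hA0, hA1, hA2⟩ := h1 τ hτs
  obtain ⟨B, hB0, hB1⟩ := h2 γ hres hγs
  obtain ⟨z, nz, hz, -, hnz, hh3⟩ := he.act_rel hF H γ (by
    rw [hres]
    exact hU)
  have hfixh : ∀ σ, zJ (zA F L Ω ζ) hζ (h σ) = h σ := fun σ => hh.fixed σ (Subgroup.mem_top _)
  have hfixy : ∀ σ, zJ (zA F L Ω ζ) hζ (y σ) = y σ := fun σ => hy.fixed σ (Subgroup.mem_top _)
  have hlh : ∀ σ, ℓ • h σ = 0 := fun σ => tc11_smul _ hζp _ (hfixh σ)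
  have hly : ∀ σ, ℓ • y σ = 0 := fun σ => tc11_smul _ hζp _ (hfixy σ)
  have kill : ∀ P : JacOver ℓ (curvePoly k F L g 1) Ω, ℓ • P = 0 → ℓ ^ (n₀ + 1) • P = 0 := by
    intro P hP
    rw [pow_succ, mul_nsmul', hP, nsmul_zero]
  have kill' : ∀ P : JacOver ℓ (curvePoly k F L g 1) Ω, ℓ ^ n₀ • P = 0 →
      ℓ ^ (n₀ + 1) • P = 0 := by
    intro P hP
    rw [pow_succ, mul_nsmul, hP, nsmul_zero]
  have hfixκ : zJ (zA F L Ω ζ) hζp.pow_eq_one (κ₀ • h τ) = κ₀ • h τ :=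
    tc11_zJ_zsmul _ hζp.pow_eq_one _ (hfixh τ) κ₀
  have qA : q • A = A := tc11_qA _ hζp hq A (κ₀ • h τ) hA2 hfixκ
  obtain ⟨hx0, hh0, hy0⟩ := hvan g₀ hg₀ hlocg
  have fx : ∀ P : JacOver ℓ (curvePoly k F L g 1) Ω, ℓ ^ (n₀ + 1) • P = 0 →
      symJ (toSym g 1 (galA k F τ)) P = P := fun P hP => hD.fixt ha hlocτ _ P hP
  have fg : ∀ P : JacOver ℓ (curvePoly k F L g 1) Ω, ℓ ^ (n₀ + 1) • P = 0 →
      symJ (toSym g 1 (galA k F g₀)) P = P := fun P hP => hD.fixt ha hlocg _ P hP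
  have hform := commutator_formula hζp hD.trs hD.nrm (n₀ + 1) hx hh.toC1s hy.toC1s b q
    (τ := τ) (g₀ := g₀) (γ := γ) (A := A) (B := B) (C := ram nz) (kill' A hA0) (kill' B hB0)
    (kill _ (smul_ram nz)) (kill _ (hly τ)) hA1 hB1 hh3 hg₀ hcomm
    (fun σ => tc11_q_smul hq _ (hlh σ)) qA (tc11_q_smul hq _ (hly τ))
    (tc11_choose hq _ (hlh τ)) hx0 hh0 hy0 (fx A (kill' A hA0)) (fx B (kill' B hB0))
    (fx _ (kill _ (hlh τ))) (fx _ (kill _ (hly τ))) (fg A (kill' A hA0)) (fg B (kill' B hB0))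
    (fg _ (kill _ (hly τ)))
  exact tc11_local hF hD b κ₀ he he' U hU hS0 ha hd j σ τ hτ hτs w hvw γ hjw hres hγs A hA2 z nz
    hz hnz hform

end Pool.Agent.Lib.MP_89bcae_ag.Sup

end

section

open Polynomial IsDedekindDomain

open scoped Classical

set_option linter.unusedSectionVars false

namespace Pool.Agent.Lib.MP_89bcae_ag.Sup

universe u

section

variable {ℓ : ℕ} {E : Type u} [Field E] {f : E[X]} [hG : IsGood ℓ f]

/-- The operator `v ∘ v` as a homomorphism. -/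
noncomputable def tc12_V (ζ : E) (hζ : ζ ^ ℓ = 1) : Jac ℓ f →+ Jac ℓ f where
  toFun Q := vJ ζ hζ (vJ ζ hζ Q)
  map_zero' := by
    have h1 := vJ_sub ζ hζ (0 : Jac ℓ f) 0
    rw [sub_self, sub_self] at h1
    rw [h1, h1]
  map_add' Q Q' := by
    rw [vJ_add, vJ_add]

lemma tc12_V_apply (ζ : E) (hζ : ζ ^ ℓ = 1) (Q : Jac ℓ f) :
    tc12_V ζ hζ Q = vJ ζ hζ (vJ ζ hζ Q) := rfl

lemma tc12_V_zJ (ζ : E) (hζ : ζ ^ ℓ = 1) (Q : Jac ℓ f) :
    tc12_V ζ hζ (zJ ζ hζ Q) = zJ ζ hζ (tc12_V ζ hζ Q) := by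
  rw [tc12_V_apply, tc12_V_apply, vJ_zJ, vJ_zJ]

lemma tc12_V_iter (ζ : E) (hζ : ζ ^ ℓ = 1) (b : ℕ) (Q : Jac ℓ f) :
    tc12_V ζ hζ ((zJ ζ hζ)^[b] Q) = (zJ ζ hζ)^[b] (tc12_V ζ hζ Q) := by
  induction b with
  | zero => rfl
  | succ b ih =>
    rw [Function.iterate_succ_apply', Function.iterate_succ_apply', tc12_V_zJ, ih]

lemma tc12_V_sub (ζ : E) (hζ : IsPrimitiveRoot ζ ℓ) (Q : Jac ℓ f) :
    tc12_V ζ hζ.pow_eq_one Q - zJ ζ hζ.pow_eq_one (tc12_V ζ hζ.pow_eq_one Q) =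
      vJ ζ hζ.pow_eq_one (ℓ • Q) := by
  rw [tc12_V_apply, vJ_sub_zJ ζ hζ, vJ_smul]

lemma tc12_V_symJ (ζ : E) (hζ : ζ ^ ℓ = 1) (σ : Sym f) (hσ : (σ : E ≃+* E) ζ = ζ)
    (Q : Jac ℓ f) : tc12_V ζ hζ (symJ σ Q) = symJ σ (tc12_V ζ hζ Q) := by
  rw [tc12_V_apply, tc12_V_apply, vJ_symJ _ _ _ hσ, vJ_symJ _ _ _ hσ]

/-- `Z ^ b Q = Q - b P` if `Q - Z Q = P` and `Z P = P`. -/
lemma tc12_iter (ζ : E) (hζ : ζ ^ ℓ = 1) (b : ℕ) (Q P : Jac ℓ f) (h1 : Q - zJ ζ hζ Q = P)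
    (h2 : zJ ζ hζ P = P) : (zJ ζ hζ)^[b] Q = Q - (b : ℤ) • P := by
  induction b with
  | zero => simp
  | succ b ih =>
    rw [Function.iterate_succ_apply', ih, map_sub, map_zsmul, h2]
    have h3 : zJ ζ hζ Q = Q - P := by rw [← h1]; abel
    rw [h3]
    push_cast
    rw [add_smul, one_smul]
    abel

/-- If `Q - Z Q` is killed by `ℓ` then `Q` is killed by `ℓ ^ 2`. -/
lemma tc12_sq (ζ : E) (hζ : IsPrimitiveRoot ζ ℓ) (Q : Jac ℓ f) (m : E → ℤ)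
    (hQ : Q - zJ ζ hζ.pow_eq_one Q = ram m) : ℓ ^ 2 • Q = 0 := by
  have h1 : ℓ • Q = vJ ζ hζ.pow_eq_one (ram m) := by
    rw [← hQ, vJ_sub, vJ_zJ, vJ_sub_zJ ζ hζ]
  rw [pow_two, mul_smul, h1, ← vJ_smul, smul_ram]
  have h2 := vJ_sub ζ hζ.pow_eq_one (0 : Jac ℓ f) 0
  rwa [sub_self, sub_self] at h2

end

variable {k F L Ω : Type u} [Field k] [Field F] [Algebra k F] [Field L] [Algebra F[X] L]
  [Field Ω] [Algebra L Ω] [IsAlgClosure k F] [IsFractionRing F[X] L] [IsAlgClosure L Ω]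

section

variable {ℓ : ℕ} {g D : k[X]} [hG : IsGood ℓ (cOver k F L Ω g D)]

lemma tc12_zC_iter (ζ : k) (hζ : (zA F L Ω ζ) ^ ℓ = 1) (b : ℕ) (c : Coch ℓ k F L Ω g D) (n : ℕ)
    (σ : Ω ≃ₐ[L] Ω) : ((Sup.zC ζ hζ)^[b] c) n σ = (zJ (zA F L Ω ζ) hζ)^[b] (c n σ) := by
  induction b with
  | zero => rfl
  | succ b ih =>
    rw [Function.iterate_succ_apply', Function.iterate_succ_apply', ← ih]
    rfl

lemma tc12_act1_V (γ : AutO k F L Ω) (ζ : k) (hζ : (zA F L Ω ζ) ^ ℓ = 1)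
    (x : Ch ℓ k F L Ω g D) (σ : Ω ≃ₐ[L] Ω) :
    act1 γ (fun σ => tc12_V (zA F L Ω ζ) hζ (x σ)) σ =
      tc12_V (zA F L Ω ζ) hζ (act1 γ x σ) := by
  exact (tc12_V_symJ (f := cOver k F L Ω g D) (zA F L Ω ζ) hζ (toSym g D γ) (zA_fixed ζ γ)
    (x (conjG γ⁻¹ σ))).symm

lemma tc12_V_cob (ζ : k) (hζ : (zA F L Ω ζ) ^ ℓ = 1)
    (A : JacOver ℓ (curvePoly k F L g D) Ω) (σ : Ω ≃ₐ[L] Ω) :
    tc12_V (zA F L Ω ζ) hζ (cob A σ) = cob (tc12_V (zA F L Ω ζ) hζ A) σ := by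
  rw [tc12_V_apply, vJ_cob, vJ_cob, tc12_V_apply]

lemma tc12_iter_cob (ζ : k) (hζ : (zA F L Ω ζ) ^ ℓ = 1) (b : ℕ)
    (A : JacOver ℓ (curvePoly k F L g D) Ω) (σ : Ω ≃ₐ[L] Ω) :
    (zJ (zA F L Ω ζ) hζ)^[b] (cob A σ) = cob ((zJ (zA F L Ω ζ) hζ)^[b] A) σ := by
  induction b with
  | zero => rfl
  | succ b ih =>
    rw [Function.iterate_succ_apply', Function.iterate_succ_apply', ih, zJ_cob]

end

variable [Algebra F Ω] {ℓ : ℕ} {g E : k[X]} [hG : IsGood ℓ (cOver k F L Ω g 1)] {ζ : k}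
  {hζ : (zA F L Ω ζ) ^ ℓ = 1} {r : ℕ} {ζr : F} {s : Ω}

theorem TowDat.form1 (hF : CompatF F L Ω) (hD : TowDat (L := L) ℓ r g E ζ ζr s)
    {c y : Coch ℓ k F L Ω g 1} (hc : TCs (Nst s) c) (hcl : LTs (Nst s) c)
    (hy : TCs (Nst s) y) (hyl : LTs (Nst s) y) {b : ℕ}
    {τ₀ : Ω ≃ₐ[L] Ω} (hτ₀ : τ₀ s = xA F L Ω ζr * s)
    (heig : TTs (Nst s) (act (galA k F τ₀) c - (Sup.zC ζ hζ)^[b] c))
    {γ₀ : AutO k F L Ω} (hγ₀ : (γ₀ : Ω ≃+* Ω) s = s) (hU : ∀ β ∈ RR F g E, resF γ₀ β = β)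
    (hS0 : ∀ x₀ : F, x₀ ^ ℓ = -1 → resF γ₀ x₀ = x₀)
    (hrel : TTs (Nst s) (act γ₀ c - c - (y - Sup.zC ζ hζ y)))
    {h h' : Ch ℓ k F L Ω g 1} (hh : MCs ζ hζ ⊤ h) (hh' : MCs ζ hζ ⊤ h') {m m' : Ω → ℤ}
    (hm : ∀ σ ∈ (Nst s : Subgroup (Ω ≃ₐ[L] Ω)),
      h σ = vJ (zA F L Ω ζ) hζ (c 1 σ) + cob (ram m) σ)
    (hm' : ∀ σ ∈ (Nst s : Subgroup (Ω ≃ₐ[L] Ω)),
      h' σ = vJ (zA F L Ω ζ) hζ (y 1 σ) + cob (ram m') σ)
    {e e' : F → ℤ} (he : HasExpM ζ E h e) (he' : HasExpM ζ E h' e')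
    {a : F} (ha : aeval a E = 0) :
    ∃ cst : ℤ, Formula ℓ g E ζ (resF γ₀) a b 1 e e' cst := by
  have hprim : IsPrimitiveRoot (zA F L Ω ζ) ℓ := zA_primitive (A := Ω) hD.glob
  have hN : Nrm k F (Nst s : Subgroup (Ω ≃ₐ[L] Ω)) := hD.nrm
  have hT : Trs (cOver k F L Ω g 1) (Nst s : Subgroup (Ω ≃ₐ[L] Ω)) := hD.trs
  obtain ⟨Q, hQ⟩ := exists_sub_zJ (f := cOver k F L Ω g 1) (zA F L Ω ζ) hprim (ram m)
  have hQ2 : ℓ ^ 2 • Q = 0 := tc12_sq _ hprim Q m hQ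
  have h32 : ∀ P : Jac ℓ (cOver k F L Ω g 1), ℓ ^ 2 • P = 0 → ℓ ^ 3 • P = 0 := by
    intro P hP
    rw [pow_succ, mul_comm, mul_smul, hP, smul_zero]
  have h31 : ∀ P : Jac ℓ (cOver k F L Ω g 1), ℓ • P = 0 → ℓ ^ 3 • P = 0 := by
    intro P hP
    rw [pow_succ, mul_smul, hP, smul_zero]
  obtain ⟨q, hq, hUq⟩ := hD.exists_q (resF γ₀) hS0
  -- the cocycle
  let x : Ch ℓ k F L Ω g 1 :=
    fun σ => tc12_V (zA F L Ω ζ) hζ (c 2 σ) + cob Q σ
  have hxdef : ∀ σ, x σ = tc12_V (zA F L Ω ζ) hζ (c 2 σ) + cob Q σ := fun _ => rfl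
  have hx : C1s (Nst s) x := by
    have h1 : C1s (Nst s) (fun σ => vJ (zA F L Ω ζ) hζ (vJ (zA F L Ω ζ) hζ (c 2 σ))) :=
      ((hc.c1 2).vJ ζ hζ).vJ ζ hζ
    exact h1.add (C1s.cob Q)
  -- `x - Z x = h`
  have hxZ : ∀ σ ∈ (Nst s : Subgroup (Ω ≃ₐ[L] Ω)), x σ - zJ (zA F L Ω ζ) hζ (x σ) = h σ := by
    intro σ hσ
    have h1 := tc12_V_sub (f := cOver k F L Ω g 1) (zA F L Ω ζ) hprim (c 2 σ)
    have h2 : ℓ • c 2 σ = c 1 σ := hc.smul 1 σ hσ
    rw [h2] at h1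
    have h3 : cob Q σ - zJ (zA F L Ω ζ) hζ (cob Q σ) = cob (ram m) σ := by
      rw [zJ_cob, ← hQ, cob_sub]
      rfl
    rw [hm σ hσ, ← h1, ← h3, hxdef, map_add]
    abel
  have hhZ : ∀ σ, zJ (zA F L Ω ζ) hζ (h σ) = h σ := fun σ => hh.fixed σ (Subgroup.mem_top σ)
  have hxb : ∀ σ ∈ (Nst s : Subgroup (Ω ≃ₐ[L] Ω)),
      (zJ (zA F L Ω ζ) hζ)^[b] (x σ) = x σ - (b : ℤ) • h σ := fun σ hσ =>
    tc12_iter _ _ b _ _ (hxZ σ hσ) (hhZ σ)
  -- the action on `x`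
  have hact : ∀ (γ : AutO k F L Ω) (σ : Ω ≃ₐ[L] Ω), act1 γ x σ =
      tc12_V (zA F L Ω ζ) hζ (act1 γ (c 2) σ) + cob (symJ (toSym g 1 γ) Q) σ := by
    intro γ σ
    have h1 : x = (fun σ => tc12_V (zA F L Ω ζ) hζ (c 2 σ)) + cob Q := rfl
    rw [h1, act1_add, Pi.add_apply, tc12_act1_V, act1_cob]
  have hkill : ∀ σ, ℓ • h σ = 0 := by
    intro σ
    obtain ⟨n, hn⟩ := exists_ram_of_zJ_eq (f := cOver k F L Ω g 1) (zA F L Ω ζ) hprim (h σ)
      (hhZ σ)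
    rw [hn]
    exact smul_ram n
  have key := hD.form0 (hζ := hζ) hF 3 (b : ℤ) 1 hx hh hh' he he' (resF γ₀) hU hS0 hq hUq ?_ ?_ ha ?_
  · exact key
  · -- the relation for `τ`
    intro τ hτ
    have hη : τ₀⁻¹ * τ ∈ (Nst s : Subgroup (Ω ≃ₐ[L] Ω)) :=
      inv_mul_mem_nst (hτ₀.trans hτ.symm)
    have e1 : act (galA k F τ) c - act (galA k F τ₀) c =
        act (galA k F τ₀) (act (galA k F (τ₀⁻¹ * τ)) c - c) := by
      rw [act_sub, ← act_mul, ← map_mul, mul_inv_cancel_left]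
    have e2 : TTs (Nst s) (act (galA k F τ) c - (Sup.zC ζ hζ)^[b] c) := by
      have e3 := ((act_galA_subs hN hc hη).act hN (galA k F τ₀)).add heig
      rw [← e1] at e3
      have e4 : act (galA k F τ) c - act (galA k F τ₀) c +
          (act (galA k F τ₀) c - (Sup.zC ζ hζ)^[b] c) =
          act (galA k F τ) c - (Sup.zC ζ hζ)^[b] c := by abel
      rwa [e4] at e3
    obtain ⟨A₂, hA₂, hA₂'⟩ := e2.2 2
    have e5 : ∀ σ ∈ (Nst s : Subgroup (Ω ≃ₐ[L] Ω)), act1 (galA k F τ) (c 2) σ =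
        (zJ (zA F L Ω ζ) hζ)^[b] (c 2 σ) + cob A₂ σ := by
      intro σ hσ
      rw [← hA₂' σ hσ, ← tc12_zC_iter]
      change _ = _ + (act1 (galA k F τ) (c 2) σ - ((Sup.zC ζ hζ)^[b] c) 2 σ)
      abel
    let A : JacOver ℓ (curvePoly k F L g 1) Ω := tc12_V (zA F L Ω ζ) hζ A₂
      + symJ (toSym g 1 (galA k F τ)) Q - (zJ (zA F L Ω ζ) hζ)^[b] Q
    have hA : A = tc12_V (zA F L Ω ζ) hζ A₂
      + symJ (toSym g 1 (galA k F τ)) Q - (zJ (zA F L Ω ζ) hζ)^[b] Q := rfl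
    have hiter : ∀ (P : Jac ℓ (cOver k F L Ω g 1)), ℓ ^ 2 • P = 0 →
        ℓ ^ 2 • (zJ (zA F L Ω ζ) hζ)^[b] P = 0 := by
      intro P hP
      have : ∀ j : ℕ, ℓ ^ 2 • (zJ (zA F L Ω ζ) hζ)^[j] P = 0 := by
        intro j
        induction j with
        | zero => exact hP
        | succ j ih =>
          rw [Function.iterate_succ_apply', ← map_nsmul, ih, map_zero]
      exact this b
    have hA3 : ℓ ^ 3 • A = 0 := by
      refine h32 A ?_
      rw [hA, smul_sub, smul_add, ← map_nsmul, ← map_nsmul, hiter Q hQ2, hQ2, hA₂, map_zero,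
        map_zero, add_zero, sub_zero]
    have hrelA : ∀ σ ∈ (Nst s : Subgroup (Ω ≃ₐ[L] Ω)),
        act1 (galA k F τ) x σ = x σ - (b : ℤ) • h σ + cob A σ := by
      intro σ hσ
      rw [hact, e5 σ hσ, ← hxb σ hσ, hxdef, iterate_map_add, map_add, tc12_V_iter, tc12_V_cob,
        tc12_iter_cob, hA, cob_sub, cob_add]
      simp only [Pi.add_apply, Pi.sub_apply]
      abel
    refine ⟨A, hA3, hrelA, ?_⟩
    rw [one_smul]
    refine cob_injN hprim hT 3 ?_ (h31 _ (hkill τ)) ?_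
    · rw [smul_sub, ← map_nsmul, hA3, map_zero, sub_zero]
    · intro σ hσ
      have f1 := act1_galA_sub hh.toC1s (Subgroup.mem_top τ) σ (Subgroup.mem_top σ)
      have f2 : act1 (galA k F τ) h σ =
          act1 (galA k F τ) (x - fun σ => zJ (zA F L Ω ζ) hζ (x σ)) σ :=
        act1_congr hN (galA k F τ) (fun σ hσ => (hxZ σ hσ).symm) σ hσ
      rw [act1_sub, act1_zJ, Pi.sub_apply, hrelA σ hσ, map_add, map_sub, map_zsmul, hhZ σ,
        zJ_cob] at f2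
      have f3 := hxZ σ hσ
      rw [f1] at f2
      rw [cob_sub, Pi.sub_apply]
      have f4 : cob A σ - cob (zJ (zA F L Ω ζ) hζ A) σ = h σ + cob (h τ) σ - h σ := by
        rw [f2, ← f3]
        abel
      rw [f4]
      abel
  · -- the relation for `γ`
    intro γ hγ hγs
    obtain ⟨η, hη, hγη⟩ := exists_galA_nst (γ := γ₀) (γ' := γ) hγ.symm (hγ₀.trans hγs.symm)
    have e1 : act γ c - act γ₀ c = act γ₀ (act (galA k F η) c - c) := by
      rw [act_sub, ← act_mul, ← hγη]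
    have e2 : TTs (Nst s) (act γ c - c - (y - Sup.zC ζ hζ y)) := by
      have e3 := ((act_galA_subs hN hc hη).act hN γ₀).add hrel
      rw [← e1] at e3
      have e4 : act γ c - act γ₀ c + (act γ₀ c - c - (y - Sup.zC ζ hζ y)) =
          act γ c - c - (y - Sup.zC ζ hζ y) := by abel
      rwa [e4] at e3
    obtain ⟨B₂, hB₂, hB₂'⟩ := e2.2 2
    have e5 : ∀ σ ∈ (Nst s : Subgroup (Ω ≃ₐ[L] Ω)), act1 γ (c 2) σ =
        c 2 σ + (y 2 σ - zJ (zA F L Ω ζ) hζ (y 2 σ)) + cob B₂ σ := by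
      intro σ hσ
      rw [← hB₂' σ hσ]
      change _ = _ + (act1 γ (c 2) σ - c 2 σ - (y 2 σ - zJ (zA F L Ω ζ) hζ (y 2 σ)))
      abel
    let B : JacOver ℓ (curvePoly k F L g 1) Ω := tc12_V (zA F L Ω ζ) hζ B₂
      + symJ (toSym g 1 γ) Q - Q - ram m'
    have hB : B = tc12_V (zA F L Ω ζ) hζ B₂ + symJ (toSym g 1 γ) Q - Q - ram m' := rfl
    have hB3 : ℓ ^ 3 • B = 0 := by
      have hr : ℓ ^ 2 • (ram m' : Jac ℓ (cOver k F L Ω g 1)) = 0 := by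
        rw [pow_two, mul_smul, smul_ram, smul_zero]
      refine h32 B ?_
      rw [hB, smul_sub, smul_sub, smul_add, ← map_nsmul, ← map_nsmul, hQ2, hB₂, map_zero, hr,
        map_zero, add_zero, sub_zero, sub_zero]
    refine ⟨B, hB3, fun σ hσ => ?_⟩
    have f1 := tc12_V_sub (f := cOver k F L Ω g 1) (zA F L Ω ζ) hprim (y 2 σ)
    have f2 : ℓ • y 2 σ = y 1 σ := hy.smul 1 σ hσ
    rw [f2] at f1
    rw [hact, e5 σ hσ, map_add, map_add, map_sub, tc12_V_zJ, tc12_V_cob, f1, hm' σ hσ, hxdef, hB,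
      cob_sub, cob_sub, cob_add]
    simp only [Pi.add_apply, Pi.sub_apply]
    abel
  · -- vanishing
    intro σ' hσ' hloc
    have v2 := hD.vanish ha hc hcl 2 hloc hσ'
    have v1 := hD.vanish ha hc hcl 1 hloc hσ'
    have w1 := hD.vanish ha hy hyl 1 hloc hσ'
    have hfix : ∀ P : JacOver ℓ (curvePoly k F L g 1) Ω, ℓ ^ 2 • P = 0 → cob P σ' = 0 := by
      intro P hP
      rw [cob_apply, hD.fixt ha hloc 2 P hP, sub_self]
    have hr : ∀ n : Ω → ℤ, ℓ ^ 2 • (ram n : Jac ℓ (cOver k F L Ω g 1)) = 0 := by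
      intro n
      rw [pow_two, mul_smul, smul_ram, smul_zero]
    have hv0 : vJ (zA F L Ω ζ) hζ (0 : Jac ℓ (cOver k F L Ω g 1)) = 0 := by
      have h2 := vJ_sub (zA F L Ω ζ) hζ (0 : Jac ℓ (cOver k F L Ω g 1)) 0
      rwa [sub_self, sub_self] at h2
    refine ⟨?_, ?_, ?_⟩
    · rw [hxdef, v2, map_zero, hfix Q hQ2, add_zero]
    · rw [hm σ' hσ', v1, hfix _ (hr m), add_zero]
      exact hv0
    · rw [hm' σ' hσ', w1, hfix _ (hr m'), add_zero]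
      exact hv0

end Pool.Agent.Lib.MP_89bcae_ag.Sup

end

section

open Polynomial IsDedekindDomain

open scoped Classical

set_option linter.unusedSectionVars false

namespace Pool.Agent.Lib.MP_89bcae_ag.Sup

universe u

variable {k F : Type u} [Field k] [Field F] [Algebra k F] [IsAlgClosure k F]
  {ℓ : ℕ} {g E : k[X]} {ζ : k}

lemma tk02_zpow_zmod {ζF : F} (hp : ℓ.Prime) (hζ : IsPrimitiveRoot ζF ℓ) {m n : ℤ}
    (h : ζF ^ m = ζF ^ n) : (m : ZMod ℓ) = n := by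
  have h0 : ζF ≠ 0 := hζ.ne_zero hp.ne_zero
  have h1 : ζF ^ (m - n) = 1 := by
    rw [zpow_sub₀ h0, h, div_self (zpow_ne_zero _ h0)]
  have h2 : (ℓ : ℤ) ∣ m - n := (hζ.zpow_eq_one_iff_dvd (m - n)).1 h1
  have h3 : ((m - n : ℤ) : ZMod ℓ) = 0 := (ZMod.intCast_zmod_eq_zero_iff_dvd (m - n) ℓ).2 h2
  rw [Int.cast_sub] at h3
  exact sub_eq_zero.1 h3

theorem Formula.kap (H : GlobHyp ℓ g E ζ) (U : F ≃ₐ[k] F) (hU : ∀ β ∈ RR F g E, U β = β)
    {a : F} (ha : aeval a E = 0) {b κ₀ : ℤ} {e e' : F → ℤ} {cst : ℤ}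
    (hf : Formula ℓ g E ζ U a b κ₀ e e' cst) :
    ∀ β : F, aeval β g = a →
      (b : ZMod ℓ) * (Sup.kap ℓ (algebraMap k F ζ) U (algebraMap k F E.leadingCoeff) * e β +
          sumO g E (Sup.kap ℓ (algebraMap k F ζ) U) (fun x => (e x : ZMod ℓ)) β +
          sumS g E (Sup.kap ℓ (algebraMap k F ζ) U) (fun x => (e x : ZMod ℓ)) β) =
        (e' β : ZMod ℓ) + cst +
          κ₀ * sumS g E (Sup.kap ℓ (algebraMap k F ζ) U) (fun x => (e x : ZMod ℓ)) β := by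
  intro β hβ
  have : IsAlgClosed F := IsAlgClosure.isAlgClosed k
  have : Fact ℓ.Prime := ⟨H.prime⟩
  have hβR : β ∈ RR F g E := (mem_RR H).2 (by rw [hβ, ha])
  have hprim : IsPrimitiveRoot (algebraMap k F ζ) ℓ :=
    H.zeta.map_of_injective (algebraMap k F).injective
  have hUζ : (U : F ≃+* F) (algebraMap k F ζ) = algebraMap k F ζ := U.commutes ζ
  have hUl : (U : F ≃+* F) (algebraMap k F E.leadingCoeff) = algebraMap k F E.leadingCoeff :=
    U.commutes _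
  have hE0 : E ≠ 0 := by
    rintro rfl
    exact H.pos natDegree_zero
  have hl0 : algebraMap k F E.leadingCoeff ≠ 0 := by
    rw [Ne, map_eq_zero]
    exact leadingCoeff_ne_zero.2 hE0
  have hd0 : ∀ S : Finset F, S ⊆ RR F g E → ∀ β' ∈ S.erase β, (β - β') ^ (e β - e β') ≠ 0 := by
    intro S _ β' hβ'
    exact zpow_ne_zero _ (sub_ne_zero.2 (Finset.ne_of_mem_erase hβ').symm)
  have hdU : ∀ S : Finset F, S ⊆ RR F g E → ∀ β' ∈ S.erase β,
      (U : F ≃+* F) ((β - β') ^ (e β - e β')) = (β - β') ^ (e β - e β') := by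
    intro S hS β' hβ'
    have h1 : (U : F ≃+* F) β = β := hU β hβR
    have h2 : (U : F ≃+* F) β' = β' := hU β' (hS (Finset.mem_of_mem_erase hβ'))
    rw [map_zpow₀, map_sub, h1, h2]
  have hsum : ∀ S : Finset F, S ⊆ RR F g E → β ∈ S →
      Sup.kap ℓ (algebraMap k F ζ) U (∏ β' ∈ S.erase β, (β - β') ^ (e β - e β')) =
        ∑ β' ∈ S, Sup.kap ℓ (algebraMap k F ζ) U (β - β') * ((e β : ZMod ℓ) - e β') := by
    intro S hS hβS
    have h1 := kap_prod (U : F ≃+* F) H.prime hprim hUζ (S.erase β)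
      (fun β' => (β - β') ^ (e β - e β')) (hd0 S hS) (hdU S hS)
    have h2 : Sup.kap ℓ (algebraMap k F ζ) U (∏ β' ∈ S.erase β, (β - β') ^ (e β - e β')) =
      ∑ β' ∈ S.erase β, Sup.kap ℓ (algebraMap k F ζ) U ((β - β') ^ (e β - e β')) := h1
    rw [h2, ← Finset.add_sum_erase S _ hβS, sub_self, sub_self ((e β : ZMod ℓ)), mul_zero, zero_add]
    refine Finset.sum_congr rfl fun β' hβ' => ?_
    have h3 : (U : F ≃+* F) (β - β') = β - β' := by
      have h1 : (U : F ≃+* F) β = β := hU β hβR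
      have h2 : (U : F ≃+* F) β' = β' := hU β' (hS (Finset.mem_of_mem_erase hβ'))
      rw [map_sub, h1, h2]
    have h4 := kap_zpow (U : F ≃+* F) H.prime hprim hUζ
      (sub_ne_zero.2 (Finset.ne_of_mem_erase hβ').symm : β - β' ≠ 0) h3 (e β - e β')
    have h5 : Sup.kap ℓ (algebraMap k F ζ) U ((β - β') ^ (e β - e β')) =
      ((e β - e β' : ℤ) : ZMod ℓ) * Sup.kap ℓ (algebraMap k F ζ) U (β - β') := h4
    rw [h5]
    push_cast
    ring
  have hprod0 : ∀ S : Finset F, S ⊆ RR F g E → (∏ β' ∈ S.erase β, (β - β') ^ (e β - e β')) ≠ 0 :=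
    fun S hS => Finset.prod_ne_zero_iff.2 (hd0 S hS)
  have hprodU : ∀ S : Finset F, S ⊆ RR F g E →
      (U : F ≃+* F) (∏ β' ∈ S.erase β, (β - β') ^ (e β - e β')) =
        ∏ β' ∈ S.erase β, (β - β') ^ (e β - e β') := by
    intro S hS
    rw [map_prod]
    exact Finset.prod_congr rfl (hdU S hS)
  set z₂ : F := ∏ β' ∈ ((RR F g E).filter (fun β' => aeval β' g = aeval β g)).erase β,
      (β - β') ^ (e β - e β') with hz₂
  set z₁ : F := ∏ β' ∈ (RR F g E).erase β, (β - β') ^ (e β - e β') with hz₁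
  have hz₁0 : z₁ ≠ 0 := hprod0 _ (Finset.Subset.refl _)
  have hz₂0 : z₂ ≠ 0 := hprod0 _ (Finset.filter_subset _ _)
  have hUz₁ : (U : F ≃+* F) z₁ = z₁ := hprodU _ (Finset.Subset.refl _)
  have hUz₂ : (U : F ≃+* F) z₂ = z₂ := hprodU _ (Finset.filter_subset _ _)
  have hUle : (U : F ≃+* F) (algebraMap k F E.leadingCoeff ^ e β) =
      algebraMap k F E.leadingCoeff ^ e β := by
    rw [map_zpow₀, hUl]
  have hle0 : algebraMap k F E.leadingCoeff ^ e β ≠ 0 := zpow_ne_zero _ hl0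
  obtain ⟨x₀, hx₀⟩ := IsAlgClosed.exists_pow_nat_eq
    (algebraMap k F E.leadingCoeff ^ e β * z₁) H.prime.pos
  obtain ⟨x₂, hx₂⟩ := IsAlgClosed.exists_pow_nat_eq z₂ H.prime.pos
  have hx₀0 : x₀ ≠ 0 := by
    rintro rfl
    rw [zero_pow H.prime.ne_zero] at hx₀
    exact mul_ne_zero hle0 hz₁0 hx₀.symm
  have hx₂0 : x₂ ≠ 0 := by
    rintro rfl
    rw [zero_pow H.prime.ne_zero] at hx₂
    exact hz₂0 hx₂.symm
  have hform := hf β hβ x₀ x₂ hx₀ hx₂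
  have k0 : U x₀ = algebraMap k F ζ ^
      (Sup.kap ℓ (algebraMap k F ζ) U (algebraMap k F E.leadingCoeff ^ e β * z₁)).val * x₀ :=
    kap_spec (U : F ≃+* F) H.prime hprim hUζ (mul_ne_zero hle0 hz₁0)
      (by rw [map_mul, hUle, hUz₁]) hx₀
  have k2 : U x₂ = algebraMap k F ζ ^ (Sup.kap ℓ (algebraMap k F ζ) U z₂).val * x₂ :=
    kap_spec (U : F ≃+* F) H.prime hprim hUζ hz₂0 hUz₂ hx₂
  have km : Sup.kap ℓ (algebraMap k F ζ) U (algebraMap k F E.leadingCoeff ^ e β * z₁) =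
      (e β : ZMod ℓ) * Sup.kap ℓ (algebraMap k F ζ) U (algebraMap k F E.leadingCoeff) +
        Sup.kap ℓ (algebraMap k F ζ) U z₁ := by
    have h1 := kap_mul (U : F ≃+* F) H.prime hprim hUζ hle0 hz₁0 hUle hUz₁
    have h2 := kap_zpow (U : F ≃+* F) H.prime hprim hUζ hl0 hUl (e β)
    have h1' : Sup.kap ℓ (algebraMap k F ζ) U (algebraMap k F E.leadingCoeff ^ e β * z₁) =
      Sup.kap ℓ (algebraMap k F ζ) U (algebraMap k F E.leadingCoeff ^ e β) +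
        Sup.kap ℓ (algebraMap k F ζ) U z₁ := h1
    have h2' : Sup.kap ℓ (algebraMap k F ζ) U (algebraMap k F E.leadingCoeff ^ e β) =
      (e β : ZMod ℓ) * Sup.kap ℓ (algebraMap k F ζ) U (algebraMap k F E.leadingCoeff) := h2
    rw [h1', h2']
  rw [k0, k2] at hform
  set K₀ := Sup.kap ℓ (algebraMap k F ζ) U (algebraMap k F E.leadingCoeff ^ e β * z₁) with hK₀
  set K₂ := Sup.kap ℓ (algebraMap k F ζ) U z₂ with hK₂
  have hζ0 : algebraMap k F ζ ≠ 0 := hprim.ne_zero H.prime.ne_zero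
  have key : algebraMap k F ζ ^ ((K₀.val : ℤ) * b) =
      algebraMap k F ζ ^ ((e' β + cst) + (K₂.val : ℤ) * κ₀) := by
    have h1 : (algebraMap k F ζ ^ K₀.val * x₀) ^ b =
        algebraMap k F ζ ^ ((K₀.val : ℤ) * b) * x₀ ^ b := by
      rw [mul_zpow, ← zpow_natCast, ← zpow_mul]
    have h2 : (algebraMap k F ζ ^ K₂.val * x₂) ^ κ₀ =
        algebraMap k F ζ ^ ((K₂.val : ℤ) * κ₀) * x₂ ^ κ₀ := by
      rw [mul_zpow, ← zpow_natCast, ← zpow_mul]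
    rw [h1, h2] at hform
    have h3 : x₀ ^ b * x₂ ^ κ₀ ≠ 0 := mul_ne_zero (zpow_ne_zero _ hx₀0) (zpow_ne_zero _ hx₂0)
    refine mul_right_cancel₀ h3 ?_
    rw [zpow_add₀ hζ0]
    linear_combination hform
  have hcast := tk02_zpow_zmod H.prime hprim key
  have c0 : ((K₀.val : ℤ) : ZMod ℓ) = K₀ := by
    rw [Int.cast_natCast, ZMod.natCast_zmod_val]
  have c2 : ((K₂.val : ℤ) : ZMod ℓ) = K₂ := by
    rw [Int.cast_natCast, ZMod.natCast_zmod_val]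
  push_cast at hcast
  rw [ZMod.natCast_zmod_val, ZMod.natCast_zmod_val] at hcast
  have s1 : Sup.kap ℓ (algebraMap k F ζ) U z₁ =
      sumO g E (Sup.kap ℓ (algebraMap k F ζ) U) (fun x => (e x : ZMod ℓ)) β +
      sumS g E (Sup.kap ℓ (algebraMap k F ζ) U) (fun x => (e x : ZMod ℓ)) β := by
    rw [hz₁, hsum _ (Finset.Subset.refl _) hβR, sumO, sumS, add_comm]
    exact (Finset.sum_filter_add_sum_filter_not _ _ _).symm
  have s2 : K₂ = sumS g E (Sup.kap ℓ (algebraMap k F ζ) U) (fun x => (e x : ZMod ℓ)) β := by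
    rw [hK₂, hz₂, hsum ((RR F g E).filter (fun β' => aeval β' g = aeval β g))
      (Finset.filter_subset _ _) (Finset.mem_filter.2 ⟨hβR, rfl⟩), sumS]
  rw [km, s1, s2] at hcast
  linear_combination hcast

end Pool.Agent.Lib.MP_89bcae_ag.Sup

end

section

open Polynomial IsDedekindDomain

open scoped Classical

set_option linter.unusedSectionVars false

namespace Pool.Agent.Lib.MP_89bcae_ag.Sup

universe u

variable {k F L Ω : Type u} [Field k] [Field F] [Algebra k F] [Field L] [Algebra F[X] L]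
  [Field Ω] [Algebra L Ω] [IsAlgClosure k F] [IsFractionRing F[X] L] [IsAlgClosure L Ω]
  [Algebra F Ω] {ℓ : ℕ} {g E : k[X]} [hG : IsGood ℓ (cOver k F L Ω g 1)] {ζ : k}
  {hζ : (zA F L Ω ζ) ^ ℓ = 1} {r : ℕ} {ζr : F} {s : Ω}

/-- Two automorphisms over `k(t)` which differ by an element of `N` act in the same way on the classes. -/
lemma tc13_tts (hN : Nrm k F (Nst s : Subgroup (Ω ≃ₐ[L] Ω))) {η : Coch ℓ k F L Ω g 1}
    (hc : TCs (Nst s) η) (γ₀ : AutO k F L Ω) {n : Ω ≃ₐ[L] Ω}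
    (hn : n ∈ (Nst s : Subgroup (Ω ≃ₐ[L] Ω))) :
    TTs (Nst s) (act (γ₀ * galA k F n) η - act γ₀ η) := by
  rw [act_mul, ← act_sub]
  exact (act_galA_subs hN hc hn).act hN γ₀

lemma tc13_v (hz : IsPrimitiveRoot (zA F L Ω ζ) ℓ)
    {A : JacOver ℓ (curvePoly k F L g 1) Ω} (hA : ℓ ^ 1 • A = 0) :
    zJ (zA F L Ω ζ) hζ (vJ (zA F L Ω ζ) hζ A) = vJ (zA F L Ω ζ) hζ A ∧
      ℓ ^ 1 • vJ (zA F L Ω ζ) hζ A = 0 := by
  constructor
  · have h1 : vJ (zA F L Ω ζ) hζ A - zJ (zA F L Ω ζ) hζ (vJ (zA F L Ω ζ) hζ A) = ℓ • A :=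
      vJ_sub_zJ _ hz A
    rw [pow_one] at hA
    rw [hA] at h1
    exact (sub_eq_zero.1 h1).symm
  · rw [← vJ_smul, hA]
    have h2 := vJ_sub (zA F L Ω ζ) hζ (0 : JacOver ℓ (curvePoly k F L g 1) Ω) 0
    rwa [sub_self, sub_self] at h2

theorem TowDat.form2 (hF : CompatF F L Ω) (hD : TowDat (L := L) ℓ r g E ζ ζr s)
    {η : Coch ℓ k F L Ω g 1} (hc : TCs (Nst s) η) (hcl : LTs (Nst s) η)
    {τ₀ : Ω ≃ₐ[L] Ω} (hτ₀ : τ₀ s = xA F L Ω ζr * s)
    {γ₀ : AutO k F L Ω} (hγ₀ : (γ₀ : Ω ≃+* Ω) s = s) (hU : ∀ β ∈ RR F g E, resF γ₀ β = β)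
    (hS0 : ∀ x₀ : F, x₀ ^ ℓ = -1 → resF γ₀ x₀ = x₀)
    {h h' : Ch ℓ k F L Ω g 1} (hh : MCs ζ hζ ⊤ h) (hh' : MCs ζ hζ ⊤ h') {m m' : Ω → ℤ}
    (hm : ∀ σ ∈ (Nst s : Subgroup (Ω ≃ₐ[L] Ω)),
      h σ = vJ (zA F L Ω ζ) hζ ((η - act (galA k F τ₀) η) 1 σ) + cob (ram m) σ)
    (hm' : ∀ σ ∈ (Nst s : Subgroup (Ω ≃ₐ[L] Ω)),
      h' σ = vJ (zA F L Ω ζ) hζ ((act γ₀ η - η) 1 σ) + cob (ram m') σ)
    {e e' : F → ℤ} (he : HasExpM ζ E h e) (he' : HasExpM ζ E h' e')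
    {a : F} (ha : aeval a E = 0) :
    ∃ cst : ℤ, Formula ℓ g E ζ (resF γ₀) a 1 0 e e' cst := by
  have hz : IsPrimitiveRoot (zA F L Ω ζ) ℓ := zA_primitive hD.glob
  have hN : Nrm k F (Nst s : Subgroup (Ω ≃ₐ[L] Ω)) := hD.nrm
  obtain ⟨q, hq, hUq⟩ := hD.exists_q (resF γ₀) hS0
  set x : Ch ℓ k F L Ω g 1 := fun σ => vJ (zA F L Ω ζ) hζ (η 1 σ) with hx
  have hact : ∀ (γ : AutO k F L Ω) (σ : Ω ≃ₐ[L] Ω),
      act1 γ x σ = vJ (zA F L Ω ζ) hζ (act γ η 1 σ) := by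
    intro γ σ
    have h1 := act1_vJ γ ζ hζ (η 1)
    rw [act_apply1]
    exact congrFun h1 σ
  have hram : ∀ m : Ω → ℤ, ℓ ^ 1 • (ram m : JacOver ℓ (curvePoly k F L g 1) Ω) = 0 := by
    intro m
    rw [pow_one]
    exact smul_ram m
  refine TowDat.form0 hF hD 1 1 0 ((hc.c1 1).vJ ζ hζ) hh hh' he he' (resF γ₀) hU hS0 hq hUq ?_ ?_ ha ?_
  · intro τ hτ
    have hn : τ₀⁻¹ * τ ∈ (Nst s : Subgroup (Ω ≃ₐ[L] Ω)) := inv_mul_mem_nst (by rw [hτ₀, hτ])
    obtain ⟨-, h2⟩ := tc13_tts hN hc (galA k F τ₀) hn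
    obtain ⟨A₁, hA₁, hA₁c⟩ := h2 1
    have e1 : galA k F τ₀ * galA k F (τ₀⁻¹ * τ) = galA k F τ := by
      rw [← map_mul, mul_inv_cancel_left]
    rw [e1] at hA₁c
    obtain ⟨v1, v2⟩ := tc13_v (hζ := hζ) hz hA₁
    refine ⟨ram m + vJ (zA F L Ω ζ) hζ A₁, ?_, ?_, ?_⟩
    · rw [smul_add, hram, v2, add_zero]
    · intro σ hσ
      have h3 := hA₁c σ hσ
      have h4 := hm σ hσ
      have h5 : act (galA k F τ) η 1 σ = act (galA k F τ₀) η 1 σ + cob A₁ σ := by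
        rw [← h3]
        exact (add_sub_cancel _ _).symm
      have h6 : h σ = vJ (zA F L Ω ζ) hζ (η 1 σ) - vJ (zA F L Ω ζ) hζ (act (galA k F τ₀) η 1 σ) +
          cob (ram m) σ := by
        rw [h4, ← vJ_sub]
        rfl
      rw [hact, h5, vJ_add, vJ_cob, cob_add, Pi.add_apply, one_smul, h6]
      change _ = vJ (zA F L Ω ζ) hζ (η 1 σ) - _ + _
      abel
    · rw [map_add, zJ_ram, v1, sub_self, zero_smul]
  · intro γ hγ hγs
    obtain ⟨n, hn, rfl⟩ := exists_galA_nst (γ := γ₀) (γ' := γ) (s := s) hγ.symm (by rw [hγ₀, hγs])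
    obtain ⟨-, h2⟩ := tc13_tts hN hc γ₀ hn
    obtain ⟨B₁, hB₁, hB₁c⟩ := h2 1
    obtain ⟨v1, v2⟩ := tc13_v (hζ := hζ) hz hB₁
    refine ⟨vJ (zA F L Ω ζ) hζ B₁ - ram m', ?_, ?_⟩
    · rw [smul_sub, hram, v2, sub_zero]
    · intro σ hσ
      have h3 := hB₁c σ hσ
      have h4 := hm' σ hσ
      have h5 : act (γ₀ * galA k F n) η 1 σ = act γ₀ η 1 σ + cob B₁ σ := by
        rw [← h3]
        exact (add_sub_cancel _ _).symm
      have h6 : h' σ = vJ (zA F L Ω ζ) hζ (act γ₀ η 1 σ) - vJ (zA F L Ω ζ) hζ (η 1 σ) +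
          cob (ram m') σ := by
        rw [h4, ← vJ_sub]
        rfl
      rw [hact, h5, vJ_add, vJ_cob, cob_sub, Pi.sub_apply, h6]
      change _ = vJ (zA F L Ω ζ) hζ (η 1 σ) + _ + _
      abel
  · intro σ' hσ' hloc
    have hv0 : vJ (zA F L Ω ζ) hζ (0 : JacOver ℓ (curvePoly k F L g 1) Ω) = 0 := by
      have h2 := vJ_sub (zA F L Ω ζ) hζ (0 : JacOver ℓ (curvePoly k F L g 1) Ω) 0
      rwa [sub_self, sub_self] at h2
    have z0 : η 1 σ' = 0 := hD.vanish ha hc hcl 1 hloc hσ'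
    have z1 : act (galA k F τ₀) η 1 σ' = 0 := hD.vanish ha (hc.act hN _) (hcl.act hN _) 1 hloc hσ'
    have z2 : act γ₀ η 1 σ' = 0 := hD.vanish ha (hc.act hN _) (hcl.act hN _) 1 hloc hσ'
    have zc : ∀ m : Ω → ℤ, cob (ram m : JacOver ℓ (curvePoly k F L g 1) Ω) σ' = 0 := by
      intro m
      rw [cob_apply, hD.fixt ha hloc 1 _ (hram m), sub_self]
    refine ⟨?_, ?_, ?_⟩
    · change vJ (zA F L Ω ζ) hζ (η 1 σ') = 0
      rw [z0, hv0]
    · have e1 : (η - act (galA k F τ₀) η) 1 σ' = η 1 σ' - act (galA k F τ₀) η 1 σ' := rfl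
      rw [hm σ' hσ', e1, z0, z1, sub_self, hv0, zc, add_zero]
    · have e1 : (act γ₀ η - η) 1 σ' = act γ₀ η 1 σ' - η 1 σ' := rfl
      rw [hm' σ' hσ', e1, z0, z2, sub_self, hv0, zc, add_zero]

end Pool.Agent.Lib.MP_89bcae_ag.Sup

end

section

/-!
There are no non-trivial classes in `WWs N` which are fixed by `τ`.
-/

open Polynomial IsDedekindDomain

open scoped Classical

set_option linter.unusedSectionVars false

namespace Pool.Agent.Lib.MP_89bcae_ag.Sup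

universe u

variable {k F L Ω : Type u} [Field k] [Field F] [Algebra k F] [Field L] [Algebra F[X] L]
  [Field Ω] [Algebra L Ω] [IsAlgClosure k F] [IsFractionRing F[X] L] [IsAlgClosure L Ω]
  [Algebra F Ω] {ℓ : ℕ} {g E : k[X]} [hG : IsGood ℓ (cOver k F L Ω g 1)] {ζ : k}
  {hζ : (zA F L Ω ζ) ^ ℓ = 1} {r : ℕ} {ζr : F} {s : Ω}

/-- The operator `1 - Z`. -/
noncomputable def tf05_pi (hζ : (zA F L Ω ζ) ^ ℓ = 1) (x : Coch ℓ k F L Ω g 1) :
    Coch ℓ k F L Ω g 1 :=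
  x - Sup.zC ζ hζ x

lemma tf05_pi_sub (n : ℕ) (x y : Coch ℓ k F L Ω g 1) :
    (tf05_pi hζ)^[n] (x - y) = (tf05_pi hζ)^[n] x - (tf05_pi hζ)^[n] y := by
  induction n generalizing x y with
  | zero => rfl
  | succ n ih =>
    rw [Function.iterate_succ_apply, Function.iterate_succ_apply, Function.iterate_succ_apply,
      ← ih]
    congr 1
    unfold tf05_pi
    rw [map_sub]
    abel

lemma tf05_pi_tts {N : Subgroup (Ω ≃ₐ[L] Ω)} (n : ℕ) {x : Coch ℓ k F L Ω g 1}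
    (hx : TTs N x) : TTs N ((tf05_pi hζ)^[n] x) := by
  induction n generalizing x with
  | zero => exact hx
  | succ n ih =>
    rw [Function.iterate_succ_apply]
    exact ih (hx.sub (hx.zC ζ hζ))

/-- The condition on `γ` in the extension theorem. -/
def tf05_P (N : Subgroup (Ω ≃ₐ[L] Ω)) (x : Ch ℓ k F L Ω g 1) (γ : Ω ≃ₐ[L] Ω) : Prop :=
  ∃ A : JacOver ℓ (curvePoly k F L g 1) Ω, ℓ • A = 0 ∧
    ∀ σ ∈ N, act1 (galA k F γ) x σ = x σ + cob A σ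

lemma tf05_P_mul {N : Subgroup (Ω ≃ₐ[L] Ω)} (hN : Nrm k F N) {x : Ch ℓ k F L Ω g 1}
    {γ γ' : Ω ≃ₐ[L] Ω} (h : tf05_P N x γ) (h' : tf05_P N x γ') : tf05_P N x (γ * γ') := by
  obtain ⟨A, hA, hA2⟩ := h
  obtain ⟨B, hB, hB2⟩ := h'
  refine ⟨A + symJ (toSym g 1 (galA k F γ)) B, ?_, fun σ hσ => ?_⟩
  · rw [smul_add, hA, ← map_nsmul, hB, map_zero, add_zero]
  · have h1 : act1 (galA k F γ) (act1 (galA k F γ') x) σ =
        act1 (galA k F γ) (x + cob B) σ :=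
      act1_congr hN (galA k F γ) (fun σ hσ => hB2 σ hσ) σ hσ
    rw [map_mul, act1_mul, h1, act1_add, act1_cob, cob_add]
    change act1 (galA k F γ) x σ + cob (symJ (toSym g 1 (galA k F γ)) B) σ =
      x σ + (cob A σ + cob (symJ (toSym g 1 (galA k F γ)) B) σ)
    rw [hA2 σ hσ]
    abel

lemma tf05_P_one {N : Subgroup (Ω ≃ₐ[L] Ω)} {x : Ch ℓ k F L Ω g 1} : tf05_P N x 1 := by
  refine ⟨0, smul_zero _, fun σ _ => ?_⟩
  rw [map_one, act1_one, cob_zero]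
  change x σ = x σ + 0
  rw [add_zero]

lemma tf05_P_pow {N : Subgroup (Ω ≃ₐ[L] Ω)} (hN : Nrm k F N) {x : Ch ℓ k F L Ω g 1}
    {γ : Ω ≃ₐ[L] Ω} (h : tf05_P N x γ) (n : ℕ) : tf05_P N x (γ ^ n) := by
  induction n with
  | zero =>
    rw [pow_zero]
    exact tf05_P_one
  | succ n ih =>
    rw [pow_succ]
    exact tf05_P_mul hN ih h

/-- Division by `1 - Z` of the invariant classes. -/
lemma tf05_div (hF : CompatF F L Ω) (hD : TowDat (L := L) ℓ r g E ζ ζr s)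
    (hζ' : IsPrimitiveRoot (zA F L Ω ζ) ℓ)
    {τ : Ω ≃ₐ[L] Ω} (hτ : τ s = xA F L Ω ζr * s) {c : Coch ℓ k F L Ω g 1}
    (hc : WWs (Nst s) c) (h : TTs (Nst s) (act (galA k F τ) c - c)) :
    ∃ y : Coch ℓ k F L Ω g 1, WWs (Nst s) y ∧ TTs (Nst s) (act (galA k F τ) y - y) ∧
      TTs (Nst s) (c - (y - Sup.zC ζ hζ'.pow_eq_one y)) := by
  have hN := hD.nrm
  have hT : Trs (cOver k F L Ω g 1) (Nst s : Subgroup (Ω ≃ₐ[L] Ω)) := hD.trs
  have v0 : vJ (zA F L Ω ζ) hζ'.pow_eq_one (0 : JacOver ℓ (curvePoly k F L g 1) Ω) = 0 := by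
    have h1 := vJ_sub (zA F L Ω ζ) hζ'.pow_eq_one (0 : JacOver ℓ (curvePoly k F L g 1) Ω) 0
    rw [sub_self, sub_self] at h1
    exact h1
  set x : Ch ℓ k F L Ω g 1 := fun σ => vJ (zA F L Ω ζ) hζ'.pow_eq_one (c 1 σ) with hx
  have hkill : ∀ σ ∈ (Nst s : Subgroup (Ω ≃ₐ[L] Ω)), ℓ • c 1 σ = 0 := by
    intro σ hσ
    have := hc.1.pow_smul 1 hσ
    rwa [pow_one] at this
  have hxC : C1s (Nst s) x := (hc.1.c1 1).vJ ζ hζ'.pow_eq_one
  have hxM : MCs ζ hζ'.pow_eq_one (Nst s) x := by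
    refine ⟨hxC, fun σ hσ => ?_⟩
    have h1 := vJ_sub_zJ (zA F L Ω ζ) hζ' (c 1 σ)
    rw [hkill σ hσ] at h1
    exact (sub_eq_zero.mp h1).symm
  have hPτ : tf05_P (Nst s) x τ := by
    obtain ⟨A, hA, hA2⟩ := h.2 1
    rw [pow_one] at hA
    refine ⟨vJ (zA F L Ω ζ) hζ'.pow_eq_one A, ?_, fun σ hσ => ?_⟩
    · rw [← vJ_smul, hA, v0]
    · have h1 : act1 (galA k F τ) (c 1) σ = c 1 σ + cob A σ := by
        have h2 : act1 (galA k F τ) (c 1) σ - c 1 σ = cob A σ := hA2 σ hσ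
        rw [← h2]
        abel
      rw [hx, act1_vJ]
      change vJ (zA F L Ω ζ) hζ'.pow_eq_one (act1 (galA k F τ) (c 1) σ) = _
      rw [h1, vJ_add, vJ_cob]
  have hPN : ∀ η ∈ (Nst s : Subgroup (Ω ≃ₐ[L] Ω)), tf05_P (Nst s) x η := by
    intro η hη
    refine ⟨x η, ?_, fun σ hσ => act1_galA_sub hxC hη σ hσ⟩
    change ℓ • vJ (zA F L Ω ζ) hζ'.pow_eq_one (c 1 η) = 0
    rw [← vJ_smul, hkill η hη, v0]
  have hP : ∀ γ : Ω ≃ₐ[L] Ω, tf05_P (Nst s) x γ := by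
    intro γ
    obtain ⟨j, η, hη, rfl⟩ := hD.exists_mul hτ γ
    exact tf05_P_mul hN (tf05_P_pow hN hPτ j) (hPN η hη)
  obtain ⟨y₀, hy₀, hy₀x, -⟩ := exists_extM hζ' hT hN (opn_nst s) hxM hP
  have hram0 : cob (ram (fun _ => 0) : JacOver ℓ (curvePoly k F L g 1) Ω) =
      (0 : Ch ℓ k F L Ω g 1) := by
    have h1 := ram_sub (f := cOver k F L Ω g 1) (ℓ := ℓ) (fun _ => (0 : ℤ)) (fun _ => (0 : ℤ))
    rw [sub_self] at h1
    have h2 : (ram (fun _ => 0) : JacOver ℓ (curvePoly k F L g 1) Ω) = 0 := by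
      simpa using h1
    rw [h2, cob_zero]
  have hm : ∀ σ ∈ (Nst s : Subgroup (Ω ≃ₐ[L] Ω)),
      y₀ σ = vJ (zA F L Ω ζ) hζ'.pow_eq_one (c 1 σ) + cob (ram (fun _ => 0)) σ := by
    intro σ hσ
    rw [hram0, hy₀x σ hσ]
    change _ = _ + (0 : JacOver ℓ (curvePoly k F L g 1) Ω)
    rw [add_zero]
  obtain ⟨e, he⟩ := exists_hasExpM hF hD.glob hD.unr hy₀ hc.2.1 (fun _ => 0) hm
  have hd := hD.exp_zero hF hc.1 hc.2.1 hτ h hy₀ hm he
  obtain ⟨m, hmm⟩ := he.cob_of_dvd hF hD.glob hd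
  obtain ⟨y, hy, hy2⟩ := exists_divisionN hD.glob hζ' hT hN hc m (fun σ hσ => by
    rw [← hmm σ, hy₀x σ hσ])
  refine ⟨y, hy, ?_, hy2⟩
  have hyC : TCs (Nst s) (act (galA k F τ) y - y) := (hy.1.act hN _).sub hy.1
  refine TTs.of_sub_zC hζ' hT hyC ?_
  have h3 : act (galA k F τ) y - y - Sup.zC ζ hζ'.pow_eq_one (act (galA k F τ) y - y) =
      (act (galA k F τ) c - c) - (act (galA k F τ) (c - (y - Sup.zC ζ hζ'.pow_eq_one y)) -
        (c - (y - Sup.zC ζ hζ'.pow_eq_one y))) := by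
    rw [map_sub, act_sub, act_sub, act_zC]
    abel
  rw [h3]
  exact h.sub ((hy2.act hN _).sub hy2)

theorem TowDat.ker0 (hF : CompatF F L Ω) (hD : TowDat (L := L) ℓ r g E ζ ζr s)
    {τ : Ω ≃ₐ[L] Ω} (hτ : τ s = xA F L Ω ζr * s) {c : Coch ℓ k F L Ω g 1}
    (hc : WWs (Nst s) c) (h : TTs (Nst s) (act (galA k F τ) c - c)) : TTs (Nst s) c := by
  have hζ' : IsPrimitiveRoot (zA F L Ω ζ) ℓ := zA_primitive hD.glob
  have hT : Trs (cOver k F L Ω g 1) (Nst s : Subgroup (Ω ≃ₐ[L] Ω)) := hD.trs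
  have key : ∀ n : ℕ, ∃ y : Coch ℓ k F L Ω g 1, WWs (Nst s) y ∧
      TTs (Nst s) (act (galA k F τ) y - y) ∧
      TTs (Nst s) (c - (tf05_pi hζ'.pow_eq_one)^[n] y) := by
    intro n
    induction n with
    | zero =>
      refine ⟨c, hc, h, ?_⟩
      have h1 : c - (tf05_pi hζ'.pow_eq_one)^[0] c = 0 := sub_self c
      rw [h1]
      exact TTs.zero'
    | succ n ih =>
      obtain ⟨y, hy, hy2, hy3⟩ := ih
      obtain ⟨y', hy', hy2', hy3'⟩ := tf05_div hF hD hζ' hτ hy hy2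
      refine ⟨y', hy', hy2', ?_⟩
      have h1 := tf05_pi_tts (hζ := hζ'.pow_eq_one) n hy3'
      rw [tf05_pi_sub] at h1
      have h2 := hy3.add h1
      have h3 : c - (tf05_pi hζ'.pow_eq_one)^[n + 1] y' =
          c - (tf05_pi hζ'.pow_eq_one)^[n] y + ((tf05_pi hζ'.pow_eq_one)^[n] y -
            (tf05_pi hζ'.pow_eq_one)^[n] (y' - Sup.zC ζ hζ'.pow_eq_one y')) := by
        rw [Function.iterate_succ_apply]
        change c - (tf05_pi hζ'.pow_eq_one)^[n] (y' - Sup.zC ζ hζ'.pow_eq_one y') = _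
        abel
      rw [h3]
      exact h2
  refine TTs.of_separated hζ' hT hc.1 (fun n => ?_)
  obtain ⟨y, hy, -, hy3⟩ := key n
  exact ⟨y, hy.1, hy3⟩

end Pool.Agent.Lib.MP_89bcae_ag.Sup

end
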