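import Mathlib
import Pool.Agent.Lib.MP_89bcae_ag.Q.K049
import Pool.Agent.Lib.MP_89bcae_ag.Q.K058
import Pool.Agent.Lib.MP_89bcae_ag.Q.K060

section

/-!
ROW G19 (200-350 lines). Independence of the differences implies that all invariant Selmer classes
vanish.

PROOF. Suppose that some `c` with `WWc c` is not `TTc`. Apply `exists_eigen_sub` (A04) to
`C = Coch`, `W = {c | WWc c}`, `T = {c | TTc c}` (additive subgroups by G06, GDefs), `G` = the subgroup of
`Aut(Ω/k(t))` of the `γ` with `resF γ β = β` for all `β` in `RR`, acting by `act` (`DistribMulAction` built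
from `act_one`, `act_mul`, `act_add`, `act_zero`), `Z = zC`, `ι = RR` (subtype), and
`E c ε := ∃ e, HasExp c e ∧ ∀ β, (e β : ZMod ℓ) = ε β`. Hypotheses: `hE` = G13; `hadd`, `hneg`, `hZE`, `hGE`,
`hET` = G12; `hker` = G14; `hinj`, `hsep` = G08; `hfin` = definition of `WWc`; `hZ` = `sum_zC_mem`;
`hZG` = `act_zC`. It gives `c`, `e` not divisible by `ℓ` on `RR`, `HasExp c e`, and `b : G → ZMod ℓ` such that
for `γ` in `G` and `y` with `act γ c - c - (y - Zy)` trivial and `HasExp y e'`: `e' ≡ b(γ) e` on `RR`.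
For each `γ` in `G` such a `y` exists: `act γ c - c` has exponents `e - e = 0` (G12), so G14. By G18:
for `β` in `RR` and `x` with `x^ℓ = X_β := (ε lc)^{e β} ∏ (β - β')^{e β - e β'}`: `U x = ζ^{b(γ) e β} x`,
for all `U` in `Aut(F/k)` fixing `RR` pointwise (`resF_surjective`), where `b = b(γ)` for any `γ` over `U`.
Let `K = k(RR)`, `β₀` with `ℓ ∤ e β₀`, `j e β₀ ≡ 1` modulo `ℓ`, `x₀^ℓ = X_{β₀}`, `κ₀ = X_{β₀}^j ∈ K`,
`κ₀ = (x₀^j)^ℓ`: `U (x₀^j) = ζ^{b} x₀^j`. For each `β` choose `x_β`; `x_β / (x₀^j)^{e β}` is fixed by all `U`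
in `Aut(F/K)`, so it is purely inseparable over `K` (some `p^s`-th power is in `K`), and its `ℓ`-th power
`X_β κ₀^{-e β}` is in `K`; as `p` is prime to `ℓ`, it is in `K` itself (Bezout:
`p^s a + ℓ b' = 1`). So `X_β κ₀^{-e β} = w^ℓ`, `w ∈ K`. With `κ = (ε lc) κ₀⁻¹`:
`w^ℓ = κ^{e β} ∏ (β - β')^{e β - e β'}`, which contradicts `IsIndependent` (the fibre sums of `e` are divisible
by `ℓ`, `HasExp.sum`). The finite products of `IsIndependent` (`finprod`, `finsum`) have to be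
rewritten as products over `RR` (`finprod_mem_eq_prod...`; the fibre of `g` through `β` in `RR` is in `RR`).
-/

open Polynomial IsDedekindDomain

open scoped Classical

namespace Pool.Agent.Lib.MP_89bcae_ag.Sup

universe u

/-- An element of the algebraic closure with `ℓ`-th power in `K` which is fixed by all
automorphisms over `K` is in `K`. -/
private lemma g19_mem_of_fixed {k F : Type u} [Field k] [Field F] [Algebra k F] [IsAlgClosure k F]
    {ℓ : ℕ} (hℓ : (ℓ : k) ≠ 0) (K : IntermediateField k F) (y : F) (hy0 : y ≠ 0)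
    (hy : y ^ ℓ ∈ K) (hfix : ∀ U : F ≃ₐ[k] F, (∀ a ∈ K, U a = a) → U y = y) : y ∈ K := by
  have : IsAlgClosed F := IsAlgClosure.isAlgClosed k
  have : Algebra.IsAlgebraic k F := IsAlgClosure.isAlgebraic
  have : Algebra.IsAlgebraic K F := Algebra.IsAlgebraic.tower_top (K := k) K
  have : IsAlgClosure K F := ⟨inferInstance, inferInstance⟩
  have : Normal K F := IsAlgClosure.normal K F
  have hℓ0 : ℓ ≠ 0 := by
    rintro rfl
    exact hℓ (by simp)
  have hsep : IsSeparable K y := by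
    have h1 : (X ^ ℓ - C (⟨y ^ ℓ, hy⟩ : K)).Separable := by
      apply separable_X_pow_sub_C
      · intro h
        apply hℓ
        have h2 := congrArg (algebraMap K F) h
        rw [map_natCast, map_zero, ← map_natCast (algebraMap k F)] at h2
        exact (map_eq_zero _).mp h2
      · intro h
        have h2 := congrArg (fun z : K => (z : F)) h
        exact hy0 ((pow_eq_zero_iff hℓ0).mp h2)
    refine Polynomial.Separable.of_dvd h1 (minpoly.dvd K y ?_)
    rw [map_sub, map_pow, aeval_X, aeval_C]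
    exact sub_self _
  by_contra hyK
  have h3 : y ∉ (⊥ : Subalgebra K F) := by
    intro h
    rw [Algebra.mem_bot] at h
    obtain ⟨z, rfl⟩ := h
    exact hyK z.2
  rw [notMem_iff_exists_ne_and_isConjRoot hsep (IsAlgClosed.splits _)] at h3
  obtain ⟨y', hne, hconj⟩ := h3
  rw [isConjRoot_iff_exists_algEquiv] at hconj
  obtain ⟨σ, hσ⟩ := hconj
  have h4 := hfix (σ.restrictScalars k).symm (by
    intro a ha
    rw [AlgEquiv.symm_apply_eq]
    exact (σ.commutes ⟨a, ha⟩).symm)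
  rw [AlgEquiv.symm_apply_eq] at h4
  apply hne
  apply σ.injective
  rw [hσ]
  exact h4.symm

/-- The descent of the Kummer classes. -/
private lemma g19_descent {k F : Type u} [Field k] [Field F] [Algebra k F] [IsAlgClosure k F]
    {ℓ : ℕ} (hp : ℓ.Prime) (hℓ : (ℓ : k) ≠ 0) {ζ : k} (hζ : ζ ^ ℓ = 1) (K : IntermediateField k F)
    (S : Set F) (XX : F → F) (hX0 : ∀ β ∈ S, XX β ≠ 0) (hXK : ∀ β ∈ S, XX β ∈ K) (e : F → ℤ)
    {β₀ : F} (hβ₀ : β₀ ∈ S) (he : ¬ (ℓ : ℤ) ∣ e β₀)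
    (hU : ∀ U : F ≃ₐ[k] F, (∀ a ∈ K, U a = a) → ∃ b : ℤ, ∀ β ∈ S, ∀ x : F, x ^ ℓ = XX β →
      U x = algebraMap k F ζ ^ (b * e β) * x) :
    ∃ κ ∈ K, κ ≠ 0 ∧ ∀ β ∈ S, ∃ w ∈ K, w ^ ℓ = XX β * (κ ^ e β)⁻¹ := by
  have : IsAlgClosed F := IsAlgClosure.isAlgClosed k
  have hℓ0 : ℓ ≠ 0 := hp.ne_zero
  set z := algebraMap k F ζ with hz
  have hz1 : z ^ (ℓ : ℤ) = 1 := by
    rw [hz, zpow_natCast, ← map_pow, hζ, map_one]
  have hz0 : z ≠ 0 := by
    intro h
    rw [h, zpow_natCast, zero_pow hℓ0] at hz1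
    exact zero_ne_one hz1
  -- `j e β₀ = 1 + ℓ s`
  obtain ⟨j, s, hjs⟩ : ∃ j s : ℤ, e β₀ * j = 1 + ℓ * s := by
    have hcop : IsCoprime (e β₀) (ℓ : ℤ) := by
      rw [isCoprime_comm]
      exact (Nat.prime_iff_prime_int.mp hp).coprime_iff_not_dvd.mpr he
    obtain ⟨a, b, hab⟩ := hcop
    exact ⟨a, -b, by linarith⟩
  obtain ⟨x₀, hx₀⟩ := IsAlgClosed.exists_pow_nat_eq (XX β₀) (Nat.pos_of_ne_zero hℓ0)
  have hx₀0 : x₀ ≠ 0 := by
    rintro rfl
    rw [zero_pow hℓ0] at hx₀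
    exact hX0 β₀ hβ₀ hx₀.symm
  refine ⟨XX β₀ ^ j, zpow_mem (hXK β₀ hβ₀) j, zpow_ne_zero _ (hX0 β₀ hβ₀), ?_⟩
  intro β hβ
  obtain ⟨x, hx⟩ := IsAlgClosed.exists_pow_nat_eq (XX β) (Nat.pos_of_ne_zero hℓ0)
  have hx0 : x ≠ 0 := by
    rintro rfl
    rw [zero_pow hℓ0] at hx
    exact hX0 β hβ hx.symm
  have hpow : (x * ((x₀ ^ j) ^ e β)⁻¹) ^ ℓ = XX β * ((XX β₀ ^ j) ^ e β)⁻¹ := by
    rw [mul_pow, hx, inv_pow, ← hx₀]
    congr 2
    rw [← zpow_natCast, ← zpow_natCast, ← zpow_mul, ← zpow_mul, ← zpow_mul, ← zpow_mul]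
    congr 1
    ring
  refine ⟨x * ((x₀ ^ j) ^ e β)⁻¹, ?_, hpow⟩
  apply g19_mem_of_fixed hℓ K _ (mul_ne_zero hx0 (inv_ne_zero (zpow_ne_zero _ (zpow_ne_zero _ hx₀0))))
  · rw [hpow]
    exact K.mul_mem (hXK β hβ) (K.inv_mem (zpow_mem (zpow_mem (hXK β₀ hβ₀) j) _))
  · intro U hUK
    obtain ⟨b, hb⟩ := hU U hUK
    have h1 := hb β hβ x hx
    have h2 := hb β₀ hβ₀ x₀ hx₀
    rw [map_mul, map_inv₀, map_zpow₀, map_zpow₀, h1, h2]
    have h3 : (z ^ (b * e β₀) * x₀) ^ j = z ^ b * x₀ ^ j := by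
      rw [mul_zpow, ← zpow_mul, mul_assoc b, hjs, mul_add, mul_one, zpow_add₀ hz0,
        show b * ((ℓ : ℤ) * s) = ℓ * (b * s) by ring, zpow_mul z (ℓ : ℤ), hz1, one_zpow, mul_one]
    rw [h3, mul_zpow, ← zpow_mul]
    have hzz : z ^ (b * e β) ≠ 0 := zpow_ne_zero _ hz0
    have hxx : (x₀ ^ j) ^ e β ≠ 0 := zpow_ne_zero _ (zpow_ne_zero _ hx₀0)
    field_simp

variable {k F L Ω : Type u} [Field k] [Field F] [Algebra k F] [Field L] [Algebra F[X] L]
  [Field Ω] [Algebra L Ω] [IsAlgClosure k F] [IsFractionRing F[X] L] [IsAlgClosure L Ω]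
  [Algebra F Ω] {ℓ : ℕ} {g D : k[X]} [hG : IsGood ℓ (cOver k F L Ω g D)] {ζ : k}

/-- The automorphisms whose restriction fixes the roots. -/
private def g19G : Subgroup (AutO k F L Ω) where
  carrier := {γ | ∀ β ∈ RR F g D, resF γ β = β}
  mul_mem' {γ γ'} h h' β hβ := by
    rw [map_mul, AlgEquiv.mul_apply, h' β hβ, h β hβ]
  one_mem' β _ := by
    rw [map_one, AlgEquiv.one_apply]
  inv_mem' {γ} h β hβ := by
    rw [map_inv]
    have h1 := h β hβ
    calc (resF γ)⁻¹ β = (resF γ)⁻¹ (resF γ β) := by rw [h1]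
      _ = ((resF γ)⁻¹ * resF γ) β := rfl
      _ = β := by rw [inv_mul_cancel, AlgEquiv.one_apply]

/-- The action on the cochains. -/
@[instance_reducible]
private noncomputable def g19A : DistribMulAction (g19G (L := L) (Ω := Ω) (F := F) (g := g) (D := D))
    (Coch ℓ k F L Ω g D) where
  smul γ c := act (γ : AutO k F L Ω) c
  one_smul c := act_one c
  mul_smul _ _ c := act_mul _ _ c
  smul_zero _ := act_zero _
  smul_add _ c c' := act_add _ c c'

/-- The formula for one automorphism of `F`. -/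
private lemma g19_formula (hF : CompatF F L Ω) (H : GlobHyp ℓ g D ζ)
    {hζ : (zA F L Ω ζ) ^ ℓ = 1}
    {c : Coch ℓ k F L Ω g D} (hc : WWc c) {e : F → ℤ} (h : HasExp hζ c e) (γ : AutO k F L Ω)
    (hγ : ∀ β ∈ RR F g D, resF γ β = β) (b : ℤ)
    (hb : ∀ (y : Coch ℓ k F L Ω g D) (e' : F → ℤ), WWc y →
      TTc (act γ c - c - (y - Sup.zC ζ hζ y)) → HasExp hζ y e' →
      ∀ β ∈ RR F g D, (ℓ : ℤ) ∣ e' β - b * e β) :
    ∀ β ∈ RR F g D, ∀ x : F,
      x ^ ℓ = ((-1) ^ (ℓ + 1) * algebraMap k F D.leadingCoeff) ^ e β *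
        ∏ β' ∈ (RR F g D).filter fun β' => aeval β' g ≠ aeval β g, (β - β') ^ (e β - e β') →
      resF γ x = algebraMap k F ζ ^ (b * e β) * x := by
  intro β hβ x hx
  have h1 : HasExp hζ (act γ c - c) (fun β => e β + -e β) := by
    rw [sub_eq_add_neg]
    exact (h.act hF H γ hγ).add hF H (h.neg hF H)
  obtain ⟨y, hy, hyT⟩ := exists_division hF H ((hc.act γ).sub hc) h1
    (fun β _ => by rw [add_neg_cancel]; exact dvd_zero _)
  obtain ⟨e', he'⟩ := exists_hasExp (hζ := hζ) hF H hy.1 hy.2.1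
  have h2 := exists_formula_symm hF H hc.1 hc.2.1 hy.1 h he' γ hγ hyT β hβ x hx
  obtain ⟨s, hs⟩ := hb y e' hy hyT he' β hβ
  have hz1 : algebraMap k F ζ ^ (ℓ : ℤ) = 1 := by
    rw [zpow_natCast, ← map_pow, H.zeta.pow_eq_one, map_one]
  have hz0 : algebraMap k F ζ ≠ 0 := by
    rw [Ne, map_eq_zero]
    exact H.zeta.ne_zero H.prime.ne_zero
  rw [h2, show e' β = b * e β + ℓ * s by rw [← hs]; ring, zpow_add₀ hz0, zpow_mul _ (ℓ : ℤ), hz1,
    one_zpow, mul_one]

theorem TTc.of_WWc (hF : CompatF F L Ω) (H : GlobHyp ℓ g D ζ) (hI : IsIndependent ℓ k F g D)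
    {c : Coch ℓ k F L Ω g D} (hc : WWc c) : TTc c := by
  by_contra hcT
  have hζ0 : IsPrimitiveRoot (zA F L Ω ζ) ℓ := zA_primitive H
  have hζ : (zA F L Ω ζ) ^ ℓ = 1 := hζ0.pow_eq_one
  have : Fact ℓ.Prime := ⟨H.prime⟩
  let W : AddSubgroup (Coch ℓ k F L Ω g D) :=
    { carrier := {c | WWc c}
      zero_mem' := TTc.zero.ww
      add_mem' := fun h h' => WWc.add h h'
      neg_mem' := fun h => WWc.neg h }
  let T : AddSubgroup (Coch ℓ k F L Ω g D) :=
    { carrier := {c | TTc c}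
      zero_mem' := TTc.zero
      add_mem' := fun h h' => TTc.add h h'
      neg_mem' := fun h => TTc.neg h }
  have hW : ∀ c, c ∈ W ↔ WWc c := fun c => Iff.rfl
  have hT : ∀ c, c ∈ T ↔ TTc c := fun c => Iff.rfl
  obtain ⟨c, hc, ε, ⟨e, he, heε⟩, hε, a, ha⟩ :=
    @exists_eigen_sub ℓ _ (Coch ℓ k F L Ω g D)
    (g19G (L := L) (Ω := Ω) (F := F) (g := g) (D := D)) {β // β ∈ RR F g D} _ _ g19A _
    W T (Sup.zC ζ hζ)
    (fun c hc => hc.ww) (fun c hc => WWc.zC H hc hζ) (fun c hc => TTc.zC hc ζ hζ)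
    (by
      intro u c hc
      exact WWc.act (γ := (u : AutO k F L Ω)) hc)
    (by
      intro u c hc
      exact TTc.act (γ := (u : AutO k F L Ω)) hc)
    (fun c hc => by
      rw [sum_zC_mem ζ hζ0 c]
      exact TTc.zero)
    (by
      intro u c hc
      change TTc (Sup.zC ζ hζ (Sup.act (u : AutO k F L Ω) c) -
        Sup.act (u : AutO k F L Ω) (Sup.zC ζ hζ c))
      rw [act_zC, sub_self]
      exact TTc.zero)
    (fun c hc hcT => TTc.of_sub_zC H hζ hc.1 hcT)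
    (fun c hc h => TTc.of_separated H hζ hc.1 (fun n => by
      obtain ⟨y, hy, hyT⟩ := h n
      exact ⟨y, hy.1, hyT⟩))
    (fun c ε => ∃ e : F → ℤ, HasExp hζ c e ∧ ∀ β : {β // β ∈ RR F g D}, ε β = (e β : ZMod ℓ))
    (fun c hc => by
      obtain ⟨e, he⟩ := exists_hasExp (hζ := hζ) hF H hc.1 hc.2.1
      exact ⟨fun β => (e β : ZMod ℓ), e, he, fun β => rfl⟩)
    (by
      rintro c hc c' hc' ε ε' ⟨e, he, h⟩ ⟨e', he', h'⟩
      refine ⟨_, he.add hF H he', fun β => ?_⟩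
      rw [Pi.add_apply, h, h', Int.cast_add])
    (by
      rintro c hc ε ⟨e, he, h⟩
      refine ⟨_, he.neg hF H, fun β => ?_⟩
      rw [Pi.neg_apply, h, Int.cast_neg])
    (by
      rintro c hc ε ⟨e, he, h⟩
      funext β
      rw [h, Pi.zero_apply, ZMod.intCast_zmod_eq_zero_iff_dvd]
      exact he.dvd_of_TTc hF H hc β β.2)
    (by
      rintro c hc ε ⟨e, he, h⟩
      exact ⟨e, he.zC hF H, h⟩)
    (by
      rintro c hc ⟨e, he, h⟩
      exact exists_division hF H hc he (fun β hβ => by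
        rw [← ZMod.intCast_zmod_eq_zero_iff_dvd, ← h ⟨β, hβ⟩, Pi.zero_apply]))
    (by
      rintro u c hc ε ⟨e, he, h⟩
      exact ⟨e, he.act hF H _ u.2, h⟩)
    (by
      intro u c hc
      obtain ⟨M, hM, h⟩ := hc.2.2 (u : AutO k F L Ω)
      exact ⟨M, hM, h⟩)
    (fun h => hcT (h hc))
  -- an exponent not divisible by `ℓ`
  obtain ⟨β₀, hβ₀, heβ₀⟩ : ∃ β₀ ∈ RR F g D, ¬ (ℓ : ℤ) ∣ e β₀ := by
    by_contra h
    push Not at h
    apply hε
    funext β
    rw [heε, Pi.zero_apply, ZMod.intCast_zmod_eq_zero_iff_dvd]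
    exact h β β.2
  set K := IntermediateField.adjoin k (roots k F g D) with hK
  have hRK : ∀ β ∈ RR F g D, β ∈ K := fun β hβ =>
    IntermediateField.subset_adjoin k _ ((mem_RR H).mp hβ)
  have hmemR : ∀ β, β ∈ roots k F g D ↔ β ∈ RR F g D := fun β => (mem_RR H).symm
  set c0 : F := (-1) ^ (ℓ + 1) * algebraMap k F D.leadingCoeff with hc0
  have hD0 : D ≠ 0 := by
    rintro rfl
    exact H.pos natDegree_zero
  have hc00 : c0 ≠ 0 := by
    rw [hc0]
    refine mul_ne_zero (pow_ne_zero _ (neg_ne_zero.mpr one_ne_zero)) ?_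
    rw [Ne, map_eq_zero, leadingCoeff_eq_zero]
    exact hD0
  have hc0K : c0 ∈ K := by
    rw [hc0]
    exact K.mul_mem (pow_mem (K.neg_mem K.one_mem) _) (K.algebraMap_mem _)
  obtain ⟨κ, hκK, hκ0, hκ⟩ := g19_descent (k := k) (F := F) H.prime H.ne H.zeta.pow_eq_one K
    (RR F g D : Set F)
    (fun β => c0 ^ e β *
      ∏ β' ∈ (RR F g D).filter fun β' => aeval β' g ≠ aeval β g, (β - β') ^ (e β - e β'))
    (by
      intro β hβ
      refine mul_ne_zero (zpow_ne_zero _ hc00) (Finset.prod_ne_zero_iff.mpr fun β' hβ' =>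
        zpow_ne_zero _ ?_)
      rw [Finset.mem_filter] at hβ'
      intro h0
      exact hβ'.2 (by rw [sub_eq_zero.mp h0]))
    (by
      intro β hβ
      refine K.mul_mem (zpow_mem hc0K _) (prod_mem fun β' hβ' => zpow_mem (K.sub_mem (hRK β hβ)
        (hRK β' (Finset.mem_filter.mp hβ').1)) _))
    e hβ₀ heβ₀
    (by
      intro U hU
      obtain ⟨γ, rfl⟩ := resF_surjective (L := L) (Ω := Ω) U
      have hγ : ∀ β ∈ RR F g D, resF γ β = β := fun β hβ => hU β (hRK β hβ)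
      refine ⟨((a ⟨γ, hγ⟩).val : ℤ), ?_⟩
      refine g19_formula hF H hc he γ hγ _ ?_
      intro y e' hy hyT he' β hβ
      have h1 := ha ⟨γ, hγ⟩ y hy (fun β => (e' β : ZMod ℓ)) hyT ⟨e', he', fun β => rfl⟩
      have h2 := congrFun h1 ⟨β, hβ⟩
      rw [← ZMod.intCast_zmod_eq_zero_iff_dvd]
      rw [Pi.smul_apply, heε, smul_eq_mul] at h2
      push_cast
      rw [h2, ZMod.natCast_zmod_val, sub_self])
  have h1 := hI e (c0 * κ⁻¹) (mul_ne_zero hc00 (inv_ne_zero hκ0))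
    (K.mul_mem hc0K (K.inv_mem hκK))
    (by
      intro β hβ
      have h2 := he.sum (aeval β g)
      have h3 : {β' : F | aeval β' g = aeval β g} =
          (((RR F g D).filter fun β' => aeval β' g = aeval β g : Finset F) : Set F) := by
        ext β'
        rw [Finset.coe_filter, Set.mem_ofPred_eq, Set.mem_ofPred_eq]
        refine ⟨fun h => ⟨?_, h⟩, fun h => h.2⟩
        rw [mem_RR H, h]
        exact hβ
      rw [h3, finsum_mem_coe_finset]
      exact h2)
    (by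
      intro β hβ
      obtain ⟨w, hw, hwe⟩ := hκ β ((hmemR β).mp hβ)
      refine ⟨w, hw, ?_⟩
      have h3 : {β' ∈ roots k F g D | aeval β' g ≠ aeval β g} =
          (((RR F g D).filter fun β' => aeval β' g ≠ aeval β g : Finset F) : Set F) := by
        ext β'
        rw [Finset.coe_filter, Set.mem_ofPred_eq, Set.mem_ofPred_eq, hmemR]
      rw [h3, finprod_mem_coe_finset, hwe, mul_zpow c0, inv_zpow]
      ring)
  exact heβ₀ (h1 β₀ ((hmemR β₀).mpr hβ₀))

end Pool.Agent.Lib.MP_89bcae_ag.Sup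

end

section

/-!
ROW G20 (80-160 lines). THE MAIN THEOREM.

PROOF. `IsGood` by `isGood_cOver`, `Algebra F Ω` through `L` (`letI`; `CompatF` is then `rfl`). Let `c` be as
in `NoTateClass` (`LTc` is the case `v = plc a`). It is in `WW`: for `γ` in `Aut(Ω/k(t))`, `k'` is generated by
finitely many elements algebraic over `k`, which have finitely many conjugates, so
`U = resF γ` has a power `U^M`, `M > 0`, which fixes `k'` pointwise (the orbit of each generator under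
`U` is finite), i.e. `γ^M` fixes `k'(t)`; by hypothesis the class of `c` is fixed up to torsion by
`γ^M`, and `TTc.of_isFixedBy` (G08). Then `TTc.of_WWc` (G19).
-/

open Polynomial IsDedekindDomain

open scoped Classical

namespace Pool.Agent.Lib.MP_89bcae_ag.Sup

universe u

lemma G20_exists_pow {k F : Type u} [Field k] [Field F] [Algebra k F] [IsAlgClosure k F]
    (k' : IntermediateField k F) [FiniteDimensional k k'] (U : F ≃ₐ[k] F) :
    ∃ M : ℕ, 0 < M ∧ ∀ x : k', (U ^ M) (x : F) = x := by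
  haveI : Finite (k' →ₐ[k] F) := inferInstance
  obtain ⟨a, b, hab, h⟩ := Finite.exists_ne_map_eq_of_infinite
    (fun n : ℕ => ((U ^ n : F ≃ₐ[k] F) : F →ₐ[k] F).comp k'.val)
  wlog hlt : a < b generalizing a b with H
  · exact H b a hab.symm h.symm (lt_of_le_of_ne (not_lt.mp hlt) hab.symm)
  refine ⟨b - a, Nat.sub_pos_of_lt hlt, fun x => ?_⟩
  have hx := DFunLike.congr_fun h x
  have hx' : (U ^ a) (x : F) = (U ^ b) (x : F) := hx
  have e : U ^ b = U ^ a * U ^ (b - a) := by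
    rw [← pow_add, Nat.add_sub_cancel' hlt.le]
  rw [e, AlgEquiv.mul_apply] at hx'
  exact ((U ^ a).injective hx').symm

theorem main {ℓ : ℕ} (k F L Ω : Type u) [Field k] [Field F] [Algebra k F] [IsAlgClosure k F]
    [Field L] [Algebra F[X] L] [IsFractionRing F[X] L] [Field Ω] [Algebra L Ω] [IsAlgClosure L Ω]
    (g D : k[X]) (ζ : k) (H : GlobHyp ℓ g D ζ) (hI : IsIndependent ℓ k F g D)
    (k' : IntermediateField k F) [FiniteDimensional k k'] :
    NoTateClass ℓ L Ω g D k' := by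
  letI : Algebra F Ω := ((algebraMap L Ω).comp ((algebraMap F[X] L).comp C)).toAlgebra
  have hF : CompatF F L Ω := fun c => rfl
  haveI : IsAlgClosed Ω := IsAlgClosure.isAlgClosed L
  haveI : IsGood ℓ (cOver k F L Ω g D) := isGood_cOver H
  intro c hc hloc hfix
  have hW : WWc (k := k) (F := F) (L := L) (Ω := Ω) (g := g) (D := D) c := by
    refine ⟨hc, fun a n => hloc (plc a) n, fun γ => ?_⟩
    obtain ⟨M, hM, hMx⟩ := G20_exists_pow k' (resF γ)
    refine ⟨M, hM, TTc.of_isFixedBy H hc (γ ^ M) (hfix _ _ fun p => ?_)⟩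
    have h1 : base k' F L Ω p =
        algebraMap L Ω (algebraMap F[X] L (p.map (algebraMap k' F))) := rfl
    rw [h1, resF_spec, Polynomial.map_map]
    have h2 : ((resF (γ ^ M) : F ≃ₐ[k] F) : F →+* F).comp (algebraMap k' F) =
        algebraMap k' F := by
      refine RingHom.ext fun x => ?_
      rw [map_pow]
      exact hMx x
    rw [h2]
  exact (TTc.of_WWc hF H hI hW).2

end Pool.Agent.Lib.MP_89bcae_ag.Sup

end
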