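import Mathlib
import Pool.Agent.Lib.MP_89bcae_ag.Q.K056
import Pool.Agent.Lib.MP_89bcae_ag.Q.K057
import Pool.Agent.Lib.MP_89bcae_ag.Q.K062

section

open Polynomial IsDedekindDomain

open scoped Classical

set_option linter.unusedSectionVars false

namespace Pool.Agent.Lib.MP_89bcae_ag.Sup

universe u

variable {k F L Ω : Type u} [Field k] [Field F] [Algebra k F] [Field L] [Algebra F[X] L]
  [Field Ω] [Algebra L Ω] [IsAlgClosure k F] [IsFractionRing F[X] L] [IsAlgClosure L Ω]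
  [Algebra F Ω] {ℓ : ℕ} {g E : k[X]} [hG : IsGood ℓ (cOver k F L Ω g 1)] {ζ : k}
  {hζ : (zA F L Ω ζ) ^ ℓ = 1} {r : ℕ} {ζr : F} {s : Ω}

lemma tf03_zC_add (c c' : Coch ℓ k F L Ω g 1) :
    Sup.zC ζ hζ (c + c') = Sup.zC ζ hζ c + Sup.zC ζ hζ c' := by
  exact map_add _ _ _

lemma tf03_zC_zero : Sup.zC ζ hζ (0 : Coch ℓ k F L Ω g 1) = 0 := by
  exact map_zero _

/-- the sum `∑_{j<b} Z^j c`. -/
lemma tf03_sum (c : Coch ℓ k F L Ω g 1) (b : ℕ) :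
    (∑ j ∈ Finset.range b, (Sup.zC ζ hζ)^[j] c) -
      Sup.zC ζ hζ (∑ j ∈ Finset.range b, (Sup.zC ζ hζ)^[j] c) = c - (Sup.zC ζ hζ)^[b] c := by
  induction b with
  | zero =>
    rw [Finset.sum_range_zero, tf03_zC_zero, Function.iterate_zero, id, sub_self, sub_self]
  | succ b ih =>
    rw [Finset.sum_range_succ, tf03_zC_add, ← Function.iterate_succ_apply' (Sup.zC ζ hζ) b c]
    have h1 : ∀ x y z w : Coch ℓ k F L Ω g 1, x + y - (z + w) = (x - z) + (y - w) := by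
      intro x y z w
      abel
    rw [h1, ih]
    abel

theorem formula_zero (hF : CompatF F L Ω) (hD : TowDat (L := L) ℓ r g E ζ ζr s)
    {τ : Ω ≃ₐ[L] Ω} (hτ : τ s = xA F L Ω ζr * s) {b : ℕ} (hb : ¬ ℓ ∣ b)
    {c c₁ : Coch ℓ k F L Ω g 1} (hc : IsW hζ s τ 0 b c) (hc₁ : IsW hζ s τ 0 b c₁)
    {e e₁ : F → ℤ} (he : HasExpT hζ E s τ 0 c e) (he₁ : HasExpT hζ E s τ 0 c₁ e₁)
    {γ : AutO k F L Ω} (hγs : (γ : Ω ≃+* Ω) s = s) (hU : ∀ β ∈ RR F g E, resF γ β = β)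
    (hS0 : ∀ x₀ : F, x₀ ^ ℓ = -1 → resF γ x₀ = x₀)
    (hrel : TTs (Nst s) (Sup.act γ c - c - (c₁ - Sup.act (galA k F τ) c₁))) :
    ∃ n₁ : ZMod ℓ, ∀ a : F, aeval a E = 0 → ∃ cst : ZMod ℓ, ∀ β : F, aeval β g = a →
      sumO g E (kap ℓ (algebraMap k F ζ) (resF γ)) (fun x => (e x : ZMod ℓ)) β +
        (1 - (b : ZMod ℓ)⁻¹) *
          sumS g E (kap ℓ (algebraMap k F ζ) (resF γ)) (fun x => (e x : ZMod ℓ)) β +
        n₁ * (e β : ZMod ℓ) = (e₁ β : ZMod ℓ) + cst := by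
  have H : GlobHyp ℓ g E ζ := hD.glob
  have : Fact ℓ.Prime := ⟨H.prime⟩
  have hb0 : (b : ZMod ℓ) ≠ 0 := by
    rw [Ne, ZMod.natCast_eq_zero_iff]
    exact hb
  obtain ⟨hcW, hcT⟩ := hc
  obtain ⟨hc₁W, hc₁T⟩ := id hc₁
  rw [pow_zero, pow_one] at hcT hc₁T
  -- the iterates
  have hit : ∀ j, IsW hζ s τ 0 b ((Sup.zC ζ hζ)^[j] c₁) ∧ HasExpT hζ E s τ 0 ((Sup.zC ζ hζ)^[j] c₁) e₁ := by
    intro j
    induction j with
    | zero => exact ⟨hc₁, he₁⟩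
    | succ j ih =>
      rw [Function.iterate_succ_apply']
      exact ⟨ih.1.zC hD, ih.2.zC hF hD ih.1.1.1⟩
  have hy : ∀ b' : ℕ, IsW hζ s τ 0 b (∑ j ∈ Finset.range b', (Sup.zC ζ hζ)^[j] c₁) ∧
      HasExpT hζ E s τ 0 (∑ j ∈ Finset.range b', (Sup.zC ζ hζ)^[j] c₁) (fun β => (b' : ℤ) * e₁ β) := by
    intro b'
    induction b' with
    | zero =>
      rw [Finset.sum_range_zero]
      refine ⟨TTs.zero'.isW hD, ?_⟩
      have h1 := HasExpT.zero (hζ := hζ) hF hD τ 0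
      have h2 : (fun β : F => ((0 : ℕ) : ℤ) * e₁ β) = fun _ => 0 := by
        funext β
        simp
      rw [h2]
      exact h1
    | succ b' ih =>
      rw [Finset.sum_range_succ]
      refine ⟨ih.1.add hD (hit b').1, ?_⟩
      have h1 := ih.2.add hF hD (hit b').2
      have h2 : (fun β : F => ((b' + 1 : ℕ) : ℤ) * e₁ β) = fun β => (b' : ℤ) * e₁ β + e₁ β := by
        funext β
        push_cast
        ring
      rw [h2]
      exact h1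
  set y : Coch ℓ k F L Ω g 1 := ∑ j ∈ Finset.range b, (Sup.zC ζ hζ)^[j] c₁ with hyd
  have hyW := (hy b).1
  have hyE := (hy b).2
  have hsum := tf03_sum (hζ := hζ) c₁ b
  rw [← hyd] at hsum
  have hrel' : TTs (Nst s) (Sup.act γ c - c - (y - Sup.zC ζ hζ y)) := by
    have h1 := hrel.sub hc₁T
    have h2 : Sup.act γ c - c - (y - Sup.zC ζ hζ y) =
        Sup.act γ c - c - (c₁ - Sup.act (galA k F τ) c₁) -
          (Sup.act (galA k F τ) c₁ - (Sup.zC ζ hζ)^[b] c₁) := by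
      rw [hsum]
      abel
    rw [h2]
    exact h1
  obtain ⟨h, m, hh, hhe, hm⟩ := he
  obtain ⟨h', m', hh', hhe', hm'⟩ := hyE
  refine ⟨kap ℓ (algebraMap k F ζ) (resF γ) (algebraMap k F E.leadingCoeff), fun a ha => ?_⟩
  obtain ⟨cst, hform⟩ := TowDat.form1 hF hD hcW.1 hcW.2.1 hyW.1.1 hyW.1.2.1 hτ hcT hγs hU hS0 hrel'
    hh hh' hm hm' hhe hhe' ha
  refine ⟨(cst : ZMod ℓ) * (b : ZMod ℓ)⁻¹, fun β hβ => ?_⟩
  have hk := hform.kap H (resF γ) hU ha β hβ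
  push_cast at hk
  generalize sumO g E (kap ℓ (algebraMap k F ζ) (resF γ)) (fun x => (e x : ZMod ℓ)) β = A at hk ⊢
  generalize sumS g E (kap ℓ (algebraMap k F ζ) (resF γ)) (fun x => (e x : ZMod ℓ)) β = B at hk ⊢
  generalize kap ℓ (algebraMap k F ζ) (resF γ) (algebraMap k F E.leadingCoeff) = κ at hk ⊢
  refine mul_left_cancel₀ hb0 ?_
  have hbb : (b : ZMod ℓ) * (b : ZMod ℓ)⁻¹ = 1 := mul_inv_cancel₀ hb0
  linear_combination hk + (-B + (-1) * (cst : ZMod ℓ)) * hbb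

end Pool.Agent.Lib.MP_89bcae_ag.Sup

end

section

/-!
TF09: the formula for eigenclasses, `i > 0`.
-/

open Polynomial IsDedekindDomain

open scoped Classical

set_option linter.unusedSectionVars false

namespace Pool.Agent.Lib.MP_89bcae_ag.Sup

universe u

variable {k F L Ω : Type u} [Field k] [Field F] [Algebra k F] [Field L] [Algebra F[X] L]
  [Field Ω] [Algebra L Ω] [IsAlgClosure k F] [IsFractionRing F[X] L] [IsAlgClosure L Ω]
  [Algebra F Ω] {ℓ : ℕ} {g E : k[X]} [hG : IsGood ℓ (cOver k F L Ω g 1)] {ζ : k}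
  {hζ : (zA F L Ω ζ) ^ ℓ = 1} {r : ℕ} {ζr : F} {s : Ω}

private lemma tf09_pw_sub (τ : Ω ≃ₐ[L] Ω) (n : ℕ) (c c' : Coch ℓ k F L Ω g 1) :
    pw τ n (c - c') = pw τ n c - pw τ n c' := by
  rw [sub_eq_add_neg, pw_add, pw_neg, ← sub_eq_add_neg]

theorem formula_succ (hF : CompatF F L Ω) (hD : TowDat (L := L) ℓ r g E ζ ζr s)
    {τ : Ω ≃ₐ[L] Ω} (hτ : τ s = xA F L Ω ζr * s) {i b : ℕ} (hi : 0 < i) (hb : ¬ ℓ ∣ b)
    {c c₁ : Coch ℓ k F L Ω g 1} (hc : IsW hζ s τ i b c) (hc₁ : IsW hζ s τ i b c₁)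
    {e e₁ : F → ℤ} (he : HasExpT hζ E s τ (ℓ ^ i - 1) c e)
    (he₁ : HasExpT hζ E s τ (ℓ ^ i - 1) c₁ e₁)
    {γ : AutO k F L Ω} (hγs : (γ : Ω ≃+* Ω) s = s) (hU : ∀ β ∈ RR F g E, resF γ β = β)
    (hS0 : ∀ x₀ : F, x₀ ^ ℓ = -1 → resF γ x₀ = x₀)
    (hrel : TTs (Nst s) (Sup.act γ c - c - (c₁ - Sup.act (galA k F τ) c₁))) :
    ∃ n₁ : ZMod ℓ, ∀ a : F, aeval a E = 0 → ∃ cst : ZMod ℓ, ∀ β : F, aeval β g = a →
      sumO g E (kap ℓ (algebraMap k F ζ) (resF γ)) (fun x => (e x : ZMod ℓ)) β +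
        1 * sumS g E (kap ℓ (algebraMap k F ζ) (resF γ)) (fun x => (e x : ZMod ℓ)) β +
        n₁ * (e β : ZMod ℓ) = (e₁ β : ZMod ℓ) + cst := by
  have hℓ : ℓ.Prime := hD.glob.prime
  obtain ⟨n, hn⟩ : ∃ n, ℓ ^ i - 1 = n + 1 := by
    have h1 : 2 ≤ ℓ ^ i := by
      calc 2 ≤ ℓ := hℓ.two_le
        _ = ℓ ^ 1 := (pow_one ℓ).symm
        _ ≤ ℓ ^ i := Nat.pow_le_pow_right hℓ.pos hi
    exact ⟨ℓ ^ i - 2, by omega⟩
  obtain ⟨q, hqo, hq⟩ := hD.exists_q (resF γ) hS0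
  obtain ⟨s', hs'⟩ := pw_act_rel (hζ := hζ) hD hτ hb (i := i) n γ hqo hq
  obtain ⟨w, hw, hrelw⟩ := hs' c hc
  have hη : IsW hζ s τ i b (Sup.pw τ n c) := IsW.pw hD hτ n hc
  have hact : HasExpT hζ E s τ (ℓ ^ i - 1) (Sup.act γ c) e :=
    HasExpT.act hF hD hτ hb hc he γ hqo hq hU
  have h2 : HasExpT hζ E s τ (ℓ ^ i - 1)
      (c₁ + (s' • Sup.act γ c + (w - Sup.act (galA k F τ) w)))
      (fun β => e₁ β + (s' * e β + 0)) :=
    HasExpT.add hF hD he₁ (HasExpT.add hF hD (HasExpT.zsmul hF hD hact s')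
      (IsW.exp_sub_act hF hD hτ hb hw))
  have htts : TTs (Nst s) ((Sup.act γ (Sup.pw τ n c) - Sup.pw τ n c) -
      Sup.pw τ (n + 1) (c₁ + (s' • Sup.act γ c + (w - Sup.act (galA k F τ) w)))) := by
    have h3 := TTs.pw hD τ n hrel
    have h4 := hrelw.add h3
    have h5 : (Sup.act γ (Sup.pw τ n c) - Sup.pw τ n c) -
      Sup.pw τ (n + 1) (c₁ + (s' • Sup.act γ c + (w - Sup.act (galA k F τ) w))) =
      Sup.act γ (Sup.pw τ n c) - (Sup.pw τ n (Sup.act γ c) +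
          Sup.pw τ (n + 1) (s' • Sup.act γ c + (w - Sup.act (galA k F τ) w))) +
        Sup.pw τ n (Sup.act γ c - c - (c₁ - Sup.act (galA k F τ) c₁)) := by
      rw [tf09_pw_sub τ n (Sup.act γ c - c), tf09_pw_sub τ n (Sup.act γ c), ← pw_succ' τ n c₁,
        pw_add τ (n + 1) c₁]
      abel
    rw [h5]
    exact h4
  obtain ⟨m₃, hm₃⟩ := vJ_trivial (hζ := hζ) hD htts
  obtain ⟨h, m, hM, hE, hm⟩ := he
  obtain ⟨h', m', hM', hE', hm'⟩ := h2
  rw [hn] at hm hm'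
  have key : ∀ a : F, aeval a E = 0 → ∃ cst : ℤ,
      Formula ℓ g E ζ (resF γ) a 1 0 e (fun β => e₁ β + (s' * e β + 0)) cst := by
    intro a ha
    refine hD.form2 hF hη.1.1 hη.1.2.1 hτ hγs hU hS0 hM hM' (m := m)
      (m' := fun θ => m' θ - m₃ θ) ?_ ?_ hE hE' ha
    · intro σ hσ
      rw [hm σ hσ, pw_succ]
    · intro σ hσ
      rw [hm' σ hσ]
      have h5 : vJ (zA F L Ω ζ) hζ ((Sup.act γ (Sup.pw τ n c) - Sup.pw τ n c) 1 σ) -
          vJ (zA F L Ω ζ) hζ (Sup.pw τ (n + 1)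
            (c₁ + (s' • Sup.act γ c + (w - Sup.act (galA k F τ) w))) 1 σ) =
          cob (ram m₃) σ := by
        rw [← vJ_sub]
        exact hm₃ σ hσ
      have h6 : cob (ram fun θ => m' θ - m₃ θ) σ =
          (cob (ram m') : Ch ℓ k F L Ω g 1) σ - cob (ram m₃) σ := by
        rw [ram_sub, cob_sub]
        rfl
      rw [h6, ← h5]
      abel
  refine ⟨kap ℓ (algebraMap k F ζ) (resF γ) (algebraMap k F E.leadingCoeff) - s',
    fun a ha => ?_⟩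
  obtain ⟨cst, hcst⟩ := key a ha
  refine ⟨cst, fun β hβ => ?_⟩
  have h6 := Formula.kap hD.glob (resF γ) hU ha hcst β hβ
  push_cast at h6 ⊢
  linear_combination h6

end Pool.Agent.Lib.MP_89bcae_ag.Sup

end

section

open Polynomial IsDedekindDomain

open scoped Classical

set_option linter.unusedSectionVars false

namespace Pool.Agent.Lib.MP_89bcae_ag.Sup

universe u

variable {k F L Ω : Type u} [Field k] [Field F] [Algebra k F] [Field L] [Algebra F[X] L]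
  [Field Ω] [Algebra L Ω] [IsAlgClosure k F] [IsFractionRing F[X] L] [IsAlgClosure L Ω]
  [Algebra F Ω] {ℓ : ℕ} {g E : k[X]} [hG : IsGood ℓ (cOver k F L Ω g 1)] {ζ : k}
  {hζ : (zA F L Ω ζ) ^ ℓ = 1} {r : ℕ} {ζr : F} {s : Ω}

/-- The criterion for `U` and the set of fibres `B`. -/
structure CR (ℓ r : ℕ) {k F : Type u} [Field k] [Field F] [Algebra k F] (g E : k[X]) (ζ : k)
    (U : F ≃ₐ[k] F) (B : Set F) : Prop where
  fix : ∀ β ∈ RR F g E, U β = β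
  neg : ∀ x : F, x ^ ℓ = -1 → U x = x
  sep : ∀ μ : ZMod ℓ, (r = 1 → μ ≠ 1) → SepU g E (kap ℓ (algebraMap k F ζ) U) μ B

/-- The classes whose exponents vanish on the fibres over `B`. -/
noncomputable def PB (hF : CompatF F L Ω) (hD : TowDat (L := L) ℓ r g E ζ ζr s)
    (hζ : (zA F L Ω ζ) ^ ℓ = 1) {τ : Ω ≃ₐ[L] Ω} (hτ : τ s = xA F L Ω ζr * s) (i : ℕ) {b : ℕ}
    (hb : ¬ ℓ ∣ b) (B : Set F) : AddSubgroup (Coch ℓ k F L Ω g 1) where
  carrier := {c | IsW hζ s τ i b c ∧ ∀ e : F → ℤ, HasExpT hζ E s τ (ℓ ^ i - 1) c e →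
    ∀ β ∈ RR F g E, aeval β g ∈ B → (ℓ : ℤ) ∣ e β}
  zero_mem' := by
    refine ⟨TTs.zero'.isW hD, fun e he β hβ _ => ?_⟩
    have h := HasExpT.unique hF hD he (HasExpT.zero hF hD τ _) β hβ
    rwa [sub_zero] at h
  add_mem' := by
    rintro c c' ⟨hc, h⟩ ⟨hc', h'⟩
    refine ⟨hc.add hD hc', fun e he β hβ hB => ?_⟩
    obtain ⟨e₁, he₁⟩ := HasExpT.exists hF hD hτ hb hc
    obtain ⟨e₂, he₂⟩ := HasExpT.exists hF hD hτ hb hc'
    have h3 := HasExpT.unique hF hD he (HasExpT.add hF hD he₁ he₂) β hβ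
    have h1 := h e₁ he₁ β hβ hB
    have h2 := h' e₂ he₂ β hβ hB
    have h4 := dvd_add h3 (dvd_add h1 h2)
    rwa [sub_add_cancel] at h4
  neg_mem' := by
    rintro c ⟨hc, h⟩
    refine ⟨hc.neg hD, fun e he β hβ hB => ?_⟩
    obtain ⟨e₁, he₁⟩ := HasExpT.exists hF hD hτ hb hc
    have h3 := HasExpT.unique hF hD he (HasExpT.neg hF hD he₁) β hβ
    have h1 := h e₁ he₁ β hβ hB
    have h4 := dvd_add h3 ((dvd_neg).2 h1)
    rwa [sub_add_cancel] at h4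

lemma mem_PB (hF : CompatF F L Ω) (hD : TowDat (L := L) ℓ r g E ζ ζr s)
    {τ : Ω ≃ₐ[L] Ω} (hτ : τ s = xA F L Ω ζr * s) (i : ℕ) {b : ℕ}
    (hb : ¬ ℓ ∣ b) (B : Set F) {c : Coch ℓ k F L Ω g 1} : c ∈ PB hF hD hζ hτ i hb B ↔
      IsW hζ s τ i b c ∧ ∀ e : F → ℤ, HasExpT hζ E s τ (ℓ ^ i - 1) c e →
        ∀ β ∈ RR F g E, aeval β g ∈ B → (ℓ : ℤ) ∣ e β := Iff.rfl

lemma tt_le_PB (hF : CompatF F L Ω) (hD : TowDat (L := L) ℓ r g E ζ ζr s)
    {τ : Ω ≃ₐ[L] Ω} (hτ : τ s = xA F L Ω ζr * s) (i : ℕ) {b : ℕ}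
    (hb : ¬ ℓ ∣ b) (B : Set F) : TT ℓ k F g s ≤ PB hF hD hζ hτ i hb B := by
  intro c hc
  have hc' : TTs (Nst s) c := hc
  refine (mem_PB hF hD hτ i hb B).2 ⟨hc'.isW hD, fun e he β hβ _ => ?_⟩
  have h0 : HasExpT hζ E s τ (ℓ ^ i - 1) c (fun _ => 0) :=
    HasExpT.of_tts hF hD (HasExpT.zero hF hD τ _) (by rw [sub_zero]; exact hc')
  have h := HasExpT.unique hF hD he h0 β hβ
  rwa [sub_zero] at h

lemma sub_act_mem_PB (hF : CompatF F L Ω) (hD : TowDat (L := L) ℓ r g E ζ ζr s)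
    {τ : Ω ≃ₐ[L] Ω} (hτ : τ s = xA F L Ω ζr * s) (i : ℕ) {b : ℕ}
    (hb : ¬ ℓ ∣ b) (B : Set F) {c : Coch ℓ k F L Ω g 1} (hc : IsW hζ s τ i b c) :
    c - Sup.act (galA k F τ) c ∈ PB hF hD hζ hτ i hb B := by
  refine (mem_PB hF hD hτ i hb B).2 ⟨hc.sub hD (hc.actτ hD hτ), fun e he β hβ _ => ?_⟩
  have h := HasExpT.unique hF hD he (IsW.exp_sub_act hF hD hτ hb hc) β hβ
  rwa [sub_zero] at h

/-- If `c` is in `PB` for sets `B` covering the roots of `E` then its exponents are zero. -/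
lemma exp_of_mem_PB (hF : CompatF F L Ω) (hD : TowDat (L := L) ℓ r g E ζ ζr s)
    {τ : Ω ≃ₐ[L] Ω} (hτ : τ s = xA F L Ω ζr * s) (i : ℕ) {b : ℕ}
    (hb : ¬ ℓ ∣ b) {ι : Type*} (B : ι → Set F) (hB : ∀ a : F, aeval a E = 0 → ∃ x, a ∈ B x)
    {c : Coch ℓ k F L Ω g 1} (hc : IsW hζ s τ i b c)
    (h : ∀ x, c ∈ PB hF hD hζ hτ i hb (B x)) :
    ∃ e : F → ℤ, HasExpT hζ E s τ (ℓ ^ i - 1) c e ∧ ∀ β ∈ RR F g E, (ℓ : ℤ) ∣ e β := by
  obtain ⟨e, he⟩ := HasExpT.exists hF hD hτ hb hc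
  refine ⟨e, he, fun β hβ => ?_⟩
  obtain ⟨x, hx⟩ := hB (aeval β g) ((mem_RR hD.glob).1 hβ)
  exact ((mem_PB hF hD hτ i hb (B x)).1 (h x)).2 e he β hβ hx

lemma tow_step_rel (hF : CompatF F L Ω) (hD : TowDat (L := L) ℓ r g E ζ ζr s)
    {τ : Ω ≃ₐ[L] Ω} (hτ : τ s = xA F L Ω ζr * s) {i b : ℕ} (hb : ¬ ℓ ∣ b)
    {c : Coch ℓ k F L Ω g 1} (hc : IsW hζ s τ i b c) (γ : AutO k F L Ω) {q : ℕ}
    (hqo : QOk ℓ q) (hq : resF γ ζr = ζr ^ q) (hγ : ∀ β ∈ RR F g E, resF γ β = β) :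
    ∃ c₁ : Coch ℓ k F L Ω g 1, IsW hζ s τ i b c₁ ∧
      TTs (Nst s) (Sup.act γ c - c - (c₁ - Sup.act (galA k F τ) c₁)) := by
  obtain ⟨e, he⟩ := HasExpT.exists hF hD hτ hb hc
  have hc' : IsW hζ s τ i b (Sup.act γ c) := hc.act hD hτ γ hqo hq
  have he' := HasExpT.act hF hD hτ hb hc he γ hqo hq hγ
  have he2 := HasExpT.add hF hD he' (HasExpT.neg hF hD he)
  rw [← sub_eq_add_neg] at he2
  refine (IsW.div_of_exp hF hD hτ hb (hc'.sub hD hc) he2 fun β _ => ?_).2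
  rw [add_neg_cancel]
  exact dvd_zero _

lemma tf04_qok_one (ℓ : ℕ) : QOk ℓ 1 := by
  refine ⟨Nat.one_pos, ?_, ?_⟩
  · rw [Nat.sub_self]
    exact dvd_zero _
  · rw [Nat.choose_eq_zero_of_lt (by omega)]
    exact dvd_zero _

/-- The sum of the `τ^j c`, `j < n`. -/
lemma tf04_tele (hF : CompatF F L Ω) (hD : TowDat (L := L) ℓ r g E ζ ζr s)
    {τ : Ω ≃ₐ[L] Ω} (hτ : τ s = xA F L Ω ζr * s) {i b : ℕ} (hb : ¬ ℓ ∣ b)
    {c : Coch ℓ k F L Ω g 1} (hc : IsW hζ s τ i b c) {e : F → ℤ}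
    (he : HasExpT hζ E s τ (ℓ ^ i - 1) c e) (n : ℕ) :
    ∃ d : Coch ℓ k F L Ω g 1, IsW hζ s τ i b d ∧
      HasExpT hζ E s τ (ℓ ^ i - 1) d (fun β => n * e β) ∧
      d - Sup.act (galA k F τ) d = c - Sup.act (galA k F (τ ^ n)) c := by
  induction n with
  | zero =>
    refine ⟨0, TTs.zero'.isW hD, ?_, ?_⟩
    · refine HasExpT.congr hF hD (HasExpT.zero hF hD τ _) fun β _ => ?_
      rw [Nat.cast_zero, zero_mul, sub_zero]
      exact dvd_zero _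
    · rw [act_zero, sub_zero, pow_zero, map_one, act_one, sub_self]
  | succ n ih =>
    obtain ⟨d, hd, hde, hdt⟩ := ih
    have hq1 : resF (galA k F (τ ^ n) : AutO k F L Ω) ζr = ζr ^ 1 := by
      rw [resF_galA, pow_one]
      rfl
    have hRR : ∀ β ∈ RR F g E, resF (galA k F (τ ^ n) : AutO k F L Ω) β = β := by
      intro β _
      rw [resF_galA]
      rfl
    have h1 : IsW hζ s τ i b (Sup.act (galA k F (τ ^ n)) c) :=
      hc.act hD hτ _ (tf04_qok_one ℓ) hq1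
    have h2 := HasExpT.act hF hD hτ hb hc he (galA k F (τ ^ n)) (tf04_qok_one ℓ) hq1 hRR
    refine ⟨d + Sup.act (galA k F (τ ^ n)) c, hd.add hD h1, ?_, ?_⟩
    · refine HasExpT.congr hF hD (HasExpT.add hF hD hde h2) fun β _ => ?_
      have h3 : ((n + 1 : ℕ) : ℤ) * e β - ((n : ℤ) * e β + e β) = 0 := by
        push_cast
        ring
      rw [h3]
      exact dvd_zero _
    · have h3 : Sup.act (galA k F (τ ^ (n + 1))) c =
          Sup.act (galA k F τ) (Sup.act (galA k F (τ ^ n)) c) := by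
        rw [← act_mul, ← map_mul, ← pow_succ']
      rw [act_add, h3]
      have h4 : d + Sup.act (galA k F (τ ^ n)) c -
          (Sup.act (galA k F τ) d + Sup.act (galA k F τ) (Sup.act (galA k F (τ ^ n)) c)) =
          (d - Sup.act (galA k F τ) d) + Sup.act (galA k F (τ ^ n)) c -
            Sup.act (galA k F τ) (Sup.act (galA k F (τ ^ n)) c) := by abel
      rw [h4, hdt]
      abel

theorem tow_step (hF : CompatF F L Ω) (hD : TowDat (L := L) ℓ r g E ζ ζr s)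
    {τ : Ω ≃ₐ[L] Ω} (hτ : τ s = xA F L Ω ζr * s) {i b : ℕ} (hir : i < r) (hb : ¬ ℓ ∣ b)
    {U : F ≃ₐ[k] F} {B : Set F} (hCR : CR ℓ r g E ζ U B) {γ : AutO k F L Ω}
    (hγ : resF γ = U) (hγs : (γ : Ω ≃+* Ω) s = s)
    {c : Coch ℓ k F L Ω g 1} (hc : IsW hζ s τ i b c) (hcP : c ∉ PB hF hD hζ hτ i hb B)
    (n : ℕ) : ∃ a' : Coch ℓ k F L Ω g 1, IsW hζ s τ i b a' ∧ a' ∉ PB hF hD hζ hτ i hb B ∧
      TTs (Nst s) (Sup.act γ c - Sup.act (galA k F (τ ^ n)) c -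
        (a' - Sup.act (galA k F τ) a')) := by
  subst hγ
  have hℓ : ℓ.Prime := hD.glob.prime
  have : Fact ℓ.Prime := ⟨hℓ⟩
  obtain ⟨q, hqo, hq⟩ := hD.exists_q (resF γ) hCR.neg
  obtain ⟨c₁, hc₁, hrel⟩ := tow_step_rel hF hD hτ hb hc γ hqo hq hCR.fix
  obtain ⟨e, he⟩ := HasExpT.exists hF hD hτ hb hc
  obtain ⟨e₁, he₁⟩ := HasExpT.exists hF hD hτ hb hc₁
  obtain ⟨d, hd, hde, hdt⟩ := tf04_tele hF hD hτ hb hc he n
  refine ⟨c₁ + d, hc₁.add hD hd, fun hmem => hcP ?_, ?_⟩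
  · -- the exponents of `c` vanish over `B`
    have hz : ∀ β ∈ RR F g E, aeval β g ∈ B → (ℓ : ℤ) ∣ e₁ β + n * e β := fun β hβ hB =>
      ((mem_PB hF hD hτ i hb B).1 hmem).2 _ (HasExpT.add hF hD he₁ hde) β hβ hB
    -- the formula
    obtain ⟨μ, hμ, n₁, hform⟩ : ∃ μ : ZMod ℓ, (r = 1 → μ ≠ 1) ∧ ∃ n₁ : ZMod ℓ,
        ∀ a : F, aeval a E = 0 → ∃ cst : ZMod ℓ, ∀ β : F, aeval β g = a →
          sumO g E (kap ℓ (algebraMap k F ζ) (resF γ)) (fun x => (e x : ZMod ℓ)) β +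
            μ * sumS g E (kap ℓ (algebraMap k F ζ) (resF γ)) (fun x => (e x : ZMod ℓ)) β +
            n₁ * (e β : ZMod ℓ) = (e₁ β : ZMod ℓ) + cst := by
      rcases Nat.eq_zero_or_pos i with hi | hi
      · subst hi
        have he0 : HasExpT hζ E s τ 0 c e := by
          have h := he
          rwa [pow_zero, Nat.sub_self] at h
        have he10 : HasExpT hζ E s τ 0 c₁ e₁ := by
          have h := he₁
          rwa [pow_zero, Nat.sub_self] at h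
        refine ⟨1 - (b : ZMod ℓ)⁻¹, fun _ h => ?_,
          formula_zero hF hD hτ hb hc hc₁ he0 he10 hγs hCR.fix hCR.neg hrel⟩
        have h1 : (b : ZMod ℓ)⁻¹ = 0 := by
          have h2 : (1 : ZMod ℓ) - (1 - (b : ZMod ℓ)⁻¹) = 0 := by rw [h, sub_self]
          rwa [sub_sub_cancel] at h2
        rw [inv_eq_zero, ZMod.natCast_eq_zero_iff] at h1
        exact hb h1
      · refine ⟨1, fun h => ?_,
          formula_succ hF hD hτ hi hb hc hc₁ he he₁ hγs hCR.fix hCR.neg hrel⟩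
        omega
    have hform' : ∀ a : F, ∃ cst : ZMod ℓ, aeval a E = 0 → ∀ β : F, aeval β g = a →
          sumO g E (kap ℓ (algebraMap k F ζ) (resF γ)) (fun x => (e x : ZMod ℓ)) β +
            μ * sumS g E (kap ℓ (algebraMap k F ζ) (resF γ)) (fun x => (e x : ZMod ℓ)) β +
            n₁ * (e β : ZMod ℓ) = (e₁ β : ZMod ℓ) + cst := by
      intro a
      by_cases ha : aeval a E = 0
      · obtain ⟨cst, hcst⟩ := hform a ha
        exact ⟨cst, fun _ => hcst⟩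
      · exact ⟨0, fun h => absurd h ha⟩
    choose cst hcst using hform'
    have hsum : ∀ β ∈ RR F g E, ∑ β' ∈ (RR F g E).filter
        (fun β' => aeval β' g = aeval β g), (fun x => (e x : ZMod ℓ)) β' = 0 := by
      intro β _
      obtain ⟨h, m, _, hM, _⟩ := he
      have h1 := hM.sum (aeval β g)
      have h2 := (ZMod.intCast_zmod_eq_zero_iff_dvd _ ℓ).2 h1
      rw [Int.cast_sum] at h2
      exact h2
    have hsep := hCR.sep μ hμ (fun x => (e x : ZMod ℓ)) (n₁ + n) cst hsum (by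
      intro β hβ hB
      have h1 := hcst (aeval β g) ((mem_RR hD.glob).1 hβ) β rfl
      have h2 := (ZMod.intCast_zmod_eq_zero_iff_dvd _ ℓ).2 (hz β hβ hB)
      push_cast at h2
      calc _ = (sumO g E (kap ℓ (algebraMap k F ζ) (resF γ)) (fun x => (e x : ZMod ℓ)) β +
            μ * sumS g E (kap ℓ (algebraMap k F ζ) (resF γ)) (fun x => (e x : ZMod ℓ)) β +
            n₁ * (e β : ZMod ℓ)) + n * (e β : ZMod ℓ) := by ring
        _ = (e₁ β : ZMod ℓ) + cst (aeval β g) + n * (e β : ZMod ℓ) := by rw [h1]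
        _ = ((e₁ β : ZMod ℓ) + n * (e β : ZMod ℓ)) + cst (aeval β g) := by ring
        _ = cst (aeval β g) := by rw [h2, zero_add])
    refine (mem_PB hF hD hτ i hb B).2 ⟨hc, fun e' he' β hβ hB => ?_⟩
    have h1 : (ℓ : ℤ) ∣ e β := (ZMod.intCast_zmod_eq_zero_iff_dvd _ ℓ).1 (hsep β hβ hB)
    have h2 := dvd_add (HasExpT.unique hF hD he' he β hβ) h1
    rwa [sub_add_cancel] at h2
  · have h1 : Sup.act γ c - Sup.act (galA k F (τ ^ n)) c -
        (c₁ + d - Sup.act (galA k F τ) (c₁ + d)) =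
        Sup.act γ c - c - (c₁ - Sup.act (galA k F τ) c₁) +
          ((c - Sup.act (galA k F (τ ^ n)) c) - (d - Sup.act (galA k F τ) d)) := by
      rw [act_add]
      abel
    rw [h1, hdt, sub_self, add_zero]
    exact hrel

end Pool.Agent.Lib.MP_89bcae_ag.Sup

end

section

open Polynomial IsDedekindDomain

open scoped Classical

set_option linter.unusedSectionVars false

namespace Pool.Agent.Lib.MP_89bcae_ag.Sup

universe u

variable {k F L Ω : Type u} [Field k] [Field F] [Algebra k F] [Field L] [Algebra F[X] L]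
  [Field Ω] [Algebra L Ω] [IsAlgClosure k F] [IsFractionRing F[X] L] [IsAlgClosure L Ω]
  [Algebra F Ω] {ℓ : ℕ} {g E : k[X]} [hG : IsGood ℓ (cOver k F L Ω g 1)] {ζ : k}
  {hζ : (zA F L Ω ζ) ^ ℓ = 1} {r : ℕ} {ζr : F} {s : Ω}

private lemma tf06_iter (γ : AutO k F L Ω) (m : ℕ) (c : Coch ℓ k F L Ω g 1) :
    (actH γ)^[m] c = act (γ ^ m) c := by
  induction m generalizing c with
  | zero => rw [pow_zero, act_one]; rfl
  | succ m ih =>
    rw [Function.iterate_succ_apply, ih, pow_succ, act_mul]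
    rfl

theorem TowDat.ker (hF : CompatF F L Ω) (hD : TowDat (L := L) ℓ r g E ζ ζr s)
    {τ : Ω ≃ₐ[L] Ω} (hτ : τ s = xA F L Ω ζr * s) {i b : ℕ} (hir : i < r) (hb : ¬ ℓ ∣ b)
    (hCR : ∀ a : F, aeval a E = 0 → ∃ (U : F ≃ₐ[k] F) (B : Set F), a ∈ B ∧ CR ℓ r g E ζ U B)
    {c : Coch ℓ k F L Ω g 1} (hc : IsW hζ s τ i b c) : TTs (Nst s) c := by
  have hp : IsPrimitiveRoot (zA F L Ω ζ) ℓ := zA_primitive hD.glob
  have hT : Trs (cOver k F L Ω g 1) (Nst s : Subgroup (Ω ≃ₐ[L] Ω)) := hD.trs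
  choose U B haB hCR' using hCR
  have hq' : ∀ x : {a : F // aeval a E = 0}, ∃ q : ℕ, QOk ℓ q ∧ U x.1 x.2 ζr = ζr ^ q :=
    fun x => hD.exists_q (U x.1 x.2) (hCR' x.1 x.2).neg
  choose q hqo hq using hq'
  have hγ' : ∀ x : {a : F // aeval a E = 0}, ∃ γ : AutO k F L Ω, resF γ = U x.1 x.2 ∧
      (γ : Ω ≃+* Ω) s = s := fun x => hD.exists_gamma_glob (U x.1 x.2)
  choose γ hγ hγs using hγ'
  have hqr : ∀ x, resF (γ x) ζr = ζr ^ q x := fun x => by rw [hγ x]; exact hq x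
  have hfix : ∀ x, ∀ β ∈ RR F g E, resF (γ x) β = β := fun x β hβ => by
    rw [hγ x]
    exact (hCR' x.1 x.2).fix β hβ
  refine kill_rel hD.glob.prime i b hb (WI hD hζ τ i b) (TT ℓ k F g s)
    (fun a ha => TTs.isW hD ha) (actH (galA k F τ)) (Sup.zC ζ hζ)
    (fun a ha => IsW.actτ hD hτ ha) (fun a ha => TTs.act hD.nrm ha _)
    (fun a ha => IsW.zC hD ha) (fun a ha => TTs.zC ha ζ hζ) ?_ ?_ ?_ ?_ ?_
    (fun x : {a : F // aeval a E = 0} => PB hF hD hζ hτ i hb (B x.1 x.2))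
    (fun x => tt_le_PB hF hD hτ i hb (B x.1 x.2))
    (fun x a ha => sub_act_mem_PB hF hD hτ i hb (B x.1 x.2) ha)
    q (fun x => (hqo x).1) (fun x => (hqo x).2.1) (fun x => (hqo x).2.2)
    (fun x => actH (γ x)) (fun x a ha => IsW.act hD hτ ha (γ x) (hqo x) (hqr x))
    (fun x a ha => TTs.act hD.nrm ha _) ?_ ?_ ?_ ?_ ?_ c hc
  · intro a ha
    have h1 : actH (galA k F τ) (Sup.zC ζ hζ a) - Sup.zC ζ hζ (actH (galA k F τ) a) = 0 :=
      sub_eq_zero.mpr (act_zC (galA k F τ) ζ hζ a)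
    rw [h1]
    exact (TT ℓ k F g s).zero_mem
  · intro a ha
    rw [sum_zC hD a]
    exact (TT ℓ k F g s).zero_mem
  · intro a ha
    rw [iter_act]
    exact ha.2
  · intro a ha h
    exact TTs.of_sub_zC hp hT (show IsW hζ s τ i b a from ha).1.1 h
  · intro a ha h
    refine TTs.of_separated hp hT (show IsW hζ s τ i b a from ha).1.1 fun n => ?_
    obtain ⟨y, hy, hy'⟩ := h n
    exact ⟨y, (show IsW hζ s τ i b y from hy).1.1, hy'⟩
  · intro x a ha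
    rw [iter_act]
    have h1 := act_comm_sub hD hτ (γ x) (hqr x) 1 (show IsW hζ s τ i b a from ha).1.1
    rw [pow_one, mul_one] at h1
    exact h1
  · intro x a ha
    exact tow_step_rel hF hD hτ hb ha (γ x) (hqo x) (hqr x) (hfix x)
  · intro x a ha haP n
    rw [iter_act]
    exact tow_step hF hD hτ hir hb (hCR' x.1 x.2) (hγ x) (hγs x) ha haP n
  · intro x a ha
    obtain ⟨M, hM, h⟩ := (show IsW hζ s τ i b a from ha).1.2.2 (γ x)
    refine ⟨M, hM, ?_⟩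
    rw [tf06_iter]
    exact h
  · intro a ha h
    obtain ⟨e, he, hd⟩ := exp_of_mem_PB hF hD hτ i hb
      (fun x : {a : F // aeval a E = 0} => B x.1 x.2) (fun a ha => ⟨⟨a, ha⟩, haB a ha⟩) ha h
    exact (IsW.div_of_exp hF hD hτ hb ha he hd).1

end Pool.Agent.Lib.MP_89bcae_ag.Sup

end

section

open Polynomial IsDedekindDomain

open scoped Classical

set_option linter.unusedSectionVars false

namespace Pool.Agent.Lib.MP_89bcae_ag.Sup

universe u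

variable {k F L Ω : Type u} [Field k] [Field F] [Algebra k F] [Field L] [Algebra F[X] L]
  [Field Ω] [Algebra L Ω] [IsAlgClosure k F] [IsFractionRing F[X] L] [IsAlgClosure L Ω]
  [Algebra F Ω] {ℓ : ℕ} {g E : k[X]} [hG : IsGood ℓ (cOver k F L Ω g 1)] {ζ : k}
  {r : ℕ} {ζr : F} {s : Ω}

theorem TowDat.tts_of_wws (hF : CompatF F L Ω) (hD : TowDat (L := L) ℓ r g E ζ ζr s)
    (hCR : ∀ a : F, aeval a E = 0 → ∃ (U : F ≃ₐ[k] F) (B : Set F), a ∈ B ∧ CR ℓ r g E ζ U B)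
    {c : Coch ℓ k F L Ω g 1} (hc : WWs (Nst s) c) : TTs (Nst s) c := by
  obtain ⟨τ, hτ, -⟩ := hD.exists_tau
  have hp : IsPrimitiveRoot (zA F L Ω ζ) ℓ := zA_primitive hD.glob
  have hζ : (zA F L Ω ζ) ^ ℓ = 1 := hp.pow_eq_one
  have hgood : GoodAll ℓ k F L g 1 := goodAll_one hD.glob
  refine tower_rel hD.glob.prime r (WW hD) (TT ℓ k F g s) (fun a ha => TTs.wws hD.nrm ha)
    (actH (galA k F τ)) (Sup.zC ζ hζ) (fun a ha => WWs.act hD.nrm ha _)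
    (fun a ha => TTs.act hD.nrm ha _) (fun a ha => WWs.zC hgood hD.nrm ha hζ)
    (fun a ha => TTs.zC ha ζ hζ) ?_ ?_ ?_ ?_ ?_ c hc
  · intro a ha
    have h1 : actH (galA k F τ) (Sup.zC ζ hζ a) - Sup.zC ζ hζ (actH (galA k F τ) a) = 0 :=
      sub_eq_zero.mpr (act_zC (galA k F τ) ζ hζ a)
    rw [h1]
    exact (TT ℓ k F g s).zero_mem
  · intro a ha
    rw [sum_zC hD a]
    exact (TT ℓ k F g s).zero_mem
  · intro a ha
    rw [iter_act]
    exact act_galA_subs hD.nrm (show WWs (Nst s) a from ha).1 (hD.pow_mem hτ)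
  · intro a ha h
    exact hD.ker0 hF hτ ha h
  · intro i hi b hb a ha h
    rw [iter_act] at h
    exact hD.ker (hζ := hζ) hF hτ hi hb hCR ⟨ha, h⟩

end Pool.Agent.Lib.MP_89bcae_ag.Sup

end

section

open Polynomial IsDedekindDomain

open scoped Classical

set_option linter.unusedSectionVars false

namespace Pool.Agent.Lib.MP_89bcae_ag.Sup

universe u

lemma exists_zr {k F : Type u} [Field k] [Field F] [Algebra k F] [IsAlgClosure k F] {ℓ : ℕ}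
    (hℓ : ℓ.Prime) {ζ : k} (hζ : IsPrimitiveRoot ζ ℓ) {r : ℕ} (hr : 0 < r) :
    ∃ ζr : F, IsPrimitiveRoot ζr (ℓ ^ r) ∧ ζr ^ ℓ ^ (r - 1) = algebraMap k F ζ := by
  haveI : IsAlgClosed F := IsAlgClosure.isAlgClosed k
  haveI : Fact ℓ.Prime := ⟨hℓ⟩
  obtain ⟨x, hx⟩ := IsAlgClosed.exists_pow_nat_eq (algebraMap k F ζ)
    (pow_pos hℓ.pos (r - 1))
  have hζF : IsPrimitiveRoot (algebraMap k F ζ) ℓ :=
    hζ.map_of_injective (algebraMap k F).injective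
  obtain ⟨n, rfl⟩ : ∃ n, r = n + 1 := ⟨r - 1, by omega⟩
  rw [Nat.add_sub_cancel] at hx
  refine ⟨x, ?_, by rw [Nat.add_sub_cancel]; exact hx⟩
  have h1 : ¬ x ^ ℓ ^ n = 1 := by
    rw [hx]
    exact hζF.ne_one hℓ.one_lt
  have h2 : x ^ ℓ ^ (n + 1) = 1 := by
    rw [pow_succ, pow_mul, hx]
    exact hζF.pow_eq_one
  rw [IsPrimitiveRoot.iff_orderOf]
  exact orderOf_eq_prime_pow h1 h2

lemma CRall.toCR {ℓ : ℕ} {k F : Type u} [Field k] [Field F] [Algebra k F] {g E : k[X]} {ζ : k}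
    {U : F ≃ₐ[k] F} {B : Set F} (h : CRall ℓ g E ζ U B) (r : ℕ) : CR ℓ r g E ζ U B :=
  ⟨h.fix, h.neg, fun μ _ => h.sep μ⟩

section

variable {k F L Ω : Type u} [Field k] [Field F] [Algebra k F] [Field L] [Algebra F[X] L]
  [Field Ω] [Algebra L Ω] [IsAlgClosure k F] [IsFractionRing F[X] L] [IsAlgClosure L Ω]
  [Algebra F Ω] {ℓ : ℕ} {g E : k[X]} [hG : IsGood ℓ (cOver k F L Ω g 1)] {ζ : k}

omit [Algebra F Ω] in
lemma tg04_tcs_mono {N N' : Subgroup (Ω ≃ₐ[L] Ω)} (hN : N' ≤ N) {c : Coch ℓ k F L Ω g 1}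
    (hc : TCs N c) : TCs N' c :=
  ⟨fun n => (hc.c1 n).mono hN, fun σ hσ => hc.zero σ (hN hσ),
    fun n σ hσ => hc.smul n σ (hN hσ)⟩

omit [Algebra F Ω] in
lemma tg04_tts_mono {N N' : Subgroup (Ω ≃ₐ[L] Ω)} (hN : N' ≤ N) {c : Coch ℓ k F L Ω g 1}
    (hc : TTs N c) : TTs N' c := by
  refine ⟨tg04_tcs_mono hN hc.1, fun n => ?_⟩
  obtain ⟨A, hA, hcA⟩ := hc.2 n
  exact ⟨A, hA, fun σ hσ => hcA σ (hN hσ)⟩

omit [Algebra F Ω] in
lemma tg04_pow_smul {N : Subgroup (Ω ≃ₐ[L] Ω)} {c : Coch ℓ k F L Ω g 1}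
    (hc : TCs N c) (n : ℕ) {σ : Ω ≃ₐ[L] Ω} (hσ : σ ∈ N) : ℓ ^ n • c n σ = 0 := by
  induction n with
  | zero => rw [pow_zero, one_smul]; exact hc.zero σ hσ
  | succ n ih => rw [pow_succ, mul_smul, hc.smul n σ hσ]; exact ih

theorem wws_top (hF : CompatF F L Ω) (H : GlobHyp ℓ g E ζ)
    (hCR : ∀ a : F, aeval a E = 0 → ∃ (U : F ≃ₐ[k] F) (B : Set F), a ∈ B ∧ CRall ℓ g E ζ U B)
    {c : Coch ℓ k F L Ω g 1} (hc : WWs ⊤ c) : TTs ⊤ c := by
  haveI : IsAlgClosed Ω := IsAlgClosure.isAlgClosed L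
  obtain ⟨ζr, hζr, hpow⟩ := exists_zr (F := F) H.prime H.zeta (r := 1) one_pos
  obtain ⟨s, hs⟩ := IsAlgClosed.exists_pow_nat_eq (base k F L Ω E) (pow_pos H.prime.pos 1)
  have hD : TowDat (L := L) ℓ 1 g E ζ ζr s := ⟨H, one_pos, hζr, hpow, hs⟩
  have hW : WWs (Nst s) c := by
    refine ⟨tg04_tcs_mono le_top hc.1, hc.2.1.mono le_top, fun γ => ?_⟩
    obtain ⟨M, hM, h⟩ := hc.2.2 γ
    exact ⟨M, hM, tg04_tts_mono le_top h⟩
  have hT := hD.tts_of_wws hF (fun a ha => by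
    obtain ⟨U, B, haB, h⟩ := hCR a ha
    exact ⟨U, B, haB, h.toCR 1⟩) hW
  refine ⟨hc.1, fun n => ?_⟩
  obtain ⟨A, hA, hcA⟩ := hT.2 n
  refine ⟨A, hA, fun γ _ => ?_⟩
  have key : symJ (toSym g 1 (galA k F γ)) A = A + c n γ := by
    refine cob_injN (zA_primitive H) hD.trs n ?_ ?_ fun σ hσ => ?_
    · rw [← map_nsmul, hA, map_zero]
    · rw [smul_add, hA, tg04_pow_smul hc.1 n (Subgroup.mem_top γ), add_zero]
    · have e1 := act1_galA_sub (hc.1.c1 n) (Subgroup.mem_top γ) σ (Subgroup.mem_top σ)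
      have e2 := act1_congr hD.nrm (galA k F γ) (x := c n) (y := cob A) hcA σ hσ
      rw [act1_cob] at e2
      rw [← e2, e1, hcA σ hσ, cob_add]
      rfl
  rw [cob_apply, key]
  abel

end

theorem main_tower {ℓ : ℕ} (k F L Ω : Type u) [Field k] [Field F] [Algebra k F]
    [IsAlgClosure k F] [Field L] [Algebra F[X] L] [IsFractionRing F[X] L] [Field Ω]
    [Algebra L Ω] [IsAlgClosure L Ω] {g E : k[X]} {ζ : k} (H : GlobHyp ℓ g E ζ)
    (hCR : ∀ a : F, aeval a E = 0 → ∃ (U : F ≃ₐ[k] F) (B : Set F), a ∈ B ∧ CRall ℓ g E ζ U B)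
    (k' : IntermediateField k F) [FiniteDimensional k k'] (r : ℕ) (s : Ω)
    (hs : s ^ ℓ ^ r = base k F L Ω E) :
    NoTateClassOver ℓ k F L g 1 (cover k' F L s) := by
  letI : Algebra F Ω := ((algebraMap L Ω).comp ((algebraMap F[X] L).comp C)).toAlgebra
  have hF : CompatF F L Ω := fun c => rfl
  haveI : IsAlgClosed Ω := IsAlgClosure.isAlgClosed L
  haveI : IsGood ℓ (cOver k F L Ω g 1) := goodAll_one H Ω
  rcases Nat.eq_zero_or_pos r with hr | hr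
  · subst hr
    have hs' : s = base k F L Ω E := by
      rw [pow_zero, pow_one] at hs
      exact hs
    have hN : (Nst s : Subgroup (Ω ≃ₐ[L] Ω)) = ⊤ := by
      rw [eq_top_iff]
      intro σ _
      change σ s = s
      rw [hs']
      exact σ.commutes _
    refine noTateClassOver_of_wws H hs ?_ ?_ ?_ k'
    · intro γ σ _
      rw [hN]
      exact Subgroup.mem_top _
    · rw [hN]
      exact trs_top H
    · rw [hN]
      exact fun c hc => wws_top hF H hCR hc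
  · obtain ⟨ζr, hζr, hpow⟩ := exists_zr (F := F) H.prime H.zeta hr
    have hD : TowDat (L := L) ℓ r g E ζ ζr s := ⟨H, hr, hζr, hpow, hs⟩
    refine noTateClassOver_of_wws H hs hD.nrm hD.trs (fun c hc => ?_) k'
    exact hD.tts_of_wws hF (fun a ha => by
      obtain ⟨U, B, haB, h⟩ := hCR a ha
      exact ⟨U, B, haB, h.toCR r⟩) hc

end Pool.Agent.Lib.MP_89bcae_ag.Sup

end
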