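import Mathlib
import Pool.Agent.Lib.MP_89bcae_ag.Q.K003
import Pool.Agent.Lib.MP_89bcae_ag.Q.K013
import Pool.Agent.Lib.MP_89bcae_ag.Q.K014
import Pool.Agent.Lib.MP_89bcae_ag.Q.K015
import Pool.Agent.Lib.MP_89bcae_ag.Q.K043
import Pool.Agent.Lib.MP_89bcae_ag.Q.K063

section

open Polynomial IsDedekindDomain

open scoped Classical

set_option linter.unusedSimpArgs false
set_option linter.unusedVariables false
set_option linter.unusedSectionVars false
set_option linter.style.haveILetI false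

namespace Pool.Agent.Lib.MP_89bcae_ag.Superelliptic

universe u

/-- The statement for a polynomial `f` and a subfield. -/
def tg05_NT (ℓ : ℕ) {F L Ω : Type u} [Field F] [Field L] [Algebra F[X] L]
    [IsFractionRing F[X] L] [Field Ω] [Algebra L Ω] (f : L[X]) (K : Subfield Ω) : Prop :=
  ∀ c : ℕ → galOver L K → JacOver ℓ f Ω,
    IsTateCocycleOver ℓ f K c →
    (∀ (v : HeightOneSpectrum F[X]) (n : ℕ),
      IsLocallyTrivialOver ℓ f K (c n) (v.adicCompletion L)) →
    (∀ (γ : Ω ≃+* Ω) hγ, (∀ x ∈ K, γ x = x) → IsFixedByOver ℓ f K c γ hγ) →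
    IsTrivialOver ℓ f K c

theorem tg05_iff {ℓ : ℕ} {k F L Ω : Type u} [Field k] [Field F] [Algebra k F]
    [Field L] [Algebra F[X] L] [IsFractionRing F[X] L] [Field Ω] [Algebra L Ω] {g D : k[X]}
    {K : Subfield Ω} : NoTateClassOver ℓ k F L g D K ↔
      tg05_NT (F := F) ℓ (curvePoly k F L g D) K := Iff.rfl

theorem noTateClassOver_mono {ℓ : ℕ} {k F L Ω : Type u} [Field k] [Field F] [Algebra k F]
    [Field L] [Algebra F[X] L] [IsFractionRing F[X] L] [Field Ω] [Algebra L Ω] {g D : k[X]}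
    {K₁ K₂ : Subfield Ω} (hle : K₁ ≤ K₂) (hK : galOver L K₁ = galOver L K₂)
    (h : NoTateClassOver ℓ k F L g D K₂) : NoTateClassOver ℓ k F L g D K₁ := by
  intro c hc hloc hfix
  have h21 : ∀ σ : Ω ≃ₐ[L] Ω, σ ∈ galOver L K₂ → σ ∈ galOver L K₁ := fun σ hσ => hK ▸ hσ
  have h12 : ∀ σ : Ω ≃ₐ[L] Ω, σ ∈ galOver L K₁ → σ ∈ galOver L K₂ := fun σ hσ => hK ▸ hσ
  let φ : galOver L K₂ → galOver L K₁ := fun σ => ⟨σ.1, h21 σ.1 σ.2⟩
  have hφ : Continuous φ := continuous_subtype_val.subtype_mk _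
  have hT := h (fun n σ => c n (φ σ))
    { zero := fun σ => hc.zero _
      smul := fun n σ => hc.smul n _
      cocycle := fun n σ τ => hc.cocycle n (φ σ) (φ τ)
      locallyConstant := fun n => (hc.locallyConstant n).comp_continuous hφ }
    (fun v n M _ _ _ _ _ j => by
      obtain ⟨Q, hQ⟩ := hloc v n M j
      exact ⟨Q, fun g g' hg => hQ g (φ g') hg⟩)
    (fun γ hγ hx => by
      obtain ⟨m, hm, hA⟩ := hfix γ hγ fun x hx' => hx x (hle hx')
      refine ⟨m, hm, fun n => ?_⟩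
      obtain ⟨A, hA0, hA1⟩ := hA n
      exact ⟨A, hA0, fun g h hgh => hA1 (φ g) (φ h) hgh⟩)
  intro n
  obtain ⟨A, hA0, hA1⟩ := hT n
  exact ⟨A, hA0, fun g => hA1 ⟨g.1, h12 g.1 g.2⟩⟩

private lemma tg05_mem {k F L Ω : Type u} [Field k] [Field F] [Algebra k F]
    [Field L] [Algebra F[X] L] [Field Ω] [Algebra L Ω] (s : Ω) (σ : Ω ≃ₐ[L] Ω) :
    σ ∈ galOver L (cover k F L s) ↔ σ s = s := by
  constructor
  · intro h
    exact h s (Subfield.subset_closure (Set.mem_insert _ _))
  · intro h x hx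
    unfold cover at hx
    induction hx using Subfield.closure_induction with
    | mem x hx =>
      rcases hx with rfl | ⟨p, rfl⟩
      · exact h
      · exact σ.commutes _
    | one => exact map_one σ
    | add x y _ _ hx hy => rw [map_add, hx, hy]
    | neg x _ hx => rw [map_neg, hx]
    | inv x _ hx => rw [map_inv₀, hx]
    | mul x y _ _ hx hy => rw [map_mul, hx, hy]

theorem noTateClassOver_base {k K F L Ω : Type u} [Field k] [Field K] [Field F] [Algebra k K]
    [Algebra K F] [Algebra k F] [IsScalarTower k K F] [Field L] [Algebra F[X] L]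
    [IsFractionRing F[X] L] [Field Ω] [Algebra L Ω] {ℓ : ℕ} {g : k[X]} {s : Ω}
    {k' : IntermediateField k F} {K' : IntermediateField K F} (hle : ∀ x ∈ k', x ∈ K')
    (h : NoTateClassOver ℓ K F L (g.map (algebraMap k K)) 1 (cover K' F L s)) :
    NoTateClassOver ℓ k F L g 1 (cover k' F L s) := by
  have h0 : NoTateClassOver ℓ k F L g 1 (cover K' F L s) := by
    rw [tg05_iff] at h ⊢
    have h1 : curvePoly K F L (g.map (algebraMap k K)) 1 = curvePoly k F L g 1 := by
      have h2 := curvePoly_map8 (k := k) (K := K) (F := F) (L := L) g 1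
      rwa [Polynomial.map_one] at h2
    rwa [h1] at h
  refine noTateClassOver_mono ?_ ?_ h0
  · unfold cover
    apply Subfield.closure_mono
    apply Set.insert_subset_insert
    rintro _ ⟨p, rfl⟩
    let i : k' →+* K' :=
      (algebraMap k' F).codRestrict K'.toSubalgebra.toSubring fun x => hle x x.2
    refine ⟨p.map i, ?_⟩
    show algebraMap L Ω (algebraMap F[X] L ((p.map i).map (algebraMap K' F))) =
      algebraMap L Ω (algebraMap F[X] L (p.map (algebraMap k' F)))
    rw [Polynomial.map_map]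
    rfl
  · ext σ
    rw [tg05_mem, tg05_mem]

end Pool.Agent.Lib.MP_89bcae_ag.Superelliptic

end

section

/-!
# Transitivity on the pairs of roots of `D` over the cyclotomic field
-/

open Polynomial

set_option linter.unusedVariables false
set_option linter.unusedSectionVars false
set_option linter.style.haveILetI false

universe u v

namespace Pool.Agent.Lib.MP_89bcae_ag

/-- Type A over a ring with residue field `ZMod p`: separability. -/
theorem separable_of_typeAX14 {K : Type u} [Field K] [CharZero K] {D : ℤ[X]} {n : ℕ}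
    (hD : D.natDegree ≤ n) (hn : 1 ≤ n) {p : ℕ} [Fact p.Prime]
    (h : TypeAX14 (D.map (Int.castRingHom (ZMod p))) n) :
    (D.map (Int.castRingHom K)).Separable := by
  obtain ⟨hDn, hlc⟩ := lead_of_red14 hD hn h.2
  have h1 := separable_of_typeS14 K (g := X) (D := D) monic_X (by rw [natDegree_X]; exact one_ne_zero)
    hD hn (p := p) ⟨h.2, by
      rw [map_X, comp_X]
      exact PerfectField.separable_of_irreducible h.1⟩
  have h2 := h1.2
  rwa [comp_X] at h2

/-- **Transitivity on the pairs of roots of `D`**, `k` embedded in `ℚ_p` and in `ℚ_q`. -/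
theorem pair2_of_types14 {k : Type u} [Field k] [CharZero k] {F : Type v} [Field F] [Algebra k F]
    [IsAlgClosed F] [Algebra.IsAlgebraic k F] {p q : ℕ} [Fact p.Prime] [Fact q.Prime]
    (φ : k →+* ℚ_[p]) (ψ : k →+* ℚ_[q]) {D : ℤ[X]} {n : ℕ} (hD : D.natDegree ≤ n) (hn : 3 ≤ n)
    (hA : TypeAX14 (D.map (Int.castRingHom (ZMod p))) n)
    (hB : TypeBX14 (D.map (Int.castRingHom (ZMod q))) n) :
    (D.map (Int.castRingHom k)).Separable ∧
      IsPairTransitive7 k F X (D.map (Int.castRingHom k)) := by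
  have hsep : (D.map (Int.castRingHom k)).Separable := separable_of_typeAX14 hD (by omega) hA
  refine ⟨hsep, pairTransitiveX14 ?_ ?_⟩
  · obtain ⟨R, _, _, _, _, _, π, hπ, -, -, hunit⟩ := exists_local_ring7 φ
    exact typeAX_of_ring14 R π hπ hunit hD (by omega) hA
  · obtain ⟨R, _, _, _, _, _, π, hπ, -, -, hunit⟩ := exists_local_ring7 ψ
    exact typeBX_of_ring14 R π hπ hunit hD hn hsep hB

/-- The same over the cyclotomic field. -/
theorem pair2_cyclotomic14 {ℓ : ℕ} (hℓ : ℓ.Prime) {k : Type u} [Field k] [Algebra ℚ k]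
    [IsCyclotomicExtension {ℓ} ℚ k] {F : Type v} [Field F] [Algebra k F]
    [IsAlgClosed F] [Algebra.IsAlgebraic k F] {p q : ℕ} [Fact p.Prime] [Fact q.Prime]
    (hp : (p : ZMod ℓ) = 1) (hq : (q : ZMod ℓ) = 1) {D : ℤ[X]} {n : ℕ} (hD : D.natDegree ≤ n)
    (hn : 3 ≤ n) (hA : TypeAX14 (D.map (Int.castRingHom (ZMod p))) n)
    (hB : TypeBX14 (D.map (Int.castRingHom (ZMod q))) n) :
    (D.map (Int.castRingHom k)).Separable ∧
      IsPairTransitive7 k F X (D.map (Int.castRingHom k)) := by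
  haveI : CharZero k := charZero_of_injective_algebraMap (algebraMap ℚ k).injective
  have hdvd : ∀ (p : ℕ), p.Prime → (p : ZMod ℓ) = 1 → ℓ ∣ p - 1 := by
    intro p hp h
    rw [← ZMod.natCast_eq_zero_iff, Nat.cast_sub hp.one_le, h, Nat.cast_one, sub_self]
  obtain ⟨φ⟩ := exists_embedding7 hℓ (hdvd p Fact.out hp) k
  obtain ⟨ψ⟩ := exists_embedding7 hℓ (hdvd q Fact.out hq) k
  exact pair2_of_types14 φ ψ hD hn hA hB

end Pool.Agent.Lib.MP_89bcae_ag

end

section

/-!
# Towers of superelliptic surfaces with integral coefficients: the arithmetic part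
-/

open Polynomial

open scoped Classical

set_option linter.unusedSimpArgs false
set_option linter.unusedVariables false
set_option linter.unusedSectionVars false
set_option linter.style.haveILetI false

namespace Pool.Agent.Lib.MP_89bcae_ag

lemma aeval_aeval_iff7 {K F : Type*} [Field K] [Field F] [Algebra K F] {g D : K[X]} {b : F} :
    aeval b (D.comp g) = 0 ↔ aeval (aeval b g) D = 0 := by
  rw [aeval_comp]

/-- From the residual data to the vanishing of the invariant classes, for all towers. -/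
theorem noTateTower_of_pair7 {ℓ : ℕ} (hℓ : ℓ.Prime) (F L Ω : Type) [Field F] [Algebra ℚ F]
    [IsAlgClosure ℚ F] [Field L] [Algebra F[X] L] [IsFractionRing F[X] L] [Field Ω] [Algebra L Ω]
    [IsAlgClosure L Ω] {g D : ℤ[X]} (hg : g.Monic) (hcop : g.natDegree.Coprime ℓ) {n : ℕ}
    (hn : 2 ≤ n) (hdegD : D.natDegree = n + 1)
    (hsep : ((D.comp g).map (Int.castRingHom ℚ)).Separable)
    {p : ℕ} (hp : p.Prime) (hp2 : p ≠ 2) (hpℓ : p ≠ ℓ) (hlc : ¬ (p : ℤ) ∣ D.leadingCoeff)
    (hcol : IsCollisionZ8 p g D)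
    {q : ℕ} (hq : q.Prime) (hqℓ : q ≠ ℓ) (hqm : ¬ q ∣ g.natDegree)
    (hE1 : (q : ℤ) ∣ D.leadingCoeff) (hE2 : ¬ (q : ℤ) ^ 2 ∣ D.leadingCoeff)
    (hE3 : ¬ (q : ℤ) ∣ D.coeff n)
    (hE4 : ((D.map (Int.castRingHom (ZMod q))).comp
      (g.map (Int.castRingHom (ZMod q)))).Separable)
    (K : Type) [Field K] [Algebra ℚ K] [Algebra K F] [IsScalarTower ℚ K F] [FiniteDimensional ℚ K]
    [IsGalois ℚ K] {ζ : K}
    (hζ : IsPrimitiveRoot ζ ℓ) (hgen : ∀ σ : K ≃ₐ[ℚ] K, σ ζ = ζ → σ = 1)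
    (hX : IsPairTransitive7 K F X (D.map (Int.castRingHom K)))
    (k' : IntermediateField ℚ F) [FiniteDimensional ℚ k'] (r : ℕ) (s : Ω)
    (hs : s ^ ℓ ^ r = base ℚ F L Ω (D.map (Int.castRingHom ℚ))) :
    Superelliptic.NoTateClassOver ℓ ℚ F L (g.map (Int.castRingHom ℚ)) 1 (cover k' F L s) := by
  have hF : IsAlgClosed F := IsAlgClosure.isAlgClosed ℚ
  have hQF : Algebra.IsAlgebraic ℚ F := IsAlgClosure.isAlgebraic
  have hKFa : Algebra.IsAlgebraic K F := Algebra.IsAlgebraic.tower_top (K := ℚ) K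
  have hKF : IsAlgClosure K F := ⟨hF, hKFa⟩
  have hchar : CharZero K := charZero_of_injective_algebraMap (algebraMap ℚ K).injective
  have hg0 : g.natDegree ≠ 0 := by
    intro h0
    rw [h0, Nat.coprime_zero_left] at hcop
    exact hℓ.one_lt.ne' hcop
  have hinjK : Function.Injective (Int.castRingHom K) := (Int.castRingHom K).injective_int
  have hQK : (algebraMap ℚ K).comp (Int.castRingHom ℚ) = Int.castRingHom K := RingHom.ext_int _ _
  have hmapK : ∀ f : ℤ[X], (f.map (Int.castRingHom ℚ)).map (algebraMap ℚ K) =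
      f.map (Int.castRingHom K) := fun f => by rw [Polynomial.map_map, hQK]
  have hsepK : ((D.comp g).map (Int.castRingHom K)).Separable := by
    rw [← hmapK]
    exact hsep.map
  -- the discrete valuation rings
  have hmapR : ∀ (R : Type) [CommRing R] [Algebra R K] (f : ℤ[X]),
      (f.map (Int.castRingHom R)).map (algebraMap R K) = f.map (Int.castRingHom K) := by
    intro R _ _ f
    rw [Polynomial.map_map]
    congr 1
    exact RingHom.ext_int _ _
  have hinjR : ∀ (R : Type) [CommRing R] [Algebra R K], Function.Injective (Int.castRingHom R) := by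
    intro R _ _
    have h1 : Function.Injective ((algebraMap R K).comp (Int.castRingHom R)) := by
      have h2 : (algebraMap R K).comp (Int.castRingHom R) = Int.castRingHom K := RingHom.ext_int _ _
      rw [h2]
      exact hinjK
    exact Function.Injective.of_comp h1
  -- the place `q`
  have hq2 : IsPairTransitive7 K F (g.map (Int.castRingHom K)) (D.map (Int.castRingHom K)) ∧
      ∀ α : F, aeval α (D.map (Int.castRingHom K)) = 0 → ∃ J : Finset (F ≃ₐ[K] F),
        (∀ x y : F, aeval x (g.map (Int.castRingHom K)) = α →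
          aeval y (g.map (Int.castRingHom K)) = α →
            ∃ σ ∈ J, σ x = y ∧ ∀ τ ∈ J, τ x = y → τ = σ) ∧
        ∀ σ ∈ J, ∀ b : F,
          aeval b ((D.map (Int.castRingHom K)).comp (g.map (Int.castRingHom K))) = 0 →
            aeval b (g.map (Int.castRingHom K)) ≠ α → σ b = b := by
    obtain ⟨R, i1, i2, i3, i4, i5, hR⟩ := exists_dvrK8 hℓ hq hqℓ K hζ hgen
    obtain ⟨φ, hφ⟩ := residue_map8 hq hR
    have hR1 : ∀ z : ℤ, (z : R) ∈ IsLocalRing.maximalIdeal R ↔ (q : ℤ) ∣ z := by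
      intro z
      have h1 := hR z 1
      rwa [pow_one, pow_one] at h1
    have hDdeg : (D.map (Int.castRingHom R)).natDegree = n + 1 := by
      rw [natDegree_map_eq_of_injective (hinjR R), hdegD]
    have hDlc : (D.map (Int.castRingHom R)).leadingCoeff = ((D.leadingCoeff : ℤ) : R) := by
      rw [leadingCoeff_map_of_injective (hinjR R)]
      rfl
    have hgmR : ((g.map (Int.castRingHom R)).natDegree : IsLocalRing.ResidueField R) ≠ 0 := by
      rw [hg.natDegree_map]
      intro h0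
      have h1 : IsLocalRing.residue R ((g.natDegree : ℤ) : R) = 0 := by
        rw [Int.cast_natCast, map_natCast]
        exact h0
      rw [IsLocalRing.residue_eq_zero_iff, hR1] at h1
      exact hqm (Int.natCast_dvd_natCast.mp h1)
    have hq1 : (D.map (Int.castRingHom R)).leadingCoeff ∈ IsLocalRing.maximalIdeal R := by
      rw [hDlc, hR1]; exact hE1
    have hq2 : (D.map (Int.castRingHom R)).leadingCoeff ∉ IsLocalRing.maximalIdeal R ^ 2 := by
      rw [hDlc, hR]; exact hE2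
    have hq3 : (D.map (Int.castRingHom R)).coeff n ∉ IsLocalRing.maximalIdeal R := by
      rw [coeff_map]
      have h1 : Int.castRingHom R (D.coeff n) = ((D.coeff n : ℤ) : R) := rfl
      rw [h1, hR1]
      exact hE3
    have hq4 : (((D.map (Int.castRingHom R)).map (IsLocalRing.residue R)).comp
        ((g.map (Int.castRingHom R)).map (IsLocalRing.residue R))).Separable := by
      rw [hφ, hφ, ← Polynomial.map_comp]
      exact hE4.map
    have hq5 : (((D.map (Int.castRingHom R)).comp (g.map (Int.castRingHom R))).map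
        (algebraMap R K)).Separable := by
      rw [← Polynomial.map_comp, hmapR]; exact hsepK
    have hq6 : IsPairTransitive7 K F X ((D.map (Int.castRingHom R)).map (algebraMap R K)) := by
      rw [hmapR]; exact hX
    have h := isPairTransitive_of_cycle7 R K F (g := g.map (Int.castRingHom R))
      (D := D.map (Int.castRingHom R)) (hg.map _) hgmR hDdeg hq1 hq2 hq3 hq4 hq5 hq6
    rw [hmapR, hmapR] at h
    refine ⟨h, fun α hα => ?_⟩
    have h' := exists_simply_transitive R K F (g := g.map (Int.castRingHom R))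
      (D := D.map (Int.castRingHom R)) (hg.map _) hgmR hDdeg hq1 hq2 hq3 hq4 hq5 hq6 α
      (by rw [hmapR]; exact hα)
    rw [hmapR, hmapR] at h'
    exact h'
  obtain ⟨htr, hJ⟩ := hq2
  have hdegK : (D.map (Int.castRingHom K)).natDegree = n + 1 := by
    rw [natDegree_map_eq_of_injective hinjK, hdegD]
  have H : Sup.GlobHyp ℓ (g.map (Int.castRingHom K)) (D.map (Int.castRingHom K)) ζ :=
    ⟨hℓ, by exact_mod_cast hℓ.ne_zero, hζ, hg.map _, by rw [hg.natDegree_map]; exact hcop,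
      by rw [← Polynomial.map_comp]; exact hsepK, by rw [hdegK]; omega⟩
  -- the criterion
  have hCR := Sup.exists_cRall (F := F) H (by rw [hdegK]; omega) hJ (by
    obtain ⟨R, i1, i2, i3, i4, i5, hR⟩ := exists_dvrK8 hℓ hp hpℓ K hζ hgen
    have hR1 : ∀ z : ℤ, ¬ (p : ℤ) ∣ z → IsUnit (z : R) := by
      intro z hz
      have h1 := hR z 1
      rw [pow_one, pow_one] at h1
      rw [← IsLocalRing.notMem_maximalIdeal, h1]
      exact hz
    have h2 : IsUnit (2 : R) := by
      have h1 := hR1 2 (by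
        intro h
        have h3 : p ∣ 2 := by exact_mod_cast h
        exact hp2 ((Nat.prime_dvd_prime_iff_eq hp Nat.prime_two).mp h3))
      simpa using h1
    have hDlc : (D.map (Int.castRingHom R)).leadingCoeff = ((D.leadingCoeff : ℤ) : R) := by
      rw [leadingCoeff_map_of_injective (hinjR R)]
      rfl
    intro α α' hα hα' hne
    have h := Sup.exists_mOrd R K F h2 (g := g.map (Int.castRingHom R))
      (D := D.map (Int.castRingHom R)) (hg.map _) (by rw [hg.natDegree_map]; exact hg0)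
      (by rw [hDlc]; exact hR1 _ hlc) (isCollision7_of_Z8 hp hR hcol)
      (by rw [← Polynomial.map_comp, hmapR]; exact hsepK)
      (by rw [hmapR, hmapR]; exact htr)
      (Sup.RR F (g.map (Int.castRingHom K)) (D.map (Int.castRingHom K)))
      (fun b => by rw [hmapR, hmapR]; exact Sup.mem_RR H) (α := α) (α' := α')
      (by rw [hmapR]; exact hα) (by rw [hmapR]; exact hα') hne
    rw [hmapR] at h
    exact h)
  -- the vanishing over `K`
  obtain ⟨K', hK', hle⟩ := Superelliptic.exists_finite8 (K := K) k'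
  have hs' : s ^ ℓ ^ r = base K F L Ω (D.map (Int.castRingHom K)) := by
    rw [hs, ← hmapK]
    exact (Superelliptic.base_map8 (K := K) _).symm
  have hmain := Sup.main_tower K F L Ω H hCR K' r s hs'
  have h := Superelliptic.NoTateClassOver.ofSup hmain
  apply Superelliptic.noTateClassOver_base (K := K) hle
  rw [hmapK]
  exact h

end Pool.Agent.Lib.MP_89bcae_ag

end

section

/-!
# Towers of superelliptic surfaces with integral coefficients, for all primes `ℓ` at the same time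
-/

open Polynomial Filter Topology

open scoped Classical

set_option linter.unusedSimpArgs false
set_option linter.unusedVariables false
set_option linter.unusedSectionVars false
set_option linter.style.haveILetI false

namespace Pool.Agent.Lib.MP_89bcae_ag

/-- Transitivity on pairs over the field of the `ℓ`-th roots of unity, from the same over the
rationals and a simple collision at one prime `p` different from `2` and `ℓ`. -/
theorem pair2_of_collision7 {ℓ : ℕ} (hℓ : ℓ.Prime) (F : Type) [Field F] [Algebra ℚ F]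
    [IsAlgClosure ℚ F] {g D : ℤ[X]} (hg : g.Monic) (hg0 : g.natDegree ≠ 0)
    (hsep : ((D.comp g).map (Int.castRingHom ℚ)).Separable)
    {p : ℕ} (hp : p.Prime) (hp2 : p ≠ 2) (hpℓ : p ≠ ℓ) (hlc : ¬ (p : ℤ) ∣ D.leadingCoeff)
    (hcol : IsCollisionZ8 p g D)
    (K : Type) [Field K] [Algebra ℚ K] [Algebra K F] [IsScalarTower ℚ K F] [FiniteDimensional ℚ K]
    [IsGalois ℚ K] {ζ : K}
    (hζ : IsPrimitiveRoot ζ ℓ) (hgen : ∀ σ : K ≃ₐ[ℚ] K, σ ζ = ζ → σ = 1)
    (hX : IsPairTransitive7 ℚ F X (D.map (Int.castRingHom ℚ))) :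
    IsPairTransitive7 K F X (D.map (Int.castRingHom K)) := by
  have hF : IsAlgClosed F := IsAlgClosure.isAlgClosed ℚ
  have hQF : Algebra.IsAlgebraic ℚ F := IsAlgClosure.isAlgebraic
  have hKFa : Algebra.IsAlgebraic K F := Algebra.IsAlgebraic.tower_top (K := ℚ) K
  have hKF : IsAlgClosure K F := ⟨hF, hKFa⟩
  have hQK : (algebraMap ℚ K).comp (Int.castRingHom ℚ) = Int.castRingHom K := RingHom.ext_int _ _
  have hmapK : ∀ f : ℤ[X], (f.map (Int.castRingHom ℚ)).map (algebraMap ℚ K) =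
      f.map (Int.castRingHom K) := fun f => by rw [Polynomial.map_map, hQK]
  have hinjK : Function.Injective (Int.castRingHom K) := by
    haveI : CharZero K := charZero_of_injective_algebraMap (algebraMap ℚ K).injective
    exact (Int.castRingHom K).injective_int
  have hsepK : ((D.comp g).map (Int.castRingHom K)).Separable := by
    rw [← hmapK]
    exact hsep.map
  obtain ⟨R, i1, i2, i3, i4, i5, hR⟩ := exists_dvrK8 hℓ hp hpℓ K hζ hgen
  have hmapR : ∀ f : ℤ[X], (f.map (Int.castRingHom R)).map (algebraMap R K) =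
      f.map (Int.castRingHom K) := by
    intro f
    rw [Polynomial.map_map]
    congr 1
    exact RingHom.ext_int _ _
  have hinjR : Function.Injective (Int.castRingHom R) := by
    have h1 : Function.Injective ((algebraMap R K).comp (Int.castRingHom R)) := by
      have h2 : (algebraMap R K).comp (Int.castRingHom R) = Int.castRingHom K := RingHom.ext_int _ _
      rw [h2]
      exact hinjK
    exact Function.Injective.of_comp h1
  have hR1 : ∀ z : ℤ, ¬ (p : ℤ) ∣ z → IsUnit (z : R) := by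
    intro z hz
    have h1 := hR z 1
    rw [pow_one, pow_one] at h1
    rw [← IsLocalRing.notMem_maximalIdeal, h1]
    exact hz
  have h2 : IsUnit (2 : R) := by
    have h1 := hR1 2 (by
      intro h
      have h3 : p ∣ 2 := by exact_mod_cast h
      exact hp2 ((Nat.prime_dvd_prime_iff_eq hp Nat.prime_two).mp h3))
    simpa using h1
  have hDlc : (D.map (Int.castRingHom R)).leadingCoeff = ((D.leadingCoeff : ℤ) : R) := by
    rw [leadingCoeff_map_of_injective hinjR]
    rfl
  have hs := hasSwap_of_collision7 R K F h2 (g := g.map (Int.castRingHom R))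
    (D := D.map (Int.castRingHom R)) (by rw [hg.natDegree_map]; exact hg0) (hg.map _)
    (by rw [hDlc]; exact hR1 _ hlc) (isCollision7_of_Z8 hp hR hcol)
    (by rw [← Polynomial.map_comp, hmapR]; exact hsepK)
  rw [hmapR, ← hmapK] at hs
  have h := isPairTransitive_of_swap7 (k := ℚ) (K := K) (F := F) hX hs
  rwa [hmapK] at h

/-- **All primes at the same time**, for one polynomial `D`. -/
theorem superTowerAll7 (F L Ω : Type) [Field F] [Algebra ℚ F]
    [IsAlgClosure ℚ F] [Field L] [Algebra F[X] L] [IsFractionRing F[X] L] [Field Ω] [Algebra L Ω]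
    [IsAlgClosure L Ω] {g D : ℤ[X]} (hg : g.Monic) (hg0 : g.natDegree ≠ 0) {n : ℕ} (hn : 3 ≤ n)
    (hdeg : D.natDegree = n) (hsep : ((D.comp g).map (Int.castRingHom ℚ)).Separable)
    {pA pB : ℕ} [Fact pA.Prime] [Fact pB.Prime]
    (hA : TypeAX14 (D.map (Int.castRingHom (ZMod pA))) n)
    (hB : TypeBX14 (D.map (Int.castRingHom (ZMod pB))) n)
    (hC : ∀ ℓ : ℕ, ∃ p : ℕ, p.Prime ∧ p ≠ 2 ∧ p ≠ ℓ ∧ IsCollisionZ8 p g D ∧
      ¬ (p : ℤ) ∣ D.coeff n)
    (hE : ∀ ℓ : ℕ, ∃ q : ℕ, q.Prime ∧ q ≠ ℓ ∧ g.natDegree < q ∧ IsPoleZ14 q g D n)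
    {ℓ : ℕ} (hℓ : ℓ.Prime) (hcop : g.natDegree.Coprime ℓ) :
    Superelliptic.NoTateTowerNumberField ℓ F L Ω g D := by
  haveI : NeZero ℓ := ⟨hℓ.ne_zero⟩
  have hF : IsAlgClosed F := IsAlgClosure.isAlgClosed ℚ
  have hQF : Algebra.IsAlgebraic ℚ F := IsAlgClosure.isAlgebraic
  -- the cyclotomic field
  obtain ⟨K, iK1, iK2, iK3⟩ : ∃ (K : Type) (_ : Field K) (_ : Algebra ℚ K),
      IsCyclotomicExtension {ℓ} ℚ K :=
    ⟨CyclotomicField ℓ ℚ, inferInstance, CyclotomicField.algebra ℓ ℚ, inferInstance⟩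
  haveI hfin : FiniteDimensional ℚ K := IsCyclotomicExtension.finiteDimensional {ℓ} ℚ K
  haveI hgal : IsGalois ℚ K := IsCyclotomicExtension.isGalois {ℓ} ℚ K
  let e : K →ₐ[ℚ] F := IsAlgClosed.lift
  letI : Algebra K F := e.toRingHom.toAlgebra
  haveI : IsScalarTower ℚ K F := IsScalarTower.of_algebraMap_eq fun x => (e.commutes x).symm
  haveI hKFa : Algebra.IsAlgebraic K F := Algebra.IsAlgebraic.tower_top (K := ℚ) K
  have hζ : IsPrimitiveRoot (IsCyclotomicExtension.zeta ℓ ℚ K) ℓ :=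
    IsCyclotomicExtension.zeta_spec ℓ ℚ K
  have hgen : ∀ σ : K ≃ₐ[ℚ] K, σ (IsCyclotomicExtension.zeta ℓ ℚ K) =
      IsCyclotomicExtension.zeta ℓ ℚ K → σ = 1 := by
    intro σ hσ
    apply AlgEquiv.coe_toAlgHom_injective
    apply (hζ.powerBasis ℚ).algHom_ext
    rw [IsPrimitiveRoot.powerBasis_gen]
    simpa using hσ
  have hXQ : IsPairTransitive7 ℚ F X (D.map (Int.castRingHom ℚ)) :=
    (pair2_of_types14 (k := ℚ) (F := F) (algebraMap ℚ ℚ_[pA]) (algebraMap ℚ ℚ_[pB]) hdeg.le hn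
      hA hB).2
  obtain ⟨p, hp, hp2, hpℓ, hcol, hlc⟩ := hC ℓ
  obtain ⟨q, hq, hqℓ, hqm, hE1, hE2, hE3, hE4⟩ := hE ℓ
  have hco : D.coeff n = D.leadingCoeff := by
    rw [leadingCoeff, hdeg]
  rw [hco] at hlc hE1 hE2
  have hX := pair2_of_collision7 hℓ F hg hg0 hsep hp hp2 hpℓ hlc hcol K hζ hgen hXQ
  obtain ⟨m, rfl⟩ : ∃ m, n = m + 1 := ⟨n - 1, by omega⟩
  intro k' hk' r s hs
  refine noTateTower_of_pair7 hℓ F L Ω hg hcop (n := m) (by omega) hdeg hsep hp hp2
    hpℓ hlc hcol hq hqℓ (fun h => ?_) hE1 hE2 hE3 hE4 K hζ hgen hX k' r s hs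
  have h1 := Nat.le_of_dvd (Nat.pos_of_ne_zero hg0) h
  omega

/-- The intersection of two sets of density one. -/
theorem density_inter7 {n : ℕ} {P Q : (Fin (n + 1) → ℤ) → Prop}
    (hP : Tendsto (fun H : ℕ => ({a : Fin (n + 1) → ℤ | (∀ i, |a i| ≤ H) ∧ P a}.ncard : ℝ) /
      (2 * H + 1) ^ (n + 1)) atTop (𝓝 1))
    (hQ : Tendsto (fun H : ℕ => ({a : Fin (n + 1) → ℤ | (∀ i, |a i| ≤ H) ∧ Q a}.ncard : ℝ) /
      (2 * H + 1) ^ (n + 1)) atTop (𝓝 1)) :
    Tendsto (fun H : ℕ => ({a : Fin (n + 1) → ℤ | (∀ i, |a i| ≤ H) ∧ (P a ∧ Q a)}.ncard : ℝ) /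
      (2 * H + 1) ^ (n + 1)) atTop (𝓝 1) := by
  have hfin : ∀ (H : ℕ) (Q : (Fin (n + 1) → ℤ) → Prop),
      ({a : Fin (n + 1) → ℤ | (∀ i, |a i| ≤ H) ∧ Q a}).Finite := by
    intro H Q
    apply Set.Finite.subset (Finset.finite_toSet
      (Fintype.piFinset fun _ : Fin (n + 1) => Finset.Icc (-(H : ℤ)) H))
    rintro a ⟨h2, -⟩
    rw [Finset.mem_coe, Fintype.mem_piFinset]
    intro i
    rw [Finset.mem_Icc]
    exact abs_le.mp (h2 i)
  have hlow := (hP.add hQ).sub (tendsto_const_nhds (x := (1 : ℝ)) (f := (atTop : Filter ℕ)))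
  rw [add_sub_cancel_right] at hlow
  refine tendsto_of_tendsto_of_tendsto_of_le_of_le hlow hP (fun H => ?_) (fun H => ?_)
  · have hpos : (0 : ℝ) < (2 * H + 1) ^ (n + 1) := by positivity
    have hbox : ((Fintype.piFinset fun _ : Fin (n + 1) => Finset.Icc (-(H : ℤ)) H).card : ℝ) =
        (2 * H + 1) ^ (n + 1) := by
      rw [Fintype.card_piFinset]
      simp only [Int.card_Icc, Finset.prod_const, Finset.card_univ, Fintype.card_fin]
      have h1 : ((H : ℤ) + 1 - -(H : ℤ)).toNat = 2 * H + 1 := by omega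
      rw [h1]
      push_cast
      rfl
    set A := {a : Fin (n + 1) → ℤ | (∀ i, |a i| ≤ H) ∧ P a} with hA
    set B := {a : Fin (n + 1) → ℤ | (∀ i, |a i| ≤ H) ∧ Q a} with hB
    have hAB : {a : Fin (n + 1) → ℤ | (∀ i, |a i| ≤ H) ∧ (P a ∧ Q a)} = A ∩ B := by
      ext a
      simp only [hA, hB, Set.mem_inter_iff, Set.mem_ofPred_eq]
      tauto
    have hAf : A.Finite := hfin H P
    have hBf : B.Finite := hfin H Q
    have h1 := Set.ncard_union_add_ncard_inter A B hAf hBf
    have h2 : ((A ∪ B).ncard : ℝ) ≤ (2 * H + 1) ^ (n + 1) := by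
      rw [← hbox, ← Set.ncard_coe_finset]
      rw [Nat.cast_le]
      apply Set.ncard_le_ncard _ (Finset.finite_toSet _)
      rintro a (⟨h3, -⟩ | ⟨h3, -⟩) <;>
      · rw [Finset.mem_coe, Fintype.mem_piFinset]
        intro i
        rw [Finset.mem_Icc]
        exact abs_le.mp (h3 i)
    change (A.ncard : ℝ) / (2 * H + 1) ^ (n + 1) + (B.ncard : ℝ) / (2 * H + 1) ^ (n + 1) - 1 ≤
      ({a : Fin (n + 1) → ℤ | (∀ i, |a i| ≤ H) ∧ (P a ∧ Q a)}.ncard : ℝ) / (2 * H + 1) ^ (n + 1)
    rw [hAB, ← add_div, sub_le_iff_le_add, div_add_one hpos.ne', div_le_div_iff_of_pos_right hpos]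
    have h3 : ((A ∪ B).ncard : ℝ) + ((A ∩ B).ncard : ℝ) = (A.ncard : ℝ) + (B.ncard : ℝ) := by
      exact_mod_cast h1
    linarith
  · apply div_le_div_of_nonneg_right _ (by positivity)
    rw [Nat.cast_le]
    apply Set.ncard_le_ncard _ (hfin H P)
    rintro a ⟨h1, h2, -⟩
    exact ⟨h1, h2⟩

/-- **Density one, for all primes `ℓ` at the same time.** -/
theorem superTowerAllDensity7 (F L Ω : Type) [Field F] [Algebra ℚ F]
    [IsAlgClosure ℚ F] [Field L] [Algebra F[X] L] [IsFractionRing F[X] L] [Field Ω] [Algebra L Ω]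
    [IsAlgClosure L Ω] {g : ℤ[X]} (hg : g.Monic) (hg0 : g.natDegree ≠ 0) {n : ℕ}
    (hn : 3 ≤ n) :
    Tendsto (fun H : ℕ => ({a : Fin (n + 1) → ℤ | (∀ i, |a i| ≤ H) ∧
      ((vecPoly7 a).natDegree = n ∧ (((vecPoly7 a).comp g).map (Int.castRingHom ℚ)).Separable ∧
        ∀ ℓ : ℕ, ℓ.Prime → g.natDegree.Coprime ℓ →
          Superelliptic.NoTateTowerNumberField ℓ F L Ω g (vecPoly7 a))}.ncard : ℝ) /
          (2 * H + 1) ^ (n + 1)) atTop (𝓝 1) := by
  let Cond : ZMod 4 → (Fin (n + 1) → ℤ) → Prop := fun u a =>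
    (vecPoly7 a).natDegree = n ∧ (((vecPoly7 a).comp g).map (Int.castRingHom ℚ)).Separable ∧
    (∃ (p : ℕ) (_ : Fact p.Prime), TypeAX14 ((vecPoly7 a).map (Int.castRingHom (ZMod p))) n) ∧
    (∃ (p : ℕ) (_ : Fact p.Prime), TypeBX14 ((vecPoly7 a).map (Int.castRingHom (ZMod p))) n) ∧
    (∃ p : ℕ, p.Prime ∧ (p : ZMod 4) = u ∧ IsCollisionZ8 p g (vecPoly7 a) ∧
        ¬ (p : ℤ) ∣ (vecPoly7 a).coeff n) ∧
    (∃ p : ℕ, p.Prime ∧ 3 + g.natDegree ≤ p ∧ (p : ZMod 4) = u ∧
      IsPoleZ14 p g (vecPoly7 a) n)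
  have hden : ∀ u : ZMod 4, IsUnit u →
      Tendsto (fun H : ℕ => ({a : Fin (n + 1) → ℤ | (∀ i, |a i| ≤ H) ∧ Cond u a}.ncard : ℝ) /
        (2 * H + 1) ^ (n + 1)) atTop (𝓝 1) := by
    intro u hu
    refine superDensityUnit7 4 hu hg hg0 hn (3 + g.natDegree) (Cond u) ?_
    intro a hdeg hsep hA hB hC hE
    obtain ⟨pA, fA, -, -, hA2⟩ := hA
    obtain ⟨pB, fB, -, -, hB2⟩ := hB
    obtain ⟨p, hp, hpP, hpu, hcol, hlc⟩ := hC
    obtain ⟨q, hq, hqP, hqu, hE1⟩ := hE
    exact ⟨hdeg, hsep, ⟨pA, fA, hA2⟩, ⟨pB, fB, hB2⟩, ⟨p, hp, hpu, hcol, hlc⟩,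
      ⟨q, hq, hqP, hqu, hE1⟩⟩
  have h1 := hden 1 isUnit_one
  have h3 := hden 3 (by decide)
  have hne : (1 : ZMod 4) ≠ 3 := by decide
  have h13 := density_inter7 h1 h3
  refine tendsto_of_tendsto_of_tendsto_of_le_of_le h13 tendsto_const_nhds (fun H => ?_)
    (fun H => ?_)
  · apply div_le_div_of_nonneg_right _ (by positivity)
    rw [Nat.cast_le]
    apply Set.ncard_le_ncard
    · rintro a ⟨hbox, ⟨hdeg, hsep, hA, hB, hC1, hE1⟩, ⟨-, -, -, -, hC3, hE3⟩⟩
      refine ⟨hbox, hdeg, hsep, ?_⟩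
      obtain ⟨pA, fA, hA⟩ := hA
      obtain ⟨pB, fB, hB⟩ := hB
      obtain ⟨p₁, hp₁, hp₁u, hcol₁, hlc₁⟩ := hC1
      obtain ⟨p₃, hp₃, hp₃u, hcol₃, hlc₃⟩ := hC3
      obtain ⟨q₁, hq₁, hq₁P, hq₁u, hpol₁⟩ := hE1
      obtain ⟨q₃, hq₃, hq₃P, hq₃u, hpol₃⟩ := hE3
      have h2u : ∀ u : ZMod 4, u = 1 ∨ u = 3 → ((2 : ℕ) : ZMod 4) ≠ u := by decide
      intro ℓ hℓ hcop
      refine superTowerAll7 F L Ω hg hg0 hn hdeg hsep hA hB ?_ ?_ hℓ hcop
      · intro ℓ
        by_cases h : p₁ = ℓ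
        · refine ⟨p₃, hp₃, ?_, ?_, hcol₃, hlc₃⟩
          · rintro rfl
            exact h2u 3 (Or.inr rfl) hp₃u
          · rintro rfl
            rw [h] at hp₁u
            exact hne (hp₁u.symm.trans hp₃u)
        · refine ⟨p₁, hp₁, ?_, h, hcol₁, hlc₁⟩
          rintro rfl
          exact h2u 1 (Or.inl rfl) hp₁u
      · intro ℓ
        by_cases h : q₁ = ℓ
        · refine ⟨q₃, hq₃, ?_, by omega, hpol₃⟩
          rintro rfl
          rw [h] at hq₁u
          exact hne (hq₁u.symm.trans hq₃u)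
        · exact ⟨q₁, hq₁, h, by omega, hpol₁⟩
    · apply Set.Finite.subset (Finset.finite_toSet
        (Fintype.piFinset fun _ : Fin (n + 1) => Finset.Icc (-(H : ℤ)) H))
      rintro a ⟨h2, -⟩
      rw [Finset.mem_coe, Fintype.mem_piFinset]
      intro i
      rw [Finset.mem_Icc]
      exact abs_le.mp (h2 i)
  · have hpos : (0 : ℝ) < (2 * H + 1) ^ (n + 1) := by positivity
    rw [div_le_one hpos]
    have hbox : ((Fintype.piFinset fun _ : Fin (n + 1) => Finset.Icc (-(H : ℤ)) H).card : ℝ) =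
        (2 * H + 1) ^ (n + 1) := by
      rw [Fintype.card_piFinset]
      simp only [Int.card_Icc, Finset.prod_const, Finset.card_univ, Fintype.card_fin]
      have h1 : ((H : ℤ) + 1 - -(H : ℤ)).toNat = 2 * H + 1 := by omega
      rw [h1]
      push_cast
      rfl
    rw [← hbox, ← Set.ncard_coe_finset, Nat.cast_le]
    apply Set.ncard_le_ncard _ (Finset.finite_toSet _)
    rintro a ⟨h3, -⟩
    rw [Finset.mem_coe, Fintype.mem_piFinset]
    intro i
    rw [Finset.mem_Icc]
    exact abs_le.mp (h3 i)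

end Pool.Agent.Lib.MP_89bcae_ag

end
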