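import Mathlib
import Pool.Agent.Lib.MP_89bcae_ag.DefsSupPt
import Pool.Agent.Lib.MP_89bcae_ag.Q.K036

section

/-!
ROW B08 (200-320 lines). The multiplicities of `A(g(X)) - X B(g(X))` for a point `x = A/B`.

Setting (`SecHyp`): `F` algebraically closed, `g` monic of degree `m` prime to the prime `ℓ`, `D(g(X))`
separable, `A`, `B` coprime, `B ≠ 0`, `C₁ ≠ 0`, `C₂ ≠ 0` with
`C₂^ℓ h = D C₁^ℓ B^m`, `h = G(A, B) - X B^m`, `G(A, B) = ∑ g_i A^i B^(m-i) = B^m g(A/B)` (so
`D y^ℓ = g(x) - t` for `x = A/B`, `y = C₁/C₂`). Let `N = A(g(X)) - X B(g(X))`, `a = g(β)`, `v_a`, `v_β` the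
multiplicities. THEOREM: `ℓ` divides `m v_β(N) - m v_β(B(g)) - v_β(D(g)) - e_β`, where `e_β = 0` if
`D(a) ≠ 0`, and for `D(a) = 0`: `e_β = 0` if `B(a) = 0`, `e_β = m - 1` if `A(a) = β B(a) ≠ ..`, `e_β = -1` in the
other cases.

PROOF. From the equation: (1) `ℓ ∣ v_a(D) + m v_a(B) - v_a(h)` (`rootMultiplicity_mul`, `..._pow`).
Also `v_β(p(g)) = v_a(p) v_β(g - a)` (write `p = (X - a)^v q`, `q(a) ≠ 0`). If `D(a) = 0` then `v_a(D) = 1` and
`v_β(g - a) = 1`, `v_β(D(g)) = 1`, `g'(β) ≠ 0`: `D(g)` is separable, so `D'(a) g'(β) ≠ 0`.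
(2) `B(a) = 0`: `A(a) ≠ 0`, `h(a) = A(a)^m ≠ 0` (`g` monic), `N(β) = A(a) ≠ 0`. By (1)
`ℓ ∣ v_a(D) + m v_a(B)`. If `D(a) ≠ 0`: `m v_β(B(g)) = m v_a(B) v_β(g - a)` is divisible by `ℓ`. If
`D(a) = 0`: `- m v_a(B) - 1 - 0` is divisible by `ℓ`.
(3) `B(a) ≠ 0`, `A(a) ≠ β B(a)`: `N(β) ≠ 0`: clear in both cases (`0 - 0 - 0 - 0` and `0 - 0 - 1 + 1`).
(4) `B(a) ≠ 0`, `A(a) = β B(a)`, so `N(β) = 0`, `h(a) = B(a)^m (g(β) - a) = 0`.
 (4a) `g'(β) = 0` is impossible: then `D(a) ≠ 0`, and `h'(a) = -B(a)^m ≠ 0`: the derivative of `G(A, B)` at `a`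
 is `G₁ A' + G₂ B'`, with `G₁ = B^(m-1) g'(β) = 0`, `G₂ = m B^(m-1) g(β) - β B^(m-1) g'(β) = m B^(m-1) a`, and
 `(X B^m)' = B^m + m a B^(m-1) B'` at `a`. So `v_a(h) = 1`, which contradicts (1) as
 `v_a(D) = v_a(B) = 0`. (It may be easier to use, with `x = A/B` near `a`:
 `G(A,B) - X B^m = B^m (g(x) - g(β)) - (X - a) B^m` and `g(x) - g(β) = (x - β)^2 (...)`: i.e.
 `G(A, B) - a B^m` is divisible by `(A - β B)^2`, since `g - a` is divisible by `(X - β)^2`, hence by
 `(X - a)^2`.)
 (4b) `g'(β) ≠ 0`: `g - a` is `(X - β) q` with `q(β) ≠ 0`; more precisely in two variables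
 `g(U) - g(X) = (U - X) q(U, X)`, `q(β, β) = g'(β)`. Homogenizing and substituting
 `U = A(g)/B(g)`: `h(g(X)) = N(X) · K(X)` with `K(β) = B(a)^(m-1) g'(β) ≠ 0`. So
 `v_β(N) = v_β(h(g)) = v_a(h) v_β(g - a) = v_a(h)`, and by (1) `v_a(h) ≡ v_a(D)`. If `D(a) ≠ 0`: `≡ 0`. If
 `D(a) = 0`: `v_β(N) ≡ 1` and `m - 0 - 1 - (m - 1) = 0`.
-/

open Polynomial

open scoped Classical

namespace Pool.Agent.Lib.MP_89bcae_ag.Sup

universe u

variable {F : Type u} [Field F]

/-- `B ^ m g(A / B)`, `m = deg g`. -/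
noncomputable def homog (g A B : F[X]) : F[X] :=
  ∑ i ∈ Finset.range (g.natDegree + 1), C (g.coeff i) * A ^ i * B ^ (g.natDegree - i)

/-- The hypotheses: `D y ^ ℓ = g(A / B) - X`, `y = C₁ / C₂`. -/
structure SecHyp (ℓ : ℕ) (g D A B C₁ C₂ : F[X]) : Prop where
  prime : ℓ.Prime
  monic : g.Monic
  cop : g.natDegree.Coprime ℓ
  sep : (D.comp g).Separable
  pos : D.natDegree ≠ 0
  coprime : IsCoprime A B
  den : B ≠ 0
  c₁ : C₁ ≠ 0
  c₂ : C₂ ≠ 0
  eq : C₂ ^ ℓ * (homog g A B - X * B ^ g.natDegree) = D * C₁ ^ ℓ * B ^ g.natDegree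

/-- The exponent at `β`. -/
noncomputable def secExp (g A B : F[X]) (β : F) : ℤ :=
  if B.eval (g.eval β) = 0 then 0
  else if A.eval (g.eval β) = β * B.eval (g.eval β) then g.natDegree - 1
  else -1

lemma b08_mult_pow {p : F[X]} (hp : p ≠ 0) (β : F) (n : ℕ) :
    (p ^ n).rootMultiplicity β = n * p.rootMultiplicity β := by
  induction n with
  | zero => simp
  | succ n ih =>
    rw [pow_succ, rootMultiplicity_mul (mul_ne_zero (pow_ne_zero n hp) hp), ih]
    ring

lemma b08_comp_ne {p g : F[X]} (hp : p ≠ 0) (hg : g.natDegree ≠ 0) : p.comp g ≠ 0 := by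
  intro h
  rcases comp_eq_zero_iff.mp h with h1 | ⟨_, h2⟩
  · exact hp h1
  · rw [h2, natDegree_C] at hg
    exact hg rfl

lemma b08_mult_comp {p g : F[X]} (hp : p ≠ 0) (hg : g.natDegree ≠ 0) (β : F) :
    (p.comp g).rootMultiplicity β =
      p.rootMultiplicity (g.eval β) * (g - C (g.eval β)).rootMultiplicity β := by
  obtain ⟨q, hq, hnd⟩ := exists_eq_pow_rootMultiplicity_mul_and_not_dvd p hp (g.eval β)
  have h1 : p.comp g = (g - C (g.eval β)) ^ p.rootMultiplicity (g.eval β) * q.comp g := by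
    conv_lhs => rw [hq]
    simp [mul_comp, pow_comp, sub_comp]
  have h2 := b08_comp_ne hp hg
  have h3 : g - C (g.eval β) ≠ 0 := by
    intro h
    rw [sub_eq_zero] at h
    rw [h, natDegree_C] at hg
    exact hg rfl
  rw [h1] at h2 ⊢
  rw [rootMultiplicity_mul h2, b08_mult_pow h3]
  have h4 : (q.comp g).rootMultiplicity β = 0 := by
    apply rootMultiplicity_eq_zero
    intro h
    rw [IsRoot, eval_comp] at h
    exact hnd (dvd_iff_isRoot.mpr h)
  rw [h4, add_zero]

lemma b08_homog_comp (g A B q : F[X]) :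
    (homog g A B).comp q = homog g (A.comp q) (B.comp q) := by
  unfold homog
  rw [Polynomial.sum_comp]
  refine Finset.sum_congr rfl fun i _ => ?_
  simp [mul_comp, pow_comp]

lemma b08_homog_X (g V : F[X]) : homog g (X * V) V = g * V ^ g.natDegree := by
  unfold homog
  conv_rhs => rw [g.as_sum_range_C_mul_X_pow, Finset.sum_mul]
  have hd : (∑ i ∈ Finset.range (g.natDegree + 1), C (g.coeff i) * X ^ i : F[X]).natDegree =
      g.natDegree := by
    rw [← g.as_sum_range_C_mul_X_pow]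
  rw [hd]
  refine Finset.sum_congr rfl fun i hi => ?_
  have h1 : i ≤ g.natDegree := by
    have := Finset.mem_range.mp hi
    omega
  have h2 : V ^ g.natDegree = V ^ i * V ^ (g.natDegree - i) := by
    rw [← pow_add]; congr 1; omega
  rw [h2, mul_pow]
  ring

/-- the cofactor -/
noncomputable def b08_K (g U V : F[X]) : F[X] :=
  ∑ i ∈ Finset.range (g.natDegree + 1), C (g.coeff i) * V ^ (g.natDegree - i) *
    ∑ j ∈ Finset.range i, U ^ j * (X * V) ^ (i - 1 - j)

lemma b08_factor (g U V : F[X]) :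
    homog g U V - homog g (X * V) V = (U - X * V) * b08_K g U V := by
  unfold homog b08_K
  rw [← Finset.sum_sub_distrib, Finset.mul_sum]
  refine Finset.sum_congr rfl fun i _ => ?_
  have h := geom_sum₂_mul U (X * V) i
  calc C (g.coeff i) * U ^ i * V ^ (g.natDegree - i) -
        C (g.coeff i) * (X * V) ^ i * V ^ (g.natDegree - i)
      = C (g.coeff i) * V ^ (g.natDegree - i) * (U ^ i - (X * V) ^ i) := by ring
    _ = _ := by rw [← h]; ring

lemma b08_K_eval (g U V : F[X]) (β : F) (h : U.eval β = β * V.eval β) :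
    (b08_K g U V).eval β = V.eval β ^ (g.natDegree - 1) * g.derivative.eval β := by
  unfold b08_K
  rw [derivative_eval, sum_over_range _ (by intro n; simp), eval_finsetSum, Finset.mul_sum]
  refine Finset.sum_congr rfl fun i hi => ?_
  have h1 : i ≤ g.natDegree := by
    have := Finset.mem_range.mp hi
    omega
  rcases Nat.eq_zero_or_pos i with h0 | h0
  · subst h0
    simp
  · have h2 : ∀ j ∈ Finset.range i, (U ^ j * (X * V) ^ (i - 1 - j)).eval β =
        (β * V.eval β) ^ (i - 1) := by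
      intro j hj
      have h3 : i - 1 = j + (i - 1 - j) := by
        have := Finset.mem_range.mp hj
        omega
      rw [eval_mul, eval_pow, eval_pow, eval_mul, eval_X, h, ← pow_add, ← h3]
    rw [eval_mul, eval_finsetSum, Finset.sum_congr rfl h2, Finset.sum_const, Finset.card_range,
      nsmul_eq_mul, eval_mul, eval_C, eval_pow]
    have h4 : g.natDegree - 1 = (g.natDegree - i) + (i - 1) := by omega
    rw [h4, pow_add, mul_pow]
    ring

lemma SecHyp.b08_deg {ℓ : ℕ} {g D A B C₁ C₂ : F[X]}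
    (H : SecHyp ℓ g D A B C₁ C₂) : g.natDegree ≠ 0 := by
  intro h
  have := H.cop
  rw [h, Nat.coprime_zero_left] at this
  exact H.prime.one_lt.ne' this

lemma SecHyp.b08_D {ℓ : ℕ} {g D A B C₁ C₂ : F[X]}
    (H : SecHyp ℓ g D A B C₁ C₂) : D ≠ 0 := by
  intro h
  apply H.pos
  rw [h, natDegree_zero]

lemma SecHyp.b08_h {ℓ : ℕ} {g D A B C₁ C₂ : F[X]}
    (H : SecHyp ℓ g D A B C₁ C₂) : homog g A B - X * B ^ g.natDegree ≠ 0 := by
  intro h
  have h1 := H.eq
  rw [h, mul_zero] at h1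
  exact mul_ne_zero (mul_ne_zero H.b08_D (pow_ne_zero _ H.c₁)) (pow_ne_zero _ H.den) h1.symm

lemma SecHyp.b08_comp {ℓ : ℕ} {g D A B C₁ C₂ : F[X]}
    (H : SecHyp ℓ g D A B C₁ C₂) : (homog g A B - X * B ^ g.natDegree).comp g =
      (A.comp g - X * B.comp g) * b08_K g (A.comp g) (B.comp g) := by
  rw [← b08_factor, sub_comp, b08_homog_comp, b08_homog_X, mul_comp, X_comp, pow_comp]

/-- the divisibility (1) -/
lemma SecHyp.b08_one {ℓ : ℕ} {g D A B C₁ C₂ : F[X]}
    (H : SecHyp ℓ g D A B C₁ C₂) (a : F) :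
    (ℓ : ℤ) ∣ D.rootMultiplicity a + g.natDegree * B.rootMultiplicity a -
      (homog g A B - X * B ^ g.natDegree).rootMultiplicity a := by
  have h0 := H.b08_h
  have hD := H.b08_D
  have h1 := congrArg (rootMultiplicity a) H.eq
  have hC2 := pow_ne_zero ℓ H.c₂
  have hC1 := pow_ne_zero ℓ H.c₁
  have hB := pow_ne_zero g.natDegree H.den
  rw [rootMultiplicity_mul (mul_ne_zero hC2 h0), rootMultiplicity_mul
    (mul_ne_zero (mul_ne_zero hD hC1) hB), rootMultiplicity_mul (mul_ne_zero hD hC1),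
    b08_mult_pow H.c₂, b08_mult_pow H.c₁, b08_mult_pow H.den] at h1
  have h2 : (ℓ : ℤ) * C₂.rootMultiplicity a +
      (homog g A B - X * B ^ g.natDegree).rootMultiplicity a =
      D.rootMultiplicity a + ℓ * C₁.rootMultiplicity a + g.natDegree * B.rootMultiplicity a := by
    exact_mod_cast h1
  refine ⟨C₂.rootMultiplicity a - C₁.rootMultiplicity a, ?_⟩
  linarith

/-- the derivative of `homog` -/
lemma b08_deriv (g A B : F[X]) (a β : F) (hm : g.natDegree ≠ 0)
    (h : A.eval a = β * B.eval a) :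
    (homog g A B).derivative.eval a = B.eval a ^ (g.natDegree - 1) *
      (A.derivative.eval a * g.derivative.eval β +
        B.derivative.eval a * (g.natDegree * g.eval β - β * g.derivative.eval β)) := by
  have e1 : g.derivative.eval β =
      ∑ i ∈ Finset.range (g.natDegree + 1), g.coeff i * i * β ^ (i - 1) := by
    rw [derivative_eval, sum_over_range _ (by intro n; simp)]
  have e2 : g.eval β = ∑ i ∈ Finset.range (g.natDegree + 1), g.coeff i * β ^ i :=
    eval_eq_sum_range β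
  have e3 : β * g.derivative.eval β =
      ∑ i ∈ Finset.range (g.natDegree + 1), g.coeff i * i * β ^ i := by
    rw [e1, Finset.mul_sum]
    refine Finset.sum_congr rfl fun i _ => ?_
    rcases Nat.eq_zero_or_pos i with h0 | h0
    · subst h0; simp
    · have : β ^ i = β * β ^ (i - 1) := by
        rw [← pow_succ']; congr 1; omega
      rw [this]; ring
  have e4 : (g.natDegree : F) * g.eval β - β * g.derivative.eval β =
      ∑ i ∈ Finset.range (g.natDegree + 1), g.coeff i * ((g.natDegree - i : ℕ) : F) * β ^ i := by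
    rw [e3, e2, Finset.mul_sum, ← Finset.sum_sub_distrib]
    refine Finset.sum_congr rfl fun i hi => ?_
    have h1 : i ≤ g.natDegree := by
      have := Finset.mem_range.mp hi
      omega
    rw [Nat.cast_sub h1]
    ring
  rw [e4, e1, Finset.mul_sum, Finset.mul_sum, ← Finset.sum_add_distrib, Finset.mul_sum]
  unfold homog
  rw [derivative_sum, eval_finsetSum]
  refine Finset.sum_congr rfl fun i hi => ?_
  have h1 : i ≤ g.natDegree := by
    have := Finset.mem_range.mp hi
    omega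
  rw [derivative_mul, derivative_mul, derivative_C, zero_mul, zero_add, derivative_pow,
    derivative_pow]
  simp only [eval_add, eval_mul, eval_C, eval_pow, h]
  have f1 : (i : F) * (β * B.eval a) ^ (i - 1) * B.eval a ^ (g.natDegree - i) =
      i * (β ^ (i - 1) * B.eval a ^ (g.natDegree - 1)) := by
    rcases Nat.eq_zero_or_pos i with h0 | h0
    · subst h0; simp
    · have h4 : g.natDegree - 1 = (i - 1) + (g.natDegree - i) := by omega
      rw [h4, pow_add, mul_pow]
      ring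
  have f2 : ((g.natDegree - i : ℕ) : F) * (β * B.eval a) ^ i * B.eval a ^ (g.natDegree - i - 1) =
      ((g.natDegree - i : ℕ) : F) * (β ^ i * B.eval a ^ (g.natDegree - 1)) := by
    rcases Nat.eq_zero_or_pos (g.natDegree - i) with h0 | h0
    · rw [h0]; simp
    · have h4 : g.natDegree - 1 = i + (g.natDegree - i - 1) := by omega
      rw [h4, pow_add, mul_pow]
      ring
  linear_combination (g.coeff i * A.derivative.eval a) * f1 +
    (g.coeff i * B.derivative.eval a) * f2

/-- `N = A(g(X)) - X B(g(X))` is not zero. -/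
lemma SecHyp.ne_zero [IsAlgClosed F] {ℓ : ℕ} {g D A B C₁ C₂ : F[X]}
    (H : SecHyp ℓ g D A B C₁ C₂) : A.comp g - X * B.comp g ≠ 0 := by
  intro h
  have h1 := H.b08_comp
  rw [h, zero_mul] at h1
  exact b08_comp_ne H.b08_h H.b08_deg h1

theorem SecHyp.dvd_mult [IsAlgClosed F] {ℓ : ℕ} {g D A B C₁ C₂ : F[X]}
    (H : SecHyp ℓ g D A B C₁ C₂) (β : F) :
    (ℓ : ℤ) ∣ g.natDegree * (A.comp g - X * B.comp g).rootMultiplicity β -
      g.natDegree * (B.comp g).rootMultiplicity β - (D.comp g).rootMultiplicity β -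
      (if D.eval (g.eval β) = 0 then secExp g A B β else 0) := by
  have hm := H.b08_deg
  have hN := H.ne_zero
  have hD := H.b08_D
  have hh := H.b08_h
  have h1 := H.b08_one (g.eval β)
  have hcomp := H.b08_comp
  have hcB := b08_mult_comp H.den hm β
  have hcD := b08_mult_comp hD hm β
  have hch := b08_mult_comp hh hm β
  set a := g.eval β with ha
  set h := homog g A B - X * B ^ g.natDegree with hhdef
  have hgC : g - C a ≠ 0 := by
    intro h'
    rw [sub_eq_zero] at h'
    rw [h', natDegree_C] at hm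
    exact hm rfl
  have hgroot : (g - C a).IsRoot β := by simp [IsRoot, ha]
  have hNeval : (A.comp g - X * B.comp g).eval β = A.eval a - β * B.eval a := by
    simp [eval_comp, ha]
  -- values at simple roots of D
  have hDsimple : D.eval a = 0 → (D.comp g).rootMultiplicity β = 1 := by
    intro h0
    have h2 := rootMultiplicity_le_one_of_separable H.sep β
    have h3 : 0 < (D.comp g).rootMultiplicity β :=
      (rootMultiplicity_pos (b08_comp_ne hD hm)).mpr (by rw [IsRoot, eval_comp]; exact h0)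
    omega
  have hDzero : D.eval a ≠ 0 → D.rootMultiplicity a = 0 := fun h0 => rootMultiplicity_eq_zero h0
  by_cases hBa : B.eval a = 0
  · -- case (2)
    have hAa : A.eval a ≠ 0 := by
      intro h0
      obtain ⟨u, v, huv⟩ := H.coprime
      have := congrArg (eval a) huv
      simp [h0, hBa] at this
    have hNz : (A.comp g - X * B.comp g).rootMultiplicity β = 0 := by
      apply rootMultiplicity_eq_zero
      rw [IsRoot, hNeval, hBa, mul_zero, sub_zero]
      exact hAa
    have hhz : h.rootMultiplicity a = 0 := by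
      apply rootMultiplicity_eq_zero
      rw [IsRoot, hhdef, eval_sub, eval_mul, eval_pow, hBa, zero_pow hm, mul_zero, sub_zero]
      unfold homog
      rw [eval_finsetSum, Finset.sum_eq_single g.natDegree]
      · simp only [eval_mul, eval_C, eval_pow, Nat.sub_self, pow_zero, mul_one]
        have : g.coeff g.natDegree = 1 := H.monic
        rw [this, one_mul]
        exact pow_ne_zero _ hAa
      · intro i hi hne
        have h2 : g.natDegree - i ≠ 0 := by
          have := Finset.mem_range.mp hi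
          omega
        simp [hBa, h2]
      · intro h'
        exact absurd (Finset.mem_range.mpr (Nat.lt_succ_self _)) h'
    have he : (if D.eval a = 0 then secExp g A B β else 0) = 0 := by
      split_ifs with h0
      · unfold secExp
        rw [← ha, if_pos hBa]
      · rfl
    rw [he, hNz, hcB, hcD]
    rw [hhz] at h1
    obtain ⟨c, hc⟩ := h1
    refine ⟨-c * (g - C a).rootMultiplicity β, ?_⟩
    push_cast
    have : ((D.rootMultiplicity a : ℕ) : ℤ) + g.natDegree * (B.rootMultiplicity a : ℕ) = ℓ * c := by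
      simpa using hc
    linear_combination (-((g - C a).rootMultiplicity β : ℤ)) * this
  · have hBz : B.rootMultiplicity a = 0 := rootMultiplicity_eq_zero hBa
    have hcBz : (B.comp g).rootMultiplicity β = 0 := by rw [hcB, hBz, zero_mul]
    by_cases hAB : A.eval a = β * B.eval a
    · -- case (4)
      have hha : h.eval a = 0 := by
        have h2 := congrArg (eval β) hcomp
        rw [eval_comp, eval_mul, hNeval, hAB, sub_self, zero_mul, ← ha] at h2
        exact h2
      by_cases hg' : g.derivative.eval β = 0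
      · -- case (4a)
        exfalso
        have hDa : D.eval a ≠ 0 := by
          intro h0
          have h2 : 1 < (D.comp g).rootMultiplicity β := by
            rw [one_lt_rootMultiplicity_iff_isRoot (b08_comp_ne hD hm)]
            refine ⟨by rw [IsRoot, eval_comp]; exact h0, ?_⟩
            rw [IsRoot, derivative_comp, eval_mul, hg', zero_mul]
          rw [hDsimple h0] at h2
          exact lt_irrefl _ h2
        have hh1 : h.rootMultiplicity a = 1 := by
          have h2 : 0 < h.rootMultiplicity a := (rootMultiplicity_pos hh).mpr hha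
          have h3 : ¬ 1 < h.rootMultiplicity a := by
            rw [one_lt_rootMultiplicity_iff_isRoot hh]
            rintro ⟨_, h4⟩
            rw [IsRoot, hhdef, derivative_sub, derivative_mul, derivative_X, derivative_pow,
              eval_sub, b08_deriv g A B a β hm hAB, hg'] at h4
            simp only [eval_add, eval_mul, eval_pow, eval_one, eval_X, eval_C, ← ha] at h4
            have h5 : B.eval a ^ g.natDegree = 0 := by linear_combination -h4
            exact hBa (pow_eq_zero_iff hm |>.mp h5)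
          omega
        rw [hDzero hDa, hBz, hh1] at h1
        have h2 : (ℓ : ℤ) ∣ 1 := by
          have := (dvd_neg (a := (ℓ : ℤ))).mpr h1
          simpa using this
        have h3 : ℓ ∣ 1 := by exact_mod_cast h2
        exact H.prime.one_lt.ne' (Nat.dvd_one.mp h3)
      · -- case (4b)
        have hn1 : (g - C a).rootMultiplicity β = 1 := by
          have h2 : 0 < (g - C a).rootMultiplicity β := (rootMultiplicity_pos hgC).mpr hgroot
          have h3 : ¬ 1 < (g - C a).rootMultiplicity β := by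
            rw [one_lt_rootMultiplicity_iff_isRoot hgC]
            rintro ⟨_, h4⟩
            rw [IsRoot, derivative_sub, derivative_C, sub_zero] at h4
            exact hg' h4
          omega
        have hK : (b08_K g (A.comp g) (B.comp g)).rootMultiplicity β = 0 := by
          apply rootMultiplicity_eq_zero
          rw [IsRoot, b08_K_eval _ _ _ _ (by rw [eval_comp, eval_comp]; exact hAB), eval_comp]
          exact mul_ne_zero (pow_ne_zero _ hBa) hg'
        have hvN : (A.comp g - X * B.comp g).rootMultiplicity β = h.rootMultiplicity a := by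
          have h2 : (h.comp g) ≠ 0 := b08_comp_ne hh hm
          have h3 := hch
          rw [hcomp] at h3 h2
          rw [rootMultiplicity_mul h2, hK, add_zero, hn1, mul_one] at h3
          exact h3
        rw [hvN, hcBz]
        rw [hBz] at h1
        by_cases hDa : D.eval a = 0
        · have hDm := hDsimple hDa
          have hD1 : D.rootMultiplicity a = 1 := by
            rw [hcD, hn1, mul_one] at hDm
            exact hDm
          have he : secExp g A B β = g.natDegree - 1 := by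
            unfold secExp
            rw [← ha, if_neg hBa, if_pos hAB]
          rw [if_pos hDa, he, hDm]
          rw [hD1] at h1
          obtain ⟨c, hc⟩ := h1
          refine ⟨-c * g.natDegree, ?_⟩
          push_cast at hc ⊢
          linear_combination (-(g.natDegree : ℤ)) * hc
        · rw [if_neg hDa, hcD, hDzero hDa]
          rw [hDzero hDa] at h1
          obtain ⟨c, hc⟩ := h1
          refine ⟨-c * g.natDegree, ?_⟩
          push_cast at hc ⊢
          linear_combination (-(g.natDegree : ℤ)) * hc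
    · -- case (3)
      have hNz : (A.comp g - X * B.comp g).rootMultiplicity β = 0 := by
        apply rootMultiplicity_eq_zero
        rw [IsRoot, hNeval, sub_eq_zero]
        exact hAB
      rw [hNz, hcBz]
      by_cases hDa : D.eval a = 0
      · have he : secExp g A B β = -1 := by
          unfold secExp
          rw [← ha, if_neg hBa, if_neg hAB]
        rw [if_pos hDa, he, hDsimple hDa]
        simp
      · rw [if_neg hDa, hcD, hDzero hDa]
        simp

end Pool.Agent.Lib.MP_89bcae_ag.Sup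

end

section

/-!
A quotient of polynomials with given multiplicities modulo `ℓ`.
-/

open Polynomial

open scoped Classical

namespace Pool.Agent.Lib.MP_89bcae_ag.Sup

universe u

lemma b10_factor {F : Type u} [Field F] [IsAlgClosed F] (W : F[X])
    (T : Finset F) (hT : W.roots.toFinset ⊆ T) :
    C W.leadingCoeff * ∏ β ∈ T, (X - C β) ^ W.rootMultiplicity β = W := by
  conv_rhs => rw [(IsAlgClosed.splits W).eq_prod_roots]
  rw [prod_multiset_root_eq_finset_root]
  congr 1
  symm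
  apply Finset.prod_subset hT
  intro β _ hβ
  have : W.rootMultiplicity β = 0 := by
    rw [← count_roots]
    exact Multiset.count_eq_zero.mpr (fun h => hβ (Multiset.mem_toFinset.mpr h))
  rw [this, pow_zero]

lemma exists_quot_eq {F : Type u} [Field F] [IsAlgClosed F] {ℓ : ℕ} {W₁ W₂ : F[X]} (h₁ : W₁ ≠ 0)
    (h₂ : W₂ ≠ 0) (S : Finset F) (e : F → ℤ)
    (h : ∀ β, (ℓ : ℤ) ∣ (W₁.rootMultiplicity β : ℤ) - W₂.rootMultiplicity β -
      (if β ∈ S then e β else 0)) :
    ∃ (c : F) (P Q : F[X]), c ≠ 0 ∧ P ≠ 0 ∧ Q ≠ 0 ∧ ∀ (A : Type u) [Field A] [Algebra F A]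
      (θ : A), Function.Injective (aeval θ : F[X] →ₐ[F] A) →
        aeval θ W₁ / aeval θ W₂ = algebraMap F A c *
          (∏ β ∈ S, (θ - algebraMap F A β) ^ e β) * (aeval θ P / aeval θ Q) ^ ℓ := by
  choose r hr using h
  set T : Finset F := W₁.roots.toFinset ∪ W₂.roots.toFinset ∪ S with hT
  have hT1 : W₁.roots.toFinset ⊆ T := by
    intro x hx; simp only [hT, Finset.mem_union]; exact Or.inl (Or.inl hx)
  have hT2 : W₂.roots.toFinset ⊆ T := by
    intro x hx; simp only [hT, Finset.mem_union]; exact Or.inl (Or.inr hx)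
  have hTS : S ⊆ T := by
    intro x hx; simp only [hT, Finset.mem_union]; exact Or.inr hx
  have hne : ∀ β : F, (X - C β : F[X]) ≠ 0 := fun β => X_sub_C_ne_zero β
  refine ⟨W₁.leadingCoeff / W₂.leadingCoeff, ∏ β ∈ T, (X - C β) ^ (r β).toNat,
    ∏ β ∈ T, (X - C β) ^ (-(r β)).toNat,
    div_ne_zero (leadingCoeff_ne_zero.mpr h₁) (leadingCoeff_ne_zero.mpr h₂),
    Finset.prod_ne_zero_iff.mpr fun β _ => pow_ne_zero _ (hne β),
    Finset.prod_ne_zero_iff.mpr fun β _ => pow_ne_zero _ (hne β), ?_⟩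
  intro A _ _ θ hθ
  have hθ0 : ∀ β : F, θ - algebraMap F A β ≠ 0 := by
    intro β hβ
    have h1 : aeval θ (X - C β : F[X]) = aeval θ (0 : F[X]) := by
      rw [map_zero, map_sub, aeval_X, aeval_C]; exact hβ
    exact hne β (hθ h1)
  have hfac : ∀ W : F[X], W.roots.toFinset ⊆ T → aeval θ W = algebraMap F A W.leadingCoeff *
      ∏ β ∈ T, (θ - algebraMap F A β) ^ (W.rootMultiplicity β : ℤ) := by
    intro W hW
    conv_lhs => rw [← b10_factor W T hW]
    rw [map_mul, aeval_C, map_prod]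
    congr 1
    refine Finset.prod_congr rfl fun β _ => ?_
    rw [map_pow, map_sub, aeval_X, aeval_C, zpow_natCast]
  rw [hfac W₁ hT1, hfac W₂ hT2, mul_div_mul_comm, ← map_div₀, mul_assoc]
  congr 1
  rw [← Finset.prod_div_distrib, map_prod, map_prod, ← Finset.prod_div_distrib,
    ← Finset.prod_pow]
  have hS : ∏ β ∈ S, (θ - algebraMap F A β) ^ e β =
      ∏ β ∈ T, (θ - algebraMap F A β) ^ (if β ∈ S then e β else 0) := by
    symm
    rw [← Finset.prod_subset hTS]
    · refine Finset.prod_congr rfl fun β hβ => ?_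
      rw [if_pos hβ]
    · intro β _ hβ
      rw [if_neg hβ, zpow_zero]
  rw [hS, ← Finset.prod_mul_distrib]
  refine Finset.prod_congr rfl fun β _ => ?_
  have h3 : aeval θ ((X - C β) ^ (r β).toNat) / aeval θ ((X - C β) ^ (-(r β)).toNat) =
      (θ - algebraMap F A β) ^ (r β) := by
    rw [map_pow, map_pow, map_sub, aeval_X, aeval_C, ← zpow_natCast, ← zpow_natCast,
      ← zpow_sub₀ (hθ0 β)]
    congr 1
    omega
  rw [h3, ← zpow_natCast, ← zpow_mul, ← zpow_sub₀ (hθ0 β), ← zpow_add₀ (hθ0 β)]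
  congr 1
  have h4 := hr β
  rw [mul_comm (r β)]
  linarith

end Pool.Agent.Lib.MP_89bcae_ag.Sup

end

section

/-!
The sum of the exponents over a fibre is zero.
-/

open Polynomial

open scoped Classical

namespace Pool.Agent.Lib.MP_89bcae_ag.Sup

universe u

variable {F : Type u} [Field F]

lemma b09_natDegree_pos {ℓ : ℕ} {g D A B C₁ C₂ : F[X]}
    (H : SecHyp ℓ g D A B C₁ C₂) : 0 < g.natDegree := by
  rcases Nat.eq_zero_or_pos g.natDegree with h | h
  · have h1 := H.cop
    rw [h, Nat.coprime_zero_left] at h1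
    exact absurd h1 H.prime.one_lt.ne'
  · exact h

lemma b09_homog_eval (g A B : F[X]) (a r : F) (h : A.eval a = r * B.eval a) :
    (homog g A B).eval a = B.eval a ^ g.natDegree * g.eval r := by
  unfold homog
  rw [eval_finsetSum, eval_eq_sum_range (p := g), Finset.mul_sum]
  refine Finset.sum_congr rfl fun i hi => ?_
  have hi' : i ≤ g.natDegree := Nat.lt_succ_iff.mp (Finset.mem_range.mp hi)
  simp only [eval_mul, eval_C, eval_pow, h]
  have h2 : B.eval a ^ g.natDegree = B.eval a ^ i * B.eval a ^ (g.natDegree - i) := by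
    rw [← pow_add, Nat.add_sub_cancel' hi']
  rw [h2, mul_pow]
  ring

lemma b09_separable_sub {g D : F[X]} (hsep : (D.comp g).Separable) {a : F}
    (ha : D.eval a = 0) : (g - C a).Separable := by
  have h1 : (X - C a) ∣ D := dvd_iff_isRoot.mpr ha
  obtain ⟨q, hq⟩ := h1
  refine hsep.of_dvd ⟨q.comp g, ?_⟩
  rw [hq]
  simp [mul_comp]

lemma b09_rootMultiplicity_D {g D : F[X]} (hsep : (D.comp g).Separable) {a β : F}
    (ha : D.eval a = 0) (hβ : g.eval β = a) : D.rootMultiplicity a = 1 := by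
  have hD0 : D ≠ 0 := by
    rintro rfl
    rw [zero_comp] at hsep
    exact not_separable_zero hsep
  have h1 : (derivative D).eval a ≠ 0 := by
    intro h0
    have h2 : (D.comp g).eval β = 0 := by rw [eval_comp, hβ, ha]
    have h3 : (derivative (D.comp g)).eval β = 0 := by
      rw [derivative_comp, eval_mul, eval_comp, hβ, h0, mul_zero]
    obtain ⟨u, v, huv⟩ := hsep
    have h4 := congrArg (eval β) huv
    rw [eval_add, eval_mul, eval_mul, h2, h3] at h4
    simp at h4
  have h2 : 0 < D.rootMultiplicity a := (rootMultiplicity_pos hD0).mpr ha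
  by_contra h3
  have h4 : 1 < D.rootMultiplicity a := by omega
  rw [one_lt_rootMultiplicity_iff_isRoot hD0] at h4
  exact h1 h4.2

lemma b09_rootMultiplicity_pow {p : F[X]} (hp : p ≠ 0) (a : F) (n : ℕ) :
    (p ^ n).rootMultiplicity a = n * p.rootMultiplicity a := by
  induction n with
  | zero => simp [rootMultiplicity_eq_zero]
  | succ n ih =>
    rw [pow_succ, rootMultiplicity_mul (mul_ne_zero (pow_ne_zero _ hp) hp), ih]
    ring

lemma b09_eval_root [IsAlgClosed F] {ℓ : ℕ} {g D A B C₁ C₂ : F[X]}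
    (H : SecHyp ℓ g D A B C₁ C₂) {a r : F} (ha : D.eval a = 0) (hB : B.eval a ≠ 0)
    (hr : A.eval a = r * B.eval a) : g.eval r = a := by
  have hm := b09_natDegree_pos H
  obtain ⟨β, hβ⟩ : ∃ β, (g - C a).IsRoot β := by
    apply IsAlgClosed.exists_root
    have h1 : (g - C a).natDegree = g.natDegree := natDegree_sub_C
    intro h0
    have h2 : (g - C a).natDegree = 0 := natDegree_eq_of_degree_eq_some h0
    omega
  have hβ' : g.eval β = a := by
    have h1 : (g - C a).eval β = 0 := hβ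
    rw [eval_sub, eval_C, sub_eq_zero] at h1
    exact h1
  have hvD := b09_rootMultiplicity_D H.sep ha hβ'
  have hvB : B.rootMultiplicity a = 0 := rootMultiplicity_eq_zero hB
  have hD0 : D ≠ 0 := by
    rintro rfl
    rw [rootMultiplicity_zero] at hvD
    omega
  set h := homog g A B - X * B ^ g.natDegree with hh
  have hR : D * C₁ ^ ℓ * B ^ g.natDegree ≠ 0 :=
    mul_ne_zero (mul_ne_zero hD0 (pow_ne_zero _ H.c₁)) (pow_ne_zero _ H.den)
  have hL : C₂ ^ ℓ * h ≠ 0 := by
    rw [H.eq]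
    exact hR
  have h1 := congrArg (rootMultiplicity a) H.eq
  rw [rootMultiplicity_mul hL, rootMultiplicity_mul hR,
    rootMultiplicity_mul (mul_ne_zero hD0 (pow_ne_zero _ H.c₁)),
    b09_rootMultiplicity_pow H.c₂, b09_rootMultiplicity_pow H.c₁, b09_rootMultiplicity_pow H.den,
    hvD, hvB] at h1
  have h2 : h.rootMultiplicity a ≠ 0 := by
    intro h0
    rw [h0] at h1
    have h3 : ℓ ∣ 1 := by
      have h4 : ℓ ∣ ℓ * C₂.rootMultiplicity a + 0 := by
        rw [add_zero]
        exact dvd_mul_right _ _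
      rw [h1, mul_zero, add_zero] at h4
      exact (Nat.dvd_add_left (dvd_mul_right _ _)).mp h4
    exact H.prime.one_lt.ne' (Nat.dvd_one.mp h3)
  have h3 : h.eval a = 0 := by
    by_contra h0
    exact h2 (rootMultiplicity_eq_zero h0)
  rw [hh, eval_sub, b09_homog_eval g A B a r hr, eval_mul, eval_X, eval_pow,
    mul_comm, ← sub_mul] at h3
  rcases mul_eq_zero.mp h3 with h4 | h4
  · exact sub_eq_zero.mp h4
  · exact absurd h4 (pow_ne_zero _ hB)

lemma SecHyp.sum_eq_zero [IsAlgClosed F] {ℓ : ℕ} {g D A B C₁ C₂ : F[X]}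
    (H : SecHyp ℓ g D A B C₁ C₂) (S : Finset F)
    (hS : ∀ β, β ∈ S ↔ D.eval (g.eval β) = 0) (a : F) :
    ∑ β ∈ S.filter (fun β => g.eval β = a), secExp g A B β = 0 := by
  by_cases ha : D.eval a = 0
  swap
  · apply Finset.sum_eq_zero
    intro β hβ
    rw [Finset.mem_filter] at hβ
    exfalso
    apply ha
    rw [← hβ.2]
    exact (hS β).mp hβ.1
  by_cases hB : B.eval a = 0
  · apply Finset.sum_eq_zero
    intro β hβ
    rw [Finset.mem_filter] at hβ
    unfold secExp
    rw [hβ.2, if_pos hB]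
  have hm := b09_natDegree_pos H
  set r : F := A.eval a / B.eval a with hrdef
  have hr : A.eval a = r * B.eval a := by
    rw [hrdef, div_mul_cancel₀ _ hB]
  have hgr := b09_eval_root H ha hB hr
  set T := S.filter (fun β => g.eval β = a) with hT
  have hrT : r ∈ T := by
    rw [hT, Finset.mem_filter, hS, hgr]
    exact ⟨ha, rfl⟩
  have hcard : T.card = g.natDegree := by
    have hsep := b09_separable_sub H.sep ha
    have h0 : g - C a ≠ 0 := by
      intro h0
      rw [h0] at hsep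
      exact not_separable_zero hsep
    have h1 : T = (g - C a).roots.toFinset := by
      ext β
      rw [hT, Finset.mem_filter, hS, Multiset.mem_toFinset, mem_roots h0, IsRoot.def, eval_sub,
        eval_C, sub_eq_zero]
      constructor
      · exact fun h => h.2
      · intro h
        rw [h]
        exact ⟨ha, rfl⟩
    rw [h1, Multiset.toFinset_card_of_nodup (nodup_roots hsep),
      splits_iff_card_roots.mp (IsAlgClosed.splits _), natDegree_sub_C]
  have hval : ∀ β ∈ T, secExp g A B β = if β = r then (g.natDegree : ℤ) - 1 else -1 := by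
    intro β hβ
    rw [hT, Finset.mem_filter] at hβ
    unfold secExp
    rw [hβ.2, if_neg hB]
    have h1 : A.eval a = β * B.eval a ↔ β = r := by
      rw [hr]
      constructor
      · intro h
        exact (mul_right_cancel₀ hB h).symm
      · rintro rfl
        rfl
    simp only [h1]
  rw [Finset.sum_congr rfl hval, ← Finset.add_sum_erase T _ hrT, if_pos rfl]
  have h2 : ∀ β ∈ T.erase r, (if β = r then (g.natDegree : ℤ) - 1 else -1) = -1 := by
    intro β hβ
    rw [if_neg (Finset.ne_of_mem_erase hβ)]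
  rw [Finset.sum_congr rfl h2, Finset.sum_const, Finset.card_erase_of_mem hrT, hcard, nsmul_eq_mul,
    Nat.cast_sub hm]
  push_cast
  ring

end Pool.Agent.Lib.MP_89bcae_ag.Sup

end

section

/-!
# The relations between the differences of the roots, and the points of the curve over `F(t)`
-/

open Polynomial

open scoped Classical

namespace Pool.Agent.Lib.MP_89bcae_ag.Sup

universe u

/-- The function `e` on the set `R` of the roots of `D(g(x))` has a sum divisible by `ℓ` over each fibre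
of `g` and there is `κ ≠ 0` in the field `K` generated by `R` over `k` such that
`κ ^ e(β) ∏ (β - β') ^ (e(β) - e(β'))`, where `β'` runs through the elements of `R` with
`g(β') ≠ g(β)`, is the `ℓ`-th power of an element of `K` for all `β` in `R`. -/
def IsSolution (ℓ : ℕ) (k F : Type u) [Field k] [Field F] [Algebra k F] (g D : k[X])
    (e : F → ℤ) : Prop :=
  (∀ β ∈ roots k F g D, (ℓ : ℤ) ∣ ∑ᶠ β' ∈ {β' : F | aeval β' g = aeval β g}, e β') ∧
    ∃ κ ∈ IntermediateField.adjoin k (roots k F g D), κ ≠ 0 ∧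
      ∀ β ∈ roots k F g D, ∃ w ∈ IntermediateField.adjoin k (roots k F g D),
        w ^ ℓ = κ ^ e β *
          ∏ᶠ β' ∈ {β' ∈ roots k F g D | aeval β' g ≠ aeval β g}, (β - β') ^ (e β - e β')

/-- A point `(x, y)` of the curve `D(t) y ^ ℓ = g(x) - t` over `L = F(t)`, with `y ≠ 0`;
`x = num / den` in lowest terms. -/
structure Section (ℓ : ℕ) (k F L : Type u) [Field k] [Field F] [Algebra k F] [Field L]
    [Algebra F[X] L] (g D : k[X]) where
  /-- the numerator of `x` -/
  num : F[X]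
  /-- the denominator of `x` -/
  den : F[X]
  /-- the coordinate `y` -/
  y : L
  coprime : IsCoprime num den
  den_ne_zero : den ≠ 0
  y_ne_zero : y ≠ 0
  eqn : y ^ ℓ =
    (curvePoly k F L g D).eval (algebraMap F[X] L num / algebraMap F[X] L den)

/-- The coordinate `x`. -/
noncomputable def Section.x {ℓ : ℕ} {k F L : Type u} [Field k] [Field F] [Algebra k F] [Field L]
    [Algebra F[X] L] {g D : k[X]} (P : Section ℓ k F L g D) : L :=
  algebraMap F[X] L P.num / algebraMap F[X] L P.den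

/-- The exponents of a point `P`, where `x = x(P)` and `m = deg g`: `m - 1` if `x(g(β)) = β`, `0` if `x`
has a pole at `g(β)`, `-1` in the other cases. -/
noncomputable def Section.exponent {ℓ : ℕ} {k F L : Type u} [Field k] [Field F] [Algebra k F]
    [Field L] [Algebra F[X] L] {g D : k[X]} (P : Section ℓ k F L g D) (β : F) : ℤ :=
  if P.den.eval (aeval β g) = 0 then 0
  else if P.num.eval (aeval β g) = β * P.den.eval (aeval β g) then g.natDegree - 1
  else -1

/-- The class `Q` is the class of the point `(a, b)` of the affine curve `y ^ ℓ = f(x)`: the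
corresponding module over the coordinate ring is isomorphic to the ideal `(x - a, y - b)`. -/
def IsPointClass (ℓ : ℕ) {A : Type u} [Field A] (f : A[X]) (a b : A) (Q : Jac ℓ f) : Prop :=
  Nonempty ((Additive.toMul Q).AsModule ≃ₗ[Coord ℓ f]
    (Ideal.span {AdjoinRoot.of (X ^ ℓ - C f : A[X][X]) (X - C a),
      AdjoinRoot.root (X ^ ℓ - C f : A[X][X]) - AdjoinRoot.of (X ^ ℓ - C f : A[X][X]) (C b)} :
      Ideal (Coord ℓ f)))

/-- The subgroup of the Jacobian generated by the points `(x_i, ζ' y_i)`, `ζ' ^ ℓ = 1`. -/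
noncomputable def sectionGroup {ℓ : ℕ} {k F L : Type u} (Ω : Type u) [Field k] [Field F] [Algebra k F]
    [Field L] [Algebra F[X] L] [Field Ω] [Algebra L Ω] {g D : k[X]} {ι : Type}
    (P : ι → Section ℓ k F L g D) : AddSubgroup (JacOver ℓ (curvePoly k F L g D) Ω) :=
  AddSubgroup.closure {Q | ∃ (i : ι) (z : Ω), z ^ ℓ = 1 ∧
    IsPointClass ℓ ((curvePoly k F L g D).map (algebraMap L Ω)) (algebraMap L Ω (P i).x)
      (z * algebraMap L Ω (P i).y) Q}

/-- Every class of the `ℓ`-adic Selmer group over `L = F(t)` of the Jacobian of the curve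
`D(t) y ^ ℓ = g(x) - t` fixed, up to torsion, by the automorphisms of `Ω` over `k'(t)` is generated by
the points `P i`: at level `n` it is the coboundary of a point `Q` such that `ℓ ^ n Q` is in the
subgroup generated by the points `(x_i, ζ' y_i)`, `ζ' ^ ℓ = 1`. -/
def IsGeneratedBy {ℓ : ℕ} {k F L : Type u} (Ω : Type u) [Field k] [Field F] [Algebra k F]
    [Field L] [Algebra F[X] L] [IsFractionRing F[X] L] [Field Ω] [Algebra L Ω] {g D : k[X]}
    {ι : Type} (P : ι → Section ℓ k F L g D) (k' : IntermediateField k F) : Prop :=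
  ∀ c : ℕ → (Ω ≃ₐ[L] Ω) → JacOver ℓ (curvePoly k F L g D) Ω,
    IsTateCocycle ℓ (curvePoly k F L g D) c →
    (∀ (v : IsDedekindDomain.HeightOneSpectrum F[X]) (n : ℕ),
      IsLocallyTrivial ℓ (curvePoly k F L g D) (c n) (v.adicCompletion L)) →
    (∀ (γ : Ω ≃+* Ω) hγ, (∀ p : k'[X], γ (base k' F L Ω p) = base k' F L Ω p) →
      IsFixedBy ℓ (curvePoly k F L g D) c γ hγ) →
    ∀ n, ∃ Q : JacOver ℓ (curvePoly k F L g D) Ω, ℓ ^ n • Q ∈ sectionGroup Ω P ∧
      ∀ σ : Ω ≃ₐ[L] Ω, c n σ = push ℓ (curvePoly k F L g D) (σ : Ω →ₐ[L] Ω) Q - Q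

/-- The solutions of the relations are generated modulo `ℓ` by the exponents of the points `P i`. -/
def SolutionsGeneratedBy {ℓ : ℕ} {k F L : Type u} [Field k] [Field F] [Algebra k F]
    [Field L] [Algebra F[X] L] {g D : k[X]} {ι : Type} [Fintype ι]
    (P : ι → Section ℓ k F L g D) : Prop :=
  ∀ e : F → ℤ, IsSolution ℓ k F g D e → ∃ a : ι → ℤ, ∀ β ∈ roots k F g D,
    (ℓ : ℤ) ∣ e β - ∑ i, a i * (P i).exponent β

end Pool.Agent.Lib.MP_89bcae_ag.Sup

end

section

open Polynomial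

open scoped Classical

namespace Pool.Agent.Lib.MP_89bcae_ag.Sup

universe u

lemma isPointClass_iff {ℓ : ℕ} {E : Type u} [Field E] {f : E[X]} [hG : IsGood ℓ f] (P : Pt ℓ f)
    (Q : Jac ℓ f) : IsPointClass ℓ f P.x P.y Q ↔ Q = clPt P := by
  have i1 : Module.Invertible (Coord ℓ f) P.ideal := R09_invertible (Coord ℓ f)
    ⟨P.ideal, mem_nonZeroDivisors_of_ne_zero P.ideal_ne_bot⟩
  have hcl : clPt P = Additive.ofMul (CommRing.Pic.mk (Coord ℓ f) P.ideal) :=
    congrArg Additive.ofMul (R09_equivPic_mk0 (Coord ℓ f)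
      ⟨P.ideal, mem_nonZeroDivisors_of_ne_zero P.ideal_ne_bot⟩)
  have hid : (Ideal.span {AdjoinRoot.of (X ^ ℓ - C f : E[X][X]) (X - C P.x),
      AdjoinRoot.root (X ^ ℓ - C f : E[X][X]) - AdjoinRoot.of (X ^ ℓ - C f : E[X][X]) (C P.y)} :
      Ideal (Coord ℓ f)) = P.ideal := P.ideal_eq_span.symm
  have h1 : IsPointClass ℓ f P.x P.y Q ↔
      Nonempty ((Additive.toMul Q).AsModule ≃ₗ[Coord ℓ f] P.ideal) := by
    unfold IsPointClass
    rw [hid]
  have h2 : CommRing.Pic.mk (Coord ℓ f) P.ideal = Additive.toMul Q ↔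
      Nonempty (P.ideal ≃ₗ[Coord ℓ f] (Additive.toMul Q).AsModule) := CommRing.Pic.mk_eq_iff
  rw [h1, hcl]
  constructor
  · rintro ⟨e⟩
    have h3 := h2.2 ⟨e.symm⟩
    rw [h3]
    rfl
  · intro h
    have h3 : CommRing.Pic.mk (Coord ℓ f) P.ideal = Additive.toMul Q := by
      rw [h]
      rfl
    obtain ⟨e⟩ := h2.1 h3
    exact ⟨e.symm⟩

end Pool.Agent.Lib.MP_89bcae_ag.Sup

end

section

/-!
The equation of a point of the curve over `F(t)`, in terms of polynomials.
-/

open Polynomial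

open scoped Classical

namespace Pool.Agent.Lib.MP_89bcae_ag.Sup

universe u

variable {k F L : Type u} [Field k] [Field F] [Algebra k F] [Field L] [Algebra F[X] L]
  {ℓ : ℕ} {g D : k[X]} {ζ : k}

lemma b11_homog [IsFractionRing F[X] L] (G A B : F[X]) (hB : B ≠ 0) :
    algebraMap F[X] L (homog G A B) =
      (G.map ((algebraMap F[X] L).comp C)).eval (algebraMap F[X] L A / algebraMap F[X] L B) *
        (algebraMap F[X] L B) ^ G.natDegree := by
  have h1 : algebraMap F[X] L B ≠ 0 := by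
    rw [Ne, map_eq_zero_iff _ (IsFractionRing.injective F[X] L)]
    exact hB
  unfold homog
  rw [map_sum, eval_map, eval₂_eq_sum_range, Finset.sum_mul]
  refine Finset.sum_congr rfl fun i hi => ?_
  have h2 : i ≤ G.natDegree := by
    have := Finset.mem_range.mp hi
    omega
  rw [map_mul, map_mul, map_pow, map_pow, div_pow, RingHom.comp_apply, ← pow_sub_mul_pow _ h2]
  field_simp

lemma b11_curve (x : L) : (curvePoly k F L g D).eval x =
    (algebraMap F[X] L (D.map (algebraMap k F)))⁻¹ *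
      (((g.map (algebraMap k F)).map ((algebraMap F[X] L).comp C)).eval x -
        algebraMap F[X] L X) := by
  have h0 : ∀ p : k[X], base k F L L p = algebraMap F[X] L (p.map (algebraMap k F)) := fun p => rfl
  have h1 : (base k F L L).comp C =
      ((algebraMap F[X] L).comp C).comp (algebraMap k F) := by
    ext c
    rw [RingHom.comp_apply, h0, map_C]
    rfl
  unfold curvePoly
  rw [eval_mul, eval_C, eval_sub, eval_C, h0, h0, map_X, h1, Polynomial.map_map]

lemma Section.secHyp [IsFractionRing F[X] L] (H : GlobHyp ℓ g D ζ) (P : Section ℓ k F L g D) :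
    ∃ C₁ C₂ : F[X], SecHyp ℓ (g.map (algebraMap k F)) (D.map (algebraMap k F)) P.num P.den C₁ C₂ := by
  obtain ⟨C₁, C₂, hC₂, hy⟩ := IsFractionRing.div_surjective (A := F[X]) P.y
  have hinj := IsFractionRing.injective F[X] L
  have hD0 : D ≠ 0 := by
    rintro rfl
    exact H.pos natDegree_zero
  have hD : algebraMap F[X] L (D.map (algebraMap k F)) ≠ 0 := by
    rw [Ne, map_eq_zero_iff _ hinj]
    exact (Polynomial.map_ne_zero_iff (algebraMap k F).injective).2 hD0
  have hC₂0 : C₂ ≠ 0 := nonZeroDivisors.ne_zero hC₂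
  have hC₂' : algebraMap F[X] L C₂ ≠ 0 := by
    rw [Ne, map_eq_zero_iff _ hinj]
    exact hC₂0
  refine ⟨C₁, C₂, H.prime, H.monic.map _, ?_, ?_, ?_, P.coprime, P.den_ne_zero, ?_, hC₂0, ?_⟩
  · rw [natDegree_map]
    exact H.cop
  · rw [← Polynomial.map_comp]
    exact H.sep.map
  · rw [natDegree_map]
    exact H.pos
  · rintro rfl
    apply P.y_ne_zero
    rw [← hy, map_zero, zero_div]
  · apply hinj
    have h1 := P.eqn
    rw [b11_curve] at h1
    have h2 := b11_homog (L := L) (g.map (algebraMap k F)) P.num P.den P.den_ne_zero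
    have h3 : algebraMap F[X] L C₂ * P.y = algebraMap F[X] L C₁ := by
      rw [← hy, mul_div_cancel₀ _ hC₂']
    have h4 : algebraMap F[X] L (D.map (algebraMap k F)) * P.y ^ ℓ =
        ((g.map (algebraMap k F)).map ((algebraMap F[X] L).comp C)).eval
          (algebraMap F[X] L P.num / algebraMap F[X] L P.den) - algebraMap F[X] L X := by
      rw [h1, mul_inv_cancel_left₀ hD]
    rw [map_mul, map_sub, map_mul, map_mul, map_mul, map_pow, map_pow, map_pow, h2, ← sub_mul,
      ← h4, ← h3, mul_pow]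
    ring

lemma Section.exponent_eq (P : Section ℓ k F L g D) (β : F) :
    P.exponent β = secExp (g.map (algebraMap k F)) P.num P.den β := by
  unfold Section.exponent secExp
  rw [eval_map_algebraMap, natDegree_map]

/-- The point over `Ω`. -/
noncomputable def Section.pt (Ω : Type u) [Field Ω] [Algebra L Ω] (P : Section ℓ k F L g D) :
    Pt ℓ (cOver k F L Ω g D) where
  x := algebraMap L Ω P.x
  y := algebraMap L Ω P.y
  eq := by
    rw [eval_map_algebraMap, aeval_algebraMap_apply, ← map_pow, P.eqn]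
    rfl

end Pool.Agent.Lib.MP_89bcae_ag.Sup

end

section

/-!
ROW B12 (180-300 lines). The exponents of the Kummer class of a point `P = (x, y)`, multiplied by
`m = deg g`.

PROOF. Let `p = P.pt Ω`, `π Q = Q - Z Q`, `V = v Q₁`; `π V = ℓ Q₁ = clPt p = cl (single p 1)`
(`vJ_sub_zJ`; `cl` of a `Finsupp.single`). Kummer formula R21 (`kummer_formula`) for `V` and
`single p 1`: `z θ ≠ 0`, `(z θ)^ℓ = ε^{atR} uval = θ - x`: `atR (single p 1) θ = 0` as `p.y ≠ 0`, and
`uval (single p 1) θ = θ - p.x` because `p.x ≠ θ` (`f(p.x) = p.y^ℓ ≠ 0`). For `σ` in `Gal(Ω/L)` (as the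
element `toSym g D (galA k F σ)` of `Sym`; it fixes `ζ` (`zA_fixed`) and `p`): if
`σ (z θ) = ζ^{n₀(σθ)} z(σθ)` for all roots `θ` then `σ V - V = ram n₀`; such `n₀` exists as the `ℓ`-th
powers agree (`σ x = x`; see `exists_n_of_pow` in G12 for a similar argument).
Let `N = A(g(X)) - X B(g(X))`, `A/B = x`; for a root `θ`, `g(θ) = t` (`tA`), `θ - x = -N(θ)/B(g(θ))`. Apply
`exists_quot_eq` (B10) to `W₁ = (X B(g) - A(g))^m`, `W₂ = B(g)^m D(g)`, `S = RR`, `e = secExp` (B08:
`SecHyp.dvd_mult`; `β ∈ RR ↔ D(g(β)) = 0`, `mem_RR`): `(θ - x)^m / D(t) =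
c ∏_{β∈RR} (θ - β)^{e β} (P₁(θ)/Q₁(θ))^ℓ`. Take `δ` in `Ω`, `δ^ℓ = D(t)`, `c'^ℓ = c` in `F` and
`z' θ = (z θ)^m δ⁻¹ c'⁻¹ Q₁(θ)/P₁(θ)`: `(z' θ)^ℓ = ∏ (θ - β)^{e β}`. `σ δ = ζ^i δ` for some `i`, so
`σ (z' θ) = ζ^{m n₀(σθ) - i} z'(σθ)`. If also `σ (z' θ) = ζ^{n(σθ)} z'(σθ)` then `n ≡ m n₀ - i` modulo `ℓ`
on the roots, and `v ((m c) 1 σ) = m v (c 1 σ) = m (σ V - V)` (`vJ_smul`, `vJ_sub`, `vJ_symJ`)
`= m ram n₀ = ram (m n₀) = ram (m n₀ - i) = ram n` (`ram_congr`, `ram_add`, `ram_sub`,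
`ram_eq_zero_iff` for the constant).
The field `sum`: `SecHyp.sum_eq_zero` (B09), `Section.exponent_eq` (B11).
-/

open Polynomial IsDedekindDomain

open scoped Classical

namespace Pool.Agent.Lib.MP_89bcae_ag.Sup

universe u

lemma b12_mult_pow {F : Type u} [Field F] {p : F[X]} (hp : p ≠ 0) (β : F) (n : ℕ) :
    (p ^ n).rootMultiplicity β = n * p.rootMultiplicity β := by
  induction n with
  | zero =>
    rw [pow_zero, zero_mul]
    exact rootMultiplicity_eq_zero (by simp)
  | succ n ih =>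
    rw [pow_succ, rootMultiplicity_mul (mul_ne_zero (pow_ne_zero _ hp) hp), ih]
    ring

lemma b12_zpow_inj {E : Type u} [Field E] {ℓ : ℕ} (hℓ : ℓ ≠ 0) {ζ : E}
    (hζ : IsPrimitiveRoot ζ ℓ) {a b : ℤ} (h : ζ ^ a = ζ ^ b) : (ℓ : ℤ) ∣ a - b := by
  have h0 : ζ ≠ 0 := hζ.ne_zero hℓ
  rw [← hζ.zpow_eq_one_iff_dvd, zpow_sub₀ h0, h, div_self (zpow_ne_zero _ h0)]

lemma b12_exists_zpow {E : Type u} [Field E] {ℓ : ℕ} (hℓ : ℓ ≠ 0) {ζ : E}
    (hζ : IsPrimitiveRoot ζ ℓ) {x y : E} (hy : y ≠ 0) (h : x ^ ℓ = y ^ ℓ) :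
    ∃ i : ℤ, x = ζ ^ i * y := by
  have : NeZero ℓ := ⟨hℓ⟩
  have h1 : (x / y) ^ ℓ = 1 := by
    rw [div_pow, h, div_self (pow_ne_zero _ hy)]
  obtain ⟨i, _, hi⟩ := hζ.eq_pow_of_pow_eq_one h1
  refine ⟨i, ?_⟩
  rw [zpow_natCast, hi, div_mul_cancel₀ _ hy]

lemma b12_ram_const {ℓ : ℕ} {E : Type u} [Field E] {f : E[X]} [hG : IsGood ℓ f] {ζ : E}
    (hζ : IsPrimitiveRoot ζ ℓ) (m : ℕ) (n : E → ℤ) (i : ℤ) :
    (ram (fun θ => (m : ℤ) * n θ - i) : Jac ℓ f) = m • ram n := by
  have h1 : (ram (fun _ => i) : Jac ℓ f) = 0 :=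
    (ram_eq_zero_iff ζ hζ (fun _ => i)).2 ⟨i, fun θ _ => by simp⟩
  rw [ram_sub, h1, sub_zero, ram, ramDiv_smul, map_zsmul, natCast_zsmul]
  rfl

variable {k F L Ω : Type u} [Field k] [Field F] [Algebra k F] [Field L] [Algebra F[X] L]
  [Field Ω] [Algebra L Ω] [IsAlgClosure k F] [IsFractionRing F[X] L] [IsAlgClosure L Ω]
  [Algebra F Ω] {ℓ : ℕ} {g D : k[X]} [hG : IsGood ℓ (cOver k F L Ω g D)] {ζ : k}
  {hζ : (zA F L Ω ζ) ^ ℓ = 1}

omit [IsAlgClosure k F] [IsFractionRing F[X] L] [IsAlgClosure L Ω] hG in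
lemma b12_aeval_tA (hF : CompatF F L Ω) (p : F[X]) :
    aeval (tA F L Ω) p = algebraMap L Ω (algebraMap F[X] L p) := by
  have h : ((aeval (tA F L Ω) : F[X] →ₐ[F] Ω) : F[X] →+* Ω) =
      (algebraMap L Ω).comp (algebraMap F[X] L) := by
    ext c
    · simp only [RingHom.coe_comp, Function.comp_apply, RingHom.coe_coe, aeval_C]
      exact hF c
    · simp only [RingHom.coe_coe, aeval_X, RingHom.coe_comp, Function.comp_apply]
      rfl
  exact congrArg (fun φ : F[X] →+* Ω => φ p) h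

omit [IsAlgClosure k F] [IsAlgClosure L Ω] hG in
lemma b12_tA_ne (hF : CompatF F L Ω) {p : F[X]} (hp : p ≠ 0) : aeval (tA F L Ω) p ≠ 0 := by
  rw [b12_aeval_tA hF]
  intro h
  apply hp
  apply IsFractionRing.injective F[X] L
  apply (algebraMap L Ω).injective
  rw [h, map_zero, map_zero]

omit [IsAlgClosure k F] [IsAlgClosure L Ω] hG in
lemma b12_root (hF : CompatF F L Ω) (H : GlobHyp ℓ g D ζ) {θ : Ω}
    (hθ : θ ∈ rts (cOver k F L Ω g D)) : aeval θ (g.map (algebraMap k F)) = tA F L Ω := by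
  have hd : aeval (tA F L Ω) (D.map (algebraMap k F)) ≠ 0 := by
    apply b12_tA_ne hF
    intro h1
    rw [Polynomial.map_eq_zero] at h1
    exact H.pos (by rw [h1, natDegree_zero])
  have hm : (g.map (algebraMap k F)).natDegree ≠ 0 := by
    rw [natDegree_map]
    intro h
    have h1 := H.cop
    rw [h, Nat.coprime_zero_left] at h1
    exact H.prime.one_lt.ne' h1
  rw [cOver_eq_locPoly hF, mem_rts (locPoly_ne_zero (H.monic.map _) hm hd),
    eval_locPoly_eq_zero hd] at hθ
  exact hθ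

omit [IsAlgClosure k F] [IsFractionRing F[X] L] [IsAlgClosure L Ω] [Algebra F Ω] hG in
lemma b12_mem (hG : IsGood ℓ (cOver k F L Ω g D)) {θ : Ω} :
    θ ∈ rts (cOver k F L Ω g D) ↔ (cOver k F L Ω g D).eval θ = 0 :=
  mem_rts hG.separable.ne_zero

omit [IsAlgClosure k F] [IsFractionRing F[X] L] [IsAlgClosure L Ω] [Algebra F Ω] hG in
lemma b12_smul_mem (hG : IsGood ℓ (cOver k F L Ω g D)) (σ : Ω ≃ₐ[L] Ω) {θ : Ω} (hθ : θ ∈ rts (cOver k F L Ω g D)) :
    σ θ ∈ rts (cOver k F L Ω g D) := by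
  rw [b12_mem hG] at hθ ⊢
  have h := R21_eval (toSym g D (galA k F σ)) θ
  have h2 : ((toSym g D (galA k F σ) : Sym (cOver k F L Ω g D)) : Ω ≃+* Ω) θ = σ θ := rfl
  rw [h2, hθ, map_zero] at h
  exact h

omit [IsAlgClosure k F] [IsFractionRing F[X] L] [IsAlgClosure L Ω] hG in
lemma b12_aeval (hF : CompatF F L Ω) (σ : Ω ≃ₐ[L] Ω) (x : Ω) (P : F[X]) :
    σ (aeval x P) = aeval (σ x) P := by
  have hj : ∀ c : F, σ (algebraMap F Ω c) = algebraMap F Ω c := by
    intro c
    rw [hF c, σ.commutes]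
  have h1 := Polynomial.hom_eval₂ P (algebraMap F Ω) ((σ : Ω →ₐ[L] Ω) : Ω →+* Ω) x
  have h2 : ((σ : Ω →ₐ[L] Ω) : Ω →+* Ω).comp (algebraMap F Ω) = algebraMap F Ω := by
    ext c
    exact hj c
  rw [h2] at h1
  exact h1

omit [Algebra F Ω] in
/-- The Kummer functions of the class of a point. -/
lemma b12_kummer (H : GlobHyp ℓ g D ζ) (P : Section ℓ k F L g D)
    {Q₁ : JacOver ℓ (curvePoly k F L g D) Ω} (hQ₁ : ℓ • Q₁ = clPt (P.pt Ω)) :
    ∃ z : Ω → Ω, (∀ θ ∈ rts (cOver k F L Ω g D), z θ ≠ 0 ∧ z θ ^ ℓ = θ - (P.pt Ω).x) ∧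
      ∀ (σ : Ω ≃ₐ[L] Ω) (n : Ω → ℤ), (∀ θ ∈ rts (cOver k F L Ω g D),
        σ (z θ) = zA F L Ω ζ ^ n (σ θ) * z (σ θ)) →
        vJ (zA F L Ω ζ) hζ (symJ (toSym g D (galA k F σ)) Q₁ - Q₁) = ram n := by
  have hprim : IsPrimitiveRoot (zA F L Ω ζ) ℓ := zA_primitive H
  have hyn : (P.pt Ω).y ≠ 0 := by
    change algebraMap L Ω P.y ≠ 0
    rw [Ne, map_eq_zero]
    exact P.y_ne_zero
  have hV : vJ (zA F L Ω ζ) hζ Q₁ - zJ (zA F L Ω ζ) hζ (vJ (zA F L Ω ζ) hζ Q₁) =
      cl (Finsupp.single (P.pt Ω) 1) := by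
    rw [cl, Finsupp.liftAddHom_apply_single, zmultiplesHom_apply, one_smul, ← hQ₁]
    exact vJ_sub_zJ (zA F L Ω ζ) hprim Q₁
  obtain ⟨z, hz, hzσ⟩ := kummer_formula (zA F L Ω ζ) hprim _ _ hV
  refine ⟨z, fun θ hθ => ?_, fun σ n hn => ?_⟩
  · rw [b12_mem hG] at hθ
    obtain ⟨h1, h2⟩ := hz θ hθ
    refine ⟨h1, ?_⟩
    have h3 : atR (Finsupp.single (P.pt Ω) 1) θ = 0 := by
      unfold atR
      rw [dif_pos hθ, Finsupp.single_apply, if_neg]
      intro h
      exact hyn (congrArg Pt.y h)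
    have h4 : (P.pt Ω).x ≠ θ := by
      intro h
      have h5 := (P.pt Ω).eq
      rw [h, hθ] at h5
      exact hyn ((pow_eq_zero_iff H.prime.ne_zero).1 h5)
    rw [h2, h3, zpow_zero, one_mul, uval, Finsupp.prod_single_index (zpow_zero _), zpow_one,
      if_neg h4]
  · have hfix : ((toSym g D (galA k F σ) : Sym (cOver k F L Ω g D)) : Ω ≃+* Ω) (zA F L Ω ζ) =
        zA F L Ω ζ := zA_fixed ζ (galA k F σ)
    rw [vJ_sub, vJ_symJ _ _ _ hfix]
    refine hzσ (toSym g D (galA k F σ)) hfix ?_ n fun θ hθ => ?_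
    · rw [Finsupp.mapDomain_single]
      congr 1
      refine Pt.ext ?_ ?_
      · exact σ.commutes P.x
      · exact σ.commutes P.y
    · exact hn θ ((b12_mem hG).2 hθ)

omit hG in
/-- The functions `(θ - x) ^ m / D(t)`. -/
lemma b12_quot (hF : CompatF F L Ω) (H : GlobHyp ℓ g D ζ) (P : Section ℓ k F L g D) :
    ∃ (c : F) (P₁ Q₁ : F[X]), c ≠ 0 ∧ P₁ ≠ 0 ∧ Q₁ ≠ 0 ∧ ∀ θ ∈ rts (cOver k F L Ω g D),
      (θ - (P.pt Ω).x) ^ g.natDegree * (aeval (tA F L Ω) (D.map (algebraMap k F)))⁻¹ =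
        algebraMap F Ω c * (∏ β ∈ RR F g D, (θ - algebraMap F Ω β) ^ P.exponent β) *
          (aeval θ P₁ / aeval θ Q₁) ^ ℓ := by
  have : IsAlgClosed F := IsAlgClosure.isAlgClosed k
  obtain ⟨C₁, C₂, HS⟩ := P.secHyp H
  set g' := g.map (algebraMap k F) with hg'
  set D' := D.map (algebraMap k F) with hD'
  have hdeg : g'.natDegree = g.natDegree := natDegree_map _
  have hm0 : g'.natDegree ≠ 0 := by
    intro h
    have h1 := HS.cop
    rw [h, Nat.coprime_zero_left] at h1
    exact HS.prime.one_lt.ne' h1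
  have hN := HS.ne_zero
  have hB : P.den.comp g' ≠ 0 := by
    intro h
    rw [comp_eq_zero_iff] at h
    rcases h with h | ⟨_, h⟩
    · exact HS.den h
    · rw [h, natDegree_C] at hm0
      exact hm0 rfl
  have hD0 : D'.comp g' ≠ 0 := HS.sep.ne_zero
  obtain ⟨c, P₁, Q₁, hc, hP₁, hQ₁, hq⟩ := exists_quot_eq (ℓ := ℓ)
    (W₁ := (P.num.comp g' - X * P.den.comp g') ^ g'.natDegree)
    (W₂ := (P.den.comp g') ^ g'.natDegree * D'.comp g')
    (pow_ne_zero _ hN) (mul_ne_zero (pow_ne_zero _ hB) hD0) (RR F g D) P.exponent (by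
      intro β
      rw [b12_mult_pow hN, rootMultiplicity_mul (mul_ne_zero (pow_ne_zero _ hB) hD0),
        b12_mult_pow hB]
      have h := HS.dvd_mult β
      have h2 : D'.eval (g'.eval β) = 0 ↔ β ∈ RR F g D := by
        rw [mem_RR H, hg', hD', eval_map_algebraMap, eval_map_algebraMap]
      rw [P.exponent_eq]
      simp only [h2] at h
      push_cast
      rw [← sub_sub]
      exact h)
  have hε0 : ((-1 : F) ^ g.natDegree) ≠ 0 := pow_ne_zero _ (neg_ne_zero.2 one_ne_zero)
  refine ⟨(-1) ^ g.natDegree * c, P₁, Q₁, mul_ne_zero hε0 hc, hP₁, hQ₁, fun θ hθ => ?_⟩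
  have h1 := hq Ω θ (aeval_root_injective hF H hθ)
  have hBt := b12_tA_ne hF HS.den
  have hθg := b12_root hF H hθ
  have hx : (P.pt Ω).x = aeval (tA F L Ω) P.num / aeval (tA F L Ω) P.den := by
    rw [b12_aeval_tA hF, b12_aeval_tA hF, ← map_div₀]
    rfl
  have h2 : aeval θ (P.num.comp g' - X * P.den.comp g') =
      aeval (tA F L Ω) P.num - θ * aeval (tA F L Ω) P.den := by
    rw [map_sub, map_mul, aeval_X, aeval_comp, aeval_comp, hθg]
  rw [map_mul, map_pow, map_pow, h2, aeval_comp, aeval_comp, hθg, hdeg] at h1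
  have h3 : (θ - (P.pt Ω).x) ^ g.natDegree = (-1) ^ g.natDegree *
      ((aeval (tA F L Ω) P.num - θ * aeval (tA F L Ω) P.den) ^ g.natDegree /
        (aeval (tA F L Ω) P.den) ^ g.natDegree) := by
    rw [← div_pow, ← mul_pow, hx]
    congr 1
    field_simp
    ring
  rw [h3, map_mul, map_pow, map_neg, map_one, mul_assoc ((-1) ^ g.natDegree) (_ / _),
    ← div_eq_mul_inv, ← div_mul_eq_div_div, h1]
  ring

theorem hasExp_of_section (hF : CompatF F L Ω) (H : GlobHyp ℓ g D ζ) (P : Section ℓ k F L g D)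
    {Q₁ : JacOver ℓ (curvePoly k F L g D) Ω} (hQ₁ : ℓ • Q₁ = clPt (P.pt Ω))
    {c : Coch ℓ k F L Ω g D}
    (hc : ∀ σ : Ω ≃ₐ[L] Ω, c 1 σ = symJ (toSym g D (galA k F σ)) Q₁ - Q₁) :
    HasExp hζ (g.natDegree • c) P.exponent := by
  have : IsAlgClosed F := IsAlgClosure.isAlgClosed k
  have : IsAlgClosed Ω := IsAlgClosure.isAlgClosed L
  have hprim : IsPrimitiveRoot (zA F L Ω ζ) ℓ := zA_primitive H
  have hζ0 : zA F L Ω ζ ≠ 0 := hprim.ne_zero H.prime.ne_zero
  refine ⟨fun a => ?_, ?_⟩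
  · obtain ⟨C₁, C₂, HS⟩ := P.secHyp H
    have h := HS.sum_eq_zero (RR F g D) (fun β => by
      rw [mem_RR H, eval_map_algebraMap, eval_map_algebraMap]) a
    have h2 : ∑ β ∈ (RR F g D).filter (fun β => aeval β g = a), P.exponent β =
        ∑ β ∈ (RR F g D).filter (fun β => (g.map (algebraMap k F)).eval β = a),
          secExp (g.map (algebraMap k F)) P.num P.den β := by
      refine Finset.sum_congr ?_ fun β _ => P.exponent_eq β
      refine Finset.filter_congr fun β _ => ?_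
      rw [eval_map_algebraMap]
    rw [h2, h]
    exact dvd_zero _
  obtain ⟨z, hz, hzσ⟩ := b12_kummer (hζ := hζ) H P hQ₁
  obtain ⟨c₀, P₁, R₁, hc₀, hP₁, hR₁, hq⟩ := b12_quot (Ω := Ω) hF H P
  have hd : aeval (tA F L Ω) (D.map (algebraMap k F)) ≠ 0 := by
    apply b12_tA_ne hF
    intro h1
    rw [Polynomial.map_eq_zero] at h1
    exact H.pos (by rw [h1, natDegree_zero])
  obtain ⟨δ, hδ⟩ := IsAlgClosed.exists_pow_nat_eq (aeval (tA F L Ω) (D.map (algebraMap k F)))
    H.prime.pos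
  obtain ⟨c', hc'⟩ := IsAlgClosed.exists_pow_nat_eq c₀ H.prime.pos
  have hδ0 : δ ≠ 0 := by
    rintro rfl
    rw [zero_pow H.prime.ne_zero] at hδ
    exact hd hδ.symm
  have hc'0 : algebraMap F Ω c' ≠ 0 := by
    rw [Ne, map_eq_zero]
    rintro rfl
    rw [zero_pow H.prime.ne_zero] at hc'
    exact hc₀ hc'.symm
  have hPθ : ∀ θ ∈ rts (cOver k F L Ω g D), aeval θ P₁ ≠ 0 := by
    intro θ hθ h
    exact hP₁ (aeval_root_injective hF H hθ (by rw [h, map_zero]))
  have hRθ : ∀ θ ∈ rts (cOver k F L Ω g D), aeval θ R₁ ≠ 0 := by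
    intro θ hθ h
    exact hR₁ (aeval_root_injective hF H hθ (by rw [h, map_zero]))
  refine ⟨fun θ => z θ ^ g.natDegree * δ⁻¹ * (algebraMap F Ω c')⁻¹ *
    (aeval θ R₁ / aeval θ P₁), fun θ hθ => ?_, fun σ n hn => ?_⟩
  · have h1 := hq θ hθ
    have h2 := hPθ θ hθ
    have h3 := hRθ θ hθ
    have h4 : (z θ ^ g.natDegree * δ⁻¹ * (algebraMap F Ω c')⁻¹ *
        (aeval θ R₁ / aeval θ P₁)) ^ ℓ =
        ((z θ ^ ℓ) ^ g.natDegree * (δ ^ ℓ)⁻¹) * ((algebraMap F Ω c') ^ ℓ)⁻¹ *
        (aeval θ R₁ / aeval θ P₁) ^ ℓ := by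
      rw [mul_pow, mul_pow, mul_pow, ← pow_mul, ← pow_mul, mul_comm ℓ, inv_pow, inv_pow]
    rw [h4, (hz θ hθ).2, hδ, h1, ← map_pow, hc']
    have h5 : algebraMap F Ω c₀ ≠ 0 := by
      rw [Ne, map_eq_zero]
      exact hc₀
    have h6 : (aeval θ P₁ / aeval θ R₁) ^ ℓ * (aeval θ R₁ / aeval θ P₁) ^ ℓ = 1 := by
      rw [← mul_pow, div_mul_div_comm, mul_comm (aeval θ R₁), div_self (mul_ne_zero h2 h3), one_pow]
    calc algebraMap F Ω c₀ * (∏ β ∈ RR F g D, (θ - algebraMap F Ω β) ^ P.exponent β) *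
          (aeval θ P₁ / aeval θ R₁) ^ ℓ * (algebraMap F Ω c₀)⁻¹ *
          (aeval θ R₁ / aeval θ P₁) ^ ℓ =
        (algebraMap F Ω c₀ * (algebraMap F Ω c₀)⁻¹) *
          (∏ β ∈ RR F g D, (θ - algebraMap F Ω β) ^ P.exponent β) *
          ((aeval θ P₁ / aeval θ R₁) ^ ℓ * (aeval θ R₁ / aeval θ P₁) ^ ℓ) := by ring
      _ = ∏ β ∈ RR F g D, (θ - algebraMap F Ω β) ^ P.exponent β := by
        rw [h6, mul_inv_cancel₀ h5, one_mul, mul_one]
  · have hxσ : σ (P.pt Ω).x = (P.pt Ω).x := σ.commutes P.x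
    have hδσ : (σ δ) ^ ℓ = δ ^ ℓ := by
      rw [← map_pow, hδ, b12_aeval_tA hF]
      exact σ.commutes _
    obtain ⟨i, hi⟩ := b12_exists_zpow H.prime.ne_zero hprim hδ0 hδσ
    have hex : ∀ θ' : Ω, ∃ j : ℤ, θ' ∈ rts (cOver k F L Ω g D) →
        σ (z (σ.symm θ')) = zA F L Ω ζ ^ j * z θ' := by
      intro θ'
      by_cases hθ : θ' ∈ rts (cOver k F L Ω g D)
      · have h1 : σ.symm θ' ∈ rts (cOver k F L Ω g D) := b12_smul_mem hG σ.symm hθ
        obtain ⟨j, hj⟩ := b12_exists_zpow H.prime.ne_zero hprim (hz θ' hθ).1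
          (x := σ (z (σ.symm θ'))) (by
            rw [← map_pow, (hz _ h1).2, (hz _ hθ).2, map_sub, hxσ, AlgEquiv.apply_symm_apply])
        exact ⟨j, fun _ => hj⟩
      · exact ⟨0, fun h => absurd h hθ⟩
    choose n₀ hn₀ using hex
    have hn₁ : ∀ θ ∈ rts (cOver k F L Ω g D), σ (z θ) = zA F L Ω ζ ^ n₀ (σ θ) * z (σ θ) := by
      intro θ hθ
      have h := hn₀ (σ θ) (b12_smul_mem hG σ hθ)
      rwa [AlgEquiv.symm_apply_apply] at h
    have h1 : (g.natDegree • c) 1 σ = g.natDegree • c 1 σ := rfl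
    rw [h1, vJ_smul, hc σ, hzσ σ n₀ hn₁, ← b12_ram_const hprim g.natDegree n₀ i]
    refine ram_congr _ _ fun θ hθ => ?_
    have hθr := (b12_mem hG).2 hθ
    have hθ' : σ.symm θ ∈ rts (cOver k F L Ω g D) := b12_smul_mem hG σ.symm hθr
    have h2 := hn _ hθ'
    have h3 := hn₁ _ hθ'
    simp only [AlgEquiv.apply_symm_apply] at h2 h3
    rw [map_mul, map_mul, map_mul, map_pow, map_inv₀, map_inv₀, map_div₀, b12_aeval hF,
      b12_aeval hF, AlgEquiv.apply_symm_apply, h3, hi, hF c', σ.commutes, ← hF c', mul_pow,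
      mul_inv] at h2
    have hA : z θ ^ g.natDegree * δ⁻¹ * (algebraMap F Ω c')⁻¹ *
        (aeval θ R₁ / aeval θ P₁) ≠ 0 :=
      mul_ne_zero (mul_ne_zero (mul_ne_zero (pow_ne_zero _ (hz θ hθr).1) (inv_ne_zero hδ0))
        (inv_ne_zero hc'0)) (div_ne_zero (hRθ θ hθr) (hPθ θ hθr))
    have h4 : zA F L Ω ζ ^ ((g.natDegree : ℤ) * n₀ θ - i) = zA F L Ω ζ ^ n θ := by
      apply mul_right_cancel₀ hA
      rw [← h2, zpow_sub₀ hζ0, mul_comm (g.natDegree : ℤ), zpow_mul, zpow_natCast, div_eq_mul_inv]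
      ring
    exact b12_zpow_inj H.prime.ne_zero hprim h4

end Pool.Agent.Lib.MP_89bcae_ag.Sup

end

section

/-!
# The two forms of the definitions, with points
-/

open Polynomial IsDedekindDomain

open scoped Classical

namespace Pool.Agent.Lib.MP_89bcae_ag.Superelliptic

universe u

variable {ℓ : ℕ} {k F L : Type u} [Field k] [Field F] [Algebra k F] [Field L] [Algebra F[X] L]
  {g D : k[X]}

/-- The point in the other form. -/
def Point.toSection (P : Point ℓ k F L g D) : Sup.Section ℓ k F L g D where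
  num := P.num
  den := P.den
  y := P.y
  coprime := P.coprime
  den_ne_zero := P.den_ne_zero
  y_ne_zero := P.y_ne_zero
  eqn := P.eqn

theorem isPointClass_iff_sup {A : Type u} [Field A] (f : A[X]) (a b : A) (Q : Jacobian ℓ f) :
    IsPointClass ℓ f a b Q ↔ Sup.IsPointClass ℓ f a b Q := by
  have h : (Ideal.span {AdjoinRoot.of (X ^ ℓ - C f : A[X][X]) (X - C a),
      AdjoinRoot.root (X ^ ℓ - C f : A[X][X]) - AdjoinRoot.of (X ^ ℓ - C f : A[X][X]) (C b)} :
      Ideal (Sup.Coord ℓ f)) = pointIdeal ℓ f a b := by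
    unfold pointIdeal
    rw [map_sub (AdjoinRoot.mk (X ^ ℓ - C f : A[X][X])) X (C (C b))]
    rfl
  unfold Sup.IsPointClass
  rw [h]
  change (∃ _ : Module.Invertible (Sup.Coord ℓ f) (pointIdeal ℓ f a b : Ideal (Sup.Coord ℓ f)),
    Q = Additive.ofMul (CommRing.Pic.mk (Sup.Coord ℓ f)
      (pointIdeal ℓ f a b : Ideal (Sup.Coord ℓ f)))) ↔
    Nonempty ((show CommRing.Pic (Sup.Coord ℓ f) from Additive.toMul Q).AsModule
      ≃ₗ[Sup.Coord ℓ f] (pointIdeal ℓ f a b : Ideal (Sup.Coord ℓ f)))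
  generalize (pointIdeal ℓ f a b : Ideal (Sup.Coord ℓ f)) = I
  constructor
  · rintro ⟨inst, rfl⟩
    exact ⟨CommRing.Pic.mk.linearEquiv (Sup.Coord ℓ f) I⟩
  · rintro ⟨e⟩
    have inst : Module.Invertible (Sup.Coord ℓ f) I := Module.Invertible.congr e
    refine ⟨inst, ?_⟩
    have h1 : CommRing.Pic.mk (Sup.Coord ℓ f) I =
        (show CommRing.Pic (Sup.Coord ℓ f) from Additive.toMul Q) :=
      CommRing.Pic.mk_eq_iff.mpr ⟨e.symm⟩
    exact congrArg Additive.ofMul h1.symm

theorem SolutionsGeneratedBy.toSup {ι : Type} [Fintype ι] {P : ι → Point ℓ k F L g D}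
    (h : SolutionsGeneratedBy P) : Sup.SolutionsGeneratedBy fun i => (P i).toSection :=
  fun e he => h e he

theorem TateClassesGeneratedBy.ofSup {Ω : Type u} [IsFractionRing F[X] L] [Field Ω] [Algebra L Ω]
    {ι : Type} {P : ι → Point ℓ k F L g D} {k' : IntermediateField k F}
    (h : Sup.IsGeneratedBy Ω (fun i => (P i).toSection) k') :
    TateClassesGeneratedBy Ω P k' := by
  intro c hc hloc hfix n
  obtain ⟨Q, hQ, hcQ⟩ := h c ⟨hc.zero, hc.smul, hc.cocycle, hc.locallyConstant⟩ hloc hfix n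
  refine ⟨Q, ?_, hcQ⟩
  have hG : pointGroup Ω P = Sup.sectionGroup Ω (fun i => (P i).toSection) := by
    unfold pointGroup Sup.sectionGroup
    congr 1
    ext Q
    constructor
    · rintro ⟨i, z, hz, h⟩
      exact ⟨i, z, hz, (isPointClass_iff_sup _ _ _ _).mp h⟩
    · rintro ⟨i, z, hz, h⟩
      exact ⟨i, z, hz, (isPointClass_iff_sup _ _ _ _).mpr h⟩
  rw [hG]
  exact hQ

end Pool.Agent.Lib.MP_89bcae_ag.Superelliptic

end
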