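import Mathlib
import Pool.Agent.Lib.MP_89bcae_ag.Q.K033
import Pool.Agent.Lib.MP_89bcae_ag.Q.K037

section

/-!
Row B13: an automorphism over `k(t)` has a positive power which fixes a given finite
set of elements of `L = F(t)`.
-/

open Polynomial IsDedekindDomain

open scoped Classical

namespace Pool.Agent.Lib.MP_89bcae_ag.Sup

universe u

lemma b13_exists_pow {k F : Type u} [Field k] [Field F] [Algebra k F] [IsAlgClosure k F]
    (k' : IntermediateField k F) [FiniteDimensional k k'] (U : F ≃ₐ[k] F) :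
    ∃ M : ℕ, 0 < M ∧ ∀ x : k', (U ^ M) (x : F) = x := by
  have : Finite (k' →ₐ[k] F) := inferInstance
  obtain ⟨a, b, hab, h⟩ := Finite.exists_ne_map_eq_of_infinite
    (fun n : ℕ => ((U ^ n : F ≃ₐ[k] F) : F →ₐ[k] F).comp k'.val)
  wlog hlt : a < b generalizing a b with H
  · exact H b a hab.symm h.symm (lt_of_le_of_ne (not_lt.mp hlt) hab.symm)
  refine ⟨b - a, Nat.sub_pos_of_lt hlt, fun x => ?_⟩
  have hx := DFunLike.congr_fun h x
  have hx' : (U ^ a) (x : F) = (U ^ b) (x : F) := hx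
  have e : U ^ b = U ^ a * U ^ (b - a) := by
    rw [← pow_add, Nat.add_sub_cancel' hlt.le]
  rw [e, AlgEquiv.mul_apply] at hx'
  exact ((U ^ a).injective hx').symm

variable {k F L Ω : Type u} [Field k] [Field F] [Algebra k F] [Field L] [Algebra F[X] L]
  [Field Ω] [Algebra L Ω] [IsAlgClosure k F] [IsFractionRing F[X] L] [IsAlgClosure L Ω]

lemma exists_pow_fix (γ : AutO k F L Ω) (s : Finset L) :
    ∃ N : ℕ, 0 < N ∧ ∀ x ∈ s, ((γ ^ N : AutO k F L Ω) : Ω ≃+* Ω) (algebraMap L Ω x) =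
      algebraMap L Ω x := by
  have hex : ∀ x : L, ∃ pq : F[X] × F[X], algebraMap F[X] L pq.1 / algebraMap F[X] L pq.2 = x := by
    intro x
    obtain ⟨p, q, _, h⟩ := IsFractionRing.div_surjective (A := F[X]) x
    exact ⟨(p, q), h⟩
  choose f hf using hex
  let S : Finset F := s.biUnion fun x =>
    (f x).1.support.image (fun i => (f x).1.coeff i) ∪ (f x).2.support.image (fun i => (f x).2.coeff i)
  let k' : IntermediateField k F := IntermediateField.adjoin k (S : Set F)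
  have : FiniteDimensional k k' := by
    have : Algebra.IsAlgebraic k F := IsAlgClosure.isAlgebraic
    have : Finite (S : Set F) := S.finite_toSet
    exact IntermediateField.finiteDimensional_adjoin
      fun x _ => (Algebra.IsAlgebraic.isAlgebraic x).isIntegral
  obtain ⟨M, hM, hMx⟩ := b13_exists_pow k' (resF γ)
  refine ⟨M, hM, fun x hx => ?_⟩
  have key : ∀ p : F[X], (∀ i, p.coeff i ∈ k') →
      ((γ ^ M : AutO k F L Ω) : Ω ≃+* Ω) (algebraMap L Ω (algebraMap F[X] L p)) =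
        algebraMap L Ω (algebraMap F[X] L p) := by
    intro p hp
    rw [resF_spec]
    congr 2
    ext i
    rw [coeff_map, map_pow]
    exact hMx ⟨p.coeff i, hp i⟩
  have hmem : ∀ y ∈ S, y ∈ k' := fun y hy => IntermediateField.subset_adjoin k (S : Set F) hy
  have h1 : ∀ i, (f x).1.coeff i ∈ k' := by
    intro i
    by_cases h0 : (f x).1.coeff i = 0
    · rw [h0]
      exact k'.zero_mem
    · refine hmem _ (Finset.mem_biUnion.2 ⟨x, hx, Finset.mem_union_left _ ?_⟩)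
      exact Finset.mem_image.2 ⟨i, Polynomial.mem_support_iff.2 h0, rfl⟩
  have h2 : ∀ i, (f x).2.coeff i ∈ k' := by
    intro i
    by_cases h0 : (f x).2.coeff i = 0
    · rw [h0]
      exact k'.zero_mem
    · refine hmem _ (Finset.mem_biUnion.2 ⟨x, hx, Finset.mem_union_right _ ?_⟩)
      exact Finset.mem_image.2 ⟨i, Polynomial.mem_support_iff.2 h0, rfl⟩
  rw [← hf x, map_div₀, map_div₀, key _ h1, key _ h2]

end Pool.Agent.Lib.MP_89bcae_ag.Sup

end

section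

/-!
The Tate cocycles which at every level `n` are the coboundary of a point `Q`
with `ℓ ^ n Q` in a given subgroup `M` of the Jacobian.
-/

open Polynomial IsDedekindDomain

open scoped Classical

namespace Pool.Agent.Lib.MP_89bcae_ag.Sup

universe u

variable {k F L Ω : Type u} [Field k] [Field F] [Algebra k F] [Field L] [Algebra F[X] L]
  [Field Ω] [Algebra L Ω] [IsAlgClosure k F] [IsFractionRing F[X] L] [IsAlgClosure L Ω]
  {ℓ : ℕ} {g D : k[X]} [hG : IsGood ℓ (cOver k F L Ω g D)] {ζ : k}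
  {M : AddSubgroup (JacOver ℓ (curvePoly k F L g D) Ω)}

/-- The Tate cocycles which are Kummer classes of elements of `M` at all levels. -/
def KMc (M : AddSubgroup (JacOver ℓ (curvePoly k F L g D) Ω)) (c : Coch ℓ k F L Ω g D) : Prop :=
  IsTateCocycle ℓ (curvePoly k F L g D) c ∧
    ∀ n, ∃ Q : JacOver ℓ (curvePoly k F L g D) Ω, ℓ ^ n • Q ∈ M ∧
      ∀ σ : Ω ≃ₐ[L] Ω, c n σ = push ℓ (curvePoly k F L g D) (σ : Ω →ₐ[L] Ω) Q - Q

lemma TTc.km {c : Coch ℓ k F L Ω g D} (hc : TTc c) : KMc M c := by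
  refine ⟨hc.1, fun n => ?_⟩
  obtain ⟨A, hA, hcA⟩ := hc.2 n
  exact ⟨A, by rw [hA]; exact M.zero_mem, hcA⟩

lemma KMc.add {c c' : Coch ℓ k F L Ω g D} (hc : KMc M c) (hc' : KMc M c') : KMc M (c + c') := by
  refine ⟨hc.1.add hc'.1, fun n => ?_⟩
  obtain ⟨A, hA, hcA⟩ := hc.2 n
  obtain ⟨B, hB, hcB⟩ := hc'.2 n
  refine ⟨A + B, by rw [smul_add]; exact M.add_mem hA hB, fun σ => ?_⟩
  change c n σ + c' n σ = _
  rw [hcA σ, hcB σ, map_add]
  abel

lemma KMc.neg {c : Coch ℓ k F L Ω g D} (hc : KMc M c) : KMc M (-c) := by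
  refine ⟨hc.1.neg, fun n => ?_⟩
  obtain ⟨A, hA, hcA⟩ := hc.2 n
  refine ⟨-A, by rw [smul_neg]; exact M.neg_mem hA, fun σ => ?_⟩
  change -(c n σ) = _
  rw [hcA σ, map_neg]
  abel

lemma KMc.zC (ζ : k) (hζ : (zA F L Ω ζ) ^ ℓ = 1) (hM : ∀ Q ∈ M, zJ (zA F L Ω ζ) hζ Q ∈ M)
    {c : Coch ℓ k F L Ω g D} (hc : KMc M c) : KMc M (Sup.zC ζ hζ c) := by
  refine ⟨hc.1.zC ζ hζ, fun n => ?_⟩
  obtain ⟨A, hA, hcA⟩ := hc.2 n
  refine ⟨zJ (zA F L Ω ζ) hζ A, by rw [← map_nsmul]; exact hM _ hA, fun σ => ?_⟩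
  change zJ (zA F L Ω ζ) hζ (c n σ) = _
  rw [hcA σ, map_sub, push_eq, push_eq, zJ_symJ]
  exact zA_fixed ζ (galA k F σ)

omit [IsAlgClosure k F] [IsFractionRing F[X] L] [IsAlgClosure L Ω] in
private lemma b05_iterate (ζ : k) (hζ : (zA F L Ω ζ) ^ ℓ = 1) (y : Coch ℓ k F L Ω g D) (N : ℕ)
    (σ : Ω ≃ₐ[L] Ω) (m : ℕ) :
    ((fun x : Coch ℓ k F L Ω g D => x - Sup.zC ζ hζ x)^[m] y) N σ =
      (fun x => x - zJ (zA F L Ω ζ) hζ x)^[m] (y N σ) := by
  induction m with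
  | zero => rfl
  | succ m ih =>
    rw [Function.iterate_succ_apply', Function.iterate_succ_apply', ← ih]
    rfl

theorem KMc.of_separated (H : GlobHyp ℓ g D ζ) (hζ : (zA F L Ω ζ) ^ ℓ = 1)
    {c : Coch ℓ k F L Ω g D} (hc : IsTateCocycle ℓ (curvePoly k F L g D) c)
    (h : ∀ n : ℕ, ∃ y : Coch ℓ k F L Ω g D, IsTateCocycle ℓ (curvePoly k F L g D) y ∧
      KMc M (c - (fun x => x - Sup.zC ζ hζ x)^[n] y)) : KMc M c := by
  refine ⟨hc, fun N => ?_⟩
  obtain ⟨y, hy, h1⟩ := h ((ℓ - 1) * N)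
  obtain ⟨A, hA, hA2⟩ := h1.2 N
  have hz : IsPrimitiveRoot (zA F L Ω ζ) ℓ := zA_primitive H
  refine ⟨A, hA, fun σ => ?_⟩
  rw [← hA2 σ]
  have h2 : ((fun x : Coch ℓ k F L Ω g D => x - Sup.zC ζ hζ x)^[(ℓ - 1) * N] y) N σ = 0 := by
    rw [b05_iterate]
    exact iterate_eq_zero_of_smul _ hz N _ (hy.pow_smul N σ)
  change c N σ = c N σ - ((fun x : Coch ℓ k F L Ω g D => x - Sup.zC ζ hζ x)^[(ℓ - 1) * N] y) N σ
  rw [h2, sub_zero]

end Pool.Agent.Lib.MP_89bcae_ag.Sup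

end

section

/-!
The Kummer cocycle of a rational point `Q₀` of the Jacobian.
-/

open Polynomial IsDedekindDomain

open scoped Classical

namespace Pool.Agent.Lib.MP_89bcae_ag.Sup

universe u

variable {k F L Ω : Type u} [Field k] [Field F] [Algebra k F] [Field L] [Algebra F[X] L]
  [Field Ω] [Algebra L Ω] [IsAlgClosure k F] [IsFractionRing F[X] L] [IsAlgClosure L Ω]
  {ℓ : ℕ} {g D : k[X]} [hG : IsGood ℓ (cOver k F L Ω g D)] {ζ : k}
  {M : AddSubgroup (JacOver ℓ (curvePoly k F L g D) Ω)}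

theorem exists_kummer_cocycle (H : GlobHyp ℓ g D ζ)
    (Q₀ Q₁ : JacOver ℓ (curvePoly k F L g D) Ω) (h₁ : ℓ • Q₁ = Q₀) (hM : Q₀ ∈ M)
    (hfix : ∀ σ : Ω ≃ₐ[L] Ω, symJ (toSym g D (galA k F σ)) Q₀ = Q₀)
    (hfin : ∀ γ : AutO k F L Ω, ∃ N : ℕ, 0 < N ∧ symJ (toSym g D (γ ^ N)) Q₀ = Q₀) :
    ∃ c : Coch ℓ k F L Ω g D, WWc c ∧ KMc M c ∧
      ∀ σ : Ω ≃ₐ[L] Ω, c 1 σ = symJ (toSym g D (galA k F σ)) Q₁ - Q₁ := by
  have Hζ : IsPrimitiveRoot (zA F L Ω ζ) ℓ := zA_primitive H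
  choose dv hdv using fun Q : JacOver ℓ (curvePoly k F L g D) Ω =>
    exists_smul_eq (zA F L Ω ζ) Hζ Q
  set Q : ℕ → JacOver ℓ (curvePoly k F L g D) Ω := fun n =>
    Nat.casesOn n Q₀ (fun m => dv^[m] Q₁) with hQ
  have hQ0 : Q 0 = Q₀ := rfl
  have hQ1 : Q 1 = Q₁ := rfl
  have hQs : ∀ n, ℓ • Q (n + 1) = Q n := by
    intro n
    cases n with
    | zero => exact h₁
    | succ m =>
      have h2 : Q (m + 1 + 1) = dv (Q (m + 1)) := by
        change dv^[m + 1] Q₁ = dv (dv^[m] Q₁)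
        rw [Function.iterate_succ_apply']
      rw [h2]
      exact hdv _
  have hQn : ∀ n, ℓ ^ n • Q n = Q₀ := by
    intro n
    induction n with
    | zero => rw [pow_zero, one_smul, hQ0]
    | succ n ih => rw [pow_succ, mul_smul, hQs, ih]
  set c : Coch ℓ k F L Ω g D := fun n σ =>
    symJ (toSym g D (galA k F σ)) (Q n) - Q n with hc
  have hcT : IsTateCocycle ℓ (curvePoly k F L g D) c := by
    refine ⟨?_, ?_, ?_, ?_⟩
    · intro σ
      simp only [hc]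
      rw [hQ0, hfix σ, sub_self]
    · intro n σ
      simp only [hc]
      rw [smul_sub, ← map_nsmul, hQs]
    · intro n σ τ
      simp only [hc]
      rw [push_eq, map_mul, map_mul, symJ_mul, map_sub]
      abel
    · intro n
      have h2 := isLocallyConstant_symJ (g := g) (D := D) (k := k) (F := F) (L := L) (Ω := Ω) (Q n)
      exact h2.sub (IsLocallyConstant.const (Q n))
  have hcL : LTc c := LTc.of_coboundary fun n => ⟨Q n, fun σ => rfl⟩
  refine ⟨c, ⟨hcT, hcL, ?_⟩, ⟨hcT, ?_⟩, ?_⟩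
  · intro γ
    obtain ⟨N, hN, hNQ⟩ := hfin γ
    refine ⟨N, hN, ?_, ?_⟩
    · rw [sub_eq_add_neg]
      exact (hcT.act _).add hcT.neg
    · intro n
      refine ⟨symJ (toSym g D (γ ^ N)) (Q n) - Q n, ?_, ?_⟩
      · rw [smul_sub, ← map_nsmul, hQn, hNQ, sub_self]
      · intro σ
        change symJ (toSym g D (γ ^ N)) (c n (conjG (γ ^ N)⁻¹ σ)) - c n σ = _
        have h1 : (γ ^ N) * (((γ ^ N)⁻¹ : AutO k F L Ω) * galA k F σ * ((γ ^ N)⁻¹)⁻¹) =
            galA k F σ * (γ ^ N) := by group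
        simp only [hc]
        rw [map_sub, ← symJ_mul, ← map_mul, galA_conjG, h1, push_eq, map_sub, map_mul, symJ_mul]
        abel
  · intro n
    refine ⟨Q n, ?_, fun σ => ?_⟩
    · rw [hQn]
      exact hM
    · rw [push_eq]
  · intro σ
    simp only [hc]
    rw [hQ1]

end Pool.Agent.Lib.MP_89bcae_ag.Sup

end
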