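import Mathlib
import Pool.Agent.Lib.MP_89bcae_ag.Q.K026

section

/-!
Row B01. Commuting endomorphisms `n` of a finite vector space over `ZMod ℓ` with
`n ^ ℓ = n` have a common eigenvector outside of any given proper subspace `A`.
-/

namespace Pool.Agent.Lib.MP_89bcae_ag.Sup

open Polynomial in
lemma b01_poly (ℓ : ℕ) [Fact ℓ.Prime] :
    (∑ c : ZMod ℓ, (1 - (X - C c) ^ (ℓ - 1)) : (ZMod ℓ)[X]) = 1 := by
  classical
  have hℓ : 1 < ℓ := (Fact.out : ℓ.Prime).one_lt
  rw [← sub_eq_zero]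
  refine Polynomial.eq_zero_of_natDegree_lt_card_of_eval_eq_zero' _ (Finset.univ : Finset (ZMod ℓ))
    ?_ ?_
  · intro d _
    rw [eval_sub, eval_finsetSum, eval_one, sub_eq_zero]
    rw [Finset.sum_eq_single d]
    · rw [eval_sub, eval_one, eval_pow, eval_sub, eval_X, eval_C, sub_self,
        zero_pow (by omega), sub_zero]
    · intro c _ hcd
      rw [eval_sub, eval_one, eval_pow, eval_sub, eval_X, eval_C,
        ZMod.pow_card_sub_one_eq_one (sub_ne_zero.2 (Ne.symm hcd)), sub_self]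
    · intro h
      exact absurd (Finset.mem_univ d) h
  · rw [Finset.card_univ, ZMod.card]
    have h1 : ∀ c : ZMod ℓ, (1 - (X - C c) ^ (ℓ - 1) : (ZMod ℓ)[X]).natDegree ≤ ℓ - 1 := by
      intro c
      refine (natDegree_sub_le _ _).trans ?_
      rw [natDegree_one, natDegree_pow, natDegree_X_sub_C, mul_one]
      simp
    refine lt_of_le_of_lt (natDegree_sub_le _ _) ?_
    rw [natDegree_one]
    refine lt_of_le_of_lt (max_le (natDegree_sum_le_of_forall_le _ _ (fun c _ => h1 c))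
      (Nat.zero_le _)) (by omega)

open Polynomial in
lemma b01_poly2 (ℓ : ℕ) [Fact ℓ.Prime] (c : ZMod ℓ) :
    ((X - C c) * (1 - (X - C c) ^ (ℓ - 1)) : (ZMod ℓ)[X]) = X - X ^ ℓ := by
  have hℓ : 0 < ℓ := (Fact.out : ℓ.Prime).pos
  rw [mul_sub, mul_one, ← pow_succ', Nat.sub_add_cancel hℓ, sub_pow_char, ← C_pow,
    ZMod.pow_card]
  ring

open Polynomial in
lemma b01_mem {R V : Type*} [CommRing R] [AddCommGroup V] [Module R V]
    (f : V →ₗ[R] V) (W : Submodule R V) (hW : ∀ x ∈ W, f x ∈ W) (P : R[X]) :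
    ∀ y ∈ W, (aeval f P) y ∈ W := by
  induction P using Polynomial.induction_on' with
  | add p q hp hq =>
    intro y hy
    rw [map_add]
    exact W.add_mem (hp y hy) (hq y hy)
  | monomial k a =>
    intro y hy
    rw [aeval_monomial]
    have h1 : ∀ k : ℕ, (f ^ k) y ∈ W := by
      intro k
      induction k with
      | zero => exact hy
      | succ k ih =>
        rw [pow_succ']
        exact hW _ ih
    exact W.smul_mem a (h1 k)

open Polynomial in
lemma exists_common_eigenvector_not_mem {ℓ : ℕ} [Fact ℓ.Prime] {V I : Type*} [AddCommGroup V]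
    [Module (ZMod ℓ) V] [Finite V] (n : I → V →ₗ[ZMod ℓ] V) (hcomm : ∀ i j, n i * n j = n j * n i)
    (hpow : ∀ i, n i ^ ℓ = n i) (A : Submodule (ZMod ℓ) V) (hA : ∃ x : V, x ∉ A) :
    ∃ x : V, x ∉ A ∧ ∃ a : I → ZMod ℓ, ∀ i, n i x = a i • x := by
  classical
  have : Finite (Submodule (ZMod ℓ) V) :=
    Finite.of_injective (fun W : Submodule (ZMod ℓ) V => (W : Set V)) SetLike.coe_injective
  set E : Submodule (ZMod ℓ) V :=
    Submodule.span (ZMod ℓ) {x | ∃ a : I → ZMod ℓ, ∀ i, n i x = a i • x} with hE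
  have key : ∀ W : Submodule (ZMod ℓ) V, (∀ i, ∀ x ∈ W, n i x ∈ W) → W ≤ E := by
    intro W
    induction W using WellFoundedLT.induction with
    | ind W ih =>
      intro hW
      by_cases hsc : ∀ i, ∃ c : ZMod ℓ, ∀ y ∈ W, n i y = c • y
      · choose a ha using hsc
        intro y hy
        exact Submodule.subset_span ⟨a, fun i => ha i y hy⟩
      · push Not at hsc
        obtain ⟨i, hi⟩ := hsc
        have hmem : ∀ (c : ZMod ℓ) (y : V), y ∈ W ⊓ LinearMap.ker (n i - c • LinearMap.id) ↔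
            y ∈ W ∧ n i y = c • y := by
          intro c y
          rw [Submodule.mem_inf, LinearMap.mem_ker, LinearMap.sub_apply, LinearMap.smul_apply,
            LinearMap.id_apply, sub_eq_zero]
        have hle : ∀ c : ZMod ℓ, W ⊓ LinearMap.ker (n i - c • LinearMap.id) ≤ E := by
          intro c
          apply ih
          · refine lt_of_le_of_ne inf_le_left ?_
            intro h
            obtain ⟨y, hy, hne⟩ := hi c
            rw [← h, hmem] at hy
            exact hne hy.2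
          · intro j x hx
            rw [hmem] at hx ⊢
            refine ⟨hW j x hx.1, ?_⟩
            have h3 : (n i * n j) x = (n j * n i) x := by rw [hcomm]
            change n i (n j x) = n j (n i x) at h3
            rw [h3, hx.2, map_smul]
        intro y hy
        have hsum : y = ∑ c : ZMod ℓ, (aeval (n i) (1 - (X - C c) ^ (ℓ - 1) : (ZMod ℓ)[X])) y := by
          have h1 : (aeval (n i) (∑ c : ZMod ℓ, (1 - (X - C c) ^ (ℓ - 1)) : (ZMod ℓ)[X])) y = y := by
            rw [b01_poly, map_one]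
            rfl
          rw [map_sum, LinearMap.sum_apply] at h1
          exact h1.symm
        rw [hsum]
        apply Submodule.sum_mem
        intro c _
        apply hle c
        rw [hmem]
        refine ⟨b01_mem (n i) W (hW i) _ y hy, ?_⟩
        have h4 : (aeval (n i) ((X - C c) * (1 - (X - C c) ^ (ℓ - 1)) : (ZMod ℓ)[X])) y = 0 := by
          rw [b01_poly2, map_sub, map_pow, aeval_X, hpow i, sub_self]
          rfl
        rw [map_mul, map_sub, aeval_X, aeval_C] at h4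
        exact sub_eq_zero.1 h4
  by_contra hcon
  push Not at hcon
  obtain ⟨x, hx⟩ := hA
  apply hx
  have h1 : E ≤ A := by
    rw [hE, Submodule.span_le]
    rintro z ⟨a, ha⟩
    by_contra hz
    obtain ⟨i, hi⟩ := hcon z hz a
    exact hi (ha i)
  exact h1 (key ⊤ (fun i x _ => Submodule.mem_top) Submodule.mem_top)

end Pool.Agent.Lib.MP_89bcae_ag.Sup

end

section

/-!
Row B02. The abstract eigenvector theorem, outside of a subgroup.
-/

open Polynomial

namespace Pool.Agent.Lib.MP_89bcae_ag.Sup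

section B02

variable {ℓ : ℕ} {H : Type*} [AddCommGroup H]

private lemma B02_comm {z Y : Module.End ℤ H} (hc : z * Y = Y * z) :
    ∀ a ∈ ({z, Y} : Set (Module.End ℤ H)), ∀ b ∈ ({z, Y} : Set (Module.End ℤ H)),
      a * b = b * a := by
  rintro a (rfl | rfl) b (rfl | rfl)
  · rfl
  · exact hc
  · exact hc.symm
  · rfl

private lemma B02_sq (hℓ : ℓ.Prime) (z Y : Module.End ℤ H) (hc : z * Y = Y * z)
    (hz : ∑ i ∈ Finset.range ℓ, z ^ i = 0) (hinj : ∀ x : H, (1 - z) x = 0 → x = 0)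
    (hsep : ∀ x : H, (∀ n : ℕ, ∃ y : H, x = ((1 - z) ^ n) y) → x = 0)
    (x : H) (M : ℕ) (hM : 0 < M)
    (hx : ((1 + (1 - z) ^ 2 * Y) ^ M : Module.End ℤ H) x = x) : Y x = 0 := by
  letI instB : CommRing (Algebra.adjoin ℤ ({z, Y} : Set (Module.End ℤ H))) :=
    { (inferInstance : Ring (Algebra.adjoin ℤ ({z, Y} : Set (Module.End ℤ H)))) with
      mul_comm := (Algebra.isMulCommutative_adjoin ℤ (B02_comm hc)).is_comm.comm }
  let zB : Algebra.adjoin ℤ ({z, Y} : Set (Module.End ℤ H)) :=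
    ⟨z, Algebra.subset_adjoin (Or.inl rfl)⟩
  let YB : Algebra.adjoin ℤ ({z, Y} : Set (Module.End ℤ H)) :=
    ⟨Y, Algebra.subset_adjoin (Or.inr rfl)⟩
  have hzB : ∑ i ∈ Finset.range ℓ, zB ^ i = 0 := by
    apply Subtype.ext
    push_cast
    exact hz
  exact sq_case (B := Algebra.adjoin ℤ ({z, Y} : Set (Module.End ℤ H))) (H := H) hℓ zB hzB
    (fun x hx => hinj x hx) (fun x hx => hsep x hx) YB x M hM hx

private lemma B02_fst (hℓ : ℓ.Prime) (z N : Module.End ℤ H) (hc : z * N = N * z)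
    (hz : ∑ i ∈ Finset.range ℓ, z ^ i = 0) (hinj : ∀ x : H, (1 - z) x = 0 → x = 0)
    (hsep : ∀ x : H, (∀ n : ℕ, ∃ y : H, x = ((1 - z) ^ n) y) → x = 0)
    (x : H) (M : ℕ) (hM : 0 < M)
    (hx : ((1 + (1 - z) * N) ^ M : Module.End ℤ H) x = x) :
    ∃ y : H, (N ^ ℓ - N) x = (1 - z) y := by
  letI instB : CommRing (Algebra.adjoin ℤ ({z, N} : Set (Module.End ℤ H))) :=
    { (inferInstance : Ring (Algebra.adjoin ℤ ({z, N} : Set (Module.End ℤ H)))) with
      mul_comm := (Algebra.isMulCommutative_adjoin ℤ (B02_comm hc)).is_comm.comm }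
  let zB : Algebra.adjoin ℤ ({z, N} : Set (Module.End ℤ H)) :=
    ⟨z, Algebra.subset_adjoin (Or.inl rfl)⟩
  let NB : Algebra.adjoin ℤ ({z, N} : Set (Module.End ℤ H)) :=
    ⟨N, Algebra.subset_adjoin (Or.inr rfl)⟩
  have hzB : ∑ i ∈ Finset.range ℓ, zB ^ i = 0 := by
    apply Subtype.ext
    push_cast
    exact hz
  exact fst_case (B := Algebra.adjoin ℤ ({z, N} : Set (Module.End ℤ H))) (H := H) hℓ zB hzB
    (fun x hx => hinj x hx) (fun x hx => hsep x hx) NB x M hM hx

end B02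

theorem exists_eigen_not_mem {ℓ : ℕ} [Fact ℓ.Prime] {H G ι : Type*} [AddCommGroup H] [Group G]
    [DistribMulAction G H] [Finite ι] (Z : H →+ H)
    (hZ : ∀ x, ∑ i ∈ Finset.range ℓ, Z^[i] x = 0) (hZG : ∀ (u : G) x, Z (u • x) = u • Z x)
    (hinj : ∀ x, Z x = x → x = 0)
    (hsep : ∀ x : H, (∀ n : ℕ, ∃ y : H, x = (fun h => h - Z h)^[n] y) → x = 0)
    (e : H →+ (ι → ZMod ℓ)) (he : ∀ x, e x = 0 ↔ ∃ y, x = y - Z y)
    (hGe : ∀ (u : G) x, e (u • x) = e x)
    (hfin : ∀ (u : G) (x : H), ∃ M : ℕ, 0 < M ∧ u ^ M • x = x)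
    (A : AddSubgroup (ι → ZMod ℓ)) (hne : ∃ x : H, e x ∉ A) :
    ∃ x : H, e x ∉ A ∧ ∃ a : G → ZMod ℓ, ∀ u y, u • x - x = y - Z y → e y = a u • e x := by
  classical
  have hℓ : ℓ.Prime := Fact.out
  set z : Module.End ℤ H := Z.toIntLinearMap with hz_def
  have z_apply : ∀ x, z x = Z x := fun x => rfl
  have hz : ∑ i ∈ Finset.range ℓ, z ^ i = 0 := by
    ext x
    rw [LinearMap.sum_apply, LinearMap.zero_apply, ← hZ x]
    refine Finset.sum_congr rfl fun i _ => ?_
    rw [Module.End.pow_apply]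
    rfl
  have p_apply : ∀ x, (1 - z) x = x - Z x := fun x => rfl
  have hinj' : ∀ x : H, (1 - z) x = 0 → x = 0 := fun x hx => by
    rw [p_apply, sub_eq_zero] at hx
    exact hinj x hx.symm
  have hsep' : ∀ x : H, (∀ n : ℕ, ∃ y : H, x = ((1 - z) ^ n) y) → x = 0 := fun x hx => by
    refine hsep x fun n => ?_
    obtain ⟨y, hy⟩ := hx n
    refine ⟨y, ?_⟩
    rw [hy, Module.End.pow_apply]
    rfl
  -- injectivity of p in the form of cancellation
  have pcancel : ∀ x y : H, x - Z x = y - Z y → x = y := fun x y h => by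
    have : (1 - z) (x - y) = 0 := by
      rw [p_apply, map_sub]
      have : x - y - (Z x - Z y) = (x - Z x) - (y - Z y) := by abel
      rw [this, h, sub_self]
    exact sub_eq_zero.1 (hinj' _ this)
  have hex : ∀ (u : G) (x : H), ∃ y, u • x - x = y - Z y := fun u x => by
    rw [← he, map_sub, hGe, sub_self]
  choose N0 hN0 using hex
  have hN0u : ∀ (u : G) (x y : H), u • x - x = y - Z y → y = N0 u x := fun u x y h =>
    pcancel _ _ (by rw [← h, hN0])
  let N : G → Module.End ℤ H := fun u => AddMonoidHom.toIntLinearMap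
    { toFun := N0 u
      map_zero' := ((hN0u u 0 0 (by simp)).symm)
      map_add' := fun x y => (hN0u u (x + y) (N0 u x + N0 u y) (by
        rw [smul_add, map_add]
        have h1 := hN0 u x
        have h2 := hN0 u y
        have : u • x + u • y - (x + y) = (u • x - x) + (u • y - y) := by abel
        rw [this, h1, h2]
        abel)).symm }
  have N_apply : ∀ u x, u • x - x = N u x - Z (N u x) := fun u x => hN0 u x
  have N_uniq : ∀ u x y, u • x - x = y - Z y → y = N u x := fun u x y h => hN0u u x y h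
  let U : G → Module.End ℤ H := fun u => (DistribSMul.toAddMonoidHom H u).toIntLinearMap
  have U_apply : ∀ u x, U u x = u • x := fun u x => rfl
  have U_mul : ∀ u v, U (u * v) = U u * U v := fun u v => by
    ext x
    change (u * v) • x = u • (v • x)
    rw [mul_smul]
  have U_one : U 1 = 1 := by
    ext x
    change (1 : G) • x = x
    rw [one_smul]
  have U_pow : ∀ u (M : ℕ), U u ^ M = U (u ^ M) := fun u M => by
    induction M with
    | zero => rw [pow_zero, pow_zero, U_one]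
    | succ M ih => rw [pow_succ, pow_succ, U_mul, ih]
  have U_eq : ∀ u, U u = 1 + (1 - z) * N u := fun u => by
    ext x
    change u • x = x + (N u x - Z (N u x))
    rw [← N_apply]
    abel
  have zU : ∀ u, z * U u = U u * z := fun u => by
    ext x
    exact hZG u x
  have zN : ∀ u, z * N u = N u * z := fun u => by
    ext x
    change Z (N u x) = N u (Z x)
    apply N_uniq
    rw [← hZG, ← map_sub, N_apply, map_sub]
  have hp_N : ∀ u, (1 - z) * N u = N u * (1 - z) := fun u => by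
    rw [sub_mul, mul_sub, one_mul, mul_one, zN]
  have hpe : ∀ y, e ((1 - z) y) = 0 := fun y => (he _).2 ⟨y, rfl⟩
  -- (a)
  have hA : ∀ u x, e ((N u ^ ℓ) x) = e (N u x) := by
    intro u x
    obtain ⟨M, hM, hMx⟩ := hfin u x
    obtain ⟨y, hy⟩ := B02_fst hℓ z (N u) (zN u) hz hinj' hsep' x M hM (by
      rw [← U_eq, U_pow, U_apply, hMx])
    have h1 := hpe y
    rw [← hy, LinearMap.sub_apply, map_sub, sub_eq_zero] at h1
    exact h1
  -- (b)
  have hB : ∀ u v, N u * N v = N v * N u := by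
    intro u v
    set D : Module.End ℤ H := N u * N v - N v * N u with hD
    set Y : Module.End ℤ H := D * U (v * u)⁻¹ with hY
    have zD : z * D = D * z := by
      rw [hD, mul_sub, sub_mul, ← mul_assoc, ← mul_assoc, zN, zN, mul_assoc, mul_assoc, mul_assoc,
        mul_assoc, zN, zN]
    have zY : z * Y = Y * z := by
      rw [hY, ← mul_assoc, zD, mul_assoc, mul_assoc, zU]
    have hUv : U (v * u)⁻¹ * U (v * u) = 1 := by rw [← U_mul, inv_mul_cancel, U_one]
    have hUv' : U (v * u) * U (v * u)⁻¹ = 1 := by rw [← U_mul, mul_inv_cancel, U_one]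
    have h1 : (1 - z) ^ 2 * D = U (u * v) - U (v * u) := by
      have e1 : U (u * v) = (1 + (1 - z) * N u) * (1 + (1 - z) * N v) := by
        rw [U_mul, U_eq u, U_eq v]
      have e2 : U (v * u) = (1 + (1 - z) * N v) * (1 + (1 - z) * N u) := by
        rw [U_mul, U_eq u, U_eq v]
      have e3 : (1 - z) * N u * ((1 - z) * N v) = (1 - z) ^ 2 * (N u * N v) := by
        rw [mul_assoc, ← mul_assoc (N u), ← hp_N, pow_two, mul_assoc, mul_assoc]
      have e4 : (1 - z) * N v * ((1 - z) * N u) = (1 - z) ^ 2 * (N v * N u) := by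
        rw [mul_assoc, ← mul_assoc (N v), ← hp_N, pow_two, mul_assoc, mul_assoc]
      rw [e1, e2, hD, mul_sub, add_mul, add_mul, mul_add, mul_add, mul_add, mul_add, e3, e4]
      simp only [one_mul, mul_one]
      abel
    set c : G := (u * v) * (v * u)⁻¹ with hc
    have h2 : 1 + (1 - z) ^ 2 * Y = U c := by
      rw [hY, ← mul_assoc, h1, sub_mul, hUv', ← U_mul]
      abel
    have h3 : ∀ x, Y x = 0 := by
      intro x
      obtain ⟨M, hM, hMx⟩ := hfin c x
      exact B02_sq hℓ z Y zY hz hinj' hsep' x M hM (by rw [h2, U_pow, U_apply, hMx])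
    have h4 : Y = 0 := LinearMap.ext h3
    have h5 : D = 0 := by
      calc D = D * (U (v * u)⁻¹ * U (v * u)) := by rw [hUv, mul_one]
        _ = Y * U (v * u) := by rw [hY, mul_assoc]
        _ = 0 := by rw [h4, zero_mul]
    exact sub_eq_zero.1 h5
  -- (c)
  let V : Submodule (ZMod ℓ) (ι → ZMod ℓ) := AddSubgroup.toZModSubmodule ℓ e.range
  let e' : H →+ V := e.rangeRestrict
  have he'v : ∀ x, ((e' x : V) : ι → ZMod ℓ) = e x := fun x => rfl
  have hsurj : Function.Surjective e' := e.rangeRestrict_surjective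
  have hker : ∀ x, e' x = 0 ↔ e x = 0 := fun x => by
    rw [← he'v]
    exact ⟨fun h => by rw [h]; rfl, fun h => Subtype.ext h⟩
  have hwd : ∀ u, e'.ker ≤ (e'.comp (N u).toAddMonoidHom).ker := by
    intro u x hx
    rw [AddMonoidHom.mem_ker, hker, he] at hx
    obtain ⟨y, rfl⟩ := hx
    rw [AddMonoidHom.mem_ker, AddMonoidHom.comp_apply, hker]
    have : (N u).toAddMonoidHom (y - Z y) = (1 - z) (N u y) := by
      change (N u * (1 - z)) y = ((1 - z) * N u) y
      rw [hp_N]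
    rw [this]
    exact hpe _
  let n0 : G → V →+ V := fun u => (AddMonoidHom.liftOfSurjective e' hsurj) ⟨_, hwd u⟩
  have hn0 : ∀ u x, n0 u (e' x) = e' (N u x) := fun u x =>
    AddMonoidHom.liftOfRightInverse_comp_apply e' _ _ ⟨_, hwd u⟩ x
  let n : G → V →ₗ[ZMod ℓ] V := fun u => (n0 u).toZModLinearMap ℓ
  have hn : ∀ u x, n u (e' x) = e' (N u x) := fun u x => hn0 u x
  have hncomm : ∀ u v, n u * n v = n v * n u := by
    intro u v
    ext1 w
    obtain ⟨x, rfl⟩ := hsurj w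
    change n u (n v (e' x)) = n v (n u (e' x))
    rw [hn, hn, hn, hn]
    have := LinearMap.congr_fun (hB u v) x
    exact congrArg e' this
  have hnpow_apply : ∀ u (k : ℕ) x, (n u ^ k) (e' x) = e' ((N u ^ k) x) := by
    intro u k
    induction k with
    | zero => intro x; rw [pow_zero, pow_zero]; rfl
    | succ k ih =>
      intro x
      rw [pow_succ, pow_succ]
      change (n u ^ k) (n u (e' x)) = e' ((N u ^ k) (N u x))
      rw [hn, ih]
  have hnpow : ∀ u, n u ^ ℓ = n u := by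
    intro u
    ext1 w
    obtain ⟨x, rfl⟩ := hsurj w
    rw [hnpow_apply, hn]
    apply Subtype.ext
    exact hA u x
  let A' : Submodule (ZMod ℓ) V := (AddSubgroup.toZModSubmodule ℓ A).comap V.subtype
  have hA' : ∀ w : V, w ∈ A' ↔ ((w : V) : ι → ZMod ℓ) ∈ A := fun w => Iff.rfl
  have hVne : ∃ w : V, w ∉ A' := by
    obtain ⟨x, hx⟩ := hne
    exact ⟨e' x, fun h => hx ((hA' _).1 h)⟩
  obtain ⟨w, hw0, a, ha⟩ := exists_common_eigenvector_not_mem n hncomm hnpow A' hVne
  obtain ⟨x, rfl⟩ := hsurj w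
  refine ⟨x, fun h => hw0 ((hA' _).2 h), a, fun u y hy => ?_⟩
  have h1 := N_uniq u x y hy
  have h2 := ha u
  rw [hn] at h2
  have h3 := congrArg (Subtype.val) h2
  rw [h1]
  exact h3

end Pool.Agent.Lib.MP_89bcae_ag.Sup

end

section

/-!
Row B03: the eigenvector theorem for a subquotient, outside of a subgroup `A`.
-/

namespace Pool.Agent.Lib.MP_89bcae_ag.Sup

theorem exists_eigen_sub_not_mem {ℓ : ℕ} [Fact ℓ.Prime] {C G ι : Type*} [AddCommGroup C] [Group G]
    [DistribMulAction G C] [Finite ι] (W T : AddSubgroup C) (Z : C →+ C) (hTW : T ≤ W)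
    (hZW : ∀ c ∈ W, Z c ∈ W) (hZT : ∀ c ∈ T, Z c ∈ T) (hGW : ∀ (u : G), ∀ c ∈ W, u • c ∈ W)
    (hGT : ∀ (u : G), ∀ c ∈ T, u • c ∈ T)
    (hZ : ∀ c ∈ W, ∑ i ∈ Finset.range ℓ, Z^[i] c ∈ T)
    (hZG : ∀ (u : G), ∀ c ∈ W, Z (u • c) - u • Z c ∈ T)
    (hinj : ∀ c ∈ W, c - Z c ∈ T → c ∈ T)
    (hsep : ∀ c ∈ W, (∀ n : ℕ, ∃ y ∈ W, c - (fun h => h - Z h)^[n] y ∈ T) → c ∈ T)
    (E : C → (ι → ZMod ℓ) → Prop) (hE : ∀ c ∈ W, ∃ ε, E c ε)
    (hadd : ∀ c ∈ W, ∀ c' ∈ W, ∀ ε ε', E c ε → E c' ε' → E (c + c') (ε + ε'))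
    (hneg : ∀ c ∈ W, ∀ ε, E c ε → E (-c) (-ε))
    (hET : ∀ c ∈ T, ∀ ε, E c ε → ε = 0)
    (hZE : ∀ c ∈ W, ∀ ε, E c ε → E (Z c) ε)
    (hker : ∀ c ∈ W, E c 0 → ∃ y ∈ W, c - (y - Z y) ∈ T)
    (hGE : ∀ (u : G), ∀ c ∈ W, ∀ ε, E c ε → E (u • c) ε)
    (hfin : ∀ (u : G), ∀ c ∈ W, ∃ M : ℕ, 0 < M ∧ u ^ M • c - c ∈ T)
    (A : AddSubgroup (ι → ZMod ℓ)) (hne : ∃ c ∈ W, ∃ ε, E c ε ∧ ε ∉ A) :
    ∃ c ∈ W, ∃ ε, E c ε ∧ ε ∉ A ∧ ∃ a : G → ZMod ℓ, ∀ u, ∀ y ∈ W, ∀ ε',
      u • c - c - (y - Z y) ∈ T → E y ε' → ε' = a u • ε := by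
  classical
  -- uniqueness of values
  have huniq : ∀ c ∈ W, ∀ ε ε', E c ε → E c ε' → ε = ε' := by
    intro c hc ε ε' h h'
    have h1 := hadd c hc (-c) (W.neg_mem hc) ε (-ε') h (hneg c hc ε' h')
    rw [add_neg_cancel] at h1
    have h2 := hET 0 T.zero_mem _ h1
    rwa [← sub_eq_add_neg, sub_eq_zero] at h2
  -- the quotient
  let T' : AddSubgroup W := T.addSubgroupOf W
  have memT' : ∀ w : W, w ∈ T' ↔ (w : C) ∈ T := fun w => AddSubgroup.mem_addSubgroupOf
  let mk : W →+ W ⧸ T' := QuotientAddGroup.mk' T'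
  have mk_surj : Function.Surjective mk := QuotientAddGroup.mk'_surjective T'
  have mk_eq : ∀ a b : W, mk a = mk b ↔ (a : C) - b ∈ T := by
    intro a b
    rw [← sub_eq_zero, ← map_sub]
    change (QuotientAddGroup.mk (a - b) : W ⧸ T') = 0 ↔ _
    rw [QuotientAddGroup.eq_zero_iff, memT']
    rfl
  -- induced endomorphism
  let ZW : W →+ W := (Z.comp W.subtype).codRestrict W fun c => hZW c c.2
  have ZW_coe : ∀ w : W, (ZW w : C) = Z w := fun w => rfl
  let Zb : W ⧸ T' →+ W ⧸ T' := QuotientAddGroup.map T' T' ZW fun w hw => by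
    rw [AddSubgroup.mem_comap, memT', ZW_coe]
    exact hZT _ ((memT' w).1 hw)
  have Zb_mk : ∀ w, Zb (mk w) = mk (ZW w) := fun w => rfl
  -- induced action
  let φ : G → W →+ W := fun u =>
    ((DistribSMul.toAddMonoidHom C u).comp W.subtype).codRestrict W fun c => hGW u c c.2
  have φ_coe : ∀ u (w : W), (φ u w : C) = u • (w : C) := fun u w => rfl
  let ψ : G → W ⧸ T' →+ W ⧸ T' := fun u => QuotientAddGroup.map T' T' (φ u) fun w hw => by
    rw [AddSubgroup.mem_comap, memT', φ_coe]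
    exact hGT u _ ((memT' w).1 hw)
  have ψ_mk : ∀ u w, ψ u (mk w) = mk (φ u w) := fun u w => rfl
  letI act : DistribMulAction G (W ⧸ T') :=
    { smul := fun u q => ψ u q
      one_smul := fun q => by
        obtain ⟨w, rfl⟩ := mk_surj q
        change ψ 1 (mk w) = mk w
        rw [ψ_mk]
        congr 1
        apply Subtype.ext
        rw [φ_coe, one_smul]
      mul_smul := fun u v q => by
        obtain ⟨w, rfl⟩ := mk_surj q
        change ψ (u * v) (mk w) = ψ u (ψ v (mk w))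
        rw [ψ_mk, ψ_mk, ψ_mk]
        congr 1
        apply Subtype.ext
        rw [φ_coe, φ_coe, φ_coe, mul_smul]
      smul_zero := fun u => map_zero (ψ u)
      smul_add := fun u x y => map_add (ψ u) x y }
  have smul_mk : ∀ (u : G) (w : W), u • (mk w) = mk (φ u w) := fun u w => rfl
  -- the homomorphism e
  have hex : ∀ w : W, ∃ ε, E w ε := fun w => hE w w.2
  choose ew hew using hex
  let eW : W →+ (ι → ZMod ℓ) :=
    { toFun := ew
      map_zero' := hET 0 T.zero_mem _ (hew 0)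
      map_add' := fun a b => huniq (a + b : W) (a + b).2 _ _ (hew (a + b))
        (hadd a a.2 b b.2 _ _ (hew a) (hew b)) }
  have eW_spec : ∀ w : W, E w (eW w) := hew
  let e : W ⧸ T' →+ (ι → ZMod ℓ) := QuotientAddGroup.lift T' eW fun w hw =>
    hET w ((memT' w).1 hw) _ (eW_spec w)
  have e_mk : ∀ w, e (mk w) = eW w := fun w => rfl
  have eW_uniq : ∀ (w : W) ε, E w ε → eW w = ε := fun w ε h => huniq w w.2 _ _ (eW_spec w) h
  -- iterates
  have it1 : ∀ (i : ℕ) (w : W), Zb^[i] (mk w) = mk (ZW^[i] w) := by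
    intro i
    induction i with
    | zero => intro w; rfl
    | succ i ih => intro w; rw [Function.iterate_succ_apply, Function.iterate_succ_apply, Zb_mk, ih]
  have it2 : ∀ (i : ℕ) (w : W), ((ZW^[i] w : W) : C) = Z^[i] (w : C) := by
    intro i
    induction i with
    | zero => intro w; rfl
    | succ i ih =>
      intro w
      rw [Function.iterate_succ_apply, Function.iterate_succ_apply, ih, ZW_coe]
  have it3 : ∀ (i : ℕ) (w : W), (fun h => h - Zb h)^[i] (mk w) = mk ((fun h => h - ZW h)^[i] w) := by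
    intro i
    induction i with
    | zero => intro w; rfl
    | succ i ih =>
      intro w
      rw [Function.iterate_succ_apply, Function.iterate_succ_apply, Zb_mk, ← map_sub, ih]
  have it4 : ∀ (i : ℕ) (w : W), (((fun h => h - ZW h)^[i] w : W) : C) =
      (fun h => h - Z h)^[i] (w : C) := by
    intro i
    induction i with
    | zero => intro w; rfl
    | succ i ih =>
      intro w
      rw [Function.iterate_succ_apply, Function.iterate_succ_apply, ih]
      rfl
  obtain ⟨q, hq0, a, ha⟩ := exists_eigen_not_mem (ℓ := ℓ) (H := W ⧸ T') (G := G) (ι := ι) Zb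
    (fun q => by
      obtain ⟨w, rfl⟩ := mk_surj q
      simp only [it1]
      rw [← map_sum, ← map_zero mk, mk_eq]
      have h1 := hZ w w.2
      rw [ZeroMemClass.coe_zero, sub_zero]
      change W.subtype (∑ i ∈ Finset.range ℓ, ZW^[i] w) ∈ T
      rw [map_sum]
      simp only [AddSubgroup.subtype_apply, it2]
      exact h1)
    (fun u q => by
      obtain ⟨w, rfl⟩ := mk_surj q
      rw [smul_mk, Zb_mk, Zb_mk, smul_mk, mk_eq, ZW_coe, φ_coe, φ_coe, ZW_coe]
      exact hZG u w w.2)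
    (fun q hq => by
      obtain ⟨w, rfl⟩ := mk_surj q
      rw [Zb_mk, mk_eq, ZW_coe] at hq
      rw [← map_zero mk, mk_eq, ZeroMemClass.coe_zero, sub_zero]
      refine hinj w w.2 ?_
      have := T.neg_mem hq
      rwa [neg_sub] at this)
    (fun q hq => by
      obtain ⟨w, rfl⟩ := mk_surj q
      rw [← map_zero mk, mk_eq, ZeroMemClass.coe_zero, sub_zero]
      refine hsep w w.2 fun n => ?_
      obtain ⟨y, hy⟩ := hq n
      obtain ⟨y', rfl⟩ := mk_surj y
      rw [it3, mk_eq, it4] at hy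
      exact ⟨y', y'.2, hy⟩)
    e
    (fun q => by
      obtain ⟨w, rfl⟩ := mk_surj q
      constructor
      · intro h
        rw [e_mk] at h
        have h1 := eW_spec w
        rw [h] at h1
        obtain ⟨y, hy, hyT⟩ := hker w w.2 h1
        refine ⟨mk ⟨y, hy⟩, ?_⟩
        rw [Zb_mk, ← map_sub, mk_eq]
        exact hyT
      · rintro ⟨y, hy⟩
        obtain ⟨y', rfl⟩ := mk_surj y
        rw [hy, map_sub, Zb_mk, e_mk, e_mk, sub_eq_zero]
        exact (eW_uniq (ZW y') _ (hZE y' y'.2 _ (eW_spec y'))).symm)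
    (fun u q => by
      obtain ⟨w, rfl⟩ := mk_surj q
      rw [smul_mk, e_mk, e_mk]
      exact eW_uniq (φ u w) _ (hGE u w w.2 _ (eW_spec w)))
    (fun u q => by
      obtain ⟨w, rfl⟩ := mk_surj q
      obtain ⟨M, hM, hMT⟩ := hfin u w w.2
      refine ⟨M, hM, ?_⟩
      rw [smul_mk, mk_eq, φ_coe]
      exact hMT)
    A
    (by
      obtain ⟨c, hcW, ε, hcE, hεA⟩ := hne
      refine ⟨mk ⟨c, hcW⟩, ?_⟩
      rw [e_mk, eW_uniq ⟨c, hcW⟩ ε hcE]
      exact hεA)
  obtain ⟨w, rfl⟩ := mk_surj q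
  rw [e_mk] at hq0
  refine ⟨w, w.2, eW w, eW_spec w, hq0, a, fun u y hy ε' hyT hyE => ?_⟩
  have h1 := ha u (mk ⟨y, hy⟩) (by
    rw [smul_mk, Zb_mk, ← map_sub, ← map_sub, mk_eq]
    exact hyT)
  rw [e_mk, e_mk, eW_uniq ⟨y, hy⟩ ε' hyE] at h1
  exact h1

end Pool.Agent.Lib.MP_89bcae_ag.Sup

end
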