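import Mathlib
import Pool.Agent.Lib.MP_89bcae_ag.Q.K049
import Pool.Agent.Lib.MP_89bcae_ag.Q.K058
import Pool.Agent.Lib.MP_89bcae_ag.Q.K060
import Pool.Agent.Lib.MP_89bcae_ag.Q.K081
import Pool.Agent.Lib.MP_89bcae_ag.Q.K082
import Pool.Agent.Lib.MP_89bcae_ag.Q.K083

section

/-!
ROW B04 (250-330 lines, almost all copied). An invariant Selmer class with exponents outside of `A`
gives a solution of the relations outside of `A`.

PROOF. Copy `G19.lean` (all its private lemmas under new names, `g19_...` to `b04_...`). In the proof of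
`TTc.of_WWc` use `exists_eigen_sub_not_mem` (B03) instead of `exists_eigen_sub`, with the given `A` and
`hne` from `hc`, `h`, `he`. It gives a class with exponents `e` outside of `A`; `ε ∉ A` implies `ε ≠ 0`.
At the end, instead of the contradiction with `IsIndependent`, the last two arguments of `hI` are
exactly the two parts of `IsSolution ℓ k F g D e`.
-/

open Polynomial IsDedekindDomain

open scoped Classical

namespace Pool.Agent.Lib.MP_89bcae_ag.Sup

universe u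

/-- An element of the algebraic closure with `ℓ`-th power in `K` which is fixed by all
automorphisms over `K` is in `K`. -/
private lemma b04_mem_of_fixed {k F : Type u} [Field k] [Field F] [Algebra k F] [IsAlgClosure k F]
    {ℓ : ℕ} (hℓ : (ℓ : k) ≠ 0) (K : IntermediateField k F) (y : F) (hy0 : y ≠ 0)
    (hy : y ^ ℓ ∈ K) (hfix : ∀ U : F ≃ₐ[k] F, (∀ a ∈ K, U a = a) → U y = y) : y ∈ K := by
  have : IsAlgClosed F := IsAlgClosure.isAlgClosed k
  have : Algebra.IsAlgebraic k F := IsAlgClosure.isAlgebraic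
  have : Algebra.IsAlgebraic K F := Algebra.IsAlgebraic.tower_top (K := k) K
  have : IsAlgClosure K F := ⟨inferInstance, inferInstance⟩
  have : Normal K F := IsAlgClosure.normal K F
  have hℓ0 : ℓ ≠ 0 := by
    rintro rfl
    exact hℓ (by simp)
  have hsep : IsSeparable K y := by
    have h1 : (X ^ ℓ - C (⟨y ^ ℓ, hy⟩ : K)).Separable := by
      apply separable_X_pow_sub_C
      · intro h
        apply hℓ
        have h2 := congrArg (algebraMap K F) h
        rw [map_natCast, map_zero, ← map_natCast (algebraMap k F)] at h2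
        exact (map_eq_zero _).mp h2
      · intro h
        have h2 := congrArg (fun z : K => (z : F)) h
        exact hy0 ((pow_eq_zero_iff hℓ0).mp h2)
    refine Polynomial.Separable.of_dvd h1 (minpoly.dvd K y ?_)
    rw [map_sub, map_pow, aeval_X, aeval_C]
    exact sub_self _
  by_contra hyK
  have h3 : y ∉ (⊥ : Subalgebra K F) := by
    intro h
    rw [Algebra.mem_bot] at h
    obtain ⟨z, rfl⟩ := h
    exact hyK z.2
  rw [notMem_iff_exists_ne_and_isConjRoot hsep (IsAlgClosed.splits _)] at h3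
  obtain ⟨y', hne, hconj⟩ := h3
  rw [isConjRoot_iff_exists_algEquiv] at hconj
  obtain ⟨σ, hσ⟩ := hconj
  have h4 := hfix (σ.restrictScalars k).symm (by
    intro a ha
    rw [AlgEquiv.symm_apply_eq]
    exact (σ.commutes ⟨a, ha⟩).symm)
  rw [AlgEquiv.symm_apply_eq] at h4
  apply hne
  apply σ.injective
  rw [hσ]
  exact h4.symm

/-- The descent of the Kummer classes. -/
private lemma b04_descent {k F : Type u} [Field k] [Field F] [Algebra k F] [IsAlgClosure k F]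
    {ℓ : ℕ} (hp : ℓ.Prime) (hℓ : (ℓ : k) ≠ 0) {ζ : k} (hζ : ζ ^ ℓ = 1) (K : IntermediateField k F)
    (S : Set F) (XX : F → F) (hX0 : ∀ β ∈ S, XX β ≠ 0) (hXK : ∀ β ∈ S, XX β ∈ K) (e : F → ℤ)
    {β₀ : F} (hβ₀ : β₀ ∈ S) (he : ¬ (ℓ : ℤ) ∣ e β₀)
    (hU : ∀ U : F ≃ₐ[k] F, (∀ a ∈ K, U a = a) → ∃ b : ℤ, ∀ β ∈ S, ∀ x : F, x ^ ℓ = XX β →
      U x = algebraMap k F ζ ^ (b * e β) * x) :
    ∃ κ ∈ K, κ ≠ 0 ∧ ∀ β ∈ S, ∃ w ∈ K, w ^ ℓ = XX β * (κ ^ e β)⁻¹ := by
  have : IsAlgClosed F := IsAlgClosure.isAlgClosed k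
  have hℓ0 : ℓ ≠ 0 := hp.ne_zero
  set z := algebraMap k F ζ with hz
  have hz1 : z ^ (ℓ : ℤ) = 1 := by
    rw [hz, zpow_natCast, ← map_pow, hζ, map_one]
  have hz0 : z ≠ 0 := by
    intro h
    rw [h, zpow_natCast, zero_pow hℓ0] at hz1
    exact zero_ne_one hz1
  -- `j e β₀ = 1 + ℓ s`
  obtain ⟨j, s, hjs⟩ : ∃ j s : ℤ, e β₀ * j = 1 + ℓ * s := by
    have hcop : IsCoprime (e β₀) (ℓ : ℤ) := by
      rw [isCoprime_comm]
      exact (Nat.prime_iff_prime_int.mp hp).coprime_iff_not_dvd.mpr he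
    obtain ⟨a, b, hab⟩ := hcop
    exact ⟨a, -b, by linarith⟩
  obtain ⟨x₀, hx₀⟩ := IsAlgClosed.exists_pow_nat_eq (XX β₀) (Nat.pos_of_ne_zero hℓ0)
  have hx₀0 : x₀ ≠ 0 := by
    rintro rfl
    rw [zero_pow hℓ0] at hx₀
    exact hX0 β₀ hβ₀ hx₀.symm
  refine ⟨XX β₀ ^ j, zpow_mem (hXK β₀ hβ₀) j, zpow_ne_zero _ (hX0 β₀ hβ₀), ?_⟩
  intro β hβ
  obtain ⟨x, hx⟩ := IsAlgClosed.exists_pow_nat_eq (XX β) (Nat.pos_of_ne_zero hℓ0)
  have hx0 : x ≠ 0 := by
    rintro rfl
    rw [zero_pow hℓ0] at hx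
    exact hX0 β hβ hx.symm
  have hpow : (x * ((x₀ ^ j) ^ e β)⁻¹) ^ ℓ = XX β * ((XX β₀ ^ j) ^ e β)⁻¹ := by
    rw [mul_pow, hx, inv_pow, ← hx₀]
    congr 2
    rw [← zpow_natCast, ← zpow_natCast, ← zpow_mul, ← zpow_mul, ← zpow_mul, ← zpow_mul]
    congr 1
    ring
  refine ⟨x * ((x₀ ^ j) ^ e β)⁻¹, ?_, hpow⟩
  apply b04_mem_of_fixed hℓ K _ (mul_ne_zero hx0 (inv_ne_zero (zpow_ne_zero _ (zpow_ne_zero _ hx₀0))))
  · rw [hpow]
    exact K.mul_mem (hXK β hβ) (K.inv_mem (zpow_mem (zpow_mem (hXK β₀ hβ₀) j) _))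
  · intro U hUK
    obtain ⟨b, hb⟩ := hU U hUK
    have h1 := hb β hβ x hx
    have h2 := hb β₀ hβ₀ x₀ hx₀
    rw [map_mul, map_inv₀, map_zpow₀, map_zpow₀, h1, h2]
    have h3 : (z ^ (b * e β₀) * x₀) ^ j = z ^ b * x₀ ^ j := by
      rw [mul_zpow, ← zpow_mul, mul_assoc b, hjs, mul_add, mul_one, zpow_add₀ hz0,
        show b * ((ℓ : ℤ) * s) = ℓ * (b * s) by ring, zpow_mul z (ℓ : ℤ), hz1, one_zpow, mul_one]
    rw [h3, mul_zpow, ← zpow_mul]
    have hzz : z ^ (b * e β) ≠ 0 := zpow_ne_zero _ hz0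
    have hxx : (x₀ ^ j) ^ e β ≠ 0 := zpow_ne_zero _ (zpow_ne_zero _ hx₀0)
    field_simp

variable {k F L Ω : Type u} [Field k] [Field F] [Algebra k F] [Field L] [Algebra F[X] L]
  [Field Ω] [Algebra L Ω] [IsAlgClosure k F] [IsFractionRing F[X] L] [IsAlgClosure L Ω]
  [Algebra F Ω] {ℓ : ℕ} {g D : k[X]} [hG : IsGood ℓ (cOver k F L Ω g D)] {ζ : k}

/-- The automorphisms whose restriction fixes the roots. -/
private def b04G : Subgroup (AutO k F L Ω) where
  carrier := {γ | ∀ β ∈ RR F g D, resF γ β = β}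
  mul_mem' {γ γ'} h h' β hβ := by
    rw [map_mul, AlgEquiv.mul_apply, h' β hβ, h β hβ]
  one_mem' β _ := by
    rw [map_one, AlgEquiv.one_apply]
  inv_mem' {γ} h β hβ := by
    rw [map_inv]
    have h1 := h β hβ
    calc (resF γ)⁻¹ β = (resF γ)⁻¹ (resF γ β) := by rw [h1]
      _ = ((resF γ)⁻¹ * resF γ) β := rfl
      _ = β := by rw [inv_mul_cancel, AlgEquiv.one_apply]

/-- The action on the cochains. -/
@[instance_reducible]
private noncomputable def b04A : DistribMulAction (b04G (L := L) (Ω := Ω) (F := F) (g := g) (D := D))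
    (Coch ℓ k F L Ω g D) where
  smul γ c := act (γ : AutO k F L Ω) c
  one_smul c := act_one c
  mul_smul _ _ c := act_mul _ _ c
  smul_zero _ := act_zero _
  smul_add _ c c' := act_add _ c c'

/-- The formula for one automorphism of `F`. -/
private lemma b04_formula (hF : CompatF F L Ω) (H : GlobHyp ℓ g D ζ)
    {hζ : (zA F L Ω ζ) ^ ℓ = 1}
    {c : Coch ℓ k F L Ω g D} (hc : WWc c) {e : F → ℤ} (h : HasExp hζ c e) (γ : AutO k F L Ω)
    (hγ : ∀ β ∈ RR F g D, resF γ β = β) (b : ℤ)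
    (hb : ∀ (y : Coch ℓ k F L Ω g D) (e' : F → ℤ), WWc y →
      TTc (act γ c - c - (y - Sup.zC ζ hζ y)) → HasExp hζ y e' →
      ∀ β ∈ RR F g D, (ℓ : ℤ) ∣ e' β - b * e β) :
    ∀ β ∈ RR F g D, ∀ x : F,
      x ^ ℓ = ((-1) ^ (ℓ + 1) * algebraMap k F D.leadingCoeff) ^ e β *
        ∏ β' ∈ (RR F g D).filter fun β' => aeval β' g ≠ aeval β g, (β - β') ^ (e β - e β') →
      resF γ x = algebraMap k F ζ ^ (b * e β) * x := by
  intro β hβ x hx
  have h1 : HasExp hζ (act γ c - c) (fun β => e β + -e β) := by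
    rw [sub_eq_add_neg]
    exact (h.act hF H γ hγ).add hF H (h.neg hF H)
  obtain ⟨y, hy, hyT⟩ := exists_division hF H ((hc.act γ).sub hc) h1
    (fun β _ => by rw [add_neg_cancel]; exact dvd_zero _)
  obtain ⟨e', he'⟩ := exists_hasExp (hζ := hζ) hF H hy.1 hy.2.1
  have h2 := exists_formula_symm hF H hc.1 hc.2.1 hy.1 h he' γ hγ hyT β hβ x hx
  obtain ⟨s, hs⟩ := hb y e' hy hyT he' β hβ
  have hz1 : algebraMap k F ζ ^ (ℓ : ℤ) = 1 := by
    rw [zpow_natCast, ← map_pow, H.zeta.pow_eq_one, map_one]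
  have hz0 : algebraMap k F ζ ≠ 0 := by
    rw [Ne, map_eq_zero]
    exact H.zeta.ne_zero H.prime.ne_zero
  rw [h2, show e' β = b * e β + ℓ * s by rw [← hs]; ring, zpow_add₀ hz0, zpow_mul _ (ℓ : ℤ), hz1,
    one_zpow, mul_one]

variable {hζ : (zA F L Ω ζ) ^ ℓ = 1}

theorem exists_solution (hF : CompatF F L Ω) (H : GlobHyp ℓ g D ζ)
    (A : AddSubgroup ({β // β ∈ RR F g D} → ZMod ℓ)) {c : Coch ℓ k F L Ω g D} (hc : WWc c)
    {e : F → ℤ} (h : HasExp hζ c e)
    (he : (fun β : {β // β ∈ RR F g D} => ((e β : ℤ) : ZMod ℓ)) ∉ A) :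
    ∃ e' : F → ℤ, IsSolution ℓ k F g D e' ∧
      (fun β : {β // β ∈ RR F g D} => ((e' β : ℤ) : ZMod ℓ)) ∉ A := by
  have hζ0 : IsPrimitiveRoot (zA F L Ω ζ) ℓ := zA_primitive H
  have : Fact ℓ.Prime := ⟨H.prime⟩
  let W : AddSubgroup (Coch ℓ k F L Ω g D) :=
    { carrier := {c | WWc c}
      zero_mem' := TTc.zero.ww
      add_mem' := fun h h' => WWc.add h h'
      neg_mem' := fun h => WWc.neg h }
  let T : AddSubgroup (Coch ℓ k F L Ω g D) :=
    { carrier := {c | TTc c}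
      zero_mem' := TTc.zero
      add_mem' := fun h h' => TTc.add h h'
      neg_mem' := fun h => TTc.neg h }
  have hW : ∀ c, c ∈ W ↔ WWc c := fun c => Iff.rfl
  have hT : ∀ c, c ∈ T ↔ TTc c := fun c => Iff.rfl
  obtain ⟨c, hc, ε, ⟨e, he, heε⟩, hεA, a, ha⟩ :=
    @exists_eigen_sub_not_mem ℓ _ (Coch ℓ k F L Ω g D)
    (b04G (L := L) (Ω := Ω) (F := F) (g := g) (D := D)) {β // β ∈ RR F g D} _ _ b04A _
    W T (Sup.zC ζ hζ)
    (fun c hc => hc.ww) (fun c hc => WWc.zC H hc hζ) (fun c hc => TTc.zC hc ζ hζ)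
    (by
      intro u c hc
      exact WWc.act (γ := (u : AutO k F L Ω)) hc)
    (by
      intro u c hc
      exact TTc.act (γ := (u : AutO k F L Ω)) hc)
    (fun c hc => by
      rw [sum_zC_mem ζ hζ0 c]
      exact TTc.zero)
    (by
      intro u c hc
      change TTc (Sup.zC ζ hζ (Sup.act (u : AutO k F L Ω) c) -
        Sup.act (u : AutO k F L Ω) (Sup.zC ζ hζ c))
      rw [act_zC, sub_self]
      exact TTc.zero)
    (fun c hc hcT => TTc.of_sub_zC H hζ hc.1 hcT)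
    (fun c hc h => TTc.of_separated H hζ hc.1 (fun n => by
      obtain ⟨y, hy, hyT⟩ := h n
      exact ⟨y, hy.1, hyT⟩))
    (fun c ε => ∃ e : F → ℤ, HasExp hζ c e ∧ ∀ β : {β // β ∈ RR F g D}, ε β = (e β : ZMod ℓ))
    (fun c hc => by
      obtain ⟨e, he⟩ := exists_hasExp (hζ := hζ) hF H hc.1 hc.2.1
      exact ⟨fun β => (e β : ZMod ℓ), e, he, fun β => rfl⟩)
    (by
      rintro c hc c' hc' ε ε' ⟨e, he, h⟩ ⟨e', he', h'⟩
      refine ⟨_, he.add hF H he', fun β => ?_⟩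
      rw [Pi.add_apply, h, h', Int.cast_add])
    (by
      rintro c hc ε ⟨e, he, h⟩
      refine ⟨_, he.neg hF H, fun β => ?_⟩
      rw [Pi.neg_apply, h, Int.cast_neg])
    (by
      rintro c hc ε ⟨e, he, h⟩
      funext β
      rw [h, Pi.zero_apply, ZMod.intCast_zmod_eq_zero_iff_dvd]
      exact he.dvd_of_TTc hF H hc β β.2)
    (by
      rintro c hc ε ⟨e, he, h⟩
      exact ⟨e, he.zC hF H, h⟩)
    (by
      rintro c hc ⟨e, he, h⟩
      exact exists_division hF H hc he (fun β hβ => by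
        rw [← ZMod.intCast_zmod_eq_zero_iff_dvd, ← h ⟨β, hβ⟩, Pi.zero_apply]))
    (by
      rintro u c hc ε ⟨e, he, h⟩
      exact ⟨e, he.act hF H _ u.2, h⟩)
    (by
      intro u c hc
      obtain ⟨M, hM, h⟩ := hc.2.2 (u : AutO k F L Ω)
      exact ⟨M, hM, h⟩)
    A ⟨c, hc, _, ⟨e, h, fun β => rfl⟩, he⟩
  have hε : ε ≠ 0 := by
    rintro rfl
    exact hεA A.zero_mem
  -- an exponent not divisible by `ℓ`
  obtain ⟨β₀, hβ₀, heβ₀⟩ : ∃ β₀ ∈ RR F g D, ¬ (ℓ : ℤ) ∣ e β₀ := by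
    by_contra h
    push Not at h
    apply hε
    funext β
    rw [heε, Pi.zero_apply, ZMod.intCast_zmod_eq_zero_iff_dvd]
    exact h β β.2
  set K := IntermediateField.adjoin k (roots k F g D) with hK
  have hRK : ∀ β ∈ RR F g D, β ∈ K := fun β hβ =>
    IntermediateField.subset_adjoin k _ ((mem_RR H).mp hβ)
  have hmemR : ∀ β, β ∈ roots k F g D ↔ β ∈ RR F g D := fun β => (mem_RR H).symm
  set c0 : F := (-1) ^ (ℓ + 1) * algebraMap k F D.leadingCoeff with hc0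
  have hD0 : D ≠ 0 := by
    rintro rfl
    exact H.pos natDegree_zero
  have hc00 : c0 ≠ 0 := by
    rw [hc0]
    refine mul_ne_zero (pow_ne_zero _ (neg_ne_zero.mpr one_ne_zero)) ?_
    rw [Ne, map_eq_zero, leadingCoeff_eq_zero]
    exact hD0
  have hc0K : c0 ∈ K := by
    rw [hc0]
    exact K.mul_mem (pow_mem (K.neg_mem K.one_mem) _) (K.algebraMap_mem _)
  obtain ⟨κ, hκK, hκ0, hκ⟩ := b04_descent (k := k) (F := F) H.prime H.ne H.zeta.pow_eq_one K
    (RR F g D : Set F)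
    (fun β => c0 ^ e β *
      ∏ β' ∈ (RR F g D).filter fun β' => aeval β' g ≠ aeval β g, (β - β') ^ (e β - e β'))
    (by
      intro β hβ
      refine mul_ne_zero (zpow_ne_zero _ hc00) (Finset.prod_ne_zero_iff.mpr fun β' hβ' =>
        zpow_ne_zero _ ?_)
      rw [Finset.mem_filter] at hβ'
      intro h0
      exact hβ'.2 (by rw [sub_eq_zero.mp h0]))
    (by
      intro β hβ
      refine K.mul_mem (zpow_mem hc0K _) (prod_mem fun β' hβ' => zpow_mem (K.sub_mem (hRK β hβ)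
        (hRK β' (Finset.mem_filter.mp hβ').1)) _))
    e hβ₀ heβ₀
    (by
      intro U hU
      obtain ⟨γ, rfl⟩ := resF_surjective (L := L) (Ω := Ω) U
      have hγ : ∀ β ∈ RR F g D, resF γ β = β := fun β hβ => hU β (hRK β hβ)
      refine ⟨((a ⟨γ, hγ⟩).val : ℤ), ?_⟩
      refine b04_formula hF H hc he γ hγ _ ?_
      intro y e' hy hyT he' β hβ
      have h1 := ha ⟨γ, hγ⟩ y hy (fun β => (e' β : ZMod ℓ)) hyT ⟨e', he', fun β => rfl⟩
      have h2 := congrFun h1 ⟨β, hβ⟩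
      rw [← ZMod.intCast_zmod_eq_zero_iff_dvd]
      rw [Pi.smul_apply, heε, smul_eq_mul] at h2
      push_cast
      rw [h2, ZMod.natCast_zmod_val, sub_self])
  have hεe : (fun β : {β // β ∈ RR F g D} => ((e β : ℤ) : ZMod ℓ)) = ε := by
    funext β
    exact (heε β).symm
  refine ⟨e, ⟨?_, c0 * κ⁻¹, K.mul_mem hc0K (K.inv_mem hκK), mul_ne_zero hc00 (inv_ne_zero hκ0), ?_⟩,
    ?_⟩
  · intro β hβ
    have h2 := he.sum (aeval β g)
    have h3 : {β' : F | aeval β' g = aeval β g} =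
        (((RR F g D).filter fun β' => aeval β' g = aeval β g : Finset F) : Set F) := by
      ext β'
      rw [Finset.coe_filter, Set.mem_ofPred_eq, Set.mem_ofPred_eq]
      refine ⟨fun h => ⟨?_, h⟩, fun h => h.2⟩
      rw [mem_RR H, h]
      exact hβ
    rw [h3, finsum_mem_coe_finset]
    exact h2
  · intro β hβ
    obtain ⟨w, hw, hwe⟩ := hκ β ((hmemR β).mp hβ)
    refine ⟨w, hw, ?_⟩
    have h3 : {β' ∈ roots k F g D | aeval β' g ≠ aeval β g} =
        (((RR F g D).filter fun β' => aeval β' g ≠ aeval β g : Finset F) : Set F) := by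
      ext β'
      rw [Finset.coe_filter, Set.mem_ofPred_eq, Set.mem_ofPred_eq, hmemR]
    rw [h3, finprod_mem_coe_finset, hwe, mul_zpow c0, inv_zpow]
    ring
  · rw [hεe]
    exact hεA

end Pool.Agent.Lib.MP_89bcae_ag.Sup

end

section

/-!
If all the solutions of the relations are exponents of classes of `M`, then all invariant Selmer
classes are classes of `M`.
-/

open Polynomial IsDedekindDomain

open scoped Classical

namespace Pool.Agent.Lib.MP_89bcae_ag.Sup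

universe u

variable {k F L Ω : Type u} [Field k] [Field F] [Algebra k F] [Field L] [Algebra F[X] L]
  [Field Ω] [Algebra L Ω] [IsAlgClosure k F] [IsFractionRing F[X] L] [IsAlgClosure L Ω]
  [Algebra F Ω] {ℓ : ℕ} {g D : k[X]} [hG : IsGood ℓ (cOver k F L Ω g D)] {ζ : k}
  {hζ : (zA F L Ω ζ) ^ ℓ = 1} {M : AddSubgroup (JacOver ℓ (curvePoly k F L g D) Ω)}

theorem KMc.of_WWc (hF : CompatF F L Ω) (H : GlobHyp ℓ g D ζ)
    (hM : ∀ Q ∈ M, zJ (zA F L Ω ζ) hζ Q ∈ M)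
    (hS : ∀ e : F → ℤ, IsSolution ℓ k F g D e → ∃ (c : Coch ℓ k F L Ω g D) (e' : F → ℤ),
      WWc c ∧ KMc M c ∧ HasExp hζ c e' ∧ ∀ β ∈ RR F g D, (ℓ : ℤ) ∣ e β - e' β)
    {c : Coch ℓ k F L Ω g D} (hc : WWc c) : KMc M c := by
  let A : AddSubgroup ({β // β ∈ RR F g D} → ZMod ℓ) :=
    { carrier := {ε | ∃ (c : Coch ℓ k F L Ω g D) (e : F → ℤ), WWc c ∧ KMc M c ∧
        HasExp hζ c e ∧ ∀ β : {β // β ∈ RR F g D}, ε β = ((e β : ℤ) : ZMod ℓ)}
      zero_mem' := by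
        have hT : TTc (0 : Coch ℓ k F L Ω g D) := TTc.zero
        obtain ⟨e, he⟩ := exists_hasExp (hζ := hζ) hF H hT.1 hT.lt
        refine ⟨0, e, hT.ww, hT.km, he, fun β => ?_⟩
        have h1 := he.dvd_of_TTc hF H hT β β.2
        rw [Pi.zero_apply, eq_comm, ZMod.intCast_zmod_eq_zero_iff_dvd]
        exact h1
      add_mem' := by
        rintro ε ε' ⟨c, e, hc, hk, he, h⟩ ⟨c', e', hc', hk', he', h'⟩
        refine ⟨c + c', fun β => e β + e' β, hc.add hc', hk.add hk', he.add hF H he',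
          fun β => ?_⟩
        rw [Pi.add_apply, h, h', Int.cast_add]
      neg_mem' := by
        rintro ε ⟨c, e, hc, hk, he, h⟩
        refine ⟨-c, fun β => -e β, hc.neg, hk.neg, he.neg hF H, fun β => ?_⟩
        rw [Pi.neg_apply, h, Int.cast_neg] }
  have hA : ∀ (c : Coch ℓ k F L Ω g D) (e : F → ℤ), WWc c → HasExp hζ c e →
      (fun β : {β // β ∈ RR F g D} => ((e β : ℤ) : ZMod ℓ)) ∈ A := by
    intro c e hc he
    by_contra hn
    obtain ⟨e', he', hne'⟩ := exists_solution hF H A hc he hn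
    obtain ⟨c', e'', hc', hk', hx', hd⟩ := hS e' he'
    apply hne'
    refine ⟨c', e'', hc', hk', hx', fun β => ?_⟩
    have h1 := hd β β.2
    rw [← sub_eq_zero, ← Int.cast_sub, ZMod.intCast_zmod_eq_zero_iff_dvd]
    exact h1
  have step : ∀ c : Coch ℓ k F L Ω g D, WWc c → ∃ c' y : Coch ℓ k F L Ω g D,
      KMc M c' ∧ WWc y ∧ TTc (c - c' - (y - Sup.zC ζ hζ y)) := by
    intro c hc
    obtain ⟨e, he⟩ := exists_hasExp (hζ := hζ) hF H hc.1 hc.2.1
    obtain ⟨c', e', hc', hk', hx', hd⟩ := hA c e hc he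
    have h1 : HasExp hζ (c - c') (fun β => e β + -e' β) := by
      rw [sub_eq_add_neg]
      exact he.add hF H (hx'.neg hF H)
    obtain ⟨y, hy, hT⟩ := exists_division hF H (hc.sub hc') h1 (by
      intro β hβ
      have h2 := hd ⟨β, hβ⟩
      rw [← ZMod.intCast_zmod_eq_zero_iff_dvd, Int.cast_add, Int.cast_neg, ← sub_eq_add_neg,
        sub_eq_zero]
      exact h2)
    exact ⟨c', y, hk', hy, hT⟩
  have iter : ∀ (n : ℕ) (c : Coch ℓ k F L Ω g D), WWc c → ∃ y : Coch ℓ k F L Ω g D, WWc y ∧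
      KMc M (c - (fun x => x - Sup.zC ζ hζ x)^[n] y) := by
    intro n
    induction n with
    | zero =>
      intro c hc
      refine ⟨c, hc, ?_⟩
      rw [Function.iterate_zero, id_eq, sub_self]
      exact TTc.zero.km
    | succ n ih =>
      intro c hc
      obtain ⟨c', y₁, hk', hy₁, hT⟩ := step c hc
      obtain ⟨y, hy, hk⟩ := ih y₁ hy₁
      refine ⟨y, hy, ?_⟩
      have h : c - (fun x => x - Sup.zC ζ hζ x)^[n + 1] y =
          (c - c' - (y₁ - Sup.zC ζ hζ y₁)) +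
            (c' + ((y₁ - (fun x => x - Sup.zC ζ hζ x)^[n] y) +
              -(Sup.zC ζ hζ (y₁ - (fun x => x - Sup.zC ζ hζ x)^[n] y)))) := by
        rw [Function.iterate_succ_apply', map_sub]
        abel
      rw [h]
      exact hT.km.add (hk'.add (hk.add (hk.zC ζ hζ hM).neg))
  exact KMc.of_separated H hζ hc.1 fun n => by
    obtain ⟨y, hy, hk⟩ := iter n c hc
    exact ⟨y, hy.1, hk⟩

end Pool.Agent.Lib.MP_89bcae_ag.Sup

end
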